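import Pool.Agent.Lib.MP_4287a9_ag.EpsA

/-!
Base change of exactness.
-/

open scoped TensorProduct ENNReal NNReal nonZeroDivisors Polynomial
open Filter

namespace Pool.Agent.Lib.MP_4287a9_ag

noncomputable section

namespace C2Aux

variable {Λ : Type} [CommRing Λ]

theorem flat_ker {B C : Type} [AddCommGroup B] [Module Λ B] [AddCommGroup C] [Module Λ C]
    [Module.Flat Λ B] [Module.Flat Λ C] (g : B →ₗ[Λ] C) (hg : Function.Surjective g) :
    Module.Flat Λ (LinearMap.ker g) := by
  refine Module.Flat.of_forall_exists_factorization fun {l f x} hx => ?_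
  obtain ⟨k, a, y, h1, h2⟩ := Module.Flat.exists_factorization_of_apply_eq_zero_of_free
    (f := f) (x := (LinearMap.ker g).subtype ∘ₗ x) (by simp [hx])
  have h3 : (g ∘ₗ y) ∘ₗ a = 0 := by
    rw [LinearMap.comp_assoc, ← h1]
    exact LinearMap.ext fun v => (x v).2
  obtain ⟨k', r, w, h4, h5⟩ := Module.Flat.exists_factorization_of_comp_eq_zero_of_free h3
  obtain ⟨w', h6⟩ := Module.projective_lifting_property g w hg
  have h7 : ∀ v, (y - w' ∘ₗ r) v ∈ LinearMap.ker g := by
    intro v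
    have e1 := LinearMap.congr_fun h4 v
    have e2 := LinearMap.congr_fun h6 (r v)
    simp only [LinearMap.comp_apply] at e1 e2
    simp [e1, e2]
  refine ⟨k, a, (y - w' ∘ₗ r).codRestrict _ h7, LinearMap.ext fun v => Subtype.ext ?_, h2⟩
  have e1 := LinearMap.congr_fun h1 v
  have e2 := LinearMap.congr_fun h5 v
  simp only [LinearMap.comp_apply, Submodule.subtype_apply, LinearMap.zero_apply] at e1 e2
  simp [e1, e2]

variable {M M' : Type} [AddCommGroup M] [Module Λ M] [AddCommGroup M'] [Module Λ M']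

theorem flat_inf (d : M →ₗ[Λ] M') (C : Submodule Λ M) (h1 : Module.Flat Λ C)
    (h2 : Module.Flat Λ (C.map d)) : Module.Flat Λ (C ⊓ LinearMap.ker d : Submodule Λ M) := by
  have h3 := flat_ker (d.submoduleMap C) (d.submoduleMap_surjective C)
  have h4 : (C ⊓ LinearMap.ker d).comap C.subtype = LinearMap.ker (d.submoduleMap C) := by
    ext v
    simp only [Submodule.mem_comap, Submodule.mem_inf, LinearMap.mem_ker, Submodule.subtype_apply,
      Subtype.ext_iff, LinearMap.submoduleMap_coe_apply, ZeroMemClass.coe_zero]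
    exact ⟨fun h => h.2, fun h => ⟨v.2, h⟩⟩
  exact Module.Flat.of_linearEquiv
    ((Submodule.comapSubtypeEquivOfLe inf_le_left).symm.trans (LinearEquiv.ofEq _ _ h4))

theorem pure_inf (d : M →ₗ[Λ] M') (C : Submodule Λ M) (z : Ideal Λ)
    (h2 : Module.Flat Λ (C.map d)) {v : M} (hv : v ∈ z • C) (h0 : d v = 0) :
    v ∈ z • (C ⊓ LinearMap.ker d) := by
  classical
  have e : Submodule.span Λ (Set.range (Subtype.val : C → M)) = C := by simp
  rw [← e, Submodule.mem_ideal_smul_span_iff_exists_sum] at hv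
  obtain ⟨a, ha, rfl⟩ := hv
  rw [Finsupp.sum, ← Finset.sum_coe_sort] at h0 ⊢
  obtain ⟨k, A, y, e1, e2⟩ := Module.Flat.isTrivialRelation_of_sum_smul_eq_zero
    (f := fun i : a.support => a i) (x := fun i : a.support => d.submoduleMap C i) (by
      refine Subtype.ext ?_
      simpa using h0)
  choose b hb using fun j => d.submoduleMap_surjective C (y j)
  have e3 : ∑ i : a.support, a i • ((i : C) : M) =
      ∑ i : a.support, a i • (((i : C) : M) - ∑ j, A i j • (b j : M)) := by
    simp only [smul_sub, Finset.sum_sub_distrib, Finset.smul_sum, smul_smul]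
    rw [Finset.sum_comm]
    simp only [← Finset.sum_smul, e2, zero_smul, Finset.sum_const_zero, sub_zero]
  rw [e3]
  refine Submodule.sum_mem _ fun i _ => Submodule.smul_mem_smul (ha _) ⟨?_, ?_⟩
  · exact sub_mem (i : C).2 (Submodule.sum_mem _ fun j _ => C.smul_mem _ (b j).2)
  · have e4 := congrArg Subtype.val (e1 i)
    simp only [← hb, LinearMap.submoduleMap_coe_apply, Submodule.coe_sum,
      Submodule.coe_smul] at e4
    change d _ = 0
    simp [e4]

theorem flat_pi {ι : Type} [Fintype ι] (L : ι → Submodule Λ M) (h : ∀ i, Module.Flat Λ (L i)) :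
    Module.Flat Λ (Submodule.pi Set.univ L) := by
  classical
  have h1 : Module.Flat Λ (∀ i, L i) :=
    Module.Flat.of_linearEquiv (DFinsupp.linearEquivFunOnFintype (R := Λ) (M := fun i => L i)).symm
  refine Module.Flat.of_retract (M := ∀ i, L i)
    (LinearMap.pi fun i => ((LinearMap.proj i).comp (Submodule.pi Set.univ L).subtype).codRestrict
      (L i) fun c => c.2 i trivial)
    ((LinearMap.pi fun i => (L i).subtype.comp (LinearMap.proj i)).codRestrict _
      fun c i _ => (c i).2) rfl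

theorem mem_smul_pi {ι : Type} [Fintype ι] (L : ι → Submodule Λ M) (z : Ideal Λ) {c : ι → M}
    (h : ∀ i, c i ∈ z • L i) : c ∈ z • Submodule.pi Set.univ L := by
  classical
  rw [← Finset.univ_sum_single c]
  refine Submodule.sum_mem _ fun i _ => ?_
  have h1 : (L i).map (LinearMap.single Λ (fun _ => M) i) ≤ Submodule.pi Set.univ L := by
    rintro _ ⟨v, hv, rfl⟩ j -
    by_cases hj : j = i
    · subst hj
      simpa using hv
    · simp [hj]
  have h2 := Submodule.mem_map_of_mem (f := LinearMap.single Λ (fun _ => M) i) (h i)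
  rw [Submodule.map_smul''] at h2
  exact Submodule.smul_mono le_rfl h1 h2

/-- The Cech differential as a linear map. -/
def dL (Λ M : Type) [CommRing Λ] [AddCommGroup M] [Module Λ M] (m : ℕ) :
    (Finset (Fin m) → M) →ₗ[Λ] (Finset (Fin m) → M) where
  toFun := cdel
  map_add' := cdel_add
  map_smul' a c := by
    funext σ
    exact cdel_comp (DistribSMul.toAddMonoidHom M a) c σ

variable {m : ℕ}

/-- Cochains on sets with `s + 1` elements. -/
def Co (L : Finset (Fin m) → Submodule Λ M) (s : ℕ) : Submodule Λ (Finset (Fin m) → M) :=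
  Submodule.pi Set.univ fun σ => if σ.card = s + 1 then L σ else ⊥

theorem mem_Co {L : Finset (Fin m) → Submodule Λ M} {s : ℕ} {c : Finset (Fin m) → M} :
    c ∈ Co L s ↔ (∀ σ, σ.card = s + 1 → c σ ∈ L σ) ∧ ∀ σ, σ.card ≠ s + 1 → c σ = 0 := by
  constructor
  · intro h
    refine ⟨fun σ hσ => ?_, fun σ hσ => ?_⟩
    · simpa [hσ] using h σ trivial
    · simpa [hσ] using h σ trivial
  · intro h σ _
    by_cases hσ : σ.card = s + 1
    · simpa [hσ] using h.1 σ hσ
    · simpa [hσ] using h.2 σ hσ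

theorem cdel_off {s : ℕ} {c : Finset (Fin m) → M} (h : ∀ σ, σ.card ≠ s + 1 → c σ = 0)
    (σ : Finset (Fin m)) (hσ : σ.card ≠ s + 2) : cdel c σ = 0 := by
  rw [cdel_apply]
  refine Finset.sum_eq_zero fun a ha => ?_
  rw [h, smul_zero]
  have := Finset.card_erase_add_one ha
  omega

theorem map_Co {L : Finset (Fin m) → Submodule Λ M}
    (hmono : ∀ σ σ' : Finset (Fin m), σ.Nonempty → σ ⊆ σ' → L σ ≤ L σ') {s : ℕ}
    (hex : CExact (fun σ => (L σ : Set M)) (s + 1)) :
    (Co L s).map (dL Λ M m) = Co L (s + 1) ⊓ LinearMap.ker (dL Λ M m) := by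
  refine le_antisymm ?_ ?_
  · rintro _ ⟨c, hc, rfl⟩
    obtain ⟨h1, h2⟩ := mem_Co.1 hc
    refine ⟨mem_Co.2 ⟨fun σ hσ => ?_, cdel_off h2⟩, cdel_cdel c⟩
    change cdel c σ ∈ L σ
    rw [cdel_apply]
    refine Submodule.sum_mem _ fun a ha => zsmul_mem ?_ _
    have h3 := Finset.card_erase_add_one ha
    exact hmono _ _ (Finset.card_pos.1 (by omega)) (Finset.erase_subset a σ) (h1 _ (by omega))
  · rintro c ⟨hc, h0⟩
    obtain ⟨h1, h2⟩ := mem_Co.1 hc
    have h3 : cdel c = 0 := h0
    obtain ⟨b, b1, b2⟩ := hex c h1 fun σ _ => by rw [h3]; rfl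
    have b3 : ∀ σ : Finset (Fin m), σ.card ≠ s + 1 →
        (if σ.card = s + 1 then b σ else 0) = 0 := fun σ hσ => if_neg hσ
    refine ⟨fun σ => if σ.card = s + 1 then b σ else 0, mem_Co.2 ⟨fun σ hσ => ?_, b3⟩, ?_⟩
    · rw [if_pos hσ]
      exact b1 σ hσ
    · funext σ
      change cdel _ σ = _
      by_cases hσ : σ.card = s + 2
      · rw [← b2 σ hσ]
        exact cdel_congr fun τ hτ => if_pos (by omega)
      · rw [cdel_off b3 σ hσ, h2 σ hσ]

end C2Aux

open C2Aux in
/-- Let `C s` be the product of the `L σ` with `card σ = s + 1` (flat over `Λ`) and `Z s` the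
cocycles. By descending induction `Z s` is flat for `s ≥ 1` (sequence
`0 → Z s → C s → Z (s + 1) → 0`), and `Z s ∩ z C s = z Z s`. Given a cocycle modulo `z` lift it to
`c ∈ C s`; `cdel c ∈ Z (s + 1) ∩ z C (s + 1) = z Z (s + 1) = cdel (z C s)` (purity), so `c` is
congruent modulo `z` to a cocycle, which is a coboundary. -/
theorem cexact_map {Λ N N' : Type} [CommRing Λ] [AddCommGroup N] [Module Λ N] [AddCommGroup N']
    {m : ℕ} (z : Ideal Λ) (π : N →+ N') (hker : ∀ v, π v = 0 ↔ v ∈ z • (⊤ : Submodule Λ N))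
    (L : Finset (Fin m) → Submodule Λ N)
    (hmono : ∀ σ σ' : Finset (Fin m), σ.Nonempty → σ ⊆ σ' → L σ ≤ L σ')
    (hflat : ∀ σ : Finset (Fin m), σ.Nonempty → Module.Flat Λ (L σ))
    (hpure : ∀ σ : Finset (Fin m), σ.Nonempty → Pure z (L σ))
    (hex : ∀ s, 1 ≤ s → CExact (fun σ => (L σ : Set N)) s) (s : ℕ) (hs : 1 ≤ s) :
    CExact (fun σ => π '' (L σ : Set N)) s := by
  have fC : ∀ t, Module.Flat Λ (Co L t) := by
    intro t
    refine flat_pi _ fun σ => ?_
    by_cases hσ : σ.card = t + 1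
    · rw [if_pos hσ]
      exact hflat σ (Finset.card_pos.1 (by omega))
    · rw [if_neg hσ]
      infer_instance
  have mC : ∀ t, (Co L t).map (dL Λ N m) = Co L (t + 1) ⊓ LinearMap.ker (dL Λ N m) := fun t =>
    map_Co hmono (hex (t + 1) (by omega))
  have fZ : ∀ j t, m ≤ t + j →
      Module.Flat Λ (Co L t ⊓ LinearMap.ker (dL Λ N m) : Submodule Λ _) := by
    intro j
    induction j with
    | zero =>
      intro t ht
      have h1 : Co L t ⊓ LinearMap.ker (dL Λ N m) = ⊥ := by
        refine eq_bot_iff.2 fun c hc => funext fun σ => (mem_Co.1 hc.1).2 σ ?_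
        have := Finset.card_le_univ σ
        rw [Fintype.card_fin] at this
        omega
      rw [h1]
      infer_instance
    | succ j ih =>
      intro t ht
      refine flat_inf _ _ (fC t) ?_
      rw [mC]
      exact ih (t + 1) (by omega)
  intro c' h1 h2
  choose! c hc hc' using h1
  have c0 : ∀ σ : Finset (Fin m), σ.card ≠ s + 1 →
      (if σ.card = s + 1 then c σ else 0) = 0 := fun σ hσ => if_neg hσ
  obtain ⟨u, hu, hu'⟩ : ∃ u ∈ Co L s, ∀ σ, σ.card = s + 1 → π (u σ) = c' σ := by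
    refine ⟨fun σ => if σ.card = s + 1 then c σ else 0, mem_Co.2 ⟨fun σ hσ => ?_, c0⟩,
      fun σ hσ => ?_⟩
    · rw [if_pos hσ]
      exact hc σ hσ
    · exact (congrArg π (if_pos hσ)).trans (hc' σ hσ)
  have e1 : dL Λ N m u ∈ Co L (s + 1) ⊓ LinearMap.ker (dL Λ N m) := by
    rw [← mC]
    exact Submodule.mem_map_of_mem hu
  have e2 : dL Λ N m u ∈ z • Co L (s + 1) := by
    refine mem_smul_pi _ z fun σ => ?_
    by_cases hσ : σ.card = s + 1 + 1
    · rw [if_pos hσ]
      refine hpure σ (Finset.card_pos.1 (by omega)) ⟨(mem_Co.1 e1.1).1 σ hσ, (hker _).1 ?_⟩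
      change π (cdel u σ) = 0
      rw [← cdel_comp, ← h2 σ hσ]
      exact cdel_congr fun τ hτ => hu' τ (by omega)
    · rw [(mem_Co.1 e1.1).2 σ hσ]
      exact zero_mem _
  have e3 := pure_inf (dL Λ N m) (Co L (s + 1)) z (by
    rw [mC]
    exact fZ m _ (by omega)) e2 e1.2
  rw [← mC, ← Submodule.map_smul''] at e3
  obtain ⟨e, he, he'⟩ := e3
  have e4 : u - e ∈ Co L s := sub_mem hu (Submodule.smul_le_right he)
  obtain ⟨b, b1, b2⟩ := hex s hs (u - e) (mem_Co.1 e4).1 fun σ _ => by
    change dL Λ N m (u - e) σ = 0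
    rw [map_sub, he', sub_self]
    rfl
  refine ⟨fun σ => π (b σ), fun σ hσ => ⟨b σ, b1 σ hσ, rfl⟩, fun σ hσ => ?_⟩
  have e5 : π (e σ) = 0 := by
    have e6 := Submodule.mem_map_of_mem (f := LinearMap.proj (R := Λ) (φ := fun _ => N) σ) he
    rw [Submodule.map_smul''] at e6
    exact (hker _).2 (Submodule.smul_mono le_rfl le_top e6)
  rw [cdel_comp, b2 σ hσ, Pi.sub_apply, map_sub, e5, sub_zero, hu' σ hσ]

end

end Pool.Agent.Lib.MP_4287a9_ag
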