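import Pool.Agent.Lib.MP_4287a9_ag.SerC

/-!
Serre vanishing for lattices on the charts of a blow-up.
-/

open scoped TensorProduct ENNReal NNReal nonZeroDivisors Polynomial
open Filter

namespace Pool.Agent.Lib.MP_4287a9_ag

noncomputable section

section C3aux

variable {Λ W N κ : Type} [CommRing Λ] [CommRing W] [Algebra Λ W] [AddCommGroup N]
  [Module W N] {m : ℕ}

/-- The graded family generated by the vectors `x a i`. -/
def c3M (T : Subalgebra Λ W) (𝔟 : Submodule T W) (x : Fin m → κ → N) (j : ℕ) : Submodule T N :=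
  Submodule.span T {y | ∃ b ∈ 𝔟 ^ j, ∃ a i, y = b • x a i}

theorem c3_mul_pow {T : Subalgebra Λ W} {𝔟 : Submodule T W} {u v : W} {i j : ℕ}
    (hu : u ∈ 𝔟 ^ i) (hv : v ∈ 𝔟 ^ j) : u * v ∈ 𝔟 ^ (i + j) := by
  rw [pow_add]
  exact Submodule.mul_mem_mul hu hv

theorem c3_pow_mem {T : Subalgebra Λ W} {𝔟 : Submodule T W} {u : W} {i : ℕ}
    (hu : u ∈ 𝔟 ^ i) (k : ℕ) : u ^ k ∈ 𝔟 ^ (k * i) := by
  induction k with
  | zero =>
    simp only [pow_zero, zero_mul]
    exact Submodule.mem_one.2 ⟨1, by simp⟩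
  | succ k ih =>
    rw [pow_succ, add_mul, one_mul]
    exact c3_mul_pow ih hu

theorem c3_prod_mem {T : Subalgebra Λ W} {𝔟 : Submodule T W} {G : Fin m → Wˣ}
    (hG : ∀ a, (G a : W) ∈ 𝔟) (σ : Finset (Fin m)) :
    ((∏ a ∈ σ, G a : Wˣ) : W) ∈ 𝔟 ^ σ.card := by
  classical
  induction σ using Finset.induction_on with
  | empty =>
    simp only [Finset.prod_empty, Units.val_one, Finset.card_empty, pow_zero]
    exact Submodule.mem_one.2 ⟨1, by simp⟩
  | insert a σ ha ih =>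
    rw [Finset.prod_insert ha, Finset.card_insert_of_notMem ha, Units.val_mul, add_comm]
    exact c3_mul_pow (by simpa using hG a) ih

theorem c3_T_mem {T : Subalgebra Λ W} (𝔟 : Submodule T W) (t : T) : (t : W) ∈ 𝔟 ^ 0 := by
  rw [pow_zero]
  exact Submodule.mem_one.2 ⟨t, rfl⟩

theorem c3M_smul {T : Subalgebra Λ W} {𝔟 : Submodule T W} {x : Fin m → κ → N} {j k : ℕ}
    {b : W} (hb : b ∈ 𝔟 ^ k) {v : N} (hv : v ∈ c3M T 𝔟 x j) : b • v ∈ c3M T 𝔟 x (k + j) := by
  induction hv using Submodule.span_induction with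
  | mem y hy =>
    obtain ⟨c, hc, a, i, rfl⟩ := hy
    refine Submodule.subset_span ⟨b * c, c3_mul_pow hb hc, a, i, ?_⟩
    rw [mul_smul]
  | zero => simp
  | add y z _ _ hy hz =>
    rw [smul_add]
    exact Submodule.add_mem _ hy hz
  | smul t y _ hy =>
    have : b • t • y = t • b • y := by
      show b • (t : W) • y = (t : W) • b • y
      rw [smul_comm]
    rw [this]
    exact Submodule.smul_mem _ _ hy

theorem c3M_fg [Fintype κ] {T : Subalgebra Λ W} {𝔟 : Submodule T W} (hfg : 𝔟.FG)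
    (x : Fin m → κ → N) (j : ℕ) : (c3M T 𝔟 x j).FG := by
  have h : c3M T 𝔟 x j = ⨆ p : Fin m × κ,
      (𝔟 ^ j).map ((LinearMap.toSpanSingleton W N (x p.1 p.2)).restrictScalars T) := by
    apply le_antisymm
    · refine Submodule.span_le.2 ?_
      rintro y ⟨b, hb, a, i, rfl⟩
      exact Submodule.mem_iSup_of_mem (a, i) ⟨b, hb, rfl⟩
    · refine iSup_le fun p => ?_
      rintro y ⟨b, hb, rfl⟩
      exact Submodule.subset_span ⟨b, hb, p.1, p.2, rfl⟩
  rw [h]
  exact Submodule.fg_iSup _ fun p => (hfg.pow j).map _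

theorem c3_red {T : Subalgebra Λ W} {𝔟 : Submodule T W} {G : Fin m → Wˣ} {ρ : ℕ}
    (hred : 𝔟 ^ (ρ + 1) ≤ Submodule.span T (Set.range fun a => (G a : W)) * 𝔟 ^ ρ)
    {j : ℕ} (hj : ρ ≤ j) {b : W} (hb : b ∈ 𝔟 ^ (j + 1)) :
    ∃ c : Fin m → W, (∀ a, c a ∈ 𝔟 ^ j) ∧ b = ∑ a, (G a : W) * c a := by
  obtain ⟨k, rfl⟩ := Nat.exists_eq_add_of_le hj
  have h1 : 𝔟 ^ (ρ + k + 1) ≤
      Submodule.span T (Set.range fun a => (G a : W)) * 𝔟 ^ (ρ + k) := by
    calc 𝔟 ^ (ρ + k + 1) = 𝔟 ^ (ρ + 1) * 𝔟 ^ k := by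
          rw [← pow_add]
          congr 1
          ring
      _ ≤ (Submodule.span T (Set.range fun a => (G a : W)) * 𝔟 ^ ρ) * 𝔟 ^ k :=
          mul_le_mul_left hred _
      _ = _ := by rw [mul_assoc, ← pow_add]
  refine Submodule.mul_induction_on (h1 hb) ?_ ?_
  · intro g hg c hc
    obtain ⟨t, rfl⟩ := (Submodule.mem_span_range_iff_exists_fun T).1 hg
    refine ⟨fun a => t a • c, fun a => Submodule.smul_mem _ _ hc, ?_⟩
    rw [Finset.sum_mul]
    refine Finset.sum_congr rfl fun a _ => ?_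
    show (t a : W) * (G a : W) * c = (G a : W) * ((t a : W) * c)
    ring
  · rintro y z ⟨c, hc, rfl⟩ ⟨c', hc', rfl⟩
    refine ⟨fun a => c a + c' a, fun a => Submodule.add_mem _ (hc a) (hc' a), ?_⟩
    rw [← Finset.sum_add_distrib]
    refine Finset.sum_congr rfl fun a _ => ?_
    ring

theorem c3M_gen {T : Subalgebra Λ W} {𝔟 : Submodule T W} {G : Fin m → Wˣ} {ρ : ℕ}
    (hred : 𝔟 ^ (ρ + 1) ≤ Submodule.span T (Set.range fun a => (G a : W)) * 𝔟 ^ ρ)
    (x : Fin m → κ → N) {j : ℕ} (hj : ρ ≤ j) {v : N} (hv : v ∈ c3M T 𝔟 x (j + 1)) :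
    ∃ w : Fin m → N, (∀ a, w a ∈ c3M T 𝔟 x j) ∧ v = ∑ a, (G a : W) • w a := by
  induction hv using Submodule.span_induction with
  | mem y hy =>
    obtain ⟨b, hb, a, i, rfl⟩ := hy
    obtain ⟨c, hc, rfl⟩ := c3_red hred hj hb
    refine ⟨fun a' => c a' • x a i, fun a' => Submodule.subset_span ⟨c a', hc a', a, i, rfl⟩, ?_⟩
    rw [Finset.sum_smul]
    refine Finset.sum_congr rfl fun a' _ => ?_
    rw [mul_smul]
  | zero => exact ⟨0, fun a => Submodule.zero_mem _, by simp⟩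
  | add y z _ _ hy hz =>
    obtain ⟨w, hw, rfl⟩ := hy
    obtain ⟨w', hw', rfl⟩ := hz
    refine ⟨fun a => w a + w' a, fun a => Submodule.add_mem _ (hw a) (hw' a), ?_⟩
    rw [← Finset.sum_add_distrib]
    refine Finset.sum_congr rfl fun a _ => ?_
    rw [smul_add]
  | smul t y _ hy =>
    obtain ⟨w, hw, rfl⟩ := hy
    refine ⟨fun a => t • w a, fun a => Submodule.smul_mem _ _ (hw a), ?_⟩
    rw [Finset.smul_sum]
    refine Finset.sum_congr rfl fun a _ => ?_
    show (t : W) • (G a : W) • w a = (G a : W) • (t : W) • w a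
    rw [smul_comm]

theorem c3_cexact_congr {M : Type} [AddCommGroup M] {L L' : Finset (Fin m) → Set M} {s : ℕ}
    (hs : 1 ≤ s) (h : ∀ σ : Finset (Fin m), σ.Nonempty → L σ = L' σ) (hL : CExact L s) :
    CExact L' s := by
  intro c hc hd
  obtain ⟨b, hb, hb'⟩ := hL c (fun σ hσ => by
    rw [h σ (Finset.card_pos.1 (by omega))]
    exact hc σ hσ) hd
  refine ⟨b, fun σ hσ => ?_, hb'⟩
  rw [← h σ (Finset.card_pos.1 (by omega))]
  exact hb σ hσ

/-- Elements of the ring of a pair of charts lie in the ring of one chart after a twist. -/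
theorem c3_twist {T : Subalgebra Λ W} {𝔟 : Submodule T W} {G : Fin m → Wˣ}
    (hG : ∀ a, (G a : W) ∈ 𝔟) {S : Finset (Fin m) → Subalgebra Λ W}
    (hS : ∀ σ : Finset (Fin m), σ.Nonempty → ∀ w, w ∈ S σ ↔
      ∃ i : ℕ, (((∏ a ∈ σ, G a) ^ i : Wˣ) : W) * w ∈ 𝔟 ^ (i * σ.card))
    (a b : Fin m) {s : W} (hs : s ∈ S {a, b}) :
    ∃ k : ℕ, ∀ k', k ≤ k' → (((G a * (G b)⁻¹) ^ k' : Wˣ) : W) * s ∈ S {b} := by
  classical
  by_cases hab : a = b
  · subst hab
    refine ⟨0, fun k' _ => ?_⟩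
    simpa using hs
  · obtain ⟨k, hk⟩ := (hS {a, b} (by simp) s).1 hs
    rw [Finset.prod_pair hab, Finset.card_pair hab] at hk
    refine ⟨k, fun k' hk' => ?_⟩
    obtain ⟨l, rfl⟩ := Nat.exists_eq_add_of_le hk'
    refine (hS {b} (by simp) _).2 ⟨k + l + k, ?_⟩
    rw [Finset.prod_singleton, Finset.card_singleton]
    have h1 : (G a : W) ^ l ∈ 𝔟 ^ (l * 1) := c3_pow_mem (by simpa using hG a) l
    have h2 := c3_mul_pow h1 hk
    have h3 : ((G b ^ (k + l + k) * (G a * (G b)⁻¹) ^ (k + l) : Wˣ)) =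
        G a ^ l * (G a * G b) ^ k := by
      rw [mul_pow, mul_pow, inv_pow, pow_add (G b) (k + l) k, pow_add (G a) k l]
      have := mul_inv_cancel (G b ^ (k + l))
      calc _ = (G b ^ (k + l) * (G b ^ (k + l))⁻¹) * (G b ^ k * (G a ^ k * G a ^ l)) := by
            simp only [mul_assoc, mul_comm, mul_left_comm]
        _ = _ := by
            rw [this, one_mul]
            simp only [mul_assoc, mul_comm, mul_left_comm]
    have h4 : (k + l + k) * 1 = l * 1 + k * 2 := by ring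
    rw [← mul_assoc, ← Units.val_mul, h3, h4, Units.val_mul, mul_assoc, Units.val_pow_eq_pow_val]
    exact h2

theorem c3_start [Fintype κ] {T : Subalgebra Λ W} {𝔟 : Submodule T W} {G : Fin m → Wˣ}
    (hG : ∀ a, (G a : W) ∈ 𝔟) {S : Finset (Fin m) → Subalgebra Λ W}
    (hS : ∀ σ : Finset (Fin m), σ.Nonempty → ∀ w, w ∈ S σ ↔
      ∃ i : ℕ, (((∏ a ∈ σ, G a) ^ i : Wˣ) : W) * w ∈ 𝔟 ^ (i * σ.card))
    {θ : Fin m → κ → N} {L : ℕ → Finset (Fin m) → Set N}
    (hL : ∀ j σ a, a ∈ σ → L j σ =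
      (Submodule.span (S σ) (Set.range fun i => (G a : W) ^ j • θ a i) : Set N)) :
    ∃ i0, ∀ i1, i0 ≤ i1 → ∀ a b i, ∃ s : κ → W, (∀ i', s i' ∈ S {b}) ∧
      (G a : W) ^ i1 • θ a i = ∑ i', s i' • (G b : W) ^ i1 • θ b i' := by
  classical
  have h1 : ∀ a b i, ∃ s : κ → S {a, b}, θ a i = ∑ i', (s i' : W) • θ b i' := by
    intro a b i
    have ha := hL 0 {a, b} a (by simp)
    have hb := hL 0 {a, b} b (by simp)
    have h : θ a i ∈ L 0 {a, b} := by
      rw [ha]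
      exact Submodule.subset_span ⟨i, by simp⟩
    rw [hb] at h
    obtain ⟨s, hs⟩ := (Submodule.mem_span_range_iff_exists_fun _).1 h
    refine ⟨s, ?_⟩
    rw [← hs]
    refine Finset.sum_congr rfl fun i' _ => ?_
    simp only [pow_zero, one_smul]
    rfl
  choose s hs using h1
  have h2 : ∀ p : Fin m × Fin m × κ × κ, ∃ k : ℕ, ∀ k', k ≤ k' →
      (((G p.1 * (G p.2.1)⁻¹) ^ k' : Wˣ) : W) * (s p.1 p.2.1 p.2.2.1 p.2.2.2 : W) ∈ S {p.2.1} :=
    fun p => c3_twist hG hS p.1 p.2.1 (s p.1 p.2.1 p.2.2.1 p.2.2.2).2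
  choose k hk using h2
  refine ⟨Finset.univ.sup k, fun i1 hi1 a b i => ?_⟩
  refine ⟨fun i' => (((G a * (G b)⁻¹) ^ i1 : Wˣ) : W) * (s a b i i' : W), fun i' =>
    hk (a, b, i, i') i1 ((Finset.le_sup (Finset.mem_univ _)).trans hi1), ?_⟩
  rw [hs a b i, Finset.smul_sum]
  refine Finset.sum_congr rfl fun i' _ => ?_
  rw [← mul_smul, ← mul_smul]
  congr 1
  have h3 : ((G a * (G b)⁻¹) ^ i1 * G b ^ i1 : Wˣ) = G a ^ i1 := by
    rw [← mul_pow, inv_mul_cancel_right]
  rw [← Units.val_pow_eq_pow_val, ← Units.val_pow_eq_pow_val, ← h3]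
  simp only [Units.val_mul]
  ring

theorem c3_S_mono {T : Subalgebra Λ W} {𝔟 : Submodule T W} {G : Fin m → Wˣ}
    (hG : ∀ a, (G a : W) ∈ 𝔟) {S : Finset (Fin m) → Subalgebra Λ W}
    (hS : ∀ σ : Finset (Fin m), σ.Nonempty → ∀ w, w ∈ S σ ↔
      ∃ i : ℕ, (((∏ a ∈ σ, G a) ^ i : Wˣ) : W) * w ∈ 𝔟 ^ (i * σ.card))
    {σ : Finset (Fin m)} {a : Fin m} (ha : a ∈ σ) {s : W} (hs : s ∈ S {a}) : s ∈ S σ := by
  classical
  obtain ⟨k, hk⟩ := (hS {a} (by simp) s).1 hs
  rw [Finset.prod_singleton, Finset.card_singleton] at hk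
  refine (hS σ ⟨a, ha⟩ s).2 ⟨k, ?_⟩
  have h1 := c3_pow_mem (c3_prod_mem hG (σ.erase a)) k
  have h2 := c3_mul_pow h1 hk
  have h3 : k * σ.card = k * (σ.erase a).card + k * 1 := by
    rw [← Finset.card_erase_add_one ha]
    ring
  rw [← Finset.prod_erase_mul σ G ha, h3, mul_pow, Units.val_mul, mul_assoc,
    Units.val_pow_eq_pow_val]
  exact h2

theorem c3_sec [Fintype κ] {T : Subalgebra Λ W} {𝔟 : Submodule T W} {G : Fin m → Wˣ}
    (hG : ∀ a, (G a : W) ∈ 𝔟) {S : Finset (Fin m) → Subalgebra Λ W}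
    (hS : ∀ σ : Finset (Fin m), σ.Nonempty → ∀ w, w ∈ S σ ↔
      ∃ i : ℕ, (((∏ a ∈ σ, G a) ^ i : Wˣ) : W) * w ∈ 𝔟 ^ (i * σ.card))
    {θ : Fin m → κ → N} {i1 : ℕ}
    (h0 : ∀ a b i, ∃ s : κ → W, (∀ i', s i' ∈ S {b}) ∧
      (G a : W) ^ i1 • θ a i = ∑ i', s i' • (G b : W) ^ i1 • θ b i')
    (j : ℕ) {σ : Finset (Fin m)} {a : Fin m} (ha : a ∈ σ) :
    secM G (c3M T 𝔟 fun a i => (G a : W) ^ i1 • θ a i) j σ =
      (Submodule.span (S σ) (Set.range fun i => (G a : W) ^ (j + i1) • θ a i) : Set N) := by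
  classical
  ext v
  constructor
  · rintro ⟨i, hi⟩
    have key : ∀ y ∈ c3M T 𝔟 (fun a i => (G a : W) ^ i1 • θ a i) (j + i * σ.card),
        ((((∏ a ∈ σ, G a) ^ i)⁻¹ : Wˣ) : W) • y ∈
          Submodule.span (S σ) (Set.range fun i => (G a : W) ^ (j + i1) • θ a i) := by
      intro y hy
      induction hy using Submodule.span_induction with
      | mem y hy =>
        obtain ⟨b, hb, c, i', rfl⟩ := hy
        obtain ⟨s, hs, hs'⟩ := h0 c a i'
        have hu : ((((∏ a ∈ σ, G a) ^ i)⁻¹ * (G a ^ j)⁻¹ : Wˣ) : W) * b ∈ S σ := by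
          refine (hS σ ⟨a, ha⟩ _).2 ⟨i + j, ?_⟩
          have h1 := c3_pow_mem (c3_prod_mem hG (σ.erase a)) j
          have h2 := c3_mul_pow h1 hb
          have h3 : (i + j) * σ.card = j * (σ.erase a).card + (j + i * σ.card) := by
            rw [← Finset.card_erase_add_one ha]
            ring
          have h4 : ((∏ a ∈ σ, G a) ^ (i + j) * (((∏ a ∈ σ, G a) ^ i)⁻¹ * (G a ^ j)⁻¹) : Wˣ) =
              (∏ c ∈ σ.erase a, G c) ^ j := by
            rw [pow_add, mul_comm ((∏ a ∈ σ, G a) ^ i), mul_assoc, mul_inv_cancel_left]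
            rw [← Finset.prod_erase_mul σ G ha, mul_pow, mul_inv_cancel_right]
          rw [← mul_assoc, ← Units.val_mul, h4, h3, Units.val_pow_eq_pow_val]
          exact h2
        beta_reduce
        rw [hs', Finset.smul_sum, Finset.smul_sum]
        refine Submodule.sum_mem _ fun i'' _ => ?_
        have hm : (((((∏ a ∈ σ, G a) ^ i)⁻¹ * (G a ^ j)⁻¹ : Wˣ) : W) * b) * s i'' ∈ S σ :=
          (S σ).mul_mem hu (c3_S_mono hG hS ha (hs i''))
        have := Submodule.smul_mem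
          (Submodule.span (S σ) (Set.range fun i => (G a : W) ^ (j + i1) • θ a i))
          (⟨_, hm⟩ : S σ) (Submodule.subset_span ⟨i'', rfl⟩)
        convert this using 1
        show _ = ((((((∏ a ∈ σ, G a) ^ i)⁻¹ * (G a ^ j)⁻¹ : Wˣ) : W) * b) * s i'') •
          (G a : W) ^ (j + i1) • θ a i''
        simp only [← mul_smul]
        congr 1
        have h5 : (((G a ^ j)⁻¹ : Wˣ) : W) * (G a : W) ^ j = 1 := by
          rw [← Units.val_pow_eq_pow_val, ← Units.val_mul, inv_mul_cancel, Units.val_one]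
        rw [pow_add, Units.val_mul]
        linear_combination
          (-((((∏ a ∈ σ, G a) ^ i)⁻¹ : Wˣ) : W) * b * s i'' * (G a : W) ^ i1) * h5
      | zero => simp
      | add y z _ _ hy hz =>
        rw [smul_add]
        exact Submodule.add_mem _ hy hz
      | smul t y _ hy =>
        have ht : (t : W) ∈ S σ := by
          refine (hS σ ⟨a, ha⟩ _).2 ⟨0, ?_⟩
          simp only [pow_zero, Units.val_one, one_mul, zero_mul]
          simpa only [pow_zero] using c3_T_mem 𝔟 t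
        have := Submodule.smul_mem _ (⟨_, ht⟩ : S σ) hy
        convert this using 1
        exact smul_comm _ (t : W) y
    have := key _ hi
    rwa [← mul_smul, ← Units.val_mul, inv_mul_cancel, Units.val_one, one_smul] at this
  · intro hv
    induction hv using Submodule.span_induction with
    | mem y hy =>
      obtain ⟨i, rfl⟩ := hy
      refine ⟨0, ?_⟩
      simp only [pow_zero, Units.val_one, one_smul, zero_mul, add_zero]
      refine Submodule.subset_span ⟨(G a : W) ^ j, ?_, a, i, ?_⟩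
      · simpa using c3_pow_mem (i := 1) (by simpa using hG a) j
      · rw [pow_add, mul_smul]
    | zero => exact ⟨0, by simp⟩
    | add y z _ _ hy hz =>
      obtain ⟨i, hi⟩ := hy
      obtain ⟨i', hi'⟩ := hz
      refine ⟨i + i', ?_⟩
      rw [smul_add]
      refine Submodule.add_mem _ ?_ ?_
      · have := c3M_smul (c3_pow_mem (c3_prod_mem hG σ) i') hi
        rw [← mul_smul, ← Units.val_pow_eq_pow_val, ← Units.val_mul, ← pow_add] at this
        rw [add_comm i i', show j + (i' + i) * σ.card = i' * σ.card + (j + i * σ.card) by ring]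
        exact this
      · have := c3M_smul (c3_pow_mem (c3_prod_mem hG σ) i) hi'
        rw [← mul_smul, ← Units.val_pow_eq_pow_val, ← Units.val_mul, ← pow_add] at this
        rw [show j + (i + i') * σ.card = i * σ.card + (j + i' * σ.card) by ring]
        exact this
    | smul t y _ hy =>
      obtain ⟨i, hi⟩ := hy
      obtain ⟨l, hl⟩ := (hS σ ⟨a, ha⟩ _).1 t.2
      refine ⟨l + i, ?_⟩
      have := c3M_smul hl hi
      rw [show j + (l + i) * σ.card = l * σ.card + (j + i * σ.card) by ring]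
      convert this using 1
      show _ • (t : W) • y = _
      simp only [← mul_smul]
      congr 1
      rw [pow_add, Units.val_mul]
      ring

end C3aux

/-- For `i₁` large, `G a ^ i₁ • θ a i ∈ L i₁ {b}` for all `a, b, i` (because
`θ a i ∈ span (S {a, b}) (θ b)` and every element of `S {a, b}` lies in `S {b}` after
multiplication by a power of `G a / G b`). Put `M j = span_T {b • G a ^ i₁ • θ a i, b ∈ 𝔟 ^ j}`.
It satisfies the hypotheses of `serre` (reduction), and `secM G M j σ = L (j + i₁) σ` for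
nonempty `σ`. The second claim is exactness at `s = 0` for the constant cochain. -/
theorem serre_lat {Λ W N κ : Type} [CommRing Λ] [CommRing W] [Algebra Λ W] [AddCommGroup N]
    [Module W N] [Fintype κ] {m : ℕ} (a0 : Fin m) (T : Subalgebra Λ W) [IsNoetherianRing T]
    (𝔟 : Submodule T W) (hfg : 𝔟.FG) (G : Fin m → Wˣ) (hG : ∀ a, (G a : W) ∈ 𝔟)
    (hred : ∃ ρ : ℕ, 𝔟 ^ (ρ + 1) ≤ Submodule.span T (Set.range fun a => (G a : W)) * 𝔟 ^ ρ)
    (S : Finset (Fin m) → Subalgebra Λ W)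
    (hS : ∀ σ : Finset (Fin m), σ.Nonempty → ∀ w, w ∈ S σ ↔
      ∃ i : ℕ, (((∏ a ∈ σ, G a) ^ i : Wˣ) : W) * w ∈ 𝔟 ^ (i * σ.card))
    (θ : Fin m → κ → N) (L : ℕ → Finset (Fin m) → Set N)
    (hL : ∀ j σ a, a ∈ σ → L j σ =
      (Submodule.span (S σ) (Set.range fun i => (G a : W) ^ j • θ a i) : Set N)) :
    ∃ i0, ∀ i1, i0 ≤ i1 → ∃ j0, ∀ j, j0 ≤ j →
      (∀ s, 1 ≤ s → CExact (L (j + i1)) s) ∧
      ∀ v, (∀ a, v ∈ L (j + i1) {a}) →
        v ∈ Submodule.span T {x | ∃ b ∈ 𝔟 ^ j, ∃ a i, x = b • (G a : W) ^ i1 • θ a i} := by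
  classical
  obtain ⟨ρ, hρ⟩ := hred
  obtain ⟨i0, hi0⟩ := c3_start hG hS hL
  refine ⟨i0, fun i1 hi1 => ?_⟩
  obtain ⟨j0, hj0⟩ := serre (T := T) (A := W) (N := N) G
    (c3M T 𝔟 fun a i => (G a : W) ^ i1 • θ a i)
    (fun a j v hv => by
      have := c3M_smul (k := 1) (b := (G a : W)) (by simpa using hG a) hv
      rwa [add_comm] at this)
    (c3M_fg hfg _) ⟨ρ, fun j hj v hv => c3M_gen hρ _ hj hv⟩
  refine ⟨j0, fun j hj => ?_⟩
  have hsec : ∀ σ : Finset (Fin m), σ.Nonempty →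
      secM G (c3M T 𝔟 fun a i => (G a : W) ^ i1 • θ a i) j σ = L (j + i1) σ := by
    rintro σ ⟨a, ha⟩
    rw [hL (j + i1) σ a ha]
    exact c3_sec hG hS (hi0 i1 hi1) j ha
  refine ⟨fun s hs => c3_cexact_congr hs hsec (hj0 j hj s), fun v hv => ?_⟩
  obtain ⟨b, hb, hb'⟩ := hj0 j hj 0 (fun _ => v) (fun σ hσ => by
      obtain ⟨a, rfl⟩ := Finset.card_eq_one.1 hσ
      rw [hsec _ (by simp)]
      exact hv a) (fun σ hσ => by
      obtain ⟨a, b, hab, rfl⟩ := Finset.card_eq_two.1 hσ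
      rcases lt_or_gt_of_ne hab with h | h
      · rw [cdel_pair _ h, sub_self]
      · rw [Finset.pair_comm, cdel_pair _ h, sub_self])
  have h1 := hb' {a0} (by simp)
  rw [cdel_single] at h1
  obtain ⟨i, hi⟩ := hb ∅ rfl
  rw [h1] at hi
  have h2 : v ∈ c3M T 𝔟 (fun a i => (G a : W) ^ i1 • θ a i) j := by simpa using hi
  exact h2

end

end Pool.Agent.Lib.MP_4287a9_ag
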