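import Pool.Agent.Lib.MP_4287a9_ag.RDb
import Pool.Agent.Lib.MP_4287a9_ag.C3

/-!
Global sections of the rank one lattices.
-/

open scoped TensorProduct ENNReal NNReal nonZeroDivisors Polynomial
open Filter

namespace Pool.Agent.Lib.MP_4287a9_ag

noncomputable section

variable {n : ℕ} {s : Shp n} {W : Type} [CommRing W] {d : RD s W} {Λ : Type} [CommRing Λ]
  [Algebra Λ W] {D : Fin n → Derivation Λ W W}

namespace RD

private theorem cA_div (d : RD s W) (b : Fin s.m) {x : W} (hx : x ∈ d.sp Λ d.bg) :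
    x * (((d.G b)⁻¹ : Wˣ) : W) ∈ d.S1 Λ b := by
  induction hx using Submodule.span_induction with
  | mem x hx =>
    obtain ⟨i, rfl⟩ := hx
    exact Algebra.subset_adjoin (Or.inr ⟨i, rfl⟩)
  | zero => rw [zero_mul]; exact zero_mem _
  | add x y _ _ hx hy => rw [add_mul]; exact add_mem hx hy
  | smul t x _ hx =>
    rw [Subalgebra.smul_def, smul_eq_mul, mul_assoc]
    exact mul_mem (d.T_le_S1 b t.2) hx

private theorem cA_div_pow (d : RD s W) (b : Fin s.m) (k : ℕ) {x : W}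
    (hx : x ∈ d.sp Λ d.bg ^ k) : x * (((d.G b)⁻¹ : Wˣ) : W) ^ k ∈ d.S1 Λ b := by
  induction k generalizing x with
  | zero =>
    rw [pow_zero, Submodule.mem_one] at hx
    obtain ⟨t, rfl⟩ := hx
    rw [pow_zero, mul_one]
    exact d.T_le_S1 b t.2
  | succ k ih =>
    rw [pow_succ] at hx
    refine Submodule.mul_induction_on hx (fun y hy z hz => ?_) (fun y z hy hz => ?_)
    · rw [pow_succ, mul_mul_mul_comm]
      exact mul_mem (ih hy) (cA_div d b hz)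
    · rw [add_mul]; exact add_mem hy hz

private theorem cA_asG (h : d.Pre Λ) {σ : Finset (Fin s.m)} {a b : Fin s.m} (ha : a ∈ σ)
    (hb : b ∈ σ) : As (d.S Λ σ) (d.G a) (d.G b) := by
  refine ⟨?_, ?_⟩
  · rw [Units.val_mul]; exact d.S1_le_S hb (cA_div d b (h.hG a))
  · rw [Units.val_mul]; exact d.S1_le_S ha (cA_div d a (h.hG b))

private theorem cA_as_pow {S : Subalgebra Λ W} {x y : Wˣ} (h : As S x y) (k : ℕ) :
    As S (x ^ k) (y ^ k) := by
  have h1 := h.zpow (k : ℤ)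
  rwa [zpow_natCast, zpow_natCast] at h1

private theorem cA_span (S : Subalgebra Λ W) (x : Wˣ) (v : W) :
    v ∈ Submodule.span S (Set.range fun _ : Unit => (x : W)) ↔ v * ((x⁻¹ : Wˣ) : W) ∈ S := by
  rw [Set.range_const, Submodule.mem_span_singleton]
  refine ⟨?_, fun hv => ⟨⟨_, hv⟩, ?_⟩⟩
  · rintro ⟨c, rfl⟩
    rw [Subalgebra.smul_def, smul_eq_mul, Units.mul_inv_cancel_right]
    exact c.2
  · rw [Subalgebra.smul_def, smul_eq_mul, Units.inv_mul_cancel_right]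

private theorem cA_tr {S : Subalgebra Λ W} {x y : Wˣ} (h : As S x y) {v : W}
    (hv : v * ((x⁻¹ : Wˣ) : W) ∈ S) : v * ((y⁻¹ : Wˣ) : W) ∈ S := by
  have h1 := mul_mem hv h.1
  rwa [Units.val_mul, mul_assoc, Units.inv_mul_cancel_left] at h1

private theorem cA_mul_le {T : Subalgebra Λ W} (M N : Submodule T W) (c : W)
    (hN : ∀ x ∈ N, c * x ∈ T) {v : W} (hv : v ∈ M * N) : c * v ∈ M := by
  refine Submodule.mul_induction_on hv (fun y hy z hz => ?_) (fun y z hy hz => ?_)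
  · have h1 := M.smul_mem ⟨_, hN z hz⟩ hy
    rw [Subalgebra.smul_def, smul_eq_mul] at h1
    rw [mul_comm y z, ← mul_assoc]
    exact h1
  · rw [mul_add]; exact add_mem hy hz

/-- `serre_lat` with `N = W`, `θ a = sig a 1`, `L j σ = {v | u ^ j v / sig a (1 + j N) ∈ S σ}`. -/
theorem Amb.gam_serre [IsNoetherianRing Λ] (h : d.Amb Λ D) :
    ∃ i0, ∀ i1, i0 ≤ i1 → ∃ j0, ∀ j, j0 ≤ j → ∀ γ ∈ d.Gam Λ (1 + (j + i1) * s.N),
      γ * ((d.u⁻¹ ^ (j + i1) : Wˣ) : W) ∈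
        d.sp Λ d.bg ^ j * d.sp Λ (fun a => ((d.G a ^ i1 * d.sig a 1 : Wˣ) : W)) := by
  have := d.T_noeth (Λ := Λ)
  obtain ⟨i0, h0⟩ := serre_lat (N := W) (κ := Unit) s.a0 (d.T Λ) (d.sp Λ d.bg)
    (Submodule.fg_span (Set.finite_range _)) d.G h.hG h.hred (d.S Λ)
    (fun σ hσ w => h.toPre.mem_S_iff hσ w) (fun a _ => (d.sig a 1 : W))
    (fun j σ => {v | ∀ a ∈ σ, v * (((d.G a ^ j * d.sig a 1)⁻¹ : Wˣ) : W) ∈ d.S Λ σ}) (by
      intro j σ a ha
      ext v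
      have e : (fun _ : Unit => (d.G a : W) ^ j • (d.sig a 1 : W)) =
          fun _ : Unit => ((d.G a ^ j * d.sig a 1 : Wˣ) : W) := by
        funext _
        rw [smul_eq_mul, Units.val_mul, Units.val_pow_eq_pow_val]
      rw [e, SetLike.mem_coe, cA_span]
      refine ⟨fun hv => hv a ha, fun hv b hb => cA_tr ?_ hv⟩
      refine (cA_as_pow (cA_asG h.toPre ha hb) j).mul ((h.as_sig a b 1).mono (d.S_mono ?_))
      exact Finset.insert_subset ha (Finset.singleton_subset_iff.2 hb))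
  refine ⟨i0, fun i1 hi1 => ?_⟩
  obtain ⟨j0, h1⟩ := h0 i1 hi1
  refine ⟨j0, fun j hj γ hγ => ?_⟩
  refine Submodule.span_le.2 ?_ ((h1 j hj).2 (γ * ((d.u⁻¹ ^ (j + i1) : Wˣ) : W)) fun a b hb => ?_)
  · rintro x ⟨b, hb, a, -, rfl⟩
    rw [smul_eq_mul, smul_eq_mul, ← Units.val_pow_eq_pow_val, ← Units.val_mul]
    exact Submodule.mul_mem_mul hb (Submodule.subset_span ⟨a, rfl⟩)
  · rw [Finset.mem_singleton.1 hb, d.S_single]
    have h2 := cA_tr (h.toPre.sig_add a 1 (j + i1)) (hγ a)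
    have e : (d.sig a 1 * (d.u * d.G a) ^ (j + i1))⁻¹ =
        d.u⁻¹ ^ (j + i1) * (d.G a ^ (j + i1) * d.sig a 1)⁻¹ := by
      rw [mul_pow, inv_pow, ← mul_inv, mul_comm (d.sig a 1), mul_assoc]
    rwa [e, Units.val_mul, ← mul_assoc] at h2

theorem Good.gam_bound [IsNoetherianRing Λ] (h : d.Good Λ D) :
    ∃ j2 k : ℕ, ∀ J, j2 ≤ J → ∀ γ ∈ d.Gam Λ (1 + J * s.N),
      (d.g : W) ^ k * γ * ((d.u⁻¹ ^ J : Wˣ) : W) ∈ d.sp Λ d.bg ^ (J - j2) := by
  obtain ⟨i0, h0⟩ := h.toAmb.gam_serre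
  obtain ⟨j0, h1⟩ := h0 i0 le_rfl
  choose k hk using fun a => h.exists_pow ((d.G a ^ i0 * d.sig a 1 : Wˣ) : W)
  refine ⟨j0 + i0, ∑ a, k a, fun J hJ γ hγ => ?_⟩
  obtain ⟨c, rfl⟩ := Nat.exists_eq_add_of_le' hJ
  rw [← add_assoc] at hγ
  have h2 := cA_mul_le _ _ ((d.g : W) ^ ∑ a, k a) (fun x hx => ?_)
    (h1 (c + j0) (Nat.le_add_left _ _) γ hγ)
  · rw [pow_add] at h2
    have h3 := cA_mul_le _ _ 1 (fun x hx => ?_) h2
    · rw [Nat.add_sub_cancel, ← add_assoc, mul_assoc]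
      rwa [one_mul] at h3
    · rw [one_mul]
      exact d.mem_T_of_mem_sp_pow h.bT j0 hx
  · induction hx using Submodule.span_induction with
    | mem x hx =>
      obtain ⟨a, rfl⟩ := hx
      obtain ⟨e, he⟩ := Nat.exists_eq_add_of_le'
        (Finset.single_le_sum (f := k) (fun _ _ => Nat.zero_le _) (Finset.mem_univ a))
      rw [he, pow_add, mul_assoc]
      exact mul_mem (pow_mem h.gT e) (hk a)
    | zero => rw [mul_zero]; exact zero_mem _
    | add x y _ _ hx hy => rw [mul_add]; exact add_mem hx hy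
    | smul t x _ hx =>
      rw [Subalgebra.smul_def, smul_eq_mul, mul_left_comm]
      exact mul_mem t.2 hx

theorem Pre.mul_mem_Gam (h : d.Pre Λ) {q k : ℕ} {γ b : W} (hγ : γ ∈ d.Gam Λ q)
    (hb : b ∈ d.sp Λ d.bg ^ k) : (d.u : W) ^ k * b * γ ∈ d.Gam Λ (q + k * s.N) := by
  intro a
  refine cA_tr (h.sig_add a q k).symm ?_
  have h1 := mul_mem (cA_div_pow d a k hb) (hγ a)
  have e : (d.u : W) ^ k * (((d.sig a q * (d.u * d.G a) ^ k)⁻¹ : Wˣ) : W) =
      (((d.G a)⁻¹ : Wˣ) : W) ^ k * (((d.sig a q)⁻¹ : Wˣ) : W) := by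
    rw [← Units.val_pow_eq_pow_val, ← Units.val_pow_eq_pow_val, ← Units.val_mul, ← Units.val_mul,
      mul_pow, mul_left_comm, mul_inv, mul_inv_cancel_left, mul_inv, inv_pow, mul_comm]
  rw [mul_assoc _ b, mul_right_comm, e, mul_comm]
  rwa [mul_mul_mul_comm] at h1

/-- Extension of a section from the chart `a`: on `S {a, b}` it is regular, and a power of
`G a / G b` moves it into `S1 b`. -/
theorem Amb.exists_ext (h : d.Amb Λ D) (a : Fin s.m) (q : ℕ) {w : W} (hw : w ∈ d.S1 Λ a) :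
    ∃ i0, ∀ i, i0 ≤ i →
      (((d.u * d.G a) ^ i * d.sig a q : Wˣ) : W) * w ∈ d.Gam Λ (q + i * s.N) := by
  have key : ∀ b, ∃ i : ℕ, ((d.G a * (d.G b)⁻¹ : Wˣ) : W) ^ i *
      (((d.sig a q * (d.sig b q)⁻¹ : Wˣ) : W) * w) ∈ d.S1 Λ b := by
    intro b
    rcases eq_or_ne a b with rfl | hab
    · exact ⟨0, by rwa [pow_zero, one_mul, mul_inv_cancel, Units.val_one, one_mul]⟩
    obtain ⟨i, hi⟩ := (h.toPre.mem_S_iff (Finset.insert_nonempty a {b}) _).1
      (mul_mem (h.as_sig a b q).1 (d.S1_le_S (Finset.mem_insert_self a {b}) hw))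
    refine ⟨i, ?_⟩
    have h1 := cA_div_pow d b _ hi
    rw [Finset.prod_pair hab, Finset.card_pair hab, mul_right_comm, ← Units.val_pow_eq_pow_val,
      ← Units.val_mul, mul_comm i 2, pow_mul, ← mul_pow, pow_two, mul_assoc (d.G a),
      mul_inv_cancel_left, Units.val_pow_eq_pow_val] at h1
    exact h1
  choose k hk using key
  refine ⟨∑ b, k b, fun i hi b => cA_tr (h.toPre.sig_add b q i).symm ?_⟩
  obtain ⟨e, rfl⟩ := Nat.exists_eq_add_of_le' ((Finset.single_le_sum (f := k)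
    (fun _ _ => Nat.zero_le _) (Finset.mem_univ b)).trans hi)
  have h1 : ((d.G a * (d.G b)⁻¹ : Wˣ) : W) ∈ d.S1 Λ b := by
    rw [Units.val_mul]; exact cA_div d b (h.hG a)
  have h2 := mul_mem (pow_mem h1 e) (hk b)
  rw [← mul_assoc, ← pow_add, ← mul_assoc, ← Units.val_pow_eq_pow_val, ← Units.val_mul] at h2
  have e1 : (d.u * d.G a) ^ (e + k b) * d.sig a q * (d.sig b q * (d.u * d.G b) ^ (e + k b))⁻¹ =
      (d.G a * (d.G b)⁻¹) ^ (e + k b) * (d.sig a q * (d.sig b q)⁻¹) := by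
    rw [mul_comm (d.sig b q), mul_inv, mul_mul_mul_comm, ← inv_pow, ← mul_pow, mul_inv,
      mul_mul_mul_comm d.u, mul_inv_cancel, one_mul]
  rw [mul_right_comm, ← Units.val_mul, e1]
  exact h2

end RD

end

end Pool.Agent.Lib.MP_4287a9_ag
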