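import Pool.Agent.Lib.MP_4287a9_ag.CartA

/-!
Strong F-regularity of a chart with a simple normal crossing boundary.
-/

open scoped TensorProduct ENNReal NNReal nonZeroDivisors Polynomial
open Filter

namespace Pool.Agent.Lib.MP_4287a9_ag

noncomputable section

theorem CartB_exp {p : ℕ} (hp : 0 < p) (e : ℕ) : (p ^ e - 1) * p + (p - 1) = p ^ (e + 1) - 1 := by
  have h1 : p ≤ p ^ e * p := Nat.le_mul_of_pos_left p (pow_pos hp e)
  rw [Nat.sub_mul, one_mul, pow_succ]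
  omega

theorem iterate_lin {p : ℕ} {W : Type} [CommRing W] {Ψ : W →+ W}
    (h : ∀ w z, Ψ (w ^ p * z) = w * Ψ z) (e : ℕ) (w z : W) :
    Ψ^[e] (w ^ p ^ e * z) = w * Ψ^[e] z := by
  induction e generalizing z with
  | zero => simp
  | succ e ih => rw [Function.iterate_succ_apply, pow_succ, pow_mul, h, ih,
      Function.iterate_succ_apply]

/-- `(Φ (j ^ (p - 1) * ·)) ^ e = Φ ^ e (j ^ (p ^ e - 1) * ·)`. -/
theorem iterate_twist {p : ℕ} (hp : 0 < p) {W : Type} [CommRing W] {Φ : W →+ W}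
    (h : ∀ w z, Φ (w ^ p * z) = w * Φ z) (j : W) (e : ℕ) (z : W) :
    (Φ.comp (AddMonoidHom.mulLeft (j ^ (p - 1))))^[e] z = Φ^[e] (j ^ (p ^ e - 1) * z) := by
  induction e generalizing z with
  | zero => simp
  | succ e ih =>
    rw [Function.iterate_succ_apply, ih, Function.iterate_succ_apply, AddMonoidHom.comp_apply,
      AddMonoidHom.coe_mulLeft, ← h, ← mul_assoc, ← pow_mul, ← pow_add, CartB_exp hp]

theorem CartB_mono {p : ℕ} [Fact p.Prime] {W : Type} [CommRing W] {n : ℕ} {y : Fin n → W}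
    {Ψ : W →+ W} (hΨ : IsCar p y Ψ) (E : Fin n → ℕ) : Ψ (∏ i, y i ^ E i) =
      if ∀ i, E i % p = p - 1 then ∏ i, y i ^ (E i / p) else 0 := by
  have hp : 0 < p := (Fact.out : p.Prime).pos
  have e : ∏ i, y i ^ E i = (∏ i, y i ^ (E i / p)) ^ p *
      ∏ i, y i ^ (((fun i => ⟨E i % p, Nat.mod_lt _ hp⟩ : Fin n → Fin p) i : ℕ)) := by
    rw [← Finset.prod_pow, ← Finset.prod_mul_distrib]
    refine Finset.prod_congr rfl fun i _ => ?_
    rw [← pow_mul, ← pow_add, Nat.div_add_mod']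
  rw [e, hΨ.1, hΨ.2, mul_ite, mul_one, mul_zero]

theorem CartB_top {p : ℕ} [Fact p.Prime] {W : Type} [CommRing W] {n : ℕ} {y : Fin n → W}
    {Ψ : W →+ W} (hΨ : IsCar p y Ψ) : Ψ (∏ i, y i ^ (p - 1)) = 1 := by
  have hp : p - 1 < p := Nat.sub_lt (Fact.out : p.Prime).pos one_pos
  exact (hΨ.2 fun _ => ⟨p - 1, hp⟩).trans (if_pos fun _ => rfl)

theorem CartB_top_iter {p : ℕ} [Fact p.Prime] {W : Type} [CommRing W] {n : ℕ} {y : Fin n → W}
    {Ψ : W →+ W} (hΨ : IsCar p y Ψ) (e : ℕ) : Ψ^[e] (∏ i, y i ^ (p ^ e - 1)) = 1 := by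
  induction e with
  | zero => simp
  | succ e ih =>
    have e1 : ∏ i, y i ^ (p ^ (e + 1) - 1) =
        (∏ i, y i ^ (p ^ e - 1)) ^ p * ∏ i, y i ^ (p - 1) := by
      rw [← Finset.prod_pow, ← Finset.prod_mul_distrib]
      refine Finset.prod_congr rfl fun i _ => ?_
      rw [← pow_mul, ← pow_add, CartB_exp (Fact.out : p.Prime).pos]
    rw [Function.iterate_succ_apply, e1, hΨ.1, CartB_top hΨ, mul_one, ih]

theorem CartB_coeff {p : ℕ} [Fact p.Prime] {W : Type} [CommRing W] {n : ℕ} {y : Fin n → W}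
    {Ψ : W →+ W} (hΨ : IsCar p y Ψ) (a : (Fin n → Fin p) → W) (β : Fin n → Fin p) :
    Ψ ((∑ γ, a γ ^ p * ∏ i, y i ^ (γ i : ℕ)) * ∏ i, y i ^ (p - 1 - β i)) = a β := by
  have key : ∀ γ : Fin n → Fin p, Ψ (a γ ^ p * (∏ i, y i ^ (γ i : ℕ)) * ∏ i, y i ^ (p - 1 - β i)) =
      if γ = β then a γ else 0 := fun γ => by
    rw [mul_assoc, hΨ.1, ← Finset.prod_mul_distrib]
    simp only [← pow_add]
    split_ifs with hγ
    · have e : ∀ i, (γ i : ℕ) + (p - 1 - β i) = p - 1 := fun i => by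
        have := (β i).2
        rw [hγ]
        omega
      simp only [e]
      rw [CartB_top hΨ, mul_one]
    · rw [CartB_mono hΨ, if_neg, mul_zero]
      intro hall
      refine hγ (funext fun i => Fin.ext ?_)
      have h1 := hall i
      have h2 := (β i).2
      have h3 := (γ i).2
      rcases lt_or_ge ((γ i : ℕ) + (p - 1 - β i)) p with h4 | h4
      · rw [Nat.mod_eq_of_lt h4] at h1
        omega
      · rw [Nat.mod_eq_sub_mod h4, Nat.mod_eq_of_lt (by omega)] at h1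
        omega
  rw [Finset.sum_mul, map_sum]
  simp only [key]
  simp

theorem CartB_noeth {κ W : Type} [Field κ] [CommRing W] [Algebra κ W] {n : ℕ}
    {S : Subalgebra κ W} {y : Fin n → W} (h : EtC S y) : IsNoetherianRing S := by
  obtain ⟨hy, h⟩ := h
  algebraize [(MvPolynomial.aeval (fun l => (⟨y l, hy l⟩ : S)) :
    MvPolynomial (Fin n) κ →ₐ[κ] S).toRingHom]
  exact Algebra.FiniteType.isNoetherianRing (MvPolynomial (Fin n) κ) S

theorem CartB_mem_pow {p : ℕ} [Fact p.Prime] {κ W : Type} [Field κ] [Finite κ] [CharP κ p]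
    [CommRing W] [Algebra κ W] {n : ℕ} {S : Subalgebra κ W} {y : Fin n → W} (h : EtC S y)
    {Ψ : W →+ W} (hΨ : IsCar p y Ψ) (J : Ideal S) (e : ℕ) (w : S)
    (hw : ∀ v ∈ S, ∀ s : S, Ψ^[e] (w * v) = s → s ∈ J) : w ∈ J ^ p ^ e := by
  induction e generalizing w with
  | zero =>
    rw [pow_zero, pow_one]
    exact hw 1 (one_mem _) w (by simp)
  | succ e ih =>
    obtain ⟨a, ha, h1⟩ := h.frob_span (p := p) w.2
    have h2 : ∀ β, (⟨a β, ha β⟩ : S) ∈ J ^ p ^ e := fun β => ih _ fun v hv s hs => by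
      refine hw (v ^ p * ∏ i, y i ^ (p - 1 - β i))
        (mul_mem (pow_mem hv _) (prod_mem fun i _ => pow_mem (h.mem i) _)) s ?_
      rw [Function.iterate_succ_apply, mul_left_comm, hΨ.1, h1, CartB_coeff hΨ, mul_comm]
      exact hs
    have h3 : w = ∑ β, (⟨a β, ha β⟩ : S) ^ p * ∏ i, (⟨y i, h.mem i⟩ : S) ^ (β i : ℕ) :=
      Subtype.ext (by simpa using h1)
    rw [h3, pow_succ, pow_mul]
    exact Ideal.sum_mem _ fun β _ => Ideal.mul_mem_right _ _ (Ideal.pow_mem_pow (h2 β) p)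

/-- The ideals `Ψ ^ e (c S)` of `S` increase with `e`. If none contains `1` they lie in a maximal
ideal `𝔪`. If `Ψ ^ e (w S) ⊆ 𝔪` then `w ∈ 𝔪 ^ p ^ e` (induction: `w = ∑ a β ^ p y ^ β` with
`a β = Ψ (w y ^ (p - 1 - β))`). So `c` lies in all powers of `𝔪`, and Krull's intersection theorem
gives `(1 - r) c = 0` with `r ∈ 𝔪`. -/
theorem IsCar.exists_one {p : ℕ} [Fact p.Prime] {κ W : Type} [Field κ] [Finite κ] [CharP κ p]
    [CommRing W] [Algebra κ W] {n : ℕ} {S : Subalgebra κ W} {y : Fin n → W} (h : EtC S y)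
    {Ψ : W →+ W} (hΨ : IsCar p y Ψ) {c : W} (hcS : c ∈ S) (hc : c ∈ W⁰) :
    ∃ e : ℕ, ∃ w ∈ S, Ψ^[e] (c * w) = 1 := by
  have hp : 0 < p := (Fact.out : p.Prime).pos
  have hN := CartB_noeth h
  have hY : (∏ i, y i ^ (p - 1)) ∈ S := prod_mem fun i _ => pow_mem (h.mem i) _
  have step : ∀ (e : ℕ) (w : W), w ∈ S → ∃ w' ∈ S, Ψ^[e + 1] (c * w') = Ψ^[e] (c * w) :=
    fun e w hw => ⟨c ^ (p - 1) * w ^ p * ∏ i, y i ^ (p - 1),
      mul_mem (mul_mem (pow_mem hcS _) (pow_mem hw _)) hY, by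
        rw [Function.iterate_succ_apply, ← mul_assoc, ← mul_assoc, mul_pow_sub_one hp.ne',
          ← mul_pow, hΨ.1, CartB_top hΨ, mul_one]⟩
  have mono : ∀ (e k : ℕ) (w : W), w ∈ S → ∃ w' ∈ S, Ψ^[e + k] (c * w') = Ψ^[e] (c * w) := by
    intro e k w hw
    induction k with
    | zero => exact ⟨w, hw, rfl⟩
    | succ k ih =>
      obtain ⟨w1, h1, h2⟩ := ih
      obtain ⟨w2, h3, h4⟩ := step (e + k) w1 h1
      exact ⟨w2, h3, h4.trans h2⟩
  let J : Ideal S :=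
    { carrier := {s | ∃ e : ℕ, ∃ w ∈ S, Ψ^[e] (c * w) = s}
      zero_mem' := ⟨0, 0, zero_mem _, by simp⟩
      add_mem' := by
        rintro a b ⟨e, w, hw, h1⟩ ⟨e', w', hw', h2⟩
        obtain ⟨u, hu, h3⟩ := mono e e' w hw
        obtain ⟨u', hu', h4⟩ := mono e' e w' hw'
        refine ⟨e + e', u + u', add_mem hu hu', ?_⟩
        rw [mul_add, iterate_map_add, h3, add_comm e e', h4, h1, h2]
        rfl
      smul_mem' := by
        rintro r a ⟨e, w, hw, h1⟩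
        refine ⟨e, (r : W) ^ p ^ e * w, mul_mem (pow_mem r.2 _) hw, ?_⟩
        rw [mul_left_comm, iterate_lin hΨ.1, h1]
        rfl }
  have hall : ∀ k : ℕ, (⟨c, hcS⟩ : S) ∈ J ^ k := fun k =>
    Ideal.pow_le_pow_right (Nat.lt_pow_self (Fact.out : p.Prime).one_lt).le
      (CartB_mem_pow h hΨ J k ⟨c, hcS⟩ fun v hv s hs => ⟨k, v, hv, hs⟩)
  obtain ⟨r, hr⟩ := (J.mem_iInf_smul_pow_eq_bot_iff (M := S) ⟨c, hcS⟩).1
    (Submodule.mem_iInf _ |>.2 fun k => by simpa using hall k)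
  have h1 : ((r : S) : W) * c = c := congrArg Subtype.val hr
  have h2 : ((r : S) : W) = 1 := by
    have h3 : (((r : S) : W) - 1) * c = 0 := by rw [sub_mul, h1, one_mul, sub_self]
    exact sub_eq_zero.1 ((mul_right_mem_nonZeroDivisors_eq_zero_iff hc).1 h3)
  obtain ⟨e, w, hw, h4⟩ := r.2
  exact ⟨e, w, hw, h4.trans h2⟩

/-- `Ψ ^ e'' (y ^ (q'' - 1) * Ψ ^ e' (c w)) = Ψ ^ (e' + e'') (y ^ (q' (q'' - 1)) c w) = 1`, and
`E l ≤ q' (q'' - 1)` as soon as `q'' ≥ N`. -/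
theorem IsCar.exists_one_snc {p : ℕ} [Fact p.Prime] {κ W : Type} [Field κ] [Finite κ] [CharP κ p]
    [CommRing W] [Algebra κ W] {n : ℕ} {S : Subalgebra κ W} {y : Fin n → W} (h : EtC S y)
    {Ψ : W →+ W} (hΨ : IsCar p y Ψ) {c : W} (hcS : c ∈ S) (hc : c ∈ W⁰) {N : ℕ} (hN : 0 < N) :
    ∃ e0 : ℕ, ∀ e, e0 ≤ e → ∀ E : Fin n → ℕ, (∀ l, N * E l ≤ (N - 1) * p ^ e) →
      ∃ w ∈ S, Ψ^[e] (c * (∏ l, y l ^ E l) * w) = 1 := by
  obtain ⟨e', w, hw, h1⟩ := hΨ.exists_one h hcS hc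
  refine ⟨N + e', fun e he E hE => ?_⟩
  obtain ⟨k, rfl⟩ : ∃ k, e = k + e' := ⟨e - e', by omega⟩
  have hk : N ≤ p ^ k := (Nat.lt_pow_self (Fact.out : p.Prime).one_lt).le.trans
    (Nat.pow_le_pow_right (Fact.out : p.Prime).pos (by omega))
  have hle : ∀ l, E l ≤ (p ^ k - 1) * p ^ e' := fun l => by
    refine Nat.le_of_mul_le_mul_left ((hE l).trans ?_) hN
    rw [pow_add, ← mul_assoc, ← mul_assoc]
    refine Nat.mul_le_mul_right _ ?_
    rw [Nat.sub_mul, Nat.mul_sub, one_mul, mul_one]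
    omega
  refine ⟨(∏ l, y l ^ ((p ^ k - 1) * p ^ e' - E l)) * w,
    mul_mem (prod_mem fun i _ => pow_mem (h.mem i) _) hw, ?_⟩
  have e1 : c * (∏ l, y l ^ E l) * ((∏ l, y l ^ ((p ^ k - 1) * p ^ e' - E l)) * w) =
      (∏ l, y l ^ (p ^ k - 1)) ^ p ^ e' * (c * w) := by
    have e2 : (∏ l, y l ^ E l) * ∏ l, y l ^ ((p ^ k - 1) * p ^ e' - E l) =
        (∏ l, y l ^ (p ^ k - 1)) ^ p ^ e' := by
      rw [← Finset.prod_mul_distrib, ← Finset.prod_pow]
      refine Finset.prod_congr rfl fun l _ => ?_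
      rw [← pow_add, ← pow_mul, Nat.add_sub_cancel' (hle l)]
    rw [← e2]
    ring
  rw [e1, Function.iterate_add_apply, iterate_lin hΨ.1, h1, mul_one, CartB_top_iter hΨ]

end

end Pool.Agent.Lib.MP_4287a9_ag
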