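import Pool.Agent.Lib.MP_4287a9_ag.CArgA
import Pool.Agent.Lib.MP_4287a9_ag.CartB

/-!
Test elements.
-/

open scoped TensorProduct ENNReal NNReal nonZeroDivisors Polynomial
open Filter

namespace Pool.Agent.Lib.MP_4287a9_ag

noncomputable section

theorem cargb_euler {p N : ℕ} (hp : 1 < p) (hN : 0 < N) (hc : Nat.Coprime p N) (E0 J0 : ℕ) :
    ∃ e J : ℕ, E0 ≤ e ∧ J0 ≤ J ∧ p ^ e = 1 + J * N := by
  set k := J0 * N + 1 + E0 with hk
  have hφ : 0 < Nat.totient N := Nat.totient_pos.2 hN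
  have h1 : p ^ (Nat.totient N * k) ≡ 1 [MOD N] := by
    rw [pow_mul]
    simpa using (Nat.ModEq.pow_totient hc).pow k
  have h2 : 1 ≤ p ^ (Nat.totient N * k) := Nat.one_le_pow _ _ (by omega)
  obtain ⟨J, hJ⟩ := (Nat.modEq_iff_dvd' h2).1 h1.symm
  have h3 : k ≤ Nat.totient N * k := Nat.le_mul_of_pos_left _ hφ
  have h4 : Nat.totient N * k < p ^ (Nat.totient N * k) := Nat.lt_pow_self hp
  refine ⟨Nat.totient N * k, J, by omega, ?_, ?_⟩
  · have h5 : J0 * N < J * N := by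
      rw [mul_comm J N, ← hJ]
      omega
    exact (Nat.lt_of_mul_lt_mul_right h5).le
  · rw [mul_comm J N, ← hJ]
    omega

theorem cargb_ce {n : ℕ} (s : Shp n) (hN : 0 < s.N) (q : ℕ) (i : Fin s.μ) :
    ∃ E : ℕ, (E : ℤ) = q * s.ce 1 i - s.ce q i ∧ s.N * E ≤ (s.N - 1) * q := by
  have hN' : (0 : ℚ) < s.N := by exact_mod_cast hN
  have a1 : (s.al i : ℚ) ≤ (s.ce 1 i : ℚ) * s.N := by
    have := Int.le_ceil ((((1 : ℕ) : ℚ) * (s.al i : ℚ)) / (s.N : ℚ))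
    rw [div_le_iff₀ hN'] at this
    simpa [Shp.ce] using this
  have a2 : (s.ce 1 i : ℚ) * s.N < s.al i + s.N := by
    have := Int.ceil_lt_add_one ((((1 : ℕ) : ℚ) * (s.al i : ℚ)) / (s.N : ℚ))
    rw [← sub_lt_iff_lt_add, lt_div_iff₀ hN'] at this
    have h2 : ((s.ce 1 i : ℚ) - 1) * s.N < s.al i := by simpa [Shp.ce] using this
    linarith
  have a3 : (q : ℚ) * (s.al i : ℚ) ≤ (s.ce q i : ℚ) * s.N := by
    have := Int.le_ceil (((q : ℚ) * (s.al i : ℚ)) / (s.N : ℚ))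
    rw [div_le_iff₀ hN'] at this
    exact this
  have a4 : s.ce q i ≤ q * s.ce 1 i := by
    rw [Shp.ce, Int.ceil_le, div_le_iff₀ hN']
    push_cast
    rw [mul_assoc]
    exact mul_le_mul_of_nonneg_left a1 (Nat.cast_nonneg q)
  have b2 : s.ce 1 i * s.N < s.al i + s.N := by exact_mod_cast a2
  have b3 : (q : ℤ) * s.al i ≤ s.ce q i * s.N := by exact_mod_cast a3
  refine ⟨(q * s.ce 1 i - s.ce q i).toNat, Int.toNat_of_nonneg (by omega), ?_⟩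
  have e1 : (((q * s.ce 1 i - s.ce q i).toNat : ℕ) : ℤ) = q * s.ce 1 i - s.ce q i :=
    Int.toNat_of_nonneg (by omega)
  have e2 : ((s.N - 1 : ℕ) : ℤ) = s.N - 1 := by omega
  have b4 : (q : ℤ) * (s.ce 1 i * s.N) ≤ q * (s.al i + s.N - 1) :=
    mul_le_mul_of_nonneg_left (by omega) (Int.natCast_nonneg q)
  have : (s.N : ℤ) * ((q * s.ce 1 i - s.ce q i).toNat : ℕ) ≤ ((s.N - 1 : ℕ) : ℤ) * q := by
    rw [e1, e2]
    nlinarith
  exact_mod_cast this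

variable {p : ℕ} [Fact p.Prime] {n : ℕ} {s : Shp n} {W : Type} [CommRing W] {d : RD s W}
  {κ : Type} [Field κ] [Finite κ] [CharP κ p] [Algebra κ W] {D : Fin n → Derivation κ W W}

omit [Finite κ] in
theorem cargb_prod (h : d.Pre κ) (a : Fin s.m) (E : Fin s.μ → ℕ) :
    ∏ l, d.y a l ^ (∑ i ∈ Finset.univ.filter (fun i => s.lam a i = some l), E i) =
      ∏ i, (d.t a i : W) ^ E i := by
  have h1 : ∀ l, d.y a l ^ (∑ i ∈ Finset.univ.filter (fun i => s.lam a i = some l), E i) =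
      ∏ i, if s.lam a i = some l then d.y a l ^ E i else 1 := by
    intro l
    rw [← Finset.prod_pow_eq_pow_sum, Finset.prod_filter]
  simp only [h1]
  rw [Finset.prod_comm]
  refine Finset.prod_congr rfl fun i _ => ?_
  rw [h.ht a i]
  cases hl : s.lam a i with
  | none => simp
  | some l => simp

theorem cargb_chart (h : d.Good κ D) {Φ : W →+ W} (hΦ : ∀ w z, Φ (w ^ p * z) = w * Φ z)
    (hch : ∀ a, IsCar p (d.y a) (Φ.comp (AddMonoidHom.mulLeft ((d.j a : W) ^ (p - 1)))))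
    {c : W} (hcT : c ∈ d.T κ) (hc : c ∈ W⁰) (a : Fin s.m) :
    ∃ e0 : ℕ, ∀ e, e0 ≤ e → ∃ w ∈ d.S1 κ a,
      Φ^[e] (c * ((d.sig a (p ^ e) : W) * w)) = d.sig a 1 := by
  have hN : 0 < s.N := Nat.mul_pos h.hr h.hM
  have hp : 0 < p := (Fact.out : p.Prime).pos
  obtain ⟨e0, he0⟩ := IsCar.exists_one_snc (h.het a) (hch a) (d.T_le_S1 a hcT) hc hN
  refine ⟨e0, fun e he => ?_⟩
  choose E hE hE' using cargb_ce s hN (p ^ e)
  obtain ⟨w, hw, hw1⟩ := he0 e he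
    (fun l => ∑ i ∈ Finset.univ.filter (fun i => s.lam a i = some l), E i) (by
      intro l
      by_cases hl : ∃ i, s.lam a i = some l
      · obtain ⟨i, hi⟩ := hl
        have : Finset.univ.filter (fun i => s.lam a i = some l) = {i} := by
          ext i'
          simp only [Finset.mem_filter, Finset.mem_univ, true_and, Finset.mem_singleton]
          exact ⟨fun h' => h.hinj a i' i l h' hi, fun h' => h' ▸ hi⟩
        rw [this, Finset.sum_singleton]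
        exact hE' i
      · have : Finset.univ.filter (fun i => s.lam a i = some l) = ∅ := by
          ext i'
          simp only [Finset.mem_filter, Finset.mem_univ, true_and, Finset.notMem_empty, iff_false]
          exact fun h' => hl ⟨i', h'⟩
        rw [this]
        simp)
  refine ⟨w, hw, ?_⟩
  rw [iterate_twist hp hΦ, cargb_prod h.toPre] at hw1
  have hq : 1 ≤ p ^ e := Nat.one_le_pow _ _ hp
  have hs : d.sig a (p ^ e) =
      d.sig a 1 ^ p ^ e * (d.j a ^ (p ^ e - 1) * ∏ i, d.t a i ^ E i) := by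
    have e1 : (((p ^ e : ℕ) : ℤ) - 1) = ((p ^ e - 1 : ℕ) : ℤ) := by omega
    simp only [RD.sig]
    rw [e1, zpow_natCast, Nat.cast_one, sub_self, zpow_zero, one_mul, ← Finset.prod_pow,
      mul_left_comm, ← Finset.prod_mul_distrib]
    congr 1
    refine Finset.prod_congr rfl fun i _ => ?_
    rw [← zpow_natCast, ← zpow_natCast, ← zpow_mul, ← zpow_add, hE i]
    congr 1
    ring
  have : c * ((d.sig a (p ^ e) : W) * w) = (d.sig a 1 : W) ^ p ^ e *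
      ((d.j a : W) ^ (p ^ e - 1) * ((c * ∏ i, (d.t a i : W) ^ E i) * w)) := by
    rw [hs]
    push_cast
    ring
  rw [this, iterate_lin hΦ, hw1, mul_one]

/-- The submodule of the images of the sections. -/
def cargbP (d : RD s W) (κ : Type) [Field κ] [Algebra κ W] {Φ : W →+ W}
    (hΦ : ∀ w z, Φ (w ^ p * z) = w * Φ z) (c : W) (e j : ℕ) : Submodule (d.T κ) W where
  carrier := {v | ∃ γ ∈ d.Gam κ (p ^ e + j * p ^ e * s.N), Φ^[e] (c * γ) = (d.u : W) ^ j * v}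
  add_mem' := by
    rintro v v' ⟨γ, hγ, h1⟩ ⟨γ', hγ', h2⟩
    refine ⟨γ + γ', fun a => ?_, ?_⟩
    · rw [add_mul]
      exact add_mem (hγ a) (hγ' a)
    · rw [mul_add, iterate_map_add, h1, h2, mul_add]
  zero_mem' := by
    refine ⟨0, fun a => ?_, ?_⟩
    · rw [zero_mul]
      exact zero_mem _
    · rw [mul_zero, iterate_map_zero, mul_zero]
  smul_mem' := by
    rintro t v ⟨γ, hγ, h1⟩
    refine ⟨(t : W) ^ p ^ e * γ, fun a => ?_, ?_⟩
    · rw [mul_assoc]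
      exact mul_mem (pow_mem (d.T_le_S1 a t.2) _) (hγ a)
    · rw [mul_left_comm, iterate_lin hΦ, h1, Subalgebra.smul_def, smul_eq_mul]
      ring

omit [Fact p.Prime] [Finite κ] [CharP κ p] in
theorem cargb_mul (h : d.Pre κ) {Φ : W →+ W} (hΦ : ∀ w z, Φ (w ^ p * z) = w * Φ z) (c : W)
    (e j k : ℕ) : d.sp κ d.bg ^ k * cargbP d κ hΦ c e j ≤ cargbP d κ hΦ c e (k + j) := by
  refine Submodule.mul_le.2 ?_
  rintro b hb v ⟨γ, hγ, h1⟩
  have hb' : b ^ p ^ e ∈ d.sp κ d.bg ^ (k * p ^ e) := by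
    rw [pow_mul]
    exact Submodule.pow_mem_pow _ hb _
  refine ⟨(d.u : W) ^ (k * p ^ e) * b ^ p ^ e * γ, ?_, ?_⟩
  · have := h.mul_mem_Gam hγ hb'
    rwa [show p ^ e + j * p ^ e * s.N + k * p ^ e * s.N = p ^ e + (k + j) * p ^ e * s.N by ring]
      at this
  · have : c * ((d.u : W) ^ (k * p ^ e) * b ^ p ^ e * γ) =
        ((d.u : W) ^ k * b) ^ p ^ e * (c * γ) := by
      rw [mul_pow, ← pow_mul]
      ring
    rw [this, iterate_lin hΦ, h1]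
    ring

/-- Choose `e₁` large with `q₁ = p ^ e₁ ≡ 1 mod N` (Euler). On the chart `a`,
`sig a q₁ = sig a 1 ^ q₁ * j ^ (q₁ - 1) * ∏ t ^ E` with `E = q₁ ⌈α / N⌉ - ⌈q₁ α / N⌉ ≥ 0`,
`N E ≤ (N - 1) q₁`; `exists_one_snc` and `iterate_twist` give `w a ∈ S1 a` with
`Φ ^ e₁ (c * sig a q₁ * w a) = sig a 1`. The sets
`Ψ j = {Φ ^ e₁ (c γ) / u ^ j, γ ∈ Gam ((1 + j N) q₁)}` are `T`-submodules with
`𝔟 Ψ j ⊆ Ψ (j + 1)` (`mul_mem_Gam`), and `G a ^ i₁ sig a 1 ∈ Ψ i₁` for large `i₁`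
(`exists_ext` with `i = i₁ q₁`). By `gam_serre`, `Gam (1 + j N) ⊆ u ^ j Ψ j` for large `j`. Choose
`p ^ e₂ = 1 + j N` large; iterating `hzz` from `one_mem_Gam`, `1 = Φ ^ e₂ γ₀`. -/
theorem RD.Good.c_arg (h : d.Good κ D) {Φ : W →+ W} (hΦ : ∀ w z, Φ (w ^ p * z) = w * Φ z)
    (hch : ∀ a, IsCar p (d.y a) (Φ.comp (AddMonoidHom.mulLeft ((d.j a : W) ^ (p - 1)))))
    (hzz : ∀ e : ℕ, ∀ f ∈ d.Gam κ (p ^ e), ∃ f' ∈ d.Gam κ (p ^ (e + 1)), Φ f' = f)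
    (hN : Nat.Coprime p s.N) {c : W} (hcT : c ∈ d.T κ) (hc : c ∈ W⁰) (J0 : ℕ) :
    ∃ e J : ℕ, J0 ≤ J ∧ p ^ e = 1 + J * s.N ∧ ∃ γ ∈ d.Gam κ (p ^ e), Φ^[e] (c * γ) = 1 := by
  have hN0 : 0 < s.N := Nat.mul_pos h.hr h.hM
  have hp : 1 < p := (Fact.out : p.Prime).one_lt
  choose e0 he0 using cargb_chart h hΦ hch hcT hc
  obtain ⟨e₁, J₁, hE₁, -, hJ₁⟩ := cargb_euler hp hN0 hN (Finset.univ.sup e0) 0
  choose w hw hw1 using fun a => he0 a e₁ ((Finset.le_sup (f := e0) (Finset.mem_univ a)).trans hE₁)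
  choose i0 hi0 using fun a => h.toAmb.exists_ext a (p ^ e₁) (hw a)
  obtain ⟨i1, hi1⟩ := h.toAmb.gam_serre
  set i₁ := i1 + Finset.univ.sup i0 with hi₁
  obtain ⟨j0, hj0⟩ := hi1 i₁ (Nat.le_add_right _ _)
  have hq : 1 ≤ p ^ e₁ := Nat.one_le_pow _ _ (by omega)
  have hG : d.sp κ (fun a => ((d.G a ^ i₁ * d.sig a 1 : Wˣ) : W)) ≤ cargbP d κ hΦ c e₁ i₁ := by
    refine Submodule.span_le.2 ?_
    rintro _ ⟨a, rfl⟩
    have ha : i0 a ≤ i₁ * p ^ e₁ := by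
      have h1 : i0 a ≤ Finset.univ.sup i0 := Finset.le_sup (f := i0) (Finset.mem_univ a)
      have h2 : i₁ ≤ i₁ * p ^ e₁ := Nat.le_mul_of_pos_right _ hq
      omega
    refine ⟨_, hi0 a _ ha, ?_⟩
    have : c * ((((d.u * d.G a) ^ (i₁ * p ^ e₁) * d.sig a (p ^ e₁) : Wˣ) : W) * w a) =
        (((d.u : W) * d.G a) ^ i₁) ^ p ^ e₁ * (c * ((d.sig a (p ^ e₁) : W) * w a)) := by
      rw [← pow_mul]
      push_cast
      ring
    rw [this, iterate_lin hΦ, hw1 a]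
    push_cast
    ring
  obtain ⟨e₂, J₂, -, hJ, hJ₂⟩ := cargb_euler hp hN0 hN 0 (j0 + i₁ + J0)
  obtain ⟨j, rfl⟩ : ∃ j, J₂ = j + i₁ := ⟨J₂ - i₁, by omega⟩
  have hit : ∀ e : ℕ, ∃ γ ∈ d.Gam κ (p ^ e), Φ^[e] γ = 1 := by
    intro e
    induction e with
    | zero => exact ⟨1, by simpa using h.toPre.one_mem_Gam, rfl⟩
    | succ e ih =>
      obtain ⟨γ, hγ, h1⟩ := ih
      obtain ⟨γ', hγ', h2⟩ := hzz e γ hγ
      exact ⟨γ', hγ', by rw [Function.iterate_succ_apply, h2, h1]⟩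
  obtain ⟨γ₀, hγ₀, h0⟩ := hit e₂
  rw [hJ₂] at hγ₀
  obtain ⟨γ, hγ, h1⟩ := cargb_mul h.toPre hΦ c e₁ i₁ j
    (mul_le_mul_right hG _ (hj0 j (by omega) γ₀ hγ₀))
  have h2 : Φ^[e₁] (c * γ) = γ₀ := by
    rw [h1, mul_left_comm, ← Units.val_pow_eq_pow_val, ← Units.val_mul, ← mul_pow,
      mul_inv_cancel, one_pow, Units.val_one, mul_one]
  refine ⟨e₂ + e₁, J₁ + (j + i₁) + J₁ * (j + i₁) * s.N, by omega, ?_, γ, ?_, ?_⟩
  · rw [pow_add, hJ₁, hJ₂]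
    ring
  · rwa [pow_add, hJ₂, show (1 + (j + i₁) * s.N) * p ^ e₁ = p ^ e₁ + (j + i₁) * p ^ e₁ * s.N by
      ring]
  · rw [Function.iterate_add_apply, h2, h0]

end

end Pool.Agent.Lib.MP_4287a9_ag
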