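import Pool.Agent.Lib.MP_4287a9_ag.EpsB

/-!
The exterior derivative.
-/

open scoped TensorProduct ENNReal NNReal nonZeroDivisors Polynomial
open Filter

namespace Pool.Agent.Lib.MP_4287a9_ag

noncomputable section

variable {Λ W : Type} [CommRing Λ] [CommRing W] [Algebra Λ W] {n : ℕ}
  {D : Fin n → Derivation Λ W W}

namespace EpsCAux

/-- Coefficientwise action of a derivation. -/
def dc (E : Derivation Λ W W) (n : ℕ) : Fm W n →+ Fm W n where
  toFun w := fun I => E (w I)
  map_zero' := by
    funext I
    simp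
  map_add' w w' := by
    funext I
    simp

theorem dd_eq (w : Fm W n) : dd D w = ∑ i, epsL i (dc (D i) n w) := rfl

theorem dc_eps (E : Derivation Λ W W) (j : Fin n) (w : Fm W n) :
    dc E n (epsL j w) = epsL j (dc E n w) := by
  funext I
  change E (eps j w I) = eps j (dc E n w) I
  unfold eps
  split_ifs
  · rw [map_zsmul]
    rfl
  · exact map_zero E

theorem dc_smul (E : Derivation Λ W W) (a : W) (w : Fm W n) :
    dc E n (a • w) = E a • w + a • dc E n w := by
  funext I
  change E (a * w I) = E a * w I + a * E (w I)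
  rw [Derivation.leibniz, smul_eq_mul, smul_eq_mul]
  ring

theorem wedge_apply (ζ : Fin n → W) (w : Fm W n) : wedge ζ w = ∑ i, ζ i • epsL i w := by
  simp only [wedge, LinearMap.sum_apply, LinearMap.smul_apply]

theorem epsL_comm (i j : Fin n) (w : Fm W n) : epsL i (epsL j w) = -epsL j (epsL i w) :=
  eps_eps_comm i j w

theorem epsL_self (i : Fin n) (w : Fm W n) : epsL i (epsL i w) = 0 := eps_eps_self i w

theorem sum_symm (f : Fin n → Fin n → Fm W n) (hf : ∀ i j, f i j = f j i) :
    ∑ i, ∑ j, epsL i (epsL j (f i j)) = 0 := by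
  rw [← Fintype.sum_prod_type']
  refine Finset.sum_involution (fun x _ => x.swap) (fun x _ => ?_) (fun x _ h h' => h ?_)
    (fun _ _ => Finset.mem_univ _) (fun _ _ => rfl)
  · simp only [Prod.fst_swap, Prod.snd_swap]
    rw [epsL_comm x.1 x.2, hf x.1 x.2, neg_add_cancel]
  · have h1 : x.2 = x.1 := congrArg Prod.fst h'
    rw [h1, epsL_self]

theorem wl_cons (ζ : Fin n → W) (L : List (Fin n → W)) : wl (ζ :: L) = wedge ζ (wl L) := rfl

end EpsCAux

open EpsCAux

theorem dd_dd (hD : CommD D) (w : Fm W n) : dd D (dd D w) = 0 := by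
  rw [dd_eq, dd_eq]
  simp only [map_sum, dc_eps]
  refine sum_symm _ fun i j => ?_
  funext I
  exact hD i j (w I)

theorem dd_smul (a : W) (w : Fm W n) : dd D (a • w) = wedge (grad D a) w + a • dd D w := by
  rw [dd_eq, dd_eq, wedge_apply, Finset.smul_sum, ← Finset.sum_add_distrib]
  refine Finset.sum_congr rfl fun i _ => ?_
  rw [dc_smul, map_add, map_smul, map_smul]
  rfl

theorem dd_wedge {ζ : Fin n → W} (hζ : IsClosedF D ζ) (w : Fm W n) :
    dd D (wedge ζ w) = -wedge ζ (dd D w) := by
  have h0 := sum_symm (fun i j => D i (ζ j) • w) fun i j => by rw [hζ i j]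
  rw [dd_eq, dd_eq, wedge_apply, wedge_apply]
  simp only [map_sum, dc_smul, dc_eps, map_add, map_smul, Finset.sum_add_distrib] at h0 ⊢
  rw [h0, zero_add, Finset.sum_comm, ← Finset.sum_neg_distrib]
  refine Finset.sum_congr rfl fun j _ => ?_
  rw [Finset.smul_sum, ← Finset.sum_neg_distrib]
  refine Finset.sum_congr rfl fun i _ => ?_
  rw [epsL_comm, smul_neg]

theorem dd_fone : dd D (fone W n) = 0 := by
  rw [dd_eq]
  refine Finset.sum_eq_zero fun i _ => ?_
  have : dc (D i) n (fone W n) = 0 := by
    funext I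
    change D i (fone W n I) = 0
    unfold fone
    rw [Pi.single_apply]
    split_ifs
    · exact Derivation.map_one_eq_zero _
    · exact map_zero _
  rw [this, map_zero]

theorem dd_wl {L : List (Fin n → W)} (hL : ∀ ζ ∈ L, IsClosedF D ζ) : dd D (wl L) = 0 := by
  induction L with
  | nil => exact dd_fone
  | cons ζ L ih =>
    rw [wl_cons, dd_wedge (hL ζ List.mem_cons_self),
      ih fun ζ' h => hL ζ' (List.mem_cons_of_mem _ h), map_zero, neg_zero]

theorem top_dd (w : Fm W n) :
    top (dd D w) = ∑ i : Fin n, (-1 : ℤ) ^ (i : ℕ) • D i (w (Finset.univ.erase i)) := by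
  unfold top
  rw [dd_eq, Finset.sum_apply]
  refine Finset.sum_congr rfl fun i _ => ?_
  change eps i (dc (D i) n w) Finset.univ = _
  unfold eps
  have h : (Finset.univ.filter (· < i)).card = i := by
    rw [Finset.filter_gt_eq_Iio, Fin.card_Iio]
  rw [if_pos (Finset.mem_univ i), h]
  rfl

theorem dd_mem_lat {S : Subalgebra Λ W} {τ : W} {θ : Fin n → Fin n → W}
    (hθ : ∀ l, IsClosedF D (θ l))
    (hτ : ∀ a ∈ S, ∃ ζ ∈ Submodule.span S (Set.range θ), grad D (a * τ) = τ • ζ) {w : Fm W n}
    (hw : w ∈ lat S τ θ) : dd D w ∈ lat S τ θ := by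
  have key : ∀ w ∈ Submodule.span S (Set.range fun I => τ • mon θ I),
      ∀ a ∈ S, dd D (a • w) ∈ lat S τ θ := by
    intro w hw
    induction hw using Submodule.span_induction with
    | mem x hx =>
      obtain ⟨I, rfl⟩ := hx
      intro a ha
      obtain ⟨ζ, hζ, h⟩ := hτ a ha
      have h0 : dd D (mon θ I) = 0 := dd_wl fun ζ' h' => by
        obtain ⟨l, -, rfl⟩ := List.mem_map.1 h'
        exact hθ l
      rw [smul_smul, dd_smul, h0, smul_zero, add_zero, h, wedge_smul, LinearMap.smul_apply,
        ← map_smul]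
      exact wedge_mem_lat hζ (Submodule.subset_span (s := Set.range fun I => τ • mon θ I) ⟨I, rfl⟩)
    | zero =>
      intro a _
      rw [smul_zero, map_zero]
      exact zero_mem _
    | add x y _ _ hx hy =>
      intro a ha
      rw [smul_add, map_add]
      exact add_mem (hx a ha) (hy a ha)
    | smul b x _ hx =>
      intro a ha
      have h1 : a • b • x = (a * (b : W)) • x := by
        rw [mul_smul]
        rfl
      rw [h1]
      exact hx _ (mul_mem ha b.2)
  simpa using key w hw 1 (one_mem S)

/-- A product of closed one-forms changes by an exact form when exact forms are added to the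
factors: `wedge (grad h) w = dd (h • w)` for closed `w`, and `wedge z (dd η) = dd (-wedge z η)`. -/
theorem wl_sub_exact (hD : CommD D) (L : List ((Fin n → W) × W))
    (hL : ∀ x ∈ L, IsClosedF D x.1) :
    ∃ η, wl (L.map fun x => x.1 + grad D x.2) = wl (L.map fun x => x.1) + dd D η := by
  induction L with
  | nil => exact ⟨0, by simp⟩
  | cons x L ih =>
    obtain ⟨η, hη⟩ := ih fun y h => hL y (List.mem_cons_of_mem _ h)
    have hx := hL x List.mem_cons_self
    have h0 : dd D (wl (L.map fun x => x.1)) = 0 := dd_wl fun ζ h => by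
      obtain ⟨y, hy, rfl⟩ := List.mem_map.1 h
      exact hL y (List.mem_cons_of_mem _ hy)
    refine ⟨x.2 • (wl (L.map fun x => x.1) + dd D η) - wedge x.1 η, ?_⟩
    rw [List.map_cons, List.map_cons, wl_cons, wl_cons, hη, map_sub, dd_smul, dd_wedge hx,
      map_add (dd D), h0, dd_dd hD, wedge_add, LinearMap.add_apply, map_add (wedge x.1)]
    simp only [add_zero, smul_zero]
    abel

theorem closed_zet (hD : CommD D) {x : Fin n → W} (hx : DualD D x) (p : ℕ) (h : Fin n → W)
    (i : Fin n) : IsClosedF D (zet p D x h i) := by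
  have key : ∀ a b : Fin n, a ≠ b →
      D a ((Pi.single i (x i ^ (p - 1)) : Fin n → W) b) = 0 := by
    intro a b hab
    rw [Pi.single_apply]
    split_ifs with h1
    · rw [Derivation.leibniz_pow, hx a i, if_neg (h1 ▸ hab), smul_zero, smul_zero]
    · exact map_zero _
  intro a b
  by_cases hab : a = b
  · rw [hab]
  · simp only [zet, Pi.add_apply, map_add, grad]
    rw [key a b hab, key b a (Ne.symm hab), hD a b]

end

end Pool.Agent.Lib.MP_4287a9_ag
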