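import Pool.Agent.Lib.MP_4287a9_ag.FB
import Pool.Agent.Lib.MP_4287a9_ag.EpsC

/-!
The Cartier operator kills exact forms; change of coordinates.
-/

open scoped TensorProduct ENNReal NNReal nonZeroDivisors Polynomial
open Filter

namespace Pool.Agent.Lib.MP_4287a9_ag

noncomputable section

variable {p : ℕ} [Fact p.Prime] {κ W : Type} [Field κ] [Finite κ] [CharP κ p] [CommRing W]
  [Algebra κ W] {n : ℕ}

/-- `D i (a ^ p x ^ β) = β i * a ^ p * x ^ (β - e i)` has `i`-th exponent different from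
`p - 1`. -/
theorem IsCar.apply_deriv {x : Fin n → W} (h : EtC (⊤ : Subalgebra κ W) x) {Φ : W →+ W}
    (hΦ : IsCar p x Φ) {D : Fin n → Derivation κ W W} (hD : DualD D x) (i : Fin n) (w : W) :
    Φ (D i w) = 0 := by
  classical
  have hp : (p : W) = 0 := by
    rw [← map_natCast (algebraMap κ W), CharP.cast_eq_zero, map_zero]
  have hp2 : 2 ≤ p := (Fact.out : p.Prime).two_le
  obtain ⟨a, -, rfl⟩ := h.frob_span (p := p) (w := w) Algebra.mem_top
  rw [map_sum, map_sum]
  refine Finset.sum_eq_zero fun β _ => ?_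
  have h1 : D i (∏ l ∈ Finset.univ.erase i, x l ^ (β l : ℕ)) = 0 := by
    refine Finset.prod_induction _ (fun z => D i z = 0) (fun u v hu hv => ?_) (D i).map_one_eq_zero
      fun l hl => ?_
    · rw [Derivation.leibniz, hu, hv, smul_zero, smul_zero, add_zero]
    · rw [Derivation.leibniz_pow, hD i l, if_neg (Finset.ne_of_mem_erase hl).symm, smul_zero,
        smul_zero]
  have hβ := (β i).2
  have h2 : D i (∏ l, x l ^ (β l : ℕ)) = (β i : ℕ) • ∏ l, x l ^
      (Function.update β i ⟨β i - 1, by omega⟩ l : ℕ) := by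
    have h3 : ∏ l ∈ Finset.univ.erase i, x l ^ (Function.update β i ⟨β i - 1, by omega⟩ l : ℕ) =
        ∏ l ∈ Finset.univ.erase i, x l ^ (β l : ℕ) := Finset.prod_congr rfl fun l hl => by
      rw [Function.update_of_ne (Finset.ne_of_mem_erase hl)]
    rw [← Finset.mul_prod_erase _ _ (Finset.mem_univ i),
      ← Finset.mul_prod_erase _ _ (Finset.mem_univ i), Derivation.leibniz, h1, smul_zero,
      zero_add, Derivation.leibniz_pow, hD i i, if_pos rfl, Function.update_self, h3]
    simp only [smul_eq_mul, nsmul_eq_mul]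
    ring
  rw [Derivation.leibniz, Derivation.leibniz_pow, nsmul_eq_mul, hp, zero_mul, smul_zero, add_zero,
    smul_eq_mul, hΦ.1, h2, map_nsmul, hΦ.2, if_neg, smul_zero, mul_zero]
  intro e
  have h3 := e i
  rw [Function.update_self] at h3
  change (β i : ℕ) - 1 = p - 1 at h3
  omega

theorem IsCar.apply_top_dd {x : Fin n → W} (h : EtC (⊤ : Subalgebra κ W) x) {Φ : W →+ W}
    (hΦ : IsCar p x Φ) {D : Fin n → Derivation κ W W} (hD : DualD D x) (η : Fm W n) :
    Φ (top (dd D η)) = 0 := by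
  rw [top_dd, map_sum]
  refine Finset.sum_eq_zero fun i _ => ?_
  rw [map_zsmul, hΦ.apply_deriv h hD, smul_zero]

theorem cartA_det {x : Fin n → W} (h : EtC (⊤ : Subalgebra κ W) x) {Φ : W →+ W}
    (hΦ : IsCar p x Φ) {D : Fin n → Derivation κ W W} (hD : DualD D x) {z : Fin n → Fin n → W}
    (hz : ∀ l, IsClosedF D (z l)) (c : Fin n → W) :
    Φ (Matrix.of fun l => z l + grad D (c l)).det = Φ (Matrix.of z).det := by
  obtain ⟨η, hη⟩ := wl_sub_exact (h.commD hD) (List.ofFn fun l => (z l, c l)) (by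
    intro u hu
    obtain ⟨l, rfl⟩ := List.mem_ofFn.1 hu
    exact hz l)
  rw [List.map_ofFn, List.map_ofFn] at hη
  have h1 : top (wl (List.ofFn fun l => z l + grad D (c l))) =
      top (wl (List.ofFn z)) + top (dd D η) := congrArg top hη
  rw [top_wl_ofFn, top_wl_ofFn] at h1
  rw [h1, map_add, hΦ.apply_top_dd h hD, add_zero]

/-- `wl_sub_exact`, `top_wl_ofFn` and the determinant of a diagonal matrix. -/
theorem IsCar.apply_det_zet {x : Fin n → W} (h : EtC (⊤ : Subalgebra κ W) x) {Φ : W →+ W}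
    (hΦ : IsCar p x Φ) {D : Fin n → Derivation κ W W} (hD : DualD D x) (hh : Fin n → W) :
    Φ (Matrix.of (zet p D x hh)).det = 1 := by
  have hp : 0 < p := (Fact.out : p.Prime).pos
  have h1 := cartA_det h hΦ hD (z := fun i => Pi.single i (x i ^ (p - 1))) (fun i => by
    have h2 := closed_zet (h.commD hD) hD p 0 i
    have h3 : zet p D x 0 i = Pi.single i (x i ^ (p - 1)) := by
      funext l
      simp [zet, grad]
    rwa [h3] at h2) hh
  have h2 : (Matrix.of fun i => Pi.single i (x i ^ (p - 1)) : Matrix (Fin n) (Fin n) W) =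
      Matrix.diagonal fun i => x i ^ (p - 1) := by
    ext i l
    rw [Matrix.of_apply, Matrix.diagonal_apply, Pi.single_apply]
    exact if_congr eq_comm rfl rfl
  rw [h2, Matrix.det_diagonal] at h1
  exact h1.trans ((hΦ.2 fun _ => ⟨p - 1, by omega⟩).trans (if_pos fun _ => rfl))

/-- Let `J = det (D i (y l))`, `j J = 1`. Then `Φ (j ^ (p - 1) w) = j Φ (J w)`. If
`β l ≠ p - 1` then `y ^ β J` is the top coefficient of the product of the closed forms
`y l' ^ β l' d y l'`, one of which is `d (y l ^ (β l + 1) / (β l + 1))`, so the product is exact.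
For `β = p - 1`, `h1` gives `y ^ (p - 1) J = J ^ p * det zet`. -/
theorem IsCar.chart {x y : Fin n → W} (h : EtC (⊤ : Subalgebra κ W) x) {Φ : W →+ W}
    (hΦ : IsCar p x Φ) {D : Fin n → Derivation κ W W} (hD : DualD D x) {j : W}
    (hj : j * (Matrix.of fun i l => D i (y l)).det = 1) {hh : Fin n → W}
    (h1 : ∀ l, ∑ i, D i (y l) ^ p • zet p D x hh i = y l ^ (p - 1) • grad D (y l)) :
    IsCar p y (Φ.comp (AddMonoidHom.mulLeft (j ^ (p - 1)))) := by
  classical
  have hp : 0 < p := (Fact.out : p.Prime).pos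
  refine ⟨fun w z => ?_, fun β => ?_⟩
  · change Φ (j ^ (p - 1) * (w ^ p * z)) = w * Φ (j ^ (p - 1) * z)
    rw [mul_left_comm, hΦ.1]
  rcases subsingleton_or_nontrivial W with _ | _
  · exact Subsingleton.elim _ _
  have : CharP W p := charP_of_injective_algebraMap (algebraMap κ W).injective p
  have hJ : (Matrix.of fun l i => D i (y l)).det = (Matrix.of fun i l => D i (y l)).det :=
    Matrix.det_transpose (Matrix.of fun i l => D i (y l))
  have h2 : (Matrix.of fun l => y l ^ (β l : ℕ) • grad D (y l)).det =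
      (∏ l, y l ^ (β l : ℕ)) * (Matrix.of fun i l => D i (y l)).det := by
    rw [← hJ, ← Matrix.det_mul_column]
    rfl
  have h3 : j ^ (p - 1) * ∏ l, y l ^ (β l : ℕ) =
      j ^ p * (Matrix.of fun l => y l ^ (β l : ℕ) • grad D (y l)).det := by
    rw [h2, ← pow_sub_one_mul hp.ne' j]
    linear_combination (-(j ^ (p - 1) * ∏ l, y l ^ (β l : ℕ))) * hj
  change Φ (j ^ (p - 1) * ∏ l, y l ^ (β l : ℕ)) = _
  rw [h3, hΦ.1]
  split_ifs with e
  · have h4 : (Matrix.of fun l => y l ^ (β l : ℕ) • grad D (y l)) =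
        (frobenius W p).mapMatrix (Matrix.of fun l i => D i (y l)) * Matrix.of (zet p D x hh) := by
      ext l m
      rw [Matrix.of_apply, e l, ← h1 l, Finset.sum_apply, Matrix.mul_apply]
      rfl
    rw [h4, Matrix.det_mul, ← RingHom.map_det, frobenius_def, hΦ.1, hΦ.apply_det_zet h hD, hJ,
      mul_one, hj]
  · obtain ⟨l, hl⟩ := not_forall.1 e
    have hβ := (β l).2
    have hc : (((β l : ℕ) + 1 : ℕ) : κ) ≠ 0 := fun e0 =>
      absurd (Nat.le_of_dvd (Nat.succ_pos _) ((CharP.cast_eq_zero_iff κ p _).1 e0)) (by omega)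
    have h4 := cartA_det h hΦ hD
      (z := fun m => if m = l then 0 else y m ^ (β m : ℕ) • grad D (y m)) (fun m a b => by
        split_ifs
        · simp only [Pi.zero_apply, map_zero]
        · simp only [Pi.smul_apply, grad, smul_eq_mul, Derivation.leibniz, Derivation.leibniz_pow,
            h.commD hD a b, nsmul_eq_mul]
          ring)
      fun m => if m = l then (((β l : ℕ) + 1 : ℕ) : κ)⁻¹ • y l ^ ((β l : ℕ) + 1) else 0
    rw [Matrix.det_eq_zero_of_row_eq_zero (A := Matrix.of fun m => if m = l then 0 else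
      y m ^ (β m : ℕ) • grad D (y m)) l (fun m => by simp), map_zero] at h4
    have h5 : (fun m => (if m = l then 0 else y m ^ (β m : ℕ) • grad D (y m)) + grad D
        (if m = l then (((β l : ℕ) + 1 : ℕ) : κ)⁻¹ • y l ^ ((β l : ℕ) + 1) else 0)) =
        fun m => y m ^ (β m : ℕ) • grad D (y m) := by
      funext m a
      split_ifs with e1
      · rw [e1, zero_add, grad, Derivation.map_smul, Derivation.leibniz_pow,
          ← Nat.cast_smul_eq_nsmul κ, inv_smul_smul₀ hc, Nat.add_sub_cancel]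
        rfl
      · rw [Pi.add_apply, grad, map_zero, add_zero]
    rw [h5] at h4
    rw [h4, mul_zero]

theorem IsCar.maps_to {S : Subalgebra κ W} {y : Fin n → W} (h : EtC S y) {Ψ : W →+ W}
    (hΨ : IsCar p y Ψ) {w : W} (hw : w ∈ S) : Ψ w ∈ S := by
  obtain ⟨a, ha, rfl⟩ := h.frob_span (p := p) hw
  rw [map_sum]
  refine sum_mem fun β _ => ?_
  rw [hΨ.1, hΨ.2]
  split_ifs
  · exact mul_mem (ha β) (one_mem S)
  · exact mul_mem (ha β) (zero_mem S)

end

end Pool.Agent.Lib.MP_4287a9_ag
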