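import Pool.Agent.Lib.MP_4287a9_ag.EpsA

/-!
The cup product is a cocycle of the total complex; the zig-zag.
-/

open scoped TensorProduct ENNReal NNReal nonZeroDivisors Polynomial
open Filter

namespace Pool.Agent.Lib.MP_4287a9_ag

noncomputable section

theorem cup_empty {W N : Type} [CommRing W] [AddCommGroup N] [Module W N] {m : ℕ}
    (Z : ℕ → Fin m → N →ₗ[W] N) (H : ℕ → Fin m → W) (o : N) (k : ℕ) : cup Z H o k ∅ = 0 := by
  cases k with
  | zero => simp [cup]
  | succ k => simp [cup]

theorem cup_single_succ {W N : Type} [CommRing W] [AddCommGroup N] [Module W N] {m : ℕ}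
    (Z : ℕ → Fin m → N →ₗ[W] N) (H : ℕ → Fin m → W) (o : N) (k : ℕ) (a : Fin m) :
    cup Z H o (k + 1) {a} = Z k a (cup Z H o k {a}) := by
  simp [cup]

theorem cupA_cdel_congr {m : ℕ} {M : Type} [AddCommGroup M] {c c' : Finset (Fin m) → M}
    {σ : Finset (Fin m)} (h : ∀ a ∈ σ, c (σ.erase a) = c' (σ.erase a)) :
    cdel c σ = cdel c' σ := by
  rw [cdel_apply, cdel_apply]
  exact Finset.sum_congr rfl fun a ha => by rw [h a ha]

theorem cupA_cdel_insert {m : ℕ} {M : Type} [AddCommGroup M] (c : Finset (Fin m) → M)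
    (a : Fin m) (τ : Finset (Fin m)) (h : ∀ b ∈ τ, a < b) :
    cdel c (insert a τ) = c τ - cdel (fun ρ => c (insert a ρ)) τ := by
  have ha : a ∉ τ := fun h' => lt_irrefl _ (h a h')
  rw [cdel_apply, cdel_apply, Finset.sum_insert ha, Finset.erase_insert ha]
  have h0 : (insert a τ).filter (· < a) = ∅ := by
    apply Finset.filter_eq_empty_iff.mpr
    intro b hb
    rcases Finset.mem_insert.mp hb with rfl | hb
    · exact lt_irrefl _
    · exact not_lt.mpr (h b hb).le
  rw [h0, Finset.card_empty, pow_zero, one_smul, sub_eq_add_neg, ← Finset.sum_neg_distrib]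
  congr 1
  refine Finset.sum_congr rfl fun b hb => ?_
  have hab : a ≠ b := (h b hb).ne
  have h1 : (insert a τ).filter (· < b) = insert a (τ.filter (· < b)) := by
    rw [Finset.filter_insert, if_pos (h b hb)]
  have h2 : a ∉ τ.filter (· < b) := fun h' => ha (Finset.mem_filter.mp h').1
  rw [h1, Finset.card_insert_of_notMem h2, pow_succ, Finset.erase_insert_of_ne hab]
  simp

theorem cupA_min_insert {m : ℕ} (a : Fin m) (τ : Finset (Fin m)) (h : ∀ b ∈ τ, a < b)
    (hn : (insert a τ).Nonempty) : (insert a τ).min' hn = a := by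
  apply le_antisymm
  · exact Finset.min'_le _ _ (Finset.mem_insert_self _ _)
  · apply Finset.le_min'
    intro b hb
    rcases Finset.mem_insert.mp hb with rfl | hb
    · exact le_rfl
    · exact (h b hb).le

/-- Auxiliary cochain. -/
def cupG {W N : Type} [CommRing W] [AddCommGroup N] [Module W N] {m : ℕ} (H : Fin m → W)
    (c : Finset (Fin m) → N) (τ : Finset (Fin m)) : N :=
  if h : τ.Nonempty then H (τ.min' h) • c τ else 0

theorem cupG_insert {W N : Type} [CommRing W] [AddCommGroup N] [Module W N] {m : ℕ}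
    (H : Fin m → W) (c : Finset (Fin m) → N) (a : Fin m) (τ : Finset (Fin m))
    (h : ∀ b ∈ τ, a < b) : cupG H c (insert a τ) = H a • c (insert a τ) := by
  unfold cupG
  rw [dif_pos (Finset.insert_nonempty a τ), cupA_min_insert a τ h]

theorem cup_insert {W N : Type} [CommRing W] [AddCommGroup N] [Module W N] {m : ℕ}
    (Z : ℕ → Fin m → N →ₗ[W] N) (H : ℕ → Fin m → W) (o : N) (k : ℕ) (a : Fin m)
    (τ : Finset (Fin m)) (h : ∀ b ∈ τ, a < b) :
    cup Z H o (k + 1) (insert a τ) =
      (-1 : ℤ) ^ τ.card • Z k a (cup Z H o k (insert a τ)) +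
        (cupG (H k) (cup Z H o k) τ - H k a • cup Z H o k τ) := by
  have ha : a ∉ τ := fun h' => lt_irrefl _ (h a h')
  have hm := cupA_min_insert a τ h (Finset.insert_nonempty a τ)
  have he : (insert a τ).erase ((insert a τ).min' (Finset.insert_nonempty a τ)) = τ := by
    rw [hm, Finset.erase_insert ha]
  rw [cup]
  simp only [dif_pos (Finset.insert_nonempty a τ), he, hm, Finset.erase_insert ha,
    Finset.card_insert_of_notMem ha, Nat.add_sub_cancel]
  congr 1
  unfold cupG
  split_ifs with h1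
  · rw [sub_smul]
  · rw [Finset.not_nonempty_iff_eq_empty.mp h1, cup_empty, smul_zero, sub_zero]

theorem cupA_cdel_smul {W N : Type} [CommRing W] [AddCommGroup N] [Module W N] {m : ℕ}
    (r : W) (c : Finset (Fin m) → N) (σ : Finset (Fin m)) :
    cdel (fun τ => r • c τ) σ = r • cdel c σ :=
  cdel_comp (DistribSMul.toAddMonoidHom N r) c σ

theorem cupA_cdel_G {W N : Type} [CommRing W] [AddCommGroup N] [Module W N] {m : ℕ}
    (H : Fin m → W) (c : Finset (Fin m) → N) (a : Fin m) (τ : Finset (Fin m))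
    (h : ∀ b ∈ τ, a < b) :
    cdel (cupG H c) (insert a τ) = cupG H c τ + H a • (cdel c (insert a τ) - c τ) := by
  rw [cupA_cdel_insert _ a τ h, cupA_cdel_insert _ a τ h]
  have h1 : cdel (fun ρ => cupG H c (insert a ρ)) τ = cdel (fun ρ => H a • c (insert a ρ)) τ :=
    cupA_cdel_congr fun b _ => cupG_insert H c a _ fun x hx => h x (Finset.mem_of_mem_erase hx)
  rw [h1, cupA_cdel_smul, sub_sub_cancel_left, smul_neg, sub_eq_add_neg]

theorem cupA_exists_insert {m : ℕ} (σ : Finset (Fin m)) (h : σ.Nonempty) :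
    ∃ a τ, (∀ b ∈ τ, a < b) ∧ σ = insert a τ := by
  refine ⟨σ.min' h, σ.erase (σ.min' h), fun b hb => ?_,
    (Finset.insert_erase (σ.min'_mem h)).symm⟩
  exact lt_of_le_of_ne (σ.min'_le b (Finset.mem_of_mem_erase hb))
    (Finset.ne_of_mem_erase hb).symm

/-- Induction on `k`. With `s = card σ`, `a₀ < a₁ < a₂` the smallest elements, `σ' = σ \ a₀`,
`σ'' = σ' \ a₁`, `c = cup k`, `c' = cup (k + 1)`, both sides equal
`Z a₀ (cdel c σ) + (Z a₁ - Z a₀) (c σ') + (-1) ^ (s - 1) (H a₁ - H a₀) • cdel c σ'`.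
Use `cdel c σ = c σ' - ∑ a ∈ σ', sign σ' a • c (σ.erase a)`; the three terms in `c σ''` cancel. -/
theorem cup_cocycle {W N : Type} [CommRing W] [AddCommGroup N] [Module W N] {m : ℕ}
    (Z : ℕ → Fin m → N →ₗ[W] N) (H : ℕ → Fin m → W) (o : N) (d : N →+ N) (Zs : ℕ → N →ₗ[W] N)
    (ho : d o = 0) (hZ : ∀ k a w, d (Z k a w) = -Z k a (d w))
    (hH : ∀ k a w, d (H k a • w) = Z k a w - Zs k w + H k a • d w) (k : ℕ)
    (σ : Finset (Fin m)) : d (cup Z H o k σ) = (-1 : ℤ) ^ σ.card • cdel (cup Z H o k) σ := by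
  induction k generalizing σ with
  | zero =>
    have h1 : d (cup Z H o 0 σ) = 0 := by
      simp only [cup]
      split_ifs
      · exact ho
      · exact map_zero d
    rw [h1]
    by_cases h2 : σ.card = 2
    · obtain ⟨a, b, hab, rfl⟩ := Finset.card_eq_two.mp h2
      rcases lt_or_gt_of_ne hab with h | h
      · rw [cdel_pair _ h]
        simp [cup]
      · rw [Finset.pair_comm, cdel_pair _ h]
        simp [cup]
    · rw [cdel_apply, Finset.sum_eq_zero, smul_zero]
      intro a ha
      have h3 : (σ.erase a).card ≠ 1 := by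
        rw [Finset.card_erase_of_mem ha]
        have := Finset.card_pos.mpr ⟨a, ha⟩
        omega
      simp only [cup, if_neg h3, smul_zero]
  | succ k ih =>
    rcases σ.eq_empty_or_nonempty with rfl | hσ
    · rw [cup_empty, map_zero, cdel_apply, Finset.sum_empty, smul_zero]
    obtain ⟨a0, σ1, h0, rfl⟩ := cupA_exists_insert σ hσ
    rcases σ1.eq_empty_or_nonempty with rfl | hσ1
    · have e : (insert a0 ∅ : Finset (Fin m)) = {a0} := rfl
      rw [e, cup_single_succ, hZ, ih, cdel_single, cdel_single, cup_empty, cup_empty]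
      simp
    obtain ⟨a1, σ2, h1, rfl⟩ := cupA_exists_insert σ1 hσ1
    set c := cup Z H o k with hc
    have ha0 : a0 ∉ insert a1 σ2 := fun h' => lt_irrefl _ (h0 a0 h')
    have ha1 : a1 ∉ σ2 := fun h' => lt_irrefl _ (h1 a1 h')
    have hcd : cdel (fun ρ => cup Z H o (k + 1) (insert a0 ρ)) (insert a1 σ2) =
        (-1 : ℤ) ^ σ2.card • Z k a0 (cdel (fun ρ => c (insert a0 ρ)) (insert a1 σ2)) +
          (cdel (cupG (H k) c) (insert a1 σ2) - H k a0 • cdel c (insert a1 σ2)) := by
      have e1 : cdel (fun ρ => cup Z H o (k + 1) (insert a0 ρ)) (insert a1 σ2) =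
          cdel ((fun ρ => (-1 : ℤ) ^ σ2.card • Z k a0 (c (insert a0 ρ))) +
            (cupG (H k) c - fun ρ => H k a0 • c ρ)) (insert a1 σ2) := by
        refine cupA_cdel_congr fun b hb => ?_
        rw [cup_insert Z H o k a0 _ fun x hx => h0 x (Finset.mem_of_mem_erase hx),
          Finset.card_erase_of_mem hb, Finset.card_insert_of_notMem ha1, Nat.add_sub_cancel]
        rfl
      rw [e1, cdel_add, cdel_sub, Pi.add_apply, Pi.sub_apply, cupA_cdel_smul, cupA_cdel_smul]
      congr 2
      exact cdel_comp (Z k a0).toAddMonoidHom (fun ρ => c (insert a0 ρ)) _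
    have hc0 : cdel (fun ρ => c (insert a0 ρ)) (insert a1 σ2) =
        c (insert a1 σ2) - cdel c (insert a0 (insert a1 σ2)) := by
      rw [cupA_cdel_insert c a0 _ h0, sub_sub_cancel]
    rw [cupA_cdel_insert _ a0 _ h0, hcd, hc0, cupA_cdel_G _ _ _ _ h1, cup_insert Z H o k a0 _ h0,
      cup_insert Z H o k a1 _ h1, cupG_insert _ _ _ _ h1, ← hc, map_add, map_sub, map_zsmul, hZ,
      hH, hH, ih, ih, Finset.card_insert_of_notMem ha0, Finset.card_insert_of_notMem ha1]
    simp only [map_zsmul, map_sub]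
    rcases neg_one_pow_eq_or ℤ σ2.card with e | e
    · simp only [pow_succ, e]
      module
    · simp only [pow_succ, e]
      module

/-- Descending induction on `s`: there is a cocycle `c'` with values in `L`, vanishing on sets
with more than `s` elements, with `c' {a₀} - c {a₀}` in the image of `d`. Step from `s + 1` to
`s ≥ 1`: choose `b` with `cdel b = c'` on sets with `s + 1` elements, replace `c' σ` by `0` there
and by `c' σ - (-1) ^ (s + 1) • d (b σ)` on sets with `s` elements. At the end `c'` is constant on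
singletons by `cdel_pair`. -/
theorem zigzag {N : Type} [AddCommGroup N] {m : ℕ} (d : N →+ N) (hdd : ∀ w, d (d w) = 0)
    (L : Finset (Fin m) → AddSubgroup N)
    (hd : ∀ σ : Finset (Fin m), σ.Nonempty → ∀ w ∈ L σ, d w ∈ L σ)
    (hex : ∀ s, 1 ≤ s → CExact (fun σ => (L σ : Set N)) s) (c : Finset (Fin m) → N)
    (hc : ∀ σ : Finset (Fin m), σ.Nonempty → c σ ∈ L σ)
    (hcoc : ∀ σ : Finset (Fin m), 2 ≤ σ.card → d (c σ) = (-1 : ℤ) ^ σ.card • cdel c σ)
    (a0 : Fin m) : ∃ ω, (∀ a, ω ∈ L {a}) ∧ ∃ η, ω = c {a0} + d η := by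
  have key : ∀ j s, 1 ≤ s → s + j = m → ∃ c' : Finset (Fin m) → N,
      (∀ σ : Finset (Fin m), σ.Nonempty → c' σ ∈ L σ) ∧
      (∀ σ : Finset (Fin m), 2 ≤ σ.card → d (c' σ) = (-1 : ℤ) ^ σ.card • cdel c' σ) ∧
      (∀ σ : Finset (Fin m), s < σ.card → c' σ = 0) ∧ ∃ η, c' {a0} = c {a0} + d η := by
    intro j
    induction j with
    | zero =>
      intro s _ hs
      refine ⟨c, hc, hcoc, fun σ hσ => ?_, 0, by simp⟩
      have := Finset.card_le_univ σ
      rw [Fintype.card_fin] at this
      omega
    | succ j ih =>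
      intro s hs1 hs
      obtain ⟨c', h1, h2, h3, η, h4⟩ := ih (s + 1) (by omega) (by omega)
      have hu : ∀ (n : ℕ) (x : N), (-1 : ℤ) ^ n • (-1 : ℤ) ^ n • x = x := by
        intro n x
        rw [smul_smul, ← mul_pow]
        simp
      obtain ⟨b, hb1, hb2⟩ := hex s hs1 c'
        (fun σ hσ => h1 σ (Finset.card_pos.mp (by omega))) (fun σ hσ => by
          have e := h2 σ (by omega)
          rw [h3 σ (by omega), map_zero] at e
          rw [← hu σ.card (cdel c' σ), ← e, smul_zero])
      refine ⟨fun σ => if σ.card = s + 1 then 0 else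
        if σ.card = s then c' σ - (-1 : ℤ) ^ (s + 1) • d (b σ) else c' σ, ?_, ?_, ?_, ?_⟩
      · intro σ hσ
        dsimp only
        split_ifs with e1 e2
        · exact (L σ).zero_mem
        · exact (L σ).sub_mem (h1 σ hσ) ((L σ).zsmul_mem (hd σ hσ _ (hb1 σ e2)) _)
        · exact h1 σ hσ
      · intro σ hσ
        by_cases e1 : σ.card = s + 1
        · have e : cdel (fun σ : Finset (Fin m) => if σ.card = s + 1 then 0 else
              if σ.card = s then c' σ - (-1 : ℤ) ^ (s + 1) • d (b σ) else c' σ) σ =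
              cdel (c' - fun σ => (-1 : ℤ) ^ (s + 1) • d (b σ)) σ := by
            refine cdel_congr fun τ hτ => ?_
            rw [if_neg (by omega), if_pos (by omega)]
            rfl
          rw [e, cdel_sub, Pi.sub_apply, cupA_cdel_smul, cdel_comp, hb2 σ e1, h2 σ hσ, e1, hu]
          simp [e1]
        by_cases e2 : σ.card = s + 2
        · have e : cdel (fun σ : Finset (Fin m) => if σ.card = s + 1 then 0 else
              if σ.card = s then c' σ - (-1 : ℤ) ^ (s + 1) • d (b σ) else c' σ) σ = 0 := by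
            rw [cdel_apply]
            refine Finset.sum_eq_zero fun a ha => ?_
            rw [if_pos (by rw [Finset.card_erase_of_mem ha]; omega), smul_zero]
          rw [e]
          dsimp only
          rw [if_neg e1, if_neg (by omega), h3 σ (by omega)]
          simp
        have e : cdel (fun σ : Finset (Fin m) => if σ.card = s + 1 then 0 else
            if σ.card = s then c' σ - (-1 : ℤ) ^ (s + 1) • d (b σ) else c' σ) σ = cdel c' σ := by
          refine cdel_congr fun τ hτ => ?_
          rw [if_neg (by omega), if_neg (by omega)]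
        rw [e, ← h2 σ hσ]
        dsimp only
        rw [if_neg e1]
        split_ifs
        · rw [map_sub, map_zsmul, hdd, smul_zero, sub_zero]
        · rfl
      · intro σ hσ
        dsimp only
        split_ifs with e1 e2
        · rfl
        · omega
        · exact h3 σ (by omega)
      · dsimp only
        rw [if_neg (by rw [Finset.card_singleton]; omega)]
        split_ifs
        · refine ⟨η - (-1 : ℤ) ^ (s + 1) • b {a0}, ?_⟩
          rw [h4, map_sub, map_zsmul, add_sub_assoc]
        · exact ⟨η, h4⟩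
  have hm : 1 ≤ m := Nat.succ_le_of_lt (lt_of_le_of_lt (Nat.zero_le _) a0.2)
  obtain ⟨c', h1, h2, h3, η, h4⟩ := key (m - 1) 1 le_rfl (by omega)
  have hp : ∀ a b : Fin m, a < b → c' {a} = c' {b} := by
    intro a b hab
    have hcard : ({a, b} : Finset (Fin m)).card = 2 := Finset.card_pair hab.ne
    have e := h2 {a, b} (by omega)
    rw [h3 _ (by omega), map_zero, cdel_pair _ hab, hcard] at e
    simp only [even_two, Even.neg_pow, one_pow, one_smul] at e
    exact (sub_eq_zero.mp e.symm).symm
  refine ⟨c' {a0}, fun a => ?_, η, h4⟩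
  have e : c' {a0} = c' {a} := by
    rcases lt_trichotomy a0 a with h | h | h
    · exact hp _ _ h
    · rw [h]
    · exact (hp _ _ h).symm
  rw [e]
  exact h1 _ (Finset.singleton_nonempty a)

end

end Pool.Agent.Lib.MP_4287a9_ag
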