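import Pool.Agent.Lib.MP_4287a9_ag.CupA
import Pool.Agent.Lib.MP_4287a9_ag.EpsC

/-!
The antisymmetrized cup product.
-/

open scoped TensorProduct ENNReal NNReal nonZeroDivisors Polynomial
open Filter

namespace Pool.Agent.Lib.MP_4287a9_ag

noncomputable section

theorem CupB_congr {W N : Type} [CommRing W] [AddCommGroup N] [Module W N] {m : ℕ}
    {Z Z' : ℕ → Fin m → N →ₗ[W] N} {H H' : ℕ → Fin m → W} (o : N) (k : ℕ)
    (h : ∀ j < k, Z j = Z' j ∧ H j = H' j) : cup Z H o k = cup Z' H' o k := by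
  induction k with
  | zero => rfl
  | succ k ih =>
    funext σ
    simp only [cup]
    rw [ih fun j hj => h j (Nat.lt_succ_of_lt hj), (h k k.lt_succ_self).1, (h k k.lt_succ_self).2]

theorem CupB_lin {W N : Type} [CommRing W] [AddCommGroup N] [Module W N] {m : ℕ}
    {Z Z₁ Z₂ : ℕ → Fin m → N →ₗ[W] N} {H H₁ H₂ : ℕ → Fin m → W} (o : N) (k₀ : ℕ) (a b : W)
    (hne : ∀ j, j ≠ k₀ → (Z₁ j = Z j ∧ H₁ j = H j) ∧ Z₂ j = Z j ∧ H₂ j = H j)
    (hZ : ∀ x, Z k₀ x = a • Z₁ k₀ x + b • Z₂ k₀ x) (hH : ∀ x, H k₀ x = a * H₁ k₀ x + b * H₂ k₀ x)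
    (k : ℕ) (hk : k₀ < k) (σ : Finset (Fin m)) :
    cup Z H o k σ = a • cup Z₁ H₁ o k σ + b • cup Z₂ H₂ o k σ := by
  induction k generalizing σ with
  | zero => omega
  | succ k ih =>
    simp only [cup]
    rcases (Nat.lt_succ_iff.1 hk).eq_or_lt with rfl | hk'
    · rw [CupB_congr (Z := Z₁) (H := H₁) o k₀ fun j hj => (hne j hj.ne).1,
        CupB_congr (Z := Z₂) (H := H₂) o k₀ fun j hj => (hne j hj.ne).2]
      split_ifs with h1 h2
      · simp only [hZ, hH, LinearMap.add_apply, LinearMap.smul_apply]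
        module
      · simp only [hZ, LinearMap.add_apply, LinearMap.smul_apply]
        module
      · simp
    · obtain ⟨⟨e1, e2⟩, e3, e4⟩ := hne k hk'.ne'
      rw [e1, e2, e3, e4]
      split_ifs with h1 h2
      · simp only [ih hk', map_add, map_smul]
        module
      · simp only [ih hk', map_add, map_smul]
        module
      · simp

theorem CupB_update {W : Type} [CommRing W] {n m : ℕ} (ζ : Fin m → Fin n → Fin n → W)
    (h : Fin m → Fin n → W) (v : Fin n → Fin n → W) (σ : Finset (Fin m)) (l : Fin n) (a b : W)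
    (x y : Fin n → W) : cupv ζ h (Function.update v l (a • x + b • y)) σ =
      a • cupv ζ h (Function.update v l x) σ + b • cupv ζ h (Function.update v l y) σ := by
  refine CupB_lin _ l a b (fun j hj => ?_) (fun c => ?_) (fun c => ?_) n l.2 σ
  · by_cases hjn : j < n
    · have hl : (⟨j, hjn⟩ : Fin n) ≠ l := fun e => hj (congrArg Fin.val e)
      simp only [hjn, dif_pos, Function.update_of_ne hl, and_self]
    · simp only [hjn, dif_neg, not_false_eq_true, and_self]
  · simp only [l.2, dif_pos, Fin.eta, Function.update_self, Pi.add_apply, Pi.smul_apply,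
      smul_eq_mul, add_smul, mul_smul, Finset.sum_add_distrib, ← Finset.smul_sum, wedge_add,
      wedge_smul]
  · simp only [l.2, dif_pos, Fin.eta, Function.update_self, Pi.add_apply, Pi.smul_apply,
      smul_eq_mul, add_mul, mul_assoc, Finset.sum_add_distrib, ← Finset.mul_sum]

/-- A coefficient of the cup product as a multilinear map in the rows. -/
def CupB_multi {W : Type} [CommRing W] {n m : ℕ} (ζ : Fin m → Fin n → Fin n → W)
    (h : Fin m → Fin n → W) (σ : Finset (Fin m)) (I : Finset (Fin n)) :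
    MultilinearMap W (fun _ : Fin n => Fin n → W) W :=
  MultilinearMap.mk' (fun v => cupv ζ h v σ I)
    (fun v l x y => by
      simpa using congrFun (CupB_update ζ h v σ l 1 1 x y) I)
    (fun v l c x => by
      simpa using congrFun (CupB_update ζ h v σ l c 0 x x) I)

theorem CupB_alt {W : Type} [CommRing W] {n m : ℕ} (ζ : Fin m → Fin n → Fin n → W)
    (h : Fin m → Fin n → W) (σ : Finset (Fin m)) (I : Finset (Fin n))
    (v : Matrix (Fin n) (Fin n) W) :
    alt ζ h v σ I = MultilinearMap.alternatization (CupB_multi ζ h σ I) v := by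
  rw [MultilinearMap.alternatization_apply, alt, Finset.sum_apply]
  rfl

theorem CupB_mem {Λ W : Type} [CommRing Λ] [CommRing W] [Algebra Λ W] {n m : ℕ}
    (Z : ℕ → Fin m → Fm W n →ₗ[W] Fm W n) (H : ℕ → Fin m → W) (σ : Finset (Fin m))
    (S : Subalgebra Λ W) (θ : Fin n → Fin n → W) (T : ℕ → W)
    (hZ : ∀ j, ∀ b ∈ σ, ∀ τ, ∀ w ∈ lat S τ θ, Z j b w ∈ lat S (T j * τ) θ)
    (hH : ∀ j, ∀ b ∈ σ, ∀ c ∈ σ, ∀ τ, ∀ w ∈ lat S τ θ, (H j b - H j c) • w ∈ lat S (T j * τ) θ)
    (k : ℕ) : ∀ σ' ⊆ σ, cup Z H (fone W n) k σ' ∈ lat S (∏ j ∈ Finset.range k, T j) θ := by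
  induction k with
  | zero =>
    intro σ' _
    simp only [cup, Finset.range_zero, Finset.prod_empty]
    split_ifs
    · exact fone_mem_lat S θ
    · exact zero_mem _
  | succ k ih =>
    intro σ' hσ
    simp only [cup]
    rw [Finset.prod_range_succ_comm]
    split_ifs with h1 h2
    · exact add_mem (zsmul_mem (hZ _ _ (hσ (σ'.min'_mem h1)) _ _ (ih _ hσ)) _)
        (hH _ _ (hσ (Finset.mem_of_mem_erase (Finset.min'_mem _ h2))) _ (hσ (σ'.min'_mem h1)) _ _
          (ih _ ((Finset.erase_subset _ _).trans hσ)))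
    · exact add_mem (zsmul_mem (hZ _ _ (hσ (σ'.min'_mem h1)) _ _ (ih _ hσ)) _) (zero_mem _)
    · exact zero_mem _

theorem CupB_single {W : Type} [CommRing W] {n m : ℕ} (Z : ℕ → Fin m → Fm W n →ₗ[W] Fm W n)
    (H : ℕ → Fin m → W) (a : Fin m) (f : ℕ → Fin n → W) (k : ℕ)
    (hf : ∀ j < k, Z j a = wedge (f j)) :
    cup Z H (fone W n) k {a} = wl (List.ofFn fun j : Fin k => f (k - 1 - j)) := by
  induction k with
  | zero => simp [cup, wl]
  | succ k ih =>
    rw [cup_single_succ, ih fun j hj => hf j (Nat.lt_succ_of_lt hj), hf k k.lt_succ_self,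
      List.ofFn_succ]
    have e : (fun j : Fin k => f (k + 1 - 1 - (j.succ : ℕ))) = fun j : Fin k => f (k - 1 - j) := by
      funext j
      congr 1
      rw [Fin.val_succ]
      omega
    rw [e]
    rfl

theorem CupB_one_smul {W N : Type} [CommRing W] [AddCommGroup N] [Module W N] {n : ℕ}
    (π : Equiv.Perm (Fin n)) (k : Fin n) (f : Fin n → N) :
    ∑ i, ((1 : Matrix (Fin n) (Fin n) W).submatrix π id) k i • f i = f (π k) := by
  simp [Matrix.one_apply]

/-- `cupv` is multilinear in the rows of `v`: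
`cupv v σ = ∑ g : Fin n → Fin n, (∏ k, v k (g k)) • cupv (1.submatrix g id) σ` (induction on the
number of factors). Then argue as in the proof of `Matrix.det_mul`. -/
theorem alt_det {W : Type} [CommRing W] {n m : ℕ} (ζ : Fin m → Fin n → Fin n → W)
    (h : Fin m → Fin n → W) (v : Matrix (Fin n) (Fin n) W) (σ : Finset (Fin m)) :
    alt ζ h v σ = v.det • alt ζ h 1 σ := by
  funext I
  rw [Pi.smul_apply, CupB_alt, CupB_alt]
  have h1 := (MultilinearMap.alternatization (CupB_multi ζ h σ I)).eq_smul_basis_det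
    (Pi.basisFun W (Fin n))
  have h2 : (⇑(Pi.basisFun W (Fin n)) : Fin n → Fin n → W) = (1 : Matrix (Fin n) (Fin n) W) := by
    funext i j
    simp [Matrix.one_apply, Pi.single_apply, eq_comm]
  have h3 := congrArg (fun f : (Fin n → W) [⋀^Fin n]→ₗ[W] W => f v) h1
  simp only [AlternatingMap.smul_apply, Pi.basisFun_det_apply] at h3
  rw [h3, h2, smul_eq_mul, smul_eq_mul, mul_comm]
  rfl

/-- Induction on the number `k` of factors, for all subsets of `σ`: the `k`-fold product lies in
`lat S (∏ k' < k, tt (π k')) θ`. -/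
theorem alt_mem {Λ W : Type} [CommRing Λ] [CommRing W] [Algebra Λ W] {n m : ℕ}
    (ζ : Fin m → Fin n → Fin n → W) (h : Fin m → Fin n → W) (v : Matrix (Fin n) (Fin n) W)
    (σ : Finset (Fin m)) (S : Subalgebra Λ W) (θ : Fin n → Fin n → W) (tt : Fin n → W)
    (hZ : ∀ b ∈ σ, ∀ l, ∃ ζ' ∈ Submodule.span S (Set.range θ), ∑ i, v l i • ζ b i = tt l • ζ')
    (hH : ∀ b ∈ σ, ∀ c ∈ σ, ∀ l, ∃ a ∈ S, ∑ i, v l i * (h b i - h c i) = tt l * a) :
    alt ζ h v σ ∈ lat S (∏ l, tt l) θ := by
  refine sum_mem fun π _ => zsmul_mem ?_ _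
  have key := CupB_mem
    (fun k a => if hk : k < n then wedge (∑ i, (v.submatrix π id) ⟨k, hk⟩ i • ζ a i) else 0)
    (fun k a => if hk : k < n then ∑ i, (v.submatrix π id) ⟨k, hk⟩ i * h a i else 0) σ S θ
    (fun j => if hj : j < n then tt (π ⟨j, hj⟩) else 1) ?_ ?_ n σ subset_rfl
  · rw [Finset.prod_range] at key
    simp only [Fin.is_lt, dif_pos, Fin.eta] at key
    rw [Equiv.prod_comp π tt] at key
    exact key
  · intro j b hb τ w hw
    by_cases hj : j < n
    · obtain ⟨ζ', h1, h2⟩ := hZ b hb (π ⟨j, hj⟩)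
      simp only [hj, dif_pos, Matrix.submatrix_apply, id]
      rw [h2, wedge_smul]
      exact smul_mem_lat_mul _ (wedge_mem_lat h1 hw)
    · simp only [hj, dif_neg, not_false_eq_true]
      exact zero_mem _
  · intro j b hb c hc τ w hw
    by_cases hj : j < n
    · obtain ⟨a, h1, h2⟩ := hH b hb c hc (π ⟨j, hj⟩)
      simp only [hj, dif_pos, Matrix.submatrix_apply, id]
      simp only [mul_sub, Finset.sum_sub_distrib] at h2
      rw [h2, mul_smul]
      exact smul_mem_lat_mul _ (smul_mem_lat h1 hw)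
    · simp only [hj, dif_neg, not_false_eq_true, sub_self, zero_smul]
      exact zero_mem _

/-- On a singleton, `cupv` is the product of the forms in reverse order; use `top_wl_ofFn` and
`Matrix.det_permute`; `ε` is the sign of `Fin.revPerm`. -/
theorem alt_top {W : Type} [CommRing W] {n m : ℕ} (ζ : Fin m → Fin n → Fin n → W)
    (h : Fin m → Fin n → W) (a : Fin m) : ∃ ε : ℤ, (ε = 1 ∨ ε = -1) ∧
      top (alt ζ h 1 {a}) = (ε * n.factorial : ℤ) • (Matrix.of (ζ a)).det := by
  refine ⟨((Equiv.Perm.sign (Fin.revPerm : Equiv.Perm (Fin n)) : ℤˣ) : ℤ), ?_, ?_⟩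
  · rcases Int.units_eq_one_or (Equiv.Perm.sign (Fin.revPerm : Equiv.Perm (Fin n))) with e | e
    · exact Or.inl (by rw [e]; rfl)
    · exact Or.inr (by rw [e]; rfl)
  have key : ∀ π : Equiv.Perm (Fin n),
      top (cupv ζ h ((1 : Matrix (Fin n) (Fin n) W).submatrix π id) {a}) =
        ((Equiv.Perm.sign (π * Fin.revPerm) : ℤˣ) : ℤ) • (Matrix.of (ζ a)).det := by
    intro π
    rw [cupv, CupB_single _ _ a (fun j => if hj : j < n then ζ a (π ⟨j, hj⟩) else 0) n
      fun j hj => by simp only [hj, dif_pos, CupB_one_smul], top_wl_ofFn, zsmul_eq_mul,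
      ← Matrix.det_permute]
    congr 1
    ext j i
    have hj : n - 1 - (j : ℕ) < n := by omega
    have e : (⟨n - 1 - j, hj⟩ : Fin n) = Fin.rev j := by
      ext
      rw [Fin.val_rev]
      simp only
      omega
    simp only [Matrix.of_apply, hj, dif_pos, e, Matrix.submatrix_apply, id]
    rfl
  have h2 : ∀ π : Equiv.Perm (Fin n), ((Equiv.Perm.sign π : ℤˣ) : ℤ) •
      top (cupv ζ h ((1 : Matrix (Fin n) (Fin n) W).submatrix π id) {a}) =
        ((Equiv.Perm.sign (Fin.revPerm : Equiv.Perm (Fin n)) : ℤˣ) : ℤ) •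
          (Matrix.of (ζ a)).det := by
    intro π
    rw [key, smul_smul, ← Units.val_mul, map_mul, ← mul_assoc, Int.units_mul_self, one_mul]
  calc top (alt ζ h 1 {a}) = ∑ π : Equiv.Perm (Fin n), ((Equiv.Perm.sign π : ℤˣ) : ℤ) •
        top (cupv ζ h ((1 : Matrix (Fin n) (Fin n) W).submatrix π id) {a}) := by
        rw [alt, top, Finset.sum_apply]
        rfl
    _ = _ := by
        simp only [h2]
        rw [Finset.sum_const, Finset.card_univ, Fintype.card_perm, Fintype.card_fin, mul_comm,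
          mul_smul, natCast_zsmul]

/-- `cup_cocycle` for each permutation, with `Zs k = wedge (Pi.single i (x i ^ (p - 1)))`,
`i = π k`. -/
theorem alt_cocycle {Λ W : Type} [CommRing Λ] [CommRing W] [Algebra Λ W] {n m : ℕ}
    {D : Fin n → Derivation Λ W W} (hD : CommD D) {x : Fin n → W} (hx : DualD D x) (p : ℕ)
    (h : Fin m → Fin n → W) (σ : Finset (Fin m)) :
    dd D (alt (fun a => zet p D x (h a)) h 1 σ) =
      (-1 : ℤ) ^ σ.card • cdel (alt (fun a => zet p D x (h a)) h 1) σ := by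
  have key : ∀ π : Equiv.Perm (Fin n),
      dd D (cupv (fun a => zet p D x (h a)) h ((1 : Matrix (Fin n) (Fin n) W).submatrix π id) σ) =
        (-1 : ℤ) ^ σ.card • cdel (cupv (fun a => zet p D x (h a)) h
          ((1 : Matrix (Fin n) (Fin n) W).submatrix π id)) σ := by
    intro π
    refine cup_cocycle _ _ _ (dd D) (fun k => if hk : k < n then
      wedge (Pi.single (π ⟨k, hk⟩) (x (π ⟨k, hk⟩) ^ (p - 1))) else 0) dd_fone (fun k a w => ?_)
      (fun k a w => ?_) n σ
    · by_cases hk : k < n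
      · simp only [hk, dif_pos, CupB_one_smul]
        exact dd_wedge (closed_zet hD hx p _ _) w
      · simp [hk]
    · by_cases hk : k < n
      · have e := CupB_one_smul (W := W) π ⟨k, hk⟩ (h a)
        simp only [smul_eq_mul] at e
        simp only [hk, dif_pos, CupB_one_smul, e]
        rw [dd_smul, zet, wedge_add, LinearMap.add_apply, add_sub_cancel_left]
      · simp [hk]
  rw [cdel_apply]
  simp only [alt, map_sum, map_zsmul, key, cdel_apply, Finset.smul_sum]
  rw [Finset.sum_comm]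
  refine Finset.sum_congr rfl fun a _ => Finset.sum_congr rfl fun π _ => ?_
  simp only [smul_smul]
  congr 1
  ring

end

end Pool.Agent.Lib.MP_4287a9_ag
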