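import Pool.Agent.Lib.MP_4287a9_ag.Stmt

/-!
Internal definitions for the positive characteristic part (Part I) and the limit argument
(Part III).
-/

open scoped TensorProduct ENNReal NNReal nonZeroDivisors Polynomial
open Filter

namespace Pool.Agent.Lib.MP_4287a9_ag

noncomputable section

/-- `q⁻¹`-linear maps `R → R` that extend to the fractional ideal `(R : 𝔡 ^ ((q - 1) / r))`. -/
structure IsCart {R : Type} [CommRing R] (𝔡 : Ideal R) (r q : ℕ) (φ : R →+ R) : Prop where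
  lin : ∀ w y, φ (w ^ q * y) = w * φ y
  div : ∀ z ∈ R⁰, ∀ y, (∀ d ∈ 𝔡 ^ ((q - 1) / r), z ^ q ∣ y * d) → z ∣ φ y

theorem IsCart.premul {R : Type} [CommRing R] {𝔡 : Ideal R} {r q : ℕ} {φ : R →+ R}
    (h : IsCart 𝔡 r q φ) (a : R) : IsCart 𝔡 r q (φ.comp (AddMonoidHom.mulLeft a)) where
  lin w y := by
    simp only [AddMonoidHom.coe_comp, Function.comp_apply, AddMonoidHom.coe_mulLeft]
    rw [mul_left_comm, h.lin]
  div z hz y hy := by
    simp only [AddMonoidHom.coe_comp, Function.comp_apply, AddMonoidHom.coe_mulLeft]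
    refine h.div z hz _ fun d hd => ?_
    rw [mul_assoc]
    exact Dvd.dvd.mul_left (hy d hd) a

/-- Internal strong F-regularity (only levels `q = p ^ e` with `r ∣ q - 1`). -/
def SFRi (p : ℕ) {R : Type} [CommRing R] (𝔡 : Ideal R) (r : ℕ) (𝔞 : Ideal R) (t : ℝ≥0) : Prop :=
  ∀ c ∈ R⁰, ∃ e : ℕ, 0 < e ∧ r ∣ p ^ e - 1 ∧
    ∃ a ∈ 𝔞 ^ ⌈(t : ℝ) * ((p : ℝ) ^ e - 1)⌉₊, ∃ φ : R →+ R, IsCart 𝔡 r (p ^ e) φ ∧ φ (c * a) = 1

/-- The splitting ideal `I_e`. -/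
def Isp {R : Type} [CommRing R] [IsLocalRing R] (𝔡 : Ideal R) (r q : ℕ) : Ideal R where
  carrier := {h | ∀ φ : R →+ R, IsCart 𝔡 r q φ → φ h ∈ IsLocalRing.maximalIdeal R}
  add_mem' ha hb φ hφ := by
    rw [map_add]
    exact add_mem (ha φ hφ) (hb φ hφ)
  zero_mem' φ _ := by
    rw [map_zero]
    exact zero_mem _
  smul_mem' c x hx φ hφ := hx _ (hφ.premul c)

theorem mem_Isp {R : Type} [CommRing R] [IsLocalRing R] {𝔡 : Ideal R} {r q : ℕ} {h : R} :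
    h ∈ Isp 𝔡 r q ↔ ∀ φ : R →+ R, IsCart 𝔡 r q φ → φ h ∈ IsLocalRing.maximalIdeal R :=
  Iff.rfl

/-- The ideal generated by the `q`-th powers of the elements of `I`. -/
def fpow {R : Type} [CommRing R] (I : Ideal R) (q : ℕ) : Ideal R :=
  Ideal.span ((fun x => x ^ q) '' (I : Set R))

/-- `c ^ q R ⊆ ∑ R ^ q x ^ β`. -/
def T1 {R : Type} [CommRing R] {n : ℕ} (q : ℕ) (c : R) (x : Fin n → R) : Prop :=
  ∀ f : R, ∃ g : (Fin n → Fin q) → R, c ^ q * f = ∑ β, g β ^ q * ∏ i, x i ^ (β i : ℕ)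

/-- An infinitesimal shift of the `i`-th coordinate. -/
def T2 {R : Type} [CommRing R] {n : ℕ} (𝔡 : Ideal R) (q : ℕ) (c : R) (x : Fin n → R)
    (i : Fin n) : Prop :=
  ∃ ψ : R →+* AdjoinRoot ((Polynomial.X : R[X]) ^ q), ∃ γ ∈ 𝔡,
    (∀ y, ψ y - AdjoinRoot.of _ y ∈
      Ideal.span {AdjoinRoot.of ((Polynomial.X : R[X]) ^ q) γ * AdjoinRoot.root _}) ∧
    ψ (x i) = AdjoinRoot.of _ (x i) + AdjoinRoot.of _ c * AdjoinRoot.root _ ∧
    ∀ j, j ≠ i → ψ (x j) = AdjoinRoot.of _ (x j)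

/-- Length bounds. -/
def T3 {R : Type} [CommRing R] [IsLocalRing R] (n C : ℕ) (c : R) : Prop :=
  (∀ j : ℕ, 1 ≤ j → Module.length R (R ⧸ (Ideal.span {c} ⊔ IsLocalRing.maximalIdeal R ^ j)) ≤
    ((C * j ^ (n - 1) : ℕ) : ℕ∞)) ∧
  ∀ j : ℕ, Module.length R (R ⧸ IsLocalRing.maximalIdeal R ^ j) ≤ ((C * j ^ n : ℕ) : ℕ∞)

/-- The data used in Part I. -/
def TData (p : ℕ) {R : Type} [CommRing R] [IsLocalRing R] (𝔡 : Ideal R) (n C : ℕ) : Prop :=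
  ∃ (c : R) (x : Fin n → R), (∀ e, T1 (p ^ e) c x) ∧ (∀ e i, T2 𝔡 (p ^ e) c x i) ∧ T3 n C c

/-- Noether normalization data with a primitive element. -/
structure ND (κ T' : Type) [CommRing κ] [CommRing T'] (n C : ℕ) where
  x : Fin n → T'
  θ : T'
  γ : T'
  P : (MvPolynomial (Fin n) κ)[X]
  c0 : MvPolynomial (Fin n) κ
  N : MvPolynomial (Fin n) κ
  ω : Fin C → T'

/-- Evaluation of polynomials in `x`. -/
def ND.ax {κ T' : Type} [CommRing κ] [CommRing T'] [Algebra κ T'] {n C : ℕ} (d : ND κ T' n C) :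
    MvPolynomial (Fin n) κ →+* T' :=
  (MvPolynomial.aeval d.x : MvPolynomial (Fin n) κ →ₐ[κ] T').toRingHom

/-- Evaluation of polynomials in `x` and `θ`. -/
def ND.ev {κ T' : Type} [CommRing κ] [CommRing T'] [Algebra κ T'] {n C : ℕ} (d : ND κ T' n C) :
    (MvPolynomial (Fin n) κ)[X] →+* T' :=
  Polynomial.eval₂RingHom d.ax d.θ

/-- The element `c0 * P'(θ) * γ`. -/
def ND.c1 {κ T' : Type} [CommRing κ] [CommRing T'] [Algebra κ T'] {n C : ℕ} (d : ND κ T' n C) :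
    T' :=
  d.ax d.c0 * d.ev (Polynomial.derivative d.P) * d.γ

/-- Conditions on the data over a field. -/
structure ND.Good {κ T' : Type} [CommRing κ] [CommRing T'] [Algebra κ T'] {n C : ℕ}
    (d : ND κ T' n C) (m 𝔡 : Ideal T') : Prop where
  hx : ∀ i, d.x i ∈ m
  hγ : d.γ ∈ 𝔡
  monic : d.P.Monic
  root : d.ev d.P = 0
  inj : ∀ f, d.ev f = 0 → d.P ∣ f
  cond : ∀ w, ∃ f, d.ev f = d.ax d.c0 * w
  span : ∀ w, ∃ a : Fin C → MvPolynomial (Fin n) κ, w = ∑ i, d.ax (a i) * d.ω i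
  reg : d.c1 ∈ T'⁰
  hN : d.N ≠ 0
  deg : d.N.totalDegree ≤ C
  dvd : d.c1 ^ 2 ∣ d.ax d.N

/-- Conditions on the data over the base `B`, up to the element `b`. -/
structure ND.GoodB {B T : Type} [CommRing B] [CommRing T] [Algebra B T] {n C : ℕ}
    (d : ND B T n C) (m 𝔡 : Ideal T) (b : B) : Prop where
  hx : ∀ i, d.x i ∈ m
  hγ : d.γ ∈ 𝔡
  monic : d.P.Monic
  root : b • d.ev d.P = 0
  inj : ∀ f, d.ev f = 0 → d.P ∣ f
  cond : ∀ i, ∃ f, d.ev f = b • (d.ax d.c0 * d.ω i)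
  span : ∀ w, ∃ (j : ℕ) (a : Fin C → MvPolynomial (Fin n) B), b ^ j • w = ∑ i, d.ax (a i) * d.ω i
  reg : ∀ w, d.c1 * w = 0 → ∃ b' : B, b' ≠ 0 ∧ b' • w = 0
  hN : d.N ≠ 0
  deg : d.N.totalDegree ≤ C
  dvd : d.c1 ^ 2 ∣ b • d.ax d.N

/-- Transport of an ideal of `Λ ⊗[B] T` along `Λ → F`. -/
def spk {B T Λ F : Type} [CommRing B] [CommRing T] [Algebra B T] [CommRing Λ] [Algebra B Λ]
    [CommRing F] [Algebra B F] (f : Λ →ₐ[B] F) (𝒥 : Ideal (Λ ⊗[B] T)) : Ideal (F ⊗[B] T) :=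
  𝒥.map (Algebra.TensorProduct.map f (AlgHom.id B T))

/-- The ideal `m ^ k + (∑ i, β j i • ω i)_j`. -/
def Jid {B T : Type} [CommRing B] [CommRing T] [Algebra B T] (σ : T →ₐ[B] B) (k : ℕ) {s : ℕ}
    (ω : Fin s → T) (F : Type) [CommRing F] [Algebra B F] (β : Fin s → Fin s → F) :
    Ideal (F ⊗[B] T) :=
  ext B F (RingHom.ker σ) ^ k ⊔ Ideal.span (Set.range fun j => ∑ i, β j i ⊗ₜ[B] ω i)

/-- Extension of an ideal of the fibre to its local ring. -/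
abbrev toLoc {B T : Type} [CommRing B] [CommRing T] [Algebra B T] (σ : T →ₐ[B] B) (F : Type)
    [Field F] [Algebra B F] (I : Ideal (F ⊗[B] T)) : Ideal (Loc σ F) :=
  I.map (algebraMap (F ⊗[B] T) (Loc σ F))

/-- Purity of a submodule with respect to an ideal of the base. -/
def Pure {Λ N : Type} [CommRing Λ] [AddCommGroup N] [Module Λ N] (z : Ideal Λ)
    (L : Submodule Λ N) : Prop :=
  L ⊓ z • (⊤ : Submodule Λ N) ≤ z • L

end

end Pool.Agent.Lib.MP_4287a9_ag
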