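import Pool.Agent.Lib.MP_4287a9_ag.D1

/-!
Internal definitions for Part II: Cech complexes, differential forms in coordinates, lattices,
cup products, Cartier operators, `p`-derivations.
-/

open scoped TensorProduct ENNReal NNReal nonZeroDivisors Polynomial
open Filter

namespace Pool.Agent.Lib.MP_4287a9_ag

noncomputable section

/-- Exterior multiplication by the `a`-th basis vector on functions `Finset (Fin m) → M`. -/
def eps {m : ℕ} {M : Type} [AddCommGroup M] (a : Fin m) (c : Finset (Fin m) → M) :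
    Finset (Fin m) → M :=
  fun σ => if a ∈ σ then (-1 : ℤ) ^ (σ.filter (· < a)).card • c (σ.erase a) else 0

/-- The Cech differential (augmented: the empty set is allowed). -/
def cdel {m : ℕ} {M : Type} [AddCommGroup M] (c : Finset (Fin m) → M) : Finset (Fin m) → M :=
  ∑ a, eps a c

/-- Exactness of the Cech complex with coefficients `L` at cochains on sets with `s + 1`
elements. -/
def CExact {m : ℕ} {M : Type} [AddCommGroup M] (L : Finset (Fin m) → Set M) (s : ℕ) : Prop :=
  ∀ c : Finset (Fin m) → M, (∀ σ, σ.card = s + 1 → c σ ∈ L σ) →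
    (∀ σ, σ.card = s + 2 → cdel c σ = 0) →
      ∃ b : Finset (Fin m) → M, (∀ σ, σ.card = s → b σ ∈ L σ) ∧
        ∀ σ, σ.card = s + 1 → cdel b σ = c σ

/-- Differential forms in coordinates: `w I` is the coefficient of `d x_I`. -/
abbrev Fm (W : Type) (n : ℕ) : Type := Finset (Fin n) → W

/-- `eps` as a linear map on forms. -/
def epsL {W : Type} [CommRing W] {n : ℕ} (i : Fin n) : Fm W n →ₗ[W] Fm W n where
  toFun := eps i
  map_add' c c' := by
    funext σ
    simp only [eps, Pi.add_apply]
    split_ifs <;> simp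
  map_smul' a c := by
    funext σ
    simp only [eps, Pi.smul_apply, RingHom.id_apply]
    split_ifs
    · rw [smul_comm]
    · simp

/-- Exterior multiplication by the one-form with coefficients `ζ`. -/
def wedge {W : Type} [CommRing W] {n : ℕ} (ζ : Fin n → W) : Fm W n →ₗ[W] Fm W n :=
  ∑ i, ζ i • epsL i

/-- The constant zero-form `1`. -/
def fone (W : Type) [CommRing W] (n : ℕ) : Fm W n := Pi.single ∅ 1

/-- The top coefficient. -/
def top {W : Type} [CommRing W] {n : ℕ} (w : Fm W n) : W := w Finset.univ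

/-- The product of a list of one-forms. -/
def wl {W : Type} [CommRing W] {n : ℕ} (L : List (Fin n → W)) : Fm W n :=
  L.foldr (fun ζ w => wedge ζ w) (fone W n)

/-- The product of the one-forms `θ l`, `l ∈ I`, in increasing order. -/
def mon {W : Type} [CommRing W] {n : ℕ} (θ : Fin n → Fin n → W) (I : Finset (Fin n)) : Fm W n :=
  wl ((I.sort (· ≤ ·)).map θ)

/-- The lattice `τ * S[θ]` of forms. -/
def lat {Λ W : Type} [CommRing Λ] [CommRing W] [Algebra Λ W] {n : ℕ} (S : Subalgebra Λ W) (τ : W)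
    (θ : Fin n → Fin n → W) : Submodule Λ (Fm W n) :=
  (Submodule.span S (Set.range fun I => τ • mon θ I)).restrictScalars Λ

/-- The coefficients of `d w`. -/
def grad {Λ W : Type} [CommRing Λ] [CommRing W] [Algebra Λ W] {n : ℕ}
    (D : Fin n → Derivation Λ W W) (w : W) : Fin n → W :=
  fun i => D i w

/-- The exterior derivative. -/
def dd {Λ W : Type} [CommRing Λ] [CommRing W] [Algebra Λ W] {n : ℕ}
    (D : Fin n → Derivation Λ W W) : Fm W n →+ Fm W n where
  toFun w := ∑ i, epsL i (fun I => D i (w I))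
  map_zero' := by
    refine Finset.sum_eq_zero fun i _ => ?_
    have : (fun I : Finset (Fin n) => D i ((0 : Fm W n) I)) = 0 := by
      funext I
      simp
    rw [this, map_zero]
  map_add' w w' := by
    rw [← Finset.sum_add_distrib]
    refine Finset.sum_congr rfl fun i _ => ?_
    rw [← map_add]
    congr 1
    funext I
    simp

/-- A closed one-form. -/
def IsClosedF {Λ W : Type} [CommRing Λ] [CommRing W] [Algebra Λ W] {n : ℕ}
    (D : Fin n → Derivation Λ W W) (ζ : Fin n → W) : Prop :=
  ∀ i j, D i (ζ j) = D j (ζ i)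

/-- The derivations commute. -/
def CommD {Λ W : Type} [CommRing Λ] [CommRing W] [Algebra Λ W] {n : ℕ}
    (D : Fin n → Derivation Λ W W) : Prop :=
  ∀ i j w, D i (D j w) = D j (D i w)

/-- The derivations are dual to the coordinates `x`. -/
def DualD {Λ W : Type} [CommRing Λ] [CommRing W] [Algebra Λ W] {n : ℕ}
    (D : Fin n → Derivation Λ W W) (x : Fin n → W) : Prop :=
  ∀ i l, D i (x l) = if i = l then 1 else 0

/-- Sections over the intersection of the charts in `σ` of the `j`-th twist of a graded family. -/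
def secM {T A N : Type} [CommRing T] [CommRing A] [AddCommGroup N] [Module T N] [Module A N]
    {m : ℕ} (G : Fin m → Aˣ) (M : ℕ → Submodule T N) (j : ℕ) (σ : Finset (Fin m)) : Set N :=
  {v | ∃ i : ℕ, (((∏ a ∈ σ, G a) ^ i : Aˣ) : A) • v ∈ M (j + i * σ.card)}

/-- Laurent polynomials. -/
abbrev LA (T : Type) [CommRing T] (m : ℕ) : Type := AddMonoidAlgebra T (Fin m → ℤ)

/-- The variables as units. -/
def Xu (T : Type) [CommRing T] {m : ℕ} (a : Fin m) : (LA T m)ˣ where
  val := AddMonoidAlgebra.single (Pi.single a 1) 1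
  inv := AddMonoidAlgebra.single (-Pi.single a 1) 1
  val_inv := by
    rw [AddMonoidAlgebra.single_mul_single]
    simp [AddMonoidAlgebra.one_def]
  inv_val := by
    rw [AddMonoidAlgebra.single_mul_single]
    simp [AddMonoidAlgebra.one_def]

/-- The degree `j` part of the free graded module with generators in degrees `d i`. -/
def frM (T : Type) [CommRing T] (m : ℕ) {k : ℕ} (d : Fin k → ℕ) (j : ℕ) :
    Submodule T (Fin k → LA T m) where
  carrier := {v | ∀ i β, (v i).coeff β ≠ 0 → (∀ a, 0 ≤ β a) ∧ ∑ a, β a + d i = j}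
  add_mem' {v w} hv hw i β h := by
    by_cases h1 : (v i).coeff β = 0
    · refine hw i β fun h2 => h ?_
      simp [h1, h2]
    · exact hv i β h1
  zero_mem' i β h := by simp at h
  smul_mem' c v hv i β h := by
    refine hv i β fun h1 => h ?_
    simp [h1]

/-- Iterated cup product of the one-cocycles `(Z k, H k)` with the constant cochain `o`. -/
def cup {W N : Type} [CommRing W] [AddCommGroup N] [Module W N] {m : ℕ}
    (Z : ℕ → Fin m → N →ₗ[W] N) (H : ℕ → Fin m → W) (o : N) : ℕ → Finset (Fin m) → N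
  | 0 => fun σ => if σ.card = 1 then o else 0
  | k + 1 => fun σ =>
      if h : σ.Nonempty then
        (-1 : ℤ) ^ (σ.card - 1) • Z k (σ.min' h) (cup Z H o k σ) +
          (if h' : (σ.erase (σ.min' h)).Nonempty then
            (H k ((σ.erase (σ.min' h)).min' h') - H k (σ.min' h)) •
              cup Z H o k (σ.erase (σ.min' h))
          else 0)
      else 0

/-- The cup product evaluated on the rows of the matrix `v`. -/
def cupv {W : Type} [CommRing W] {n m : ℕ} (ζ : Fin m → Fin n → Fin n → W)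
    (h : Fin m → Fin n → W) (v : Matrix (Fin n) (Fin n) W) : Finset (Fin m) → Fm W n :=
  cup (fun k a => if hk : k < n then wedge (∑ i, v ⟨k, hk⟩ i • ζ a i) else 0)
    (fun k a => if hk : k < n then ∑ i, v ⟨k, hk⟩ i * h a i else 0) (fone W n) n

/-- The antisymmetrized cup product. -/
def alt {W : Type} [CommRing W] {n m : ℕ} (ζ : Fin m → Fin n → Fin n → W)
    (h : Fin m → Fin n → W) (v : Matrix (Fin n) (Fin n) W) (σ : Finset (Fin m)) : Fm W n :=
  ∑ π : Equiv.Perm (Fin n), ((Equiv.Perm.sign π : ℤˣ) : ℤ) • cupv ζ h (v.submatrix π id) σ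

/-- The one-form `x i ^ (p - 1) d x i + d h`. -/
def zet {Λ W : Type} [CommRing Λ] [CommRing W] [Algebra Λ W] {n : ℕ} (p : ℕ)
    (D : Fin n → Derivation Λ W W) (x h : Fin n → W) (i : Fin n) : Fin n → W :=
  Pi.single i (x i ^ (p - 1)) + grad D (h i)

/-- Cartier operator for the coordinates `y`. -/
def IsCar (p : ℕ) {W : Type} [CommRing W] {n : ℕ} (y : Fin n → W) (Φ : W →+ W) : Prop :=
  (∀ w z, Φ (w ^ p * z) = w * Φ z) ∧
    ∀ β : Fin n → Fin p, Φ (∏ i, y i ^ (β i : ℕ)) = if ∀ i, (β i : ℕ) = p - 1 then 1 else 0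

/-- The polynomial `(a ^ p + b ^ p - (a + b) ^ p) / p`. -/
def Cp (p : ℕ) {R : Type} [CommRing R] (a b : R) : R :=
  -∑ i ∈ Finset.Ioo 0 p, ((p.choose i / p : ℕ) : R) * a ^ i * b ^ (p - i)

/-- A `p`-derivation along `π` with values in a ring of characteristic `p`. -/
def IsPD (p : ℕ) {A R : Type} [CommRing A] [CommRing R] (π : A →+* R) (δ : A → R) : Prop :=
  (∀ a b, δ (a + b) = δ a + δ b + Cp p (π a) (π b)) ∧
    ∀ a b, δ (a * b) = π a ^ p * δ b + π b ^ p * δ a

/-- `W'` is the reduction of `W` along `χ : Λ → κ`. -/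
structure IsRed {Λ κ W W' : Type} [CommRing Λ] [CommRing κ] [CommRing W] [CommRing W']
    [Algebra Λ W] [Algebra κ W'] (χ : Λ →+* κ) (π : W →+* W') : Prop where
  surjχ : Function.Surjective χ
  surj : Function.Surjective π
  comm : ∀ a, π (algebraMap Λ W a) = algebraMap κ W' (χ a)
  ker : ∀ w, π w = 0 ↔ w ∈ (RingHom.ker χ) • (⊤ : Submodule Λ W)

/-- `ρ` is the localization away from `f`. -/
def IsAway {P T : Type} [CommRing P] [CommRing T] (ρ : P →+* T) (f : P) : Prop :=
  IsUnit (ρ f) ∧ (∀ w, ∃ (i : ℕ) (x : P), ρ f ^ i * w = ρ x) ∧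
    ∀ x, ρ x = 0 → ∃ i : ℕ, f ^ i * x = 0

/-- Coefficientwise image of a form. -/
def fmap {W W' : Type} [CommRing W] [CommRing W'] (n : ℕ) (π : W →+* W') : Fm W n →+ Fm W' n :=
  AddMonoidHom.compLeft π.toAddMonoidHom (Finset (Fin n))

/-- A property that holds for all large enough subalgebras of `k`. -/
def Ev (B k : Type) [CommRing B] [CommRing k] [Algebra B k] (P : Subalgebra B k → Prop) : Prop :=
  ∃ Λ₀ : Subalgebra B k, Λ₀.FG ∧ ∀ Λ : Subalgebra B k, Λ₀ ≤ Λ → P Λ

end

end Pool.Agent.Lib.MP_4287a9_ag
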