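import Pool.Agent.Lib.MP_4287a9_ag.D2

/-!
Finite data describing a log resolution over a base ring `Λ`.
-/

open scoped TensorProduct ENNReal NNReal nonZeroDivisors Polynomial
open Filter

namespace Pool.Agent.Lib.MP_4287a9_ag

noncomputable section

/-- The discrete part of the data: `m` charts, `μ` divisors, numbers of generators. -/
structure Shp (n : ℕ) where
  m : ℕ
  μ : ℕ
  nt : ℕ
  nb : ℕ
  nd : ℕ
  na : ℕ
  ne : ℕ
  r : ℕ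
  M : ℕ
  a1 : ℕ
  a0 : Fin m
  lam : Fin m → Fin μ → Option (Fin n)
  al : Fin μ → ℤ
  ch : Fin ne → Fin m

/-- The index `N = r M`. -/
def Shp.N {n : ℕ} (s : Shp n) : ℕ := s.r * s.M

/-- The integer `⌈q α i / N⌉`. -/
def Shp.ce {n : ℕ} (s : Shp n) (q : ℕ) (i : Fin s.μ) : ℤ :=
  ⌈((q : ℚ) * (s.al i : ℚ)) / (s.N : ℚ)⌉

/-- The elements of the ring `W` that make up the data. -/
structure RD {n : ℕ} (s : Shp n) (W : Type) [CommRing W] where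
  tg : Fin s.nt → W
  bg : Fin s.nb → W
  dg : Fin s.nd → W
  ag : Fin s.na → W
  e : Fin s.ne → W
  g : Wˣ
  u : Wˣ
  e1 : Wˣ
  e2 : W
  G : Fin s.m → Wˣ
  j : Fin s.m → Wˣ
  y : Fin s.m → Fin n → W
  t : Fin s.m → Fin s.μ → Wˣ

/-- `x` and `y` differ by a unit of `S`. -/
def As {Λ W : Type} [CommRing Λ] [CommRing W] [Algebra Λ W] (S : Subalgebra Λ W) (x y : Wˣ) :
    Prop :=
  ((x * y⁻¹ : Wˣ) : W) ∈ S ∧ ((y * x⁻¹ : Wˣ) : W) ∈ S

namespace RD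

variable {n : ℕ} {s : Shp n} {W : Type} [CommRing W]

/-- Image of the data under a ring map. -/
def map (d : RD s W) {W' : Type} [CommRing W'] (f : W →+* W') : RD s W' where
  tg i := f (d.tg i)
  bg i := f (d.bg i)
  dg i := f (d.dg i)
  ag i := f (d.ag i)
  e i := f (d.e i)
  g := Units.map (f : W →* W') d.g
  u := Units.map (f : W →* W') d.u
  e1 := Units.map (f : W →* W') d.e1
  e2 := f d.e2
  G a := Units.map (f : W →* W') (d.G a)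
  j a := Units.map (f : W →* W') (d.j a)
  y a l := f (d.y a l)
  t a i := Units.map (f : W →* W') (d.t a i)

/-- The coordinate ring of the affine base. -/
def T (d : RD s W) (Λ : Type) [CommRing Λ] [Algebra Λ W] : Subalgebra Λ W :=
  Algebra.adjoin Λ (Set.range d.tg)

/-- The ring `T[1 / g]`. -/
def Ws (d : RD s W) (Λ : Type) [CommRing Λ] [Algebra Λ W] : Subalgebra Λ W :=
  Algebra.adjoin Λ (Set.range d.tg ∪ {((d.g⁻¹ : Wˣ) : W)})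

/-- The `T`-submodule of `W` spanned by a finite family. -/
def sp (d : RD s W) (Λ : Type) [CommRing Λ] [Algebra Λ W] {k : ℕ} (v : Fin k → W) :
    Submodule (d.T Λ) W :=
  Submodule.span (d.T Λ) (Set.range v)

/-- The ideal of `T` generated by a finite family. -/
def idl (d : RD s W) (Λ : Type) [CommRing Λ] [Algebra Λ W] {k : ℕ} (v : Fin k → W) :
    Ideal (d.T Λ) :=
  Ideal.span {x : d.T Λ | (x : W) ∈ Set.range v}

/-- The chart `T[𝔟 / G a]`. -/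
def S1 (d : RD s W) (Λ : Type) [CommRing Λ] [Algebra Λ W] (a : Fin s.m) : Subalgebra Λ W :=
  Algebra.adjoin Λ (Set.range d.tg ∪ Set.range fun i => d.bg i * (((d.G a)⁻¹ : Wˣ) : W))

/-- The ring of the intersection of the charts in `σ`. -/
def S (d : RD s W) (Λ : Type) [CommRing Λ] [Algebra Λ W] (σ : Finset (Fin s.m)) :
    Subalgebra Λ W :=
  ⨆ a ∈ σ, d.S1 Λ a

/-- The equation of the boundary along the coordinate `l`: `y a l` or `1`. -/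
def tl (d : RD s W) (a : Fin s.m) (l : Fin n) : Wˣ :=
  ∏ i ∈ Finset.univ.filter (fun i => s.lam a i = some l), d.t a i

/-- Generator of the lattice of logarithmic forms at level `q`. -/
def tau (d : RD s W) (a : Fin s.m) (q : ℕ) : Wˣ :=
  d.j a ^ q * ∏ i, d.t a i ^ (1 - s.ce q i)

/-- Generator of the lattice of top coefficients at level `q`. -/
def sig (d : RD s W) (a : Fin s.m) (q : ℕ) : Wˣ :=
  d.j a ^ ((q : ℤ) - 1) * ∏ i, d.t a i ^ (-s.ce q i)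

/-- The logarithmic one-forms of the chart `a`. -/
def theta (d : RD s W) {Λ : Type} [CommRing Λ] [Algebra Λ W] (D : Fin n → Derivation Λ W W)
    (a : Fin s.m) : Fin n → Fin n → W :=
  fun l => (((d.tl a l)⁻¹ : Wˣ) : W) • grad D (d.y a l)

/-- The lattice of logarithmic forms at level `q` over the intersection of the charts in `σ`. -/
def LL (d : RD s W) {Λ : Type} [CommRing Λ] [Algebra Λ W] (D : Fin n → Derivation Λ W W) (q : ℕ)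
    (σ : Finset (Fin s.m)) : Submodule Λ (Fm W n) :=
  ⨆ a ∈ σ, lat (d.S Λ σ) (d.tau a q : W) (d.theta D a)

/-- Global sections at level `q`. -/
def Gam (d : RD s W) (Λ : Type) [CommRing Λ] [Algebra Λ W] (q : ℕ) : Set W :=
  {f | ∀ a, f * (((d.sig a q)⁻¹ : Wˣ) : W) ∈ d.S1 Λ a}

/-- Conditions that do not involve derivations or the ambient ring. -/
structure Pre (d : RD s W) (Λ : Type) [CommRing Λ] [Algebra Λ W] : Prop where
  hr : 0 < s.r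
  hM : 0 < s.M
  hal : ∀ i, -(s.N : ℤ) < s.al i
  hinj : ∀ a i i' l, s.lam a i = some l → s.lam a i' = some l → i = i'
  ht : ∀ a i, (d.t a i : W) = (s.lam a i).elim 1 (d.y a)
  bT : ∀ i, d.bg i ∈ d.T Λ
  dT : ∀ i, d.dg i ∈ d.T Λ
  aT : ∀ i, d.ag i ∈ d.T Λ
  eT : ∀ i, d.e i ∈ d.T Λ
  gT : (d.g : W) ∈ d.T Λ
  hG : ∀ a, (d.G a : W) ∈ d.sp Λ d.bg
  hred : ∃ ρ : ℕ, d.sp Λ d.bg ^ (ρ + 1) ≤ d.sp Λ (fun a => (d.G a : W)) * d.sp Λ d.bg ^ ρ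
  het : ∀ a, EtC (d.S1 Λ a) (d.y a)
  hglue : ∀ a b i, As (d.S1 Λ a ⊔ d.S1 Λ b) (d.t a i) (d.t b i)
  hj : ∀ a, As (d.S1 Λ a) (d.j a ^ s.N) (d.u * d.G a * ∏ i, d.t a i ^ s.al i)
  ha : d.sp Λ d.bg ≤ d.sp Λ d.ag ^ s.a1
  heS : ∀ i, ∀ w ∈ d.S1 Λ (s.ch i), ∃ k : ℕ, d.e i ^ k * w ∈ d.T Λ
  hed : ∀ i, ∃ k : ℕ, d.e i ^ k * ((d.u * (d.j (s.ch i))⁻¹ ^ s.N : Wˣ) : W) ∈
    d.sp Λ d.dg ^ s.M
  he1 : (d.e1 : W) ∈ d.sp Λ d.e
  he2 : d.e2 ∈ d.sp Λ d.e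
  hreg : ∀ w ∈ d.T Λ, (∃ v ∈ d.T Λ, d.e2 * w = d.e1 * v) →
    ∃ b : Λ, b ≠ 0 ∧ ∃ v ∈ d.T Λ, b • w = d.e1 * v

/-- Conditions inside an ambient ring that may be larger than `T[1 / g]`. -/
structure Amb (d : RD s W) (Λ : Type) [CommRing Λ] [Algebra Λ W]
    (D : Fin n → Derivation Λ W W) : Prop extends d.Pre Λ where
  wG : ∀ a, (((d.G a)⁻¹ : Wˣ) : W) ∈ d.Ws Λ
  wj : ∀ a, (d.j a : W) ∈ d.Ws Λ
  wt : ∀ a i, (((d.t a i)⁻¹ : Wˣ) : W) ∈ d.Ws Λ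
  wu : (d.u : W) ∈ d.Ws Λ
  wu' : ((d.u⁻¹ : Wˣ) : W) ∈ d.Ws Λ
  we : ((d.e1⁻¹ : Wˣ) : W) ∈ d.Ws Λ
  wD : ∀ i, ∀ w ∈ d.Ws Λ, D i w ∈ d.Ws Λ
  hdet : ∀ a, (d.j a : W) * (Matrix.of fun i l => D i (d.y a l)).det = 1
  hdual : DualD D (d.y s.a0)

/-- All conditions, with ambient ring `T[1 / g]`. -/
structure Good (d : RD s W) (Λ : Type) [CommRing Λ] [Algebra Λ W]
    (D : Fin n → Derivation Λ W W) : Prop extends d.Amb Λ D where
  hW : d.Ws Λ = ⊤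

/-- Output of the Frobenius lifts on the charts. -/
structure HD (d : RD s W) {Λ : Type} [CommRing Λ] [Algebra Λ W] (p : ℕ)
    (D : Fin n → Derivation Λ W W) (h : Fin s.m → Fin n → W) : Prop where
  h1 : ∀ a l, ∑ i, D i (d.y a l) ^ p • zet p D (d.y s.a0) (h a) i =
    d.y a l ^ (p - 1) • grad D (d.y a l)
  h2 : ∀ a c l, (∑ i, D i (d.y c l) ^ p * (h a i - h c i)) * (((d.tl c l)⁻¹ ^ p : Wˣ) : W) ∈
    d.S Λ {a, c}

/-- `T` is, up to `Λ`-torsion, the localization of `P` away from `f`. -/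
structure Link (d : RD s W) {Λ P : Type} [CommRing Λ] [Algebra Λ W] [CommRing P] [Algebra Λ P]
    (ρ : P →ₐ[Λ] W) (f : P) (𝔡 𝔞 : Ideal P) : Prop where
  mem : ∀ x, ρ x ∈ d.T Λ
  inv : ∃ w ∈ d.T Λ, ρ f * w = 1
  surj : ∀ w ∈ d.T Λ, ∃ (i : ℕ) (x : P), ρ f ^ i * w = ρ x
  ker : ∀ x, ρ x = 0 → ∃ b : Λ, b ≠ 0 ∧ ∃ i : ℕ, b • (f ^ i * x) = 0
  hd : ∀ i, ∃ x ∈ 𝔡, ρ x = d.dg i
  ha : ∀ i, ∃ x ∈ 𝔞, ρ x = d.ag i

/-- Purity of all the rings of the data, and regularity of `e₁, e₂`, modulo `z`. -/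
structure PureAt (d : RD s W) {Λ : Type} [CommRing Λ] [Algebra Λ W] (z : Ideal Λ) : Prop where
  hT : Pure z (Subalgebra.toSubmodule (d.T Λ))
  hS : ∀ σ : Finset (Fin s.m), σ.Nonempty → Pure z (Subalgebra.toSubmodule (d.S Λ σ))
  hreg : ∀ w ∈ d.T Λ, ∀ v ∈ d.T Λ, d.e2 * w - d.e1 * v ∈ z • (⊤ : Submodule Λ W) →
    ∃ v' ∈ d.T Λ, w - d.e1 * v' ∈ z • (⊤ : Submodule Λ W)

end RD

end

end Pool.Agent.Lib.MP_4287a9_ag
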