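import Pool.Agent.Lib.MP_4287a9_ag.D3

/-!
Graded version of the resolution data (torus bundles over a weighted resolution).
The ambient ring is `LA W₀ ρ = W₀[τ₁^±, ..., τ_ρ^±]`, graded by `Fin ρ → ℤ`.
-/

open scoped TensorProduct ENNReal NNReal nonZeroDivisors Polynomial
open Filter

namespace Pool.Agent.Lib.MP_4287a9_ag

noncomputable section

/-- Homogeneous of degree `γ`. -/
def IsDeg {W₀ : Type} [CommRing W₀] {ρ : ℕ} (γ : Fin ρ → ℤ) (w : LA W₀ ρ) : Prop :=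
  ∀ β, β ≠ γ → w.coeff β = 0

/-- Homogeneous of some degree. -/
def IsHom {W₀ : Type} [CommRing W₀] {ρ : ℕ} (w : LA W₀ ρ) : Prop := ∃ γ, IsDeg γ w

/-- The homogeneous component of degree `γ`. -/
def pr {W₀ : Type} [CommRing W₀] {ρ : ℕ} (γ : Fin ρ → ℤ) : LA W₀ ρ →+ LA W₀ ρ where
  toFun w := AddMonoidAlgebra.single γ (w.coeff γ)
  map_zero' := by simp
  map_add' a b := by simp [AddMonoidAlgebra.single_add]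

/-- The component of total degree `γ` of a form, when `d x i` has degree `dx i`. -/
def prF {W₀ : Type} [CommRing W₀] {ρ n : ℕ} (dx : Fin n → Fin ρ → ℤ) (γ : Fin ρ → ℤ) :
    Fm (LA W₀ ρ) n →+ Fm (LA W₀ ρ) n where
  toFun w I := pr (γ - ∑ i ∈ I, dx i) (w I)
  map_zero' := by
    funext I
    simp
  map_add' a b := by
    funext I
    simp

/-- Forms of total degree `γ`. -/
def Fdeg (Λ : Type) [CommRing Λ] {W₀ : Type} [CommRing W₀] [Algebra Λ W₀] {ρ n : ℕ}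
    (dx : Fin n → Fin ρ → ℤ) (γ : Fin ρ → ℤ) : Submodule Λ (Fm (LA W₀ ρ) n) where
  carrier := {w | ∀ I, IsDeg (γ - ∑ i ∈ I, dx i) (w I)}
  add_mem' {a b} ha hb I β hβ := by simp [ha I β hβ, hb I β hβ]
  zero_mem' I β _ := by simp
  smul_mem' c w hw I β hβ := by simp [hw I β hβ]

/-- A subalgebra that contains the homogeneous components of its elements. -/
def IsGr {Λ W₀ : Type} [CommRing Λ] [CommRing W₀] [Algebra Λ W₀] {ρ : ℕ}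
    (S : Subalgebra Λ (LA W₀ ρ)) : Prop :=
  ∀ γ, ∀ w ∈ S, pr γ w ∈ S

/-- Coefficientwise image. -/
abbrev lmap {W₀ W₁ : Type} [CommRing W₀] [CommRing W₁] (ρ : ℕ) (f : W₀ →+* W₁) :
    LA W₀ ρ →+* LA W₁ ρ :=
  AddMonoidAlgebra.mapRingHom (Fin ρ → ℤ) f

/-- Discrete part of the graded data. `n` is the number of all coordinates (dimension plus `ρ`). -/
structure GShp (n : ℕ) extends Shp n where
  ρ : ℕ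
  ns : ℕ
  no : ℕ
  mv : ℕ
  dx : Fin n → Fin ρ → ℤ

/-- The degree of `d x 1 ∧ ... ∧ d x n`. -/
def GShp.δ {n : ℕ} (s : GShp n) : Fin s.ρ → ℤ := ∑ i, s.dx i

/-- Graded data. The `RD` part describes the degree zero ring `T`, the ideals, the small charts
`S1 a = T[𝔟 / G a]`, the coordinates and the boundary. The big charts `B1 a` are generated by
`tg` and `sg a`; `v a c` are units of `B1 a` of degree `mv • e c`, and `om a` generate `B1 a` as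
a module over `S1 a [v a ^ ±]`. `yE i`, `jE i`, `wE i` describe the charts in codimension one. -/
structure GD {n : ℕ} (s : GShp n) (W₀ : Type) [CommRing W₀] extends
    RD s.toShp (LA W₀ s.ρ) where
  sg : Fin s.m → Fin s.ns → LA W₀ s.ρ
  om : Fin s.m → Fin s.no → LA W₀ s.ρ
  v : Fin s.m → Fin s.ρ → (LA W₀ s.ρ)ˣ
  eI : Fin s.ne → LA W₀ s.ρ
  yE : Fin s.ne → Fin n → LA W₀ s.ρ
  jE : Fin s.ne → (LA W₀ s.ρ)ˣ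
  wE : Fin s.ne → (LA W₀ s.ρ)ˣ

namespace GD

variable {n : ℕ} {s : GShp n} {W₀ : Type} [CommRing W₀]

/-- Image of the data under a map of coefficient rings. -/
def map (d : GD s W₀) {W₁ : Type} [CommRing W₁] (f : W₀ →+* W₁) : GD s W₁ where
  toRD := d.toRD.map (lmap s.ρ f)
  sg a i := lmap s.ρ f (d.sg a i)
  om a i := lmap s.ρ f (d.om a i)
  v a c := Units.map (lmap s.ρ f : LA W₀ s.ρ →* LA W₁ s.ρ) (d.v a c)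
  eI i := lmap s.ρ f (d.eI i)
  yE i l := lmap s.ρ f (d.yE i l)
  jE i := Units.map (lmap s.ρ f : LA W₀ s.ρ →* LA W₁ s.ρ) (d.jE i)
  wE i := Units.map (lmap s.ρ f : LA W₀ s.ρ →* LA W₁ s.ρ) (d.wE i)

/-- The set of the variables `τ c` and their inverses. -/
def taus (W₀ : Type) [CommRing W₀] (ρ : ℕ) : Set (LA W₀ ρ) :=
  Set.range (fun c => ((Xu W₀ c : (LA W₀ ρ)ˣ) : LA W₀ ρ)) ∪
    Set.range (fun c => (((Xu W₀ c)⁻¹ : (LA W₀ ρ)ˣ) : LA W₀ ρ))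

/-- The ring `T[1 / g][τ ^ ±]`. -/
def Wg (d : GD s W₀) (Λ : Type) [CommRing Λ] [Algebra Λ W₀] : Subalgebra Λ (LA W₀ s.ρ) :=
  Algebra.adjoin Λ (Set.range d.tg ∪ {((d.g⁻¹ : (LA W₀ s.ρ)ˣ) : LA W₀ s.ρ)} ∪ taus W₀ s.ρ)

/-- The big chart. -/
def B1 (d : GD s W₀) (Λ : Type) [CommRing Λ] [Algebra Λ W₀] (a : Fin s.m) :
    Subalgebra Λ (LA W₀ s.ρ) :=
  Algebra.adjoin Λ (Set.range d.tg ∪ Set.range (d.sg a))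

/-- The ring of an intersection of big charts. -/
def B (d : GD s W₀) (Λ : Type) [CommRing Λ] [Algebra Λ W₀] (σ : Finset (Fin s.m)) :
    Subalgebra Λ (LA W₀ s.ρ) :=
  ⨆ a ∈ σ, d.B1 Λ a

/-- The ring `S1 a [v a ^ ±]`. -/
def SV (d : GD s W₀) (Λ : Type) [CommRing Λ] [Algebra Λ W₀] (a : Fin s.m) :
    Subalgebra Λ (LA W₀ s.ρ) :=
  d.S1 Λ a ⊔ Algebra.adjoin Λ (Set.range (fun c => (d.v a c : LA W₀ s.ρ)) ∪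
    Set.range fun c => (((d.v a c)⁻¹ : (LA W₀ s.ρ)ˣ) : LA W₀ s.ρ))

/-- The ring `T[1 / e i][τ ^ ±]`. -/
def SE (d : GD s W₀) (Λ : Type) [CommRing Λ] [Algebra Λ W₀] (i : Fin s.ne) :
    Subalgebra Λ (LA W₀ s.ρ) :=
  Algebra.adjoin Λ (Set.range d.tg ∪ {d.eI i} ∪ taus W₀ s.ρ)

/-- The lattice of logarithmic forms at level `q`, all degrees. -/
def LB (d : GD s W₀) {Λ : Type} [CommRing Λ] [Algebra Λ W₀]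
    (D : Fin n → Derivation Λ (LA W₀ s.ρ) (LA W₀ s.ρ)) (q : ℕ) (σ : Finset (Fin s.m)) :
    Submodule Λ (Fm (LA W₀ s.ρ) n) :=
  ⨆ a ∈ σ, lat (d.B Λ σ) (d.tau a q : LA W₀ s.ρ) (d.theta D a)

/-- Its part of total degree `q • δ`. -/
def LG (d : GD s W₀) {Λ : Type} [CommRing Λ] [Algebra Λ W₀]
    (D : Fin n → Derivation Λ (LA W₀ s.ρ) (LA W₀ s.ρ)) (q : ℕ) (σ : Finset (Fin s.m)) :
    Submodule Λ (Fm (LA W₀ s.ρ) n) :=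
  d.LB D q σ ⊓ Fdeg Λ s.dx ((q : ℤ) • s.δ)

/-- Global sections at level `q`. -/
def Gam (d : GD s W₀) (Λ : Type) [CommRing Λ] [Algebra Λ W₀] (q : ℕ) : Set (LA W₀ s.ρ) :=
  {f | IsDeg (((q : ℤ) - 1) • s.δ) f ∧
    ∀ a, f * (((d.sig a q)⁻¹ : (LA W₀ s.ρ)ˣ) : LA W₀ s.ρ) ∈ d.B1 Λ a}

/-- Conditions that do not involve derivations or the ambient ring. -/
structure Pre (d : GD s W₀) (Λ : Type) [CommRing Λ] [Algebra Λ W₀] : Prop where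
  hr : 0 < s.r
  hM : 0 < s.M
  hmv : 0 < s.mv
  hal : ∀ i, -(s.N : ℤ) < s.al i
  hinj : ∀ a i i' l, s.lam a i = some l → s.lam a i' = some l → i = i'
  ht : ∀ a i, (d.t a i : LA W₀ s.ρ) = (s.lam a i).elim 1 (d.y a)
  dtg : ∀ i, IsDeg 0 (d.tg i)
  dsg : ∀ a i, IsHom (d.sg a i)
  dom : ∀ a i, IsHom (d.om a i)
  dy : ∀ a l, IsHom (d.y a l)
  dx : ∀ l, IsDeg (s.dx l) (d.y s.a0 l)
  dv : ∀ a c, IsDeg (Pi.single c (s.mv : ℤ)) (d.v a c : LA W₀ s.ρ)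
  du : IsDeg ((s.N : ℤ) • s.δ) (d.u : LA W₀ s.ρ)
  bT : ∀ i, d.bg i ∈ d.T Λ
  dT : ∀ i, d.dg i ∈ d.T Λ
  aT : ∀ i, d.ag i ∈ d.T Λ
  eT : ∀ i, d.e i ∈ d.T Λ
  gT : (d.g : LA W₀ s.ρ) ∈ d.T Λ
  hG : ∀ a, (d.G a : LA W₀ s.ρ) ∈ d.sp Λ d.bg
  hred : ∃ ρ : ℕ,
    d.sp Λ d.bg ^ (ρ + 1) ≤ d.sp Λ (fun a => (d.G a : LA W₀ s.ρ)) * d.sp Λ d.bg ^ ρ
  hSB : ∀ a, d.S1 Λ a ≤ d.B1 Λ a
  hBB : ∀ a b i, ∃ k : ℕ,
    (((d.G b * (d.G a)⁻¹) ^ k : (LA W₀ s.ρ)ˣ) : LA W₀ s.ρ) * d.sg b i ∈ d.B1 Λ a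
  hτ : ∀ a, ∀ w ∈ taus W₀ s.ρ, ∃ k : ℕ, (d.g : LA W₀ s.ρ) ^ k * w ∈ d.B1 Λ a
  hv : ∀ a c, (d.v a c : LA W₀ s.ρ) ∈ d.B1 Λ a ∧
    (((d.v a c)⁻¹ : (LA W₀ s.ρ)ˣ) : LA W₀ s.ρ) ∈ d.B1 Λ a
  hom : ∀ a i, d.om a i ∈ d.B1 Λ a
  hfin : ∀ a, ∀ w ∈ d.B1 Λ a, w ∈ Submodule.span (d.SV Λ a) (Set.range (d.om a))
  het : ∀ a, EtC (d.B1 Λ a) (d.y a)
  hglue : ∀ a b i, As (d.B1 Λ a ⊔ d.B1 Λ b) (d.t a i) (d.t b i)
  hj : ∀ a, As (d.B1 Λ a) (d.j a ^ s.N) (d.u * d.G a * ∏ i, d.t a i ^ s.al i)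
  ha : d.sp Λ d.bg ≤ d.sp Λ d.ag ^ s.a1
  heI : ∀ i, d.e i * d.eI i = 1
  hetE : ∀ i, EtC (d.SE Λ i) (d.yE i)
  hwE : ∀ i, (((d.wE i)⁻¹ : (LA W₀ s.ρ)ˣ) : LA W₀ s.ρ) ∈ d.SE Λ i
  hed : ∀ i, ∃ k : ℕ, d.e i ^ k *
    ((d.u * (d.jE i)⁻¹ ^ s.N * d.wE i : (LA W₀ s.ρ)ˣ) : LA W₀ s.ρ) ∈ d.sp Λ d.dg ^ s.M
  he1 : (d.e1 : LA W₀ s.ρ) ∈ d.sp Λ d.e
  he2 : d.e2 ∈ d.sp Λ d.e
  hreg : ∀ w ∈ d.T Λ, (∃ v ∈ d.T Λ, d.e2 * w = d.e1 * v) →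
    ∃ b : Λ, b ≠ 0 ∧ ∃ v ∈ d.T Λ, b • w = d.e1 * v

/-- Conditions inside an ambient ring that may be larger than `T[1 / g][τ ^ ±]`. -/
structure Amb (d : GD s W₀) (Λ : Type) [CommRing Λ] [Algebra Λ W₀]
    (D : Fin n → Derivation Λ (LA W₀ s.ρ) (LA W₀ s.ρ)) : Prop extends d.Pre Λ where
  wG : ∀ a, (((d.G a)⁻¹ : (LA W₀ s.ρ)ˣ) : LA W₀ s.ρ) ∈ d.Wg Λ
  wj : ∀ a, (d.j a : LA W₀ s.ρ) ∈ d.Wg Λ
  wt : ∀ a i, (((d.t a i)⁻¹ : (LA W₀ s.ρ)ˣ) : LA W₀ s.ρ) ∈ d.Wg Λ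
  wu : (d.u : LA W₀ s.ρ) ∈ d.Wg Λ
  wu' : ((d.u⁻¹ : (LA W₀ s.ρ)ˣ) : LA W₀ s.ρ) ∈ d.Wg Λ
  we : ((d.e1⁻¹ : (LA W₀ s.ρ)ˣ) : LA W₀ s.ρ) ∈ d.Wg Λ
  wsg : ∀ a i, d.sg a i ∈ d.Wg Λ
  weI : ∀ i, d.eI i ∈ d.Wg Λ
  wjE : ∀ i, (d.jE i : LA W₀ s.ρ) ∈ d.Wg Λ
  wwE : ∀ i, (d.wE i : LA W₀ s.ρ) ∈ d.Wg Λ
  wD : ∀ i, ∀ w ∈ d.Wg Λ, D i w ∈ d.Wg Λ
  hdet : ∀ a, (d.j a : LA W₀ s.ρ) * (Matrix.of fun i l => D i (d.y a l)).det = 1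
  hdetE : ∀ a, (d.jE a : LA W₀ s.ρ) * (Matrix.of fun i l => D i (d.yE a l)).det = 1
  hdual : DualD D (d.y s.a0)
  dD : ∀ i γ w, IsDeg γ w → IsDeg (γ - s.dx i) (D i w)

/-- All conditions, with ambient ring `T[1 / g][τ ^ ±]`. -/
structure Good (d : GD s W₀) (Λ : Type) [CommRing Λ] [Algebra Λ W₀]
    (D : Fin n → Derivation Λ (LA W₀ s.ρ) (LA W₀ s.ρ)) : Prop extends d.Amb Λ D where
  hW : d.Wg Λ = ⊤

/-- Output of the Frobenius lifts on the big charts. -/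
structure HD (d : GD s W₀) {Λ : Type} [CommRing Λ] [Algebra Λ W₀] (p : ℕ)
    (D : Fin n → Derivation Λ (LA W₀ s.ρ) (LA W₀ s.ρ)) (h : Fin s.m → Fin n → LA W₀ s.ρ) :
    Prop where
  h1 : ∀ a l, ∑ i, D i (d.y a l) ^ p • zet p D (d.y s.a0) (h a) i =
    d.y a l ^ (p - 1) • grad D (d.y a l)
  h2 : ∀ a c l, (∑ i, D i (d.y c l) ^ p * (h a i - h c i)) *
    (((d.tl c l)⁻¹ ^ p : (LA W₀ s.ρ)ˣ) : LA W₀ s.ρ) ∈ d.B Λ {a, c}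

/-- Purity of all the rings of the data, and regularity of `e₁, e₂`, modulo `z`. -/
structure PureAt (d : GD s W₀) {Λ : Type} [CommRing Λ] [Algebra Λ W₀] (z : Ideal Λ) : Prop where
  hT : Pure z (Subalgebra.toSubmodule (d.T Λ))
  hB : ∀ σ : Finset (Fin s.m), σ.Nonempty → Pure z (Subalgebra.toSubmodule (d.B Λ σ))
  hE : ∀ i, Pure z (Subalgebra.toSubmodule (d.SE Λ i))
  hreg : ∀ w ∈ d.T Λ, ∀ v ∈ d.T Λ, d.e2 * w - d.e1 * v ∈ z • (⊤ : Submodule Λ (LA W₀ s.ρ)) →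
    ∃ v' ∈ d.T Λ, w - d.e1 * v' ∈ z • (⊤ : Submodule Λ (LA W₀ s.ρ))

end GD

end

end Pool.Agent.Lib.MP_4287a9_ag
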