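import Pool.Agent.Lib.MP_4287a9_ag.St2
import Pool.Agent.Lib.MP_4287a9_ag.D4

/-!
Internal definitions for the full statement: points of fibres, generic properties, models in
characteristic zero, data attached to one divisor.
-/

open scoped TensorProduct ENNReal NNReal nonZeroDivisors Polynomial
open Filter

namespace Pool.Agent.Lib.MP_4287a9_ag

noncomputable section

section points

variable {B T : Type} [CommRing B] [CommRing T] [Algebra B T]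

/-- Base change of the fibre. -/
abbrev bm (T : Type) [CommRing T] [Algebra B T] {F F' : Type} [CommRing F] [Algebra B F]
    [CommRing F'] [Algebra B F'] (j : F →ₐ[B] F') : F ⊗[B] T →ₐ[B] F' ⊗[B] T :=
  Algebra.TensorProduct.map j (AlgHom.id B T)

/-- The `F`-point of `F ⊗[B] T` given by `τ`. -/
def pa {F : Type} [CommRing F] [Algebra B F] (τ : T →ₐ[B] F) : F ⊗[B] T →ₐ[F] F :=
  Algebra.TensorProduct.lift (AlgHom.id F F) τ (fun _ _ => Commute.all _ _)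

/-- The ideal of that point. -/
def pk {F : Type} [CommRing F] [Algebra B F] (τ : T →ₐ[B] F) : Ideal (F ⊗[B] T) :=
  RingHom.ker (pa τ)

instance pk_isPrime {F : Type} [Field F] [Algebra B F] (τ : T →ₐ[B] F) : (pk τ).IsPrime :=
  RingHom.ker_isPrime _

/-- Extension of an ideal to a local ring. -/
abbrev lo {R : Type} [CommRing R] (m : Ideal R) [m.IsPrime] (I : Ideal R) :
    Ideal (Localization.AtPrime m) :=
  I.map (algebraMap R (Localization.AtPrime m))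

/-- Internal strong F-regularity at a prime. -/
def SFat (p : ℕ) {R : Type} [CommRing R] (m : Ideal R) [m.IsPrime] (𝔡 : Ideal R) (r : ℕ)
    (𝔞 : Ideal R) (t : ℝ≥0) : Prop :=
  SFRi p (lo m 𝔡) r (lo m 𝔞) t

/-- The same with maps defined on `R` and levels `q` with `N ∣ q - 1`. -/
def SFg (p N : ℕ) {R : Type} [CommRing R] (m : Ideal R) [m.IsPrime] (𝔡 : Ideal R) (r : ℕ)
    (𝔞 : Ideal R) (t : ℝ≥0) : Prop :=
  ∀ c : R, algebraMap R (Localization.AtPrime m) c ∈ (Localization.AtPrime m)⁰ →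
    ∃ e : ℕ, 0 < e ∧ r ∣ p ^ e - 1 ∧ N ∣ p ^ e - 1 ∧
      ∃ a ∈ 𝔞 ^ ⌈(t : ℝ) * ((p : ℝ) ^ e - 1)⌉₊, ∃ φ : R →+ R,
        IsCart 𝔡 r (p ^ e) φ ∧ φ (c * a) ∉ m

/-- At all points of a dense open subset of `Spec C` with values in finite fields, the triple is
strongly F-regular (`ε = True`), or is not (`ε = False`). -/
def Gen (ε : Prop) {C : Type} [CommRing C] [Algebra B C] (σ : T →ₐ[B] C) (𝔡 : Ideal T) (r : ℕ)
    (𝒥 : Ideal (C ⊗[B] T)) (t : ℝ≥0) : Prop :=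
  ∃ b : C, b ≠ 0 ∧ ∀ (κ : Type) [Field κ] [Finite κ] [Algebra B κ] (χ : C →ₐ[B] κ), χ b ≠ 0 →
    (SFat (ringChar κ) (pk (χ.comp σ)) (ext B κ 𝔡) r (spk χ 𝒥) t ↔ ε)

/-- `Gen` over some finitely generated subring of `Ω`. -/
def GenO (ε : Prop) {Ω Λ : Type} [CommRing Ω] [Algebra B Ω] [CommRing Λ] [Algebra B Λ]
    (τ : T →ₐ[B] Ω) (ψ : Λ →ₐ[B] Ω) (𝔡 : Ideal T) (r : ℕ) (𝒥 : Ideal (Λ ⊗[B] T)) (t : ℝ≥0) :
    Prop :=
  ∃ (C : Subalgebra B Ω) (σ : T →ₐ[B] C) (φ : Λ →ₐ[B] C), C.FG ∧ C.val.comp σ = τ ∧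
    C.val.comp φ = ψ ∧ Gen ε σ 𝔡 r (spk φ 𝒥) t

/-- On the general fibre, `𝔡` contains a regular element. -/
def NZ (B : Type) {T : Type} [CommRing B] [CommRing T] [Algebra B T] (𝔡 : Ideal T) : Prop :=
  ∃ b : B, b ≠ 0 ∧ ∀ (κ : Type) [Field κ] [Finite κ] [Algebra B κ], algebraMap B κ b ≠ 0 →
    ∃ δ ∈ ext B κ 𝔡, δ ∈ (κ ⊗[B] T)⁰

/-- `TData` with named elements. -/
def TD (p : ℕ) {R : Type} [CommRing R] [IsLocalRing R] (𝔡 : Ideal R) (n C : ℕ) (c : R)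
    (x : Fin n → R) : Prop :=
  (∀ e, T1 (p ^ e) c x) ∧ (∀ e i, T2 𝔡 (p ^ e) c x i) ∧ T3 n C c

/-- `TD` at the general point. -/
def TG {C : Type} [CommRing C] [Algebra B C] (σ : T →ₐ[B] C) (𝔡 : Ideal T) (n E : ℕ) (c : T)
    (x : Fin n → T) : Prop :=
  ∃ b : C, b ≠ 0 ∧ ∀ (κ : Type) [Field κ] [Finite κ] [Algebra B κ] (χ : C →ₐ[B] κ), χ b ≠ 0 →
    TD (ringChar κ) (lo (pk (χ.comp σ)) (ext B κ 𝔡)) n E
      (algebraMap (κ ⊗[B] T) _ ((1 : κ) ⊗ₜ[B] c))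
      (fun i => algebraMap (κ ⊗[B] T) _ ((1 : κ) ⊗ₜ[B] x i))

/-- The ideal `pk ^ k + (∑ i, β j i • ω i)_j`. -/
def JC {C Λ : Type} [CommRing C] [Algebra B C] [CommRing Λ] [Algebra B Λ] (σ : T →ₐ[B] C) (k : ℕ)
    {s : ℕ} (ω : Fin s → C ⊗[B] T) (χ : C →ₐ[B] Λ) (β : Fin s → Fin s → Λ) : Ideal (Λ ⊗[B] T) :=
  pk (χ.comp σ) ^ k ⊔ Ideal.span (Set.range fun j => ∑ i, β j i • bm T χ (ω i))

/-- `C` is the coordinate ring of the closure of a closed point of the fibre over `k`. -/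
structure Sett (k : Type) [Field k] [Algebra B k] {C : Type} [CommRing C] [Algebra B C]
    (σ : T →ₐ[B] C) : Prop where
  inj : Function.Injective (algebraMap B k)
  surj : Function.Surjective σ
  max : (ext B k (RingHom.ker σ)).IsMaximal
  sat : ∀ x : T, (1 : k) ⊗ₜ[B] x ∈ ext B k (RingHom.ker σ) → σ x = 0

end points

/-- `S` is a finite module over the subring of `q`-th powers. -/
def FFin (q : ℕ) (S : Type) [CommRing S] : Prop :=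
  ∃ (k : ℕ) (ω : Fin k → S), ∀ f : S, ∃ g : Fin k → S, f = ∑ i, g i ^ q * ω i

/-- `w` is a basis of `S` over `S₀`. -/
def IsBas {S₀ S : Type} [CommRing S₀] [CommRing S] (ι : S₀ →+* S) {k : ℕ} (w : Fin k → S) :
    Prop :=
  (∀ s : S, ∃ y : Fin k → S₀, s = ∑ i, w i * ι (y i)) ∧
    ∀ y : Fin k → S₀, ∑ i, w i * ι (y i) = 0 → ∀ i, y i = 0

/-- The ring `R[S]` as an `F`-subalgebra of `K`. -/
def ch (F R : Type) {K : Type} [CommRing F] [CommRing R] [CommRing K] [Algebra F K] [Algebra R K]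
    (S : Set K) : Subalgebra F K :=
  Algebra.adjoin F (Set.range (algebraMap R K) ∪ S)

/-- The Jacobian determinant. -/
def jac {F K : Type} [CommRing F] [CommRing K] [Algebra F K] {n : ℕ}
    (D : Fin n → Derivation F K K) (z : Fin n → K) : K :=
  (Matrix.of fun i l => D i (z l)).det

/-- Noether normalization, dual derivations, a generator `u` of `r M (K_X + Δ)` and etale charts
that cover all points of codimension one. -/
structure CD (F R K : Type) [Field F] [CommRing R] [Field K] [Algebra F K] (n : ℕ) where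
  x : Fin n → R
  D : Fin n → Derivation F K K
  M : ℕ
  u : K
  ne : ℕ
  e : Fin ne → R
  z : Fin ne → Fin n → K
  e1 : R
  e2 : R

/-- The conditions on `CD`. -/
structure CD.Good {F R K : Type} [Field F] [CommRing R] [Field K] [Algebra F K] [Algebra F R]
    [Algebra R K] {n : ℕ} (c : CD F R K n) (𝔡 : Ideal R) (r : ℕ) : Prop where
  hint : ∀ a : R, IsIntegral (Algebra.adjoin F (Set.range c.x)) a
  dual : DualD c.D fun l => algebraMap R K (c.x l)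
  hM : 0 < c.M
  hu : c.u ≠ 0
  he : ∀ i, c.e i ≠ 0
  het : ∀ i, EtC (ch F R {(algebraMap R K (c.e i))⁻¹}) (c.z i)
  hed : ∀ i, ∃ k : ℕ, ∃ d ∈ 𝔡 ^ c.M,
    algebraMap R K (c.e i) ^ k * (c.u * jac c.D (c.z i) ^ (r * c.M)) = algebraMap R K d
  hde : ∀ i, ∀ d ∈ 𝔡 ^ c.M, algebraMap R K d / (c.u * jac c.D (c.z i) ^ (r * c.M)) ∈
    ch F R {(algebraMap R K (c.e i))⁻¹}
  he0 : c.e1 ≠ 0
  he1 : c.e1 ∈ Ideal.span (Set.range c.e)
  he2 : c.e2 ∈ Ideal.span (Set.range c.e)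
  hreg : ∀ w, c.e1 ∣ c.e2 * w → c.e1 ∣ w

/-- A normal affine open piece `R = P[1 / f]` of `Spec P` on which `K_X + Δ` is `ℚ`-Cartier. -/
structure Mdl (F P : Type) [Field F] [CommRing P] [Algebra F P] (n : ℕ) (𝔡 : Ideal P) (r : ℕ) :
    Type 1 where
  R : Type
  K : Type
  [i1 : CommRing R]
  [i2 : Field K]
  [i3 : Algebra F R]
  [i4 : Algebra F K]
  [i5 : Algebra R K]
  [i6 : IsScalarTower F R K]
  [i7 : IsFractionRing R K]
  [i8 : IsDomain R]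
  [i9 : IsIntegrallyClosed R]
  [i10 : Algebra.FiniteType F R]
  ρ : P →ₐ[F] R
  f : P
  away : IsAway ρ.toRingHom f
  c : CD F R K n
  good : c.Good (𝔡.map ρ) r

attribute [instance] Mdl.i1 Mdl.i2 Mdl.i3 Mdl.i4 Mdl.i5 Mdl.i6 Mdl.i7 Mdl.i8 Mdl.i9 Mdl.i10

/-- All divisors over `R` have log discrepancy larger than `t` times the order of `𝔞`. -/
def CD.VK {F R K : Type} [Field F] [CommRing R] [Field K] [Algebra F K] [Algebra R K] {n : ℕ}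
    (c : CD F R K n) (r : ℕ) (𝔞 : Ideal R) (t : ℝ≥0) : Prop :=
  ∀ (S : Finset K) (O : ValuationSubring K), IsDiv R S O →
    (t : ℝ) * ordS O (algebraMap R K '' 𝔞) < ldisc c.D c.u (r * c.M) O

/-- The same for a model. -/
def Mdl.VK {F P : Type} [Field F] [CommRing P] [Algebra F P] {n : ℕ} {𝔡 : Ideal P} {r : ℕ}
    (μ : Mdl F P n 𝔡 r) (𝔞 : Ideal P) (t : ℝ≥0) : Prop :=
  μ.c.VK r (𝔞.map μ.ρ) t

/-- Graded resolution data for `P[1 / f]`. -/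
def HasGD (F : Type) {P : Type} [Field F] [CommRing P] [Algebra F P] (f : P) (𝔡 : Ideal P) (r : ℕ)
    (𝔞 : Ideal P) (t : ℝ≥0) : Prop :=
  ∃ (n : ℕ) (s : GShp n) (W₀ : Type) (_ : CommRing W₀) (_ : Algebra F W₀) (d : GD s W₀)
    (D : Fin n → Derivation F (LA W₀ s.ρ) (LA W₀ s.ρ)) (ρ : P →ₐ[F] LA W₀ s.ρ),
    d.Amb F D ∧ d.toRD.Link ρ f 𝔡 𝔞 ∧ s.r = r ∧ (t : ℝ) * s.N < s.a1

/-- Reverse inclusions for `Link`. -/
structure RD.Link2 {n : ℕ} {s : Shp n} {W : Type} [CommRing W] (d : RD s W) {Λ P : Type}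
    [CommRing Λ] [Algebra Λ W] [CommRing P] [Algebra Λ P] (ρ : P →ₐ[Λ] W) (𝔡 𝔞 : Ideal P) :
    Prop where
  hd : ∀ x ∈ 𝔡, ρ x ∈ d.sp Λ d.dg
  ha : ∀ x ∈ 𝔞, ρ x ∈ d.sp Λ d.ag

/-- Discrete part of the data attached to one divisor. -/
structure EShp (n : ℕ) where
  nt : ℕ
  nb : ℕ
  nd : ℕ
  na : ℕ
  ne : ℕ
  r : ℕ
  M : ℕ
  l0 : Fin n
  β : ℤ
  b : ℕ

/-- The shape of the underlying `RD`. -/
abbrev EShp.sh {n : ℕ} (s : EShp n) : Shp n where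
  m := 1
  μ := 1
  nt := s.nt
  nb := s.nb
  nd := s.nd
  na := s.na
  ne := s.ne
  r := s.r
  M := s.M
  a1 := 0
  a0 := 0
  lam _ _ := some s.l0
  al _ := 0
  ch _ := 0

/-- Data attached to one divisor `tt = 0` on a chart `S = T[bg]` with etale coordinates `y`. -/
structure ED {n : ℕ} (s : EShp n) (W : Type) [CommRing W] where
  tg : Fin s.nt → W
  bg : Fin s.nb → W
  dg : Fin s.nd → W
  ag : Fin s.na → W
  e : Fin s.ne → W
  g : Wˣ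
  u : Wˣ
  e1 : Wˣ
  e2 : W
  y : Fin n → W
  tt : Wˣ
  d0 : Wˣ
  eI : Fin s.ne → W
  zE : Fin s.ne → Fin n → W
  jE : Fin s.ne → Wˣ

namespace ED

variable {n : ℕ} {s : EShp n} {W : Type} [CommRing W]

/-- The underlying `RD` (only `T`, `Ws`, `sp`, `idl`, `Link` are used). -/
def rd (d : ED s W) : RD s.sh W where
  tg := d.tg
  bg := d.bg
  dg := d.dg
  ag := d.ag
  e := d.e
  g := d.g
  u := d.u
  e1 := d.e1
  e2 := d.e2
  G _ := d.g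
  j _ := d.g
  y _ := d.y
  t _ _ := d.tt

/-- Image of the data under a ring map. -/
def map (d : ED s W) {W' : Type} [CommRing W'] (f : W →+* W') : ED s W' where
  tg i := f (d.tg i)
  bg i := f (d.bg i)
  dg i := f (d.dg i)
  ag i := f (d.ag i)
  e i := f (d.e i)
  g := Units.map (f : W →* W') d.g
  u := Units.map (f : W →* W') d.u
  e1 := Units.map (f : W →* W') d.e1
  e2 := f d.e2
  y l := f (d.y l)
  tt := Units.map (f : W →* W') d.tt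
  d0 := Units.map (f : W →* W') d.d0
  eI i := f (d.eI i)
  zE i l := f (d.zE i l)
  jE i := Units.map (f : W →* W') (d.jE i)

theorem map_rd (d : ED s W) {W' : Type} [CommRing W'] (f : W →+* W') :
    (d.map f).rd = d.rd.map f := rfl

/-- The chart. -/
def S (d : ED s W) (Λ : Type) [CommRing Λ] [Algebra Λ W] : Subalgebra Λ W :=
  Algebra.adjoin Λ (Set.range d.tg ∪ Set.range d.bg)

/-- The ring `T[1 / e i]`. -/
def SE (d : ED s W) (Λ : Type) [CommRing Λ] [Algebra Λ W] (i : Fin s.ne) : Subalgebra Λ W :=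
  Algebra.adjoin Λ (Set.range d.tg ∪ {d.eI i})

/-- Conditions inside an ambient ring that may be larger than `T[1 / g]`. -/
structure Amb (d : ED s W) (Λ : Type) [CommRing Λ] [Algebra Λ W]
    (D : Fin n → Derivation Λ W W) : Prop where
  hr : 0 < s.r
  hM : 0 < s.M
  ht : (d.tt : W) = d.y s.l0
  dT : ∀ i, d.dg i ∈ d.rd.T Λ
  aT : ∀ i, d.ag i ∈ d.rd.T Λ
  eT : ∀ i, d.e i ∈ d.rd.T Λ
  gT : (d.g : W) ∈ d.rd.T Λ
  het : EtC (d.S Λ) d.y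
  hu : As (d.S Λ) d.u (d.tt ^ s.β)
  ha : ∀ i, d.ag i * ((d.tt⁻¹ ^ s.b : Wˣ) : W) ∈ d.S Λ
  hg : ((d.g * d.tt⁻¹ : Wˣ) : W) ∈ d.S Λ
  heI : ∀ i, d.e i * d.eI i = 1
  hetE : ∀ i, EtC (d.SE Λ i) (d.zE i)
  hde : ∀ i, ∀ x ∈ d.rd.sp Λ d.dg ^ s.M,
    x * ((d.u⁻¹ * d.jE i ^ (s.r * s.M) : Wˣ) : W) ∈ d.SE Λ i
  hd0 : (d.d0 : W) ∈ d.rd.sp Λ d.dg
  he1 : (d.e1 : W) ∈ d.rd.sp Λ d.e
  he2 : d.e2 ∈ d.rd.sp Λ d.e
  hreg : ∀ w ∈ d.rd.T Λ, (∃ v ∈ d.rd.T Λ, d.e2 * w = d.e1 * v) →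
    ∃ b : Λ, b ≠ 0 ∧ ∃ v ∈ d.rd.T Λ, b • w = d.e1 * v
  wb : ∀ i, d.bg i ∈ d.rd.Ws Λ
  we : ((d.e1⁻¹ : Wˣ) : W) ∈ d.rd.Ws Λ
  wd : ((d.d0⁻¹ : Wˣ) : W) ∈ d.rd.Ws Λ
  weI : ∀ i, d.eI i ∈ d.rd.Ws Λ
  wjE : ∀ i, (d.jE i : W) ∈ d.rd.Ws Λ
  wD : ∀ i, ∀ w ∈ d.rd.Ws Λ, D i w ∈ d.rd.Ws Λ
  hdetE : ∀ i, (d.jE i : W) * jac D (d.zE i) = 1
  hdual : DualD D d.y

/-- All conditions, with ambient ring `T[1 / g]`. -/
structure Good (d : ED s W) (Λ : Type) [CommRing Λ] [Algebra Λ W]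
    (D : Fin n → Derivation Λ W W) : Prop extends d.Amb Λ D where
  hW : d.rd.Ws Λ = ⊤

/-- Purity of all the rings of the data, and regularity of `e₁, e₂`, modulo `z`. -/
structure PureAt (d : ED s W) {Λ : Type} [CommRing Λ] [Algebra Λ W] (z : Ideal Λ) : Prop where
  hT : Pure z (Subalgebra.toSubmodule (d.rd.T Λ))
  hS : Pure z (Subalgebra.toSubmodule (d.S Λ))
  hE : ∀ i, Pure z (Subalgebra.toSubmodule (d.SE Λ i))
  hreg : ∀ w ∈ d.rd.T Λ, ∀ v ∈ d.rd.T Λ, d.e2 * w - d.e1 * v ∈ z • (⊤ : Submodule Λ W) →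
    ∃ v' ∈ d.rd.T Λ, w - d.e1 * v' ∈ z • (⊤ : Submodule Λ W)

end ED

/-- A divisor over `P[1 / f]` whose log discrepancy is at most `t` times the order of `𝔞`, and a
point `ζ` of `P` that extends to a point `ξ` of that divisor. -/
def HasED (F : Type) {P Ω : Type} [Field F] [CommRing P] [Algebra F P] [Field Ω] [Algebra F Ω]
    (f : P) (𝔡 : Ideal P) (r : ℕ) (𝔞 : Ideal P) (t : ℝ≥0) (ζ : P →ₐ[F] Ω) : Prop :=
  ∃ (n : ℕ) (s : EShp n) (W : Type) (_ : CommRing W) (_ : Algebra F W) (d : ED s W)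
    (D : Fin n → Derivation F W W) (ρ : P →ₐ[F] W) (ξ : d.S F →ₐ[F] Ω),
    d.Amb F D ∧ d.rd.Link ρ f 𝔡 𝔞 ∧ d.rd.Link2 ρ 𝔡 𝔞 ∧ s.r = r ∧
    ((s.r * s.M : ℕ) : ℝ) - s.β ≤ (t : ℝ) * s.b * ((s.r * s.M : ℕ) : ℝ) ∧
    (∀ h : (d.tt : W) ∈ d.S F, ξ ⟨d.tt, h⟩ = 0) ∧
    ∀ (x : P) (h : ρ x ∈ d.S F), ξ ⟨ρ x, h⟩ = ζ x

end

end Pool.Agent.Lib.MP_4287a9_ag
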