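import Pool.Agent.Lib.MP_4287a9_ag.D1

/-!
A dense family of closed points, and embeddings into an uncountable field.
-/

open scoped TensorProduct ENNReal NNReal nonZeroDivisors Polynomial
open Filter

namespace Pool.Agent.Lib.MP_4287a9_ag

noncomputable section

/-- Let `𝔦` be the intersection of the members of `Z`, with minimal primes `𝔭 1, ..., 𝔭 m`. Some
`𝔭 i` has zero contraction (otherwise a power of a product of nonzero elements of `B` is in `𝔦`).
For `f ∉ 𝔭 1` choose `g` in all the other `𝔭 i` and not in `𝔭 1`; `f g ∉ 𝔦`. -/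
theorem exists_dense_prime {B P : Type} [CommRing B] [IsDomain B] [CommRing P]
    [IsNoetherianRing P] [Algebra B P] (Z : Set (Ideal P)) (hZ : ∀ z ∈ Z, z.IsPrime)
    (h : ∀ b : B, b ≠ 0 → ∃ z ∈ Z, algebraMap B P b ∉ z) :
    ∃ 𝔭 : Ideal P, 𝔭.IsPrime ∧ (∀ b : B, algebraMap B P b ∈ 𝔭 → b = 0) ∧
      ∀ f ∉ 𝔭, ∃ z ∈ Z, 𝔭 ≤ z ∧ f ∉ z := by
  classical
  let I : Ideal P := sInf Z
  have hrad : I.radical = I := by
    refine le_antisymm (fun a ha => ?_) Ideal.le_radical
    obtain ⟨m, hm⟩ := ha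
    refine Ideal.mem_sInf.mpr fun {z} hz => ?_
    exact (hZ z hz).mem_of_pow_mem m (Ideal.mem_sInf.mp hm hz)
  have hfin := Ideal.finite_minimalPrimes_of_isNoetherianRing P I
  have hall : ∀ a : P, (∀ q ∈ I.minimalPrimes, a ∈ q) → ∀ z ∈ Z, a ∈ z := by
    intro a ha z hz
    have : a ∈ I := by
      rw [← hrad, ← Ideal.sInf_minimalPrimes]
      exact Ideal.mem_sInf.mpr fun {q} hq => ha q hq
    exact Ideal.mem_sInf.mp this hz
  have hex : ∃ 𝔭 ∈ I.minimalPrimes, ∀ b : B, algebraMap B P b ∈ 𝔭 → b = 0 := by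
    by_contra hcon
    push Not at hcon
    choose! b hb hb0 using hcon
    obtain ⟨z, hz, hz'⟩ := h (∏ q ∈ hfin.toFinset, b q)
      (Finset.prod_ne_zero_iff.mpr fun q hq => hb0 q (hfin.mem_toFinset.mp hq))
    refine hz' (hall _ (fun q hq => ?_) z hz)
    rw [map_prod]
    exact Ideal.mem_of_dvd q (Finset.dvd_prod_of_mem (fun q => algebraMap B P (b q))
      (hfin.mem_toFinset.mpr hq)) (hb q hq)
  obtain ⟨𝔭, hp, hp0⟩ := hex
  have hpp : 𝔭.IsPrime := hp.1.1
  refine ⟨𝔭, hpp, hp0, fun f hf => ?_⟩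
  have hg : ∃ g ∉ 𝔭, ∀ q ∈ I.minimalPrimes, q ≠ 𝔭 → g ∈ q := by
    by_contra hcon
    push Not at hcon
    have : (hfin.toFinset.erase 𝔭).inf id ≤ 𝔭 := by
      intro g hg
      by_contra hg'
      obtain ⟨q, hq, hne, hq'⟩ := hcon g hg'
      exact hq' ((Finset.inf_le (f := id)
        (Finset.mem_erase.mpr ⟨hne, hfin.mem_toFinset.mpr hq⟩) : _ ≤ id q) hg)
    obtain ⟨q, hq, hle⟩ := hpp.inf_le'.mp this
    obtain ⟨hne, hq⟩ := Finset.mem_erase.mp hq
    exact hne (le_antisymm hle (hp.2 (hfin.mem_toFinset.mp hq).1 hle))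
  obtain ⟨g, hg, hg'⟩ := hg
  have hfg : f * g ∉ I := fun hI => (hpp.mem_or_mem (hp.1.2 hI)).elim hf hg
  have : ∃ z ∈ Z, f * g ∉ z := by
    by_contra hcon
    push Not at hcon
    exact hfg (Ideal.mem_sInf.mpr fun {z} hz => hcon z hz)
  obtain ⟨z, hz, hz'⟩ := this
  refine ⟨z, hz, fun a ha => ?_, fun hfz => hz' (z.mul_mem_right g hfz)⟩
  have : a * g ∈ z := by
    refine hall _ (fun q hq => ?_) z hz
    by_cases hne : q = 𝔭
    · rw [hne]
      exact 𝔭.mul_mem_right g ha
    · exact q.mul_mem_left a (hg' q hq hne)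
  exact ((hZ z hz).mem_or_mem this).resolve_right fun hgz => hz' (z.mul_mem_left f hgz)

theorem dense_countable {A C : Type} [CommRing A] [Countable A] [CommRing C] [Algebra A C]
    [h : Algebra.FiniteType A C] : Countable C := by
  obtain ⟨m, f, hf⟩ := Algebra.FiniteType.iff_quotient_mvPolynomial''.mp h
  have : Countable (MvPolynomial (Fin m) A) := by
    rw [← Cardinal.mk_le_aleph0_iff]
    refine MvPolynomial.cardinalMk_le_max.trans ?_
    simp only [max_le_iff, le_refl, and_true]
    exact ⟨Cardinal.mk_le_aleph0, Cardinal.mk_le_aleph0⟩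
  exact hf.countable

theorem dense_embed {k B D : Type} [Field k] [IsAlgClosed k] [Uncountable k] [CommRing B]
    [Countable B] [Algebra B k] (hB : Function.Injective (algebraMap B k))
    [CommRing D] [IsDomain D] [Algebra B D] [Countable D]
    (hD : Function.Injective (algebraMap B D)) : ∃ f : D →ₐ[B] k, Function.Injective f := by
  have : IsDomain B := hB.isDomain _
  have : FaithfulSMul B k := (faithfulSMul_iff_algebraMap_injective B k).mpr hB
  have : FaithfulSMul B D := (faithfulSMul_iff_algebraMap_injective B D).mpr hD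
  obtain ⟨s, hs⟩ := exists_isTranscendenceBasis B D
  obtain ⟨t, ht⟩ := exists_isTranscendenceBasis B k
  have hk : Cardinal.aleph0 < Cardinal.mk k := Cardinal.aleph0_lt_mk
  have hc : Cardinal.mk k = Cardinal.mk t :=
    IsAlgClosed.cardinal_eq_cardinal_transcendence_basis_of_aleph0_lt' _ ht
      Cardinal.mk_le_aleph0 hk
  have hle : Cardinal.mk s ≤ Cardinal.mk t := hc ▸ (Cardinal.mk_le_aleph0.trans hk.le)
  obtain ⟨e⟩ := (Cardinal.le_def _ _).mp hle
  have hx : AlgebraicIndependent B (fun i : s => ((e i : t) : k)) := ht.1.comp e e.injective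
  let R : Subalgebra B D := Algebra.adjoin B (Set.range ((↑) : s → D))
  let φ : R →ₐ[B] k := (MvPolynomial.aeval fun i : s => ((e i : t) : k)).comp
    hs.1.aevalEquiv.symm.toAlgHom
  have hφ : Function.Injective φ := fun a b hab =>
    hs.1.aevalEquiv.symm.injective (algebraicIndependent_iff_injective_aeval.mp hx hab)
  have halg : Algebra.IsAlgebraic R D := hs.isAlgebraic
  let : Algebra R k := φ.toRingHom.toAlgebra
  have : IsScalarTower B R k := IsScalarTower.of_algebraMap_eq fun b => (φ.commutes b).symm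
  have : FaithfulSMul R k := (faithfulSMul_iff_algebraMap_injective R k).mpr hφ
  let g : D →ₐ[R] k := IsAlgClosed.lift
  refine ⟨g.restrictScalars B, ?_⟩
  rw [injective_iff_map_eq_zero]
  intro a ha
  by_contra ha0
  refine Ideal.comap_ne_bot_of_algebraic_mem (R := R) (I := RingHom.ker g) ha0 ha
    (halg.isAlgebraic a) ?_
  rw [eq_bot_iff]
  intro r hr
  have h1 : g (algebraMap R D r) = 0 := hr
  rw [g.commutes] at h1
  exact (injective_iff_map_eq_zero φ).mp hφ r h1

/-- Choose a finite transcendence basis of `P / 𝔭` over `B`, as many elements of `k` algebraically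
independent over the countable ring `B` (the elements algebraic over a countable subring form a
countable set), and extend with `IsAlgClosed.lift`. -/
theorem exists_embedding {k B P : Type} [Field k] [IsAlgClosed k] [Uncountable k] [CommRing B]
    [Algebra.FiniteType ℤ B] [Algebra B k] (hB : Function.Injective (algebraMap B k))
    [CommRing P] [Algebra B P] [Algebra.FiniteType B P] {𝔭 : Ideal P} (h𝔭 : 𝔭.IsPrime)
    (h0 : ∀ b : B, algebraMap B P b ∈ 𝔭 → b = 0) :
    ∃ f : P →ₐ[B] k, RingHom.ker f = 𝔭 := by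
  have : Countable B := dense_countable (A := ℤ)
  have : Countable P := dense_countable (A := B)
  have : Countable (P ⧸ 𝔭) := Ideal.Quotient.mk_surjective.countable
  obtain ⟨g, hg⟩ := dense_embed (k := k) (D := P ⧸ 𝔭) hB (by
    rw [injective_iff_map_eq_zero]
    intro b hb
    exact h0 b (Ideal.Quotient.eq_zero_iff_mem.mp hb))
  refine ⟨g.comp (Ideal.Quotient.mkₐ B 𝔭), ?_⟩
  ext a
  rw [RingHom.mem_ker, AlgHom.comp_apply, map_eq_zero_iff g hg]
  exact Ideal.Quotient.eq_zero_iff_mem

end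

end Pool.Agent.Lib.MP_4287a9_ag
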