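import Pool.Agent.Lib.MP_4287a9_ag.P1c

/-!
Semicontinuity of lengths.
-/

open scoped TensorProduct ENNReal NNReal nonZeroDivisors Polynomial
open Filter

namespace Pool.Agent.Lib.MP_4287a9_ag

noncomputable section

theorem semi_ker_aug {B T : Type} [CommRing B] [CommRing T] [Algebra B T] (σ : T →ₐ[B] B)
    (F : Type) [CommRing F] [Algebra B F] :
    RingHom.ker (aug σ F) = ext B F (RingHom.ker σ) := by
  have h0 : ∀ (a : F) (t : T), aug σ F (a ⊗ₜ[B] t) = a * algebraMap B F (σ t) := fun a t => rfl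
  refine le_antisymm (fun w hw => ?_) (Ideal.map_le_iff_le_comap.2 fun t ht => ?_)
  · have h : ∀ w : F ⊗[B] T, w - (aug σ F w) ⊗ₜ[B] (1 : T) ∈ ext B F (RingHom.ker σ) := by
      intro w
      induction w with
      | zero => simp
      | add x y hx hy =>
        rw [map_add, TensorProduct.add_tmul, add_sub_add_comm]
        exact add_mem hx hy
      | tmul a t =>
        have e : a ⊗ₜ[B] t - (aug σ F (a ⊗ₜ[B] t)) ⊗ₜ[B] (1 : T) =
            (a ⊗ₜ[B] (1 : T)) * ((1 : F) ⊗ₜ[B] (t - algebraMap B T (σ t))) := by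
          rw [h0, Algebra.TensorProduct.tmul_mul_tmul, mul_one, one_mul, TensorProduct.tmul_sub,
            mul_comm a, ← Algebra.smul_def, TensorProduct.smul_tmul, Algebra.smul_def, mul_one]
        rw [e]
        refine Ideal.mul_mem_left _ _ (Ideal.mem_map_of_mem
          (Algebra.TensorProduct.includeRight : T →ₐ[B] F ⊗[B] T) ?_)
        rw [RingHom.mem_ker, map_sub, AlgHom.commutes]
        exact sub_self _
    have h1 := h w
    rwa [RingHom.mem_ker.1 hw, TensorProduct.zero_tmul, sub_zero] at h1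
  · change aug σ F ((1 : F) ⊗ₜ[B] t) = 0
    rw [h0, RingHom.mem_ker.1 ht, map_zero, mul_zero]

theorem pt_eq_ext {B T : Type} [CommRing B] [CommRing T] [Algebra B T] (σ : T →ₐ[B] B)
    (F : Type) [Field F] [Algebra B F] : pt σ F = ext B F (RingHom.ker σ) :=
  semi_ker_aug σ F

theorem pt_isMaximal {B T : Type} [CommRing B] [CommRing T] [Algebra B T] (σ : T →ₐ[B] B)
    (F : Type) [Field F] [Algebra B F] : (pt σ F).IsMaximal :=
  RingHom.ker_isMaximal_of_surjective _ fun a => ⟨algebraMap _ _ a, (aug σ F).commutes a⟩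

theorem spk_ext {B T Λ F : Type} [CommRing B] [CommRing T] [Algebra B T] [CommRing Λ]
    [Algebra B Λ] [CommRing F] [Algebra B F] (f : Λ →ₐ[B] F) (𝔡 : Ideal T) :
    spk f (ext B Λ 𝔡) = ext B F 𝔡 := by
  rw [spk, ext, ext, Ideal.map_mapₐ]
  congr 1
  ext t
  simp

theorem spk_spk {B T Λ Λ' F : Type} [CommRing B] [CommRing T] [Algebra B T] [CommRing Λ]
    [Algebra B Λ] [CommRing Λ'] [Algebra B Λ'] [CommRing F] [Algebra B F] (f : Λ →ₐ[B] Λ')
    (g : Λ' →ₐ[B] F) (𝒥 : Ideal (Λ ⊗[B] T)) : spk g (spk f 𝒥) = spk (g.comp f) 𝒥 := by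
  rw [spk, spk, spk, Ideal.map_mapₐ, ← Algebra.TensorProduct.map_comp, AlgHom.id_comp]

theorem spk_Jid {B T Λ F : Type} [CommRing B] [CommRing T] [Algebra B T] (σ : T →ₐ[B] B) (k : ℕ)
    {s : ℕ} (ω : Fin s → T) [CommRing Λ] [Algebra B Λ] [CommRing F] [Algebra B F]
    (f : Λ →ₐ[B] F) (β : Fin s → Fin s → Λ) :
    spk f (Jid σ k ω Λ β) = Jid σ k ω F (fun j i => f (β j i)) := by
  rw [Jid, Jid, ← spk_ext f, spk, spk, Ideal.map_sup, Ideal.map_pow, Ideal.map_span,
    ← Set.range_comp]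
  congr 3
  funext j
  simp

theorem semi_finite {Λ T' : Type} [CommRing Λ] [CommRing T'] [Algebra Λ T']
    [Algebra.FiniteType Λ T'] (ε : T' →ₐ[Λ] Λ) {k : ℕ} {J : Ideal T'}
    (hJ : RingHom.ker ε ^ k ≤ J) : Module.Finite Λ (T' ⧸ J) := by
  have : Algebra.IsIntegral Λ (T' ⧸ J) := ⟨fun x => by
    obtain ⟨t, rfl⟩ := Ideal.Quotient.mk_surjective x
    refine ⟨(Polynomial.X - Polynomial.C (ε t)) ^ k, (Polynomial.monic_X_sub_C _).pow k, ?_⟩
    rw [Polynomial.eval₂_pow, Polynomial.eval₂_sub, Polynomial.eval₂_X, Polynomial.eval₂_C,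
      ← Ideal.Quotient.mk_algebraMap, ← map_sub, ← map_pow, Ideal.Quotient.eq_zero_iff_mem]
    refine hJ (Ideal.pow_mem_pow ?_ k)
    rw [RingHom.mem_ker, map_sub, AlgHom.commutes]
    exact sub_self _⟩
  exact Algebra.IsIntegral.finite

theorem semi_length_one {κ T' : Type} [Field κ] [CommRing T'] [Algebra κ T'] (ε : T' →ₐ[κ] κ)
    (M : Type) [AddCommGroup M] [Module T' M] [Module κ M] [IsScalarTower κ T' M]
    (h : ∀ t ∈ RingHom.ker ε, ∀ x : M, t • x = 0) : Module.length T' M = Module.length κ M := by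
  let _ : Algebra T' κ := ε.toRingHom.toAlgebra
  have : IsScalarTower T' κ M := ⟨fun t a x => by
    have h1 := h (t - algebraMap κ T' (ε t)) (by
      rw [RingHom.mem_ker, map_sub, AlgHom.commutes]
      exact sub_self _) (a • x)
    rw [sub_smul, sub_eq_zero, algebraMap_smul] at h1
    rw [h1, smul_smul]
    rfl⟩
  exact Module.length_eq_of_surjective fun a => ⟨algebraMap κ T' a, ε.commutes a⟩

theorem semi_length {κ T' : Type} [Field κ] [CommRing T'] [Algebra κ T'] (ε : T' →ₐ[κ] κ)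
    (k : ℕ) : ∀ (M : Type) [AddCommGroup M] [Module T' M] [Module κ M] [IsScalarTower κ T' M],
      RingHom.ker ε ^ k • (⊤ : Submodule T' M) = ⊥ → Module.length T' M = Module.length κ M := by
  induction k with
  | zero =>
    intro M _ _ _ _ h
    rw [pow_zero, Ideal.one_eq_top, Submodule.top_smul] at h
    have : Subsingleton M := (Submodule.subsingleton_iff T').1 (subsingleton_of_bot_eq_top h.symm)
    rw [Module.length_eq_zero, Module.length_eq_zero]
  | succ k ih =>
    intro M _ _ _ _ h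
    let N : Submodule T' M := RingHom.ker ε ^ k • ⊤
    rw [Module.length_eq_add_of_exact N.subtype N.mkQ N.subtype_injective N.mkQ_surjective
      (LinearMap.exact_subtype_mkQ N),
      Module.length_eq_add_of_exact (N.subtype.restrictScalars κ) (N.mkQ.restrictScalars κ)
      N.subtype_injective N.mkQ_surjective (LinearMap.exact_subtype_mkQ N),
      semi_length_one ε N fun t ht x => ?_, ih (M ⧸ N) ?_]
    · rw [← Submodule.range_mkQ, ← Submodule.map_top, ← Submodule.map_smul'']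
      exact Submodule.mkQ_map_self N
    · have h1 : t • (x : M) ∈ RingHom.ker ε • N := Submodule.smul_mem_smul ht x.2
      rw [← Submodule.mul_smul, ← pow_succ', h] at h1
      exact Subtype.ext h1

/-- A finite-dimensional algebra all of whose composition factors are `κ`. -/
theorem length_eq_finrank_of_aug {κ T' : Type} [Field κ] [CommRing T'] [Algebra κ T']
    [Algebra.FiniteType κ T'] (ε : T' →ₐ[κ] κ) {k : ℕ} {J : Ideal T'}
    (hJ : RingHom.ker ε ^ k ≤ J) :
    Module.length T' (T' ⧸ J) = (Module.finrank κ (T' ⧸ J) : ℕ∞) := by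
  have := semi_finite ε hJ
  rw [semi_length ε k, Module.length_eq_finrank]
  refine eq_bot_iff.2 (Submodule.smul_le.2 fun t ht x _ => ?_)
  obtain ⟨y, rfl⟩ := Ideal.Quotient.mk_surjective x
  exact Ideal.Quotient.eq_zero_iff_mem.2 (J.mul_mem_right y (hJ ht))

theorem length_le_length_loc {T' : Type} [CommRing T'] {m : Ideal T'} [m.IsPrime]
    (hm : m.IsMaximal) {k : ℕ} {J : Ideal T'} (hJ : m ^ k ≤ J) :
    Module.length T' (T' ⧸ J) ≤ Module.length (Localization.AtPrime m)
      (Localization.AtPrime m ⧸ J.map (algebraMap T' (Localization.AtPrime m))) := by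
  rw [Module.length_quotient, Module.length_quotient, ← WithBot.coe_le_coe,
    Order.coheight_eq_krullDim_Ici, Order.coheight_eq_krullDim_Ici]
  refine Order.krullDim_le_of_strictMono (fun I => ⟨Ideal.map
    (algebraMap T' (Localization.AtPrime m)) I.1, Ideal.map_mono I.2⟩) fun I I' h => ?_
  refine lt_of_le_not_ge (Ideal.map_mono (f := algebraMap T' (Localization.AtPrime m)) h.le)
    fun h' => h.not_ge fun x hx => ?_
  obtain ⟨s, hs, hsx⟩ := (IsLocalization.algebraMap_mem_map_algebraMap_iff m.primeCompl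
    (Localization.AtPrime m) I.1 x).1 (h' (Ideal.mem_map_of_mem _ hx))
  obtain ⟨y, i, hi, e⟩ := Ideal.IsMaximal.exists_inv_pow m hs k
  have e1 : x = y * (s * x) + i * x := by rw [← mul_assoc, ← add_mul, e, one_mul]
  rw [e1]
  exact add_mem (Ideal.mul_mem_left _ y hsx) (Ideal.mul_mem_right x _ (I.2 (hJ hi)))

theorem semi_local {O k N : Type} [CommRing O] [IsLocalRing O] [Field k] [Algebra O k]
    [AddCommGroup N] [Module O N] [Module.Finite O N] : Module.finrank k (k ⊗[O] N) ≤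
      Module.finrank (IsLocalRing.ResidueField O) (IsLocalRing.ResidueField O ⊗[O] N) := by
  have fg : (⊤ : Submodule O N).FG := Module.Finite.fg_top
  rw [← (Submodule.topEquiv.baseChange O (IsLocalRing.ResidueField O) _ N).finrank_eq,
    Module.finrank_eq_spanFinrank_of_free, Module.finrank_eq_spanFinrank_of_free,
    TensorProduct.spanFinrank_top_eq_of_residueField _ fg, ← Submodule.baseChange_top]
  exact Submodule.FG.spanFinrank_baseChange_le _ fg

/-- Lift a basis of the special fibre; by Nakayama it generates `M` localized at `ker χ`, hence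
the generic fibre. -/
theorem finrank_generic_le {Λ k κ M : Type} [CommRing Λ] [Field k] [Field κ] [Algebra Λ k]
    [Algebra Λ κ] (h : Function.Injective (algebraMap Λ k)) [AddCommGroup M] [Module Λ M]
    [Module.Finite Λ M] : Module.finrank k (k ⊗[Λ] M) ≤ Module.finrank κ (κ ⊗[Λ] M) := by
  let p : Ideal Λ := RingHom.ker (algebraMap Λ κ)
  have : p.IsPrime := RingHom.ker_isPrime _
  have hu : ∀ s : p.primeCompl, IsUnit (algebraMap Λ k s) := fun s =>
    IsUnit.mk0 _ fun h0 => s.2 (by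
      rw [(map_eq_zero_iff _ h).1 h0]
      exact p.zero_mem)
  let _ : Algebra (Localization.AtPrime p) k := (IsLocalization.lift hu).toAlgebra
  have : IsScalarTower Λ (Localization.AtPrime p) k :=
    .of_algebraMap_eq fun a => (IsLocalization.lift_eq hu a).symm
  have hκ : p.primeCompl ≤ (IsUnit.submonoid κ).comap (algebraMap Λ κ) := fun s hs =>
    IsUnit.mk0 _ hs
  let _ : Algebra p.ResidueField κ := (Ideal.ResidueField.lift p _ le_rfl hκ).toAlgebra
  have : IsScalarTower Λ p.ResidueField κ :=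
    .of_algebraMap_eq fun a => (Ideal.ResidueField.lift_algebraMap p _ le_rfl hκ a).symm
  have e1 : Module.finrank κ (κ ⊗[Λ] M) =
      Module.finrank p.ResidueField (p.ResidueField ⊗[Λ] M) := by
    rw [← (TensorProduct.AlgebraTensorModule.cancelBaseChange Λ p.ResidueField κ κ
      M).finrank_eq, Module.finrank_baseChange]
  rw [e1, ← (TensorProduct.AlgebraTensorModule.cancelBaseChange Λ (Localization.AtPrime p) k k
    M).finrank_eq,
    ← (TensorProduct.AlgebraTensorModule.cancelBaseChange Λ (Localization.AtPrime p)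
      p.ResidueField p.ResidueField M).finrank_eq]
  exact semi_local

theorem semi_length_spk {B T Λ F : Type} [CommRing B] [CommRing T] [Algebra B T]
    [Algebra.FiniteType B T] (σ : T →ₐ[B] B) [CommRing Λ] [Algebra B Λ] [Field F] [Algebra B F]
    [Algebra Λ F] [IsScalarTower B Λ F] (𝒥 : Ideal (Λ ⊗[B] T)) {k : ℕ}
    (h : pt σ F ^ k ≤ spk (IsScalarTower.toAlgHom B Λ F) 𝒥) :
    Module.length (F ⊗[B] T) ((F ⊗[B] T) ⧸ spk (IsScalarTower.toAlgHom B Λ F) 𝒥) =
      (Module.finrank F (F ⊗[Λ] ((Λ ⊗[B] T) ⧸ 𝒥)) : ℕ∞) := by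
  rw [length_eq_finrank_of_aug (aug σ F) h]
  congr 1
  refine (((Algebra.TensorProduct.tensorQuotientEquiv F (Λ ⊗[B] T) F 𝒥).trans
    (Ideal.quotientEquivAlg _ _ (Algebra.TensorProduct.cancelBaseChange B Λ F F T)
      ?_)).toLinearEquiv.finrank_eq).symm
  rw [spk]
  refine Eq.trans ?_ (Ideal.map_map (Algebra.TensorProduct.includeRight :
    Λ ⊗[B] T →ₐ[Λ] F ⊗[Λ] (Λ ⊗[B] T)).toRingHom _).symm
  change Ideal.map (Algebra.TensorProduct.map (IsScalarTower.toAlgHom B Λ F)
    (AlgHom.id B T)).toRingHom 𝒥 = _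
  congr 1
  refine RingHom.ext fun w => ?_
  induction w with
  | zero => simp
  | add x y hx hy => rw [map_add, map_add, hx, hy]
  | tmul a t => simp [Algebra.algebraMap_eq_smul_one]

/-- Apply `finrank_generic_le` to the finite `Λ`-module `(Λ ⊗[B] T) / 𝒥 ^ j`. -/
theorem mult_semicont {k B T Λ κ : Type} [Field k] [CommRing B] [Algebra B k] [CommRing T]
    [Algebra B T] [Algebra.FiniteType B T] (σ : T →ₐ[B] B) [CommRing Λ] [Algebra B Λ]
    (f : Λ →ₐ[B] k) (hf : Function.Injective f) [Field κ] [Algebra B κ] (χ : Λ →ₐ[B] κ)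
    (𝒥 : Ideal (Λ ⊗[B] T)) {k0 : ℕ} (h𝒥 : ext B Λ (RingHom.ker σ) ^ k0 ≤ 𝒥) (n : ℕ) :
    mult n (spk f 𝒥) ≤ mult n (toLoc σ κ (spk χ 𝒥)) := by
  refine mult_le_of_length n _ _ fun j => ?_
  let _ : Algebra Λ k := f.toRingHom.toAlgebra
  let _ : Algebra Λ κ := χ.toRingHom.toAlgebra
  have : IsScalarTower B Λ k := .of_algebraMap_eq fun a => (f.commutes a).symm
  have : IsScalarTower B Λ κ := .of_algebraMap_eq fun a => (χ.commutes a).symm
  have h1 : ext B Λ (RingHom.ker σ) ^ (k0 * j) ≤ 𝒥 ^ j := by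
    rw [pow_mul]
    exact Ideal.pow_right_mono h𝒥 j
  have h2 : ∀ (F : Type) [Field F] [Algebra B F] (g : Λ →ₐ[B] F),
      pt σ F ^ (k0 * j) ≤ spk g (𝒥 ^ j) := fun F _ _ g => by
    rw [pt_eq_ext, ← spk_ext g, spk, ← Ideal.map_pow]
    exact Ideal.map_mono h1
  have : Module.Finite Λ ((Λ ⊗[B] T) ⧸ 𝒥 ^ j) :=
    semi_finite (aug σ Λ) (k := k0 * j) (by rwa [semi_ker_aug])
  have e1 : spk f 𝒥 ^ j = spk f (𝒥 ^ j) := (Ideal.map_pow _ _ _).symm
  have e2 : toLoc σ κ (spk χ 𝒥) ^ j = toLoc σ κ (spk χ (𝒥 ^ j)) := by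
    rw [toLoc, toLoc, ← Ideal.map_pow, spk, spk, ← Ideal.map_pow]
  rw [e1, e2]
  refine le_trans ?_ (length_le_length_loc (pt_isMaximal σ κ) (h2 κ χ))
  have l1 := semi_length_spk (F := k) σ (𝒥 ^ j) (h2 k f)
  have l2 := semi_length_spk (F := κ) σ (𝒥 ^ j) (h2 κ χ)
  refine (le_of_eq l1).trans (le_trans ?_ (le_of_eq l2.symm))
  exact_mod_cast finrank_generic_le (k := k) (κ := κ) hf

end

end Pool.Agent.Lib.MP_4287a9_ag
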