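import Pool.Agent.Lib.MP_4287a9_ag.P1a
import Pool.Agent.Lib.MP_4287a9_ag.Semi

/-!
Descent along a finite extension of the residue field.
-/

open scoped TensorProduct ENNReal NNReal nonZeroDivisors Polynomial
open Filter

namespace Pool.Agent.Lib.MP_4287a9_ag

noncomputable section

namespace DescAux

theorem isCart_desc {R R' : Type} [CommRing R] [CommRing R'] [IsDomain R'] [Nontrivial R]
    (ι : R →+* R') (hι : Function.Injective ι) (π : R' →+ R)
    (hπ : ∀ r w, π (ι r * w) = r * π w) {𝔡 : Ideal R} {r q : ℕ} {φ : R' →+ R'}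
    (h : IsCart (𝔡.map ι) r q φ) (w : R') :
    IsCart 𝔡 r q (π.comp (φ.comp ((AddMonoidHom.mulLeft w).comp ι.toAddMonoidHom))) where
  lin v y := by
    change π (φ (w * ι (v ^ q * y))) = v * π (φ (w * ι y))
    rw [map_mul ι, map_pow ι, mul_left_comm, h.lin, hπ]
  div z hz y hy := by
    change z ∣ π (φ (w * ι y))
    have hz' : ι z ∈ R'⁰ := by
      refine mem_nonZeroDivisors_of_ne_zero fun h0 => nonZeroDivisors.ne_zero hz ?_
      exact hι (by rw [h0, map_zero])
    have key : ∀ d' ∈ (𝔡.map ι) ^ ((q - 1) / r), ι z ^ q ∣ w * ι y * d' := by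
      intro d' hd'
      rw [← Ideal.map_pow] at hd'
      induction hd' using Submodule.span_induction with
      | mem x hx =>
        obtain ⟨d, hd, rfl⟩ := hx
        rw [mul_assoc, ← map_mul, ← map_pow]
        exact Dvd.dvd.mul_left (map_dvd ι (hy d hd)) w
      | zero => simp
      | add a b _ _ ha hb => rw [mul_add]; exact dvd_add ha hb
      | smul c a _ ha =>
        rw [smul_eq_mul, mul_left_comm]
        exact Dvd.dvd.mul_left ha c
    obtain ⟨u, hu⟩ := h.div (ι z) hz' _ key
    exact ⟨π u, by rw [hu, hπ]⟩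

theorem loc_retraction {A A' : Type} [CommRing A] [CommRing A'] (g : A →+* A') (P : Ideal A)
    [P.IsPrime] (P' : Ideal A') [P'.IsPrime] (hP : P = P'.comap g)
    (hdiv : ∀ s' ∉ P', ∃ s ∉ P, s' ∣ g s) (π₁ : A' →+ A) (h1 : π₁ 1 = 1)
    (hπ : ∀ r w, π₁ (g r * w) = r * π₁ w) :
    ∃ π : Localization.AtPrime P' →+ Localization.AtPrime P, π 1 = 1 ∧
      ∀ r w, π (Localization.localRingHom P P' g hP r * w) = r * π w := by
  let _ : Algebra A A' := g.toAlgebra
  have hg : ∀ a, algebraMap A A' a = g a := fun _ => rfl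
  have hle : Algebra.algebraMapSubmonoid A' P.primeCompl ≤ P'.primeCompl := by
    rintro _ ⟨s, hs, rfl⟩
    intro h
    exact hs (by rw [hP]; exact h)
  have hloc : IsLocalization (Algebra.algebraMapSubmonoid A' P.primeCompl)
      (Localization.AtPrime P') := by
    refine (IsLocalization.iff_of_le_of_exists_dvd _ P'.primeCompl hle fun n hn => ?_).mpr
      inferInstance
    obtain ⟨s, hs, hd⟩ := hdiv n hn
    exact ⟨g s, ⟨s, hs, rfl⟩, hd⟩
  have hmod : IsLocalizedModule P.primeCompl
      (IsScalarTower.toAlgHom A A' (Localization.AtPrime P')).toLinearMap :=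
    isLocalizedModule_iff_isLocalization.mpr hloc
  let π₂ : A' →ₗ[A] A :=
    { toFun := π₁
      map_add' := π₁.map_add
      map_smul' := fun r w => by
        rw [Algebra.smul_def, hg, hπ]
        rfl }
  let π₃ : A' →ₗ[A] Localization.AtPrime P := (Algebra.linearMap A _).comp π₂
  have hu : ∀ x : P.primeCompl,
      IsUnit ((algebraMap A (Module.End A (Localization.AtPrime P))) x) :=
    IsLocalizedModule.map_units (Algebra.linearMap A (Localization.AtPrime P))
  let π := IsLocalizedModule.lift P.primeCompl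
    (IsScalarTower.toAlgHom A A' (Localization.AtPrime P')).toLinearMap π₃ hu
  have hπ1 : ∀ w, π (algebraMap A' _ w) = algebraMap A _ (π₁ w) := fun w =>
    congrArg (fun L : A' →ₗ[A] Localization.AtPrime P => L w)
      (IsLocalizedModule.lift_comp P.primeCompl
        (IsScalarTower.toAlgHom A A' (Localization.AtPrime P')).toLinearMap π₃ hu)
  have hπ2 : ∀ (a : A) w, π (algebraMap A' _ (g a) * w) = algebraMap A _ a * π w := by
    intro a w
    rw [← hg, ← IsScalarTower.algebraMap_apply, ← Algebra.smul_def, map_smul, Algebra.smul_def]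
  refine ⟨π.toAddMonoidHom, ?_, fun r w => ?_⟩
  · change π 1 = 1
    have := hπ1 1
    rwa [map_one, h1, map_one (algebraMap A (Localization.AtPrime P))] at this
  · change π _ = r * π w
    obtain ⟨⟨a, s⟩, hr⟩ := IsLocalization.surj P.primeCompl r
    simp only at hr
    have hs : IsUnit (algebraMap A (Localization.AtPrime P) s) :=
      IsLocalization.map_units _ s
    refine hs.mul_left_cancel ?_
    rw [← hπ2, ← mul_assoc, ← Localization.localRingHom_to_map P P' g hP, ← map_mul,
      mul_comm _ r, hr, Localization.localRingHom_to_map, hπ2, ← hr]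
    ring

theorem aug_map {B T κ κ' : Type} [CommRing B] [CommRing T] [Algebra B T]
    (σ : T →ₐ[B] B) [Field κ] [Field κ'] [Algebra B κ] [Algebra B κ'] (f : κ →ₐ[B] κ')
    (x : κ ⊗[B] T) :
    aug σ κ' (Algebra.TensorProduct.map f (AlgHom.id B T) x) = f (aug σ κ x) := by
  induction x using TensorProduct.induction_on with
  | zero => simp
  | tmul a t => simp [aug, Algebra.ofId_apply]
  | add x y hx hy => simp only [map_add, hx, hy]

theorem map_isIntegral {B T κ κ' : Type} [CommRing B] [CommRing T] [Algebra B T]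
    [Field κ] [Field κ'] [Finite κ'] [Algebra B κ] [Algebra B κ'] (f : κ →ₐ[B] κ') :
    (Algebra.TensorProduct.map f (AlgHom.id B T)).toRingHom.IsIntegral := by
  let _ : Fintype κ' := Fintype.ofFinite κ'
  intro x
  induction x using TensorProduct.induction_on with
  | zero => exact RingHom.isIntegralElem_zero _
  | tmul a t =>
    have e : a ⊗ₜ[B] t = (a ⊗ₜ[B] (1 : T)) *
        (Algebra.TensorProduct.map f (AlgHom.id B T)).toRingHom (1 ⊗ₜ[B] t) := by
      simp
    rw [e]
    refine RingHom.IsIntegralElem.mul _ ?_ (RingHom.isIntegralElem_map _)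
    have hc : 1 < Fintype.card κ' := Fintype.one_lt_card
    refine ⟨Polynomial.X ^ Fintype.card κ' - Polynomial.X, ?_, ?_⟩
    · refine Polynomial.monic_X_pow_sub (Polynomial.degree_X_le.trans_lt ?_)
      exact_mod_cast hc
    · rw [Polynomial.eval₂_sub, Polynomial.eval₂_X_pow, Polynomial.eval₂_X,
        Algebra.TensorProduct.tmul_pow, FiniteField.pow_card, one_pow, sub_self]
  | add x y hx hy => exact RingHom.IsIntegralElem.add _ hx hy

end DescAux

/-- `φ i y = π (φ' (w i * ι y))` where `a' = ∑ ι (a i) * w i`; one of the `φ i (c * a i)` is a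
unit. -/
theorem descend_abs {p : ℕ} {R R' : Type} [CommRing R] [IsLocalRing R] [CommRing R'] [IsDomain R']
    [IsIntegrallyClosed R'] (ι : R →+* R') (π : R' →+ R) (h1 : π 1 = 1)
    (hπ : ∀ r w, π (ι r * w) = r * π w) {𝔡 𝔞 : Ideal R} {r : ℕ} {t : ℝ≥0}
    (h : SFRi p (𝔡.map ι) r (𝔞.map ι) t) :
    IsDomain R ∧ IsIntegrallyClosed R ∧ SFRi p 𝔡 r 𝔞 t := by
  have hret : ∀ a, π (ι a) = a := fun a => by
    have := hπ a 1
    rwa [mul_one, h1, mul_one] at this
  have hι : Function.Injective ι := fun a b hab => by rw [← hret a, hab, hret]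
  have hdom : IsDomain R := hι.isDomain ι
  refine ⟨hdom, ?_, ?_⟩
  · rw [isIntegrallyClosed_iff (FractionRing R)]
    intro x hx
    have hinj : Function.Injective ((algebraMap R' (FractionRing R')).comp ι) :=
      (IsFractionRing.injective R' (FractionRing R')).comp hι
    let g : FractionRing R →+* FractionRing R' := IsFractionRing.lift hinj
    have hg : ∀ a, g (algebraMap R _ a) = algebraMap R' _ (ι a) := fun a =>
      IsFractionRing.lift_algebraMap hinj a
    have hx' : IsIntegral R' (g x) := by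
      obtain ⟨P, hm, hP⟩ := hx
      refine ⟨P.map ι, hm.map ι, ?_⟩
      have e : (algebraMap R' (FractionRing R')).comp ι = g.comp (algebraMap R _) :=
        RingHom.ext fun a => (hg a).symm
      rw [Polynomial.eval₂_map, e, ← Polynomial.hom_eval₂, hP, map_zero]
    obtain ⟨y, hy⟩ := (isIntegrallyClosed_iff (FractionRing R')).mp inferInstance hx'
    obtain ⟨⟨a, b⟩, hab⟩ := IsLocalization.surj R⁰ x
    simp only at hab
    have e1 : ι b * y = ι a := by
      apply IsFractionRing.injective R' (FractionRing R')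
      rw [map_mul, hy, ← hg, ← hg, ← map_mul, mul_comm, hab]
    have e2 : (b : R) * π y = a := by rw [← hπ, e1, hret]
    refine ⟨π y, ?_⟩
    have hb : IsUnit (algebraMap R (FractionRing R) b) := IsLocalization.map_units _ b
    refine hb.mul_left_cancel ?_
    rw [← map_mul, e2, ← hab, mul_comm]
  · intro c hc
    have hc' : ι c ∈ R'⁰ := by
      refine mem_nonZeroDivisors_of_ne_zero fun h0 => nonZeroDivisors.ne_zero hc ?_
      exact hι (by rw [h0, map_zero])
    obtain ⟨e, he, hr, a', ha', φ, hφ, hone⟩ := h (ι c) hc'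
    refine ⟨e, he, hr, ?_⟩
    have key : ∃ a ∈ 𝔞 ^ ⌈(t : ℝ) * ((p : ℝ) ^ e - 1)⌉₊, ∃ w : R',
        IsUnit (π (φ (w * ι (c * a)))) := by
      by_contra hcon
      push Not at hcon
      have all : ∀ w : R', π (φ (w * (ι c * a'))) ∈ IsLocalRing.maximalIdeal R := by
        rw [← Ideal.map_pow] at ha'
        clear hone
        induction ha' using Submodule.span_induction with
        | mem x hx =>
          obtain ⟨d, hd, rfl⟩ := hx
          intro w
          rw [← map_mul]
          exact hcon d hd w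
        | zero => simp
        | add a b _ _ ha hb =>
          intro w
          rw [mul_add, mul_add, map_add, map_add]
          exact add_mem (ha w) (hb w)
        | smul u a _ ha =>
          intro w
          rw [smul_eq_mul, mul_left_comm (ι c), ← mul_assoc]
          exact ha _
      have := all 1
      rw [one_mul, hone, h1] at this
      exact (IsLocalRing.maximalIdeal.isMaximal R).ne_top ((Ideal.eq_top_iff_one _).mpr this)
    obtain ⟨a, ha, w, u, hu⟩ := key
    have hψ := DescAux.isCart_desc ι hι π hπ hφ w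
    refine ⟨a, ha, _, hψ.premul ((u⁻¹ : Rˣ) ^ p ^ e), ?_⟩
    have := hψ.lin (u⁻¹ : Rˣ) (c * a)
    refine this.trans ?_
    change ((u⁻¹ : Rˣ) : R) * π (φ (w * ι (c * a))) = 1
    rw [← hu, Units.inv_mul]

/-- Let `π₀ : κ' → κ` be `κ`-linear with `π₀ 1 = 1` and `π₁ = π₀ ⊗ id`. Every `s' ∉ pt σ κ'`
divides the image of some `s ∉ pt σ κ` (the extension is integral and `pt σ κ'` is the only prime
over `pt σ κ`, by `pt_eq_ext` and `pt_isMaximal`), so `Loc σ κ'` is the localization of
`κ' ⊗[B] T` at the image of the complement of `pt σ κ`, and `π₁` localizes. -/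
theorem exists_retraction {B T κ κ' : Type} [CommRing B] [CommRing T] [Algebra B T]
    (σ : T →ₐ[B] B) [Field κ] [Field κ'] [Finite κ'] [Algebra B κ] [Algebra B κ']
    (f : κ →ₐ[B] κ') :
    ∃ (ι : Loc σ κ →+* Loc σ κ') (π : Loc σ κ' →+ Loc σ κ), π 1 = 1 ∧
      (∀ r w, π (ι r * w) = r * π w) ∧
      ∀ I : Ideal (κ ⊗[B] T), (toLoc σ κ I).map ι = toLoc σ κ' (spk f I) := by
  let g : κ ⊗[B] T →+* κ' ⊗[B] T := (Algebra.TensorProduct.map f (AlgHom.id B T)).toRingHom
  have hP : pt σ κ = (pt σ κ').comap g := by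
    ext x
    simp only [pt, Ideal.mem_comap, RingHom.mem_ker]
    change _ ↔ aug σ κ' (Algebra.TensorProduct.map f (AlgHom.id B T) x) = 0
    rw [DescAux.aug_map, map_eq_zero f]
  have hmap : (pt σ κ).map g = pt σ κ' := by
    rw [pt_eq_ext, pt_eq_ext, ← spk_ext f]
    rfl
  have hdiv : ∀ s' ∉ pt σ κ', ∃ s ∉ pt σ κ, s' ∣ g s := by
    intro s' hs'
    by_contra hcon
    push Not at hcon
    let _ : Algebra (κ ⊗[B] T) (κ' ⊗[B] T) := g.toAlgebra
    have _ : Algebra.IsIntegral (κ ⊗[B] T) (κ' ⊗[B] T) := ⟨DescAux.map_isIntegral f⟩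
    obtain ⟨Q, hQ, hQp, hQc⟩ := Ideal.exists_ideal_over_prime_of_isIntegral (pt σ κ)
      (Ideal.span {s'}) (fun s hs => by
        by_contra hn
        exact hcon s hn (Ideal.mem_span_singleton.mp hs))
    have hle : pt σ κ' ≤ Q := by
      rw [← hmap, Ideal.map_le_iff_le_comap]
      exact hQc.ge
    have := (pt_isMaximal σ κ').eq_of_le hQp.ne_top hle
    exact hs' (this ▸ hQ (Ideal.mem_span_singleton_self s'))
  let _ : Algebra κ κ' := f.toRingHom.toAlgebra
  have _ : IsScalarTower B κ κ' := IsScalarTower.of_algebraMap_eq fun b => (f.commutes b).symm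
  obtain ⟨π₀, hπ₀⟩ := Module.Projective.exists_dual_eq_one κ (one_ne_zero : (1 : κ') ≠ 0)
  let π₁ : κ' ⊗[B] T →ₗ[B] κ ⊗[B] T := LinearMap.rTensor T (π₀.restrictScalars B)
  have h1 : π₁.toAddMonoidHom 1 = 1 := by
    change π₁ (1 ⊗ₜ[B] 1) = 1 ⊗ₜ[B] 1
    simp [π₁, hπ₀]
  have hπ : ∀ r w, π₁.toAddMonoidHom (g r * w) = r * π₁.toAddMonoidHom w := by
    intro r w
    change π₁ (g r * w) = r * π₁ w
    induction r using TensorProduct.induction_on with
    | zero => simp
    | add x y hx hy => rw [map_add, add_mul, map_add, hx, hy, add_mul]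
    | tmul a t =>
      induction w using TensorProduct.induction_on with
      | zero => simp
      | add x y hx hy => rw [mul_add, map_add, hx, hy, map_add, mul_add]
      | tmul b s =>
        have e : π₀ (f a * b) = a * π₀ b := π₀.map_smul a b
        simp [π₁, g, e]
  obtain ⟨π, hπ1, hπ2⟩ := DescAux.loc_retraction g (pt σ κ) (pt σ κ') hP hdiv _ h1 hπ
  refine ⟨Localization.localRingHom (pt σ κ) (pt σ κ') g hP, π, hπ1, hπ2, fun I => ?_⟩
  change (I.map _).map _ = (I.map g).map _
  rw [Ideal.map_map, Ideal.map_map]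
  congr 1
  exact RingHom.ext fun x => Localization.localRingHom_to_map _ _ g hP x

end

end Pool.Agent.Lib.MP_4287a9_ag
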