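import Pool.Agent.Lib.MP_4287a9_ag.D2

/-!
Sign rules for `eps`, `cdel`, `wedge`.
-/

open scoped TensorProduct ENNReal NNReal nonZeroDivisors Polynomial
open Filter

namespace Pool.Agent.Lib.MP_4287a9_ag

noncomputable section

private theorem sum_antisymm {ι M : Type} [Fintype ι] [DecidableEq ι] [AddCommGroup M]
    (f : ι → ι → M) (h0 : ∀ a, f a a = 0) (h : ∀ a b, f a b = -f b a) :
    ∑ a, ∑ b, f a b = 0 := by
  rw [← Fintype.sum_prod_type']
  refine Finset.sum_involution (fun p _ => p.swap) ?_ ?_ (fun _ _ => Finset.mem_univ _) ?_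
  · intro p _
    simp only [Prod.fst_swap, Prod.snd_swap]
    rw [h p.1 p.2, neg_add_cancel]
  · intro p _ hp hs
    apply hp
    have h1 : p.2 = p.1 := congrArg Prod.fst hs
    rw [h1]
    exact h0 _
  · intro p _
    rfl

private theorem eps_lt {m : ℕ} {M : Type} [AddCommGroup M] {a b : Fin m} (hab : a < b)
    (c : Finset (Fin m) → M) : eps a (eps b c) = -eps b (eps a c) := by
  funext σ
  have hne : a ≠ b := hab.ne
  simp only [eps, Pi.neg_apply, Finset.mem_erase]
  by_cases ha : a ∈ σ
  · by_cases hb : b ∈ σ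
    · simp only [ha, hb, hne, hne.symm, ne_eq, not_false_eq_true, and_self, if_true]
      have h1 : (σ.erase b).filter (· < a) = σ.filter (· < a) := by
        ext x
        simp only [Finset.mem_filter, Finset.mem_erase]
        constructor
        · exact fun h => ⟨h.1.2, h.2⟩
        · exact fun h => ⟨⟨fun hx => absurd (hx ▸ h.2) hab.not_gt, h.1⟩, h.2⟩
      have h2 : (σ.filter (· < b)).card = ((σ.erase a).filter (· < b)).card + 1 := by
        rw [Finset.filter_erase, Finset.card_erase_add_one]
        exact Finset.mem_filter.2 ⟨ha, hab⟩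
      rw [h1, h2, Finset.erase_right_comm, smul_smul, smul_smul, ← neg_smul]
      congr 1
      ring
    · simp [ha, hb]
  · simp [ha]

private theorem eps_add {m : ℕ} {M : Type} [AddCommGroup M] (a : Fin m)
    (c c' : Finset (Fin m) → M) : eps a (c + c') = eps a c + eps a c' := by
  funext σ
  simp only [eps, Pi.add_apply]
  split_ifs <;> simp

private theorem eps_zero {m : ℕ} {M : Type} [AddCommGroup M] (a : Fin m) :
    eps a (0 : Finset (Fin m) → M) = 0 := by
  funext σ
  simp [eps]

private theorem eps_sum {m : ℕ} {M ι : Type} [AddCommGroup M] (a : Fin m) (t : Finset ι)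
    (c : ι → Finset (Fin m) → M) : eps a (∑ i ∈ t, c i) = ∑ i ∈ t, eps a (c i) := by
  classical
  induction t using Finset.induction_on with
  | empty => simpa using eps_zero a
  | insert i t hi ih => rw [Finset.sum_insert hi, Finset.sum_insert hi, eps_add, ih]

theorem eps_eps_self {m : ℕ} {M : Type} [AddCommGroup M] (a : Fin m) (c : Finset (Fin m) → M) :
    eps a (eps a c) = 0 := by
  funext σ
  simp [eps]

theorem eps_eps_comm {m : ℕ} {M : Type} [AddCommGroup M] (a b : Fin m)
    (c : Finset (Fin m) → M) : eps a (eps b c) = -eps b (eps a c) := by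
  rcases lt_trichotomy a b with h | rfl | h
  · exact eps_lt h c
  · rw [eps_eps_self, neg_zero]
  · rw [eps_lt h c, neg_neg]

theorem cdel_apply {m : ℕ} {M : Type} [AddCommGroup M] (c : Finset (Fin m) → M)
    (σ : Finset (Fin m)) :
    cdel c σ = ∑ a ∈ σ, (-1 : ℤ) ^ (σ.filter (· < a)).card • c (σ.erase a) := by
  rw [cdel, Finset.sum_apply]
  simp only [eps]
  rw [Finset.sum_ite_mem, Finset.univ_inter]

theorem cdel_add {m : ℕ} {M : Type} [AddCommGroup M] (c c' : Finset (Fin m) → M) :
    cdel (c + c') = cdel c + cdel c' := by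
  simp only [cdel, eps_add, Finset.sum_add_distrib]

theorem cdel_sub {m : ℕ} {M : Type} [AddCommGroup M] (c c' : Finset (Fin m) → M) :
    cdel (c - c') = cdel c - cdel c' := by
  rw [eq_sub_iff_add_eq, ← cdel_add, sub_add_cancel]

theorem cdel_cdel {m : ℕ} {M : Type} [AddCommGroup M] (c : Finset (Fin m) → M) :
    cdel (cdel c) = 0 := by
  simp only [cdel, eps_sum]
  exact sum_antisymm _ (fun a => eps_eps_self a c) fun a b => eps_eps_comm a b c

theorem cdel_comp {m : ℕ} {M M' : Type} [AddCommGroup M] [AddCommGroup M'] (f : M →+ M')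
    (c : Finset (Fin m) → M) (σ : Finset (Fin m)) :
    cdel (fun τ => f (c τ)) σ = f (cdel c σ) := by
  simp only [cdel_apply, map_sum, map_zsmul]

theorem cdel_congr {m : ℕ} {M : Type} [AddCommGroup M] {c c' : Finset (Fin m) → M}
    {σ : Finset (Fin m)} (h : ∀ τ, τ.card + 1 = σ.card → c τ = c' τ) : cdel c σ = cdel c' σ := by
  simp only [cdel_apply]
  refine Finset.sum_congr rfl fun a ha => ?_
  rw [h _ (Finset.card_erase_add_one ha)]

theorem cdel_single {m : ℕ} {M : Type} [AddCommGroup M] (c : Finset (Fin m) → M) (a : Fin m) :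
    cdel c {a} = c ∅ := by
  rw [cdel_apply, Finset.sum_singleton, Finset.erase_singleton, Finset.filter_singleton]
  simp

theorem cdel_pair {m : ℕ} {M : Type} [AddCommGroup M] (c : Finset (Fin m) → M) {a b : Fin m}
    (h : a < b) : cdel c {a, b} = c {b} - c {a} := by
  have h1 : ({a, b} : Finset (Fin m)).filter (· < a) = ∅ := by
    ext x
    simp only [Finset.mem_filter, Finset.mem_insert, Finset.mem_singleton, Finset.notMem_empty,
      iff_false, not_and, not_lt]
    rintro (rfl | rfl)
    · exact le_rfl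
    · exact h.le
  have h2 : ({a, b} : Finset (Fin m)).filter (· < b) = {a} := by
    ext x
    simp only [Finset.mem_filter, Finset.mem_insert, Finset.mem_singleton]
    constructor
    · rintro ⟨rfl | rfl, h3⟩
      · rfl
      · exact absurd h3 (lt_irrefl _)
    · rintro rfl
      exact ⟨Or.inl rfl, h⟩
  have h3 : ({a, b} : Finset (Fin m)).erase a = {b} :=
    Finset.erase_insert (by simpa using h.ne)
  have h4 : ({a, b} : Finset (Fin m)).erase b = {a} := by
    rw [Finset.pair_comm]
    exact Finset.erase_insert (by simpa using h.ne')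
  rw [cdel_apply, Finset.sum_pair h.ne, h1, h2, h3, h4]
  simp [sub_eq_add_neg]

/-- Exactness is invariant under an additive automorphism. -/
theorem CExact.of_equiv {m : ℕ} {M : Type} [AddCommGroup M] (f : M ≃+ M)
    {L L' : Finset (Fin m) → Set M} {s : ℕ} (hs : 1 ≤ s)
    (h : ∀ σ : Finset (Fin m), σ.Nonempty → ∀ v, v ∈ L σ ↔ f v ∈ L' σ) (hL : CExact L s) :
    CExact L' s := by
  intro c hc hd
  obtain ⟨b, hb1, hb2⟩ := hL (fun τ => f.symm (c τ))
    (fun σ hσ => (h σ (Finset.card_pos.1 (by omega)) _).2 (by simpa using hc σ hσ))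
    (fun σ hσ => by
      have h1 := cdel_comp f.symm.toAddMonoidHom c σ
      rw [hd σ hσ, map_zero] at h1
      exact h1)
  refine ⟨fun τ => f (b τ), fun σ hσ => (h σ (Finset.card_pos.1 (by omega)) _).1 (hb1 σ hσ),
    fun σ hσ => ?_⟩
  have h1 := cdel_comp f.toAddMonoidHom b σ
  rw [hb2 σ hσ] at h1
  simpa using h1

theorem wedge_add {W : Type} [CommRing W] {n : ℕ} (ζ ζ' : Fin n → W) :
    wedge (ζ + ζ') = wedge ζ + wedge ζ' := by
  simp only [wedge, Pi.add_apply, add_smul, Finset.sum_add_distrib]

theorem wedge_smul {W : Type} [CommRing W] {n : ℕ} (a : W) (ζ : Fin n → W) :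
    wedge (a • ζ) = a • wedge ζ := by
  simp only [wedge, Pi.smul_apply, smul_eq_mul, mul_smul, Finset.smul_sum]

theorem wedge_sum {W : Type} [CommRing W] {n : ℕ} {ι : Type} (t : Finset ι)
    (ζ : ι → Fin n → W) : wedge (∑ i ∈ t, ζ i) = ∑ i ∈ t, wedge (ζ i) := by
  simp only [wedge, Finset.sum_apply, Finset.sum_smul]
  exact Finset.sum_comm

theorem wedge_single {W : Type} [CommRing W] {n : ℕ} (i : Fin n) (a : W) :
    wedge (Pi.single i a : Fin n → W) = a • epsL i := by
  rw [wedge, Finset.sum_eq_single i (fun j _ hj => by simp [hj]) (by simp), Pi.single_eq_same]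

theorem wedge_wedge_comm {W : Type} [CommRing W] {n : ℕ} (ζ ζ' : Fin n → W) (w : Fm W n) :
    wedge ζ (wedge ζ' w) = -wedge ζ' (wedge ζ w) := by
  simp only [wedge, LinearMap.sum_apply, LinearMap.smul_apply, map_sum, map_smul,
    Finset.smul_sum]
  rw [Finset.sum_comm, ← Finset.sum_neg_distrib]
  refine Finset.sum_congr rfl fun i _ => ?_
  rw [← Finset.sum_neg_distrib]
  refine Finset.sum_congr rfl fun j _ => ?_
  have h1 : epsL i (epsL j w) = -epsL j (epsL i w) := eps_eps_comm i j w
  rw [h1, smul_comm]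
  simp

theorem wedge_wedge_self {W : Type} [CommRing W] {n : ℕ} (ζ : Fin n → W) (w : Fm W n) :
    wedge ζ (wedge ζ w) = 0 := by
  simp only [wedge, LinearMap.sum_apply, LinearMap.smul_apply, map_sum, map_smul,
    Finset.smul_sum]
  refine sum_antisymm _ (fun a => ?_) fun a b => ?_
  · have h1 : epsL a (epsL a w) = 0 := eps_eps_self a w
    rw [h1, smul_zero, smul_zero]
  · have h1 : epsL b (epsL a w) = -epsL a (epsL b w) := eps_eps_comm b a w
    rw [h1, smul_comm]
    simp

end

end Pool.Agent.Lib.MP_4287a9_ag
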