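import Pool.Agent.Lib.MP_4287a9_ag.EpsA

/-!
Monomials in one-forms, determinants, lattices.
-/

open scoped TensorProduct ENNReal NNReal nonZeroDivisors Polynomial
open Filter

namespace Pool.Agent.Lib.MP_4287a9_ag

noncomputable section

private theorem EpsB_mon_insert {W : Type} [CommRing W] {n : ℕ} (θ : Fin n → Fin n → W)
    (a : Fin n) (s : Finset (Fin n)) (h : ∀ x ∈ s, a < x) :
    mon θ (insert a s) = wedge (θ a) (mon θ s) := by
  have ha : a ∉ s := fun hh => lt_irrefl _ (h a hh)
  unfold mon
  rw [Finset.sort_insert (· ≤ ·) (fun b hb => (h b hb).le) ha]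
  rfl

private theorem EpsB_wl_cons {W : Type} [CommRing W] {n : ℕ} (ζ : Fin n → W)
    (L : List (Fin n → W)) : wl (ζ :: L) = wedge ζ (wl L) := rfl

private theorem EpsB_wedge_apply {W : Type} [CommRing W] {n : ℕ} (ζ : Fin n → W) (w : Fm W n)
    (I : Finset (Fin n)) : wedge ζ w I =
      ∑ i ∈ I, ζ i * ((-1 : ℤ) ^ (I.filter (· < i)).card • w (I.erase i)) := by
  have : wedge ζ w I = ∑ i, ζ i * eps i w I := by
    unfold wedge
    rw [LinearMap.sum_apply, Finset.sum_apply]
    rfl
  rw [this]
  simp only [eps, mul_ite, mul_zero]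
  rw [← Finset.sum_filter]
  congr 1
  ext i
  simp

private theorem EpsB_minor {W : Type} [CommRing W] {n : ℕ} (k : ℕ) :
    ∀ (v : Fin k → Fin n → W) (e : Fin k → Fin n), StrictMono e →
      wl (List.ofFn v) (Finset.univ.image e) = (Matrix.of fun i j => v i (e j)).det := by
  induction k with
  | zero =>
    intro v e _
    simp [wl, fone]
  | succ k ih =>
    intro v e he
    rw [List.ofFn_succ, EpsB_wl_cons, EpsB_wedge_apply, Matrix.det_succ_row_zero,
      Finset.sum_image (fun x _ y _ h => he.injective h)]
    refine Finset.sum_congr rfl fun j _ => ?_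
    have h1 : ((Finset.univ.image e).filter (· < e j)).card = j := by
      have : (Finset.univ.image e).filter (· < e j) = (Finset.Iio j).image e := by
        ext x
        simp only [Finset.mem_filter, Finset.mem_image, Finset.mem_univ, true_and, Finset.mem_Iio]
        constructor
        · rintro ⟨⟨y, rfl⟩, hy⟩
          exact ⟨y, he.lt_iff_lt.1 hy, rfl⟩
        · rintro ⟨y, hy, rfl⟩
          exact ⟨⟨y, rfl⟩, he hy⟩
      rw [this, Finset.card_image_of_injective _ he.injective, Fin.card_Iio]
    have h2 : (Finset.univ.image e).erase (e j) = Finset.univ.image (e ∘ j.succAbove) := by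
      ext x
      simp only [Finset.mem_erase, Finset.mem_image, Finset.mem_univ, true_and, Function.comp]
      constructor
      · rintro ⟨hx, y, rfl⟩
        obtain ⟨z, hz⟩ := Fin.exists_succAbove_eq (x := y) (y := j) (fun h => hx (by rw [h]))
        exact ⟨z, by rw [hz]⟩
      · rintro ⟨y, rfl⟩
        exact ⟨fun h => Fin.succAbove_ne j y (he.injective h), _, rfl⟩
    rw [h1, h2, ih (fun i => v i.succ) (e ∘ j.succAbove) (he.comp (Fin.strictMono_succAbove j))]
    have h3 : (Matrix.of fun i j => v i (e j)).submatrix Fin.succ j.succAbove =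
        Matrix.of fun i l => v i.succ ((e ∘ j.succAbove) l) := rfl
    rw [h3, zsmul_eq_mul]
    simp only [Matrix.of_apply]
    push_cast
    ring

/-- Sorted insertion, using `wedge_wedge_comm` and `wedge_wedge_self`. -/
theorem wedge_mon {W : Type} [CommRing W] {n : ℕ} (θ : Fin n → Fin n → W) (l : Fin n)
    (I : Finset (Fin n)) : wedge (θ l) (mon θ I) =
      if l ∈ I then 0 else (-1 : ℤ) ^ (I.filter (· < l)).card • mon θ (insert l I) := by
  induction I using Finset.induction_on_min with
  | empty =>
    rw [if_neg (Finset.notMem_empty l), EpsB_mon_insert θ l ∅ (by simp)]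
    simp
  | insert a s ha ih =>
    rcases lt_trichotomy l a with h | h | h
    · have hl : ∀ x ∈ insert a s, l < x := by
        intro x hx
        rcases Finset.mem_insert.1 hx with rfl | hx
        · exact h
        · exact h.trans (ha x hx)
      have hn : l ∉ insert a s := fun hh => lt_irrefl _ (hl l hh)
      have hf : (insert a s).filter (· < l) = ∅ :=
        Finset.filter_eq_empty_iff.2 fun x hx => not_lt.2 (hl x hx).le
      rw [if_neg hn, hf, EpsB_mon_insert θ l _ hl]
      simp
    · subst h
      rw [if_pos (Finset.mem_insert_self _ _), EpsB_mon_insert θ l s ha, wedge_wedge_self]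
    · rw [EpsB_mon_insert θ a s ha, wedge_wedge_comm, ih]
      by_cases hl : l ∈ s
      · rw [if_pos hl, if_pos (Finset.mem_insert_of_mem hl)]
        simp
      · have hn : l ∉ insert a s := by
          intro hh
          rcases Finset.mem_insert.1 hh with h' | h'
          · exact h.ne' h'
          · exact hl h'
        have has : a ∉ s.filter (· < l) := fun hh =>
          lt_irrefl _ (ha a (Finset.mem_filter.1 hh).1)
        have hf : (insert a s).filter (· < l) = insert a (s.filter (· < l)) := by
          rw [Finset.filter_insert, if_pos h]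
        have ha' : ∀ x ∈ insert l s, a < x := by
          intro x hx
          rcases Finset.mem_insert.1 hx with rfl | hx
          · exact h
          · exact ha x hx
        rw [if_neg hl, if_neg hn, hf, Finset.card_insert_of_notMem has, Finset.insert_comm,
          EpsB_mon_insert θ a _ ha', map_zsmul, pow_succ, mul_neg_one, neg_smul]

theorem mon_empty {W : Type} [CommRing W] {n : ℕ} (θ : Fin n → Fin n → W) :
    mon θ ∅ = fone W n := by
  simp [mon, wl]

theorem mon_std {W : Type} [CommRing W] {n : ℕ} (I : Finset (Fin n)) :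
    mon (fun l => (Pi.single l 1 : Fin n → W)) I = Pi.single I 1 := by
  induction I using Finset.induction_on_min with
  | empty => rw [mon_empty]; rfl
  | insert a s ha ih =>
    have has : a ∉ s := fun hh => lt_irrefl _ (ha a hh)
    rw [EpsB_mon_insert _ a s ha, ih, wedge_single, one_smul]
    funext σ
    change eps a (Pi.single s (1 : W) : Finset (Fin n) → W) σ = _
    unfold eps
    by_cases hσ : σ = insert a s
    · subst hσ
      have hf : (insert a s).filter (· < a) = ∅ := by
        refine Finset.filter_eq_empty_iff.2 fun x hx => ?_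
        rcases Finset.mem_insert.1 hx with rfl | hx
        · exact lt_irrefl _
        · exact not_lt.2 (ha x hx).le
      rw [if_pos (Finset.mem_insert_self _ _), hf, Finset.erase_insert has]
      simp
    · rw [Pi.single_eq_of_ne hσ]
      split_ifs with h
      · have : σ.erase a ≠ s := by
          intro hh
          apply hσ
          rw [← hh, Finset.insert_erase h]
        rw [Pi.single_eq_of_ne this, smul_zero]
      · rfl

/-- The product of a list of `k` one-forms is concentrated in degree `k`. -/
theorem wl_apply_of_ne {W : Type} [CommRing W] {n : ℕ} (L : List (Fin n → W))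
    (I : Finset (Fin n)) (h : I.card ≠ L.length) : wl L I = 0 := by
  induction L generalizing I with
  | nil =>
    have : I ≠ ∅ := by
      rintro rfl
      simp at h
    simp [wl, fone, Pi.single_eq_of_ne this]
  | cons ζ L ih =>
    rw [EpsB_wl_cons, EpsB_wedge_apply]
    refine Finset.sum_eq_zero fun i hi => ?_
    rw [ih (I.erase i), smul_zero, mul_zero]
    rw [List.length_cons] at h
    have := Finset.card_erase_add_one hi
    omega

/-- Both sides are alternating and multilinear in the rows and agree on the identity. -/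
theorem top_wl_ofFn {W : Type} [CommRing W] {n : ℕ} (v : Fin n → Fin n → W) :
    top (wl (List.ofFn v)) = (Matrix.of v).det := by
  have := EpsB_minor n v id strictMono_id
  rw [Finset.image_id] at this
  exact this

theorem top_mem_lat {Λ W : Type} [CommRing Λ] [CommRing W] [Algebra Λ W] {n : ℕ}
    {S : Subalgebra Λ W} {τ : W} {θ : Fin n → Fin n → W} {w : Fm W n} (hw : w ∈ lat S τ θ) :
    ∃ a ∈ S, top w = a * (τ * (Matrix.of θ).det) := by
  unfold lat at hw
  rw [Submodule.restrictScalars_mem] at hw
  induction hw using Submodule.span_induction with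
  | mem x hx =>
    obtain ⟨I, rfl⟩ := hx
    by_cases hI : I = Finset.univ
    · subst hI
      refine ⟨1, S.one_mem, ?_⟩
      have : mon θ Finset.univ = wl (List.ofFn θ) := by
        unfold mon
        rw [Fin.sort_univ, List.ofFn_eq_map]
      rw [one_mul, ← top_wl_ofFn, ← this]
      rfl
    · refine ⟨0, S.zero_mem, ?_⟩
      have : mon θ I Finset.univ = 0 := by
        apply wl_apply_of_ne
        rw [List.length_map, Finset.length_sort]
        intro h
        exact hI (Finset.eq_univ_of_card I (by rw [← h]; rfl))
      change τ * mon θ I Finset.univ = _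
      rw [this, mul_zero, zero_mul]
  | zero => exact ⟨0, S.zero_mem, by simp [top]⟩
  | add x y _ _ hx hy =>
    obtain ⟨a, ha, h1⟩ := hx
    obtain ⟨b, hb, h2⟩ := hy
    refine ⟨a + b, S.add_mem ha hb, ?_⟩
    rw [add_mul, ← h1, ← h2]
    rfl
  | smul c x _ hx =>
    obtain ⟨a, ha, h1⟩ := hx
    refine ⟨c * a, S.mul_mem c.2 ha, ?_⟩
    rw [mul_assoc, ← h1]
    rfl

theorem fone_mem_lat {Λ W : Type} [CommRing Λ] [CommRing W] [Algebra Λ W] {n : ℕ}
    (S : Subalgebra Λ W) (θ : Fin n → Fin n → W) : fone W n ∈ lat S 1 θ := by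
  unfold lat
  rw [Submodule.restrictScalars_mem]
  exact Submodule.subset_span ⟨∅, by simp only [one_smul, mon_empty]⟩

theorem smul_mem_lat {Λ W : Type} [CommRing Λ] [CommRing W] [Algebra Λ W] {n : ℕ}
    {S : Subalgebra Λ W} {τ a : W} {θ : Fin n → Fin n → W} {w : Fm W n} (ha : a ∈ S)
    (hw : w ∈ lat S τ θ) : a • w ∈ lat S τ θ := by
  unfold lat at hw ⊢
  rw [Submodule.restrictScalars_mem] at hw ⊢
  exact Submodule.smul_mem _ (⟨a, ha⟩ : S) hw

theorem smul_mem_lat_mul {Λ W : Type} [CommRing Λ] [CommRing W] [Algebra Λ W] {n : ℕ}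
    {S : Subalgebra Λ W} {τ : W} {θ : Fin n → Fin n → W} {w : Fm W n} (a : W)
    (hw : w ∈ lat S τ θ) : a • w ∈ lat S (a * τ) θ := by
  unfold lat at hw ⊢
  rw [Submodule.restrictScalars_mem] at hw ⊢
  induction hw using Submodule.span_induction with
  | mem x hx =>
    obtain ⟨I, rfl⟩ := hx
    exact Submodule.subset_span ⟨I, by simp only [mul_smul]⟩
  | zero => rw [smul_zero]; exact Submodule.zero_mem _
  | add x y _ _ hx hy => rw [smul_add]; exact Submodule.add_mem _ hx hy
  | smul c x _ hx =>
    have : a • c • x = c • a • x := smul_comm a (c : W) x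
    rw [this]
    exact Submodule.smul_mem _ c hx

theorem wedge_mem_lat {Λ W : Type} [CommRing Λ] [CommRing W] [Algebra Λ W] {n : ℕ}
    {S : Subalgebra Λ W} {τ : W} {θ : Fin n → Fin n → W} {ζ : Fin n → W} {w : Fm W n}
    (hζ : ζ ∈ Submodule.span S (Set.range θ)) (hw : w ∈ lat S τ θ) :
    wedge ζ w ∈ lat S τ θ := by
  have key : ∀ l, wedge (θ l) w ∈ lat S τ θ := by
    intro l
    unfold lat at hw ⊢
    rw [Submodule.restrictScalars_mem] at hw ⊢
    induction hw using Submodule.span_induction with
    | mem x hx =>
      obtain ⟨I, rfl⟩ := hx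
      rw [map_smul, wedge_mon]
      split_ifs with h
      · rw [smul_zero]; exact Submodule.zero_mem _
      · rw [smul_comm]
        exact Submodule.smul_of_tower_mem _ _ (Submodule.subset_span ⟨insert l I, rfl⟩)
    | zero => rw [map_zero]; exact Submodule.zero_mem _
    | add x y _ _ hx hy => rw [map_add]; exact Submodule.add_mem _ hx hy
    | smul c x _ hx =>
      have : wedge (θ l) (c • x) = c • wedge (θ l) x := map_smul (wedge (θ l)) (c : W) x
      rw [this]
      exact Submodule.smul_mem _ c hx
  induction hζ using Submodule.span_induction with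
  | mem x hx =>
    obtain ⟨l, rfl⟩ := hx
    exact key l
  | zero =>
    have : wedge (0 : Fin n → W) w = 0 := by simp [wedge]
    rw [this]; exact Submodule.zero_mem _
  | add x y _ _ hx hy =>
    rw [wedge_add, LinearMap.add_apply]; exact Submodule.add_mem _ hx hy
  | smul c x _ hx =>
    have : wedge (c • x) w = (c : W) • wedge x w := by
      rw [← LinearMap.smul_apply, ← wedge_smul]; rfl
    rw [this]
    exact smul_mem_lat c.2 hx

theorem lat_le {Λ W : Type} [CommRing Λ] [CommRing W] [Algebra Λ W] {n : ℕ}
    {S S' : Subalgebra Λ W} {τ τ' : W} {θ θ' : Fin n → Fin n → W} (hS : S ≤ S')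
    (hτ : ∃ a ∈ S', τ = a * τ') (hθ : ∀ l, θ l ∈ Submodule.span S' (Set.range θ')) :
    lat S τ θ ≤ lat S' τ' θ' := by
  have h1 : ∀ L : List (Fin n → W), (∀ ζ ∈ L, ζ ∈ Submodule.span S' (Set.range θ')) →
      wl L ∈ lat S' 1 θ' := by
    intro L
    induction L with
    | nil => intro _; exact fone_mem_lat S' θ'
    | cons ζ L ih =>
      intro h
      rw [EpsB_wl_cons]
      exact wedge_mem_lat (h ζ (List.mem_cons_self ..))
        (ih fun ξ hξ => h ξ (List.mem_cons_of_mem _ hξ))
  obtain ⟨a, ha, rfl⟩ := hτ
  intro w hw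
  unfold lat at hw
  rw [Submodule.restrictScalars_mem] at hw
  induction hw using Submodule.span_induction with
  | mem x hx =>
    obtain ⟨I, rfl⟩ := hx
    have h2 : mon θ I ∈ lat S' 1 θ' := by
      apply h1
      intro ζ hζ
      obtain ⟨l, _, rfl⟩ := List.mem_map.1 hζ
      exact hθ l
    have h3 := smul_mem_lat_mul τ' h2
    rw [mul_one] at h3
    have h4 := smul_mem_lat ha h3
    simpa only [mul_smul] using h4
  | zero => exact Submodule.zero_mem _
  | add x y _ _ hx hy => exact Submodule.add_mem _ hx hy
  | smul c x _ hx => exact smul_mem_lat (hS c.2) hx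

end

end Pool.Agent.Lib.MP_4287a9_ag
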