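import Pool.Agent.Lib.MP_4287a9_ag.EpsB

/-!
The monomials form a basis; flatness, purity and images of lattices.
-/

open scoped TensorProduct ENNReal NNReal nonZeroDivisors Polynomial
open Filter

namespace Pool.Agent.Lib.MP_4287a9_ag

noncomputable section

theorem EpsD_map_smul {Λ M N : Type} [CommRing Λ] [AddCommGroup M] [Module Λ M] [AddCommGroup N]
    [Module Λ N] (f : M →ₗ[Λ] N) {z : Ideal Λ} {p : Submodule Λ M} {q : Submodule Λ N}
    (h : ∀ x ∈ p, f x ∈ q) {x : M} (hx : x ∈ z • p) : f x ∈ z • q := by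
  refine Submodule.smul_induction_on hx (fun r hr y hy => ?_) fun a b ha hb => ?_
  · rw [map_smul]
    exact Submodule.smul_mem_smul hr (h y hy)
  · rw [map_add]
    exact add_mem ha hb

theorem EpsD_lam_eps {W : Type} [CommRing W] {n : ℕ} (θ : Fin n → Fin n → W) (l : Fin n)
    (w : Fm W n) : Fintype.linearCombination W (mon θ) (epsL l w) =
      wedge (θ l) (Fintype.linearCombination W (mon θ) w) := by
  have h : (Fintype.linearCombination W (mon θ)).comp (epsL l) =
      (wedge (θ l)).comp (Fintype.linearCombination W (mon θ)) := by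
    refine (Pi.basisFun W (Finset (Fin n))).ext fun I => ?_
    have h1 := wedge_mon (fun l => (Pi.single l 1 : Fin n → W)) l I
    rw [wedge_single, one_smul, mon_std, mon_std] at h1
    rw [Pi.basisFun_apply, LinearMap.comp_apply, LinearMap.comp_apply, h1,
      Fintype.linearCombination_apply_single, one_smul, wedge_mon]
    split_ifs
    · rw [map_zero]
    · rw [map_zsmul, Fintype.linearCombination_apply_single, one_smul]
  exact LinearMap.congr_fun h w

theorem EpsD_lam_wl {W : Type} [CommRing W] {n : ℕ} (θ : Fin n → Fin n → W)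
    (L : List (Fin n → W)) : Fintype.linearCombination W (mon θ) (wl L) =
      wl (L.map fun ζ => ∑ i, ζ i • θ i) := by
  induction L with
  | nil =>
    show Fintype.linearCombination W (mon θ) (Pi.single ∅ 1) = fone W n
    rw [Fintype.linearCombination_apply_single, one_smul, mon_empty]
  | cons ζ L ih =>
    show Fintype.linearCombination W (mon θ) (wedge ζ (wl L)) =
      wedge (∑ i, ζ i • θ i) (wl (L.map fun ζ => ∑ i, ζ i • θ i))
    rw [← ih, wedge_sum, wedge, LinearMap.sum_apply, LinearMap.sum_apply, map_sum]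
    refine Finset.sum_congr rfl fun i _ => ?_
    rw [wedge_smul, LinearMap.smul_apply, LinearMap.smul_apply, map_smul, EpsD_lam_eps]

theorem EpsD_lam_lam {W : Type} [CommRing W] {n : ℕ} {θ θ' : Fin n → Fin n → W}
    (h : Matrix.of θ' * Matrix.of θ = 1) (w : Fm W n) :
    Fintype.linearCombination W (mon θ) (Fintype.linearCombination W (mon θ') w) = w := by
  have h1 : (Fintype.linearCombination W (mon θ)).comp (Fintype.linearCombination W (mon θ')) =
      LinearMap.id := by
    refine (Pi.basisFun W (Finset (Fin n))).ext fun I => ?_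
    rw [Pi.basisFun_apply, LinearMap.comp_apply, Fintype.linearCombination_apply_single, one_smul,
      LinearMap.id_apply, ← mon_std, mon, mon, EpsD_lam_wl, List.map_map]
    refine congrArg (fun f => wl (List.map f _)) (funext fun l => funext fun j => ?_)
    have h2 := congrFun (congrFun h l) j
    rw [Matrix.mul_apply, Matrix.one_apply] at h2
    rw [Function.comp_apply, Finset.sum_apply, Pi.single_apply]
    exact h2.trans (if_congr eq_comm rfl rfl)
  exact LinearMap.congr_fun h1 w

theorem EpsD_inv {W : Type} [CommRing W] {n : ℕ} {θ : Fin n → Fin n → W}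
    (h : IsUnit (Matrix.of θ).det) : ∃ θ' : Fin n → Fin n → W,
      Matrix.of θ * Matrix.of θ' = 1 ∧ Matrix.of θ' * Matrix.of θ = 1 :=
  ⟨Matrix.of.symm (Matrix.of θ)⁻¹, by rw [Equiv.apply_symm_apply, Matrix.mul_nonsing_inv _ h],
    by rw [Equiv.apply_symm_apply, Matrix.nonsing_inv_mul _ h]⟩

theorem EpsD_mem_lat {Λ W : Type} [CommRing Λ] [CommRing W] [Algebra Λ W] {n : ℕ}
    {S : Subalgebra Λ W} {τ : W} {θ : Fin n → Fin n → W} {w : Fm W n} :
    w ∈ lat S τ θ ↔ ∃ a : Finset (Fin n) → S, ∑ I, (a I : W) • τ • mon θ I = w :=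
  Submodule.mem_span_range_iff_exists_fun S

theorem EpsD_fmap_smul {W W' : Type} [CommRing W] [CommRing W'] {n : ℕ} (π : W →+* W') (a : W)
    (w : Fm W n) : fmap n π (a • w) = π a • fmap n π w :=
  funext fun I => map_mul π a (w I)

theorem EpsD_fmap_wedge {W W' : Type} [CommRing W] [CommRing W'] {n : ℕ} (π : W →+* W')
    (ζ : Fin n → W) (w : Fm W n) :
    fmap n π (wedge ζ w) = wedge (fun i => π (ζ i)) (fmap n π w) := by
  rw [wedge, wedge, LinearMap.sum_apply, LinearMap.sum_apply, map_sum]
  refine Finset.sum_congr rfl fun i _ => ?_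
  rw [LinearMap.smul_apply, LinearMap.smul_apply, EpsD_fmap_smul]
  refine congrArg _ (funext fun σ => ?_)
  show π (eps i w σ) = eps i (fun I => π (w I)) σ
  unfold eps
  split_ifs
  · rw [map_zsmul]
  · rw [map_zero]

/-- Let `Λ θ` be the linear map sending the basis vector `I` to `mon θ I`. By `wedge_mon` it
intertwines `epsL l` with `wedge (θ l)`. If `θ'` is the inverse matrix, `Λ θ ∘ Λ θ'` intertwines
`epsL l` with itself and fixes `fone`, so it is the identity (`mon_std`). -/
theorem mon_basis {W : Type} [CommRing W] {n : ℕ} {θ : Fin n → Fin n → W}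
    (h : IsUnit (Matrix.of θ).det) :
    LinearIndependent W (mon θ) ∧ Submodule.span W (Set.range (mon θ)) = ⊤ := by
  obtain ⟨θ', h1, h2⟩ := EpsD_inv h
  constructor
  · rw [linearIndependent_iff_injective_fintypeLinearCombination]
    exact Function.LeftInverse.injective (EpsD_lam_lam h1)
  · rw [← Fintype.range_linearCombination, LinearMap.range_eq_top]
    exact Function.RightInverse.surjective (EpsD_lam_lam h2)

theorem lat_flat {Λ W : Type} [CommRing Λ] [CommRing W] [Algebra Λ W] {n : ℕ}
    {S : Subalgebra Λ W} {τ : W} {θ : Fin n → Fin n → W} (hτ : IsUnit τ)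
    (h : IsUnit (Matrix.of θ).det) (hS : Module.Flat Λ S) : Module.Flat Λ (lat S τ θ) := by
  let f : (Finset (Fin n) → S) →ₗ[Λ] Fm W n :=
    (Fintype.linearCombination S fun I => τ • mon θ I).restrictScalars Λ
  have hf : ∀ a, f a = ∑ I, (a I : W) • τ • mon θ I := fun a => rfl
  have hinj : Function.Injective f := by
    refine (injective_iff_map_eq_zero f).2 fun a ha => funext fun I => ?_
    rw [hf] at ha
    simp only [← mul_smul] at ha
    exact Subtype.ext
      (hτ.mul_left_eq_zero.1 (Fintype.linearIndependent_iff.1 (mon_basis h).1 _ ha I))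
  have hr : LinearMap.range f = lat S τ θ := by
    ext w
    rw [EpsD_mem_lat, LinearMap.mem_range]
    simp only [hf]
  have : Module.Flat Λ (Finset (Fin n) → S) := Module.Flat.trans Λ S _
  exact Module.Flat.of_linearEquiv ((LinearEquiv.ofInjective f hinj).trans
    (LinearEquiv.ofEq _ _ hr)).symm

theorem lat_pure {Λ W : Type} [CommRing Λ] [CommRing W] [Algebra Λ W] {n : ℕ}
    {S : Subalgebra Λ W} {τ : W} {θ : Fin n → Fin n → W} (hτ : IsUnit τ)
    (h : IsUnit (Matrix.of θ).det) {z : Ideal Λ} (hS : Pure z (Subalgebra.toSubmodule S)) :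
    Pure z (lat S τ θ) := by
  rintro w ⟨h1, h2⟩
  obtain ⟨a, rfl⟩ := EpsD_mem_lat.1 h1
  obtain ⟨u, rfl⟩ := hτ
  obtain ⟨θ', h5, -⟩ := EpsD_inv h
  refine Submodule.sum_mem _ fun I _ => ?_
  have h3 := EpsD_map_smul (q := ⊤) (((LinearMap.mulRight W ((u⁻¹ : Wˣ) : W)).comp
    ((LinearMap.proj I).comp (Fintype.linearCombination W (mon θ')))).restrictScalars Λ)
    (fun _ _ => Submodule.mem_top) h2
  have h4 : ∑ I, (a I : W) • (u : W) • mon θ I =
      Fintype.linearCombination W (mon θ) fun I => (a I : W) * u := by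
    rw [Fintype.linearCombination_apply]
    simp only [mul_smul]
  rw [LinearMap.restrictScalars_apply, LinearMap.comp_apply, LinearMap.comp_apply, h4,
    EpsD_lam_lam h5, LinearMap.proj_apply,
    LinearMap.mulRight_apply, Units.mul_inv_cancel_right] at h3
  exact EpsD_map_smul ((LinearMap.toSpanSingleton W _ ((u : W) • mon θ I)).restrictScalars Λ)
    (fun x hx => smul_mem_lat hx (Submodule.subset_span ⟨I, rfl⟩)) (hS ⟨(a I).2, h3⟩)

theorem fmap_mon {W W' : Type} [CommRing W] [CommRing W'] {n : ℕ} (π : W →+* W')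
    (θ : Fin n → Fin n → W) (I : Finset (Fin n)) :
    fmap n π (mon θ I) = mon (fun l i => π (θ l i)) I := by
  unfold mon
  induction I.sort (· ≤ ·) with
  | nil =>
    funext σ
    show π (Pi.single (M := fun _ => W) ∅ 1 σ) = Pi.single (M := fun _ => W') ∅ 1 σ
    rw [Pi.single_apply, Pi.single_apply, apply_ite π, map_one, map_zero]
  | cons l L ih =>
    show fmap n π (wedge (θ l) (wl (L.map θ))) =
      wedge (fun i => π (θ l i)) (wl (L.map fun l i => π (θ l i)))
    rw [EpsD_fmap_wedge, ih]

theorem fmap_lat {Λ κ W W' : Type} [CommRing Λ] [CommRing κ] [CommRing W] [CommRing W']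
    [Algebra Λ W] [Algebra κ W'] {n : ℕ} (π : W →+* W') {S : Subalgebra Λ W}
    {S' : Subalgebra κ W'} (hS : (S' : Set W') = π '' (S : Set W)) (τ : W)
    (θ : Fin n → Fin n → W) :
    fmap n π '' (lat S τ θ : Set (Fm W n)) =
      (lat S' (π τ) (fun l i => π (θ l i)) : Set (Fm W' n)) := by
  have key : ∀ a : Finset (Fin n) → W, fmap n π (∑ I, a I • τ • mon θ I) =
      ∑ I, π (a I) • π τ • mon (fun l i => π (θ l i)) I := fun a => by
    rw [map_sum]
    simp only [EpsD_fmap_smul, fmap_mon]
  ext w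
  constructor
  · rintro ⟨v, hv, rfl⟩
    obtain ⟨a, rfl⟩ := EpsD_mem_lat.1 hv
    have h1 : ∀ I, π (a I) ∈ S' := fun I => by
      rw [← SetLike.mem_coe, hS]
      exact ⟨a I, (a I).2, rfl⟩
    exact EpsD_mem_lat.2 ⟨fun I => ⟨π (a I), h1 I⟩, (key fun I => a I).symm⟩
  · intro hw
    obtain ⟨a, rfl⟩ := EpsD_mem_lat.1 hw
    have h1 : ∀ I, ∃ b ∈ S, π b = a I := fun I => by
      have h2 : (a I : W') ∈ π '' (S : Set W) := hS ▸ (a I).2
      exact h2
    choose b hb hb' using h1
    refine ⟨∑ I, b I • τ • mon θ I, EpsD_mem_lat.2 ⟨fun I => ⟨b I, hb I⟩, rfl⟩, ?_⟩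
    rw [key]
    simp only [hb']

theorem fmap_eq_zero_iff {Λ κ W W' : Type} [CommRing Λ] [CommRing κ] [CommRing W] [CommRing W']
    [Algebra Λ W] [Algebra κ W'] {n : ℕ} {χ : Λ →+* κ} {π : W →+* W'} (h : IsRed χ π)
    (w : Fm W n) : fmap n π w = 0 ↔ w ∈ RingHom.ker χ • (⊤ : Submodule Λ (Fm W n)) := by
  constructor
  · intro h0
    rw [← Finset.univ_sum_single w]
    refine Submodule.sum_mem _ fun I _ => ?_
    exact EpsD_map_smul (LinearMap.single Λ (fun _ : Finset (Fin n) => W) I)
      (fun _ _ => Submodule.mem_top) ((h.ker (w I)).1 (congrFun h0 I))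
  · intro h0
    funext I
    exact (h.ker (w I)).2 (EpsD_map_smul (LinearMap.proj (φ := fun _ : Finset (Fin n) => W) I)
      (fun _ _ => Submodule.mem_top) h0)

end

end Pool.Agent.Lib.MP_4287a9_ag
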