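import Pool.Agent.Lib.MP_4287a9_ag.D2

/-!
Etale coordinates: basic consequences.
-/

open scoped TensorProduct ENNReal NNReal nonZeroDivisors Polynomial
open Filter

namespace Pool.Agent.Lib.MP_4287a9_ag

noncomputable section

variable {Λ W : Type} [CommRing Λ] [CommRing W] [Algebra Λ W] {n : ℕ}

theorem etA_ker_nil (R : Type) [CommRing R] :
    IsNilpotent (RingHom.ker (TrivSqZeroExt.fstHom R R R : TrivSqZeroExt R R →+* R)) :=
  ⟨2, TrivSqZeroExt.kerIdeal_sq R R⟩

/-- The ring map `a ↦ (ρ a, δ a)`. -/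
def etA_tw {S R : Type} [CommRing S] [CommRing R] (ρ : S →+* R) (δ : S →+ R)
    (hδ : ∀ a b, δ (a * b) = ρ a * δ b + ρ b * δ a) : S →+* TrivSqZeroExt R R where
  toFun a := TrivSqZeroExt.inl (ρ a) + TrivSqZeroExt.inr (δ a)
  map_one' := by
    have h1 : δ 1 = 0 := by
      have := hδ 1 1
      simp only [mul_one, map_one, one_mul] at this
      exact left_eq_add.mp this
    ext <;> simp [h1]
  map_mul' a b := by
    ext
    · simp
    · simp [hδ, mul_comm]
  map_zero' := by
    ext <;> simp
  map_add' a b := by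
    ext <;> simp

theorem etA_uniq {P S R : Type} [CommRing P] [CommRing S] [CommRing R] (f : P →+* S)
    (hf : f.Etale) (ρ : S →+* R) (δ : S →+ R)
    (hδ : ∀ a b, δ (a * b) = ρ a * δ b + ρ b * δ a) (h0 : ∀ p, δ (f p) = 0) (a : S) :
    δ a = 0 := by
  algebraize [f]
  let g₁ : S →+* TrivSqZeroExt R R := etA_tw ρ 0 (by simp)
  let g₂ : S →+* TrivSqZeroExt R R := etA_tw ρ δ hδ
  let : Algebra P (TrivSqZeroExt R R) := (g₁.comp f).toAlgebra
  let a₁ : S →ₐ[P] TrivSqZeroExt R R := { g₁ with commutes' := fun _ => rfl }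
  let a₂ : S →ₐ[P] TrivSqZeroExt R R :=
    { g₂ with
      commutes' := fun p => by
        change g₂ (f p) = g₁ (f p)
        ext <;> simp [g₁, g₂, etA_tw, h0] }
  have h := Algebra.FormallyUnramified.ext' (R := P)
    (TrivSqZeroExt.fstHom R R R : TrivSqZeroExt R R →+* R) (etA_ker_nil R) a₁ a₂ (fun x => by
      change (g₁ x).fst = (g₂ x).fst
      simp [g₁, g₂, etA_tw])
  have h2 : (g₁ a).snd = (g₂ a).snd := congrArg TrivSqZeroExt.snd (AlgHom.congr_fun h a)
  simpa [g₁, g₂, etA_tw] using h2.symm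

theorem etA_lift {P S : Type} [CommRing P] [CommRing S] (f : P →+* S) (hf : f.Etale)
    (φ : P →+* TrivSqZeroExt S S) (hφ : ∀ p, (φ p).fst = f p) :
    ∃ ψ : S →+* TrivSqZeroExt S S, (∀ s, (ψ s).fst = s) ∧ ∀ p, ψ (f p) = φ p := by
  algebraize [f]
  have hsm : Algebra.FormallySmooth P S := inferInstance
  have key : ∀ (T : Type) [CommRing T] (g : T →+* S) (φ : P →+* T), Function.Surjective g →
      IsNilpotent (RingHom.ker g) → (∀ p, g (φ p) = f p) →
      ∃ ψ : S →+* T, (∀ s, g (ψ s) = s) ∧ ∀ p, ψ (f p) = φ p := by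
    intro T _ g φ hg hn hφ
    let : Algebra P T := φ.toAlgebra
    let g' : T →ₐ[P] S := { g with commutes' := hφ }
    refine ⟨(Algebra.FormallySmooth.liftOfSurjective (AlgHom.id P S) g' hg hn : S →ₐ[P] T),
      fun s => Algebra.FormallySmooth.liftOfSurjective_apply (AlgHom.id P S) g' hg hn s,
      fun p => ?_⟩
    exact (Algebra.FormallySmooth.liftOfSurjective (AlgHom.id P S) g' hg hn).commutes p
  exact key _ (TrivSqZeroExt.fstHom S S S : TrivSqZeroExt S S →+* S) φ
    (fun s => ⟨TrivSqZeroExt.inl s, rfl⟩) (etA_ker_nil S) hφ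

theorem etA_red {P S : Type} [CommRing P] [IsDomain P] [CommRing S] (f : P →+* S)
    (hf : f.Etale) : IsReduced S := by
  algebraize [f]
  have hinj : Function.Injective
      (Algebra.TensorProduct.includeRight : S →ₐ[P] FractionRing P ⊗[P] S) :=
    Algebra.TensorProduct.includeRight_injective (IsFractionRing.injective P (FractionRing P))
  have : IsReduced (FractionRing P ⊗[P] S) :=
    Algebra.FormallyUnramified.isReduced_of_field (FractionRing P) _
  exact isReduced_of_injective _ hinj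

theorem etA_quot {P S P' S' : Type} [CommRing P] [CommRing S] [CommRing P'] [CommRing S']
    (f : P →+* S) (hf : f.Etale) (f' : P' →+* S') (g : P →+* P') (q : S →+* S')
    (hg : Function.Surjective g) (hq : Function.Surjective q)
    (hc : ∀ p, q (f p) = f' (g p)) (hk : RingHom.ker q ≤ (RingHom.ker g).map f) : f'.Etale := by
  algebraize [f, f', g, f'.comp g]
  let q' : S →ₐ[P] S' := { q with commutes' := hc }
  let e : P' ⊗[P] S →ₐ[P'] S' :=
    Algebra.TensorProduct.lift (Algebra.ofId P' S') q' (fun _ _ => Commute.all _ _)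
  have he : ∀ s, e (1 ⊗ₜ s) = q s := fun s => by simp [e, q']
  have hsurj : Function.Surjective
      (Algebra.TensorProduct.includeRight : S →ₐ[P] P' ⊗[P] S) :=
    Algebra.TensorProduct.includeRight_surjective S hg
  have hbij : Function.Bijective e := by
    constructor
    · rw [injective_iff_map_eq_zero]
      intro t ht
      obtain ⟨s, rfl⟩ := hsurj t
      have hs : s ∈ (RingHom.ker g).map f := hk (by
        rw [RingHom.mem_ker, ← he]
        exact ht)
      have : (RingHom.ker g).map f ≤ RingHom.ker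
          (Algebra.TensorProduct.includeRight : S →ₐ[P] P' ⊗[P] S) := by
        rw [Ideal.map_le_iff_le_comap]
        intro p hp
        rw [Ideal.mem_comap, RingHom.mem_ker]
        change Algebra.TensorProduct.includeRight (algebraMap P S p) = 0
        rw [AlgHom.commutes, Algebra.TensorProduct.algebraMap_apply]
        change (g p) ⊗ₜ[P] (1 : S) = 0
        rw [(RingHom.mem_ker).mp hp, TensorProduct.zero_tmul]
      exact this hs
    · intro s'
      obtain ⟨s, rfl⟩ := hq s'
      exact ⟨1 ⊗ₜ s, he s⟩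
  exact Algebra.Etale.of_equiv (AlgEquiv.ofBijective e hbij)

theorem EtC.mem {S : Subalgebra Λ W} {y : Fin n → W} (h : EtC S y) (l : Fin n) : y l ∈ S := by
  exact h.1 l

/-- `S'` is the localization of `S` away from `w`. -/
theorem EtC.of_away {S S' : Subalgebra Λ W} {y : Fin n → W} (h : EtC S y) (hle : S ≤ S') {w : W}
    (hw : w ∈ S) (hu : ∃ w' ∈ S', w * w' = 1) (hs : ∀ z ∈ S', ∃ i : ℕ, w ^ i * z ∈ S) :
    EtC S' y := by
  obtain ⟨hy, he⟩ := h
  refine ⟨fun l => hle (hy l), ?_⟩
  let ι : S →+* S' := (Subalgebra.inclusion hle).toRingHom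
  have hι : ι.Etale := by
    algebraize [ι]
    have : IsLocalization.Away (⟨w, hw⟩ : S) S' := by
      refine IsLocalization.Away.mk _ ?_ ?_ ?_
      · obtain ⟨w', hw', h1⟩ := hu
        exact IsUnit.of_mul_eq_one (⟨w', hw'⟩ : S') (Subtype.ext h1)
      · intro z
        obtain ⟨i, hi⟩ := hs z z.2
        refine ⟨i, ⟨_, hi⟩, Subtype.ext ?_⟩
        change (z : W) * w ^ i = w ^ i * z
        ring
      · intro a b hab
        refine ⟨0, ?_⟩
        rw [Subalgebra.inclusion_injective hle hab]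
    exact Algebra.Etale.of_isLocalizationAway (⟨w, hw⟩ : S)
  have hc := RingHom.Etale.stableUnderComposition _ _ he hι
  have heq : (MvPolynomial.aeval (fun l => (⟨y l, hle (hy l)⟩ : S')) :
      MvPolynomial (Fin n) Λ →ₐ[Λ] S') = (Subalgebra.inclusion hle).comp
        (MvPolynomial.aeval (fun l => (⟨y l, hy l⟩ : S))) := by
    ext l
    simp
  rw [heq]
  exact hc

/-- A twisted derivation that kills `Λ` and the coordinates vanishes: the two ring maps
`a ↦ (ρ a, 0)` and `a ↦ (ρ a, ∂ a)` into `TrivSqZeroExt R R` agree on `Λ[Y]` and modulo a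
square zero ideal (formally unramified). -/
theorem EtC.tw_zero {S : Subalgebra Λ W} {y : Fin n → W} (h : EtC S y) {R : Type} [CommRing R]
    (ρ : S →+* R) (δ : S →+ R) (hδ : ∀ a b, δ (a * b) = ρ a * δ b + ρ b * δ a)
    (h0 : ∀ c : Λ, δ (algebraMap Λ S c) = 0) (hy : ∀ l, δ ⟨y l, h.mem l⟩ = 0) (a : S) :
    δ a = 0 := by
  obtain ⟨hm, he⟩ := h
  refine etA_uniq _ he ρ δ hδ (fun p => ?_) a
  change δ (MvPolynomial.aeval (fun l => (⟨y l, hm l⟩ : S)) p) = 0
  induction p using MvPolynomial.induction_on with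
  | C c => rw [MvPolynomial.aeval_C, h0]
  | add p q hp hq => rw [map_add, map_add, hp, hq, add_zero]
  | mul_X p l hp => rw [map_mul, hδ, hp, MvPolynomial.aeval_X, hy l, mul_zero, mul_zero, add_zero]

/-- Chain rule for twisted derivations. -/
theorem EtC.tw_chain {x : Fin n → W} (h : EtC (⊤ : Subalgebra Λ W) x)
    {D : Fin n → Derivation Λ W W} (hD : DualD D x) {R : Type} [CommRing R] (ρ : W →+* R)
    (δ : W →+ R) (hδ : ∀ a b, δ (a * b) = ρ a * δ b + ρ b * δ a)
    (h0 : ∀ c : Λ, δ (algebraMap Λ W c) = 0) (w : W) : δ w = ∑ i, ρ (D i w) * δ (x i) := by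
  let ι : (⊤ : Subalgebra Λ W) →+* W := (⊤ : Subalgebra Λ W).val.toRingHom
  let δ' : (⊤ : Subalgebra Λ W) →+ R :=
    { toFun := fun a => δ a - ∑ i, ρ (D i a) * δ (x i)
      map_zero' := by simp
      map_add' := fun a b => by
        simp only [Subalgebra.coe_add, map_add, add_mul, Finset.sum_add_distrib]
        ring }
  have hz := h.tw_zero (ρ.comp ι) δ' (fun a b => by
      change δ (a * b) - ∑ i, ρ (D i (a * b)) * δ (x i) =
        ρ a * (δ b - ∑ i, ρ (D i b) * δ (x i)) + ρ b * (δ a - ∑ i, ρ (D i a) * δ (x i))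
      rw [hδ, mul_sub, mul_sub, Finset.mul_sum, Finset.mul_sum]
      have : ∑ i, ρ (D i ((a : W) * b)) * δ (x i) =
          ∑ i, ρ a * (ρ (D i b) * δ (x i)) + ∑ i, ρ b * (ρ (D i a) * δ (x i)) := by
        rw [← Finset.sum_add_distrib]
        refine Finset.sum_congr rfl fun i _ => ?_
        rw [Derivation.leibniz, smul_eq_mul, smul_eq_mul, map_add, map_mul, map_mul]
        ring
      rw [this]
      ring)
    (fun c => by
      change δ (algebraMap Λ W c) - ∑ i, ρ (D i (algebraMap Λ W c)) * δ (x i) = 0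
      simp [h0])
    (fun l => by
      change δ (x l) - ∑ i, ρ (D i (x l)) * δ (x i) = 0
      simp [hD _ l, apply_ite ρ])
    ⟨w, trivial⟩
  exact sub_eq_zero.mp hz

/-- Lift the map `Y l ↦ (y l, v l)` into `TrivSqZeroExt S S` (formally smooth). -/
theorem EtC.exists_derivation {S : Subalgebra Λ W} {y : Fin n → W} (h : EtC S y)
    (v : Fin n → S) : ∃ E : Derivation Λ S S, ∀ l, E ⟨y l, h.mem l⟩ = v l := by
  obtain ⟨hm, he⟩ := h
  let φ : MvPolynomial (Fin n) Λ →ₐ[Λ] TrivSqZeroExt S S :=
    MvPolynomial.aeval fun l => TrivSqZeroExt.inl (⟨y l, hm l⟩ : S) + TrivSqZeroExt.inr (v l)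
  have hφ : (TrivSqZeroExt.fstHom Λ S S).comp φ =
      MvPolynomial.aeval (fun l => (⟨y l, hm l⟩ : S)) := by
    ext l
    simp [φ]
  obtain ⟨ψ, h1, h2⟩ := etA_lift _ he φ.toRingHom (fun p => AlgHom.congr_fun hφ p)
  have h3 : ∀ c : Λ, (ψ (algebraMap Λ S c)).snd = 0 := fun c => by
    have := h2 (MvPolynomial.C c)
    simp only [AlgHom.toRingHom_eq_coe, RingHom.coe_coe, MvPolynomial.algHom_C] at this
    rw [this, TrivSqZeroExt.algebraMap_eq_inl']
    simp
  have h4 : ∀ a b : S, (ψ (a * b)).snd = a * (ψ b).snd + b * (ψ a).snd := fun a b => by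
    rw [map_mul, TrivSqZeroExt.snd_mul, h1, h1]
    simp [mul_comm]
  let L : S →ₗ[Λ] S :=
    { toFun := fun a => (ψ a).snd
      map_add' := fun a b => by simp
      map_smul' := fun c a => by
        rw [Algebra.smul_def, h4, h3, RingHom.id_apply, Algebra.smul_def]
        simp }
  refine ⟨Derivation.mk' L (fun a b => h4 a b), fun l => ?_⟩
  have := h2 (MvPolynomial.X l)
  simp only [AlgHom.toRingHom_eq_coe, RingHom.coe_coe, MvPolynomial.aeval_X, φ] at this
  change (ψ ⟨y l, hm l⟩).snd = v l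
  rw [this]
  simp

/-- `d w` is an `S`-combination of the `d (y l)`: with `E l` dual to `y` on `S`, the map
`w ↦ D w - ∑ l, E l w * D (y l)` vanishes by `tw_zero`. -/
theorem EtC.exists_chain {S : Subalgebra Λ W} {y : Fin n → W} (h : EtC S y) {w : W}
    (hw : w ∈ S) : ∃ a : Fin n → W, (∀ l, a l ∈ S) ∧
      ∀ D : Derivation Λ W W, D w = ∑ l, a l * D (y l) := by
  choose E hE using fun i : Fin n => h.exists_derivation (Pi.single i (1 : S))
  refine ⟨fun l => (E l ⟨w, hw⟩ : S), fun l => (E l ⟨w, hw⟩).2, fun D => ?_⟩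
  let δ' : S →+ W :=
    { toFun := fun a => D a - ∑ i, ((E i a : S) : W) * D (y i)
      map_zero' := by simp
      map_add' := fun a b => by
        simp only [Subalgebra.coe_add, map_add, add_mul, Finset.sum_add_distrib]
        ring }
  have hz := h.tw_zero S.val.toRingHom δ' (fun a b => by
      change D (a * b) - ∑ i, ((E i (a * b) : S) : W) * D (y i) =
        a * (D b - ∑ i, ((E i b : S) : W) * D (y i)) +
          b * (D a - ∑ i, ((E i a : S) : W) * D (y i))
      rw [Derivation.leibniz, mul_sub, mul_sub, Finset.mul_sum, Finset.mul_sum]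
      have : ∑ i, ((E i (a * b) : S) : W) * D (y i) =
          ∑ i, (a : W) * (((E i b : S) : W) * D (y i)) +
            ∑ i, (b : W) * (((E i a : S) : W) * D (y i)) := by
        rw [← Finset.sum_add_distrib]
        refine Finset.sum_congr rfl fun i _ => ?_
        rw [Derivation.leibniz, smul_eq_mul, smul_eq_mul, Subalgebra.coe_add, Subalgebra.coe_mul,
          Subalgebra.coe_mul]
        ring
      rw [this, smul_eq_mul, smul_eq_mul]
      ring)
    (fun c => by
      change D (algebraMap Λ W c) - ∑ i, ((E i (algebraMap Λ S c) : S) : W) * D (y i) = 0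
      simp)
    (fun l => by
      change D (y l) - ∑ i, ((E i ⟨y l, h.mem l⟩ : S) : W) * D (y i) = 0
      rw [Finset.sum_eq_single l]
      · simp [hE]
      · intro i _ hi
        simp [hE, Pi.single_eq_of_ne hi.symm]
      · simp)
    ⟨w, hw⟩
  exact sub_eq_zero.mp hz

theorem EtC.commD {x : Fin n → W} (h : EtC (⊤ : Subalgebra Λ W) x)
    {D : Fin n → Derivation Λ W W} (hD : DualD D x) : CommD D := by
  intro i j w
  let δ : W →+ W :=
    { toFun := fun a => D i (D j a) - D j (D i a)
      map_zero' := by simp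
      map_add' := fun a b => by
        simp only [map_add]
        ring }
  have hx : ∀ l, δ (x l) = 0 := fun l => by
    change D i (D j (x l)) - D j (D i (x l)) = 0
    rw [hD j l, hD i l]
    split_ifs <;> simp
  have hz := h.tw_chain hD (RingHom.id W) δ (fun a b => by
      change D i (D j (a * b)) - D j (D i (a * b)) =
        a * (D i (D j b) - D j (D i b)) + b * (D i (D j a) - D j (D i a))
      simp only [Derivation.leibniz, smul_eq_mul, map_add]
      ring)
    (fun c => by
      change D i (D j (algebraMap Λ W c)) - D j (D i (algebraMap Λ W c)) = 0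
      simp) w
  simp only [hx, mul_zero, Finset.sum_const_zero] at hz
  exact sub_eq_zero.mp hz

theorem EtC.flat {S : Subalgebra Λ W} {y : Fin n → W} (h : EtC S y) : Module.Flat Λ S := by
  obtain ⟨hm, he⟩ := h
  have h1 := (RingHom.Etale.iff_flat_and_formallyUnramified.mp he).1
  have h2 : (algebraMap Λ (MvPolynomial (Fin n) Λ)).Flat :=
    RingHom.flat_algebraMap_iff.mpr inferInstance
  have h3 := h2.comp h1
  have h4 : (MvPolynomial.aeval (fun l => (⟨y l, hm l⟩ : S)) :
      MvPolynomial (Fin n) Λ →ₐ[Λ] S).toRingHom.comp (algebraMap Λ (MvPolynomial (Fin n) Λ)) =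
      algebraMap Λ S := by
    ext c
    simp
  rw [h4] at h3
  exact RingHom.flat_algebraMap_iff.mp h3

/-- `S` is flat over `κ[Y]`, so it embeds in its base change to the fraction field, which is
reduced (`Algebra.FormallyUnramified.isReduced_of_field`). -/
theorem EtC.isReduced {κ W : Type} [Field κ] [CommRing W] [Algebra κ W] {S : Subalgebra κ W}
    {y : Fin n → W} (h : EtC S y) : IsReduced S := by
  obtain ⟨hm, he⟩ := h
  exact etA_red _ he

/-- By purity the kernel of `S → S'` is `z S`, so `S' = κ[Y] ⊗[Λ[Y]] S`. -/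
theorem EtC.map_red {κ W' : Type} [CommRing κ] [CommRing W'] [Algebra κ W'] {χ : Λ →+* κ}
    {π : W →+* W'} (hπ : IsRed χ π) {S : Subalgebra Λ W} {S' : Subalgebra κ W'}
    (hS : (S' : Set W') = π '' (S : Set W))
    (hp : Pure (RingHom.ker χ) (Subalgebra.toSubmodule S)) {y : Fin n → W} (h : EtC S y) :
    EtC S' (fun l => π (y l)) := by
  obtain ⟨hm, he⟩ := h
  have hmem : ∀ s : S, π s ∈ S' := fun s => by
    change π s ∈ (S' : Set W')
    rw [hS]
    exact ⟨s, s.2, rfl⟩
  refine ⟨fun l => hmem ⟨y l, hm l⟩, ?_⟩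
  let q : S →+* S' := (π.comp S.val.toRingHom).codRestrict S' hmem
  have hq : ∀ s : S, ((q s : S') : W') = π s := fun _ => rfl
  refine etA_quot _ he _ (MvPolynomial.map χ) q (MvPolynomial.map_surjective χ hπ.surjχ) ?_ ?_ ?_
  · intro s'
    have : (s' : W') ∈ π '' (S : Set W) := hS ▸ s'.2
    obtain ⟨s, hs, h1⟩ := this
    exact ⟨⟨s, hs⟩, Subtype.ext h1⟩
  · intro p
    change q (MvPolynomial.aeval _ p) = MvPolynomial.aeval _ (MvPolynomial.map χ p)
    induction p using MvPolynomial.induction_on with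
    | C c =>
      rw [MvPolynomial.aeval_C, MvPolynomial.map_C, MvPolynomial.aeval_C]
      exact Subtype.ext (hπ.comm c)
    | add p r hp hr => simp only [map_add, hp, hr]
    | mul_X p l hp =>
      simp only [map_mul, hp, MvPolynomial.aeval_X, MvPolynomial.map_X]
      rfl
  · intro s hs
    have h1 : π s = 0 := by
      rw [← hq, (RingHom.mem_ker).mp hs]
      rfl
    have h2 : (s : W) ∈ RingHom.ker χ • Subalgebra.toSubmodule S := hp ⟨s.2, (hπ.ker s).mp h1⟩
    have h3 : ∀ w ∈ RingHom.ker χ • Subalgebra.toSubmodule S, ∃ t : S, (t : W) = w ∧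
        t ∈ (RingHom.ker (MvPolynomial.map (σ := Fin n) χ)).map
          (MvPolynomial.aeval (fun l => (⟨y l, hm l⟩ : S)) :
            MvPolynomial (Fin n) Λ →ₐ[Λ] S).toRingHom := by
      intro w hw
      refine Submodule.smul_induction_on hw ?_ ?_
      · intro c hc m hmS
        refine ⟨algebraMap Λ S c * ⟨m, hmS⟩, by simp [Algebra.smul_def], ?_⟩
        refine Ideal.mul_mem_right _ _ ?_
        have hC : MvPolynomial.C c ∈ RingHom.ker (MvPolynomial.map (σ := Fin n) χ) := by
          rw [RingHom.mem_ker, MvPolynomial.map_C, (RingHom.mem_ker).mp hc, map_zero]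
        have := Ideal.mem_map_of_mem (MvPolynomial.aeval (fun l => (⟨y l, hm l⟩ : S)) :
            MvPolynomial (Fin n) Λ →ₐ[Λ] S).toRingHom hC
        simpa using this
      · rintro _ _ ⟨t, rfl, ht⟩ ⟨t', rfl, ht'⟩
        exact ⟨t + t', rfl, add_mem ht ht'⟩
    obtain ⟨t, ht, ht'⟩ := h3 _ h2
    rwa [← Subtype.ext ht]

end

end Pool.Agent.Lib.MP_4287a9_ag
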