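import Pool.Agent.Lib.MP_4287a9_ag.PDa
import Pool.Agent.Lib.MP_4287a9_ag.EtA

/-!
Existence of `p`-derivations.
-/

open scoped TensorProduct ENNReal NNReal nonZeroDivisors Polynomial
open Filter

namespace Pool.Agent.Lib.MP_4287a9_ag

noncomputable section

theorem pdb_lift {P S T R : Type} [CommRing P] [CommRing S] [CommRing T] [CommRing R]
    (f : P →+* S) (hf : f.FormallySmooth) (g : T →+* R) (hg : Function.Surjective g)
    (hn : RingHom.ker g ^ 2 = ⊥) (φ : P →+* T) (π : S →+* R) (hφ : ∀ a, g (φ a) = π (f a)) :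
    ∃ ψ : S →+* T, (∀ s, g (ψ s) = π s) ∧ ∀ a, ψ (f a) = φ a := by
  algebraize [f]
  let : Algebra P T := φ.toAlgebra
  let : Algebra P R := (π.comp f).toAlgebra
  let g' : T →ₐ[P] R := { g with commutes' := hφ }
  let π' : S →ₐ[P] R := { π with commutes' := fun _ => rfl }
  have hn' : IsNilpotent (RingHom.ker g) := ⟨2, hn⟩
  exact ⟨(Algebra.FormallySmooth.liftOfSurjective π' g' hg hn' : S →ₐ[P] T),
    fun s => Algebra.FormallySmooth.liftOfSurjective_apply π' g' hg hn' s,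
    fun a => (Algebra.FormallySmooth.liftOfSurjective π' g' hg hn').commutes a⟩

theorem pdb_of_lift {p : ℕ} {A E R : Type} [CommRing A] [CommRing E] [CommRing R] {ρ : E →+* R}
    {δ : E → R} (h : IsPD p ρ δ) (s : A →+* E) {π : A →+* R} (hs : ∀ a, ρ (s a) = π a) :
    IsPD p π (fun a => δ (s a)) :=
  ⟨fun a b => by simp only [map_add, h.1, hs], fun a b => by simp only [map_mul, h.2, hs]⟩

theorem pdb_frac (Λ K : Type) [CommRing Λ] [IsDomain Λ] [CharZero Λ] [Algebra.FiniteType ℤ Λ]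
    [Field K] [Algebra Λ K] [IsFractionRing Λ K] : Algebra.IsSmoothAt ℤ (⊥ : Ideal Λ) := by
  have : CharZero K := charZero_of_injective_algebraMap (IsFractionRing.injective Λ K)
  have : Algebra.EssFiniteType Λ K := .of_isLocalization _ (nonZeroDivisors Λ)
  have : Algebra.EssFiniteType ℤ K := .comp ℤ Λ _
  have : Algebra.EssFiniteType ℚ K := .of_comp ℤ ℚ _
  have : Algebra.FormallySmooth ℚ K := inferInstance
  have : Algebra.FormallySmooth ℤ ℚ := .of_isLocalization (nonZeroDivisors ℤ)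
  have : Algebra.FormallySmooth ℤ K := .comp ℤ ℚ _
  have : IsLocalization (⊥ : Ideal Λ).primeCompl K := by
    rw [Ideal.primeCompl_bot]
    infer_instance
  exact Algebra.FormallySmooth.of_equiv ((IsLocalization.algEquiv (⊥ : Ideal Λ).primeCompl
    K (Localization.AtPrime (⊥ : Ideal Λ))).restrictScalars ℤ)

theorem pdb_smooth (Λ : Type) [CommRing Λ] [IsDomain Λ] [CharZero Λ] [Algebra.FiniteType ℤ Λ] :
    ∃ b : Λ, b ≠ 0 ∧ Algebra.FormallySmooth ℤ (Localization.Away b) := by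
  have h1 : Algebra.FinitePresentation ℤ Λ := Algebra.FinitePresentation.of_finiteType.1 ‹_›
  have h3 : (⟨⊥, Ideal.isPrime_bot⟩ : PrimeSpectrum Λ) ∈ Algebra.smoothLocus ℤ Λ :=
    pdb_frac Λ (FractionRing Λ)
  obtain ⟨_, ⟨_, ⟨b, rfl⟩, rfl⟩, hb, hb'⟩ :=
    PrimeSpectrum.isBasis_basic_opens.exists_subset_of_mem_open h3 Algebra.isOpen_smoothLocus
  exact ⟨b, by simpa using hb, Algebra.basicOpen_subset_smoothLocus_iff.1 hb'⟩

/-- The generic point of `Spec Λ` is in the smooth locus over `ℤ` (the fraction field is formally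
smooth over `ℚ` by `Algebra.FormallySmooth.of_perfectField`), which is open; so some
`Λ[1 / b]` is formally smooth over `ℤ`. Lift `Λ[1 / b] → R` to `W₂(R)`. -/
theorem pd_base (Λ : Type) [CommRing Λ] [IsDomain Λ] [CharZero Λ] [Algebra.FiniteType ℤ Λ] :
    ∃ b : Λ, b ≠ 0 ∧ ∀ p : ℕ, p.Prime → ∀ (R : Type) [CommRing R], (p : R) = 0 →
      ∀ π : Λ →+* R, IsUnit (π b) → ∃ δ : Λ → R, IsPD p π δ := by
  obtain ⟨b, hb, hs⟩ := pdb_smooth Λ
  refine ⟨b, hb, fun p hp R _ hR π hπ => ?_⟩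
  obtain ⟨E, _, ρ, δ, h1, h2, h3, -, -⟩ := exists_W2 hp R hR
  obtain ⟨ψ, h4, -⟩ := pdb_lift (algebraMap ℤ (Localization.Away b))
    (RingHom.formallySmooth_algebraMap.2 hs) ρ h1 h2 (Int.castRingHom E)
    (IsLocalization.Away.lift b hπ) (fun a => by simp)
  refine ⟨_, pdb_of_lift h3 (ψ.comp (algebraMap Λ (Localization.Away b))) fun a => ?_⟩
  rw [RingHom.comp_apply, h4, IsLocalization.Away.lift_eq]

/-- Let `s₀ : Λ → W₂(R)` correspond to `δ₀`, send `Y l` to an element with `ρ = π (y l)`, `δ = 0`,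
and lift `π` along the square zero extension (formally smooth over `Λ[Y]`). -/
theorem pd_etale {p : ℕ} (hp : p.Prime) {Λ W : Type} [CommRing Λ] [CommRing W] [Algebra Λ W]
    {n : ℕ} {S : Subalgebra Λ W} {y : Fin n → W} (h : EtC S y) {R : Type} [CommRing R]
    (hR : (p : R) = 0) (π : S →+* R) {δ0 : Λ → R} (h0 : IsPD p (π.comp (algebraMap Λ S)) δ0) :
    ∃ δ : S → R, IsPD p π δ ∧ (∀ c, δ (algebraMap Λ S c) = δ0 c) ∧
      ∀ l, δ ⟨y l, h.mem l⟩ = 0 := by
  obtain ⟨E, _, ρ, δ, h1, h2, h3, h4, h5⟩ := exists_W2 hp R hR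
  obtain ⟨s0, h6, h7⟩ := h5 Λ _ δ0 h0
  choose x hx hx' using h4
  have he := ((RingHom.etale_iff_formallyUnramified_and_smooth _).1 h.2).2.formallySmooth
  obtain ⟨ψ, h8, h9⟩ := pdb_lift _ he ρ h1 h2
    (MvPolynomial.eval₂Hom s0 fun l => x (π ⟨y l, h.mem l⟩)) π (fun a => by
      induction a using MvPolynomial.induction_on with
      | C c => simp [h6]
      | add a b ha hb => simp only [map_add, ha, hb]
      | mul_X a l ha =>
        simp only [map_mul, ha]
        simp [hx])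
  refine ⟨_, pdb_of_lift h3 ψ h8, fun c => ?_, fun l => ?_⟩
  · have := h9 (MvPolynomial.C c)
    simp only [AlgHom.toRingHom_eq_coe, RingHom.coe_coe, MvPolynomial.aeval_C,
      MvPolynomial.eval₂Hom_C] at this
    simp only [this, h7]
  · have := h9 (MvPolynomial.X l)
    simp only [AlgHom.toRingHom_eq_coe, RingHom.coe_coe, MvPolynomial.aeval_X,
      MvPolynomial.eval₂Hom_X'] at this
    simp only [this, hx']

theorem IsPD.map_one {p : ℕ} {A R : Type} [CommRing A] [CommRing R] {π : A →+* R} {δ : A → R}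
    (h : IsPD p π δ) : δ 1 = 0 := by
  have h1 := h.2 1 1
  simp only [mul_one, _root_.map_one, one_pow, one_mul] at h1
  exact left_eq_add.mp h1

theorem IsPD.comp_left {p : ℕ} {A R R' : Type} [CommRing A] [CommRing R] [CommRing R']
    {π : A →+* R} {δ : A → R} (h : IsPD p π δ) (f : R →+* R') :
    IsPD p (f.comp π) (fun a => f (δ a)) := by
  refine ⟨fun a b => ?_, fun a b => ?_⟩
  · simp only [h.1, map_add, map_Cp, RingHom.comp_apply]
  · simp only [h.2, map_add, map_mul, map_pow, RingHom.comp_apply]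

theorem IsPD.comp_right {p : ℕ} {A' A R : Type} [CommRing A'] [CommRing A] [CommRing R]
    {π : A →+* R} {δ : A → R} (h : IsPD p π δ) (f : A' →+* A) :
    IsPD p (π.comp f) (fun a => δ (f a)) := by
  exact pdb_of_lift h f fun _ => rfl

/-- The difference of two `p`-derivations is a twisted derivation. -/
theorem IsPD.exists_sub {p : ℕ} {A R : Type} [CommRing A] [CommRing R] {π : A →+* R}
    {δ δ' : A → R} (h : IsPD p π δ) (h' : IsPD p π δ') : ∃ η : A →+ R, (∀ a, η a = δ a - δ' a) ∧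
      ∀ a b, η (a * b) = π a ^ p * η b + π b ^ p * η a := by
  refine ⟨AddMonoidHom.mk' (fun a => δ a - δ' a) fun a b => ?_, fun _ => rfl, fun a b => ?_⟩
  · simp only [h.1, h'.1]
    ring
  · simp only [AddMonoidHom.mk'_apply, h.2, h'.2]
    ring

/-- `a ↦ π a ^ (p - 1) D (π a) + D (δ a)` is a twisted derivation. -/
theorem IsPD.exists_zeta {p : ℕ} (hp : p.Prime) {κ A R : Type} [CommRing κ] [CommRing A]
    [CommRing R] [Algebra κ R] (hR : (p : R) = 0) {π : A →+* R} {δ : A → R} (h : IsPD p π δ)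
    (D : Derivation κ R R) : ∃ η : A →+ R, (∀ a, η a = π a ^ (p - 1) * D (π a) + D (δ a)) ∧
      ∀ a b, η (a * b) = π a ^ p * η b + π b ^ p * η a := by
  have h1 : ∀ x : R, D (x ^ p) = 0 := fun x => by
    rw [Derivation.leibniz_pow, nsmul_eq_mul, hR, zero_mul]
  have h2 : ∀ x : R, x ^ p = x ^ (p - 1) * x := fun x => by
    rw [← pow_succ, Nat.sub_add_cancel hp.one_le]
  refine ⟨AddMonoidHom.mk' (fun a => π a ^ (p - 1) * D (π a) + D (δ a)) fun a b => ?_,
    fun _ => rfl, fun a b => ?_⟩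
  · simp only [h.1, map_add, deriv_Cp hp]
    ring
  · simp only [AddMonoidHom.mk'_apply, h.2, map_add, map_mul, Derivation.leibniz, h1,
      smul_eq_mul]
    rw [h2 (π a), h2 (π b)]
    ring

end

end Pool.Agent.Lib.MP_4287a9_ag
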