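import Pool.Agent.Lib.MP_4287a9_ag.LatS
import Pool.Agent.Lib.MP_4287a9_ag.PDb

/-!
Frobenius lifts on the charts.
-/

open scoped TensorProduct ENNReal NNReal nonZeroDivisors Polynomial
open Filter

namespace Pool.Agent.Lib.MP_4287a9_ag

noncomputable section

/-- The construction for an abstract family of charts. -/
theorem f3_gen {p : ℕ} [Fact p.Prime] {Λ W κ W' : Type} [CommRing Λ] [CommRing W] [Algebra Λ W]
    [Field κ] [CharP κ p] [CommRing W'] [Algebra κ W'] {χ : Λ →+* κ} {π : W →+* W'}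
    (hπ : IsRed χ π) {n m : ℕ} {y : Fin m → Fin n → W} {a0 : Fin m}
    {D : Fin n → Derivation Λ W W} (hD : DualD D (y a0))
    (htop : ∀ a, EtC (⊤ : Subalgebra Λ W) (y a)) {D' : Fin n → Derivation κ W' W'}
    (hD' : ∀ i w, D' i (π w) = π (D i w)) {δ0 : Λ → κ} (h0 : IsPD p χ δ0)
    (S : Fin m → Fin m → Subalgebra Λ W) (S' : Fin m → Fin m → Subalgebra κ W')
    (hS : ∀ a c, EtC (S a c) (y a)) (hS' : ∀ a c, ∀ w ∈ S a c, π w ∈ S' a c)
    (tl : Fin m → Fin n → W)
    (htl : ∀ a c l, ∃ v ∈ S a c, ∃ z : W, y c l = v * z ∧ (z = 1 ∨ ∃ l', z = y a l') ∧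
      z * tl c l ∈ S a c) :
    ∃ hh : Fin m → Fin n → W',
      (∀ a l, ∑ i, D' i (π (y a l)) ^ p • zet p D' (fun i => π (y a0 i)) (hh a) i =
        π (y a l) ^ (p - 1) • grad D' (π (y a l))) ∧
      ∀ a c l, (∑ i, D' i (π (y c l)) ^ p * (hh a i - hh c i)) * π (tl c l) ^ p ∈ S' a c := by
  have hp : p.Prime := Fact.out
  rcases subsingleton_or_nontrivial W' with hW | hW
  · exact ⟨0, fun a l => Subsingleton.elim _ _, fun a c l => by
      rw [Subsingleton.elim (_ * _) 0]
      exact zero_mem _⟩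
  have : CharP W' p := charP_of_injective_algebraMap (algebraMap κ W').injective p
  have hR : (p : W') = 0 := CharP.cast_eq_zero W' p
  have hδ : ∀ a, ∃ δ : W → W', IsPD p π δ ∧ (∀ c, δ (algebraMap Λ W c) = algebraMap κ W' (δ0 c)) ∧
      ∀ l, δ (y a l) = 0 := by
    intro a
    have h1 : (π.comp (⊤ : Subalgebra Λ W).val.toRingHom).comp (algebraMap Λ _) =
        (algebraMap κ W').comp χ := RingHom.ext fun c => hπ.comm c
    obtain ⟨δ, g1, g2, g3⟩ := pd_etale hp (htop a) hR (π.comp (⊤ : Subalgebra Λ W).val.toRingHom)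
      (δ0 := fun c => algebraMap κ W' (δ0 c)) (by
        rw [h1]
        exact h0.comp_left _)
    exact ⟨fun w => δ ⟨w, trivial⟩, g1.comp_right (Algebra.toTop : W →ₐ[Λ] _).toRingHom, g2, g3⟩
  choose δ g1 g2 g3 using hδ
  let ρ : W →+* W' := (frobenius W' p).comp π
  refine ⟨fun a i => δ a (y a0 i), fun a l => ?_, fun a c l => ?_⟩
  · funext k
    obtain ⟨η, e1, e2⟩ := (g1 a).exists_zeta hp hR (D' k)
    have h1 := (htop a0).tw_chain hD ρ η e2 (fun c => by
      rw [e1, hπ.comm, g2, Derivation.map_algebraMap, Derivation.map_algebraMap, mul_zero,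
        add_zero]) (y a l)
    rw [e1, g3, map_zero, add_zero] at h1
    simp only [Finset.sum_apply, Pi.smul_apply, smul_eq_mul, grad, zet, Pi.add_apply]
    rw [h1]
    refine Finset.sum_congr rfl fun i _ => ?_
    rw [e1, hD', hD', hD k i]
    congr 2
    by_cases hk : k = i
    · subst hk
      simp
    · simp [hk]
  · obtain ⟨η, e1, e2⟩ := (g1 a).exists_sub (g1 c)
    have h1 := (htop a0).tw_chain hD ρ η e2 (fun c => by rw [e1, g2, g2, sub_self]) (y c l)
    rw [e1, g3, sub_zero] at h1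
    have h2 : ∑ i, D' i (π (y c l)) ^ p * (δ a (y a0 i) - δ c (y a0 i)) = δ a (y c l) := by
      rw [h1]
      refine Finset.sum_congr rfl fun i _ => ?_
      rw [e1, hD']
      rfl
    have h3 : ∀ w ∈ S a c, δ a w ∈ S' a c := by
      let π' : S a c →+* S' a c :=
        (π.comp (S a c).val.toRingHom).codRestrict (S' a c) fun w => hS' a c w w.2
      have hR' : (p : S' a c) = 0 := Subtype.ext hR
      have k1 : π'.comp (algebraMap Λ _) = (algebraMap κ _).comp χ :=
        RingHom.ext fun c => Subtype.ext (hπ.comm c)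
      obtain ⟨δ', k2, k3, k4⟩ := pd_etale hp (hS a c) hR' π'
        (δ0 := fun b => algebraMap κ _ (δ0 b)) (by
          rw [k1]
          exact h0.comp_left _)
      obtain ⟨η', k5, k6⟩ := ((g1 a).comp_right (S a c).val.toRingHom).exists_sub
        (k2.comp_left (S' a c).val.toRingHom)
      intro w hw
      have k7 := (hS a c).tw_zero (ρ.comp (S a c).val.toRingHom) η' k6 (fun b => by
        rw [k5]
        change δ a (algebraMap Λ W b) - (δ' (algebraMap Λ _ b) : W') = 0
        rw [g2, k3]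
        exact sub_self _) (fun l => by
        rw [k5]
        change δ a (y a l) - (δ' ⟨y a l, _⟩ : W') = 0
        rw [g3, k4]
        exact sub_self _) ⟨w, hw⟩
      rw [k5, sub_eq_zero] at k7
      change δ a w = _ at k7
      rw [k7]
      exact (δ' ⟨w, hw⟩).2
    obtain ⟨v, hv, z, e3, hz, hz'⟩ := htl a c l
    have h4 : δ a z = 0 := by
      rcases hz with rfl | ⟨l', rfl⟩
      · exact (g1 a).map_one
      · exact g3 a l'
    rw [h2, e3, (g1 a).2, h4, mul_zero, zero_add, mul_right_comm, ← mul_pow, ← map_mul]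
    exact mul_mem (pow_mem (hS' a c _ hz') p) (h3 v hv)

variable {n : ℕ} {s : Shp n} {W : Type} [CommRing W] {d : RD s W} {Λ : Type} [CommRing Λ]
  [Algebra Λ W] {D : Fin n → Derivation Λ W W}

/-- For each chart `a` let `δ a : W → W'` be the `p`-derivation along `π` extending `δ₀` with
`δ a (y a l) = 0` (`pd_etale` for `⊤`), and `h a i = δ a (x i)`, `x = y a₀`.
`h1`: `IsPD.exists_zeta` and `EtC.tw_chain` (with `ρ = Frobenius ∘ π`).
`h2`: `IsPD.exists_sub` and `tw_chain` give `∑ π (D i (y c l)) ^ p (h a i - h c i) = δ a (y c l)`.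
`δ a` maps `S {a, c}` into its image: compare with the `p`-derivation given by `pd_etale` on
`S {a, c}` using `EtC.tw_zero`. If `y c l = t c i = v * t a i` then
`δ a (y c l) = π (t a i) ^ p * δ a v`. If `W'` is trivial there is nothing to prove. -/
theorem RD.Good.exists_HD {p : ℕ} [Fact p.Prime] (h : d.Good Λ D) {κ W' : Type} [Field κ]
    [CharP κ p] [CommRing W'] [Algebra κ W'] {χ : Λ →+* κ} {π : W →+* W'} (hπ : IsRed χ π)
    {D' : Fin n → Derivation κ W' W'} (hD' : ∀ i w, D' i (π w) = π (D i w)) {δ0 : Λ → κ}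
    (h0 : IsPD p χ δ0) : ∃ hh : Fin s.m → Fin n → W', (d.map π).HD p D' hh := by
  obtain ⟨hh, h1, h2⟩ := f3_gen hπ h.hdual h.etc_top hD' h0 (fun a c => d.S Λ {a, c})
    (fun a c => (d.map π).S κ {a, c}) (fun a c => h.etc_S (Finset.mem_insert_self _ _))
    (fun a c w hw => by
      rw [← SetLike.mem_coe, RD.map_S hπ]
      exact ⟨w, hw, rfl⟩) (fun c l => (((d.tl c l)⁻¹ : Wˣ) : W)) (fun a c l => by
      rcases h.tl_cases c l with ⟨i, -, e1, e2⟩ | ⟨-, e1⟩
      · have h3 := h.hglue a c i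
        rw [← d.S_pair] at h3
        refine ⟨_, h3.2, d.t a i, ?_, ?_, ?_⟩
        · rw [← e2, e1, Units.val_mul, Units.inv_mul_cancel_right]
        · rw [h.ht]
          cases s.lam a i with
          | none => exact Or.inl rfl
          | some l' => exact Or.inr ⟨l', rfl⟩
        · rw [e1]
          exact h3.1
      · refine ⟨_, d.S1_le_S (by simp) ((h.het c).mem l), 1, (mul_one _).symm, Or.inl rfl, ?_⟩
        rw [e1]
        simp)
  refine ⟨hh, h1, fun a c l => ?_⟩
  have h4 : Units.map (π : W →* W') (d.tl c l) = (d.map π).tl c l := by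
    simp only [RD.tl, map_prod]
    rfl
  rw [← h4, Units.val_pow_eq_pow_val]
  exact h2 a c l

end

end Pool.Agent.Lib.MP_4287a9_ag
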