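import Pool.Agent.Lib.MP_4287a9_ag.EtA

/-!
The Frobenius basis and the Cartier operator.
-/

open scoped TensorProduct ENNReal NNReal nonZeroDivisors Polynomial
open Filter

namespace Pool.Agent.Lib.MP_4287a9_ag

noncomputable section

namespace FBAux

theorem add_pow_p {p : ℕ} [hp : Fact p.Prime] {A : Type} [CommRing A] (h : (p : A) = 0)
    (a b : A) : (a + b) ^ p = a ^ p + b ^ p := by
  rw [add_pow_prime_eq hp.out, h]
  simp

theorem sub_pow_p {p : ℕ} [hp : Fact p.Prime] {A : Type} [CommRing A] (h : (p : A) = 0)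
    (a b : A) : (a - b) ^ p = a ^ p - b ^ p := by
  have h1 := add_pow_p h (a - b) b
  rw [sub_add_cancel] at h1
  rw [h1]
  ring

theorem cast_p {p : ℕ} (κ A : Type) [Field κ] [CharP κ p] [CommRing A] [Algebra κ A] :
    (p : A) = 0 := by
  rw [← map_natCast (algebraMap κ A), CharP.cast_eq_zero, map_zero]

/-- An unramified algebra of finite type has no proper subalgebra containing all `p`-th powers. -/
theorem eq_top {p : ℕ} [hp : Fact p.Prime] {P A : Type} [CommRing P] [CommRing A] [Algebra P A]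
    [Algebra.FormallyUnramified P A] [Algebra.FiniteType P A] (h : (p : A) = 0)
    (T : Subalgebra P A) (hT : ∀ a : A, a ^ p ∈ T) (a : A) : a ∈ T := by
  have h1 : Algebra.FormallyUnramified T A := Algebra.FormallyUnramified.of_restrictScalars P T A
  have h2 : Algebra.FiniteType T A := Algebra.FiniteType.of_restrictScalars_finiteType P T A
  have h3 : Algebra.IsIntegral T A := ⟨fun x => IsIntegral.of_pow hp.out.pos
    (isIntegral_algebraMap (R := T) (A := A) (x := ⟨x ^ p, hT x⟩))⟩
  have h4 : Module.Finite T A := Algebra.IsIntegral.finite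
  have h5 : (p : A ⊗[T] A) = 0 := by
    rw [← map_natCast (algebraMap A (A ⊗[T] A)), h, map_zero]
  have h6 : IsNilpotent (KaehlerDifferential.ideal T A) := by
    rw [(KaehlerDifferential.ideal_fg T A).isNilpotent_iff_le_nilradical,
      ← KaehlerDifferential.span_range_eq_ideal, Ideal.span_le]
    rintro _ ⟨x, rfl⟩
    refine mem_nilradical.2 ⟨p, ?_⟩
    rw [sub_pow_p h5, Algebra.TensorProduct.tmul_pow, Algebra.TensorProduct.tmul_pow, one_pow,
      sub_eq_zero]
    have h7 : x ^ p = (⟨x ^ p, hT x⟩ : T) • (1 : A) := by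
      rw [Subalgebra.smul_def, smul_eq_mul, mul_one]
    rw [h7, TensorProduct.smul_tmul]
  have h8 := Algebra.FormallyUnramified.lift_unique (R := T) (A := A) _ h6
    Algebra.TensorProduct.includeRight Algebra.TensorProduct.includeLeft (by
      ext x
      simp only [AlgHom.comp_apply, Ideal.Quotient.mkₐ_eq_mk, Ideal.Quotient.eq]
      exact KaehlerDifferential.one_smul_sub_smul_one_mem_ideal T x)
  have h9 : Algebra.IsEpi T A :=
    (Algebra.isEpi_iff_forall_one_tmul_eq T A).2 fun x => DFunLike.congr_fun h8 x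
  obtain ⟨t, rfl⟩ := Algebra.isEpi_iff_surjective_algebraMap_of_finite.1 h9 a
  exact t.2

/-- The sums `∑ a β ^ p * y ^ β`. -/
def msum (p : ℕ) {A : Type} [CommRing A] {n : ℕ} (y : Fin n → A) (a : (Fin n → Fin p) → A) : A :=
  ∑ β, a β ^ p * ∏ i, y i ^ (β i : ℕ)

theorem msum_add {p : ℕ} [Fact p.Prime] {A : Type} [CommRing A] (h : (p : A) = 0) {n : ℕ}
    (y : Fin n → A) (a b : (Fin n → Fin p) → A) :
    msum p y (a + b) = msum p y a + msum p y b := by
  simp only [msum, Pi.add_apply, add_pow_p h, add_mul, Finset.sum_add_distrib]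

theorem msum_sub {p : ℕ} [Fact p.Prime] {A : Type} [CommRing A] (h : (p : A) = 0) {n : ℕ}
    (y : Fin n → A) (a b : (Fin n → Fin p) → A) :
    msum p y (a - b) = msum p y a - msum p y b := by
  simp only [msum, Pi.sub_apply, sub_pow_p h, sub_mul, Finset.sum_sub_distrib]

theorem msum_smul {p : ℕ} {A : Type} [CommRing A] {n : ℕ}
    (y : Fin n → A) (c : A) (a : (Fin n → Fin p) → A) :
    msum p y (c • a) = c ^ p * msum p y a := by
  simp only [msum, Pi.smul_apply, smul_eq_mul, mul_pow, Finset.mul_sum, mul_assoc]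

theorem msum_single {p : ℕ} [hp : Fact p.Prime] {A : Type} [CommRing A] {n : ℕ}
    (y : Fin n → A) (c : A) (β : Fin n → Fin p) :
    msum p y (Pi.single β c) = c ^ p * ∏ i, y i ^ (β i : ℕ) := by
  unfold msum
  rw [Finset.sum_eq_single β]
  · rw [Pi.single_eq_same]
  · intro γ _ hγ
    rw [Pi.single_eq_of_ne hγ, zero_pow hp.out.ne_zero, zero_mul]
  · intro h
    exact absurd (Finset.mem_univ β) h

theorem msum_mon {p : ℕ} [hp : Fact p.Prime] {A : Type} [CommRing A] {n : ℕ}
    (y : Fin n → A) (c : A) (γ : Fin n → ℕ) : ∃ a, msum p y a = c ^ p * ∏ i, y i ^ γ i := by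
  refine ⟨Pi.single (fun i => ⟨γ i % p, Nat.mod_lt _ hp.out.pos⟩) (c * ∏ i, y i ^ (γ i / p)), ?_⟩
  rw [msum_single, mul_pow, mul_assoc, ← Finset.prod_pow, ← Finset.prod_mul_distrib]
  congr 1
  refine Finset.prod_congr rfl fun i _ => ?_
  rw [← pow_mul, ← pow_add, Nat.div_add_mod']

/-- The sums form a subsemiring. -/
def msub (p : ℕ) [hp : Fact p.Prime] {A : Type} [CommRing A] (h : (p : A) = 0) {n : ℕ}
    (y : Fin n → A) : Subsemiring A where
  carrier := Set.range (msum p y)
  add_mem' := by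
    rintro _ _ ⟨a, rfl⟩ ⟨b, rfl⟩
    exact ⟨a + b, msum_add h y a b⟩
  zero_mem' := ⟨0, by simp [msum, hp.out.ne_zero]⟩
  one_mem' := by simpa using msum_mon (p := p) y 1 0
  mul_mem' := by
    rintro _ _ ⟨a, rfl⟩ ⟨b, rfl⟩
    have h0 : (0 : A) ∈ Set.range (msum p y) := ⟨0, by simp [msum, hp.out.ne_zero]⟩
    have h1 : ∀ u v : A, u ∈ Set.range (msum p y) → v ∈ Set.range (msum p y) →
        u + v ∈ Set.range (msum p y) := by
      rintro _ _ ⟨a, rfl⟩ ⟨b, rfl⟩
      exact ⟨a + b, msum_add h y a b⟩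
    rw [msum, msum, Finset.sum_mul_sum]
    refine Finset.sum_induction _ _ h1 h0 fun β _ => Finset.sum_induction _ _ h1 h0 fun γ _ => ?_
    obtain ⟨c, hc⟩ := msum_mon (p := p) y (a β * b γ) fun i => β i + γ i
    refine ⟨c, ?_⟩
    rw [hc]
    simp only [pow_add, Finset.prod_mul_distrib, mul_pow]
    ring

theorem span_gen {p : ℕ} [hp : Fact p.Prime] {κ A : Type} [Field κ] [Finite κ] [CharP κ p]
    [CommRing A] [Algebra κ A] {n : ℕ} (y : Fin n → A)
    (h : (MvPolynomial.aeval y : MvPolynomial (Fin n) κ →ₐ[κ] A).toRingHom.Etale) (w : A) :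
    ∃ a, msum p y a = w := by
  have hA : (p : A) = 0 := cast_p κ A
  have hpow : ∀ a : A, a ^ p ∈ msub p hA y := fun a => by
    obtain ⟨c, hc⟩ := msum_mon (p := p) y a 0
    exact ⟨c, by simpa using hc⟩
  have hy : ∀ i, y i ∈ msub p hA y := fun i => by
    obtain ⟨c, hc⟩ := msum_mon (p := p) y 1 (Pi.single i 1)
    refine ⟨c, ?_⟩
    rw [hc, one_pow, one_mul, Finset.prod_eq_single i]
    · rw [Pi.single_eq_same, pow_one]
    · intro j _ hj
      rw [Pi.single_eq_of_ne hj, pow_zero]
    · intro h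
      exact absurd (Finset.mem_univ i) h
  have hev : ∀ f : MvPolynomial (Fin n) κ, MvPolynomial.aeval y f ∈ msub p hA y := by
    intro f
    induction f using MvPolynomial.induction_on with
    | C c =>
      obtain ⟨d, rfl⟩ := surjective_frobenius κ p c
      rw [MvPolynomial.algHom_C, frobenius_def, map_pow]
      exact hpow _
    | add f g hf hg =>
      rw [map_add]
      exact add_mem hf hg
    | mul_X f i hf =>
      rw [map_mul, MvPolynomial.aeval_X]
      exact mul_mem hf (hy i)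
  let _ := (MvPolynomial.aeval y : MvPolynomial (Fin n) κ →ₐ[κ] A).toRingHom.toAlgebra
  have het : Algebra.Etale (MvPolynomial (Fin n) κ) A := h
  exact eq_top (P := MvPolynomial (Fin n) κ) hA
    { msub p hA y with algebraMap_mem' := hev } hpow w

theorem eig_indep {κ V ι L : Type} [Field κ] [AddCommGroup V] [Module κ V] [DecidableEq ι]
    (T : L → V →ₗ[κ] V) (μ : L → ι → κ) (hμ : ∀ i j, i ≠ j → ∃ l, μ l i ≠ μ l j)
    (s : Finset ι) : ∀ v : ι → V, (∀ l i, T l (v i) = μ l i • v i) → ∑ i ∈ s, v i = 0 →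
      ∀ i ∈ s, v i = 0 := by
  induction s using Finset.induction_on with
  | empty => intro v _ _ i hi; simp at hi
  | insert a s ha ih =>
    intro v hv hs
    rw [Finset.sum_insert ha] at hs
    have h1 : ∀ i ∈ s, v i = 0 := by
      intro i hi
      obtain ⟨l, hl⟩ := hμ i a (fun e => ha (e ▸ hi))
      have h2 := ih (fun j => (μ l j - μ l a) • v j)
        (fun l' j => by rw [map_smul, hv, smul_comm]) ?_ i hi
      · exact (smul_eq_zero.1 h2).resolve_left (sub_ne_zero.2 hl)
      · have h3 := congrArg (T l) hs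
        rw [map_add, map_sum, map_zero, hv] at h3
        simp only [hv] at h3
        have h4 := congrArg (μ l a • ·) hs
        simp only [smul_add, smul_zero, Finset.smul_sum] at h4
        simp only [sub_smul, Finset.sum_sub_distrib]
        rw [eq_neg_of_add_eq_zero_right h3, eq_neg_of_add_eq_zero_right h4, sub_self]
    intro i hi
    rcases Finset.mem_insert.1 hi with rfl | hi
    · rwa [Finset.sum_eq_zero h1, add_zero] at hs
    · exact h1 i hi

theorem der_prod {κ A ι : Type} [CommRing κ] [CommRing A] [Algebra κ A] (D : Derivation κ A A)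
    (s : Finset ι) (f : ι → A) (h : ∀ i ∈ s, D (f i) = 0) : D (∏ i ∈ s, f i) = 0 := by
  refine Finset.prod_induction f (fun x => D x = 0) (fun a b ha hb => ?_) D.map_one_eq_zero h
  rw [D.leibniz, ha, hb, smul_zero, smul_zero, add_zero]

theorem cancel_pow {p : ℕ} {κ A : Type} [Field κ] [CharP κ p] [CommRing A] [Algebra κ A]
    (D : Derivation κ A A) {c y : A} (hc : D c = 0) (hy : D y = 1) (k : ℕ) (hk : k < p)
    (h : c * y ^ k = 0) : c = 0 := by
  induction k with
  | zero => simpa using h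
  | succ k ih =>
    refine ih (by omega) ?_
    have h1 := congrArg D h
    rw [D.leibniz, hc, smul_zero, add_zero, D.leibniz_pow, hy, map_zero, Nat.add_sub_cancel,
      smul_comm, smul_eq_mul, smul_eq_mul, mul_one, ← Nat.cast_smul_eq_nsmul κ] at h1
    refine (smul_eq_zero.1 h1).resolve_left fun h2 => ?_
    rw [CharP.cast_eq_zero_iff κ p] at h2
    exact absurd (Nat.le_of_dvd (Nat.succ_pos k) h2) (by omega)

theorem cancel_mon {p : ℕ} {κ A : Type} [Field κ] [CharP κ p] [CommRing A] [Algebra κ A] {n : ℕ}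
    (E : Fin n → Derivation κ A A) {y : Fin n → A}
    (hy : ∀ l i, E l (y i) = if l = i then 1 else 0) {c : A} (hc : ∀ l, E l c = 0)
    (β : Fin n → Fin p) (s : Finset (Fin n)) (h : c * ∏ i ∈ s, y i ^ (β i : ℕ) = 0) : c = 0 := by
  induction s using Finset.induction_on with
  | empty => simpa using h
  | insert a s ha ih =>
    refine ih (cancel_pow (p := p) (E a) (y := y a) ?_ (by simp [hy]) (β a) (β a).2 ?_)
    · rw [Derivation.leibniz, hc, smul_zero, add_zero, der_prod, smul_zero]
      intro i hi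
      have h1 : a ≠ i := fun e => ha (e ▸ hi)
      rw [Derivation.leibniz_pow, hy, if_neg h1, smul_zero, smul_zero]
    · rw [Finset.prod_insert ha] at h
      rw [← h]
      ring

theorem euler {κ A : Type} [CommRing κ] [CommRing A] [Algebra κ A] {n : ℕ}
    (E : Fin n → Derivation κ A A) {y : Fin n → A}
    (hy : ∀ l i, E l (y i) = if l = i then 1 else 0) {c : A} (hc : ∀ l, E l c = 0)
    (γ : Fin n → ℕ) (l : Fin n) :
    y l * E l (c * ∏ i, y i ^ γ i) = (γ l : κ) • (c * ∏ i, y i ^ γ i) := by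
  rw [← Finset.mul_prod_erase Finset.univ (fun i => y i ^ γ i) (Finset.mem_univ l),
    Derivation.leibniz, hc, smul_zero, add_zero, Derivation.leibniz, der_prod, smul_zero, zero_add,
    Derivation.leibniz_pow, hy, if_pos rfl, Nat.cast_smul_eq_nsmul]
  · rcases γ l with _ | k
    · simp
    · simp only [Nat.add_sub_cancel, smul_eq_mul, nsmul_eq_mul]
      ring
  · intro i hi
    have h1 : l ≠ i := (Finset.ne_of_mem_erase hi).symm
    rw [Derivation.leibniz_pow, hy, if_neg h1, smul_zero, smul_zero]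

theorem indep_gen {p : ℕ} {κ A : Type} [Field κ] [CharP κ p] [CommRing A] [Algebra κ A] {n : ℕ}
    (E : Fin n → Derivation κ A A) {y : Fin n → A}
    (hy : ∀ l i, E l (y i) = if l = i then 1 else 0) (c : (Fin n → Fin p) → A)
    (hc : ∀ β l, E l (c β) = 0) (h : ∑ β, c β * ∏ i, y i ^ (β i : ℕ) = 0) (β : Fin n → Fin p) :
    c β = 0 := by
  refine cancel_mon E hy (hc β) β Finset.univ ?_
  refine eig_indep (κ := κ) (fun l => (LinearMap.mulLeft κ (y l)).comp (E l).toLinearMap)
    (fun l (γ : Fin n → Fin p) => ((γ l : ℕ) : κ)) (fun γ γ' hγ => ?_) Finset.univ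
    (fun γ => c γ * ∏ i, y i ^ (γ i : ℕ)) (fun l γ => ?_) h β (Finset.mem_univ β)
  · obtain ⟨l, hl⟩ := Function.ne_iff.1 hγ
    refine ⟨l, fun e => hl (Fin.ext ?_)⟩
    exact CharP.natCast_injOn_Iio κ p (γ l).2 (γ' l).2 e
  · exact euler E hy (hc γ) (fun i => γ i) l

end FBAux

/-- Let `S₀ = S ^ p [y]` (it contains `κ`, which is perfect). `S` is finite over `S₀` (finite
type and integral) and formally unramified over `S₀`. The kernel `I` of `S ⊗[S₀] S → S` is
generated by the finitely many nilpotent elements `a ⊗ 1 - 1 ⊗ a` and `I = I ^ 2`, so `I = 0`,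
and `S₀ → S` is surjective (`RingHom.surjective_of_tmul_eq_tmul_of_finite`). -/
theorem EtC.frob_span {p : ℕ} [Fact p.Prime] {κ W : Type} [Field κ] [Finite κ] [CharP κ p]
    [CommRing W] [Algebra κ W] {n : ℕ} {S : Subalgebra κ W} {y : Fin n → W} (h : EtC S y) {w : W}
    (hw : w ∈ S) : ∃ a : (Fin n → Fin p) → W, (∀ β, a β ∈ S) ∧
      w = ∑ β, a β ^ p * ∏ i, y i ^ (β i : ℕ) := by
  obtain ⟨hy, het⟩ := h
  obtain ⟨a, ha⟩ := FBAux.span_gen (p := p) _ het ⟨w, hw⟩
  refine ⟨fun β => a β, fun β => (a β).2, ?_⟩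
  have h1 := congrArg S.val ha
  simpa [FBAux.msum] using h1.symm

/-- Derivations dual to `y` kill `p`-th powers. One variable at a time: if
`∑ j < p, c j * y ^ j = 0` with `E (c j) = 0`, `E y = 1`, then applying `E ^ j` for the largest
`j` gives `j! * c j = 0`. Finally use reducedness. -/
theorem EtC.frob_indep {p : ℕ} [Fact p.Prime] {κ W : Type} [Field κ] [CharP κ p] [CommRing W]
    [Algebra κ W] {n : ℕ} {y : Fin n → W} (h : EtC (⊤ : Subalgebra κ W) y)
    (a : (Fin n → Fin p) → W) (ha : ∑ β, a β ^ p * ∏ i, y i ^ (β i : ℕ) = 0) (β : Fin n → Fin p) :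
    a β = 0 := by
  have hred := h.isReduced
  choose E hE using fun l : Fin n =>
    h.exists_derivation fun i => if l = i then (1 : (⊤ : Subalgebra κ W)) else 0
  have hp : ((p : ℕ) : (⊤ : Subalgebra κ W)) = 0 := FBAux.cast_p κ _
  have h1 := FBAux.indep_gen (p := p) E hE
    (fun γ => (⟨a γ, Algebra.mem_top⟩ : (⊤ : Subalgebra κ W)) ^ p)
    (fun γ l => by rw [Derivation.leibniz_pow, nsmul_eq_mul, hp, zero_mul])
    (Subtype.ext (by simpa using ha)) β
  exact congrArg Subtype.val (IsReduced.eq_zero _ ⟨p, h1⟩)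

theorem EtC.exists_isCar {p : ℕ} [Fact p.Prime] {κ W : Type} [Field κ] [Finite κ] [CharP κ p]
    [CommRing W] [Algebra κ W] {n : ℕ} {y : Fin n → W} (h : EtC (⊤ : Subalgebra κ W) y) :
    ∃ Φ : W →+ W, IsCar p y Φ := by
  have hp : p.Prime := Fact.out
  have hW : (p : W) = 0 := FBAux.cast_p κ W
  choose a _ ha using fun w : W => h.frob_span (p := p) (w := w) Algebra.mem_top
  have ha' : ∀ w, FBAux.msum p y (a w) = w := fun w => (ha w).symm
  have hu : ∀ (w : W) (b : (Fin n → Fin p) → W), FBAux.msum p y b = w → a w = b := by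
    intro w b hb
    funext β
    refine sub_eq_zero.1 (h.frob_indep (a w - b) ?_ β)
    have h1 := FBAux.msum_sub hW y (a w) b
    rw [ha', hb, sub_self] at h1
    exact h1
  let t : Fin n → Fin p := fun _ => ⟨p - 1, Nat.sub_lt hp.pos one_pos⟩
  refine ⟨AddMonoidHom.mk' (fun w => a w t) fun w w' => ?_, fun w z => ?_, fun β => ?_⟩
  · rw [hu (w + w') (a w + a w') (by rw [FBAux.msum_add hW, ha', ha']), Pi.add_apply]
  · rw [AddMonoidHom.mk'_apply,
      hu (w ^ p * z) (w • a z) (by rw [FBAux.msum_smul, ha']), Pi.smul_apply, smul_eq_mul]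
  · rw [AddMonoidHom.mk'_apply,
      hu _ (Pi.single β 1) (by rw [FBAux.msum_single, one_pow, one_mul]), Pi.single_apply]
    refine if_congr ⟨fun e i => ?_, fun e => funext fun i => Fin.ext (e i).symm⟩ rfl rfl
    rw [← e]

end

end Pool.Agent.Lib.MP_4287a9_ag
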