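import Pool.Agent.Lib.MP_4287a9_ag.GDb
import Pool.Agent.Lib.MP_4287a9_ag.CArgA

/-!
Graded global sections of the rank one lattices (compare `CArgA`).
-/

open scoped TensorProduct ENNReal NNReal nonZeroDivisors Polynomial
open Filter

namespace Pool.Agent.Lib.MP_4287a9_ag

noncomputable section

variable {n : ℕ} {s : GShp n} {W₀ : Type} [CommRing W₀] {d : GD s W₀} {Λ : Type} [CommRing Λ]
  [Algebra Λ W₀] {D : Fin n → Derivation Λ (LA W₀ s.ρ) (LA W₀ s.ρ)}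

section aux

variable {W : Type} [CommRing W] [Algebra Λ W] {s' : Shp n}

private theorem gca_div (d : RD s' W) (b : Fin s'.m) {x : W} (hx : x ∈ d.sp Λ d.bg) :
    x * (((d.G b)⁻¹ : Wˣ) : W) ∈ d.S1 Λ b := by
  induction hx using Submodule.span_induction with
  | mem x hx =>
    obtain ⟨i, rfl⟩ := hx
    exact Algebra.subset_adjoin (Or.inr ⟨i, rfl⟩)
  | zero => rw [zero_mul]; exact zero_mem _
  | add x y _ _ hx hy => rw [add_mul]; exact add_mem hx hy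
  | smul t x _ hx =>
    rw [Subalgebra.smul_def, smul_eq_mul, mul_assoc]
    exact mul_mem (d.T_le_S1 b t.2) hx

private theorem gca_div_pow (d : RD s' W) (b : Fin s'.m) (k : ℕ) {x : W}
    (hx : x ∈ d.sp Λ d.bg ^ k) : x * (((d.G b)⁻¹ : Wˣ) : W) ^ k ∈ d.S1 Λ b := by
  induction k generalizing x with
  | zero =>
    rw [pow_zero, Submodule.mem_one] at hx
    obtain ⟨t, rfl⟩ := hx
    rw [pow_zero, mul_one]
    exact d.T_le_S1 b t.2
  | succ k ih =>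
    rw [pow_succ] at hx
    refine Submodule.mul_induction_on hx (fun y hy z hz => ?_) (fun y z hy hz => ?_)
    · rw [pow_succ, mul_mul_mul_comm]
      exact mul_mem (ih hy) (gca_div d b hz)
    · rw [add_mul]; exact add_mem hy hz

private theorem gca_as_pow {S : Subalgebra Λ W} {x y : Wˣ} (h : As S x y) (k : ℕ) :
    As S (x ^ k) (y ^ k) := by
  have h1 := h.zpow (k : ℤ)
  rwa [zpow_natCast, zpow_natCast] at h1

private theorem gca_tr {S : Subalgebra Λ W} {x y : Wˣ} (h : As S x y) {v : W}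
    (hv : v * ((x⁻¹ : Wˣ) : W) ∈ S) : v * ((y⁻¹ : Wˣ) : W) ∈ S := by
  have h1 := mul_mem hv h.1
  rwa [Units.val_mul, mul_assoc, Units.inv_mul_cancel_left] at h1

private theorem gca_mul_le {T : Subalgebra Λ W} (M N : Submodule T W) (c : W)
    (hN : ∀ x ∈ N, c * x ∈ T) {v : W} (hv : v ∈ M * N) : c * v ∈ M := by
  refine Submodule.mul_induction_on hv (fun y hy z hz => ?_) (fun y z hy hz => ?_)
  · have h1 := M.smul_mem ⟨_, hN z hz⟩ hy
    rw [Subalgebra.smul_def, smul_eq_mul] at h1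
    rw [mul_comm y z, ← mul_assoc]
    exact h1
  · rw [mul_add]; exact add_mem hy hz

end aux

private theorem gca_cast {ρ : ℕ} {γ β : Fin ρ → ℤ} {w : LA W₀ ρ} (h : IsDeg γ w) (e : γ = β) :
    IsDeg β w := e ▸ h

private theorem gca_inv {ρ : ℕ} {γ : Fin ρ → ℤ} {x : (LA W₀ ρ)ˣ} (h : IsDeg γ (x : LA W₀ ρ)) :
    IsDeg (-γ) ((x⁻¹ : (LA W₀ ρ)ˣ) : LA W₀ ρ) := h.of_mul_eq_one x.inv_mul

namespace GD

private theorem gca_asG (h : d.Pre Λ) {σ : Finset (Fin s.m)} {a b : Fin s.m} (ha : a ∈ σ)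
    (hb : b ∈ σ) : As (d.B Λ σ) (d.G a) (d.G b) :=
  ⟨d.B1_le_B hb (h.hSB b (h.ratio_mem b a)), d.B1_le_B ha (h.hSB a (h.ratio_mem a b))⟩

/-- Let `θ a` generate the degree zero part of `sig a 1 * B σ` over `S σ` (`hom_sig`, `piece_fg`,
padded to a common length). `serre_lat` with `N = W` and
`L j σ = {v of degree 0 | u ^ j v / sig a (1 + j N) ∈ B σ}`. -/
theorem Amb.gam_serre [IsNoetherianRing Λ] (h : d.Amb Λ D) :
    ∃ (k : ℕ) (θ : Fin s.m → Fin k → LA W₀ s.ρ),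
      (∀ a i, IsDeg 0 (θ a i) ∧
        θ a i * (((d.sig a 1)⁻¹ : (LA W₀ s.ρ)ˣ) : LA W₀ s.ρ) ∈ d.B1 Λ a) ∧
      ∃ i0, ∀ i1, i0 ≤ i1 → ∃ j0, ∀ j, j0 ≤ j → ∀ γ ∈ d.Gam Λ (1 + (j + i1) * s.N),
        γ * ((d.u⁻¹ ^ (j + i1) : (LA W₀ s.ρ)ˣ) : LA W₀ s.ρ) ∈
          d.sp Λ d.bg ^ j * Submodule.span (d.T Λ)
            (Set.range fun x : Fin s.m × Fin k => (d.G x.1 : LA W₀ s.ρ) ^ i1 * θ x.1 x.2) := by
  have := d.T_noeth (Λ := Λ)
  choose δ hδ using fun a => h.hom_sig a 1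
  choose k w hw1 hw2 using fun a => h.toPre.piece_fg a (-δ a)
  let θ : Fin s.m → Fin (∑ a, k a) → LA W₀ s.ρ := fun a i =>
    if hi : (i : ℕ) < k a then (d.sig a 1 : LA W₀ s.ρ) * w a ⟨i, hi⟩ else 0
  have hθ : ∀ a i, IsDeg 0 (θ a i) ∧
      θ a i * (((d.sig a 1)⁻¹ : (LA W₀ s.ρ)ˣ) : LA W₀ s.ρ) ∈ d.B1 Λ a := fun a i => by
    simp only [θ]
    split_ifs with hi
    · refine ⟨gca_cast ((hδ a).mul (hw1 a _).1) (add_neg_cancel _), ?_⟩
      rw [mul_right_comm, Units.mul_inv, one_mul]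
      exact (hw1 a _).2
    · exact ⟨isDeg_zero _, by rw [zero_mul]; exact zero_mem _⟩
  have hG : ∀ a (j : ℕ), IsDeg 0 ((d.G a : LA W₀ s.ρ) ^ j) := fun a j =>
    gca_cast ((h.toPre.deg_G a).pow j) (smul_zero _)
  obtain ⟨i0, h0⟩ := serre_lat (N := LA W₀ s.ρ) s.a0 (d.T Λ) (d.sp Λ d.bg)
    (Submodule.fg_span (Set.finite_range _)) d.G h.hG h.hred (d.S Λ)
    (fun σ hσ w => h.toPre.mem_S_iff hσ w) θ
    (fun j σ => {v | IsDeg 0 v ∧ ∀ a ∈ σ,
      v * (((d.G a ^ j * d.sig a 1)⁻¹ : (LA W₀ s.ρ)ˣ) : LA W₀ s.ρ) ∈ d.B Λ σ}) (by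
      intro j σ a ha
      ext v
      rw [SetLike.mem_coe]
      constructor
      · rintro ⟨h1, h2⟩
        have h3 := hw2 a σ ha _ (h2 a ha) (gca_cast (h1.mul (gca_inv (x := d.G a ^ j * d.sig a 1)
          (γ := 0 + δ a) (by
            rw [Units.val_mul, Units.val_pow_eq_pow_val]; exact (hG a j).mul (hδ a)))) (by simp))
        rw [← Units.inv_mul_cancel_right v (d.G a ^ j * d.sig a 1)]
        generalize v * _ = x at h3
        induction h3 using Submodule.span_induction with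
        | mem x hx =>
          obtain ⟨i, rfl⟩ := hx
          refine Submodule.subset_span ⟨⟨i, i.2.trans_le (Finset.single_le_sum (f := k)
            (fun _ _ => Nat.zero_le _) (Finset.mem_univ a))⟩, ?_⟩
          simp only [θ, i.2, dif_pos, smul_eq_mul, Units.val_mul, Units.val_pow_eq_pow_val]
          ring
        | zero => rw [zero_mul]; exact zero_mem _
        | add x y _ _ hx hy => rw [add_mul]; exact add_mem hx hy
        | smul t x _ hx => rw [smul_mul_assoc]; exact Submodule.smul_mem _ t hx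
      · intro hv
        have h1 : IsDeg 0 v ∧
            v * (((d.G a ^ j * d.sig a 1)⁻¹ : (LA W₀ s.ρ)ˣ) : LA W₀ s.ρ) ∈ d.B Λ σ := by
          induction hv using Submodule.span_induction with
          | mem x hx =>
            obtain ⟨i, rfl⟩ := hx
            refine ⟨gca_cast ((hG a j).mul (hθ a i).1) (add_zero _), ?_⟩
            beta_reduce
            rw [smul_eq_mul, mul_inv, Units.val_mul, mul_mul_mul_comm, ← Units.val_pow_eq_pow_val,
              Units.mul_inv, one_mul]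
            exact d.B1_le_B ha (hθ a i).2
          | zero => exact ⟨isDeg_zero _, by rw [zero_mul]; exact zero_mem _⟩
          | add x y _ _ hx hy => exact ⟨hx.1.add hy.1, by rw [add_mul]; exact add_mem hx.2 hy.2⟩
          | smul t x _ hx =>
            rw [Subalgebra.smul_def, smul_eq_mul, mul_assoc]
            exact ⟨gca_cast ((h.toPre.deg_S σ t.2).mul hx.1) (add_zero _),
              mul_mem (h.toPre.S_le_B σ t.2) hx.2⟩
        refine ⟨h1.1, fun b hb => gca_tr ?_ h1.2⟩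
        refine (gca_as_pow (gca_asG h.toPre ha hb) j).mul ((h.as_sig a b 1).mono (d.B_mono ?_))
        exact Finset.insert_subset ha (Finset.singleton_subset_iff.2 hb))
  refine ⟨_, θ, hθ, i0, fun i1 hi1 => ?_⟩
  obtain ⟨j0, h1⟩ := h0 i1 hi1
  refine ⟨j0, fun j hj γ hγ => ?_⟩
  refine Submodule.span_le.2 ?_ ((h1 j hj).2
    (γ * ((d.u⁻¹ ^ (j + i1) : (LA W₀ s.ρ)ˣ) : LA W₀ s.ρ)) fun a => ⟨?_, fun b hb => ?_⟩)
  · rintro x ⟨b, hb, a, i, rfl⟩
    rw [smul_eq_mul, smul_eq_mul]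
    exact Submodule.mul_mem_mul hb (Submodule.subset_span ⟨(a, i), rfl⟩)
  · rw [Units.val_pow_eq_pow_val]
    refine gca_cast (hγ.1.mul ((gca_inv h.du).pow (j + i1))) ?_
    rw [smul_neg, smul_smul, add_neg_eq_zero]
    congr 1
    push_cast
    ring
  · rw [Finset.mem_singleton.1 hb, d.B_single]
    have h2 := gca_tr (h.toPre.sig_add a 1 (j + i1)) (hγ.2 a)
    have e : (d.sig a 1 * (d.u * d.G a) ^ (j + i1))⁻¹ =
        d.u⁻¹ ^ (j + i1) * (d.G a ^ (j + i1) * d.sig a 1)⁻¹ := by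
      rw [mul_pow, inv_pow, ← mul_inv, mul_comm (d.sig a 1), mul_assoc]
    rwa [e, Units.val_mul, ← mul_assoc] at h2

theorem Good.gam_bound [IsNoetherianRing Λ] (h : d.Good Λ D) :
    ∃ j2 k : ℕ, ∀ J, j2 ≤ J → ∀ γ ∈ d.Gam Λ (1 + J * s.N),
      (d.g : LA W₀ s.ρ) ^ k * γ * ((d.u⁻¹ ^ J : (LA W₀ s.ρ)ˣ) : LA W₀ s.ρ) ∈
        d.sp Λ d.bg ^ (J - j2) := by
  obtain ⟨κ, θ, hθ, i0, h0⟩ := h.toAmb.gam_serre
  obtain ⟨j0, h1⟩ := h0 i0 le_rfl
  choose k hk using fun x : Fin s.m × Fin κ => h.exists_pow_T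
    (w := (d.G x.1 : LA W₀ s.ρ) ^ i0 * θ x.1 x.2)
    (gca_cast (((h.toPre.deg_G x.1).pow i0).mul (hθ x.1 x.2).1) (by simp))
  refine ⟨j0 + i0, ∑ a, k a, fun J hJ γ hγ => ?_⟩
  obtain ⟨c, rfl⟩ := Nat.exists_eq_add_of_le' hJ
  rw [← add_assoc] at hγ
  have h2 := gca_mul_le _ _ ((d.g : LA W₀ s.ρ) ^ ∑ a, k a) (fun x hx => ?_)
    (h1 (c + j0) (Nat.le_add_left _ _) γ hγ)
  · rw [pow_add] at h2
    have h3 := gca_mul_le _ _ 1 (fun x hx => ?_) h2
    · rw [Nat.add_sub_cancel, ← add_assoc, mul_assoc]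
      rwa [one_mul] at h3
    · rw [one_mul]
      exact d.mem_T_of_mem_sp_pow h.bT j0 hx
  · induction hx using Submodule.span_induction with
    | mem x hx =>
      obtain ⟨a, rfl⟩ := hx
      obtain ⟨e, he⟩ := Nat.exists_eq_add_of_le'
        (Finset.single_le_sum (f := k) (fun _ _ => Nat.zero_le _) (Finset.mem_univ a))
      rw [he, pow_add, mul_assoc]
      exact mul_mem (pow_mem h.gT e) (hk a)
    | zero => rw [mul_zero]; exact zero_mem _
    | add x y _ _ hx hy => rw [mul_add]; exact add_mem hx hy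
    | smul t x _ hx =>
      rw [Subalgebra.smul_def, smul_eq_mul, mul_left_comm]
      exact mul_mem t.2 hx

theorem Pre.mul_mem_Gam (h : d.Pre Λ) {q k : ℕ} {γ b : LA W₀ s.ρ} (hγ : γ ∈ d.Gam Λ q)
    (hb : b ∈ d.sp Λ d.bg ^ k) : (d.u : LA W₀ s.ρ) ^ k * b * γ ∈ d.Gam Λ (q + k * s.N) := by
  refine ⟨gca_cast (((h.du.pow k).mul (h.deg_T (d.mem_T_of_mem_sp_pow h.bT k hb))).mul hγ.1) ?_,
    fun a => ?_⟩
  · rw [add_zero, smul_smul, ← add_smul]
    congr 1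
    push_cast
    ring
  refine gca_tr (h.sig_add a q k).symm ?_
  have h1 := mul_mem (h.hSB a (gca_div_pow d.toRD a k hb)) (hγ.2 a)
  have e : (d.u : LA W₀ s.ρ) ^ k *
      (((d.sig a q * (d.u * d.G a) ^ k)⁻¹ : (LA W₀ s.ρ)ˣ) : LA W₀ s.ρ) =
      (((d.G a)⁻¹ : (LA W₀ s.ρ)ˣ) : LA W₀ s.ρ) ^ k *
        (((d.sig a q)⁻¹ : (LA W₀ s.ρ)ˣ) : LA W₀ s.ρ) := by
    rw [← Units.val_pow_eq_pow_val, ← Units.val_pow_eq_pow_val, ← Units.val_mul, ← Units.val_mul,
      mul_pow, mul_left_comm, mul_inv, mul_inv_cancel_left, mul_inv, inv_pow, mul_comm]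
  rw [mul_assoc _ b, mul_right_comm, e, mul_comm]
  rwa [mul_mul_mul_comm] at h1

theorem Amb.exists_ext (h : d.Amb Λ D) (a : Fin s.m) (q : ℕ) {w : LA W₀ s.ρ}
    (hw : w ∈ d.B1 Λ a) (hdeg : IsDeg (((q : ℤ) - 1) • s.δ) ((d.sig a q : LA W₀ s.ρ) * w)) :
    ∃ i0, ∀ i, i0 ≤ i → (((d.u * d.G a) ^ i * d.sig a q : (LA W₀ s.ρ)ˣ) : LA W₀ s.ρ) * w ∈
      d.Gam Λ (q + i * s.N) := by
  have key : ∀ b, ∃ i : ℕ, ((d.G a * (d.G b)⁻¹ : (LA W₀ s.ρ)ˣ) : LA W₀ s.ρ) ^ i *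
      (((d.sig a q * (d.sig b q)⁻¹ : (LA W₀ s.ρ)ˣ) : LA W₀ s.ρ) * w) ∈ d.B1 Λ b := by
    intro b
    rcases eq_or_ne a b with rfl | hab
    · exact ⟨0, by rwa [pow_zero, one_mul, mul_inv_cancel, Units.val_one, one_mul]⟩
    obtain ⟨i, hi⟩ := h.toPre.exists_pow_B (σ := {a, b}) (a := b) (by simp)
      (mul_mem (h.as_sig a b q).1 (d.B1_le_B (Finset.mem_insert_self a {b}) hw))
    refine ⟨i, ?_⟩
    rwa [Finset.prod_pair hab, mul_inv_cancel, mul_one, Units.val_pow_eq_pow_val] at hi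
  choose k hk using key
  refine ⟨∑ b, k b, fun i hi => ⟨?_, fun b => gca_tr (h.toPre.sig_add b q i).symm ?_⟩⟩
  · rw [Units.val_mul, mul_assoc, Units.val_pow_eq_pow_val, Units.val_mul]
    refine gca_cast (((h.du.mul (h.toPre.deg_G a)).pow i).mul hdeg) ?_
    rw [add_zero, smul_smul, ← add_smul]
    congr 1
    push_cast
    ring
  obtain ⟨e, rfl⟩ := Nat.exists_eq_add_of_le' ((Finset.single_le_sum (f := k)
    (fun _ _ => Nat.zero_le _) (Finset.mem_univ b)).trans hi)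
  have h2 := mul_mem (pow_mem (h.hSB b (h.toPre.ratio_mem b a)) e) (hk b)
  rw [← mul_assoc, ← pow_add, ← mul_assoc, ← Units.val_pow_eq_pow_val, ← Units.val_mul] at h2
  have e1 : (d.u * d.G a) ^ (e + k b) * d.sig a q * (d.sig b q * (d.u * d.G b) ^ (e + k b))⁻¹ =
      (d.G a * (d.G b)⁻¹) ^ (e + k b) * (d.sig a q * (d.sig b q)⁻¹) := by
    rw [mul_comm (d.sig b q), mul_inv, mul_mul_mul_comm, ← inv_pow, ← mul_pow, mul_inv,
      mul_mul_mul_comm d.u, mul_inv_cancel, one_mul]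
  rw [mul_right_comm, ← Units.val_mul, e1]
  exact h2

end GD

end

end Pool.Agent.Lib.MP_4287a9_ag
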