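import Pool.Agent.Lib.MP_4287a9_ag.D2

/-!
Witt vectors of length two and `p`-derivations.
-/

open scoped TensorProduct ENNReal NNReal nonZeroDivisors Polynomial
open Filter

namespace Pool.Agent.Lib.MP_4287a9_ag

noncomputable section

/-- The identity `p * Cp a b = a ^ p + b ^ p - (a + b) ^ p` in any commutative ring. -/
theorem mul_Cp {p : ℕ} (hp : p.Prime) {R : Type} [CommRing R] (a b : R) :
    (p : R) * Cp p a b = a ^ p + b ^ p - (a + b) ^ p := by
  have h : ∑ i ∈ Finset.Ioo 0 p, ((p.choose i / p : ℕ) : R) * a ^ i * b ^ (p - i) =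
      ∑ k ∈ Finset.Ioo 0 p, a ^ k * b ^ (p - k) * ((p.choose k / p : ℕ) : R) :=
    Finset.sum_congr rfl fun i _ => by ring
  rw [add_pow_prime_eq' hp a b, Cp, h]
  ring

theorem map_Cp (p : ℕ) {R R' : Type} [CommRing R] [CommRing R'] (f : R →+* R') (a b : R) :
    f (Cp p a b) = Cp p (f a) (f b) := by
  simp only [Cp, map_neg, map_sum, map_mul, map_pow, map_natCast]

/-- the formal derivative of `Cp` -/
def pdaE (p : ℕ) {R : Type} [CommRing R] (a b u v : R) : R :=
  -∑ i ∈ Finset.Ioo 0 p, ((p.choose i / p : ℕ) : R) *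
    (a ^ i * (((p - i : ℕ) : R) * (b ^ (p - i - 1) * v)) +
      b ^ (p - i) * ((i : R) * (a ^ (i - 1) * u)))

theorem pda_map_E (p : ℕ) {R R' : Type} [CommRing R] [CommRing R'] (f : R →+* R')
    (a b u v : R) : f (pdaE p a b u v) = pdaE p (f a) (f b) (f u) (f v) := by
  simp only [pdaE, map_neg, map_sum, map_mul, map_add, map_pow, map_natCast]

theorem pda_deriv_E (p : ℕ) {Λ R : Type} [CommRing Λ] [CommRing R] [Algebra Λ R]
    (D : Derivation Λ R R) (a b : R) : D (Cp p a b) = pdaE p a b (D a) (D b) := by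
  rw [Cp, pdaE, map_neg, map_sum]
  congr 1
  refine Finset.sum_congr rfl fun i _ => ?_
  rw [mul_assoc, Derivation.leibniz, Derivation.map_natCast, Derivation.leibniz,
    Derivation.leibniz_pow, Derivation.leibniz_pow]
  simp only [smul_eq_mul, nsmul_eq_mul, mul_zero, add_zero]

theorem pda_deriv_dom {p : ℕ} (hp : p.Prime) {Λ R : Type} [CommRing Λ] [CommRing R]
    [Algebra Λ R] [IsDomain R] [CharZero R] (D : Derivation Λ R R) (a b : R) :
    D (Cp p a b) = a ^ (p - 1) * D a + b ^ (p - 1) * D b - (a + b) ^ (p - 1) * D (a + b) := by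
  have hp0 : (p : R) ≠ 0 := Nat.cast_ne_zero.2 hp.ne_zero
  apply mul_left_cancel₀ hp0
  have h := congrArg D (mul_Cp hp a b)
  rw [Derivation.leibniz, Derivation.map_natCast, map_sub, D.map_add (a ^ p),
    Derivation.leibniz_pow, Derivation.leibniz_pow, Derivation.leibniz_pow] at h
  simp only [smul_eq_mul, nsmul_eq_mul, mul_zero, add_zero] at h
  rw [h]
  ring

theorem pda_E_eq {p : ℕ} (hp : p.Prime) {R : Type} [CommRing R] (a b u v : R) :
    pdaE p a b u v = a ^ (p - 1) * u + b ^ (p - 1) * v - (a + b) ^ (p - 1) * (u + v) := by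
  let D : Derivation ℤ (MvPolynomial (Fin 4) ℤ) (MvPolynomial (Fin 4) ℤ) :=
    MvPolynomial.mkDerivation ℤ ![MvPolynomial.X 2, MvPolynomial.X 3, 0, 0]
  have h0 : D (MvPolynomial.X 0) = MvPolynomial.X 2 := MvPolynomial.mkDerivation_X _ _ _
  have h1 : D (MvPolynomial.X 1) = MvPolynomial.X 3 := MvPolynomial.mkDerivation_X _ _ _
  have h := pda_deriv_dom hp D (MvPolynomial.X 0) (MvPolynomial.X 1)
  rw [pda_deriv_E, D.map_add, h0, h1] at h
  have h2 := congrArg (MvPolynomial.eval₂Hom (Int.castRingHom R) ![a, b, u, v]) h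
  rw [pda_map_E] at h2
  simpa only [map_sub, map_add, map_mul, map_pow, MvPolynomial.eval₂Hom_X', Matrix.cons_val_zero,
    Matrix.cons_val_one, Matrix.cons_val] using h2

/-- Prove it in `MvPolynomial (Fin 2) ℤ`-style universal form (cancel `p`), then specialize:
`D (Cp a b) = C₁(a, b) D a + C₂(a, b) D b`. -/
theorem deriv_Cp {p : ℕ} (hp : p.Prime) {Λ R : Type} [CommRing Λ] [CommRing R] [Algebra Λ R]
    (D : Derivation Λ R R) (a b : R) :
    D (Cp p a b) = a ^ (p - 1) * D a + b ^ (p - 1) * D b - (a + b) ^ (p - 1) * D (a + b) := by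
  rw [pda_deriv_E, pda_E_eq hp, D.map_add]

theorem pda_cocycle {p : ℕ} (hp : p.Prime) {R : Type} [CommRing R] (a b c : R) :
    Cp p a b + Cp p (a + b) c = Cp p b c + Cp p a (b + c) := by
  have h : Cp p (MvPolynomial.X 0 : MvPolynomial (Fin 3) ℤ) (MvPolynomial.X 1) +
      Cp p (MvPolynomial.X 0 + MvPolynomial.X 1) (MvPolynomial.X 2) =
      Cp p (MvPolynomial.X 1) (MvPolynomial.X 2) +
      Cp p (MvPolynomial.X 0) (MvPolynomial.X 1 + MvPolynomial.X 2) := by
    have hp0 : ((p : ℕ) : MvPolynomial (Fin 3) ℤ) ≠ 0 := Nat.cast_ne_zero.2 hp.ne_zero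
    apply mul_left_cancel₀ hp0
    rw [mul_add, mul_add, mul_Cp hp, mul_Cp hp, mul_Cp hp, mul_Cp hp, add_assoc (MvPolynomial.X 0)]
    ring
  have h2 := congrArg (MvPolynomial.eval₂Hom (Int.castRingHom R) ![a, b, c]) h
  simpa only [map_add, map_Cp, MvPolynomial.eval₂Hom_X', Matrix.cons_val_zero,
    Matrix.cons_val_one, Matrix.cons_val] using h2

theorem pda_zero_left (p : ℕ) {R : Type} [CommRing R] (b : R) : Cp p 0 b = 0 := by
  rw [Cp, neg_eq_zero]
  refine Finset.sum_eq_zero fun i hi => ?_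
  rw [zero_pow (Finset.mem_Ioo.1 hi).1.ne', mul_zero, zero_mul]

theorem pda_smul (p : ℕ) {R : Type} [CommRing R] (c a b : R) :
    Cp p (c * a) (c * b) = c ^ p * Cp p a b := by
  rw [Cp, Cp, mul_neg, Finset.mul_sum]
  congr 1
  refine Finset.sum_congr rfl fun i hi => ?_
  have hc : c ^ p = c ^ i * c ^ (p - i) := by
    rw [← pow_add, Nat.add_sub_cancel' (Finset.mem_Ioo.1 hi).2.le]
  rw [hc, mul_pow, mul_pow]
  ring

theorem pda_frob {p : ℕ} (hp : p.Prime) {R : Type} [CommRing R] (hR : (p : R) = 0) (a b : R) :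
    (a + b) ^ p = a ^ p + b ^ p := by
  rw [add_pow_prime_eq' hp a b, hR, zero_mul, add_zero]

/-- pairs, the carrier of the ring of Witt vectors of length two -/
structure PdaW (R : Type) where
  fst : R
  snd : R

theorem pda_ext {R : Type} {x y : PdaW R} (h1 : x.fst = y.fst) (h2 : x.snd = y.snd) : x = y := by
  cases x
  cases y
  simp only at h1 h2
  rw [h1, h2]

/-- the ring structure -/
abbrev pdaRing {p : ℕ} (hp : p.Prime) (R : Type) [CommRing R] (hR : (p : R) = 0) :
    CommRing (PdaW R) :=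
  @CommRing.ofMinimalAxioms (PdaW R)
    ⟨fun x y => ⟨x.fst + y.fst, x.snd + y.snd + Cp p x.fst y.fst⟩⟩
    ⟨fun x y => ⟨x.fst * y.fst, x.fst ^ p * y.snd + y.fst ^ p * x.snd⟩⟩
    ⟨fun x => ⟨-x.fst, -x.snd - Cp p (-x.fst) x.fst⟩⟩ ⟨⟨0, 0⟩⟩ ⟨⟨1, 0⟩⟩
    (fun x y z => pda_ext (add_assoc _ _ _) (by
      show x.snd + y.snd + Cp p x.fst y.fst + z.snd + Cp p (x.fst + y.fst) z.fst =
        x.snd + (y.snd + z.snd + Cp p y.fst z.fst) + Cp p x.fst (y.fst + z.fst)
      linear_combination pda_cocycle hp x.fst y.fst z.fst))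
    (fun x => pda_ext (zero_add _) (by
      show 0 + x.snd + Cp p 0 x.fst = x.snd
      rw [pda_zero_left, zero_add, add_zero]))
    (fun x => pda_ext (neg_add_cancel _) (by
      show -x.snd - Cp p (-x.fst) x.fst + x.snd + Cp p (-x.fst) x.fst = 0
      ring))
    (fun x y z => pda_ext (mul_assoc _ _ _) (by
      show (x.fst * y.fst) ^ p * z.snd + z.fst ^ p * (x.fst ^ p * y.snd + y.fst ^ p * x.snd) =
        x.fst ^ p * (y.fst ^ p * z.snd + z.fst ^ p * y.snd) + (y.fst * z.fst) ^ p * x.snd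
      rw [mul_pow, mul_pow]
      ring))
    (fun x y => pda_ext (mul_comm _ _) (add_comm _ _))
    (fun x => pda_ext (one_mul _) (by
      show 1 ^ p * x.snd + x.fst ^ p * 0 = x.snd
      rw [one_pow, one_mul, mul_zero, add_zero]))
    (fun x y z => pda_ext (mul_add _ _ _) (by
      show x.fst ^ p * (y.snd + z.snd + Cp p y.fst z.fst) + (y.fst + z.fst) ^ p * x.snd =
        x.fst ^ p * y.snd + y.fst ^ p * x.snd + (x.fst ^ p * z.snd + z.fst ^ p * x.snd) +
          Cp p (x.fst * y.fst) (x.fst * z.fst)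
      rw [pda_smul, pda_frob hp hR]
      ring))

/-- The ring `W₂(R)`: pairs with `(a, x) + (b, y) = (a + b, x + y + Cp a b)` and
`(a, x) (b, y) = (a b, a ^ p y + b ^ p x)`. The ring axioms follow from identities for `Cp` that
are proved in polynomial rings over `ℤ` by cancelling `p` (cocycle identity, symmetry,
`Cp (c a) (c b) = c ^ p Cp a b`, `Cp a 0 = 0`) and from additivity of Frobenius in `R`.
One may also use `TruncatedWittVector p 2 R`. -/
theorem exists_W2 {p : ℕ} (hp : p.Prime) (R : Type) [CommRing R] (hR : (p : R) = 0) :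
    ∃ (E : Type) (_ : CommRing E) (ρ : E →+* R) (δ : E → R), Function.Surjective ρ ∧
      RingHom.ker ρ ^ 2 = ⊥ ∧ IsPD p ρ δ ∧ (∀ a : R, ∃ x : E, ρ x = a ∧ δ x = 0) ∧
      ∀ (A : Type) [CommRing A] (π : A →+* R) (δ' : A → R), IsPD p π δ' →
        ∃ s : A →+* E, (∀ a, ρ (s a) = π a) ∧ ∀ a, δ (s a) = δ' a := by
  let _i : CommRing (PdaW R) := pdaRing hp R hR
  let ρ : PdaW R →+* R :=
    { toFun := PdaW.fst
      map_one' := rfl
      map_mul' := fun _ _ => rfl
      map_zero' := rfl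
      map_add' := fun _ _ => rfl }
  refine ⟨PdaW R, inferInstance, ρ, PdaW.snd, fun a => ⟨⟨a, 0⟩, rfl⟩, ?_,
    ⟨fun _ _ => rfl, fun _ _ => rfl⟩, fun a => ⟨⟨a, 0⟩, rfl, rfl⟩, ?_⟩
  · rw [sq, eq_bot_iff, Ideal.mul_le]
    intro x hx y hy
    have hx' : x.fst = 0 := hx
    have hy' : y.fst = 0 := hy
    rw [Ideal.mem_bot]
    refine pda_ext ?_ ?_
    · show x.fst * y.fst = 0
      rw [hx', zero_mul]
    · show x.fst ^ p * y.snd + y.fst ^ p * x.snd = 0
      rw [hx', hy', zero_pow hp.ne_zero, zero_mul, zero_mul, add_zero]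
  · intro A _ π δ' hδ
    have h1 : δ' 1 = 0 := by
      have h := hδ.2 1 1
      rw [mul_one, map_one, one_pow, one_mul] at h
      linear_combination -h
    have h0 : δ' 0 = 0 := by
      have h := hδ.1 0 0
      rw [add_zero, map_zero, pda_zero_left, add_zero] at h
      linear_combination -h
    exact ⟨{ toFun := fun a => ⟨π a, δ' a⟩
             map_one' := pda_ext (map_one π) h1
             map_mul' := fun a b => pda_ext (map_mul π a b) (hδ.2 a b)
             map_zero' := pda_ext (map_zero π) h0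
             map_add' := fun a b => pda_ext (map_add π a b) (hδ.1 a b) },
      fun _ => rfl, fun _ => rfl⟩

end

end Pool.Agent.Lib.MP_4287a9_ag
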