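import Pool.Agent.Lib.MP_4287a9_ag.GrA
import Pool.Agent.Lib.MP_4287a9_ag.CartB
import Pool.Agent.Lib.MP_4287a9_ag.PDa

/-!
The Cartier operator and the grading; change of coordinates without lifts.
-/

open scoped TensorProduct ENNReal NNReal nonZeroDivisors Polynomial
open Filter

namespace Pool.Agent.Lib.MP_4287a9_ag

noncomputable section

/-- The coordinatewise form of `exists_pot`. -/
def GrCPot (p : ℕ) {κ W : Type} [CommRing κ] [CommRing W] [Algebra κ W] {n : ℕ} (x : Fin n → W)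
    (D : Fin n → Derivation κ W W) (w : W) : Prop :=
  ∃ g : W, ∀ l, w ^ (p - 1) * D l w = D l w ^ p * x l ^ (p - 1) + D l g

theorem GrC_pot_const {p : ℕ} (hp : p.Prime) {κ W : Type} [CommRing κ] [CommRing W] [Algebra κ W]
    {n : ℕ} (x : Fin n → W) {D : Fin n → Derivation κ W W} {w : W} (hw : ∀ l, D l w = 0) :
    GrCPot p x D w :=
  ⟨0, fun l => by rw [hw l, zero_pow hp.ne_zero, map_zero, mul_zero, zero_mul, add_zero]⟩

theorem GrC_deriv_pow {p : ℕ} {κ W : Type} [CommRing κ] [CommRing W] [Algebra κ W]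
    (hW : (p : W) = 0) (D : Derivation κ W W) (a : W) : D (a ^ p) = 0 := by
  rw [Derivation.leibniz_pow, nsmul_eq_mul, hW, zero_mul]

theorem GrC_pot_add {p : ℕ} (hp : p.Prime) {κ W : Type} [CommRing κ] [CommRing W] [Algebra κ W]
    (hW : (p : W) = 0) {n : ℕ} {x : Fin n → W} {D : Fin n → Derivation κ W W} {a b : W}
    (ha : GrCPot p x D a) (hb : GrCPot p x D b) : GrCPot p x D (a + b) := by
  obtain ⟨g, hg⟩ := ha
  obtain ⟨g', hg'⟩ := hb
  refine ⟨g + g' - Cp p a b, fun l => ?_⟩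
  have h1 := deriv_Cp hp (D l) a b
  rw [map_sub, (D l).map_add g g', h1, (D l).map_add a b, pda_frob hp hW]
  linear_combination hg l + hg' l

theorem GrC_pot_mul {p : ℕ} (hp : p.Prime) {κ W : Type} [CommRing κ] [CommRing W] [Algebra κ W]
    (hW : (p : W) = 0) {n : ℕ} {x : Fin n → W} {D : Fin n → Derivation κ W W} {a b : W}
    (ha : GrCPot p x D a) (hb : GrCPot p x D b) : GrCPot p x D (a * b) := by
  obtain ⟨g, hg⟩ := ha
  obtain ⟨g', hg'⟩ := hb
  refine ⟨a ^ p * g' + b ^ p * g, fun l => ?_⟩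
  have ea : a ^ p = a ^ (p - 1) * a := (pow_sub_one_mul hp.ne_zero a).symm
  have eb : b ^ p = b ^ (p - 1) * b := (pow_sub_one_mul hp.ne_zero b).symm
  rw [map_add, (D l).leibniz (a ^ p), (D l).leibniz (b ^ p), GrC_deriv_pow hW, GrC_deriv_pow hW,
    (D l).leibniz a b]
  simp only [smul_eq_mul]
  rw [pda_frob hp hW, mul_pow, mul_pow, mul_pow]
  linear_combination a ^ p * hg' l + b ^ p * hg l - b ^ (p - 1) * D l b * ea -
    a ^ (p - 1) * D l a * eb

/-- The map `w ↦ w ^ (p - 1) d w - ∑ i, (D i w) ^ p x i ^ (p - 1) d x i` takes values in exact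
forms: modulo exact forms it is additive (`deriv_Cp`), satisfies the twisted Leibniz rule, and
vanishes on the `x i` and on `p`-th powers; use `EtC.frob_span`. -/
theorem exists_pot {p : ℕ} [Fact p.Prime] {κ W : Type} [Field κ] [Finite κ] [CharP κ p]
    [CommRing W] [Algebra κ W] {n : ℕ} {x : Fin n → W} (h : EtC (⊤ : Subalgebra κ W) x)
    {D : Fin n → Derivation κ W W} (hD : DualD D x) (w : W) : ∃ g : W,
      w ^ (p - 1) • grad D w =
        ∑ i, D i w ^ p • (Pi.single i (x i ^ (p - 1)) : Fin n → W) + grad D g := by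
  classical
  have hp : p.Prime := Fact.out
  have hW : (p : W) = 0 := by
    rw [← map_natCast (algebraMap κ W), CharP.cast_eq_zero, map_zero]
  have hx : ∀ i, GrCPot p x D (x i) := fun i => ⟨0, fun l => by
    rw [hD l i, map_zero, add_zero]
    split_ifs with e
    · rw [e, one_pow, mul_one, one_mul]
    · rw [zero_pow hp.ne_zero, mul_zero, zero_mul]⟩
  have h1 : GrCPot p x D 1 := GrC_pot_const hp x fun l => (D l).map_one_eq_zero
  have hxp : ∀ i (k : ℕ), GrCPot p x D (x i ^ k) := fun i k => by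
    induction k with
    | zero => rwa [pow_zero]
    | succ k ih =>
      rw [pow_succ]
      exact GrC_pot_mul hp hW ih (hx i)
  have key : GrCPot p x D w := by
    obtain ⟨a, -, rfl⟩ := h.frob_span (p := p) (w := w) Algebra.mem_top
    refine Finset.sum_induction _ (GrCPot p x D) (fun u v hu hv => GrC_pot_add hp hW hu hv)
      (GrC_pot_const hp x fun l => map_zero _) fun β _ => ?_
    exact GrC_pot_mul hp hW (GrC_pot_const hp x fun l => GrC_deriv_pow hW _ _)
      (Finset.prod_induction _ (GrCPot p x D) (fun u v hu hv => GrC_pot_mul hp hW hu hv) h1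
        fun i _ => hxp i _)
  obtain ⟨g, hg⟩ := key
  refine ⟨g, funext fun l => ?_⟩
  rw [Pi.add_apply, Finset.sum_apply, Finset.sum_eq_single l]
  · rw [Pi.smul_apply, Pi.smul_apply, Pi.single_eq_same]
    exact hg l
  · intro i _ hi
    rw [Pi.smul_apply, Pi.single_eq_of_ne hi.symm, smul_zero]
  · intro hl
    exact absurd (Finset.mem_univ l) hl

/-- Solve `∑ i, D i (y l) ^ p * hh i = g l` (the matrix of `p`-th powers is invertible with inverse
a matrix of `p`-th powers, which are constants), then apply `IsCar.chart`. -/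
theorem IsCar.chart_any {p : ℕ} [Fact p.Prime] {κ W : Type} [Field κ] [Finite κ] [CharP κ p]
    [CommRing W] [Algebra κ W] {n : ℕ} {x y : Fin n → W} (h : EtC (⊤ : Subalgebra κ W) x)
    {Φ : W →+ W} (hΦ : IsCar p x Φ) {D : Fin n → Derivation κ W W} (hD : DualD D x) {j : W}
    (hj : j * (Matrix.of fun i l => D i (y l)).det = 1) :
    IsCar p y (Φ.comp (AddMonoidHom.mulLeft (j ^ (p - 1)))) := by
  classical
  have hp : p.Prime := Fact.out
  have hW : (p : W) = 0 := by
    rw [← map_natCast (algebraMap κ W), CharP.cast_eq_zero, map_zero]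
  rcases subsingleton_or_nontrivial W with _ | _
  · exact ⟨fun _ _ => Subsingleton.elim _ _, fun _ => Subsingleton.elim _ _⟩
  have : CharP W p := charP_of_injective_algebraMap (algebraMap κ W).injective p
  choose g hg using fun l => exists_pot (p := p) h hD (y l)
  set A : Matrix (Fin n) (Fin n) W := Matrix.of fun i l => D i (y l) with hA
  have hB : (j • A.adjugate) * A = 1 := by
    rw [Matrix.smul_mul, Matrix.adjugate_mul, smul_smul, hj, one_smul]
  have hsol : ∀ l, ∑ i, D i (y l) ^ p * ∑ m, (j • A.adjugate) m i ^ p * g m = g l := fun l => by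
    have e1 : ∀ m, ∑ i, D i (y l) ^ p * (j • A.adjugate) m i ^ p = if m = l then 1 else 0 := by
      intro m
      have e2 : ∑ i, (j • A.adjugate) m i * D i (y l) = if m = l then 1 else 0 := by
        have := congrFun (congrFun hB m) l
        rwa [Matrix.mul_apply, Matrix.one_apply] at this
      have e3 := congrArg (· ^ p) e2
      simp only [sum_pow_char, mul_pow] at e3
      rw [Finset.sum_congr rfl fun i _ => mul_comm _ _, e3]
      split_ifs
      · exact one_pow p
      · exact zero_pow hp.ne_zero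
    simp only [Finset.mul_sum]
    rw [Finset.sum_comm]
    simp only [← mul_assoc, ← Finset.sum_mul, e1]
    simp
  refine hΦ.chart h hD hj (hh := fun i => ∑ m, (j • A.adjugate) m i ^ p * g m) fun l => ?_
  rw [hg l]
  simp only [zet, smul_add, Finset.sum_add_distrib]
  congr 1
  funext a
  rw [← hsol l, Finset.sum_apply]
  simp only [grad, Pi.smul_apply, smul_eq_mul]
  rw [map_sum (D a) (fun i => D i (y l) ^ p * ∑ m, (j • A.adjugate) m i ^ p * g m)]
  refine Finset.sum_congr rfl fun i _ => ?_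
  rw [(D a).leibniz (D i (y l) ^ p), GrC_deriv_pow hW, smul_zero, add_zero, smul_eq_mul]

/-- Write `w = ∑ a β ^ p x ^ β` and each `a β` as the sum of its homogeneous components. -/
theorem IsCar.pr_comm {p : ℕ} [Fact p.Prime] {κ W₀ : Type} [Field κ] [Finite κ] [CharP κ p]
    [CommRing W₀] [Algebra κ W₀] {ρ n : ℕ} {x : Fin n → LA W₀ ρ}
    (h : EtC (⊤ : Subalgebra κ (LA W₀ ρ)) x) {dx : Fin n → Fin ρ → ℤ}
    (hx : ∀ i, IsDeg (dx i) (x i)) {Φ : LA W₀ ρ →+ LA W₀ ρ} (hΦ : IsCar p x Φ) (γ : Fin ρ → ℤ)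
    (w : LA W₀ ρ) : Φ (pr ((p : ℤ) • γ + ((p : ℤ) - 1) • ∑ i, dx i) w) = pr γ (Φ w) := by
  classical
  have hp : p.Prime := Fact.out
  rcases subsingleton_or_nontrivial (LA W₀ ρ) with _ | _
  · exact Subsingleton.elim _ _
  have : CharP (LA W₀ ρ) p :=
    charP_of_injective_algebraMap (algebraMap κ (LA W₀ ρ)).injective p
  have key : ∀ (β : Fin n → Fin p) (γ' : Fin ρ → ℤ) (c : LA W₀ ρ), IsDeg γ' c →
      Φ (pr ((p : ℤ) • γ + ((p : ℤ) - 1) • ∑ i, dx i) (c ^ p * ∏ i, x i ^ (β i : ℕ))) =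
        pr γ (Φ (c ^ p * ∏ i, x i ^ (β i : ℕ))) := fun β γ' c hc => by
    have hd : IsDeg ((p : ℤ) • γ' + ∑ i, ((β i : ℕ) : ℤ) • dx i)
        (c ^ p * ∏ i, x i ^ (β i : ℕ)) :=
      (hc.pow p).mul (IsDeg.prod Finset.univ fun i _ => (hx i).pow (β i))
    by_cases hβ : ∀ i, (β i : ℕ) = p - 1
    · have e1 : ∑ i, ((β i : ℕ) : ℤ) • dx i = ((p : ℤ) - 1) • ∑ i, dx i := by
        rw [Finset.smul_sum]
        refine Finset.sum_congr rfl fun i _ => ?_
        rw [hβ i, Nat.cast_sub hp.one_le, Nat.cast_one]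
      rw [e1] at hd
      by_cases e2 : γ = γ'
      · subst e2
        rw [isDeg_iff.1 hd, hΦ.1, hΦ.2, if_pos hβ, mul_one, isDeg_iff.1 hc]
      · rw [hd.pr_of_ne, map_zero, hΦ.1, hΦ.2, if_pos hβ, mul_one, hc.pr_of_ne e2]
        intro e3
        exact e2 (smul_right_injective _ (Int.natCast_ne_zero.2 hp.ne_zero) (add_right_cancel e3))
    · have e1 : Φ (c ^ p * ∏ i, x i ^ (β i : ℕ)) = 0 := by
        rw [hΦ.1, hΦ.2, if_neg hβ, mul_zero]
      rw [e1, map_zero]
      by_cases e2 : (p : ℤ) • γ + ((p : ℤ) - 1) • ∑ i, dx i =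
          (p : ℤ) • γ' + ∑ i, ((β i : ℕ) : ℤ) • dx i
      · rw [e2, isDeg_iff.1 hd, e1]
      · rw [hd.pr_of_ne e2, map_zero]
  obtain ⟨a, -, rfl⟩ := h.frob_span (p := p) (w := w) Algebra.mem_top
  rw [map_sum, map_sum, map_sum, map_sum]
  refine Finset.sum_congr rfl fun β _ => ?_
  rw [← sum_pr (a β), sum_pow_char, Finset.sum_mul, map_sum, map_sum, map_sum, map_sum]
  exact Finset.sum_congr rfl fun γ' _ => key β γ' _ (isDeg_pr γ' _)

theorem iterate_pr_comm {p : ℕ} {W₀ : Type} [CommRing W₀] {ρ : ℕ} {δ : Fin ρ → ℤ}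
    {Φ : LA W₀ ρ →+ LA W₀ ρ}
    (h : ∀ γ w, Φ (pr ((p : ℤ) • γ + ((p : ℤ) - 1) • δ) w) = pr γ (Φ w)) (e : ℕ) (γ : Fin ρ → ℤ)
    (w : LA W₀ ρ) :
    Φ^[e] (pr (((p : ℤ) ^ e) • γ + ((p : ℤ) ^ e - 1) • δ) w) = pr γ (Φ^[e] w) := by
  induction e generalizing w with
  | zero => simp
  | succ e ih =>
    have e1 : ((p : ℤ) ^ (e + 1)) • γ + ((p : ℤ) ^ (e + 1) - 1) • δ =
        (p : ℤ) • (((p : ℤ) ^ e) • γ + ((p : ℤ) ^ e - 1) • δ) + ((p : ℤ) - 1) • δ := by
      funext c
      simp only [Pi.add_apply, Pi.smul_apply, smul_eq_mul]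
      ring
    rw [Function.iterate_succ_apply, Function.iterate_succ_apply, e1, h, ih]

end

end Pool.Agent.Lib.MP_4287a9_ag
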