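import Pool.Agent.Lib.MP_4287a9_ag.GCA
import Pool.Agent.Lib.MP_4287a9_ag.GrC
import Pool.Agent.Lib.MP_4287a9_ag.CArgB

/-!
Test elements in the graded setting (compare `CArgB`).
-/

open scoped TensorProduct ENNReal NNReal nonZeroDivisors Polynomial
open Filter

namespace Pool.Agent.Lib.MP_4287a9_ag

noncomputable section

variable {p : ℕ} [Fact p.Prime] {n : ℕ} {s : GShp n} {W₀ : Type} [CommRing W₀] {d : GD s W₀}
  {κ : Type} [Field κ] [Finite κ] [CharP κ p] [Algebra κ W₀]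
  {D : Fin n → Derivation κ (LA W₀ s.ρ) (LA W₀ s.ρ)}

omit [Finite κ] in
theorem gcb_prod (h : d.Pre κ) (a : Fin s.m) (E : Fin s.μ → ℕ) :
    ∏ l, d.y a l ^ (∑ i ∈ Finset.univ.filter (fun i => s.lam a i = some l), E i) =
      ∏ i, (d.t a i : (LA W₀ s.ρ)) ^ E i := by
  have h1 : ∀ l, d.y a l ^ (∑ i ∈ Finset.univ.filter (fun i => s.lam a i = some l), E i) =
      ∏ i, if s.lam a i = some l then d.y a l ^ E i else 1 := by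
    intro l
    rw [← Finset.prod_pow_eq_pow_sum, Finset.prod_filter]
  simp only [h1]
  rw [Finset.prod_comm]
  refine Finset.prod_congr rfl fun i _ => ?_
  rw [h.ht a i]
  cases hl : s.lam a i with
  | none => simp
  | some l => simp

theorem gcb_chart (h : d.Good κ D) {Φ : (LA W₀ s.ρ) →+ (LA W₀ s.ρ)} (hΦ : ∀ w z, Φ (w ^ p * z) = w * Φ z)
    (hch : ∀ a, IsCar p (d.y a) (Φ.comp (AddMonoidHom.mulLeft ((d.j a : (LA W₀ s.ρ)) ^ (p - 1)))))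
    {c : (LA W₀ s.ρ)} (hcT : c ∈ d.T κ) (hc : c ∈ (LA W₀ s.ρ)⁰) (a : Fin s.m) :
    ∃ e0 : ℕ, ∀ e, e0 ≤ e → ∃ w ∈ d.B1 κ a,
      Φ^[e] (c * ((d.sig a (p ^ e) : (LA W₀ s.ρ)) * w)) = d.sig a 1 := by
  have hN : 0 < s.N := Nat.mul_pos h.hr h.hM
  have hp : 0 < p := (Fact.out : p.Prime).pos
  obtain ⟨e0, he0⟩ := IsCar.exists_one_snc (h.het a) (hch a) (d.T_le_B1 a hcT) hc hN
  refine ⟨e0, fun e he => ?_⟩
  choose E hE hE' using cargb_ce s.toShp hN (p ^ e)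
  obtain ⟨w, hw, hw1⟩ := he0 e he
    (fun l => ∑ i ∈ Finset.univ.filter (fun i => s.lam a i = some l), E i) (by
      intro l
      by_cases hl : ∃ i, s.lam a i = some l
      · obtain ⟨i, hi⟩ := hl
        have : Finset.univ.filter (fun i => s.lam a i = some l) = {i} := by
          ext i'
          simp only [Finset.mem_filter, Finset.mem_univ, true_and, Finset.mem_singleton]
          exact ⟨fun h' => h.hinj a i' i l h' hi, fun h' => h' ▸ hi⟩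
        rw [this, Finset.sum_singleton]
        exact hE' i
      · have : Finset.univ.filter (fun i => s.lam a i = some l) = ∅ := by
          ext i'
          simp only [Finset.mem_filter, Finset.mem_univ, true_and, Finset.notMem_empty, iff_false]
          exact fun h' => hl ⟨i', h'⟩
        rw [this]
        simp)
  refine ⟨w, hw, ?_⟩
  rw [iterate_twist hp hΦ, gcb_prod h.toPre] at hw1
  have hq : 1 ≤ p ^ e := Nat.one_le_pow _ _ hp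
  have hs : d.sig a (p ^ e) =
      d.sig a 1 ^ p ^ e * (d.j a ^ (p ^ e - 1) * ∏ i, d.t a i ^ E i) := by
    have e1 : (((p ^ e : ℕ) : ℤ) - 1) = ((p ^ e - 1 : ℕ) : ℤ) := by omega
    simp only [RD.sig]
    rw [e1, zpow_natCast, Nat.cast_one, sub_self, zpow_zero, one_mul, ← Finset.prod_pow,
      mul_left_comm, ← Finset.prod_mul_distrib]
    congr 1
    refine Finset.prod_congr rfl fun i _ => ?_
    rw [← zpow_natCast, ← zpow_natCast, ← zpow_mul, ← zpow_add, hE i]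
    congr 1
    ring
  have : c * ((d.sig a (p ^ e) : (LA W₀ s.ρ)) * w) = (d.sig a 1 : (LA W₀ s.ρ)) ^ p ^ e *
      ((d.j a : (LA W₀ s.ρ)) ^ (p ^ e - 1) * ((c * ∏ i, (d.t a i : (LA W₀ s.ρ)) ^ E i) * w)) := by
    rw [hs]
    push_cast
    ring
  rw [this, iterate_lin hΦ, hw1, mul_one]

/-- The submodule of the images of the sections. -/
def gcbP (d : GD s W₀) (κ : Type) [Field κ] [Algebra κ W₀] (h : d.Pre κ) {Φ : (LA W₀ s.ρ) →+ (LA W₀ s.ρ)}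
    (hΦ : ∀ w z, Φ (w ^ p * z) = w * Φ z) (c : (LA W₀ s.ρ)) (e j : ℕ) : Submodule (d.T κ) (LA W₀ s.ρ) where
  carrier := {v | ∃ γ ∈ d.Gam κ (p ^ e + j * p ^ e * s.N), Φ^[e] (c * γ) = (d.u : (LA W₀ s.ρ)) ^ j * v}
  add_mem' := by
    rintro v v' ⟨γ, hγ, h1⟩ ⟨γ', hγ', h2⟩
    refine ⟨γ + γ', ⟨hγ.1.add hγ'.1, fun a => ?_⟩, ?_⟩
    · rw [add_mul]
      exact add_mem (hγ.2 a) (hγ'.2 a)
    · rw [mul_add, iterate_map_add, h1, h2, mul_add]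
  zero_mem' := by
    refine ⟨0, ⟨isDeg_zero _, fun a => ?_⟩, ?_⟩
    · rw [zero_mul]
      exact zero_mem _
    · rw [mul_zero, iterate_map_zero, mul_zero]
  smul_mem' := by
    rintro t v ⟨γ, hγ, h1⟩
    refine ⟨(t : (LA W₀ s.ρ)) ^ p ^ e * γ, ⟨?_, fun a => ?_⟩, ?_⟩
    · have h2 := (h.deg_T (pow_mem t.2 (p ^ e))).mul hγ.1
      rwa [zero_add] at h2
    · rw [mul_assoc]
      exact mul_mem (pow_mem (d.T_le_B1 a t.2) _) (hγ.2 a)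
    · rw [mul_left_comm, iterate_lin hΦ, h1, Subalgebra.smul_def, smul_eq_mul]
      ring

omit [Fact p.Prime] [Finite κ] [CharP κ p] in
theorem gcb_mul (h : d.Pre κ) {Φ : (LA W₀ s.ρ) →+ (LA W₀ s.ρ)} (hΦ : ∀ w z, Φ (w ^ p * z) = w * Φ z) (c : (LA W₀ s.ρ))
    (e j k : ℕ) : d.sp κ d.bg ^ k * gcbP d κ h hΦ c e j ≤ gcbP d κ h hΦ c e (k + j) := by
  refine Submodule.mul_le.2 ?_
  rintro b hb v ⟨γ, hγ, h1⟩
  have hb' : b ^ p ^ e ∈ d.sp κ d.bg ^ (k * p ^ e) := by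
    rw [pow_mul]
    exact Submodule.pow_mem_pow _ hb _
  refine ⟨(d.u : (LA W₀ s.ρ)) ^ (k * p ^ e) * b ^ p ^ e * γ, ?_, ?_⟩
  · have := h.mul_mem_Gam hγ hb'
    rwa [show p ^ e + j * p ^ e * s.N + k * p ^ e * s.N = p ^ e + (k + j) * p ^ e * s.N by ring]
      at this
  · have : c * ((d.u : (LA W₀ s.ρ)) ^ (k * p ^ e) * b ^ p ^ e * γ) =
        ((d.u : (LA W₀ s.ρ)) ^ k * b) ^ p ^ e * (c * γ) := by
      rw [mul_pow, ← pow_mul]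
      ring
    rw [this, iterate_lin hΦ, h1]
    ring

omit [Fact p.Prime] [Finite κ] [CharP κ p] in
theorem gcb_hom (h : d.Amb κ D) {Φ : LA W₀ s.ρ →+ LA W₀ s.ρ}
    (hΦ : ∀ w z, Φ (w ^ p * z) = w * Φ z)
    (hpr : ∀ γ w, Φ (pr ((p : ℤ) • γ + ((p : ℤ) - 1) • s.δ) w) = pr γ (Φ w))
    {c : LA W₀ s.ρ} (hcT : c ∈ d.T κ) {a : Fin s.m} {e : ℕ} {w θ : LA W₀ s.ρ}
    (hw : w ∈ d.B1 κ a) (hw1 : Φ^[e] (c * ((d.sig a (p ^ e) : LA W₀ s.ρ) * w)) = d.sig a 1)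
    (h0 : IsDeg 0 θ) (hθ : θ * (((d.sig a 1)⁻¹ : (LA W₀ s.ρ)ˣ) : LA W₀ s.ρ) ∈ d.B1 κ a) :
    ∃ w' ∈ d.B1 κ a,
      IsDeg ((((p ^ e : ℕ) : ℤ) - 1) • s.δ) ((d.sig a (p ^ e) : LA W₀ s.ρ) * w') ∧
        Φ^[e] (c * ((d.sig a (p ^ e) : LA W₀ s.ρ) * w')) = θ := by
  obtain ⟨β, hβ⟩ := h.hom_sig a (p ^ e)
  obtain ⟨s₀, hs₀⟩ : ∃ s₀, s₀ = θ * (((d.sig a 1)⁻¹ : (LA W₀ s.ρ)ˣ) : LA W₀ s.ρ) := ⟨_, rfl⟩
  rw [← hs₀] at hθ
  have hgr := h.toPre.isGr_B {a}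
  rw [d.B_single] at hgr
  have h1 : Φ^[e] (s₀ ^ p ^ e * w * (c * (d.sig a (p ^ e) : LA W₀ s.ρ))) = θ := by
    rw [mul_assoc, iterate_lin hΦ, mul_comm w, mul_assoc, hw1, hs₀, Units.inv_mul_cancel_right]
  have h2 := (h.toPre.deg_T hcT).mul hβ
  rw [zero_add] at h2
  refine ⟨pr ((((p ^ e : ℕ) : ℤ) - 1) • s.δ - β) (s₀ ^ p ^ e * w),
    hgr _ _ (mul_mem (pow_mem hθ _) hw), ?_, ?_⟩
  · have h3 := hβ.mul (isDeg_pr ((((p ^ e : ℕ) : ℤ) - 1) • s.δ - β) (s₀ ^ p ^ e * w))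
    rwa [add_sub_cancel] at h3
  · have h3 := iterate_pr_comm hpr e 0 (s₀ ^ p ^ e * w * (c * (d.sig a (p ^ e) : LA W₀ s.ρ)))
    rw [h1, isDeg_iff.1 h0, smul_zero, zero_add] at h3
    rw [← mul_assoc, mul_comm, ← pr_mul_deg h2, sub_add_cancel, Nat.cast_pow]
    exact h3

/-- As `RD.Good.c_arg`. For a generator `θ a i = sig a 1 * s₀` (`s₀ ∈ B1 a`),
`Φ ^ e₁ (c * sig a q₁ * (w a * s₀ ^ q₁)) = θ a i`; replace `w a * s₀ ^ q₁` by its homogeneous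
component `w'` for which `sig a q₁ * w'` has degree `(q₁ - 1) • δ` (`isGr_B`, `hom_sig`,
`pr_mul_deg`, `iterate_pr_comm` with `γ = 0`). -/
theorem GD.Good.c_arg (h : d.Good κ D) {Φ : LA W₀ s.ρ →+ LA W₀ s.ρ}
    (hΦ : ∀ w z, Φ (w ^ p * z) = w * Φ z)
    (hpr : ∀ γ w, Φ (pr ((p : ℤ) • γ + ((p : ℤ) - 1) • s.δ) w) = pr γ (Φ w))
    (hch : ∀ a, IsCar p (d.y a) (Φ.comp (AddMonoidHom.mulLeft ((d.j a : LA W₀ s.ρ) ^ (p - 1)))))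
    (hzz : ∀ e : ℕ, ∀ f ∈ d.Gam κ (p ^ e), ∃ f' ∈ d.Gam κ (p ^ (e + 1)), Φ f' = f)
    (hN : Nat.Coprime p s.N) {c : LA W₀ s.ρ} (hcT : c ∈ d.T κ) (hc : c ∈ (LA W₀ s.ρ)⁰) (J0 : ℕ) :
    ∃ e J : ℕ, J0 ≤ J ∧ p ^ e = 1 + J * s.N ∧ ∃ γ ∈ d.Gam κ (p ^ e), Φ^[e] (c * γ) = 1 := by
  have hN0 : 0 < s.N := Nat.mul_pos h.hr h.hM
  have hp : 1 < p := (Fact.out : p.Prime).one_lt
  choose e0 he0 using gcb_chart h hΦ hch hcT hc
  obtain ⟨e₁, J₁, hE₁, -, hJ₁⟩ := cargb_euler hp hN0 hN (Finset.univ.sup e0) 0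
  choose w hw hw1 using fun a => he0 a e₁ ((Finset.le_sup (f := e0) (Finset.mem_univ a)).trans hE₁)
  obtain ⟨k, θ, hθ, i1, hi1⟩ := h.toAmb.gam_serre
  choose w' hw' hd' hw1' using fun x : Fin s.m × Fin k =>
    gcb_hom h.toAmb hΦ hpr hcT (hw x.1) (hw1 x.1) (hθ x.1 x.2).1 (hθ x.1 x.2).2
  choose i0 hi0 using fun x : Fin s.m × Fin k =>
    h.toAmb.exists_ext x.1 (p ^ e₁) (hw' x) (hd' x)
  set i₁ := i1 + Finset.univ.sup i0 with hi₁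
  obtain ⟨j0, hj0⟩ := hi1 i₁ (Nat.le_add_right _ _)
  have hq : 1 ≤ p ^ e₁ := Nat.one_le_pow _ _ (by omega)
  have hG : Submodule.span (d.T κ)
      (Set.range fun x : Fin s.m × Fin k => (d.G x.1 : LA W₀ s.ρ) ^ i₁ * θ x.1 x.2) ≤
      gcbP d κ h.toPre hΦ c e₁ i₁ := by
    refine Submodule.span_le.2 ?_
    rintro _ ⟨x, rfl⟩
    have ha : i0 x ≤ i₁ * p ^ e₁ := by
      have h1 : i0 x ≤ Finset.univ.sup i0 := Finset.le_sup (f := i0) (Finset.mem_univ x)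
      have h2 : i₁ ≤ i₁ * p ^ e₁ := Nat.le_mul_of_pos_right _ hq
      omega
    refine ⟨_, hi0 x _ ha, ?_⟩
    have : c * ((((d.u * d.G x.1) ^ (i₁ * p ^ e₁) * d.sig x.1 (p ^ e₁) : (LA W₀ s.ρ)ˣ) :
        LA W₀ s.ρ) * w' x) = (((d.u : LA W₀ s.ρ) * d.G x.1) ^ i₁) ^ p ^ e₁ *
          (c * ((d.sig x.1 (p ^ e₁) : LA W₀ s.ρ) * w' x)) := by
      rw [← pow_mul]
      push_cast
      ring
    rw [this, iterate_lin hΦ, hw1' x]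
    ring
  obtain ⟨e₂, J₂, -, hJ, hJ₂⟩ := cargb_euler hp hN0 hN 0 (j0 + i₁ + J0)
  obtain ⟨j, rfl⟩ : ∃ j, J₂ = j + i₁ := ⟨J₂ - i₁, by omega⟩
  have hit : ∀ e : ℕ, ∃ γ ∈ d.Gam κ (p ^ e), Φ^[e] γ = 1 := by
    intro e
    induction e with
    | zero => exact ⟨1, by simpa using h.toPre.one_mem_Gam, rfl⟩
    | succ e ih =>
      obtain ⟨γ, hγ, h1⟩ := ih
      obtain ⟨γ', hγ', h2⟩ := hzz e γ hγ
      exact ⟨γ', hγ', by rw [Function.iterate_succ_apply, h2, h1]⟩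
  obtain ⟨γ₀, hγ₀, h0⟩ := hit e₂
  rw [hJ₂] at hγ₀
  obtain ⟨γ, hγ, h1⟩ := gcb_mul h.toPre hΦ c e₁ i₁ j
    (mul_le_mul_right hG _ (hj0 j (by omega) γ₀ hγ₀))
  have h2 : Φ^[e₁] (c * γ) = γ₀ := by
    rw [h1, mul_left_comm, ← Units.val_pow_eq_pow_val, ← Units.val_mul, ← mul_pow,
      mul_inv_cancel, one_pow, Units.val_one, mul_one]
  refine ⟨e₂ + e₁, J₁ + (j + i₁) + J₁ * (j + i₁) * s.N, by omega, ?_, γ, ?_, ?_⟩
  · rw [pow_add, hJ₁, hJ₂]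
    ring
  · rwa [pow_add, hJ₂, show (1 + (j + i₁) * s.N) * p ^ e₁ = p ^ e₁ + (j + i₁) * p ^ e₁ * s.N by
      ring]
  · rw [Function.iterate_add_apply, h2, h0]

end

end Pool.Agent.Lib.MP_4287a9_ag
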