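import Pool.Agent.Lib.MP_4287a9_ag.D3
import Pool.Agent.Lib.MP_4287a9_ag.EtA

/-!
Basic consequences of the conditions on the data.
-/

open scoped TensorProduct ENNReal NNReal nonZeroDivisors Polynomial
open Filter

namespace Pool.Agent.Lib.MP_4287a9_ag

noncomputable section

variable {n : ℕ} {s : Shp n} {W : Type} [CommRing W] {d : RD s W} {Λ : Type} [CommRing Λ]
  [Algebra Λ W] {D : Fin n → Derivation Λ W W}

namespace RD

theorem T_le_S1 (d : RD s W) (a : Fin s.m) : d.T Λ ≤ d.S1 Λ a := by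
  exact Algebra.adjoin_mono Set.subset_union_left

theorem S1_le_S (d : RD s W) {σ : Finset (Fin s.m)} {a : Fin s.m} (ha : a ∈ σ) :
    d.S1 Λ a ≤ d.S Λ σ := by
  exact le_iSup₂_of_le (f := fun a (_ : a ∈ σ) => d.S1 Λ a) a ha le_rfl

theorem S_mono (d : RD s W) {σ σ' : Finset (Fin s.m)} (h : σ ⊆ σ') : d.S Λ σ ≤ d.S Λ σ' := by
  exact iSup₂_le fun a ha => d.S1_le_S (h ha)

theorem S_single (d : RD s W) (a : Fin s.m) : d.S Λ {a} = d.S1 Λ a := by
  simp [S]

theorem S_pair (d : RD s W) (a b : Fin s.m) : d.S Λ {a, b} = d.S1 Λ a ⊔ d.S1 Λ b := by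
  rw [S, Finset.iSup_insert, Finset.iSup_singleton]

theorem T_noeth (d : RD s W) [IsNoetherianRing Λ] : IsNoetherianRing (d.T Λ) := by
  exact isNoetherianRing_of_fg (Subalgebra.fg_def.2 ⟨_, Set.finite_range _, rfl⟩)

theorem S_fg (d : RD s W) (σ : Finset (Fin s.m)) : (d.S Λ σ).FG := by
  induction σ using Finset.induction_on with
  | empty =>
    have e : d.S Λ ∅ = ⊥ := by simp [S]
    rw [e]
    exact Subalgebra.fg_bot
  | insert a σ _ ih =>
    rw [S, Finset.iSup_insert]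
    exact Subalgebra.FG.sup
      (Subalgebra.fg_def.2 ⟨_, (Set.finite_range _).union (Set.finite_range _), rfl⟩) ih

theorem RDa_map_idl (d : RD s W) {k : ℕ} {v : Fin k → W} (hv : ∀ i, v i ∈ d.T Λ) (j : ℕ) :
    Submodule.map (Algebra.ofId (d.T Λ) W).toLinearMap (d.idl Λ v ^ j) = d.sp Λ v ^ j := by
  rw [Submodule.map_pow]
  congr 1
  rw [idl, Ideal.span, Submodule.map_span, sp]
  congr 1
  ext x
  constructor
  · rintro ⟨y, hy, rfl⟩
    exact hy
  · rintro ⟨i, rfl⟩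
    exact ⟨⟨v i, hv i⟩, ⟨i, rfl⟩, rfl⟩

/-- Powers of ideals of `T` and of submodules of `W`. -/
theorem mem_idl_pow (d : RD s W) {k : ℕ} {v : Fin k → W} (hv : ∀ i, v i ∈ d.T Λ) (j : ℕ)
    (x : d.T Λ) : x ∈ d.idl Λ v ^ j ↔ (x : W) ∈ d.sp Λ v ^ j := by
  rw [← d.RDa_map_idl hv j]
  constructor
  · exact fun h => ⟨x, h, rfl⟩
  · rintro ⟨y, hy, e⟩
    rwa [show y = x from Subtype.ext e] at hy

theorem mem_T_of_mem_sp_pow (d : RD s W) {k : ℕ} {v : Fin k → W} (hv : ∀ i, v i ∈ d.T Λ) (j : ℕ)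
    {x : W} (hx : x ∈ d.sp Λ v ^ j) : x ∈ d.T Λ := by
  rw [← d.RDa_map_idl hv j] at hx
  obtain ⟨y, -, rfl⟩ := hx
  exact y.2

theorem RDa_div_mem (d : RD s W) (a : Fin s.m) {z : W} (hz : z ∈ d.sp Λ d.bg) :
    z * (((d.G a)⁻¹ : Wˣ) : W) ∈ d.S1 Λ a := by
  induction hz using Submodule.span_induction with
  | mem x hx =>
    obtain ⟨i, rfl⟩ := hx
    exact Algebra.subset_adjoin (Or.inr ⟨i, rfl⟩)
  | zero => simp
  | add x y _ _ hx hy =>
    rw [add_mul]
    exact add_mem hx hy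
  | smul c x _ hx =>
    rw [smul_mul_assoc]
    exact mul_mem (d.T_le_S1 a c.2) hx

theorem RDa_div_pow_mem (d : RD s W) (a : Fin s.m) (N : ℕ) {z : W} (hz : z ∈ d.sp Λ d.bg ^ N) :
    z * (((d.G a)⁻¹ : Wˣ) : W) ^ N ∈ d.S1 Λ a := by
  induction N generalizing z with
  | zero =>
    rw [pow_zero, Submodule.mem_one] at hz
    obtain ⟨c, rfl⟩ := hz
    rw [pow_zero, mul_one]
    exact d.T_le_S1 a c.2
  | succ N ih =>
    rw [pow_succ] at hz
    refine Submodule.mul_induction_on hz (fun x hx y hy => ?_) fun x y hx hy => ?_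
    · rw [pow_succ, mul_mul_mul_comm]
      exact mul_mem (ih hx) (d.RDa_div_mem a hy)
    · rw [add_mul]
      exact add_mem hx hy

theorem RDa_prod_mem (h : d.Pre Λ) (σ : Finset (Fin s.m)) :
    ((∏ a ∈ σ, d.G a : Wˣ) : W) ∈ d.sp Λ d.bg ^ σ.card := by
  induction σ using Finset.induction_on with
  | empty =>
    rw [Finset.card_empty, pow_zero, Finset.prod_empty, Submodule.mem_one]
    exact ⟨1, by simp⟩
  | insert a σ ha ih =>
    rw [Finset.prod_insert ha, Finset.card_insert_of_notMem ha, pow_succ', Units.val_mul]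
    exact Submodule.mul_mem_mul (h.hG a) ih

theorem RDa_inv_mem (h : d.Pre Λ) (σ : Finset (Fin s.m)) (a : Fin s.m) :
    ((∏ b ∈ σ, d.G a * (d.G b)⁻¹ : Wˣ) : W) ∈ d.S Λ σ := by
  rw [Units.coe_prod]
  exact prod_mem fun b hb => d.S1_le_S hb (d.RDa_div_mem b (h.hG a))

/-- The right side defines a subalgebra containing the generators
(`G σ * (b / G a) = b * ∏ (a' ≠ a) G a'`); conversely `𝔟 ^ (i * card σ) ⊆ G σ ^ i * S σ`. -/
theorem Pre.mem_S_iff (h : d.Pre Λ) {σ : Finset (Fin s.m)} (hσ : σ.Nonempty) (w : W) :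
    w ∈ d.S Λ σ ↔ ∃ i : ℕ, (((∏ a ∈ σ, d.G a) ^ i : Wˣ) : W) * w ∈
      d.sp Λ d.bg ^ (i * σ.card) := by
  constructor
  · have hT : ∀ w ∈ d.T Λ, ∃ i : ℕ, (((∏ a ∈ σ, d.G a) ^ i : Wˣ) : W) * w ∈
        d.sp Λ d.bg ^ (i * σ.card) := fun w hw =>
      ⟨0, by
        rw [zero_mul, pow_zero, pow_zero, Units.val_one, one_mul, Submodule.mem_one]
        exact ⟨⟨w, hw⟩, rfl⟩⟩
    have hp : ∀ i : ℕ, (((∏ a ∈ σ, d.G a) ^ i : Wˣ) : W) ∈ d.sp Λ d.bg ^ (i * σ.card) := by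
      intro i
      rw [Units.val_pow_eq_pow_val, mul_comm, pow_mul]
      exact Submodule.pow_mem_pow _ (RDa_prod_mem h σ) i
    let R : Subalgebra Λ W :=
      { carrier := {w | ∃ i : ℕ, (((∏ a ∈ σ, d.G a) ^ i : Wˣ) : W) * w ∈
          d.sp Λ d.bg ^ (i * σ.card)}
        mul_mem' := by
          rintro x y ⟨i, hi⟩ ⟨k, hk⟩
          refine ⟨i + k, ?_⟩
          rw [pow_add, Units.val_mul, mul_mul_mul_comm, add_mul, pow_add]
          exact Submodule.mul_mem_mul hi hk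
        add_mem' := by
          rintro x y ⟨i, hi⟩ ⟨k, hk⟩
          refine ⟨i + k, ?_⟩
          rw [pow_add, Units.val_mul, add_mul, pow_add, mul_add]
          refine add_mem ?_ ?_
          · rw [mul_right_comm]
            exact Submodule.mul_mem_mul hi (hp k)
          · rw [mul_assoc]
            exact Submodule.mul_mem_mul (hp i) hk
        algebraMap_mem' := fun c => hT _ (algebraMap_mem _ c) }
    have hle : d.S Λ σ ≤ R := by
      refine iSup₂_le fun a ha => Algebra.adjoin_le ?_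
      rintro x (⟨i, rfl⟩ | ⟨i, rfl⟩)
      · exact hT _ (Algebra.subset_adjoin ⟨i, rfl⟩)
      · refine ⟨1, ?_⟩
        rw [pow_one, one_mul, ← Finset.prod_erase_mul _ _ ha, ← Finset.card_erase_add_one ha,
          pow_succ, Units.val_mul, mul_assoc, mul_left_comm (d.G a : W), Units.mul_inv, mul_one]
        exact Submodule.mul_mem_mul (RDa_prod_mem h _) (Submodule.subset_span ⟨i, rfl⟩)
    exact fun hw => hle hw
  · rintro ⟨i, hi⟩
    obtain ⟨a, ha⟩ := hσ
    have h1 := mul_mem (d.S1_le_S ha (d.RDa_div_pow_mem a _ hi)) (pow_mem (RDa_inv_mem h σ a) i)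
    have e : (∏ b ∈ σ, d.G b) ^ i * (d.G a)⁻¹ ^ (i * σ.card) *
        (∏ b ∈ σ, d.G a * (d.G b)⁻¹) ^ i = 1 := by
      rw [Finset.prod_mul_distrib, Finset.prod_const, Finset.prod_inv_distrib, mul_comm i, pow_mul,
        ← mul_pow, ← mul_pow, inv_pow, mul_assoc, inv_mul_cancel_left, mul_inv_cancel, one_pow]
    have e' := congrArg Units.val e
    simp only [Units.val_mul, Units.val_pow_eq_pow_val, Units.val_one] at e' h1
    rwa [mul_right_comm _ w, mul_right_comm _ w, e', one_mul] at h1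

/-- `S σ` is the localization of `S1 a` away from `∏ b ∈ σ, G b / G a`. -/
theorem Pre.etc_S (h : d.Pre Λ) {σ : Finset (Fin s.m)} {a : Fin s.m} (ha : a ∈ σ) :
    EtC (d.S Λ σ) (d.y a) := by
  refine (h.het a).of_away (d.S1_le_S ha) (w := ((∏ b ∈ σ, d.G b * (d.G a)⁻¹ : Wˣ) : W)) ?_
    ⟨_, RDa_inv_mem h σ a, ?_⟩ fun z hz => ?_
  · rw [Units.coe_prod]
    exact prod_mem fun b _ => d.RDa_div_mem a (h.hG b)
  · rw [← Units.val_mul, ← Finset.prod_mul_distrib, Finset.prod_eq_one, Units.val_one]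
    intro b _
    rw [mul_assoc, inv_mul_cancel_left, mul_inv_cancel]
  · obtain ⟨i, hi⟩ := (h.mem_S_iff ⟨a, ha⟩ z).1 hz
    refine ⟨i, ?_⟩
    have h1 := d.RDa_div_pow_mem a _ hi
    rw [Finset.prod_mul_distrib, Finset.prod_const, Units.val_mul, mul_pow, mul_right_comm,
      Units.val_pow_eq_pow_val ((d.G a)⁻¹), ← pow_mul, mul_comm σ.card]
    rwa [Units.val_pow_eq_pow_val] at h1

theorem Good.exists_pow (h : d.Good Λ D) (w : W) : ∃ i : ℕ, (d.g : W) ^ i * w ∈ d.T Λ := by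
  have hw : w ∈ d.Ws Λ := by
    rw [h.hW]
    exact Algebra.mem_top
  induction hw using Algebra.adjoin_induction with
  | mem x hx =>
    rcases hx with ⟨i, rfl⟩ | rfl
    · exact ⟨0, by rw [pow_zero, one_mul]; exact Algebra.subset_adjoin (Set.mem_range_self i)⟩
    · exact ⟨1, by simp⟩
  | algebraMap c => exact ⟨0, by simp⟩
  | add x y _ _ hx hy =>
    obtain ⟨i, hi⟩ := hx
    obtain ⟨k, hk⟩ := hy
    refine ⟨i + k, ?_⟩
    rw [pow_add, mul_add, mul_right_comm, mul_assoc _ _ y]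
    exact add_mem (mul_mem hi (pow_mem h.gT k)) (mul_mem (pow_mem h.gT i) hk)
  | mul x y _ _ hx hy =>
    obtain ⟨i, hi⟩ := hx
    obtain ⟨k, hk⟩ := hy
    refine ⟨i + k, ?_⟩
    rw [pow_add, mul_mul_mul_comm]
    exact mul_mem hi hk

theorem Good.etc_top (h : d.Good Λ D) (a : Fin s.m) : EtC (⊤ : Subalgebra Λ W) (d.y a) := by
  refine (h.het a).of_away le_top (d.T_le_S1 a h.gT) ⟨_, Algebra.mem_top, d.g.mul_inv⟩
    fun z _ => ?_
  obtain ⟨i, hi⟩ := h.exists_pow z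
  exact ⟨i, d.T_le_S1 a hi⟩

theorem Good.commD (h : d.Good Λ D) : CommD D := by
  exact (h.etc_top s.a0).commD h.hdual

theorem Good.mem_nonZeroDivisors (h : d.Good Λ D) {z : d.T Λ} (hz : z ∈ (d.T Λ)⁰) :
    (z : W) ∈ W⁰ := by
  rw [mem_nonZeroDivisors_iff_right] at hz ⊢
  intro w hw
  obtain ⟨i, hi⟩ := h.exists_pow w
  have h1 := hz ⟨_, hi⟩ (Subtype.ext (by
    change (d.g : W) ^ i * w * z = 0
    rw [mul_assoc, hw, mul_zero]))
  exact ((d.g.isUnit.pow i).mul_right_eq_zero).1 (congrArg Subtype.val h1)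

theorem Pre.t_mem (h : d.Pre Λ) (a : Fin s.m) (i : Fin s.μ) : (d.t a i : W) ∈ d.S1 Λ a := by
  rw [h.ht]
  cases s.lam a i with
  | none => exact one_mem _
  | some l => exact (h.het a).mem l

theorem prod_tl_of (h : ∀ a i, s.lam a i = none → d.t a i = 1) (a : Fin s.m) :
    ∏ l, d.tl a l = ∏ i, d.t a i := by
  rw [← Finset.prod_fiberwise Finset.univ (s.lam a) (d.t a), Fintype.prod_option,
    Finset.prod_eq_one fun i hi => h a i (Finset.mem_filter.1 hi).2, one_mul]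
  rfl

theorem Pre.prod_tl (h : d.Pre Λ) (a : Fin s.m) : ∏ l, d.tl a l = ∏ i, d.t a i := by
  refine prod_tl_of (fun a i e => Units.ext ?_) a
  rw [h.ht, e]
  rfl

/-- `tl a l` is `y a l = t a i` when `lam a i = some l`, and `1` if there is no such `i`. -/
theorem Pre.tl_cases (h : d.Pre Λ) (a : Fin s.m) (l : Fin n) :
    (∃ i, s.lam a i = some l ∧ d.tl a l = d.t a i ∧ (d.tl a l : W) = d.y a l) ∨
      ((∀ i, s.lam a i ≠ some l) ∧ d.tl a l = 1) := by
  by_cases e : ∃ i, s.lam a i = some l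
  · obtain ⟨i, hi⟩ := e
    have h1 : d.tl a l = d.t a i := by
      rw [tl, Finset.prod_eq_single_of_mem i (Finset.mem_filter.2 ⟨Finset.mem_univ _, hi⟩)]
      exact fun i' h1 h2 => absurd (h.hinj a i' i l (Finset.mem_filter.1 h1).2 hi) h2
    refine Or.inl ⟨i, hi, h1, ?_⟩
    rw [h1, h.ht, hi]
    rfl
  · exact Or.inr ⟨fun i hi => e ⟨i, hi⟩,
      Finset.prod_eq_one fun i hi => absurd ⟨i, (Finset.mem_filter.1 hi).2⟩ e⟩

end RD

end

end Pool.Agent.Lib.MP_4287a9_ag
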