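import Pool.Agent.Lib.MP_4287a9_ag.GrA
import Pool.Agent.Lib.MP_4287a9_ag.RDa

/-!
Basic consequences of the conditions on the graded data (compare `RDa`).
-/

open scoped TensorProduct ENNReal NNReal nonZeroDivisors Polynomial
open Filter

namespace Pool.Agent.Lib.MP_4287a9_ag

noncomputable section

variable {n : ℕ} {s : GShp n} {W₀ : Type} [CommRing W₀] {d : GD s W₀} {Λ : Type} [CommRing Λ]
  [Algebra Λ W₀] {D : Fin n → Derivation Λ (LA W₀ s.ρ) (LA W₀ s.ρ)}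

/-- The elements that are moved into `S` by a power of `c`. -/
def GDa_away {W : Type} [CommRing W] [Algebra Λ W] (S : Subalgebra Λ W) {c : W} (hc : c ∈ S) :
    Subalgebra Λ W where
  carrier := {w | ∃ i : ℕ, c ^ i * w ∈ S}
  mul_mem' := by
    rintro x y ⟨i, hi⟩ ⟨k, hk⟩
    refine ⟨i + k, ?_⟩
    rw [pow_add, mul_mul_mul_comm]
    exact mul_mem hi hk
  add_mem' := by
    rintro x y ⟨i, hi⟩ ⟨k, hk⟩
    refine ⟨i + k, ?_⟩
    rw [pow_add, mul_add, mul_right_comm, mul_assoc _ _ y]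
    exact add_mem (mul_mem hi (pow_mem hc k)) (mul_mem (pow_mem hc i) hk)
  algebraMap_mem' r := ⟨0, by simp⟩

theorem GDa_le_away {W : Type} [CommRing W] [Algebra Λ W] {S : Subalgebra Λ W} {c : W}
    (hc : c ∈ S) {w : W} (hw : w ∈ S) : w ∈ GDa_away S hc :=
  ⟨0, by rwa [pow_zero, one_mul]⟩

/-- The elements that preserve a submodule. -/
def GDa_mult {W : Type} [CommRing W] [Algebra Λ W] {S : Subalgebra Λ W} (A : Submodule S W) :
    Subalgebra Λ W where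
  carrier := {c | ∀ y ∈ A, c * y ∈ A}
  mul_mem' hx hy z hz := by
    rw [mul_assoc]
    exact hx _ (hy z hz)
  add_mem' hx hy z hz := by
    rw [add_mul]
    exact add_mem (hx z hz) (hy z hz)
  algebraMap_mem' r z hz := A.smul_mem ⟨_, algebraMap_mem S r⟩ hz

namespace GD

theorem T_le_B1 (d : GD s W₀) (a : Fin s.m) : d.T Λ ≤ d.B1 Λ a := by
  exact Algebra.adjoin_mono Set.subset_union_left

theorem B1_le_B (d : GD s W₀) {σ : Finset (Fin s.m)} {a : Fin s.m} (ha : a ∈ σ) :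
    d.B1 Λ a ≤ d.B Λ σ := by
  exact le_iSup₂_of_le (f := fun a (_ : a ∈ σ) => d.B1 Λ a) a ha le_rfl

theorem B_mono (d : GD s W₀) {σ σ' : Finset (Fin s.m)} (h : σ ⊆ σ') : d.B Λ σ ≤ d.B Λ σ' := by
  exact iSup₂_le fun a ha => d.B1_le_B (h ha)

theorem B_single (d : GD s W₀) (a : Fin s.m) : d.B Λ {a} = d.B1 Λ a := by
  simp [B]

theorem B_pair (d : GD s W₀) (a b : Fin s.m) : d.B Λ {a, b} = d.B1 Λ a ⊔ d.B1 Λ b := by
  rw [B, Finset.iSup_insert, Finset.iSup_singleton]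

theorem B_fg (d : GD s W₀) (σ : Finset (Fin s.m)) : (d.B Λ σ).FG := by
  induction σ using Finset.induction_on with
  | empty =>
    have e : d.B Λ ∅ = ⊥ := by simp [B]
    rw [e]
    exact Subalgebra.fg_bot
  | insert a σ _ ih =>
    rw [B, Finset.iSup_insert]
    exact Subalgebra.FG.sup
      (Subalgebra.fg_def.2 ⟨_, (Set.finite_range _).union (Set.finite_range _), rfl⟩) ih

theorem Pre.S_le_B (h : d.Pre Λ) (σ : Finset (Fin s.m)) : d.S Λ σ ≤ d.B Λ σ := by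
  exact iSup₂_le fun a ha => (h.hSB a).trans (d.B1_le_B ha)

theorem Pre.deg_T (h : d.Pre Λ) {w : LA W₀ s.ρ} (hw : w ∈ d.T Λ) : IsDeg 0 w := by
  refine isDeg_of_mem_adjoin ?_ hw
  rintro x ⟨i, rfl⟩
  exact h.dtg i

theorem Pre.deg_G (h : d.Pre Λ) (a : Fin s.m) : IsDeg 0 (d.G a : LA W₀ s.ρ) := by
  exact h.deg_T (d.mem_T_of_mem_sp_pow h.bT 1 (by rw [pow_one]; exact h.hG a))

theorem GDa_inv_deg {x y : LA W₀ s.ρ} (hx : IsDeg 0 x) (h : y * x = 1) : IsDeg 0 y := by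
  simpa using hx.of_mul_eq_one h

theorem Pre.deg_S (h : d.Pre Λ) (σ : Finset (Fin s.m)) {w : LA W₀ s.ρ} (hw : w ∈ d.S Λ σ) :
    IsDeg 0 w := by
  have hle : d.S Λ σ ≤ Algebra.adjoin Λ {w | IsDeg 0 w} := by
    refine iSup₂_le fun a _ => Algebra.adjoin_mono ?_
    rintro x (⟨i, rfl⟩ | ⟨i, rfl⟩)
    · exact h.dtg i
    · simpa using (h.deg_T (h.bT i)).mul (GDa_inv_deg (h.deg_G a) (d.G a).inv_mul)
  exact isDeg_of_mem_adjoin (fun x hx => hx) (hle hw)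

theorem Pre.isGr_B (h : d.Pre Λ) (σ : Finset (Fin s.m)) : IsGr (d.B Λ σ) := by
  have e : d.B Λ σ =
      Algebra.adjoin Λ (⋃ a ∈ σ, (Set.range d.tg ∪ Set.range (d.sg a))) := by
    refine le_antisymm (iSup₂_le fun a ha => Algebra.adjoin_mono
      (Set.subset_biUnion_of_mem (u := fun a => Set.range d.tg ∪ Set.range (d.sg a)) ha))
      (Algebra.adjoin_le (Set.iUnion₂_subset fun a ha x hx => ?_))
    exact d.B1_le_B ha (Algebra.subset_adjoin hx)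
  rw [e]
  refine isGr_adjoin fun x hx => ?_
  obtain ⟨a, _, ⟨i, rfl⟩ | ⟨i, rfl⟩⟩ := Set.mem_iUnion₂.1 hx
  · exact ⟨0, h.dtg i⟩
  · exact h.dsg a i

theorem GDa_deg_eI (h : d.Pre Λ) (i : Fin s.ne) : IsDeg 0 (d.eI i) :=
  GDa_inv_deg (h.deg_T (h.eT i)) ((mul_comm _ _).trans (h.heI i))

theorem Pre.isGr_SE (h : d.Pre Λ) (i : Fin s.ne) : IsGr (d.SE Λ i) := by
  refine isGr_adjoin ?_
  rintro x ((⟨k, rfl⟩ | rfl) | hx)
  · exact ⟨0, h.dtg k⟩
  · exact ⟨0, GDa_deg_eI h i⟩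
  · exact isHom_taus hx

theorem GDa_prod_mem (h : d.Pre Λ) (σ : Finset (Fin s.m)) :
    ((∏ a ∈ σ, d.G a : (LA W₀ s.ρ)ˣ) : LA W₀ s.ρ) ∈ d.sp Λ d.bg ^ σ.card := by
  induction σ using Finset.induction_on with
  | empty =>
    rw [Finset.card_empty, pow_zero, Finset.prod_empty, Submodule.mem_one]
    exact ⟨1, by simp⟩
  | insert a σ ha ih =>
    rw [Finset.prod_insert ha, Finset.card_insert_of_notMem ha, pow_succ', Units.val_mul]
    exact Submodule.mul_mem_mul (h.hG a) ih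

theorem GDa_inv_mem (h : d.Pre Λ) (σ : Finset (Fin s.m)) (a : Fin s.m) :
    ((∏ b ∈ σ, d.G a * (d.G b)⁻¹ : (LA W₀ s.ρ)ˣ) : LA W₀ s.ρ) ∈ d.S Λ σ := by
  rw [Units.coe_prod]
  exact prod_mem fun b hb => d.S1_le_S hb (d.RDa_div_mem b (h.hG a))

/-- Same proof as `RD.Pre.mem_S_iff`. -/
theorem Pre.mem_S_iff (h : d.Pre Λ) {σ : Finset (Fin s.m)} (hσ : σ.Nonempty) (w : LA W₀ s.ρ) :
    w ∈ d.S Λ σ ↔ ∃ i : ℕ, (((∏ a ∈ σ, d.G a) ^ i : (LA W₀ s.ρ)ˣ) : LA W₀ s.ρ) * w ∈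
      d.sp Λ d.bg ^ (i * σ.card) := by
  constructor
  · have hT : ∀ w ∈ d.T Λ, ∃ i : ℕ, (((∏ a ∈ σ, d.G a) ^ i : (LA W₀ s.ρ)ˣ) : LA W₀ s.ρ) * w ∈
        d.sp Λ d.bg ^ (i * σ.card) := fun w hw =>
      ⟨0, by
        rw [zero_mul, pow_zero, pow_zero, Units.val_one, one_mul, Submodule.mem_one]
        exact ⟨⟨w, hw⟩, rfl⟩⟩
    have hp : ∀ i : ℕ, (((∏ a ∈ σ, d.G a) ^ i : (LA W₀ s.ρ)ˣ) : LA W₀ s.ρ) ∈ d.sp Λ d.bg ^ (i * σ.card) := by
      intro i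
      rw [Units.val_pow_eq_pow_val, mul_comm, pow_mul]
      exact Submodule.pow_mem_pow _ (GDa_prod_mem h σ) i
    let R : Subalgebra Λ (LA W₀ s.ρ) :=
      { carrier := {w | ∃ i : ℕ, (((∏ a ∈ σ, d.G a) ^ i : (LA W₀ s.ρ)ˣ) : LA W₀ s.ρ) * w ∈
          d.sp Λ d.bg ^ (i * σ.card)}
        mul_mem' := by
          rintro x y ⟨i, hi⟩ ⟨k, hk⟩
          refine ⟨i + k, ?_⟩
          rw [pow_add, Units.val_mul, mul_mul_mul_comm, add_mul, pow_add]
          exact Submodule.mul_mem_mul hi hk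
        add_mem' := by
          rintro x y ⟨i, hi⟩ ⟨k, hk⟩
          refine ⟨i + k, ?_⟩
          rw [pow_add, Units.val_mul, add_mul, pow_add, mul_add]
          refine add_mem ?_ ?_
          · rw [mul_right_comm]
            exact Submodule.mul_mem_mul hi (hp k)
          · rw [mul_assoc]
            exact Submodule.mul_mem_mul (hp i) hk
        algebraMap_mem' := fun c => hT _ (algebraMap_mem _ c) }
    have hle : d.S Λ σ ≤ R := by
      refine iSup₂_le fun a ha => Algebra.adjoin_le ?_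
      rintro x (⟨i, rfl⟩ | ⟨i, rfl⟩)
      · exact hT _ (Algebra.subset_adjoin ⟨i, rfl⟩)
      · refine ⟨1, ?_⟩
        rw [pow_one, one_mul, ← Finset.prod_erase_mul _ _ ha, ← Finset.card_erase_add_one ha,
          pow_succ, Units.val_mul, mul_assoc, mul_left_comm (d.G a : LA W₀ s.ρ), Units.mul_inv, mul_one]
        exact Submodule.mul_mem_mul (GDa_prod_mem h _) (Submodule.subset_span ⟨i, rfl⟩)
    exact fun hw => hle hw
  · rintro ⟨i, hi⟩
    obtain ⟨a, ha⟩ := hσ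
    have h1 := mul_mem (d.S1_le_S ha (d.RDa_div_pow_mem a _ hi)) (pow_mem (GDa_inv_mem h σ a) i)
    have e : (∏ b ∈ σ, d.G b) ^ i * (d.G a)⁻¹ ^ (i * σ.card) *
        (∏ b ∈ σ, d.G a * (d.G b)⁻¹) ^ i = 1 := by
      rw [Finset.prod_mul_distrib, Finset.prod_const, Finset.prod_inv_distrib, mul_comm i, pow_mul,
        ← mul_pow, ← mul_pow, inv_pow, mul_assoc, inv_mul_cancel_left, mul_inv_cancel, one_pow]
    have e' := congrArg Units.val e
    simp only [Units.val_mul, Units.val_pow_eq_pow_val, Units.val_one] at e' h1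
    rwa [mul_right_comm _ w, mul_right_comm _ w, e', one_mul] at h1

theorem Pre.ratio_mem (h : d.Pre Λ) (a b : Fin s.m) :
    ((d.G b * (d.G a)⁻¹ : (LA W₀ s.ρ)ˣ) : LA W₀ s.ρ) ∈ d.S1 Λ a := by
  exact d.RDa_div_mem a (h.hG b)

theorem GDa_ratio_prod (h : d.Pre Λ) (σ : Finset (Fin s.m)) (a : Fin s.m) :
    ((∏ b ∈ σ, d.G b * (d.G a)⁻¹ : (LA W₀ s.ρ)ˣ) : LA W₀ s.ρ) ∈ d.S1 Λ a := by
  rw [Units.coe_prod]
  exact prod_mem fun b _ => h.ratio_mem a b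

theorem GDa_ratio_inv (d : GD s W₀) (σ : Finset (Fin s.m)) (a : Fin s.m) :
    ((∏ b ∈ σ, d.G b * (d.G a)⁻¹ : (LA W₀ s.ρ)ˣ) : LA W₀ s.ρ) *
      ((∏ b ∈ σ, d.G a * (d.G b)⁻¹ : (LA W₀ s.ρ)ˣ) : LA W₀ s.ρ) = 1 := by
  rw [← Units.val_mul, ← Finset.prod_mul_distrib, Finset.prod_eq_one, Units.val_one]
  intro b _
  rw [mul_assoc, inv_mul_cancel_left, mul_inv_cancel]

/-- `B σ` is the localization of `B1 a` away from `∏ b ∈ σ, G b / G a` (`hBB`). -/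
theorem Pre.exists_pow_B (h : d.Pre Λ) {σ : Finset (Fin s.m)} {a : Fin s.m} (ha : a ∈ σ)
    {w : LA W₀ s.ρ} (hw : w ∈ d.B Λ σ) : ∃ i : ℕ,
      (((∏ b ∈ σ, d.G b * (d.G a)⁻¹) ^ i : (LA W₀ s.ρ)ˣ) : LA W₀ s.ρ) * w ∈ d.B1 Λ a := by
  have hle : d.B Λ σ ≤ GDa_away (d.B1 Λ a) (h.hSB a (GDa_ratio_prod h σ a)) := by
    refine iSup₂_le fun b hb => Algebra.adjoin_le ?_
    rintro x (⟨i, rfl⟩ | ⟨i, rfl⟩)
    · exact GDa_le_away _ (Algebra.subset_adjoin (Or.inl ⟨i, rfl⟩))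
    · obtain ⟨k, hk⟩ := h.hBB a b i
      refine ⟨k, ?_⟩
      rw [← Finset.prod_erase_mul _ _ hb, Units.val_mul, mul_pow, mul_assoc]
      rw [Units.val_pow_eq_pow_val] at hk
      exact mul_mem (pow_mem (h.hSB a (GDa_ratio_prod h _ a)) k) hk
  obtain ⟨i, hi⟩ := hle hw
  exact ⟨i, by rwa [Units.val_pow_eq_pow_val]⟩

theorem Pre.etc_B (h : d.Pre Λ) {σ : Finset (Fin s.m)} {a : Fin s.m} (ha : a ∈ σ) :
    EtC (d.B Λ σ) (d.y a) := by
  refine (h.het a).of_away (d.B1_le_B ha) (h.hSB a (GDa_ratio_prod h σ a))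
    ⟨_, h.S_le_B σ (GDa_inv_mem h σ a), d.GDa_ratio_inv σ a⟩ fun z hz => ?_
  obtain ⟨i, hi⟩ := h.exists_pow_B ha hz
  exact ⟨i, by rwa [Units.val_pow_eq_pow_val] at hi⟩

/-- Monomials in the units `v a c`. -/
def GDa_V (d : GD s W₀) (a : Fin s.m) (k : Fin s.ρ → ℤ) : (LA W₀ s.ρ)ˣ := ∏ c, d.v a c ^ k c

theorem GDa_V_add (d : GD s W₀) (a : Fin s.m) (k : Fin s.ρ → ℤ) (c : Fin s.ρ) (m : ℤ) :
    d.GDa_V a (Pi.single c m + k) = d.v a c ^ m * d.GDa_V a k := by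
  simp only [GDa_V, Pi.add_apply, zpow_add, Finset.prod_mul_distrib]
  rw [Finset.prod_eq_single c (fun b _ hb => by rw [Pi.single_eq_of_ne hb, zpow_zero])
    (fun hc => absurd (Finset.mem_univ c) hc), Pi.single_eq_same]

theorem GDa_V_deg (h : d.Pre Λ) (a : Fin s.m) (k : Fin s.ρ → ℤ) :
    IsDeg (fun c => k c * s.mv) (d.GDa_V a k : LA W₀ s.ρ) := by
  have h1 := IsDeg.prod Finset.univ fun c _ => (h.dv a c).zpow (k c)
  rw [GDa_V, Units.coe_prod]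
  convert h1 using 1
  funext c
  simp [Finset.sum_apply, Pi.single_apply]

theorem GDa_V_mem (h : d.Pre Λ) (a : Fin s.m) (k : Fin s.ρ → ℤ) :
    (d.GDa_V a k : LA W₀ s.ρ) ∈ d.B1 Λ a := by
  rw [GDa_V, Units.coe_prod]
  refine prod_mem fun c _ => ?_
  rcases k c with m | m
  · rw [Int.ofNat_eq_natCast, zpow_natCast, Units.val_pow_eq_pow_val]
    exact pow_mem (h.hv a c).1 _
  · rw [zpow_negSucc, ← inv_pow, Units.val_pow_eq_pow_val]
    exact pow_mem (h.hv a c).2 _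

theorem GDa_span (h : d.Pre Λ) (a : Fin s.m) {x : LA W₀ s.ρ} (hx : x ∈ d.B1 Λ a) :
    x ∈ Submodule.span (d.S1 Λ a) (Set.range fun p : (Fin s.ρ → ℤ) × Fin s.no =>
      (d.GDa_V a p.1 : LA W₀ s.ρ) * d.om a p.2) := by
  have hz : ∀ (c : Fin s.ρ) (m : ℤ), ((d.v a c ^ m : (LA W₀ s.ρ)ˣ) : LA W₀ s.ρ) ∈
      GDa_mult (Submodule.span (d.S1 Λ a) (Set.range fun p : (Fin s.ρ → ℤ) × Fin s.no =>
        (d.GDa_V a p.1 : LA W₀ s.ρ) * d.om a p.2)) := fun c m y hy => by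
    induction hy using Submodule.span_induction with
    | mem y hy =>
      obtain ⟨p, rfl⟩ := hy
      refine Submodule.subset_span ⟨(Pi.single c m + p.1, p.2), ?_⟩
      simp only [GDa_V_add, Units.val_mul, mul_assoc]
    | zero => simp
    | add y z _ _ hy hz =>
      rw [mul_add]
      exact add_mem hy hz
    | smul r y _ hy =>
      rw [mul_smul_comm]
      exact Submodule.smul_mem _ r hy
  have hle : d.SV Λ a ≤ GDa_mult (Submodule.span (d.S1 Λ a)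
      (Set.range fun p : (Fin s.ρ → ℤ) × Fin s.no =>
        (d.GDa_V a p.1 : LA W₀ s.ρ) * d.om a p.2)) := by
    refine sup_le (fun r hr y hy => Submodule.smul_mem _ (⟨r, hr⟩ : d.S1 Λ a) hy)
      (Algebra.adjoin_le ?_)
    rintro x (⟨c, rfl⟩ | ⟨c, rfl⟩)
    · simpa only [zpow_one, SetLike.mem_coe] using hz c 1
    · simpa only [zpow_neg_one, SetLike.mem_coe] using hz c (-1)
  have h1 := h.hfin a x hx
  clear hx
  induction h1 using Submodule.span_induction with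
  | mem y hy =>
    obtain ⟨i, rfl⟩ := hy
    exact Submodule.subset_span ⟨(0, i), by simp [GDa_V]⟩
  | zero => exact zero_mem _
  | add y z _ _ hy hz => exact add_mem hy hz
  | smul r y _ hy => exact hle r.2 y hy

/-- Elements of `SV a` are sums of terms `c * v ^ k` with `c ∈ S1 a`. So the degree `β` part of
`B1 a` is spanned over `S1 a` by those `v ^ k * om a i` that have degree `β` (at most one `k` for
each nonzero `om a i`, since `mv > 0`); then use `exists_pow_B`. -/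
theorem Pre.piece_fg (h : d.Pre Λ) (a : Fin s.m) (β : Fin s.ρ → ℤ) :
    ∃ (k : ℕ) (w : Fin k → LA W₀ s.ρ), (∀ j, IsDeg β (w j) ∧ w j ∈ d.B1 Λ a) ∧
      ∀ σ : Finset (Fin s.m), a ∈ σ → ∀ x ∈ d.B Λ σ, IsDeg β x →
        x ∈ Submodule.span (d.S Λ σ) (Set.range w) := by
  classical
  choose γ hγ using h.dom a
  have hmv : (s.mv : ℤ) ≠ 0 := by exact_mod_cast h.hmv.ne'
  have hd : ∀ (k : Fin s.ρ → ℤ) i, IsDeg ((fun c => k c * s.mv) + γ i)
      ((d.GDa_V a k : LA W₀ s.ρ) * d.om a i) := fun k i => (GDa_V_deg h a k).mul (hγ i)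
  obtain ⟨w, hw1, hw2⟩ : ∃ w : Fin s.no → LA W₀ s.ρ, (∀ j, IsDeg β (w j) ∧ w j ∈ d.B1 Λ a) ∧
      ∀ (k : Fin s.ρ → ℤ) i, (fun c => k c * s.mv) + γ i = β →
        (d.GDa_V a k : LA W₀ s.ρ) * d.om a i = w i := by
    refine ⟨fun i => if e : ∃ k : Fin s.ρ → ℤ, (fun c => k c * s.mv) + γ i = β then
      (d.GDa_V a e.choose : LA W₀ s.ρ) * d.om a i else 0, fun i => ?_, fun k i e => ?_⟩
    · dsimp only
      split_ifs with e
      · have h1 := hd e.choose i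
        rw [e.choose_spec] at h1
        exact ⟨h1, mul_mem (GDa_V_mem h a _) (h.hom a i)⟩
      · exact ⟨isDeg_zero β, zero_mem _⟩
    · have e' : ∃ k : Fin s.ρ → ℤ, (fun c => k c * s.mv) + γ i = β := ⟨k, e⟩
      have h1 : e'.choose = k := funext fun c => mul_right_cancel₀ hmv
        (congrFun (add_right_cancel (e'.choose_spec.trans e.symm)) c)
      dsimp only
      rw [dif_pos e', h1]
  refine ⟨s.no, w, hw1, fun σ ha x hx hβ => ?_⟩
  have key : ∀ y ∈ d.B1 Λ a, pr β y ∈ Submodule.span (d.S Λ σ) (Set.range w) := fun y hy => by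
    have h1 := GDa_span h a hy
    clear hy
    induction h1 using Submodule.span_induction with
    | mem y hy =>
      obtain ⟨⟨k, i⟩, rfl⟩ := hy
      dsimp only
      by_cases e : (fun c => k c * s.mv) + γ i = β
      · rw [hw2 k i e, isDeg_iff.1 (hw1 i).1]
        exact Submodule.subset_span ⟨i, rfl⟩
      · rw [(hd k i).pr_of_ne (Ne.symm e)]
        exact zero_mem _
    | zero => simp
    | add y z _ _ hy hz =>
      rw [map_add]
      exact add_mem hy hz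
    | smul r y _ hy =>
      have h2 := pr_mul_deg (h.deg_S σ (d.S1_le_S ha r.2)) β y
      rw [add_zero, mul_comm y, mul_comm (pr β y)] at h2
      exact h2 ▸ Submodule.smul_mem _ (⟨r, d.S1_le_S ha r.2⟩ : d.S Λ σ) hy
  obtain ⟨i, hi⟩ := h.exists_pow_B ha hx
  have h1 := key _ hi
  rw [Units.val_pow_eq_pow_val] at h1
  have h2 := (h.deg_S σ (pow_mem (d.S1_le_S ha (GDa_ratio_prod h σ a)) i)).mul hβ
  rw [zero_add] at h2
  rw [isDeg_iff.1 h2] at h1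
  have h3 := Submodule.smul_mem _ (⟨_, pow_mem (GDa_inv_mem h σ a) i⟩ : d.S Λ σ) h1
  change _ * _ ∈ _ at h3
  rwa [← mul_assoc, ← mul_pow, mul_comm _ ((∏ b ∈ σ, d.G b * (d.G a)⁻¹ : (LA W₀ s.ρ)ˣ) :
    LA W₀ s.ρ), d.GDa_ratio_inv, one_pow, one_mul] at h3

theorem GDa_mem_Wg (h : d.Good Λ D) (w : LA W₀ s.ρ) : w ∈ d.Wg Λ := by
  rw [h.hW]
  exact Algebra.mem_top

theorem Good.exists_pow_T (h : d.Good Λ D) {w : LA W₀ s.ρ} (hw : IsDeg 0 w) :
    ∃ i : ℕ, (d.g : LA W₀ s.ρ) ^ i * w ∈ d.T Λ := by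
  have h1 := mem_adjoin_of_deg_zero (by
    rintro x (⟨i, rfl⟩ | rfl)
    · exact h.dtg i
    · exact GDa_inv_deg (h.deg_T h.gT) d.g.inv_mul) (GDa_mem_Wg h w) hw
  refine (Algebra.adjoin_le ?_ : _ ≤ GDa_away (d.T Λ) h.gT) h1
  rintro x (⟨i, rfl⟩ | rfl)
  · exact GDa_le_away _ (Algebra.subset_adjoin ⟨i, rfl⟩)
  · exact ⟨1, by simp⟩

theorem Good.exists_pow_B1 (h : d.Good Λ D) (a : Fin s.m) (w : LA W₀ s.ρ) :
    ∃ i : ℕ, (d.g : LA W₀ s.ρ) ^ i * w ∈ d.B1 Λ a := by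
  refine (Algebra.adjoin_le ?_ : _ ≤ GDa_away (d.B1 Λ a) (d.T_le_B1 a h.gT)) (GDa_mem_Wg h w)
  rintro x ((⟨i, rfl⟩ | rfl) | hx)
  · exact GDa_le_away _ (Algebra.subset_adjoin (Or.inl ⟨i, rfl⟩))
  · exact ⟨1, by simp⟩
  · exact h.hτ a x hx

theorem Good.exists_pow_SE (h : d.Good Λ D) (i : Fin s.ne) (w : LA W₀ s.ρ) :
    ∃ k : ℕ, (d.g : LA W₀ s.ρ) ^ k * w ∈ d.SE Λ i := by
  have hT : d.T Λ ≤ d.SE Λ i :=
    Algebra.adjoin_mono (Set.subset_union_left.trans Set.subset_union_left)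
  refine (Algebra.adjoin_le ?_ : _ ≤ GDa_away (d.SE Λ i) (hT h.gT)) (GDa_mem_Wg h w)
  rintro x ((⟨k, rfl⟩ | rfl) | hx)
  · exact GDa_le_away _ (hT (Algebra.subset_adjoin ⟨k, rfl⟩))
  · exact ⟨1, by simp⟩
  · exact GDa_le_away _ (Algebra.subset_adjoin (Or.inr hx))

theorem Pre.exists_pow_e (h : d.Pre Λ) (i : Fin s.ne) {w : LA W₀ s.ρ} (hw : w ∈ d.SE Λ i)
    (h0 : IsDeg 0 w) : ∃ k : ℕ, d.e i ^ k * w ∈ d.T Λ := by
  have h1 := mem_adjoin_of_deg_zero (by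
    rintro x (⟨k, rfl⟩ | rfl)
    · exact h.dtg k
    · exact GDa_deg_eI h i) hw h0
  refine (Algebra.adjoin_le ?_ : _ ≤ GDa_away (d.T Λ) (h.eT i)) h1
  rintro x (⟨k, rfl⟩ | rfl)
  · exact GDa_le_away _ (Algebra.subset_adjoin ⟨k, rfl⟩)
  · exact ⟨1, by rw [pow_one, h.heI]; exact one_mem _⟩

theorem Good.etc_top (h : d.Good Λ D) (a : Fin s.m) :
    EtC (⊤ : Subalgebra Λ (LA W₀ s.ρ)) (d.y a) := by
  exact (h.het a).of_away le_top (d.T_le_B1 a h.gT) ⟨_, Algebra.mem_top, d.g.mul_inv⟩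
    fun z _ => h.exists_pow_B1 a z

theorem Good.commD (h : d.Good Λ D) : CommD D := by
  exact (h.etc_top s.a0).commD h.hdual

/-- If `z w = 0` then `z * pr γ w * τ ^ (-γ) = 0` with a degree zero second factor. -/
theorem Good.mem_nonZeroDivisors (h : d.Good Λ D) {z : d.T Λ} (hz : z ∈ (d.T Λ)⁰) :
    (z : LA W₀ s.ρ) ∈ (LA W₀ s.ρ)⁰ := by
  rw [mem_nonZeroDivisors_iff_right] at hz ⊢
  intro w hw
  rw [← sum_pr w]
  refine Finset.sum_eq_zero fun γ _ => ?_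
  have h0 : pr γ w * z = 0 := by
    rw [← pr_mul_deg (h.deg_T z.2), hw, map_zero]
  have h1 := (isDeg_pr γ w).mul (isDeg_single (-γ) (1 : W₀))
  rw [add_neg_cancel] at h1
  obtain ⟨i, hi⟩ := h.exists_pow_T h1
  have h2 := hz ⟨_, hi⟩ (Subtype.ext (by
    change (d.g : LA W₀ s.ρ) ^ i * (pr γ w * AddMonoidAlgebra.single (-γ) 1) *
      (z : LA W₀ s.ρ) = 0
    rw [mul_assoc, mul_right_comm (pr γ w), h0, zero_mul, mul_zero]))
  have h3 := ((d.g.isUnit.pow i).mul_right_eq_zero).1 (congrArg Subtype.val h2)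
  have h4 := congrArg (· * AddMonoidAlgebra.single γ (1 : W₀)) h3
  simpa [mul_assoc, AddMonoidAlgebra.single_mul_single, ← AddMonoidAlgebra.one_def] using h4

theorem Pre.t_mem (h : d.Pre Λ) (a : Fin s.m) (i : Fin s.μ) :
    (d.t a i : LA W₀ s.ρ) ∈ d.B1 Λ a := by
  rw [h.ht]
  cases s.lam a i with
  | none => exact one_mem _
  | some l => exact (h.het a).mem l

theorem Pre.prod_tl (h : d.Pre Λ) (a : Fin s.m) : ∏ l, d.tl a l = ∏ i, d.t a i := by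
  refine RD.prod_tl_of (fun a i e => Units.ext ?_) a
  rw [h.ht, e]
  rfl

theorem Pre.tl_cases (h : d.Pre Λ) (a : Fin s.m) (l : Fin n) :
    (∃ i, s.lam a i = some l ∧ d.tl a l = d.t a i ∧ (d.tl a l : LA W₀ s.ρ) = d.y a l) ∨
      ((∀ i, s.lam a i ≠ some l) ∧ d.tl a l = 1) := by
  by_cases e : ∃ i, s.lam a i = some l
  · obtain ⟨i, hi⟩ := e
    have h1 : d.tl a l = d.t a i := by
      rw [RD.tl, Finset.prod_eq_single_of_mem i (Finset.mem_filter.2 ⟨Finset.mem_univ _, hi⟩)]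
      exact fun i' h1 h2 => absurd (h.hinj a i' i l (Finset.mem_filter.1 h1).2 hi) h2
    refine Or.inl ⟨i, hi, h1, ?_⟩
    rw [h1, h.ht, hi]
    rfl
  · exact Or.inr ⟨fun i hi => e ⟨i, hi⟩,
      Finset.prod_eq_one fun i hi => absurd ⟨i, (Finset.mem_filter.1 hi).2⟩ e⟩

end GD

end

end Pool.Agent.Lib.MP_4287a9_ag
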