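import Pool.Agent.Lib.MP_4287a9_ag.GrA
import Pool.Agent.Lib.MP_4287a9_ag.EpsD
import Pool.Agent.Lib.MP_4287a9_ag.EpsC

/-!
Homogeneous forms and graded lattices.
-/

open scoped TensorProduct ENNReal NNReal nonZeroDivisors Polynomial
open Filter

namespace Pool.Agent.Lib.MP_4287a9_ag

noncomputable section

variable {Λ W₀ : Type} [CommRing Λ] [CommRing W₀] [Algebra Λ W₀] {ρ n : ℕ}
  {dx : Fin n → Fin ρ → ℤ}

theorem prF_mem_Fdeg (γ : Fin ρ → ℤ) (w : Fm (LA W₀ ρ) n) : prF dx γ w ∈ Fdeg Λ dx γ := by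
  exact fun I => isDeg_pr _ _

theorem prF_eq_self {γ : Fin ρ → ℤ} {w : Fm (LA W₀ ρ) n} (h : w ∈ Fdeg Λ dx γ) :
    prF dx γ w = w := by
  funext I
  exact isDeg_iff.1 (h I)

theorem top_prF (γ : Fin ρ → ℤ) (w : Fm (LA W₀ ρ) n) :
    top (prF dx γ w) = pr (γ - ∑ i, dx i) (top w) := by
  rfl

theorem top_deg {γ : Fin ρ → ℤ} {w : Fm (LA W₀ ρ) n} (h : w ∈ Fdeg Λ dx γ) :
    IsDeg (γ - ∑ i, dx i) (top w) := by
  exact h Finset.univ

theorem prF_smul {β γ : Fin ρ → ℤ} {w : Fm (LA W₀ ρ) n} (h : w ∈ Fdeg Λ dx γ) (a : LA W₀ ρ) :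
    prF dx (β + γ) (a • w) = pr β a • w := by
  funext I
  change pr (β + γ - ∑ i ∈ I, dx i) (a * w I) = pr β a * w I
  rw [add_sub_assoc]
  exact pr_mul_deg (h I) β a

theorem smul_mem_Fdeg {β γ : Fin ρ → ℤ} {a : LA W₀ ρ} (ha : IsDeg β a) {w : Fm (LA W₀ ρ) n}
    (h : w ∈ Fdeg Λ dx γ) : a • w ∈ Fdeg Λ dx (β + γ) := by
  intro I
  change IsDeg (β + γ - ∑ i ∈ I, dx i) (a * w I)
  rw [add_sub_assoc]
  exact ha.mul (h I)

/-- A homogeneous derivation commutes with the projections up to a shift (`sum_pr`). -/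
theorem prF_dd {D : Fin n → Derivation Λ (LA W₀ ρ) (LA W₀ ρ)}
    (hD : ∀ i γ w, IsDeg γ w → IsDeg (γ - dx i) (D i w)) (γ : Fin ρ → ℤ) (w : Fm (LA W₀ ρ) n) :
    prF dx γ (dd D w) = dd D (prF dx γ w) := by
  have key : ∀ i β (x : LA W₀ ρ), pr (β - dx i) (D i x) = D i (pr β x) := by
    intro i β x
    conv_lhs => rw [← sum_pr x]
    rw [map_sum, map_sum, Finset.sum_eq_single β]
    · exact isDeg_iff.1 (hD i β _ (isDeg_pr β x))
    · intro β' _ hβ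
      exact (hD i β' _ (isDeg_pr β' x)).pr_of_ne fun h0 => hβ (sub_left_injective h0).symm
    · intro hβ
      have h0 : pr β x = 0 := by
        change AddMonoidAlgebra.single β (x.coeff β) = 0
        rw [Finsupp.notMem_support_iff.1 hβ, AddMonoidAlgebra.single_zero]
      rw [h0, map_zero, map_zero]
  change prF dx γ (∑ i, epsL i (fun I => D i (w I))) =
    ∑ i, epsL i (fun I => D i (prF dx γ w I))
  rw [map_sum]
  refine Finset.sum_congr rfl fun i _ => ?_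
  funext I
  change pr (γ - ∑ j ∈ I, dx j) (eps i (fun I => D i (w I)) I) =
    eps i (fun I => D i (pr (γ - ∑ j ∈ I, dx j) (w I))) I
  unfold eps
  split_ifs with hi
  · rw [map_zsmul]
    beta_reduce
    rw [← key, ← Finset.sum_erase_add _ _ hi, sub_add_eq_sub_sub]
  · exact map_zero _

theorem mon_mem_Fdeg {θ : Fin n → Fin n → LA W₀ ρ}
    (hθ : ∀ l, ∃ γ, ∀ i, IsDeg (γ - dx i) (θ l i)) (I : Finset (Fin n)) :
    ∃ γ, mon θ I ∈ Fdeg Λ dx γ := by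
  unfold mon
  induction I.sort (· ≤ ·) with
  | nil =>
    refine ⟨0, fun J => ?_⟩
    change IsDeg (0 - ∑ i ∈ J, dx i) ((Pi.single ∅ 1 : Fm (LA W₀ ρ) n) J)
    by_cases hJ : J = ∅
    · subst hJ
      rw [Pi.single_eq_same, Finset.sum_empty, sub_zero]
      exact isDeg_one
    · rw [Pi.single_eq_of_ne hJ]
      exact isDeg_zero _
  | cons l L ih =>
    obtain ⟨γ, hγ⟩ := ih
    obtain ⟨β, hβ⟩ := hθ l
    refine ⟨β + γ, ?_⟩
    rw [List.map_cons, EpsCAux.wl_cons, EpsCAux.wedge_apply]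
    refine Submodule.sum_mem _ fun i _ => ?_
    have h1 : epsL i (wl (L.map θ)) ∈ Fdeg Λ dx (γ + dx i) := by
      intro J
      change IsDeg (γ + dx i - ∑ j ∈ J, dx j) (eps i (wl (L.map θ)) J)
      unfold eps
      split_ifs with hi
      · refine IsDeg.zsmul ?_ _
        rw [← Finset.sum_erase_add _ _ hi, add_sub_add_right_eq_sub]
        exact hγ _
      · exact isDeg_zero _
    have h2 := smul_mem_Fdeg (hβ i) h1
    rwa [show β - dx i + (γ + dx i) = β + γ by abel] at h2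

theorem GrB_gen {τ : LA W₀ ρ} (hτ : IsHom τ) {θ : Fin n → Fin n → LA W₀ ρ}
    (hθ : ∀ l, ∃ γ, ∀ i, IsDeg (γ - dx i) (θ l i)) :
    ∃ g : Finset (Fin n) → Fin ρ → ℤ, ∀ I, τ • mon θ I ∈ Fdeg Λ dx (g I) := by
  obtain ⟨t, ht⟩ := hτ
  choose g hg using mon_mem_Fdeg (Λ := Λ) hθ
  exact ⟨fun I => t + g I, fun I => smul_mem_Fdeg ht (hg I)⟩

theorem prF_mem_lat {S : Subalgebra Λ (LA W₀ ρ)} (hS : IsGr S) {τ : LA W₀ ρ} (hτ : IsHom τ)
    {θ : Fin n → Fin n → LA W₀ ρ} (hθ : ∀ l, ∃ γ, ∀ i, IsDeg (γ - dx i) (θ l i))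
    (γ : Fin ρ → ℤ) {w : Fm (LA W₀ ρ) n} (hw : w ∈ lat S τ θ) : prF dx γ w ∈ lat S τ θ := by
  obtain ⟨g, hg⟩ := GrB_gen (Λ := Λ) hτ hθ
  obtain ⟨a, rfl⟩ := EpsD_mem_lat.1 hw
  refine EpsD_mem_lat.2 ⟨fun I => ⟨pr (γ - g I) (a I), hS _ _ (a I).2⟩, ?_⟩
  rw [map_sum]
  refine Finset.sum_congr rfl fun I _ => ?_
  rw [← prF_smul (hg I), sub_add_cancel]

/-- Finite generation of a homogeneous part of a lattice, simultaneously for a family of rings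
`S i ⊇ S₀ i`: if `S i₀` has finite graded pieces whose generators also generate the pieces of all
`S i` over `S₀ i`, take the elements `w j • τ • mon θ I`. -/
theorem lat_deg_fg {ι : Type} (S S₀ : ι → Subalgebra Λ (LA W₀ ρ)) (hle : ∀ i, S₀ i ≤ S i)
    (hgr : ∀ i, IsGr (S i)) (h0 : ∀ i, ∀ x ∈ S₀ i, IsDeg 0 x)
    (hfin : ∀ β, ∃ (k : ℕ) (w : Fin k → LA W₀ ρ), (∀ j, IsDeg β (w j)) ∧ ∀ i,
      (∀ j, w j ∈ S i) ∧ ∀ x ∈ S i, IsDeg β x → x ∈ Submodule.span (S₀ i) (Set.range w))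
    {τ : LA W₀ ρ} (hτ : IsHom τ) {θ : Fin n → Fin n → LA W₀ ρ}
    (hθ : ∀ l, ∃ γ, ∀ i, IsDeg (γ - dx i) (θ l i)) (γ : Fin ρ → ℤ) :
    ∃ (k : ℕ) (η : Fin k → Fm (LA W₀ ρ) n), ∀ i,
      ((lat (S i) τ θ ⊓ Fdeg Λ dx γ : Submodule Λ _) : Set (Fm (LA W₀ ρ) n)) =
        (Submodule.span (S₀ i) (Set.range η) : Set (Fm (LA W₀ ρ) n)) := by
  obtain ⟨g, hg⟩ := GrB_gen (Λ := Λ) hτ hθ
  choose k w hw hS using hfin
  let η : (Σ I : Finset (Fin n), Fin (k (γ - g I))) → Fm (LA W₀ ρ) n :=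
    fun x => w (γ - g x.1) x.2 • τ • mon θ x.1
  refine ⟨_, η ∘ (Fintype.equivFin _).symm, fun i => ?_⟩
  rw [(Fintype.equivFin _).symm.surjective.range_comp]
  ext x
  simp only [SetLike.mem_coe, Submodule.mem_inf]
  constructor
  · rintro ⟨hx, hd⟩
    obtain ⟨a, ha⟩ := EpsD_mem_lat.1 hx
    rw [← prF_eq_self hd, ← ha, map_sum]
    refine Submodule.sum_mem _ fun I _ => ?_
    have e := prF_smul (β := γ - g I) (hg I) (a I : LA W₀ ρ)
    rw [sub_add_cancel] at e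
    rw [e]
    have hm := (hS (γ - g I) i).2 _ (hgr i (γ - g I) _ (a I).2) (isDeg_pr _ _)
    generalize pr (γ - g I) (a I : LA W₀ ρ) = y at hm
    induction hm using Submodule.span_induction with
    | mem y hy =>
      obtain ⟨j, rfl⟩ := hy
      exact Submodule.subset_span ⟨⟨I, j⟩, rfl⟩
    | zero =>
      rw [zero_smul]
      exact Submodule.zero_mem _
    | add y y' _ _ hy hy' =>
      rw [add_smul]
      exact Submodule.add_mem _ hy hy'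
    | smul c y _ hy =>
      rw [smul_assoc]
      exact Submodule.smul_mem _ c hy
  · intro hx
    have hsm : ∀ c ∈ S i, ∀ y ∈ lat (S i) τ θ, c • y ∈ lat (S i) τ θ := fun c hc y hy =>
      (Submodule.span (S i) (Set.range fun I => τ • mon θ I)).smul_mem ⟨c, hc⟩ hy
    induction hx using Submodule.span_induction with
    | mem y hy =>
      obtain ⟨⟨I, j⟩, rfl⟩ := hy
      refine ⟨hsm _ ((hS (γ - g I) i).1 j) _ (Submodule.subset_span ⟨I, rfl⟩), ?_⟩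
      have h1 := smul_mem_Fdeg (hw (γ - g I) j) (hg I)
      rwa [sub_add_cancel] at h1
    | zero => exact ⟨Submodule.zero_mem _, Submodule.zero_mem _⟩
    | add y y' _ _ hy hy' =>
      exact ⟨Submodule.add_mem _ hy.1 hy'.1, Submodule.add_mem _ hy.2 hy'.2⟩
    | smul c y _ hy =>
      refine ⟨hsm _ (hle i c.2) _ hy.1, ?_⟩
      have h1 := smul_mem_Fdeg (h0 i c c.2) hy.2
      rwa [zero_add] at h1

/-- The projection as a linear map. -/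
def GrB_prL (Λ : Type) [CommRing Λ] [Algebra Λ W₀] (dx : Fin n → Fin ρ → ℤ) (γ : Fin ρ → ℤ) :
    Fm (LA W₀ ρ) n →ₗ[Λ] Fm (LA W₀ ρ) n where
  toFun := prF dx γ
  map_add' := map_add _
  map_smul' c w := funext fun I => pr_smul _ c (w I)

/-- A retract of a flat module. -/
theorem flat_inf_Fdeg {L : Submodule Λ (Fm (LA W₀ ρ) n)} {γ : Fin ρ → ℤ}
    (hL : ∀ w ∈ L, prF dx γ w ∈ L) (h : Module.Flat Λ L) :
    Module.Flat Λ (L ⊓ Fdeg Λ dx γ : Submodule Λ _) := by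
  refine Module.Flat.of_retract (R := Λ) (M := L) (Submodule.inclusion inf_le_left)
    (((GrB_prL Λ dx γ).comp L.subtype).codRestrict _ fun x =>
      ⟨hL _ x.2, prF_mem_Fdeg γ _⟩) ?_
  ext1 x
  exact Subtype.ext (prF_eq_self x.2.2)

theorem pure_inf_Fdeg {L : Submodule Λ (Fm (LA W₀ ρ) n)} {γ : Fin ρ → ℤ}
    (hL : ∀ w ∈ L, prF dx γ w ∈ L) {z : Ideal Λ} (h : Pure z L) : Pure z (L ⊓ Fdeg Λ dx γ) := by
  rintro x ⟨⟨h1, h2⟩, h3⟩
  have h4 := EpsD_map_smul (GrB_prL Λ dx γ) (q := L ⊓ Fdeg Λ dx γ)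
    (fun y hy => ⟨hL y hy, prF_mem_Fdeg γ y⟩) (h ⟨h1, h3⟩)
  have h5 : GrB_prL Λ dx γ x = x := prF_eq_self h2
  rwa [h5] at h4

theorem fmap_inf_Fdeg {κ W₁ : Type} [CommRing κ] [CommRing W₁] [Algebra κ W₁] (π : W₀ →+* W₁)
    {L : Submodule Λ (Fm (LA W₀ ρ) n)} {L' : Submodule κ (Fm (LA W₁ ρ) n)} {γ : Fin ρ → ℤ}
    (hL : ∀ w ∈ L, prF dx γ w ∈ L)
    (h : fmap n (lmap ρ π) '' (L : Set (Fm (LA W₀ ρ) n)) = (L' : Set (Fm (LA W₁ ρ) n))) :
    fmap n (lmap ρ π) '' ((L ⊓ Fdeg Λ dx γ : Submodule Λ _) : Set (Fm (LA W₀ ρ) n)) =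
      ((L' ⊓ Fdeg κ dx γ : Submodule κ _) : Set (Fm (LA W₁ ρ) n)) := by
  ext y
  constructor
  · rintro ⟨x, ⟨h1, h2⟩, rfl⟩
    refine ⟨?_, fun I => (h2 I).lmap π⟩
    have h3 : fmap n (lmap ρ π) x ∈ (L' : Set (Fm (LA W₁ ρ) n)) := h ▸ ⟨x, h1, rfl⟩
    exact h3
  · rintro ⟨h1, h2⟩
    have h3 : y ∈ fmap n (lmap ρ π) '' (L : Set (Fm (LA W₀ ρ) n)) := h ▸ h1
    obtain ⟨x, hx, rfl⟩ := h3
    refine ⟨prF dx γ x, ⟨hL x hx, prF_mem_Fdeg γ x⟩, ?_⟩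
    rw [← prF_eq_self h2]
    funext I
    exact lmap_pr π _ _

end

end Pool.Agent.Lib.MP_4287a9_ag
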