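import Pool.Agent.Lib.MP_4287a9_ag.RDa
import Pool.Agent.Lib.MP_4287a9_ag.EpsC

/-!
Compatibility of the lattices on overlaps.
-/

open scoped TensorProduct ENNReal NNReal nonZeroDivisors Polynomial
open Filter

namespace Pool.Agent.Lib.MP_4287a9_ag

noncomputable section

variable {n : ℕ} {s : Shp n} {W : Type} [CommRing W] {d : RD s W} {Λ : Type} [CommRing Λ]
  [Algebra Λ W] {D : Fin n → Derivation Λ W W}

theorem As.mono {S S' : Subalgebra Λ W} (h : S ≤ S') {x y : Wˣ} (hxy : As S x y) : As S' x y := by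
  exact ⟨h hxy.1, h hxy.2⟩

theorem As.refl (S : Subalgebra Λ W) (x : Wˣ) : As S x x := by
  unfold As
  rw [mul_inv_cancel, Units.val_one]
  exact ⟨one_mem _, one_mem _⟩

theorem As.symm {S : Subalgebra Λ W} {x y : Wˣ} (h : As S x y) : As S y x := by
  exact ⟨h.2, h.1⟩

theorem As.trans {S : Subalgebra Λ W} {x y z : Wˣ} (h : As S x y) (h' : As S y z) :
    As S x z := by
  have e1 : x * z⁻¹ = x * y⁻¹ * (y * z⁻¹) := by group
  have e2 : z * x⁻¹ = z * y⁻¹ * (y * x⁻¹) := by group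
  unfold As
  rw [e1, e2]
  exact ⟨mul_mem h.1 h'.1, mul_mem h'.2 h.2⟩

theorem As.mul {S : Subalgebra Λ W} {x y x' y' : Wˣ} (h : As S x y) (h' : As S x' y') :
    As S (x * x') (y * y') := by
  have e1 : x * x' * (y * y')⁻¹ = x * y⁻¹ * (x' * y'⁻¹) := by
    rw [mul_inv, mul_mul_mul_comm]
  have e2 : y * y' * (x * x')⁻¹ = y * x⁻¹ * (y' * x'⁻¹) := by
    rw [mul_inv, mul_mul_mul_comm]
  unfold As
  rw [e1, e2]
  exact ⟨mul_mem h.1 h'.1, mul_mem h.2 h'.2⟩

private theorem As.pow {S : Subalgebra Λ W} {x y : Wˣ} (h : As S x y) (k : ℕ) :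
    As S (x ^ k) (y ^ k) := by
  induction k with
  | zero =>
    rw [pow_zero, pow_zero]
    exact As.refl S 1
  | succ k ih =>
    rw [pow_succ, pow_succ]
    exact ih.mul h

private theorem As.inv {S : Subalgebra Λ W} {x y : Wˣ} (h : As S x y) : As S x⁻¹ y⁻¹ := by
  unfold As
  rw [inv_inv, inv_inv, mul_comm x⁻¹, mul_comm y⁻¹]
  exact ⟨h.2, h.1⟩

theorem As.zpow {S : Subalgebra Λ W} {x y : Wˣ} (h : As S x y) (k : ℤ) :
    As S (x ^ k) (y ^ k) := by
  rcases k with k | k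
  · rw [Int.ofNat_eq_natCast, zpow_natCast, zpow_natCast]
    exact h.pow k
  · rw [zpow_negSucc, zpow_negSucc]
    exact (h.pow _).inv

theorem As.prod {S : Subalgebra Λ W} {ι : Type} (t : Finset ι) {x y : ι → Wˣ}
    (h : ∀ i ∈ t, As S (x i) (y i)) : As S (∏ i ∈ t, x i) (∏ i ∈ t, y i) := by
  classical
  induction t using Finset.induction_on with
  | empty => simpa using As.refl S 1
  | insert a t ha ih =>
    rw [Finset.prod_insert ha, Finset.prod_insert ha]
    exact (h a (Finset.mem_insert_self a t)).mul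
      (ih fun i hi => h i (Finset.mem_insert_of_mem hi))

namespace RD

theorem Pre.grad_mem (h : d.Pre Λ) {σ : Finset (Fin s.m)} {a : Fin s.m} (ha : a ∈ σ) {w : W}
    (hw : w ∈ d.S Λ σ) : grad D w ∈ Submodule.span (d.S Λ σ) (Set.range (d.theta D a)) := by
  obtain ⟨c, hc, hD⟩ := (h.etc_S ha).exists_chain hw
  have h1 : grad D w = ∑ l, (c l * (d.tl a l : W)) • d.theta D a l := by
    funext i
    simp only [grad, theta, Finset.sum_apply, Pi.smul_apply, smul_eq_mul]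
    rw [hD]
    refine Finset.sum_congr rfl fun l _ => ?_
    rw [mul_assoc, Units.mul_inv_cancel_left]
  rw [h1]
  refine Submodule.sum_mem _ fun l _ => ?_
  have h2 : (d.tl a l : W) ∈ d.S Λ σ := by
    unfold tl
    rw [Units.coe_prod]
    exact prod_mem fun i _ => d.S1_le_S ha (h.t_mem a i)
  exact Submodule.smul_mem _ (⟨_, mul_mem (hc l) h2⟩ : d.S Λ σ) (Submodule.subset_span ⟨l, rfl⟩)

/-- `d t / t` is a logarithmic form for every chart of `σ`: `t b i = v * t a i` with `v` a unit of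
`S σ`. -/
theorem Pre.dlog_mem (h : d.Pre Λ) {σ : Finset (Fin s.m)} {a b : Fin s.m} (ha : a ∈ σ)
    (hb : b ∈ σ) (i : Fin s.μ) : (((d.t b i)⁻¹ : Wˣ) : W) • grad D (d.t b i : W) ∈
      Submodule.span (d.S Λ σ) (Set.range (d.theta D a)) := by
  have hle : d.S1 Λ a ⊔ d.S1 Λ b ≤ d.S Λ σ := sup_le (d.S1_le_S ha) (d.S1_le_S hb)
  have hv := (h.hglue a b i).mono hle
  have h1 : (((d.t b i)⁻¹ : Wˣ) : W) • grad D (d.t b i : W) =
      (((d.t a i)⁻¹ : Wˣ) : W) • grad D (d.t a i : W) +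
        ((d.t a i * (d.t b i)⁻¹ : Wˣ) : W) • grad D ((d.t b i * (d.t a i)⁻¹ : Wˣ) : W) := by
    funext k
    have e1 : (d.t b i : W) = ((d.t b i * (d.t a i)⁻¹ : Wˣ) : W) * d.t a i := by simp
    have e2 := congrArg (D k) e1
    rw [Derivation.leibniz] at e2
    simp only [grad, Pi.smul_apply, Pi.add_apply, smul_eq_mul] at e2 ⊢
    rw [e2]
    simp only [Units.val_mul]
    have e3 := (d.t b i).inv_mul
    linear_combination (((d.t a i)⁻¹ : Wˣ) : W) * D k (d.t a i : W) * e3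
  rw [h1]
  refine add_mem ?_ (Submodule.smul_mem _ (⟨_, hv.1⟩ : d.S Λ σ) (h.grad_mem ha hv.2))
  have h2 := h.ht a i
  rcases hl : s.lam a i with _ | l
  · rw [hl, Option.elim_none] at h2
    have h3 : grad D (1 : W) = 0 := funext fun k => (D k).map_one_eq_zero
    rw [h2, h3, smul_zero]
    exact zero_mem _
  · rw [hl, Option.elim_some] at h2
    rcases h.tl_cases a l with ⟨i', hi', h3, -⟩ | ⟨h3, -⟩
    · obtain rfl := h.hinj a i i' l hl hi'
      refine Submodule.subset_span ⟨l, ?_⟩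
      rw [theta, h3, h2]
    · exact absurd hl (h3 i)

theorem Pre.theta_mem (h : d.Pre Λ) {σ : Finset (Fin s.m)} {a b : Fin s.m} (ha : a ∈ σ)
    (hb : b ∈ σ) (l : Fin n) :
    d.theta D b l ∈ Submodule.span (d.S Λ σ) (Set.range (d.theta D a)) := by
  rcases h.tl_cases b l with ⟨i, -, h1, h2⟩ | ⟨-, h1⟩
  · have h3 := h.dlog_mem (D := D) ha hb i
    rw [theta, ← h2, h1]
    exact h3
  · rw [theta, h1, inv_one, Units.val_one, one_smul]
    exact h.grad_mem ha ((h.etc_S hb).mem l)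

private theorem Amb.j_mem (h : d.Amb Λ D) {σ : Finset (Fin s.m)} {a b : Fin s.m} (ha : a ∈ σ)
    (hb : b ∈ σ) : ((d.j a * (d.j b)⁻¹ : Wˣ) : W) ∈ d.S Λ σ := by
  choose c hc hD using fun l => (h.toPre.etc_S ha).exists_chain ((h.toPre.etc_S hb).mem l)
  have h1 : (Matrix.of fun i l => D i (d.y b l)) =
      (Matrix.of fun i l => D i (d.y a l)) * Matrix.of fun k l => c l k := by
    ext i l
    simp only [Matrix.of_apply, Matrix.mul_apply]
    rw [hD]
    exact Finset.sum_congr rfl fun k _ => mul_comm _ _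
  have h2 := h.hdet b
  rw [h1, Matrix.det_mul] at h2
  have h3 : ((d.j a * (d.j b)⁻¹ : Wˣ) : W) = (Matrix.of fun k l => c l k).det := by
    rw [Units.val_mul]
    have e1 := h.hdet a
    have e2 := (d.j b).inv_mul
    linear_combination (-(d.j a : W) * (((d.j b)⁻¹ : Wˣ) : W)) * h2 +
      ((d.j a : W) * (Matrix.of fun i l => D i (d.y a l)).det *
        (Matrix.of fun k l => c l k).det) * e2 + (Matrix.of fun k l => c l k).det * e1
  rw [h3, Matrix.det_apply']
  exact sum_mem fun π _ => mul_mem (intCast_mem _ _) (prod_mem fun i _ => hc _ _)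

/-- Chain rule (`EtC.exists_chain`) and multiplicativity of the determinant. -/
theorem Amb.as_j (h : d.Amb Λ D) (a b : Fin s.m) : As (d.S Λ {a, b}) (d.j a) (d.j b) := by
  exact ⟨h.j_mem (by simp) (by simp), h.j_mem (by simp) (by simp)⟩

theorem Amb.as_tau (h : d.Amb Λ D) (a b : Fin s.m) (q : ℕ) :
    As (d.S Λ {a, b}) (d.tau a q) (d.tau b q) := by
  refine ((h.as_j a b).pow q).mul (As.prod _ fun i _ => As.zpow ?_ _)
  rw [d.S_pair]
  exact h.hglue a b i

theorem Amb.as_sig (h : d.Amb Λ D) (a b : Fin s.m) (q : ℕ) :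
    As (d.S Λ {a, b}) (d.sig a q) (d.sig b q) := by
  refine ((h.as_j a b).zpow _).mul (As.prod _ fun i _ => As.zpow ?_ _)
  rw [d.S_pair]
  exact h.hglue a b i

theorem Amb.LL_eq (h : d.Amb Λ D) (q : ℕ) {σ : Finset (Fin s.m)} {a : Fin s.m} (ha : a ∈ σ) :
    d.LL D q σ = lat (d.S Λ σ) (d.tau a q : W) (d.theta D a) := by
  refine le_antisymm (iSup₂_le fun b hb => ?_)
    (le_iSup₂_of_le (f := fun a (_ : a ∈ σ) => lat (d.S Λ σ) (d.tau a q : W) (d.theta D a))
      a ha le_rfl)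
  have h1 : ({a, b} : Finset (Fin s.m)) ⊆ σ := by
    intro x hx
    rcases Finset.mem_insert.1 hx with rfl | hx
    · exact ha
    · rw [Finset.mem_singleton.1 hx]
      exact hb
  refine lat_le le_rfl ⟨_, d.S_mono h1 (h.as_tau a b q).2, ?_⟩ (h.toPre.theta_mem ha hb)
  simp

theorem Amb.LL_mono (h : d.Amb Λ D) (q : ℕ) {σ σ' : Finset (Fin s.m)} (hσ : σ ⊆ σ') :
    d.LL D q σ ≤ d.LL D q σ' := by
  have _ := h
  refine iSup₂_le fun a ha => ?_
  refine le_iSup₂_of_le (f := fun a (_ : a ∈ σ') => lat (d.S Λ σ') (d.tau a q : W) (d.theta D a))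
    a (hσ ha) ?_
  exact lat_le (d.S_mono hσ) ⟨1, one_mem _, (one_mul _).symm⟩
    fun l => Submodule.subset_span ⟨l, rfl⟩

theorem Amb.det_theta (h : d.Amb Λ D) (a : Fin s.m) :
    (Matrix.of (d.theta D a)).det = (((d.j a * ∏ i, d.t a i)⁻¹ : Wˣ) : W) := by
  have h1 : Matrix.of (d.theta D a) = Matrix.of fun l i => (((d.tl a l)⁻¹ : Wˣ) : W) *
      (Matrix.of fun i l => D i (d.y a l)).transpose l i := by
    ext l i
    rfl
  rw [h1, Matrix.det_mul_column, Matrix.det_transpose, ← h.toPre.prod_tl a, mul_inv,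
    ← Finset.prod_inv_distrib, Units.val_mul, Units.coe_prod, mul_comm]
  congr 1
  exact (Units.inv_eq_of_mul_eq_one_right (h.hdet a)).symm

theorem Amb.tau_mul_det (h : d.Amb Λ D) (a : Fin s.m) (q : ℕ) :
    (d.tau a q : W) * (Matrix.of (d.theta D a)).det = d.sig a q := by
  rw [h.det_theta, ← Units.val_mul]
  congr 1
  simp only [tau, sig, zpow_sub, zpow_one, zpow_natCast, zpow_neg, Finset.prod_mul_distrib,
    mul_inv]
  rw [mul_mul_mul_comm, mul_right_comm (∏ i, d.t a i), mul_inv_cancel, one_mul]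

private theorem Pre.ce_add (h : d.Pre Λ) (q k : ℕ) (i : Fin s.μ) :
    s.ce (q + k * s.N) i = s.ce q i + k * s.al i := by
  have hN : (s.N : ℚ) ≠ 0 := by
    have := Nat.mul_pos h.hr h.hM
    exact_mod_cast this.ne'
  unfold Shp.ce
  rw [← Int.ceil_add_intCast]
  congr 1
  push_cast
  field_simp

private theorem Pre.as_key (h : d.Pre Λ) (a : Fin s.m) (k : ℕ) :
    As (d.S1 Λ a) (d.j a ^ (k * s.N) * ∏ i, d.t a i ^ (-((k : ℤ) * s.al i)))
      ((d.u * d.G a) ^ k) := by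
  have h1 := ((h.hj a).pow k).mul (As.refl (d.S1 Λ a) (∏ i, d.t a i ^ (-((k : ℤ) * s.al i))))
  have h2 : (d.u * d.G a * ∏ i, d.t a i ^ s.al i) ^ k * ∏ i, d.t a i ^ (-((k : ℤ) * s.al i)) =
      (d.u * d.G a) ^ k := by
    rw [mul_pow, mul_assoc, ← Finset.prod_pow, ← Finset.prod_mul_distrib, Finset.prod_eq_one,
      mul_one]
    intro i _
    rw [← zpow_natCast, ← zpow_mul, ← zpow_add, mul_comm, add_neg_cancel, zpow_zero]
  rwa [h2, ← pow_mul, mul_comm s.N k] at h1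

theorem Pre.tau_add (h : d.Pre Λ) (a : Fin s.m) (q k : ℕ) :
    As (d.S1 Λ a) (d.tau a (q + k * s.N)) (d.tau a q * (d.u * d.G a) ^ k) := by
  have h1 : d.tau a (q + k * s.N) =
      d.tau a q * (d.j a ^ (k * s.N) * ∏ i, d.t a i ^ (-((k : ℤ) * s.al i))) := by
    unfold tau
    rw [mul_mul_mul_comm, ← pow_add, ← Finset.prod_mul_distrib]
    congr 1
    refine Finset.prod_congr rfl fun i _ => ?_
    rw [← zpow_add, h.ce_add]
    congr 1
    ring
  rw [h1]
  exact (As.refl _ _).mul (h.as_key a k)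

theorem Pre.sig_add (h : d.Pre Λ) (a : Fin s.m) (q k : ℕ) :
    As (d.S1 Λ a) (d.sig a (q + k * s.N)) (d.sig a q * (d.u * d.G a) ^ k) := by
  have h1 : d.sig a (q + k * s.N) =
      d.sig a q * (d.j a ^ (k * s.N) * ∏ i, d.t a i ^ (-((k : ℤ) * s.al i))) := by
    unfold sig
    rw [mul_mul_mul_comm, ← zpow_natCast (d.j a) (k * s.N), ← zpow_add,
      ← Finset.prod_mul_distrib]
    congr 1
    · congr 1
      push_cast
      ring
    · refine Finset.prod_congr rfl fun i _ => ?_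
      rw [← zpow_add, h.ce_add]
      congr 1
      ring
  rw [h1]
  exact (As.refl _ _).mul (h.as_key a k)

theorem Good.closed_theta (h : d.Good Λ D) (a : Fin s.m) (l : Fin n) :
    IsClosedF D (d.theta D a l) := by
  intro i j
  have hc := h.commD i j (d.y a l)
  simp only [theta, grad, Pi.smul_apply, smul_eq_mul, Derivation.leibniz]
  rw [hc]
  congr 1
  rcases h.toPre.tl_cases a l with ⟨_, -, -, h2⟩ | ⟨-, h1⟩
  · have h3 : ∀ k, D k (((d.tl a l)⁻¹ : Wˣ) : W) =
        -(((d.tl a l)⁻¹ : Wˣ) : W) ^ 2 • D k (d.y a l) := fun k =>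
      (D k).leibniz_of_mul_eq_one (by rw [← h2, Units.inv_mul])
    rw [h3, h3]
    simp only [smul_eq_mul]
    ring
  · simp [h1]

/-- `⌈α / N⌉ ≥ 0` because `α > -N`. -/
theorem Pre.one_mem_Gam (h : d.Pre Λ) : (1 : W) ∈ d.Gam Λ 1 := by
  intro a
  have hN : (0 : ℚ) < s.N := by exact_mod_cast Nat.mul_pos h.hr h.hM
  have h1 : ∀ i, 0 ≤ s.ce 1 i := fun i => by
    have h2 : (-1 : ℤ) < s.ce 1 i := by
      unfold Shp.ce
      rw [Int.lt_ceil, lt_div_iff₀ hN]
      have h3 : (((-(s.N : ℤ) : ℤ)) : ℚ) < (s.al i : ℚ) := by exact_mod_cast h.hal i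
      push_cast at h3 ⊢
      linarith
    omega
  have h4 : (d.sig a 1)⁻¹ = ∏ i, d.t a i ^ (s.ce 1 i).toNat := by
    unfold sig
    rw [Nat.cast_one, sub_self, zpow_zero, one_mul, ← Finset.prod_inv_distrib]
    refine Finset.prod_congr rfl fun i _ => ?_
    rw [zpow_neg, inv_inv, ← zpow_natCast, Int.toNat_of_nonneg (h1 i)]
  rw [h4, one_mul, Units.coe_prod]
  exact prod_mem fun i _ => by
    rw [Units.val_pow_eq_pow_val]
    exact pow_mem (h.t_mem a i) _

end RD

end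

end Pool.Agent.Lib.MP_4287a9_ag
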