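import Pool.Agent.Lib.MP_4287a9_ag.D1

/-!
Generic flatness.
-/

open scoped TensorProduct ENNReal NNReal nonZeroDivisors Polynomial
open Filter

namespace Pool.Agent.Lib.MP_4287a9_ag

noncomputable section

/-- The span of the elementary trivial relations with coefficients `f`. -/
def gfZ {B : Type} [CommRing B] {l : ℕ} (f : Fin l → B) (M : Type) [AddCommGroup M]
    [Module B M] : Submodule B (Fin l → M) :=
  Submodule.span B {z | ∃ (a : Fin l → B) (y : M), ∑ i, f i * a i = 0 ∧ z = fun i => a i • y}

/-- Every relation becomes trivial after multiplication by a power of `b`. -/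
def gfP {B : Type} [CommRing B] (b : B) (M : Type) [AddCommGroup M] [Module B M] : Prop :=
  ∀ (l : ℕ) (f : Fin l → B) (x : Fin l → M), ∑ i, f i • x i = 0 → ∃ n : ℕ, b ^ n • x ∈ gfZ f M

section basic

variable {B : Type} [CommRing B] {l : ℕ} {f : Fin l → B} {M N : Type} [AddCommGroup M]
  [Module B M] [AddCommGroup N] [Module B N]

theorem gfZ_sum {z : Fin l → M} (hz : z ∈ gfZ f M) : ∑ i, f i • z i = 0 := by
  induction hz using Submodule.span_induction with
  | mem z hz =>
    obtain ⟨a, y, ha, rfl⟩ := hz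
    simp only [smul_smul, ← Finset.sum_smul, ha, zero_smul]
  | zero => simp
  | add x y _ _ hx hy => simp [Finset.sum_add_distrib, hx, hy]
  | smul c x _ hx =>
    simp only [Pi.smul_apply, smul_comm _ c, ← Finset.smul_sum, hx, smul_zero]

theorem gfZ_map (g : M →ₗ[B] N) {z : Fin l → M} (hz : z ∈ gfZ f M) :
    (fun i => g (z i)) ∈ gfZ f N := by
  induction hz using Submodule.span_induction with
  | mem z hz =>
    obtain ⟨a, y, ha, rfl⟩ := hz
    exact Submodule.subset_span ⟨a, g y, ha, by simp⟩
  | zero =>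
    have : (fun i => g ((0 : Fin l → M) i)) = 0 := by funext i; simp
    rw [this]; exact Submodule.zero_mem _
  | add x y _ _ hx hy =>
    have : (fun i => g ((x + y) i)) = (fun i => g (x i)) + fun i => g (y i) := by funext i; simp
    rw [this]; exact Submodule.add_mem _ hx hy
  | smul c x _ hx =>
    have : (fun i => g ((c • x) i)) = c • fun i => g (x i) := by funext i; simp
    rw [this]; exact Submodule.smul_mem _ c hx

theorem gfZ_lift (p : M →ₗ[B] N) (hp : Function.Surjective p) {z : Fin l → N}
    (hz : z ∈ gfZ f N) : ∃ w ∈ gfZ f M, ∀ i, p (w i) = z i := by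
  induction hz using Submodule.span_induction with
  | mem z hz =>
    obtain ⟨a, y, ha, rfl⟩ := hz
    obtain ⟨y', rfl⟩ := hp y
    exact ⟨fun i => a i • y', Submodule.subset_span ⟨a, y', ha, rfl⟩, by simp⟩
  | zero => exact ⟨0, Submodule.zero_mem _, by simp⟩
  | add x y _ _ hx hy =>
    obtain ⟨w, hw, hw'⟩ := hx
    obtain ⟨u, hu, hu'⟩ := hy
    exact ⟨w + u, Submodule.add_mem _ hw hu, fun i => by simp [hw', hu']⟩
  | smul c x _ hx =>
    obtain ⟨w, hw, hw'⟩ := hx
    exact ⟨c • w, Submodule.smul_mem _ c hw, fun i => by simp [hw']⟩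

theorem gfZ_of_triv {x : Fin l → M} (h : Module.IsTrivialRelation f x) : x ∈ gfZ f M := by
  obtain ⟨k, a, y, hx, ha⟩ := h
  have : x = ∑ j, fun i => a i j • y j := by
    funext i
    rw [hx i, Finset.sum_apply]
  rw [this]
  exact Submodule.sum_mem _ fun j _ => Submodule.subset_span ⟨fun i => a i j, y j, ha j, rfl⟩

theorem gfZ_triv {x : Fin l → M} (h : x ∈ gfZ f M) : Module.IsTrivialRelation f x := by
  obtain ⟨k, c, g, hg⟩ := Submodule.mem_span_set'.1 h
  choose a y ha hy using fun j => (g j).2
  refine ⟨k, fun i j => a j i, fun j => c j • y j, fun i => ?_, fun j => ha j⟩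
  rw [← hg, Finset.sum_apply]
  refine Finset.sum_congr rfl fun j _ => ?_
  rw [Pi.smul_apply, hy j, smul_comm]

theorem gfP_flat (b : B) (h : gfP b M) :
    Module.Flat B (LocalizedModule (Submonoid.powers b) M) := by
  refine Module.Flat.of_forall_isTrivialRelation fun {l f x} hx => gfZ_triv ?_
  let S := Submonoid.powers b
  let g := LocalizedModule.mkLinearMap S M
  obtain ⟨s, hs⟩ := IsLocalizedModule.exist_integer_multiples_of_finite S g x
  choose m hm using hs
  have h0 : g (∑ i, f i • m i) = 0 := by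
    simp only [map_sum, map_smul, hm, smul_comm _ (s : B), ← Finset.smul_sum, hx, smul_zero]
  obtain ⟨t, ht⟩ := (IsLocalizedModule.eq_zero_iff S g).1 h0
  obtain ⟨n, hn⟩ := h l f (fun i => (t : B) • m i) (by
    simp only [smul_comm _ (t : B), ← Finset.smul_sum]
    exact ht)
  have h1 := gfZ_map g hn
  let u : S := ⟨b ^ n, n, rfl⟩ * t * s
  obtain ⟨e, he⟩ := (IsLocalizedModule.map_units g u).exists_left_inv
  have h2 := gfZ_map e h1
  convert h2 using 1
  funext i
  have h3 : g ((b ^ n • fun i => (t : B) • m i) i) = (u : B) • x i := by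
    simp only [Pi.smul_apply, map_smul, hm, u, Submonoid.coe_mul, mul_smul]
  rw [h3]
  exact (LinearMap.congr_fun he (x i)).symm

theorem gfP_mul {b : B} (c : B) (h : gfP b M) : gfP (b * c) M := by
  intro l f x hx
  obtain ⟨n, hn⟩ := h l f x hx
  refine ⟨n, ?_⟩
  rw [mul_comm, mul_pow, mul_smul]
  exact Submodule.smul_mem _ _ hn

theorem gfP_ext {M' : Type} [AddCommGroup M'] [Module B M'] {b : B} (j : M' →ₗ[B] M)
    (hj : Function.Injective j) (p : M →ₗ[B] N) (hp : Function.Surjective p)
    (hex : ∀ m, p m = 0 → ∃ m', j m' = m) (h1 : gfP b M') (h2 : gfP b N) : gfP b M := by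
  intro l f x hx
  obtain ⟨n, hn⟩ := h2 l f (fun i => p (x i)) (by
    simp only [← map_smul, ← map_sum, hx, map_zero])
  obtain ⟨w, hw, hw'⟩ := gfZ_lift p hp hn
  choose x' hx' using fun i => hex (b ^ n • x i - w i) (by simp [hw'])
  obtain ⟨k, hk⟩ := h1 l f x' (hj (by
    simp only [map_sum, map_smul, hx', smul_sub, Finset.sum_sub_distrib, gfZ_sum hw,
      smul_comm _ (b ^ n), ← Finset.smul_sum, hx, smul_zero, sub_zero, map_zero]))
  refine ⟨k + n, ?_⟩
  have h3 := Submodule.add_mem _ (gfZ_map j hk) (Submodule.smul_mem _ (b ^ k) hw)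
  convert h3 using 1
  funext i
  simp [hx', pow_add, mul_smul, smul_sub]

end basic

theorem gfP_cyc {B N : Type} [CommRing B] [IsDomain B] [AddCommGroup N] [Module B N] {n : ℕ}
    (φ : MvPolynomial (Fin n) B →ₗ[B] N) (hφ : Function.Surjective φ)
    (hk : ∀ r g, φ g = 0 → φ (r * g) = 0) : ∃ b : B, b ≠ 0 ∧ gfP b N := by
  classical
  let m : MonomialOrder (Fin n) := MonomialOrder.lex
  let U : (Fin n →₀ ℕ) → Prop := fun d => ∃ g, φ g = 0 ∧ g ≠ 0 ∧ m.degree g = d
  have hfin : {d | Minimal U d}.Finite :=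
    WellQuasiOrderedLE.finite_of_isAntichain (setOfPred_minimal_antichain U)
  have hch : ∀ d, ∃ g : MvPolynomial (Fin n) B, U d → φ g = 0 ∧ g ≠ 0 ∧ m.degree g = d := by
    intro d
    by_cases hd : U d
    · obtain ⟨g, hg⟩ := hd
      exact ⟨g, fun _ => hg⟩
    · exact ⟨0, fun h => absurd h hd⟩
  choose G hG using hch
  let b : B := ∏ u ∈ hfin.toFinset, (G u).coeff u
  have hb : b ≠ 0 := by
    refine Finset.prod_ne_zero_iff.2 fun u hu => ?_
    have hu' : U u := (hfin.mem_toFinset.1 hu).prop
    obtain ⟨-, h2, h3⟩ := hG u hu'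
    have := (m.coeff_degree_ne_zero_iff).2 h2
    rwa [h3] at this
  have hp : ∀ d, U d → ∃ p : MvPolynomial (Fin n) B, φ p = 0 ∧ p.coeff d = b ∧
      ∀ e ∈ p.support, m.toSyn e ≤ m.toSyn d := by
    intro d hd
    obtain ⟨u, hud, hu⟩ := exists_minimal_le_of_wellFoundedLT U d hd
    obtain ⟨c, hc⟩ : (G u).coeff u ∣ b :=
      Finset.dvd_prod_of_mem (fun u => (G u).coeff u) (hfin.mem_toFinset.2 hu)
    obtain ⟨h1, -, h3⟩ := hG u hu.prop
    have hdu : d - u + u = d := tsub_add_cancel_of_le hud
    refine ⟨MvPolynomial.monomial (d - u) c * G u, hk _ _ h1, ?_, fun e he => ?_⟩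
    · conv_lhs => rw [← hdu]
      rw [add_tsub_cancel_right, MvPolynomial.coeff_monomial_mul, hc, mul_comm]
    · refine (m.le_degree he).trans (m.degree_mul_le.trans ?_)
      rw [map_add, h3]
      conv_rhs => rw [← hdu, map_add]
      exact add_le_add_left (m.degree_monomial_le c) _
  let F : Submodule B (MvPolynomial (Fin n) B) :=
    { carrier := {p | ∀ d, U d → p.coeff d = 0}
      add_mem' := fun {p q} hp hq d hd => by
        rw [MvPolynomial.coeff_add, hp d hd, hq d hd, add_zero]
      zero_mem' := fun d _ => by simp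
      smul_mem' := fun c p hp d hd => by
        rw [MvPolynomial.coeff_smul, hp d hd, smul_zero] }
  have hF : ∀ p ∈ F, φ p = 0 → p = 0 := by
    intro p hpF h0
    by_contra hne
    exact (m.coeff_degree_ne_zero_iff).2 hne (hpF _ ⟨p, h0, hne, rfl⟩)
  let H : Submodule B N :=
    { carrier := {y | ∃ k : ℕ, b ^ k • y ∈ F.map φ}
      add_mem' := by
        rintro y z ⟨k, hk⟩ ⟨k', hk'⟩
        refine ⟨k + k', ?_⟩
        rw [smul_add]
        refine Submodule.add_mem _ ?_ ?_
        · rw [add_comm, pow_add, mul_smul]; exact Submodule.smul_mem _ _ hk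
        · rw [pow_add, mul_smul]; exact Submodule.smul_mem _ _ hk'
      zero_mem' := ⟨0, by simp⟩
      smul_mem' := by
        rintro c y ⟨k, hk⟩
        exact ⟨k, by rw [smul_comm]; exact Submodule.smul_mem _ _ hk⟩ }
  have hmon : ∀ (s : m.syn) (d : Fin n →₀ ℕ), m.toSyn d = s →
      φ (MvPolynomial.monomial d 1) ∈ H := by
    intro s
    induction s using WellFoundedLT.induction with
    | ind s ih =>
      intro d hd
      by_cases hU : U d
      · obtain ⟨p, h0, h1, h2⟩ := hp d hU
        have hsum : p = ∑ e ∈ insert d p.support, p.coeff e • MvPolynomial.monomial e (1 : B) := by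
          conv_lhs => rw [p.as_sum]
          simp only [MvPolynomial.smul_monomial, smul_eq_mul, mul_one]
          refine Finset.sum_subset (Finset.subset_insert _ _) fun e _ he => ?_
          rw [MvPolynomial.notMem_support_iff.1 he, map_zero]
        rw [← Finset.add_sum_erase _ _ (Finset.mem_insert_self d _), h1] at hsum
        have h3 : b • φ (MvPolynomial.monomial d 1) = -∑ e ∈ (insert d p.support).erase d,
            p.coeff e • φ (MvPolynomial.monomial e (1 : B)) := by
          rw [eq_neg_iff_add_eq_zero, ← h0]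
          conv_rhs => rw [hsum]
          simp only [map_add, map_sum, map_smul]
        have h4 : b • φ (MvPolynomial.monomial d 1) ∈ H := by
          rw [h3]
          refine Submodule.neg_mem _ (Submodule.sum_mem _ fun e he => Submodule.smul_mem _ _ ?_)
          obtain ⟨hne, he⟩ := Finset.mem_erase.1 he
          have he' : e ∈ p.support := (Finset.mem_insert.1 he).resolve_left hne
          refine ih (m.toSyn e) ?_ e rfl
          rw [← hd]
          exact lt_of_le_of_ne (h2 e he') fun h => hne (m.toSyn.injective h)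
        obtain ⟨k, hk⟩ := h4
        exact ⟨k + 1, by rwa [pow_succ, mul_smul]⟩
      · refine ⟨0, MvPolynomial.monomial d 1, fun e he => ?_, by simp⟩
        rw [MvPolynomial.coeff_monomial, if_neg]
        rintro rfl
        exact hU he
  have hall : ∀ y : N, y ∈ H := by
    intro y
    obtain ⟨p, rfl⟩ := hφ y
    rw [p.as_sum, map_sum]
    refine Submodule.sum_mem _ fun e _ => ?_
    have : MvPolynomial.monomial e (p.coeff e) = p.coeff e • MvPolynomial.monomial e (1 : B) := by
      simp only [MvPolynomial.smul_monomial, smul_eq_mul, mul_one]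
    rw [this, map_smul]
    exact Submodule.smul_mem _ _ (hmon _ e rfl)
  refine ⟨b, hb, fun l f x hx => ?_⟩
  choose k hk' using fun i => hall (x i)
  have h5 : ∀ i, ∃ w ∈ F, φ w = b ^ (∑ j, k j) • x i := by
    intro i
    obtain ⟨c, hc⟩ := Nat.exists_eq_add_of_le'
      (Finset.single_le_sum (f := k) (fun _ _ => Nat.zero_le _) (Finset.mem_univ i))
    rw [hc, pow_add, mul_smul]
    exact Submodule.smul_mem _ _ (hk' i)
  choose w hwF hw using h5
  have h6 : ∑ i, f i • w i = 0 := by
    refine hF _ (Submodule.sum_mem _ fun i _ => Submodule.smul_mem _ _ (hwF i)) ?_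
    simp only [map_sum, map_smul, hw, smul_comm _ (b ^ ∑ j, k j), ← Finset.smul_sum, hx,
      smul_zero]
  have h7 := gfZ_map φ (gfZ_of_triv (Module.Flat.isTrivialRelation_of_sum_smul_eq_zero h6))
  refine ⟨∑ j, k j, ?_⟩
  convert h7 using 1
  funext i
  rw [hw, Pi.smul_apply]

theorem gfP_fin {B T : Type} [CommRing B] [IsDomain B] [CommRing T] [Algebra B T] {n : ℕ}
    (π : MvPolynomial (Fin n) B →ₐ[B] T) (hπ : Function.Surjective π) (k : ℕ) :
    ∀ (M : Type) [AddCommGroup M] [Module T M] [Module B M] [IsScalarTower B T M]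
      (v : Fin k → M), Submodule.span T (Set.range v) = ⊤ → ∃ b : B, b ≠ 0 ∧ gfP b M := by
  induction k with
  | zero =>
    intro M _ _ _ _ v hv
    refine ⟨1, one_ne_zero, fun l f x _ => ⟨0, ?_⟩⟩
    have : x = 0 := by
      funext i
      have h : x i ∈ Submodule.span T (Set.range v) := hv ▸ Submodule.mem_top
      simpa using h
    rw [this, smul_zero]
    exact Submodule.zero_mem _
  | succ k ih =>
    intro M _ _ _ _ v hv
    let N : Submodule T M := Submodule.span T {v 0}
    obtain ⟨b, hb, h1⟩ := ih (M ⧸ N) (fun i => N.mkQ (v i.succ)) (by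
      rw [eq_top_iff]
      have h := Submodule.map_span N.mkQ (Set.range v)
      rw [hv, Submodule.map_top, Submodule.range_mkQ] at h
      rw [h, Submodule.span_le]
      rintro _ ⟨_, ⟨i, rfl⟩, rfl⟩
      refine Fin.cases ?_ (fun i => Submodule.subset_span ⟨i, rfl⟩) i
      have : N.mkQ (v 0) = 0 :=
        (Submodule.Quotient.mk_eq_zero N).2 (Submodule.mem_span_singleton_self _)
      rw [this]
      exact Submodule.zero_mem _)
    let y : N := ⟨v 0, Submodule.mem_span_singleton_self _⟩
    let φ : MvPolynomial (Fin n) B →ₗ[B] N :=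
      ((LinearMap.toSpanSingleton T N y).restrictScalars B).comp π.toLinearMap
    have hφ : ∀ r, φ r = π r • y := fun r => rfl
    obtain ⟨c, hc, h2⟩ := gfP_cyc φ (by
      rintro ⟨z, hz⟩
      obtain ⟨t, rfl⟩ := Submodule.mem_span_singleton.1 hz
      obtain ⟨r, rfl⟩ := hπ t
      exact ⟨r, rfl⟩) (fun r g hg => by
      rw [hφ] at hg ⊢
      rw [map_mul, mul_smul, hg, smul_zero])
    refine ⟨b * c, mul_ne_zero hb hc, gfP_ext (N.subtype.restrictScalars B)
      Subtype.val_injective (N.mkQ.restrictScalars B) N.mkQ_surjective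
      (fun m hm => ⟨⟨m, (Submodule.Quotient.mk_eq_zero N).1 hm⟩, rfl⟩) ?_ (gfP_mul c h1)⟩
    rw [mul_comm]
    exact gfP_mul b h2

/-- Generic flatness. Reduce to cyclic modules by induction on the number of generators; for a
quotient of a polynomial ring use the leading coefficients of a Groebner-type family. -/
theorem gen_flat (B T M : Type) [CommRing B] [IsDomain B] [IsNoetherianRing B] [CommRing T]
    [Algebra B T] [Algebra.FiniteType B T] [AddCommGroup M] [Module T M] [Module B M]
    [IsScalarTower B T M] [Module.Finite T M] :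
    ∃ b : B, b ≠ 0 ∧ Module.Flat B (LocalizedModule (Submonoid.powers b) M) := by
  obtain ⟨n, π, hπ⟩ := Algebra.FiniteType.iff_quotient_mvPolynomial''.1
    (inferInstance : Algebra.FiniteType B T)
  obtain ⟨k, v, hv⟩ := Module.Finite.exists_fin (R := T) (M := M)
  obtain ⟨b, hb, h⟩ := gfP_fin π hπ k M v hv
  exact ⟨b, hb, gfP_flat b h⟩

end

end Pool.Agent.Lib.MP_4287a9_ag
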