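import Pool.Agent.Lib.MP_4287a9_ag.GLat
import Pool.Agent.Lib.MP_4287a9_ag.F3

/-!
Frobenius lifts on the big charts (compare `F3`).
-/

open scoped TensorProduct ENNReal NNReal nonZeroDivisors Polynomial
open Filter

namespace Pool.Agent.Lib.MP_4287a9_ag

noncomputable section

variable {n : ℕ} {s : GShp n} {W₀ : Type} [CommRing W₀] {d : GD s W₀} {Λ : Type} [CommRing Λ]
  [Algebra Λ W₀] {D : Fin n → Derivation Λ (LA W₀ s.ρ) (LA W₀ s.ρ)}

/-- Same proof as `RD.Good.exists_HD` with `B` in place of `S`. -/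
theorem GD.Good.exists_HD {p : ℕ} [Fact p.Prime] (h : d.Good Λ D) {κ W₁ : Type} [Field κ]
    [CharP κ p] [CommRing W₁] [Algebra κ W₁] {χ : Λ →+* κ} {π : W₀ →+* W₁} (hπ : IsRed χ π)
    {D' : Fin n → Derivation κ (LA W₁ s.ρ) (LA W₁ s.ρ)}
    (hD' : ∀ i w, D' i (lmap s.ρ π w) = lmap s.ρ π (D i w)) {δ0 : Λ → κ} (h0 : IsPD p χ δ0) :
    ∃ hh : Fin s.m → Fin n → LA W₁ s.ρ, (d.map π).HD p D' hh := by
  obtain ⟨hh, h1, h2⟩ := f3_gen hπ.lmap h.hdual h.etc_top hD' h0 (fun a c => d.B Λ {a, c})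
    (fun a c => (d.map π).B κ {a, c}) (fun a c => h.etc_B (Finset.mem_insert_self _ _))
    (fun a c w hw => by
      rw [← SetLike.mem_coe, GD.map_B hπ]
      exact ⟨w, hw, rfl⟩) (fun c l => (((d.tl c l)⁻¹ : (LA W₀ s.ρ)ˣ) : LA W₀ s.ρ)) (fun a c l => by
      rcases h.tl_cases c l with ⟨i, -, e1, e2⟩ | ⟨-, e1⟩
      · have h3 := h.hglue a c i
        rw [← d.B_pair] at h3
        refine ⟨_, h3.2, d.t a i, ?_, ?_, ?_⟩
        · rw [← e2, e1, Units.val_mul, Units.inv_mul_cancel_right]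
        · rw [h.ht]
          cases s.lam a i with
          | none => exact Or.inl rfl
          | some l' => exact Or.inr ⟨l', rfl⟩
        · rw [e1]
          exact h3.1
      · refine ⟨_, d.B1_le_B (by simp) ((h.het c).mem l), 1, (mul_one _).symm, Or.inl rfl, ?_⟩
        rw [e1]
        simp)
  refine ⟨hh, h1, fun a c l => ?_⟩
  have h4 : Units.map (lmap s.ρ π : LA W₀ s.ρ →* LA W₁ s.ρ) (d.tl c l) = (d.map π).tl c l := by
    simp only [RD.tl, map_prod]
    rfl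
  rw [← h4, Units.val_pow_eq_pow_val]
  exact h2 a c l

end

end Pool.Agent.Lib.MP_4287a9_ag
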