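import Pool.Agent.Lib.MP_4287a9_ag.GF

/-!
Consequences of generic flatness.
-/

open scoped TensorProduct ENNReal NNReal nonZeroDivisors Polynomial
open Filter

namespace Pool.Agent.Lib.MP_4287a9_ag

noncomputable section

namespace GFcAux

/-- the multiplication map `N ⊗ z → N` -/
def mu {B : Type} [CommRing B] (z : Ideal B) (N : Type) [AddCommGroup N] [Module B N] :
    N ⊗[B] z →ₗ[B] N :=
  (TensorProduct.rid B N).toLinearMap ∘ₗ LinearMap.lTensor N z.subtype

theorem mu_tmul {B : Type} [CommRing B] (z : Ideal B) {N : Type} [AddCommGroup N] [Module B N]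
    (n : N) (a : z) : mu z N (n ⊗ₜ a) = (a : B) • n := by
  simp [mu]

theorem mu_nat {B : Type} [CommRing B] (z : Ideal B) {N P : Type} [AddCommGroup N] [Module B N]
    [AddCommGroup P] [Module B P] (f : N →ₗ[B] P) (t : N ⊗[B] z) :
    mu z P (f.rTensor z t) = f (mu z N t) := by
  induction t using TensorProduct.induction_on with
  | zero => simp
  | tmul n a => rw [LinearMap.rTensor_tmul, mu_tmul, mu_tmul, map_smul]
  | add s t hs ht => rw [map_add, map_add, map_add, map_add, hs, ht]

theorem mu_mem {B : Type} [CommRing B] (z : Ideal B) {N : Type} [AddCommGroup N] [Module B N]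
    (t : N ⊗[B] z) : mu z N t ∈ z • (⊤ : Submodule B N) := by
  induction t using TensorProduct.induction_on with
  | zero => simp
  | tmul n a => rw [mu_tmul]; exact Submodule.smul_mem_smul a.2 Submodule.mem_top
  | add s t hs ht => rw [map_add]; exact add_mem hs ht

theorem mu_surj {B : Type} [CommRing B] (z : Ideal B) {N : Type} [AddCommGroup N] [Module B N]
    {v : N} (hv : v ∈ z • (⊤ : Submodule B N)) : ∃ t, mu z N t = v := by
  refine Submodule.smul_induction_on hv (fun a ha n _ => ⟨n ⊗ₜ ⟨a, ha⟩, mu_tmul z n _⟩) ?_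
  rintro _ _ ⟨s, rfl⟩ ⟨t, rfl⟩
  exact ⟨s + t, map_add _ _ _⟩

theorem mu_inj {B : Type} [CommRing B] (z : Ideal B) (N : Type) [AddCommGroup N] [Module B N]
    [Module.Flat B N] : Function.Injective (mu z N) :=
  (TensorProduct.rid B N).injective.comp
    (Module.Flat.lTensor_preserves_injective_linearMap z.subtype z.injective_subtype)

/-- an element outside a maximal ideal can be cancelled -/
theorem cancel {B : Type} [CommRing B] {z : Ideal B} (hz : z.IsMaximal) {b : B} (hb : b ∉ z)
    {N : Type} [AddCommGroup N] [Module B N] {L : Submodule B N} {v : N} (hv : v ∈ L)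
    (h : b • v ∈ z • L) : v ∈ z • L := by
  obtain ⟨u, c, hc, e⟩ := hz.exists_inv hb
  have : v = u • b • v + c • v := by rw [smul_smul, ← add_smul, e, one_smul]
  rw [this]
  exact add_mem (Submodule.smul_mem _ _ h) (Submodule.smul_mem_smul hc hv)

theorem pure_of_flat {B : Type} [CommRing B] {z : Ideal B} (hz : z.IsMaximal) {b : B}
    (hb : b ∉ z) {N Q : Type} [AddCommGroup N] [Module B N] [AddCommGroup Q] [Module B Q]
    (π : N →ₗ[B] Q) (hπ : Function.Surjective π)
    [Module.Flat B (LocalizedModule (Submonoid.powers b) Q)] : Pure z (LinearMap.ker π) := by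
  rintro v ⟨hv, hv'⟩
  obtain ⟨t, rfl⟩ := mu_surj z hv'
  have h1 : (LocalizedModule.mkLinearMap (Submonoid.powers b) Q).rTensor z (π.rTensor z t)
      = 0 := by
    apply mu_inj z
    rw [mu_nat, mu_nat, LinearMap.mem_ker.1 hv, map_zero, map_zero]
  obtain ⟨⟨_, n, rfl⟩, hs⟩ := (IsLocalizedModule.eq_zero_iff (Submonoid.powers b)
    (TensorProduct.AlgebraTensorModule.rTensor B z
      (LocalizedModule.mkLinearMap (Submonoid.powers b) Q))).1 h1
  have h2 : π.rTensor z (b ^ n • t) = 0 := by rw [map_smul]; exact hs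
  obtain ⟨s, hs'⟩ := (rTensor_exact z (LinearMap.exact_subtype_ker_map π) hπ _).1 h2
  refine cancel hz (b := b ^ n) (fun h => hb (hz.isPrime.mem_of_pow_mem n h)) hv ?_
  rw [← map_smul, ← hs', mu_nat]
  exact (Submodule.mem_smul_top_iff z _ _).1 (mu_mem z s)

end GFcAux

open GFcAux

/-- Apply `gen_flat` to `M / M'`; `b` is a unit modulo `z`. -/
theorem gen_pure (B T M : Type) [CommRing B] [IsDomain B] [IsNoetherianRing B] [CommRing T]
    [Algebra B T] [Algebra.FiniteType B T] [AddCommGroup M] [Module T M] [Module B M]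
    [IsScalarTower B T M] [Module.Finite T M] (M' : Submodule T M) :
    ∃ b : B, b ≠ 0 ∧ ∀ z : Ideal B, z.IsMaximal → b ∉ z → Pure z (M'.restrictScalars B) := by
  obtain ⟨b, hb, hf⟩ := gen_flat B T (M ⧸ M')
  refine ⟨b, hb, fun z hz hbz => ?_⟩
  have h := pure_of_flat hz hbz (M'.mkQ.restrictScalars B) M'.mkQ_surjective
  rwa [LinearMap.ker_restrictScalars, Submodule.ker_mkQ] at h

/-- The kernel of `c` is a finite `T`-module of `B`-torsion elements, so it is killed by one
nonzero element of `B`; apply `gen_pure` to `c M ⊆ M`. -/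
theorem gen_reg (B T M : Type) [CommRing B] [IsDomain B] [IsNoetherianRing B] [CommRing T]
    [Algebra B T] [Algebra.FiniteType B T] [AddCommGroup M] [Module T M] [Module B M]
    [IsScalarTower B T M] [Module.Finite T M] (c : T)
    (hc : ∀ v : M, c • v = 0 → ∃ b : B, b ≠ 0 ∧ b • v = 0) :
    ∃ b : B, b ≠ 0 ∧ ∀ z : Ideal B, z.IsMaximal → b ∉ z →
      ∀ v : M, c • v ∈ z • (⊤ : Submodule B M) → v ∈ z • (⊤ : Submodule B M) := by
  classical
  have : IsNoetherianRing T := Algebra.FiniteType.isNoetherianRing B T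
  obtain ⟨s, hs⟩ := IsNoetherian.noetherian (LinearMap.ker (LinearMap.lsmul T M c))
  choose! f hf0 hf using hc
  have hsK : ∀ v ∈ s, c • v = 0 := fun v hv => by
    have h : v ∈ LinearMap.ker (LinearMap.lsmul T M c) := hs ▸ Submodule.subset_span hv
    exact h
  have hK : ∀ v : M, c • v = 0 → (∏ w ∈ s, f w) • v = 0 := fun v hv => by
    have h : v ∈ Submodule.span T (s : Set M) := hs ▸ hv
    clear hv
    induction h using Submodule.span_induction with
    | mem w hw =>
      obtain ⟨d, hd⟩ := Finset.dvd_prod_of_mem f (Finset.mem_coe.1 hw)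
      rw [hd, mul_comm, mul_smul, hf w (hsK w hw), smul_zero]
    | zero => exact smul_zero _
    | add x y _ _ hx hy => rw [smul_add, hx, hy, add_zero]
    | smul a x _ hx =>
      rw [← algebraMap_smul T, smul_comm, algebraMap_smul, hx, smul_zero]
  obtain ⟨b, hb, hp⟩ := gen_pure B T M (LinearMap.range (LinearMap.lsmul T M c))
  refine ⟨(∏ w ∈ s, f w) * b,
    mul_ne_zero (Finset.prod_ne_zero_iff.2 fun w hw => hf0 w (hsK w hw)) hb,
    fun z hz hbz v hv => ?_⟩
  have h1 := hp z hz (fun h => hbz (z.mul_mem_left _ h)) ⟨⟨v, rfl⟩, hv⟩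
  have h2 : (LinearMap.range (LinearMap.lsmul T M c)).restrictScalars B =
      (⊤ : Submodule B M).map ((LinearMap.lsmul T M c).restrictScalars B) := by
    ext x
    simp
  rw [h2, ← Submodule.map_smul''] at h1
  obtain ⟨w, hw, e⟩ := h1
  have e' : c • w = c • v := e
  have h3 := hK (v - w) (by rw [smul_sub, e', sub_self])
  refine cancel hz (b := ∏ w ∈ s, f w) (fun h => hbz (z.mul_mem_right _ h)) Submodule.mem_top ?_
  rw [smul_sub, sub_eq_zero] at h3
  rw [h3]
  exact Submodule.smul_mem _ _ hw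

/-- Lifting of closed points. Let `Λ'' = Λ'[1 / b']`, finitely presented over `Λ`. By Chevalley
(`PrimeSpectrum.isConstructible_range_comap`, `exists_constructibleSetData_iff`) the image of
`Spec Λ''` is constructible and contains the generic point, so it contains a basic open set
`D(b)`, `b ≠ 0`. For `z = ker χ ∌ b` the ideal `z Λ''` is proper; take a maximal ideal of `Λ''`
containing it; its residue field `κ'` is finite over `κ`
(`finite_of_finite_type_of_isJacobsonRing`), and the image of `Λ'` in it is a finite domain, hence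
a field containing the inverse of `b'`, hence everything. -/
theorem gen_lift (Λ Λ' : Type) [CommRing Λ] [IsDomain Λ] [IsNoetherianRing Λ] [CommRing Λ']
    [IsDomain Λ'] [Algebra Λ Λ'] [Algebra.FiniteType Λ Λ']
    (hinj : Function.Injective (algebraMap Λ Λ')) {b' : Λ'} (hb' : b' ≠ 0) :
    ∃ b : Λ, b ≠ 0 ∧ ∀ (κ : Type) [Field κ] [Finite κ] (χ : Λ →+* κ), Function.Surjective χ →
      χ b ≠ 0 → ∃ (κ' : Type) (_ : Field κ') (_ : Finite κ') (ι : κ →+* κ') (χ' : Λ' →+* κ'),
        Function.Surjective χ' ∧ (∀ a, χ' (algebraMap Λ Λ' a) = ι (χ a)) ∧ χ' b' ≠ 0 := by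
  classical
  let L := Localization.Away b'
  have : IsDomain L := IsLocalization.isDomain_localization
    (powers_le_nonZeroDivisors_of_noZeroDivisors hb')
  have : Algebra.FinitePresentation Λ' L := IsLocalization.Away.finitePresentation b'
  have : Algebra.FiniteType Λ L := Algebra.FiniteType.trans (S := Λ') inferInstance inferInstance
  have : Algebra.FinitePresentation Λ L := Algebra.FinitePresentation.of_finiteType.1 ‹_›
  have hinj' : Function.Injective (algebraMap Λ L) := by
    rw [IsScalarTower.algebraMap_eq Λ Λ' L]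
    exact (IsLocalization.injective L (powers_le_nonZeroDivisors_of_noZeroDivisors hb')).comp hinj
  obtain ⟨S, hS⟩ := PrimeSpectrum.exists_constructibleSetData_iff.2
    (PrimeSpectrum.isConstructible_range_comap
      (RingHom.finitePresentation_algebraMap.2 ‹Algebra.FinitePresentation Λ L›))
  have h0 : (⟨⊥, Ideal.isPrime_bot⟩ : PrimeSpectrum Λ) ∈ S.toSet := by
    rw [hS]
    exact ⟨⟨⊥, Ideal.isPrime_bot⟩, PrimeSpectrum.ext (Ideal.comap_bot_of_injective _ hinj')⟩
  obtain ⟨C, hC, h1, h2⟩ := Set.mem_iUnion₂.1 h0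
  refine ⟨C.f, fun h => h2 (by simp [h]), fun κ _ _ χ hχ hb => ?_⟩
  have hz : (RingHom.ker χ).IsMaximal := RingHom.ker_isMaximal_of_surjective χ hχ
  have h3 : (⟨RingHom.ker χ, hz.isPrime⟩ : PrimeSpectrum Λ) ∈ S.toSet :=
    Set.mem_iUnion₂.2 ⟨C, hC, fun x hx => by
      have h4 : x ∈ (⊥ : Ideal Λ) := h1 hx
      exact (bot_le : (⊥ : Ideal Λ) ≤ RingHom.ker χ) h4,
      fun h => hb (h (Set.mem_singleton _))⟩
  rw [hS] at h3
  obtain ⟨P, hP⟩ := h3
  obtain ⟨m, hm, hPm⟩ := Ideal.exists_le_maximal P.asIdeal P.isPrime.ne_top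
  have h5 : RingHom.ker χ ≤ m.comap (algebraMap Λ L) := by
    have h6 : P.asIdeal.comap (algebraMap Λ L) = RingHom.ker χ := congrArg (·.asIdeal) hP
    rw [← h6]
    exact Ideal.comap_mono hPm
  let : Field (L ⧸ m) := Ideal.Quotient.field m
  let ι : κ →+* L ⧸ m := χ.liftOfSurjective hχ ⟨algebraMap Λ (L ⧸ m), fun x hx =>
    Ideal.Quotient.eq_zero_iff_mem.2 (h5 hx)⟩
  have hι : ∀ a, ι (χ a) = algebraMap Λ (L ⧸ m) a := fun a =>
    RingHom.liftOfSurjective_comp_apply _ _ _ _
  let : Algebra κ (L ⧸ m) := ι.toAlgebra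
  let : Algebra Λ κ := χ.toAlgebra
  have : IsScalarTower Λ κ (L ⧸ m) := IsScalarTower.of_algebraMap_eq fun a => (hι a).symm
  have : Algebra.FiniteType κ (L ⧸ m) := Algebra.FiniteType.of_restrictScalars_finiteType Λ κ _
  have : Module.Finite κ (L ⧸ m) := finite_of_finite_type_of_isJacobsonRing κ _
  have : Finite (L ⧸ m) := Module.finite_of_finite κ
  let χ' : Λ' →+* L ⧸ m := (Ideal.Quotient.mk m).comp (algebraMap Λ' L)
  have hu : IsUnit (χ' b') := (IsLocalization.Away.algebraMap_isUnit b').map (Ideal.Quotient.mk m)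
  refine ⟨L ⧸ m, inferInstance, inferInstance, ι, χ', fun y => ?_, fun a => ?_, hu.ne_zero⟩
  · obtain ⟨x, rfl⟩ := Ideal.Quotient.mk_surjective y
    obtain ⟨n, a, e⟩ := IsLocalization.Away.surj b' x
    obtain ⟨k, hk, e1⟩ := isOfFinOrder_iff_pow_eq_one.1 (isOfFinOrder_of_finite hu.unit)
    have e2 : χ' b' ^ k = 1 := by
      have := congrArg Units.val e1
      rwa [Units.val_pow_eq_pow_val, IsUnit.unit_spec, Units.val_one] at this
    have e3 : Ideal.Quotient.mk m x * χ' b' ^ n = χ' a := by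
      have := congrArg (Ideal.Quotient.mk m) e
      rwa [map_mul, map_pow] at this
    refine ⟨a * (b' ^ (k - 1)) ^ n, ?_⟩
    rw [map_mul, map_pow, map_pow, ← e3, mul_assoc, ← mul_pow, ← pow_succ',
      Nat.sub_add_cancel hk, e2, one_pow, mul_one]
  · rw [hι]
    exact congrArg (Ideal.Quotient.mk m) (IsScalarTower.algebraMap_apply Λ Λ' L a).symm

end

end Pool.Agent.Lib.MP_4287a9_ag
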