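import Pool.Agent.Lib.MP_4287a9_ag.H1b
import Pool.Agent.Lib.MP_4287a9_ag.RDa

/-!
Spreading out the data.
-/

open scoped TensorProduct ENNReal NNReal nonZeroDivisors Polynomial
open Filter

namespace Pool.Agent.Lib.MP_4287a9_ag

noncomputable section

variable {B k : Type} [CommRing B] [Field k] [Algebra B k]

namespace H1cAux

theorem ev_set {W : Type} {Γ : Set W} (hΓ : Γ.Finite) {P : W → Subalgebra B k → Prop}
    (h : ∀ w ∈ Γ, Ev B k (P w)) : Ev B k fun Λ => ∀ w ∈ Γ, P w Λ := by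
  have : Finite Γ := hΓ
  exact (Ev.all (P := fun w : Γ => P w) fun w => h w w.2).mono fun Λ H w hw => H ⟨w, hw⟩

variable {n : ℕ} {s : Shp n} {W : Type} [CommRing W] [Algebra k W]

theorem ev_sp_pow (d : RD s W) {a : ℕ} (v : Fin a → W) (i : ℕ) {w : W}
    (hw : w ∈ d.sp k v ^ i) : Ev B k fun Λ => w ∈ d.sp Λ v ^ i := by
  have h := ev_sp (B := B) d v v i 0 (w := w) (by rw [pow_zero, mul_one]; exact hw)
  exact h.mono fun Λ H => by rwa [pow_zero, mul_one] at H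

theorem ev_sp_one (d : RD s W) {a : ℕ} (v : Fin a → W) {w : W}
    (hw : w ∈ d.sp k v) : Ev B k fun Λ => w ∈ d.sp Λ v := by
  have h := ev_sp_pow (B := B) d v 1 (w := w) (by rw [pow_one]; exact hw)
  exact h.mono fun Λ H => by rwa [pow_one] at H

theorem ev_as (Γ : Set W) {x y : Wˣ} (h : As (Algebra.adjoin k Γ) x y) :
    Ev B k fun Λ => As (Algebra.adjoin Λ Γ) x y :=
  (ev_adjoin Γ h.1).and (ev_adjoin Γ h.2)

theorem pow_mul_mem {Λ W : Type} [CommRing Λ] [CommRing W] [Algebra Λ W] {T : Subalgebra Λ W}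
    {Γ : Set W} {e : W} (he : e ∈ T) (h : ∀ w ∈ Γ, ∃ i : ℕ, e ^ i * w ∈ T) :
    ∀ w ∈ Algebra.adjoin Λ Γ, ∃ i : ℕ, e ^ i * w ∈ T := by
  intro w hw
  induction hw using Algebra.adjoin_induction with
  | mem x hx => exact h x hx
  | algebraMap r => exact ⟨0, by rw [pow_zero, one_mul]; exact T.algebraMap_mem r⟩
  | add x y _ _ hx hy =>
    obtain ⟨i, hi⟩ := hx
    obtain ⟨j, hj⟩ := hy
    refine ⟨i + j, ?_⟩
    have : e ^ (i + j) * (x + y) = e ^ j * (e ^ i * x) + e ^ i * (e ^ j * y) := by ring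
    rw [this]
    exact T.add_mem (T.mul_mem (T.pow_mem he j) hi) (T.mul_mem (T.pow_mem he i) hj)
  | mul x y _ _ hx hy =>
    obtain ⟨i, hi⟩ := hx
    obtain ⟨j, hj⟩ := hy
    refine ⟨i + j, ?_⟩
    have : e ^ (i + j) * (x * y) = (e ^ i * x) * (e ^ j * y) := by ring
    rw [this]
    exact T.mul_mem hi hj

theorem der_mem {Λ W : Type} [CommRing Λ] [CommRing W] [Algebra Λ W] {Γ : Set W}
    (E : Derivation Λ W W) (h : ∀ w ∈ Γ, E w ∈ Algebra.adjoin Λ Γ) :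
    ∀ w ∈ Algebra.adjoin Λ Γ, E w ∈ Algebra.adjoin Λ Γ := by
  intro w hw
  induction hw using Algebra.adjoin_induction with
  | mem x hx => exact h x hx
  | algebraMap r => rw [Derivation.map_algebraMap]; exact zero_mem _
  | add x y _ _ hx hy => rw [map_add]; exact add_mem hx hy
  | mul x y hx' hy' hx hy =>
    rw [Derivation.leibniz, smul_eq_mul, smul_eq_mul]
    exact add_mem (mul_mem hx' hy) (mul_mem hy' hx)

open scoped Pointwise in
theorem ev_red {d : RD s W} (h : d.Pre k) : Ev B k fun Λ => ∃ ρ : ℕ,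
    d.sp Λ d.bg ^ (ρ + 1) ≤ d.sp Λ (fun a => (d.G a : W)) * d.sp Λ d.bg ^ ρ := by
  obtain ⟨ρ, hρ⟩ := h.hred
  have hfin' : ∀ j : ℕ, ((Set.range d.bg) ^ j).Finite := by
    intro j
    induction j with
    | zero => rw [pow_zero]; exact Set.finite_one
    | succ j ih => rw [pow_succ]; exact ih.mul (Set.finite_range _)
  have hfin := hfin' (ρ + 1)
  have key := ev_set (B := B) (k := k) hfin
    (P := fun w Λ => w ∈ d.sp Λ (fun a => (d.G a : W)) ^ 1 * d.sp Λ d.bg ^ ρ) (fun w hw => by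
      refine ev_sp d _ _ 1 ρ ?_
      rw [pow_one]
      refine hρ ?_
      unfold RD.sp
      rw [Submodule.span_pow]
      exact Submodule.subset_span hw)
  refine key.mono fun Λ H => ⟨ρ, ?_⟩
  have h1 : d.sp Λ d.bg ^ (ρ + 1) = Submodule.span (d.T Λ) ((Set.range d.bg) ^ (ρ + 1)) := by
    unfold RD.sp
    rw [Submodule.span_pow]
  rw [h1, Submodule.span_le]
  intro w hw
  have := H w hw
  rwa [pow_one] at this

theorem ev_eS {d : RD s W} (h : d.Pre k) (i : Fin s.ne) : Ev B k fun Λ =>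
    ∀ w ∈ d.S1 Λ (s.ch i), ∃ j : ℕ, d.e i ^ j * w ∈ d.T Λ := by
  have hfin : (Set.range d.tg ∪
      Set.range fun l => d.bg l * (((d.G (s.ch i))⁻¹ : Wˣ) : W)).Finite :=
    (Set.finite_range _).union (Set.finite_range _)
  have key := ev_set (B := B) (k := k) hfin
    (P := fun w Λ => ∃ j : ℕ, d.e i ^ j * w ∈ d.T Λ) (fun w hw => by
      obtain ⟨j, hj⟩ := h.heS i w (Algebra.subset_adjoin hw)
      exact (ev_adjoin _ hj).mono fun Λ H => ⟨j, H⟩)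
  exact (key.and (ev_adjoin (B := B) _ (h.eT i))).mono fun Λ H => pow_mul_mem H.2 H.1

theorem ev_reg {d : RD s W} (h : d.Pre k) : Ev B k fun Λ =>
    ∀ w ∈ d.T Λ, (∃ v ∈ d.T Λ, d.e2 * w = d.e1 * v) →
      ∃ b : Λ, b ≠ 0 ∧ ∃ v ∈ d.T Λ, b • w = d.e1 * v := by
  have h1 : (d.e1 : W) ∈ d.T k :=
    d.mem_T_of_mem_sp_pow h.eT 1 (by rw [pow_one]; exact h.he1)
  refine ((ev_ld (B := B) (k := k) d.tg).and (ev_adjoin (B := B) _ h1)).mono ?_
  rintro Λ ⟨H1, H2⟩ w hw ⟨v, hv, hwv⟩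
  refine H1 w hw _ H2 ?_
  obtain ⟨b, hb, v', hv', hbv⟩ :=
    h.hreg w (adjoin_sub_le _ Λ hw) ⟨v, adjoin_sub_le _ Λ hv, hwv⟩
  refine ⟨b⁻¹ • v', Subalgebra.smul_mem _ hv' _, ?_⟩
  rw [mul_smul_comm, ← hbv, smul_smul, inv_mul_cancel₀ hb, one_smul]

theorem ev_pre {d : RD s W} (h : d.Pre k) : Ev B k fun Λ => d.Pre Λ := by
  have bT : Ev B k fun Λ => ∀ i, d.bg i ∈ d.T Λ := Ev.all fun i => ev_adjoin _ (h.bT i)
  have dT : Ev B k fun Λ => ∀ i, d.dg i ∈ d.T Λ := Ev.all fun i => ev_adjoin _ (h.dT i)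
  have aT : Ev B k fun Λ => ∀ i, d.ag i ∈ d.T Λ := Ev.all fun i => ev_adjoin _ (h.aT i)
  have eT : Ev B k fun Λ => ∀ i, d.e i ∈ d.T Λ := Ev.all fun i => ev_adjoin _ (h.eT i)
  have gT : Ev B k fun Λ => (d.g : W) ∈ d.T Λ := ev_adjoin _ h.gT
  have hG : Ev B k fun Λ => ∀ a, (d.G a : W) ∈ d.sp Λ d.bg :=
    Ev.all fun a => ev_sp_one d _ (h.hG a)
  have het : Ev B k fun Λ => ∀ a, EtC (d.S1 Λ a) (d.y a) :=
    Ev.all fun a => ev_etale ((Set.finite_range _).union (Set.finite_range _)) (h.het a)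
  have hglue : Ev B k fun Λ => ∀ a b i, As (d.S1 Λ a ⊔ d.S1 Λ b) (d.t a i) (d.t b i) := by
    refine Ev.all fun a => Ev.all fun b => Ev.all fun i => ?_
    have h1 := h.hglue a b i
    unfold RD.S1 at h1 ⊢
    rw [← Algebra.adjoin_union] at h1
    exact (ev_as _ h1).mono fun Λ H => by rwa [← Algebra.adjoin_union]
  have hj : Ev B k fun Λ => ∀ a,
      As (d.S1 Λ a) (d.j a ^ s.N) (d.u * d.G a * ∏ i, d.t a i ^ s.al i) :=
    Ev.all fun a => ev_as _ (h.hj a)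
  have ha : Ev B k fun Λ => d.sp Λ d.bg ≤ d.sp Λ d.ag ^ s.a1 := by
    have h1 : Ev B k fun Λ => ∀ i, d.bg i ∈ d.sp Λ d.ag ^ s.a1 :=
      Ev.all fun i => ev_sp_pow d _ _ (h.ha (Submodule.subset_span ⟨i, rfl⟩))
    refine h1.mono fun Λ H => Submodule.span_le.2 ?_
    rintro _ ⟨i, rfl⟩
    exact H i
  have heS : Ev B k fun Λ => ∀ i, ∀ w ∈ d.S1 Λ (s.ch i), ∃ j : ℕ, d.e i ^ j * w ∈ d.T Λ :=
    Ev.all fun i => ev_eS h i
  have hed : Ev B k fun Λ => ∀ i, ∃ j : ℕ,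
      d.e i ^ j * ((d.u * (d.j (s.ch i))⁻¹ ^ s.N : Wˣ) : W) ∈ d.sp Λ d.dg ^ s.M := by
    refine Ev.all fun i => ?_
    obtain ⟨j, hj⟩ := h.hed i
    exact (ev_sp_pow d _ _ hj).mono fun Λ H => ⟨j, H⟩
  have he1 : Ev B k fun Λ => (d.e1 : W) ∈ d.sp Λ d.e := ev_sp_one d _ h.he1
  have he2 : Ev B k fun Λ => d.e2 ∈ d.sp Λ d.e := ev_sp_one d _ h.he2
  refine (bT.and <| dT.and <| aT.and <| eT.and <| gT.and <| hG.and <| (ev_red h).and <|
    het.and <| hglue.and <| hj.and <| ha.and <| heS.and <| hed.and <| he1.and <| he2.and <|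
    ev_reg h).mono ?_
  rintro Λ ⟨H1, H2, H3, H4, H5, H6, H7, H8, H9, H10, H11, H12, H13, H14, H15, H16⟩
  exact ⟨h.hr, h.hM, h.hal, h.hinj, h.ht, H1, H2, H3, H4, H5, H6, H7, H8, H9, H10, H11, H12,
    H13, H14, H15, H16⟩

end H1cAux

/-- Each condition is a finite set of memberships (`ev_adjoin`, `ev_sp`); `heS` and `wD` are
checked on generators; `S1 a ⊔ S1 b` is the `adjoin` of the union; `het` is `ev_etale`; `hreg`
follows from `ev_ld`. -/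
theorem RD.Amb.spread {n : ℕ} {s : Shp n} {W : Type} [CommRing W] [Algebra k W] {d : RD s W}
    {D : Fin n → Derivation k W W} (h : d.Amb k D) :
    Ev B k fun Λ => d.Amb Λ (fun i => (D i).restrictScalars Λ) := by
  have wG : Ev B k fun Λ => ∀ a, (((d.G a)⁻¹ : Wˣ) : W) ∈ d.Ws Λ :=
    Ev.all fun a => ev_adjoin _ (h.wG a)
  have wj : Ev B k fun Λ => ∀ a, (d.j a : W) ∈ d.Ws Λ := Ev.all fun a => ev_adjoin _ (h.wj a)
  have wt : Ev B k fun Λ => ∀ a i, (((d.t a i)⁻¹ : Wˣ) : W) ∈ d.Ws Λ :=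
    Ev.all fun a => Ev.all fun i => ev_adjoin _ (h.wt a i)
  have wu : Ev B k fun Λ => (d.u : W) ∈ d.Ws Λ := ev_adjoin _ h.wu
  have wu' : Ev B k fun Λ => ((d.u⁻¹ : Wˣ) : W) ∈ d.Ws Λ := ev_adjoin _ h.wu'
  have we : Ev B k fun Λ => ((d.e1⁻¹ : Wˣ) : W) ∈ d.Ws Λ := ev_adjoin _ h.we
  have wD : Ev B k fun Λ => ∀ i, ∀ w ∈ Set.range d.tg ∪ {((d.g⁻¹ : Wˣ) : W)},
      D i w ∈ d.Ws Λ :=
    Ev.all fun i => H1cAux.ev_set ((Set.finite_range _).union (Set.finite_singleton _))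
      fun w hw => ev_adjoin _ (h.wD i w (Algebra.subset_adjoin hw))
  refine ((H1cAux.ev_pre h.toPre).and <| wG.and <| wj.and <| wt.and <| wu.and <| wu'.and <|
    we.and wD).mono ?_
  rintro Λ ⟨H0, H1, H2, H3, H4, H5, H6, H7⟩
  exact ⟨H0, H1, H2, H3, H4, H5, H6,
    fun i => H1cAux.der_mem ((D i).restrictScalars Λ) (H7 i), h.hdet, h.hdual⟩

end

end Pool.Agent.Lib.MP_4287a9_ag
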