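import Pool.Agent.Lib.MP_4287a9_ag.GDa
import Pool.Agent.Lib.MP_4287a9_ag.H1c

/-!
Spreading out the graded data (compare `H1c`).
-/

open scoped TensorProduct ENNReal NNReal nonZeroDivisors Polynomial
open Filter

namespace Pool.Agent.Lib.MP_4287a9_ag

noncomputable section

namespace GH1cAux

variable {B k : Type} [CommRing B] [Field k] [Algebra B k]

theorem ev_span {W : Type} [CommRing W] [Algebra k W] (Γ₁ Γ₂ A : Set W) {w : W}
    (hw : w ∈ Submodule.span (Algebra.adjoin k Γ₁ ⊔ Algebra.adjoin k Γ₂ : Subalgebra k W) A) :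
    Ev B k fun Λ =>
      w ∈ Submodule.span (Algebra.adjoin Λ Γ₁ ⊔ Algebra.adjoin Λ Γ₂ : Subalgebra Λ W) A := by
  induction hw using Submodule.span_induction with
  | mem x hx => exact Ev.of_forall fun Λ => Submodule.subset_span hx
  | zero => exact Ev.of_forall fun Λ => zero_mem _
  | add x y _ _ hx hy => exact (hx.and hy).mono fun Λ hΛ => add_mem hΛ.1 hΛ.2
  | smul c x _ hx =>
    have hc : (c : W) ∈ Algebra.adjoin k (Γ₁ ∪ Γ₂) := by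
      rw [Algebra.adjoin_union]
      exact c.2
    refine ((ev_adjoin (B := B) _ hc).and hx).mono fun Λ hΛ => ?_
    have h1 := hΛ.1
    rw [Algebra.adjoin_union] at h1
    exact Submodule.smul_mem _
      (⟨c, h1⟩ : (Algebra.adjoin Λ Γ₁ ⊔ Algebra.adjoin Λ Γ₂ : Subalgebra Λ W)) hΛ.2

theorem mem_span_of_gen {Λ W : Type} [CommRing Λ] [CommRing W] [Algebra Λ W]
    (S : Subalgebra Λ W) {Γ A : Set W} (h1 : (1 : W) ∈ Submodule.span S A)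
    (h : ∀ g ∈ Γ, ∀ a ∈ A, g * a ∈ Submodule.span S A) :
    ∀ w ∈ Algebra.adjoin Λ Γ, w ∈ Submodule.span S A := by
  have key : ∀ w ∈ Algebra.adjoin Λ Γ, ∀ x ∈ Submodule.span S A, w * x ∈ Submodule.span S A := by
    intro w hw
    induction hw using Algebra.adjoin_induction with
    | mem g hg =>
      intro x hx
      induction hx using Submodule.span_induction with
      | mem a ha => exact h g hg a ha
      | zero =>
        rw [mul_zero]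
        exact zero_mem _
      | add x y _ _ hx hy =>
        rw [mul_add]
        exact add_mem hx hy
      | smul c x _ hx =>
        rw [mul_smul_comm]
        exact Submodule.smul_mem _ c hx
    | algebraMap r =>
      intro x hx
      exact Submodule.smul_mem _ (⟨algebraMap Λ W r, S.algebraMap_mem r⟩ : S) hx
    | add x y _ _ hx hy =>
      intro z hz
      rw [add_mul]
      exact add_mem (hx z hz) (hy z hz)
    | mul x y _ _ hx hy =>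
      intro z hz
      rw [mul_assoc]
      exact hx _ (hy z hz)
  intro w hw
  have h2 := key w hw 1 h1
  rwa [mul_one] at h2

section rd

variable {n : ℕ} {s : Shp n} {W : Type} [CommRing W] [Algebra k W]

open scoped Pointwise in
theorem ev_red {d : RD s W} (h : ∃ ρ : ℕ,
    d.sp k d.bg ^ (ρ + 1) ≤ d.sp k (fun a => (d.G a : W)) * d.sp k d.bg ^ ρ) :
    Ev B k fun Λ => ∃ ρ : ℕ,
      d.sp Λ d.bg ^ (ρ + 1) ≤ d.sp Λ (fun a => (d.G a : W)) * d.sp Λ d.bg ^ ρ := by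
  obtain ⟨ρ, hρ⟩ := h
  have hfin' : ∀ j : ℕ, ((Set.range d.bg) ^ j).Finite := by
    intro j
    induction j with
    | zero => rw [pow_zero]; exact Set.finite_one
    | succ j ih => rw [pow_succ]; exact ih.mul (Set.finite_range _)
  have hfin := hfin' (ρ + 1)
  have key := H1cAux.ev_set (B := B) (k := k) hfin
    (P := fun w Λ => w ∈ d.sp Λ (fun a => (d.G a : W)) ^ 1 * d.sp Λ d.bg ^ ρ) (fun w hw => by
      refine ev_sp d _ _ 1 ρ ?_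
      rw [pow_one]
      refine hρ ?_
      unfold RD.sp
      rw [Submodule.span_pow]
      exact Submodule.subset_span hw)
  refine key.mono fun Λ H => ⟨ρ, ?_⟩
  have h1 : d.sp Λ d.bg ^ (ρ + 1) = Submodule.span (d.T Λ) ((Set.range d.bg) ^ (ρ + 1)) := by
    unfold RD.sp
    rw [Submodule.span_pow]
  rw [h1, Submodule.span_le]
  intro w hw
  have := H w hw
  rwa [pow_one] at this

theorem ev_reg {d : RD s W} (heT : ∀ i, d.e i ∈ d.T k) (he1 : (d.e1 : W) ∈ d.sp k d.e)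
    (hreg : ∀ w ∈ d.T k, (∃ v ∈ d.T k, d.e2 * w = d.e1 * v) →
      ∃ b : k, b ≠ 0 ∧ ∃ v ∈ d.T k, b • w = d.e1 * v) : Ev B k fun Λ =>
    ∀ w ∈ d.T Λ, (∃ v ∈ d.T Λ, d.e2 * w = d.e1 * v) →
      ∃ b : Λ, b ≠ 0 ∧ ∃ v ∈ d.T Λ, b • w = d.e1 * v := by
  have h1 : (d.e1 : W) ∈ d.T k :=
    d.mem_T_of_mem_sp_pow heT 1 (by rw [pow_one]; exact he1)
  refine ((ev_ld (B := B) (k := k) d.tg).and (ev_adjoin (B := B) _ h1)).mono ?_
  rintro Λ ⟨H1, H2⟩ w hw ⟨v, hv, hwv⟩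
  refine H1 w hw _ H2 ?_
  obtain ⟨b, hb, v', hv', hbv⟩ :=
    hreg w (adjoin_sub_le _ Λ hw) ⟨v, adjoin_sub_le _ Λ hv, hwv⟩
  refine ⟨b⁻¹ • v', Subalgebra.smul_mem _ hv' _, ?_⟩
  rw [mul_smul_comm, ← hbv, smul_smul, inv_mul_cancel₀ hb, one_smul]

theorem ev_le_pow {d : RD s W} (h : d.sp k d.bg ≤ d.sp k d.ag ^ s.a1) :
    Ev B k fun Λ => d.sp Λ d.bg ≤ d.sp Λ d.ag ^ s.a1 := by
  have h1 : Ev B k fun Λ => ∀ i, d.bg i ∈ d.sp Λ d.ag ^ s.a1 :=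
    Ev.all fun i => H1cAux.ev_sp_pow d _ _ (h (Submodule.subset_span ⟨i, rfl⟩))
  refine h1.mono fun Λ H => Submodule.span_le.2 ?_
  rintro _ ⟨i, rfl⟩
  exact H i

theorem ev_le {Γ Δ : Set W} (hΔ : Δ.Finite) (h : Algebra.adjoin k Δ ≤ Algebra.adjoin k Γ) :
    Ev B k fun Λ => Algebra.adjoin Λ Δ ≤ Algebra.adjoin Λ Γ :=
  (h1b_ev_sub Γ hΔ fun _ hw => h (Algebra.subset_adjoin hw)).mono fun _ H =>
    Algebra.adjoin_le H

theorem ev_as_sup {Γ Δ : Set W} {x y : Wˣ}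
    (h : As (Algebra.adjoin k Γ ⊔ Algebra.adjoin k Δ) x y) :
    Ev B k fun Λ => As (Algebra.adjoin Λ Γ ⊔ Algebra.adjoin Λ Δ) x y := by
  rw [← Algebra.adjoin_union] at h
  exact (H1cAux.ev_as _ h).mono fun Λ H => by rwa [← Algebra.adjoin_union]

theorem ev_fin {Γ Γ₁ Γ₂ A : Set W} (hΓ : Γ.Finite) (hA : A.Finite)
    (hom : ∀ a ∈ A, a ∈ Algebra.adjoin k Γ)
    (h : ∀ w ∈ Algebra.adjoin k Γ,
      w ∈ Submodule.span (Algebra.adjoin k Γ₁ ⊔ Algebra.adjoin k Γ₂ : Subalgebra k W) A) :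
    Ev B k fun Λ => ∀ w ∈ Algebra.adjoin Λ Γ,
      w ∈ Submodule.span (Algebra.adjoin Λ Γ₁ ⊔ Algebra.adjoin Λ Γ₂ : Subalgebra Λ W) A := by
  have h1 := ev_span (B := B) Γ₁ Γ₂ A (h 1 (one_mem _))
  have h2 := H1cAux.ev_set (B := B) (k := k) hΓ fun g hg =>
    H1cAux.ev_set (B := B) (k := k) hA fun a ha =>
      ev_span (B := B) Γ₁ Γ₂ A (h (g * a) (mul_mem (Algebra.subset_adjoin hg) (hom a ha)))
  exact (h1.and h2).mono fun Λ H => mem_span_of_gen _ H.1 H.2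

end rd

variable {n : ℕ} {s : GShp n} {W₀ : Type} [CommRing W₀] [Algebra k W₀] {d : GD s W₀}

omit [Algebra k W₀] in
theorem taus_finite (ρ : ℕ) : (GD.taus W₀ ρ).Finite :=
  (Set.finite_range _).union (Set.finite_range _)

theorem ev_pre (h : d.Pre k) : Ev B k fun Λ => d.Pre Λ := by
  have fB : ∀ a, (Set.range d.tg ∪ Set.range (d.sg a)).Finite := fun a =>
    (Set.finite_range _).union (Set.finite_range _)
  have bT : Ev B k fun Λ => ∀ i, d.bg i ∈ d.T Λ := Ev.all fun i => ev_adjoin _ (h.bT i)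
  have dT : Ev B k fun Λ => ∀ i, d.dg i ∈ d.T Λ := Ev.all fun i => ev_adjoin _ (h.dT i)
  have aT : Ev B k fun Λ => ∀ i, d.ag i ∈ d.T Λ := Ev.all fun i => ev_adjoin _ (h.aT i)
  have eT : Ev B k fun Λ => ∀ i, d.e i ∈ d.T Λ := Ev.all fun i => ev_adjoin _ (h.eT i)
  have gT : Ev B k fun Λ => (d.g : LA W₀ s.ρ) ∈ d.T Λ := ev_adjoin _ h.gT
  have hG : Ev B k fun Λ => ∀ a, (d.G a : LA W₀ s.ρ) ∈ d.sp Λ d.bg :=
    Ev.all fun a => H1cAux.ev_sp_one d.toRD _ (h.hG a)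
  have hred : Ev B k fun Λ => ∃ ρ : ℕ,
      d.sp Λ d.bg ^ (ρ + 1) ≤ d.sp Λ (fun a => (d.G a : LA W₀ s.ρ)) * d.sp Λ d.bg ^ ρ :=
    ev_red h.hred
  have hSB : Ev B k fun Λ => ∀ a, d.S1 Λ a ≤ d.B1 Λ a :=
    Ev.all fun a => ev_le ((Set.finite_range _).union (Set.finite_range _)) (h.hSB a)
  have hBB : Ev B k fun Λ => ∀ a b i, ∃ j : ℕ,
      (((d.G b * (d.G a)⁻¹) ^ j : (LA W₀ s.ρ)ˣ) : LA W₀ s.ρ) * d.sg b i ∈ d.B1 Λ a := by
    refine Ev.all fun a => Ev.all fun b => Ev.all fun i => ?_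
    obtain ⟨j, hj⟩ := h.hBB a b i
    exact (ev_adjoin _ hj).mono fun Λ H => ⟨j, H⟩
  have hτ : Ev B k fun Λ => ∀ a, ∀ w ∈ GD.taus W₀ s.ρ, ∃ j : ℕ,
      (d.g : LA W₀ s.ρ) ^ j * w ∈ d.B1 Λ a := by
    refine Ev.all fun a => H1cAux.ev_set (taus_finite _) fun w hw => ?_
    obtain ⟨j, hj⟩ := h.hτ a w hw
    exact (ev_adjoin _ hj).mono fun Λ H => ⟨j, H⟩
  have hv : Ev B k fun Λ => ∀ a c, (d.v a c : LA W₀ s.ρ) ∈ d.B1 Λ a ∧
      (((d.v a c)⁻¹ : (LA W₀ s.ρ)ˣ) : LA W₀ s.ρ) ∈ d.B1 Λ a :=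
    Ev.all fun a => Ev.all fun c => (ev_adjoin _ (h.hv a c).1).and (ev_adjoin _ (h.hv a c).2)
  have hom : Ev B k fun Λ => ∀ a i, d.om a i ∈ d.B1 Λ a :=
    Ev.all fun a => Ev.all fun i => ev_adjoin _ (h.hom a i)
  have hfin : Ev B k fun Λ => ∀ a, ∀ w ∈ d.B1 Λ a,
      w ∈ Submodule.span (d.SV Λ a) (Set.range (d.om a)) :=
    Ev.all fun a => ev_fin (fB a) (Set.finite_range _)
      (fun _ ⟨i, hi⟩ => hi ▸ h.hom a i) (h.hfin a)
  have het : Ev B k fun Λ => ∀ a, EtC (d.B1 Λ a) (d.y a) :=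
    Ev.all fun a => ev_etale (fB a) (h.het a)
  have hglue : Ev B k fun Λ => ∀ a b i, As (d.B1 Λ a ⊔ d.B1 Λ b) (d.t a i) (d.t b i) :=
    Ev.all fun a => Ev.all fun b => Ev.all fun i => ev_as_sup (h.hglue a b i)
  have hj : Ev B k fun Λ => ∀ a,
      As (d.B1 Λ a) (d.j a ^ s.N) (d.u * d.G a * ∏ i, d.t a i ^ s.al i) :=
    Ev.all fun a => H1cAux.ev_as _ (h.hj a)
  have ha : Ev B k fun Λ => d.sp Λ d.bg ≤ d.sp Λ d.ag ^ s.a1 := ev_le_pow h.ha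
  have hetE : Ev B k fun Λ => ∀ i, EtC (d.SE Λ i) (d.yE i) :=
    Ev.all fun i => ev_etale
      (((Set.finite_range _).union (Set.finite_singleton _)).union (taus_finite _)) (h.hetE i)
  have hwE : Ev B k fun Λ => ∀ i, (((d.wE i)⁻¹ : (LA W₀ s.ρ)ˣ) : LA W₀ s.ρ) ∈ d.SE Λ i :=
    Ev.all fun i => ev_adjoin _ (h.hwE i)
  have hed : Ev B k fun Λ => ∀ i, ∃ j : ℕ, d.e i ^ j *
      ((d.u * (d.jE i)⁻¹ ^ s.N * d.wE i : (LA W₀ s.ρ)ˣ) : LA W₀ s.ρ) ∈ d.sp Λ d.dg ^ s.M := by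
    refine Ev.all fun i => ?_
    obtain ⟨j, hj⟩ := h.hed i
    exact (H1cAux.ev_sp_pow d.toRD _ _ hj).mono fun Λ H => ⟨j, H⟩
  have he1 : Ev B k fun Λ => (d.e1 : LA W₀ s.ρ) ∈ d.sp Λ d.e :=
    H1cAux.ev_sp_one d.toRD _ h.he1
  have he2 : Ev B k fun Λ => d.e2 ∈ d.sp Λ d.e := H1cAux.ev_sp_one d.toRD _ h.he2
  have hreg : Ev B k fun Λ => ∀ w ∈ d.T Λ, (∃ v ∈ d.T Λ, d.e2 * w = d.e1 * v) →
      ∃ b : Λ, b ≠ 0 ∧ ∃ v ∈ d.T Λ, b • w = d.e1 * v := ev_reg h.eT h.he1 h.hreg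
  refine (bT.and <| dT.and <| aT.and <| eT.and <| gT.and <| hG.and <| hred.and <| hSB.and <|
    hBB.and <| hτ.and <| hv.and <| hom.and <| hfin.and <| het.and <| hglue.and <| hj.and <|
    ha.and <| hetE.and <| hwE.and <| hed.and <| he1.and <| he2.and hreg).mono ?_
  rintro Λ ⟨H1, H2, H3, H4, H5, H6, H7, H8, H9, H10, H11, H12, H13, H14, H15, H16, H17, H18,
    H19, H20, H21, H22, H23⟩
  exact ⟨h.hr, h.hM, h.hmv, h.hal, h.hinj, h.ht, h.dtg, h.dsg, h.dom, h.dy, h.dx, h.dv, h.du,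
    H1, H2, H3, H4, H5, H6, H7, H8, H9, H10, H11, H12, H13, H14, H15, H16, H17, h.heI, H18,
    H19, H20, H21, H22, H23⟩

end GH1cAux

/-- As `RD.Amb.spread`. `hSB` is checked on generators. For `hfin`: `1` and the products
`tg i * om a j`, `sg a i * om a j` lie in the span over `SV k a`; the finitely many coefficients
lie in `SV Λ a` eventually (`SV` is an `adjoin` of a union), and then the span over `SV Λ a` is
stable under multiplication by `B1 Λ a`. The degree conditions do not depend on the base. -/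
theorem GD.Amb.spread {B k : Type} [CommRing B] [Field k] [Algebra B k] {n : ℕ} {s : GShp n}
    {W₀ : Type} [CommRing W₀] [Algebra k W₀] {d : GD s W₀}
    {D : Fin n → Derivation k (LA W₀ s.ρ) (LA W₀ s.ρ)} (h : d.Amb k D) :
    Ev B k fun Λ => d.Amb Λ (fun i => (D i).restrictScalars Λ) := by
  have wG : Ev B k fun Λ => ∀ a, (((d.G a)⁻¹ : (LA W₀ s.ρ)ˣ) : LA W₀ s.ρ) ∈ d.Wg Λ :=
    Ev.all fun a => ev_adjoin _ (h.wG a)
  have wj : Ev B k fun Λ => ∀ a, (d.j a : LA W₀ s.ρ) ∈ d.Wg Λ :=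
    Ev.all fun a => ev_adjoin _ (h.wj a)
  have wt : Ev B k fun Λ => ∀ a i, (((d.t a i)⁻¹ : (LA W₀ s.ρ)ˣ) : LA W₀ s.ρ) ∈ d.Wg Λ :=
    Ev.all fun a => Ev.all fun i => ev_adjoin _ (h.wt a i)
  have wu : Ev B k fun Λ => (d.u : LA W₀ s.ρ) ∈ d.Wg Λ := ev_adjoin _ h.wu
  have wu' : Ev B k fun Λ => ((d.u⁻¹ : (LA W₀ s.ρ)ˣ) : LA W₀ s.ρ) ∈ d.Wg Λ := ev_adjoin _ h.wu'
  have we : Ev B k fun Λ => ((d.e1⁻¹ : (LA W₀ s.ρ)ˣ) : LA W₀ s.ρ) ∈ d.Wg Λ := ev_adjoin _ h.we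
  have wsg : Ev B k fun Λ => ∀ a i, d.sg a i ∈ d.Wg Λ :=
    Ev.all fun a => Ev.all fun i => ev_adjoin _ (h.wsg a i)
  have weI : Ev B k fun Λ => ∀ i, d.eI i ∈ d.Wg Λ := Ev.all fun i => ev_adjoin _ (h.weI i)
  have wjE : Ev B k fun Λ => ∀ i, (d.jE i : LA W₀ s.ρ) ∈ d.Wg Λ :=
    Ev.all fun i => ev_adjoin _ (h.wjE i)
  have wwE : Ev B k fun Λ => ∀ i, (d.wE i : LA W₀ s.ρ) ∈ d.Wg Λ :=
    Ev.all fun i => ev_adjoin _ (h.wwE i)
  have wD : Ev B k fun Λ => ∀ i, ∀ w ∈ Set.range d.tg ∪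
      {((d.g⁻¹ : (LA W₀ s.ρ)ˣ) : LA W₀ s.ρ)} ∪ GD.taus W₀ s.ρ, D i w ∈ d.Wg Λ :=
    Ev.all fun i => H1cAux.ev_set
      (((Set.finite_range _).union (Set.finite_singleton _)).union (GH1cAux.taus_finite _))
      fun w hw => ev_adjoin _ (h.wD i w (Algebra.subset_adjoin hw))
  refine ((GH1cAux.ev_pre h.toPre).and <| wG.and <| wj.and <| wt.and <| wu.and <| wu'.and <|
    we.and <| wsg.and <| weI.and <| wjE.and <| wwE.and wD).mono ?_
  rintro Λ ⟨H0, H1, H2, H3, H4, H5, H6, H7, H8, H9, H10, H11⟩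
  exact ⟨H0, H1, H2, H3, H4, H5, H6, H7, H8, H9, H10,
    fun i => H1cAux.der_mem ((D i).restrictScalars Λ) (H11 i), h.hdet, h.hdetE, h.hdual, h.dD⟩

end

end Pool.Agent.Lib.MP_4287a9_ag
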