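import Pool.Agent.Lib.MP_4287a9_ag.RDa

/-!
Passing from the ambient ring to `T[1 / g]`.
-/

open scoped TensorProduct ENNReal NNReal nonZeroDivisors Polynomial
open Filter

namespace Pool.Agent.Lib.MP_4287a9_ag

noncomputable section

namespace H1dAux

variable {n : ℕ} {s : Shp n} {W W' : Type} [CommRing W] [CommRing W'] {Λ : Type} [CommRing Λ]
  [Algebra Λ W] [Algebra Λ W'] {φ : W' →ₐ[Λ] W}

theorem map_T (d : RD s W') (φ : W' →ₐ[Λ] W) :
    (d.map (φ : W' →+* W)).T Λ = (d.T Λ).map φ := by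
  unfold RD.T
  rw [AlgHom.map_adjoin, ← Set.range_comp]
  rfl

theorem map_Ws (d : RD s W') (φ : W' →ₐ[Λ] W) :
    (d.map (φ : W' →+* W)).Ws Λ = (d.Ws Λ).map φ := by
  unfold RD.Ws
  rw [AlgHom.map_adjoin, Set.image_union, ← Set.range_comp, Set.image_singleton]
  rfl

theorem map_S1 (d : RD s W') (φ : W' →ₐ[Λ] W) (a : Fin s.m) :
    (d.map (φ : W' →+* W)).S1 Λ a = (d.S1 Λ a).map φ := by
  unfold RD.S1
  rw [AlgHom.map_adjoin, Set.image_union, ← Set.range_comp, ← Set.range_comp]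
  congr 2
  congr 1
  funext i
  simp only [Function.comp, map_mul]
  rfl

theorem mem_map (hφ : Function.Injective φ) (S : Subalgebra Λ W') (x : W') :
    φ x ∈ S.map φ ↔ x ∈ S := by
  constructor
  · rintro ⟨y, hy, e⟩
    rwa [← hφ e]
  · exact fun hx => ⟨x, hx, rfl⟩

/-- `M` is the image of `M'`. -/
def Im (φ : W' →ₐ[Λ] W) {T' : Subalgebra Λ W'} {T : Subalgebra Λ W} (M' : Submodule T' W')
    (M : Submodule T W) : Prop :=
  (∀ x ∈ M', φ x ∈ M) ∧ ∀ y ∈ M, ∃ x ∈ M', φ x = y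

variable {T' : Subalgebra Λ W'} {T : Subalgebra Λ W}

theorem Im.mem (hφ : Function.Injective φ) {M' : Submodule T' W'} {M : Submodule T W}
    (h : Im φ M' M) {x : W'} (hx : φ x ∈ M) : x ∈ M' := by
  obtain ⟨y, hy, e⟩ := h.2 _ hx
  rwa [← hφ e]

theorem Im.le (hφ : Function.Injective φ) {M' N' : Submodule T' W'} {M N : Submodule T W}
    (h : Im φ M' M) (h' : Im φ N' N) (hle : M ≤ N) : M' ≤ N' :=
  fun x hx => h'.mem hφ (hle (h.1 x hx))

theorem Im.mul {M' N' : Submodule T' W'} {M N : Submodule T W} (h : Im φ M' M)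
    (h' : Im φ N' N) : Im φ (M' * N') (M * N) := by
  constructor
  · intro x hx
    refine Submodule.mul_induction_on hx (fun a ha b hb => ?_) (fun a b ha hb => ?_)
    · rw [map_mul]; exact Submodule.mul_mem_mul (h.1 a ha) (h'.1 b hb)
    · rw [map_add]; exact add_mem ha hb
  · intro y hy
    refine Submodule.mul_induction_on hy (fun a ha b hb => ?_) (fun a b ha hb => ?_)
    · obtain ⟨a', ha', rfl⟩ := h.2 a ha
      obtain ⟨b', hb', rfl⟩ := h'.2 b hb
      exact ⟨a' * b', Submodule.mul_mem_mul ha' hb', map_mul _ _ _⟩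
    · obtain ⟨a', ha', rfl⟩ := ha
      obtain ⟨b', hb', rfl⟩ := hb
      exact ⟨a' + b', add_mem ha' hb', map_add _ _ _⟩

theorem im_span (hT : T = T'.map φ) (A : Set W') :
    Im φ (Submodule.span T' A) (Submodule.span T (φ '' A)) := by
  subst hT
  constructor
  · intro x hx
    induction hx using Submodule.span_induction with
    | mem x hx => exact Submodule.subset_span ⟨x, hx, rfl⟩
    | zero => rw [map_zero]; exact zero_mem _
    | add a b _ _ ha hb => rw [map_add]; exact add_mem ha hb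
    | smul c a _ ha =>
      have : φ (c • a) = (⟨φ c, c, c.2, rfl⟩ : T'.map φ) • φ a :=
        map_mul φ (c : W') a
      rw [this]
      exact Submodule.smul_mem _ _ ha
  · intro y hy
    induction hy using Submodule.span_induction with
    | mem y hy =>
      obtain ⟨x, hx, rfl⟩ := hy
      exact ⟨x, Submodule.subset_span hx, rfl⟩
    | zero => exact ⟨0, zero_mem _, map_zero _⟩
    | add a b _ _ ha hb =>
      obtain ⟨a', ha', rfl⟩ := ha
      obtain ⟨b', hb', rfl⟩ := hb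
      exact ⟨a' + b', add_mem ha' hb', map_add _ _ _⟩
    | smul c a _ ha =>
      obtain ⟨a', ha', rfl⟩ := ha
      obtain ⟨c, c', hc', rfl⟩ := c
      exact ⟨(⟨c', hc'⟩ : T') • a', Submodule.smul_mem _ _ ha', map_mul φ c' a'⟩

theorem Im.pow (hT : T = T'.map φ) {M' : Submodule T' W'} {M : Submodule T W} (h : Im φ M' M)
    (k : ℕ) : Im φ (M' ^ k) (M ^ k) := by
  induction k with
  | zero =>
    have := im_span hT {1}
    rw [Set.image_singleton, map_one] at this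
    rwa [pow_zero, pow_zero, Submodule.one_eq_span, Submodule.one_eq_span]
  | succ k ih =>
    rw [pow_succ, pow_succ]
    exact ih.mul h

theorem im_sp (d : RD s W') (φ : W' →ₐ[Λ] W) {k : ℕ} (v : Fin k → W') :
    Im φ (d.sp Λ v) ((d.map (φ : W' →+* W)).sp Λ fun i => φ (v i)) := by
  have := im_span (map_T d φ) (Set.range v)
  rw [← Set.range_comp] at this
  exact this

theorem etc_of_map (hφ : Function.Injective φ) {S : Subalgebra Λ W'} {y : Fin n → W'}
    (h : EtC (S.map φ) fun l => φ (y l)) : EtC S y := by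
  obtain ⟨hy, he⟩ := h
  have hy' : ∀ l, y l ∈ S := fun l => (mem_map hφ S _).1 (hy l)
  refine ⟨hy', ?_⟩
  let e := (S.equivMapOfInjective φ hφ).symm
  have h1 : (MvPolynomial.aeval (fun l => (⟨y l, hy' l⟩ : S)) :
      MvPolynomial (Fin n) Λ →ₐ[Λ] S) = (e : S.map φ →ₐ[Λ] S).comp
        (MvPolynomial.aeval (fun l => (⟨φ (y l), hy l⟩ : S.map φ))) := by
    refine MvPolynomial.algHom_ext fun l => ?_
    simp only [MvPolynomial.aeval_X, AlgHom.comp_apply]
    refine ((S.equivMapOfInjective φ hφ).symm_apply_eq.2 ?_).symm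
    rfl
  rw [h1]
  exact RingHom.Etale.stableUnderComposition _ _ he
    (RingHom.Etale.of_bijective (f := (e : S.map φ →ₐ[Λ] S).toRingHom) e.bijective)

theorem as_of_map (hφ : Function.Injective φ) {S : Subalgebra Λ W'} {x y : W'ˣ}
    (h : As (S.map φ) (Units.map ((φ : W' →+* W) : W' →* W) x)
      (Units.map ((φ : W' →+* W) : W' →* W) y)) : As S x y := by
  obtain ⟨h1, h2⟩ := h
  rw [← map_inv, ← map_mul] at h1 h2
  exact ⟨(mem_map hφ S _).1 h1, (mem_map hφ S _).1 h2⟩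

theorem pre_of_map (hφ : Function.Injective φ) {d : RD s W'}
    (h : (d.map (φ : W' →+* W)).Pre Λ) : d.Pre Λ := by
  have hT : ∀ x, φ x ∈ (d.map (φ : W' →+* W)).T Λ ↔ x ∈ d.T Λ := fun x => by
    rw [map_T]; exact mem_map hφ _ _
  have hT' : ∀ y ∈ (d.map (φ : W' →+* W)).T Λ, ∃ x ∈ d.T Λ, φ x = y := fun y hy => by
    rw [map_T] at hy; exact hy
  have hm := map_T d φ
  refine ⟨h.hr, h.hM, h.hal, h.hinj, fun a i => hφ ?_, fun i => (hT _).1 (h.bT i),
    fun i => (hT _).1 (h.dT i), fun i => (hT _).1 (h.aT i), fun i => (hT _).1 (h.eT i),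
    (hT _).1 h.gT, fun a => (im_sp d φ d.bg).mem hφ (h.hG a), ?_, fun a => ?_, fun a b i => ?_,
    fun a => ?_, ?_, fun i w hw => ?_, fun i => ?_, (im_sp d φ d.e).mem hφ h.he1,
    (im_sp d φ d.e).mem hφ h.he2, ?_⟩
  · have := h.ht a i
    cases hl : s.lam a i with
    | none => rw [hl] at this; exact this.trans (map_one φ).symm
    | some l => rw [hl] at this; exact this
  · obtain ⟨r, hr⟩ := h.hred
    exact ⟨r, ((im_sp d φ d.bg).pow hm (r + 1)).le hφ
      ((im_sp d φ fun a => (d.G a : W')).mul ((im_sp d φ d.bg).pow hm r)) hr⟩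
  · have := h.het a
    rw [map_S1] at this
    exact etc_of_map hφ this
  · have := h.hglue a b i
    rw [map_S1, map_S1, ← Algebra.map_sup] at this
    exact as_of_map hφ this
  · have := h.hj a
    rw [map_S1] at this
    refine as_of_map hφ ?_
    simp only [map_pow, map_mul, map_prod, map_zpow]
    exact this
  · exact (im_sp d φ d.bg).le hφ ((im_sp d φ d.ag).pow hm _) h.ha
  · obtain ⟨k, hk⟩ := h.heS i (φ w) (by rw [map_S1]; exact (mem_map hφ _ _).2 hw)
    exact ⟨k, (hT _).1 (by rw [map_mul, map_pow]; exact hk)⟩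
  · obtain ⟨k, hk⟩ := h.hed i
    refine ⟨k, ((im_sp d φ d.dg).pow hm _).mem hφ ?_⟩
    have e : φ ((d.u * (d.j (s.ch i))⁻¹ ^ s.N : W'ˣ) : W') =
        ((Units.map ((φ : W' →+* W) : W' →* W) (d.u * (d.j (s.ch i))⁻¹ ^ s.N) : Wˣ) : W) := rfl
    rw [map_mul, map_pow, e, map_mul, map_pow, map_inv]
    exact hk
  · rintro w hw ⟨v, hv, e⟩
    obtain ⟨b, hb, v', hv', e'⟩ := h.hreg (φ w) ((hT _).2 hw)
      ⟨φ v, (hT _).2 hv, by
        have := congrArg φ e
        rw [map_mul, map_mul] at this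
        exact this⟩
    obtain ⟨v'', hv'', rfl⟩ := hT' v' hv'
    refine ⟨b, hb, v'', hv'', hφ ?_⟩
    rw [map_smul, map_mul]
    exact e'

theorem amb_of_map (hφ : Function.Injective φ) {d : RD s W'} {D : Fin n → Derivation Λ W W}
    {D' : Fin n → Derivation Λ W' W'} (hD : ∀ i w, φ (D' i w) = D i (φ w))
    (h : (d.map (φ : W' →+* W)).Amb Λ D) : d.Amb Λ D' := by
  have hW : ∀ x, φ x ∈ (d.map (φ : W' →+* W)).Ws Λ ↔ x ∈ d.Ws Λ := fun x => by
    rw [map_Ws]; exact mem_map hφ _ _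
  refine ⟨pre_of_map hφ h.toPre, fun a => (hW _).1 (h.wG a), fun a => (hW _).1 (h.wj a),
    fun a i => (hW _).1 (h.wt a i), (hW _).1 h.wu, (hW _).1 h.wu', (hW _).1 h.we,
    fun i w hw => (hW _).1 ?_, fun a => hφ ?_, fun i l => hφ ?_⟩
  · rw [hD]; exact h.wD i _ ((hW _).2 hw)
  · have e : φ.mapMatrix (Matrix.of fun i l => D' i (d.y a l)) =
        Matrix.of fun i l => D i ((d.map (φ : W' →+* W)).y a l) := by
      ext i l
      exact hD i _
    rw [map_mul, AlgHom.map_det, e, map_one]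
    exact h.hdet a
  · rw [hD]
    have := h.hdual i l
    split_ifs at this ⊢
    · rw [map_one]; exact this
    · rw [map_zero]; exact this

theorem link_of_map (hφ : Function.Injective φ) {d : RD s W'} {P : Type} [CommRing P]
    [Algebra Λ P] {ρ : P →ₐ[Λ] W} {ρ' : P →ₐ[Λ] W'} (hρ : ∀ x, φ (ρ' x) = ρ x) {f : P}
    {𝔡 𝔞 : Ideal P} (h : (d.map (φ : W' →+* W)).Link ρ f 𝔡 𝔞) : d.Link ρ' f 𝔡 𝔞 := by
  have hT : ∀ x, φ x ∈ (d.map (φ : W' →+* W)).T Λ ↔ x ∈ d.T Λ := fun x => by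
    rw [map_T]; exact mem_map hφ _ _
  have hT' : ∀ y ∈ (d.map (φ : W' →+* W)).T Λ, ∃ x ∈ d.T Λ, φ x = y := fun y hy => by
    rw [map_T] at hy; exact hy
  refine ⟨fun x => (hT _).1 (by rw [hρ]; exact h.mem x), ?_, fun w hw => ?_,
    fun x hx => h.ker x (by rw [← hρ, hx, map_zero]), fun i => ?_, fun i => ?_⟩
  · obtain ⟨w, hw, e⟩ := h.inv
    obtain ⟨w', hw', rfl⟩ := hT' w hw
    exact ⟨w', hw', hφ (by rw [map_mul, hρ, map_one]; exact e)⟩
  · obtain ⟨i, x, e⟩ := h.surj (φ w) ((hT _).2 hw)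
    exact ⟨i, x, hφ (by rw [map_mul, map_pow, hρ, hρ]; exact e)⟩
  · obtain ⟨x, hx, e⟩ := h.hd i
    exact ⟨x, hx, hφ (by rw [hρ]; exact e)⟩
  · obtain ⟨x, hx, e⟩ := h.ha i
    exact ⟨x, hx, hφ (by rw [hρ]; exact e)⟩

/-- A unit of `W` as a unit of a subalgebra. -/
def un (S : Subalgebra Λ W) (x : Wˣ) (h1 : (x : W) ∈ S) (h2 : ((x⁻¹ : Wˣ) : W) ∈ S) : Sˣ where
  val := ⟨x, h1⟩
  inv := ⟨(x⁻¹ : Wˣ), h2⟩
  val_inv := Subtype.ext x.mul_inv
  inv_val := Subtype.ext x.inv_mul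

/-- Restriction of a derivation to a stable subalgebra. -/
def dres (S : Subalgebra Λ W) (D : Derivation Λ W W) (h : ∀ w ∈ S, D w ∈ S) :
    Derivation Λ S S where
  toFun w := ⟨D w, h w w.2⟩
  map_add' a b := Subtype.ext (map_add D (a : W) b)
  map_smul' c a := Subtype.ext (D.map_smul c (a : W))
  map_one_eq_zero' := Subtype.ext D.map_one_eq_zero
  leibniz' a b := Subtype.ext (D.leibniz (a : W) b)

end H1dAux

open H1dAux in
/-- All the data and the inverses of the units lie in `Ws`. With `val : Ws → W` injective and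
`d'.map val = d`, every subalgebra and span for `d` is the image of the one for `d'`. -/
theorem RD.Amb.to_sub {n : ℕ} {s : Shp n} {W : Type} [CommRing W] {d : RD s W} {Λ : Type}
    [CommRing Λ] [Algebra Λ W] {D : Fin n → Derivation Λ W W} (h : d.Amb Λ D) {P : Type}
    [CommRing P] [Algebra Λ P] {ρ : P →ₐ[Λ] W} {f : P} {𝔡 𝔞 : Ideal P} (hl : d.Link ρ f 𝔡 𝔞) :
    ∃ (d' : RD s (d.Ws Λ)) (D' : Fin n → Derivation Λ (d.Ws Λ) (d.Ws Λ))
      (ρ' : P →ₐ[Λ] d.Ws Λ), d'.Good Λ D' ∧ d'.Link ρ' f 𝔡 𝔞 := by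
  have hTW : d.T Λ ≤ d.Ws Λ := Algebra.adjoin_mono Set.subset_union_left
  have htg : ∀ i, d.tg i ∈ d.Ws Λ := fun i => Algebra.subset_adjoin (Or.inl ⟨i, rfl⟩)
  have hS1 : ∀ a, d.S1 Λ a ≤ d.Ws Λ := fun a => by
    refine Algebra.adjoin_le ?_
    rintro _ (⟨i, rfl⟩ | ⟨i, rfl⟩)
    · exact htg i
    · exact mul_mem (hTW (h.bT i)) (h.wG a)
  have hsp : ∀ {k : ℕ} {v : Fin k → W}, (∀ i, v i ∈ d.T Λ) → ∀ x ∈ d.sp Λ v, x ∈ d.Ws Λ :=
    fun hv x hx => hTW (d.mem_T_of_mem_sp_pow hv 1 (by rwa [pow_one]))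
  have hy : ∀ a l, d.y a l ∈ d.Ws Λ := fun a l => hS1 a ((h.het a).mem l)
  have hj : ∀ a, (((d.j a)⁻¹ : Wˣ) : W) ∈ d.Ws Λ := fun a => by
    have e : (((d.j a)⁻¹ : Wˣ) : W) = (Matrix.of fun i l => D i (d.y a l)).det :=
      Units.inv_eq_of_mul_eq_one_right (h.hdet a)
    rw [e, Matrix.det_apply]
    refine sum_mem fun σ _ => ?_
    rw [Units.smul_def]
    exact zsmul_mem (prod_mem fun l _ => h.wD _ _ (hy a l)) _
  let d' : RD s (d.Ws Λ) :=
    { tg := fun i => ⟨d.tg i, htg i⟩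
      bg := fun i => ⟨d.bg i, hTW (h.bT i)⟩
      dg := fun i => ⟨d.dg i, hTW (h.dT i)⟩
      ag := fun i => ⟨d.ag i, hTW (h.aT i)⟩
      e := fun i => ⟨d.e i, hTW (h.eT i)⟩
      g := un _ d.g (hTW h.gT) (Algebra.subset_adjoin (Or.inr rfl))
      u := un _ d.u h.wu h.wu'
      e1 := un _ d.e1 (hsp h.eT _ h.he1) h.we
      e2 := ⟨d.e2, hsp h.eT _ h.he2⟩
      G := fun a => un _ (d.G a) (hsp h.bT _ (h.hG a)) (h.wG a)
      j := fun a => un _ (d.j a) (h.wj a) (hj a)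
      y := fun a l => ⟨d.y a l, hy a l⟩
      t := fun a i => un _ (d.t a i) (hS1 a (h.toPre.t_mem a i)) (h.wt a i) }
  have hd : d'.map ((d.Ws Λ).val : d.Ws Λ →+* W) = d := rfl
  have hφ : Function.Injective (d.Ws Λ).val := Subtype.val_injective
  refine ⟨d', fun i => dres _ (D i) (h.wD i), ρ.codRestrict _ fun x => hTW (hl.mem x),
    ⟨amb_of_map hφ (D := D) (fun i w => rfl) (by rw [hd]; exact h), ?_⟩,
    link_of_map hφ (ρ := ρ) (fun x => rfl) (by rw [hd]; exact hl)⟩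
  rw [eq_top_iff]
  intro x _
  refine (mem_map hφ _ x).1 ?_
  rw [← map_Ws, hd]
  exact x.2

end

end Pool.Agent.Lib.MP_4287a9_ag
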