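import Pool.Agent.Lib.MP_4287a9_ag.GDa
import Pool.Agent.Lib.MP_4287a9_ag.H1d

/-!
Passing from the ambient ring to `T[1 / g][τ ^ ±]` (compare `H1d`).
-/

open scoped TensorProduct ENNReal NNReal nonZeroDivisors Polynomial
open Filter

namespace Pool.Agent.Lib.MP_4287a9_ag

noncomputable section

namespace GH1dAux

open H1dAux

section Generic

variable {W W' Λ : Type} [CommRing W] [CommRing W'] [CommRing Λ] [Algebra Λ W] [Algebra Λ W']
  {φ : W' →ₐ[Λ] W}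

theorem ex_unit (hφ : Function.Injective φ) {x : Wˣ} (h1 : ∃ y, φ y = (x : W))
    (h2 : ∃ y, φ y = ((x⁻¹ : Wˣ) : W)) :
    ∃ y : W'ˣ, Units.map ((φ : W' →+* W) : W' →* W) y = x := by
  obtain ⟨a, ha⟩ := h1
  obtain ⟨b, hb⟩ := h2
  refine ⟨⟨a, b, hφ ?_, hφ ?_⟩, Units.ext ha⟩
  · rw [map_mul, ha, hb, map_one, x.mul_inv]
  · rw [map_mul, ha, hb, map_one, x.inv_mul]

theorem ex_der (hφ : Function.Injective φ) (D : Derivation Λ W W)
    (h : ∀ w, ∃ y, φ y = D (φ w)) : ∃ D' : Derivation Λ W' W', ∀ w, φ (D' w) = D (φ w) := by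
  choose F hF using h
  refine ⟨{ toFun := F
            map_add' := fun a b => hφ ?_
            map_smul' := fun c a => hφ ?_
            map_one_eq_zero' := hφ ?_
            leibniz' := fun a b => hφ ?_ }, hF⟩
  · rw [map_add, hF, hF, hF, map_add, map_add]
  · rw [RingHom.id_apply, map_smul, hF, hF, map_smul, D.map_smul]
  · change φ (F 1) = φ 0
    rw [hF, map_one, D.map_one_eq_zero, map_zero]
  · change φ (F (a * b)) = φ (a * F b + b * F a)
    rw [hF, map_mul, D.leibniz, map_add, map_mul, map_mul, hF, hF, smul_eq_mul, smul_eq_mul]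

theorem ex_hom (hφ : Function.Injective φ) {P : Type} [CommRing P] [Algebra Λ P]
    (ρ : P →ₐ[Λ] W) (h : ∀ x, ∃ y, φ y = ρ x) : ∃ ρ' : P →ₐ[Λ] W', ∀ x, φ (ρ' x) = ρ x := by
  choose F hF using h
  refine ⟨{ toFun := F
            map_one' := hφ ?_
            map_mul' := fun a b => hφ ?_
            map_zero' := hφ ?_
            map_add' := fun a b => hφ ?_
            commutes' := fun c => hφ ?_ }, hF⟩
  · rw [hF, map_one, map_one]
  · rw [map_mul, hF, hF, hF, map_mul]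
  · rw [hF, map_zero, map_zero]
  · rw [map_add, hF, hF, hF, map_add]
  · rw [hF, AlgHom.commutes, AlgHom.commutes]

theorem rd_ext {n : ℕ} {s : Shp n} {d d' : RD s W} (h1 : d.tg = d'.tg) (h2 : d.bg = d'.bg)
    (h3 : d.dg = d'.dg) (h4 : d.ag = d'.ag) (h5 : d.e = d'.e) (h6 : d.g = d'.g) (h7 : d.u = d'.u)
    (h8 : d.e1 = d'.e1) (h9 : d.e2 = d'.e2) (h10 : d.G = d'.G) (h11 : d.j = d'.j)
    (h12 : d.y = d'.y) (h13 : d.t = d'.t) : d = d' := by
  cases d
  cases d'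
  congr

theorem gd_ext {n : ℕ} {s : GShp n} {d d' : GD s W} (h0 : d.toRD = d'.toRD) (h1 : d.sg = d'.sg)
    (h2 : d.om = d'.om) (h3 : d.v = d'.v) (h4 : d.eI = d'.eI) (h5 : d.yE = d'.yE)
    (h6 : d.jE = d'.jE) (h7 : d.wE = d'.wE) : d = d' := by
  cases d
  cases d'
  congr

end Generic

variable {n : ℕ} {s : GShp n} {W₀ W₁ Λ : Type} [CommRing W₀] [CommRing W₁] [CommRing Λ]
  [Algebra Λ W₀] [Algebra Λ W₁]

/-- The coefficientwise map as an algebra map. -/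
abbrev lm (ρ : ℕ) (ψ : W₁ →ₐ[Λ] W₀) : LA W₁ ρ →ₐ[Λ] LA W₀ ρ :=
  AddMonoidAlgebra.mapAlgHom (Fin ρ → ℤ) ψ

theorem lm_inj {ρ : ℕ} {ψ : W₁ →ₐ[Λ] W₀} (hψ : Function.Injective ψ) :
    Function.Injective (lm ρ ψ) := by
  intro x y h
  ext β
  apply hψ
  rw [← AddMonoidAlgebra.coeff_mapAlgHom, ← AddMonoidAlgebra.coeff_mapAlgHom]
  exact congrArg (fun z => z.coeff β) h

theorem deg_of_lm {ρ : ℕ} {ψ : W₁ →ₐ[Λ] W₀} (hψ : Function.Injective ψ) {γ : Fin ρ → ℤ}
    {w : LA W₁ ρ} (h : IsDeg γ (lm ρ ψ w)) : IsDeg γ w := fun β hβ => hψ (by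
  rw [map_zero, ← AddMonoidAlgebra.coeff_mapAlgHom]
  exact h β hβ)

theorem hom_of_lm {ρ : ℕ} {ψ : W₁ →ₐ[Λ] W₀} (hψ : Function.Injective ψ) {w : LA W₁ ρ}
    (h : IsHom (lm ρ ψ w)) : IsHom w := by
  obtain ⟨γ, h⟩ := h
  exact ⟨γ, deg_of_lm hψ h⟩

theorem lm_taus (ρ : ℕ) (ψ : W₁ →ₐ[Λ] W₀) : lm ρ ψ '' GD.taus W₁ ρ = GD.taus W₀ ρ :=
  lmap_taus (ψ : W₁ →+* W₀)

theorem map_toRD (d : GD s W₁) (ψ : W₁ →ₐ[Λ] W₀) :
    (d.map (ψ : W₁ →+* W₀)).toRD = d.toRD.map (lm s.ρ ψ : LA W₁ s.ρ →+* LA W₀ s.ρ) := rfl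

theorem map_Wg (d : GD s W₁) (ψ : W₁ →ₐ[Λ] W₀) :
    (d.map (ψ : W₁ →+* W₀)).Wg Λ = (d.Wg Λ).map (lm s.ρ ψ) := by
  unfold GD.Wg
  rw [AlgHom.map_adjoin, Set.image_union, Set.image_union, ← Set.range_comp, Set.image_singleton,
    lm_taus]
  rfl

theorem map_B1 (d : GD s W₁) (ψ : W₁ →ₐ[Λ] W₀) (a : Fin s.m) :
    (d.map (ψ : W₁ →+* W₀)).B1 Λ a = (d.B1 Λ a).map (lm s.ρ ψ) := by
  unfold GD.B1
  rw [AlgHom.map_adjoin, Set.image_union, ← Set.range_comp, ← Set.range_comp]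
  rfl

theorem map_SE (d : GD s W₁) (ψ : W₁ →ₐ[Λ] W₀) (i : Fin s.ne) :
    (d.map (ψ : W₁ →+* W₀)).SE Λ i = (d.SE Λ i).map (lm s.ρ ψ) := by
  unfold GD.SE
  rw [AlgHom.map_adjoin, Set.image_union, Set.image_union, ← Set.range_comp, Set.image_singleton,
    lm_taus]
  rfl

theorem map_S1' (d : GD s W₁) (ψ : W₁ →ₐ[Λ] W₀) (a : Fin s.m) :
    (d.map (ψ : W₁ →+* W₀)).S1 Λ a = (d.S1 Λ a).map (lm s.ρ ψ) :=
  map_S1 d.toRD (lm s.ρ ψ) a

theorem map_T' (d : GD s W₁) (ψ : W₁ →ₐ[Λ] W₀) :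
    (d.map (ψ : W₁ →+* W₀)).T Λ = (d.T Λ).map (lm s.ρ ψ) :=
  map_T d.toRD (lm s.ρ ψ)

theorem map_SV (d : GD s W₁) (ψ : W₁ →ₐ[Λ] W₀) (a : Fin s.m) :
    (d.map (ψ : W₁ →+* W₀)).SV Λ a = (d.SV Λ a).map (lm s.ρ ψ) := by
  unfold GD.SV
  rw [Algebra.map_sup, map_S1', AlgHom.map_adjoin, Set.image_union, ← Set.range_comp,
    ← Set.range_comp]
  rfl

theorem pre_of_map {ψ : W₁ →ₐ[Λ] W₀} (hψ : Function.Injective ψ) {d : GD s W₁}
    (h : (d.map (ψ : W₁ →+* W₀)).Pre Λ) : d.Pre Λ := by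
  have hφ := lm_inj (ρ := s.ρ) hψ
  have hT : ∀ x, lm s.ρ ψ x ∈ (d.map (ψ : W₁ →+* W₀)).T Λ ↔ x ∈ d.T Λ := fun x => by
    rw [map_T']; exact mem_map hφ _ _
  have hT' : ∀ y ∈ (d.map (ψ : W₁ →+* W₀)).T Λ, ∃ x ∈ d.T Λ, lm s.ρ ψ x = y := fun y hy => by
    rw [map_T'] at hy; exact hy
  have hB : ∀ a x, lm s.ρ ψ x ∈ (d.map (ψ : W₁ →+* W₀)).B1 Λ a ↔ x ∈ d.B1 Λ a := fun a x => by
    rw [map_B1]; exact mem_map hφ _ _
  have hE : ∀ i x, lm s.ρ ψ x ∈ (d.map (ψ : W₁ →+* W₀)).SE Λ i ↔ x ∈ d.SE Λ i := fun a x => by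
    rw [map_SE]; exact mem_map hφ _ _
  have hm := map_T d.toRD (lm s.ρ ψ)
  have sp := fun {k : ℕ} (v : Fin k → LA W₁ s.ρ) => im_sp d.toRD (lm s.ρ ψ) v
  exact
    { hr := h.hr
      hM := h.hM
      hmv := h.hmv
      hal := h.hal
      hinj := h.hinj
      ht := fun a i => hφ (by
        have := h.ht a i
        cases hl : s.lam a i with
        | none => rw [hl] at this; exact this.trans (map_one (lm s.ρ ψ)).symm
        | some l => rw [hl] at this; exact this)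
      dtg := fun i => deg_of_lm hψ (h.dtg i)
      dsg := fun a i => hom_of_lm hψ (h.dsg a i)
      dom := fun a i => hom_of_lm hψ (h.dom a i)
      dy := fun a l => hom_of_lm hψ (h.dy a l)
      dx := fun l => deg_of_lm hψ (h.dx l)
      dv := fun a c => deg_of_lm hψ (h.dv a c)
      du := deg_of_lm hψ h.du
      bT := fun i => (hT _).1 (h.bT i)
      dT := fun i => (hT _).1 (h.dT i)
      aT := fun i => (hT _).1 (h.aT i)
      eT := fun i => (hT _).1 (h.eT i)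
      gT := (hT _).1 h.gT
      hG := fun a => (sp d.bg).mem hφ (h.hG a)
      hred := by
        obtain ⟨r, hr⟩ := h.hred
        exact ⟨r, ((sp d.bg).pow hm (r + 1)).le hφ
          ((sp fun a => (d.G a : LA W₁ s.ρ)).mul ((sp d.bg).pow hm r)) hr⟩
      hSB := fun a x hx => (hB a x).1 (h.hSB a (by rw [map_S1']; exact (mem_map hφ _ _).2 hx))
      hBB := fun a b i => by
        obtain ⟨k, hk⟩ := h.hBB a b i
        refine ⟨k, (hB a _).1 ?_⟩
        have e : lm s.ρ ψ (((d.G b * (d.G a)⁻¹) ^ k : (LA W₁ s.ρ)ˣ) : LA W₁ s.ρ) =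
            ((Units.map ((lm s.ρ ψ : LA W₁ s.ρ →+* LA W₀ s.ρ) : LA W₁ s.ρ →* LA W₀ s.ρ)
              ((d.G b * (d.G a)⁻¹) ^ k) : (LA W₀ s.ρ)ˣ) : LA W₀ s.ρ) := rfl
        rw [map_mul, e, map_pow, map_mul, map_inv]
        exact hk
      hτ := fun a w hw => by
        obtain ⟨k, hk⟩ := h.hτ a (lm s.ρ ψ w) (by rw [← lm_taus s.ρ ψ]; exact ⟨w, hw, rfl⟩)
        exact ⟨k, (hB a _).1 (by rw [map_mul, map_pow]; exact hk)⟩
      hv := fun a c => ⟨(hB a _).1 (h.hv a c).1, (hB a _).1 (h.hv a c).2⟩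
      hom := fun a i => (hB a _).1 (h.hom a i)
      hfin := fun a w hw => by
        have h1 := h.hfin a (lm s.ρ ψ w) ((hB a w).2 hw)
        have h2 := im_span (map_SV d ψ a) (Set.range (d.om a))
        rw [← Set.range_comp] at h2
        exact h2.mem hφ h1
      het := fun a => by
        have := h.het a
        rw [map_B1] at this
        exact etc_of_map hφ this
      hglue := fun a b i => by
        have := h.hglue a b i
        rw [map_B1, map_B1, ← Algebra.map_sup] at this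
        exact as_of_map hφ this
      hj := fun a => by
        have := h.hj a
        rw [map_B1] at this
        refine as_of_map hφ ?_
        simp only [map_pow, map_mul, map_prod, map_zpow]
        exact this
      ha := (sp d.bg).le hφ ((sp d.ag).pow hm _) h.ha
      heI := fun i => hφ (by rw [map_mul, map_one]; exact h.heI i)
      hetE := fun i => by
        have := h.hetE i
        rw [map_SE] at this
        exact etc_of_map hφ this
      hwE := fun i => (hE i _).1 (h.hwE i)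
      hed := fun i => by
        obtain ⟨k, hk⟩ := h.hed i
        refine ⟨k, ((sp d.dg).pow hm _).mem hφ ?_⟩
        have e : lm s.ρ ψ ((d.u * (d.jE i)⁻¹ ^ s.N * d.wE i : (LA W₁ s.ρ)ˣ) : LA W₁ s.ρ) =
            ((Units.map ((lm s.ρ ψ : LA W₁ s.ρ →+* LA W₀ s.ρ) : LA W₁ s.ρ →* LA W₀ s.ρ)
              (d.u * (d.jE i)⁻¹ ^ s.N * d.wE i) : (LA W₀ s.ρ)ˣ) : LA W₀ s.ρ) := rfl
        rw [map_mul, map_pow, e, map_mul, map_mul, map_pow, map_inv]
        exact hk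
      he1 := (sp d.e).mem hφ h.he1
      he2 := (sp d.e).mem hφ h.he2
      hreg := by
        rintro w hw ⟨v, hv, e⟩
        obtain ⟨b, hb, v', hv', e'⟩ := h.hreg (lm s.ρ ψ w) ((hT _).2 hw)
          ⟨lm s.ρ ψ v, (hT _).2 hv, by
            have := congrArg (lm s.ρ ψ) e
            rw [map_mul, map_mul] at this
            exact this⟩
        obtain ⟨v'', hv'', rfl⟩ := hT' v' hv'
        refine ⟨b, hb, v'', hv'', hφ ?_⟩
        rw [map_smul, map_mul]
        exact e' }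

theorem amb_of_map {ψ : W₁ →ₐ[Λ] W₀} (hψ : Function.Injective ψ) {d : GD s W₁}
    {D : Fin n → Derivation Λ (LA W₀ s.ρ) (LA W₀ s.ρ)}
    {D' : Fin n → Derivation Λ (LA W₁ s.ρ) (LA W₁ s.ρ)}
    (hD : ∀ i w, lm s.ρ ψ (D' i w) = D i (lm s.ρ ψ w))
    (h : (d.map (ψ : W₁ →+* W₀)).Amb Λ D) : d.Amb Λ D' := by
  have hφ := lm_inj (ρ := s.ρ) hψ
  have hW : ∀ x, lm s.ρ ψ x ∈ (d.map (ψ : W₁ →+* W₀)).Wg Λ ↔ x ∈ d.Wg Λ := fun x => by
    rw [map_Wg]; exact mem_map hφ _ _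
  have hdet : ∀ y : Fin n → LA W₁ s.ρ, lm s.ρ ψ (Matrix.of fun i l => D' i (y l)).det =
      (Matrix.of fun i l => D i (lm s.ρ ψ (y l))).det := fun y => by
    rw [AlgHom.map_det]
    congr 1
    ext1 i l
    exact hD i _
  exact
    { toPre := pre_of_map hψ h.toPre
      wG := fun a => (hW _).1 (h.wG a)
      wj := fun a => (hW _).1 (h.wj a)
      wt := fun a i => (hW _).1 (h.wt a i)
      wu := (hW _).1 h.wu
      wu' := (hW _).1 h.wu'
      we := (hW _).1 h.we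
      wsg := fun a i => (hW _).1 (h.wsg a i)
      weI := fun i => (hW _).1 (h.weI i)
      wjE := fun i => (hW _).1 (h.wjE i)
      wwE := fun i => (hW _).1 (h.wwE i)
      wD := fun i w hw => (hW _).1 (by rw [hD]; exact h.wD i _ ((hW _).2 hw))
      hdet := fun a => hφ (by rw [map_mul, hdet, map_one]; exact h.hdet a)
      hdetE := fun a => hφ (by rw [map_mul, hdet, map_one]; exact h.hdetE a)
      hdual := fun i l => hφ (by
        rw [hD]
        have := h.hdual i l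
        split_ifs at this ⊢
        · rw [map_one]; exact this
        · rw [map_zero]; exact this)
      dD := fun i γ w hw => deg_of_lm hψ (by
        rw [hD]
        exact h.dD i γ _ (hw.lmap (ψ : W₁ →+* W₀))) }

theorem single_mem {ρ : ℕ} {S : Subalgebra Λ (LA W₀ ρ)} (hS : GD.taus W₀ ρ ⊆ S)
    (γ : Fin ρ → ℤ) : (AddMonoidAlgebra.single γ 1 : LA W₀ ρ) ∈ S := by
  have h1 : ∀ (c : Fin ρ) (k : ℤ),
      (AddMonoidAlgebra.single (Pi.single c k) 1 : LA W₀ ρ) ∈ S := fun c k => by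
    induction k using Int.induction_on with
    | zero =>
      rw [Pi.single_zero]
      exact one_mem S
    | succ k ih =>
      have := mul_mem ih (hS (Or.inl ⟨c, rfl⟩))
      simp only [Xu, AddMonoidAlgebra.single_mul_single, mul_one] at this
      rwa [Pi.single_add]
    | pred k ih =>
      have := mul_mem ih (hS (Or.inr ⟨c, rfl⟩))
      simp only [Xu, Units.inv_mk, AddMonoidAlgebra.single_mul_single, mul_one] at this
      rwa [Pi.single_sub, sub_eq_add_neg]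
  have h2 : ∀ t : Finset (Fin ρ),
      (AddMonoidAlgebra.single (∑ c ∈ t, Pi.single c (γ c)) 1 : LA W₀ ρ) ∈ S := fun t => by
    induction t using Finset.induction_on with
    | empty =>
      rw [Finset.sum_empty]
      exact one_mem S
    | insert c t hc ih =>
      have := mul_mem (h1 c (γ c)) ih
      rw [AddMonoidAlgebra.single_mul_single, mul_one] at this
      rwa [Finset.sum_insert hc]
  have := h2 Finset.univ
  rwa [Finset.univ_sum_single] at this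

/-- The coefficients of a graded subalgebra that contains the variables and their inverses. -/
theorem mem_iff_lm {ρ : ℕ} {S : Subalgebra Λ (LA W₀ ρ)} (hS : GD.taus W₀ ρ ⊆ S) (hg : IsGr S)
    (x : LA W₀ ρ) : x ∈ S ↔ ∃ y, lm ρ (S.comap (AddMonoidAlgebra.singleZeroAlgHom :
      W₀ →ₐ[Λ] LA W₀ ρ)).val y = x := by
  constructor
  · intro hx
    have h1 : ∀ γ, x.coeff γ ∈ S.comap (AddMonoidAlgebra.singleZeroAlgHom :
        W₀ →ₐ[Λ] LA W₀ ρ) := fun γ => by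
      have := mul_mem (hg γ x hx) (single_mem hS (-γ))
      change AddMonoidAlgebra.single γ (x.coeff γ) * _ ∈ S at this
      rw [AddMonoidAlgebra.single_mul_single, mul_one, add_neg_cancel] at this
      exact this
    refine ⟨∑ γ ∈ x.coeff.support, AddMonoidAlgebra.single γ ⟨x.coeff γ, h1 γ⟩, ?_⟩
    rw [map_sum]
    refine Eq.trans (Finset.sum_congr rfl fun γ _ => ?_) (sum_pr x)
    rw [AddMonoidAlgebra.mapAlgHom_single]
    rfl
  · rintro ⟨y, rfl⟩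
    induction y using AddMonoidAlgebra.induction_linear with
    | zero => rw [map_zero]; exact zero_mem S
    | add a b ha hb => rw [map_add]; exact add_mem ha hb
    | single γ c =>
      rw [AddMonoidAlgebra.mapAlgHom_single]
      have h1 : (AddMonoidAlgebra.single 0 (c : W₀) : LA W₀ ρ) ∈ S := c.2
      have := mul_mem h1 (single_mem hS γ)
      rw [AddMonoidAlgebra.single_mul_single, mul_one, zero_add] at this
      exact this

end GH1dAux

open H1dAux GH1dAux in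
/-- Let `W₁ = {c | single 0 c ∈ Wg}` (comap along `AddMonoidAlgebra.singleZeroAlgHom`). Since `Wg`
is graded and contains the `τ ^ ±`, the injective map `lmap val : LA W₁ ρ → LA W₀ ρ` has image
`Wg`. All the data and the inverses of the units lie in `Wg`; lift them, so that
`d'.map val = d`. -/
theorem GD.Amb.to_sub {n : ℕ} {s : GShp n} {W₀ : Type} [CommRing W₀] {d : GD s W₀} {Λ : Type}
    [CommRing Λ] [Algebra Λ W₀] {D : Fin n → Derivation Λ (LA W₀ s.ρ) (LA W₀ s.ρ)}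
    (h : d.Amb Λ D) {P : Type} [CommRing P] [Algebra Λ P] {ρ : P →ₐ[Λ] LA W₀ s.ρ} {f : P}
    {𝔡 𝔞 : Ideal P} (hl : d.toRD.Link ρ f 𝔡 𝔞) :
    ∃ (W₁ : Type) (_ : CommRing W₁) (_ : Algebra Λ W₁) (d' : GD s W₁)
      (D' : Fin n → Derivation Λ (LA W₁ s.ρ) (LA W₁ s.ρ)) (ρ' : P →ₐ[Λ] LA W₁ s.ρ),
      d'.Good Λ D' ∧ d'.toRD.Link ρ' f 𝔡 𝔞 := by
  have hTW : d.T Λ ≤ d.Wg Λ :=
    Algebra.adjoin_mono (Set.subset_union_left.trans Set.subset_union_left)
  have htg : ∀ i, d.tg i ∈ d.Wg Λ := fun i => Algebra.subset_adjoin (Or.inl (Or.inl ⟨i, rfl⟩))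
  have hgi : ((d.g⁻¹ : (LA W₀ s.ρ)ˣ) : LA W₀ s.ρ) ∈ d.Wg Λ :=
    Algebra.subset_adjoin (Or.inl (Or.inr rfl))
  have hτ : GD.taus W₀ s.ρ ⊆ d.Wg Λ := fun x hx => Algebra.subset_adjoin (Or.inr hx)
  have hgr : IsGr (d.Wg Λ) := by
    refine isGr_adjoin ?_
    rintro _ ((⟨i, rfl⟩ | rfl) | hx)
    · exact ⟨0, h.dtg i⟩
    · exact ⟨-0, (h.toPre.deg_T h.gT).of_mul_eq_one d.g.inv_mul⟩
    · exact isHom_taus hx
  have hB1 : ∀ a, d.B1 Λ a ≤ d.Wg Λ := fun a => by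
    refine Algebra.adjoin_le ?_
    rintro _ (⟨i, rfl⟩ | ⟨i, rfl⟩)
    · exact htg i
    · exact h.wsg a i
  have hSE : ∀ i, d.SE Λ i ≤ d.Wg Λ := fun a => by
    refine Algebra.adjoin_le ?_
    rintro _ ((⟨i, rfl⟩ | rfl) | hx)
    · exact htg i
    · exact h.weI a
    · exact hτ hx
  have hsp : ∀ {k : ℕ} {v : Fin k → LA W₀ s.ρ}, (∀ i, v i ∈ d.T Λ) →
      ∀ x ∈ d.sp Λ v, x ∈ d.Wg Λ :=
    fun hv x hx => hTW (d.toRD.mem_T_of_mem_sp_pow hv 1 (by rwa [pow_one]))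
  have hy : ∀ a l, d.y a l ∈ d.Wg Λ := fun a l => hB1 a ((h.het a).mem l)
  have hyE : ∀ a l, d.yE a l ∈ d.Wg Λ := fun a l => hSE a ((h.hetE a).mem l)
  have hdet : ∀ (j : (LA W₀ s.ρ)ˣ) (y : Fin n → LA W₀ s.ρ), (∀ l, y l ∈ d.Wg Λ) →
      (j : LA W₀ s.ρ) * (Matrix.of fun i l => D i (y l)).det = 1 →
      ((j⁻¹ : (LA W₀ s.ρ)ˣ) : LA W₀ s.ρ) ∈ d.Wg Λ := fun j y hy hj => by
    rw [Units.inv_eq_of_mul_eq_one_right hj, Matrix.det_apply]
    refine sum_mem fun σ _ => ?_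
    rw [Units.smul_def]
    exact zsmul_mem (prod_mem fun l _ => h.wD _ _ (hy l)) _
  let W₁ : Subalgebra Λ W₀ :=
    (d.Wg Λ).comap (AddMonoidAlgebra.singleZeroAlgHom : W₀ →ₐ[Λ] LA W₀ s.ρ)
  have hψ : Function.Injective W₁.val := Subtype.val_injective
  have hφ := lm_inj (ρ := s.ρ) hψ
  have hm : ∀ x, x ∈ d.Wg Λ ↔ ∃ y, lm s.ρ W₁.val y = x := mem_iff_lm hτ hgr
  have L : ∀ {x}, x ∈ d.Wg Λ → ∃ y, lm s.ρ W₁.val y = x := fun hx => (hm _).1 hx
  have U : ∀ {x : (LA W₀ s.ρ)ˣ}, (x : LA W₀ s.ρ) ∈ d.Wg Λ →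
      ((x⁻¹ : (LA W₀ s.ρ)ˣ) : LA W₀ s.ρ) ∈ d.Wg Λ → ∃ y : (LA W₁ s.ρ)ˣ,
        Units.map ((lm s.ρ W₁.val : LA W₁ s.ρ →+* LA W₀ s.ρ) : LA W₁ s.ρ →* LA W₀ s.ρ) y = x :=
    fun h1 h2 => ex_unit hφ (L h1) (L h2)
  choose tg etg using fun i => L (htg i)
  choose bg ebg using fun i => L (hTW (h.bT i))
  choose dg edg using fun i => L (hTW (h.dT i))
  choose ag eag using fun i => L (hTW (h.aT i))
  choose e ee using fun i => L (hTW (h.eT i))
  obtain ⟨g, eg⟩ := U (hTW h.gT) hgi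
  obtain ⟨u, eu⟩ := U h.wu h.wu'
  obtain ⟨e1, ee1⟩ := U (hsp h.eT _ h.he1) h.we
  obtain ⟨e2, ee2⟩ := L (hsp h.eT _ h.he2)
  choose G eG using fun a => U (hsp h.bT _ (h.hG a)) (h.wG a)
  choose j ej using fun a => U (h.wj a) (hdet _ _ (hy a) (h.hdet a))
  choose y ey using fun a l => L (hy a l)
  choose t et using fun a i => U (hB1 a (h.toPre.t_mem a i)) (h.wt a i)
  choose sg esg using fun a i => L (h.wsg a i)
  choose om eom using fun a i => L (hB1 a (h.hom a i))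
  choose v ev using fun a c => U (hB1 a (h.hv a c).1) (hB1 a (h.hv a c).2)
  choose eI eeI using fun i => L (h.weI i)
  choose yE eyE using fun a l => L (hyE a l)
  choose jE ejE using fun a => U (h.wjE a) (hdet _ _ (hyE a) (h.hdetE a))
  choose wE ewE using fun i => U (h.wwE i) (hSE i (h.hwE i))
  choose D' hD' using fun i => ex_der hφ (D i) fun w => L (h.wD i _ ((hm _).2 ⟨w, rfl⟩))
  obtain ⟨ρ', hρ'⟩ := ex_hom hφ ρ fun x => L (hTW (hl.mem x))
  let d' : GD s W₁ :=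
    { tg := tg, bg := bg, dg := dg, ag := ag, e := e, g := g, u := u, e1 := e1, e2 := e2, G := G,
      j := j, y := y, t := t, sg := sg, om := om, v := v, eI := eI, yE := yE, jE := jE, wE := wE }
  have hd : d'.map (W₁.val : W₁ →+* W₀) = d :=
    gd_ext (rd_ext (funext etg) (funext ebg) (funext edg) (funext eag) (funext ee) eg eu ee1 ee2
      (funext eG) (funext ej) (funext fun a => funext (ey a)) (funext fun a => funext (et a)))
      (funext fun a => funext (esg a)) (funext fun a => funext (eom a))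
      (funext fun a => funext (ev a)) (funext eeI) (funext fun a => funext (eyE a)) (funext ejE)
      (funext ewE)
  refine ⟨W₁, inferInstance, inferInstance, d', D', ρ',
    ⟨amb_of_map hψ (D := D) hD' (by rw [hd]; exact h), ?_⟩,
    link_of_map hφ (ρ := ρ) hρ' (by rw [← map_toRD, hd]; exact hl)⟩
  rw [eq_top_iff]
  intro x _
  refine (mem_map hφ _ x).1 ?_
  rw [← map_Wg, hd]
  exact (hm _).2 ⟨x, rfl⟩

end

end Pool.Agent.Lib.MP_4287a9_ag
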