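import Pool.Agent.Lib.MP_4287a9_ag.LatS
import Pool.Agent.Lib.MP_4287a9_ag.GFc

/-!
Reduction of the data modulo a maximal ideal of the base.
-/

open scoped TensorProduct ENNReal NNReal nonZeroDivisors Polynomial
open Filter

namespace Pool.Agent.Lib.MP_4287a9_ag

noncomputable section

variable {n : ℕ} {s : Shp n} {W : Type} [CommRing W] {d : RD s W} {Λ : Type} [CommRing Λ]
  [Algebra Λ W] {D : Fin n → Derivation Λ W W}

theorem exists_isRed (W : Type) [CommRing W] [Algebra Λ W] {κ : Type} [CommRing κ] (χ : Λ →+* κ)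
    (hχ : Function.Surjective χ) :
    ∃ (W' : Type) (_ : CommRing W') (_ : Algebra κ W') (π : W →+* W'), IsRed χ π := by
  let I : Ideal W := (RingHom.ker χ).map (algebraMap Λ W)
  have hle : RingHom.ker χ ≤ RingHom.ker ((Ideal.Quotient.mk I).comp (algebraMap Λ W)) := by
    intro a ha
    rw [RingHom.mem_ker, RingHom.comp_apply, Ideal.Quotient.eq_zero_iff_mem]
    exact Ideal.mem_map_of_mem _ ha
  let f : κ →+* W ⧸ I :=
    RingHom.liftOfSurjective χ hχ ⟨(Ideal.Quotient.mk I).comp (algebraMap Λ W), hle⟩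
  have hf : ∀ a, f (χ a) = Ideal.Quotient.mk I (algebraMap Λ W a) := fun a =>
    RingHom.liftOfRightInverse_comp_apply χ _ _ _ a
  let _ : Algebra κ (W ⧸ I) := f.toAlgebra
  refine ⟨W ⧸ I, inferInstance, inferInstance, Ideal.Quotient.mk I, hχ,
    Ideal.Quotient.mk_surjective, fun a => (hf a).symm, fun w => ?_⟩
  rw [Ideal.Quotient.eq_zero_iff_mem, Ideal.smul_top_eq_map]
  rfl

theorem IsRed.exists_derivation {κ W' : Type} [CommRing κ] [CommRing W'] [Algebra κ W']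
    {χ : Λ →+* κ} {π : W →+* W'} (hπ : IsRed χ π) (E : Derivation Λ W W) :
    ∃ E' : Derivation κ W' W', ∀ w, E' (π w) = π (E w) := by
  have h0 : ∀ w, π w = 0 → π (E w) = 0 := by
    intro w hw
    rw [hπ.ker] at hw ⊢
    refine Submodule.smul_induction_on hw (fun r hr x _ => ?_) (fun x y hx hy => ?_)
    · rw [E.map_smul]
      exact Submodule.smul_mem_smul hr Submodule.mem_top
    · rw [map_add]
      exact add_mem hx hy
  have h1 : ∀ w w', π w = π w' → π (E w) = π (E w') := by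
    intro w w' hw
    have h2 := h0 (w - w') (by rw [map_sub, hw, sub_self])
    rwa [map_sub, map_sub, sub_eq_zero] at h2
  have key : ∀ w, π (E (Function.surjInv hπ.surj (π w))) = π (E w) := fun w =>
    h1 _ _ (Function.surjInv_eq hπ.surj (π w))
  let L : W' →ₗ[κ] W' :=
    { toFun := fun w' => π (E (Function.surjInv hπ.surj w'))
      map_add' := by
        intro x y
        obtain ⟨x, rfl⟩ := hπ.surj x
        obtain ⟨y, rfl⟩ := hπ.surj y
        rw [← map_add, key, key, key, map_add, map_add]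
      map_smul' := by
        intro c x
        obtain ⟨c, rfl⟩ := hπ.surjχ c
        obtain ⟨x, rfl⟩ := hπ.surj x
        rw [RingHom.id_apply, Algebra.smul_def, Algebra.smul_def, ← hπ.comm, ← map_mul, key, key,
          ← Algebra.smul_def, E.map_smul, Algebra.smul_def, map_mul] }
  have hL : ∀ w, L (π w) = π (E w) := key
  refine ⟨Derivation.mk' L fun x y => ?_, hL⟩
  obtain ⟨x, rfl⟩ := hπ.surj x
  obtain ⟨y, rfl⟩ := hπ.surj y
  rw [← map_mul, hL, hL, hL, E.leibniz, smul_eq_mul, smul_eq_mul, smul_eq_mul, smul_eq_mul,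
    map_add, map_mul, map_mul]

/-- Membership in `z S` seen inside `S` and inside `W`. -/
theorem h2_mem_smul (S : Subalgebra Λ W) (z : Ideal Λ) (x : S) :
    x ∈ z • (⊤ : Submodule Λ S) ↔ (x : W) ∈ z • Subalgebra.toSubmodule S := by
  have h1 : (z • (⊤ : Submodule Λ S)).map S.val.toLinearMap = z • Subalgebra.toSubmodule S := by
    rw [Submodule.map_smul'']
    congr 1
    ext w
    simp
  rw [← h1]
  constructor
  · intro hx
    exact ⟨x, hx, rfl⟩
  · rintro ⟨y, hy, hxy⟩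
    have h2 : y = x := Subtype.ext hxy
    exact h2 ▸ hy

/-- Generic purity of a finitely generated subalgebra `S` with `W = S[1 / g]`. -/
theorem h2_gen_pure [IsDomain Λ] [IsNoetherianRing Λ] (S : Subalgebra Λ W) (hS : S.FG) (g : Wˣ)
    (hg : (g : W) ∈ S) (hw : ∀ w : W, ∃ i : ℕ, (g : W) ^ i * w ∈ S) :
    ∃ b : Λ, b ≠ 0 ∧ ∀ z : Ideal Λ, z.IsMaximal → b ∉ z → Pure z (Subalgebra.toSubmodule S) := by
  have : Algebra.FiniteType Λ S := (Subalgebra.fg_iff_finiteType S).1 hS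
  obtain ⟨b, hb, H⟩ := gen_reg Λ S S ⟨g, hg⟩ (fun v hv => ⟨1, one_ne_zero, by
    have h1 : (g : W) * (v : W) = 0 := congrArg Subtype.val hv
    have h2 : v = 0 := Subtype.ext ((Units.mul_right_eq_zero g).1 h1)
    rw [h2, smul_zero]⟩)
  refine ⟨b, hb, fun z hz hbz => ?_⟩
  have H1 : ∀ (i : ℕ) (v : S), (⟨g, hg⟩ : S) ^ i * v ∈ z • (⊤ : Submodule Λ S) →
      v ∈ z • (⊤ : Submodule Λ S) := by
    intro i
    induction i with
    | zero =>
      intro v hv
      rwa [pow_zero, one_mul] at hv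
    | succ i ih =>
      intro v hv
      refine ih v (H z hz hbz _ ?_)
      rwa [smul_eq_mul, ← mul_assoc, ← pow_succ']
  have H3 : ∀ w ∈ z • Subalgebra.toSubmodule S, ∀ i : ℕ,
      (g : W) ^ i * w ∈ z • Subalgebra.toSubmodule S := by
    intro w hw i
    refine Submodule.smul_induction_on hw (fun r hr x hx => ?_) (fun x y hx hy => ?_)
    · rw [mul_smul_comm]
      exact Submodule.smul_mem_smul hr (S.mul_mem (S.pow_mem hg i) hx)
    · rw [mul_add]
      exact add_mem hx hy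
  have H2 : ∀ w ∈ z • (⊤ : Submodule Λ W), ∃ i : ℕ,
      (g : W) ^ i * w ∈ z • Subalgebra.toSubmodule S := by
    intro w hw'
    refine Submodule.smul_induction_on hw' (fun r hr x _ => ?_) (fun x y hx hy => ?_)
    · obtain ⟨i, hi⟩ := hw x
      refine ⟨i, ?_⟩
      rw [mul_smul_comm]
      exact Submodule.smul_mem_smul hr hi
    · obtain ⟨i, hi⟩ := hx
      obtain ⟨j, hj⟩ := hy
      refine ⟨i + j, ?_⟩
      have e : (g : W) ^ (i + j) * (x + y) =
          (g : W) ^ j * ((g : W) ^ i * x) + (g : W) ^ i * ((g : W) ^ j * y) := by ring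
      rw [e]
      exact add_mem (H3 _ hi j) (H3 _ hj i)
  rintro w ⟨hwS, hwz⟩
  obtain ⟨i, hi⟩ := H2 w hwz
  exact (h2_mem_smul S z ⟨w, hwS⟩).1 (H1 i ⟨w, hwS⟩ ((h2_mem_smul S z _).2 hi))

/-- Generic regularity of `e₂` on `T / e₁ T`. -/
theorem h2_gen_seq [IsDomain Λ] [IsNoetherianRing Λ] (T : Subalgebra Λ W) (hT : T.FG) {e₁ e₂ : W}
    (h1 : e₁ ∈ T) (h2 : e₂ ∈ T)
    (hreg : ∀ w ∈ T, (∃ v ∈ T, e₂ * w = e₁ * v) → ∃ b : Λ, b ≠ 0 ∧ ∃ v ∈ T, b • w = e₁ * v) :
    ∃ b : Λ, b ≠ 0 ∧ ∀ z : Ideal Λ, z.IsMaximal → b ∉ z → ∀ w ∈ T, ∀ v ∈ T,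
      e₂ * w - e₁ * v ∈ z • Subalgebra.toSubmodule T →
        ∃ v' ∈ T, w - e₁ * v' ∈ z • Subalgebra.toSubmodule T := by
  have : Algebra.FiniteType Λ T := (Subalgebra.fg_iff_finiteType T).1 hT
  let N : Submodule T T := Submodule.span T {(⟨e₁, h1⟩ : T)}
  let q : T →ₗ[Λ] T ⧸ N := N.mkQ.restrictScalars Λ
  have hq : ∀ x : T, q x = Submodule.Quotient.mk x := fun _ => rfl
  have hqs : Function.Surjective q := Submodule.mkQ_surjective N
  have hq0 : ∀ x : T, q x = 0 ↔ ∃ v ∈ T, (x : W) = e₁ * v := by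
    intro x
    rw [hq, Submodule.Quotient.mk_eq_zero, Submodule.mem_span_singleton]
    constructor
    · rintro ⟨v, rfl⟩
      exact ⟨v, v.2, mul_comm _ _⟩
    · rintro ⟨v, hv, hx⟩
      exact ⟨⟨v, hv⟩, Subtype.ext (by rw [hx]; exact mul_comm _ _)⟩
  have hqm : ∀ c x : T, c • q x = q (c * x) := fun c x => by
    rw [hq, hq, ← Submodule.Quotient.mk_smul, smul_eq_mul]
  obtain ⟨b, hb, H⟩ := gen_reg Λ T (T ⧸ N) ⟨e₂, h2⟩ (fun v hv => by
    obtain ⟨x, rfl⟩ := hqs v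
    rw [hqm, hq0] at hv
    obtain ⟨b, hb, hv'⟩ := hreg x x.2 hv
    refine ⟨b, hb, ?_⟩
    rw [← map_smul, hq0]
    exact hv')
  refine ⟨b, hb, fun z hz hbz w hw v hv hwv => ?_⟩
  have hmap : (z • (⊤ : Submodule Λ T)).map q = z • (⊤ : Submodule Λ (T ⧸ N)) := by
    rw [Submodule.map_smul'', Submodule.map_top, LinearMap.range_eq_top.2 hqs]
  have h3 : (⟨e₂, h2⟩ : T) • q ⟨w, hw⟩ ∈ z • (⊤ : Submodule Λ (T ⧸ N)) := by
    rw [← hmap, hqm]
    refine ⟨⟨e₂, h2⟩ * ⟨w, hw⟩ - ⟨e₁, h1⟩ * ⟨v, hv⟩, (h2_mem_smul T z _).2 hwv, ?_⟩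
    rw [map_sub, (hq0 (⟨e₁, h1⟩ * ⟨v, hv⟩)).2 ⟨v, hv, rfl⟩, sub_zero]
  have h4 := H z hz hbz _ h3
  rw [← hmap] at h4
  obtain ⟨x, hx, hxw⟩ := h4
  have h5 : q (⟨w, hw⟩ - x) = 0 := by rw [map_sub, hxw, sub_self]
  obtain ⟨v', hv', e⟩ := (hq0 _).1 h5
  refine ⟨v', hv', ?_⟩
  have e' : w - e₁ * v' = (x : W) := by
    rw [← e]
    simp
  rw [e']
  exact (h2_mem_smul T z x).1 hx

/-- Images of products of submodules. -/
theorem h2_im_mul {W' : Type} [CommRing W'] {A A' : Type} [CommRing A] [CommRing A'] [Algebra A W]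
    [Algebra A' W'] (π : W →+* W') {M N : Submodule A W} {M' N' : Submodule A' W'}
    (hM : (M' : Set W') = π '' (M : Set W)) (hN : (N' : Set W') = π '' (N : Set W)) :
    ((M' * N' : Submodule A' W') : Set W') = π '' ((M * N : Submodule A W) : Set W) := by
  ext w'
  constructor
  · intro hw
    refine Submodule.mul_induction_on (C := fun w' => w' ∈ π '' ((M * N : Submodule A W) : Set W))
      hw (fun x hx y hy => ?_) (fun x y hx hy => ?_)
    · obtain ⟨x₁, hx₁, rfl⟩ : x ∈ π '' (M : Set W) := hM ▸ hx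
      obtain ⟨y₁, hy₁, rfl⟩ : y ∈ π '' (N : Set W) := hN ▸ hy
      exact ⟨x₁ * y₁, Submodule.mul_mem_mul hx₁ hy₁, map_mul _ _ _⟩
    · obtain ⟨x, hx, rfl⟩ := hx
      obtain ⟨y, hy, rfl⟩ := hy
      exact ⟨x + y, add_mem hx hy, map_add _ _ _⟩
  · rintro ⟨w, hw, rfl⟩
    refine Submodule.mul_induction_on (C := fun w => π w ∈ M' * N') hw
      (fun x hx y hy => ?_) (fun x y hx hy => ?_)
    · rw [map_mul]
      have hx' : π x ∈ (M' : Set W') := hM ▸ ⟨x, hx, rfl⟩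
      have hy' : π y ∈ (N' : Set W') := hN ▸ ⟨y, hy, rfl⟩
      exact Submodule.mul_mem_mul hx' hy'
    · rw [map_add]
      exact add_mem hx hy

/-- Images of powers of submodules. -/
theorem h2_im_pow {κ W' : Type} [CommRing κ] [CommRing W'] [Algebra κ W'] (π : W →+* W')
    {A : Subalgebra Λ W} {A' : Subalgebra κ W'} (hA : (A' : Set W') = π '' (A : Set W))
    {M : Submodule A W} {M' : Submodule A' W'} (hM : (M' : Set W') = π '' (M : Set W)) (i : ℕ) :
    ((M' ^ i : Submodule A' W') : Set W') = π '' ((M ^ i : Submodule A W) : Set W) := by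
  induction i with
  | zero =>
    rw [pow_zero, pow_zero]
    ext w'
    constructor
    · intro hw
      obtain ⟨⟨x, hx⟩, rfl⟩ := Submodule.mem_one.1 hw
      obtain ⟨y, hy, rfl⟩ : x ∈ π '' (A : Set W) := hA ▸ hx
      exact ⟨y, Submodule.mem_one.2 ⟨⟨y, hy⟩, rfl⟩, rfl⟩
    · rintro ⟨w, hw, rfl⟩
      obtain ⟨⟨x, hx⟩, rfl⟩ := Submodule.mem_one.1 hw
      have hx' : π x ∈ (A' : Set W') := hA ▸ ⟨x, hx, rfl⟩
      exact Submodule.mem_one.2 ⟨⟨π x, hx'⟩, rfl⟩
  | succ i ih =>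
    rw [pow_succ, pow_succ]
    exact h2_im_mul π ih hM

/-- Images of spans. -/
theorem h2_im_span {κ W' : Type} [CommRing κ] [CommRing W'] [Algebra κ W'] (π : W →+* W')
    {A : Subalgebra Λ W} {A' : Subalgebra κ W'} (hA : (A' : Set W') = π '' (A : Set W))
    {k : ℕ} (v : Fin k → W) :
    ((Submodule.span A' (Set.range fun l => π (v l)) : Submodule A' W') : Set W') =
      π '' ((Submodule.span A (Set.range v) : Submodule A W) : Set W) := by
  ext w'
  constructor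
  · intro hw
    refine Submodule.span_induction
      (p := fun w' _ => w' ∈ π '' ((Submodule.span A (Set.range v) : Submodule A W) : Set W))
      ?_ ?_ ?_ ?_ hw
    · rintro _ ⟨l, rfl⟩
      exact ⟨v l, Submodule.subset_span ⟨l, rfl⟩, rfl⟩
    · exact ⟨0, zero_mem _, map_zero _⟩
    · rintro _ _ _ _ ⟨x, hx, rfl⟩ ⟨y, hy, rfl⟩
      exact ⟨x + y, add_mem hx hy, map_add _ _ _⟩
    · rintro ⟨c, hc⟩ _ _ ⟨x, hx, rfl⟩
      obtain ⟨c, hc', rfl⟩ : c ∈ π '' (A : Set W) := hA ▸ hc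
      exact ⟨(⟨c, hc'⟩ : A) • x, Submodule.smul_mem _ _ hx, map_mul π c x⟩
  · rintro ⟨w, hw, rfl⟩
    refine Submodule.span_induction
      (p := fun w _ => π w ∈ Submodule.span A' (Set.range fun l => π (v l))) ?_ ?_ ?_ ?_ hw
    · rintro _ ⟨l, rfl⟩
      exact Submodule.subset_span ⟨l, rfl⟩
    · rw [map_zero]
      exact zero_mem _
    · intro x y _ _ hx hy
      rw [map_add]
      exact add_mem hx hy
    · rintro ⟨c, hc⟩ x _ hx
      have hc' : π c ∈ (A' : Set W') := hA ▸ ⟨c, hc, rfl⟩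
      have e : π ((⟨c, hc⟩ : A) • x) = (⟨π c, hc'⟩ : A') • π x := map_mul π c x
      rw [e]
      exact Submodule.smul_mem _ _ hx

theorem h2_as {κ W' : Type} [CommRing κ] [CommRing W'] [Algebra κ W'] (π : W →+* W')
    {A : Subalgebra Λ W} {A' : Subalgebra κ W'} (hA : (A' : Set W') = π '' (A : Set W))
    {x y : Wˣ} (h : As A x y) :
    As A' (Units.map (π : W →* W') x) (Units.map (π : W →* W') y) := by
  have H : ∀ w ∈ A, π w ∈ A' := fun w hw => by
    rw [← SetLike.mem_coe, hA]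
    exact ⟨w, hw, rfl⟩
  constructor
  · rw [← map_inv, ← map_mul]
    exact H _ h.1
  · rw [← map_inv, ← map_mul]
    exact H _ h.2

namespace RD

/-- If `S ⊆ W = S[1 / g]` and `w ∈ S ∩ z W` then `g ^ i w ∈ z S`, and `g` is regular on `S / z S`
by `gen_reg`. For the regular sequence apply `gen_reg` to `e₂` on `T / e₁ T`. -/
theorem Good.exists_pureAt [IsDomain Λ] [IsNoetherianRing Λ] (h : d.Good Λ D) :
    ∃ b : Λ, b ≠ 0 ∧ ∀ z : Ideal Λ, z.IsMaximal → b ∉ z → d.PureAt z := by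
  have hTfg : (d.T Λ).FG := Subalgebra.fg_def.2 ⟨_, Set.finite_range _, rfl⟩
  obtain ⟨b₁, hb₁, H₁⟩ := h2_gen_pure (d.T Λ) hTfg d.g h.gT h.exists_pow
  have hS : ∀ σ : Finset (Fin s.m), ∃ b : Λ, b ≠ 0 ∧ ∀ z : Ideal Λ, z.IsMaximal → b ∉ z →
      σ.Nonempty → Pure z (Subalgebra.toSubmodule (d.S Λ σ)) := by
    intro σ
    by_cases hσ : σ.Nonempty
    · obtain ⟨a, ha⟩ := hσ
      have hle : d.T Λ ≤ d.S Λ σ := (d.T_le_S1 a).trans (d.S1_le_S ha)
      obtain ⟨b, hb, H⟩ := h2_gen_pure (d.S Λ σ) (d.S_fg σ) d.g (hle h.gT) fun w =>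
        (h.exists_pow w).imp fun i hi => hle hi
      exact ⟨b, hb, fun z hz hbz _ => H z hz hbz⟩
    · exact ⟨1, one_ne_zero, fun z _ _ h' => absurd h' hσ⟩
  choose b₂ hb₂ H₂ using hS
  have he1 : (d.e1 : W) ∈ d.T Λ :=
    d.mem_T_of_mem_sp_pow h.eT 1 (by rw [pow_one]; exact h.he1)
  have he2 : d.e2 ∈ d.T Λ := d.mem_T_of_mem_sp_pow h.eT 1 (by rw [pow_one]; exact h.he2)
  obtain ⟨b₃, hb₃, H₃⟩ := h2_gen_seq (d.T Λ) hTfg he1 he2 h.hreg
  refine ⟨b₁ * (∏ σ, b₂ σ) * b₃,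
    mul_ne_zero (mul_ne_zero hb₁ (Finset.prod_ne_zero_iff.2 fun σ _ => hb₂ σ)) hb₃,
    fun z hz hb => ?_⟩
  have h₁ : b₁ ∉ z := fun h' => hb (z.mul_mem_right _ (z.mul_mem_right _ h'))
  have h₃ : b₃ ∉ z := fun h' => hb (z.mul_mem_left _ h')
  have h₂ : ∀ σ, b₂ σ ∉ z := fun σ h' => hb (z.mul_mem_right _ (z.mul_mem_left _
    (z.mem_of_dvd (Finset.dvd_prod_of_mem b₂ (Finset.mem_univ σ)) h')))
  refine ⟨H₁ z hz h₁, fun σ hσ => H₂ σ z hz (h₂ σ) hσ, fun w hw v hv hwv => ?_⟩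
  have hm : d.e2 * w - d.e1 * v ∈ d.T Λ :=
    (d.T Λ).sub_mem ((d.T Λ).mul_mem he2 hw) ((d.T Λ).mul_mem he1 hv)
  obtain ⟨v', hv', H⟩ := H₃ z hz h₃ w hw v hv (H₁ z hz h₁ ⟨hm, hwv⟩)
  exact ⟨v', hv', Submodule.smul_mono le_rfl le_top H⟩

theorem h2_map_sp {κ W' : Type} [CommRing κ] [CommRing W'] [Algebra κ W'] {χ : Λ →+* κ}
    {π : W →+* W'} (hπ : IsRed χ π) (d : RD s W) {k : ℕ} (v : Fin k → W) :
    (((d.map π).sp κ (fun l => π (v l)) : Submodule ((d.map π).T κ) W') : Set W') =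
      π '' (d.sp Λ v : Set W) :=
  h2_im_span π (map_T hπ d) v

theorem h2_map_sp_pow {κ W' : Type} [CommRing κ] [CommRing W'] [Algebra κ W'] {χ : Λ →+* κ}
    {π : W →+* W'} (hπ : IsRed χ π) (d : RD s W) {k : ℕ} (v : Fin k → W) (i : ℕ) :
    (((d.map π).sp κ (fun l => π (v l)) ^ i : Submodule ((d.map π).T κ) W') : Set W') =
      π '' ((d.sp Λ v ^ i : Submodule (d.T Λ) W) : Set W) :=
  h2_im_pow π (map_T hπ d) (h2_map_sp hπ d v) i

theorem map_mem_sp_pow {κ W' : Type} [CommRing κ] [CommRing W'] [Algebra κ W'] {χ : Λ →+* κ}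
    {π : W →+* W'} (hπ : IsRed χ π) (d : RD s W) {k k' : ℕ} (v : Fin k → W) (v' : Fin k' → W)
    (i j : ℕ) {w : W} (hw : w ∈ d.sp Λ v ^ i * d.sp Λ v' ^ j) :
    π w ∈ (d.map π).sp κ (fun l => π (v l)) ^ i * (d.map π).sp κ (fun l => π (v' l)) ^ j := by
  have h := h2_im_mul π (h2_map_sp_pow hπ d v i) (h2_map_sp_pow hπ d v' j)
  rw [← SetLike.mem_coe, h]
  exact ⟨w, hw, rfl⟩

/-- All conditions are images of the corresponding conditions upstairs; inclusions of spans are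
checked on generators, which come from upstairs. `EtC.map_red` gives `het`. -/
theorem Good.map_red (h : d.Good Λ D) {κ W' : Type} [Field κ] [CommRing W'] [Algebra κ W']
    {χ : Λ →+* κ} {π : W →+* W'} (hπ : IsRed χ π) (hp : d.PureAt (RingHom.ker χ))
    {D' : Fin n → Derivation κ W' W'} (hD' : ∀ i w, D' i (π w) = π (D i w)) :
    (d.map π).Good κ D' := by
  have hT : ∀ w ∈ d.T Λ, π w ∈ (d.map π).T κ := fun w hw => by
    rw [← SetLike.mem_coe, map_T hπ d]
    exact ⟨w, hw, rfl⟩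
  have hT' : ∀ w' ∈ (d.map π).T κ, ∃ w ∈ d.T Λ, π w = w' := fun w' hw => by
    rw [← SetLike.mem_coe, map_T hπ d] at hw
    exact hw
  have hsp : ∀ {k : ℕ} (v : Fin k → W), ∀ w ∈ d.sp Λ v,
      π w ∈ (d.map π).sp κ (fun l => π (v l)) := fun v w hw => by
    rw [← SetLike.mem_coe, h2_map_sp hπ d v]
    exact ⟨w, hw, rfl⟩
  have hW : (d.map π).Ws κ = ⊤ := by
    refine eq_top_iff.2 fun w' _ => ?_
    obtain ⟨w, rfl⟩ := hπ.surj w'
    obtain ⟨i, hi⟩ := h.exists_pow w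
    have hle : (d.map π).T κ ≤ (d.map π).Ws κ := Algebra.adjoin_mono Set.subset_union_left
    have hg : ((((d.map π).g)⁻¹ : W'ˣ) : W') ∈ (d.map π).Ws κ :=
      Algebra.subset_adjoin (Or.inr rfl)
    have e : π w = ((((d.map π).g)⁻¹ : W'ˣ) : W') ^ i * π ((d.g : W) ^ i * w) := by
      have e1 : π (d.g : W) = ((d.map π).g : W') := rfl
      rw [map_mul, map_pow, e1, ← mul_assoc, ← mul_pow, Units.inv_mul, one_pow, one_mul]
    rw [e]
    exact Subalgebra.mul_mem _ (Subalgebra.pow_mem _ hg i) (hle (hT _ hi))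
  have hall : ∀ w', w' ∈ (d.map π).Ws κ := fun w' => hW ▸ Algebra.mem_top
  refine
    { hr := h.hr
      hM := h.hM
      hal := h.hal
      hinj := h.hinj
      ht := fun a i => ?_
      bT := fun i => hT _ (h.bT i)
      dT := fun i => hT _ (h.dT i)
      aT := fun i => hT _ (h.aT i)
      eT := fun i => hT _ (h.eT i)
      gT := hT _ h.gT
      hG := fun a => hsp d.bg _ (h.hG a)
      hred := ?_
      het := fun a => ?_
      hglue := fun a b i => ?_
      hj := fun a => ?_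
      ha := ?_
      heS := fun i w' hw' => ?_
      hed := fun i => ?_
      he1 := hsp d.e _ h.he1
      he2 := hsp d.e _ h.he2
      hreg := ?_
      wG := fun a => hall _
      wj := fun a => hall _
      wt := fun a i => hall _
      wu := hall _
      wu' := hall _
      we := hall _
      wD := fun i w _ => hall _
      hdet := fun a => ?_
      hdual := fun i l => ?_
      hW := hW }
  · have e : ((d.map π).t a i : W') = π (d.t a i : W) := rfl
    rw [e, h.ht a i]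
    cases s.lam a i with
    | none => exact map_one π
    | some l => rfl
  · obtain ⟨ρ, hρ⟩ := h.hred
    refine ⟨ρ, fun w' hw' => ?_⟩
    have h1 : w' ∈ π '' ((d.sp Λ d.bg ^ (ρ + 1) : Submodule (d.T Λ) W) : Set W) := by
      rw [← h2_map_sp_pow hπ d d.bg (ρ + 1)]
      exact hw'
    obtain ⟨w, hw, rfl⟩ := h1
    have h2 := map_mem_sp_pow hπ d (fun a => (d.G a : W)) d.bg 1 ρ
      (by rw [pow_one]; exact hρ hw)
    rw [pow_one] at h2
    exact h2
  · refine EtC.map_red hπ (map_S1 hπ d a) ?_ (h.het a)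
    rw [← d.S_single a]
    exact hp.hS {a} (Finset.singleton_nonempty a)
  · have h1 := h.hglue a b i
    rw [← S_pair] at h1 ⊢
    exact h2_as π (map_S hπ d {a, b}) h1
  · have h1 := h2_as π (map_S1 hπ d a) (h.hj a)
    rw [map_pow, map_mul, map_mul, map_prod] at h1
    simp only [map_zpow] at h1
    exact h1
  · intro w' hw'
    have h1 : w' ∈ π '' (d.sp Λ d.bg : Set W) := by
      rw [← h2_map_sp hπ d d.bg]
      exact hw'
    obtain ⟨w, hw, rfl⟩ := h1
    have h2 : π w ∈ (((d.map π).sp κ (fun l => π (d.ag l)) ^ s.a1 :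
        Submodule ((d.map π).T κ) W') : Set W') := by
      rw [h2_map_sp_pow hπ d d.ag s.a1]
      exact ⟨w, h.ha hw, rfl⟩
    exact h2
  · rw [← SetLike.mem_coe, map_S1 hπ d] at hw'
    obtain ⟨w, hw, rfl⟩ := hw'
    obtain ⟨k, hk⟩ := h.heS i w hw
    refine ⟨k, ?_⟩
    have h1 := hT _ hk
    rw [map_mul, map_pow] at h1
    exact h1
  · obtain ⟨k, hk⟩ := h.hed i
    refine ⟨k, ?_⟩
    have h2 : π (d.e i ^ k * ((d.u * (d.j (s.ch i))⁻¹ ^ s.N : Wˣ) : W)) ∈
        (((d.map π).sp κ (fun l => π (d.dg l)) ^ s.M :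
        Submodule ((d.map π).T κ) W') : Set W') := by
      rw [h2_map_sp_pow hπ d d.dg s.M]
      exact ⟨_, hk, rfl⟩
    have e : π ((d.u * (d.j (s.ch i))⁻¹ ^ s.N : Wˣ) : W) =
        (((d.map π).u * ((d.map π).j (s.ch i))⁻¹ ^ s.N : W'ˣ) : W') := by
      have e1 : (d.map π).u * ((d.map π).j (s.ch i))⁻¹ ^ s.N =
          Units.map (π : W →* W') (d.u * (d.j (s.ch i))⁻¹ ^ s.N) := by
        rw [map_mul, map_pow, map_inv]
        rfl
      rw [e1]
      rfl
    rw [map_mul, map_pow, e] at h2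
    exact h2
  · rintro w' hw' ⟨v', hv', e⟩
    obtain ⟨w, hw, rfl⟩ := hT' w' hw'
    obtain ⟨v, hv, rfl⟩ := hT' v' hv'
    have h1 : π (d.e2 * w - d.e1 * v) = 0 := by
      rw [map_sub, map_mul, map_mul, sub_eq_zero]
      exact e
    obtain ⟨v₁, hv₁, h2⟩ := hp.hreg w hw v hv ((hπ.ker _).1 h1)
    have h3 := (hπ.ker _).2 h2
    rw [map_sub, map_mul, sub_eq_zero] at h3
    exact ⟨1, one_ne_zero, π v₁, hT _ hv₁, by rw [one_smul]; exact h3⟩
  · have h1 := congrArg π (h.hdet a)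
    rw [map_mul, map_one, RingHom.map_det] at h1
    have e : (Matrix.of fun i l => D' i ((d.map π).y a l)) =
        π.mapMatrix (Matrix.of fun i l => D i (d.y a l)) := by
      ext i l
      exact hD' i (d.y a l)
    rw [e]
    exact h1
  · have h1 : D' i ((d.map π).y s.a0 l) = π (D i (d.y s.a0 l)) := hD' i _
    rw [h1, h.hdual i l]
    split_ifs
    · exact map_one π
    · exact map_zero π

end RD

end

end Pool.Agent.Lib.MP_4287a9_ag
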