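import Pool.Agent.Lib.MP_4287a9_ag.GLat
import Pool.Agent.Lib.MP_4287a9_ag.H2

/-!
Reduction of the graded data (compare `H2`).
-/

open scoped TensorProduct ENNReal NNReal nonZeroDivisors Polynomial
open Filter

namespace Pool.Agent.Lib.MP_4287a9_ag

noncomputable section

variable {n : ℕ} {s : GShp n} {W₀ : Type} [CommRing W₀] {d : GD s W₀} {Λ : Type} [CommRing Λ]
  [Algebra Λ W₀] {D : Fin n → Derivation Λ (LA W₀ s.ρ) (LA W₀ s.ρ)}

namespace GD

theorem gh2_taus_finite (W₀ : Type) [CommRing W₀] (ρ : ℕ) : (taus W₀ ρ).Finite :=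
  (Set.finite_range _).union (Set.finite_range _)

theorem gh2_exists_pow (h : d.Good Λ D) (w : LA W₀ s.ρ) : ∃ i : ℕ, (d.g : LA W₀ s.ρ) ^ i * w ∈
    Algebra.adjoin Λ (Set.range d.tg ∪ taus W₀ s.ρ) := by
  have hg : (d.g : LA W₀ s.ρ) ∈ Algebra.adjoin Λ (Set.range d.tg ∪ taus W₀ s.ρ) :=
    Algebra.adjoin_mono Set.subset_union_left h.gT
  have hw : w ∈ d.Wg Λ := by
    rw [h.hW]
    exact Algebra.mem_top
  induction hw using Algebra.adjoin_induction with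
  | mem x hx =>
    rcases hx with (hx | rfl) | hx
    · exact ⟨0, by rw [pow_zero, one_mul]; exact Algebra.subset_adjoin (Or.inl hx)⟩
    · exact ⟨1, by rw [pow_one, Units.mul_inv]; exact one_mem _⟩
    · exact ⟨0, by rw [pow_zero, one_mul]; exact Algebra.subset_adjoin (Or.inr hx)⟩
  | algebraMap c => exact ⟨0, by rw [pow_zero, one_mul]; exact Subalgebra.algebraMap_mem _ c⟩
  | add x y _ _ hx hy =>
    obtain ⟨i, hi⟩ := hx
    obtain ⟨k, hk⟩ := hy
    refine ⟨i + k, ?_⟩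
    rw [pow_add, mul_add, mul_right_comm, mul_assoc _ _ y]
    exact add_mem (mul_mem hi (pow_mem hg k)) (mul_mem (pow_mem hg i) hk)
  | mul x y _ _ hx hy =>
    obtain ⟨i, hi⟩ := hx
    obtain ⟨k, hk⟩ := hy
    refine ⟨i + k, ?_⟩
    rw [pow_add, mul_mul_mul_comm]
    exact mul_mem hi hk

theorem gh2_pure_T (h : d.Pre Λ) {z : Ideal Λ}
    (hz : Pure z (Subalgebra.toSubmodule (Algebra.adjoin Λ (Set.range d.tg ∪ taus W₀ s.ρ)))) :
    Pure z (Subalgebra.toSubmodule (d.T Λ)) := by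
  have h0 : ∀ x ∈ Set.range d.tg, IsDeg 0 x := by
    rintro _ ⟨i, rfl⟩
    exact h.dtg i
  have hgr : IsGr (Algebra.adjoin Λ (Set.range d.tg ∪ taus W₀ s.ρ)) := by
    refine isGr_adjoin ?_
    rintro x (hx | hx)
    · exact ⟨0, h0 x hx⟩
    · exact isHom_taus hx
  rintro w ⟨hwT, hwz⟩
  have h1 := hz ⟨Algebra.adjoin_mono Set.subset_union_left hwT, hwz⟩
  rw [← isDeg_iff.1 (h.deg_T hwT)]
  refine Submodule.smul_induction_on
    (p := fun w => pr 0 w ∈ z • Subalgebra.toSubmodule (d.T Λ)) h1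
    (fun r hr x hx => ?_) (fun x y hx hy => ?_)
  · rw [pr_smul]
    exact Submodule.smul_mem_smul hr (mem_adjoin_of_deg_zero h0 (hgr 0 x hx) (isDeg_pr 0 x))
  · rw [map_add]
    exact add_mem hx hy

/-- As `RD.Good.exists_pureAt`, with `exists_pow_B1`, `exists_pow_SE`. For `T`: `h2_gen_pure` for
`T' = adjoin (range tg ∪ taus)`; if `w = ∑ ζ i • w i` with `w i ∈ T'` has degree zero, replace
`w i` by `pr 0 (w i) ∈ T` (`isGr_adjoin`, `mem_adjoin_of_deg_zero`). -/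
theorem Good.exists_pureAt [IsDomain Λ] [IsNoetherianRing Λ] (h : d.Good Λ D) :
    ∃ b : Λ, b ≠ 0 ∧ ∀ z : Ideal Λ, z.IsMaximal → b ∉ z → d.PureAt z := by
  have hTfg : (d.T Λ).FG := Subalgebra.fg_def.2 ⟨_, Set.finite_range _, rfl⟩
  obtain ⟨b₁, hb₁, H₁⟩ := h2_gen_pure (Algebra.adjoin Λ (Set.range d.tg ∪ taus W₀ s.ρ))
    (Subalgebra.fg_def.2 ⟨_, (Set.finite_range _).union (gh2_taus_finite _ _), rfl⟩) d.g
    (Algebra.adjoin_mono Set.subset_union_left h.gT) (gh2_exists_pow h)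
  have hS : ∀ σ : Finset (Fin s.m), ∃ b : Λ, b ≠ 0 ∧ ∀ z : Ideal Λ, z.IsMaximal → b ∉ z →
      σ.Nonempty → Pure z (Subalgebra.toSubmodule (d.B Λ σ)) := by
    intro σ
    by_cases hσ : σ.Nonempty
    · obtain ⟨a, ha⟩ := hσ
      obtain ⟨b, hb, H⟩ := h2_gen_pure (d.B Λ σ) (d.B_fg σ) d.g
        (d.B1_le_B ha (d.T_le_B1 a h.gT)) fun w =>
        (h.exists_pow_B1 a w).imp fun i hi => d.B1_le_B ha hi
      exact ⟨b, hb, fun z hz hbz _ => H z hz hbz⟩
    · exact ⟨1, one_ne_zero, fun z _ _ h' => absurd h' hσ⟩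
  choose b₂ hb₂ H₂ using hS
  have hE : ∀ i, ∃ b : Λ, b ≠ 0 ∧ ∀ z : Ideal Λ, z.IsMaximal → b ∉ z →
      Pure z (Subalgebra.toSubmodule (d.SE Λ i)) := fun i =>
    h2_gen_pure (d.SE Λ i) (Subalgebra.fg_def.2 ⟨_, ((Set.finite_range _).union
      (Set.finite_singleton _)).union (gh2_taus_finite _ _), rfl⟩) d.g
      (Algebra.adjoin_mono (Set.subset_union_left.trans Set.subset_union_left) h.gT)
      (h.exists_pow_SE i)
  choose b₄ hb₄ H₄ using hE
  have he1 : (d.e1 : LA W₀ s.ρ) ∈ d.T Λ :=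
    d.toRD.mem_T_of_mem_sp_pow h.eT 1 (by rw [pow_one]; exact h.he1)
  have he2 : d.e2 ∈ d.T Λ := d.toRD.mem_T_of_mem_sp_pow h.eT 1 (by rw [pow_one]; exact h.he2)
  obtain ⟨b₃, hb₃, H₃⟩ := h2_gen_seq (d.T Λ) hTfg he1 he2 h.hreg
  refine ⟨b₁ * (∏ σ, b₂ σ) * b₃ * ∏ i, b₄ i,
    mul_ne_zero (mul_ne_zero (mul_ne_zero hb₁ (Finset.prod_ne_zero_iff.2 fun σ _ => hb₂ σ)) hb₃)
      (Finset.prod_ne_zero_iff.2 fun i _ => hb₄ i), fun z hz hb => ?_⟩
  have h₁ : b₁ ∉ z := fun h' => hb (z.mul_mem_right _ (z.mul_mem_right _ (z.mul_mem_right _ h')))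
  have h₃ : b₃ ∉ z := fun h' => hb (z.mul_mem_right _ (z.mul_mem_left _ h'))
  have h₂ : ∀ σ, b₂ σ ∉ z := fun σ h' => hb (z.mul_mem_right _ (z.mul_mem_right _
    (z.mul_mem_left _ (z.mem_of_dvd (Finset.dvd_prod_of_mem b₂ (Finset.mem_univ σ)) h'))))
  have h₄ : ∀ i, b₄ i ∉ z := fun i h' => hb (z.mul_mem_left _
    (z.mem_of_dvd (Finset.dvd_prod_of_mem b₄ (Finset.mem_univ i)) h'))
  have hT := gh2_pure_T h.toPre (H₁ z hz h₁)
  refine ⟨hT, fun σ hσ => H₂ σ z hz (h₂ σ) hσ, fun i => H₄ i z hz (h₄ i),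
    fun w hw v hv hwv => ?_⟩
  have hm : d.e2 * w - d.e1 * v ∈ d.T Λ :=
    (d.T Λ).sub_mem ((d.T Λ).mul_mem he2 hw) ((d.T Λ).mul_mem he1 hv)
  obtain ⟨v', hv', H⟩ := H₃ z hz h₃ w hw v hv (hT ⟨hm, hwv⟩)
  exact ⟨v', hv', Submodule.smul_mono le_rfl le_top H⟩

theorem gh2_map_Wg {κ W₁ : Type} [CommRing κ] [CommRing W₁] [Algebra κ W₁] {χ : Λ →+* κ}
    {π : W₀ →+* W₁} (hπ : IsRed χ π) (d : GD s W₀) :
    (((d.map π).Wg κ : Subalgebra κ (LA W₁ s.ρ)) : Set (LA W₁ s.ρ)) =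
      lmap s.ρ π '' (d.Wg Λ : Set (LA W₀ s.ρ)) := by
  rw [Wg, Wg, ← latS_adjoin hπ.lmap, Set.image_union, Set.image_union, lmap_taus,
    ← Set.range_comp, Set.image_singleton]
  rfl

/-- As `RD.Good.map_red`. For `dD`: a homogeneous element downstairs is the image of a
homogeneous element (`lmap_pr`). -/
theorem Good.map_red (h : d.Good Λ D) {κ W₁ : Type} [Field κ] [CommRing W₁] [Algebra κ W₁]
    {χ : Λ →+* κ} {π : W₀ →+* W₁} (hπ : IsRed χ π) (hp : d.PureAt (RingHom.ker χ))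
    {D' : Fin n → Derivation κ (LA W₁ s.ρ) (LA W₁ s.ρ)}
    (hD' : ∀ i w, D' i (lmap s.ρ π w) = lmap s.ρ π (D i w)) : (d.map π).Good κ D' := by
  have hφ : IsRed χ (lmap s.ρ π) := hπ.lmap
  have hT : ∀ w ∈ d.T Λ, lmap s.ρ π w ∈ (d.map π).T κ := fun w hw => by
    have h1 := RD.map_T hφ d.toRD
    have h2 : lmap s.ρ π w ∈ (((d.toRD.map (lmap s.ρ π)).T κ : Subalgebra κ _) : Set _) := by
      rw [h1]
      exact ⟨w, hw, rfl⟩
    exact h2
  have hT' : ∀ w' ∈ (d.map π).T κ, ∃ w ∈ d.T Λ, lmap s.ρ π w = w' := fun w' hw => by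
    have h2 : w' ∈ (((d.toRD.map (lmap s.ρ π)).T κ : Subalgebra κ _) : Set _) := hw
    rw [RD.map_T hφ d.toRD] at h2
    exact h2
  have hsp : ∀ {k : ℕ} (v : Fin k → LA W₀ s.ρ), ∀ w ∈ d.sp Λ v, lmap s.ρ π w ∈
      (d.toRD.map (lmap s.ρ π)).sp κ (fun l => lmap s.ρ π (v l)) := fun v w hw => by
    rw [← SetLike.mem_coe, RD.h2_map_sp hφ d.toRD v]
    exact ⟨w, hw, rfl⟩
  have hB : ∀ a, ∀ w ∈ d.B1 Λ a, lmap s.ρ π w ∈ (d.map π).B1 κ a := fun a w hw => by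
    rw [← SetLike.mem_coe, map_B1 hπ d]
    exact ⟨w, hw, rfl⟩
  have hSE : ∀ i, ∀ w ∈ d.SE Λ i, lmap s.ρ π w ∈ (d.map π).SE κ i := fun i w hw => by
    rw [← SetLike.mem_coe, map_SE hπ d]
    exact ⟨w, hw, rfl⟩
  have hall : ∀ w', w' ∈ (d.map π).Wg κ := fun w' => by
    obtain ⟨w, rfl⟩ := hφ.surj w'
    rw [← SetLike.mem_coe, gh2_map_Wg hπ d]
    exact ⟨w, by rw [h.hW]; exact Algebra.mem_top, rfl⟩
  refine
    { hr := h.hr
      hM := h.hM
      hmv := h.hmv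
      hal := h.hal
      hinj := h.hinj
      ht := fun a i => ?_
      dtg := fun i => (h.dtg i).lmap π
      dsg := fun a i => (h.dsg a i).imp fun _ hγ => hγ.lmap π
      dom := fun a i => (h.dom a i).imp fun _ hγ => hγ.lmap π
      dy := fun a i => (h.dy a i).imp fun _ hγ => hγ.lmap π
      dx := fun l => (h.dx l).lmap π
      dv := fun a c => (h.dv a c).lmap π
      du := h.du.lmap π
      bT := fun i => hT _ (h.bT i)
      dT := fun i => hT _ (h.dT i)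
      aT := fun i => hT _ (h.aT i)
      eT := fun i => hT _ (h.eT i)
      gT := hT _ h.gT
      hG := fun a => hsp d.bg _ (h.hG a)
      hred := ?_
      hSB := fun a w' hw' => ?_
      hBB := fun a b i => ?_
      hτ := fun a w' hw' => ?_
      hv := fun a c => ⟨hB a _ (h.hv a c).1, hB a _ (h.hv a c).2⟩
      hom := fun a i => hB a _ (h.hom a i)
      hfin := fun a w' hw' => ?_
      het := fun a => ?_
      hglue := fun a b i => ?_
      hj := fun a => ?_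
      ha := ?_
      heI := fun i => ?_
      hetE := fun i => EtC.map_red hφ (map_SE hπ d i) (hp.hE i) (h.hetE i)
      hwE := fun i => hSE i _ (h.hwE i)
      hed := fun i => ?_
      he1 := hsp d.e _ h.he1
      he2 := hsp d.e _ h.he2
      hreg := ?_
      wG := fun a => hall _
      wj := fun a => hall _
      wt := fun a i => hall _
      wu := hall _
      wu' := hall _
      we := hall _
      wsg := fun a i => hall _
      weI := fun i => hall _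
      wjE := fun i => hall _
      wwE := fun i => hall _
      wD := fun i w _ => hall _
      hdet := fun a => ?_
      hdetE := fun a => ?_
      hdual := fun i l => ?_
      dD := fun i γ w' hw' => ?_
      hW := eq_top_iff.2 fun w' _ => hall w' }
  · have e : ((d.map π).t a i : LA W₁ s.ρ) = lmap s.ρ π (d.t a i : LA W₀ s.ρ) := rfl
    rw [e, h.ht a i]
    cases s.lam a i with
    | none => exact map_one (lmap s.ρ π)
    | some l => rfl
  · obtain ⟨ρ, hρ⟩ := h.hred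
    refine ⟨ρ, fun w' hw' => ?_⟩
    have h1 : w' ∈ lmap s.ρ π ''
        ((d.sp Λ d.bg ^ (ρ + 1) : Submodule (d.T Λ) (LA W₀ s.ρ)) : Set (LA W₀ s.ρ)) := by
      rw [← RD.h2_map_sp_pow hφ d.toRD d.bg (ρ + 1)]
      exact hw'
    obtain ⟨w, hw, rfl⟩ := h1
    have h2 := RD.map_mem_sp_pow hφ d.toRD (fun a => (d.G a : LA W₀ s.ρ)) d.bg 1 ρ
      (by rw [pow_one]; exact hρ hw)
    rw [pow_one] at h2
    exact h2
  · have h1 : w' ∈ lmap s.ρ π '' (d.S1 Λ a : Set (LA W₀ s.ρ)) := by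
      rw [← RD.map_S1 hφ d.toRD a]
      exact hw'
    obtain ⟨w, hw, rfl⟩ := h1
    exact hB a _ (h.hSB a hw)
  · obtain ⟨k, hk⟩ := h.hBB a b i
    refine ⟨k, ?_⟩
    have h1 := hB a _ hk
    have e1 : ((d.map π).G b * ((d.map π).G a)⁻¹) ^ k =
        Units.map (lmap s.ρ π : LA W₀ s.ρ →* LA W₁ s.ρ) ((d.G b * (d.G a)⁻¹) ^ k) := by
      rw [map_pow, map_mul, map_inv]
      rfl
    rw [map_mul] at h1
    rw [e1]
    exact h1
  · rw [← lmap_taus π] at hw'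
    obtain ⟨w, hw, rfl⟩ := hw'
    obtain ⟨k, hk⟩ := h.hτ a w hw
    refine ⟨k, ?_⟩
    have h1 := hB a _ hk
    rw [map_mul, map_pow] at h1
    exact h1
  · rw [← SetLike.mem_coe, map_B1 hπ d] at hw'
    obtain ⟨w, hw, rfl⟩ := hw'
    have h1 := h2_im_span (lmap s.ρ π) (map_SV hπ d a) (d.om a)
    have h2 : lmap s.ρ π w ∈ ((Submodule.span ((d.map π).SV κ a)
        (Set.range fun l => lmap s.ρ π (d.om a l)) : Submodule _ _) : Set (LA W₁ s.ρ)) := by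
      rw [h1]
      exact ⟨w, h.hfin a w hw, rfl⟩
    exact h2
  · refine EtC.map_red hφ (map_B1 hπ d a) ?_ (h.het a)
    rw [← d.B_single a]
    exact hp.hB {a} (Finset.singleton_nonempty a)
  · have h1 := h.hglue a b i
    rw [← B_pair] at h1 ⊢
    exact h2_as (lmap s.ρ π) (map_B hπ d {a, b}) h1
  · have h1 := h2_as (lmap s.ρ π) (map_B1 hπ d a) (h.hj a)
    rw [map_pow, map_mul, map_mul, map_prod] at h1
    simp only [map_zpow] at h1
    exact h1
  · intro w' hw'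
    have h1 : w' ∈ lmap s.ρ π '' (d.sp Λ d.bg : Set (LA W₀ s.ρ)) := by
      rw [← RD.h2_map_sp hφ d.toRD d.bg]
      exact hw'
    obtain ⟨w, hw, rfl⟩ := h1
    have h2 : lmap s.ρ π w ∈ (((d.toRD.map (lmap s.ρ π)).sp κ
        (fun l => lmap s.ρ π (d.ag l)) ^ s.a1 :
        Submodule ((d.toRD.map (lmap s.ρ π)).T κ) (LA W₁ s.ρ)) : Set (LA W₁ s.ρ)) := by
      rw [RD.h2_map_sp_pow hφ d.toRD d.ag s.a1]
      exact ⟨w, h.ha hw, rfl⟩
    exact h2
  · have h1 := congrArg (lmap s.ρ π) (h.heI i)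
    rw [map_mul, map_one] at h1
    exact h1
  · obtain ⟨k, hk⟩ := h.hed i
    refine ⟨k, ?_⟩
    have h2 : lmap s.ρ π (d.e i ^ k *
        ((d.u * (d.jE i)⁻¹ ^ s.N * d.wE i : (LA W₀ s.ρ)ˣ) : LA W₀ s.ρ)) ∈
        (((d.toRD.map (lmap s.ρ π)).sp κ (fun l => lmap s.ρ π (d.dg l)) ^ s.M :
        Submodule ((d.toRD.map (lmap s.ρ π)).T κ) (LA W₁ s.ρ)) : Set (LA W₁ s.ρ)) := by
      rw [RD.h2_map_sp_pow hφ d.toRD d.dg s.M]
      exact ⟨_, hk, rfl⟩
    have e1 : (d.map π).u * ((d.map π).jE i)⁻¹ ^ s.N * (d.map π).wE i =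
        Units.map (lmap s.ρ π : LA W₀ s.ρ →* LA W₁ s.ρ) (d.u * (d.jE i)⁻¹ ^ s.N * d.wE i) := by
      rw [map_mul, map_mul, map_pow, map_inv]
      rfl
    rw [map_mul, map_pow] at h2
    rw [e1]
    exact h2
  · rintro w' hw' ⟨v', hv', e⟩
    obtain ⟨w, hw, rfl⟩ := hT' w' hw'
    obtain ⟨v, hv, rfl⟩ := hT' v' hv'
    have h1 : lmap s.ρ π (d.e2 * w - d.e1 * v) = 0 := by
      rw [map_sub, map_mul, map_mul, sub_eq_zero]
      exact e
    obtain ⟨v₁, hv₁, h2⟩ := hp.hreg w hw v hv ((hφ.ker _).1 h1)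
    have h3 := (hφ.ker _).2 h2
    rw [map_sub, map_mul, sub_eq_zero] at h3
    exact ⟨1, one_ne_zero, lmap s.ρ π v₁, hT _ hv₁, by rw [one_smul]; exact h3⟩
  · have h1 := congrArg (lmap s.ρ π) (h.hdet a)
    rw [map_mul, map_one, RingHom.map_det] at h1
    have e : (Matrix.of fun i l => D' i ((d.map π).y a l)) =
        (lmap s.ρ π).mapMatrix (Matrix.of fun i l => D i (d.y a l)) := by
      refine Matrix.ext fun i l => ?_
      exact hD' i (d.y a l)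
    rw [e]
    exact h1
  · have h1 := congrArg (lmap s.ρ π) (h.hdetE a)
    rw [map_mul, map_one, RingHom.map_det] at h1
    have e : (Matrix.of fun i l => D' i ((d.map π).yE a l)) =
        (lmap s.ρ π).mapMatrix (Matrix.of fun i l => D i (d.yE a l)) := by
      refine Matrix.ext fun i l => ?_
      exact hD' i (d.yE a l)
    rw [e]
    exact h1
  · have h1 : D' i ((d.map π).y s.a0 l) = lmap s.ρ π (D i (d.y s.a0 l)) := hD' i _
    rw [h1, h.hdual i l]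
    split_ifs
    · exact map_one (lmap s.ρ π)
    · exact map_zero (lmap s.ρ π)
  · obtain ⟨w, rfl⟩ := hφ.surj w'
    rw [← isDeg_iff.1 hw', ← lmap_pr, hD']
    exact (h.dD i γ _ (isDeg_pr γ w)).lmap π

end GD

end

end Pool.Agent.Lib.MP_4287a9_ag
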