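import Pool.Agent.Lib.MP_4287a9_ag.RDb
import Pool.Agent.Lib.MP_4287a9_ag.CupB
import Pool.Agent.Lib.MP_4287a9_ag.CartA

/-!
Surjectivity of the Cartier operator on global sections.
-/

open scoped TensorProduct ENNReal NNReal nonZeroDivisors Polynomial
open Filter

namespace Pool.Agent.Lib.MP_4287a9_ag

noncomputable section

variable {p : ℕ} [Fact p.Prime] {n : ℕ} {s : Shp n} {W : Type} [CommRing W] {d : RD s W}
  {κ : Type} [Field κ] [Finite κ] [CharP κ p] [Algebra κ W] {D : Fin n → Derivation κ W W}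

omit [Fact p.Prime] [Finite κ] in
theorem ZZ_cast (κ W : Type) [Field κ] [CharP κ p] [CommRing W] [Algebra κ W] : (p : W) = 0 := by
  rw [← map_natCast (algebraMap κ W), CharP.cast_eq_zero, map_zero]

omit [Fact p.Prime] [Finite κ] in
theorem ZZ_deriv_pow (E : Derivation κ W W) (w : W) : E (w ^ p) = 0 := by
  rw [E.leibniz_pow, nsmul_eq_mul, ZZ_cast (p := p) κ W, zero_mul]

/-- Units whose logarithmic derivative lies in `M`. -/
def ZZ_dlog (D : Fin n → Derivation κ W W) (M : AddSubgroup (Fin n → W)) : Subgroup Wˣ where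
  carrier := {x | ((x⁻¹ : Wˣ) : W) • grad D (x : W) ∈ M}
  one_mem' := by
    have h : (((1 : Wˣ)⁻¹ : Wˣ) : W) • grad D ((1 : Wˣ) : W) = 0 := by
      funext i
      simp [grad]
    simp only [Set.mem_ofPred_eq, h, zero_mem]
  mul_mem' {x y} hx hy := by
    have h : (((x * y)⁻¹ : Wˣ) : W) • grad D ((x * y : Wˣ) : W) =
        ((x⁻¹ : Wˣ) : W) • grad D (x : W) + ((y⁻¹ : Wˣ) : W) • grad D (y : W) := by
      funext i
      simp only [grad, Pi.smul_apply, Pi.add_apply, smul_eq_mul, Units.val_mul, mul_inv,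
        Derivation.leibniz]
      linear_combination ((y⁻¹ : Wˣ) : W) * D i y * x.inv_mul + ((x⁻¹ : Wˣ) : W) * D i x * y.inv_mul
    simp only [Set.mem_ofPred_eq, h]
    exact add_mem hx hy
  inv_mem' {x} hx := by
    have h : ((x⁻¹⁻¹ : Wˣ) : W) • grad D ((x⁻¹ : Wˣ) : W) =
        -(((x⁻¹ : Wˣ) : W) • grad D (x : W)) := by
      funext i
      simp only [grad, Pi.smul_apply, Pi.neg_apply, smul_eq_mul, inv_inv,
        (D i).leibniz_of_mul_eq_one x.inv_mul]
      linear_combination (-((x⁻¹ : Wˣ) : W)) * D i x * x.inv_mul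
    simp only [Set.mem_ofPred_eq, h]
    exact neg_mem hx

theorem ZZ_ce (s : Shp n) (Q : ℕ) (i : Fin s.μ) :
    0 ≤ (p : ℤ) - p * s.ce Q i - (1 - s.ce (p * Q) i) := by
  have hp : (0 : ℚ) < p := by exact_mod_cast (Fact.out : p.Prime).pos
  have h1 := Int.ceil_lt_add_one (((Q : ℚ) * (s.al i : ℚ)) / (s.N : ℚ))
  have h2 : (p : ℤ) * s.ce Q i - p < s.ce (p * Q) i := by
    unfold Shp.ce
    rw [Int.lt_ceil]
    push_cast
    rw [mul_assoc, mul_div_assoc (p : ℚ)]
    nlinarith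
  omega

namespace RD

/-- `j ^ (p Q)` is killed by all derivations; use `dd_mem_lat`, `grad_mem`, `dlog_mem`. -/
theorem Good.dd_mem_LL (h : d.Good κ D) (Q : ℕ) {σ : Finset (Fin s.m)} (hσ : σ.Nonempty)
    {w : Fm W n} (hw : w ∈ d.LL D (p * Q) σ) : dd D w ∈ d.LL D (p * Q) σ := by
  obtain ⟨a, ha⟩ := hσ
  rw [h.toAmb.LL_eq _ ha] at hw ⊢
  refine dd_mem_lat (h.closed_theta a) (fun b hb => ?_) hw
  have h1 : d.tau a (p * Q) ∈ ZZ_dlog D
      (Submodule.span (d.S κ σ) (Set.range (d.theta D a))).toAddSubgroup := by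
    refine mul_mem ?_ (prod_mem fun i _ => Subgroup.zpow_mem _ ?_ _)
    swap
    · exact h.toAmb.toPre.dlog_mem ha ha i
    have h2 : grad D ((d.j a ^ (p * Q) : Wˣ) : W) = 0 := by
      funext i
      rw [grad, Units.val_pow_eq_pow_val, mul_comm, pow_mul, ZZ_deriv_pow, Pi.zero_apply]
    change (((d.j a ^ (p * Q))⁻¹ : Wˣ) : W) • grad D ((d.j a ^ (p * Q) : Wˣ) : W) ∈
      (Submodule.span (d.S κ σ) (Set.range (d.theta D a))).toAddSubgroup
    rw [h2, smul_zero]
    exact zero_mem _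
  refine ⟨_, add_mem (h.toAmb.toPre.grad_mem ha hb)
    (Submodule.smul_mem _ (⟨b, hb⟩ : d.S κ σ) h1), ?_⟩
  funext i
  change D i (b * _) = _ * (D i b + b * (_ * D i _))
  rw [Derivation.leibniz, smul_eq_mul, smul_eq_mul]
  linear_combination (-b) * D i (d.tau a (p * Q)) * (d.tau a (p * Q)).mul_inv

/-- Take `a ∈ σ` and `v l i = D i (y a l) ^ p`, so `det v * j a ^ p = 1`. By `alt_mem` (with
`tt l = tl a l ^ p`; the entries of `v` are constants for `D`) and `alt_det`,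
`alt 1 σ ∈ lat (S σ) (j ^ p ∏ t ^ p) (theta a)`. Finally `f ^ p ∈ sig a Q ^ p * S` and
`p - p ⌈Q α / N⌉ ≥ 1 - ⌈p Q α / N⌉`. -/
theorem Good.alt_mem_LL (h : d.Good κ D) {hh : Fin s.m → Fin n → W} (hH : d.HD p D hh) {Q : ℕ}
    {f : W} (hf : f ∈ d.Gam κ Q) {σ : Finset (Fin s.m)} (hσ : σ.Nonempty) :
    f ^ p • alt (fun a => zet p D (d.y s.a0) (hh a)) hh 1 σ ∈ d.LL D (p * Q) σ := by
  rcases subsingleton_or_nontrivial W with hW | hW
  · rw [Subsingleton.elim (f ^ p • _) 0]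
    exact zero_mem _
  have : CharP W p := charP_of_injective_algebraMap (algebraMap κ W).injective p
  have hp : 0 < p := (Fact.out : p.Prime).pos
  obtain ⟨a, ha⟩ := hσ
  have hP := h.toAmb.toPre
  let v : Matrix (Fin n) (Fin n) W := Matrix.of fun l i => D i (d.y a l) ^ p
  have hv : (d.j a : W) ^ p * v.det = 1 := by
    have h1 : v = (frobenius W p).mapMatrix (Matrix.of fun i l => D i (d.y a l)).transpose := rfl
    rw [h1, ← RingHom.map_det, Matrix.det_transpose, frobenius_def, ← mul_pow, h.hdet, one_pow]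
  have hc : ∀ b ∈ σ, ∀ l, ∃ c ∈ d.S κ σ,
      ∑ i, v l i * (hh b i - hh a i) = (d.tl a l : W) ^ p * c := fun b hb l => by
    refine ⟨_, d.S_mono (by simp [Finset.insert_subset_iff, ha, hb]) (hH.h2 b a l), ?_⟩
    rw [mul_left_comm, Units.val_pow_eq_pow_val, ← mul_pow, Units.mul_inv, one_pow, mul_one]
    rfl
  have h1 := alt_mem (fun a => zet p D (d.y s.a0) (hh a)) hh v σ (d.S κ σ) (d.theta D a)
    (fun l => (d.tl a l : W) ^ p) (fun b hb l => ?_) (fun b hb c hc' l => ?_)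
  · rw [h.toAmb.LL_eq _ ha]
    have h2 := smul_mem_lat_mul (f ^ p * (d.j a : W) ^ p) h1
    rw [alt_det, smul_smul, mul_assoc _ _ v.det, hv, mul_one] at h2
    refine lat_le le_rfl ?_ (fun l => Submodule.subset_span ⟨l, rfl⟩) h2
    have h3 : ∀ i, ∃ e : ℕ, (e : ℤ) = (p : ℤ) - p * s.ce Q i - (1 - s.ce (p * Q) i) := fun i =>
      ⟨_, Int.toNat_of_nonneg (ZZ_ce s Q i)⟩
    choose e he using h3
    have h4 : d.sig a Q ^ p * (d.j a ^ p * (∏ l, d.tl a l) ^ p) =
        (∏ i, d.t a i ^ e i) * d.tau a (p * Q) := by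
      have h5 : (d.j a ^ ((Q : ℤ) - 1)) ^ p * d.j a ^ p = d.j a ^ (p * Q) := by
        rw [← mul_pow, ← zpow_add_one, sub_add_cancel, zpow_natCast, ← pow_mul, mul_comm]
      have h6 : (∏ i, d.t a i ^ (-s.ce Q i)) ^ p * (∏ i, d.t a i) ^ p =
          (∏ i, d.t a i ^ e i) * ∏ i, d.t a i ^ (1 - s.ce (p * Q) i) := by
        rw [← mul_pow, ← Finset.prod_mul_distrib, ← Finset.prod_mul_distrib, ← Finset.prod_pow]
        refine Finset.prod_congr rfl fun i _ => ?_
        rw [← zpow_add_one, ← zpow_natCast, ← zpow_mul, ← zpow_natCast, ← zpow_add, he]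
        congr 1
        ring
      rw [hP.prod_tl, sig, tau, mul_pow, mul_mul_mul_comm, h5, h6, mul_left_comm]
    refine ⟨(f * (((d.sig a Q)⁻¹ : Wˣ) : W)) ^ p * ∏ i, (d.t a i : W) ^ e i,
      d.S1_le_S ha (mul_mem (pow_mem (hf a) _) (prod_mem fun i _ => pow_mem (hP.t_mem a i) _)), ?_⟩
    have h7 := congrArg Units.val h4
    simp only [Units.val_mul, Units.val_pow_eq_pow_val, Units.coe_prod] at h7
    rw [mul_assoc _ _ (d.tau a (p * Q) : W), ← h7, Finset.prod_pow,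
      ← mul_assoc _ ((d.sig a Q : W) ^ p), ← mul_pow _ (d.sig a Q : W),
      mul_assoc f, Units.inv_mul, mul_one, mul_assoc]
  · obtain ⟨c, hcS, hce⟩ := hc b hb l
    have h2 : ∃ e ∈ d.S κ σ, d.y a l ^ (p - 1) = (d.tl a l : W) ^ p * (e * ((d.tl a l)⁻¹ : Wˣ)) := by
      rcases hP.tl_cases a l with ⟨i, -, -, h3⟩ | ⟨-, h3⟩
      · refine ⟨1, one_mem _, ?_⟩
        obtain ⟨q, rfl⟩ : ∃ q, p = q + 1 := ⟨p - 1, by omega⟩
        rw [← h3, one_mul, pow_succ, mul_assoc, Units.mul_inv, mul_one, Nat.add_sub_cancel]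
      · exact ⟨_, pow_mem (d.S1_le_S ha ((hP.het a).mem l)) (p - 1), by simp [h3]⟩
    obtain ⟨e, heS, he⟩ := h2
    refine ⟨_, add_mem (Submodule.smul_mem _ (⟨e, heS⟩ : d.S κ σ) (Submodule.subset_span ⟨l, rfl⟩))
      (hP.grad_mem ha hcS), ?_⟩
    funext k
    have h3 := congrFun (hH.h1 a l) k
    have h4 := congrArg (D k) hce
    simp only [map_sum, Derivation.leibniz, map_sub, v, Matrix.of_apply, ZZ_deriv_pow, mul_zero,
      add_zero, smul_eq_mul, mul_sub, Finset.sum_sub_distrib] at h4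
    simp only [Finset.sum_apply, Pi.smul_apply, zet, Pi.add_apply, smul_eq_mul, mul_add,
      Finset.sum_add_distrib, grad, he] at h3
    simp only [Finset.sum_apply, Pi.smul_apply, zet, Pi.add_apply, smul_eq_mul, mul_add,
      Finset.sum_add_distrib, grad, v, Matrix.of_apply, theta, Subalgebra.smul_def]
    linear_combination h3 + h4
  · obtain ⟨c1, g1, g2⟩ := hc b hb l
    obtain ⟨c2, g3, g4⟩ := hc c hc' l
    refine ⟨c1 - c2, sub_mem g1 g3, ?_⟩
    rw [mul_sub, ← g2, ← g4, ← Finset.sum_sub_distrib]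
    exact Finset.sum_congr rfl fun i _ => by ring

/-- Apply `zigzag` to `c σ = f ^ p • alt 1 σ` (`alt_cocycle`; `f ^ p` is a constant). Then
`top ω ∈ Gam (p Q)` (`top_mem_lat`, `tau_mul_det`) and `Φ (top ω) = ± n! f` (`alt_top`,
`apply_det_zet`, `apply_top_dd`); multiply by an integer inverse of `± n!` modulo `p`. -/
theorem Good.zz (h : d.Good κ D) {hh : Fin s.m → Fin n → W} (hH : d.HD p D hh) {Φ : W →+ W}
    (hΦ : IsCar p (d.y s.a0) Φ) (hn : n < p) {Q : ℕ}
    (hex : ∀ k, 1 ≤ k → CExact (fun σ => (d.LL D (p * Q) σ : Set (Fm W n))) k) {f : W}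
    (hf : f ∈ d.Gam κ Q) : ∃ f' ∈ d.Gam κ (p * Q), Φ f' = f := by
  have hg : grad D (f ^ p) = 0 := funext fun i => ZZ_deriv_pow (D i) f
  obtain ⟨ω, hω, η, hη⟩ := zigzag (dd D) (dd_dd h.commD)
    (fun σ => (d.LL D (p * Q) σ).toAddSubgroup) (fun σ hσ w hw => h.dd_mem_LL Q hσ hw) hex
    (fun σ => f ^ p • alt (fun a => zet p D (d.y s.a0) (hh a)) hh 1 σ)
    (fun σ hσ => h.alt_mem_LL hH hf hσ) (fun σ _ => by
      have h1 := cdel_comp (DistribSMul.toAddMonoidHom (Fm W n) (f ^ p))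
        (alt (fun a => zet p D (d.y s.a0) (hh a)) hh 1) σ
      simp only [DistribSMul.toAddMonoidHom_apply] at h1
      rw [dd_smul, hg, alt_cocycle h.commD h.hdual, h1, smul_comm]
      simp [wedge]) s.a0
  obtain ⟨ε, hε, htop⟩ := alt_top (fun a => zet p D (d.y s.a0) (hh a)) hh s.a0
  have h1 : Φ (top ω) = (ε * n.factorial : ℤ) • f := by
    have h2 : top ω = f ^ p * top (alt (fun a => zet p D (d.y s.a0) (hh a)) hh 1 {s.a0}) +
        top (dd D η) := by
      rw [hη]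
      rfl
    rw [h2, map_add, hΦ.apply_top_dd (h.etc_top _) h.hdual, add_zero, hΦ.1, htop, map_zsmul,
      hΦ.apply_det_zet (h.etc_top _) h.hdual, mul_smul_comm, mul_one]
  obtain ⟨u, v, huv⟩ : IsCoprime (p : ℤ) (n.factorial : ℤ) := Nat.isCoprime_iff_coprime.2
    ((Nat.Prime.coprime_iff_not_dvd Fact.out).2 fun h2 =>
      not_le.2 hn ((Nat.Prime.dvd_factorial Fact.out).1 h2))
  refine ⟨(ε * v) • top ω, fun a => ?_, ?_⟩
  · have h2 : ω ∈ d.LL D (p * Q) {a} := hω a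
    rw [h.toAmb.LL_eq _ (Finset.mem_singleton_self a), S_single] at h2
    obtain ⟨b, hb, e⟩ := top_mem_lat h2
    rw [e, h.toAmb.tau_mul_det, smul_mul_assoc, mul_assoc, Units.mul_inv, mul_one]
    exact zsmul_mem hb _
  · have h2 := congrArg (Int.cast : ℤ → W) huv
    have h3 : (ε : W) * ε = 1 := by rcases hε with rfl | rfl <;> simp
    push_cast at h2
    rw [ZZ_cast (p := p) κ W, mul_zero, zero_add] at h2
    rw [map_zsmul, h1, zsmul_eq_mul, zsmul_eq_mul]
    push_cast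
    linear_combination f * (v * n.factorial) * h3 + f * h2

end RD

end

end Pool.Agent.Lib.MP_4287a9_ag
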