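import Pool.Agent.Lib.MP_4287a9_ag.GDb
import Pool.Agent.Lib.MP_4287a9_ag.GrC
import Pool.Agent.Lib.MP_4287a9_ag.ZZ

/-!
Surjectivity of the Cartier operator on graded global sections (compare `ZZ`).
-/

open scoped TensorProduct ENNReal NNReal nonZeroDivisors Polynomial
open Filter

namespace Pool.Agent.Lib.MP_4287a9_ag

noncomputable section

variable {p : ℕ} [Fact p.Prime] {n : ℕ} {s : GShp n} {W₀ : Type} [CommRing W₀] {d : GD s W₀}
  {κ : Type} [Field κ] [Finite κ] [CharP κ p] [Algebra κ W₀]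
  {D : Fin n → Derivation κ (LA W₀ s.ρ) (LA W₀ s.ρ)}

namespace GD

theorem Good.dd_mem_LB (h : d.Good κ D) (Q : ℕ) {σ : Finset (Fin s.m)} (hσ : σ.Nonempty)
    {w : Fm (LA W₀ s.ρ) n} (hw : w ∈ d.LB D (p * Q) σ) : dd D w ∈ d.LB D (p * Q) σ := by
  obtain ⟨a, ha⟩ := hσ
  rw [h.toAmb.LB_eq _ ha] at hw ⊢
  refine dd_mem_lat (h.closed_theta a) (fun b hb => ?_) hw
  have h1 : d.tau a (p * Q) ∈ ZZ_dlog D
      (Submodule.span (d.B κ σ) (Set.range (d.theta D a))).toAddSubgroup := by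
    refine mul_mem ?_ (prod_mem fun i _ => Subgroup.zpow_mem _ ?_ _)
    swap
    · exact h.toAmb.toPre.dlog_mem ha ha i
    have h2 : grad D ((d.j a ^ (p * Q) : (LA W₀ s.ρ)ˣ) : LA W₀ s.ρ) = 0 := by
      funext i
      rw [grad, Units.val_pow_eq_pow_val, mul_comm, pow_mul, ZZ_deriv_pow, Pi.zero_apply]
    change (((d.j a ^ (p * Q))⁻¹ : (LA W₀ s.ρ)ˣ) : LA W₀ s.ρ) • grad D ((d.j a ^ (p * Q) : (LA W₀ s.ρ)ˣ) : LA W₀ s.ρ) ∈
      (Submodule.span (d.B κ σ) (Set.range (d.theta D a))).toAddSubgroup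
    rw [h2, smul_zero]
    exact zero_mem _
  refine ⟨_, add_mem (h.toAmb.toPre.grad_mem ha hb)
    (Submodule.smul_mem _ (⟨b, hb⟩ : d.B κ σ) h1), ?_⟩
  funext i
  change D i (b * _) = _ * (D i b + b * (_ * D i _))
  rw [Derivation.leibniz, smul_eq_mul, smul_eq_mul]
  linear_combination (-b) * D i (d.tau a (p * Q)) * (d.tau a (p * Q)).mul_inv

theorem Good.alt_mem_LB (h : d.Good κ D) {hh : Fin s.m → Fin n → LA W₀ s.ρ} (hH : d.HD p D hh)
    {Q : ℕ} {f : LA W₀ s.ρ} (hf : f ∈ d.Gam κ Q) {σ : Finset (Fin s.m)} (hσ : σ.Nonempty) :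
    f ^ p • alt (fun a => zet p D (d.y s.a0) (hh a)) hh 1 σ ∈ d.LB D (p * Q) σ := by
  rcases subsingleton_or_nontrivial (LA W₀ s.ρ) with hW | hW
  · rw [Subsingleton.elim (f ^ p • _) 0]
    exact zero_mem _
  have : CharP (LA W₀ s.ρ) p := charP_of_injective_algebraMap (algebraMap κ (LA W₀ s.ρ)).injective p
  have hp : 0 < p := (Fact.out : p.Prime).pos
  obtain ⟨a, ha⟩ := hσ
  have hP := h.toAmb.toPre
  let v : Matrix (Fin n) (Fin n) (LA W₀ s.ρ) := Matrix.of fun l i => D i (d.y a l) ^ p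
  have hv : (d.j a : LA W₀ s.ρ) ^ p * v.det = 1 := by
    have h1 : v = (frobenius (LA W₀ s.ρ) p).mapMatrix (Matrix.of fun i l => D i (d.y a l)).transpose := rfl
    rw [h1, ← RingHom.map_det, Matrix.det_transpose, frobenius_def, ← mul_pow, h.hdet, one_pow]
  have hc : ∀ b ∈ σ, ∀ l, ∃ c ∈ d.B κ σ,
      ∑ i, v l i * (hh b i - hh a i) = (d.tl a l : LA W₀ s.ρ) ^ p * c := fun b hb l => by
    refine ⟨_, d.B_mono (by simp [Finset.insert_subset_iff, ha, hb]) (hH.h2 b a l), ?_⟩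
    rw [mul_left_comm, Units.val_pow_eq_pow_val, ← mul_pow, Units.mul_inv, one_pow, mul_one]
    rfl
  have h1 := alt_mem (fun a => zet p D (d.y s.a0) (hh a)) hh v σ (d.B κ σ) (d.theta D a)
    (fun l => (d.tl a l : LA W₀ s.ρ) ^ p) (fun b hb l => ?_) (fun b hb c hc' l => ?_)
  · rw [h.toAmb.LB_eq _ ha]
    have h2 := smul_mem_lat_mul (f ^ p * (d.j a : LA W₀ s.ρ) ^ p) h1
    rw [alt_det, smul_smul, mul_assoc _ _ v.det, hv, mul_one] at h2
    refine lat_le le_rfl ?_ (fun l => Submodule.subset_span ⟨l, rfl⟩) h2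
    have h3 : ∀ i, ∃ e : ℕ, (e : ℤ) = (p : ℤ) - p * s.ce Q i - (1 - s.ce (p * Q) i) := fun i =>
      ⟨_, Int.toNat_of_nonneg (ZZ_ce s.toShp Q i)⟩
    choose e he using h3
    have h4 : d.sig a Q ^ p * (d.j a ^ p * (∏ l, d.tl a l) ^ p) =
        (∏ i, d.t a i ^ e i) * d.tau a (p * Q) := by
      have h5 : (d.j a ^ ((Q : ℤ) - 1)) ^ p * d.j a ^ p = d.j a ^ (p * Q) := by
        rw [← mul_pow, ← zpow_add_one, sub_add_cancel, zpow_natCast, ← pow_mul, mul_comm]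
      have h6 : (∏ i, d.t a i ^ (-s.ce Q i)) ^ p * (∏ i, d.t a i) ^ p =
          (∏ i, d.t a i ^ e i) * ∏ i, d.t a i ^ (1 - s.ce (p * Q) i) := by
        rw [← mul_pow, ← Finset.prod_mul_distrib, ← Finset.prod_mul_distrib, ← Finset.prod_pow]
        refine Finset.prod_congr rfl fun i _ => ?_
        rw [← zpow_add_one, ← zpow_natCast, ← zpow_mul, ← zpow_natCast, ← zpow_add, he]
        congr 1
        ring
      rw [hP.prod_tl, RD.sig, RD.tau, mul_pow, mul_mul_mul_comm, h5, h6, mul_left_comm]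
    refine ⟨(f * (((d.sig a Q)⁻¹ : (LA W₀ s.ρ)ˣ) : LA W₀ s.ρ)) ^ p * ∏ i, (d.t a i : LA W₀ s.ρ) ^ e i,
      d.B1_le_B ha (mul_mem (pow_mem (hf.2 a) _) (prod_mem fun i _ => pow_mem (hP.t_mem a i) _)), ?_⟩
    have h7 := congrArg Units.val h4
    simp only [Units.val_mul, Units.val_pow_eq_pow_val, Units.coe_prod] at h7
    rw [mul_assoc _ _ (d.tau a (p * Q) : LA W₀ s.ρ), ← h7, Finset.prod_pow,
      ← mul_assoc _ ((d.sig a Q : LA W₀ s.ρ) ^ p), ← mul_pow _ (d.sig a Q : LA W₀ s.ρ),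
      mul_assoc f, Units.inv_mul, mul_one, mul_assoc]
  · obtain ⟨c, hcS, hce⟩ := hc b hb l
    have h2 : ∃ e ∈ d.B κ σ, d.y a l ^ (p - 1) = (d.tl a l : LA W₀ s.ρ) ^ p * (e * ((d.tl a l)⁻¹ : (LA W₀ s.ρ)ˣ)) := by
      rcases hP.tl_cases a l with ⟨i, -, -, h3⟩ | ⟨-, h3⟩
      · refine ⟨1, one_mem _, ?_⟩
        obtain ⟨q, rfl⟩ : ∃ q, p = q + 1 := ⟨p - 1, by omega⟩
        rw [← h3, one_mul, pow_succ, mul_assoc, Units.mul_inv, mul_one, Nat.add_sub_cancel]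
      · exact ⟨_, pow_mem (d.B1_le_B ha ((hP.het a).mem l)) (p - 1), by simp [h3]⟩
    obtain ⟨e, heS, he⟩ := h2
    refine ⟨_, add_mem (Submodule.smul_mem _ (⟨e, heS⟩ : d.B κ σ) (Submodule.subset_span ⟨l, rfl⟩))
      (hP.grad_mem ha hcS), ?_⟩
    funext k
    have h3 := congrFun (hH.h1 a l) k
    have h4 := congrArg (D k) hce
    simp only [map_sum, Derivation.leibniz, map_sub, v, Matrix.of_apply, ZZ_deriv_pow, mul_zero,
      add_zero, smul_eq_mul, mul_sub, Finset.sum_sub_distrib] at h4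
    simp only [Finset.sum_apply, Pi.smul_apply, zet, Pi.add_apply, smul_eq_mul, mul_add,
      Finset.sum_add_distrib, grad, he] at h3
    simp only [Finset.sum_apply, Pi.smul_apply, zet, Pi.add_apply, smul_eq_mul, mul_add,
      Finset.sum_add_distrib, grad, v, Matrix.of_apply, RD.theta, Subalgebra.smul_def]
    linear_combination h3 + h4
  · obtain ⟨c1, g1, g2⟩ := hc b hb l
    obtain ⟨c2, g3, g4⟩ := hc c hc' l
    refine ⟨c1 - c2, sub_mem g1 g3, ?_⟩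
    rw [mul_sub, ← g2, ← g4, ← Finset.sum_sub_distrib]
    exact Finset.sum_congr rfl fun i _ => by ring

/-- Apply `zigzag` to `c σ = prF (p Q • δ) (f ^ p • alt 1 σ)` and the lattices `LG`
(`prF_dd`, `prF_mem_LB`, `cdel_comp`). `top ω` has degree `(p Q - 1) • δ` (`top_deg`), and
`Φ (top (c {a₀})) = pr ((Q - 1) • δ) (± n! f) = ± n! f` (`top_prF`, `IsCar.pr_comm`). -/
theorem Good.zz (h : d.Good κ D) {hh : Fin s.m → Fin n → LA W₀ s.ρ} (hH : d.HD p D hh)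
    {Φ : LA W₀ s.ρ →+ LA W₀ s.ρ} (hΦ : IsCar p (d.y s.a0) Φ) (hn : n < p) {Q : ℕ}
    (hex : ∀ k, 1 ≤ k → CExact (fun σ => (d.LG D (p * Q) σ : Set (Fm (LA W₀ s.ρ) n))) k)
    {f : LA W₀ s.ρ} (hf : f ∈ d.Gam κ Q) : ∃ f' ∈ d.Gam κ (p * Q), Φ f' = f := by
  have hg : grad D (f ^ p) = 0 := funext fun i => ZZ_deriv_pow (D i) f
  obtain ⟨ω, hω, η, hη⟩ := zigzag (dd D) (dd_dd h.commD)
    (fun σ => (d.LG D (p * Q) σ).toAddSubgroup)
    (fun σ hσ w hw => ⟨h.dd_mem_LB Q hσ hw.1, by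
      have h1 := prF_dd h.dD (((p * Q : ℕ) : ℤ) • s.δ) w
      rw [prF_eq_self hw.2] at h1
      rw [← h1]
      exact prF_mem_Fdeg _ _⟩) hex
    (fun σ => prF s.dx (((p * Q : ℕ) : ℤ) • s.δ)
      (f ^ p • alt (fun a => zet p D (d.y s.a0) (hh a)) hh 1 σ))
    (fun σ hσ => ⟨h.toAmb.prF_mem_LB _ hσ _ (h.alt_mem_LB hH hf hσ), prF_mem_Fdeg _ _⟩)
    (fun σ _ => by
      have h1 := cdel_comp (DistribSMul.toAddMonoidHom (Fm (LA W₀ s.ρ) n) (f ^ p))
        (alt (fun a => zet p D (d.y s.a0) (hh a)) hh 1) σ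
      simp only [DistribSMul.toAddMonoidHom_apply] at h1
      rw [← prF_dd h.dD, cdel_comp, ← map_zsmul]
      congr 1
      rw [dd_smul, hg, alt_cocycle h.commD h.hdual, h1, smul_comm]
      simp [wedge]) s.a0
  obtain ⟨ε, hε, htop⟩ := alt_top (fun a => zet p D (d.y s.a0) (hh a)) hh s.a0
  have h1 : Φ (top ω) = (ε * n.factorial : ℤ) • f := by
    have h2 : top ω = top (prF s.dx (((p * Q : ℕ) : ℤ) • s.δ)
        (f ^ p • alt (fun a => zet p D (d.y s.a0) (hh a)) hh 1 {s.a0})) + top (dd D η) := by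
      rw [hη]
      rfl
    have h3 : top (f ^ p • alt (fun a => zet p D (d.y s.a0) (hh a)) hh 1 {s.a0}) =
        f ^ p * top (alt (fun a => zet p D (d.y s.a0) (hh a)) hh 1 {s.a0}) := rfl
    have h4 : ((p * Q : ℕ) : ℤ) • s.δ - ∑ i, s.dx i =
        (p : ℤ) • (((Q : ℤ) - 1) • s.δ) + ((p : ℤ) - 1) • ∑ i, s.dx i := by
      rw [GShp.δ]
      push_cast
      module
    rw [h2, map_add, hΦ.apply_top_dd (h.etc_top _) h.hdual, add_zero, top_prF, h4,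
      hΦ.pr_comm (h.etc_top _) h.dx, h3, hΦ.1, htop, map_zsmul,
      hΦ.apply_det_zet (h.etc_top _) h.hdual, mul_smul_comm, mul_one, map_zsmul,
      isDeg_iff.1 hf.1]
  obtain ⟨u, v, huv⟩ : IsCoprime (p : ℤ) (n.factorial : ℤ) := Nat.isCoprime_iff_coprime.2
    ((Nat.Prime.coprime_iff_not_dvd Fact.out).2 fun h2 =>
      not_le.2 hn ((Nat.Prime.dvd_factorial Fact.out).1 h2))
  refine ⟨(ε * v) • top ω, ⟨IsDeg.zsmul ?_ _, fun a => ?_⟩, ?_⟩
  · have h2 := top_deg (hω s.a0).2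
    rwa [sub_smul, one_smul]
  · have h2 : ω ∈ d.LB D (p * Q) {a} := (hω a).1
    rw [h.toAmb.LB_eq _ (Finset.mem_singleton_self a), B_single] at h2
    obtain ⟨b, hb, e⟩ := top_mem_lat h2
    rw [e, h.toAmb.tau_mul_det, smul_mul_assoc, mul_assoc, Units.mul_inv, mul_one]
    exact zsmul_mem hb _
  · have h2 := congrArg (Int.cast : ℤ → LA W₀ s.ρ) huv
    have h3 : (ε : LA W₀ s.ρ) * ε = 1 := by rcases hε with rfl | rfl <;> simp
    push_cast at h2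
    rw [ZZ_cast (p := p) κ (LA W₀ s.ρ), mul_zero, zero_add] at h2
    rw [map_zsmul, h1, zsmul_eq_mul, zsmul_eq_mul]
    push_cast
    linear_combination f * (v * n.factorial) * h3 + f * h2

end GD

end

end Pool.Agent.Lib.MP_4287a9_ag
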