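import Pool.Agent.Lib.MP_4287a9_ag.CArgB
import Pool.Agent.Lib.MP_4287a9_ag.ZZ

/-!
Strong F-regularity of the base ring in characteristic `p`.
-/

open scoped TensorProduct ENNReal NNReal nonZeroDivisors Polynomial
open Filter

namespace Pool.Agent.Lib.MP_4287a9_ag

noncomputable section

variable {p : ℕ} [Fact p.Prime] {n : ℕ} {s : Shp n} {W : Type} [CommRing W] {d : RD s W}
  {κ : Type} [Field κ] [Finite κ] [CharP κ p] [Algebra κ W] {D : Fin n → Derivation κ W W}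

namespace RD

/-- Pigeonhole gives `e₁ ^ K v = z w₁`, `e₂ ^ K v = z w₂` with `w₁, w₂ ∈ T`; cancel `z`; powers of
a regular sequence are regular, so `w₁ ∈ e₁ ^ K T`; `e₁` is a unit of `W`. -/
theorem Good.hartogs_list (h : d.Good κ D) {z v : W} (hz : z ∈ W⁰)
    (hv : ∀ i, ∃ k : ℕ, ∃ w ∈ d.T κ, d.e i ^ k * v = z * w) : ∃ w ∈ d.T κ, v = z * w := by
  let I : Ideal (d.T κ) :=
    { carrier := {t | ∃ w ∈ d.T κ, (t : W) * v = z * w}
      add_mem' := by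
        rintro a b ⟨w, hw, ha⟩ ⟨w', hw', hb⟩
        refine ⟨w + w', add_mem hw hw', ?_⟩
        rw [Subalgebra.coe_add, add_mul, ha, hb, mul_add]
      zero_mem' := ⟨0, zero_mem _, by simp⟩
      smul_mem' := by
        rintro c x ⟨w, hw, hx⟩
        refine ⟨c * w, mul_mem c.2 hw, ?_⟩
        rw [smul_eq_mul, Subalgebra.coe_mul, mul_assoc, hx, mul_left_comm] }
  have hsp : ∀ x ∈ d.sp κ d.e, x ∈ d.T κ ∧ ∃ k : ℕ, ∃ w ∈ d.T κ, x ^ k * v = z * w := by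
    have hle : d.sp κ d.e ≤ Submodule.map (Algebra.linearMap (d.T κ) W) I.radical := by
      refine Submodule.span_le.2 ?_
      rintro _ ⟨i, rfl⟩
      obtain ⟨k, w, hw, hk⟩ := hv i
      exact ⟨⟨d.e i, h.eT i⟩, ⟨k, w, hw, hk⟩, rfl⟩
    intro x hx
    obtain ⟨t, ⟨k, w, hw, hk⟩, rfl⟩ := hle hx
    exact ⟨t.2, k, w, hw, hk⟩
  obtain ⟨h1, k1, w1, hw1, e1⟩ := hsp _ h.he1
  obtain ⟨h2, k2, w2, hw2, e2⟩ := hsp _ h.he2
  have r1 : ∀ w ∈ d.T κ, (∃ v ∈ d.T κ, d.e2 * w = d.e1 * v) → ∃ v ∈ d.T κ, w = d.e1 * v := by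
    intro w hw hx
    obtain ⟨b, hb, v', hv', e⟩ := h.hreg w hw hx
    refine ⟨b⁻¹ • v', Subalgebra.smul_mem _ hv' _, ?_⟩
    rw [mul_smul_comm, ← e, smul_smul, inv_mul_cancel₀ hb, one_smul]
  have r2 : ∀ k : ℕ, ∀ w ∈ d.T κ, (∃ v ∈ d.T κ, d.e2 ^ k * w = d.e1 * v) →
      ∃ v ∈ d.T κ, w = d.e1 * v := by
    intro k
    induction k with
    | zero => intro w _ hx; simpa using hx
    | succ k ih =>
      intro w hw hx
      refine ih w hw (r1 _ (mul_mem (pow_mem h2 k) hw) ?_)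
      rwa [← mul_assoc, ← pow_succ']
  have r3 : ∀ k : ℕ, ∀ w ∈ d.T κ, (∃ v ∈ d.T κ, d.e2 ^ k2 * w = (d.e1 : W) ^ k * v) →
      ∃ v ∈ d.T κ, w = (d.e1 : W) ^ k * v := by
    intro k
    induction k with
    | zero => intro w hw _; exact ⟨w, hw, by simp⟩
    | succ k ih =>
      rintro w hw ⟨v', hv', e⟩
      obtain ⟨w', hw', rfl⟩ := r2 k2 w hw ⟨(d.e1 : W) ^ k * v', mul_mem (pow_mem h1 k) hv', by
        rw [e]; ring⟩
      obtain ⟨v'', hv'', e'⟩ := ih w' hw' ⟨v', hv', d.e1.isUnit.mul_left_cancel (by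
        rw [mul_left_comm, e]; ring)⟩
      exact ⟨v'', hv'', by rw [e']; ring⟩
  have e3 : d.e2 ^ k2 * w1 = (d.e1 : W) ^ k1 * w2 := by
    refine (mul_cancel_left_mem_nonZeroDivisors hz).1 ?_
    rw [mul_left_comm, ← e1, mul_left_comm z, ← e2]
    ring
  obtain ⟨w, hw, e4⟩ := r3 k1 w1 hw1 ⟨w2, hw2, e3⟩
  refine ⟨w, hw, (d.e1.isUnit.pow k1).mul_left_cancel ?_⟩
  rw [e1, e4]
  ring

theorem Good.h3_div (h : d.Good κ D) {Φ : W →+ W} (hΦ : ∀ w z, Φ (w ^ p * z) = w * Φ z)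
    (hch : ∀ a, IsCar p (d.y a) (Φ.comp (AddMonoidHom.mulLeft ((d.j a : W) ^ (p - 1)))))
    {e J : ℕ} (he : p ^ e = 1 + J * s.N) {z y : W} (hz : z ∈ W⁰)
    (hy : ∀ x ∈ d.sp κ d.dg ^ (s.M * J), ∃ w ∈ d.T κ, y * x = z ^ p ^ e * w) :
    ∃ w ∈ d.T κ, Φ^[e] ((d.u : W) ^ J * y) = z * w := by
  refine h.hartogs_list hz fun i => ?_
  obtain ⟨k, hk⟩ := h.hed i
  have hk' := Submodule.pow_mem_pow _ hk J
  rw [← pow_mul] at hk'
  obtain ⟨w, hw, ew⟩ := hy _ hk'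
  have hS : ∀ m : ℕ, ∀ x ∈ d.S1 κ (s.ch i),
      (Φ.comp (AddMonoidHom.mulLeft ((d.j (s.ch i) : W) ^ (p - 1))))^[m] x ∈ d.S1 κ (s.ch i) := by
    intro m
    induction m with
    | zero => exact fun x hx => hx
    | succ m ih =>
      intro x hx
      rw [Function.iterate_succ_apply']
      exact (hch _).maps_to (h.het _) (ih x hx)
  have h1 := hS e _ (d.T_le_S1 (s.ch i) (mul_mem (pow_mem (h.eT i) (k * J * (J * s.N))) hw))
  rw [iterate_twist (Fact.out : p.Prime).pos hΦ] at h1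
  obtain ⟨k', hk'⟩ := h.heS i _ h1
  refine ⟨k' + k * J, _, hk', ?_⟩
  have hq : p ^ e - 1 = J * s.N := by omega
  have hj : (((d.j (s.ch i))⁻¹ : Wˣ) : W) ^ (J * s.N) * (d.j (s.ch i) : W) ^ (J * s.N) = 1 := by
    rw [← mul_pow, Units.inv_mul, one_pow]
  have e1 : (d.e i ^ (k * J)) ^ p ^ e * ((d.u : W) ^ J * y) = z ^ p ^ e *
      ((d.j (s.ch i) : W) ^ (p ^ e - 1) * (d.e i ^ (k * J * (J * s.N)) * w)) := by
    rw [hq]
    simp only [Units.val_mul, Units.val_pow_eq_pow_val] at ew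
    have e2 : (d.e i ^ (k * J)) ^ p ^ e = d.e i ^ (k * J) * d.e i ^ (k * J * (J * s.N)) := by
      rw [he]; ring
    rw [e2]
    linear_combination
      ((d.j (s.ch i) : W) ^ (J * s.N) * d.e i ^ (k * J * (J * s.N))) * ew -
        (d.e i ^ (k * J) * d.e i ^ (k * J * (J * s.N)) * ((d.u : W) ^ J * y)) * hj
  rw [pow_add, mul_assoc, ← iterate_lin hΦ e, e1, iterate_lin hΦ e, mul_left_comm]

/-- Let `q = 1 + J N`, so `(q - 1) / r = J M`. If `y 𝔡 ^ (J M) ⊆ z ^ q T` then for each `i`, with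
`a = ch i`, `y e ^ (k J) u ^ J j ^ (-(q - 1)) = z ^ q w`, so a power of `e` times
`Φ ^ e (u ^ J y)` is in `z * Φ_a ^ e (T) ⊆ z S1 a` (`iterate_twist`, `IsCar.maps_to`), and
another power of `e` moves it to `z T`. The case `z = 1` shows that `T` is preserved. -/
theorem Good.exists_cart (h : d.Good κ D) {Φ : W →+ W} (hΦ : ∀ w z, Φ (w ^ p * z) = w * Φ z)
    (hch : ∀ a, IsCar p (d.y a) (Φ.comp (AddMonoidHom.mulLeft ((d.j a : W) ^ (p - 1)))))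
    {e J : ℕ} (he : p ^ e = 1 + J * s.N) :
    ∃ φ : d.T κ →+ d.T κ, IsCart (d.idl κ d.dg) s.r (p ^ e) φ ∧
      ∀ y : d.T κ, (φ y : W) = Φ^[e] ((d.u : W) ^ J * y) := by
  have hT : ∀ y : d.T κ, Φ^[e] ((d.u : W) ^ J * y) ∈ d.T κ := fun y => by
    obtain ⟨w, hw, ew⟩ := h.h3_div hΦ hch he (one_mem W⁰) (y := y) fun x hx =>
      ⟨y * x, mul_mem y.2 (d.mem_T_of_mem_sp_pow h.dT _ hx), by rw [one_pow, one_mul]⟩
    rwa [ew, one_mul]
  let φ : d.T κ →+ d.T κ :=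
    { toFun := fun y => ⟨_, hT y⟩
      map_zero' := Subtype.ext (by simp [iterate_map_zero])
      map_add' := fun x y => Subtype.ext (by simp [mul_add, iterate_map_add]) }
  have hφ : ∀ y : d.T κ, (φ y : W) = Φ^[e] ((d.u : W) ^ J * y) := fun _ => rfl
  refine ⟨φ, ⟨fun w y => Subtype.ext ?_, fun z hz y hy => ?_⟩, hφ⟩
  · rw [hφ, Subalgebra.coe_mul, Subalgebra.coe_mul, Subalgebra.coe_pow, hφ, mul_left_comm,
      iterate_lin hΦ]
  · have hq : (p ^ e - 1) / s.r = s.M * J := by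
      have h1 : p ^ e - 1 = s.r * (s.M * J) := by
        rw [he, Nat.add_sub_cancel_left, Shp.N]; ring
      rw [h1, Nat.mul_div_cancel_left _ h.hr]
    rw [hq] at hy
    obtain ⟨w, hw, ew⟩ := h.h3_div hΦ hch he (h.mem_nonZeroDivisors hz) (y := y) fun x hx => by
      have hxT := d.mem_T_of_mem_sp_pow h.dT _ hx
      obtain ⟨w, ew⟩ := hy ⟨x, hxT⟩ ((d.mem_idl_pow h.dT _ _).2 hx)
      exact ⟨w, w.2, congrArg Subtype.val ew⟩
    exact ⟨⟨w, hw⟩, Subtype.ext ew⟩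

/-- Apply `c_arg` to `c g ^ k` (`k` from `gam_bound`) with `J₀` so large that
`a₁ (J - j₂) ≥ ⌈t J N⌉` and `J ≥ 1`; `a = g ^ k γ / u ^ J ∈ 𝔟 ^ (J - j₂) ⊆ 𝔞 ^ (a₁ (J - j₂))`. -/
theorem Good.sfri (h : d.Good κ D) {hh : Fin s.m → Fin n → W} (hH : d.HD p D hh) (hn : n < p)
    (hN : Nat.Coprime p s.N)
    (hex : ∀ q, p ≤ q → ∀ k, 1 ≤ k → CExact (fun σ => (d.LL D q σ : Set (Fm W n))) k)
    {t : ℝ≥0} (ht : (t : ℝ) * s.N < s.a1) :
    SFRi p (d.idl κ d.dg) s.r (d.idl κ d.ag) t := by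
  intro c hc
  have hp := (Fact.out : p.Prime).pos
  obtain ⟨Φ, hΦ⟩ := EtC.exists_isCar (p := p) (h.etc_top s.a0)
  have hch : ∀ a, IsCar p (d.y a) (Φ.comp (AddMonoidHom.mulLeft ((d.j a : W) ^ (p - 1)))) :=
    fun a => hΦ.chart (h.etc_top s.a0) h.hdual (h.hdet a) (hH.h1 a)
  have hzz : ∀ e : ℕ, ∀ f ∈ d.Gam κ (p ^ e), ∃ f' ∈ d.Gam κ (p ^ (e + 1)), Φ f' = f := by
    intro e f hf
    rw [pow_succ']
    exact h.zz hH hΦ hn (hex _ (Nat.le_mul_of_pos_right _ (pow_pos hp e))) hf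
  obtain ⟨j2, k, hb⟩ := h.gam_bound
  have hδ : 0 < (s.a1 : ℝ) - t * s.N := by linarith
  obtain ⟨e, J, hJ, he, γ, hγ, h1⟩ := h.c_arg hΦ.1 hch hzz hN
    (c := (c : W) * (d.g : W) ^ k) (mul_mem c.2 (pow_mem h.gT k))
    (mul_mem (h.mem_nonZeroDivisors hc) (pow_mem d.g.isUnit.mem_nonZeroDivisors k))
    (j2 + 1 + ⌈(s.a1 : ℝ) * j2 / (s.a1 - t * s.N)⌉₊)
  have hN0 : 0 < s.N := Nat.mul_pos h.hr h.hM
  have ha := hb J (by omega) γ (by rw [← he]; exact hγ)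
  have ha2 := pow_le_pow_left' h.ha (J - j2) ha
  rw [← pow_mul] at ha2
  have haT := d.mem_T_of_mem_sp_pow h.aT _ ha2
  obtain ⟨φ, hφ, hφe⟩ := h.exists_cart hΦ.1 hch he
  refine ⟨e, ?_, ?_, ⟨_, haT⟩, ?_, φ, hφ, Subtype.ext ?_⟩
  · refine Nat.pos_of_ne_zero fun h0 => ?_
    rw [h0, pow_zero] at he
    have h2 : 0 < J * s.N := Nat.mul_pos (by omega) hN0
    omega
  · rw [he, Nat.add_sub_cancel_left, Shp.N]
    exact ⟨s.M * J, by ring⟩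
  · refine Ideal.pow_le_pow_right ?_ ((d.mem_idl_pow h.aT _ _).2 ha2)
    rw [Nat.ceil_le]
    have h2 : ((p : ℝ)) ^ e - 1 = J * s.N := by
      have h3 : ((p ^ e : ℕ) : ℝ) = ((1 + J * s.N : ℕ) : ℝ) := by rw [he]
      push_cast at h3
      linarith
    have h3 : (s.a1 : ℝ) * j2 / (s.a1 - t * s.N) ≤ J :=
      (Nat.le_ceil _).trans (Nat.cast_le.2 (by omega))
    rw [div_le_iff₀ hδ] at h3
    rw [h2, Nat.cast_mul, Nat.cast_sub (by omega)]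
    linarith
  · rw [hφe, Subalgebra.coe_mul, Subalgebra.coe_one, ← h1]
    congr 1
    have hu : (d.u : W) ^ J * ((d.u⁻¹ : Wˣ) : W) ^ J = 1 := by
      rw [← mul_pow, Units.mul_inv, one_pow]
    simp only [Units.val_pow_eq_pow_val]
    linear_combination ((c : W) * (d.g : W) ^ k * γ) * hu

end RD

end

end Pool.Agent.Lib.MP_4287a9_ag
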