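import Pool.Agent.Lib.MP_4287a9_ag.GCB
import Pool.Agent.Lib.MP_4287a9_ag.GZZ
import Pool.Agent.Lib.MP_4287a9_ag.H3

/-!
Strong F-regularity of the degree zero ring (compare `H3`).
-/

open scoped TensorProduct ENNReal NNReal nonZeroDivisors Polynomial
open Filter

namespace Pool.Agent.Lib.MP_4287a9_ag

noncomputable section

variable {p : ℕ} [Fact p.Prime] {n : ℕ} {s : GShp n} {W₀ : Type} [CommRing W₀] {d : GD s W₀}
  {κ : Type} [Field κ] [Finite κ] [CharP κ p] [Algebra κ W₀]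
  {D : Fin n → Derivation κ (LA W₀ s.ρ) (LA W₀ s.ρ)}

namespace GD

theorem Good.hartogs_list (h : d.Good κ D) {z v : LA W₀ s.ρ} (hz : z ∈ (LA W₀ s.ρ)⁰)
    (hv : ∀ i, ∃ k : ℕ, ∃ w ∈ d.T κ, d.e i ^ k * v = z * w) : ∃ w ∈ d.T κ, v = z * w := by
  let I : Ideal (d.T κ) :=
    { carrier := {t | ∃ w ∈ d.T κ, (t : LA W₀ s.ρ) * v = z * w}
      add_mem' := by
        rintro a b ⟨w, hw, ha⟩ ⟨w', hw', hb⟩
        refine ⟨w + w', add_mem hw hw', ?_⟩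
        rw [Subalgebra.coe_add, add_mul, ha, hb, mul_add]
      zero_mem' := ⟨0, zero_mem _, by simp⟩
      smul_mem' := by
        rintro c x ⟨w, hw, hx⟩
        refine ⟨c * w, mul_mem c.2 hw, ?_⟩
        rw [smul_eq_mul, Subalgebra.coe_mul, mul_assoc, hx, mul_left_comm] }
  have hsp : ∀ x ∈ d.sp κ d.e, x ∈ d.T κ ∧ ∃ k : ℕ, ∃ w ∈ d.T κ, x ^ k * v = z * w := by
    have hle : d.sp κ d.e ≤ Submodule.map (Algebra.linearMap (d.T κ) (LA W₀ s.ρ)) I.radical := by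
      refine Submodule.span_le.2 ?_
      rintro _ ⟨i, rfl⟩
      obtain ⟨k, w, hw, hk⟩ := hv i
      exact ⟨⟨d.e i, h.eT i⟩, ⟨k, w, hw, hk⟩, rfl⟩
    intro x hx
    obtain ⟨t, ⟨k, w, hw, hk⟩, rfl⟩ := hle hx
    exact ⟨t.2, k, w, hw, hk⟩
  obtain ⟨h1, k1, w1, hw1, e1⟩ := hsp _ h.he1
  obtain ⟨h2, k2, w2, hw2, e2⟩ := hsp _ h.he2
  have r1 : ∀ w ∈ d.T κ, (∃ v ∈ d.T κ, d.e2 * w = d.e1 * v) → ∃ v ∈ d.T κ, w = d.e1 * v := by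
    intro w hw hx
    obtain ⟨b, hb, v', hv', e⟩ := h.hreg w hw hx
    refine ⟨b⁻¹ • v', Subalgebra.smul_mem _ hv' _, ?_⟩
    rw [mul_smul_comm, ← e, smul_smul, inv_mul_cancel₀ hb, one_smul]
  have r2 : ∀ k : ℕ, ∀ w ∈ d.T κ, (∃ v ∈ d.T κ, d.e2 ^ k * w = d.e1 * v) →
      ∃ v ∈ d.T κ, w = d.e1 * v := by
    intro k
    induction k with
    | zero => intro w _ hx; simpa using hx
    | succ k ih =>
      intro w hw hx
      refine ih w hw (r1 _ (mul_mem (pow_mem h2 k) hw) ?_)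
      rwa [← mul_assoc, ← pow_succ']
  have r3 : ∀ k : ℕ, ∀ w ∈ d.T κ, (∃ v ∈ d.T κ, d.e2 ^ k2 * w = (d.e1 : LA W₀ s.ρ) ^ k * v) →
      ∃ v ∈ d.T κ, w = (d.e1 : LA W₀ s.ρ) ^ k * v := by
    intro k
    induction k with
    | zero => intro w hw _; exact ⟨w, hw, by simp⟩
    | succ k ih =>
      rintro w hw ⟨v', hv', e⟩
      obtain ⟨w', hw', rfl⟩ := r2 k2 w hw ⟨(d.e1 : LA W₀ s.ρ) ^ k * v', mul_mem (pow_mem h1 k) hv', by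
        rw [e]; ring⟩
      obtain ⟨v'', hv'', e'⟩ := ih w' hw' ⟨v', hv', d.e1.isUnit.mul_left_cancel (by
        rw [mul_left_comm, e]; ring)⟩
      exact ⟨v'', hv'', by rw [e']; ring⟩
  have e3 : d.e2 ^ k2 * w1 = (d.e1 : LA W₀ s.ρ) ^ k1 * w2 := by
    refine (mul_cancel_left_mem_nonZeroDivisors hz).1 ?_
    rw [mul_left_comm, ← e1, mul_left_comm z, ← e2]
    ring
  obtain ⟨w, hw, e4⟩ := r3 k1 w1 hw1 ⟨w2, hw2, e3⟩
  refine ⟨w, hw, (d.e1.isUnit.pow k1).mul_left_cancel ?_⟩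
  rw [e1, e4]
  ring

theorem Good.gh3_div (h : d.Good κ D) {Φ : LA W₀ s.ρ →+ LA W₀ s.ρ}
    (hΦ : ∀ w z, Φ (w ^ p * z) = w * Φ z)
    (hpr : ∀ γ w, Φ (pr ((p : ℤ) • γ + ((p : ℤ) - 1) • s.δ) w) = pr γ (Φ w))
    (hE : ∀ i, IsCar p (d.yE i) (Φ.comp (AddMonoidHom.mulLeft ((d.jE i : LA W₀ s.ρ) ^ (p - 1)))))
    {e J : ℕ} (he : p ^ e = 1 + J * s.N) {z y : LA W₀ s.ρ} (hz : z ∈ (LA W₀ s.ρ)⁰)
    (hz0 : IsDeg 0 z) (hy0 : IsDeg 0 y)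
    (hy : ∀ x ∈ d.sp κ d.dg ^ (s.M * J), ∃ w ∈ d.T κ, y * x = z ^ p ^ e * w) :
    ∃ w ∈ d.T κ, Φ^[e] ((d.u : LA W₀ s.ρ) ^ J * y) = z * w := by
  have hv0 : IsDeg 0 (Φ^[e] ((d.u : LA W₀ s.ρ) ^ J * y)) := by
    have h1 := (h.du.pow J).mul hy0
    have h2 : (J : ℤ) • ((s.N : ℤ) • s.δ) + 0 =
        ((p : ℤ) ^ e) • (0 : Fin s.ρ → ℤ) + ((p : ℤ) ^ e - 1) • s.δ := by
      have h3 : (p : ℤ) ^ e - 1 = (J : ℤ) * s.N := by
        have h4 : ((p ^ e : ℕ) : ℤ) = ((1 + J * s.N : ℕ) : ℤ) := by rw [he]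
        push_cast at h4
        linarith
      rw [h3, smul_zero, zero_add, add_zero, mul_smul]
    rw [h2, isDeg_iff] at h1
    rw [isDeg_iff, ← iterate_pr_comm hpr e 0, h1]
  refine h.hartogs_list hz fun i => ?_
  obtain ⟨k, hk⟩ := h.hed i
  have hk' := Submodule.pow_mem_pow _ hk J
  rw [← pow_mul] at hk'
  obtain ⟨w, hw, ew⟩ := hy _ hk'
  have hle : d.T κ ≤ d.SE κ i :=
    Algebra.adjoin_mono (Set.subset_union_left.trans Set.subset_union_left)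
  have hS : ∀ m : ℕ, ∀ x ∈ d.SE κ i,
      (Φ.comp (AddMonoidHom.mulLeft ((d.jE i : LA W₀ s.ρ) ^ (p - 1))))^[m] x ∈ d.SE κ i := by
    intro m
    induction m with
    | zero => exact fun x hx => hx
    | succ m ih =>
      intro x hx
      rw [Function.iterate_succ_apply']
      exact (hE _).maps_to (h.hetE _) (ih x hx)
  have h1 := hS e _ (mul_mem (hle (pow_mem (h.eT i) (k * J * (J * s.N))))
    (mul_mem (pow_mem (h.hwE i) J) (hle hw)))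
  rw [iterate_twist (Fact.out : p.Prime).pos hΦ] at h1
  obtain ⟨k', hk'⟩ := h.exists_pow_e i (h.isGr_SE i 0 _ h1) (isDeg_pr 0 _)
  refine ⟨k' + k * J, _, hk', ?_⟩
  have hq : p ^ e - 1 = J * s.N := by omega
  have hj : (((d.jE i)⁻¹ : (LA W₀ s.ρ)ˣ) : LA W₀ s.ρ) ^ (J * s.N) *
      (d.jE i : LA W₀ s.ρ) ^ (J * s.N) = 1 := by
    rw [← mul_pow, Units.inv_mul, one_pow]
  have hw1 : (((d.wE i)⁻¹ : (LA W₀ s.ρ)ˣ) : LA W₀ s.ρ) ^ J * (d.wE i : LA W₀ s.ρ) ^ J = 1 := by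
    rw [← mul_pow, Units.inv_mul, one_pow]
  have e1 : (d.e i ^ (k * J)) ^ p ^ e * ((d.u : LA W₀ s.ρ) ^ J * y) = z ^ p ^ e *
      ((d.jE i : LA W₀ s.ρ) ^ (p ^ e - 1) * (d.e i ^ (k * J * (J * s.N)) *
        ((((d.wE i)⁻¹ : (LA W₀ s.ρ)ˣ) : LA W₀ s.ρ) ^ J * w))) := by
    rw [hq]
    simp only [Units.val_mul, Units.val_pow_eq_pow_val] at ew
    have e2 : (d.e i ^ (k * J)) ^ p ^ e = d.e i ^ (k * J) * d.e i ^ (k * J * (J * s.N)) := by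
      rw [he]; ring
    rw [e2]
    linear_combination
      ((d.jE i : LA W₀ s.ρ) ^ (J * s.N) * d.e i ^ (k * J * (J * s.N)) *
        (((d.wE i)⁻¹ : (LA W₀ s.ρ)ˣ) : LA W₀ s.ρ) ^ J) * ew -
        (d.e i ^ (k * J) * d.e i ^ (k * J * (J * s.N)) * ((d.u : LA W₀ s.ρ) ^ J * y)) * hw1 -
        (d.e i ^ (k * J) * d.e i ^ (k * J * (J * s.N)) * ((d.u : LA W₀ s.ρ) ^ J * y) *
          ((((d.wE i)⁻¹ : (LA W₀ s.ρ)ˣ) : LA W₀ s.ρ) ^ J * (d.wE i : LA W₀ s.ρ) ^ J)) * hj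
  have e3 : d.e i ^ (k * J) * Φ^[e] ((d.u : LA W₀ s.ρ) ^ J * y) =
      Φ^[e] ((d.jE i : LA W₀ s.ρ) ^ (p ^ e - 1) * (d.e i ^ (k * J * (J * s.N)) *
        ((((d.wE i)⁻¹ : (LA W₀ s.ρ)ˣ) : LA W₀ s.ρ) ^ J * w))) * z := by
    rw [← iterate_lin hΦ e, e1, iterate_lin hΦ e, mul_comm]
  have h5 := (h.deg_T (pow_mem (h.eT i) (k * J))).mul hv0
  rw [isDeg_iff] at h5
  have h6 := congrArg (pr (0 + 0)) e3
  rw [h5, pr_mul_deg hz0] at h6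
  rw [pow_add, mul_assoc, h6]
  ring

/-- `v = Φ ^ e (u ^ J y)` has degree zero (`iterate_pr_comm`). With `Ψ` the Cartier operator of
`yE i` (`hE`), `e ^ (k J) u ^ J jE ^ (-(q - 1)) y = wE ^ (-J) z ^ q w`, so a power of `e` times `v`
is `z s'` with `s' ∈ SE i` (`iterate_twist`, `IsCar.maps_to`); apply `pr 0` (`isGr_SE`) and
`exists_pow_e`. -/
theorem Good.exists_cart (h : d.Good κ D) {Φ : LA W₀ s.ρ →+ LA W₀ s.ρ}
    (hΦ : ∀ w z, Φ (w ^ p * z) = w * Φ z)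
    (hpr : ∀ γ w, Φ (pr ((p : ℤ) • γ + ((p : ℤ) - 1) • s.δ) w) = pr γ (Φ w))
    (hE : ∀ i, IsCar p (d.yE i) (Φ.comp (AddMonoidHom.mulLeft ((d.jE i : LA W₀ s.ρ) ^ (p - 1)))))
    {e J : ℕ} (he : p ^ e = 1 + J * s.N) :
    ∃ φ : d.T κ →+ d.T κ, IsCart (d.idl κ d.dg) s.r (p ^ e) φ ∧
      ∀ y : d.T κ, (φ y : LA W₀ s.ρ) = Φ^[e] ((d.u : LA W₀ s.ρ) ^ J * y) := by
  have hT : ∀ y : d.T κ, Φ^[e] ((d.u : LA W₀ s.ρ) ^ J * y) ∈ d.T κ := fun y => by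
    obtain ⟨w, hw, ew⟩ := h.gh3_div hΦ hpr hE he (one_mem (LA W₀ s.ρ)⁰) isDeg_one
      (h.deg_T y.2) fun x hx =>
      ⟨y * x, mul_mem y.2 (d.mem_T_of_mem_sp_pow h.dT _ hx), by rw [one_pow, one_mul]⟩
    rwa [ew, one_mul]
  let φ : d.T κ →+ d.T κ :=
    { toFun := fun y => ⟨_, hT y⟩
      map_zero' := Subtype.ext (by simp [iterate_map_zero])
      map_add' := fun x y => Subtype.ext (by simp [mul_add, iterate_map_add]) }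
  have hφ : ∀ y : d.T κ, (φ y : LA W₀ s.ρ) = Φ^[e] ((d.u : LA W₀ s.ρ) ^ J * y) := fun _ => rfl
  refine ⟨φ, ⟨fun w y => Subtype.ext ?_, fun z hz y hy => ?_⟩, hφ⟩
  · rw [hφ, Subalgebra.coe_mul, Subalgebra.coe_mul, Subalgebra.coe_pow, hφ, mul_left_comm,
      iterate_lin hΦ]
  · have hq : (p ^ e - 1) / s.r = s.M * J := by
      have h1 : p ^ e - 1 = s.r * (s.M * J) := by
        rw [he, Nat.add_sub_cancel_left, Shp.N]; ring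
      rw [h1, Nat.mul_div_cancel_left _ h.hr]
    rw [hq] at hy
    obtain ⟨w, hw, ew⟩ := h.gh3_div hΦ hpr hE he (h.mem_nonZeroDivisors hz) (h.deg_T z.2)
      (h.deg_T y.2) fun x hx => by
      have hxT := d.mem_T_of_mem_sp_pow h.dT _ hx
      obtain ⟨w, ew⟩ := hy ⟨x, hxT⟩ ((d.mem_idl_pow h.dT _ _).2 hx)
      exact ⟨w, w.2, congrArg Subtype.val ew⟩
    exact ⟨⟨w, hw⟩, Subtype.ext ew⟩

/-- As `RD.Good.sfri`, with `IsCar.chart_any` and `IsCar.pr_comm`. -/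
theorem Good.sfri (h : d.Good κ D) {hh : Fin s.m → Fin n → LA W₀ s.ρ} (hH : d.HD p D hh)
    (hn : n < p) (hN : Nat.Coprime p s.N)
    (hex : ∀ q, p ≤ q → ∀ k, 1 ≤ k →
      CExact (fun σ => (d.LG D q σ : Set (Fm (LA W₀ s.ρ) n))) k)
    {t : ℝ≥0} (ht : (t : ℝ) * s.N < s.a1) :
    SFRi p (d.idl κ d.dg) s.r (d.idl κ d.ag) t := by
  intro c hc
  have hp := (Fact.out : p.Prime).pos
  obtain ⟨Φ, hΦ⟩ := EtC.exists_isCar (p := p) (h.etc_top s.a0)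
  have hch : ∀ a, IsCar p (d.y a) (Φ.comp (AddMonoidHom.mulLeft ((d.j a : LA W₀ s.ρ) ^ (p - 1)))) :=
    fun a => hΦ.chart_any (h.etc_top s.a0) h.hdual (h.hdet a)
  have hE : ∀ i, IsCar p (d.yE i)
      (Φ.comp (AddMonoidHom.mulLeft ((d.jE i : LA W₀ s.ρ) ^ (p - 1)))) :=
    fun i => hΦ.chart_any (h.etc_top s.a0) h.hdual (h.hdetE i)
  have hpr : ∀ γ w, Φ (pr ((p : ℤ) • γ + ((p : ℤ) - 1) • s.δ) w) = pr γ (Φ w) :=
    fun γ w => hΦ.pr_comm (h.etc_top s.a0) h.dx γ w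
  have hzz : ∀ e : ℕ, ∀ f ∈ d.Gam κ (p ^ e), ∃ f' ∈ d.Gam κ (p ^ (e + 1)), Φ f' = f := by
    intro e f hf
    rw [pow_succ']
    exact h.zz hH hΦ hn (hex _ (Nat.le_mul_of_pos_right _ (pow_pos hp e))) hf
  obtain ⟨j2, k, hb⟩ := h.gam_bound
  have hδ : 0 < (s.a1 : ℝ) - t * s.N := by linarith
  obtain ⟨e, J, hJ, he, γ, hγ, h1⟩ := h.c_arg hΦ.1 hpr hch hzz hN
    (c := (c : LA W₀ s.ρ) * (d.g : LA W₀ s.ρ) ^ k) (mul_mem c.2 (pow_mem h.gT k))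
    (mul_mem (h.mem_nonZeroDivisors hc) (pow_mem d.g.isUnit.mem_nonZeroDivisors k))
    (j2 + 1 + ⌈(s.a1 : ℝ) * j2 / (s.a1 - t * s.N)⌉₊)
  have hN0 : 0 < s.N := Nat.mul_pos h.hr h.hM
  have ha := hb J (by omega) γ (by rw [← he]; exact hγ)
  have ha2 := pow_le_pow_left' h.ha (J - j2) ha
  rw [← pow_mul] at ha2
  have haT := d.mem_T_of_mem_sp_pow h.aT _ ha2
  obtain ⟨φ, hφ, hφe⟩ := h.exists_cart hΦ.1 hpr hE he
  refine ⟨e, ?_, ?_, ⟨_, haT⟩, ?_, φ, hφ, Subtype.ext ?_⟩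
  · refine Nat.pos_of_ne_zero fun h0 => ?_
    rw [h0, pow_zero] at he
    have h2 : 0 < J * s.N := Nat.mul_pos (by omega) hN0
    omega
  · rw [he, Nat.add_sub_cancel_left, Shp.N]
    exact ⟨s.M * J, by ring⟩
  · refine Ideal.pow_le_pow_right ?_ ((d.mem_idl_pow h.aT _ _).2 ha2)
    rw [Nat.ceil_le]
    have h2 : ((p : ℝ)) ^ e - 1 = J * s.N := by
      have h3 : ((p ^ e : ℕ) : ℝ) = ((1 + J * s.N : ℕ) : ℝ) := by rw [he]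
      push_cast at h3
      linarith
    have h3 : (s.a1 : ℝ) * j2 / (s.a1 - t * s.N) ≤ J :=
      (Nat.le_ceil _).trans (Nat.cast_le.2 (by omega))
    rw [div_le_iff₀ hδ] at h3
    rw [h2, Nat.cast_mul, Nat.cast_sub (by omega)]
    linarith
  · rw [hφe, Subalgebra.coe_mul, Subalgebra.coe_one, ← h1]
    congr 1
    have hu : (d.u : LA W₀ s.ρ) ^ J * ((d.u⁻¹ : (LA W₀ s.ρ)ˣ) : LA W₀ s.ρ) ^ J = 1 := by
      rw [← mul_pow, Units.mul_inv, one_pow]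
    simp only [Units.val_pow_eq_pow_val]
    linear_combination ((c : LA W₀ s.ρ) * (d.g : LA W₀ s.ρ) ^ k * γ) * hu

end GD

end

end Pool.Agent.Lib.MP_4287a9_ag
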