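import Pool.Agent.Lib.MP_4287a9_ag.H1a
import Pool.Agent.Lib.MP_4287a9_ag.Semi

/-!
Spreading out the link with the model.
-/

open scoped TensorProduct ENNReal NNReal nonZeroDivisors Polynomial
open Filter

namespace Pool.Agent.Lib.MP_4287a9_ag

noncomputable section

variable {B k : Type} [CommRing B] [Field k] [Algebra B k]

theorem ev_tensor {T : Type} [CommRing T] [Algebra B T] (x : k ⊗[B] T) :
    Ev B k fun Λ => ∃ x' : Λ ⊗[B] T, Algebra.TensorProduct.map Λ.val (AlgHom.id B T) x' = x := by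
  induction x using TensorProduct.induction_on with
  | zero => exact Ev.of_forall fun Λ => ⟨0, map_zero _⟩
  | tmul a t => exact (ev_mem a).mono fun Λ h => ⟨(⟨a, h⟩ : Λ) ⊗ₜ t, rfl⟩
  | add x y hx hy =>
    refine (hx.and hy).mono fun Λ h => ?_
    obtain ⟨⟨x', hx'⟩, y', hy'⟩ := h
    exact ⟨x' + y', by rw [map_add, hx', hy']⟩

theorem linka_torsion {Λ k M : Type} [CommRing Λ] [IsDomain Λ] [Field k] [Algebra Λ k]
    [FaithfulSMul Λ k] [AddCommGroup M] [Module Λ M] {x : M} (hx : (1 : k) ⊗ₜ[Λ] x = 0) :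
    ∃ b : Λ, b ≠ 0 ∧ b • x = 0 := by
  let _ : Algebra (FractionRing Λ) k := FractionRing.liftAlgebra Λ k
  have h1 : (1 : k) ⊗ₜ[FractionRing Λ] ((1 : FractionRing Λ) ⊗ₜ[Λ] x) = 0 := by
    apply (TensorProduct.AlgebraTensorModule.cancelBaseChange Λ (FractionRing Λ) k k M).injective
    rw [TensorProduct.AlgebraTensorModule.cancelBaseChange_tmul, one_smul, hx, map_zero]
  have h2 : TensorProduct.mk Λ (FractionRing Λ) M 1 x = 0 :=
    (Module.FaithfullyFlat.one_tmul_eq_zero_iff _ _ _).1 h1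
  obtain ⟨b, hb⟩ := (IsLocalizedModule.eq_zero_iff Λ⁰ _).1 h2
  exact ⟨b, nonZeroDivisors.coe_ne_zero b, hb⟩

theorem linka_torsion' {T Λ : Type} [CommRing T] [Algebra B T] [CommRing Λ] [IsDomain Λ]
    [Algebra B Λ] [Algebra Λ k] [IsScalarTower B Λ k] [FaithfulSMul Λ k] (x : Λ ⊗[B] T)
    (hx : Algebra.TensorProduct.map (IsScalarTower.toAlgHom B Λ k) (AlgHom.id B T) x = 0) :
    ∃ b : Λ, b ≠ 0 ∧ b • x = 0 := by
  have h1 : ∀ y : Λ ⊗[B] T, TensorProduct.AlgebraTensorModule.cancelBaseChange B Λ k k T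
      ((1 : k) ⊗ₜ[Λ] y) =
      Algebra.TensorProduct.map (IsScalarTower.toAlgHom B Λ k) (AlgHom.id B T) y := by
    intro y
    induction y using TensorProduct.induction_on with
    | zero => simp
    | tmul a t => simp [Algebra.smul_def]
    | add x y hx hy => rw [TensorProduct.tmul_add, map_add, map_add, hx, hy]
  refine linka_torsion (k := k) ?_
  apply (TensorProduct.AlgebraTensorModule.cancelBaseChange B Λ k k T).injective
  rw [h1, hx, map_zero]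

/-- The kernel of `Λ ⊗[B] T → k ⊗[B] T` is `Λ`-torsion: it factors through the localization at
the nonzero elements of `Λ`, followed by an injective map (flatness over a field). -/
theorem tensor_torsion {T : Type} [CommRing T] [Algebra B T] (Λ : Subalgebra B k) (x : Λ ⊗[B] T)
    (hx : Algebra.TensorProduct.map Λ.val (AlgHom.id B T) x = 0) :
    ∃ b : Λ, b ≠ 0 ∧ b • x = 0 := by
  have : FaithfulSMul Λ k := (faithfulSMul_iff_algebraMap_injective Λ k).2 Subtype.val_injective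
  exact linka_torsion' (k := k) x hx

theorem linka_span {T : Type} [CommRing T] [Algebra B T] {S : Set (k ⊗[B] T)} {x : k ⊗[B] T}
    (hx : x ∈ Ideal.span S) : Ev B k fun Λ => ∀ I : Ideal (Λ ⊗[B] T),
      (∀ y ∈ S, ∃ y' ∈ I, Algebra.TensorProduct.map Λ.val (AlgHom.id B T) y' = y) →
        ∃ x' ∈ I, Algebra.TensorProduct.map Λ.val (AlgHom.id B T) x' = x := by
  induction hx using Submodule.span_induction with
  | mem y hy => exact Ev.of_forall fun Λ I h => h y hy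
  | zero => exact Ev.of_forall fun Λ I _ => ⟨0, I.zero_mem, map_zero _⟩
  | add x y _ _ hx hy =>
    refine (hx.and hy).mono fun Λ h I hI => ?_
    obtain ⟨x', hx1, hx2⟩ := h.1 I hI
    obtain ⟨y', hy1, hy2⟩ := h.2 I hI
    exact ⟨x' + y', I.add_mem hx1 hy1, by rw [map_add, hx2, hy2]⟩
  | smul a x _ hx =>
    refine ((ev_tensor a).and hx).mono fun Λ h I hI => ?_
    obtain ⟨a', ha⟩ := h.1
    obtain ⟨x', hx1, hx2⟩ := h.2 I hI
    exact ⟨a' * x', I.mul_mem_left _ hx1, by rw [map_mul, ha, hx2, smul_eq_mul]⟩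

/-- Restriction of `ρ` to `Λ ⊗[B] T`. -/
def linkaRho {T W : Type} [CommRing T] [Algebra B T] [CommRing W] [Algebra k W]
    (ρ : k ⊗[B] T →ₐ[k] W) (Λ : Subalgebra B k) : Λ ⊗[B] T →ₐ[Λ] W where
  toRingHom := ρ.toRingHom.comp (Algebra.TensorProduct.map Λ.val (AlgHom.id B T)).toRingHom
  commutes' a := ρ.commutes a

theorem linkaRho_apply {T W : Type} [CommRing T] [Algebra B T] [CommRing W] [Algebra k W]
    (ρ : k ⊗[B] T →ₐ[k] W) (Λ : Subalgebra B k) (x : Λ ⊗[B] T) :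
    linkaRho ρ Λ x = ρ (Algebra.TensorProduct.map Λ.val (AlgHom.id B T) x) := rfl

theorem linka_surj {Λ P W : Type} [CommRing Λ] [CommRing P] [CommRing W] [Algebra Λ P]
    [Algebra Λ W] (ρ : P →ₐ[Λ] W) (f : P) {S : Set W}
    (hS : ∀ w ∈ S, ∃ (i : ℕ) (x : P), ρ f ^ i * w = ρ x) :
    ∀ w ∈ Algebra.adjoin Λ S, ∃ (i : ℕ) (x : P), ρ f ^ i * w = ρ x := by
  intro w hw
  induction hw using Algebra.adjoin_induction with
  | mem w hw => exact hS w hw
  | algebraMap a => exact ⟨0, algebraMap Λ P a, by rw [pow_zero, one_mul, ρ.commutes]⟩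
  | add v w _ _ hv hw =>
    obtain ⟨i, x, hx⟩ := hv
    obtain ⟨j, y, hy⟩ := hw
    refine ⟨i + j, f ^ j * x + f ^ i * y, ?_⟩
    rw [map_add, map_mul, map_mul, map_pow, map_pow, ← hx, ← hy]
    ring
  | mul v w _ _ hv hw =>
    obtain ⟨i, x, hx⟩ := hv
    obtain ⟨j, y, hy⟩ := hw
    refine ⟨i + j, x * y, ?_⟩
    rw [map_mul, ← hx, ← hy]
    ring

/-- `ρ'` is `ρ` composed with `Λ ⊗[B] T → k ⊗[B] T`. For large `Λ`: the range of `φ` lies in `Λ`;
`f`, and the elements expressing the generators `tg`, `dg`, `ag`, come from `Λ ⊗[B] T` (and from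
the right ideals); `ρ (1 ⊗ τ)` for generators `τ` of `T`, and `(ρ f)⁻¹`, lie in `T Λ`. For `ker`:
if `ρ' x = 0` then `f ^ i x` maps to zero in `k ⊗[B] T`. -/
theorem RD.Link.spread {T Λ₀ : Type} [CommRing T] [Algebra B T] [Algebra.FiniteType B T]
    [CommRing Λ₀] [Algebra B Λ₀] [Algebra.FiniteType B Λ₀] (φ : Λ₀ →ₐ[B] k) {n : ℕ} {s : Shp n}
    {W : Type} [CommRing W] [Algebra k W] {d : RD s W} {ρ : k ⊗[B] T →ₐ[k] W} {f : k ⊗[B] T}
    {𝔡 : Ideal T} {𝒥 : Ideal (Λ₀ ⊗[B] T)} (h : d.Link ρ f (ext B k 𝔡) (spk φ 𝒥)) :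
    Ev B k fun Λ => ∃ (φ' : Λ₀ →ₐ[B] Λ) (f' : Λ ⊗[B] T) (ρ' : Λ ⊗[B] T →ₐ[Λ] W),
      Λ.val.comp φ' = φ ∧ Algebra.TensorProduct.map Λ.val (AlgHom.id B T) f' = f ∧
        d.Link ρ' f' (ext B Λ 𝔡) (spk φ' 𝒥) := by
  have e1 : Ev B k fun Λ => ∀ y, φ y ∈ Λ :=
    ⟨(⊤ : Subalgebra B Λ₀).map φ, Algebra.FiniteType.out.map φ,
      fun Λ hΛ y => hΛ ⟨y, trivial, rfl⟩⟩
  obtain ⟨g, hg⟩ := Algebra.FiniteType.out (R := B) (A := T)
  have e2 : Ev B k fun Λ => ∀ τ : g, ρ (1 ⊗ₜ (τ : T)) ∈ d.T Λ :=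
    Ev.all fun τ => ev_adjoin _ (h.mem _)
  obtain ⟨w, hw, hw1⟩ := h.inv
  have e3 : Ev B k fun Λ => w ∈ d.T Λ := ev_adjoin _ hw
  choose m x hx using fun i => h.surj (d.tg i) (Algebra.subset_adjoin ⟨i, rfl⟩)
  have e4 := Ev.all fun i => ev_tensor (x i)
  choose y hy hy' using h.hd
  have e5 := Ev.all fun i => linka_span (hy i)
  choose z hz hz' using h.ha
  have e6 := Ev.all fun i => linka_span (hz i)
  refine ((((((e1.and e2).and e3).and e4).and e5).and e6).and (ev_tensor f)).mono fun Λ hΛ => ?_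
  obtain ⟨⟨⟨⟨⟨⟨a1, a2⟩, a3⟩, a4⟩, a5⟩, a6⟩, f', hf⟩ := hΛ
  have hρ : linkaRho ρ Λ f' = ρ f := by rw [linkaRho_apply, hf]
  refine ⟨φ.codRestrict Λ a1, f', linkaRho ρ Λ, rfl, hf, fun v => ?_, ⟨w, a3, by rw [hρ, hw1]⟩,
    linka_surj _ _ ?_, fun v hv => ?_, fun i => ?_, fun i => ?_⟩
  · have h1 : (⊤ : Subalgebra Λ (Λ ⊗[B] T)) ≤ (d.T Λ).comap (linkaRho ρ Λ) := by
      rw [← Algebra.TensorProduct.adjoin_one_tmul_image_eq_top (A := Λ) _ hg]
      refine Algebra.adjoin_le ?_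
      rintro _ ⟨τ, hτ, rfl⟩
      exact a2 ⟨τ, hτ⟩
    exact h1 trivial
  · rintro _ ⟨i, rfl⟩
    obtain ⟨x', hx'⟩ := a4 i
    exact ⟨m i, x', by rw [hρ, linkaRho_apply, hx', hx]⟩
  · obtain ⟨b, hb, i, hi⟩ := h.ker _ hv
    obtain ⟨b', hb', h1⟩ := tensor_torsion Λ (f' ^ i * v) (by
      rw [map_mul, map_pow, hf]
      exact (smul_eq_zero_iff_right hb).1 hi)
    exact ⟨b', hb', i, h1⟩
  · obtain ⟨y', h1, h2⟩ := a5 i (ext B Λ 𝔡) (by
      rintro _ ⟨t, ht, rfl⟩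
      exact ⟨_, Ideal.mem_map_of_mem _ ht, rfl⟩)
    exact ⟨y', h1, by rw [linkaRho_apply, h2, hy']⟩
  · obtain ⟨z', h1, h2⟩ := a6 i (spk (φ.codRestrict Λ a1) 𝒥) (by
      rintro _ ⟨t, ht, rfl⟩
      refine ⟨_, Ideal.mem_map_of_mem _ ht, ?_⟩
      rw [← AlgHom.comp_apply, ← Algebra.TensorProduct.map_comp]
      rfl)
    exact ⟨z', h1, by rw [linkaRho_apply, h2, hz']⟩

end

end Pool.Agent.Lib.MP_4287a9_ag
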