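import Pool.Agent.Lib.MP_4287a9_ag.LatS

/-!
Reduction of the link with the model.
-/

open scoped TensorProduct ENNReal NNReal nonZeroDivisors Polynomial
open Filter

namespace Pool.Agent.Lib.MP_4287a9_ag

noncomputable section

theorem isRed_tensor {B T Λ κ : Type} [CommRing B] [CommRing T] [Algebra B T] [CommRing Λ]
    [Algebra B Λ] [CommRing κ] [Algebra B κ] (χ : Λ →ₐ[B] κ) (hχ : Function.Surjective χ) :
    IsRed χ.toRingHom (Algebra.TensorProduct.map χ (AlgHom.id B T)).toRingHom := by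
  refine ⟨hχ, Algebra.TensorProduct.map_surjective χ (AlgHom.id B T) hχ Function.surjective_id,
    fun a => by simp, fun w => ?_⟩
  rw [Ideal.smul_top_eq_map, Submodule.restrictScalars_mem]
  have h := Algebra.TensorProduct.rTensor_ker (R := B) (C := T) χ hχ
  change w ∈ RingHom.ker (Algebra.TensorProduct.map χ (AlgHom.id B T)) ↔ _
  rw [h]
  rfl

theorem linkB_kill {Λ P : Type} [CommRing Λ] [IsDomain Λ] [CommRing P] [Algebra Λ P] (f : P)
    (I : Ideal P) (hI : I.FG) (h : ∀ x ∈ I, ∃ b : Λ, b ≠ 0 ∧ ∃ i : ℕ, b • (f ^ i * x) = 0) :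
    ∃ b : Λ, b ≠ 0 ∧ ∃ i : ℕ, ∀ x ∈ I, b • (f ^ i * x) = 0 := by
  induction I, hI using Submodule.fg_induction with
  | singleton x =>
    obtain ⟨b, hb, i, hi⟩ := h x (Submodule.mem_span_singleton_self x)
    refine ⟨b, hb, i, fun y hy => ?_⟩
    obtain ⟨a, rfl⟩ := Submodule.mem_span_singleton.1 hy
    rw [smul_eq_mul, mul_left_comm, ← mul_smul_comm, hi, mul_zero]
  | sup I J _ _ hI hJ =>
    obtain ⟨b, hb, i, hi⟩ := hI fun x hx => h x (Submodule.mem_sup_left hx)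
    obtain ⟨c, hc, j, hj⟩ := hJ fun x hx => h x (Submodule.mem_sup_right hx)
    refine ⟨b * c, mul_ne_zero hb hc, i + j, fun y hy => ?_⟩
    obtain ⟨u, hu, v, hv, rfl⟩ := Submodule.mem_sup.1 hy
    have h1 := hi u hu
    have h2 := hj v hv
    rw [Algebra.smul_def] at h1 h2 ⊢
    rw [map_mul]
    linear_combination (algebraMap Λ P c * f ^ j) * h1 + (algebraMap Λ P b * f ^ i) * h2

/-- The kernel of `ρ` is finitely generated, so one `b` and one power of `f` kill it. If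
`π (ρ x) = 0` then `ρ x ∈ z T` (purity), so `ρ (f ^ i x) = ρ x'` with `x' ∈ z P`, and
`b f ^ j (f ^ i x - x') = 0`. -/
theorem RD.Link.red {n : ℕ} {s : Shp n} {W : Type} [CommRing W] {d : RD s W} {Λ P : Type}
    [CommRing Λ] [IsDomain Λ] [Algebra Λ W] [CommRing P] [IsNoetherianRing P] [Algebra Λ P]
    {ρ : P →ₐ[Λ] W} {f : P} {𝔡 𝔞 : Ideal P} (h : d.Link ρ f 𝔡 𝔞) :
    ∃ b : Λ, b ≠ 0 ∧ ∀ (κ W' P' : Type) [Field κ] [CommRing W'] [Algebra κ W'] [CommRing P']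
      [Algebra κ P'] (χ : Λ →+* κ) (π : W →+* W') (π' : P →+* P'), IsRed χ π → IsRed χ π' →
      χ b ≠ 0 → Pure (RingHom.ker χ) (Subalgebra.toSubmodule (d.T Λ)) →
        ∃ ρ' : P' →+* (d.map π).T κ, IsAway ρ' (π' f) ∧
          (d.map π).idl κ (d.map π).dg ≤ (𝔡.map π').map ρ' ∧
          (d.map π).idl κ (d.map π).ag ≤ (𝔞.map π').map ρ' := by
  obtain ⟨b, hb, j, hj⟩ := linkB_kill (Λ := Λ) f (RingHom.ker ρ) (IsNoetherian.noetherian _)
    fun x hx => h.ker x hx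
  refine ⟨b, hb, fun κ W' P' _ _ _ _ _ χ π π' hπ hπ' hχ hp => ?_⟩
  have hT : ∀ w : W', w ∈ (d.map π).T κ ↔ ∃ v ∈ d.T Λ, π v = w := fun w =>
    Set.ext_iff.1 (RD.map_T hπ d) w
  have hker : RingHom.ker π' ≤ RingHom.ker (π.comp (ρ : P →+* W)) := by
    intro x hx
    have h1 := (hπ'.ker x).1 hx
    change π (ρ x) = 0
    rw [hπ.ker]
    refine Submodule.smul_induction_on h1 (fun a ha y _ => ?_) fun y z hy hz => ?_
    · rw [map_smul]
      exact Submodule.smul_mem_smul ha Submodule.mem_top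
    · rw [map_add]
      exact add_mem hy hz
  obtain ⟨τ, hτ⟩ : ∃ τ : P' →+* W', ∀ x, τ (π' x) = π (ρ x) :=
    ⟨π'.liftOfSurjective hπ'.surj ⟨_, hker⟩, fun x =>
      π'.liftOfRightInverse_comp_apply _ _ ⟨_, hker⟩ x⟩
  have hmem : ∀ y, τ y ∈ (d.map π).T κ := by
    intro y
    obtain ⟨x, rfl⟩ := hπ'.surj y
    exact (hT _).2 ⟨ρ x, h.mem x, (hτ x).symm⟩
  obtain ⟨ρ', hρ'⟩ : ∃ ρ' : P' →+* (d.map π).T κ, ∀ x, (ρ' (π' x) : W') = π (ρ x) :=
    ⟨τ.codRestrict ((d.map π).T κ) hmem, hτ⟩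
  have hidl : ∀ {k : ℕ} (v : Fin k → W) (I : Ideal P), (∀ i, ∃ x ∈ I, ρ x = v i) →
      (d.map π).idl κ (fun i => π (v i)) ≤ (I.map π').map ρ' := by
    intro k v I hv
    refine Ideal.span_le.2 ?_
    rintro y ⟨i, hi⟩
    obtain ⟨x, hx, hx'⟩ := hv i
    have e : y = ρ' (π' x) := Subtype.ext (by rw [hρ', hx']; exact hi.symm)
    rw [e]
    exact Ideal.mem_map_of_mem _ (Ideal.mem_map_of_mem _ hx)
  refine ⟨ρ', ⟨?_, fun w => ?_, fun y hy => ?_⟩, hidl _ _ h.hd, hidl _ _ h.ha⟩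
  · obtain ⟨w, hw, hw'⟩ := h.inv
    refine IsUnit.of_mul_eq_one ⟨π w, (hT _).2 ⟨w, hw, rfl⟩⟩ (Subtype.ext ?_)
    change (ρ' (π' f) : W') * π w = 1
    rw [hρ', ← map_mul, hw', map_one]
  · obtain ⟨v, hv, hv'⟩ := (hT _).1 w.2
    obtain ⟨i, x, hx⟩ := h.surj v hv
    refine ⟨i, π' x, Subtype.ext ?_⟩
    change (ρ' (π' f) : W') ^ i * (w : W') = _
    rw [hρ', hρ', ← hv', ← map_pow, ← map_mul, hx]
  · obtain ⟨x, rfl⟩ := hπ'.surj y
    have h0 : π (ρ x) = 0 := by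
      rw [← hρ', hy]
      rfl
    have h1 : ρ x ∈ RingHom.ker χ • Subalgebra.toSubmodule (d.T Λ) :=
      hp ⟨h.mem x, (hπ.ker _).1 h0⟩
    have h2 : ∃ (i : ℕ) (x' : P), π' x' = 0 ∧ ρ f ^ i * ρ x = ρ x' := by
      refine Submodule.smul_induction_on (p := fun v => ∃ (i : ℕ) (x' : P), π' x' = 0 ∧
        ρ f ^ i * v = ρ x') h1 (fun a ha w hw => ?_) fun y z hy hz => ?_
      · obtain ⟨i, x', hx'⟩ := h.surj w hw
        refine ⟨i, a • x', (hπ'.ker _).2 (Submodule.smul_mem_smul ha Submodule.mem_top), ?_⟩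
        rw [mul_smul_comm, hx', map_smul]
      · obtain ⟨i, u, hu, hu'⟩ := hy
        obtain ⟨i', v, hv, hv'⟩ := hz
        refine ⟨i + i', f ^ i' * u + f ^ i * v, by simp [hu, hv], ?_⟩
        simp only [map_add, map_mul, map_pow]
        linear_combination ρ f ^ i' * hu' + ρ f ^ i * hv'
    obtain ⟨i, x', hx', hx''⟩ := h2
    have h3 := hj (f ^ i * x - x') (by
      change ρ _ = 0
      rw [map_sub, map_mul, map_pow, hx'', sub_self])
    have h4 := congrArg π' h3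
    rw [Algebra.smul_def, map_mul, hπ'.comm, map_zero] at h4
    have h5 := ((IsUnit.mk0 _ hχ).map (algebraMap κ P')).mul_right_eq_zero.1 h4
    refine ⟨j + i, ?_⟩
    simp only [map_mul, map_pow, map_sub, hx', sub_zero] at h5
    rw [pow_add, mul_assoc]
    exact h5

end

end Pool.Agent.Lib.MP_4287a9_ag
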