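import Pool.Agent.Lib.MP_4287a9_ag.Norm
import Pool.Agent.Lib.MP_4287a9_ag.D2

/-!
Localization of strong F-regularity.
-/

open scoped TensorProduct ENNReal NNReal nonZeroDivisors Polynomial
open Filter

namespace Pool.Agent.Lib.MP_4287a9_ag

noncomputable section

/-- Extend `φ` by `exists_ext_loc`. Up to units of `R`, `c` and `z` come from regular elements of
`T`. If `y 𝔡 ^ Q ⊆ z ^ q R` then `s y 𝔡 ^ Q ⊆ z ^ q T` for some `s ∉ 𝔫` (finite generation). -/
theorem SFRi.localize {p : ℕ} (hp : 0 < p) {T R : Type} [CommRing T] [IsNoetherianRing T]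
    {𝔡 𝔞 : Ideal T} {r : ℕ} {t : ℝ≥0} (h : SFRi p 𝔡 r 𝔞 t) (𝔫 : Ideal T) [𝔫.IsPrime]
    [CommRing R] [IsDomain R] [Algebra T R] [IsLocalization.AtPrime R 𝔫]
    (hz : ∀ z : T, algebraMap T R z ≠ 0 → ∃ z' ∈ T⁰, algebraMap T R z' = algebraMap T R z) :
    SFRi p (𝔡.map (algebraMap T R)) r (𝔞.map (algebraMap T R)) t := by
  have rep : ∀ c ∈ R⁰, ∃ c' ∈ T⁰, ∃ s : 𝔫.primeCompl,
      algebraMap T R c' = c * algebraMap T R s := fun c hc => by
    obtain ⟨⟨c₀, s⟩, e⟩ := IsLocalization.surj 𝔫.primeCompl c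
    obtain ⟨c', h1, h2⟩ := hz c₀ (e ▸ mul_ne_zero (nonZeroDivisors.ne_zero hc)
      (IsLocalization.map_units R s).ne_zero)
    exact ⟨c', h1, s, h2.trans e.symm⟩
  intro c hc
  obtain ⟨c', hc', s, es⟩ := rep c hc
  obtain ⟨e, he, hr, a, ha, φ, hφ, h1⟩ := h c' hc'
  have hq : 0 < p ^ e := pow_pos hp e
  obtain ⟨φ', l1, l2⟩ := exists_ext_loc (R' := R) 𝔫.primeCompl hq φ hφ.lin
  have hφ' : IsCart (𝔡.map (algebraMap T R)) r (p ^ e) φ' := ⟨l1, fun z hz0 y hy => by
    obtain ⟨z', hz', s₁, e₁⟩ := rep z hz0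
    obtain ⟨⟨y₀, s₂⟩, e₂⟩ := IsLocalization.surj 𝔫.primeCompl y
    have e₃ : algebraMap T R (y₀ * s₂ ^ (p ^ e - 1)) = algebraMap T R s₂ ^ p ^ e * y := by
      rw [map_mul, map_pow, ← e₂, ← pow_sub_one_mul hq.ne']; ring
    have k : ∀ d ∈ 𝔡 ^ ((p ^ e - 1) / r), ∃ u : 𝔫.primeCompl,
        z' ^ p ^ e ∣ u * (y₀ * s₂ ^ (p ^ e - 1)) * d := fun d hd => by
      have h2 := hy _ (Ideal.map_pow (algebraMap T R) 𝔡 _ ▸ Ideal.mem_map_of_mem _ hd)
      have h3 : algebraMap T R (y₀ * s₂ ^ (p ^ e - 1) * d) ∈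
          (Ideal.span {z' ^ p ^ e}).map (algebraMap T R) := by
        rw [Ideal.map_span, Set.image_singleton, Ideal.mem_span_singleton, map_pow, e₁, mul_pow,
          ((IsLocalization.map_units R s₁).pow _).mul_right_dvd, map_mul, e₃, mul_assoc]
        exact h2.mul_left _
      obtain ⟨u, hu, h4⟩ := (IsLocalization.algebraMap_mem_map_algebraMap_iff 𝔫.primeCompl R _ _).1 h3
      exact ⟨⟨u, hu⟩, by rw [mul_assoc]; exact Ideal.mem_span_singleton.1 h4⟩
    obtain ⟨S, hS⟩ := IsNoetherian.noetherian (𝔡 ^ ((p ^ e - 1) / r))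
    choose! u hu using k
    have k' : ∀ d ∈ 𝔡 ^ ((p ^ e - 1) / r),
        z' ^ p ^ e ∣ ((∏ x ∈ S, u x : 𝔫.primeCompl) : T) ^ p ^ e * (y₀ * s₂ ^ (p ^ e - 1)) * d := by
      intro d hd
      rw [← hS] at hd
      induction hd using Submodule.span_induction with
      | mem x hx =>
        refine (hu x (hS ▸ Submodule.subset_span hx)).trans
          (mul_dvd_mul_right (mul_dvd_mul_right (dvd_pow ?_ hq.ne') _) _)
        rw [Submonoid.coe_finsetProd]
        exact Finset.dvd_prod_of_mem (fun x => (u x : T)) hx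
      | zero => simp
      | add x y _ _ h1 h2 => rw [mul_add]; exact h1.add h2
      | smul b x _ h1 => rw [smul_eq_mul, mul_left_comm]; exact h1.mul_left _
    have h5 := map_dvd (algebraMap T R) (hφ.div z' hz' _ k')
    rwa [hφ.lin, map_mul, ← l2, e₃, l1, e₁, (IsLocalization.map_units R s₁).mul_right_dvd,
      (IsLocalization.map_units R _).dvd_mul_left, (IsLocalization.map_units R _).dvd_mul_left]
      at h5⟩
  refine ⟨e, he, hr, algebraMap T R a, Ideal.map_pow (algebraMap T R) 𝔞 _ ▸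
    Ideal.mem_map_of_mem _ ha, _, hφ'.premul (algebraMap T R s), ?_⟩
  change φ' (algebraMap T R s * (c * algebraMap T R a)) = 1
  rw [← mul_assoc, mul_comm _ c, ← es, ← map_mul, l2, h1, map_one]

/-- The map `P → P_m` factors through `ρ`, and `P_m` is the localization of `T` at the preimage of
the maximal ideal. Use `SFRi.normal`, `SFRi.localize`, `SFRi.mono`. -/
theorem SFRi.of_away {p : ℕ} (hp : 0 < p) {P T : Type} [CommRing P] [CommRing T]
    [IsNoetherianRing T] [IsReduced T] (ρ : P →+* T) {f : P} (hρ : IsAway ρ f) (m : Ideal P)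
    [m.IsPrime] (hf : f ∉ m) {𝔡 𝔞 : Ideal P} {𝔡' 𝔞' : Ideal T} (hd : 𝔡' ≤ 𝔡.map ρ)
    (ha : 𝔞' ≤ 𝔞.map ρ) {r : ℕ} {t : ℝ≥0} (h : SFRi p 𝔡' r 𝔞' t) :
    IsDomain (Localization.AtPrime m) ∧ IsIntegrallyClosed (Localization.AtPrime m) ∧
      SFRi p (𝔡.map (algebraMap P (Localization.AtPrime m))) r
        (𝔞.map (algebraMap P (Localization.AtPrime m))) t := by
  let _ : Algebra P T := ρ.toAlgebra
  have : IsLocalization (Submonoid.powers f) T := by
    refine (isLocalization_iff _ _).2 ⟨?_, fun w => ?_, fun {x y} e => ?_⟩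
    · rintro ⟨_, i, rfl⟩
      exact (map_pow ρ f i).symm ▸ hρ.1.pow i
    · obtain ⟨i, x, e⟩ := hρ.2.1 w
      exact ⟨⟨x, ⟨_, i, rfl⟩⟩, (mul_comm _ _).trans ((congrArg (· * w) (map_pow ρ f i)).trans e)⟩
    · obtain ⟨i, k⟩ := hρ.2.2 (x - y) (by rw [map_sub]; exact sub_eq_zero.2 e)
      exact ⟨⟨_, i, rfl⟩, sub_eq_zero.1 ((mul_sub _ _ _).symm.trans k)⟩
  have hle : Submonoid.powers f ≤ m.primeCompl := Submonoid.powers_le.2 hf
  let _ := IsLocalization.localizationAlgebraOfSubmonoidLe T (Localization.AtPrime m) _ _ hle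
  have := IsLocalization.localization_isScalarTower_of_submonoid_le T (Localization.AtPrime m)
    _ _ hle
  have := IsLocalization.isLocalization_of_submonoid_le T (Localization.AtPrime m) _ _ hle
  set 𝔫 := (IsLocalRing.maximalIdeal (Localization.AtPrime m)).comap
    (algebraMap T (Localization.AtPrime m)) with h𝔫
  have : IsLocalization.AtPrime (Localization.AtPrime m) 𝔫 := by
    refine IsLocalization.of_le (m.primeCompl.map (algebraMap P T)) _ ?_ fun x hx => ?_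
    · rintro _ ⟨x, hx, rfl⟩ k
      rw [SetLike.mem_coe, h𝔫, Ideal.mem_comap, ← IsScalarTower.algebraMap_apply] at k
      exact k (IsLocalization.map_units _ (⟨x, hx⟩ : m.primeCompl))
    · exact IsLocalRing.notMem_maximalIdeal.1 hx
  obtain ⟨h1, h2, h3⟩ := h.normal (R := Localization.AtPrime m) 𝔫
  have e : ∀ I : Ideal P, (I.map ρ).map (algebraMap T (Localization.AtPrime m)) =
      I.map (algebraMap P (Localization.AtPrime m)) := fun I => by
    rw [Ideal.map_map, IsScalarTower.algebraMap_eq P T (Localization.AtPrime m)]; rfl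
  exact ⟨h1, h2, (h.localize hp 𝔫 h3).mono (e 𝔡 ▸ Ideal.map_mono hd) (e 𝔞 ▸ Ideal.map_mono ha)⟩

end

end Pool.Agent.Lib.MP_4287a9_ag
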