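import Pool.Agent.Lib.MP_4287a9_ag.GH2
import Pool.Agent.Lib.MP_4287a9_ag.GF3
import Pool.Agent.Lib.MP_4287a9_ag.GH3
import Pool.Agent.Lib.MP_4287a9_ag.GH1c
import Pool.Agent.Lib.MP_4287a9_ag.GH1d
import Pool.Agent.Lib.MP_4287a9_ag.LinkA
import Pool.Agent.Lib.MP_4287a9_ag.LinkB
import Pool.Agent.Lib.MP_4287a9_ag.LocB

/-!
The theorem of Hara and Yoshida from graded resolution data.
-/

open scoped TensorProduct ENNReal NNReal nonZeroDivisors Polynomial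
open Filter

namespace Pool.Agent.Lib.MP_4287a9_ag

noncomputable section

theorem GD.Good.sfri_red {n : ℕ} {s : GShp n} {W₀ : Type} [CommRing W₀] {d : GD s W₀} {Λ : Type}
    [CommRing Λ] [IsDomain Λ] [CharZero Λ] [Algebra.FiniteType ℤ Λ] [Algebra Λ W₀]
    {D : Fin n → Derivation Λ (LA W₀ s.ρ) (LA W₀ s.ρ)} (h : d.Good Λ D) {t : ℝ≥0}
    (ht : (t : ℝ) * s.N < s.a1) :
    ∃ b : Λ, b ≠ 0 ∧ ∀ (κ W₁ : Type) [Field κ] [Finite κ] [CommRing W₁] [Algebra κ W₁]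
      (χ : Λ →+* κ) (π : W₀ →+* W₁), IsRed χ π → χ b ≠ 0 →
        Pure (RingHom.ker χ) (Subalgebra.toSubmodule (d.T Λ)) ∧
        IsNoetherianRing ((d.map π).T κ) ∧ IsReduced ((d.map π).T κ) ∧
        SFRi (ringChar κ) ((d.map π).idl κ (d.map π).dg) s.r ((d.map π).idl κ (d.map π).ag) t := by
  have hNΛ : IsNoetherianRing Λ := Algebra.FiniteType.isNoetherianRing ℤ Λ
  obtain ⟨b1, hb1, H1⟩ := h.exists_pureAt
  obtain ⟨b2, hb2, H2⟩ := pd_base Λ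
  obtain ⟨q1, Hq⟩ := h.cexact_LG
  have hb3 : (((q1 + n + s.N).factorial : ℕ) : Λ) ≠ 0 :=
    Nat.cast_ne_zero.2 (Nat.factorial_ne_zero _)
  refine ⟨b1 * b2 * ((q1 + n + s.N).factorial : ℕ), mul_ne_zero (mul_ne_zero hb1 hb2) hb3, ?_⟩
  intro κ W' _ _ _ _ χ π hπ hb
  rw [map_mul, map_mul] at hb
  have hb1' : χ b1 ≠ 0 := left_ne_zero_of_mul (left_ne_zero_of_mul hb)
  have hb2' : χ b2 ≠ 0 := right_ne_zero_of_mul (left_ne_zero_of_mul hb)
  have hb3' := right_ne_zero_of_mul hb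
  have hpr : (ringChar κ).Prime := CharP.char_is_prime κ (ringChar κ)
  have : Fact (ringChar κ).Prime := ⟨hpr⟩
  have hlt : q1 + n + s.N < ringChar κ := by
    by_contra hle
    apply hb3'
    rw [map_natCast, CharP.cast_eq_zero_iff κ (ringChar κ)]
    exact (hpr.dvd_factorial).2 (not_lt.1 hle)
  have hmax : (RingHom.ker χ).IsMaximal := RingHom.ker_isMaximal_of_surjective χ hπ.surjχ
  have hp : d.PureAt (RingHom.ker χ) := H1 _ hmax hb1'
  choose D' hD' using fun i => (hπ.lmap (ρ := s.ρ)).exists_derivation (D i)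
  have h' : (d.map π).Good κ D' := h.map_red hπ hp hD'
  obtain ⟨δ0, hδ0⟩ := H2 (ringChar κ) hpr κ (by simp) χ (isUnit_iff_ne_zero.2 hb2')
  obtain ⟨hh, hH⟩ := h.exists_HD hπ hD' hδ0
  have hN : Nat.Coprime (ringChar κ) s.N := by
    have h0 : 0 < s.N := Nat.mul_pos h.hr h.hM
    exact Nat.coprime_of_lt_prime h0.ne' (by omega) hpr
  have hredW : IsReduced (⊤ : Subalgebra κ (LA W' s.ρ)) := (h'.etc_top s.a0).isReduced
  have hredT : IsReduced ((d.map π).T κ) :=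
    isReduced_of_injective (Subalgebra.inclusion (le_top : (d.map π).T κ ≤ ⊤))
      (Subalgebra.inclusion_injective _)
  refine ⟨hp.hT, (d.map π).toRD.T_noeth, hredT, ?_⟩
  refine h'.sfri hH (by omega) hN (fun q hq k hk => ?_) ht
  exact h.cexact_red hπ hp hD' h' (Hq q (by omega)) k hk

theorem hyG {k B T : Type} [Field k] [CharZero k] [CommRing B] [Algebra.FiniteType ℤ B]
    [Algebra B k] [CommRing T] [Algebra B T] [Algebra.FiniteType B T] {𝔡 : Ideal T} {Λ : Type}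
    [CommRing Λ] [Algebra B Λ] [Algebra.FiniteType B Λ] (φ : Λ →ₐ[B] k) (𝒥 : Ideal (Λ ⊗[B] T))
    {n : ℕ} {s : GShp n} {W₀ : Type} [CommRing W₀] [Algebra k W₀] {d : GD s W₀}
    {D : Fin n → Derivation k (LA W₀ s.ρ) (LA W₀ s.ρ)} (h : d.Amb k D)
    {ρ : k ⊗[B] T →ₐ[k] LA W₀ s.ρ} {f : k ⊗[B] T}
    (hl : d.toRD.Link ρ f (ext B k 𝔡) (spk φ 𝒥)) {t : ℝ≥0} (ht : (t : ℝ) * s.N < s.a1) :
    ∃ (Λ' : Subalgebra B k) (φ' : Λ →ₐ[B] Λ') (f' : Λ' ⊗[B] T) (b' : Λ'), Λ'.FG ∧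
      Λ'.val.comp φ' = φ ∧ Algebra.TensorProduct.map Λ'.val (AlgHom.id B T) f' = f ∧ b' ≠ 0 ∧
      ∀ (κ : Type) [Field κ] [Finite κ] [Algebra B κ] (χ : Λ' →ₐ[B] κ), Function.Surjective χ →
        χ b' ≠ 0 → ∀ (m : Ideal (κ ⊗[B] T)) [m.IsPrime],
          Algebra.TensorProduct.map χ (AlgHom.id B T) f' ∉ m →
          IsDomain (Localization.AtPrime m) ∧ IsIntegrallyClosed (Localization.AtPrime m) ∧
            SFRi (ringChar κ) ((ext B κ 𝔡).map (algebraMap _ (Localization.AtPrime m))) s.r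
              ((spk (χ.comp φ') 𝒥).map (algebraMap _ (Localization.AtPrime m))) t := by
  have hNB : IsNoetherianRing B := Algebra.FiniteType.isNoetherianRing ℤ B
  obtain ⟨Λ', hfg, hamb', φ', f', ρ', hφ', hf', hlink'⟩ :=
    ((h.spread (B := B)).and (hl.spread φ)).exists_fg
  obtain ⟨W₁, _, _, d', D', ρ'', hgood, hlink''⟩ := hamb'.to_sub (ρ := ρ') hlink'
  have hftB : Algebra.FiniteType B Λ' := (Subalgebra.fg_iff_finiteType Λ').1 hfg
  have hftZ : Algebra.FiniteType ℤ Λ' := Algebra.FiniteType.trans (S := B) inferInstance hftB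
  have hNΛ : IsNoetherianRing Λ' := Algebra.FiniteType.isNoetherianRing ℤ Λ'
  have hcz : CharZero Λ' := by
    refine ⟨fun a b hab => ?_⟩
    have := congrArg (Λ'.val) hab
    simpa using this
  have hNP : IsNoetherianRing (Λ' ⊗[B] T) := Algebra.FiniteType.isNoetherianRing Λ' _
  obtain ⟨b1, hb1, H1⟩ := hgood.sfri_red ht
  obtain ⟨b2, hb2, H2⟩ := hlink''.red
  refine ⟨Λ', φ', f', b1 * b2, hfg, hφ', hf', mul_ne_zero hb1 hb2, ?_⟩
  intro κ _ _ _ χ hχ hb m _ hfm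
  rw [map_mul] at hb
  have hb1' : χ b1 ≠ 0 := left_ne_zero_of_mul hb
  have hb2' : χ b2 ≠ 0 := right_ne_zero_of_mul hb
  obtain ⟨W', _, _, π, hπ⟩ := exists_isRed W₁ χ.toRingHom hχ
  obtain ⟨hpure, hnoeth, hred, hsfr⟩ := H1 κ W' χ.toRingHom π hπ hb1'
  obtain ⟨ρ3, haway, hd3, ha3⟩ := H2 κ (LA W' s.ρ) (κ ⊗[B] T) χ.toRingHom (lmap s.ρ π)
    (Algebra.TensorProduct.map χ (AlgHom.id B T)).toRingHom hπ.lmap (isRed_tensor χ hχ) hb2' hpure
  have hp : 0 < ringChar κ := Nat.pos_of_ne_zero (CharP.ringChar_ne_zero_of_finite κ)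
  have hnoeth' : IsNoetherianRing ((d'.toRD.map (lmap s.ρ π)).T κ) := hnoeth
  have hred' : IsReduced ((d'.toRD.map (lmap s.ρ π)).T κ) := hred
  have := SFRi.of_away hp ρ3 haway m hfm hd3 ha3 hsfr
  have e1 : (ext B Λ' 𝔡).map (Algebra.TensorProduct.map χ (AlgHom.id B T)).toRingHom =
      ext B κ 𝔡 := spk_ext χ 𝔡
  have e2 : (spk φ' 𝒥).map (Algebra.TensorProduct.map χ (AlgHom.id B T)).toRingHom =
      spk (χ.comp φ') 𝒥 := spk_spk φ' χ 𝒥
  rw [e1, e2] at this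
  exact this

end

end Pool.Agent.Lib.MP_4287a9_ag
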