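import Pool.Agent.Lib.MP_4287a9_ag.RDb
import Pool.Agent.Lib.MP_4287a9_ag.C3
import Pool.Agent.Lib.MP_4287a9_ag.C2
import Pool.Agent.Lib.MP_4287a9_ag.EpsD

/-!
Serre vanishing for the lattices, and its reduction.
-/

open scoped TensorProduct ENNReal NNReal nonZeroDivisors Polynomial
open Filter

namespace Pool.Agent.Lib.MP_4287a9_ag

noncomputable section

variable {n : ℕ} {s : Shp n} {W : Type} [CommRing W] {d : RD s W} {Λ : Type} [CommRing Λ]
  [Algebra Λ W] {D : Fin n → Derivation Λ W W}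

theorem latS_as {S : Subalgebra Λ W} {x y : Wˣ} (h : As S x y) (θ : Fin n → Fin n → W) :
    lat S (x : W) θ = lat S (y : W) θ :=
  le_antisymm (lat_le le_rfl ⟨_, h.1, by simp⟩ fun l => Submodule.subset_span ⟨l, rfl⟩)
    (lat_le le_rfl ⟨_, h.2, by simp⟩ fun l => Submodule.subset_span ⟨l, rfl⟩)

theorem latS_unit {S : Subalgebra Λ W} (u : Wˣ) (τ : W) (θ : Fin n → Fin n → W) (v : Fm W n) :
    (u : W) • v ∈ lat S (u * τ) θ ↔ v ∈ lat S τ θ := by
  refine ⟨fun h => ?_, smul_mem_lat_mul _⟩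
  have h1 := smul_mem_lat_mul ((u⁻¹ : Wˣ) : W) h
  rwa [smul_smul, Units.inv_mul, one_smul, Units.inv_mul_cancel_left] at h1

theorem latS_adjoin {κ W' : Type} [CommRing κ] [CommRing W'] [Algebra κ W'] {χ : Λ →+* κ}
    {π : W →+* W'} (hπ : IsRed χ π) (A : Set W) :
    ((Algebra.adjoin κ (π '' A) : Subalgebra κ W') : Set W') =
      π '' (Algebra.adjoin Λ A : Set W) := by
  have h1 : π '' Set.range (algebraMap Λ W) = Set.range (algebraMap κ W') := by
    ext x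
    constructor
    · rintro ⟨_, ⟨a, rfl⟩, rfl⟩
      exact ⟨χ a, (hπ.comm a).symm⟩
    · rintro ⟨b, rfl⟩
      obtain ⟨a, rfl⟩ := hπ.surjχ b
      exact ⟨_, ⟨a, rfl⟩, hπ.comm a⟩
  rw [← Subalgebra.coe_toSubring, ← Subalgebra.coe_toSubring, Algebra.adjoin_eq_ring_closure,
    Algebra.adjoin_eq_ring_closure, ← Subring.coe_map, RingHom.map_closure, Set.image_union, h1]

namespace RD

/-- For each residue `q₀ < N` apply `serre_lat` to `θ a I = tau a q₀ • mon (theta a) I` and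
`L j σ = {v | u ^ j • v ∈ LL (q₀ + j N) σ}` (`tau_add`, `LL_eq`), then `CExact.of_equiv`. -/
theorem Good.cexact_LL [IsNoetherianRing Λ] (h : d.Good Λ D) :
    ∃ q1 : ℕ, ∀ q, q1 ≤ q → ∀ k, 1 ≤ k → CExact (fun σ => (d.LL D q σ : Set (Fm W n))) k := by
  have := d.T_noeth (Λ := Λ)
  have hN : 0 < s.N := Nat.mul_pos h.hr h.hM
  have key : ∀ q0 : ℕ, ∃ J : ℕ, ∀ j, J ≤ j → ∀ k, 1 ≤ k →
      CExact (fun σ => (d.LL D (q0 + j * s.N) σ : Set (Fm W n))) k := by
    intro q0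
    obtain ⟨i0, hi⟩ := serre_lat s.a0 (d.T Λ) (d.sp Λ d.bg)
      (Submodule.fg_span (Set.finite_range _)) d.G h.hG h.hred (d.S Λ)
      (fun σ hσ w => h.mem_S_iff hσ w)
      (fun a (I : Finset (Fin n)) => (d.tau a q0 : W) • mon (d.theta D a) I)
      (fun j σ => {v | ((d.u ^ j : Wˣ) : W) • v ∈ d.LL D (q0 + j * s.N) σ}) (by
        intro j σ a ha
        ext v
        have h1 : (d.tau a q0 * (d.u * d.G a) ^ j : Wˣ) = d.u ^ j * (d.G a ^ j * d.tau a q0) := by
          rw [mul_pow, mul_comm, mul_assoc]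
        rw [Set.mem_ofPred_eq, h.LL_eq _ ha,
          latS_as ((h.tau_add a q0 j).mono (d.S1_le_S ha)), h1, Units.val_mul, latS_unit]
        simp only [lat, Submodule.restrictScalars_mem, Units.val_mul, Units.val_pow_eq_pow_val,
          mul_smul, SetLike.mem_coe])
    obtain ⟨j0, hj⟩ := hi i0 le_rfl
    refine ⟨j0 + i0, fun j hJ k hk => ?_⟩
    obtain ⟨j', rfl⟩ : ∃ j', j = j' + i0 := ⟨j - i0, by omega⟩
    exact CExact.of_equiv (DistribMulAction.toAddEquiv (Fm W n) (d.u ^ (j' + i0))) hk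
      (fun _ _ _ => Iff.rfl) ((hj j' (by omega)).1 k hk)
  choose J hJ using key
  refine ⟨(∑ q0 ∈ Finset.range s.N, J q0) * s.N, fun q hq k hk => ?_⟩
  have h1 : J (q % s.N) ≤ q / s.N :=
    (Finset.single_le_sum (f := J) (fun _ _ => Nat.zero_le _)
      (Finset.mem_range.2 (Nat.mod_lt q hN))).trans ((Nat.le_div_iff_mul_le hN).2 hq)
  have h2 := hJ _ _ h1 k hk
  rwa [Nat.mod_add_div'] at h2

theorem map_T {κ W' : Type} [CommRing κ] [CommRing W'] [Algebra κ W'] {χ : Λ →+* κ}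
    {π : W →+* W'} (hπ : IsRed χ π) (d : RD s W) :
    (((d.map π).T κ : Subalgebra κ W') : Set W') = π '' (d.T Λ : Set W) := by
  rw [T, T, ← latS_adjoin hπ, ← Set.range_comp]
  rfl

theorem map_S1 {κ W' : Type} [CommRing κ] [CommRing W'] [Algebra κ W'] {χ : Λ →+* κ}
    {π : W →+* W'} (hπ : IsRed χ π) (d : RD s W) (a : Fin s.m) :
    (((d.map π).S1 κ a : Subalgebra κ W') : Set W') = π '' (d.S1 Λ a : Set W) := by
  rw [S1, S1, ← latS_adjoin hπ, Set.image_union, ← Set.range_comp, ← Set.range_comp]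
  have h1 : (π ∘ fun i => d.bg i * (((d.G a)⁻¹ : Wˣ) : W)) =
      fun i => (d.map π).bg i * ((((d.map π).G a)⁻¹ : W'ˣ) : W') :=
    funext fun i => map_mul π _ _
  rw [h1]
  rfl

theorem map_S {κ W' : Type} [CommRing κ] [CommRing W'] [Algebra κ W'] {χ : Λ →+* κ}
    {π : W →+* W'} (hπ : IsRed χ π) (d : RD s W) (σ : Finset (Fin s.m)) :
    (((d.map π).S κ σ : Subalgebra κ W') : Set W') = π '' (d.S Λ σ : Set W) := by
  have h1 : d.S Λ σ = Algebra.adjoin Λ (⋃ a ∈ σ, (d.S1 Λ a : Set W)) := by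
    simp only [S, ← Set.iSup_eq_iUnion, Algebra.gc.l_iSup, Algebra.adjoin_eq]
  have h2 : (d.map π).S κ σ = Algebra.adjoin κ (⋃ a ∈ σ, ((d.map π).S1 κ a : Set W')) := by
    simp only [S, ← Set.iSup_eq_iUnion, Algebra.gc.l_iSup, Algebra.adjoin_eq]
  rw [h1, h2, ← latS_adjoin hπ, Set.image_iUnion₂]
  simp only [map_S1 hπ]

/-- `cexact_map` with `lat_flat`, `lat_pure`, `fmap_lat`, `fmap_eq_zero_iff`. -/
theorem Good.cexact_red (h : d.Good Λ D) {κ W' : Type} [CommRing κ] [CommRing W'] [Algebra κ W']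
    {χ : Λ →+* κ} {π : W →+* W'} (hπ : IsRed χ π) (hp : d.PureAt (RingHom.ker χ))
    {D' : Fin n → Derivation κ W' W'} (hD' : ∀ i w, D' i (π w) = π (D i w))
    (h' : (d.map π).Good κ D') {q : ℕ}
    (hex : ∀ k, 1 ≤ k → CExact (fun σ => (d.LL D q σ : Set (Fm W n))) k) (k : ℕ) (hk : 1 ≤ k) :
    CExact (fun σ => ((d.map π).LL D' q σ : Set (Fm W' n))) k := by
  have hdet : ∀ a, IsUnit (Matrix.of (d.theta D a)).det := fun a => by
    rw [h.det_theta]
    exact Units.isUnit _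
  have h1 := cexact_map (RingHom.ker χ) (fmap n π) (fmap_eq_zero_iff hπ) (d.LL D q)
    (fun σ σ' _ hσ => h.LL_mono q hσ)
    (fun σ ⟨a, ha⟩ => by
      rw [h.LL_eq q ha]
      exact lat_flat (Units.isUnit _) (hdet a) (h.etc_S ha).flat)
    (fun σ ⟨a, ha⟩ => by
      rw [h.LL_eq q ha]
      exact lat_pure (Units.isUnit _) (hdet a) (hp.hS σ ⟨a, ha⟩))
    hex k hk
  refine CExact.of_equiv (AddEquiv.refl _) hk (fun σ ⟨a, ha⟩ v => ?_) h1
  have h2 : π (d.tau a q : W) = ((d.map π).tau a q : W') := by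
    have h3 : Units.map (π : W →* W') (d.tau a q) = (d.map π).tau a q := by
      simp only [tau, map_mul, map_pow, map_prod, map_zpow]
      rfl
    rw [← h3]
    rfl
  have h3 : (fun l i => π (d.theta D a l i)) = (d.map π).theta D' a := by
    funext l i
    have h4 : Units.map (π : W →* W') (d.tl a l) = (d.map π).tl a l := by
      simp only [tl, map_prod]
      rfl
    simp only [theta, grad, Pi.smul_apply, smul_eq_mul, map_mul, ← h4, ← hD']
    rfl
  rw [h.LL_eq q ha, h'.LL_eq q ha, fmap_lat π (map_S hπ d σ), h2, h3]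
  rfl

end RD

end

end Pool.Agent.Lib.MP_4287a9_ag
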