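import Pool.Agent.Lib.MP_4287a9_ag.GDb
import Pool.Agent.Lib.MP_4287a9_ag.LatS

/-!
Serre vanishing for the graded lattices, and its reduction (compare `LatS`).
-/

open scoped TensorProduct ENNReal NNReal nonZeroDivisors Polynomial
open Filter

namespace Pool.Agent.Lib.MP_4287a9_ag

noncomputable section

variable {n : ℕ} {s : GShp n} {W₀ : Type} [CommRing W₀] {d : GD s W₀} {Λ : Type} [CommRing Λ]
  [Algebra Λ W₀] {D : Fin n → Derivation Λ (LA W₀ s.ρ) (LA W₀ s.ρ)}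

theorem glat_span_smul {W N ι : Type} [CommRing W] [Algebra Λ W] [AddCommGroup N] [Module W N]
    {S : Subalgebra Λ W} (x : W) {η : ι → N} {v : N}
    (hv : v ∈ Submodule.span S (Set.range η)) :
    x • v ∈ Submodule.span S (Set.range fun i => x • η i) := by
  induction hv using Submodule.span_induction with
  | mem y hy =>
    obtain ⟨i, rfl⟩ := hy
    exact Submodule.subset_span ⟨i, rfl⟩
  | zero =>
    rw [smul_zero]
    exact zero_mem _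
  | add y z _ _ hy hz =>
    rw [smul_add]
    exact add_mem hy hz
  | smul c y _ hy =>
    rw [smul_comm]
    exact Submodule.smul_mem _ c hy

theorem glat_span_unit {W N ι : Type} [CommRing W] [Algebra Λ W] [AddCommGroup N] [Module W N]
    {S : Subalgebra Λ W} (x : Wˣ) (η : ι → N) (v : N) :
    (x : W) • v ∈ Submodule.span S (Set.range fun i => (x : W) • η i) ↔
      v ∈ Submodule.span S (Set.range η) := by
  refine ⟨fun h => ?_, glat_span_smul _⟩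
  have h1 := glat_span_smul ((x⁻¹ : Wˣ) : W) h
  simp only [smul_smul, Units.inv_mul, one_smul] at h1
  exact h1

theorem glat_pad {R N ι : Type} [CommRing R] [AddCommGroup N] [Module R N] [DecidableEq ι]
    {κ : ι → Type} (η : ∀ b, κ b → N) (a : ι) :
    Submodule.span R (Set.range fun i : Σ b, κ b => if i.1 = a then η i.1 i.2 else 0) =
      Submodule.span R (Set.range (η a)) := by
  refine le_antisymm (Submodule.span_le.2 ?_) (Submodule.span_mono ?_)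
  · rintro _ ⟨⟨b, i⟩, rfl⟩
    by_cases hb : b = a
    · subst hb
      exact Submodule.subset_span ⟨i, (if_pos rfl).symm⟩
    · simp only [if_neg hb]
      exact zero_mem _
  · rintro _ ⟨i, rfl⟩
    exact ⟨⟨a, i⟩, if_pos rfl⟩

theorem glat_Fdeg_unit {ρ : ℕ} {dx : Fin n → Fin ρ → ℤ} {x : (LA W₀ ρ)ˣ} {β γ : Fin ρ → ℤ}
    (hx : IsDeg β (x : LA W₀ ρ)) (v : Fm (LA W₀ ρ) n) :
    (x : LA W₀ ρ) • v ∈ Fdeg Λ dx (β + γ) ↔ v ∈ Fdeg Λ dx γ := by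
  refine ⟨fun h => ?_, smul_mem_Fdeg hx⟩
  have h1 := smul_mem_Fdeg (hx.of_mul_eq_one x.inv_mul) h
  rwa [smul_smul, Units.inv_mul, one_smul, neg_add_cancel_left] at h1

namespace GD

theorem Amb.glat_gen (h : d.Amb Λ D) (a : Fin s.m) (q : ℕ) :
    ∃ (k : ℕ) (η : Fin k → Fm (LA W₀ s.ρ) n), ∀ σ : Finset (Fin s.m), a ∈ σ →
      (d.LG D q σ : Set (Fm (LA W₀ s.ρ) n)) =
        (Submodule.span (d.S Λ σ) (Set.range η) : Set (Fm (LA W₀ s.ρ) n)) := by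
  obtain ⟨k, η, hη⟩ := lat_deg_fg (dx := s.dx)
    (fun σ : {σ : Finset (Fin s.m) // a ∈ σ} => d.B Λ σ.1) (fun σ => d.S Λ σ.1)
    (fun σ => h.S_le_B σ.1) (fun σ => h.isGr_B σ.1) (fun σ _ hx => h.deg_S σ.1 hx)
    (fun β => by
      obtain ⟨k, w, h1, h2⟩ := h.piece_fg a β
      exact ⟨k, w, fun j => (h1 j).1, fun σ => ⟨fun j => d.B1_le_B σ.2 (h1 j).2, h2 σ.1 σ.2⟩⟩)
    (h.hom_tau a q) (h.hom_theta a) ((q : ℤ) • s.δ)
  refine ⟨k, η, fun σ ha => ?_⟩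
  rw [LG, h.LB_eq q ha]
  exact hη ⟨σ, ha⟩

theorem Amb.glat_shift (h : d.Amb Λ D) {σ : Finset (Fin s.m)} {a : Fin s.m} (ha : a ∈ σ)
    (q j : ℕ) (v : Fm (LA W₀ s.ρ) n) :
    (((d.u * d.G a) ^ j : (LA W₀ s.ρ)ˣ) : LA W₀ s.ρ) • v ∈ d.LG D (q + j * s.N) σ ↔
      v ∈ d.LG D q σ := by
  have h1 : IsDeg ((j : ℤ) • ((s.N : ℤ) • s.δ + 0))
      (((d.u * d.G a) ^ j : (LA W₀ s.ρ)ˣ) : LA W₀ s.ρ) := (h.du.mul (h.deg_G a)).pow j
  have h2 : ((q + j * s.N : ℕ) : ℤ) • s.δ =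
      (j : ℤ) • ((s.N : ℤ) • s.δ + 0) + (q : ℤ) • s.δ := by
    rw [add_zero, smul_smul, ← add_smul, Nat.cast_add, Nat.cast_mul, add_comm]
  rw [LG, LG, Submodule.mem_inf, Submodule.mem_inf, h.LB_eq _ ha, h.LB_eq _ ha,
    latS_as ((h.tau_add a q j).mono (d.B1_le_B ha)), mul_comm (d.tau a q), Units.val_mul,
    latS_unit, h2, glat_Fdeg_unit h1]

/-- For each residue `q₀ < N` and chart `a`, `lat_deg_fg` (index type `{σ // a ∈ σ}`) with
`piece_fg` gives generators `η a` of `LG q₀ σ` over `S σ`. Pad them to a common index type and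
apply `serre_lat` with `L j σ = {v | u ^ j • v ∈ LG (q₀ + j N) σ}` (`tau_add`, `LB_eq`, `du`,
`deg_G`), then `CExact.of_equiv`. -/
theorem Good.cexact_LG [IsNoetherianRing Λ] (h : d.Good Λ D) :
    ∃ q1 : ℕ, ∀ q, q1 ≤ q → ∀ k, 1 ≤ k →
      CExact (fun σ => (d.LG D q σ : Set (Fm (LA W₀ s.ρ) n))) k := by
  have := d.toRD.T_noeth (Λ := Λ)
  have hN : 0 < s.N := Nat.mul_pos h.hr h.hM
  have key : ∀ q0 : ℕ, ∃ J : ℕ, ∀ j, J ≤ j → ∀ k, 1 ≤ k →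
      CExact (fun σ => (d.LG D (q0 + j * s.N) σ : Set (Fm (LA W₀ s.ρ) n))) k := by
    intro q0
    choose kk η hη using fun a => h.toAmb.glat_gen a q0
    obtain ⟨i0, hi⟩ := serre_lat s.a0 (d.T Λ) (d.sp Λ d.bg)
      (Submodule.fg_span (Set.finite_range _)) d.G h.hG h.hred (d.S Λ)
      (fun σ hσ w => h.mem_S_iff hσ w)
      (fun a (i : Σ b, Fin (kk b)) => if i.1 = a then η i.1 i.2 else 0)
      (fun j σ => {v | ((d.u ^ j : (LA W₀ s.ρ)ˣ) : LA W₀ s.ρ) • v ∈ d.LG D (q0 + j * s.N) σ}) (by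
        intro j σ a ha
        ext v
        obtain ⟨v, rfl⟩ : ∃ v', v = ((d.G a ^ j : (LA W₀ s.ρ)ˣ) : LA W₀ s.ρ) • v' :=
          ⟨(((d.G a ^ j)⁻¹ : (LA W₀ s.ρ)ˣ) : LA W₀ s.ρ) • v, by
            rw [smul_smul, Units.mul_inv, one_smul]⟩
        rw [Set.mem_ofPred_eq, smul_smul, ← Units.val_mul, ← mul_pow, h.toAmb.glat_shift ha,
          ← Units.val_pow_eq_pow_val, SetLike.mem_coe, glat_span_unit, glat_pad η a,
          ← SetLike.mem_coe, hη a σ ha, SetLike.mem_coe])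
    obtain ⟨j0, hj⟩ := hi i0 le_rfl
    refine ⟨j0 + i0, fun j hJ k hk => ?_⟩
    obtain ⟨j', rfl⟩ : ∃ j', j = j' + i0 := ⟨j - i0, by omega⟩
    exact CExact.of_equiv (DistribMulAction.toAddEquiv (Fm (LA W₀ s.ρ) n) (d.u ^ (j' + i0))) hk
      (fun _ _ _ => Iff.rfl) ((hj j' (by omega)).1 k hk)
  choose J hJ using key
  refine ⟨(∑ q0 ∈ Finset.range s.N, J q0) * s.N, fun q hq k hk => ?_⟩
  have h1 : J (q % s.N) ≤ q / s.N :=
    (Finset.single_le_sum (f := J) (fun _ _ => Nat.zero_le _)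
      (Finset.mem_range.2 (Nat.mod_lt q hN))).trans ((Nat.le_div_iff_mul_le hN).2 hq)
  have h2 := hJ _ _ h1 k hk
  rwa [Nat.mod_add_div'] at h2

theorem map_B1 {κ W₁ : Type} [CommRing κ] [CommRing W₁] [Algebra κ W₁] {χ : Λ →+* κ}
    {π : W₀ →+* W₁} (hπ : IsRed χ π) (d : GD s W₀) (a : Fin s.m) :
    (((d.map π).B1 κ a : Subalgebra κ (LA W₁ s.ρ)) : Set (LA W₁ s.ρ)) =
      lmap s.ρ π '' (d.B1 Λ a : Set (LA W₀ s.ρ)) := by
  rw [B1, B1, ← latS_adjoin hπ.lmap, Set.image_union, ← Set.range_comp, ← Set.range_comp]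
  rfl

theorem map_B {κ W₁ : Type} [CommRing κ] [CommRing W₁] [Algebra κ W₁] {χ : Λ →+* κ}
    {π : W₀ →+* W₁} (hπ : IsRed χ π) (d : GD s W₀) (σ : Finset (Fin s.m)) :
    (((d.map π).B κ σ : Subalgebra κ (LA W₁ s.ρ)) : Set (LA W₁ s.ρ)) =
      lmap s.ρ π '' (d.B Λ σ : Set (LA W₀ s.ρ)) := by
  have h1 : d.B Λ σ = Algebra.adjoin Λ (⋃ a ∈ σ, (d.B1 Λ a : Set (LA W₀ s.ρ))) := by
    simp only [B, ← Set.iSup_eq_iUnion, Algebra.gc.l_iSup, Algebra.adjoin_eq]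
  have h2 : (d.map π).B κ σ =
      Algebra.adjoin κ (⋃ a ∈ σ, ((d.map π).B1 κ a : Set (LA W₁ s.ρ))) := by
    simp only [B, ← Set.iSup_eq_iUnion, Algebra.gc.l_iSup, Algebra.adjoin_eq]
  rw [h1, h2, ← latS_adjoin hπ.lmap, Set.image_iUnion₂]
  simp only [map_B1 hπ]

theorem map_SE {κ W₁ : Type} [CommRing κ] [CommRing W₁] [Algebra κ W₁] {χ : Λ →+* κ}
    {π : W₀ →+* W₁} (hπ : IsRed χ π) (d : GD s W₀) (i : Fin s.ne) :
    (((d.map π).SE κ i : Subalgebra κ (LA W₁ s.ρ)) : Set (LA W₁ s.ρ)) =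
      lmap s.ρ π '' (d.SE Λ i : Set (LA W₀ s.ρ)) := by
  rw [SE, SE, ← latS_adjoin hπ.lmap, Set.image_union, Set.image_union, lmap_taus,
    Set.image_singleton, ← Set.range_comp]
  rfl

theorem map_SV {κ W₁ : Type} [CommRing κ] [CommRing W₁] [Algebra κ W₁] {χ : Λ →+* κ}
    {π : W₀ →+* W₁} (hπ : IsRed χ π) (d : GD s W₀) (a : Fin s.m) :
    (((d.map π).SV κ a : Subalgebra κ (LA W₁ s.ρ)) : Set (LA W₁ s.ρ)) =
      lmap s.ρ π '' (d.SV Λ a : Set (LA W₀ s.ρ)) := by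
  rw [SV, SV, ← Algebra.adjoin_eq (d.S1 Λ a), ← Algebra.adjoin_eq ((d.map π).S1 κ a),
    ← Algebra.adjoin_union, ← Algebra.adjoin_union, ← latS_adjoin hπ.lmap, Set.image_union,
    Set.image_union, ← Set.range_comp, ← Set.range_comp, ← RD.map_S1 hπ.lmap]
  rfl

/-- `cexact_map` with `lat_flat`, `lat_pure`, `fmap_lat`, `flat_inf_Fdeg`, `pure_inf_Fdeg`,
`fmap_inf_Fdeg`, `IsRed.lmap`. -/
theorem Good.cexact_red (h : d.Good Λ D) {κ W₁ : Type} [CommRing κ] [CommRing W₁] [Algebra κ W₁]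
    {χ : Λ →+* κ} {π : W₀ →+* W₁} (hπ : IsRed χ π) (hp : d.PureAt (RingHom.ker χ))
    {D' : Fin n → Derivation κ (LA W₁ s.ρ) (LA W₁ s.ρ)}
    (hD' : ∀ i w, D' i (lmap s.ρ π w) = lmap s.ρ π (D i w)) (h' : (d.map π).Good κ D') {q : ℕ}
    (hex : ∀ k, 1 ≤ k → CExact (fun σ => (d.LG D q σ : Set (Fm (LA W₀ s.ρ) n))) k) (k : ℕ)
    (hk : 1 ≤ k) : CExact (fun σ => ((d.map π).LG D' q σ : Set (Fm (LA W₁ s.ρ) n))) k := by
  have hdet : ∀ a, IsUnit (Matrix.of (d.theta D a)).det := fun a => by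
    rw [h.det_theta]
    exact Units.isUnit _
  have hpr : ∀ σ : Finset (Fin s.m), σ.Nonempty → ∀ w ∈ d.LB D q σ,
      prF s.dx ((q : ℤ) • s.δ) w ∈ d.LB D q σ := fun σ hσ w hw => h.prF_mem_LB q hσ _ hw
  have h1 := cexact_map (RingHom.ker χ) (fmap n (lmap s.ρ π)) (fmap_eq_zero_iff hπ.lmap)
    (d.LG D q) (fun σ σ' _ hσ => h.LG_mono q hσ)
    (fun σ ⟨a, ha⟩ => flat_inf_Fdeg (hpr σ ⟨a, ha⟩) (by
      rw [h.LB_eq q ha]
      exact lat_flat (Units.isUnit _) (hdet a) (h.etc_B ha).flat))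
    (fun σ ⟨a, ha⟩ => pure_inf_Fdeg (hpr σ ⟨a, ha⟩) (by
      rw [h.LB_eq q ha]
      exact lat_pure (Units.isUnit _) (hdet a) (hp.hB σ ⟨a, ha⟩)))
    hex k hk
  refine CExact.of_equiv (AddEquiv.refl _) hk (fun σ ⟨a, ha⟩ v => ?_) h1
  have h2 : lmap s.ρ π (d.tau a q : LA W₀ s.ρ) = ((d.map π).tau a q : LA W₁ s.ρ) := by
    have h3 : Units.map (lmap s.ρ π : LA W₀ s.ρ →* LA W₁ s.ρ) (d.tau a q) =
        (d.map π).tau a q := by
      simp only [RD.tau, map_mul, map_pow, map_prod, map_zpow]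
      rfl
    rw [← h3]
    rfl
  have h3 : (fun l i => lmap s.ρ π (d.theta D a l i)) = (d.map π).theta D' a := by
    funext l i
    have h4 : Units.map (lmap s.ρ π : LA W₀ s.ρ →* LA W₁ s.ρ) (d.tl a l) = (d.map π).tl a l := by
      simp only [RD.tl, map_prod]
      rfl
    simp only [RD.theta, grad, Pi.smul_apply, smul_eq_mul, map_mul, ← h4, ← hD']
    rfl
  have h4 : fmap n (lmap s.ρ π) '' (d.LB D q σ : Set (Fm (LA W₀ s.ρ) n)) =
      ((d.map π).LB D' q σ : Set (Fm (LA W₁ s.ρ) n)) := by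
    rw [h.LB_eq q ha, h'.LB_eq q ha, fmap_lat (lmap s.ρ π) (map_B hπ d σ), h2, h3]
  rw [LG, fmap_inf_Fdeg π (hpr σ ⟨a, ha⟩) h4]
  rfl

end GD

end

end Pool.Agent.Lib.MP_4287a9_ag
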