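import Pool.Agent.Lib.MP_4287a9_ag.D4

/-!
Homogeneous elements of Laurent polynomial rings.
-/

open scoped TensorProduct ENNReal NNReal nonZeroDivisors Polynomial
open Filter

namespace Pool.Agent.Lib.MP_4287a9_ag

noncomputable section

variable {W₀ : Type} [CommRing W₀] {ρ : ℕ}

private theorem gra_pr (γ : Fin ρ → ℤ) (w : LA W₀ ρ) :
    pr γ w = AddMonoidAlgebra.single γ (w.coeff γ) := rfl

private theorem gra_single {γ : Fin ρ → ℤ} {w : LA W₀ ρ} (h : IsDeg γ w) :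
    AddMonoidAlgebra.single γ (w.coeff γ) = w := by
  apply AddMonoidAlgebra.coeff_injective
  ext β
  by_cases hβ : β = γ
  · subst hβ
    simp
  · rw [h β hβ, AddMonoidAlgebra.coeff_single, Finsupp.single_eq_of_ne hβ]

theorem isDeg_zero (γ : Fin ρ → ℤ) : IsDeg γ (0 : LA W₀ ρ) := by
  intro β _
  simp

theorem isDeg_one : IsDeg 0 (1 : LA W₀ ρ) := by
  intro β hβ
  rw [AddMonoidAlgebra.one_def, AddMonoidAlgebra.coeff_single, Finsupp.single_eq_of_ne hβ]

theorem isDeg_single (γ : Fin ρ → ℤ) (c : W₀) :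
    IsDeg γ (AddMonoidAlgebra.single γ c : LA W₀ ρ) := by
  intro β hβ
  rw [AddMonoidAlgebra.coeff_single, Finsupp.single_eq_of_ne hβ]

theorem isDeg_iff {γ : Fin ρ → ℤ} {w : LA W₀ ρ} : IsDeg γ w ↔ pr γ w = w := by
  refine ⟨gra_single, fun h => ?_⟩
  rw [← h]
  exact isDeg_single _ _

theorem isDeg_pr (γ : Fin ρ → ℤ) (w : LA W₀ ρ) : IsDeg γ (pr γ w) := by
  exact isDeg_single _ _

theorem IsDeg.pr_of_ne {γ β : Fin ρ → ℤ} {w : LA W₀ ρ} (h : IsDeg γ w) (hβ : β ≠ γ) :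
    pr β w = 0 := by
  rw [gra_pr, h β hβ, AddMonoidAlgebra.single_zero]

theorem IsDeg.add {γ : Fin ρ → ℤ} {x y : LA W₀ ρ} (hx : IsDeg γ x) (hy : IsDeg γ y) :
    IsDeg γ (x + y) := by
  intro β hβ
  simp [hx β hβ, hy β hβ]

theorem IsDeg.neg {γ : Fin ρ → ℤ} {x : LA W₀ ρ} (hx : IsDeg γ x) : IsDeg γ (-x) := by
  intro β hβ
  simp [hx β hβ]

theorem IsDeg.sum {γ : Fin ρ → ℤ} {ι : Type} (t : Finset ι) {x : ι → LA W₀ ρ}
    (hx : ∀ i ∈ t, IsDeg γ (x i)) : IsDeg γ (∑ i ∈ t, x i) := by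
  exact Finset.sum_induction x (IsDeg γ) (fun _ _ => IsDeg.add) (isDeg_zero γ) hx

theorem IsDeg.mul {γ β : Fin ρ → ℤ} {x y : LA W₀ ρ} (hx : IsDeg γ x) (hy : IsDeg β y) :
    IsDeg (γ + β) (x * y) := by
  rw [← gra_single hx, ← gra_single hy, AddMonoidAlgebra.single_mul_single]
  exact isDeg_single _ _

theorem IsDeg.pow {γ : Fin ρ → ℤ} {x : LA W₀ ρ} (hx : IsDeg γ x) (k : ℕ) :
    IsDeg ((k : ℤ) • γ) (x ^ k) := by
  induction k with
  | zero => simpa using isDeg_one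
  | succ k ih =>
    rw [pow_succ, Nat.cast_succ, add_smul, one_smul]
    exact ih.mul hx

theorem IsDeg.prod {ι : Type} (t : Finset ι) {γ : ι → Fin ρ → ℤ} {x : ι → LA W₀ ρ}
    (hx : ∀ i ∈ t, IsDeg (γ i) (x i)) : IsDeg (∑ i ∈ t, γ i) (∏ i ∈ t, x i) := by
  classical
  induction t using Finset.induction_on with
  | empty => simpa using isDeg_one
  | insert a s ha ih =>
    rw [Finset.sum_insert ha, Finset.prod_insert ha]
    exact (hx a (Finset.mem_insert_self _ _)).mul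
      (ih fun i hi => hx i (Finset.mem_insert_of_mem hi))

theorem IsDeg.zsmul {γ : Fin ρ → ℤ} {x : LA W₀ ρ} (hx : IsDeg γ x) (k : ℤ) : IsDeg γ (k • x) := by
  intro β hβ
  rw [AddMonoidAlgebra.coeff_smul_apply, hx β hβ, smul_zero]

theorem isDeg_algebraMap {Λ : Type} [CommRing Λ] [Algebra Λ W₀] (c : Λ) :
    IsDeg 0 (algebraMap Λ (LA W₀ ρ) c) := by
  exact isDeg_single 0 (algebraMap Λ W₀ c)

/-- The coefficient of `x` is a unit, so all other coefficients of `y` vanish. -/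
theorem IsDeg.of_mul_eq_one {γ : Fin ρ → ℤ} {x y : LA W₀ ρ} (hx : IsDeg γ x) (h : y * x = 1) :
    IsDeg (-γ) y := by
  intro β hβ
  rw [← gra_single hx] at h
  have h1 := AddMonoidAlgebra.coeff_mul_single_add y (x.coeff γ) γ β
  have h2 := AddMonoidAlgebra.coeff_mul_single_add y (x.coeff γ) γ (-γ)
  rw [h, isDeg_one _ fun h0 => hβ (eq_neg_of_add_eq_zero_left h0)] at h1
  rw [h, neg_add_cancel, AddMonoidAlgebra.coeff_one_zero] at h2
  calc y.coeff β = y.coeff β * (y.coeff (-γ) * x.coeff γ) := by rw [← h2, mul_one]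
    _ = y.coeff β * x.coeff γ * y.coeff (-γ) := by ring
    _ = 0 := by rw [← h1, zero_mul]

theorem IsDeg.zpow {γ : Fin ρ → ℤ} {x : (LA W₀ ρ)ˣ} (hx : IsDeg γ (x : LA W₀ ρ)) (k : ℤ) :
    IsDeg (k • γ) ((x ^ k : (LA W₀ ρ)ˣ) : LA W₀ ρ) := by
  obtain ⟨n, rfl | rfl⟩ := k.eq_nat_or_neg
  · rw [zpow_natCast, Units.val_pow_eq_pow_val]
    exact hx.pow n
  · rw [zpow_neg, zpow_natCast, neg_smul]
    refine IsDeg.of_mul_eq_one (hx.pow n) ?_
    rw [← Units.val_pow_eq_pow_val, Units.inv_mul]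

theorem pr_mul_deg {γ : Fin ρ → ℤ} {x : LA W₀ ρ} (hx : IsDeg γ x) (β : Fin ρ → ℤ)
    (w : LA W₀ ρ) : pr (β + γ) (w * x) = pr β w * x := by
  rw [← gra_single hx, gra_pr, gra_pr, AddMonoidAlgebra.coeff_mul_single_add,
    AddMonoidAlgebra.single_mul_single]

theorem pr_smul {Λ : Type} [CommRing Λ] [Algebra Λ W₀] (γ : Fin ρ → ℤ) (c : Λ) (w : LA W₀ ρ) :
    pr γ (c • w) = c • pr γ w := by
  rw [gra_pr, gra_pr, AddMonoidAlgebra.coeff_smul_apply, AddMonoidAlgebra.smul_single]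

theorem sum_pr (w : LA W₀ ρ) : ∑ γ ∈ w.coeff.support, pr γ w = w := by
  exact AddMonoidAlgebra.sum_coeff_single w

theorem isHom_taus {w : LA W₀ ρ} (hw : w ∈ GD.taus W₀ ρ) : IsHom w := by
  rcases hw with ⟨c, rfl⟩ | ⟨c, rfl⟩
  · exact ⟨_, isDeg_single (Pi.single c 1) 1⟩
  · exact ⟨_, isDeg_single (-Pi.single c 1) 1⟩

theorem isGr_adjoin {Λ : Type} [CommRing Λ] [Algebra Λ W₀] {t : Set (LA W₀ ρ)}
    (h : ∀ x ∈ t, IsHom x) : IsGr (Algebra.adjoin Λ t) := by
  intro γ w hw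
  have hw' : w ∈ Submodule.span Λ (Submonoid.closure t : Set (LA W₀ ρ)) := by
    rw [← Algebra.adjoin_eq_span]
    exact hw
  clear hw
  induction hw' using Submodule.span_induction with
  | mem x hx =>
    have h1 : IsHom x ∧ x ∈ Algebra.adjoin Λ t := by
      induction hx using Submonoid.closure_induction with
      | mem y hy => exact ⟨h y hy, Algebra.subset_adjoin hy⟩
      | one => exact ⟨⟨0, isDeg_one⟩, one_mem _⟩
      | mul y z _ _ hy hz =>
        obtain ⟨⟨a, ha⟩, ha'⟩ := hy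
        obtain ⟨⟨b, hb⟩, hb'⟩ := hz
        exact ⟨⟨_, ha.mul hb⟩, mul_mem ha' hb'⟩
    obtain ⟨⟨a, ha⟩, hx'⟩ := h1
    by_cases hγ : γ = a
    · rw [hγ, isDeg_iff.1 ha]
      exact hx'
    · rw [ha.pr_of_ne hγ]
      exact zero_mem _
  | zero => rw [map_zero]; exact zero_mem _
  | add x y _ _ hx hy => rw [map_add]; exact add_mem hx hy
  | smul c x _ hx => rw [pr_smul]; exact Subalgebra.smul_mem _ hx c

theorem isDeg_of_mem_adjoin {Λ : Type} [CommRing Λ] [Algebra Λ W₀] {t : Set (LA W₀ ρ)}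
    (h : ∀ x ∈ t, IsDeg 0 x) {w : LA W₀ ρ} (hw : w ∈ Algebra.adjoin Λ t) : IsDeg 0 w := by
  induction hw using Algebra.adjoin_induction with
  | mem x hx => exact h x hx
  | algebraMap c => exact isDeg_algebraMap c
  | add x y _ _ hx hy => exact hx.add hy
  | mul x y _ _ hx hy => simpa using hx.mul hy

/-- Every element of `adjoin (t ∪ taus)` is a sum of terms `c * τ ^ β` with `c ∈ adjoin t`. -/
theorem mem_adjoin_of_deg_zero {Λ : Type} [CommRing Λ] [Algebra Λ W₀] {t : Set (LA W₀ ρ)}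
    (h : ∀ x ∈ t, IsDeg 0 x) {w : LA W₀ ρ} (hw : w ∈ Algebra.adjoin Λ (t ∪ GD.taus W₀ ρ))
    (h0 : IsDeg 0 w) : w ∈ Algebra.adjoin Λ t := by
  rw [← isDeg_iff.1 h0]
  have hw' : w ∈ Submodule.span Λ (Submonoid.closure (t ∪ GD.taus W₀ ρ) : Set (LA W₀ ρ)) := by
    rw [← Algebra.adjoin_eq_span]
    exact hw
  clear hw h0
  induction hw' using Submodule.span_induction with
  | mem x hx =>
    have h1 : ∃ β, ∃ c ∈ Algebra.adjoin Λ t, x = c * AddMonoidAlgebra.single β 1 := by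
      induction hx using Submonoid.closure_induction with
      | mem y hy =>
        rcases hy with hy | ⟨c, rfl⟩ | ⟨c, rfl⟩
        · exact ⟨0, y, Algebra.subset_adjoin hy, (mul_one y).symm⟩
        · exact ⟨Pi.single c 1, 1, one_mem _, (one_mul _).symm⟩
        · exact ⟨-Pi.single c 1, 1, one_mem _, (one_mul _).symm⟩
      | one => exact ⟨0, 1, one_mem _, (mul_one _).symm⟩
      | mul y z _ _ hy hz =>
        obtain ⟨a, c, hc, rfl⟩ := hy
        obtain ⟨b, d, hd, rfl⟩ := hz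
        refine ⟨a + b, c * d, mul_mem hc hd, ?_⟩
        rw [mul_mul_mul_comm, AddMonoidAlgebra.single_mul_single, mul_one]
    obtain ⟨β, c, hc, rfl⟩ := h1
    have h2 := (isDeg_of_mem_adjoin h hc).mul (isDeg_single β (1 : W₀))
    rw [zero_add] at h2
    by_cases hβ : 0 = β
    · subst hβ
      rw [isDeg_iff.1 h2, ← AddMonoidAlgebra.one_def, mul_one]
      exact hc
    · rw [h2.pr_of_ne hβ]
      exact zero_mem _
  | zero => rw [map_zero]; exact zero_mem _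
  | add x y _ _ hx hy => rw [map_add]; exact add_mem hx hy
  | smul c x _ hx => rw [pr_smul]; exact Subalgebra.smul_mem _ hx c

theorem lmap_pr {W₁ : Type} [CommRing W₁] (f : W₀ →+* W₁) (γ : Fin ρ → ℤ) (w : LA W₀ ρ) :
    lmap ρ f (pr γ w) = pr γ (lmap ρ f w) := by
  rw [gra_pr, gra_pr, AddMonoidAlgebra.mapRingHom_single, AddMonoidAlgebra.coeff_mapRingHom]

theorem IsDeg.lmap {W₁ : Type} [CommRing W₁] (f : W₀ →+* W₁) {γ : Fin ρ → ℤ} {w : LA W₀ ρ}
    (h : IsDeg γ w) : IsDeg γ (lmap ρ f w) := by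
  rw [isDeg_iff, ← lmap_pr, isDeg_iff.1 h]

theorem lmap_taus {W₁ : Type} [CommRing W₁] (f : W₀ →+* W₁) :
    lmap ρ f '' GD.taus W₀ ρ = GD.taus W₁ ρ := by
  have h : ∀ β : Fin ρ → ℤ, lmap ρ f (AddMonoidAlgebra.single β 1) =
      AddMonoidAlgebra.single β 1 := fun β => by
    rw [AddMonoidAlgebra.mapRingHom_single, map_one]
  unfold GD.taus
  rw [Set.image_union, ← Set.range_comp, ← Set.range_comp]
  congr 2
  · funext c
    exact h (Pi.single c 1)
  · funext c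
    exact h (-Pi.single c 1)

theorem IsRed.lmap {Λ κ W₁ : Type} [CommRing Λ] [CommRing κ] [CommRing W₁] [Algebra Λ W₀]
    [Algebra κ W₁] {χ : Λ →+* κ} {π : W₀ →+* W₁} (h : IsRed χ π) : IsRed χ (lmap ρ π) := by
  have hc : ∀ a, Pool.Agent.Lib.MP_4287a9_ag.lmap ρ π (algebraMap Λ (LA W₀ ρ) a) =
      algebraMap κ (LA W₁ ρ) (χ a) := by
    intro a
    change Pool.Agent.Lib.MP_4287a9_ag.lmap ρ π (AddMonoidAlgebra.single 0 (algebraMap Λ W₀ a)) =
      AddMonoidAlgebra.single 0 (algebraMap κ W₁ (χ a))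
    rw [AddMonoidAlgebra.mapRingHom_single, h.comm]
  refine ⟨h.surjχ, fun w => ?_, hc, fun w => ⟨fun hw => ?_, fun hw => ?_⟩⟩
  · induction w using AddMonoidAlgebra.induction_linear with
    | zero => exact ⟨0, map_zero _⟩
    | add x y hx hy =>
      obtain ⟨a, rfl⟩ := hx
      obtain ⟨b, rfl⟩ := hy
      exact ⟨a + b, map_add _ _ _⟩
    | single β c =>
      obtain ⟨a, rfl⟩ := h.surj c
      exact ⟨AddMonoidAlgebra.single β a, AddMonoidAlgebra.mapRingHom_single _ _ _⟩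
  · rw [← sum_pr w]
    refine Submodule.sum_mem _ fun β _ => ?_
    have h1 : π (w.coeff β) = 0 := by
      rw [← AddMonoidAlgebra.coeff_mapRingHom, hw]
      simp
    rw [gra_pr]
    refine Submodule.smul_induction_on
      (p := fun c => (AddMonoidAlgebra.single β c : LA W₀ ρ) ∈
        RingHom.ker χ • (⊤ : Submodule Λ (LA W₀ ρ))) ((h.ker _).1 h1) (fun a ha c _ => ?_)
      (fun x y hx hy => ?_)
    · rw [← AddMonoidAlgebra.smul_single]
      exact Submodule.smul_mem_smul ha Submodule.mem_top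
    · rw [AddMonoidAlgebra.single_add]
      exact add_mem hx hy
  · refine Submodule.smul_induction_on
      (p := fun w => Pool.Agent.Lib.MP_4287a9_ag.lmap ρ π w = 0) hw (fun a ha c _ => ?_)
      (fun x y hx hy => ?_)
    · rw [Algebra.smul_def, map_mul, hc, RingHom.mem_ker.1 ha, map_zero, zero_mul]
    · rw [map_add, hx, hy, add_zero]

end

end Pool.Agent.Lib.MP_4287a9_ag
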