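import Pool.Agent.Lib.MP_4287a9_ag.D3

/-!
Twisting the blown up ideal by a power of `𝔞`.
-/

open scoped TensorProduct ENNReal NNReal nonZeroDivisors Polynomial
open Filter

namespace Pool.Agent.Lib.MP_4287a9_ag

noncomputable section

variable {k A : Type} [Field k] [CommRing A] [IsDomain A] [Algebra k A]

theorem twist_num {μ : ℕ} {r M : ℕ} (hr : 0 < r) (hM : 0 < M) (t : ℝ≥0) (h b : Fin μ → ℕ)
    (α : Fin μ → ℤ) (hα : ∀ i, -1 < (α i : ℝ) / ((r : ℝ) * M) - (t : ℝ) * b i) :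
    ∃ w a1 : ℕ, 0 < w ∧ 0 < a1 ∧ (t : ℝ) * ((r * (w * M) : ℕ) : ℝ) < a1 ∧
      ∀ i, -((r * (w * M) : ℕ) : ℤ) < w * α i - h i - a1 * b i := by
  have hN : (0 : ℝ) < (r : ℝ) * M := by positivity
  have h1 : ∀ i, ∀ᶠ w : ℕ in atTop, (h i : ℝ) + b i <
      (w : ℝ) * ((α i : ℝ) - (t : ℝ) * ((r : ℝ) * M) * b i + (r : ℝ) * M) := by
    intro i
    have h2 : 0 < (α i : ℝ) - (t : ℝ) * ((r : ℝ) * M) * b i + (r : ℝ) * M := by
      have h3 := mul_lt_mul_of_pos_right (hα i) hN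
      rw [sub_mul, div_mul_cancel₀ _ hN.ne'] at h3
      linarith
    exact (tendsto_natCast_atTop_atTop.atTop_mul_const h2).eventually_gt_atTop _
  obtain ⟨w, hw1, hw2⟩ := ((eventually_all.2 h1).and (eventually_gt_atTop 0)).exists
  have h0 : (0 : ℝ) ≤ (t : ℝ) * ((r * (w * M) : ℕ) : ℝ) := by positivity
  refine ⟨w, ⌊(t : ℝ) * ((r * (w * M) : ℕ) : ℝ)⌋₊ + 1, hw2, Nat.succ_pos _, ?_, fun i => ?_⟩
  · rw [Nat.cast_add, Nat.cast_one]
    exact Nat.lt_floor_add_one _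
  · have h3 := Nat.floor_le h0
    generalize ⌊(t : ℝ) * ((r * (w * M) : ℕ) : ℝ)⌋₊ = a at h3
    have h4 := mul_le_mul_of_nonneg_right h3 (Nat.cast_nonneg (α := ℝ) (b i))
    have h5 := hw1 i
    have h6 : -((r * (w * M) : ℕ) : ℝ) < w * (α i : ℝ) - h i - ((a + 1 : ℕ) : ℝ) * b i := by
      push_cast at h4 ⊢
      nlinarith
    exact_mod_cast h6

theorem H0a_pow_mem {S : Subalgebra k (FractionRing A)}
    (hA : ∀ a, algebraMap A (FractionRing A) a ∈ S) {𝔠 : Ideal A} {G : A}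
    (hc : ∀ c ∈ 𝔠, algebraMap A (FractionRing A) c / algebraMap A (FractionRing A) G ∈ S)
    (ν : ℕ) : ∀ c ∈ 𝔠 ^ ν,
      algebraMap A (FractionRing A) c / algebraMap A (FractionRing A) G ^ ν ∈ S := by
  induction ν with
  | zero => intro c _; simpa using hA c
  | succ ν ih =>
    intro c hc'
    rw [pow_succ] at hc'
    refine Submodule.mul_induction_on hc' (fun x hx y hy => ?_) (fun x y hx hy => ?_)
    · rw [map_mul, pow_succ, ← div_mul_div_comm]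
      exact mul_mem (ih x hx) (hc y hy)
    · rw [map_add, add_div]
      exact add_mem hx hy

theorem H0a_alg_mem (s : A) (𝔠 : Ideal A) (G a : A) :
    algebraMap A (FractionRing A) a ∈ chart k s 𝔠 G :=
  Algebra.subset_adjoin (Or.inl (Or.inl ⟨a, rfl⟩))

theorem H0a_inv_mem (s : A) (𝔠 : Ideal A) (G : A) :
    (algebraMap A (FractionRing A) s)⁻¹ ∈ chart k s 𝔠 G :=
  Algebra.subset_adjoin (Or.inl (Or.inr rfl))

theorem H0a_div_mem (s : A) {𝔠 : Ideal A} (G : A) {c : A} (hc : c ∈ 𝔠) :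
    algebraMap A (FractionRing A) c / algebraMap A (FractionRing A) G ∈ chart k s 𝔠 G :=
  Algebra.subset_adjoin (Or.inr ⟨c, hc, rfl⟩)

theorem mem_chart_iff {s G : A} (hs : s ≠ 0) {𝔠 : Ideal A} (hG : G ∈ 𝔠) (hG0 : G ≠ 0)
    (z : FractionRing A) : z ∈ chart k s 𝔠 G ↔ ∃ (i ν : ℕ), ∃ c ∈ 𝔠 ^ ν,
      algebraMap A (FractionRing A) (s ^ i * G ^ ν) * z = algebraMap A (FractionRing A) c := by
  have hs' : algebraMap A (FractionRing A) s ≠ 0 :=
    (map_ne_zero_iff _ (IsFractionRing.injective A _)).2 hs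
  have hG' : algebraMap A (FractionRing A) G ≠ 0 :=
    (map_ne_zero_iff _ (IsFractionRing.injective A _)).2 hG0
  constructor
  · intro hz
    induction hz using Algebra.adjoin_induction with
    | mem x hx =>
      rcases hx with (⟨a, rfl⟩ | rfl) | ⟨c, hc, rfl⟩
      · exact ⟨0, 0, a, by simp, by simp⟩
      · exact ⟨1, 0, 1, by simp, by simp [hs']⟩
      · refine ⟨0, 1, c, by simpa using hc, ?_⟩
        rw [pow_zero, one_mul, pow_one, mul_div_cancel₀ _ hG']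
    | algebraMap x =>
      refine ⟨0, 0, algebraMap k A x, by simp, ?_⟩
      rw [← IsScalarTower.algebraMap_apply]
      simp
    | add x y _ _ hx hy =>
      obtain ⟨i, ν, c, hc, e⟩ := hx
      obtain ⟨i', ν', c', hc', e'⟩ := hy
      refine ⟨i + i', ν + ν', s ^ i' * (c * G ^ ν') + s ^ i * (G ^ ν * c'), ?_, ?_⟩
      · rw [pow_add]
        exact add_mem (Ideal.mul_mem_left _ _ (Ideal.mul_mem_mul hc (Ideal.pow_mem_pow hG _)))
          (Ideal.mul_mem_left _ _ (Ideal.mul_mem_mul (Ideal.pow_mem_pow hG _) hc'))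
      · simp only [map_add, map_mul, map_pow] at e e' ⊢
        rw [← e, ← e']
        ring
    | mul x y _ _ hx hy =>
      obtain ⟨i, ν, c, hc, e⟩ := hx
      obtain ⟨i', ν', c', hc', e'⟩ := hy
      refine ⟨i + i', ν + ν', c * c', ?_, ?_⟩
      · rw [pow_add]
        exact Ideal.mul_mem_mul hc hc'
      · simp only [map_mul, map_pow] at e e' ⊢
        rw [← e, ← e']
        ring
  · rintro ⟨i, ν, c, hc, e⟩
    have e1 : z = (algebraMap A (FractionRing A) s)⁻¹ ^ i *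
        (algebraMap A (FractionRing A) c / algebraMap A (FractionRing A) G ^ ν) := by
      rw [← e, map_mul, map_pow, map_pow, inv_pow]
      field_simp
    rw [e1]
    exact mul_mem (pow_mem (H0a_inv_mem s 𝔠 G) i)
      (H0a_pow_mem (H0a_alg_mem s 𝔠 G) (fun c hc => H0a_div_mem s G hc) ν c hc)

theorem chart_twist {s G f : A} {𝔠 𝔞 : Ideal A} (hG : G ∈ 𝔠) (hG0 : G ≠ 0) (hf : f ∈ 𝔞)
    (hf0 : f ≠ 0) (h : ∀ c ∈ 𝔞, algebraMap A (FractionRing A) c /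
      algebraMap A (FractionRing A) f ∈ chart k s 𝔠 G) (a1 : ℕ) :
    chart k s (𝔠 * 𝔞 ^ a1) (G * f ^ a1) = chart k s 𝔠 G := by
  have _ := hG
  have _ := hG0
  have hf' : algebraMap A (FractionRing A) f ≠ 0 :=
    (map_ne_zero_iff _ (IsFractionRing.injective A _)).2 hf0
  refine le_antisymm (Algebra.adjoin_le ?_) (Algebra.adjoin_le ?_)
  · rintro _ ((⟨a, rfl⟩ | rfl) | ⟨c, hc, rfl⟩)
    · exact H0a_alg_mem s _ _ a
    · exact H0a_inv_mem s _ _
    · rw [SetLike.mem_coe]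
      refine Submodule.mul_induction_on hc (fun x hx y hy => ?_) (fun x y hx hy => ?_)
      · rw [map_mul, map_mul, map_pow, ← div_mul_div_comm]
        exact mul_mem (H0a_div_mem s G hx) (H0a_pow_mem (H0a_alg_mem s 𝔠 G) h a1 y hy)
      · rw [map_add, add_div]
        exact add_mem hx hy
  · rintro _ ((⟨a, rfl⟩ | rfl) | ⟨c, hc, rfl⟩)
    · exact H0a_alg_mem s _ _ a
    · exact H0a_inv_mem s _ _
    · have h1 := H0a_div_mem (k := k) s (G * f ^ a1)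
        (Ideal.mul_mem_mul hc (Ideal.pow_mem_pow hf a1))
      rwa [map_mul, map_mul, mul_div_mul_right _ _ (by rw [map_pow]; exact pow_ne_zero _ hf')] at h1

omit [IsDomain A] in
theorem H0a_two {I J 𝔠 : Ideal A} (hI : I ≤ 𝔠) (hJ : J ≤ 𝔠) (n m : ℕ) :
    (I + J) ^ (n + m) ≤ I ^ n * 𝔠 ^ m + J ^ m * 𝔠 ^ n := by
  rw [add_pow, Ideal.sum_eq_sup]
  refine Finset.sup_le fun i hi => Ideal.mul_le_left.trans ?_
  rw [Finset.mem_range] at hi
  by_cases hn : n ≤ i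
  · obtain ⟨e, rfl⟩ := Nat.exists_eq_add_of_le hn
    refine le_sup_of_le_left ?_
    have e1 : m = e + (n + m - (n + e)) := by omega
    rw [pow_add, mul_assoc]
    conv_rhs => rw [e1, pow_add]
    exact Ideal.mul_mono_right
      (Ideal.mul_mono (Ideal.pow_right_mono hI _) (Ideal.pow_right_mono hJ _))
  · refine le_sup_of_le_right ?_
    have e1 : n + m - i = m + (n - i) := by omega
    have e2 : n = n - i + i := by omega
    rw [e1, pow_add, mul_comm, mul_assoc]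
    conv_rhs => rw [e2, pow_add]
    exact Ideal.mul_mono_right
      (Ideal.mul_mono (Ideal.pow_right_mono hJ _) (Ideal.pow_right_mono hI _))

omit [IsDomain A] in
theorem H0a_pig {ι : Type} (S : Finset ι) {𝔠 : Ideal A} (Q : ι → Ideal A) (hQ : ∀ a, Q a ≤ 𝔠)
    (p : ℕ) : ∃ e : ℕ, (∑ a ∈ S, Q a) ^ (e + p) ≤ (∑ a ∈ S, Q a ^ p) * 𝔠 ^ e := by
  classical
  induction S using Finset.induction_on with
  | empty => exact ⟨1, by simp [pow_add]⟩
  | insert a S ha ih =>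
    obtain ⟨e, he⟩ := ih
    refine ⟨e + p, ?_⟩
    have h1 : ∑ a ∈ S, Q a ≤ 𝔠 := by
      rw [Ideal.sum_eq_sup]
      exact Finset.sup_le fun a _ => hQ a
    rw [Finset.sum_insert ha, Finset.sum_insert ha, add_comm (e + p) p, add_mul]
    refine (H0a_two (hQ a) h1 p (e + p)).trans (add_le_add le_rfl ?_)
    rw [pow_add 𝔠, ← mul_assoc]
    exact Ideal.mul_mono_left he

/-- `mem_chart_iff` on generators of `𝔞` gives `s ^ i G a ^ ν 𝔞 ⊆ f a 𝔠 ^ ν`. For large `L`,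
`s ^ _ 𝔠 ^ L ⊆ ∑ a, G a ^ (ν a₁ + 1) 𝔠 ^ (L - ν a₁ - 1)` (iterate the reduction, pigeonhole). -/
theorem red_twist [IsNoetherianRing A] {s : A} (hs : s ≠ 0) {𝔠 𝔞 : Ideal A} {ι : ℕ}
    {G f : Fin ι → A} (hG : ∀ a, G a ∈ 𝔠) (hG0 : ∀ a, G a ≠ 0) (hf0 : ∀ a, f a ≠ 0)
    (h : ∀ a, ∀ c ∈ 𝔞, algebraMap A (FractionRing A) c /
      algebraMap A (FractionRing A) (f a) ∈ chart k s 𝔠 (G a))
    (hred : ∃ ρ j : ℕ, Ideal.span {s ^ j} * 𝔠 ^ (ρ + 1) ≤ Ideal.span (Set.range G) * 𝔠 ^ ρ)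
    (a1 : ℕ) : ∃ ρ j : ℕ, Ideal.span {s ^ j} * (𝔠 * 𝔞 ^ a1) ^ (ρ + 1) ≤
      Ideal.span (Set.range fun a => G a * f a ^ a1) * (𝔠 * 𝔞 ^ a1) ^ ρ := by
  obtain ⟨ρ, j, hρ⟩ := hred
  obtain ⟨T, hT⟩ := (IsNoetherian.noetherian 𝔞 : 𝔞.FG)
  have h1 : ∀ a, ∀ c ∈ T, ∀ᶠ e : ℕ in atTop,
      s ^ e * G a ^ e * c ∈ Ideal.span {f a} * 𝔠 ^ e := by
    intro a c hc
    have hf' : algebraMap A (FractionRing A) (f a) ≠ 0 :=
      (map_ne_zero_iff _ (IsFractionRing.injective A _)).2 (hf0 a)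
    obtain ⟨i, ν, c', hc', e'⟩ := (mem_chart_iff hs (hG a) (hG0 a) _).1
      (h a c (hT ▸ Ideal.subset_span hc))
    have e1 : s ^ i * G a ^ ν * c = f a * c' := by
      apply IsFractionRing.injective A (FractionRing A)
      rw [map_mul, map_mul _ (f a), ← e']
      field_simp
    filter_upwards [eventually_ge_atTop i, eventually_ge_atTop ν] with e hi hν
    obtain ⟨i', hi'⟩ := Nat.exists_eq_add_of_le hi
    obtain ⟨ν', hν'⟩ := Nat.exists_eq_add_of_le hν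
    have e2 : s ^ e * G a ^ e * c = s ^ i' * (f a * (c' * G a ^ ν')) := by
      calc s ^ e * G a ^ e * c = s ^ (i + i') * G a ^ (ν + ν') * c := by rw [← hi', ← hν']
        _ = s ^ i' * (s ^ i * G a ^ ν * c * G a ^ ν') := by ring
        _ = _ := by rw [e1, mul_assoc]
    rw [e2]
    refine Ideal.mul_mem_left _ _ (Ideal.mul_mem_mul (Ideal.mem_span_singleton_self _) ?_)
    rw [hν', pow_add]
    exact Ideal.mul_mem_mul hc' (Ideal.pow_mem_pow (hG a) _)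
  obtain ⟨e0, he0⟩ :=
    (eventually_all.2 fun a => (eventually_all_finset T).2 (h1 a)).exists
  have h2 : ∀ a, Ideal.span {s} ^ e0 * Ideal.span {G a} ^ e0 * 𝔞 ≤
      Ideal.span {f a} * 𝔠 ^ e0 := by
    intro a
    rw [Ideal.span_singleton_pow, Ideal.span_singleton_pow,
      Ideal.span_singleton_mul_span_singleton, Ideal.span_singleton_mul_le_iff]
    have : 𝔞 ≤ Submodule.comap (LinearMap.mulLeft A (s ^ e0 * G a ^ e0))
        (Ideal.span {f a} * 𝔠 ^ e0) := by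
      rw [← hT, Submodule.span_le]
      exact fun c hc => he0 a c hc
    exact fun z hz => this hz
  obtain ⟨Q, hQ⟩ : ∃ Q, Q = Ideal.span (Set.range G) := ⟨_, rfl⟩
  rw [← hQ, ← Ideal.span_singleton_pow] at hρ
  have h3 : ∀ e : ℕ, (Ideal.span {s} ^ j) ^ e * 𝔠 ^ (ρ + e) ≤ Q ^ e * 𝔠 ^ ρ := by
    intro e
    induction e with
    | zero => simp
    | succ e ih =>
      calc (Ideal.span {s} ^ j) ^ (e + 1) * 𝔠 ^ (ρ + (e + 1))
          = ((Ideal.span {s} ^ j) ^ e * 𝔠 ^ (ρ + e)) * (Ideal.span {s} ^ j * 𝔠) := by ring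
        _ ≤ (Q ^ e * 𝔠 ^ ρ) * (Ideal.span {s} ^ j * 𝔠) := Ideal.mul_mono_left ih
        _ = Q ^ e * (Ideal.span {s} ^ j * 𝔠 ^ (ρ + 1)) := by ring
        _ ≤ Q ^ e * (Q * 𝔠 ^ ρ) := Ideal.mul_mono_right hρ
        _ = Q ^ (e + 1) * 𝔠 ^ ρ := by ring
  obtain ⟨e, he⟩ := H0a_pig Finset.univ (𝔠 := 𝔠) (fun a => Ideal.span {G a})
    (fun a => (Ideal.span_singleton_le_iff_mem _).2 (hG a)) (e0 * a1 + 1)
  have h4 : Q ≤ ∑ a, Ideal.span {G a} := by
    rw [hQ, Ideal.span_le, Ideal.sum_eq_sup]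
    rintro _ ⟨a, rfl⟩
    exact Finset.le_sup (f := fun a => Ideal.span {G a}) (Finset.mem_univ a)
      (Ideal.mem_span_singleton_self _)
  refine ⟨ρ + e + e0 * a1, j * (e + (e0 * a1 + 1)) + e0 * a1, ?_⟩
  rw [← Ideal.span_singleton_pow]
  calc Ideal.span {s} ^ (j * (e + (e0 * a1 + 1)) + e0 * a1) *
        (𝔠 * 𝔞 ^ a1) ^ (ρ + e + e0 * a1 + 1)
      = ((Ideal.span {s} ^ j) ^ (e + (e0 * a1 + 1)) * 𝔠 ^ (ρ + (e + (e0 * a1 + 1)))) *
        ((Ideal.span {s} ^ e0 * 𝔞) ^ a1 * (𝔞 ^ a1) ^ (ρ + e + e0 * a1)) := by ring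
    _ ≤ (((∑ a, Ideal.span {G a} ^ (e0 * a1 + 1)) * 𝔠 ^ e) * 𝔠 ^ ρ) *
        ((Ideal.span {s} ^ e0 * 𝔞) ^ a1 * (𝔞 ^ a1) ^ (ρ + e + e0 * a1)) :=
      Ideal.mul_mono_left ((h3 _).trans
        (Ideal.mul_mono_left ((Ideal.pow_right_mono h4 _).trans he)))
    _ ≤ _ := by
      rw [Finset.sum_mul, Finset.sum_mul, Finset.sum_mul, Ideal.sum_eq_sup]
      refine Finset.sup_le fun a _ => ?_
      calc Ideal.span {G a} ^ (e0 * a1 + 1) * 𝔠 ^ e * 𝔠 ^ ρ *
            ((Ideal.span {s} ^ e0 * 𝔞) ^ a1 * (𝔞 ^ a1) ^ (ρ + e + e0 * a1))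
          = (Ideal.span {s} ^ e0 * Ideal.span {G a} ^ e0 * 𝔞) ^ a1 *
            (Ideal.span {G a} * 𝔠 ^ e * 𝔠 ^ ρ * (𝔞 ^ a1) ^ (ρ + e + e0 * a1)) := by ring
        _ ≤ (Ideal.span {f a} * 𝔠 ^ e0) ^ a1 *
            (Ideal.span {G a} * 𝔠 ^ e * 𝔠 ^ ρ * (𝔞 ^ a1) ^ (ρ + e + e0 * a1)) :=
          Ideal.mul_mono_left (Ideal.pow_right_mono (h2 a) _)
        _ = (Ideal.span {G a} * Ideal.span {f a} ^ a1) * (𝔠 * 𝔞 ^ a1) ^ (ρ + e + e0 * a1) := by
          ring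
        _ ≤ _ := by
          rw [Ideal.span_singleton_pow, Ideal.span_singleton_mul_span_singleton]
          exact Ideal.mul_mono_left (Ideal.span_mono (Set.singleton_subset_iff.2 ⟨a, rfl⟩))

/-- Normalize the derivations: multiply by the inverse matrix. -/
theorem exists_dual {K : Type} [Field K] [Algebra k K] {n : ℕ} (D : Fin n → Derivation k K K)
    (x : Fin n → K) (hx : (Matrix.of fun i l => D i (x l)).det ≠ 0) :
    ∃ D' : Fin n → Derivation k K K, DualD D' x ∧ ∀ y : Fin n → K,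
      (Matrix.of fun i l => D' i (y l)).det * (Matrix.of fun i l => D i (x l)).det =
        (Matrix.of fun i l => D i (y l)).det := by
  obtain ⟨X, hX⟩ : ∃ X : Matrix (Fin n) (Fin n) K, X = Matrix.of fun i l => D i (x l) := ⟨_, rfl⟩
  rw [← hX] at hx ⊢
  have hu : IsUnit X.det := isUnit_iff_ne_zero.2 hx
  have h1 : ∀ y : Fin n → K, (Matrix.of fun i l => (∑ j, X⁻¹ i j • D j) (y l)) =
      X⁻¹ * Matrix.of fun i l => D i (y l) := by
    intro y
    ext i l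
    have e : ((∑ j, X⁻¹ i j • D j : Derivation k K K) : K → K) =
        ∑ j, ((X⁻¹ i j • D j : Derivation k K K) : K → K) :=
      map_sum Derivation.coeFnAddMonoidHom _ _
    rw [Matrix.of_apply, e, Finset.sum_apply, Matrix.mul_apply]
    rfl
  refine ⟨fun i => ∑ j, X⁻¹ i j • D j, fun i l => ?_, fun y => ?_⟩
  · have h2 := congrFun (congrFun (h1 x) i) l
    rw [← hX, Matrix.nonsing_inv_mul _ hu, Matrix.of_apply, Matrix.one_apply] at h2
    exact h2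
  · rw [h1, Matrix.det_mul, mul_right_comm, ← Matrix.det_mul, Matrix.nonsing_inv_mul _ hu,
      Matrix.det_one, one_mul]

end

end Pool.Agent.Lib.MP_4287a9_ag
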