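import Pool.Agent.Lib.MP_4287a9_ag.D1

/-!
Normal Noetherian domains: associated primes of principal ideals, Hartogs.
-/

open scoped TensorProduct ENNReal NNReal nonZeroDivisors Polynomial
open Filter

namespace Pool.Agent.Lib.MP_4287a9_ag

noncomputable section

/-- If `P = (x : y)` then `(y / x) P ⊆ R`. If `(y / x) P R_P ⊆ P R_P` then `y / x` is integral over
`R_P`, so `y ∈ x R_P`, impossible; otherwise `P R_P` is principal, so `P` has height one. -/
theorem ass_height {R : Type} [CommRing R] [IsDomain R] [IsNoetherianRing R]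
    [IsIntegrallyClosed R] {x y : R} (hx : x ≠ 0) {P : Ideal R} (hP : P.IsPrime)
    (hPx : ∀ a, a ∈ P ↔ x ∣ a * y) : P.height = 1 := by
  have hxP : x ∈ P := (hPx x).2 (dvd_mul_right x y)
  have hP0 : P ≠ ⊥ := fun h0 => hx (by simpa [h0] using hxP)
  have hinj : Function.Injective (algebraMap R (FractionRing R)) :=
    IsFractionRing.injective R (FractionRing R)
  have hxK : algebraMap R (FractionRing R) x ≠ 0 := fun h0 =>
    hx (hinj (by rw [h0, map_zero]))
  by_cases hall : ∀ a ∈ P, ∀ s, a * y = x * s → s ∈ P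
  · exfalso
    have hN : IsLocalization.coeSubmodule (FractionRing R) P ≠ ⊥ := by
      intro h0
      have hm : algebraMap R (FractionRing R) x ∈
          IsLocalization.coeSubmodule (FractionRing R) P :=
        (IsLocalization.mem_coeSubmodule _ _).2 ⟨x, hxP, rfl⟩
      rw [h0] at hm
      exact hxK ((Submodule.mem_bot R).1 hm)
    have hN' : (IsLocalization.coeSubmodule (FractionRing R) P).FG :=
      (IsLocalization.coeSubmodule_fg (FractionRing R) hinj P).2 (IsNoetherian.noetherian P)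
    have hint : IsIntegral R
        (algebraMap R (FractionRing R) y / algebraMap R (FractionRing R) x) := by
      refine isIntegral_of_smul_mem_submodule _ hN hN' _ ?_
      intro n hn
      obtain ⟨a, ha, rfl⟩ := (IsLocalization.mem_coeSubmodule _ _).1 hn
      obtain ⟨s, hs⟩ := (hPx a).1 ha
      refine (IsLocalization.mem_coeSubmodule _ _).2 ⟨s, hall a ha s hs, ?_⟩
      have h2 := congrArg (algebraMap R (FractionRing R)) hs
      rw [map_mul, map_mul] at h2
      rw [smul_eq_mul, div_mul_eq_mul_div, eq_div_iff hxK]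
      linear_combination -h2
    obtain ⟨t, ht⟩ := IsIntegrallyClosed.isIntegral_iff.1 hint
    rw [eq_div_iff hxK, ← map_mul] at ht
    have ht' := hinj ht
    have h1 : (1 : R) ∈ P := (hPx 1).2 ⟨t, by rw [← ht']; ring⟩
    exact hP.ne_top ((Ideal.eq_top_iff_one P).2 h1)
  · push Not at hall
    obtain ⟨a, ha, s, hs, hsP⟩ := hall
    have hmin : P ∈ (Ideal.span {a}).minimalPrimes := by
      refine ⟨⟨hP, (Ideal.span_singleton_le_iff_mem P).2 ha⟩, ?_⟩
      rintro Q ⟨hQ, haQ⟩ hQP b hb
      have haQ' : a ∈ Q := (Ideal.span_singleton_le_iff_mem Q).1 haQ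
      obtain ⟨r, hr⟩ := (hPx b).1 hb
      have hbs : b * s = a * r := by
        apply mul_left_cancel₀ hx
        linear_combination a * hr - b * hs
      have hmem : b * s ∈ Q := by
        rw [hbs]
        exact Q.mul_mem_right r haQ'
      rcases hQ.mem_or_mem hmem with h1 | h1
      · exact h1
      · exact absurd (hQP h1) hsP
    have hle := Ideal.height_le_one_of_isPrincipal_of_mem_minimalPrimes _ P hmin
    have hne : P.height ≠ 0 := fun h0 => hP0 (Ideal.height_eq_zero_iff_eq_bot.1 h0)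
    exact le_antisymm hle (Order.one_le_iff_ne_zero.2 hne)

theorem hart_mem_colon {R : Type} [CommRing R] (x w a : R) :
    a ∈ (⊥ : Submodule R (R ⧸ Ideal.span {x})).colon {Ideal.Quotient.mk (Ideal.span {x}) w} ↔
      x ∣ a * w := by
  rw [Submodule.mem_colon_singleton, Submodule.mem_bot, ← Ideal.mem_span_singleton,
    ← Ideal.Quotient.eq_zero_iff_mem, map_mul]
  rfl

theorem hart_ass_height {R : Type} [CommRing R] [IsDomain R] [IsNoetherianRing R]
    [IsIntegrallyClosed R] {x : R} (hx : x ≠ 0) {P : Ideal R}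
    (hP : IsAssociatedPrime P (R ⧸ Ideal.span {x})) : P.height = 1 := by
  obtain ⟨hp, m, hm⟩ := isAssociatedPrime_iff.1 hP
  obtain ⟨y, rfl⟩ := Ideal.Quotient.mk_surjective m
  exact ass_height hx hp (y := y) fun a => by rw [hm, hart_mem_colon]

/-- If `z = y / x ∉ R`, the ideal `(x : y)` is proper, hence contained in an associated prime
`(x : y y')` of `R / x`, which has height one. -/
theorem hartogs {R : Type} [CommRing R] [IsDomain R] [IsNoetherianRing R] [IsIntegrallyClosed R]
    (z : FractionRing R) (h : ∀ P : Ideal R, P.IsPrime → P.height = 1 → InLoc P z) :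
    z ∈ (algebraMap R (FractionRing R)).range := by
  have hinj : Function.Injective (algebraMap R (FractionRing R)) :=
    IsFractionRing.injective R (FractionRing R)
  obtain ⟨y, x, hx, rfl⟩ := IsFractionRing.div_surjective (A := R) z
  have hx0 : x ≠ 0 := nonZeroDivisors.ne_zero hx
  have hxK : algebraMap R (FractionRing R) x ≠ 0 := fun h0 =>
    hx0 (hinj (by rw [h0, map_zero]))
  by_cases hd : x ∣ y
  · obtain ⟨t, rfl⟩ := hd
    exact ⟨t, by rw [map_mul, mul_div_cancel_left₀ _ hxK]⟩
  · exfalso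
    have hne : Ideal.Quotient.mk (Ideal.span {x}) y ≠ 0 := fun h0 =>
      hd (Ideal.mem_span_singleton.1 (Ideal.Quotient.eq_zero_iff_mem.1 h0))
    obtain ⟨P, hP, hle⟩ := exists_le_isAssociatedPrime_of_isNoetherianRing R
      (Ideal.Quotient.mk (Ideal.span {x}) y) hne
    obtain ⟨s, hs, a, ha⟩ := h P hP.isPrime (hart_ass_height hx0 hP)
    apply hs
    apply hle
    rw [hart_mem_colon]
    rw [← mul_div_assoc, div_eq_iff hxK, ← map_mul, ← map_mul] at ha
    exact ⟨a, by rw [hinj ha, mul_comm]⟩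

/-- Prime avoidance over the finitely many associated primes of `A / e₁` that do not contain `s`
(they have height one). If `e₁ ∣ e₂ w`, every associated prime of `A / e₁` containing
`(e₁ : w)` contains `e₂`, hence `s`; so `s` is in the radical of `(e₁ : w)`. -/
theorem exists_regseq {A : Type} [CommRing A] [IsDomain A] [IsNoetherianRing A]
    [IsIntegrallyClosed A] (s : A) (𝔢 : Ideal A) {e1 : A} (h1 : e1 ≠ 0)
    (h : ∀ P : Ideal A, P.IsPrime → P.height = 1 → s ∉ P → ¬ 𝔢 ≤ P) :
    ∃ e2 ∈ 𝔢, ∀ w, e1 ∣ e2 * w → ∃ i : ℕ, e1 ∣ s ^ i * w := by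
  have hfin : {P : Ideal A | P ∈ associatedPrimes A (A ⧸ Ideal.span {e1}) ∧ s ∉ P}.Finite :=
    (associatedPrimes.finite A (A ⧸ Ideal.span {e1})).subset fun P hP => hP.1
  have hnot : ¬ ((𝔢 : Set A) ⊆ ⋃ P ∈ {P : Ideal A |
      P ∈ associatedPrimes A (A ⧸ Ideal.span {e1}) ∧ s ∉ P}, ((id P : Ideal A) : Set A)) := by
    rw [Ideal.subset_union_prime_finite hfin (f := id) 0 0 fun P hP _ _ => hP.1.isPrime]
    rintro ⟨P, ⟨hP, hsP⟩, hle⟩
    exact h P hP.isPrime (hart_ass_height h1 hP) hsP hle
  rw [Set.not_subset] at hnot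
  obtain ⟨e2, he2, hav⟩ := hnot
  refine ⟨e2, he2, fun w hw => ?_⟩
  have hrad : s ∈ ((⊥ : Submodule A (A ⧸ Ideal.span {e1})).colon
      {Ideal.Quotient.mk (Ideal.span {e1}) w}).radical := by
    rw [← Ideal.sInf_minimalPrimes, Submodule.mem_sInf]
    intro Q hQ
    by_contra hsQ
    apply hav
    have hQa : IsAssociatedPrime Q (A ⧸ Ideal.span {e1}) :=
      isAssociatedPrime_iff.2 ⟨hQ.isPrime, Submodule.exists_eq_colon_of_mem_minimalPrimes hQ⟩
    simp only [Set.mem_iUnion]
    exact ⟨Q, ⟨hQa, hsQ⟩, hQ.le ((hart_mem_colon e1 w e2).2 hw)⟩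
  obtain ⟨i, hi⟩ := hrad
  exact ⟨i, (hart_mem_colon e1 w _).1 hi⟩

end

end Pool.Agent.Lib.MP_4287a9_ag
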