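import Pool.Agent.Lib.MP_4287a9_ag.H0a
import Pool.Agent.Lib.MP_4287a9_ag.Hart

/-!
The list of elements used for the Hartogs argument.
-/

open scoped TensorProduct ENNReal NNReal nonZeroDivisors Polynomial
open Filter

namespace Pool.Agent.Lib.MP_4287a9_ag

noncomputable section

variable {k A : Type} [Field k] [CommRing A] [IsDomain A] [Algebra k A]

private theorem good_chart {s : A} (hs : s ≠ 0) {𝔠 : Ideal A} {G e : A}
    (he : ∀ c ∈ 𝔠, ∃ c' : A, algebraMap A (FractionRing A) e *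
      (algebraMap A (FractionRing A) c / algebraMap A (FractionRing A) G) =
        algebraMap A (FractionRing A) c') :
    ∀ z ∈ chart k s 𝔠 G, ∃ (j j' : ℕ) (c : A),
      algebraMap A (FractionRing A) (s ^ j' * e ^ j) * z = algebraMap A (FractionRing A) c := by
  intro z hz
  have hs' : algebraMap A (FractionRing A) s ≠ 0 :=
    fun h => hs (IsFractionRing.injective A (FractionRing A) (by rw [h, map_zero]))
  unfold chart at hz
  induction hz using Algebra.adjoin_induction with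
  | mem z hz =>
    rcases hz with (⟨a, rfl⟩ | hz) | ⟨c, hc, rfl⟩
    · exact ⟨0, 0, a, by simp⟩
    · rw [Set.mem_singleton_iff] at hz
      refine ⟨0, 1, 1, ?_⟩
      rw [hz, pow_zero, pow_one, mul_one, map_one, mul_inv_cancel₀ hs']
    · obtain ⟨c', hc'⟩ := he c hc
      exact ⟨1, 0, c', by simpa using hc'⟩
  | algebraMap r =>
    refine ⟨0, 0, algebraMap k A r, ?_⟩
    rw [pow_zero, pow_zero, mul_one, map_one, one_mul, ← IsScalarTower.algebraMap_apply]
  | add x y _ _ hx hy =>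
    obtain ⟨j, j', c, h1⟩ := hx
    obtain ⟨i, i', d, h2⟩ := hy
    refine ⟨j + i, j' + i', s ^ i' * e ^ i * c + s ^ j' * e ^ j * d, ?_⟩
    rw [map_add, map_mul _ _ c, map_mul _ _ d, ← h1, ← h2]
    simp only [map_mul, map_pow]
    ring
  | mul x y _ _ hx hy =>
    obtain ⟨j, j', c, h1⟩ := hx
    obtain ⟨i, i', d, h2⟩ := hy
    refine ⟨j + i, j' + i', c * d, ?_⟩
    rw [map_mul _ c d, ← h1, ← h2]
    simp only [map_mul, map_pow]
    ring

private theorem exists_clear [IsNoetherianRing A] {𝔠 P : Ideal A} (hP : P.IsPrime)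
    (g : FractionRing A)
    (h : ∀ c ∈ 𝔠, InLoc P (algebraMap A (FractionRing A) c / g)) :
    ∃ e ∉ P, ∀ c ∈ 𝔠, ∃ c' : A, algebraMap A (FractionRing A) e *
      (algebraMap A (FractionRing A) c / g) = algebraMap A (FractionRing A) c' := by
  classical
  obtain ⟨t, ht⟩ := (isNoetherianRing_iff_ideal_fg A).1 inferInstance 𝔠
  have h1 : ∀ c : t, ∃ e ∉ P, ∃ a : A, algebraMap A (FractionRing A) e *
      (algebraMap A (FractionRing A) c / g) = algebraMap A (FractionRing A) a :=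
    fun c => h c (ht ▸ Ideal.subset_span c.2)
  choose e he a ha using h1
  refine ⟨∏ c, e c, fun h2 => ?_, fun c hc => ?_⟩
  · obtain ⟨c, -, hc⟩ := (Ideal.IsPrime.prod_mem_iff (hp := hP)).1 h2
    exact he c hc
  · rw [← ht] at hc
    induction hc using Submodule.span_induction with
    | mem c hc =>
      refine ⟨(∏ c' ∈ Finset.univ.erase (⟨c, hc⟩ : t), e c') * a ⟨c, hc⟩, ?_⟩
      rw [← Finset.prod_erase_mul _ _ (Finset.mem_univ (⟨c, hc⟩ : t)), map_mul, map_mul,
        ← ha, mul_assoc]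
    | zero => exact ⟨0, by simp⟩
    | add x y _ _ hx hy =>
      obtain ⟨x', hx⟩ := hx
      obtain ⟨y', hy⟩ := hy
      exact ⟨x' + y', by rw [map_add, map_add, add_div, mul_add, hx, hy]⟩
    | smul r x _ hx =>
      obtain ⟨x', hx⟩ := hx
      refine ⟨r * x', ?_⟩
      rw [smul_eq_mul, map_mul, map_mul, ← hx]
      ring

/-- Call `e : A` good for `a` if a power of `e` times each element of `S a` lies in `A[1 / s]`
and `e * v a ∈ 𝔡 ^ M`. It suffices to check the finitely many generators `c / G a` of `S a`.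
Nonzero good elements exist (clear denominators and multiply by a nonzero element of `𝔡 ^ M`), and
for each height one prime `P ∌ s` there is a good `e ∉ P`. The ideal `𝔢` generated by the good
elements is generated by finitely many of them; apply `exists_regseq`. -/
theorem exists_elist [IsNoetherianRing A] [IsIntegrallyClosed A] {s : A} (hs : s ≠ 0)
    {𝔠 𝔡 : Ideal A} (h𝔡 : 𝔡 ≠ ⊥) {ι : ℕ} (a0 : Fin ι) {G : Fin ι → A} (hG : ∀ a, G a ∈ 𝔠)
    (hG0 : ∀ a, G a ≠ 0) (M : ℕ) (v : Fin ι → FractionRing A)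
    (h : ∀ P : Ideal A, P.IsPrime → P.height = 1 → s ∉ P → ∃ a,
      (∀ z ∈ chart k s 𝔠 (G a), InLoc P z) ∧ ∃ e ∉ P, ∃ d ∈ 𝔡 ^ M,
        algebraMap A (FractionRing A) e * v a = algebraMap A (FractionRing A) d) :
    ∃ (ne : ℕ) (e : Fin ne → A) (ch : Fin ne → Fin ι) (e1 e2 : A),
      (∀ i, ∀ z ∈ chart k s 𝔠 (G (ch i)), ∃ (j j' : ℕ) (c : A),
        algebraMap A (FractionRing A) (s ^ j' * e i ^ j) * z = algebraMap A (FractionRing A) c) ∧
      (∀ i, ∃ d ∈ 𝔡 ^ M, algebraMap A (FractionRing A) (e i) * v (ch i) =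
        algebraMap A (FractionRing A) d) ∧
      e1 ≠ 0 ∧ e1 ∈ Ideal.span (Set.range e) ∧ e2 ∈ Ideal.span (Set.range e) ∧
      ∀ w, e1 ∣ e2 * w → ∃ i : ℕ, e1 ∣ s ^ i * w := by
  classical
  obtain ⟨Good, hGood⟩ : ∃ Good : Fin ι → A → Prop, ∀ a e, Good a e ↔
      (∀ c ∈ 𝔠, ∃ c' : A, algebraMap A (FractionRing A) e *
        (algebraMap A (FractionRing A) c / algebraMap A (FractionRing A) (G a)) =
          algebraMap A (FractionRing A) c') ∧
      ∃ d ∈ 𝔡 ^ M, algebraMap A (FractionRing A) e * v a = algebraMap A (FractionRing A) d :=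
    ⟨_, fun _ _ => Iff.rfl⟩
  have hinj := IsFractionRing.injective A (FractionRing A)
  have h0 : ∃ e1, e1 ≠ 0 ∧ Good a0 e1 := by
    obtain ⟨d0, hd0, hd0'⟩ := Submodule.exists_mem_ne_zero_of_ne_bot (pow_ne_zero M h𝔡)
    obtain ⟨x, y, hy, hv⟩ := IsFractionRing.div_surjective (A := A) (v a0)
    have hy0 : y ≠ 0 := nonZeroDivisors.ne_zero hy
    have hy' : algebraMap A (FractionRing A) y ≠ 0 := fun h => hy0 (hinj (by rw [h, map_zero]))
    have hG' : algebraMap A (FractionRing A) (G a0) ≠ 0 :=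
      fun h => hG0 a0 (hinj (by rw [h, map_zero]))
    refine ⟨G a0 * y * d0, mul_ne_zero (mul_ne_zero (hG0 a0) hy0) hd0', (hGood _ _).2
      ⟨fun c _ => ⟨y * d0 * c, ?_⟩, G a0 * x * d0, Ideal.mul_mem_left _ _ hd0, ?_⟩⟩
    · simp only [map_mul]
      field_simp
    · rw [← hv]
      simp only [map_mul]
      field_simp
  have h1 : ∀ P : Ideal A, P.IsPrime → P.height = 1 → s ∉ P → ∃ a, ∃ e ∉ P, Good a e := by
    intro P hP hP1 hsP
    obtain ⟨a, ha, e, he, d, hd, hed⟩ := h P hP hP1 hsP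
    obtain ⟨e', he', hc⟩ := exists_clear (𝔠 := 𝔠) hP (algebraMap A (FractionRing A) (G a))
      fun c hc => ha _ (Algebra.subset_adjoin (Or.inr ⟨c, hc, rfl⟩))
    refine ⟨a, e' * e, fun h2 => (hP.mem_or_mem h2).elim he' he, (hGood _ _).2
      ⟨fun c hc' => ?_, e' * d, Ideal.mul_mem_left _ _ hd, ?_⟩⟩
    · obtain ⟨c', h3⟩ := hc c hc'
      refine ⟨e * c', ?_⟩
      rw [map_mul, map_mul, ← h3]
      ring
    · rw [map_mul, map_mul, ← hed, mul_assoc]
  obtain ⟨t, ht1, ht2⟩ := (Submodule.fg_span_iff_fg_span_finset_subset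
    (R := A) {e | ∃ a, Good a e}).1 ((isNoetherianRing_iff_ideal_fg A).1 inferInstance _)
  have h2 : ∀ i : Fin t.card, ∃ a, Good a (t.equivFin.symm i : A) :=
    fun i => ht1 (t.equivFin.symm i).2
  choose ch hch using h2
  have h3 : Ideal.span (Set.range fun i : Fin t.card => (t.equivFin.symm i : A)) =
      Ideal.span {e | ∃ a, Good a e} := by
    refine Eq.trans (congrArg Ideal.span ?_) ht2.symm
    ext x
    constructor
    · rintro ⟨i, rfl⟩
      exact (t.equivFin.symm i).2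
    · intro hx
      exact ⟨t.equivFin ⟨x, hx⟩, by simp⟩
  obtain ⟨e1, he1, he1'⟩ := h0
  obtain ⟨e2, he2, he2'⟩ := exists_regseq s (Ideal.span {e | ∃ a, Good a e}) he1
    fun P hP hP1 hsP hle => by
      obtain ⟨a, e, he, hg⟩ := h1 P hP hP1 hsP
      exact he (hle (Ideal.subset_span ⟨a, hg⟩))
  refine ⟨t.card, fun i => (t.equivFin.symm i : A), ch, e1, e2,
    fun i => good_chart hs ((hGood _ _).1 (hch i)).1, fun i => ((hGood _ _).1 (hch i)).2, he1,
    ?_, ?_, he2'⟩
  · rw [h3]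
    exact Ideal.subset_span ⟨a0, he1'⟩
  · rw [h3]
    exact he2

end

end Pool.Agent.Lib.MP_4287a9_ag
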