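import Pool.Agent.Lib.MP_4287a9_ag.H0b
import Pool.Agent.Lib.MP_4287a9_ag.RDa

/-!
From the klt condition to finite data in the function field.
-/

open scoped TensorProduct ENNReal NNReal nonZeroDivisors Polynomial
open Filter

namespace Pool.Agent.Lib.MP_4287a9_ag

noncomputable section

variable {k A : Type} [Field k] [CommRing A] [IsDomain A] [Algebra k A]

/-- With generators `τ` of `A` over `k`, the subalgebra generated by `τ` and `1 / s`. -/
theorem mem_adjoin_inv_iff {a : ℕ} {τ : Fin a → A} (hτ : Algebra.adjoin k (Set.range τ) = ⊤)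
    {s : A} (hs : s ≠ 0) (z : FractionRing A) :
    z ∈ Algebra.adjoin k (Set.range (Fin.cons (algebraMap A (FractionRing A) s)⁻¹
      (fun i => algebraMap A (FractionRing A) (τ i)) : Fin (a + 1) → FractionRing A)) ↔
      ∃ (i : ℕ) (c : A),
        algebraMap A (FractionRing A) s ^ i * z = algebraMap A (FractionRing A) c := by
  have h0 : algebraMap A (FractionRing A) s ≠ 0 :=
    (map_ne_zero_iff _ (IsFractionRing.injective A _)).2 hs
  constructor
  · intro hz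
    induction hz using Algebra.adjoin_induction with
    | mem x hx =>
      obtain ⟨i, rfl⟩ := hx
      refine Fin.cases ⟨1, 1, ?_⟩ (fun i => ⟨0, τ i, ?_⟩) i
      · rw [Fin.cons_zero, pow_one, mul_inv_cancel₀ h0, map_one]
      · rw [Fin.cons_succ, pow_zero, one_mul]
    | algebraMap x =>
      exact ⟨0, algebraMap k A x, by rw [pow_zero, one_mul, ← IsScalarTower.algebraMap_apply]⟩
    | add x y _ _ hx hy =>
      obtain ⟨i, c, hc⟩ := hx
      obtain ⟨j, e, he⟩ := hy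
      refine ⟨i + j, s ^ j * c + s ^ i * e, ?_⟩
      rw [map_add, map_mul, map_mul, map_pow, map_pow, ← hc, ← he]
      ring
    | mul x y _ _ hx hy =>
      obtain ⟨i, c, hc⟩ := hx
      obtain ⟨j, e, he⟩ := hy
      refine ⟨i + j, c * e, ?_⟩
      rw [map_mul, ← hc, ← he]
      ring
  · rintro ⟨i, c, hc⟩
    have h1 : z = (algebraMap A (FractionRing A) s)⁻¹ ^ i * algebraMap A (FractionRing A) c := by
      rw [← hc, ← mul_assoc, ← mul_pow, inv_mul_cancel₀ h0, one_pow, one_mul]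
    rw [h1]
    refine mul_mem (pow_mem (Algebra.subset_adjoin (by exact ⟨0, rfl⟩)) i) ?_
    have h2 : c ∈ Algebra.adjoin k (Set.range τ) := hτ ▸ Algebra.mem_top
    clear hc h1
    induction h2 using Algebra.adjoin_induction with
    | mem x hx =>
      obtain ⟨i, rfl⟩ := hx
      exact Algebra.subset_adjoin ⟨i.succ, rfl⟩
    | algebraMap x =>
      rw [← IsScalarTower.algebraMap_apply]
      exact Subalgebra.algebraMap_mem _ x
    | add x y _ _ hx hy =>
      rw [map_add]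
      exact add_mem hx hy
    | mul x y _ _ hx hy =>
      rw [map_mul]
      exact mul_mem hx hy

/-- Extension of ideals to a subalgebra of the function field. -/
theorem h0d_ext (T : Subalgebra k (FractionRing A))
    (hT : ∀ x, algebraMap A (FractionRing A) x ∈ T) :
    ∃ E : Ideal A → Submodule T (FractionRing A), (∀ I J, I ≤ J → E I ≤ E J) ∧
      (∀ I J, E (I * J) = E I * E J) ∧ (∀ I (j : ℕ), E (I ^ j) = E I ^ j) ∧
      (∀ I, ∀ x ∈ I, algebraMap A (FractionRing A) x ∈ E I) ∧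
      (∀ (j : ℕ) (x : Fin j → A), E (Ideal.span (Set.range x)) =
        Submodule.span T (Set.range fun i => algebraMap A (FractionRing A) (x i))) ∧
      ∀ x, x ≠ 0 → (algebraMap A (FractionRing A) x)⁻¹ ∈ T → E (Ideal.span {x}) = 1 := by
  let ρ : A →+* T := (algebraMap A (FractionRing A)).codRestrict T hT
  refine ⟨fun I => IsLocalization.coeSubmodule (FractionRing A) (I.map ρ),
    fun I J h => IsLocalization.coeSubmodule_mono _ (Ideal.map_mono h), fun I J => ?_,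
    fun I j => ?_, fun I x hx => ⟨ρ x, Ideal.mem_map_of_mem ρ hx, rfl⟩, fun j x => ?_,
    fun x hx hx' => ?_⟩
  · simp only [Ideal.map_mul, IsLocalization.coeSubmodule_mul]
  · simp only [Ideal.map_pow]
    induction j with
    | zero => rw [pow_zero, pow_zero, Ideal.one_eq_top, IsLocalization.coeSubmodule_top]
    | succ j ih => rw [pow_succ, pow_succ, IsLocalization.coeSubmodule_mul, ih]
  · simp only [Ideal.map_span, IsLocalization.coeSubmodule_span, ← Set.range_comp]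
    rfl
  · have h1 : IsUnit (ρ x) := IsUnit.of_mul_eq_one ⟨_, hx'⟩ (Subtype.ext
      (mul_inv_cancel₀ ((map_ne_zero_iff _ (IsFractionRing.injective A _)).2 hx)))
    simp only [Ideal.map_span, Set.image_singleton, Ideal.span_singleton_eq_top.2 h1,
      IsLocalization.coeSubmodule_top]

theorem h0d_chart {s G : A} {𝔟 : Ideal A} {a b : ℕ} {tg : Fin a → FractionRing A}
    {bg : Fin b → A} (hb : Ideal.span (Set.range bg) = 𝔟) (hs : s ≠ 0)
    (hT : ∀ z, z ∈ Algebra.adjoin k (Set.range tg) ↔ ∃ (i : ℕ) (c : A),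
      algebraMap A (FractionRing A) s ^ i * z = algebraMap A (FractionRing A) c) :
    Algebra.adjoin k (Set.range tg ∪ Set.range fun i => algebraMap A (FractionRing A) (bg i) *
      (algebraMap A (FractionRing A) G)⁻¹) = chart k s 𝔟 G := by
  have h0 : algebraMap A (FractionRing A) s ≠ 0 :=
    (map_ne_zero_iff _ (IsFractionRing.injective A _)).2 hs
  have h1 : ∀ z, (∃ (i : ℕ) (c : A), algebraMap A (FractionRing A) s ^ i * z =
      algebraMap A (FractionRing A) c) → z ∈ Algebra.adjoin k (Set.range tg ∪ Set.range fun i =>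
        algebraMap A (FractionRing A) (bg i) * (algebraMap A (FractionRing A) G)⁻¹) :=
    fun z hz => Algebra.adjoin_mono Set.subset_union_left ((hT z).2 hz)
  refine le_antisymm (Algebra.adjoin_le ?_) (Algebra.adjoin_le ?_)
  · rintro z (hz | ⟨i, rfl⟩)
    · obtain ⟨i, c, hc⟩ := (hT z).1 (Algebra.subset_adjoin hz)
      have h2 : z = (algebraMap A (FractionRing A) s)⁻¹ ^ i * algebraMap A (FractionRing A) c := by
        rw [← hc, ← mul_assoc, ← mul_pow, inv_mul_cancel₀ h0, one_pow, one_mul]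
      rw [h2]
      exact mul_mem (pow_mem (Algebra.subset_adjoin (by exact Or.inl (Or.inr rfl))) i)
        (Algebra.subset_adjoin (Or.inl (Or.inl ⟨c, rfl⟩)))
    · exact Algebra.subset_adjoin (Or.inr ⟨bg i, hb ▸ Ideal.subset_span ⟨i, rfl⟩,
        (div_eq_mul_inv _ _).symm⟩)
  · rintro z ((⟨c, rfl⟩ | rfl) | ⟨c, hc, rfl⟩)
    · exact h1 _ ⟨0, c, by rw [pow_zero, one_mul]⟩
    · exact h1 _ ⟨1, 1, by rw [pow_one, mul_inv_cancel₀ h0, map_one]⟩
    · rw [← hb] at hc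
      obtain ⟨x, rfl⟩ := Ideal.mem_span_range_iff_exists_fun.1 hc
      rw [map_sum, Finset.sum_div]
      refine sum_mem fun i _ => ?_
      rw [map_mul, mul_div_assoc, div_eq_mul_inv]
      exact mul_mem (h1 _ ⟨0, x i, by rw [pow_zero, one_mul]⟩)
        (Algebra.subset_adjoin (Or.inr ⟨i, rfl⟩))

theorem h0d_der {K : Type} [Field K] [Algebra k K] (D : Derivation k K K) {X : Set K}
    {W : Subalgebra k K} (hX : X ⊆ W) (hD : ∀ x ∈ X, D x ∈ W) :
    ∀ w ∈ Algebra.adjoin k X, D w ∈ W := by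
  intro w hw
  induction hw using Algebra.adjoin_induction with
  | mem x hx => exact hD x hx
  | algebraMap x =>
    rw [Derivation.map_algebraMap]
    exact zero_mem _
  | add x y _ _ hx hy =>
    rw [map_add]
    exact add_mem hx hy
  | mul x y hx' hy' hx hy =>
    rw [Derivation.leibniz, smul_eq_mul, smul_eq_mul]
    exact add_mem (mul_mem (Algebra.adjoin_le hX hx') hy) (mul_mem (Algebra.adjoin_le hX hy') hx)

theorem h0d_as {K : Type} [Field K] [Algebra k K] {S : Subalgebra k K} {x y : Kˣ}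
    (h : Asc S (x : K) y) : As S x y := by
  refine ⟨?_, ?_⟩ <;> rw [Units.val_mul, Units.val_inv_eq_inv_val, ← div_eq_mul_inv]
  · exact h.2.2.1
  · exact h.2.2.2

theorem h0d_mul {K : Type} [Field K] [Algebra k K] {S : Subalgebra k K} {x y x' y' : K}
    (h : Asc S x y) (h' : Asc S x' y') : Asc S (x * x') (y * y') :=
  ⟨mul_ne_zero h.1 h'.1, mul_ne_zero h.2.1 h'.2.1,
    by rw [mul_div_mul_comm]; exact mul_mem h.2.2.1 h'.2.2.1,
    by rw [mul_div_mul_comm]; exact mul_mem h.2.2.2 h'.2.2.2⟩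

theorem h0d_pow {K : Type} [Field K] [Algebra k K] {S : Subalgebra k K} {x y : K}
    (h : Asc S x y) (j : ℕ) : Asc S (x ^ j) (y ^ j) :=
  ⟨pow_ne_zero _ h.1, pow_ne_zero _ h.2.1, by rw [← div_pow]; exact pow_mem h.2.2.1 j,
    by rw [← div_pow]; exact pow_mem h.2.2.2 j⟩

theorem h0d_symm {K : Type} [Field K] [Algebra k K] {S : Subalgebra k K} {x y : K}
    (h : Asc S x y) : Asc S y x :=
  ⟨h.2.1, h.1, h.2.2.2, h.2.2.1⟩

theorem h0d_congr {K : Type} [Field K] [Algebra k K] {S : Subalgebra k K} {x y x' y' : K}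
    (h : Asc S x y) (hx : x' ≠ 0) (hy : y' ≠ 0) (e : x' * y = x * y') : Asc S x' y' :=
  ⟨hx, hy, by rw [(div_eq_div_iff hy h.2.1).2 e]; exact h.2.2.1,
    by rw [(div_eq_div_iff hx h.1).2 (by rw [mul_comm, ← e, mul_comm])]; exact h.2.2.2⟩

theorem h0d_prod {K : Type} [Field K] {μ : ℕ} {τ : Fin μ → K} (hτ : ∀ i, τ i ≠ 0)
    (h b : Fin μ → ℕ) (α : Fin μ → ℤ) (w a1 : ℕ) :
    (∏ i, τ i ^ α i) ^ w = (∏ i, τ i ^ h i) * (∏ i, τ i ^ b i) ^ a1 *
      ∏ i, τ i ^ ((w : ℤ) * α i - h i - a1 * b i) := by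
  rw [← Finset.prod_pow, ← Finset.prod_pow, ← Finset.prod_mul_distrib, ← Finset.prod_mul_distrib]
  refine Finset.prod_congr rfl fun i _ => ?_
  rw [← pow_mul, ← pow_add, ← zpow_natCast, ← zpow_natCast, ← zpow_mul, ← zpow_add₀ (hτ i)]
  refine congrArg _ ?_
  push_cast
  ring

/-- Take `tg = (1 / s, τ)`, `w, a₁` from `twist_num`, `bg` generators of `𝔠 𝔞 ^ a₁`, `dg`, `ag`
generators of `𝔡`, `𝔞`, `G' a = G a * f a ^ a₁`, `M' = w M`, `al i = w α i - h i - a₁ b i`.
There is a chart `a₀` because `𝔠 ≠ ⊥`, `s ≠ 0`. `D'` from `exists_dual` for `y a₀`,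
`j a = (det (D' i (y a l)))⁻¹`, `u' = v a₀ ^ w`, so `u' / j a ^ (r w M) = v a ^ w`.
`S1 a = chart` (`chart_twist` and generators). `g` is a common denominator of the finitely many
elements `1 / G'`, `j`, `1 / t`, `u'`, `1 / u'`, `1 / e₁`, `D' i (tg l)`; since `g ∈ A`, the ring
`Ws` is stable under `D'`. -/
theorem exists_amb [Algebra.FiniteType k A] [IsIntegrallyClosed A] {n : ℕ} {m 𝔡 𝔞 : Ideal A}
    {r : ℕ} (hr : 0 < r) (h𝔡 : 𝔡 ≠ ⊥) {t : ℝ≥0} (hK : Klt k n m 𝔡 r 𝔞 t) :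
    ∃ (s : Shp n) (d : RD s (FractionRing A))
      (D : Fin n → Derivation k (FractionRing A) (FractionRing A)) (f : A),
      f ∉ m ∧ s.r = r ∧ (t : ℝ) * s.N < s.a1 ∧ d.Amb k D ∧
        d.Link (IsScalarTower.toAlgHom k A (FractionRing A)) f 𝔡 𝔞 := by
  classical
  obtain ⟨s, 𝔠, ι, μ, G, f, S, y, lam, τ, h, b, α, M, u, D, v, h1, h2, hM, h4, h5, h6, h7, h8, h9,
    h10, h11, h12, h13, h14, h15⟩ := hK
  have hN : IsNoetherianRing A := Algebra.FiniteType.isNoetherianRing k A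
  have hinj := IsFractionRing.injective A (FractionRing A)
  have hne : ∀ x : A, x ≠ 0 ↔ algebraMap A (FractionRing A) x ≠ 0 := fun x =>
    (map_ne_zero_iff _ hinj).symm
  have hs : s ≠ 0 := fun e => h1 (e ▸ zero_mem m)
  have hG : ∀ a, G a ∈ 𝔠 := fun a => (h4 a).1
  have hS : ∀ a, S a = chart k s 𝔠 (G a) := fun a => (h4 a).2.2
  have hG0 : ∀ a, G a ≠ 0 := fun a => (hne _).2 (h10 a).1
  have hf0 : ∀ a, f a ≠ 0 := fun a => (hne _).2 (h11 a).1.1
  have hτ0 : ∀ a i, τ a i ≠ 0 := fun a i => (h9 a a i).1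
  have hv0 : ∀ a, v a ≠ 0 := fun a => fun e => (h14 a).1 (by rw [e, inv_zero])
  obtain ⟨a0⟩ : Nonempty (Fin ι) := by
    by_contra hι
    have : IsEmpty (Fin ι) := not_nonempty_iff.1 hι
    obtain ⟨ρ, j, hj⟩ := h5
    rw [Set.range_eq_empty, Ideal.span_empty, Ideal.bot_mul, le_bot_iff, Ideal.mul_eq_bot,
      Ideal.span_singleton_eq_bot] at hj
    rcases hj with hj | hj
    · exact pow_ne_zero j hs hj
    · exact h2 (pow_eq_zero_iff (Nat.succ_ne_zero ρ) |>.1 hj)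
  have hJ0 : ∀ a, (Matrix.of fun i l => D i (y a l)).det ≠ 0 := fun a e => hv0 a (by
    rw [h12 a, e, zero_pow (Nat.mul_pos hr hM).ne', mul_zero])
  obtain ⟨D', hD1, hD2⟩ := exists_dual D (y a0) (hJ0 a0)
  have hJ1 : ∀ a, (Matrix.of fun i l => D' i (y a l)).det ≠ 0 := fun a e => hJ0 a (by
    rw [← hD2, e, zero_mul])
  obtain ⟨w, a1, hw, -, hw1, hw2⟩ := twist_num hr hM t h b α h15
  have hvw : ∀ a, v a0 ^ w * (Matrix.of fun i l => D' i (y a l)).det ^ (r * (w * M)) =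
      v a ^ w := fun a => by
    rw [h12 a, h12 a0, ← hD2 (y a)]
    ring
  obtain ⟨nt, τ0, hτ⟩ : ∃ (a : ℕ) (τ0 : Fin a → A), Algebra.adjoin k (Set.range τ0) = ⊤ := by
    obtain ⟨a, p, hp⟩ := Algebra.FiniteType.iff_quotient_mvPolynomial''.1
      (inferInstance : Algebra.FiniteType k A)
    refine ⟨a, p ∘ MvPolynomial.X, ?_⟩
    rw [Algebra.adjoin_range_eq_range_aeval, ← MvPolynomial.aeval_unique p]
    exact (AlgHom.range_eq_top p).2 hp
  have hT := mem_adjoin_inv_iff hτ hs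
  generalize (Fin.cons (algebraMap A (FractionRing A) s)⁻¹
    (fun i => algebraMap A (FractionRing A) (τ0 i)) : Fin (nt + 1) → FractionRing A) = tg at hT
  have hT1 : ∀ x, algebraMap A (FractionRing A) x ∈ Algebra.adjoin k (Set.range tg) :=
    fun x => (hT _).2 ⟨0, x, by rw [pow_zero, one_mul]⟩
  have hT2 : (algebraMap A (FractionRing A) s)⁻¹ ∈ Algebra.adjoin k (Set.range tg) :=
    (hT _).2 ⟨1, 1, by rw [pow_one, mul_inv_cancel₀ ((hne s).1 hs), map_one]⟩
  have hgen : ∀ I : Ideal A, ∃ (j : ℕ) (x : Fin j → A), Ideal.span (Set.range x) = I := fun I =>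
    Submodule.fg_iff_exists_fin_generating_family.1 (IsNoetherian.noetherian I)
  obtain ⟨nb, bg, hbg⟩ := hgen (𝔠 * 𝔞 ^ a1)
  obtain ⟨nd, dg, hdg⟩ := hgen 𝔡
  obtain ⟨na, ag, hag⟩ := hgen 𝔞
  have hfS : ∀ a, ∀ c ∈ 𝔞, algebraMap A (FractionRing A) c /
      algebraMap A (FractionRing A) (f a) ∈ chart k s 𝔠 (G a) := fun a => hS a ▸ (h11 a).2
  obtain ⟨ρ, j, hred⟩ := red_twist hs hG hG0 hf0 hfS h5 a1
  obtain ⟨ne, e, ch, e1, e2, he1, he2, he3, he4, he5, he6⟩ :=
    exists_elist (k := k) hs h𝔡 a0 hG hG0 M v fun P p1 p2 p3 => by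
      obtain ⟨a, q1, q2, -⟩ := h13 P p1 p2 p3
      exact ⟨a, hS a ▸ q1, q2⟩
  obtain ⟨E, hE1, hE2, hE3, hE4, hE5, hE6⟩ := h0d_ext _ hT1
  have hEb := hE5 _ bg
  have hEd := hE5 _ dg
  have hEa := hE5 _ ag
  rw [hbg] at hEb
  rw [hdg] at hEd
  rw [hag] at hEa
  have hG1 : ∀ a, algebraMap A (FractionRing A) (G a * f a ^ a1) ≠ 0 := fun a =>
    (hne _).1 (mul_ne_zero (hG0 a) (pow_ne_zero _ (hf0 a)))
  have hS1 : ∀ a, Algebra.adjoin k (Set.range tg ∪ Set.range fun i =>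
      algebraMap A (FractionRing A) (bg i) *
        (algebraMap A (FractionRing A) (G a * f a ^ a1))⁻¹) = S a := fun a => by
    rw [h0d_chart hbg hs hT, chart_twist (hG a) (hG0 a) (h4 a).2.1 (hf0 a) (hfS a), hS a]
  obtain ⟨g, hg0, hg⟩ : ∃ g : A, g ≠ 0 ∧ ∀ z ∈
      ((Set.range fun a => (algebraMap A (FractionRing A) (G a * f a ^ a1))⁻¹) ∪
        Set.range fun a => (Matrix.of fun i l => D' i (y a l)).det⁻¹) ∪
      ((Set.range fun p : Fin ι × Fin μ => (τ p.1 p.2)⁻¹) ∪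
        Set.range fun p : Fin n × Fin (nt + 1) => D' p.1 (tg p.2)) ∪
      {v a0 ^ w, (v a0 ^ w)⁻¹, (algebraMap A (FractionRing A) e1)⁻¹},
      z ∈ Algebra.adjoin k (Set.range tg ∪ {(algebraMap A (FractionRing A) g)⁻¹}) := by
    generalize hZ : (((Set.range fun a => (algebraMap A (FractionRing A) (G a * f a ^ a1))⁻¹) ∪
        Set.range fun a => (Matrix.of fun i l => D' i (y a l)).det⁻¹) ∪
      ((Set.range fun p : Fin ι × Fin μ => (τ p.1 p.2)⁻¹) ∪
        Set.range fun p : Fin n × Fin (nt + 1) => D' p.1 (tg p.2)) ∪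
      {v a0 ^ w, (v a0 ^ w)⁻¹, (algebraMap A (FractionRing A) e1)⁻¹}) = Z
    have hfin : Z.Finite := hZ ▸ Set.toFinite _
    obtain ⟨g, hg⟩ := IsLocalization.exist_integer_multiples_of_finset A⁰ hfin.toFinset
    have hg0 : (g : A) ≠ 0 := nonZeroDivisors.coe_ne_zero g
    refine ⟨g, hg0, fun z hz => ?_⟩
    obtain ⟨c, hc⟩ := hg z (hfin.mem_toFinset.2 hz)
    have e0 : z = (algebraMap A (FractionRing A) g)⁻¹ * algebraMap A (FractionRing A) c := by
      rw [hc, Algebra.smul_def, inv_mul_cancel_left₀ ((hne _).1 hg0)]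
    rw [e0]
    exact mul_mem (Algebra.subset_adjoin (Or.inr rfl))
      (Algebra.adjoin_mono Set.subset_union_left (hT1 c))
  refine ⟨⟨ι, μ, nt + 1, nb, nd, na, ne, r, w * M, a1, a0, lam,
      fun i => w * α i - h i - a1 * b i, ch⟩,
    ⟨tg, fun i => algebraMap A _ (bg i), fun i => algebraMap A _ (dg i),
      fun i => algebraMap A _ (ag i), fun i => algebraMap A _ (e i),
      Units.mk0 _ ((hne g).1 hg0), Units.mk0 _ (pow_ne_zero w (hv0 a0)),
      Units.mk0 _ ((hne e1).1 he3), algebraMap A _ e2, fun a => Units.mk0 _ (hG1 a),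
      fun a => Units.mk0 _ (inv_ne_zero (hJ1 a)), y, fun a i => Units.mk0 _ (hτ0 a i)⟩,
    D', s, h1, rfl, hw1,
    ⟨⟨hr, Nat.mul_pos hw hM, hw2, h8, h7, fun i => hT1 _, fun i => hT1 _, fun i => hT1 _,
      fun i => hT1 _, hT1 _, fun a => ?_, ⟨ρ, ?_⟩, fun a => ?_, fun a c i => ?_, fun a => ?_, ?_,
      fun i z hz => ?_, fun i => ⟨w, ?_⟩, ?_, ?_, ?_⟩,
      fun a => hg _ (Or.inl (Or.inl (Or.inl ⟨a, rfl⟩))),
      fun a => hg _ (Or.inl (Or.inl (Or.inr ⟨a, rfl⟩))),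
      fun a i => hg _ (Or.inl (Or.inr (Or.inl ⟨(a, i), rfl⟩))),
      hg _ (Or.inr (Or.inl rfl)), hg _ (Or.inr (Or.inr (Or.inl rfl))),
      hg _ (Or.inr (Or.inr (Or.inr rfl))), fun i => ?_, fun a => inv_mul_cancel₀ (hJ1 a), hD1⟩,
    ⟨hT1, ⟨_, hT2, mul_inv_cancel₀ ((hne s).1 hs)⟩, fun z hz => (hT z).1 hz,
      fun x hx => ⟨1, one_ne_zero, 0, ?_⟩, fun i => ⟨dg i, hdg ▸ Ideal.subset_span ⟨i, rfl⟩, rfl⟩,
      fun i => ⟨ag i, hag ▸ Ideal.subset_span ⟨i, rfl⟩, rfl⟩⟩⟩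
  · exact hEb.le (hE4 _ _ (Ideal.mul_mem_mul (hG a) (Ideal.pow_mem_pow (h4 a).2.1 a1)))
  · have q1 := hE1 _ _ hred
    rw [hE2, hE2 (Ideal.span _), hE3, hE3, hE5, hEb, hE6 _ (pow_ne_zero j hs)
      (by rw [map_pow, ← inv_pow]; exact pow_mem hT2 j), one_mul] at q1
    exact q1
  · have q1 := h6 a
    rw [← hS1 a] at q1
    exact q1
  · have q1 := h9 a c i
    rw [← hS1 a, ← hS1 c] at q1
    exact h0d_as q1
  · have q1 := h0d_mul (h0d_mul (h0d_pow (h14 a) w) (h0d_symm (h10 a)))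
      (h0d_pow (h0d_symm (h11 a).1) a1)
    rw [← hS1 a] at q1
    refine h0d_as (h0d_congr q1 (Units.ne_zero _) (Units.ne_zero _) ?_)
    simp only [Units.val_pow_eq_pow_val, Units.val_mul, Units.coe_prod, Units.val_zpow_eq_zpow_val,
      Units.val_mk0, Shp.N]
    rw [h0d_prod (hτ0 a) h b α w a1, inv_pow (v a), ← hvw a, map_mul, map_pow, inv_pow]
    have q2 := hv0 a0
    have q3 := hJ1 a
    field_simp
  · have q1 := hE1 _ _ (Ideal.mul_le_right : 𝔠 * 𝔞 ^ a1 ≤ _)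
    rw [hE3, hEb, hEa] at q1
    exact q1
  · obtain ⟨j1, j2, c, hc⟩ := he1 i z (hS (ch i) ▸ hS1 (ch i) ▸ hz)
    refine ⟨j1, (hT _).2 ⟨j2, c, ?_⟩⟩
    rw [← hc, map_mul, map_pow, map_pow, mul_assoc]
  · obtain ⟨c, hc1, hc2⟩ := he2 i
    have q1 := hE4 _ _ (Ideal.pow_mem_pow hc1 w)
    rw [← pow_mul, mul_comm M w, hE3, hEd, map_pow, ← hc2, mul_pow, ← hvw (ch i)] at q1
    simp only [Units.val_pow_eq_pow_val, Units.val_mul, Units.val_inv_eq_inv_val, Units.val_mk0,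
      Shp.N, inv_inv]
    exact q1
  · exact (hE5 _ e).le (hE4 _ _ he4)
  · exact (hE5 _ e).le (hE4 _ _ he5)
  · rintro z hz ⟨z', hz', hzz⟩
    obtain ⟨i, c, hc⟩ := (hT z).1 hz
    obtain ⟨i', c', hc'⟩ := (hT z').1 hz'
    have q0 : algebraMap A (FractionRing A) e2 * z = algebraMap A (FractionRing A) e1 * z' := hzz
    have q1 : e2 * (s ^ i' * c) = e1 * (s ^ i * c') := hinj (by
      simp only [map_mul, map_pow, ← hc, ← hc']
      linear_combination algebraMap A (FractionRing A) s ^ (i + i') * q0)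
    obtain ⟨l, c'', q2⟩ := he6 _ ⟨_, q1⟩
    refine ⟨1, one_ne_zero, (algebraMap A (FractionRing A) s)⁻¹ ^ (l + i' + i) *
      algebraMap A (FractionRing A) c'', mul_mem (pow_mem hT2 _) (hT1 _), ?_⟩
    have q3 := congrArg (algebraMap A (FractionRing A)) q2
    simp only [map_mul, map_pow, ← hc] at q3
    have q4 := (hne s).1 hs
    change (1 : k) • z = algebraMap A (FractionRing A) e1 * _
    rw [one_smul, mul_left_comm, ← q3, ← mul_assoc _ _ (_ * z), ← mul_assoc _ _ z, ← pow_add,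
      ← pow_add, inv_pow, inv_mul_cancel_left₀ (pow_ne_zero _ q4)]
  · have q1 := h0d_der (D' i) (X := Set.range tg) (W := Algebra.adjoin k
      (Set.range tg ∪ {(algebraMap A (FractionRing A) g)⁻¹}))
      (Set.subset_union_left.trans Algebra.subset_adjoin) (by
        rintro _ ⟨l, rfl⟩
        exact hg _ (Or.inl (Or.inr (Or.inr ⟨(i, l), rfl⟩))))
    refine h0d_der (D' i) Algebra.subset_adjoin ?_
    rintro z (hz | rfl)
    · exact q1 z (Algebra.subset_adjoin hz)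
    · change D' i (algebraMap A (FractionRing A) g)⁻¹ ∈ _
      rw [Derivation.leibniz_inv, smul_eq_mul]
      exact mul_mem (neg_mem (pow_mem (Algebra.subset_adjoin (by exact Or.inr rfl)) 2))
        (q1 _ (hT1 g))
  · rw [(map_eq_zero_iff _ hinj).1 hx, mul_zero, smul_zero]

end

end Pool.Agent.Lib.MP_4287a9_ag
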