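import Pool.Agent.Lib.MP_4287a9_ag.D3

/-!
Properties that hold for all large finitely generated subalgebras.
-/

open scoped TensorProduct ENNReal NNReal nonZeroDivisors Polynomial
open Filter

namespace Pool.Agent.Lib.MP_4287a9_ag

noncomputable section

variable {B k : Type} [CommRing B] [Field k] [Algebra B k]

theorem Ev.mono {P Q : Subalgebra B k → Prop} (h : Ev B k P) (hPQ : ∀ Λ, P Λ → Q Λ) :
    Ev B k Q := by
  obtain ⟨Λ₀, h1, h2⟩ := h
  exact ⟨Λ₀, h1, fun Λ hΛ => hPQ Λ (h2 Λ hΛ)⟩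

theorem Ev.and {P Q : Subalgebra B k → Prop} (h : Ev B k P) (h' : Ev B k Q) :
    Ev B k fun Λ => P Λ ∧ Q Λ := by
  obtain ⟨Λ₀, h1, h2⟩ := h
  obtain ⟨Λ₁, h3, h4⟩ := h'
  exact ⟨Λ₀ ⊔ Λ₁, h1.sup h3,
    fun Λ hΛ => ⟨h2 Λ (le_sup_left.trans hΛ), h4 Λ (le_sup_right.trans hΛ)⟩⟩

theorem Ev.all {ι : Type} [Finite ι] {P : ι → Subalgebra B k → Prop} (h : ∀ i, Ev B k (P i)) :
    Ev B k fun Λ => ∀ i, P i Λ := by
  classical
  have := Fintype.ofFinite ι
  have key : ∀ t : Finset ι, Ev B k fun Λ => ∀ i ∈ t, P i Λ := by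
    intro t
    induction t using Finset.induction_on with
    | empty => exact ⟨⊥, Subalgebra.fg_bot, fun Λ _ i hi => by simp at hi⟩
    | insert a t _ ih =>
      refine ((h a).and ih).mono fun Λ hΛ i hi => ?_
      rcases Finset.mem_insert.1 hi with rfl | hi
      · exact hΛ.1
      · exact hΛ.2 i hi
  exact (key Finset.univ).mono fun Λ hΛ i => hΛ i (Finset.mem_univ i)

theorem Ev.of_forall {P : Subalgebra B k → Prop} (h : ∀ Λ, P Λ) : Ev B k P := ⟨⊥, Subalgebra.fg_bot, fun Λ _ => h Λ⟩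

theorem ev_mem (x : k) : Ev B k fun Λ => x ∈ Λ := by
  refine ⟨Algebra.adjoin B {x}, ?_, fun Λ hΛ => hΛ (Algebra.subset_adjoin rfl)⟩
  exact ⟨{x}, by rw [Finset.coe_singleton]⟩

theorem Ev.exists_fg {P : Subalgebra B k → Prop} (h : Ev B k P) :
    ∃ Λ : Subalgebra B k, Λ.FG ∧ P Λ := by
  obtain ⟨Λ₀, h1, h2⟩ := h
  exact ⟨Λ₀, h1, h2 Λ₀ le_rfl⟩

theorem ev_adjoin {W : Type} [CommRing W] [Algebra k W] (Γ : Set W) {w : W}
    (hw : w ∈ Algebra.adjoin k Γ) : Ev B k fun Λ => w ∈ Algebra.adjoin Λ Γ := by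
  induction hw using Algebra.adjoin_induction with
  | mem x hx => exact Ev.of_forall fun Λ => Algebra.subset_adjoin hx
  | algebraMap c =>
    exact (ev_mem c).mono fun Λ hΛ => Subalgebra.algebraMap_mem _ (⟨c, hΛ⟩ : Λ)
  | add x y _ _ hx hy => exact (hx.and hy).mono fun Λ hΛ => add_mem hΛ.1 hΛ.2
  | mul x y _ _ hx hy => exact (hx.and hy).mono fun Λ hΛ => mul_mem hΛ.1 hΛ.2

theorem adjoin_sub_le {W : Type} [CommRing W] [Algebra k W] (Γ : Set W) (Λ : Subalgebra B k)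
    {w : W} (hw : w ∈ Algebra.adjoin Λ Γ) : w ∈ Algebra.adjoin k Γ := by
  induction hw using Algebra.adjoin_induction with
  | mem x hx => exact Algebra.subset_adjoin hx
  | algebraMap c => exact Subalgebra.algebraMap_mem _ (c : k)
  | add x y _ _ hx hy => exact add_mem hx hy
  | mul x y _ _ hx hy => exact mul_mem hx hy

theorem h1a_span {n : ℕ} {s : Shp n} {W : Type} [CommRing W] [Algebra k W] (d : RD s W)
    (A : Set W) : ∀ w ∈ Submodule.span (d.T k) A,
      Ev B k fun Λ => w ∈ Submodule.span (d.T Λ) A := by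
  intro w hw
  induction hw using Submodule.span_induction with
  | mem x hx => exact Ev.of_forall fun Λ => Submodule.subset_span hx
  | zero => exact Ev.of_forall fun Λ => zero_mem _
  | add x y _ _ hx hy => exact (hx.and hy).mono fun Λ hΛ => add_mem hΛ.1 hΛ.2
  | smul c x _ hx =>
    exact ((ev_adjoin (B := B) _ c.2).and hx).mono fun Λ hΛ =>
      Submodule.smul_mem _ (⟨c, hΛ.1⟩ : d.T Λ) hΛ.2

theorem h1a_mul {n : ℕ} {s : Shp n} {W : Type} [CommRing W] [Algebra k W] (d : RD s W)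
    {M N : Submodule (d.T k) W} {M' N' : ∀ Λ : Subalgebra B k, Submodule (d.T Λ) W}
    (h : ∀ w ∈ M, Ev B k fun Λ => w ∈ M' Λ) (h' : ∀ w ∈ N, Ev B k fun Λ => w ∈ N' Λ) :
    ∀ w ∈ M * N, Ev B k fun Λ => w ∈ M' Λ * N' Λ := by
  intro w hw
  refine Submodule.mul_induction_on hw (fun x hx y hy => ?_) (fun x y hx hy => ?_)
  · exact ((h x hx).and (h' y hy)).mono fun Λ hΛ => Submodule.mul_mem_mul hΛ.1 hΛ.2
  · exact (hx.and hy).mono fun Λ hΛ => add_mem hΛ.1 hΛ.2

theorem h1a_pow {n : ℕ} {s : Shp n} {W : Type} [CommRing W] [Algebra k W] (d : RD s W)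
    {M : Submodule (d.T k) W} {M' : ∀ Λ : Subalgebra B k, Submodule (d.T Λ) W}
    (h : ∀ w ∈ M, Ev B k fun Λ => w ∈ M' Λ) (i : ℕ) :
    ∀ w ∈ M ^ i, Ev B k fun Λ => w ∈ M' Λ ^ i := by
  induction i with
  | zero =>
    simp only [pow_zero, Submodule.one_eq_span]
    exact h1a_span d _
  | succ i ih =>
    simp only [pow_succ]
    exact h1a_mul d ih h

/-- `sp v ^ i * sp v' ^ j` is spanned over `T` by products of the `v l`, `v' l`. -/
theorem ev_sp {n : ℕ} {s : Shp n} {W : Type} [CommRing W] [Algebra k W] (d : RD s W) {a b : ℕ}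
    (v : Fin a → W) (v' : Fin b → W) (i j : ℕ) {w : W} (hw : w ∈ d.sp k v ^ i * d.sp k v' ^ j) :
    Ev B k fun Λ => w ∈ d.sp Λ v ^ i * d.sp Λ v' ^ j :=
  h1a_mul d (h1a_pow d (h1a_span d _) i) (h1a_pow d (h1a_span d _) j) w hw

theorem h1a_proj (Λ : Subalgebra B k) (S : Finset k) :
    ∃ π : k →ₗ[Λ] k, π 1 ≠ 0 ∧ π 1 ∈ Λ ∧ ∀ c ∈ S, π c ∈ Λ := by
  classical
  have : FaithfulSMul Λ k := (faithfulSMul_iff_algebraMap_injective Λ k).2 Subtype.val_injective
  let _ : Algebra (FractionRing Λ) k := FractionRing.liftAlgebra Λ k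
  have : IsScalarTower Λ (FractionRing Λ) k := FractionRing.isScalarTower_liftAlgebra Λ k
  obtain ⟨φ, hφ⟩ : ∃ φ : Module.Dual (FractionRing Λ) k, φ 1 ≠ 0 := by
    by_contra h
    push Not at h
    exact one_ne_zero ((Module.forall_dual_apply_eq_zero_iff (FractionRing Λ) (1 : k)).1 h)
  obtain ⟨b, hb⟩ := IsLocalization.exist_integer_multiples_of_finset Λ⁰
    ((insert 1 S).image φ)
  let π : k →ₗ[Λ] k := (b : Λ) •
    (((Algebra.linearMap (FractionRing Λ) k).comp φ).restrictScalars Λ)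
  have hπ : ∀ c, π c = algebraMap (FractionRing Λ) k ((b : Λ) • φ c) := fun c => by
    rw [Algebra.smul_def, map_mul, ← IsScalarTower.algebraMap_apply]
    rfl
  have hm : ∀ c ∈ insert 1 S, π c ∈ Λ := fun c hc => by
    obtain ⟨y, hy⟩ := hb _ (Finset.mem_image_of_mem φ hc)
    rw [hπ, ← hy, ← IsScalarTower.algebraMap_apply]
    exact y.2
  refine ⟨π, ?_, hm _ (Finset.mem_insert_self _ _), fun c hc => hm _ (Finset.mem_insert_of_mem hc)⟩
  rw [hπ, Algebra.smul_def]
  refine (map_ne_zero _).2 (mul_ne_zero ?_ hφ)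
  exact (map_ne_zero_iff _ (IsFractionRing.injective Λ (FractionRing Λ))).2
    (nonZeroDivisors.ne_zero b.2)

theorem h1a_lift {W : Type} [CommRing W] [Algebra k W] {a : ℕ} (Λ : Subalgebra B k)
    (γ : Fin a → W) {w : W} (hw : w ∈ Algebra.adjoin Λ (Set.range γ)) :
    ∃ u : MvPolynomial (Fin a) k, (∀ μ, u.coeff μ ∈ Λ) ∧ MvPolynomial.aeval γ u = w := by
  rw [Algebra.adjoin_range_eq_range_aeval] at hw
  obtain ⟨u, rfl⟩ := hw
  refine ⟨MvPolynomial.map (algebraMap Λ k) u, fun μ => ?_, ?_⟩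
  · rw [MvPolynomial.coeff_map]
    exact (u.coeff μ).2
  · exact MvPolynomial.aeval_map_algebraMap k γ u

theorem h1a_mem {W : Type} [CommRing W] [Algebra k W] {a : ℕ} (Λ : Subalgebra B k)
    (γ : Fin a → W) {u : MvPolynomial (Fin a) k} (hu : ∀ μ, u.coeff μ ∈ Λ) :
    MvPolynomial.aeval γ u ∈ Algebra.adjoin Λ (Set.range γ) := by
  rw [u.as_sum, map_sum]
  refine sum_mem fun μ _ => ?_
  rw [MvPolynomial.aeval_monomial]
  exact mul_mem (Subalgebra.algebraMap_mem _ (⟨_, hu μ⟩ : Λ))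
    (prod_mem fun i _ => pow_mem (Algebra.subset_adjoin (Set.mem_range_self i)) _)

/-- Linear disjointness. Let `𝔓` be the kernel of `k[X] → W`, `X i ↦ γ i`, generated by finitely
many polynomials with coefficients in `Λ` (eventually). Let `F ⊆ k` be the fraction field of `Λ`
and `π : k → F` an `F`-linear projection. Applied to coefficients, `π` maps `𝔓` into `𝔓` and is
`F[X]`-linear, so `w = e * v`, `v = f (γ)` gives `w = e * (π f) (γ)`; clear denominators. -/
theorem ev_ld {W : Type} [CommRing W] [Algebra k W] {a : ℕ} (γ : Fin a → W) :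
    Ev B k fun Λ => ∀ w ∈ Algebra.adjoin Λ (Set.range γ), ∀ e ∈ Algebra.adjoin Λ (Set.range γ),
      (∃ v ∈ Algebra.adjoin k (Set.range γ), w = e * v) →
        ∃ b : Λ, b ≠ 0 ∧ ∃ v ∈ Algebra.adjoin Λ (Set.range γ), b • w = e * v := by
  classical
  obtain ⟨m, g, hg⟩ := Submodule.fg_iff_exists_fin_generating_family.1
    (IsNoetherian.noetherian (RingHom.ker
      (MvPolynomial.aeval γ : MvPolynomial (Fin a) k →ₐ[k] W)))
  have hg0 : ∀ j, MvPolynomial.aeval γ (g j) = 0 := fun j => by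
    have : g j ∈ RingHom.ker (MvPolynomial.aeval γ : MvPolynomial (Fin a) k →ₐ[k] W) := by
      rw [← hg]; exact Submodule.subset_span ⟨j, rfl⟩
    exact this
  refine (Ev.all (ι := Σ j, (g j).support) fun x => ev_mem ((g x.1).coeff x.2)).mono
    fun Λ hΛ w hw e he hv => ?_
  have hgΛ : ∀ j μ, (g j).coeff μ ∈ Λ := fun j μ => by
    by_cases h : μ ∈ (g j).support
    · exact hΛ ⟨j, μ, h⟩
    · rw [MvPolynomial.notMem_support_iff.1 h]; exact zero_mem _
  obtain ⟨v, hv, hwv⟩ := hv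
  rw [Algebra.adjoin_range_eq_range_aeval] at hv
  obtain ⟨f, rfl⟩ := hv
  obtain ⟨w', hw', rfl⟩ := h1a_lift Λ γ hw
  obtain ⟨e', he', rfl⟩ := h1a_lift Λ γ he
  have hk : w' - e' * f ∈ Ideal.span (Set.range g) := by
    have : w' - e' * f ∈
        RingHom.ker (MvPolynomial.aeval γ : MvPolynomial (Fin a) k →ₐ[k] W) := by
      rw [RingHom.mem_ker, map_sub, map_mul, hwv]
      exact sub_self _
    rw [← hg] at this
    exact this
  obtain ⟨h, hh⟩ := Ideal.mem_span_range_iff_exists_fun.1 hk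
  obtain ⟨π, h0, h1, h2⟩ := h1a_proj Λ (f.support.image fun μ => f.coeff μ)
  let Q : MvPolynomial (Fin a) k → MvPolynomial (Fin a) k := fun u =>
    ∑ μ ∈ u.support, MvPolynomial.monomial μ (π (u.coeff μ))
  have hQ : ∀ u μ, (Q u).coeff μ = π (u.coeff μ) := fun u μ => by
    simp only [Q, MvPolynomial.coeff_sum, MvPolynomial.coeff_monomial, Finset.sum_ite_eq']
    split_ifs with h
    · rfl
    · rw [MvPolynomial.notMem_support_iff.1 h, map_zero]
  have hlin : ∀ c ∈ Λ, ∀ x, π (c * x) = c * π x := fun c hc x => π.map_smul (⟨c, hc⟩ : Λ) x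
  have hmul : ∀ u : MvPolynomial (Fin a) k, (∀ μ, u.coeff μ ∈ Λ) → ∀ u' μ,
      π ((u * u').coeff μ) = (u * Q u').coeff μ := fun u hu u' μ => by
    rw [MvPolynomial.coeff_mul, MvPolynomial.coeff_mul, map_sum]
    exact Finset.sum_congr rfl fun x _ => by rw [hlin _ (hu _), hQ]
  have key : π 1 • w' = e' * Q f + ∑ j, g j * Q (h j) := by
    have e1 : w' = e' * f + ∑ j, g j * h j := by
      rw [← sub_eq_iff_eq_add', ← hh]
      exact Finset.sum_congr rfl fun j _ => mul_comm _ _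
    ext μ
    have e2 := congrArg (fun u => π (MvPolynomial.coeff μ u)) e1
    simp only [MvPolynomial.coeff_add, MvPolynomial.coeff_sum, map_add, map_sum,
      hmul _ he', hmul _ (hgΛ _)] at e2
    rw [MvPolynomial.coeff_smul, MvPolynomial.coeff_add, MvPolynomial.coeff_sum, ← e2,
      smul_eq_mul, mul_comm, ← hlin _ (hw' μ), mul_one]
  refine ⟨⟨π 1, h1⟩, fun h => h0 (congrArg Subtype.val h), MvPolynomial.aeval γ (Q f),
    h1a_mem Λ γ fun μ => ?_, ?_⟩
  · rw [hQ]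
    by_cases h : μ ∈ f.support
    · exact h2 _ (Finset.mem_image_of_mem _ h)
    · rw [MvPolynomial.notMem_support_iff.1 h, map_zero]; exact zero_mem _
  · have := congrArg (MvPolynomial.aeval γ) key
    simp only [map_smul, map_add, map_mul, map_sum, hg0, zero_mul, Finset.sum_const_zero,
      add_zero] at this
    exact this

end

end Pool.Agent.Lib.MP_4287a9_ag
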