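import Pool.Agent.Lib.MP_4287a9_ag.H1a
import Pool.Agent.Lib.MP_4287a9_ag.EtA

/-!
Spreading out etale coordinates.
-/

open scoped TensorProduct ENNReal NNReal nonZeroDivisors Polynomial
open Filter

namespace Pool.Agent.Lib.MP_4287a9_ag

noncomputable section

variable {B k : Type} [CommRing B] [Field k] [Algebra B k]

theorem h1b_aux {A₀ P A B₀ W T : Type} [CommRing A₀] [CommRing P] [CommRing A] [CommRing B₀]
    [CommRing W] [CommRing T] [Algebra A₀ P] [Algebra A₀ A] [Algebra A₀ B₀] [Algebra.Etale A₀ B₀]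
    (ι : P →ₐ[A₀] A) (hι : Function.Injective ι) (E : A ⊗[A₀] B₀ →+* W)
    (hE : Function.Injective E) (v : T →+* W) (hv : Function.Injective v) (f : P →+* T)
    (hf : ∀ p, v (f p) = E (ι p ⊗ₜ 1)) (h1 : ∀ b, E (1 ⊗ₜ b) ∈ v.range)
    (h2 : ∀ t, v t ∈ (E.comp (Algebra.TensorProduct.map ι (AlgHom.id A₀ B₀)).toRingHom).range) :
    f.Etale := by
  set Ψ := E.comp (Algebra.TensorProduct.map ι (AlgHom.id A₀ B₀)).toRingHom with hΨ
  have hΨi : Function.Injective Ψ :=
    hE.comp (Module.Flat.rTensor_preserves_injective_linearMap (M := B₀) ι.toLinearMap hι)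
  have hmem : ∀ z, Ψ z ∈ v.range := by
    intro z
    induction z using TensorProduct.induction_on with
    | zero => rw [map_zero]; exact zero_mem _
    | add a b ha hb => rw [map_add]; exact add_mem ha hb
    | tmul p b =>
      have e : Ψ (p ⊗ₜ b) = E (ι p ⊗ₜ 1) * E (1 ⊗ₜ b) := by
        rw [← map_mul, Algebra.TensorProduct.tmul_mul_tmul, mul_one, one_mul]
        rfl
      rw [e, ← hf]
      exact mul_mem ⟨_, rfl⟩ (h1 b)
  let eT : T ≃+* v.range := RingEquiv.ofBijective v.rangeRestrict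
    ⟨fun a b hab => hv (congrArg Subtype.val hab), v.rangeRestrict_surjective⟩
  let g : P ⊗[A₀] B₀ →+* T := eT.symm.toRingHom.comp (Ψ.codRestrict v.range hmem)
  have hg : ∀ z, v (g z) = Ψ z := fun z =>
    congrArg Subtype.val (eT.apply_symm_apply (Ψ.codRestrict v.range hmem z))
  have hgb : Function.Bijective g := by
    refine ⟨fun a b hab => hΨi (by rw [← hg, ← hg, hab]), fun t => ?_⟩
    obtain ⟨z, hz⟩ := h2 t
    exact ⟨z, hv ((hg z).trans hz)⟩
  have e : f = g.comp (algebraMap P (P ⊗[A₀] B₀)) :=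
    RingHom.ext fun p => hv ((hf p).trans (hg (p ⊗ₜ 1)).symm)
  rw [e]
  exact RingHom.Etale.stableUnderComposition _ _ (RingHom.etale_algebraMap.2 inferInstance)
    (RingHom.Etale.of_bijective hgb)

theorem h1b_ev_sub {W : Type} [CommRing W] [Algebra k W] (Γ : Set W) {Δ : Set W} (hΔ : Δ.Finite)
    (h : ∀ w ∈ Δ, w ∈ Algebra.adjoin k Γ) :
    Ev B k fun Λ => ∀ w ∈ Δ, w ∈ Algebra.adjoin Λ Γ := by
  have := hΔ.to_subtype
  exact (Ev.all fun w : Δ => ev_adjoin Γ (h w w.2)).mono fun Λ hΛ w hw => hΛ ⟨w, hw⟩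

/-- `Algebra.Etale.exists_subalgebra_fg` gives a finitely generated `P₀ ⊆ k[Y]` and an etale
`P₀`-algebra `S₀` with `S = k[Y] ⊗[P₀] S₀`. For large `Λ`, `P₀` lies in the image of `Λ[Y]`;
`S₁ = Λ[Y] ⊗[P₀] S₀` is etale over `Λ[Y]`, flat over the domain `Λ`, and
`k ⊗[Λ] S₁ = S`, so `S₁ → S` is injective (or: `S₀` is flat over `P₀` and `Λ[Y] → k[Y]` is
injective). Its image is generated over `Λ` by `y` and the images of generators of `S₀`; for large
`Λ` it equals `adjoin Λ Γ` (`ev_adjoin` both ways). -/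
theorem ev_etale {W : Type} [CommRing W] [Algebra k W] {n : ℕ} {Γ : Set W} (hΓ : Γ.Finite)
    {y : Fin n → W} (h : EtC (Algebra.adjoin k Γ) y) :
    Ev B k fun Λ => EtC (Algebra.adjoin Λ Γ) y := by
  obtain ⟨hy, het⟩ := h
  let _ : Algebra (MvPolynomial (Fin n) k) (Algebra.adjoin k Γ) :=
    (MvPolynomial.aeval (fun l => (⟨y l, hy l⟩ : Algebra.adjoin k Γ)) :
      MvPolynomial (Fin n) k →ₐ[k] Algebra.adjoin k Γ).toRingHom.toAlgebra
  have : Algebra.Etale (MvPolynomial (Fin n) k) (Algebra.adjoin k Γ) := het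
  obtain ⟨A₀, B₀, _, _, ⟨G, hG⟩, hB₀, ⟨e⟩⟩ :=
    Algebra.Etale.exists_subalgebra_fg ℤ (MvPolynomial (Fin n) k) (Algebra.adjoin k Γ)
  obtain ⟨G₀, hG₀⟩ := Algebra.FiniteType.out (R := A₀) (A := B₀)
  let E : MvPolynomial (Fin n) k ⊗[A₀] B₀ →+* W :=
    (Algebra.adjoin k Γ).val.toRingHom.comp e.symm.toRingEquiv.toRingHom
  have hE : Function.Injective E := Subtype.val_injective.comp e.symm.injective
  have hE1 : ∀ a, E (a ⊗ₜ 1) = MvPolynomial.aeval y a := by
    intro a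
    have h1 : e.symm (a ⊗ₜ 1) = algebraMap _ _ a := e.symm.commutes a
    have h2 : (Algebra.adjoin k Γ).val.comp
        (MvPolynomial.aeval (fun l => (⟨y l, hy l⟩ : Algebra.adjoin k Γ))) =
          MvPolynomial.aeval y := MvPolynomial.algHom_ext fun l => by simp
    exact (congrArg Subtype.val h1).trans (AlgHom.congr_fun h2 a)
  have hΔ : ∀ w ∈ Γ, w ∈ Algebra.adjoin k (Set.range y ∪ Set.range fun b => E (1 ⊗ₜ b)) := by
    have h1 : ∀ z, E z ∈ Algebra.adjoin k (Set.range y ∪ Set.range fun b => E (1 ⊗ₜ b)) := by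
      intro z
      induction z using TensorProduct.induction_on with
      | zero => rw [map_zero]; exact zero_mem _
      | add a b ha hb => rw [map_add]; exact add_mem ha hb
      | tmul a b =>
        have e1 : E (a ⊗ₜ b) = E (a ⊗ₜ 1) * E (1 ⊗ₜ b) := by
          rw [← map_mul, Algebra.TensorProduct.tmul_mul_tmul, mul_one, one_mul]
        rw [e1, hE1]
        refine mul_mem (Algebra.adjoin_mono Set.subset_union_left ?_)
          (Algebra.subset_adjoin (Or.inr ⟨b, rfl⟩))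
        rw [Algebra.adjoin_range_eq_range_aeval]
        exact ⟨a, rfl⟩
    intro w hw
    have h2 := h1 (e ⟨w, Algebra.subset_adjoin hw⟩)
    rwa [show E (e ⟨w, Algebra.subset_adjoin hw⟩) = w from
      congrArg Subtype.val (e.symm_apply_apply _)] at h2
  refine ((((h1b_ev_sub (Set.range MvPolynomial.X) G.finite_toSet fun a _ => by
      rw [MvPolynomial.adjoin_range_X]; trivial).and
    (h1b_ev_sub Γ (Set.finite_range y) fun _ ⟨l, hl⟩ => hl ▸ hy l)).and
    (h1b_ev_sub Γ (G₀.finite_toSet.image fun b => E (1 ⊗ₜ b)) fun _ ⟨b, _, hb⟩ =>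
      hb ▸ (e.symm (1 ⊗ₜ b)).2)).and (h1b_ev_sub _ hΓ hΔ)).mono ?_
  rintro Λ ⟨⟨⟨h1, h2⟩, h3⟩, h4⟩
  let ι₀ : MvPolynomial (Fin n) Λ →+* MvPolynomial (Fin n) k := MvPolynomial.map (algebraMap Λ k)
  have hι₀ : Function.Injective ι₀ := MvPolynomial.map_injective _ Subtype.val_injective
  have hA₀ : ∀ a : A₀, (a : MvPolynomial (Fin n) k) ∈ ι₀.range := by
    have h5 : A₀ ≤ subalgebraOfSubring ι₀.range := by
      rw [← hG, Algebra.adjoin_le_iff]
      intro a ha
      have h6 := h1 a ha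
      rw [Algebra.adjoin_range_eq_range_aeval] at h6
      obtain ⟨p, rfl⟩ := h6
      refine ⟨p, ?_⟩
      change MvPolynomial.map (algebraMap Λ k) p = _
      rw [MvPolynomial.map_eq_eval₂Hom_C_comp]
      rfl
    exact fun a => h5 a.2
  let eP : MvPolynomial (Fin n) Λ ≃+* ι₀.range := RingEquiv.ofBijective ι₀.rangeRestrict
    ⟨fun a b hab => hι₀ (congrArg Subtype.val hab), ι₀.rangeRestrict_surjective⟩
  let φ : A₀ →+* MvPolynomial (Fin n) Λ :=
    eP.symm.toRingHom.comp (A₀.val.toRingHom.codRestrict ι₀.range hA₀)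
  have hφ : ∀ a, ι₀ (φ a) = a := fun a =>
    congrArg Subtype.val (eP.apply_symm_apply (A₀.val.toRingHom.codRestrict ι₀.range hA₀ a))
  let _ := φ.toAlgebra
  let ι : MvPolynomial (Fin n) Λ →ₐ[A₀] MvPolynomial (Fin n) k := { ι₀ with commutes' := hφ }
  have hy' : ∀ l, y l ∈ Algebra.adjoin Λ Γ := fun l => h2 _ ⟨l, rfl⟩
  have hf : ∀ p, (Algebra.adjoin Λ Γ).val
      (MvPolynomial.aeval (fun l => (⟨y l, hy' l⟩ : Algebra.adjoin Λ Γ)) p) = E (ι p ⊗ₜ 1) := by
    intro p
    have h5 : (Algebra.adjoin Λ Γ).val.comp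
        (MvPolynomial.aeval (fun l => (⟨y l, hy' l⟩ : Algebra.adjoin Λ Γ))) =
          MvPolynomial.aeval y := MvPolynomial.algHom_ext fun l => by simp
    rw [hE1]
    exact (AlgHom.congr_fun h5 p).trans (MvPolynomial.aeval_map_algebraMap k y p).symm
  refine ⟨hy', h1b_aux ι hι₀ E hE (Algebra.adjoin Λ Γ).val.toRingHom Subtype.val_injective _ hf
    (fun b => ?_) fun t => ?_⟩
  · have hb : b ∈ Algebra.adjoin A₀ (G₀ : Set B₀) := hG₀ ▸ Algebra.mem_top
    induction hb using Algebra.adjoin_induction with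
    | mem b hb => exact ⟨⟨_, h3 _ ⟨b, hb, rfl⟩⟩, rfl⟩
    | algebraMap a =>
      refine ⟨_, (hf (φ a)).trans (congrArg E ?_)⟩
      rw [show ι (φ a) = algebraMap A₀ _ a from hφ a, Algebra.algebraMap_eq_smul_one,
        Algebra.algebraMap_eq_smul_one, TensorProduct.smul_tmul]
    | add a b _ _ ha hb => rw [TensorProduct.tmul_add, map_add]; exact add_mem ha hb
    | mul a b _ _ ha hb =>
      rw [← one_mul (1 : MvPolynomial (Fin n) k), ← Algebra.TensorProduct.tmul_mul_tmul, map_mul]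
      exact mul_mem ha hb
  · have h5 : ∀ w ∈ Algebra.adjoin Λ (Set.range y ∪ Set.range fun b => E (1 ⊗ₜ b)),
        w ∈ RingHom.range (R := MvPolynomial (Fin n) Λ ⊗[A₀] B₀)
          (E.comp (Algebra.TensorProduct.map ι (AlgHom.id A₀ B₀)).toRingHom) := by
      intro w hw
      induction hw using Algebra.adjoin_induction with
      | mem w hw =>
        rcases hw with ⟨l, rfl⟩ | ⟨b, rfl⟩
        · exact ⟨MvPolynomial.X l ⊗ₜ 1, (hf _).symm.trans (by simp)⟩
        · exact ⟨1 ⊗ₜ b, congrArg (fun a => E (a ⊗ₜ b)) (map_one ι)⟩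
      | algebraMap c => exact ⟨MvPolynomial.C c ⊗ₜ 1, (hf _).symm.trans (by simp)⟩
      | add a b _ _ ha hb => exact add_mem ha hb
      | mul a b _ _ ha hb => exact mul_mem ha hb
    exact h5 _ (Algebra.adjoin_le h4 t.2)

end

end Pool.Agent.Lib.MP_4287a9_ag
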