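import Pool.Agent.Lib.MP_4287a9_ag.HYa
import Pool.Agent.Lib.MP_4287a9_ag.H0d
import Pool.Agent.Lib.MP_4287a9_ag.H1c
import Pool.Agent.Lib.MP_4287a9_ag.H1d
import Pool.Agent.Lib.MP_4287a9_ag.LinkA
import Pool.Agent.Lib.MP_4287a9_ag.LinkB
import Pool.Agent.Lib.MP_4287a9_ag.LocB
import Pool.Agent.Lib.MP_4287a9_ag.Desc

/-!
The theorem of Hara and Yoshida: klt triples are of strongly F-regular type.
-/

open scoped TensorProduct ENNReal NNReal nonZeroDivisors Polynomial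
open Filter

namespace Pool.Agent.Lib.MP_4287a9_ag

noncomputable section

/-- The statement over a large finitely generated `Λ' ⊆ k`: `exists_amb`, `Amb.spread`,
`Link.spread`, `Ev.exists_fg`, `Amb.to_sub`, `sfri_red`, `Link.red`, `exists_isRed`,
`isRed_tensor`, `SFRi.of_away`. The element `aug σ Λ' f'` is nonzero (its image in `k` is
`aug σ k f`), and is included in `b'` so that the image of `f'` is not in `pt σ κ'`. -/
theorem hy_large {k B T : Type} [Field k] [CharZero k] [CommRing B] [Algebra.FiniteType ℤ B]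
    [Algebra B k] [CommRing T] [Algebra B T] [Algebra.FiniteType B T] (σ : T →ₐ[B] B)
    [IsDomain (k ⊗[B] T)] [IsIntegrallyClosed (k ⊗[B] T)] {n : ℕ} {𝔡 : Ideal T} {r : ℕ}
    (hr : 0 < r) (h𝔡 : ext B k 𝔡 ≠ ⊥) {Λ : Type} [CommRing Λ] [Algebra B Λ]
    [Algebra.FiniteType B Λ] (φ : Λ →ₐ[B] k) (𝒥 : Ideal (Λ ⊗[B] T)) {t : ℝ≥0}
    (hK : Klt k n (pt σ k) (ext B k 𝔡) r (spk φ 𝒥) t) :
    ∃ (Λ' : Subalgebra B k) (φ' : Λ →ₐ[B] Λ') (b' : Λ'), Λ'.FG ∧ Λ'.val.comp φ' = φ ∧ b' ≠ 0 ∧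
      ∀ (κ : Type) [Field κ] [Finite κ] [Algebra B κ] (χ : Λ' →ₐ[B] κ), Function.Surjective χ →
        χ b' ≠ 0 → IsDomain (Loc σ κ) ∧ IsIntegrallyClosed (Loc σ κ) ∧
          SFRi (ringChar κ) (toLoc σ κ (ext B κ 𝔡)) r (toLoc σ κ (spk (χ.comp φ') 𝒥)) t := by
  have hNB : IsNoetherianRing B := Algebra.FiniteType.isNoetherianRing ℤ B
  have hft : Algebra.FiniteType k (k ⊗[B] T) := inferInstance
  obtain ⟨s, d, D, f, hf, hsr, hst, hamb, hlink⟩ := exists_amb hr h𝔡 hK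
  obtain ⟨Λ', hfg, hamb', φ', f', ρ', hφ', hf', hlink'⟩ :=
    ((hamb.spread (B := B)).and (hlink.spread φ)).exists_fg
  obtain ⟨d', D', ρ'', hgood, hlink''⟩ := hamb'.to_sub hlink'
  have hftB : Algebra.FiniteType B Λ' := (Subalgebra.fg_iff_finiteType Λ').1 hfg
  have hftZ : Algebra.FiniteType ℤ Λ' := Algebra.FiniteType.trans (S := B) inferInstance hftB
  have hNΛ : IsNoetherianRing Λ' := Algebra.FiniteType.isNoetherianRing ℤ Λ'
  have hcz : CharZero Λ' := by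
    refine ⟨fun a b hab => ?_⟩
    have := congrArg (Λ'.val) hab
    simpa using this
  have hNP : IsNoetherianRing (Λ' ⊗[B] T) := Algebra.FiniteType.isNoetherianRing Λ' _
  obtain ⟨b1, hb1, H1⟩ := hgood.sfri_red hst
  obtain ⟨b2, hb2, H2⟩ := hlink''.red
  have haug : ∀ (F : Type) [CommRing F] [Algebra B F] (g : Λ' →ₐ[B] F) (x : Λ' ⊗[B] T),
      aug σ F (Algebra.TensorProduct.map g (AlgHom.id B T) x) = g (aug σ Λ' x) := by
    intro F _ _ g x
    induction x using TensorProduct.induction_on with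
    | zero => simp
    | tmul a w => simp [aug, Algebra.ofId_apply]
    | add x y hx hy => simp [hx, hy]
  have hb3 : aug σ Λ' f' ≠ 0 := by
    intro h0
    apply hf
    change aug σ k f = 0
    rw [← hf', haug, h0, map_zero]
  refine ⟨Λ', φ', b1 * b2 * aug σ Λ' f', hfg, hφ', mul_ne_zero (mul_ne_zero hb1 hb2) hb3, ?_⟩
  intro κ _ _ _ χ hχ hb
  rw [map_mul, map_mul] at hb
  have hb1' : χ b1 ≠ 0 := left_ne_zero_of_mul (left_ne_zero_of_mul hb)
  have hb2' : χ b2 ≠ 0 := right_ne_zero_of_mul (left_ne_zero_of_mul hb)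
  have hb3' : χ (aug σ Λ' f') ≠ 0 := right_ne_zero_of_mul hb
  obtain ⟨W', _, _, π, hπ⟩ := exists_isRed (d.Ws Λ') χ.toRingHom hχ
  obtain ⟨hpure, hnoeth, hred, hsfr⟩ := H1 κ W' χ.toRingHom π hπ hb1'
  obtain ⟨ρ3, haway, hd3, ha3⟩ := H2 κ W' (κ ⊗[B] T) χ.toRingHom π
    (Algebra.TensorProduct.map χ (AlgHom.id B T)).toRingHom hπ (isRed_tensor χ hχ) hb2' hpure
  have hp : 0 < ringChar κ := Nat.pos_of_ne_zero (CharP.ringChar_ne_zero_of_finite κ)
  have hfm : (Algebra.TensorProduct.map χ (AlgHom.id B T)).toRingHom f' ∉ pt σ κ := by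
    intro h0
    apply hb3'
    rw [← haug]
    exact h0
  have := SFRi.of_away hp ρ3 haway (pt σ κ) hfm hd3 ha3 hsfr
  have e1 : (ext B Λ' 𝔡).map (Algebra.TensorProduct.map χ (AlgHom.id B T)).toRingHom =
      ext B κ 𝔡 := spk_ext χ 𝔡
  have e2 : (spk φ' 𝒥).map (Algebra.TensorProduct.map χ (AlgHom.id B T)).toRingHom =
      spk (χ.comp φ') 𝒥 := spk_spk φ' χ 𝒥
  rw [e1, e2, hsr] at this
  exact this

/-- Lift `χ` to `Λ'` by `gen_lift` (the `B`-algebra structure on `κ'` is the one through `κ`) and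
descend by `exists_retraction`, `descend_abs`, `spk_ext`, `spk_spk`. -/
theorem hy {k B T : Type} [Field k] [CharZero k] [CommRing B] [Algebra.FiniteType ℤ B]
    [Algebra B k] [CommRing T] [Algebra B T] [Algebra.FiniteType B T] (σ : T →ₐ[B] B)
    [IsDomain (k ⊗[B] T)] [IsIntegrallyClosed (k ⊗[B] T)] {n : ℕ} {𝔡 : Ideal T} {r : ℕ}
    (hr : 0 < r) (h𝔡 : ext B k 𝔡 ≠ ⊥) {Λ : Type} [CommRing Λ] [Algebra B Λ]
    [Algebra.FiniteType B Λ] (φ : Λ →ₐ[B] k) (hφ : Function.Injective φ)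
    (𝒥 : Ideal (Λ ⊗[B] T)) {t : ℝ≥0} (hK : Klt k n (pt σ k) (ext B k 𝔡) r (spk φ 𝒥) t) :
    ∃ b : Λ, b ≠ 0 ∧
      ∀ (κ : Type) [Field κ] [Finite κ] [Algebra B κ] (χ : Λ →ₐ[B] κ), Function.Surjective χ →
        χ b ≠ 0 → IsDomain (Loc σ κ) ∧ IsIntegrallyClosed (Loc σ κ) ∧
          SFRi (ringChar κ) (toLoc σ κ (ext B κ 𝔡)) r (toLoc σ κ (spk χ 𝒥)) t := by
  obtain ⟨Λ', φ', b', hfg, hφ', hb', H⟩ := hy_large σ hr h𝔡 φ 𝒥 hK
  have hdom : IsDomain Λ := hφ.isDomain φ.toRingHom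
  have hftZ : Algebra.FiniteType ℤ Λ := Algebra.FiniteType.trans (S := B) inferInstance inferInstance
  have hNΛ : IsNoetherianRing Λ := Algebra.FiniteType.isNoetherianRing ℤ Λ
  letI : Algebra Λ Λ' := φ'.toRingHom.toAlgebra
  have htower : IsScalarTower B Λ Λ' := IsScalarTower.of_algebraMap_eq fun b => (φ'.commutes b).symm
  have hftB : Algebra.FiniteType B Λ' := (Subalgebra.fg_iff_finiteType Λ').1 hfg
  have hft : Algebra.FiniteType Λ Λ' := Algebra.FiniteType.of_restrictScalars_finiteType B Λ Λ'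
  have hinj : Function.Injective (algebraMap Λ Λ') := by
    intro a a' h
    apply hφ
    rw [← hφ']
    exact congrArg Λ'.val h
  obtain ⟨b, hb, Hl⟩ := gen_lift Λ Λ' hinj hb'
  refine ⟨b, hb, ?_⟩
  intro κ _ _ _ χ hχ hχb
  obtain ⟨κ', _, _, ι, χ', hχ', hc, hχb'⟩ := Hl κ χ.toRingHom hχ hχb
  letI : Algebra B κ' := (ι.comp (algebraMap B κ)).toAlgebra
  let ιa : κ →ₐ[B] κ' := { ι with commutes' := fun _ => rfl }
  let χa : Λ' →ₐ[B] κ' :=
    { χ' with
      commutes' := fun x => by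
        have h1 : algebraMap B Λ' x = algebraMap Λ Λ' (algebraMap B Λ x) :=
          IsScalarTower.algebraMap_apply B Λ Λ' x
        change χ' (algebraMap B Λ' x) = ι (algebraMap B κ x)
        rw [h1, hc]
        exact congrArg ι (χ.commutes x) }
  obtain ⟨hd', hn', hs'⟩ := H κ' χa hχ' hχb'
  obtain ⟨ιL, πL, h1, hπ, hI⟩ := exists_retraction σ ιa
  have e1 : χa.comp φ' = ιa.comp χ := AlgHom.ext fun a => hc a
  have e2 : ringChar κ' = ringChar κ := by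
    haveI : CharP κ' (ringChar κ) := charP_of_injective_ringHom ι.injective (ringChar κ)
    exact ringChar.eq κ' (ringChar κ)
  rw [e1, ← spk_spk, ← spk_ext ιa, ← hI, ← hI, e2] at hs'
  exact descend_abs ιL πL h1 hπ hs'

end

end Pool.Agent.Lib.MP_4287a9_ag
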