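import Pool.Agent.Lib.MP_4287a9_ag.H2
import Pool.Agent.Lib.MP_4287a9_ag.F3
import Pool.Agent.Lib.MP_4287a9_ag.H3

/-!
Strong F-regularity of the reductions of the data.
-/

open scoped TensorProduct ENNReal NNReal nonZeroDivisors Polynomial
open Filter

namespace Pool.Agent.Lib.MP_4287a9_ag

noncomputable section

/-- `b` is the product of the elements given by `exists_pureAt` and `pd_base` and of
`(q₁ + n + N)!` (`q₁` from `cexact_LL`), so that `p > q₁, n, N`. `T'` is reduced because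
`⊤` is (`EtC.isReduced`). -/
theorem RD.Good.sfri_red {n : ℕ} {s : Shp n} {W : Type} [CommRing W] {d : RD s W} {Λ : Type}
    [CommRing Λ] [IsDomain Λ] [CharZero Λ] [Algebra.FiniteType ℤ Λ] [Algebra Λ W]
    {D : Fin n → Derivation Λ W W} (h : d.Good Λ D) {t : ℝ≥0} (ht : (t : ℝ) * s.N < s.a1) :
    ∃ b : Λ, b ≠ 0 ∧ ∀ (κ W' : Type) [Field κ] [Finite κ] [CommRing W'] [Algebra κ W']
      (χ : Λ →+* κ) (π : W →+* W'), IsRed χ π → χ b ≠ 0 →
        Pure (RingHom.ker χ) (Subalgebra.toSubmodule (d.T Λ)) ∧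
        IsNoetherianRing ((d.map π).T κ) ∧ IsReduced ((d.map π).T κ) ∧
        SFRi (ringChar κ) ((d.map π).idl κ (d.map π).dg) s.r ((d.map π).idl κ (d.map π).ag) t := by
  have hNΛ : IsNoetherianRing Λ := Algebra.FiniteType.isNoetherianRing ℤ Λ
  obtain ⟨b1, hb1, H1⟩ := h.exists_pureAt
  obtain ⟨b2, hb2, H2⟩ := pd_base Λ
  obtain ⟨q1, Hq⟩ := h.cexact_LL
  have hb3 : (((q1 + n + s.N).factorial : ℕ) : Λ) ≠ 0 :=
    Nat.cast_ne_zero.2 (Nat.factorial_ne_zero _)
  refine ⟨b1 * b2 * ((q1 + n + s.N).factorial : ℕ), mul_ne_zero (mul_ne_zero hb1 hb2) hb3, ?_⟩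
  intro κ W' _ _ _ _ χ π hπ hb
  rw [map_mul, map_mul] at hb
  have hb1' : χ b1 ≠ 0 := left_ne_zero_of_mul (left_ne_zero_of_mul hb)
  have hb2' : χ b2 ≠ 0 := right_ne_zero_of_mul (left_ne_zero_of_mul hb)
  have hb3' := right_ne_zero_of_mul hb
  have hpr : (ringChar κ).Prime := CharP.char_is_prime κ (ringChar κ)
  have : Fact (ringChar κ).Prime := ⟨hpr⟩
  have hlt : q1 + n + s.N < ringChar κ := by
    by_contra hle
    apply hb3'
    rw [map_natCast, CharP.cast_eq_zero_iff κ (ringChar κ)]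
    exact (hpr.dvd_factorial).2 (not_lt.1 hle)
  have hmax : (RingHom.ker χ).IsMaximal := RingHom.ker_isMaximal_of_surjective χ hπ.surjχ
  have hp : d.PureAt (RingHom.ker χ) := H1 _ hmax hb1'
  choose D' hD' using fun i => hπ.exists_derivation (D i)
  have h' : (d.map π).Good κ D' := h.map_red hπ hp hD'
  obtain ⟨δ0, hδ0⟩ := H2 (ringChar κ) hpr κ (by simp) χ (isUnit_iff_ne_zero.2 hb2')
  obtain ⟨hh, hH⟩ := h.exists_HD hπ hD' hδ0
  have hN : Nat.Coprime (ringChar κ) s.N := by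
    have h0 : 0 < s.N := Nat.mul_pos h.hr h.hM
    exact Nat.coprime_of_lt_prime h0.ne' (by omega) hpr
  have hredW : IsReduced (⊤ : Subalgebra κ W') := (h'.etc_top s.a0).isReduced
  have hredT : IsReduced ((d.map π).T κ) :=
    isReduced_of_injective (Subalgebra.inclusion (le_top : (d.map π).T κ ≤ ⊤))
      (Subalgebra.inclusion_injective _)
  refine ⟨hp.hT, (d.map π).T_noeth, hredT, ?_⟩
  refine h'.sfri hH (by omega) hN (fun q hq k hk => ?_) ht
  exact h.cexact_red hπ hp hD' h' (Hq q (by omega)) k hk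

end

end Pool.Agent.Lib.MP_4287a9_ag
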