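import Pool.Agent.Lib.MP_4287a9_ag.Semi

/-!
Parametrization of the ideals between `m ^ k` and `m`.
-/

open scoped TensorProduct ENNReal NNReal nonZeroDivisors Polynomial
open Filter

namespace Pool.Agent.Lib.MP_4287a9_ag

noncomputable section

theorem param_gen {B T : Type} [CommRing B] [CommRing T] [IsNoetherianRing T] [Algebra B T]
    (σ : T →ₐ[B] B) (k : ℕ) : ∃ S : Finset T, (∀ x ∈ S, σ x = 0) ∧
      ∀ t ∈ RingHom.ker σ, ∃ u ∈ Submodule.span B (S : Set T),
        t - u ∈ RingHom.ker σ ^ (k + 1) := by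
  classical
  induction k with
  | zero => exact ⟨∅, by simp, fun t ht => ⟨0, zero_mem _, by simpa using ht⟩⟩
  | succ k ih =>
    obtain ⟨S, hS, h⟩ := ih
    obtain ⟨G, hG⟩ : (RingHom.ker σ ^ (k + 1)).FG := IsNoetherian.noetherian _
    have hGm : ∀ x ∈ G, x ∈ RingHom.ker σ ^ (k + 1) := fun x hx =>
      hG ▸ Ideal.subset_span hx
    have hsp : ∀ u ∈ Submodule.span B (G : Set T), u ∈ RingHom.ker σ ^ (k + 1) := fun u hu =>
      hG ▸ Submodule.span_le_restrictScalars B T (G : Set T) hu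
    have key : ∀ v ∈ Ideal.span (G : Set T), ∃ u ∈ Submodule.span B (G : Set T),
        v - u ∈ RingHom.ker σ ^ (k + 1 + 1) := by
      intro v hv
      induction hv using Submodule.span_induction with
      | mem x hx => exact ⟨x, Submodule.subset_span hx, by simp⟩
      | zero => exact ⟨0, zero_mem _, by simp⟩
      | add x y _ _ hx hy =>
        obtain ⟨u, hu, hu'⟩ := hx
        obtain ⟨w, hw, hw'⟩ := hy
        refine ⟨u + w, add_mem hu hw, ?_⟩
        rw [show x + y - (u + w) = (x - u) + (y - w) by ring]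
        exact add_mem hu' hw'
      | smul a x _ hx =>
        obtain ⟨u, hu, hu'⟩ := hx
        refine ⟨σ a • u, Submodule.smul_mem _ _ hu, ?_⟩
        rw [show a • x - σ a • u = a * (x - u) + u * (a - algebraMap B T (σ a)) by
          rw [smul_eq_mul, Algebra.smul_def]; ring]
        refine add_mem (Ideal.mul_mem_left _ _ hu') ?_
        rw [pow_succ _ (k + 1)]
        exact Ideal.mul_mem_mul (hsp u hu) (by simp [RingHom.mem_ker])
    refine ⟨S ∪ G, fun x hx => ?_, fun t ht => ?_⟩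
    · rcases Finset.mem_union.1 hx with hx | hx
      · exact hS x hx
      · exact Ideal.pow_le_self (Nat.succ_ne_zero k) (hGm x hx)
    · obtain ⟨u, hu, hu'⟩ := h t ht
      obtain ⟨w, hw, hw'⟩ := key (t - u) (hG ▸ hu')
      refine ⟨u + w, add_mem (Submodule.span_mono (by simp) hu)
        (Submodule.span_mono (by simp) hw), ?_⟩
      rwa [← sub_sub]

theorem param_gen' {B T : Type} [CommRing B] [CommRing T] [IsNoetherianRing T] [Algebra B T]
    (σ : T →ₐ[B] B) (k : ℕ) : ∃ (s : ℕ) (ω : Fin s → T), (∀ i, σ (ω i) = 0) ∧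
      ∀ t : T, ∃ c : Fin s → B,
        t - algebraMap B T (σ t) - ∑ i, c i • ω i ∈ RingHom.ker σ ^ k := by
  obtain ⟨S, hS, h⟩ := param_gen σ k
  refine ⟨S.card, fun i => (S.equivFin.symm i : T), fun i => hS _ (S.equivFin.symm i).2,
    fun t => ?_⟩
  obtain ⟨u, hu, hu'⟩ := h (t - algebraMap B T (σ t)) (by simp [RingHom.mem_ker])
  have e : (S : Set T) = Set.range fun i => (S.equivFin.symm i : T) := by
    ext x
    constructor
    · intro hx
      exact ⟨S.equivFin ⟨x, hx⟩, by simp⟩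
    · rintro ⟨i, rfl⟩
      exact (S.equivFin.symm i).2
  rw [e, Submodule.mem_span_range_iff_exists_fun] at hu
  obtain ⟨c, rfl⟩ := hu
  exact ⟨c, Ideal.pow_le_pow_right (Nat.le_succ k) hu'⟩

theorem param_fibre {B T : Type} [CommRing B] [CommRing T] [Algebra B T] (σ : T →ₐ[B] B) {k s : ℕ}
    {ω : Fin s → T} (h : ∀ t : T, ∃ c : Fin s → B,
      t - algebraMap B T (σ t) - ∑ i, c i • ω i ∈ RingHom.ker σ ^ k)
    (κ : Type) [CommRing κ] [Algebra B κ] (x : κ ⊗[B] T) : ∃ c : Fin s → κ,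
      x - algebraMap κ (κ ⊗[B] T) (aug σ κ x) - ∑ i, c i ⊗ₜ[B] ω i ∈
        ext B κ (RingHom.ker σ) ^ k := by
  induction x using TensorProduct.induction_on with
  | zero => exact ⟨0, by simp⟩
  | add x y hx hy =>
    obtain ⟨c, hc⟩ := hx
    obtain ⟨d, hd⟩ := hy
    refine ⟨c + d, ?_⟩
    have := add_mem hc hd
    simp only [map_add, Pi.add_apply, TensorProduct.add_tmul, Finset.sum_add_distrib]
    rw [show ∀ a b u v y z : κ ⊗[B] T, a + b - (u + v) - (y + z) = a - u - y + (b - v - z) from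
      fun _ _ _ _ _ _ => by ring]
    exact this
  | tmul a t =>
    obtain ⟨c, hc⟩ := h t
    refine ⟨fun i => c i • a, ?_⟩
    have h1 : (Algebra.TensorProduct.includeRight : T →ₐ[B] κ ⊗[B] T)
        (t - algebraMap B T (σ t) - ∑ i, c i • ω i) ∈ ext B κ (RingHom.ker σ) ^ k := by
      rw [ext, ← Ideal.map_pow]
      exact Ideal.mem_map_of_mem _ hc
    have h2 := Ideal.mul_mem_left _ (a ⊗ₜ[B] (1 : T)) h1
    have e : a ⊗ₜ[B] t - algebraMap κ (κ ⊗[B] T) (aug σ κ (a ⊗ₜ[B] t)) -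
        ∑ i, (c i • a) ⊗ₜ[B] ω i = a ⊗ₜ[B] (1 : T) *
        (Algebra.TensorProduct.includeRight : T →ₐ[B] κ ⊗[B] T)
          (t - algebraMap B T (σ t) - ∑ i, c i • ω i) := by
      have e1 : aug σ κ (a ⊗ₜ[B] t) = σ t • a := by
        simp [aug, Algebra.smul_def, mul_comm]
      rw [e1, Algebra.TensorProduct.includeRight_apply, Algebra.TensorProduct.tmul_mul_tmul,
        mul_one, one_mul, TensorProduct.tmul_sub, TensorProduct.tmul_sub, TensorProduct.tmul_sum,
        Algebra.TensorProduct.algebraMap_apply, Algebra.algebraMap_eq_smul_one (σ t)]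
      simp only [TensorProduct.smul_tmul, Algebra.algebraMap_self, RingHom.id_apply]
    rw [e]
    exact h2

theorem param_ideal {B T : Type} [CommRing B] [CommRing T] [Algebra B T] (σ : T →ₐ[B] B)
    {k s : ℕ} {ω : Fin s → T} (h : ∀ t : T, ∃ c : Fin s → B,
      t - algebraMap B T (σ t) - ∑ i, c i • ω i ∈ RingHom.ker σ ^ k)
    (κ : Type) [Field κ] [Algebra B κ] (J : Ideal (κ ⊗[B] T)) (h1 : pt σ κ ^ k ≤ J)
    (h2 : J ≤ pt σ κ) : ∃ β : Fin s → Fin s → κ, J = Jid σ k ω κ β := by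
  classical
  rw [pt_eq_ext] at h1
  obtain ⟨L, hL⟩ : ∃ L : (Fin s → κ) →ₗ[κ] κ ⊗[B] T, ∀ c, L c = ∑ i, c i ⊗ₜ[B] ω i :=
    ⟨Fintype.linearCombination κ fun i => (1 : κ) ⊗ₜ[B] ω i, fun c => by
      simp [Fintype.linearCombination_apply, TensorProduct.smul_tmul']⟩
  obtain ⟨U, hU⟩ : ∃ U : Submodule κ (Fin s → κ), ∀ c, c ∈ U ↔ L c ∈ J :=
    ⟨(J.restrictScalars κ).comap L, fun c => Iff.rfl⟩
  obtain ⟨g, hg⟩ := U.subtype.exists_leftInverse_of_injective U.ker_subtype
  refine ⟨fun j => (g (Pi.single j 1) : Fin s → κ), le_antisymm (fun x hx => ?_) ?_⟩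
  · obtain ⟨c, hc⟩ := param_fibre σ h κ x
    have hx0 : aug σ κ x = 0 := h2 hx
    rw [hx0, map_zero, sub_zero, ← hL] at hc
    have hcU : c ∈ U := by
      rw [hU]
      have := sub_mem hx (h1 hc)
      rwa [sub_sub_cancel] at this
    have e1 : c = ∑ j, c j • (g (Pi.single j 1) : Fin s → κ) := by
      have e2 : (g c : Fin s → κ) = c :=
        congrArg Subtype.val (LinearMap.congr_fun hg ⟨c, hcU⟩)
      conv_lhs => rw [← e2, pi_eq_sum_univ' c]
      simp only [map_sum, map_smul, Submodule.coe_sum, Submodule.coe_smul]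
    rw [show x = (x - L c) + L c by ring]
    refine add_mem (Ideal.mem_sup_left hc) (Ideal.mem_sup_right ?_)
    rw [e1, map_sum]
    refine sum_mem fun j _ => ?_
    rw [map_smul, hL, Algebra.smul_def]
    exact Ideal.mul_mem_left _ _ (Ideal.subset_span ⟨j, rfl⟩)
  · refine sup_le h1 (Ideal.span_le.2 ?_)
    rintro _ ⟨j, rfl⟩
    have := (hU _).1 (g (Pi.single j 1)).2
    rwa [hL] at this

/-- `ker σ / (ker σ) ^ k` is a finite `B`-module; let `ω` be lifts of generators. An ideal `J` of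
the local ring with `m ^ k ≤ J ≤ m` is the extension of its contraction `J'`, and
`J' / m ^ k` is a subspace of the span of the `ω i`, so it has a spanning family with `s`
members. -/
theorem exists_param {B T : Type} [CommRing B] [IsNoetherianRing B] [CommRing T] [Algebra B T]
    [Algebra.FiniteType B T] (σ : T →ₐ[B] B) (k : ℕ) :
    ∃ (s : ℕ) (ω : Fin s → T), (∀ i, σ (ω i) = 0) ∧
      ∀ (κ : Type) [Field κ] [Algebra B κ] (J : Ideal (Loc σ κ)),
        IsLocalRing.maximalIdeal (Loc σ κ) ^ k ≤ J → J ≤ IsLocalRing.maximalIdeal (Loc σ κ) →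
          ∃ β : Fin s → Fin s → κ, J = toLoc σ κ (Jid σ k ω κ β) := by
  have : IsNoetherianRing T := Algebra.FiniteType.isNoetherianRing B T
  obtain ⟨s, ω, hω, h⟩ := param_gen' σ k
  refine ⟨s, ω, hω, fun κ _ _ J h1 h2 => ?_⟩
  obtain ⟨β, hβ⟩ := param_ideal σ h κ (J.comap (algebraMap (κ ⊗[B] T) (Loc σ κ))) (by
      rw [← Ideal.map_le_iff_le_comap, Ideal.map_pow, Localization.AtPrime.map_eq_maximalIdeal]
      exact h1) (by
      refine (Ideal.comap_mono h2).trans ?_
      exact (Localization.AtPrime.under_maximalIdeal (I := pt σ κ)).le)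
  refine ⟨β, ?_⟩
  rw [← hβ]
  exact (IsLocalization.map_under (pt σ κ).primeCompl (Loc σ κ) J).symm

theorem radical_Jid {B T : Type} [CommRing B] [CommRing T] [Algebra B T] (σ : T →ₐ[B] B)
    {k : ℕ} (hk : 1 ≤ k) {s : ℕ} {ω : Fin s → T} (hω : ∀ i, σ (ω i) = 0) (F : Type) [Field F]
    [Algebra B F] (β : Fin s → Fin s → F) : (Jid σ k ω F β).radical = pt σ F := by
  refine le_antisymm ((pt_isPrime σ F).radical_le_iff.2 (sup_le ?_ (Ideal.span_le.2 ?_))) ?_
  · rw [← pt_eq_ext]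
    exact Ideal.pow_le_self (by omega)
  · rintro _ ⟨j, rfl⟩
    change aug σ F _ = 0
    simp [aug, hω]
  · refine le_trans ?_ (Ideal.radical_mono (le_sup_left : _ ≤ Jid σ k ω F β))
    rw [← pt_eq_ext, Ideal.radical_pow _ (by omega)]
    exact Ideal.le_radical

end

end Pool.Agent.Lib.MP_4287a9_ag
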