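import Pool.Agent.Lib.MP_4287a9_ag.P1f
import Pool.Agent.Lib.MP_4287a9_ag.Hart

/-!
From internal to standard strong F-regularity; bad fibres.
-/

open scoped TensorProduct ENNReal NNReal nonZeroDivisors Polynomial
open Filter

namespace Pool.Agent.Lib.MP_4287a9_ag

noncomputable section

theorem std_ord {R : Type} [CommRing R] {P : Ideal R} (hP : P.IsPrime) (𝔡 : Ideal R) :
    ∀ d ∈ 𝔡, ∃ s ∉ P, s * d ∈ P ^ ordAt P 𝔡 := by
  have h0 : 0 ∈ {j : ℕ | ∀ d ∈ 𝔡, ∃ s ∉ P, s * d ∈ P ^ j} := fun d _ =>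
    ⟨1, hP.one_notMem, by simp⟩
  by_cases hb : BddAbove {j : ℕ | ∀ d ∈ 𝔡, ∃ s ∉ P, s * d ∈ P ^ j}
  · exact Nat.sSup_mem ⟨0, h0⟩ hb
  · unfold ordAt
    rw [Nat.sSup_of_not_bddAbove hb]
    exact h0

theorem std_ord_pow {R : Type} [CommRing R] {P : Ideal R} (hP : P.IsPrime) (𝔡 : Ideal R)
    (Q : ℕ) : ∀ d ∈ 𝔡 ^ Q, ∃ s ∉ P, s * d ∈ P ^ (Q * ordAt P 𝔡) := by
  induction Q with
  | zero => exact fun d _ => ⟨1, hP.one_notMem, by simp⟩
  | succ Q ih =>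
    intro d hd
    rw [pow_succ] at hd
    refine Submodule.mul_induction_on hd (fun a ha b hb => ?_) (fun a b ha hb => ?_)
    · obtain ⟨s, hs, h1⟩ := ih a ha
      obtain ⟨s', hs', h2⟩ := std_ord hP 𝔡 b hb
      refine ⟨s * s', fun h => (hP.mem_or_mem h).elim hs hs', ?_⟩
      rw [Nat.succ_mul, pow_add, mul_mul_mul_comm]
      exact Ideal.mul_mem_mul h1 h2
    · obtain ⟨s, hs, h1⟩ := ha
      obtain ⟨s', hs', h2⟩ := hb
      refine ⟨s * s', fun h => (hP.mem_or_mem h).elim hs hs', ?_⟩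
      have e : s * s' * (a + b) = s' * (s * a) + s * (s' * b) := by ring
      rw [e]
      exact add_mem (Ideal.mul_mem_left _ _ h1) (Ideal.mul_mem_left _ _ h2)

/-- Extend `φ` to the fraction field (`exists_ext_loc`). At a level with `r ∣ q - 1` the ceiling
is `Q * ordAt P 𝔡` with `Q = (q - 1) / r`, and `ordAt P 𝔡` belongs to the set it is the `sSup` of
(`Nat.sSup_mem`, or the set is unbounded and the `sSup` is `0`). So `z ∈ secs` gives `d z ∈ R_P`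
for `d ∈ 𝔡 ^ Q`, hence `d z ∈ R` by `hartogs`; write `z = y / w ^ q` and use `IsCart.div`. -/
theorem SFRi.toSFR {p : ℕ} [Fact p.Prime] {R : Type} [CommRing R] [IsDomain R]
    [IsNoetherianRing R] [IsIntegrallyClosed R] [CharP R p] {𝔡 𝔞 : Ideal R} {r : ℕ} (hr : 0 < r)
    {t : ℝ≥0} (h : SFRi p 𝔡 r 𝔞 t) : SFR 𝔡 r 𝔞 t := by
  intro c hc
  obtain ⟨e, he, ⟨Q, hQ⟩, a, ha, φ, hφ, h1⟩ := h c (mem_nonZeroDivisors_of_ne_zero hc)
  have hq : 0 < p ^ e := pow_pos (Fact.out : p.Prime).pos e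
  obtain ⟨φ', k1, k2⟩ := exists_ext_loc (R' := FractionRing R) R⁰ hq φ hφ.lin
  rw [ringChar.eq R p]
  refine ⟨e, he, a, ha, φ', k1, fun z hz => ?_, by rw [k2, h1, map_one]⟩
  have hinj := IsFractionRing.injective R (FractionRing R)
  have hd : ∀ d ∈ 𝔡 ^ Q, algebraMap R (FractionRing R) d * z ∈
      (algebraMap R (FractionRing R)).range := by
    intro d hd
    refine hartogs _ fun P hP hP1 => ?_
    obtain ⟨s, hs, hsd⟩ := std_ord_pow hP 𝔡 Q d hd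
    have e1 : ⌈(((p ^ e - 1) * ordAt P 𝔡 : ℕ) : ℚ) / (r : ℚ)⌉₊ = Q * ordAt P 𝔡 := by
      have hr' : (r : ℚ) ≠ 0 := by exact_mod_cast hr.ne'
      rw [hQ, mul_assoc, Nat.cast_mul, mul_div_cancel_left₀ _ hr', Nat.ceil_natCast]
    obtain ⟨s', hs', b, hb⟩ := hz P hP hP1 (s * d) (by rw [e1]; exact hsd)
    refine ⟨s' * s, fun h => (hP.mem_or_mem h).elim hs' hs, b, ?_⟩
    rw [← hb, map_mul, map_mul]
    ring
  obtain ⟨⟨y, w⟩, hw⟩ := IsLocalization.surj R⁰ z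
  have e2 : algebraMap R (FractionRing R) (y * (w : R) ^ (p ^ e - 1)) =
      algebraMap R (FractionRing R) w ^ p ^ e * z := by
    have : p ^ e = (p ^ e - 1) + 1 := by omega
    rw [map_mul, map_pow, ← hw]
    conv_rhs => rw [this, pow_succ]
    ring
  obtain ⟨u, hu⟩ := hφ.div w w.2 (y * (w : R) ^ (p ^ e - 1)) fun d hd' => by
    rw [hQ, Nat.mul_div_cancel_left _ hr] at hd'
    obtain ⟨b, hb⟩ := hd d hd'
    refine ⟨b, hinj ?_⟩
    rw [map_mul, e2, map_mul, map_pow, hb]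
    ring
  refine ⟨u, ?_⟩
  have e3 := k2 (y * (w : R) ^ (p ^ e - 1))
  rw [e2, k1, hu, map_mul] at e3
  have hw0 : algebraMap R (FractionRing R) w ≠ 0 := fun h0 =>
    nonZeroDivisors.ne_zero w.2 (hinj (h0.trans (map_zero _).symm))
  exact (mul_left_cancel₀ hw0 e3).symm

/-- If `m` has `μ` generators and `t > μ`, then `𝔞 ^ ⌈t (q - 1)⌉ ⊆ m ^ (μ (q - 1) + 1)` lies in
the ideal generated by the `q`-th powers of the generators, so `φ a ∈ m` for `c = 1`. -/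
theorem fpt_ne_top {p : ℕ} [Fact p.Prime] {R : Type} [CommRing R] [IsDomain R] [IsLocalRing R]
    [IsNoetherianRing R] [CharP R p] (𝔡 : Ideal R) (r : ℕ) {𝔞 : Ideal R}
    (h : 𝔞 ≤ IsLocalRing.maximalIdeal R) : fpt 𝔡 r 𝔞 ≠ ⊤ := by
  obtain ⟨μ, x, hx⟩ := Submodule.fg_iff_exists_fin_generating_family.1
    (IsNoetherian.noetherian (IsLocalRing.maximalIdeal R))
  have hx' : Ideal.span (Set.range x) = IsLocalRing.maximalIdeal R := hx
  refine ne_top_of_le_ne_top (b := ((2 * μ + 1 : ℕ) : ℝ≥0)) ENNReal.coe_ne_top ?_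
  refine iSup₂_le fun t ht => ENNReal.coe_le_coe.2 (le_of_not_gt fun hlt => ?_)
  obtain ⟨e, he, a, ha, φ, k1, k2, k3⟩ := ht 1 one_ne_zero
  rw [ringChar.eq R p] at ha k1 k2
  have hq : 2 ≤ p ^ e := (Fact.out : p.Prime).two_le.trans (Nat.le_self_pow he.ne' p)
  have hq' : (2 : ℝ) ≤ (p : ℝ) ^ e := by exact_mod_cast hq
  have hlt' : (2 * μ + 1 : ℝ) < t := by exact_mod_cast hlt
  have hle : μ * p ^ e + 1 ≤ ⌈(t : ℝ) * ((p : ℝ) ^ e - 1)⌉₊ := by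
    have h1 : ((μ * p ^ e + 1 : ℕ) : ℝ) ≤ (t : ℝ) * ((p : ℝ) ^ e - 1) := by
      push_cast
      have h2 : (0 : ℝ) ≤ μ := Nat.cast_nonneg μ
      nlinarith [mul_nonneg h2 (sub_nonneg.2 hq')]
    exact_mod_cast h1.trans (Nat.le_ceil _)
  have ha' : a ∈ Ideal.span (Set.range fun i => x i ^ p ^ e) := by
    refine span_pow_le_span_pow x (p ^ e) ?_
    rw [hx']
    exact Ideal.pow_le_pow_right hle (Ideal.pow_right_mono h _ ha)
  obtain ⟨c, hc⟩ := Ideal.mem_span_range_iff_exists_fun.1 ha'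
  have hu : ∀ i, ∃ u, algebraMap R (FractionRing R) u =
      φ (algebraMap R (FractionRing R) (c i)) := fun i =>
    k2 _ fun P hP _ w _ => ⟨1, hP.one_notMem, w * c i, by rw [map_one, one_mul, map_mul]⟩
  choose u hu using hu
  have h1 : (∑ i, x i * u i) = 1 := by
    refine IsFractionRing.injective R (FractionRing R) ?_
    rw [map_one, ← k3, one_mul, ← hc, map_sum, map_sum, map_sum]
    refine Finset.sum_congr rfl fun i _ => ?_
    rw [map_mul, map_mul, map_pow, mul_comm (algebraMap R (FractionRing R) (c i)), k1, hu]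
  refine (IsLocalRing.maximalIdeal.isMaximal R).isPrime.one_notMem ?_
  rw [← h1]
  refine sum_mem fun i _ => Ideal.mul_mem_right _ _ ?_
  rw [← hx']
  exact Ideal.subset_span ⟨i, rfl⟩

theorem exists_t_lt {μ f c : ℝ≥0∞} {n : ℕ} (hμ : μ ≠ ⊤) (hf : f ≠ ⊤) (h : μ * f ^ n < c) :
    ∃ t t' : ℝ≥0, f < t ∧ t < t' ∧ (t' : ℝ≥0∞) ^ n * μ ≤ c := by
  lift μ to ℝ≥0 using hμ
  lift f to ℝ≥0 using hf
  have hcont : Continuous fun s : ℝ≥0 => ((s ^ n * μ : ℝ≥0) : ℝ≥0∞) :=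
    ENNReal.continuous_coe.comp (by fun_prop)
  have h1 : ∀ᶠ s in nhds f, ((s ^ n * μ : ℝ≥0) : ℝ≥0∞) < c :=
    hcont.continuousAt.eventually_lt continuousAt_const (by
      push_cast
      rwa [mul_comm])
  obtain ⟨t', h2, h3⟩ := ((h1.filter_mono nhdsWithin_le_nhds).and
    (self_mem_nhdsWithin (a := f) (s := Set.Ioi f))).exists
  obtain ⟨t, h4, h5⟩ := exists_between (show f < t' from h3)
  refine ⟨t, t', ENNReal.coe_lt_coe.2 h4, h5, ?_⟩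
  push_cast at h2
  exact h2.le

/-- Combine the three lemmas above with `mult_ne_top` and `partI`. -/
theorem bad_fibre {p : ℕ} [Fact p.Prime] {R : Type} [CommRing R] [IsDomain R] [IsLocalRing R]
    [IsNoetherianRing R] [IsIntegrallyClosed R] [CharP R p] {𝔡 : Ideal R} {r n C : ℕ}
    (hr : 0 < r) (hn : 1 ≤ n) (hT : TData p 𝔡 n C) (h0 : SFRi p 𝔡 r ⊤ 0) {c : ℝ≥0}
    (hc : Fvol n 𝔡 r < c) {k : ℕ} (hk : 1 ≤ k) :
    ∃ J : Ideal R, IsLocalRing.maximalIdeal R ^ k ≤ J ∧ J ≤ IsLocalRing.maximalIdeal R ∧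
      mult n J ≤ ((n.factorial * (n + 1) * C * k ^ (n - 1) : ℕ) : ℝ≥0∞) + (k : ℝ≥0∞) ^ n * c ∧
      ∀ t'' : ℝ≥0, (n : ℝ) < k * t'' → ¬ SFRi p 𝔡 r J t'' := by
  obtain ⟨𝔞, h1⟩ := iInf_lt_iff.1 hc
  obtain ⟨h𝔞, h2⟩ := iInf_lt_iff.1 h1
  have hle : 𝔞 ≤ IsLocalRing.maximalIdeal R := h𝔞 ▸ Ideal.le_radical
  obtain ⟨L, hL⟩ := Ideal.exists_radical_pow_le_of_fg 𝔞 (IsNoetherian.noetherian _)
  rw [h𝔞] at hL
  obtain ⟨c₀, x, -, -, h3⟩ := id hT
  obtain ⟨t, t', k1, k2, k3⟩ := exists_t_lt (mult_ne_top hL h3.2)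
    (fpt_ne_top (p := p) 𝔡 r hle) h2
  have ht : ¬ SFRi p 𝔡 r 𝔞 t := fun hs => k1.not_ge
    (le_iSup₂ (f := fun (t : ℝ≥0) (_ : SFR 𝔡 r 𝔞 t) => (t : ℝ≥0∞)) t (hs.toSFR hr))
  obtain ⟨J, j1, j2, j3, j4⟩ := partI hn hT h0 ht k2 hk
  refine ⟨J, j1, j2, j3.trans (add_le_add le_rfl ?_), j4⟩
  rw [mul_pow, mul_assoc]
  exact mul_le_mul' le_rfl k3

end

end Pool.Agent.Lib.MP_4287a9_ag
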