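import Pool.Agent.Lib.MP_4287a9_ag.D1

/-!
Noether normalization data over a field of characteristic zero.
-/

open scoped TensorProduct ENNReal NNReal nonZeroDivisors Polynomial
open Filter

namespace Pool.Agent.Lib.MP_4287a9_ag

noncomputable section

theorem td0a_trdeg {F T' : Type} [Field F] [CommRing T'] [IsDomain T'] [Algebra F T'] {s : ℕ}
    (g : MvPolynomial (Fin s) F →ₐ[F] T') (hinj : Function.Injective g) (hfin : g.Finite) :
    Algebra.trdeg F T' = s := by
  let _ : Algebra (MvPolynomial (Fin s) F) T' := g.toRingHom.toAlgebra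
  have : IsScalarTower F (MvPolynomial (Fin s) F) T' :=
    IsScalarTower.of_algebraMap_eq fun a => (g.commutes a).symm
  have : Module.Finite (MvPolynomial (Fin s) F) T' := hfin
  have : FaithfulSMul (MvPolynomial (Fin s) F) T' :=
    (faithfulSMul_iff_algebraMap_injective _ _).2 hinj
  rw [← trdeg_add_eq F (MvPolynomial (Fin s) F) (A := T'),
    trdeg_eq_zero (R := MvPolynomial (Fin s) F) (A := T'), add_zero,
    MvPolynomial.trdeg_of_isDomain]
  simp

theorem td0a_noether {F T' : Type} [Field F] [CommRing T'] [IsDomain T'] [Algebra F T']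
    [Algebra.FiniteType F T'] (ε : T' →ₐ[F] F) {n : ℕ} (hn : Algebra.trdeg F T' = n) :
    ∃ x : Fin n → T', (∀ i, ε (x i) = 0) ∧
      Function.Injective (MvPolynomial.aeval x : MvPolynomial (Fin n) F →ₐ[F] T') ∧
      (MvPolynomial.aeval x : MvPolynomial (Fin n) F →ₐ[F] T').Finite := by
  obtain ⟨s, g, hinj, hfin⟩ := exists_finite_inj_algHom_of_fg F T'
  obtain rfl : s = n := by
    have h := (td0a_trdeg g hinj hfin).symm.trans hn
    exact_mod_cast h
  let a : Fin s → F := fun i => ε (g (MvPolynomial.X i))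
  let τ : MvPolynomial (Fin s) F →ₐ[F] MvPolynomial (Fin s) F :=
    MvPolynomial.aeval fun i => MvPolynomial.X i - MvPolynomial.C (a i)
  let τ' : MvPolynomial (Fin s) F →ₐ[F] MvPolynomial (Fin s) F :=
    MvPolynomial.aeval fun i => MvPolynomial.X i + MvPolynomial.C (a i)
  have h1 : τ'.comp τ = AlgHom.id F _ := MvPolynomial.algHom_ext fun i => by simp [τ, τ']
  have h2 : τ.comp τ' = AlgHom.id F _ := MvPolynomial.algHom_ext fun i => by simp [τ, τ']
  have h3 : Function.LeftInverse τ' τ := fun p => AlgHom.congr_fun h1 p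
  have h4 : Function.RightInverse τ' τ := fun p => AlgHom.congr_fun h2 p
  have h5 : (MvPolynomial.aeval fun i => g (MvPolynomial.X i) - algebraMap F T' (a i) :
      MvPolynomial (Fin s) F →ₐ[F] T') = g.comp τ := MvPolynomial.algHom_ext fun i => by
    simp [τ]
  refine ⟨fun i => g (MvPolynomial.X i) - algebraMap F T' (a i), fun i => by simp [a], ?_, ?_⟩
  · rw [h5]
    exact hinj.comp h3.injective
  · rw [h5]
    exact hfin.comp (AlgHom.Finite.of_surjective τ h4.surjective)

theorem td0a_prim (A T' : Type) [CommRing A] [IsDomain A] [CharZero A] [CommRing T'] [IsDomain T']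
    [Algebra A T'] [FaithfulSMul A T'] [Module.Finite A T'] :
    ∃ θ : T', ∀ w : T', ∃ b : A, b ≠ 0 ∧ ∃ f : A[X], Polynomial.aeval θ f = b • w := by
  let K := FractionRing A
  let L := FractionRing T'
  let _ : Algebra K L := FractionRing.liftAlgebra A L
  have : FiniteDimensional K L := inferInstance
  obtain ⟨α, hα⟩ := Field.exists_primitive_element K L
  obtain ⟨t, s, hs, rfl⟩ := IsFractionRing.div_surjective T' α
  have hs0 : s ≠ 0 := nonZeroDivisors.ne_zero hs
  have hs1 : algebraMap T' L s ≠ 0 := fun h => hs0 (IsFractionRing.injective T' L (by simpa using h))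
  obtain ⟨θ, d, hd, hθ⟩ := Algebra.IsAlgebraic.exists_smul_eq_mul A t hs0
  have hd1 : algebraMap A K d ≠ 0 := fun h => hd (IsFractionRing.injective A K (by simpa using h))
  have e1 : algebraMap T' L t / algebraMap T' L s = (algebraMap A K d)⁻¹ • algebraMap T' L θ := by
    rw [eq_inv_smul_iff₀ hd1, algebraMap_smul, ← smul_div_assoc, div_eq_iff hs1, ← map_mul,
      mul_comm, ← hθ, Algebra.smul_def, Algebra.smul_def, map_mul,
      ← IsScalarTower.algebraMap_apply]
  have e2 : IntermediateField.adjoin K {algebraMap T' L θ} = ⊤ := by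
    rw [eq_top_iff, ← hα, IntermediateField.adjoin_simple_le_iff, e1]
    exact IntermediateField.smul_mem _ (IntermediateField.mem_adjoin_simple_self K _)
  refine ⟨θ, fun w => ?_⟩
  have h1 : algebraMap T' L w ∈ Algebra.adjoin K {algebraMap T' L θ} := by
    rw [← IntermediateField.adjoin_simple_toSubalgebra_of_isAlgebraic
      (Algebra.IsAlgebraic.isAlgebraic _), e2]
    trivial
  rw [Algebra.adjoin_singleton_eq_range_aeval] at h1
  obtain ⟨f, hf⟩ := h1
  obtain ⟨b, hb, h2⟩ := IsLocalization.integerNormalization_spec A⁰ f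
  refine ⟨b, nonZeroDivisors.ne_zero hb, IsLocalization.integerNormalization A⁰ f,
    IsFractionRing.injective T' L ?_⟩
  have hf' : Polynomial.aeval (algebraMap T' L θ) f = algebraMap T' L w := hf
  rw [← Polynomial.aeval_algebraMap_apply, ← Polynomial.aeval_map_algebraMap K, h2,
    ← algebraMap_smul K b f, map_smul, hf', algebraMap_smul, Algebra.smul_def, Algebra.smul_def,
    map_mul, ← IsScalarTower.algebraMap_apply]

theorem td0a_cond (A T' : Type) [CommRing A] [IsDomain A] [CharZero A] [CommRing T'] [IsDomain T']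
    [Algebra A T'] [FaithfulSMul A T'] [Module.Finite A T'] :
    ∃ (θ : T') (c : A), c ≠ 0 ∧ ∀ w : T', ∃ f : A[X], Polynomial.aeval θ f = c • w := by
  obtain ⟨θ, hθ⟩ := td0a_prim A T'
  choose b hb f hf using hθ
  obtain ⟨m, ω, hω⟩ := Module.Finite.exists_fin (R := A) (M := T')
  refine ⟨θ, ∏ i, b (ω i), Finset.prod_ne_zero_iff.2 fun i _ => hb _, fun w => ?_⟩
  have hw : w ∈ Submodule.span A (Set.range ω) := hω ▸ Submodule.mem_top
  induction hw using Submodule.span_induction with
  | mem _ h =>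
    obtain ⟨i, rfl⟩ := h
    obtain ⟨c, hc⟩ := Finset.dvd_prod_of_mem (fun i => b (ω i)) (Finset.mem_univ i)
    exact ⟨c • f (ω i), by rw [map_smul, hf, hc, smul_smul, mul_comm]⟩
  | zero => exact ⟨0, by rw [map_zero, smul_zero]⟩
  | add _ _ _ _ h h' =>
    obtain ⟨g, hg⟩ := h
    obtain ⟨g', hg'⟩ := h'
    exact ⟨g + g', by rw [map_add, hg, hg', smul_add]⟩
  | smul a _ _ h =>
    obtain ⟨g, hg⟩ := h
    exact ⟨a • g, by rw [map_smul, hg, smul_comm]⟩

theorem td0a_deriv {A T' : Type} [CommRing A] [IsDomain A] [CharZero A] [IsIntegrallyClosed A]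
    [CommRing T'] [IsDomain T'] [Algebra A T'] [FaithfulSMul A T'] {θ : T'} (h : IsIntegral A θ) :
    Polynomial.aeval θ (Polynomial.derivative (minpoly A θ)) ≠ 0 := by
  intro h0
  have h1 := Polynomial.eq_zero_of_dvd_of_degree_lt (minpoly.isIntegrallyClosed_dvd h h0)
    (Polynomial.degree_derivative_lt (minpoly.ne_zero h))
  exact (minpoly.natDegree_pos h).ne' (Polynomial.derivative_eq_zero.1 h1)

theorem td0a_gens (A T' : Type) [CommRing A] [AddCommGroup T'] [Module A T'] [Module.Finite A T']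
    (k : ℕ) : ∃ (C : ℕ) (ω : Fin C → T'), k ≤ C ∧ ∀ w, ∃ a : Fin C → A, w = ∑ i, a i • ω i := by
  obtain ⟨m, ω, hω⟩ := Module.Finite.exists_fin (R := A) (M := T')
  refine ⟨m + k, Fin.append ω 0, Nat.le_add_left k m, fun w => ?_⟩
  have hw : w ∈ Submodule.span A (Set.range ω) := hω ▸ Submodule.mem_top
  obtain ⟨a, ha⟩ := (Submodule.mem_span_range_iff_exists_fun A).1 hw
  refine ⟨Fin.append a 0, ?_⟩
  rw [Fin.sum_univ_add, ← ha]
  simp

theorem td0a_base {F k T' : Type} [Field F] [Field k] [Algebra F k] [CommRing T'] [IsDomain T']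
    [Algebra F T'] [Algebra.FiniteType F T'] [IsDomain (k ⊗[F] T')] :
    Algebra.trdeg F T' = Algebra.trdeg k (k ⊗[F] T') := by
  obtain ⟨s, g, hinj, hfin⟩ := exists_finite_inj_algHom_of_fg F T'
  let e := (MvPolynomial.algebraTensorAlgEquiv (σ := Fin s) F k).symm
  let g' : k ⊗[F] MvPolynomial (Fin s) F →ₐ[k] k ⊗[F] T' :=
    Algebra.TensorProduct.map (AlgHom.id k k) g
  have h1 : Function.Injective g' :=
    Module.Flat.lTensor_preserves_injective_linearMap (M := k) g.toLinearMap hinj
  have h2 : g'.Finite :=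
    RingHom.Finite.tensorProductMap (f := AlgHom.id F k) (AlgHom.Finite.id F k) hfin
  rw [td0a_trdeg g hinj hfin, td0a_trdeg (g'.comp e.toAlgHom) (h1.comp e.injective)
    (h2.comp (AlgHom.Finite.of_surjective _ e.surjective))]

/-- Noether normalization (`exists_finite_inj_algHom_of_fg`), translated so that `ε (x i) = 0`;
the number of variables is the transcendence degree. Primitive element theorem for the fraction
fields, scaled into `T'`; `P` is the minimal polynomial over the normal ring `F[X]`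
(`minpoly.isIntegrallyClosed_dvd`); `c₀` clears the denominators of module generators `ω`;
`P'(θ) ≠ 0` by separability; `N` is a nonzero element of `F[X]` in the ideal of `c₁ ^ 2` (constant
coefficient of a minimal integral equation). Enlarge `C` (pad `ω` with zeros) so that it bounds
the degree of `N`. -/
theorem exists_nd_field {F T' : Type} [Field F] [CharZero F] [CommRing T'] [IsDomain T']
    [Algebra F T'] [Algebra.FiniteType F T'] (ε : T' →ₐ[F] F) {n : ℕ}
    (hn : Algebra.trdeg F T' = n) {𝔡 : Ideal T'} (h𝔡 : 𝔡 ≠ ⊥) :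
    ∃ (C : ℕ) (d : ND F T' n C), d.Good (RingHom.ker ε) 𝔡 := by
  obtain ⟨x, hx, hinj, hfin⟩ := td0a_noether ε hn
  let _ : Algebra (MvPolynomial (Fin n) F) T' :=
    (MvPolynomial.aeval x : MvPolynomial (Fin n) F →ₐ[F] T').toRingHom.toAlgebra
  have : Module.Finite (MvPolynomial (Fin n) F) T' := hfin
  have : FaithfulSMul (MvPolynomial (Fin n) F) T' :=
    (faithfulSMul_iff_algebraMap_injective _ _).2 hinj
  obtain ⟨θ, c, hc, hcond⟩ := td0a_cond (MvPolynomial (Fin n) F) T'
  obtain ⟨γ, hγ, hγ0⟩ := Submodule.exists_mem_ne_zero_of_ne_bot h𝔡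
  have hθ : IsIntegral (MvPolynomial (Fin n) F) θ := Algebra.IsIntegral.isIntegral θ
  have h1 : algebraMap (MvPolynomial (Fin n) F) T' c *
      Polynomial.aeval θ (Polynomial.derivative (minpoly (MvPolynomial (Fin n) F) θ)) * γ ≠ 0 :=
    mul_ne_zero (mul_ne_zero ((map_ne_zero_iff _ hinj).2 hc) (td0a_deriv hθ)) hγ0
  obtain ⟨N, hN, hdvd⟩ := (Algebra.IsAlgebraic.isAlgebraic (R := MvPolynomial (Fin n) F) _
    ).exists_nonzero_dvd (mem_nonZeroDivisors_of_ne_zero (pow_ne_zero 2 h1))
  obtain ⟨C, ω, hC, hω⟩ := td0a_gens (MvPolynomial (Fin n) F) T' N.totalDegree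
  exact ⟨C, ⟨x, θ, γ, minpoly (MvPolynomial (Fin n) F) θ, c, N, ω⟩, hx, hγ, minpoly.monic hθ,
    minpoly.aeval _ θ, fun f hf => minpoly.isIntegrallyClosed_dvd hθ hf, hcond, hω,
    mem_nonZeroDivisors_of_ne_zero h1, hN, hC, hdvd⟩

/-- Descent from `k` to `F = Frac B`: `k ⊗[B] T = k ⊗[F] (F ⊗[B] T)`. For the transcendence
degree use Noether normalization of `F ⊗[B] T` and base change it to `k`. -/
theorem descend_frac {k B T : Type} [Field k] [CommRing B] [IsDomain B] [Algebra B k]
    (hB : Function.Injective (algebraMap B k)) [CommRing T] [Algebra B T]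
    [Algebra.FiniteType B T] [IsDomain (k ⊗[B] T)] {n : ℕ}
    (hn : Algebra.trdeg k (k ⊗[B] T) = n) {𝔡 : Ideal T} (h𝔡 : ext B k 𝔡 ≠ ⊥) :
    IsDomain (FractionRing B ⊗[B] T) ∧
      Algebra.trdeg (FractionRing B) (FractionRing B ⊗[B] T) = n ∧
      ext B (FractionRing B) 𝔡 ≠ ⊥ := by
  have : FaithfulSMul B k := (faithfulSMul_iff_algebraMap_injective B k).2 hB
  let _ : Algebra (FractionRing B) k := FractionRing.liftAlgebra B k
  let e := Algebra.TensorProduct.cancelBaseChange B (FractionRing B) k k T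
  have : IsDomain (k ⊗[FractionRing B] (FractionRing B ⊗[B] T)) := e.injective.isDomain e.toRingEquiv.toRingHom
  have h1 := Algebra.TensorProduct.includeRight_injective (B := FractionRing B ⊗[B] T)
    (algebraMap (FractionRing B) k).injective
  have h2 : IsDomain (FractionRing B ⊗[B] T) := h1.isDomain
    (Algebra.TensorProduct.includeRight (R := FractionRing B) (A := k)).toRingHom
  refine ⟨h2, by rw [td0a_base (k := k), e.trdeg_eq, hn], fun h0 => h𝔡 ?_⟩
  rw [ext, Ideal.map_eq_bot_iff_le_ker] at h0 ⊢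
  intro d hd
  have h3 : ((1 : FractionRing B) ⊗ₜ[B] d : FractionRing B ⊗[B] T) = 0 := h0 hd
  have h4 := Algebra.TensorProduct.cancelBaseChange_tmul B (FractionRing B) k k T 1 1 d
  rw [h3, TensorProduct.tmul_zero, map_zero, one_smul] at h4
  exact h4.symm

end

end Pool.Agent.Lib.MP_4287a9_ag
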