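import Pool.Agent.Lib.MP_4287a9_ag.D1

/-!
Clearing denominators in the Noether normalization data.
-/

open scoped TensorProduct ENNReal NNReal nonZeroDivisors Polynomial
open Filter

namespace Pool.Agent.Lib.MP_4287a9_ag

noncomputable section

namespace TD0b

section Field

variable {F T' : Type} [Field F] [CommRing T'] [Algebra F T'] {n C : ℕ} {m 𝔡 : Ideal T'}

theorem ax_C {κ S : Type} [CommRing κ] [CommRing S] [Algebra κ S] (d : ND κ S n C) (a : κ) :
    d.ax (MvPolynomial.C a) = algebraMap κ S a :=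
  MvPolynomial.aeval_C d.x a

theorem ax_X {κ S : Type} [CommRing κ] [CommRing S] [Algebra κ S] (d : ND κ S n C) (i : Fin n) :
    d.ax (MvPolynomial.X i) = d.x i :=
  MvPolynomial.aeval_X d.x i

theorem ev_C {κ S : Type} [CommRing κ] [CommRing S] [Algebra κ S] (d : ND κ S n C)
    (a : MvPolynomial (Fin n) κ) : d.ev (Polynomial.C a) = d.ax a :=
  Polynomial.eval₂_C _ _

theorem ev_X {κ S : Type} [CommRing κ] [CommRing S] [Algebra κ S] (d : ND κ S n C) :
    d.ev Polynomial.X = d.θ :=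
  Polynomial.eval₂_X _ _

theorem ev_comp {κ S : Type} [CommRing κ] [CommRing S] [Algebra κ S] (d d' : ND κ S n C)
    (h : d'.x = d.x) (q : (MvPolynomial (Fin n) κ)[X]) (hq : d'.ev q = d.θ)
    (f : (MvPolynomial (Fin n) κ)[X]) : d'.ev (f.comp q) = d.ev f := by
  have e : d'.ax = d.ax := by simp only [ND.ax, h]
  have h1 : Polynomial.eval₂ d'.ax d'.θ q = d.θ := hq
  change Polynomial.eval₂ d'.ax d'.θ (f.comp q) = Polynomial.eval₂ d.ax d.θ f
  rw [Polynomial.eval₂_comp, h1, e]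

theorem reg_dvd {c c' e N e' : T'} (he : IsUnit e) (hc : c' = e * c) (h1 : c ∈ T'⁰)
    (h2 : c ^ 2 ∣ N) : c' ∈ T'⁰ ∧ c' ^ 2 ∣ e' * N := by
  subst hc
  refine ⟨mul_mem he.mem_nonZeroDivisors h1, ?_⟩
  rw [mul_pow, (he.pow 2).mul_left_dvd]
  exact h2.mul_left _

/-- the substitution `X i ↦ β * X i` -/
def sc (β : F) : MvPolynomial (Fin n) F →+* MvPolynomial (Fin n) F :=
  (MvPolynomial.aeval fun i => MvPolynomial.C β * MvPolynomial.X i :
    MvPolynomial (Fin n) F →ₐ[F] MvPolynomial (Fin n) F).toRingHom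

theorem sc_C (β a : F) : sc (n := n) β (MvPolynomial.C a) = MvPolynomial.C a :=
  MvPolynomial.aeval_C _ a

theorem sc_X (β : F) (i : Fin n) :
    sc β (MvPolynomial.X i) = MvPolynomial.C β * MvPolynomial.X i :=
  MvPolynomial.aeval_X _ i

theorem sc_sc {β β' : F} (h : β * β' = 1) : (sc (n := n) β).comp (sc β') = RingHom.id _ := by
  refine MvPolynomial.ringHom_ext (fun a => ?_) fun i => ?_
  · rw [RingHom.comp_apply, sc_C, sc_C, RingHom.id_apply]
  · rw [RingHom.comp_apply, sc_X, map_mul, sc_C, sc_X, ← mul_assoc, ← map_mul, mul_comm β', h,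
      map_one, one_mul, RingHom.id_apply]

theorem sc_deg (β : F) (p : MvPolynomial (Fin n) F) : (sc β p).totalDegree ≤ p.totalDegree := by
  conv_lhs => rw [p.as_sum, map_sum]
  refine MvPolynomial.totalDegree_finsetSum_le fun s hs => ?_
  have e : sc β (MvPolynomial.monomial s (p.coeff s)) =
      MvPolynomial.monomial s (p.coeff s * s.prod fun _ k => β ^ k) := by
    change MvPolynomial.aeval _ _ = _
    rw [MvPolynomial.aeval_monomial, MvPolynomial.monomial_eq, map_mul, mul_assoc]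
    simp only [mul_pow, Finsupp.prod_mul, MvPolynomial.algebraMap_eq, map_finsuppProd, map_pow]
  rw [e]
  exact (MvPolynomial.totalDegree_monomial_le _ _).trans (MvPolynomial.le_totalDegree hs)

theorem scaleX (d : ND F T' n C) (hd : d.Good m 𝔡) {β : F} (hβ : β ≠ 0) :
    ∃ d' : ND F T' n C, d'.Good m 𝔡 ∧ ∀ i, d'.x i = algebraMap F T' β * d.x i := by
  let d' : ND F T' n C := ⟨fun i => algebraMap F T' β * d.x i, d.θ, d.γ, d.P.map (sc β⁻¹),
    sc β⁻¹ d.c0, sc β⁻¹ d.N, d.ω⟩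
  have h1 : d'.ax.comp (sc β⁻¹) = d.ax := by
    refine MvPolynomial.ringHom_ext (fun a => ?_) fun i => ?_
    · rw [RingHom.comp_apply, sc_C, ax_C, ax_C]
    · rw [RingHom.comp_apply, sc_X, map_mul, ax_C, ax_X, ax_X]
      change _ * (_ * _) = _
      rw [← mul_assoc, ← map_mul, inv_mul_cancel₀ hβ, map_one, one_mul]
  have h1' : ∀ p, d'.ax (sc β⁻¹ p) = d.ax p := RingHom.congr_fun h1
  have h2 : ∀ f, d'.ev (f.map (sc β⁻¹)) = d.ev f := fun f => by
    change Polynomial.eval₂ d'.ax d.θ _ = Polynomial.eval₂ d.ax d.θ f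
    rw [Polynomial.eval₂_map, h1]
  have h3 : ∀ f : (MvPolynomial (Fin n) F)[X], (f.map (sc β)).map (sc β⁻¹) = f := fun f => by
    rw [Polynomial.map_map, sc_sc (inv_mul_cancel₀ hβ), Polynomial.map_id]
  have hc : d'.c1 = d.c1 := by
    change d'.ax (sc β⁻¹ d.c0) * d'.ev (Polynomial.derivative (d.P.map (sc β⁻¹))) * d.γ = _
    rw [Polynomial.derivative_map, h1', h2, ND.c1]
  refine ⟨d', ⟨fun i => m.mul_mem_left _ (hd.hx i), hd.hγ, hd.monic.map _,
    (h2 _).trans hd.root, fun f hf => ?_, fun w => ?_, fun w => ?_, hc ▸ hd.reg, fun h => ?_,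
    (sc_deg _ _).trans hd.deg, ?_⟩, fun i => rfl⟩
  · rw [← h3 f] at hf ⊢
    exact Polynomial.map_dvd _ (hd.inj _ ((h2 _).symm.trans hf))
  · obtain ⟨f, hf⟩ := hd.cond w
    exact ⟨f.map (sc β⁻¹), by rw [h2, hf, ← h1']⟩
  · obtain ⟨a, ha⟩ := hd.span w
    exact ⟨fun i => sc β⁻¹ (a i), by simp only [h1']; exact ha⟩
  · refine hd.hN ?_
    have h4 := RingHom.congr_fun (sc_sc (n := n) (mul_inv_cancel₀ hβ)) d.N
    have h5 : sc β⁻¹ d.N = 0 := h
    rw [RingHom.comp_apply, h5, map_zero] at h4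
    exact h4.symm
  · rw [hc]
    exact (h1' d.N).symm ▸ hd.dvd

theorem scaleT (d : ND F T' n C) (hd : d.Good m 𝔡) {β : F} (hβ : β ≠ 0) :
    ∃ d' : ND F T' n C, d'.Good m 𝔡 ∧ d'.x = d.x ∧ d'.θ = algebraMap F T' β * d.θ ∧
      d'.P = d.P.scaleRoots (MvPolynomial.C β) := by
  let u : MvPolynomial (Fin n) F := MvPolynomial.C β
  let u' : MvPolynomial (Fin n) F := MvPolynomial.C β⁻¹
  have hu : u * u' = 1 := by
    simp only [u, u']
    rw [← map_mul, mul_inv_cancel₀ hβ, map_one]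
  let d' : ND F T' n C := ⟨d.x, algebraMap F T' β * d.θ, d.γ, d.P.scaleRoots u, d.c0, d.N, d.ω⟩
  let q : (MvPolynomial (Fin n) F)[X] := Polynomial.C u' * Polynomial.X
  let q' : (MvPolynomial (Fin n) F)[X] := Polynomial.C u * Polynomial.X
  have hP : d'.P = Polynomial.C (u ^ d.P.natDegree) * d.P.comp q := by
    ext1 i
    change (d.P.scaleRoots u).coeff i = _
    rw [Polynomial.coeff_scaleRoots, Polynomial.coeff_C_mul, Polynomial.comp_C_mul_X_coeff]
    rcases le_or_gt i d.P.natDegree with h | h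
    · obtain ⟨k, hk⟩ := Nat.exists_eq_add_of_le h
      rw [hk, Nat.add_sub_cancel_left, pow_add]
      have : u ^ i * u' ^ i = 1 := by rw [← mul_pow, hu, one_pow]
      linear_combination (-d.P.coeff i * u ^ k) * this
    · rw [Polynomial.coeff_eq_zero_of_natDegree_lt h, zero_mul, zero_mul, mul_zero]
  have h1 : ∀ f, d'.ev (f.comp q) = d.ev f := ev_comp d d' rfl q (by
    simp only [q, u']
    rw [map_mul, ev_C, ev_X, ax_C]
    change _ * (_ * _) = _
    rw [← mul_assoc, ← map_mul, inv_mul_cancel₀ hβ, map_one, one_mul])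
  have h2 : ∀ f, d.ev (f.comp q') = d'.ev f := ev_comp d' d rfl q' (by
    simp only [q', u]
    rw [map_mul, ev_C, ev_X, ax_C])
  have h3 : ∀ f : (MvPolynomial (Fin n) F)[X], (f.comp q').comp q = f := fun f => by
    rw [Polynomial.comp_assoc]
    simp only [q, q', Polynomial.mul_comp, Polynomial.C_comp, Polynomial.X_comp]
    rw [← mul_assoc, ← map_mul, hu, map_one, one_mul, Polynomial.comp_X]
  have hun : IsUnit u := IsUnit.of_mul_eq_one _ hu
  have hun' : IsUnit u' := IsUnit.of_mul_eq_one _ ((mul_comm _ _).trans hu)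
  have hc : d'.c1 = d.ax (u ^ d.P.natDegree * u') * d.c1 := by
    rw [ND.c1, ND.c1, hP, Polynomial.derivative_C_mul, Polynomial.derivative_comp, map_mul, map_mul,
      h1, ev_C]
    simp only [q, Polynomial.derivative_C_mul, Polynomial.derivative_X, mul_one, ev_C, map_mul]
    change d.ax d.c0 * (d.ax _ * (d.ax _ * _)) * d.γ = _
    ring
  obtain ⟨r1, r2⟩ := reg_dvd (e' := 1) (((hun.pow _).mul hun').map d.ax) hc hd.reg hd.dvd
  rw [one_mul] at r2
  refine ⟨d', ⟨hd.hx, hd.hγ, (Polynomial.monic_scaleRoots_iff _).2 hd.monic, ?_, fun f hf => ?_,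
    fun w => ?_, hd.span, r1, hd.hN, hd.deg, r2⟩, rfl, rfl, rfl⟩
  · rw [hP, map_mul, h1, hd.root, mul_zero]
  · obtain ⟨g, hg⟩ := hd.inj _ ((h2 f).trans hf)
    rw [hP, ((hun.pow _).map Polynomial.C).mul_left_dvd, ← h3 f, hg, Polynomial.mul_comp]
    exact dvd_mul_right _ _
  · obtain ⟨f, hf⟩ := hd.cond w
    exact ⟨f.comp q, (h1 f).trans hf⟩

theorem scaleR (d : ND F T' n C) (hd : d.Good m 𝔡) {β : F} (hβ : β ≠ 0) :
    ND.Good (⟨d.x, d.θ, algebraMap F T' β * d.γ, d.P, MvPolynomial.C β * d.c0,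
      MvPolynomial.C β * d.N, fun i => algebraMap F T' β * d.ω i⟩ : ND F T' n C) m 𝔡 := by
  have hu : IsUnit (algebraMap F T' β) := (IsUnit.mk0 β hβ).map _
  obtain ⟨r1, r2⟩ := reg_dvd (c' := d.ax (MvPolynomial.C β * d.c0) *
    d.ev (Polynomial.derivative d.P) * (algebraMap F T' β * d.γ)) (e' := algebraMap F T' β)
    (hu.mul hu) (by rw [map_mul, ax_C, ND.c1]; ring) hd.reg hd.dvd
  refine ⟨hd.hx, 𝔡.mul_mem_left _ hd.hγ, hd.monic, hd.root, hd.inj, fun w => ?_, fun w => ?_, r1,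
    mul_ne_zero (MvPolynomial.C_ne_zero.2 hβ) hd.hN, ?_, ?_⟩
  · obtain ⟨f, hf⟩ := hd.cond (algebraMap F T' β * w)
    refine ⟨f, hf.trans ?_⟩
    change _ = d.ax _ * w
    rw [map_mul, ax_C]
    ring
  · obtain ⟨a, ha⟩ := hd.span w
    refine ⟨fun i => MvPolynomial.C β⁻¹ * a i, ha.trans (Finset.sum_congr rfl fun i _ => ?_)⟩
    change _ = d.ax _ * (_ * _)
    have : algebraMap F T' β⁻¹ * algebraMap F T' β = 1 := by
      rw [← map_mul, inv_mul_cancel₀ hβ, map_one]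
    rw [map_mul, ax_C]
    linear_combination (-(d.ax (a i) * d.ω i)) * this
  · refine (MvPolynomial.totalDegree_mul _ _).trans ?_
    rw [MvPolynomial.totalDegree_C, zero_add]
    exact hd.deg
  · change _ ∣ d.ax _
    rw [map_mul, ax_C]
    exact r2

end Field

section Descent

variable {B : Type} [CommRing B] [IsDomain B]

/-- the property holds for all multiples of some nonzero element -/
def Ev (Q : B → Prop) : Prop := ∃ b, b ≠ 0 ∧ ∀ c, Q (c * b)

omit [IsDomain B] in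
theorem Ev.ex {Q : B → Prop} (h : Ev Q) : ∃ b, b ≠ 0 ∧ Q b :=
  let ⟨b, hb, h⟩ := h
  ⟨b, hb, one_mul b ▸ h 1⟩

omit [IsDomain B] in
theorem Ev.mono {Q Q' : B → Prop} (h : Ev Q) (h' : ∀ b, Q b → Q' b) : Ev Q' :=
  let ⟨b, hb, h⟩ := h
  ⟨b, hb, fun c => h' _ (h c)⟩

theorem Ev.and {Q Q' : B → Prop} (h : Ev Q) (h' : Ev Q') : Ev fun b => Q b ∧ Q' b := by
  obtain ⟨b, hb, h⟩ := h
  obtain ⟨b', hb', h'⟩ := h'
  refine ⟨b * b', mul_ne_zero hb hb', fun c => ⟨?_, ?_⟩⟩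
  · rw [mul_comm b, ← mul_assoc]
    exact h _
  · rw [← mul_assoc]
    exact h' _

theorem Ev.all {I : Type} [Finite I] {Q : I → B → Prop} (h : ∀ i, Ev (Q i)) :
    Ev fun b => ∀ i, Q i b := by
  classical
  have := Fintype.ofFinite I
  choose b hb h using h
  refine ⟨∏ i, b i, Finset.prod_ne_zero_iff.2 fun i _ => hb i, fun c i => ?_⟩
  rw [← Finset.prod_erase_mul _ _ (Finset.mem_univ i), ← mul_assoc]
  exact h i _

variable {F : Type} [Field F] [Algebra B F] [IsFractionRing B F] {n C : ℕ}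

theorem ev_mv (p : MvPolynomial (Fin n) F) : Ev fun b : B => ∃ p₀ : MvPolynomial (Fin n) B,
    MvPolynomial.map (algebraMap B F) p₀ = MvPolynomial.C (algebraMap B F b) * p := by
  induction p using MvPolynomial.induction_on with
  | C a =>
    obtain ⟨⟨x, s⟩, h⟩ := IsLocalization.surj B⁰ a
    refine ⟨s, nonZeroDivisors.coe_ne_zero s, fun c => ⟨MvPolynomial.C (c * x), ?_⟩⟩
    rw [MvPolynomial.map_C, ← map_mul]
    congr 1
    rw [map_mul, map_mul, ← h, mul_assoc, mul_comm a]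
  | add p q hp hq =>
    exact (hp.and hq).mono fun b ⟨⟨p₀, h1⟩, q₀, h2⟩ => ⟨p₀ + q₀, by rw [map_add, h1, h2, mul_add]⟩
  | mul_X p i hp =>
    exact hp.mono fun b ⟨p₀, h1⟩ => ⟨p₀ * MvPolynomial.X i, by
      rw [map_mul, h1, MvPolynomial.map_X, mul_assoc]⟩

theorem ev_poly (f : (MvPolynomial (Fin n) F)[X]) :
    Ev fun b : B => ∃ f₀ : (MvPolynomial (Fin n) B)[X],
      f₀.map (MvPolynomial.map (algebraMap B F)) =
        Polynomial.C (MvPolynomial.C (algebraMap B F b)) * f := by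
  induction f using Polynomial.induction_on' with
  | add p q hp hq =>
    exact (hp.and hq).mono fun b ⟨⟨p₀, h1⟩, q₀, h2⟩ => ⟨p₀ + q₀, by
      rw [Polynomial.map_add, h1, h2, mul_add]⟩
  | monomial k a =>
    exact (ev_mv a).mono fun b ⟨p₀, h1⟩ => ⟨Polynomial.monomial k p₀, by
      rw [Polynomial.map_monomial, h1, Polynomial.C_mul_monomial]⟩

variable {T T' : Type} [CommRing T] [Algebra B T] [CommRing T'] [Algebra F T'] [Algebra B T']
  [IsScalarTower B F T']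

/-- Descent of the conditions when the data come from `T`. -/
theorem descent [Algebra.FiniteType B T] (ι : T →ₐ[B] T')
    (hsur : ∀ w, ∃ (b : B) (t : T), b ≠ 0 ∧ ι t = b • w)
    (hker : ∀ t, ι t = 0 → ∃ b : B, b ≠ 0 ∧ b • t = 0) {m 𝔡 : Ideal T'} {m₀ 𝔡₀ : Ideal T}
    (hm : ∀ t, ι t ∈ m → t ∈ m₀) (d : ND F T' n C) (hd : d.Good m 𝔡) (d₀ : ND B T n C)
    (hx : ∀ i, ι (d₀.x i) = d.x i) (hθ : ι d₀.θ = d.θ) (hγ : ι d₀.γ = d.γ) (hγ₀ : d₀.γ ∈ 𝔡₀)
    (hP : d₀.P.map (MvPolynomial.map (algebraMap B F)) = d.P) (hP₀ : d₀.P.Monic)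
    (hc : MvPolynomial.map (algebraMap B F) d₀.c0 = d.c0)
    (hN : MvPolynomial.map (algebraMap B F) d₀.N = d.N) (hω : ∀ i, ι (d₀.ω i) = d.ω i) :
    ∃ b : B, b ≠ 0 ∧ d₀.GoodB m₀ 𝔡₀ b := by
  classical
  have hinj : Function.Injective (algebraMap B F) := IsFractionRing.injective B F
  have hψ : Function.Injective (MvPolynomial.map (σ := Fin n) (algebraMap B F)) :=
    MvPolynomial.map_injective _ hinj
  have hsm : ∀ (b : B) (w : T'), algebraMap F T' (algebraMap B F b) * w = b • w := fun b w => by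
    rw [← IsScalarTower.algebraMap_apply, Algebra.smul_def]
  have h1 : d.ax.comp (MvPolynomial.map (algebraMap B F)) = ι.toRingHom.comp d₀.ax := by
    refine MvPolynomial.ringHom_ext (fun a => ?_) fun i => ?_
    · rw [RingHom.comp_apply, RingHom.comp_apply, MvPolynomial.map_C, ax_C, ax_C,
        ← IsScalarTower.algebraMap_apply]
      exact (ι.commutes a).symm
    · rw [RingHom.comp_apply, RingHom.comp_apply, MvPolynomial.map_X, ax_X, ax_X]
      exact (hx i).symm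
  have h1' : ∀ p, ι (d₀.ax p) = d.ax (MvPolynomial.map (algebraMap B F) p) := fun p =>
    (RingHom.congr_fun h1 p).symm
  have h2 : ∀ f, ι (d₀.ev f) = d.ev (f.map (MvPolynomial.map (algebraMap B F))) := fun f => by
    change ι.toRingHom (Polynomial.eval₂ d₀.ax d₀.θ f) = Polynomial.eval₂ d.ax d.θ _
    rw [Polynomial.eval₂_map, h1, Polynomial.hom_eval₂, ← hθ]
    rfl
  have hc1 : ι d₀.c1 = d.c1 := by
    rw [ND.c1, ND.c1, map_mul, map_mul, h1', h2, hc, hγ, ← Polynomial.derivative_map, hP]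
  have heq : ∀ (t t' : T) (b : B), b ≠ 0 → ι t' = b • ι t →
      ∃ b₁ b₂ : B, b₁ ≠ 0 ∧ b₁ • t = b₂ • t' := fun t t' b hb h => by
    obtain ⟨b', hb', h'⟩ := hker (b • t - t') (by rw [map_sub, map_smul, h, sub_self])
    exact ⟨b' * b, b', mul_ne_zero hb' hb, by rwa [smul_sub, sub_eq_zero, smul_smul] at h'⟩
  let M : T → Prop := fun w => ∃ a : Fin C → MvPolynomial (Fin n) B, w = ∑ i, d₀.ax (a i) * d₀.ω i
  have Madd : ∀ {v w}, M v → M w → M (v + w) := by
    rintro _ _ ⟨a, rfl⟩ ⟨a', rfl⟩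
    exact ⟨a + a', by simp only [Pi.add_apply, map_add, add_mul, Finset.sum_add_distrib]⟩
  have Mmul : ∀ p {w}, M w → M (d₀.ax p * w) := by
    rintro p _ ⟨a, rfl⟩
    exact ⟨fun i => p * a i, by simp only [map_mul, Finset.mul_sum, mul_assoc]⟩
  have Msm : ∀ (b : B) {w}, M w → M (b • w) := fun b w h => by
    rw [Algebra.smul_def, ← ax_C d₀]
    exact Mmul _ h
  have Msum : ∀ (v : Fin C → T), (∀ i, M (v i)) → M (∑ i, v i) := fun v hv =>
    Finset.sum_induction v M (fun _ _ => Madd) ⟨0, by simp⟩ fun i _ => hv i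
  have Mev : ∀ w, Ev fun b : B => M (b • w) := fun w => by
    obtain ⟨a, ha⟩ := hd.span (ι w)
    obtain ⟨b, hb, h⟩ := (Ev.all fun i => ev_mv (B := B) (a i)).ex
    choose a₀ ha₀ using h
    obtain ⟨b₁, b₂, hb₁, h⟩ := heq w (∑ i, d₀.ax (a₀ i) * d₀.ω i) b hb (by
      rw [ha, map_sum, Finset.smul_sum]
      refine Finset.sum_congr rfl fun i _ => ?_
      rw [map_mul, h1', ha₀, hω, map_mul, ax_C, mul_assoc, hsm])
    refine ⟨b₁, hb₁, fun c => ?_⟩
    beta_reduce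
    rw [mul_smul, h]
    exact Msm _ (Msm _ ⟨a₀, rfl⟩)
  obtain ⟨s, hs⟩ := (inferInstance : Algebra.FiniteType B T).out
  have e1 : Ev fun b : B => b • d₀.ev d₀.P = 0 := by
    obtain ⟨b, hb, h⟩ := hker (d₀.ev d₀.P) (by rw [h2, hP, hd.root])
    exact ⟨b, hb, fun c => by beta_reduce; rw [mul_smul, h, smul_zero]⟩
  have e2 : ∀ i, Ev fun b : B => ∃ f, d₀.ev f = b • (d₀.ax d₀.c0 * d₀.ω i) := fun i => by
    obtain ⟨f, hf⟩ := hd.cond (d.ω i)
    obtain ⟨b, hb, f₀, h⟩ := (ev_poly (B := B) f).ex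
    obtain ⟨b₁, b₂, hb₁, h⟩ := heq (d₀.ax d₀.c0 * d₀.ω i) (d₀.ev f₀) b hb (by
      rw [h2, h, map_mul, ev_C, ax_C, hsm, hf, map_mul, h1', hc, hω])
    refine ⟨b₁, hb₁, fun c => ⟨Polynomial.C (MvPolynomial.C (c * b₂)) * f₀, ?_⟩⟩
    rw [map_mul, ev_C, ax_C, ← Algebra.smul_def, mul_smul, mul_smul, h]
  have e3 : Ev fun b : B => d₀.c1 ^ 2 ∣ b • d₀.ax d₀.N := by
    obtain ⟨w, hw⟩ := hd.dvd
    obtain ⟨b, t, hb, h⟩ := hsur w
    obtain ⟨b₁, b₂, hb₁, h⟩ := heq (d₀.ax d₀.N) (d₀.c1 ^ 2 * t) b hb (by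
      rw [map_mul, map_pow, hc1, h, h1', hN, hw, mul_smul_comm])
    refine ⟨b₁, hb₁, fun c => ⟨c • b₂ • t, ?_⟩⟩
    rw [mul_smul, h, mul_smul_comm, mul_smul_comm]
  have e4 : Ev fun b : B => ∀ p : s × Fin C, M (b • ((p.1 : T) * d₀.ω p.2)) :=
    Ev.all fun p => Mev _
  obtain ⟨b, hb, ⟨⟨r1, r2⟩, r3⟩, r4, r5⟩ := (((e1.and (Ev.all e2)).and e3).and (e4.and (Mev 1))).ex
  have key : ∀ w : T, ∀ v, M v → ∃ j : ℕ, M (b ^ j • (w * v)) := fun w => by
    have hw : w ∈ Algebra.adjoin B (s : Set T) := hs ▸ Algebra.mem_top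
    induction hw using Algebra.adjoin_induction with
    | mem g hg =>
      rintro _ ⟨a, rfl⟩
      refine ⟨1, ?_⟩
      rw [pow_one, Finset.mul_sum, Finset.smul_sum]
      refine Msum _ fun i => ?_
      rw [mul_left_comm, ← mul_smul_comm]
      exact Mmul _ (r4 (⟨g, hg⟩, i))
    | algebraMap r =>
      intro v hv
      exact ⟨0, Msm _ (Algebra.smul_def r v ▸ Msm r hv)⟩
    | add x y _ _ hx hy =>
      intro v hv
      obtain ⟨j, hj⟩ := hx v hv
      obtain ⟨k, hk⟩ := hy v hv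
      refine ⟨j + k, ?_⟩
      rw [add_mul, smul_add]
      refine Madd ?_ ?_
      · rw [add_comm, pow_add, mul_smul]
        exact Msm _ hj
      · rw [pow_add, mul_smul]
        exact Msm _ hk
    | mul x y _ _ hx hy =>
      intro v hv
      obtain ⟨k, hk⟩ := hy v hv
      obtain ⟨j, hj⟩ := hx _ hk
      refine ⟨j + k, ?_⟩
      rwa [pow_add, mul_smul, mul_assoc, ← mul_smul_comm]
  refine ⟨b, hb, fun i => hm _ (hx i ▸ hd.hx i), hγ₀, hP₀, r1, fun f hf => ?_, r2, fun w => ?_,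
    fun w hw => hker w ?_, fun h => hd.hN (by rw [← hN, h, map_zero]), ?_, r3⟩
  · refine (Polynomial.map_dvd_map _ hψ hP₀).1 ?_
    rw [hP]
    exact hd.inj _ (by rw [← h2, hf, map_zero])
  · obtain ⟨j, a, ha⟩ := key w _ r5
    refine ⟨j + 1, a, ?_⟩
    rwa [mul_smul_comm, mul_one, smul_smul, ← pow_succ] at ha
  · refine (mem_nonZeroDivisors_iff.1 hd.reg).1 _ ?_
    rw [← hc1, ← map_mul, hw, map_zero]
  · refine le_trans (le_of_eq ?_) hd.deg
    rw [← hN, MvPolynomial.totalDegree, MvPolynomial.totalDegree,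
      MvPolynomial.support_map_of_injective _ hinj]

theorem general [Algebra.FiniteType B T] (ι : T →ₐ[B] T')
    (hsur : ∀ w, ∃ (b : B) (t : T), b ≠ 0 ∧ ι t = b • w)
    (hker : ∀ t, ι t = 0 → ∃ b : B, b ≠ 0 ∧ b • t = 0) {m : Ideal T'} {m₀ 𝔡₀ : Ideal T}
    (hm : ∀ t, ι t ∈ m → t ∈ m₀) (d : ND F T' n C) (hd : d.Good m (𝔡₀.map ι)) :
    ∃ (d' : ND B T n C) (b : B), b ≠ 0 ∧ d'.GoodB m₀ 𝔡₀ b := by
  have hinj : Function.Injective (algebraMap B F) := IsFractionRing.injective B F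
  have hne : ∀ {b : B}, b ≠ 0 → algebraMap B F b ≠ 0 := fun hb => (map_ne_zero_iff _ hinj).2 hb
  have hsm : ∀ (b : B) (w : T'), algebraMap F T' (algebraMap B F b) * w = b • w := fun b w => by
    rw [← IsScalarTower.algebraMap_apply, Algebra.smul_def]
  have e1 : ∀ w : T', Ev fun b : B => ∃ t, ι t = b • w := fun w => by
    obtain ⟨b, t, hb, h⟩ := hsur w
    exact ⟨b, hb, fun c => ⟨c • t, by rw [map_smul, h, mul_smul]⟩⟩
  have e2 : ∀ w ∈ 𝔡₀.map ι, Ev fun b : B => ∃ t ∈ 𝔡₀, ι t = b • w := fun w hw => by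
    induction hw using Submodule.span_induction with
    | mem y hy =>
      obtain ⟨t, ht, rfl⟩ := hy
      exact ⟨1, one_ne_zero, fun c => ⟨(c * 1) • t, 𝔡₀.smul_of_tower_mem _ ht, map_smul _ _ _⟩⟩
    | zero => exact ⟨1, one_ne_zero, fun c => ⟨0, 𝔡₀.zero_mem, by simp⟩⟩
    | add x y _ _ hx hy =>
      exact (hx.and hy).mono fun b ⟨⟨t, ht, h⟩, t', ht', h'⟩ =>
        ⟨t + t', 𝔡₀.add_mem ht ht', by rw [map_add, h, h', smul_add]⟩
    | smul a y _ hy =>
      obtain ⟨b, hb, t, ht, h⟩ := hy.ex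
      obtain ⟨b', t', hb', h'⟩ := hsur a
      refine ⟨b' * b, mul_ne_zero hb' hb, fun c => ⟨(c • t') * t, 𝔡₀.mul_mem_left _ ht, ?_⟩⟩
      rw [map_mul, map_smul, h, h', smul_eq_mul, smul_mul_assoc, smul_mul_smul_comm, smul_smul]
  obtain ⟨b₁, hb₁, h₁⟩ := (Ev.all fun i => e1 (d.x i)).ex
  choose x₀ hx₀ using h₁
  obtain ⟨d₁, hd₁, hx₁⟩ := scaleX d hd (hne hb₁)
  obtain ⟨b₂, hb₂, ⟨θ₀, hθ₀⟩, h₂⟩ := ((e1 d₁.θ).and
    (Ev.all fun i : Fin d₁.P.natDegree => ev_mv (B := B) (d₁.P.coeff i))).ex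
  obtain ⟨d₂, hd₂, hx₂, hθ₂, hP₂⟩ := scaleT d₁ hd₁ (hne hb₂)
  have hl : d₂.P ∈ Polynomial.lifts (MvPolynomial.map (σ := Fin n) (algebraMap B F)) := by
    rw [Polynomial.lifts_iff_coeff_lifts, hP₂]
    intro i
    rw [Polynomial.coeff_scaleRoots]
    rcases lt_trichotomy i d₁.P.natDegree with h | h | h
    · obtain ⟨p₀, hp₀⟩ := h₂ ⟨i, h⟩
      obtain ⟨k, hk⟩ := Nat.exists_eq_add_of_lt h
      refine ⟨p₀ * MvPolynomial.C b₂ ^ k, ?_⟩
      rw [map_mul, map_pow, hp₀, MvPolynomial.map_C,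
        show d₁.P.natDegree - i = k + 1 by omega]
      ring
    · exact ⟨1, by rw [h, hd₁.monic.coeff_natDegree, Nat.sub_self, pow_zero, mul_one, map_one]⟩
    · exact ⟨0, by rw [Polynomial.coeff_eq_zero_of_natDegree_lt h, zero_mul, map_zero]⟩
  obtain ⟨P₀, hP₀, -, hP₀'⟩ := Polynomial.lifts_and_natDegree_eq_and_monic hl hd₂.monic
  obtain ⟨b₃, hb₃, ⟨⟨γ₀, hγ₀, hγ⟩, h₃⟩, ⟨c₀, hc₀⟩, N₀, hN₀⟩ := (((e2 _ hd₂.hγ).and
    (Ev.all fun i => e1 (d₂.ω i))).and ((ev_mv d₂.c0).and (ev_mv d₂.N))).ex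
  choose ω₀ hω₀ using h₃
  obtain ⟨b, hb, h⟩ := descent ι hsur hker hm _ (scaleR d₂ hd₂ (hne hb₃))
    ⟨x₀, θ₀, γ₀, P₀, c₀, N₀, ω₀⟩ (fun i => by
      change ι (x₀ i) = d₂.x i
      rw [hx₀, hx₂, hx₁, hsm]) (by
      change ι θ₀ = d₂.θ
      rw [hθ₀, hθ₂, hsm]) (hγ.trans (hsm _ _).symm) hγ₀ hP₀ hP₀' hc₀ hN₀
    fun i => (hω₀ i).trans (hsm _ _).symm
  exact ⟨_, b, hb, h⟩

end Descent

end TD0b

/-- `F ⊗[B] T` is the localization of `T` at the nonzero elements of `B`. Rescale: replace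
`x i, θ, γ, ω i` by multiples `b • _` coming from `T` (with `σ (x i) = 0` because `B → F` is
injective; `γ` from `𝔡`), replace `P` by `scaleRoots` and substitute `X i ↦ X i / b`, so that it
is monic with coefficients in `B[X]`; scale `c₀` and `N`. Finitely many equations then hold in `T`
after multiplying by one nonzero `b`. For `span` use that `1` and the products of the `B`-algebra
generators of `T` with the `ω i` lie in the span after multiplying by `b`. For `inj`: `P ∣ f` in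
`F[X][Z]` and `P` monic give `P ∣ f` in `B[X][Z]`. -/
theorem exists_nd_base {B T : Type} [CommRing B] [IsDomain B] [CommRing T] [Algebra B T]
    [Algebra.FiniteType B T] (σ : T →ₐ[B] B) (𝔡 : Ideal T) {n C : ℕ}
    (d : ND (FractionRing B) (FractionRing B ⊗[B] T) n C)
    (hd : d.Good (pt σ (FractionRing B)) (ext B (FractionRing B) 𝔡)) :
    ∃ (d' : ND B T n C) (b : B), b ≠ 0 ∧ d'.GoodB (RingHom.ker σ) 𝔡 b := by
  refine TD0b.general (Algebra.TensorProduct.includeRight : T →ₐ[B] FractionRing B ⊗[B] T)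
    (fun w => ?_) (fun t ht => ?_) (fun t ht => ?_) d hd
  · obtain ⟨⟨t, s⟩, h⟩ := IsLocalizedModule.surj B⁰ (TensorProduct.mk B (FractionRing B) T 1) w
    exact ⟨s, t, nonZeroDivisors.coe_ne_zero s, h.symm⟩
  · obtain ⟨s, h⟩ := (IsLocalizedModule.eq_zero_iff B⁰
      (TensorProduct.mk B (FractionRing B) T 1)).1 ht
    exact ⟨s, nonZeroDivisors.coe_ne_zero s, h⟩
  · have h : aug σ (FractionRing B) ((1 : FractionRing B) ⊗ₜ[B] t) = 0 := ht
    rw [aug, Algebra.TensorProduct.lift_tmul, map_one, one_mul] at h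
    exact (map_eq_zero_iff _ (IsFractionRing.injective B (FractionRing B))).1 h

end

end Pool.Agent.Lib.MP_4287a9_ag
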