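import Pool.Agent.Lib.MP_4287a9_ag.D1

/-!
The property `T1` from Noether normalization data.
-/

open scoped TensorProduct ENNReal NNReal nonZeroDivisors Polynomial
open Filter

namespace Pool.Agent.Lib.MP_4287a9_ag

noncomputable section

/-- Write `P = (Z - θ) Q` in `T'[Z]` (the image of `P`), `δ = Q(θ) = P'(θ)`. Then
`Q ^ q ≡ δ ^ (q - 1) Q` modulo `P` (because `Q (Q ^ (q-1) - δ ^ (q-1))` is divisible by
`Q (Z - θ)`). Since `Q ^ q = ∑ b i ^ q Z ^ (i q)` and `Z ^ (i q) %ₘ P` has coefficients in the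
image of `A = κ[X]`, comparing coefficients gives `δ ^ (q - 1) b j ∈ ∑ A * (q-th powers)`. The
coefficients `b j` span the same `A`-module as `1, θ, ..., θ ^ (deg P - 1)` (triangular). -/
theorem ND.delta_mul_mem {p : ℕ} [Fact p.Prime] {κ T' : Type} [CommRing κ] [CommRing T']
    [Algebra κ T'] [CharP T' p] {n C : ℕ} (d : ND κ T' n C) (hm : d.P.Monic)
    (hr : d.ev d.P = 0) (e : ℕ) (f : (MvPolynomial (Fin n) κ)[X]) :
    d.ev (Polynomial.derivative d.P) ^ p ^ e * d.ev f ∈
      AddSubgroup.closure {w | ∃ a g, w = d.ax a * g ^ p ^ e} := by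
  classical
  have hp : p.Prime := Fact.out
  have : Nontrivial T' := CharP.nontrivial_of_char_ne_one (R := T') hp.ne_one
  have hev : ∀ g : (MvPolynomial (Fin n) κ)[X], d.ev g = (g.map d.ax).eval d.θ := by
    intro g
    simp [ND.ev, Polynomial.eval_map]
  set P' : T'[X] := d.P.map d.ax with hP'
  have hm' : P'.Monic := hm.map _
  have hroot : P'.IsRoot d.θ := by
    rw [Polynomial.IsRoot, ← hev]
    exact hr
  obtain ⟨Q, hQ⟩ : (Polynomial.X - Polynomial.C d.θ) ∣ P' := Polynomial.dvd_iff_isRoot.2 hroot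
  have hQm : Q.Monic := by
    refine Polynomial.Monic.of_mul_monic_left (Polynomial.monic_X_sub_C d.θ) ?_
    rw [← hQ]
    exact hm'
  have hdeg : Q.degree < P'.degree := by
    rw [hQ, mul_comm, (Polynomial.monic_X_sub_C d.θ).degree_mul, Polynomial.degree_X_sub_C,
      Polynomial.degree_eq_natDegree hQm.ne_zero]
    exact_mod_cast Nat.lt_succ_self _
  have hδ : d.ev (Polynomial.derivative d.P) = Q.eval d.θ := by
    rw [hev, ← Polynomial.derivative_map, ← hP', hQ]
    simp [Polynomial.derivative_mul]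
  let l : T'[X] →ₗ[T'] T' :=
    (Polynomial.lcoeff T' Q.natDegree).comp (Polynomial.modByMonicHom P')
  have hl : ∀ g, l g = (g %ₘ P').coeff Q.natDegree := fun g => rfl
  have hlQ : l Q = 1 := by
    rw [hl, (Polynomial.modByMonic_eq_self_iff hm').2 hdeg]
    exact hQm.coeff_natDegree
  have hlmul : ∀ g : T'[X], l (g * Q) = g.eval d.θ := by
    intro g
    have h1 : P' ∣ g * Q - g.eval d.θ • Q := by
      rw [hQ, Polynomial.smul_eq_C_mul, ← sub_mul]
      exact mul_dvd_mul_right Polynomial.X_sub_C_dvd_sub_C_eval Q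
    rw [hl, Polynomial.modByMonic_eq_of_dvd_sub hm' h1, ← hl, map_smul, hlQ, smul_eq_mul,
      mul_one]
  have hlA : ∀ g : (MvPolynomial (Fin n) κ)[X], ∃ a, l (g.map d.ax) = d.ax a := by
    intro g
    refine ⟨(g %ₘ d.P).coeff Q.natDegree, ?_⟩
    rw [hl, hP', ← Polynomial.map_modByMonic _ hm, Polynomial.coeff_map]
  obtain ⟨k, hk⟩ : ∃ k, p ^ e = k + 1 :=
    Nat.exists_eq_succ_of_ne_zero (pow_ne_zero e hp.ne_zero)
  have key : d.ev (Polynomial.derivative d.P) ^ p ^ e * d.ev f =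
      l ((Polynomial.derivative d.P * f).map d.ax * Q ^ p ^ e) := by
    rw [hk, pow_succ Q, ← mul_assoc, hlmul, Polynomial.eval_mul, ← hev, map_mul,
      Polynomial.eval_pow, ← hδ]
    ring
  rw [key]
  have hQs : Q ^ p ^ e = ∑ i ∈ Q.support,
      Q.coeff i ^ p ^ e • (Polynomial.X : T'[X]) ^ (i * p ^ e) := by
    conv_lhs => rw [Q.as_sum_support_C_mul_X_pow]
    rw [sum_pow_char_pow]
    refine Finset.sum_congr rfl fun i _ => ?_
    rw [mul_pow, ← map_pow, ← pow_mul, Polynomial.smul_eq_C_mul]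
  rw [hQs, Finset.mul_sum, map_sum]
  refine sum_mem fun i _ => ?_
  rw [mul_smul_comm, map_smul]
  obtain ⟨a, ha⟩ := hlA (Polynomial.derivative d.P * f * Polynomial.X ^ (i * p ^ e))
  rw [Polynomial.map_mul, Polynomial.map_pow, Polynomial.map_X] at ha
  rw [ha, smul_eq_mul, mul_comm]
  exact AddSubgroup.subset_closure ⟨a, _, rfl⟩

/-- The set of sums `∑ g β ^ q x ^ β`. -/
def frobSpan (p e : ℕ) [Fact p.Prime] {R : Type} [CommRing R] [CharP R p] {n : ℕ}
    (x : Fin n → R) : AddSubgroup R where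
  carrier := {w | ∃ g : (Fin n → Fin (p ^ e)) → R,
    w = ∑ β, g β ^ p ^ e * ∏ i, x i ^ (β i : ℕ)}
  add_mem' := by
    rintro _ _ ⟨g, rfl⟩ ⟨g', rfl⟩
    refine ⟨g + g', ?_⟩
    rw [← Finset.sum_add_distrib]
    refine Finset.sum_congr rfl fun β _ => ?_
    rw [Pi.add_apply, add_pow_char_pow, add_mul]
  zero_mem' := by
    refine ⟨0, ?_⟩
    have hp : p.Prime := Fact.out
    simp [zero_pow (pow_ne_zero e hp.ne_zero)]
  neg_mem' := by
    rintro _ ⟨g, rfl⟩
    refine ⟨fun β => -1 * g β, ?_⟩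
    rw [← Finset.sum_neg_distrib]
    refine Finset.sum_congr rfl fun β _ => ?_
    rw [mul_pow, neg_one_pow_char_pow]
    ring

theorem pow_mul_mem_frobSpan {p e : ℕ} [Fact p.Prime] {R : Type} [CommRing R] [CharP R p]
    {n : ℕ} {x : Fin n → R} (g : R) {w : R} (hw : w ∈ frobSpan p e x) :
    g ^ p ^ e * w ∈ frobSpan p e x := by
  obtain ⟨g', rfl⟩ := hw
  refine ⟨fun β => g * g' β, ?_⟩
  rw [Finset.mul_sum]
  refine Finset.sum_congr rfl fun β _ => ?_
  rw [mul_pow, mul_assoc]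

theorem prod_mem_frobSpan {p e : ℕ} [Fact p.Prime] {R : Type} [CommRing R] [CharP R p]
    {n : ℕ} (x : Fin n → R) (s : Fin n → ℕ) : ∏ i, x i ^ s i ∈ frobSpan p e x := by
  classical
  have hp : p.Prime := Fact.out
  have hq : 0 < p ^ e := pow_pos hp.pos e
  let β : Fin n → Fin (p ^ e) := fun i => ⟨s i % p ^ e, Nat.mod_lt _ hq⟩
  refine ⟨Pi.single β (∏ i, x i ^ (s i / p ^ e)), ?_⟩
  rw [Finset.sum_eq_single β]
  · rw [Pi.single_eq_same, ← Finset.prod_pow, ← Finset.prod_mul_distrib]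
    refine Finset.prod_congr rfl fun i _ => ?_
    rw [← pow_mul, ← pow_add, Nat.div_add_mod']
  · intro b _ hb
    rw [Pi.single_eq_of_ne hb, zero_pow hq.ne', zero_mul]
  · intro hb
    exact absurd (Finset.mem_univ β) hb

theorem aeval_mem_frobSpan {p e : ℕ} [Fact p.Prime] {κ R : Type} [Field κ] [Finite κ]
    [CharP κ p] [CommRing R] [CharP R p] [Algebra κ R] {n : ℕ} (x : Fin n → R)
    (a : MvPolynomial (Fin n) κ) : MvPolynomial.aeval x a ∈ frobSpan p e x := by
  classical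
  rw [a.as_sum, map_sum]
  refine sum_mem fun s _ => ?_
  obtain ⟨c, hc⟩ := (bijective_iterateFrobenius κ p e).2 (a.coeff s)
  rw [MvPolynomial.aeval_monomial, ← hc, iterateFrobenius_def, map_pow,
    Finsupp.prod_fintype _ _ fun i => pow_zero _]
  exact pow_mul_mem_frobSpan _ (prod_mem_frobSpan x s)

/-- Every polynomial over the finite field `κ` is `∑ a β ^ q X ^ β` with `β i < q`. Combine with
`ND.delta_mul_mem` and `cond`, then localize: `f / s = f s ^ (q - 1) / s ^ q`. -/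
theorem ND.Good.t1 {p : ℕ} [Fact p.Prime] {κ T' : Type} [Field κ] [Finite κ] [CharP κ p]
    [CommRing T'] [Algebra κ T'] {n C : ℕ} {d : ND κ T' n C} {m 𝔡 : Ideal T'} [m.IsPrime]
    (h : d.Good m 𝔡) (e : ℕ) :
    T1 (p ^ e) (algebraMap T' (Localization.AtPrime m) (d.c1 ^ 2))
      (fun i => algebraMap T' (Localization.AtPrime m) (d.x i)) := by
  classical
  have hp : p.Prime := Fact.out
  have : Nontrivial T' := by
    refine nontrivial_of_ne 1 0 fun h10 => (inferInstance : m.IsPrime).ne_top ?_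
    rw [Ideal.eq_top_iff_one, h10]
    exact zero_mem m
  have : CharP T' p := charP_of_injective_algebraMap (algebraMap κ T').injective p
  obtain ⟨k, hk⟩ : ∃ k, p ^ e = k + 1 :=
    Nat.exists_eq_succ_of_ne_zero (pow_ne_zero e hp.ne_zero)
  have h1 : ∀ w : T', (d.c1 ^ 2) ^ p ^ e * w ∈ frobSpan p e d.x := by
    intro w
    obtain ⟨f, hf⟩ := h.cond (d.ax d.c0 ^ k * w)
    have h2 : d.ev (Polynomial.derivative d.P) ^ p ^ e * d.ev f ∈ frobSpan p e d.x := by
      refine (AddSubgroup.closure_le _).2 ?_ (d.delta_mul_mem h.monic h.root e f)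
      rintro _ ⟨a, g, rfl⟩
      rw [mul_comm]
      exact pow_mul_mem_frobSpan _ (aeval_mem_frobSpan d.x a)
    have h3 := pow_mul_mem_frobSpan (d.c1 * d.γ) h2
    convert h3 using 1
    rw [hf, ND.c1, hk]
    ring
  intro f
  obtain ⟨⟨w, s⟩, rfl⟩ := IsLocalization.mk'_surjective m.primeCompl f
  obtain ⟨g, hg⟩ := h1 (w * (s : T') ^ k)
  refine ⟨fun β => IsLocalization.mk' (Localization.AtPrime m) (g β) s, ?_⟩
  have hs : IsUnit (algebraMap T' (Localization.AtPrime m) s ^ p ^ e) :=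
    (IsLocalization.map_units (Localization.AtPrime m) s).pow _
  refine hs.mul_left_cancel ?_
  have h4 := congrArg (algebraMap T' (Localization.AtPrime m)) hg
  simp only [map_mul, map_pow, map_sum, map_prod] at h4
  rw [Finset.mul_sum]
  have h5 : ∀ y : T', algebraMap T' (Localization.AtPrime m) s *
      IsLocalization.mk' (Localization.AtPrime m) y s =
        algebraMap T' (Localization.AtPrime m) y := fun y => IsLocalization.mk'_spec' _ y s
  simp only [← mul_assoc, ← mul_pow, h5]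
  rw [← h4, ← h5 w, map_pow, hk]
  ring

end

end Pool.Agent.Lib.MP_4287a9_ag
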