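import Pool.Agent.Lib.MP_4287a9_ag.D1

/-!
The property `T2` from Noether normalization data.
-/

open scoped TensorProduct ENNReal NNReal nonZeroDivisors Polynomial
open Filter

namespace Pool.Agent.Lib.MP_4287a9_ag

noncomputable section

namespace TDbAux

open Polynomial in
theorem taylor_two {E : Type} [CommRing E] (F : E[X]) (θ : E) :
    ∃ H : E[X], ∀ ε : E, F.eval (θ + ε) =
      F.eval θ + (derivative F).eval θ * ε + ε ^ 2 * H.eval ε := by
  refine ⟨divX (divX (taylor θ F)), fun ε => ?_⟩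
  have h1 := X_mul_divX_add (taylor θ F)
  have h2 := X_mul_divX_add (divX (taylor θ F))
  rw [coeff_divX, zero_add, taylor_coeff_one] at h2
  rw [taylor_coeff_zero] at h1
  have h3 := congrArg (eval ε) h1
  have h4 := congrArg (eval ε) h2
  simp only [eval_add, eval_mul, eval_X, eval_C] at h3 h4
  rw [add_comm θ ε, ← taylor_eval, ← h3, ← h4]
  ring

theorem nil_mul {E : Type} [CommRing E] {ν : E} (hν : IsNilpotent ν) {x : E} (hx : ν ∣ x) :
    IsNilpotent x := by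
  obtain ⟨a, rfl⟩ := hx
  exact (Commute.all ν a).isNilpotent_mul_right hν

theorem dvd_sub_iff {A E : Type} [CommRing A] [CommRing E] (f g : A →+* E) (ν : E) :
    (∀ a, ν ∣ f a - g a) ↔
      (Ideal.Quotient.mk (Ideal.span {ν})).comp f = (Ideal.Quotient.mk (Ideal.span {ν})).comp g := by
  rw [RingHom.ext_iff]
  refine forall_congr' fun a => ?_
  rw [RingHom.comp_apply, RingHom.comp_apply, Ideal.Quotient.eq, Ideal.mem_span_singleton]

theorem dvd_eval {A E : Type} [CommRing A] [CommRing E] (f g : A →+* E) {ν x y : E}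
    (h : ∀ a, ν ∣ f a - g a) (hxy : ν ∣ x - y) (p : A[X]) :
    ν ∣ Polynomial.eval₂ f x p - Polynomial.eval₂ g y p := by
  have key : ∀ p : A[X], ν ∣ Polynomial.eval₂RingHom f x p - Polynomial.eval₂RingHom g y p := by
    rw [dvd_sub_iff]
    refine Polynomial.ringHom_ext (fun a => ?_) ?_
    · simp only [RingHom.comp_apply, Polynomial.coe_eval₂RingHom, Polynomial.eval₂_C]
      rw [Ideal.Quotient.eq, Ideal.mem_span_singleton]
      exact h a
    · simp only [RingHom.comp_apply, Polynomial.coe_eval₂RingHom, Polynomial.eval₂_X]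
      rw [Ideal.Quotient.eq, Ideal.mem_span_singleton]
      exact hxy
  exact key p

theorem of_reg {R : Type} [CommRing R] {g : R[X]} (hg : g.Monic) {r : R} (hr : r ∈ R⁰) :
    AdjoinRoot.of g r ∈ (AdjoinRoot g)⁰ := by
  have := hg.free_adjoinRoot
  have h := Module.Flat.isSMulRegular_of_nonZeroDivisors (M := AdjoinRoot g) hr
  rw [mem_nonZeroDivisors_iff_left]
  intro x hx
  refine h.right_eq_zero_of_smul ?_
  rw [Algebra.smul_def]
  exact hx

end TDbAux

/-- Newton lifting with a controlled error term. Put `ε = δ η`. Then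
`F(θ + δ η) = F(θ) + F'(θ) δ η + δ ^ 2 η ^ 2 H(η)`, with `F(θ) = δ ^ 2 ν w`,
`F'(θ) = δ (1 + δ ν w')`. Solve `ν w + (1 + δ ν w') η + η ^ 2 H(η) = 0` with `η ∈ (ν)`, for
instance by `Polynomial.existsUnique_nilpotent_sub_and_aeval_eq_zero` or by a direct iteration
modulo powers of `ν`. -/
theorem newton_aux {E : Type} [CommRing E] (F : E[X]) (θ δ ν : E) (hν : IsNilpotent ν)
    (h0 : δ ^ 2 * ν ∣ F.eval θ) (h1 : δ ^ 2 * ν ∣ (Polynomial.derivative F).eval θ - δ) :
    ∃ ε : E, δ * ν ∣ ε ∧ F.eval (θ + ε) = 0 := by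
  obtain ⟨w, hw⟩ := h0
  obtain ⟨w', hw'⟩ := h1
  obtain ⟨H, hH⟩ := TDbAux.taylor_two F θ
  have hu : IsUnit (1 + δ * ν * w') :=
    (TDbAux.nil_mul hν (((dvd_refl ν).mul_left δ).mul_right w')).isUnit_one_add
  let K : E[X] := Polynomial.C (ν * w) + Polynomial.C (1 + δ * ν * w') * Polynomial.X +
    Polynomial.X ^ 2 * H.comp (Polynomial.C δ * Polynomial.X)
  have hK : ∀ η : E, Polynomial.aeval η K =
      ν * w + (1 + δ * ν * w') * η + η ^ 2 * H.eval (δ * η) := by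
    intro η
    simp only [K, Polynomial.coe_aeval_eq_eval, Polynomial.eval_add, Polynomial.eval_mul,
      Polynomial.eval_C, Polynomial.eval_X, Polynomial.eval_pow, Polynomial.eval_comp]
  have hK' : Polynomial.aeval (0 : E) (Polynomial.derivative K) = 1 + δ * ν * w' := by
    simp only [K, Polynomial.coe_aeval_eq_eval, Polynomial.derivative_add,
      Polynomial.derivative_mul, Polynomial.derivative_C, Polynomial.derivative_X,
      Polynomial.derivative_X_pow, Polynomial.eval_add, Polynomial.eval_mul, Polynomial.eval_C,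
      Polynomial.eval_X, Polynomial.eval_pow, Polynomial.eval_zero, Polynomial.eval_one]
    simp
  obtain ⟨η, ⟨hη, hη0⟩, -⟩ := Polynomial.existsUnique_nilpotent_sub_and_aeval_eq_zero
    (P := K) (x := (0 : E))
    (by rw [hK]; simpa using TDbAux.nil_mul hν (dvd_mul_right ν w)) (by rw [hK']; exact hu)
  rw [zero_sub, isNilpotent_neg_iff] at hη
  rw [hK] at hη0
  have hu2 : IsUnit (η * H.eval (δ * η) + (1 + δ * ν * w')) :=
    (TDbAux.nil_mul hη (dvd_mul_right _ _)).isUnit_add_right_of_commute hu (Commute.all _ _)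
  have hνη : ν ∣ η := by
    rw [← hu2.dvd_mul_right]
    exact ⟨-w, by linear_combination hη0⟩
  refine ⟨δ * η, mul_dvd_mul_left δ hνη, ?_⟩
  rw [hH, hw, eq_add_of_sub_eq hw']
  linear_combination δ ^ 2 * hη0

/-- Extension of a deformation from `D` to `T'`: `ψ₁ c₀ = ρ (ι c₀) * unit` is regular, and
`ψ₂ w` is defined by `ψ₁ c₀ * ψ₂ w = ψ₁ f` where `ι f = ι c₀ * w`. -/
theorem extend_shift {D T' E : Type} [CommRing D] [CommRing T'] [CommRing E] (ι : D →+* T')
    (hι : Function.Injective ι) (c0 : D) (hc : ∀ w, ∃ f, ι f = ι c0 * w) (ρ : T' →+* E)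
    (hreg : ρ (ι c0) ∈ E⁰) (ν : E) (hν : IsNilpotent ν) (ψ1 : D →+* E)
    (h1 : ∀ f, ρ (ι c0) ^ 2 * ν ∣ ψ1 f - ρ (ι f)) :
    ∃ ψ2 : T' →+* E, (∀ w, ν ∣ ψ2 w - ρ w) ∧ ∀ f, ψ2 (ι f) = ψ1 f := by
  obtain ⟨a, ha⟩ := h1 c0
  have hu : IsUnit (1 + ρ (ι c0) * ν * a) :=
    (TDbAux.nil_mul hν (((dvd_refl ν).mul_left _).mul_right a)).isUnit_one_add
  have hc0 : ψ1 c0 = ρ (ι c0) * (1 + ρ (ι c0) * ν * a) := by linear_combination ha
  have hreg' : ψ1 c0 ∈ E⁰ := by
    rw [hc0]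
    exact mul_mem hreg hu.mem_nonZeroDivisors
  have hex : ∀ w, ∃ e, ν ∣ e - ρ w ∧ ∀ f, ι f = ι c0 * w → ψ1 c0 * e = ψ1 f := by
    intro w
    obtain ⟨f, hf⟩ := hc w
    obtain ⟨b, hb⟩ := h1 f
    obtain ⟨v, hv⟩ := hu.exists_right_inv
    rw [hf, map_mul] at hb
    refine ⟨v * (ρ w + ρ (ι c0) * ν * b), ⟨ρ (ι c0) * v * (b - a * ρ w), ?_⟩, fun f' hf' => ?_⟩
    · linear_combination ρ w * hv
    · have : f' = f := hι (hf'.trans hf.symm)
      rw [this, hc0]
      linear_combination ρ (ι c0) * (ρ w + ρ (ι c0) * ν * b) * hv - hb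
  choose ψ hψ1 hψ2 using hex
  have huniq : ∀ w e f, ι f = ι c0 * w → ψ1 c0 * e = ψ1 f → ψ w = e := by
    intro w e f hf he
    exact (mul_cancel_left_mem_nonZeroDivisors hreg').1 ((hψ2 w f hf).trans he.symm)
  have hι' : ∀ f, ψ (ι f) = ψ1 f := fun f =>
    huniq _ _ (c0 * f) (map_mul _ _ _) (map_mul _ _ _).symm
  refine ⟨{ toFun := ψ, map_one' := ?_, map_mul' := ?_, map_zero' := ?_, map_add' := ?_ },
    hψ1, hι'⟩
  · simpa using hι' 1
  · intro w w'
    obtain ⟨f, hf⟩ := hc w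
    obtain ⟨f', hf'⟩ := hc w'
    obtain ⟨g, hg⟩ := hc (w * w')
    refine huniq _ _ g hg ?_
    have h2 : f * f' = c0 * g := hι (by rw [map_mul, map_mul, hf, hf', hg]; ring)
    have h3 := congrArg ψ1 h2
    rw [map_mul, map_mul, ← hψ2 w f hf, ← hψ2 w' f' hf'] at h3
    refine (mul_cancel_left_mem_nonZeroDivisors hreg').1 ?_
    linear_combination h3
  · simpa using hι' 0
  · intro w w'
    obtain ⟨f, hf⟩ := hc w
    obtain ⟨f', hf'⟩ := hc w'
    refine huniq _ _ (f + f') (by rw [map_add, hf, hf', mul_add]) ?_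
    rw [map_add, mul_add, hψ2 w f hf, hψ2 w' f' hf']

namespace TDbAux

/-- The deformation of `T'` with values in any ring `E`. -/
theorem shift_T {κ T' E : Type} [Field κ] [CommRing T'] [Algebra κ T'] [CommRing E] {n C : ℕ}
    {d : ND κ T' n C} {m 𝔡 : Ideal T'} (h : d.Good m 𝔡) (ρ : T' →+* E)
    (hreg : ρ (d.ax d.c0) ∈ E⁰) (s : E) (hs : IsNilpotent s) (i : Fin n) :
    ∃ ψ : T' →+* E, (∀ w, ρ d.γ * s ∣ ψ w - ρ w) ∧
      ψ (d.x i) = ρ (d.x i) + ρ (d.c1 ^ 2) * s ∧ ∀ j, j ≠ i → ψ (d.x j) = ρ (d.x j) := by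
  classical
  let ψ0 : MvPolynomial (Fin n) κ →+* E := MvPolynomial.eval₂Hom (ρ.comp (algebraMap κ T'))
    fun j => ρ (d.x j) + if j = i then ρ (d.c1 ^ 2) * s else 0
  have hX : ∀ j, ψ0 (MvPolynomial.X j) = ρ (d.x j) + if j = i then ρ (d.c1 ^ 2) * s else 0 :=
    fun j => MvPolynomial.eval₂Hom_X' _ _ j
  have haX : ∀ j, d.ax (MvPolynomial.X j) = d.x j := fun j => MvPolynomial.aeval_X _ j
  have h0 : ∀ a, ρ (d.c1 ^ 2) * s ∣ ψ0 a - ρ.comp d.ax a := by
    rw [dvd_sub_iff]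
    refine MvPolynomial.ringHom_ext (fun a => ?_) fun j => ?_
    · have h1 : d.ax (MvPolynomial.C a) = algebraMap κ T' a := MvPolynomial.aeval_C _ a
      have h2 : ψ0 (MvPolynomial.C a) = ρ (algebraMap κ T' a) := MvPolynomial.eval₂Hom_C _ _ a
      simp only [RingHom.comp_apply, h1, h2]
    · simp only [RingHom.comp_apply, hX, haX]
      rw [Ideal.Quotient.eq, Ideal.mem_span_singleton, add_sub_cancel_left]
      split_ifs
      · exact dvd_rfl
      · exact dvd_zero _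
  have hev : ∀ f, ρ (d.ev f) = Polynomial.eval₂ (ρ.comp d.ax) (ρ d.θ) f := fun f =>
    Polynomial.hom_eval₂ f d.ax ρ d.θ
  set δ := ρ (d.ev (Polynomial.derivative d.P)) with hδ
  set ν := ρ (d.ax d.c0) ^ 2 * (ρ d.γ * s) * ρ d.γ with hν
  have hc : ρ (d.c1 ^ 2) * s = δ ^ 2 * ν := by
    rw [hδ, hν, ND.c1]
    simp only [map_pow, map_mul]
    ring
  have hνs : IsNilpotent ν :=
    nil_mul hs (((dvd_mul_left s _).mul_left _).mul_right _)
  have h1 : ∀ f, δ ^ 2 * ν ∣ Polynomial.eval₂ ψ0 (ρ d.θ) f - ρ (d.ev f) := by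
    intro f
    rw [hev, ← hc]
    exact dvd_eval _ _ h0 (by rw [sub_self]; exact dvd_zero _) f
  obtain ⟨ε, hε, hroot⟩ := newton_aux (d.P.map ψ0) (ρ d.θ) δ ν hνs
    (by
      have := h1 d.P
      rwa [h.root, map_zero, sub_zero, Polynomial.eval₂_eq_eval_map] at this)
    (by
      have := h1 (Polynomial.derivative d.P)
      rwa [Polynomial.eval₂_eq_eval_map, ← Polynomial.derivative_map] at this)
  let ψ1 : (MvPolynomial (Fin n) κ)[X] →+* E := Polynomial.eval₂RingHom ψ0 (ρ d.θ + ε)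
  have hP : ψ1 d.P = 0 := by
    rw [← hroot, ← Polynomial.eval₂_eq_eval_map]
    rfl
  have h2 : ∀ f, ν ∣ ψ1 f - ρ (d.ev f) := by
    intro f
    rw [hev]
    refine dvd_eval _ _ (fun a => ?_) ?_ f
    · exact ((dvd_mul_left ν _).trans (dvd_of_eq hc.symm)).trans (h0 a)
    · rw [add_sub_cancel_left]
      exact (dvd_mul_left ν _).trans hε
  have hker : ∀ f ∈ RingHom.ker d.ev, ψ1 f = 0 := by
    intro f hf
    obtain ⟨g, rfl⟩ := h.inj f hf
    rw [map_mul, hP, zero_mul]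
  have hC : ∀ a, d.ev (Polynomial.C a) = d.ax a := fun a => Polynomial.eval₂_C _ _
  obtain ⟨ψ2, h3, h4⟩ := extend_shift (RingHom.kerLift d.ev) (RingHom.kerLift_injective d.ev)
    (Ideal.Quotient.mk _ (Polynomial.C d.c0))
    (fun w => by
      obtain ⟨f, hf⟩ := h.cond w
      exact ⟨Ideal.Quotient.mk _ f, by rw [RingHom.kerLift_mk, RingHom.kerLift_mk, hC, hf]⟩)
    ρ (by rw [RingHom.kerLift_mk, hC]; exact hreg) (ρ d.γ * s)
    (nil_mul hs (dvd_mul_left s _)) (Ideal.Quotient.lift _ ψ1 hker)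
    (fun f => by
      obtain ⟨f, rfl⟩ := Ideal.Quotient.mk_surjective f
      rw [RingHom.kerLift_mk, RingHom.kerLift_mk, hC, Ideal.Quotient.lift_mk]
      exact (dvd_mul_right _ _).trans (h2 f))
  have h5 : ∀ j, ψ2 (d.x j) = ρ (d.x j) + if j = i then ρ (d.c1 ^ 2) * s else 0 := by
    intro j
    have := h4 (Ideal.Quotient.mk _ (Polynomial.C (MvPolynomial.X j)))
    rw [RingHom.kerLift_mk, hC, haX, Ideal.Quotient.lift_mk] at this
    rw [this, ← hX]
    exact Polynomial.eval₂_C _ _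
  refine ⟨ψ2, h3, ?_, fun j hj => ?_⟩
  · rw [h5, if_pos rfl]
  · rw [h5, if_neg hj, add_zero]

end TDbAux

/-- Let `R` be the localization, `E = R[s]/(s ^ q)`, `c = c₀ ^ 2 δ ^ 2 γ ^ 2`. Define
`ψ₀ : κ[X] → E`, `X i ↦ x i + c s`; apply `newton_aux` to `F = P.map ψ₀` with
`ν = c₀ ^ 2 γ ^ 2 s`, get `ψ₁` on `AdjoinRoot P`, apply `extend_shift` (with `ν = γ s`; `c₀` is
regular in `T'`, in `R` and in the free `R`-module `E`), then extend to `R` by
`IsLocalization.lift`. -/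
theorem ND.Good.t2 {κ T' : Type} [Field κ] [CommRing T'] [Algebra κ T'] {n C : ℕ}
    {d : ND κ T' n C} {m 𝔡 : Ideal T'} [m.IsPrime] (h : d.Good m 𝔡) (q : ℕ) (i : Fin n) :
    T2 (𝔡.map (algebraMap T' (Localization.AtPrime m))) q
      (algebraMap T' (Localization.AtPrime m) (d.c1 ^ 2))
      (fun i => algebraMap T' (Localization.AtPrime m) (d.x i)) i := by
  set R := Localization.AtPrime m
  let g : R[X] := Polynomial.X ^ q
  let ρ : T' →+* AdjoinRoot g := (AdjoinRoot.of g).comp (algebraMap T' R)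
  have hs : IsNilpotent (AdjoinRoot.root g) := by
    refine ⟨q, ?_⟩
    rw [← AdjoinRoot.mk_X, ← map_pow]
    exact AdjoinRoot.mk_self
  have hc0 : d.ax d.c0 ∈ T'⁰ :=
    (mul_mem_nonZeroDivisors.1 (mul_mem_nonZeroDivisors.1 h.reg).1).1
  have hreg : ρ (d.ax d.c0) ∈ (AdjoinRoot g)⁰ :=
    TDbAux.of_reg (Polynomial.monic_X_pow q)
      (IsLocalization.map_nonZeroDivisors_le m.primeCompl R ⟨_, hc0, rfl⟩)
  obtain ⟨ψ2, h1, h2, h3⟩ := TDbAux.shift_T h ρ hreg _ hs i
  have hunit : ∀ y : m.primeCompl, IsUnit (ψ2 y) := by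
    intro y
    have hy : IsUnit (ρ y) := (IsLocalization.map_units R y).map (AdjoinRoot.of g)
    have hn : IsNilpotent (ψ2 y - ρ y) :=
      TDbAux.nil_mul hs ((dvd_mul_left _ _).trans (h1 y))
    have := hn.isUnit_add_right_of_commute hy (Commute.all _ _)
    rwa [sub_add_cancel] at this
  refine ⟨IsLocalization.lift hunit, algebraMap T' R d.γ, Ideal.mem_map_of_mem _ h.hγ, ?_, ?_,
    fun j hj => ?_⟩
  · simp only [Ideal.mem_span_singleton]
    rw [TDbAux.dvd_sub_iff]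
    refine IsLocalization.ringHom_ext m.primeCompl ?_
    rw [RingHom.comp_assoc, RingHom.comp_assoc, IsLocalization.lift_comp]
    exact (TDbAux.dvd_sub_iff _ _ _).1 h1
  · rw [IsLocalization.lift_eq]
    exact h2
  · rw [IsLocalization.lift_eq]
    exact h3 j hj

end

end Pool.Agent.Lib.MP_4287a9_ag
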