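import Pool.Agent.Lib.MP_4287a9_ag.D1

/-!
The property `T3` from Noether normalization data.
-/

open scoped TensorProduct ENNReal NNReal nonZeroDivisors Polynomial
open Filter

namespace Pool.Agent.Lib.MP_4287a9_ag

noncomputable section

theorem tdc_span {κ : Type} [Field κ] {n : ℕ} (I : Ideal (MvPolynomial (Fin n) κ)) {ι : Type}
    [Fintype ι] (e : ι → Fin n →₀ ℕ)
    (h : ∀ f : MvPolynomial (Fin n) κ, ∃ r : MvPolynomial (Fin n) κ, f - r ∈ I ∧
      ∀ c ∈ r.support, MvPolynomial.monomial c (1 : κ) ∈ I ∨ c ∈ Set.range e) :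
    Module.Finite κ (MvPolynomial (Fin n) κ ⧸ I) ∧
      Module.finrank κ (MvPolynomial (Fin n) κ ⧸ I) ≤ Fintype.card ι := by
  have key : Submodule.span κ (Set.range fun i =>
      Ideal.Quotient.mkₐ κ I (MvPolynomial.monomial (e i) (1 : κ))) = ⊤ := by
    refine eq_top_iff.2 fun v _ => ?_
    obtain ⟨f, rfl⟩ := Ideal.Quotient.mkₐ_surjective κ I v
    obtain ⟨r, h1, h2⟩ := h f
    have h3 : Ideal.Quotient.mkₐ κ I f = Ideal.Quotient.mkₐ κ I r := Ideal.Quotient.eq.2 h1
    rw [h3, r.as_sum, map_sum]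
    refine Submodule.sum_mem _ fun c hc => ?_
    have h4 : MvPolynomial.monomial c (r.coeff c) = r.coeff c • MvPolynomial.monomial c (1 : κ) := by
      rw [MvPolynomial.smul_monomial, smul_eq_mul, mul_one]
    rw [h4, map_smul]
    refine Submodule.smul_mem _ _ ?_
    rcases h2 c hc with h5 | ⟨i, rfl⟩
    · have h6 : Ideal.Quotient.mkₐ κ I (MvPolynomial.monomial c (1 : κ)) = 0 :=
        Ideal.Quotient.eq_zero_iff_mem.2 h5
      rw [h6]
      exact zero_mem _
    · exact Submodule.subset_span ⟨i, rfl⟩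
  exact ⟨⟨key ▸ Submodule.fg_span (Set.finite_range _)⟩, finrank_le_of_span_eq_top key⟩

theorem tdc_mono {κ : Type} [Field κ] {n : ℕ} (j : ℕ) (c : Fin n →₀ ℕ) :
    MvPolynomial.monomial c (1 : κ) ∈
      Ideal.span (Set.range (MvPolynomial.X : Fin n → MvPolynomial (Fin n) κ)) ^ j ∨
        ∀ i, c i < j := by
  by_cases h : j ≤ c.degree
  · exact Or.inl ((MvPolynomial.monomial_mem_pow_idealOfVars_iff j c one_ne_zero).2 h)
  · exact Or.inr fun i => (Finsupp.le_degree i c).trans_lt (not_le.1 h)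

/-- The number of monomials of degree `< j` in `n` variables is at most `j ^ n`. -/
theorem finrank_quot_pow_le (κ : Type) [Field κ] (n j : ℕ) :
    Module.Finite κ (MvPolynomial (Fin n) κ ⧸
      Ideal.span (Set.range (MvPolynomial.X : Fin n → MvPolynomial (Fin n) κ)) ^ j) ∧
    Module.finrank κ (MvPolynomial (Fin n) κ ⧸
      Ideal.span (Set.range (MvPolynomial.X : Fin n → MvPolynomial (Fin n) κ)) ^ j) ≤ j ^ n := by
  have h := tdc_span (Ideal.span (Set.range (MvPolynomial.X : Fin n → MvPolynomial (Fin n) κ)) ^ j)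
    (fun β : Fin n → Fin j => Finsupp.equivFunOnFinite.symm fun i => (β i : ℕ)) fun f =>
    ⟨f, by simp, fun c _ => (tdc_mono j c).imp_right fun hc =>
      ⟨fun i => ⟨c i, hc i⟩, Finsupp.ext fun i => rfl⟩⟩
  simpa using h

/-- On `V = κ[X] / (X) ^ j`, the cokernel of multiplication by `N` has the same dimension as its
kernel, which lies in `(X) ^ (j - C) / (X) ^ j` (lowest homogeneous components multiply in a
domain, and the order of `N` is at most `C`). There are at most `(i + 1) ^ (n - 1)` monomials of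
degree `i`. -/
theorem finrank_quot_hyp_le (κ : Type) [Field κ] {n : ℕ} (hn : 1 ≤ n) (j C : ℕ)
    (N : MvPolynomial (Fin n) κ) (hN : N ≠ 0) (hC : N.totalDegree ≤ C) :
    Module.finrank κ (MvPolynomial (Fin n) κ ⧸ (Ideal.span {N} ⊔
      Ideal.span (Set.range (MvPolynomial.X : Fin n → MvPolynomial (Fin n) κ)) ^ j)) ≤
        C * j ^ (n - 1) := by
  obtain ⟨n, rfl⟩ : ∃ n', n = n' + 1 := ⟨n - 1, by omega⟩
  obtain ⟨μ, hμ, H⟩ : ∃ μ ∈ N.support, ∀ f : MvPolynomial (Fin (n + 1)) κ, ∃ g r, f = g * N + r ∧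
      ∀ c ∈ r.support, ¬ μ ≤ c := by
    refine ⟨MonomialOrder.lex.degree N, MonomialOrder.lex.degree_mem_support hN, fun f => ?_⟩
    obtain ⟨g, r, h1, -, h2⟩ := MonomialOrder.lex.div_single (b := N)
      (isUnit_iff_ne_zero.2 (MonomialOrder.leadingCoeff_ne_zero_iff.2 hN)) f
    exact ⟨g, r, h1, h2⟩
  have h := (tdc_span (Ideal.span {N} ⊔
      Ideal.span (Set.range (MvPolynomial.X : Fin (n + 1) → MvPolynomial (Fin (n + 1)) κ)) ^ j)
    (fun β : Σ i : Fin (n + 1), Fin (μ i) × (Fin n → Fin j) => Finsupp.equivFunOnFinite.symm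
      (Fin.insertNth (α := fun _ => ℕ) β.1 β.2.1 fun t => β.2.2 t)) fun f => by
    obtain ⟨g, r, h1, h2⟩ := H f
    refine ⟨r, Ideal.mem_sup_left (Ideal.mem_span_singleton'.2 ⟨g, by rw [h1]; ring⟩),
      fun c hc => ?_⟩
    refine (tdc_mono j c).imp Ideal.mem_sup_right fun h3 => ?_
    obtain ⟨i, hi⟩ : ∃ i, c i < μ i := by
      by_contra h4
      exact h2 c hc fun i => not_lt.1 fun h5 => h4 ⟨i, h5⟩
    refine ⟨⟨i, ⟨c i, hi⟩, fun t => ⟨c (i.succAbove t), h3 _⟩⟩, ?_⟩
    rw [Equiv.symm_apply_eq]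
    exact Fin.insertNth_self_removeNth i c).2
  refine h.trans ?_
  simp only [Fintype.card_sigma, Fintype.card_prod, Fintype.card_fin, Fintype.card_pi,
    Finset.prod_const, Finset.card_univ, Nat.add_sub_cancel]
  rw [← Finset.sum_mul]
  refine Nat.mul_le_mul_right _ (le_trans ?_ ((MvPolynomial.le_totalDegree hμ).trans hC))
  rw [Finsupp.sum_fintype _ _ fun _ => rfl]

theorem tdc_len {κ T' : Type} [Field κ] [CommRing T'] [Algebra κ T'] {n C : ℕ}
    {d : ND κ T' n C} {m 𝔡 : Ideal T'} [m.IsPrime] (hm : m.IsMaximal) (h : d.Good m 𝔡)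
    (I : Ideal (MvPolynomial (Fin n) κ)) [Module.Finite κ (MvPolynomial (Fin n) κ ⧸ I)]
    (J : Ideal (Localization.AtPrime m)) {j : ℕ} (hJ : IsLocalRing.maximalIdeal _ ^ j ≤ J)
    (hI : I ≤ J.comap ((algebraMap T' (Localization.AtPrime m)).comp d.ax)) {b : ℕ}
    (hb : Module.finrank κ (MvPolynomial (Fin n) κ ⧸ I) ≤ b) :
    Module.length (Localization.AtPrime m) (Localization.AtPrime m ⧸ J) ≤
      (((C * C + C) * b : ℕ) : ℕ∞) ∧
    Module.length (Localization.AtPrime m) (Localization.AtPrime m ⧸ J) ≤ ((C * b : ℕ) : ℕ∞) := by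
  let f : MvPolynomial (Fin n) κ →ₐ[κ] Localization.AtPrime m ⧸ J :=
    (Ideal.Quotient.mkₐ κ J).comp ((IsScalarTower.toAlgHom κ T' (Localization.AtPrime m)).comp
      (MvPolynomial.aeval d.x))
  let ψ : (MvPolynomial (Fin n) κ ⧸ I) →ₐ[κ] Localization.AtPrime m ⧸ J :=
    Ideal.Quotient.liftₐ I f fun a ha => Ideal.Quotient.eq_zero_iff_mem.2 (hI ha)
  let Φ : (Fin C → MvPolynomial (Fin n) κ ⧸ I) →ₗ[κ] Localization.AtPrime m ⧸ J :=
    ∑ i, LinearMap.mulRight κ (Ideal.Quotient.mk J (algebraMap T' _ (d.ω i))) ∘ₗ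
      ψ.toLinearMap ∘ₗ LinearMap.proj i
  have hΦ : Function.Surjective Φ := by
    intro v
    obtain ⟨r, rfl⟩ := Ideal.Quotient.mk_surjective v
    obtain ⟨⟨a, s⟩, hs⟩ := IsLocalization.surj m.primeCompl r
    obtain ⟨y, i, hi, hy⟩ := Ideal.IsMaximal.exists_inv_pow m s.2 j
    obtain ⟨g, hg⟩ := h.span (a * y)
    have h1 : algebraMap T' (Localization.AtPrime m) i ∈ J := by
      refine hJ ?_
      rw [← Localization.AtPrime.map_eq_maximalIdeal, ← Ideal.map_pow]
      exact Ideal.mem_map_of_mem _ hi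
    have h2 : Ideal.Quotient.mk J (algebraMap T' (Localization.AtPrime m) (a * y)) =
        Ideal.Quotient.mk J r := by
      refine (Ideal.Quotient.eq.2 ?_).symm
      have h3 := congrArg (algebraMap T' (Localization.AtPrime m)) hy
      rw [map_add, map_mul, map_one] at h3
      have h4 : r - algebraMap T' (Localization.AtPrime m) (a * y) =
          r * algebraMap T' (Localization.AtPrime m) i := by
        rw [map_mul]
        simp only at hs
        rw [← hs]
        linear_combination (-r) * h3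
      rw [h4]
      exact J.mul_mem_left _ h1
    refine ⟨fun i => Ideal.Quotient.mk I (g i), ?_⟩
    rw [← h2, hg, map_sum, map_sum, LinearMap.sum_apply]
    refine Finset.sum_congr rfl fun i _ => ?_
    rw [map_mul, map_mul]
    rfl
  have fin : Module.Finite κ (Localization.AtPrime m ⧸ J) := Module.Finite.of_surjective Φ hΦ
  have h1 := LinearMap.finrank_le_finrank_of_surjective hΦ
  rw [Module.finrank_pi_fintype, Finset.sum_const, Finset.card_univ, Fintype.card_fin,
    smul_eq_mul] at h1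
  have h2 := Submodule.length_le_length_restrictScalars κ
    (⊤ : Submodule (Localization.AtPrime m) (Localization.AtPrime m ⧸ J))
  rw [Submodule.restrictScalars_top, Module.length_top, Module.length_top,
    Module.length_eq_finrank] at h2
  have h3 := h1.trans (Nat.mul_le_mul_left C hb)
  exact ⟨h2.trans (Nat.cast_le.2 (h3.trans (Nat.mul_le_mul_right b (Nat.le_add_left _ _)))),
    h2.trans (Nat.cast_le.2 h3)⟩

/-- `T' → R / 𝔦` is surjective when `𝔦 ⊇ m ^ j` (`m` maximal), `T'` is spanned by `C` elements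
over `κ[X]`, and the length over `R` is at most the dimension over `κ`. -/
theorem ND.Good.t3 {κ T' : Type} [Field κ] [CommRing T'] [Algebra κ T'] {n C : ℕ} (hn : 1 ≤ n)
    {d : ND κ T' n C} {m 𝔡 : Ideal T'} [m.IsPrime] (hm : m.IsMaximal) (h : d.Good m 𝔡) :
    T3 n (C * C + C) (algebraMap T' (Localization.AtPrime m) (d.c1 ^ 2)) := by
  have key : ∀ j : ℕ, Ideal.span (Set.range (MvPolynomial.X : Fin n → MvPolynomial (Fin n) κ)) ^ j ≤
      (IsLocalRing.maximalIdeal (Localization.AtPrime m) ^ j).comap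
        ((algebraMap T' (Localization.AtPrime m)).comp d.ax) := by
    intro j
    refine le_trans (Ideal.pow_right_mono (J := (IsLocalRing.maximalIdeal _).comap
      ((algebraMap T' (Localization.AtPrime m)).comp d.ax)) ?_ j) (Ideal.le_comap_pow _ j)
    rw [Ideal.span_le]
    rintro _ ⟨i, rfl⟩
    change algebraMap T' (Localization.AtPrime m) (MvPolynomial.aeval d.x
      (MvPolynomial.X i : MvPolynomial (Fin n) κ)) ∈ IsLocalRing.maximalIdeal _
    rw [MvPolynomial.aeval_X, ← Localization.AtPrime.map_eq_maximalIdeal]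
    exact Ideal.mem_map_of_mem _ (h.hx i)
  refine ⟨fun j _ => ?_, fun j => ?_⟩
  · have f1 := (finrank_quot_pow_le κ n j).1
    have f2 : Module.Finite κ (MvPolynomial (Fin n) κ ⧸ (Ideal.span {d.N} ⊔
        Ideal.span (Set.range (MvPolynomial.X : Fin n → MvPolynomial (Fin n) κ)) ^ j)) :=
      Module.Finite.of_surjective (Ideal.Quotient.factorₐ κ le_sup_right).toLinearMap
        (Ideal.Quotient.factor_surjective le_sup_right)
    refine (tdc_len hm h _ _ le_sup_right (sup_le ?_ ((key j).trans (Ideal.comap_mono le_sup_right)))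
      (finrank_quot_hyp_le κ hn j C d.N h.hN h.deg)).2.trans (Nat.cast_le.2 ?_)
    · rw [Ideal.span_singleton_le_iff_mem]
      exact Ideal.mem_sup_left (Ideal.mem_span_singleton.2 (map_dvd _ h.dvd))
    · rw [← mul_assoc]
      exact Nat.mul_le_mul_right _ (Nat.le_add_right _ _)
  · have f1 := (finrank_quot_pow_le κ n j).1
    exact (tdc_len hm h _ _ le_rfl (key j) (finrank_quot_pow_le κ n j).2).1

end

end Pool.Agent.Lib.MP_4287a9_ag
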