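import Pool.Agent.Lib.MP_4287a9_ag.GFc
import Pool.Agent.Lib.MP_4287a9_ag.TD0a
import Pool.Agent.Lib.MP_4287a9_ag.TD0b
import Pool.Agent.Lib.MP_4287a9_ag.TDa
import Pool.Agent.Lib.MP_4287a9_ag.TDb
import Pool.Agent.Lib.MP_4287a9_ag.TDc

/-!
Noether normalization data on the closed fibres.
-/

open scoped TensorProduct ENNReal NNReal nonZeroDivisors Polynomial
open Filter

namespace Pool.Agent.Lib.MP_4287a9_ag

noncomputable section

theorem TD0c_ker {B T κ : Type} [CommRing B] [CommRing T] [Algebra B T] [CommRing κ] [Algebra B κ]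
    (hs : Function.Surjective (algebraMap B κ)) (w : T) :
    (1 : κ) ⊗ₜ[B] w = 0 ↔ w ∈ RingHom.ker (algebraMap B κ) • (⊤ : Submodule B T) := by
  constructor
  · intro h
    have ex : Function.Exact (RingHom.ker (algebraMap B κ)).subtype (Algebra.linearMap B κ) :=
      LinearMap.exact_subtype_ker_map (Algebra.linearMap B κ)
    obtain ⟨y, hy⟩ := (rTensor_exact T ex hs ((1 : B) ⊗ₜ[B] w)).1 (by simpa using h)
    have e : w = TensorProduct.lid B T
        (LinearMap.rTensor T (RingHom.ker (algebraMap B κ)).subtype y) := by rw [hy]; simp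
    rw [e]
    clear hy e
    induction y using TensorProduct.induction_on with
    | zero => simp
    | tmul a t => simpa using Submodule.smul_mem_smul a.2 (Submodule.mem_top (x := t))
    | add y y' h1 h2 => rw [map_add, map_add]; exact add_mem h1 h2
  · intro h
    refine Submodule.smul_induction_on h (fun a ha t _ => ?_) fun x y hx hy => ?_
    · rw [← TensorProduct.smul_tmul, Algebra.smul_def, RingHom.mem_ker.1 ha, zero_mul,
        TensorProduct.zero_tmul]
    · rw [TensorProduct.tmul_add, hx, hy, add_zero]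

theorem TD0c_pure {B R T : Type} [CommRing B] [IsDomain B] [IsNoetherianRing B] [CommRing R]
    [Algebra B R] [Algebra.FiniteType B R] [CommRing T] [Algebra B T] [Algebra R T]
    [IsScalarTower B R T] {C : ℕ} (ω : Fin C → T) (b : B)
    (hs : ∀ w : T, ∃ j : ℕ, b ^ j • w ∈ Submodule.span R (Set.range ω)) :
    ∃ b' : B, b' ≠ 0 ∧ ∀ z : Ideal B, z.IsMaximal → b' ∉ z → ∀ f : R,
      algebraMap R T f ∈ z • (⊤ : Submodule B T) →
        ∃ j : ℕ, ∃ g ∈ z.map (algebraMap B R), algebraMap R T g = b ^ j • algebraMap R T f := by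
  set M := Submodule.span R (Set.range ω) with hM
  have : Module.Finite R M := Module.Finite.span_of_finite R (Set.finite_range ω)
  obtain ⟨b', hb', hp⟩ := gen_pure B R M ((LinearMap.range (Algebra.linearMap R T)).comap M.subtype)
  refine ⟨b', hb', fun z hz hbz f hf => ?_⟩
  have h1 : ∀ u ∈ z • (⊤ : Submodule B T), ∃ j : ℕ, ∃ m : M,
      m ∈ z • (⊤ : Submodule B M) ∧ (m : T) = b ^ j • u := fun u hu => by
    refine Submodule.smul_induction_on hu (fun a ha t _ => ?_) ?_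
    · obtain ⟨j, hj⟩ := hs t
      exact ⟨j, a • ⟨_, hj⟩, Submodule.smul_mem_smul ha Submodule.mem_top, smul_comm _ _ _⟩
    · rintro x y ⟨i, m, hm, e⟩ ⟨j, m', hm', e'⟩
      refine ⟨i + j, b ^ j • m + b ^ i • m',
        add_mem (Submodule.smul_mem _ _ hm) (Submodule.smul_mem _ _ hm'), ?_⟩
      change b ^ j • (m : T) + b ^ i • (m' : T) = _
      rw [e, e', smul_smul, smul_smul, smul_add, pow_add, mul_comm (b ^ j)]
  obtain ⟨j, m, hm, e⟩ := h1 _ hf
  have h2 := hp z hz hbz ⟨show (m : T) ∈ LinearMap.range (Algebra.linearMap R T) from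
    ⟨b ^ j • f, by rw [e, Algebra.linearMap_apply, Algebra.smul_def, Algebra.smul_def, map_mul,
      ← IsScalarTower.algebraMap_apply]⟩, hm⟩
  refine ⟨j, e ▸ ?_⟩
  refine Submodule.smul_induction_on (p := fun m : M =>
    ∃ g ∈ z.map (algebraMap B R), algebraMap R T g = m) h2 ?_ ?_
  · rintro a ha t ⟨g, hg⟩
    refine ⟨algebraMap B R a * g, Ideal.mul_mem_right _ _ (Ideal.mem_map_of_mem _ ha), ?_⟩
    change _ = a • (t : T)
    rw [map_mul, ← IsScalarTower.algebraMap_apply, Algebra.smul_def]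
    exact congrArg _ hg
  · rintro x y ⟨g, hg, e1⟩ ⟨g', hg', e2⟩
    exact ⟨g + g', add_mem hg hg', by rw [map_add, e1, e2]; rfl⟩

/-- The data on the fibre. -/
def TD0c_fib {B T : Type} [CommRing B] [CommRing T] [Algebra B T] {n C : ℕ} (d : ND B T n C)
    (κ : Type) [CommRing κ] [Algebra B κ] : ND κ (κ ⊗[B] T) n C :=
  ⟨fun i => 1 ⊗ₜ d.x i, 1 ⊗ₜ d.θ, 1 ⊗ₜ d.γ, d.P.map (MvPolynomial.map (algebraMap B κ)),
    MvPolynomial.map (algebraMap B κ) d.c0, MvPolynomial.map (algebraMap B κ) d.N,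
    fun i => 1 ⊗ₜ d.ω i⟩

section fib

variable {B T : Type} [CommRing B] [CommRing T] [Algebra B T] {n C : ℕ} (d : ND B T n C)
  (κ : Type) [CommRing κ] [Algebra B κ]

theorem TD0c_axC (a : B) : d.ax (MvPolynomial.C a) = algebraMap B T a := by
  simp [ND.ax]

theorem TD0c_evC (a : MvPolynomial (Fin n) B) : d.ev (Polynomial.C a) = d.ax a := by
  simp [ND.ev]

theorem TD0c_smul (a : B) (w : T) :
    (1 : κ) ⊗ₜ[B] (a • w) = algebraMap κ (κ ⊗[B] T) (algebraMap B κ a) * 1 ⊗ₜ[B] w := by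
  rw [← IsScalarTower.algebraMap_apply, ← Algebra.smul_def, TensorProduct.tmul_smul]

theorem TD0c_ax (a : MvPolynomial (Fin n) B) :
    (TD0c_fib d κ).ax (MvPolynomial.map (algebraMap B κ) a) = 1 ⊗ₜ d.ax a := by
  have : (TD0c_fib d κ).ax.comp (MvPolynomial.map (algebraMap B κ)) =
      (Algebra.TensorProduct.includeRight : T →ₐ[B] κ ⊗[B] T).toRingHom.comp d.ax := by
    refine MvPolynomial.ringHom_ext (fun r => ?_) fun i => ?_
    · rw [RingHom.comp_apply, RingHom.comp_apply, MvPolynomial.map_C, TD0c_axC, TD0c_axC,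
        ← IsScalarTower.algebraMap_apply]
      exact (AlgHom.commutes _ r).symm
    · simp [ND.ax, TD0c_fib]
  exact RingHom.congr_fun this a

theorem TD0c_ev (f : (MvPolynomial (Fin n) B)[X]) :
    (TD0c_fib d κ).ev (f.map (MvPolynomial.map (algebraMap B κ))) = 1 ⊗ₜ d.ev f := by
  have : (TD0c_fib d κ).ev.comp (Polynomial.mapRingHom (MvPolynomial.map (algebraMap B κ))) =
      (Algebra.TensorProduct.includeRight : T →ₐ[B] κ ⊗[B] T).toRingHom.comp d.ev := by
    refine Polynomial.ringHom_ext (fun r => ?_) ?_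
    · rw [RingHom.comp_apply, RingHom.comp_apply, Polynomial.coe_mapRingHom, Polynomial.map_C,
        TD0c_evC, TD0c_evC, TD0c_ax]
      rfl
    · simp [ND.ev, TD0c_fib]
  exact RingHom.congr_fun this f

theorem TD0c_c1 : (TD0c_fib d κ).c1 = 1 ⊗ₜ d.c1 := by
  have h1 : (TD0c_fib d κ).ax (TD0c_fib d κ).c0 = _ := TD0c_ax d κ d.c0
  have h2 : (TD0c_fib d κ).ev (Polynomial.derivative (TD0c_fib d κ).P) = _ :=
    (congrArg _ (Polynomial.derivative_map _ _)).trans (TD0c_ev d κ (Polynomial.derivative d.P))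
  rw [ND.c1, h1, h2]
  simp [ND.c1, TD0c_fib]

end fib

/-- `T → κ ⊗[B] T` is surjective with kernel `z T`, `z = ker (B → κ)`. Take for `b'` the product
of `b`, a nonzero coefficient of `N`, the element of `gen_reg` for `c₁`, and the element of
`gen_pure` for the `B[X]`-modules `span (θ ^ i, i < deg P) ⊆ span (ω, θ ^ i)`.
For `inj`: if `ev f ∈ z T` then `b ^ j ev f ∈ z * span ω`, `b ^ (j + 1) ev f` lies in the small
module, so it equals `ev f'` with `f' ∈ z B[X][Z]`, and `P ∣ b ^ (j + 1) f - f'`. -/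
theorem nd_fibre {B T : Type} [CommRing B] [IsDomain B] [IsNoetherianRing B] [CommRing T]
    [Algebra B T] [Algebra.FiniteType B T] (σ : T →ₐ[B] B) (𝔡 : Ideal T) {n C : ℕ}
    (d : ND B T n C) {b : B} (hb : b ≠ 0) (hd : d.GoodB (RingHom.ker σ) 𝔡 b) :
    ∃ b' : B, b' ≠ 0 ∧ ∀ (κ : Type) [Field κ] [Algebra B κ],
      Function.Surjective (algebraMap B κ) → algebraMap B κ b' ≠ 0 →
        ∃ d' : ND κ (κ ⊗[B] T) n C, d'.Good (pt σ κ) (ext B κ 𝔡) := by
  let : Algebra (MvPolynomial (Fin n) B)[X] T := d.ev.toAlgebra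
  have : IsScalarTower B (MvPolynomial (Fin n) B)[X] T :=
    IsScalarTower.of_algebraMap_eq fun a => ((TD0c_evC d _).trans (TD0c_axC d a)).symm
  obtain ⟨b1, hb1, h1⟩ := TD0c_pure (R := (MvPolynomial (Fin n) B)[X]) d.ω b fun w => by
    obtain ⟨j, a, e⟩ := hd.span w
    refine ⟨j, e ▸ Submodule.sum_mem _ fun i _ => ?_⟩
    rw [← TD0c_evC]
    exact Submodule.smul_mem _ (Polynomial.C (a i)) (Submodule.subset_span ⟨i, rfl⟩)
  obtain ⟨b2, hb2, h2⟩ := gen_reg B T T d.c1 hd.reg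
  obtain ⟨s, hs⟩ := MvPolynomial.ne_zero_iff.1 hd.hN
  refine ⟨b * b1 * b2 * d.N.coeff s, mul_ne_zero (mul_ne_zero (mul_ne_zero hb hb1) hb2) hs,
    fun κ _ _ hκ h0 => ⟨TD0c_fib d κ, ?_⟩⟩
  simp only [map_mul, mul_ne_zero_iff] at h0
  obtain ⟨⟨⟨k0, k1⟩, k2⟩, k3⟩ := h0
  have hz := RingHom.ker_isMaximal_of_surjective _ hκ
  have hπ : ∀ w : κ ⊗[B] T, ∃ t, w = 1 ⊗ₜ t := fun w =>
    (Algebra.TensorProduct.includeRight_surjective T hκ w).imp fun _ e => e.symm
  have hu : ∀ j : ℕ, IsUnit (algebraMap κ (κ ⊗[B] T) (algebraMap B κ (b ^ j))) := fun j =>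
    (IsUnit.mk0 _ (by rw [map_pow]; exact pow_ne_zero _ k0)).map _
  have hu1 : IsUnit (algebraMap κ (κ ⊗[B] T) (algebraMap B κ b)) := (IsUnit.mk0 _ k0).map _
  have span : ∀ w, ∃ a : Fin C → MvPolynomial (Fin n) κ,
      w = ∑ i, (TD0c_fib d κ).ax (a i) * (TD0c_fib d κ).ω i := fun w => by
    obtain ⟨t, rfl⟩ := hπ w
    obtain ⟨j, a, e⟩ := hd.span t
    refine ⟨fun i => MvPolynomial.C (algebraMap B κ (b ^ j))⁻¹ *
      MvPolynomial.map (algebraMap B κ) (a i), (hu j).mul_left_cancel ?_⟩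
    rw [← TD0c_smul, e, TensorProduct.tmul_sum, Finset.mul_sum]
    refine Finset.sum_congr rfl fun i _ => ?_
    rw [map_mul, TD0c_axC, TD0c_ax, ← mul_assoc, ← mul_assoc, ← map_mul,
      mul_inv_cancel₀ (by rw [map_pow]; exact pow_ne_zero _ k0), map_one, one_mul]
    simp [TD0c_fib]
  refine ⟨fun i => ?_, Ideal.mem_map_of_mem _ hd.hγ, hd.monic.map _, ?_, fun f' hf => ?_,
    fun w => ?_, span, ?_, fun e => k3 ?_, ?_, ?_⟩
  · have : σ (d.x i) = 0 := hd.hx i
    simp [pt, aug, TD0c_fib, this]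
  · refine hu1.mul_right_eq_zero.1 ?_
    rw [show (TD0c_fib d κ).ev (TD0c_fib d κ).P = _ from TD0c_ev d κ d.P, ← TD0c_smul, hd.root,
      TensorProduct.tmul_zero]
  · obtain ⟨f, rfl⟩ := Polynomial.map_surjective _ (MvPolynomial.map_surjective _ hκ) f'
    rw [TD0c_ev, TD0c_ker hκ] at hf
    obtain ⟨j, g, hg, e⟩ := h1 _ hz k1 f hf
    have g0 : g.map (MvPolynomial.map (algebraMap B κ)) = 0 := by
      have : Ideal.map (algebraMap B (MvPolynomial (Fin n) B)[X]) (RingHom.ker (algebraMap B κ)) ≤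
          RingHom.ker (Polynomial.mapRingHom (MvPolynomial.map (algebraMap B κ))) :=
        Ideal.map_le_iff_le_comap.2 fun a ha => by
          simp [RingHom.mem_ker.1 ha]
      exact this hg
    have e' : d.ev g = b ^ j • d.ev f := e
    have h3 := Polynomial.map_dvd (MvPolynomial.map (algebraMap B κ))
      (hd.inj (Polynomial.C (MvPolynomial.C (b ^ j)) * f - g) (by
        rw [map_sub, map_mul, TD0c_evC, TD0c_axC, e', Algebra.smul_def, sub_self]))
    rw [Polynomial.map_sub, g0, sub_zero, Polynomial.map_mul, Polynomial.map_C,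
      MvPolynomial.map_C] at h3
    exact (IsUnit.dvd_mul_left (((IsUnit.mk0 _ (by rw [map_pow]; exact pow_ne_zero _ k0)).map
      MvPolynomial.C).map Polynomial.C)).1 h3
  · obtain ⟨a, rfl⟩ := span w
    choose f hf using hd.cond
    refine ⟨∑ i, Polynomial.C (a i * MvPolynomial.C (algebraMap B κ b)⁻¹) *
      (f i).map (MvPolynomial.map (algebraMap B κ)), ?_⟩
    rw [map_sum, Finset.mul_sum]
    refine Finset.sum_congr rfl fun i _ => ?_
    rw [map_mul, TD0c_evC, TD0c_ev, hf, TD0c_smul, map_mul, TD0c_axC, mul_assoc,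
      ← mul_assoc _ _ (_ ⊗ₜ _), ← map_mul, inv_mul_cancel₀ k0, map_one, one_mul,
      show (TD0c_fib d κ).ax (TD0c_fib d κ).c0 = _ from TD0c_ax d κ d.c0, mul_left_comm]
    simp [TD0c_fib]
  · refine mem_nonZeroDivisors_iff_left.2 fun w hw => ?_
    obtain ⟨t, rfl⟩ := hπ w
    rw [TD0c_c1, Algebra.TensorProduct.tmul_mul_tmul, one_mul, TD0c_ker hκ] at hw
    exact (TD0c_ker hκ t).2 (h2 _ hz k2 t hw)
  · rw [← MvPolynomial.coeff_map, show MvPolynomial.map (algebraMap B κ) d.N = 0 from e,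
      MvPolynomial.coeff_zero]
  · exact (Finset.sup_mono (MvPolynomial.support_map_subset _ _)).trans hd.deg
  · obtain ⟨u, e⟩ := hd.dvd
    refine (IsUnit.dvd_mul_left hu1).1 ⟨1 ⊗ₜ u, ?_⟩
    rw [show (TD0c_fib d κ).ax (TD0c_fib d κ).N = _ from TD0c_ax d κ d.N, ← TD0c_smul, e, TD0c_c1]
    simp

/-- Assembly of `descend_frac`, `exists_nd_field`, `exists_nd_base`, `nd_fibre`, `t1`, `t2`,
`t3`. -/
theorem exists_tdata {k B T : Type} [Field k] [CharZero k] [CommRing B] [IsNoetherianRing B]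
    [Algebra B k] (hB : Function.Injective (algebraMap B k)) [CommRing T] [Algebra B T]
    [Algebra.FiniteType B T] (σ : T →ₐ[B] B) [IsDomain (k ⊗[B] T)] {n : ℕ} (hn1 : 1 ≤ n)
    (hn : Algebra.trdeg k (k ⊗[B] T) = n) {𝔡 : Ideal T} (h𝔡 : ext B k 𝔡 ≠ ⊥) :
    ∃ (b : B) (C : ℕ), b ≠ 0 ∧ ∀ (κ : Type) [Field κ] [Finite κ] [Algebra B κ],
      Function.Surjective (algebraMap B κ) → algebraMap B κ b ≠ 0 →
        TData (ringChar κ) (toLoc σ κ (ext B κ 𝔡)) n C := by
  have : IsDomain B := hB.isDomain _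
  have : CharZero B := (algebraMap B k).charZero
  have : CharZero (FractionRing B) := IsFractionRing.charZero B
  obtain ⟨i1, h1, h2⟩ := descend_frac hB hn h𝔡
  obtain ⟨C, d, hd⟩ := exists_nd_field (aug σ (FractionRing B)) h1 h2
  obtain ⟨d1, b1, hb1, hd1⟩ := exists_nd_base σ 𝔡 d hd
  obtain ⟨b, hb, h⟩ := nd_fibre σ 𝔡 d1 hb1 hd1
  refine ⟨b, C * C + C, hb, fun κ _ _ _ hκ h0 => ?_⟩
  obtain ⟨d', hd'⟩ := h κ hκ h0
  have : Fact (ringChar κ).Prime := ⟨CharP.char_is_prime κ _⟩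
  exact ⟨_, _, fun e => hd'.t1 e, fun e i => hd'.t2 _ i, hd'.t3 hn1
    (RingHom.ker_isMaximal_of_surjective (aug σ κ) fun a => ⟨_, (aug σ κ).commutes a⟩)⟩

end

end Pool.Agent.Lib.MP_4287a9_ag
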