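import Pool.Agent.Lib.MP_4287a9_ag.HY
import Pool.Agent.Lib.MP_4287a9_ag.Std
import Pool.Agent.Lib.MP_4287a9_ag.TD0c
import Pool.Agent.Lib.MP_4287a9_ag.Dense
import Pool.Agent.Lib.MP_4287a9_ag.Param

/-!
The limit argument.
-/

open scoped TensorProduct ENNReal NNReal nonZeroDivisors Polynomial
open Filter

namespace Pool.Agent.Lib.MP_4287a9_ag

noncomputable section

theorem int_jacobson : IsJacobsonRing ℤ := by
  rw [isJacobsonRing_iff_prime_eq]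
  intro P hP
  by_cases h : P = ⊥
  · subst h
    rw [eq_bot_iff]
    intro x hx
    have := Ideal.mem_jacobson_bot.1 hx x
    rw [Int.isUnit_iff] at this
    have h0 : x = 0 := by rcases this with h | h <;> nlinarith
    simp [h0]
  · have : P.IsMaximal := Ring.DimensionLEOne.maximalOfPrime h hP
    exact Ideal.jacobson_eq_self_of_isMaximal

/-- Choice of `k₀`. -/
theorem exists_level {V : ℝ≥0∞} {c : ℝ≥0} {n : ℕ} (hn : 1 ≤ n) (D : ℕ)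
    (hc : (n : ℝ≥0∞) ^ n * c < V) : ∃ k0 : ℕ, 1 ≤ k0 ∧
      (((D * k0 ^ (n - 1) : ℕ) : ℝ≥0∞) + (k0 : ℝ≥0∞) ^ n * c) * ((n : ℝ≥0∞) / k0) ^ n < V := by
  have hn0 : ((n : ℝ≥0∞) ^ n * D) ≠ ⊤ :=
    ENNReal.mul_ne_top (ENNReal.pow_ne_top (ENNReal.natCast_ne_top n)) (ENNReal.natCast_ne_top D)
  have ht : Tendsto (fun k0 : ℕ => ((n : ℝ≥0∞) ^ n * D) * (k0 : ℝ≥0∞)⁻¹ + (n : ℝ≥0∞) ^ n * c)
      atTop (nhds (((n : ℝ≥0∞) ^ n * D) * 0 + (n : ℝ≥0∞) ^ n * c)) :=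
    (ENNReal.Tendsto.const_mul ENNReal.tendsto_inv_nat_nhds_zero (Or.inr hn0)).add
      tendsto_const_nhds
  rw [mul_zero, zero_add] at ht
  obtain ⟨k0, hk0, hk1⟩ := ((ht.eventually (gt_mem_nhds hc)).and (eventually_ge_atTop 1)).exists
  refine ⟨k0, hk1, lt_of_eq_of_lt ?_ hk0⟩
  obtain ⟨m, rfl⟩ : ∃ m, n = m + 1 := ⟨n - 1, by omega⟩
  have hk : (k0 : ℝ≥0∞) ≠ 0 := by exact_mod_cast (by omega : k0 ≠ 0)
  have hk' : (k0 : ℝ≥0∞) ≠ ⊤ := ENNReal.natCast_ne_top k0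
  have h1 : (k0 : ℝ≥0∞) * (k0 : ℝ≥0∞)⁻¹ = 1 := ENNReal.mul_inv_cancel hk hk'
  have h2 : ∀ j : ℕ, (k0 : ℝ≥0∞) ^ j * ((k0 : ℝ≥0∞)⁻¹) ^ j = 1 := fun j => by
    rw [← mul_pow, h1, one_pow]
  simp only [Nat.add_sub_cancel, div_eq_mul_inv, mul_pow, Nat.cast_mul, Nat.cast_pow]
  calc ((D : ℝ≥0∞) * (k0 : ℝ≥0∞) ^ m + (k0 : ℝ≥0∞) ^ (m + 1) * c) *
        (((m + 1 : ℕ) : ℝ≥0∞) ^ (m + 1) * ((k0 : ℝ≥0∞)⁻¹) ^ (m + 1))
      = ((m + 1 : ℕ) : ℝ≥0∞) ^ (m + 1) * D * ((k0 : ℝ≥0∞) ^ m * ((k0 : ℝ≥0∞)⁻¹) ^ m) *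
          (k0 : ℝ≥0∞)⁻¹ + ((m + 1 : ℕ) : ℝ≥0∞) ^ (m + 1) * c *
          ((k0 : ℝ≥0∞) ^ (m + 1) * ((k0 : ℝ≥0∞)⁻¹) ^ (m + 1)) := by ring
    _ = _ := by rw [h2, h2, mul_one, mul_one]

/-- Suppose no `b` works. Let `P = B[β j i]` and `Z` the set of kernels of the maps
`aeval β : P → κ` for which `J = toLoc (Jid β)` has the two properties. `exists_dense_prime`,
`exists_embedding` give `𝔭` and `φ : P / 𝔭 → k`; put `𝒥 = Jid` with the universal `β`.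
`nvol ≤ mult (spk φ 𝒥) * lct ^ n` (`radical_Jid`, `spk_Jid`), `mult` is bounded by
`mult_semicont` at any point of `Z` over `𝔭`, and `lct ≤ n / k₀`: if `Klt` holds at some
`t > n / k₀`, `hy` contradicts the choice of a point of `Z` over `𝔭` avoiding `b`. -/
theorem nvol_le_of_bad {k B T : Type} [Field k] [IsAlgClosed k] [CharZero k] [Uncountable k]
    [CommRing B] [Algebra.FiniteType ℤ B] [Algebra B k]
    (hB : Function.Injective (algebraMap B k)) [CommRing T] [Algebra B T]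
    [Algebra.FiniteType B T] (σ : T →ₐ[B] B) [IsDomain (k ⊗[B] T)]
    [IsIntegrallyClosed (k ⊗[B] T)] {n : ℕ} {𝔡 : Ideal T} {r : ℕ} (hr : 0 < r)
    (h𝔡 : ext B k 𝔡 ≠ ⊥) {k0 : ℕ} (hk0 : 1 ≤ k0) {E : ℝ≥0∞}
    (hbad : ∀ b : B, b ≠ 0 → ∃ (κ : Type) (_ : Field κ) (_ : Finite κ) (_ : Algebra B κ),
      Function.Surjective (algebraMap B κ) ∧ algebraMap B κ b ≠ 0 ∧ ∃ J : Ideal (Loc σ κ),
        IsLocalRing.maximalIdeal (Loc σ κ) ^ k0 ≤ J ∧ J ≤ IsLocalRing.maximalIdeal (Loc σ κ) ∧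
        mult n J ≤ E ∧
        ∀ t : ℝ≥0, (n : ℝ) < k0 * t → ¬ SFRi (ringChar κ) (toLoc σ κ (ext B κ 𝔡)) r J t) :
    nvol k n (pt σ k) (ext B k 𝔡) r ≤ E * ((n : ℝ≥0∞) / k0) ^ n := by
  have hdom : IsDomain B := hB.isDomain (algebraMap B k)
  have hNB : IsNoetherianRing B := Algebra.FiniteType.isNoetherianRing ℤ B
  obtain ⟨s, ω, hω, hpar⟩ := exists_param σ k0
  let P := MvPolynomial (Fin s × Fin s) B
  let Z : Set (Ideal P) := {z | ∃ (κ : Type) (_ : Field κ) (_ : Finite κ) (_ : Algebra B κ)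
    (β : Fin s → Fin s → κ), Function.Surjective (algebraMap B κ) ∧
      z = RingHom.ker (MvPolynomial.aeval (fun x : Fin s × Fin s => β x.1 x.2) : P →ₐ[B] κ) ∧
      mult n (toLoc σ κ (Jid σ k0 ω κ β)) ≤ E ∧
      ∀ t : ℝ≥0, (n : ℝ) < k0 * t →
        ¬ SFRi (ringChar κ) (toLoc σ κ (ext B κ 𝔡)) r (toLoc σ κ (Jid σ k0 ω κ β)) t}
  have hZ : ∀ z ∈ Z, z.IsPrime := by
    rintro z ⟨κ, _, _, _, β, -, rfl, -⟩
    exact RingHom.ker_isPrime _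
  have hZb : ∀ b : B, b ≠ 0 → ∃ z ∈ Z, algebraMap B P b ∉ z := by
    intro b hb
    obtain ⟨κ, _, _, _, hs, hb', J, hJ1, hJ2, hJ3, hJ4⟩ := hbad b hb
    obtain ⟨β, rfl⟩ := hpar κ J hJ1 hJ2
    refine ⟨_, ⟨κ, inferInstance, inferInstance, inferInstance, β, hs, rfl, hJ3, hJ4⟩, ?_⟩
    rw [RingHom.mem_ker, AlgHom.commutes]
    exact hb'
  obtain ⟨𝔭, h𝔭, h0, hdense⟩ := exists_dense_prime Z hZ hZb
  obtain ⟨f, hf⟩ := exists_embedding hB h𝔭 h0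
  let φ : (P ⧸ 𝔭) →ₐ[B] k := Ideal.Quotient.liftₐ 𝔭 f fun a ha => by
    rw [← hf] at ha
    exact ha
  have hφ : Function.Injective φ := by
    rw [injective_iff_map_eq_zero]
    intro a ha
    obtain ⟨a, rfl⟩ := Ideal.Quotient.mk_surjective a
    rw [Ideal.Quotient.eq_zero_iff_mem, ← hf]
    exact ha
  let β0 : Fin s → Fin s → P ⧸ 𝔭 := fun j i => Ideal.Quotient.mk 𝔭 (MvPolynomial.X (j, i))
  let 𝒥 : Ideal ((P ⧸ 𝔭) ⊗[B] T) := Jid σ k0 ω (P ⧸ 𝔭) β0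
  have key : ∀ g : P ⧸ 𝔭, g ≠ 0 → ∃ (κ : Type) (_ : Field κ) (_ : Finite κ) (_ : Algebra B κ)
      (χ : (P ⧸ 𝔭) →ₐ[B] κ), Function.Surjective χ ∧ χ g ≠ 0 ∧
        mult n (toLoc σ κ (spk χ 𝒥)) ≤ E ∧ ∀ t : ℝ≥0, (n : ℝ) < k0 * t →
          ¬ SFRi (ringChar κ) (toLoc σ κ (ext B κ 𝔡)) r (toLoc σ κ (spk χ 𝒥)) t := by
    intro g hg
    obtain ⟨g, rfl⟩ := Ideal.Quotient.mk_surjective g
    have hg' : g ∉ 𝔭 := fun h => hg (Ideal.Quotient.eq_zero_iff_mem.2 h)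
    obtain ⟨z, ⟨κ, _, _, _, β, hs, rfl, hE, hS⟩, hle, hgz⟩ := hdense g hg'
    let χ : (P ⧸ 𝔭) →ₐ[B] κ := Ideal.Quotient.liftₐ 𝔭
      (MvPolynomial.aeval (fun x : Fin s × Fin s => β x.1 x.2) : P →ₐ[B] κ) fun a ha => hle ha
    have hχ : spk χ 𝒥 = Jid σ k0 ω κ β := by
      rw [spk_Jid]
      congr 1
      funext j i
      exact MvPolynomial.aeval_X (fun x : Fin s × Fin s => β x.1 x.2) (j, i)
    refine ⟨κ, inferInstance, inferInstance, inferInstance, χ, fun y => ?_, hgz, ?_, ?_⟩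
    · obtain ⟨x, rfl⟩ := hs y
      exact ⟨algebraMap B _ x, χ.commutes x⟩
    · rw [hχ]
      exact hE
    · rw [hχ]
      exact hS
  have : 𝔭.IsPrime := h𝔭
  have hrad : (spk φ 𝒥).radical = pt σ k := by
    rw [spk_Jid]
    exact radical_Jid σ hk0 hω k _
  have hmult : mult n (spk φ 𝒥) ≤ E := by
    obtain ⟨κ, _, _, _, χ, -, -, hE, -⟩ := key 1 one_ne_zero
    exact (mult_semicont σ φ hφ χ 𝒥 (k0 := k0) le_sup_left n).trans hE
  have hlct : lct k n (pt σ k) (ext B k 𝔡) r (spk φ 𝒥) ≤ (n : ℝ≥0∞) / k0 := by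
    refine iSup₂_le fun t ht => ?_
    obtain ⟨b, hb, H⟩ := hy σ hr h𝔡 φ hφ 𝒥 ht
    obtain ⟨κ, _, _, _, χ, hχ, hχb, -, hS⟩ := key b hb
    have h1 : ¬ (n : ℝ) < k0 * t := fun h => hS t h (H κ χ hχ hχb).2.2
    have h2 : (t : ℝ≥0) * (k0 : ℝ≥0) ≤ (n : ℝ≥0) := by
      have := not_lt.1 h1
      rw [mul_comm] at this
      exact_mod_cast this
    have hk : (k0 : ℝ≥0∞) ≠ 0 := by exact_mod_cast (by omega : k0 ≠ 0)
    rw [ENNReal.le_div_iff_mul_le (Or.inl hk) (Or.inl (ENNReal.natCast_ne_top k0))]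
    exact_mod_cast h2
  calc nvol k n (pt σ k) (ext B k 𝔡) r
      ≤ mult n (spk φ 𝒥) * lct k n (pt σ k) (ext B k 𝔡) r (spk φ 𝒥) ^ n :=
        iInf₂_le (f := fun (𝔞 : Ideal (k ⊗[B] T)) (_ : 𝔞.radical = pt σ k) =>
          mult n 𝔞 * lct k n (pt σ k) (ext B k 𝔡) r 𝔞 ^ n) (spk φ 𝒥) hrad
    _ ≤ E * ((n : ℝ≥0∞) / k0) ^ n := by gcongr

/-- A field that is a quotient of `B` is finite. `hy` for `Λ = B`, `𝒥 = ⊤`, `exists_tdata`,
`exists_level`, `bad_fibre`, `nvol_le_of_bad`, `SFRi.toSFR`. -/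
theorem main {k B T : Type} [Field k] [IsAlgClosed k] [CharZero k] [Uncountable k]
    [CommRing B] [Algebra.FiniteType ℤ B] [Algebra B k]
    (hB : Function.Injective (algebraMap B k)) [CommRing T] [Algebra B T]
    [Algebra.FiniteType B T] (σ : T →ₐ[B] B) [IsDomain (k ⊗[B] T)]
    [IsIntegrallyClosed (k ⊗[B] T)] {n : ℕ} (hn : 1 ≤ n)
    (hdim : Algebra.trdeg k (k ⊗[B] T) = n) {𝔡 : Ideal T} {r : ℕ} (hr : 0 < r)
    (h𝔡 : ext B k 𝔡 ≠ ⊥) (hklt : Klt k n (pt σ k) (ext B k 𝔡) r ⊤ 0) {c : ℝ≥0}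
    (hc : (n : ℝ≥0∞) ^ n * c < nvol k n (pt σ k) (ext B k 𝔡) r) :
    ∃ b : B, b ≠ 0 ∧ ∀ (κ : Type) [Field κ] [Algebra B κ],
      Function.Surjective (algebraMap B κ) → algebraMap B κ b ≠ 0 →
        IsDomain (Loc σ κ) ∧ IsIntegrallyClosed (Loc σ κ) ∧
          SFR ((ext B κ 𝔡).map (algebraMap (κ ⊗[B] T) (Loc σ κ))) r ⊤ 0 ∧
          (c : ℝ≥0∞) ≤ Fvol n ((ext B κ 𝔡).map (algebraMap (κ ⊗[B] T) (Loc σ κ))) r := by
  have hdom : IsDomain B := hB.isDomain (algebraMap B k)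
  have hNB : IsNoetherianRing B := Algebra.FiniteType.isNoetherianRing ℤ B
  have htop : ∀ (F : Type) [CommRing F] [Algebra B F] (g : B →ₐ[B] F),
      spk g (⊤ : Ideal (B ⊗[B] T)) = ⊤ := fun F _ _ g => Ideal.map_top _
  have hK : Klt k n (pt σ k) (ext B k 𝔡) r (spk (Algebra.ofId B k) (⊤ : Ideal (B ⊗[B] T))) 0 := by
    rw [htop]
    exact hklt
  obtain ⟨b1, hb1, H1⟩ := hy σ hr h𝔡 (Algebra.ofId B k) hB ⊤ hK
  obtain ⟨b2, C, hb2, H2⟩ := exists_tdata hB σ hn hdim h𝔡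
  obtain ⟨k0, hk0, hlt⟩ := exists_level hn (n.factorial * (n + 1) * C) hc
  have hfin : ∀ (κ : Type) [Field κ] [Algebra B κ], Function.Surjective (algebraMap B κ) →
      Finite κ := by
    intro κ _ _ hs
    have : Algebra.FiniteType B κ := Algebra.FiniteType.of_surjective (Algebra.ofId B κ) hs
    have : Algebra.FiniteType ℤ κ := Algebra.FiniteType.trans (S := B) inferInstance this
    have := int_jacobson
    have : Module.Finite ℤ κ := finite_of_finite_type_of_isJacobsonRing ℤ κ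
    have hp : ringChar κ ≠ 0 := by
      intro h0
      have : CharZero κ := (CharP.ringChar_zero_iff_CharZero κ).1 h0
      have hint : Algebra.IsIntegral ℤ κ := inferInstance
      exact Int.not_isField
        ((Algebra.IsIntegral.isField_iff_isField (algebraMap ℤ κ).injective_int).2
          (Field.toIsField κ))
    refine Module.finite_of_fg_torsion κ fun x => ⟨⟨(ringChar κ : ℤ), ?_⟩, ?_⟩
    · exact mem_nonZeroDivisors_of_ne_zero (by exact_mod_cast hp)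
    · simp [Submonoid.smul_def]
  have base : ∀ (κ : Type) [Field κ] [Finite κ] [Algebra B κ],
      Function.Surjective (algebraMap B κ) → algebraMap B κ b1 ≠ 0 →
      IsDomain (Loc σ κ) ∧ IsIntegrallyClosed (Loc σ κ) ∧
        SFRi (ringChar κ) (toLoc σ κ (ext B κ 𝔡)) r ⊤ 0 := by
    intro κ _ _ _ hs hb
    obtain ⟨h1, h2, h3⟩ := H1 κ (Algebra.ofId B κ) hs hb
    exact ⟨h1, h2, h3.top⟩
  have inst : ∀ (κ : Type) [Field κ] [Finite κ] [Algebra B κ],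
      (ringChar κ).Prime ∧ IsNoetherianRing (Loc σ κ) ∧ CharP (Loc σ κ) (ringChar κ) := by
    intro κ _ _ _
    have : IsNoetherianRing (κ ⊗[B] T) := Algebra.FiniteType.isNoetherianRing κ _
    exact ⟨CharP.char_is_prime κ _,
      IsLocalization.isNoetherianRing (pt σ κ).primeCompl _ inferInstance,
      charP_of_injective_algebraMap (algebraMap κ (Loc σ κ)).injective _⟩
  have hgood : ∃ b : B, b ≠ 0 ∧ ∀ (κ : Type) [Field κ] [Finite κ] [Algebra B κ],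
      Function.Surjective (algebraMap B κ) → algebraMap B κ b ≠ 0 →
        (c : ℝ≥0∞) ≤ Fvol n (toLoc σ κ (ext B κ 𝔡)) r := by
    by_contra hcon
    push Not at hcon
    refine absurd (nvol_le_of_bad hB σ (n := n) hr h𝔡 hk0 (fun b hb => ?_)) (not_le.2 hlt)
    obtain ⟨κ, _, _, _, hs, hb', hF⟩ := hcon (b * (b1 * b2)) (mul_ne_zero hb (mul_ne_zero hb1 hb2))
    rw [map_mul, map_mul] at hb'
    obtain ⟨h1, h2, h3⟩ := base κ hs (left_ne_zero_of_mul (right_ne_zero_of_mul hb'))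
    obtain ⟨hp, hN, hC⟩ := inst κ
    have : Fact (ringChar κ).Prime := ⟨hp⟩
    exact ⟨κ, inferInstance, inferInstance, inferInstance, hs, left_ne_zero_of_mul hb',
      bad_fibre hr hn (H2 κ hs (right_ne_zero_of_mul (right_ne_zero_of_mul hb'))) h3 hF hk0⟩
  obtain ⟨b3, hb3, H3⟩ := hgood
  refine ⟨b1 * b3, mul_ne_zero hb1 hb3, fun κ _ _ hs hb => ?_⟩
  have := hfin κ hs
  rw [map_mul] at hb
  obtain ⟨h1, h2, h3⟩ := base κ hs (left_ne_zero_of_mul hb)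
  obtain ⟨hp, hN, hC⟩ := inst κ
  have : Fact (ringChar κ).Prime := ⟨hp⟩
  exact ⟨h1, h2, h3.toSFR hr, H3 κ hs (right_ne_zero_of_mul hb)⟩

end

end Pool.Agent.Lib.MP_4287a9_ag
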