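import Pool.Agent.Lib.MP_4287a9_ag.P1a

/-!
A strongly F-regular reduced ring is normal.
-/

open scoped TensorProduct ENNReal NNReal nonZeroDivisors Polynomial
open Filter

namespace Pool.Agent.Lib.MP_4287a9_ag

noncomputable section

/-- If `b ^ q ∣ c a ^ q` for all `q` and `φ (c a₀) = 1`, then `a = φ (a ^ q c a₀) ∈ (b)`. -/
theorem SFRi.dvd_of_pow {p : ℕ} {T : Type} [CommRing T] {𝔡 𝔞 : Ideal T} {r : ℕ} {t : ℝ≥0}
    (h : SFRi p 𝔡 r 𝔞 t) {a b c : T} (hc : c ∈ T⁰) (hab : ∀ q : ℕ, b ^ q ∣ c * a ^ q) :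
    b ∣ a := by
  obtain ⟨e, -, -, a₀, -, φ, hφ, h1⟩ := h c hc
  obtain ⟨y, hy⟩ := hab (p ^ e)
  refine ⟨φ (y * a₀), ?_⟩
  calc a = a * φ (c * a₀) := by rw [h1, mul_one]
    _ = φ (a ^ p ^ e * (c * a₀)) := (hφ.lin _ _).symm
    _ = φ (b ^ p ^ e * (y * a₀)) := by
        congr 1
        linear_combination a₀ * hy
    _ = b * φ (y * a₀) := hφ.lin _ _

theorem norm_eq_zero {T : Type} [CommRing T] [IsReduced T] {w : T}
    (hw : ∀ 𝔮 ∈ minimalPrimes T, w ∈ 𝔮) : w = 0 := by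
  have h1 : w ∈ (⊥ : Ideal T).radical := by
    rw [← Ideal.sInf_minimalPrimes]
    exact Submodule.mem_sInf.2 hw
  obtain ⟨k, hk⟩ := h1
  exact IsReduced.eq_zero w ⟨k, by simpa using hk⟩

/-- The idempotent that cuts out the component through a given prime. -/
theorem norm_idem {T : Type} [CommRing T] [IsNoetherianRing T] [IsReduced T]
    (h : ∀ a b c : T, c ∈ T⁰ → (∀ q : ℕ, b ^ q ∣ c * a ^ q) → b ∣ a) (𝔫 : Ideal T)
    [h𝔫 : 𝔫.IsPrime] :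
    ∃ ε : T, ε * ε = ε ∧ ε ∉ 𝔫 ∧ ∀ u v : T, u * v * ε = 0 → u * ε = 0 ∨ v * ε = 0 := by
  classical
  obtain ⟨𝔭, h𝔭, hle⟩ := Ideal.exists_minimalPrimes_le (I := ⊥) (J := 𝔫) bot_le
  have hp : 𝔭.IsPrime := h𝔭.1.1
  have hfin : (minimalPrimes T \ {𝔭}).Finite :=
    (minimalPrimes.finite_of_isNoetherianRing T).sdiff
  have hmin : ∀ 𝔮 ∈ minimalPrimes T, ∀ 𝔮' ∈ minimalPrimes T, 𝔮 ≤ 𝔮' → 𝔮 = 𝔮' :=
    fun 𝔮 h𝔮 𝔮' h𝔮' hle => le_antisymm hle (h𝔮'.2 h𝔮.1 hle)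
  have hx : ∃ x, x ∉ 𝔭 ∧ ∀ 𝔮 ∈ minimalPrimes T, 𝔮 ≠ 𝔭 → x ∈ 𝔮 := by
    have h1 : ¬ hfin.toFinset.inf id ≤ 𝔭 := by
      rw [hp.inf_le']
      rintro ⟨𝔮, h𝔮, h2⟩
      rw [Set.Finite.mem_toFinset] at h𝔮
      exact h𝔮.2 (hmin 𝔮 h𝔮.1 𝔭 h𝔭 h2)
    obtain ⟨x, hx1, hx2⟩ := Set.not_subset.1 h1
    refine ⟨x, hx2, fun 𝔮 h𝔮 hne => ?_⟩
    have h3 : hfin.toFinset.inf id ≤ 𝔮 :=
      Finset.inf_le (f := id) (hfin.mem_toFinset.2 ⟨h𝔮, hne⟩)
    exact h3 hx1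
  have hy : ∃ y, y ∈ 𝔭 ∧ ∀ 𝔮 ∈ minimalPrimes T, 𝔮 ≠ 𝔭 → y ∉ 𝔮 := by
    have h1 : ¬ ((𝔭 : Set T) ⊆ ⋃ 𝔮 ∈ minimalPrimes T \ {𝔭}, ((id 𝔮 : Ideal T) : Set T)) := by
      rw [Ideal.subset_union_prime_finite hfin (f := id) 𝔭 𝔭 fun 𝔮 h𝔮 _ _ => h𝔮.1.1.1]
      rintro ⟨𝔮, h𝔮, h2⟩
      exact h𝔮.2 (hmin 𝔭 h𝔭 𝔮 h𝔮.1 h2).symm
    obtain ⟨y, hy1, hy2⟩ := Set.not_subset.1 h1
    refine ⟨y, hy1, fun 𝔮 h𝔮 hne hy => hy2 ?_⟩
    exact Set.mem_biUnion (show 𝔮 ∈ minimalPrimes T \ {𝔭} from ⟨h𝔮, hne⟩) hy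
  obtain ⟨x, hx1, hx2⟩ := hx
  obtain ⟨y, hy1, hy2⟩ := hy
  have hkill : ∀ w ∈ 𝔭, w * x = 0 := by
    intro w hw
    refine norm_eq_zero fun 𝔮 h𝔮 => ?_
    by_cases hq : 𝔮 = 𝔭
    · rw [hq]
      exact 𝔭.mul_mem_right _ hw
    · exact 𝔮.mul_mem_left _ (hx2 𝔮 h𝔮 hq)
  have hb : ∀ 𝔮 ∈ minimalPrimes T, x + y ∉ 𝔮 := by
    intro 𝔮 h𝔮 hm
    by_cases hq : 𝔮 = 𝔭
    · rw [hq] at hm
      exact hx1 (by simpa using 𝔭.sub_mem hm hy1)
    · exact hy2 𝔮 h𝔮 hq (by simpa using 𝔮.sub_mem hm (hx2 𝔮 h𝔮 hq))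
  have hreg : ∀ w, (x + y) * w = 0 → w = 0 := by
    intro w hw
    refine norm_eq_zero fun 𝔮 h𝔮 => ?_
    have hq : 𝔮.IsPrime := h𝔮.1.1
    exact (hq.mem_or_mem (hw ▸ 𝔮.zero_mem : (x + y) * w ∈ 𝔮)).resolve_left (hb 𝔮 h𝔮)
  have hnz : x + y ∈ T⁰ := mem_nonZeroDivisors_iff_left.2 hreg
  have hxy : y * x = 0 := hkill y hy1
  have hpow : ∀ q : ℕ, x * (x + y) ^ q = x ^ (q + 1) := by
    intro q
    induction q with
    | zero => simp
    | succ q ih =>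
      rw [pow_succ, ← mul_assoc, ih]
      linear_combination x ^ q * hxy
  obtain ⟨ε, hε⟩ : x + y ∣ x := by
    refine h x (x + y) (x + y) hnz fun q => ?_
    rcases q with _ | q
    · simp
    · refine ⟨x, ?_⟩
      rw [mul_comm _ x, hpow]
      linear_combination x ^ q * hxy
  have h1 : (x + y) * (1 - ε) = y := by linear_combination hε
  have h2 : 1 - ε ∈ 𝔭 := (hp.mem_or_mem (h1.symm ▸ hy1 : (x + y) * (1 - ε) ∈ 𝔭)).resolve_left
    (hb 𝔭 h𝔭)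
  have h3 : ∀ w ∈ 𝔭, w * ε = 0 := by
    intro w hw
    refine hreg _ ?_
    have := hkill w hw
    linear_combination this - w * hε
  have h4 : ε ∉ 𝔫 := fun hm => h𝔫.ne_top ((Ideal.eq_top_iff_one 𝔫).2 (by
    simpa using 𝔫.add_mem (hle h2) hm))
  refine ⟨ε, ?_, h4, fun u v huv => ?_⟩
  · linear_combination -h3 _ h2
  · have h5 : u * v ∈ 𝔭 :=
      (hp.mem_or_mem (huv ▸ 𝔭.zero_mem : u * v * ε ∈ 𝔭)).resolve_right fun hm => h4 (hle hm)
    exact (hp.mem_or_mem h5).imp (h3 u) (h3 v)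

/-- Let `𝔭 1, ..., 𝔭 k` be the minimal primes, `x i` in all `𝔭 j` (`j ≠ i`) and not in `𝔭 i`,
`b = ∑ x i` (regular since `T` is reduced). As `x i * b = x i ^ 2`, `b ^ q ∣ b * x i ^ q`, so
`x i = b ε i` with orthogonal idempotents `ε i` of sum `1`, `𝔭 i = (1 - ε i)`. Some `ε = ε i ∉ 𝔫`
maps to `1` in `R`; `z' = ε z + (1 - ε)`. If `a / b` is integral over `R` of degree `m`, clear
denominators so that `ε a / b'` is integral over `T`, and use `c = b' ^ m`. -/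
theorem SFRi.normal {p : ℕ} {T R : Type} [CommRing T] [IsNoetherianRing T] [IsReduced T]
    {𝔡 𝔞 : Ideal T} {r : ℕ} {t : ℝ≥0} (h : SFRi p 𝔡 r 𝔞 t) (𝔫 : Ideal T) [𝔫.IsPrime]
    [CommRing R] [Algebra T R] [IsLocalization.AtPrime R 𝔫] :
    IsDomain R ∧ IsIntegrallyClosed R ∧
      ∀ z : T, algebraMap T R z ≠ 0 → ∃ z' ∈ T⁰, algebraMap T R z' = algebraMap T R z := by
  have hd : ∀ a b c : T, c ∈ T⁰ → (∀ q : ℕ, b ^ q ∣ c * a ^ q) → b ∣ a :=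
    fun a b c hc hab => h.dvd_of_pow hc hab
  obtain ⟨ε, hε, hn, hpr⟩ := norm_idem hd 𝔫
  have h𝔫 : 𝔫.IsPrime := inferInstance
  have hker : ∀ u : T, algebraMap T R u = 0 ↔ u * ε = 0 := by
    intro u
    rw [IsLocalization.map_eq_zero_iff 𝔫.primeCompl]
    constructor
    · rintro ⟨c, hc⟩
      refine (hpr c u (by rw [hc, zero_mul])).resolve_left fun h0 => ?_
      have : (c : T) * ε ∈ 𝔫 := h0 ▸ 𝔫.zero_mem
      exact (h𝔫.mem_or_mem this).elim c.2 hn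
    · intro h0
      exact ⟨⟨ε, hn⟩, by rw [mul_comm]; exact h0⟩
  have hε1 : algebraMap T R ε = 1 := by
    have := (hker (ε - 1)).2 (by linear_combination hε)
    rwa [map_sub, map_one, sub_eq_zero] at this
  have hloc := IsLocalization.AtPrime.isLocalRing R 𝔫
  have hnz : NoZeroDivisors R := ⟨fun {x y} hxy => by
    obtain ⟨u, s, rfl⟩ := IsLocalization.exists_mk'_eq 𝔫.primeCompl x
    obtain ⟨v, s', rfl⟩ := IsLocalization.exists_mk'_eq 𝔫.primeCompl y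
    rw [← IsLocalization.mk'_mul, IsLocalization.mk'_eq_zero_iff,
      ← IsLocalization.map_eq_zero_iff 𝔫.primeCompl R, hker] at hxy
    rw [IsLocalization.mk'_eq_zero_iff, IsLocalization.mk'_eq_zero_iff,
      ← IsLocalization.map_eq_zero_iff 𝔫.primeCompl R,
      ← IsLocalization.map_eq_zero_iff 𝔫.primeCompl R, hker, hker]
    exact hpr u v hxy⟩
  have hdom : IsDomain R := NoZeroDivisors.to_isDomain R
  have hreg : ∀ z : T, algebraMap T R z ≠ 0 → ∃ z' ∈ T⁰, algebraMap T R z' = algebraMap T R z := by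
    intro z hz
    refine ⟨ε * z + (1 - ε), mem_nonZeroDivisors_iff_left.2 fun w hw => ?_, ?_⟩
    · have h1 : z * w * ε = 0 := by linear_combination ε * hw + (w - z * w) * hε
      have h2 : w * ε = 0 := (hpr z w h1).resolve_left fun h0 => hz ((hker z).2 h0)
      linear_combination hw + h2 - h1
    · simp [hε1]
  refine ⟨hdom, ?_, hreg⟩
  rw [isIntegrallyClosed_iff (FractionRing R)]
  intro x hx
  obtain ⟨s, hs⟩ := IsIntegral.exists_multiple_integral_of_isLocalization 𝔫.primeCompl x hx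
  have hinj : Function.Injective (algebraMap R (FractionRing R)) := IsFractionRing.injective _ _
  have hab : ∃ a : T, ∃ b ∈ T⁰, algebraMap T R b ≠ 0 ∧
      b • (s • x) = algebraMap T (FractionRing R) a := by
    obtain ⟨a, b, hb, hx'⟩ := IsFractionRing.div_surjective (A := R) (s • x)
    obtain ⟨⟨a₁, s₁⟩, ha₁⟩ := IsLocalization.surj 𝔫.primeCompl a
    obtain ⟨⟨b₁, s₂⟩, hb₁⟩ := IsLocalization.surj 𝔫.primeCompl b
    simp only at ha₁ hb₁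
    have hb0 : b ≠ 0 := nonZeroDivisors.ne_zero hb
    have hz : algebraMap T R (b₁ * s₁) ≠ 0 := by
      rw [map_mul, ← hb₁]
      exact mul_ne_zero (mul_ne_zero hb0 (IsLocalization.map_units R s₂).ne_zero)
        (IsLocalization.map_units R s₁).ne_zero
    obtain ⟨z, hz1, hz2⟩ := hreg _ hz
    refine ⟨a₁ * s₂, z, hz1, hz2 ▸ hz, ?_⟩
    have hbK : algebraMap R (FractionRing R) b ≠ 0 := by
      rwa [Ne, map_eq_zero_iff _ hinj]
    rw [← hx', Algebra.smul_def, IsScalarTower.algebraMap_apply T R (FractionRing R), hz2,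
      IsScalarTower.algebraMap_apply T R (FractionRing R), map_mul, map_mul (algebraMap T R),
      ← hb₁, ← ha₁]
    simp only [map_mul]
    field_simp
  obtain ⟨a, b, hb, hb0, hab⟩ := hab
  obtain ⟨c, hc, hq⟩ := hs.isAlmostIntegral_of_exists_smul_mem_range ⟨b, hb, ⟨a, hab.symm⟩⟩
  have hdvd : b ∣ ε * a := by
    refine hd _ _ c hc fun q => ?_
    rcases q with _ | q
    · simp
    · obtain ⟨y, hy⟩ := hq (q + 1)
      have h1 : algebraMap T (FractionRing R) (c * a ^ (q + 1) - b ^ (q + 1) * y) = 0 := by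
        rw [map_sub, map_mul, map_mul, map_pow, map_pow, hy, ← hab, Algebra.smul_def,
          Algebra.smul_def c, mul_pow]
        ring
      rw [IsScalarTower.algebraMap_apply T R (FractionRing R), map_eq_zero_iff _ hinj, hker] at h1
      have h2 : ε ^ (q + 1) = ε := IsIdempotentElem.pow_succ_eq q hε
      refine ⟨y * ε, ?_⟩
      rw [mul_pow, h2]
      linear_combination h1
  obtain ⟨y, hy⟩ := hdvd
  have hbK : algebraMap T (FractionRing R) b ≠ 0 := by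
    rwa [IsScalarTower.algebraMap_apply T R (FractionRing R), Ne, map_eq_zero_iff _ hinj]
  have h3 : s • x = algebraMap T (FractionRing R) y := by
    apply mul_left_cancel₀ hbK
    rw [← Algebra.smul_def, hab, ← map_mul, ← hy, map_mul,
      IsScalarTower.algebraMap_apply T R (FractionRing R) ε, hε1, map_one, one_mul]
  obtain ⟨u, hu⟩ := IsLocalization.map_units R s
  refine ⟨(u⁻¹ : Rˣ) * algebraMap T R y, ?_⟩
  rw [map_mul, ← IsScalarTower.algebraMap_apply, ← h3, Submonoid.smul_def, Algebra.smul_def,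
    IsScalarTower.algebraMap_apply T R (FractionRing R), ← hu, ← mul_assoc, ← map_mul]
  simp

end

end Pool.Agent.Lib.MP_4287a9_ag
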