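import Pool.Agent.Lib.MP_4287a9_ag.D1

/-!
Basic properties of the maps `IsCart`.
-/

open scoped TensorProduct ENNReal NNReal nonZeroDivisors Polynomial
open Filter

namespace Pool.Agent.Lib.MP_4287a9_ag

noncomputable section

private lemma P1a_dvd {r q q' : ℕ} (hq : 0 < q) (hq' : 0 < q') (hr : r ∣ q - 1)
    (hr' : r ∣ q' - 1) : r ∣ q * q' - 1 := by
  obtain ⟨Q, hQ⟩ := hr
  obtain ⟨Q', hQ'⟩ := hr'
  have e1 : q = r * Q + 1 := by omega
  have e2 : q' = r * Q' + 1 := by omega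
  refine ⟨Q * q' + Q', ?_⟩
  have : q * q' = r * (Q * q' + Q') + 1 := by
    rw [e1, e2]
    ring
  omega

/-- Composition. With `Q = (q-1)/r`, `Q' = (q'-1)/r` one has `(q q' - 1)/r = q' Q + Q'`.
If `y 𝔡 ^ (q' Q + Q') ⊆ (z ^ (q q'))` and `d ∈ 𝔡 ^ Q`, then `y d ^ q' 𝔡 ^ Q' ⊆ ((z ^ q) ^ q')`,
so `z ^ q ∣ φ' (d ^ q' y) = d φ' y`, so `z ∣ φ (φ' y)`. -/
theorem IsCart.comp {R : Type} [CommRing R] {𝔡 : Ideal R} {r q q' : ℕ} {φ φ' : R →+ R}
    (hq : 0 < q) (hq' : 0 < q') (hr : r ∣ q - 1) (hr' : r ∣ q' - 1)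
    (h : IsCart 𝔡 r q φ) (h' : IsCart 𝔡 r q' φ') : IsCart 𝔡 r (q * q') (φ.comp φ') := by
  have hle : (q * q' - 1) / r ≤ (q - 1) / r * q' + (q' - 1) / r := by
    rcases Nat.eq_zero_or_pos r with rfl | hr0
    · simp
    · obtain ⟨Q, hQ⟩ := hr
      obtain ⟨Q', hQ'⟩ := hr'
      have e1 : q = r * Q + 1 := by omega
      have e2 : q' = r * Q' + 1 := by omega
      have e3 : q * q' - 1 = r * (Q * q' + Q') := by
        have : q * q' = r * (Q * q' + Q') + 1 := by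
          rw [e1, e2]
          ring
        omega
      rw [e3, hQ, hQ', Nat.mul_div_cancel_left _ hr0, Nat.mul_div_cancel_left _ hr0,
        Nat.mul_div_cancel_left _ hr0]
  refine ⟨fun w y => ?_, fun z hz y hy => ?_⟩
  · simp only [AddMonoidHom.coe_comp, Function.comp_apply]
    rw [pow_mul, h'.lin, h.lin]
  · simp only [AddMonoidHom.coe_comp, Function.comp_apply]
    refine h.div z hz _ fun d hd => ?_
    rw [mul_comm, ← h'.lin]
    refine h'.div _ (pow_mem hz q) _ fun d' hd' => ?_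
    have h1 : d ^ q' * d' ∈ 𝔡 ^ ((q * q' - 1) / r) := by
      refine Ideal.pow_le_pow_right hle ?_
      rw [pow_add, pow_mul]
      exact Ideal.mul_mem_mul (Ideal.pow_mem_pow hd q') hd'
    have h2 := hy _ h1
    rw [← pow_mul]
    convert h2 using 1
    ring

theorem IsCart.mono {R : Type} [CommRing R] {𝔡 𝔡' : Ideal R} {r q : ℕ} {φ : R →+ R}
    (hd : 𝔡 ≤ 𝔡') (h : IsCart 𝔡 r q φ) : IsCart 𝔡' r q φ := by
  exact ⟨h.lin, fun z hz y hy => h.div z hz y fun d hd' => hy d (Ideal.pow_right_mono hd _ hd')⟩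

theorem SFRi.mono {p : ℕ} {R : Type} [CommRing R] {𝔡 𝔡' 𝔞 𝔞' : Ideal R} {r : ℕ} {t : ℝ≥0}
    (hd : 𝔡 ≤ 𝔡') (ha : 𝔞 ≤ 𝔞') (h : SFRi p 𝔡 r 𝔞 t) : SFRi p 𝔡' r 𝔞' t := by
  intro c hc
  obtain ⟨e, he, hr, a, ha', φ, hφ, h1⟩ := h c hc
  exact ⟨e, he, hr, a, Ideal.pow_right_mono ha _ ha', φ, hφ.mono hd, h1⟩

theorem SFRi.top {p : ℕ} {R : Type} [CommRing R] {𝔡 𝔞 : Ideal R} {r : ℕ} {t : ℝ≥0}
    (h : SFRi p 𝔡 r 𝔞 t) : SFRi p 𝔡 r ⊤ 0 := by
  intro c hc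
  obtain ⟨e, he, hr, a, -, φ, hφ, h1⟩ := h c hc
  exact ⟨e, he, hr, a, by rw [Ideal.top_pow]; trivial, φ, hφ, h1⟩

/-- If `φ a` is a unit with `a ∈ 𝔞 ^ ⌈t q⌉`, rescale (`w * φ y = φ (w ^ q * y)`) to `φ a' = 1`.
Given `c`, take `φ₀ (c a₀) = 1` at level `q₀`. Then `φ (φ₀ (a' ^ q₀ c a₀)) = 1` at level `q q₀`
and `⌈t q⌉ q₀ ≥ ⌈t (q q₀ - 1)⌉`. -/
theorem stepA {p : ℕ} (hp : 0 < p) {R : Type} [CommRing R] [IsLocalRing R] {𝔡 𝔞 : Ideal R}
    {r : ℕ} {t : ℝ≥0} (h0 : SFRi p 𝔡 r ⊤ 0) (ht : ¬ SFRi p 𝔡 r 𝔞 t) {e : ℕ}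
    (he : r ∣ p ^ e - 1) : 𝔞 ^ ⌈(t : ℝ) * (p : ℝ) ^ e⌉₊ ≤ Isp 𝔡 r (p ^ e) := by
  intro a ha
  by_contra hcon
  apply ht
  rw [mem_Isp] at hcon
  push Not at hcon
  obtain ⟨φ, hφ, hu⟩ := hcon
  obtain ⟨v, hv⟩ := (IsLocalRing.notMem_maximalIdeal.1 hu).exists_left_inv
  have ha' : v ^ p ^ e * a ∈ 𝔞 ^ ⌈(t : ℝ) * (p : ℝ) ^ e⌉₊ := Ideal.mul_mem_left _ _ ha
  have h1 : φ (v ^ p ^ e * a) = 1 := by rw [hφ.lin, hv]
  intro c hc
  obtain ⟨e₀, he₀, hr₀, a₀, -, φ₀, hφ₀, h₀⟩ := h0 c hc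
  refine ⟨e + e₀, by omega, ?_, (v ^ p ^ e * a) ^ p ^ e₀ * a₀, ?_, φ.comp φ₀, ?_, ?_⟩
  · rw [pow_add]
    exact P1a_dvd (pow_pos hp _) (pow_pos hp _) he hr₀
  · refine Ideal.mul_mem_right _ _ (Ideal.pow_le_pow_right
      (m := ⌈(t : ℝ) * ((p : ℝ) ^ (e + e₀) - 1)⌉₊)
      (n := ⌈(t : ℝ) * (p : ℝ) ^ e⌉₊ * p ^ e₀) ?_ ?_)
    · refine Nat.ceil_le.2 ?_
      have a1 := Nat.le_ceil ((t : ℝ) * (p : ℝ) ^ e)
      have a2 : (0 : ℝ) ≤ (p : ℝ) ^ e₀ := by positivity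
      have a3 := mul_le_mul_of_nonneg_right a1 a2
      have a4 : (0 : ℝ) ≤ t := t.2
      push_cast
      rw [pow_add]
      nlinarith
    · rw [pow_mul]
      exact Ideal.pow_mem_pow ha' _
  · rw [pow_add]
    exact IsCart.comp (pow_pos hp _) (pow_pos hp _) he hr₀ hφ hφ₀
  · simp only [AddMonoidHom.coe_comp, Function.comp_apply]
    rw [mul_left_comm, hφ₀.lin, h₀, mul_one, h1]

/-- Iterate the map `y ↦ φ (a y)` obtained for `c = 1`: at level `q ^ m` the exponent is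
`⌈t (q - 1)⌉ (1 + q + ... + q ^ (m - 1)) ≥ ⌈t (q ^ m - 1)⌉`. -/
theorem pure_iter {p : ℕ} (hp : 0 < p) {R : Type} [CommRing R] {𝔡 𝔞 : Ideal R} {r : ℕ}
    {t : ℝ≥0} (h : SFRi p 𝔡 r 𝔞 t) (E : ℕ) : ∃ e : ℕ, E ≤ e ∧ r ∣ p ^ e - 1 ∧
      ∃ a ∈ 𝔞 ^ ⌈(t : ℝ) * ((p : ℝ) ^ e - 1)⌉₊, ∃ φ : R →+ R, IsCart 𝔡 r (p ^ e) φ ∧ φ a = 1 := by
  obtain ⟨e, he, hr, a, ha, φ, hφ, h1⟩ := h 1 (one_mem _)
  rw [one_mul] at h1
  have key : ∀ m : ℕ, r ∣ p ^ (e * (m + 1)) - 1 ∧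
      ∃ a ∈ 𝔞 ^ ⌈(t : ℝ) * ((p : ℝ) ^ (e * (m + 1)) - 1)⌉₊, ∃ φ : R →+ R,
        IsCart 𝔡 r (p ^ (e * (m + 1))) φ ∧ φ a = 1 := by
    intro m
    induction m with
    | zero =>
      rw [zero_add, mul_one]
      exact ⟨hr, a, ha, φ, hφ, h1⟩
    | succ m ih =>
      obtain ⟨hr', a', ha', φ', hφ', h1'⟩ := ih
      have e1 : e * (m + 1 + 1) = e * (m + 1) + e := by ring
      rw [e1]
      generalize e * (m + 1) = f at *
      refine ⟨?_, a' ^ p ^ e * a, ?_, φ'.comp φ, ?_, ?_⟩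
      · rw [pow_add]
        exact P1a_dvd (pow_pos hp _) (pow_pos hp _) hr' hr
      · refine Ideal.pow_le_pow_right (m := ⌈(t : ℝ) * ((p : ℝ) ^ (f + e) - 1)⌉₊)
          (n := ⌈(t : ℝ) * ((p : ℝ) ^ f - 1)⌉₊ * p ^ e + ⌈(t : ℝ) * ((p : ℝ) ^ e - 1)⌉₊) ?_ ?_
        · refine Nat.ceil_le.2 ?_
          have a1 := Nat.le_ceil ((t : ℝ) * ((p : ℝ) ^ f - 1))
          have a2 : (0 : ℝ) ≤ (p : ℝ) ^ e := by positivity
          have a3 := mul_le_mul_of_nonneg_right a1 a2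
          have a4 := Nat.le_ceil ((t : ℝ) * ((p : ℝ) ^ e - 1))
          push_cast
          rw [pow_add]
          nlinarith
        · rw [pow_add, pow_mul]
          exact Ideal.mul_mem_mul (Ideal.pow_mem_pow ha' _) ha
      · rw [pow_add]
        exact IsCart.comp (pow_pos hp _) (pow_pos hp _) hr' hr hφ' hφ
      · simp only [AddMonoidHom.coe_comp, Function.comp_apply]
        rw [hφ.lin, h1, mul_one, h1']
  exact ⟨e * (E + 1), by nlinarith, key E⟩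

/-- `y ↦ Θ (y ^ q' w)`. For the divisibility: `𝔡 ^ (q' Q)` is spanned by products of `q'`
elements `d i` of `𝔡 ^ Q`, and `y ^ q' ∏ d i = ∏ (y d i)`; also `q' Q ≤ (q q' - 1) / r`. -/
theorem IsCart.theta {p : ℕ} [Fact p.Prime] {R : Type} [CommRing R] [CharP R p] {𝔡 : Ideal R}
    {r e e' : ℕ} {Θ : R →+ R} (h : IsCart 𝔡 r (p ^ (e + e')) Θ) (w : R) :
    ∃ φ : R →+ R, IsCart 𝔡 r (p ^ e) φ ∧ ∀ y, φ y = Θ (y ^ p ^ e' * w) := by
  have hp : 0 < p := (Fact.out : p.Prime).pos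
  refine ⟨AddMonoidHom.mk' (fun y => Θ (y ^ p ^ e' * w)) fun a b => ?_, ⟨fun v y => ?_, ?_⟩,
    fun y => rfl⟩
  · rw [add_pow_char_pow, add_mul, map_add]
  · simp only [AddMonoidHom.mk'_apply]
    rw [mul_pow, ← pow_mul, ← pow_add, mul_assoc, h.lin]
  · intro z hz y hy
    simp only [AddMonoidHom.mk'_apply]
    refine h.div z hz _ fun d hd => ?_
    have hle : (p ^ e - 1) / r * p ^ e' ≤ (p ^ (e + e') - 1) / r := by
      rcases Nat.eq_zero_or_pos r with rfl | hr0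
      · simp
      · rw [Nat.le_div_iff_mul_le hr0, pow_add]
        have a1 := Nat.div_mul_le_self (p ^ e - 1) r
        have a2 : 0 < p ^ e := pow_pos hp _
        have a3 : 0 < p ^ e' := pow_pos hp _
        generalize p ^ e = q at *
        generalize p ^ e' = q' at *
        obtain ⟨q, rfl⟩ : ∃ n, q = n + 1 := ⟨q - 1, by omega⟩
        rw [Nat.add_sub_cancel] at a1
        have a4 : q / r * q' * r ≤ q * q' := by
          rw [mul_right_comm]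
          exact Nat.mul_le_mul_right _ a1
        have a5 : (q + 1) * q' = q * q' + q' := by ring
        rw [Nat.add_sub_cancel]
        omega
    have hd' : d ∈ (𝔡 ^ ((p ^ e - 1) / r)) ^ p ^ e' := by
      rw [← pow_mul]
      exact Ideal.pow_le_pow_right hle hd
    have h1 : Ideal.span {y} * 𝔡 ^ ((p ^ e - 1) / r) ≤ Ideal.span {z ^ p ^ e} := by
      rw [Ideal.span_singleton_mul_le_iff]
      intro x hx
      exact Ideal.mem_span_singleton.2 (hy x hx)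
    have h2 := Ideal.pow_right_mono h1 (p ^ e')
    rw [mul_pow, Ideal.span_singleton_pow, Ideal.span_singleton_pow] at h2
    have h3 := Ideal.mem_span_singleton.1
      (h2 (Ideal.mul_mem_mul (Ideal.mem_span_singleton_self _) hd'))
    rw [pow_add, pow_mul, mul_right_comm]
    exact h3.mul_right w

theorem fpow_le_Isp {R : Type} [CommRing R] [IsLocalRing R] (𝔡 : Ideal R) (r q : ℕ) :
    fpow (IsLocalRing.maximalIdeal R) q ≤ Isp 𝔡 r q := by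
  refine Ideal.span_le.2 ?_
  rintro _ ⟨x, hx, rfl⟩ φ hφ
  have := hφ.lin x 1
  rw [mul_one] at this
  change φ (x ^ q) ∈ _
  rw [this]
  exact Ideal.mul_mem_right _ _ hx

/-- Extension of a `q⁻¹`-linear map to a localization: `φ' (y / s) = φ (y s ^ (q - 1)) / s`. -/
theorem exists_ext_loc {R R' : Type} [CommRing R] [CommRing R'] [Algebra R R'] (M : Submonoid R)
    [IsLocalization M R'] {q : ℕ} (hq : 0 < q) (φ : R →+ R)
    (hφ : ∀ w y, φ (w ^ q * y) = w * φ y) :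
    ∃ φ' : R' →+ R', (∀ w y, φ' (w ^ q * y) = w * φ' y) ∧
      ∀ y, φ' (algebraMap R R' y) = algebraMap R R' (φ y) := by
  obtain ⟨n, rfl⟩ : ∃ n, q = n + 1 := ⟨q - 1, by omega⟩
  have hex : ∀ x : R', ∃ (y : R) (s : M),
      algebraMap R R' s ^ (n + 1) * x = algebraMap R R' y := by
    intro x
    obtain ⟨⟨y, s⟩, hs⟩ := IsLocalization.surj M x
    refine ⟨s ^ n * y, s, ?_⟩
    rw [map_mul, map_pow, ← hs]
    ring
  have hF : ∀ x : R', ∃ x' : R', ∀ (y : R) (s : M),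
      algebraMap R R' s ^ (n + 1) * x = algebraMap R R' y →
        algebraMap R R' s * x' = algebraMap R R' (φ y) := by
    intro x
    obtain ⟨y₀, s₀, h₀⟩ := hex x
    refine ⟨IsLocalization.mk' R' (φ y₀) s₀, fun y s hs => ?_⟩
    have h1 : algebraMap R R' ((s : R) ^ (n + 1) * y₀) =
        algebraMap R R' ((s₀ : R) ^ (n + 1) * y) := by
      rw [map_mul, map_mul, map_pow, map_pow, ← h₀, ← hs]
      ring
    obtain ⟨c, hc⟩ := (IsLocalization.eq_iff_exists M R').1 h1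
    have h2 : ((c : R) * s) ^ (n + 1) * y₀ = ((c : R) * s₀) ^ (n + 1) * y := by
      linear_combination (c : R) ^ n * hc
    have h3 := congrArg φ h2
    rw [hφ, hφ] at h3
    have h4 := congrArg (algebraMap R R') h3
    simp only [map_mul] at h4
    have h5 := IsLocalization.mk'_spec' R' (φ y₀) s₀
    refine ((IsLocalization.map_units R' c).mul (IsLocalization.map_units R' s₀)).mul_left_cancel ?_
    rw [← h4, ← h5]
    ring
  choose F hF using hF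
  refine ⟨AddMonoidHom.mk' F fun a b => ?_, fun w x => ?_, fun y => ?_⟩
  · obtain ⟨y₁, s₁, h₁⟩ := hex a
    obtain ⟨y₂, s₂, h₂⟩ := hex b
    have h3 := hF (a + b) ((s₂ : R) ^ (n + 1) * y₁ + (s₁ : R) ^ (n + 1) * y₂) (s₁ * s₂) (by
      simp only [Submonoid.coe_mul, map_mul, map_add, map_pow]
      rw [← h₁, ← h₂]
      ring)
    refine (IsLocalization.map_units R' (s₁ * s₂)).mul_left_cancel ?_
    rw [h3, map_add φ, hφ, hφ]
    simp only [Submonoid.coe_mul, map_mul, map_add]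
    rw [← hF a y₁ s₁ h₁, ← hF b y₂ s₂ h₂]
    ring
  · simp only [AddMonoidHom.mk'_apply]
    obtain ⟨y₁, s₁, h₁⟩ := hex x
    obtain ⟨⟨a, s⟩, hs⟩ := IsLocalization.surj M w
    have h3 := hF (w ^ (n + 1) * x) (a ^ (n + 1) * y₁) (s * s₁) (by
      simp only [Submonoid.coe_mul, map_mul, map_pow]
      rw [← h₁, ← hs]
      ring)
    refine (IsLocalization.map_units R' (s * s₁)).mul_left_cancel ?_
    rw [h3, hφ]
    simp only [Submonoid.coe_mul, map_mul]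
    rw [← hF x y₁ s₁ h₁, ← hs]
    ring
  · simp only [AddMonoidHom.mk'_apply]
    have := hF (algebraMap R R' y) y 1 (by simp)
    simpa using this

end

end Pool.Agent.Lib.MP_4287a9_ag
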