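import Pool.Agent.Lib.MP_4287a9_ag.D1

/-!
Stability of the splitting ideal under infinitesimal shifts, and Taylor expansion.
-/

open scoped TensorProduct ENNReal NNReal nonZeroDivisors Polynomial
open Filter

namespace Pool.Agent.Lib.MP_4287a9_ag

noncomputable section

/-- the coefficient of `s ^ i` -/
def P1b_co (R : Type) [CommRing R] (q i : ℕ) : AdjoinRoot ((Polynomial.X : R[X]) ^ q) →ₗ[R] R :=
  (Polynomial.lcoeff R i).comp (AdjoinRoot.modByMonicHom (Polynomial.monic_X_pow q))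

theorem P1b_co_mk {R : Type} [CommRing R] {q i : ℕ} (hi : i < q) (f : R[X]) :
    P1b_co R q i (AdjoinRoot.mk _ f) = f.coeff i := by
  show (f %ₘ (Polynomial.X ^ q)).coeff i = f.coeff i
  rw [Polynomial.modByMonic_eq_sub_mul_div, Polynomial.coeff_sub, Polynomial.coeff_X_pow_mul',
    if_neg (not_le.2 hi), sub_zero]

theorem P1b_co_mul {R : Type} [CommRing R] {q : ℕ} (i : ℕ) (a : R)
    (u : AdjoinRoot ((Polynomial.X : R[X]) ^ q)) :
    P1b_co R q i (AdjoinRoot.of _ a * u) = a * P1b_co R q i u := by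
  rw [← AdjoinRoot.algebraMap_eq, ← Algebra.smul_def, map_smul, smul_eq_mul]

theorem P1b_mem_iff {R : Type} [CommRing R] {q : ℕ} (I : Ideal R)
    (u : AdjoinRoot ((Polynomial.X : R[X]) ^ q)) :
    u ∈ I.map (AdjoinRoot.of ((Polynomial.X : R[X]) ^ q)) ↔ ∀ i < q, P1b_co R q i u ∈ I := by
  have e : I.map (AdjoinRoot.of ((Polynomial.X : R[X]) ^ q)) =
      (I.map (Polynomial.C : R →+* R[X])).map (AdjoinRoot.mk _) := by
    rw [Ideal.map_map]
    rfl
  rw [e, Ideal.mem_map_iff_of_surjective _ AdjoinRoot.mk_surjective]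
  constructor
  · rintro ⟨f, hf, rfl⟩ i hi
    rw [P1b_co_mk hi]
    exact Ideal.mem_map_C_iff.1 hf i
  · intro h
    obtain ⟨f, rfl⟩ := AdjoinRoot.mk_surjective u
    have hc : ∀ i, (∑ j ∈ Finset.range q, Polynomial.monomial j (f.coeff j)).coeff i =
        if i ∈ Finset.range q then f.coeff i else 0 := by
      intro i
      rw [Polynomial.finsetSum_coeff]
      simp only [Polynomial.coeff_monomial]
      rw [Finset.sum_ite_eq']
    refine ⟨∑ j ∈ Finset.range q, Polynomial.monomial j (f.coeff j),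
      Ideal.mem_map_C_iff.2 fun i => ?_, ?_⟩
    · rw [hc]
      split_ifs with hi
      · rw [← P1b_co_mk (Finset.mem_range.1 hi)]
        exact h i (Finset.mem_range.1 hi)
      · exact zero_mem _
    · rw [AdjoinRoot.mk_eq_mk, Polynomial.X_pow_dvd_iff]
      intro i hi
      rw [Polynomial.coeff_sub, hc, if_pos (Finset.mem_range.2 hi), sub_self]

theorem P1b_root_pow {R : Type} [CommRing R] (q : ℕ) :
    AdjoinRoot.root ((Polynomial.X : R[X]) ^ q) ^ q = 0 := by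
  rw [← AdjoinRoot.mk_X, ← map_pow, AdjoinRoot.mk_self]

theorem P1b_psi_pow {p : ℕ} [Fact p.Prime] {R : Type} [CommRing R] [CharP R p] (e : ℕ)
    (ψ : R →+* AdjoinRoot ((Polynomial.X : R[X]) ^ p ^ e)) {γ : R}
    (hψ : ∀ y, ψ y - AdjoinRoot.of _ y ∈
      Ideal.span {AdjoinRoot.of ((Polynomial.X : R[X]) ^ p ^ e) γ * AdjoinRoot.root _}) (w : R) :
    ψ (w ^ p ^ e) = AdjoinRoot.of _ (w ^ p ^ e) := by
  have hq : 0 < p ^ e := pow_pos (Fact.out : p.Prime).pos e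
  have hinj : Function.Injective (AdjoinRoot.of ((Polynomial.X : R[X]) ^ p ^ e)) := by
    intro a b hab
    have h1 := congrArg (P1b_co R (p ^ e) 0) hab
    rwa [← AdjoinRoot.mk_C, ← AdjoinRoot.mk_C, P1b_co_mk hq, P1b_co_mk hq, Polynomial.coeff_C_zero,
      Polynomial.coeff_C_zero] at h1
  have := charP_of_injective_ringHom hinj p
  obtain ⟨u, hu⟩ := Ideal.mem_span_singleton'.1 (hψ w)
  rw [map_pow, map_pow, ← sub_add_cancel (ψ w) (AdjoinRoot.of _ w), ← hu, add_pow_char_pow,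
    mul_pow, mul_pow, P1b_root_pow, mul_zero, mul_zero, zero_add]

theorem P1b_map_le {R : Type} [CommRing R] {q : ℕ} (𝔡 : Ideal R)
    (ψ : R →+* AdjoinRoot ((Polynomial.X : R[X]) ^ q)) {γ : R} (hγ : γ ∈ 𝔡)
    (hψ : ∀ y, ψ y - AdjoinRoot.of _ y ∈
      Ideal.span {AdjoinRoot.of ((Polynomial.X : R[X]) ^ q) γ * AdjoinRoot.root _}) :
    𝔡.map (AdjoinRoot.of ((Polynomial.X : R[X]) ^ q)) ≤ 𝔡.map ψ := by
  set D := 𝔡.map (AdjoinRoot.of ((Polynomial.X : R[X]) ^ q)) with hD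
  set S := Ideal.span {AdjoinRoot.root ((Polynomial.X : R[X]) ^ q)} with hS
  have h1 : D ≤ 𝔡.map ψ ⊔ D * S := by
    refine Ideal.map_le_iff_le_comap.2 fun d hd => ?_
    rw [Ideal.mem_comap, ← sub_sub_cancel (ψ d) (AdjoinRoot.of _ d)]
    refine sub_mem (Ideal.mem_sup_left (Ideal.mem_map_of_mem _ hd)) (Ideal.mem_sup_right ?_)
    refine (Ideal.span_singleton_le_iff_mem _).2 ?_ (hψ d)
    exact Ideal.mul_mem_mul (Ideal.mem_map_of_mem _ hγ) (Ideal.mem_span_singleton_self _)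
  have h2 : ∀ m : ℕ, D ≤ 𝔡.map ψ ⊔ D * S ^ m := by
    intro m
    induction m with
    | zero =>
      rw [pow_zero, mul_one]
      exact le_sup_right
    | succ m ih =>
      refine ih.trans (sup_le le_sup_left ((Ideal.mul_mono_left h1).trans ?_))
      rw [Ideal.sup_mul, mul_assoc, ← pow_succ']
      exact sup_le_sup_right Ideal.mul_le_left _
  have h3 := h2 q
  rwa [hS, Ideal.span_singleton_pow, P1b_root_pow, Ideal.span_singleton_zero, Ideal.mul_bot,
    sup_bot_eq] at h3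

/-- Let `E = R[s]/(s ^ q)` with basis `s ^ i` (`i < q`). For `φ` with `IsCart`, the map
`y ↦ φ (coeff i (ψ y))` is again `IsCart`: `ψ (w ^ q) = w ^ q` since `s ^ q = 0` in
characteristic `p`, and `𝔡 E = ψ(𝔡) E` (because `𝔡 E ⊆ ψ(𝔡) E + s 𝔡 E` and `s` is nilpotent), so
`y 𝔡 ^ Q ⊆ (z ^ q)` gives `ψ(y) 𝔡 ^ Q ⊆ z ^ q E`, then compare coefficients. Hence all
coefficients of `ψ h` are in `I` for `h ∈ I`, and the statement for powers follows. -/
theorem psi_stable {p : ℕ} [Fact p.Prime] {R : Type} [CommRing R] [IsLocalRing R] [CharP R p]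
    (𝔡 : Ideal R) (r e k : ℕ) (ψ : R →+* AdjoinRoot ((Polynomial.X : R[X]) ^ p ^ e)) {γ : R}
    (hγ : γ ∈ 𝔡) (hψ : ∀ y, ψ y - AdjoinRoot.of _ y ∈
      Ideal.span {AdjoinRoot.of ((Polynomial.X : R[X]) ^ p ^ e) γ * AdjoinRoot.root _})
    {h : R} (hh : h ∈ Isp 𝔡 r (p ^ e) ^ k) :
    ψ h ∈ (Isp 𝔡 r (p ^ e) ^ k).map (AdjoinRoot.of ((Polynomial.X : R[X]) ^ p ^ e)) := by
  have hpow := P1b_psi_pow e ψ hψ
  have hle : (𝔡 ^ ((p ^ e - 1) / r)).map (AdjoinRoot.of ((Polynomial.X : R[X]) ^ p ^ e)) ≤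
      (𝔡 ^ ((p ^ e - 1) / r)).map ψ := by
    rw [Ideal.map_pow, Ideal.map_pow]
    exact Ideal.pow_right_mono (P1b_map_le 𝔡 ψ hγ hψ) _
  have h1 : (Isp 𝔡 r (p ^ e)).map ψ ≤
      (Isp 𝔡 r (p ^ e)).map (AdjoinRoot.of ((Polynomial.X : R[X]) ^ p ^ e)) := by
    refine Ideal.map_le_iff_le_comap.2 fun f hf => ?_
    rw [Ideal.mem_comap, P1b_mem_iff]
    intro i _
    refine mem_Isp.2 fun φ hφ => ?_
    refine mem_Isp.1 hf (φ.comp ((P1b_co R (p ^ e) i).toAddMonoidHom.comp ψ.toAddMonoidHom))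
      ⟨fun w y => ?_, fun z hz y hy => ?_⟩
    · show φ (P1b_co R (p ^ e) i (ψ (w ^ p ^ e * y))) = w * φ (P1b_co R (p ^ e) i (ψ y))
      rw [map_mul, hpow, P1b_co_mul, hφ.lin]
    · show z ∣ φ (P1b_co R (p ^ e) i (ψ y))
      refine hφ.div z hz _ fun d hd => ?_
      have h2 : (𝔡 ^ ((p ^ e - 1) / r)).map ψ ≤
          (Ideal.span {AdjoinRoot.of ((Polynomial.X : R[X]) ^ p ^ e) (z ^ p ^ e)}).colon {ψ y} := by
        refine Ideal.map_le_iff_le_comap.2 fun d' hd' => ?_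
        obtain ⟨t, ht⟩ := hy d' hd'
        rw [Ideal.mem_comap, Submodule.mem_colon_singleton, smul_eq_mul, ← map_mul, mul_comm, ht,
          map_mul, hpow]
        exact Ideal.mul_mem_right _ _ (Ideal.mem_span_singleton_self _)
      have h3 := h2 (hle (Ideal.mem_map_of_mem _ hd))
      rw [Submodule.mem_colon_singleton, smul_eq_mul] at h3
      obtain ⟨v, hv⟩ := Ideal.mem_span_singleton.1 h3
      refine ⟨P1b_co R (p ^ e) i v, ?_⟩
      rw [mul_comm, ← P1b_co_mul, hv, P1b_co_mul]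
  have h4 := Ideal.mem_map_of_mem ψ hh
  rw [Ideal.map_pow] at h4 ⊢
  exact Ideal.pow_right_mono h1 k h4

/-- One variable. The coefficient of `s ^ l` in `ψ (∑ F j x ^ j) = ∑ F j (x + c s) ^ j` is
`c ^ l T l` with `T l = ∑ j, choose j l * F j * x ^ (j - l)` (Taylor coefficients), and
`F j = ∑ l, choose l j * (-x) ^ (l - j) * T l` (use `Polynomial.taylor`). -/
theorem taylor_one {R : Type} [CommRing R] {q : ℕ} (𝔦 : Ideal R)
    (ψ : R →+* AdjoinRoot ((Polynomial.X : R[X]) ^ q))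
    (hst : ∀ h ∈ 𝔦, ψ h ∈ 𝔦.map (AdjoinRoot.of ((Polynomial.X : R[X]) ^ q))) (c x : R)
    (hx : ψ x = AdjoinRoot.of _ x + AdjoinRoot.of _ c * AdjoinRoot.root _) (F : Fin q → R)
    (hF : ∀ j, ψ (F j) = AdjoinRoot.of _ (F j)) (hmem : ∑ j, F j * x ^ (j : ℕ) ∈ 𝔦) (j : Fin q) :
    c ^ q * F j ∈ 𝔦 := by
  set P : R[X] := ∑ j : Fin q, Polynomial.C (F j) * Polynomial.X ^ (j : ℕ) with hP
  have hdeg : P.degree < q := Polynomial.degree_sum_fin_lt F
  have h1 : ψ (∑ j, F j * x ^ (j : ℕ)) = AdjoinRoot.mk _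
      ((Polynomial.taylor x P).comp (Polynomial.C c * Polynomial.X)) := by
    rw [Polynomial.taylor_apply, Polynomial.comp_assoc, hP, Polynomial.sum_comp, map_sum, map_sum]
    refine Finset.sum_congr rfl fun l _ => ?_
    rw [map_mul, map_pow, hF, hx, Polynomial.mul_comp, Polynomial.C_comp, Polynomial.pow_comp,
      Polynomial.X_comp, Polynomial.add_comp, Polynomial.X_comp, Polynomial.C_comp, map_mul,
      map_pow, map_add, map_mul, AdjoinRoot.mk_C, AdjoinRoot.mk_C, AdjoinRoot.mk_C,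
      AdjoinRoot.mk_X, add_comm]
  have h2 := (P1b_mem_iff 𝔦 _).1 (hst _ hmem)
  have h3 : Polynomial.C (c ^ q) * Polynomial.taylor x P ∈ 𝔦.map (Polynomial.C : R →+* R[X]) := by
    refine Ideal.mem_map_C_iff.2 fun l => ?_
    rw [Polynomial.coeff_C_mul]
    by_cases hl : l < q
    · have h4 := h2 l hl
      rw [h1, P1b_co_mk hl, Polynomial.comp_C_mul_X_coeff] at h4
      obtain ⟨m, hm⟩ := Nat.exists_eq_add_of_le hl.le
      have e : c ^ q = c ^ l * c ^ m := by rw [← pow_add, ← hm]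
      rw [e, mul_comm, ← mul_assoc]
      exact Ideal.mul_mem_right _ _ h4
    · rw [Polynomial.coeff_eq_zero_of_degree_lt (p := Polynomial.taylor x P), mul_zero]
      · exact zero_mem _
      · rw [Polynomial.degree_taylor]
        exact hdeg.trans_le (by exact_mod_cast not_lt.1 hl)
  have h5 := Ideal.mem_map_of_mem (Polynomial.compRingHom (Polynomial.X + Polynomial.C (-x))) h3
  have h6 : (Polynomial.compRingHom (Polynomial.X + Polynomial.C (-x))).comp
      (Polynomial.C : R →+* R[X]) = Polynomial.C := by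
    refine RingHom.ext fun a => ?_
    rw [RingHom.comp_apply, Polynomial.coe_compRingHom_apply, Polynomial.C_comp]
  rw [Ideal.map_map, h6, Polynomial.coe_compRingHom_apply, Polynomial.mul_comp, Polynomial.C_comp,
    ← Polynomial.taylor_apply, Polynomial.taylor_taylor, neg_add_cancel,
    Polynomial.taylor_zero] at h5
  have h7 := Ideal.mem_map_C_iff.1 h5 j
  have h8 : P.coeff j = F j := by
    rw [hP, Polynomial.finsetSum_coeff, Finset.sum_eq_single j]
    · rw [Polynomial.coeff_C_mul_X_pow, if_pos rfl]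
    · intro l _ hl
      rw [Polynomial.coeff_C_mul_X_pow, if_neg fun h => hl (Fin.ext h).symm]
    · intro h
      exact absurd (Finset.mem_univ j) h
  rwa [Polynomial.coeff_C_mul, h8] at h7

theorem P1b_taylor {R : Type} [CommRing R] {q : ℕ} (𝔦 : Ideal R) (c : R) (n : ℕ) :
    ∀ (x : Fin n → R) (ψ : Fin n → R →+* AdjoinRoot ((Polynomial.X : R[X]) ^ q))
      (G : (Fin n → Fin q) → R),
      (∀ i, ∀ h ∈ 𝔦, ψ i h ∈ 𝔦.map (AdjoinRoot.of ((Polynomial.X : R[X]) ^ q))) →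
      (∀ i, ψ i (x i) = AdjoinRoot.of _ (x i) + AdjoinRoot.of _ c * AdjoinRoot.root _) →
      (∀ i j, j ≠ i → ψ i (x j) = AdjoinRoot.of _ (x j)) →
      (∀ i, ψ i (c ^ q) = AdjoinRoot.of _ (c ^ q)) → (∀ i β, ψ i (G β) = AdjoinRoot.of _ (G β)) →
      ∑ β, G β * ∏ i, x i ^ (β i : ℕ) ∈ 𝔦 → ∀ β, (c ^ q) ^ n * G β ∈ 𝔦 := by
  induction n with
  | zero =>
    intro x ψ G _ _ _ _ _ h β
    rw [Fintype.sum_subsingleton _ β, Fin.prod_univ_zero, mul_one] at h
    rwa [pow_zero, one_mul]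
  | succ n ih =>
    intro x ψ G h1 h2 h3 h4 h5 h β
    have e : ∑ β, G β * ∏ i, x i ^ (β i : ℕ) = ∑ j : Fin q, (∑ β' : Fin n → Fin q,
        G (Fin.cons j β') * ∏ i : Fin n, x i.succ ^ (β' i : ℕ)) * x 0 ^ (j : ℕ) := by
      rw [← (Fin.consEquiv fun _ : Fin (n + 1) => Fin q).sum_comp, Fintype.sum_prod_type]
      refine Finset.sum_congr rfl fun j _ => ?_
      rw [Finset.sum_mul]
      refine Finset.sum_congr rfl fun β' _ => ?_
      rw [Fin.prod_univ_succ, mul_assoc, mul_comm (x 0 ^ _)]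
      rfl
    rw [e] at h
    have h6 := taylor_one 𝔦 (ψ 0) (h1 0) c (x 0) (h2 0) _ (fun j => by
      rw [map_sum, map_sum]
      refine Finset.sum_congr rfl fun β' _ => ?_
      rw [map_mul, map_mul, h5, map_prod, map_prod]
      refine congrArg _ (Finset.prod_congr rfl fun i _ => ?_)
      rw [map_pow, map_pow, h3 0 _ (Fin.succ_ne_zero i)]) h (β 0)
    rw [Finset.mul_sum] at h6
    simp only [← mul_assoc] at h6
    have h7 := ih (fun i => x i.succ) (fun i => ψ i.succ) (fun β' => c ^ q * G (Fin.cons (β 0) β'))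
      (fun i => h1 i.succ) (fun i => h2 i.succ)
      (fun i j hj => h3 i.succ j.succ fun h => hj (Fin.succ_injective _ h)) (fun i => h4 i.succ)
      (fun i β' => by rw [map_mul, map_mul, h4, h5]) h6 (Fin.tail β)
    rwa [Fin.cons_self_tail, ← mul_assoc, ← pow_succ] at h7

/-- Apply `taylor_one` one variable at a time to `c ^ q f = ∑ g β ^ q x ^ β` (each shift fixes
`q`-th powers and the other variables) to get `(c ^ n g β) ^ q ∈ I ^ k`. -/
theorem stepC {p : ℕ} [Fact p.Prime] {R : Type} [CommRing R] [IsLocalRing R] [CharP R p]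
    (𝔡 : Ideal R) (r e k : ℕ) {n : ℕ} (c : R) (x : Fin n → R) (h1 : T1 (p ^ e) c x)
    (h2 : ∀ i, T2 𝔡 (p ^ e) c x i) {f : R} (hf : f ∈ Isp 𝔡 r (p ^ e) ^ k) :
    c ^ ((n + 1) * p ^ e) * f ∈
      fpow ((Isp 𝔡 r (p ^ e) ^ k).comap (iterateFrobenius R p e)) (p ^ e) := by
  choose ψ γ hγ hψ hx hx' using h2
  obtain ⟨g, hg⟩ := h1 f
  have h3 := P1b_taylor (Isp 𝔡 r (p ^ e) ^ k) c n x ψ (fun β => g β ^ p ^ e)
    (fun i h hh => psi_stable 𝔡 r e k (ψ i) (hγ i) (hψ i) hh) hx hx'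
    (fun i => P1b_psi_pow e (ψ i) (hψ i) c) (fun i β => P1b_psi_pow e (ψ i) (hψ i) (g β))
    (hg ▸ Ideal.mul_mem_left _ _ hf)
  have e1 : c ^ ((n + 1) * p ^ e) * f = (c ^ p ^ e) ^ n * (c ^ p ^ e * f) := by ring
  rw [e1, hg, Finset.mul_sum]
  refine Ideal.sum_mem _ fun β _ => ?_
  have e2 : (c ^ p ^ e) ^ n * g β ^ p ^ e = (c ^ n * g β) ^ p ^ e := by ring
  rw [← mul_assoc, e2]
  refine Ideal.mul_mem_right _ _ (Ideal.subset_span ⟨c ^ n * g β, ?_, rfl⟩)
  rw [SetLike.mem_coe, Ideal.mem_comap, iterateFrobenius_def, ← e2]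
  exact h3 β

end

end Pool.Agent.Lib.MP_4287a9_ag
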