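import Pool.Agent.Lib.MP_4287a9_ag.D1

/-!
Multiplicity estimates.
-/

open scoped TensorProduct ENNReal NNReal nonZeroDivisors Polynomial
open Filter

namespace Pool.Agent.Lib.MP_4287a9_ag

noncomputable section

theorem mult_le_of_length {A R : Type} [CommRing A] [CommRing R] (n : ℕ) (I : Ideal A)
    (J : Ideal R) (h : ∀ j : ℕ, Module.length A (A ⧸ I ^ j) ≤ Module.length R (R ⧸ J ^ j)) :
    mult n I ≤ mult n J := by
  unfold mult
  refine limsup_le_limsup (Eventually.of_forall fun j => ?_)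
  exact ENNReal.div_le_div_right (mul_le_mul_right (ENat.toENNReal_le.2 (h j)) _) _

theorem P1c_length_mono {R : Type} [CommRing R] {I J : Ideal R} (h : I ≤ J) :
    Module.length R (R ⧸ J) ≤ Module.length R (R ⧸ I) :=
  Module.length_le_of_surjective (Submodule.factor h) (Submodule.factor_surjective h)

theorem P1c_limsup {n q : ℕ} {B : ℝ≥0∞} (hB : B ≠ ⊤) (a : ℕ → ℝ≥0∞)
    (h : ∀ᶠ i : ℕ in atTop, a i ≤ B * ((i + q : ℕ) : ℝ≥0∞) ^ n) :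
    limsup (fun i : ℕ => a i / (i : ℝ≥0∞) ^ n) atTop ≤ B := by
  have h1 : Tendsto (fun i : ℕ => B * (1 + (q : ℝ≥0∞) * (i : ℝ≥0∞)⁻¹) ^ n) atTop (nhds B) := by
    have a1 : Tendsto (fun i : ℕ => (q : ℝ≥0∞) * (i : ℝ≥0∞)⁻¹) atTop (nhds 0) := by
      simpa using ENNReal.Tendsto.const_mul (a := (q : ℝ≥0∞)) ENNReal.tendsto_inv_nat_nhds_zero
        (Or.inr (by simp))
    have a2 := ENNReal.Tendsto.pow (n := n) ((tendsto_const_nhds (x := (1 : ℝ≥0∞))).add a1)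
    simpa using ENNReal.Tendsto.const_mul (a := B) a2 (Or.inr hB)
  rw [← h1.limsup_eq]
  refine limsup_le_limsup ?_
  filter_upwards [h, eventually_ge_atTop 1] with i hi h1
  have b1 : (i : ℝ≥0∞) ≠ 0 := by exact_mod_cast (by omega : i ≠ 0)
  have b2 : (i : ℝ≥0∞) ≠ ⊤ := by simp
  refine ENNReal.div_le_of_le_mul (hi.trans (le_of_eq ?_))
  rw [mul_assoc, ← mul_pow, add_mul, one_mul, mul_assoc, ENNReal.inv_mul_cancel b1 b2, mul_one,
    Nat.cast_add]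

/-- `length (R / 𝔞 ^ j) ≤ length (R / m ^ (L j)) ≤ C (L j) ^ n`. -/
theorem mult_ne_top {R : Type} [CommRing R] {n C L : ℕ} {m 𝔞 : Ideal R} (hL : m ^ L ≤ 𝔞)
    (h : ∀ j : ℕ, Module.length R (R ⧸ m ^ j) ≤ ((C * j ^ n : ℕ) : ℕ∞)) : mult n 𝔞 ≠ ⊤ := by
  have h1 : mult n 𝔞 ≤ ((n.factorial * C * L ^ n : ℕ) : ℝ≥0∞) := by
    refine P1c_limsup (q := 0) (by simp only [ne_eq, ENNReal.natCast_ne_top, not_false_eq_true]) _
      (Eventually.of_forall fun j => ?_)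
    have a1 : m ^ (L * j) ≤ 𝔞 ^ j := by
      rw [pow_mul]
      exact Ideal.pow_right_mono hL j
    have a2 := ENat.toENNReal_le.2 ((P1c_length_mono a1).trans (h (L * j)))
    rw [ENat.toENNReal_coe] at a2
    refine (mul_le_mul_right a2 _).trans (le_of_eq ?_)
    push_cast
    ring
  exact ne_top_of_le_ne_top (ENNReal.natCast_ne_top _) h1

theorem P1c_length_step {R : Type} [CommRing R] (c : R) (𝔟 𝔪 : Ideal R) :
    Module.length R (R ⧸ (Ideal.span {c} * 𝔟 ⊔ 𝔪)) ≤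
      Module.length R (R ⧸ (Ideal.span {c} ⊔ 𝔪)) + Module.length R (R ⧸ (𝔟 ⊔ 𝔪)) := by
  have h1 : Ideal.span {c} * 𝔟 ⊔ 𝔪 ≤ Ideal.span {c} ⊔ 𝔪 :=
    sup_le_sup_right Ideal.mul_le_left _
  have h2 : (𝔟 ⊔ 𝔪 : Ideal R) ≤ Submodule.comap (LinearMap.mulLeft R c)
      (Ideal.span {c} * 𝔟 ⊔ 𝔪 : Ideal R) := by
    refine sup_le (fun x hx => ?_) (fun x hx => ?_)
    · exact Ideal.mem_sup_left (Ideal.mul_mem_mul (Ideal.mem_span_singleton_self c) hx)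
    · exact Ideal.mem_sup_right (Ideal.mul_mem_left _ c hx)
  let f : (R ⧸ (𝔟 ⊔ 𝔪)) →ₗ[R] (R ⧸ (Ideal.span {c} * 𝔟 ⊔ 𝔪)) :=
    Submodule.mapQ _ _ (LinearMap.mulLeft R c) h2
  let g : (R ⧸ (Ideal.span {c} * 𝔟 ⊔ 𝔪)) →ₗ[R] (R ⧸ (Ideal.span {c} ⊔ 𝔪)) := Submodule.factor h1
  have h3 : LinearMap.ker g ≤ LinearMap.range f := by
    intro y hy
    obtain ⟨x, rfl⟩ := Submodule.Quotient.mk_surjective _ y
    have a1 : x ∈ Ideal.span {c} ⊔ 𝔪 := (Submodule.Quotient.mk_eq_zero _).1 hy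
    obtain ⟨a, ha, b, hb, rfl⟩ := Submodule.mem_sup.1 a1
    obtain ⟨w, rfl⟩ := Ideal.mem_span_singleton'.1 ha
    refine ⟨Submodule.Quotient.mk w, ?_⟩
    refine (Submodule.Quotient.eq _).2 ?_
    have e : LinearMap.mulLeft R c w - (w * c + b) = -b := by
      simp only [LinearMap.mulLeft_apply]
      ring
    rw [e]
    exact Ideal.mem_sup_right (neg_mem hb)
  rw [Module.length_eq_add_of_exact (LinearMap.ker g).subtype g (Submodule.subtype_injective _)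
    (Submodule.factor_surjective h1) (LinearMap.exact_subtype_ker_map g), add_comm]
  refine add_le_add le_rfl ?_
  exact (Module.length_le_of_injective (Submodule.inclusion h3)
    (Submodule.inclusion_injective h3)).trans
    (Module.length_le_of_surjective f.rangeRestrict f.surjective_rangeRestrict)

/-- `length (R / (c ^ N 𝔟 + 𝔪)) ≤ N * length (R / (c, 𝔪)) + length (R / 𝔟)`: the module
`((c ^ N) + 𝔪) / (c ^ N 𝔟 + 𝔪)` is a quotient of `R / 𝔟`, and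
`((c ^ i) + 𝔪) / ((c ^ (i + 1)) + 𝔪)` is a quotient of `R / (c, 𝔪)`. -/
theorem length_le_aux {R : Type} [CommRing R] (c : R) (N : ℕ) (𝔟 𝔪 : Ideal R) :
    Module.length R (R ⧸ (Ideal.span {c ^ N} * 𝔟 ⊔ 𝔪)) ≤
      N * Module.length R (R ⧸ (Ideal.span {c} ⊔ 𝔪)) + Module.length R (R ⧸ 𝔟) := by
  induction N with
  | zero =>
    rw [Nat.cast_zero, zero_mul, zero_add]
    refine P1c_length_mono (le_sup_of_le_left (le_of_eq ?_))
    rw [pow_zero, Ideal.span_singleton_one, Ideal.top_mul]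
  | succ N ih =>
    have e : Ideal.span {c ^ (N + 1)} * 𝔟 = Ideal.span {c} * (Ideal.span {c ^ N} * 𝔟) := by
      rw [← mul_assoc, Ideal.span_singleton_mul_span_singleton, pow_succ']
    rw [e]
    refine (P1c_length_step c _ 𝔪).trans ((add_le_add le_rfl ih).trans (le_of_eq ?_))
    push_cast
    ring

/-- For `j = ⌈i / q⌉`: `J ^ i ⊇ J ^ (q j) ⊇ c ^ (N q j) 𝔞 ^ (τ j) + m ^ (k q j)`, so
`length (R / J ^ i) ≤ N q j C (k q j) ^ (n - 1) + length (R / 𝔞 ^ (τ j))`, and `q j / i → 1`. -/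
theorem mult_bound {R : Type} [CommRing R] {n C N q k τ : ℕ} (hn : 1 ≤ n) (hq : 1 ≤ q)
    (hk : 1 ≤ k) {m J 𝔞 : Ideal R} {c : R} (hJ1 : m ^ k ≤ J)
    (hJ2 : Ideal.span {c ^ (N * q)} * 𝔞 ^ τ ≤ J ^ q)
    (hl : ∀ j : ℕ, 1 ≤ j →
      Module.length R (R ⧸ (Ideal.span {c} ⊔ m ^ j)) ≤ ((C * j ^ (n - 1) : ℕ) : ℕ∞)) :
    mult n J ≤ ((n.factorial * N * C * k ^ (n - 1) : ℕ) : ℝ≥0∞) +
      ((τ : ℝ≥0∞) / (q : ℝ≥0∞)) ^ n * mult n 𝔞 := by
  obtain ⟨A, hA⟩ : ∃ A : ℕ, A = n.factorial * N * C * k ^ (n - 1) := ⟨_, rfl⟩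
  rw [← hA]
  have hq0 : (q : ℝ≥0∞) ≠ 0 := by exact_mod_cast (by omega : q ≠ 0)
  have hqt : (q : ℝ≥0∞) ≠ ⊤ := by simp
  have ht : ((τ : ℝ≥0∞) / (q : ℝ≥0∞)) ^ n ≠ ⊤ :=
    ENNReal.pow_ne_top (ENNReal.div_ne_top (by simp) hq0)
  have key : ∀ M : ℝ≥0∞, M ≠ ⊤ → (∀ᶠ j : ℕ in atTop, (n.factorial : ℝ≥0∞) *
      (Module.length R (R ⧸ 𝔞 ^ (τ * j)) : ℝ≥0∞) ≤ M * ((τ * j : ℕ) : ℝ≥0∞) ^ n) →
      mult n J ≤ (A : ℝ≥0∞) + ((τ : ℝ≥0∞) / (q : ℝ≥0∞)) ^ n * M := by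
    intro M hM hev
    refine P1c_limsup (q := q)
      (ENNReal.add_ne_top.2 ⟨by simp, ENNReal.mul_ne_top ht hM⟩) _ ?_
    have h1 : Tendsto (fun i : ℕ => i / q + 1) atTop atTop :=
      (tendsto_add_atTop_nat 1).comp (Nat.tendsto_div_const_atTop (Nat.one_le_iff_ne_zero.1 hq))
    filter_upwards [h1.eventually hev] with i hi
    obtain ⟨j, hj⟩ : ∃ j, j = i / q + 1 := ⟨_, rfl⟩
    rw [← hj] at hi
    have j1 : i ≤ q * j := by
      rw [hj]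
      exact (Nat.lt_mul_div_succ i (by omega)).le
    have j2 : q * j ≤ i + q := by
      rw [hj, mul_add, mul_one]
      exact Nat.add_le_add_right (Nat.mul_div_le i q) q
    have j3 : 1 ≤ j := by
      rw [hj]
      exact Nat.le_add_left _ _
    have a1 : Ideal.span {c ^ (N * q * j)} * 𝔞 ^ (τ * j) ⊔ m ^ (k * (q * j)) ≤ J ^ i := by
      refine le_trans (sup_le ?_ ?_) (Ideal.pow_le_pow_right j1)
      · rw [pow_mul J, pow_mul 𝔞, pow_mul c, ← Ideal.span_singleton_pow, ← mul_pow]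
        exact Ideal.pow_right_mono hJ2 j
      · rw [pow_mul m]
        exact Ideal.pow_right_mono hJ1 _
    have a2 := (P1c_length_mono a1).trans ((length_le_aux c _ _ _).trans
      (add_le_add (mul_le_mul_right (hl (k * (q * j)) (Nat.mul_pos hk (Nat.mul_pos hq j3))) _)
        le_rfl))
    have a3 := ENat.toENNReal_le.2 a2
    rw [ENat.toENNReal_add, ← Nat.cast_mul, ENat.toENNReal_coe] at a3
    have a4 : n.factorial * (N * q * j * (C * (k * (q * j)) ^ (n - 1))) = A * (q * j) ^ n := by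
      obtain ⟨e, rfl⟩ := Nat.exists_eq_add_of_le' hn
      rw [hA, Nat.add_sub_cancel]
      ring
    have a5 : ((τ * j : ℕ) : ℝ≥0∞) = (τ : ℝ≥0∞) / (q : ℝ≥0∞) * ((q * j : ℕ) : ℝ≥0∞) := by
      rw [Nat.cast_mul, Nat.cast_mul, ← mul_assoc, ENNReal.div_mul_cancel hq0 hqt]
    calc (n.factorial : ℝ≥0∞) * (Module.length R (R ⧸ J ^ i) : ℝ≥0∞)
        ≤ (n.factorial : ℝ≥0∞) * (((N * q * j * (C * (k * (q * j)) ^ (n - 1)) : ℕ) : ℝ≥0∞) +
          (Module.length R (R ⧸ 𝔞 ^ (τ * j)) : ℝ≥0∞)) := mul_le_mul_right a3 _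
      _ ≤ ((A * (q * j) ^ n : ℕ) : ℝ≥0∞) + M * ((τ * j : ℕ) : ℝ≥0∞) ^ n := by
        rw [mul_add, ← Nat.cast_mul, a4]
        exact add_le_add le_rfl hi
      _ = ((A : ℝ≥0∞) + ((τ : ℝ≥0∞) / (q : ℝ≥0∞)) ^ n * M) * ((q * j : ℕ) : ℝ≥0∞) ^ n := by
        rw [a5, Nat.cast_mul A, Nat.cast_pow, mul_pow]
        ring
      _ ≤ _ := mul_le_mul_right (pow_le_pow_left' (Nat.cast_le.2 j2) n) _
  rcases Nat.eq_zero_or_pos τ with rfl | hτ
  · refine (key 0 ENNReal.zero_ne_top (Eventually.of_forall fun j => ?_)).trans ?_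
    · have : Subsingleton (R ⧸ 𝔞 ^ (0 * j)) := by
        rw [Ideal.Quotient.subsingleton_iff]
        simp
      simp
    · simp
  by_cases hM : mult n 𝔞 = ⊤
  · have : ((τ : ℝ≥0∞) / (q : ℝ≥0∞)) ^ n ≠ 0 :=
      pow_ne_zero _ (ENNReal.div_ne_zero.2 ⟨by exact_mod_cast hτ.ne', hqt⟩)
    rw [hM, ENNReal.mul_top this]
    simp
  have hlt : mult n 𝔞 < ⊤ := lt_top_iff_ne_top.2 hM
  have : (nhdsWithin (mult n 𝔞) (Set.Ioi (mult n 𝔞))).NeBot :=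
    nhdsGT_neBot_of_exists_gt ⟨⊤, hlt⟩
  have hc : Tendsto (fun M : ℝ≥0∞ => (A : ℝ≥0∞) + ((τ : ℝ≥0∞) / (q : ℝ≥0∞)) ^ n * M)
      (nhdsWithin (mult n 𝔞) (Set.Ioi (mult n 𝔞)))
      (nhds ((A : ℝ≥0∞) + ((τ : ℝ≥0∞) / (q : ℝ≥0∞)) ^ n * mult n 𝔞)) :=
    ((continuous_const.add (ENNReal.continuous_const_mul ht)).tendsto _).mono_left
      nhdsWithin_le_nhds
  refine ge_of_tendsto hc ?_
  filter_upwards [self_mem_nhdsWithin, mem_nhdsWithin_of_mem_nhds (Iio_mem_nhds hlt)]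
    with M hM1 hM2
  refine key M (ne_of_lt hM2) ?_
  have h1 : Tendsto (fun j : ℕ => τ * j) atTop atTop := Tendsto.const_mul_atTop' hτ tendsto_id
  have h2 := eventually_lt_of_limsup_lt (show mult n 𝔞 < M from hM1)
  filter_upwards [h1.eventually h2, eventually_ge_atTop 1] with j hj hj1
  refine (ENNReal.div_le_iff (pow_ne_zero _ ?_) 
    (ENNReal.pow_ne_top (ENNReal.natCast_ne_top _))).1 hj.le
  exact_mod_cast (Nat.mul_pos hτ hj1).ne'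

end

end Pool.Agent.Lib.MP_4287a9_ag
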