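import Pool.Agent.Lib.MP_4287a9_ag.D1

/-!
Reductions with `n` generators when the residue field is infinite.
-/

open scoped TensorProduct ENNReal NNReal nonZeroDivisors Polynomial
open Filter

namespace Pool.Agent.Lib.MP_4287a9_ag

noncomputable section

/-- `x` and `y` are elements of `I ^ e` congruent modulo `J I ^ (e - 1)` (after multiplying
with `I`). -/
def P1dRel {R : Type} [CommRing R] (I J : Ideal R) (e : ℕ) (x y : R) : Prop :=
  x ∈ I ^ e ∧ y ∈ I ^ e ∧ ∀ z ∈ I, (x - y) * z ∈ J * I ^ e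

theorem P1dRel.one {R : Type} [CommRing R] (I J : Ideal R) : P1dRel I J 0 1 1 :=
  ⟨by simp, by simp, fun z _ => by simp⟩

theorem P1dRel.refl {R : Type} [CommRing R] {I : Ideal R} (J : Ideal R) {e : ℕ} {x : R}
    (hx : x ∈ I ^ e) : P1dRel I J e x x :=
  ⟨hx, hx, fun z _ => by simp⟩

theorem P1dRel.mul {R : Type} [CommRing R] {I J : Ideal R} {a b : ℕ} {x x' y y' : R}
    (h : P1dRel I J a x x') (h' : P1dRel I J b y y') : P1dRel I J (a + b) (x * y) (x' * y') := by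
  refine ⟨by rw [pow_add]; exact Ideal.mul_mem_mul h.1 h'.1,
    by rw [pow_add]; exact Ideal.mul_mem_mul h.2.1 h'.2.1, fun z hz => ?_⟩
  have e1 : (x * y - x' * y') * z = (x - x') * z * y + (y - y') * z * x' := by ring
  rw [e1]
  refine add_mem ?_ ?_
  · rw [pow_add, ← mul_assoc]
    exact Ideal.mul_mem_mul (h.2.2 z hz) h'.1
  · rw [add_comm a b, pow_add, ← mul_assoc]
    exact Ideal.mul_mem_mul (h'.2.2 z hz) h.2.1

theorem P1dRel.pow {R : Type} [CommRing R] {I J : Ideal R} {x y : R}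
    (h : P1dRel I J 1 x y) (a : ℕ) : P1dRel I J a (x ^ a) (y ^ a) := by
  induction a with
  | zero => simpa using P1dRel.one I J
  | succ a ih => rw [pow_succ, pow_succ]; exact ih.mul h

theorem P1dRel.prod {R : Type} [CommRing R] {I J : Ideal R} {ι : Type} (S : Finset ι)
    {x y : ι → R} {a : ι → ℕ} (h : ∀ i, P1dRel I J (a i) (x i) (y i)) :
    P1dRel I J (∑ i ∈ S, a i) (∏ i ∈ S, x i) (∏ i ∈ S, y i) := by
  classical
  induction S using Finset.induction_on with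
  | empty => simpa using P1dRel.one I J
  | insert i S hi ih =>
    rw [Finset.sum_insert hi, Finset.prod_insert hi, Finset.prod_insert hi]
    exact (h i).mul ih

theorem P1d_count (n C s : ℕ) (hs : n ≤ s) (μ : ℕ → ℕ)
    (hC : ∀ j : ℕ, ∑ i ∈ Finset.range (j + 1), μ i ≤ C * (j + 1) ^ n) :
    ∃ t d : ℕ, s * t ≤ d ∧ μ d < (t + 1) ^ s := by
  by_contra hcon
  push Not at hcon
  obtain ⟨t, ht⟩ : ∃ t, t = C * (s + 1) ^ n := ⟨_, rfl⟩
  have h1 := hC (s * t + t)
  have h2 : ∑ i ∈ Finset.range (t + 1), μ (s * t + i) ≤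
      ∑ i ∈ Finset.range (s * t + t + 1), μ i := by
    rw [add_assoc, Finset.sum_range_add μ (s * t)]
    exact Nat.le_add_left _ _
  have h3 : (t + 1) * (t + 1) ^ s ≤ ∑ i ∈ Finset.range (t + 1), μ (s * t + i) := by
    have := Finset.card_nsmul_le_sum (Finset.range (t + 1)) (fun i => μ (s * t + i))
      ((t + 1) ^ s) (fun i _ => hcon t _ (Nat.le_add_right _ _))
    simpa using this
  have h4 : (s * t + t + 1) ^ n ≤ (s + 1) ^ n * (t + 1) ^ s := by
    calc (s * t + t + 1) ^ n ≤ ((s + 1) * (t + 1)) ^ n :=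
          Nat.pow_le_pow_left (by nlinarith) n
      _ = (s + 1) ^ n * (t + 1) ^ n := mul_pow _ _ _
      _ ≤ _ := Nat.mul_le_mul_left _ (Nat.pow_le_pow_right (by omega) hs)
  have h5 : (t + 1) * (t + 1) ^ s ≤ t * (t + 1) ^ s := by
    calc (t + 1) * (t + 1) ^ s ≤ C * (s * t + t + 1) ^ n := h3.trans (h2.trans h1)
      _ ≤ C * ((s + 1) ^ n * (t + 1) ^ s) := Nat.mul_le_mul_left _ h4
      _ = t * (t + 1) ^ s := by rw [← mul_assoc, ← ht]
  have h6 : 0 < (t + 1) ^ s := by positivity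
  have := Nat.le_of_mul_le_mul_right h5 h6
  omega

theorem P1d_dep {R : Type} [CommRing R] [IsLocalRing R] {ι : Type} [Fintype ι]
    (S : Finset R) (hS : S.card < Fintype.card ι) (M : ι → R)
    (hM : ∀ a, M a ∈ Ideal.span (S : Set R)) :
    ∃ c : ι → R, (∃ a, IsLocalRing.residue R (c a) ≠ 0) ∧
      ∑ a, c a * M a ∈ IsLocalRing.maximalIdeal R * Ideal.span (S : Set R) := by
  classical
  have h1 : ∀ a, ∃ r : R → R, M a = ∑ g ∈ S, r g * g := fun a => by
    obtain ⟨r, -, hr⟩ := Submodule.mem_span_finset.1 (hM a)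
    exact ⟨r, by simpa using hr.symm⟩
  choose r hr using h1
  have h2 : ¬ LinearIndependent (IsLocalRing.ResidueField R)
      (fun a : ι => fun g : S => IsLocalRing.residue R (r a g)) := fun h => by
    have := h.fintype_card_le_finrank
    rw [Module.finrank_fintype_fun_eq_card, Fintype.card_coe] at this
    omega
  obtain ⟨cb, hc1, a0, hc2⟩ := Fintype.not_linearIndependent_iff.1 h2
  choose c hc using fun a => IsLocalRing.residue_surjective (R := R) (cb a)
  refine ⟨c, ⟨a0, by rw [hc]; exact hc2⟩, ?_⟩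
  have e1 : ∑ a, c a * M a = ∑ g ∈ S, (∑ a, c a * r a g) * g := by
    simp only [hr, Finset.mul_sum, Finset.sum_mul]
    rw [Finset.sum_comm]
    exact Finset.sum_congr rfl fun g _ => Finset.sum_congr rfl fun a _ => by ring
  rw [e1]
  refine Ideal.sum_mem _ fun g hg => Ideal.mul_mem_mul ?_ (Ideal.subset_span hg)
  rw [← IsLocalRing.residue_eq_zero_iff]
  have := congrFun hc1 ⟨g, hg⟩
  simpa [hc] using this

theorem P1d_eval {K : Type} [Field K] [Infinite K] {s t : ℕ} (c : (Fin s → Fin (t + 1)) → K)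
    (hc : ∃ a, c a ≠ 0) : ∃ lam : Fin s → K, ∑ a, c a * ∏ i, lam i ^ (a i : ℕ) ≠ 0 := by
  classical
  by_contra hcon
  push Not at hcon
  obtain ⟨a0, ha0⟩ := hc
  let F : (Fin s → Fin (t + 1)) → (Fin s →₀ ℕ) := fun a =>
    Finsupp.equivFunOnFinite.symm (fun i => (a i : ℕ))
  have hF : Function.Injective F := fun a b h => by
    funext i
    have := congrFun (Finsupp.equivFunOnFinite.symm.injective h) i
    exact Fin.ext this
  have h1 : (∑ a, MvPolynomial.monomial (F a) (c a) : MvPolynomial (Fin s) K) = 0 := by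
    refine MvPolynomial.funext fun x => ?_
    rw [map_sum, map_zero, ← hcon x]
    refine Finset.sum_congr rfl fun a _ => ?_
    rw [MvPolynomial.eval_monomial, Finsupp.prod_fintype _ _ (by simp)]
    simp [F]
  have h2 := congrArg (MvPolynomial.coeff (F a0)) h1
  rw [MvPolynomial.coeff_sum, MvPolynomial.coeff_zero, Finset.sum_eq_single a0] at h2
  · simp at h2
    exact ha0 h2
  · intro b _ hb
    rw [MvPolynomial.coeff_monomial, if_neg (fun h => hb (hF h))]
  · simp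

theorem P1d_step {R : Type} [CommRing R] [IsLocalRing R] [IsNoetherianRing R]
    [Infinite (IsLocalRing.ResidueField R)] (I : Ideal R) (n C : ℕ) (μ : ℕ → ℕ)
    (hμ : ∀ i, ∃ s : Finset R, s.card ≤ μ i ∧ Ideal.span (s : Set R) = I ^ i)
    (hC : ∀ j : ℕ, ∑ i ∈ Finset.range (j + 1), μ i ≤ C * (j + 1) ^ n) (s : ℕ) (hs : n ≤ s)
    (f : Fin (s + 1) → R) (hf : ∀ l, f l ∈ I) (ρ : ℕ)
    (hρ : I ^ (ρ + 1) ≤ Ideal.span (Set.range f) * I ^ ρ) :
    ∃ x : Fin s → R, (∀ l, x l ∈ I) ∧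
      ∃ ρ : ℕ, I ^ (ρ + 1) ≤ Ideal.span (Set.range x) * I ^ ρ := by
  classical
  obtain ⟨t, d, htd, hd⟩ := P1d_count n C s hs μ hC
  obtain ⟨S, hS1, hS2⟩ := hμ d
  have hsum : ∀ a : Fin s → Fin (t + 1), ∑ i, (a i : ℕ) ≤ d := fun a => by
    have := Finset.sum_le_card_nsmul Finset.univ (fun i => (a i : ℕ)) t
      (fun i _ => Nat.lt_succ_iff.1 (a i).2)
    simp only [Finset.card_univ, Fintype.card_fin, smul_eq_mul] at this
    omega
  have key : ∀ (J : Ideal R) (y : Fin s → R), (∀ i, P1dRel I J 1 (f i.succ) (y i)) →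
      ∀ a : Fin s → Fin (t + 1), P1dRel I J d
        ((∏ i, f i.succ ^ (a i : ℕ)) * f 0 ^ (d - ∑ i, (a i : ℕ)))
        ((∏ i, y i ^ (a i : ℕ)) * f 0 ^ (d - ∑ i, (a i : ℕ))) := by
    intro J y hy a
    have h1 := (P1dRel.prod Finset.univ (fun i => (hy i).pow (a i))).mul
      (P1dRel.refl J (Ideal.pow_mem_pow (hf 0) (d - ∑ i, (a i : ℕ))))
    rwa [Nat.add_sub_cancel' (hsum a)] at h1
  obtain ⟨c, hc1, hc2⟩ := P1d_dep (ι := Fin s → Fin (t + 1)) S (by simpa using hS1.trans_lt hd)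
    (fun a => (∏ i, f i.succ ^ (a i : ℕ)) * f 0 ^ (d - ∑ i, (a i : ℕ))) (fun a => by
      rw [hS2]
      exact (key ⊥ (fun i => f i.succ) (fun i => P1dRel.refl _ (by simpa using hf _)) a).1)
  rw [hS2] at hc2
  obtain ⟨lb, hlb⟩ := P1d_eval (fun a => IsLocalRing.residue R (c a)) hc1
  choose lam hlam using fun i => IsLocalRing.residue_surjective (R := R) (lb i)
  have hu : IsUnit (∑ a, c a * ∏ i, lam i ^ (a i : ℕ)) := by
    by_contra hn
    apply hlb
    have := (IsLocalRing.residue_eq_zero_iff _).2 ((IsLocalRing.mem_maximalIdeal _).2 hn)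
    simpa [hlam] using this
  obtain ⟨u, hu⟩ := hu.exists_left_inv
  have hx : ∀ l : Fin s, f l.succ - lam l * f 0 ∈ I := fun l =>
    sub_mem (hf _) (Ideal.mul_mem_left _ _ (hf 0))
  refine ⟨fun l => f l.succ - lam l * f 0, hx, ?_⟩
  obtain ⟨J, hJ⟩ : ∃ J, J = Ideal.span (Set.range fun l : Fin s => f l.succ - lam l * f 0) :=
    ⟨_, rfl⟩
  rw [← hJ]
  have hJm : ∀ l : Fin s, f l.succ - lam l * f 0 ∈ J := fun l => by
    rw [hJ]
    exact Ideal.subset_span ⟨l, rfl⟩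
  have hk := key J (fun i => lam i * f 0) (fun i => ⟨by simpa using hf _,
    by simpa using Ideal.mul_mem_left _ _ (hf 0), fun z hz => by
      rw [pow_one]
      exact Ideal.mul_mem_mul (hJm i) hz⟩)
  have h0 : ∀ z ∈ I, f 0 ^ d * z ∈ J * I ^ d ⊔ IsLocalRing.maximalIdeal R * I ^ (d + 1) := by
    intro z hz
    have e1 : ∀ a : Fin s → Fin (t + 1),
        (∏ i, (lam i * f 0) ^ (a i : ℕ)) * f 0 ^ (d - ∑ i, (a i : ℕ)) =
          (∏ i, lam i ^ (a i : ℕ)) * f 0 ^ d := fun a => by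
      simp only [mul_pow, Finset.prod_mul_distrib, Finset.prod_pow_eq_pow_sum]
      rw [mul_assoc, ← pow_add, Nat.add_sub_cancel' (hsum a)]
    have e2 : f 0 ^ d * z = u * ((∑ a, c a * ((∏ i, f i.succ ^ (a i : ℕ)) *
        f 0 ^ (d - ∑ i, (a i : ℕ)))) * z - ∑ a, c a * ((((∏ i, f i.succ ^ (a i : ℕ)) *
        f 0 ^ (d - ∑ i, (a i : ℕ))) - (∏ i, (lam i * f 0) ^ (a i : ℕ)) *
        f 0 ^ (d - ∑ i, (a i : ℕ))) * z)) := by
      rw [Finset.sum_mul, ← Finset.sum_sub_distrib]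
      have e3 : ∀ a : Fin s → Fin (t + 1), c a * ((∏ i, f i.succ ^ (a i : ℕ)) *
          f 0 ^ (d - ∑ i, (a i : ℕ))) * z - c a * ((((∏ i, f i.succ ^ (a i : ℕ)) *
          f 0 ^ (d - ∑ i, (a i : ℕ))) - (∏ i, (lam i * f 0) ^ (a i : ℕ)) *
          f 0 ^ (d - ∑ i, (a i : ℕ))) * z) =
          (c a * ∏ i, lam i ^ (a i : ℕ)) * (f 0 ^ d * z) := fun a => by
        rw [e1]
        ring
      rw [Finset.sum_congr rfl (fun a _ => e3 a), ← Finset.sum_mul, ← mul_assoc, hu, one_mul]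
    rw [e2]
    refine Ideal.mul_mem_left _ _ (sub_mem (Ideal.mem_sup_right ?_) (Ideal.mem_sup_left ?_))
    · rw [pow_succ, ← mul_assoc]
      exact Ideal.mul_mem_mul hc2 hz
    · exact Ideal.sum_mem _ fun a _ => Ideal.mul_mem_left _ _ ((hk a).2.2 z hz)
  obtain ⟨Q, hQ⟩ : ∃ Q, Q = Ideal.span (Set.range f) := ⟨_, rfl⟩
  rw [← hQ] at hρ
  have hQI : Q ≤ I := by
    rw [hQ, Ideal.span_le]
    rintro _ ⟨l, rfl⟩
    exact hf l
  have hQJ : Q ≤ J ⊔ Ideal.span {f 0} := by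
    rw [hQ, Ideal.span_le]
    rintro _ ⟨l, rfl⟩
    refine Fin.cases ?_ (fun l => ?_) l
    · exact Ideal.mem_sup_right (Ideal.mem_span_singleton_self _)
    · have e : f l.succ = (f l.succ - lam l * f 0) + lam l * f 0 := by ring
      rw [SetLike.mem_coe, e]
      exact add_mem (Ideal.mem_sup_left (hJm l))
        (Ideal.mem_sup_right (Ideal.mul_mem_left _ _ (Ideal.mem_span_singleton_self _)))
  have h1 : ∀ e : ℕ, Q ^ e * I ≤ J * I ^ e ⊔ Ideal.span {f 0} ^ e * I := by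
    intro e
    induction e with
    | zero => simp
    | succ e ih =>
      have hK : Ideal.span {f 0} ≤ I := by
        rw [Ideal.span_le]
        rintro _ rfl
        exact hf 0
      calc Q ^ (e + 1) * I = Q * (Q ^ e * I) := by ring
        _ ≤ Q * (J * I ^ e ⊔ Ideal.span {f 0} ^ e * I) := Ideal.mul_mono_right ih
        _ = Q * (J * I ^ e) ⊔ Q * (Ideal.span {f 0} ^ e * I) := Ideal.mul_sup _ _ _
        _ ≤ _ := by
          refine sup_le (le_sup_of_le_left ?_) ?_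
          · calc Q * (J * I ^ e) ≤ I * (J * I ^ e) := Ideal.mul_mono_left hQI
              _ = J * I ^ (e + 1) := by ring
          · refine (Ideal.mul_mono_left hQJ).trans ?_
            rw [Ideal.sup_mul]
            refine sup_le (le_sup_of_le_left ?_) (le_sup_of_le_right ?_)
            · rw [pow_succ]
              exact Ideal.mul_mono_right (Ideal.mul_mono_left (Ideal.pow_right_mono hK e))
            · exact le_of_eq (by ring)
  have h2 : Q ^ d * I ≤ J * I ^ d ⊔ IsLocalRing.maximalIdeal R * I ^ (d + 1) := by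
    refine (h1 d).trans (sup_le le_sup_left ?_)
    rw [Ideal.span_singleton_pow, Ideal.span_singleton_mul_le_iff]
    exact h0
  have h3 : ∀ e : ℕ, I ^ (ρ + e) ≤ Q ^ e * I ^ ρ := by
    intro e
    induction e with
    | zero => simp
    | succ e ih =>
      calc I ^ (ρ + (e + 1)) = I ^ (ρ + e) * I := by ring
        _ ≤ Q ^ e * I ^ ρ * I := Ideal.mul_mono_left ih
        _ = Q ^ e * I ^ (ρ + 1) := by ring
        _ ≤ Q ^ e * (Q * I ^ ρ) := Ideal.mul_mono_right hρ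
        _ = Q ^ (e + 1) * I ^ ρ := by ring
  refine ⟨ρ + d, Submodule.le_of_le_smul_of_le_jacobson_bot (I := IsLocalRing.maximalIdeal R)
    (IsNoetherian.noetherian _) (IsLocalRing.maximalIdeal_le_jacobson _) ?_⟩
  calc I ^ (ρ + d + 1) = I ^ (ρ + d) * I := by ring
    _ ≤ Q ^ d * I ^ ρ * I := Ideal.mul_mono_left (h3 d)
    _ = Q ^ d * I * I ^ ρ := by ring
    _ ≤ (J * I ^ d ⊔ IsLocalRing.maximalIdeal R * I ^ (d + 1)) * I ^ ρ := Ideal.mul_mono_left h2
    _ = J * I ^ (ρ + d) ⊔ IsLocalRing.maximalIdeal R • I ^ (ρ + d + 1) := by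
      rw [Ideal.sup_mul, smul_eq_mul]
      congr 1 <;> ring

/-- Start with `Q = I = (f 1, ..., f s)`, a reduction of `I`. If `s > n`, the number of monomials
of degree `≤ j` in `s` variables exceeds `C (j + 1) ^ n` for large `j`, so for some `d` the
monomials of degree `d` in `f` are linearly dependent over the residue field in `I ^ d / m I ^ d`:
there is a form `P` of degree `d`, nonzero modulo `m`, with `P(f) ∈ m I ^ d`. Since the residue
field is infinite there is `lam` with `P(lam, 1)` a unit; with `f' i = f i - lam i * f s` we get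
`f s ^ d ∈ (f') Q ^ (d - 1) + m I ^ d`, so `Q ^ d ⊆ (f') Q ^ (d - 1) + m I ^ d`; multiply by
`I ^ ρ` and use Nakayama: `(f')` is a reduction with `s - 1` generators. If `s ≤ n` pad with
zeros. -/
theorem red0 {R : Type} [CommRing R] [IsLocalRing R] [IsNoetherianRing R]
    [Infinite (IsLocalRing.ResidueField R)] (I : Ideal R) (n C : ℕ) (μ : ℕ → ℕ)
    (hμ : ∀ i, ∃ s : Finset R, s.card ≤ μ i ∧ Ideal.span (s : Set R) = I ^ i)
    (hC : ∀ j : ℕ, ∑ i ∈ Finset.range (j + 1), μ i ≤ C * (j + 1) ^ n) :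
    ∃ x : Fin n → R, (∀ l, x l ∈ I) ∧
      ∃ ρ : ℕ, I ^ (ρ + 1) ≤ Ideal.span (Set.range x) * I ^ ρ := by
  classical
  have pad : ∀ s : ℕ, (∃ x : Fin s → R, (∀ l, x l ∈ I) ∧
      ∃ ρ : ℕ, I ^ (ρ + 1) ≤ Ideal.span (Set.range x) * I ^ ρ) →
      ∃ x : Fin (s + 1) → R, (∀ l, x l ∈ I) ∧
      ∃ ρ : ℕ, I ^ (ρ + 1) ≤ Ideal.span (Set.range x) * I ^ ρ := by
    rintro s ⟨x, hx, ρ, hρ⟩
    refine ⟨Fin.cons 0 x, fun l => Fin.cases (by simp) (fun l => by simpa using hx l) l, ρ,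
      hρ.trans (Ideal.mul_mono_left (Ideal.span_mono ?_))⟩
    rintro _ ⟨l, rfl⟩
    exact ⟨l.succ, by simp⟩
  obtain ⟨S, -, hS⟩ := hμ 1
  have h0 : ∃ x : Fin S.card → R, (∀ l, x l ∈ I) ∧
      ∃ ρ : ℕ, I ^ (ρ + 1) ≤ Ideal.span (Set.range x) * I ^ ρ := by
    rw [pow_one] at hS
    refine ⟨fun l => (S.equivFin.symm l : R), fun l => ?_, 0, ?_⟩
    · rw [← hS]
      exact Ideal.subset_span (S.equivFin.symm l).2
    · rw [zero_add, pow_one, pow_zero, mul_one, ← hS]
      refine Ideal.span_mono fun g hg => ⟨S.equivFin ⟨g, hg⟩, by simp⟩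
  rcases Nat.le_total S.card n with h | h
  · exact Nat.le_induction (P := fun s _ => ∃ x : Fin s → R, (∀ l, x l ∈ I) ∧
      ∃ ρ : ℕ, I ^ (ρ + 1) ≤ Ideal.span (Set.range x) * I ^ ρ) h0 (fun s _ ih => pad s ih) n h
  · obtain ⟨e, he⟩ := Nat.exists_eq_add_of_le h
    rw [he] at h0
    clear he
    induction e with
    | zero => exact h0
    | succ e ih =>
      obtain ⟨f, hf, ρ, hρ⟩ := h0
      exact ih (P1d_step I n C μ hμ hC (n + e) (Nat.le_add_right _ _) f hf ρ hρ)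

end

end Pool.Agent.Lib.MP_4287a9_ag
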