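import Pool.Agent.Lib.MP_4287a9_ag.P1d

/-!
The inclusion `I ^ (n q + r₀) ⊆ I ^ [q]`.
-/

open scoped TensorProduct ENNReal NNReal nonZeroDivisors Polynomial
open Filter

namespace Pool.Agent.Lib.MP_4287a9_ag

noncomputable section

/-- Powers of a finitely generated ideal are spanned by monomials. -/
theorem p1e_span_pow {R : Type} [CommRing R] {μ : ℕ} (x : Fin μ → R) (N : ℕ) :
    Ideal.span (Set.range x) ^ N ≤
      Ideal.span {y | ∃ a : Fin μ → ℕ, ∑ i, a i = N ∧ y = ∏ i, x i ^ a i} := by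
  classical
  induction N with
  | zero =>
    rw [pow_zero, Ideal.one_eq_top, top_le_iff, Ideal.eq_top_iff_one]
    exact Ideal.subset_span ⟨0, by simp, by simp⟩
  | succ N ih =>
    rw [pow_succ]
    refine (Ideal.mul_mono_left ih).trans ?_
    rw [Ideal.span_mul_span', Ideal.span_le]
    rintro _ ⟨_, ⟨a, ha, rfl⟩, _, ⟨i, rfl⟩, rfl⟩
    refine Ideal.subset_span ⟨a + Pi.single i 1, ?_, ?_⟩
    · simp [Finset.sum_add_distrib, ha]
    · simp only [Pi.add_apply, pow_add, Finset.prod_mul_distrib]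
      congr 1
      rw [Finset.prod_eq_single i (fun b _ hb => by simp [hb]) (by simp)]
      simp

theorem p1e_prod_mem {R : Type} [CommRing R] {μ : ℕ} (x : Fin μ → R) (q : ℕ) (a : Fin μ → ℕ) :
    ∏ i, x i ^ a i ∈ Ideal.span (Set.range fun i => x i ^ q) ^ (∑ i, a i / q) := by
  have h : ∏ i, x i ^ a i = (∏ i, (x i ^ q) ^ (a i / q)) * ∏ i, x i ^ (a i % q) := by
    rw [← Finset.prod_mul_distrib]
    refine Finset.prod_congr rfl fun i _ => ?_
    rw [← pow_mul, ← pow_add, Nat.div_add_mod]
  rw [h, ← Finset.prod_pow_eq_pow_sum]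
  exact Ideal.mul_mem_right _ _ (Ideal.prod_mem_prod fun i _ =>
    Ideal.pow_mem_pow (Ideal.subset_span (Set.mem_range_self i)) _)

theorem p1e_gens {R : Type} [CommRing R] (K : Ideal R) (k : ℕ) : ∀ J : Ideal R, J ≤ K →
    Order.coheight J ≤ k →
    ∃ s : Finset R, s.card + Order.coheight K ≤ Order.coheight J ∧
      Ideal.span (s : Set R) ⊔ J = K := by
  classical
  induction k with
  | zero =>
    intro J hJ h
    refine ⟨∅, ?_, ?_⟩
    · simpa using Order.coheight_anti hJ
    · have h0 : Order.coheight J = 0 := by simpa using h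
      have := Order.coheight_eq_zero.1 h0
      simpa using le_antisymm hJ (this hJ)
  | succ k ih =>
    intro J hJ h
    rcases hJ.eq_or_lt with rfl | hlt
    · exact ⟨∅, by simp, by simp⟩
    obtain ⟨y, hyK, hyJ⟩ := SetLike.exists_of_lt hlt
    have h1 : J < Ideal.span {y} ⊔ J :=
      lt_of_le_of_ne le_sup_right fun e => hyJ (e ▸ Ideal.mem_sup_left (Ideal.subset_span rfl))
    have h2 : Order.coheight (Ideal.span {y} ⊔ J) + 1 ≤ Order.coheight J :=
      Order.coheight_add_one_le h1
    have h3 : Order.coheight (Ideal.span {y} ⊔ J) ≤ k := by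
      have h4 := h2.trans h
      push_cast at h4
      exact (ENat.add_le_add_iff_right ENat.one_ne_top).1 h4
    obtain ⟨s, hs, hs'⟩ := ih _ (sup_le ((Ideal.span_singleton_le_iff_mem _).2 hyK) hJ) h3
    refine ⟨insert y s, ?_, ?_⟩
    · calc ((insert y s).card : ℕ∞) + Order.coheight K
          ≤ ((s.card + 1 : ℕ) : ℕ∞) + Order.coheight K := by
            gcongr
            exact Finset.card_insert_le y s
        _ = s.card + Order.coheight K + 1 := by push_cast; ring
        _ ≤ Order.coheight (Ideal.span {y} ⊔ J) + 1 := by gcongr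
        _ ≤ _ := h2
    · rw [← hs', Finset.coe_insert, Ideal.span_insert, sup_comm (Ideal.span {y}), sup_assoc]

/-- Pigeonhole. -/
theorem span_pow_le_fpow_pow {R : Type} [CommRing R] {μ : ℕ} (x : Fin μ → R) {q : ℕ} (hq : 0 < q) (j : ℕ) :
    Ideal.span (Set.range x) ^ (q * j + μ * q) ≤
      Ideal.span (Set.range fun i => x i ^ q) ^ j := by
  refine (p1e_span_pow x _).trans ?_
  rw [Ideal.span_le]
  rintro _ ⟨a, ha, rfl⟩
  refine Ideal.pow_le_pow_right ?_ (p1e_prod_mem x q a)
  have h1 : ∑ i, a i = q * ∑ i, a i / q + ∑ i, a i % q := by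
    rw [Finset.mul_sum, ← Finset.sum_add_distrib]
    exact Finset.sum_congr rfl fun i _ => (Nat.div_add_mod _ _).symm
  have h2 : ∑ i, a i % q ≤ μ * q := by
    have := Finset.sum_le_card_nsmul Finset.univ (fun i => a i % q) q
      fun i _ => (Nat.mod_lt _ hq).le
    simpa using this
  exact Nat.le_of_mul_le_mul_left (by omega) hq

/-- Pigeonhole. -/
theorem span_pow_le_span_pow {R : Type} [CommRing R] {n : ℕ} (x : Fin n → R) (q : ℕ) :
    Ideal.span (Set.range x) ^ (n * q + 1) ≤ Ideal.span (Set.range fun i => x i ^ q) := by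
  refine (p1e_span_pow x _).trans ?_
  rw [Ideal.span_le]
  rintro _ ⟨a, ha, rfl⟩
  obtain ⟨i, hi⟩ : ∃ i, q ≤ a i := by
    by_contra h
    push Not at h
    have := Finset.sum_le_card_nsmul Finset.univ a q fun i _ => (h i).le
    rw [Finset.card_univ, Fintype.card_fin, smul_eq_mul] at this
    exact absurd (ha.symm.trans_le this) (Nat.not_succ_le_self _)
  refine Ideal.mem_of_dvd _ ((pow_dvd_pow (x i) hi).trans
    (Finset.dvd_prod_of_mem _ (Finset.mem_univ i))) (Ideal.subset_span ⟨i, rfl⟩)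

/-- The number of generators of `I ^ i` is `length (I ^ i / m I ^ i) ≤ length (I ^ i / I ^ (i+1))`
and these add up to `length (R / I ^ (j + 1)) ≤ length (R / m ^ (L (j + 1)))`. -/
theorem gens_bound {R : Type} [CommRing R] [IsLocalRing R] [IsNoetherianRing R] {I : Ideal R}
    {n C L : ℕ} (hI : I ≤ IsLocalRing.maximalIdeal R) (hL : IsLocalRing.maximalIdeal R ^ L ≤ I)
    (h : ∀ j : ℕ, Module.length R (R ⧸ IsLocalRing.maximalIdeal R ^ j) ≤
      ((C * j ^ n : ℕ) : ℕ∞)) :
    ∃ (C' : ℕ) (μ : ℕ → ℕ),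
      (∀ i, ∃ s : Finset R, s.card ≤ μ i ∧ Ideal.span (s : Set R) = I ^ i) ∧
      ∀ j : ℕ, ∑ i ∈ Finset.range (j + 1), μ i ≤ C' * (j + 1) ^ n := by
  have hc : ∀ j, Order.coheight (I ^ j) ≤ ((C * (L * j) ^ n : ℕ) : ℕ∞) := fun j => by
    refine (Order.coheight_anti (show IsLocalRing.maximalIdeal R ^ (L * j) ≤ I ^ j from ?_)).trans
      ?_
    · rw [pow_mul]
      exact Ideal.pow_right_mono hL j
    · rw [← Module.length_quotient]
      exact h _
  choose s hs hs' using fun i => p1e_gens (I ^ i) _ (I ^ (i + 1))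
    (Ideal.pow_le_pow_right (Nat.le_succ i)) (hc (i + 1))
  refine ⟨C * L ^ n, fun i => (s i).card, fun i => ⟨s i, le_rfl, ?_⟩, fun j => ?_⟩
  · refine le_antisymm (le_sup_left.trans (hs' i).le) ?_
    refine Submodule.le_of_le_smul_of_le_jacobson_bot (I := I) (IsNoetherian.noetherian _)
      (hI.trans (IsLocalRing.maximalIdeal_le_jacobson _)) ?_
    rw [smul_eq_mul, ← pow_succ']
    exact (hs' i).ge
  · have h1 : ∀ j, ((∑ i ∈ Finset.range j, (s i).card : ℕ) : ℕ∞) ≤ Order.coheight (I ^ j) := by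
      intro j
      induction j with
      | zero => simp
      | succ j ih =>
        rw [Finset.sum_range_succ, Nat.cast_add, add_comm]
        exact (add_le_add_right ih _).trans (hs j)
    have h2 := (h1 (j + 1)).trans (hc (j + 1))
    rw [Nat.cast_le, mul_pow, ← mul_assoc] at h2
    exact h2

/-- Pass to `R' = R[X]` localized at `m R[X]` (Noetherian, local, faithfully flat over `R`,
infinite residue field). Apply `gens_bound` in `R` and `red0` to `I R'`; then
`(I R') ^ (n q + ρ + 1) ⊆ (x) ^ (n q + 1) ⊆ (x ^ q) ⊆ (fpow I q) R'` (Frobenius is additive), and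
descend with `Ideal.comap_map_eq_self_of_faithfullyFlat`. -/
theorem red1 {p : ℕ} [Fact p.Prime] {R : Type} [CommRing R] [IsLocalRing R] [IsNoetherianRing R]
    [CharP R p] {I : Ideal R} {n C L : ℕ} (hI : I ≤ IsLocalRing.maximalIdeal R)
    (hL : IsLocalRing.maximalIdeal R ^ L ≤ I)
    (h : ∀ j : ℕ, Module.length R (R ⧸ IsLocalRing.maximalIdeal R ^ j) ≤
      ((C * j ^ n : ℕ) : ℕ∞)) :
    ∃ r0 : ℕ, ∀ e : ℕ, I ^ (n * p ^ e + r0) ≤ fpow I (p ^ e) := by
  classical
  let P : Ideal R[X] := (IsLocalRing.maximalIdeal R).map Polynomial.C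
  let S := Localization.AtPrime P
  have hflat : Module.Flat R S := Module.Flat.trans R R[X] S
  have hmem : ∀ f : R[X], algebraMap R[X] S f ∈ IsLocalRing.maximalIdeal S ↔ f ∈ P := fun f =>
    IsLocalization.AtPrime.to_map_mem_maximal_iff S P f
  have hloc : IsLocalHom (algebraMap R S) := ⟨fun r hr => by
    by_contra h0
    have h1 : algebraMap R[X] S (Polynomial.C r) ∈ IsLocalRing.maximalIdeal S :=
      (hmem _).2 (Ideal.mem_map_of_mem _ h0)
    exact h1 hr⟩
  have hff : Module.FaithfullyFlat R S := Module.FaithfullyFlat.of_flat_of_isLocalHom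
  have hinf : Infinite (IsLocalRing.ResidueField S) := by
    refine Infinite.of_injective
      (fun k : ℕ => IsLocalRing.residue S (algebraMap R[X] S (Polynomial.X ^ k))) fun a b hab => ?_
    by_contra hne
    have h1 : Polynomial.X ^ a - Polynomial.X ^ b ∈ P := by
      rw [← hmem, map_sub, ← IsLocalRing.residue_eq_zero_iff, map_sub, sub_eq_zero]
      exact hab
    have h2 := Ideal.mem_map_C_iff.1 h1 a
    rw [Polynomial.coeff_sub, Polynomial.coeff_X_pow, Polynomial.coeff_X_pow, if_pos rfl,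
      if_neg hne, sub_zero] at h2
    exact h2 isUnit_one
  have hchar : CharP S p := charP_of_injective_algebraMap
    (FaithfulSMul.algebraMap_injective R S) p
  obtain ⟨C', μ, hμ, hC⟩ := gens_bound hI hL h
  obtain ⟨x, hx, ρ, hρ⟩ := red0 (I.map (algebraMap R S)) n C' μ (fun i => by
    obtain ⟨s, hs, hs'⟩ := hμ i
    refine ⟨s.image (algebraMap R S), Finset.card_image_le.trans hs, ?_⟩
    rw [← Ideal.map_pow, ← hs', Ideal.map_span, Finset.coe_image]) hC
  refine ⟨ρ + 1, fun e => ?_⟩
  have h1 : ∀ k, I.map (algebraMap R S) ^ (ρ + k) ≤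
      Ideal.span (Set.range x) ^ k * I.map (algebraMap R S) ^ ρ := by
    intro k
    induction k with
    | zero => simp
    | succ k ih =>
      calc I.map (algebraMap R S) ^ (ρ + (k + 1))
          = I.map (algebraMap R S) ^ (ρ + k) * I.map (algebraMap R S) := by
            rw [← add_assoc, pow_succ]
        _ ≤ Ideal.span (Set.range x) ^ k * I.map (algebraMap R S) ^ ρ * I.map (algebraMap R S) :=
            Ideal.mul_mono_left ih
        _ = Ideal.span (Set.range x) ^ k * I.map (algebraMap R S) ^ (ρ + 1) := by ring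
        _ ≤ Ideal.span (Set.range x) ^ k *
              (Ideal.span (Set.range x) * I.map (algebraMap R S) ^ ρ) := Ideal.mul_mono_right hρ
        _ = _ := by ring
  have h2 : ∀ y ∈ I.map (algebraMap R S), y ^ p ^ e ∈ (fpow I (p ^ e)).map (algebraMap R S) := by
    intro y hy
    induction hy using Submodule.span_induction with
    | mem y hy =>
      obtain ⟨r, hr, rfl⟩ := hy
      rw [← map_pow]
      exact Ideal.mem_map_of_mem _ (Ideal.subset_span ⟨r, hr, rfl⟩)
    | zero =>
      rw [zero_pow (pow_ne_zero _ (Fact.out : p.Prime).ne_zero)]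
      exact Ideal.zero_mem _
    | add a b _ _ ha hb =>
      rw [add_pow_char_pow]
      exact Ideal.add_mem _ ha hb
    | smul c a _ ha =>
      rw [smul_eq_mul, mul_pow]
      exact Ideal.mul_mem_left _ _ ha
  rw [← Ideal.comap_map_eq_self_of_faithfullyFlat (B := S) (fpow I (p ^ e)),
    ← Ideal.map_le_iff_le_comap, Ideal.map_pow,
    show n * p ^ e + (ρ + 1) = ρ + (n * p ^ e + 1) by ring]
  refine (h1 _).trans (Ideal.mul_le_left.trans ((span_pow_le_span_pow x _).trans ?_))
  rw [Ideal.span_le]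
  rintro _ ⟨i, rfl⟩
  exact h2 _ (hx i)

end

end Pool.Agent.Lib.MP_4287a9_ag
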