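import Pool.Agent.Lib.MP_4287a9_ag.P1a
import Pool.Agent.Lib.MP_4287a9_ag.P1b
import Pool.Agent.Lib.MP_4287a9_ag.P1c
import Pool.Agent.Lib.MP_4287a9_ag.P1e

/-!
Part I: the ideal `J`.
-/

open scoped TensorProduct ENNReal NNReal nonZeroDivisors Polynomial
open Filter

namespace Pool.Agent.Lib.MP_4287a9_ag

noncomputable section

lemma p1f_gens {R : Type} [CommRing R] [IsNoetherianRing R] (J : Ideal R) :
    ∃ (μ : ℕ) (x : Fin μ → R), Ideal.span (Set.range x) = J :=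
  Submodule.fg_iff_exists_fin_generating_family.1 (IsNoetherian.noetherian J)

lemma p1f_span_le {R : Type} [CommRing R] {μ : ℕ} {x : Fin μ → R} {J : Ideal R}
    (h : Ideal.span (Set.range x) = J) (q : ℕ) :
    Ideal.span (Set.range fun i => x i ^ q) ≤ fpow J q := by
  refine Ideal.span_mono ?_
  rintro _ ⟨i, rfl⟩
  exact ⟨x i, h ▸ Ideal.subset_span ⟨i, rfl⟩, rfl⟩

lemma p1f_theta {p : ℕ} [Fact p.Prime] {R : Type} [CommRing R] [IsLocalRing R] [CharP R p]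
    {𝔡 : Ideal R} {r e e' : ℕ} {Θ : R →+ R} (h : IsCart 𝔡 r (p ^ (e + e')) Θ) {a : R}
    (ha : a ∈ fpow (Isp 𝔡 r (p ^ e)) (p ^ e')) (w : R) :
    Θ (a * w) ∈ IsLocalRing.maximalIdeal R := by
  induction ha using Submodule.span_induction generalizing w with
  | mem x hx =>
    obtain ⟨y, hy, rfl⟩ := hx
    obtain ⟨φ, hφ, e1⟩ := h.theta w
    rw [← e1]
    exact hy φ hφ
  | zero => simp
  | add x y _ _ hx hy =>
    rw [add_mul, map_add]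
    exact add_mem (hx w) (hy w)
  | smul c x _ hx =>
    rw [smul_eq_mul, mul_comm c, mul_assoc]
    exact hx _

lemma p1f_ineq {n k r0 μ q q' j : ℕ} {t : ℝ} (hk : 1 ≤ k) (hq : 1 ≤ q) (ht0 : 0 ≤ t)
    (hj : k * j ≤ n * q' + r0 + k) (h : k * t + r0 + k + k * μ ≤ (k * t - n) * q') :
    q * j + μ * q ≤ ⌈t * ((q : ℝ) * q' - 1)⌉₊ := by
  have hk' : (0 : ℝ) < k := by exact_mod_cast hk
  have hq' : (1 : ℝ) ≤ q := by exact_mod_cast hq
  have hj' : (k : ℝ) * j ≤ n * q' + r0 + k := by exact_mod_cast hj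
  have h1 : ((q * j + μ * q : ℕ) : ℝ) ≤ t * ((q : ℝ) * q' - 1) := by
    refine le_of_mul_le_mul_left ?_ hk'
    push_cast
    have h2 := mul_le_mul_of_nonneg_left h (zero_le_one.trans hq')
    have h3 := mul_le_mul_of_nonneg_left hj' (zero_le_one.trans hq')
    have h4 : (k : ℝ) * t ≤ q * (k * t) := le_mul_of_one_le_left (mul_nonneg hk'.le ht0) hq'
    nlinarith
  exact_mod_cast h1.trans (Nat.le_ceil _)

/-- Suppose `SFRi` holds for `J` at `t`. By `pure_iter` there are `Θ`, `a` at a large level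
`q' = q q''` with `Θ a = 1`, `a ∈ J ^ ⌈t (q' - 1)⌉ ⊆ J ^ (q j + μ q) ⊆ (fpow J q) ^ j ⊆ I ^ (k j)`
where `μ` is the number of generators of `J` and `j = ⌈(n q'' + r₀) / k⌉`, so
`a ∈ fpow I q''`, `a = ∑ w i * h i ^ q''` with `h i ∈ I`, and `IsCart.theta` gives
`Θ a ∈ m`. -/
theorem stepE {p : ℕ} [Fact p.Prime] {R : Type} [CommRing R] [IsLocalRing R] [IsNoetherianRing R]
    [CharP R p] {𝔡 J : Ideal R} {r e n k r0 : ℕ} (hk : 1 ≤ k)
    (hJ : fpow J (p ^ e) ≤ Isp 𝔡 r (p ^ e) ^ k)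
    (hred : ∀ e' : ℕ, Isp 𝔡 r (p ^ e) ^ (n * p ^ e' + r0) ≤ fpow (Isp 𝔡 r (p ^ e)) (p ^ e'))
    {t : ℝ≥0} (ht : (n : ℝ) < k * t) : ¬ SFRi p 𝔡 r J t := by
  intro hS
  have hp : p.Prime := Fact.out
  obtain ⟨μ, x, hx⟩ := p1f_gens J
  have hδ : (0 : ℝ) < k * t - n := sub_pos.2 ht
  obtain ⟨N, hN⟩ := exists_nat_ge (((k : ℝ) * t + r0 + k + k * μ) / (k * t - n))
  obtain ⟨e₁, he₁, -, a, ha, Θ, hΘ, h1⟩ := pure_iter hp.pos hS (e + N)
  obtain ⟨e', rfl⟩ : ∃ e', e₁ = e + e' := ⟨e₁ - e, by omega⟩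
  have hN' : (N : ℝ) ≤ ((p ^ e' : ℕ) : ℝ) := by
    exact_mod_cast (show N ≤ e' by omega).trans (Nat.lt_pow_self hp.one_lt).le
  have hdm := Nat.div_add_mod (n * p ^ e' + r0) k
  have hml := Nat.mod_lt (n * p ^ e' + r0) (show 0 < k from hk)
  set j := (n * p ^ e' + r0) / k + 1 with hj
  have hj1 : k * j ≤ n * p ^ e' + r0 + k := by rw [hj, mul_add, mul_one]; omega
  have hj2 : n * p ^ e' + r0 ≤ k * j := by rw [hj, mul_add, mul_one]; omega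
  have hq : 0 < p ^ e := pow_pos hp.pos e
  have h2 := p1f_ineq (μ := μ) (q := p ^ e) (t := t) hk hq t.2 hj1
    (((div_le_iff₀ hδ).1 (hN.trans hN')).trans_eq (mul_comm _ _))
  have h3 : J ^ ⌈(t : ℝ) * ((p : ℝ) ^ (e + e') - 1)⌉₊ ≤ fpow (Isp 𝔡 r (p ^ e)) (p ^ e') := by
    have h4 : ((p : ℝ) ^ (e + e')) = ((p ^ e : ℕ) : ℝ) * ((p ^ e' : ℕ) : ℝ) := by
      push_cast
      rw [pow_add]
    rw [h4]
    refine (Ideal.pow_le_pow_right h2).trans ?_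
    conv_lhs => rw [← hx]
    refine (span_pow_le_fpow_pow x hq j).trans ?_
    refine (Ideal.pow_right_mono ((p1f_span_le hx _).trans hJ) j).trans ?_
    rw [← pow_mul]
    exact (Ideal.pow_le_pow_right hj2).trans (hred e')
  have h5 := p1f_theta hΘ (h3 ha) 1
  rw [mul_one, h1] at h5
  exact (IsLocalRing.maximalIdeal.isMaximal R).ne_top ((Ideal.eq_top_iff_one _).2 h5)

/-- Choose a level `q = p ^ e` from `pure_iter h0` with `t + 1 / q ≤ t'`; then `I = Isp` is proper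
and contains `fpow m q ⊇ m ^ (μ q + 1)`. Put `J = (I ^ k).comap (iterateFrobenius R p e)`,
`τ = k ⌈t q⌉`. `m ^ k ≤ J` since Frobenius maps `m ^ k` into `(fpow m q) ^ k`; `J ≤ m`;
`stepA`, `stepC`, `fpow J q ≤ J ^ q` and `mult_bound` give the multiplicity bound; `red1` and
`stepE` give the last claim. -/
theorem partI {p : ℕ} [Fact p.Prime] {R : Type} [CommRing R] [IsLocalRing R] [IsNoetherianRing R]
    [CharP R p] {𝔡 𝔞 : Ideal R} {r n C : ℕ} (hn : 1 ≤ n) (hT : TData p 𝔡 n C)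
    (h0 : SFRi p 𝔡 r ⊤ 0) {t t' : ℝ≥0} (ht : ¬ SFRi p 𝔡 r 𝔞 t) (htt : t < t') {k : ℕ}
    (hk : 1 ≤ k) :
    ∃ J : Ideal R, IsLocalRing.maximalIdeal R ^ k ≤ J ∧ J ≤ IsLocalRing.maximalIdeal R ∧
      mult n J ≤ ((n.factorial * (n + 1) * C * k ^ (n - 1) : ℕ) : ℝ≥0∞) +
        ((k : ℝ≥0∞) * t') ^ n * mult n 𝔞 ∧
      ∀ t'' : ℝ≥0, (n : ℝ) < k * t'' → ¬ SFRi p 𝔡 r J t'' := by
  have hp : p.Prime := Fact.out
  obtain ⟨c, x, h1, h2, h3, h4⟩ := hT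
  have hδ : (0 : ℝ) < t' - t := sub_pos.2 htt
  obtain ⟨N, hN⟩ := exists_nat_ge (1 / ((t' : ℝ) - t))
  obtain ⟨e, he, hr, a, -, φ, hφ, hφa⟩ := pure_iter hp.pos h0 N
  have hq : 0 < p ^ e := pow_pos hp.pos e
  have hm := IsLocalRing.maximalIdeal.isMaximal R
  have hI : Isp 𝔡 r (p ^ e) ≤ IsLocalRing.maximalIdeal R := by
    refine IsLocalRing.le_maximalIdeal fun h => ?_
    have h5 : a ∈ Isp 𝔡 r (p ^ e) := h ▸ Submodule.mem_top
    have h6 := h5 φ hφ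
    rw [hφa] at h6
    exact hm.ne_top ((Ideal.eq_top_iff_one _).2 h6)
  obtain ⟨μ, y, hy⟩ := p1f_gens (IsLocalRing.maximalIdeal R)
  have hL : IsLocalRing.maximalIdeal R ^ (μ * p ^ e + 1) ≤ Isp 𝔡 r (p ^ e) := by
    conv_lhs => rw [← hy]
    exact (span_pow_le_span_pow y _).trans ((p1f_span_le hy _).trans (fpow_le_Isp 𝔡 r _))
  obtain ⟨r0, hr0⟩ := red1 (p := p) hI hL h4
  have hfr : ∀ z : R, iterateFrobenius R p e z = z ^ p ^ e := fun z => iterateFrobenius_def p e z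
  have hJ1 : IsLocalRing.maximalIdeal R ^ k ≤
      (Isp 𝔡 r (p ^ e) ^ k).comap (iterateFrobenius R p e) := by
    rw [← Ideal.map_le_iff_le_comap, Ideal.map_pow]
    refine Ideal.pow_right_mono ?_ k
    rw [Ideal.map_le_iff_le_comap]
    intro z hz
    rw [Ideal.mem_comap, hfr]
    exact fpow_le_Isp 𝔡 r _ (Ideal.subset_span ⟨z, hz, rfl⟩)
  have hJ0 : fpow ((Isp 𝔡 r (p ^ e) ^ k).comap (iterateFrobenius R p e)) (p ^ e) ≤
      Isp 𝔡 r (p ^ e) ^ k := by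
    refine Ideal.span_le.2 ?_
    rintro _ ⟨z, hz, rfl⟩
    have h5 : iterateFrobenius R p e z ∈ Isp 𝔡 r (p ^ e) ^ k := hz
    rwa [hfr] at h5
  refine ⟨_, hJ1, fun z hz => ?_, ?_, fun t'' ht'' => stepE hk hJ0 hr0 ht''⟩
  · have h5 : iterateFrobenius R p e z ∈ Isp 𝔡 r (p ^ e) ^ k := hz
    rw [hfr] at h5
    exact hm.isPrime.mem_of_pow_mem _ (hI (Ideal.pow_le_self (by omega) h5))
  · have hJ2 : Ideal.span {c ^ ((n + 1) * p ^ e)} * 𝔞 ^ (⌈(t : ℝ) * (p : ℝ) ^ e⌉₊ * k) ≤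
        (Isp 𝔡 r (p ^ e) ^ k).comap (iterateFrobenius R p e) ^ p ^ e := by
      refine Ideal.mul_le.2 fun u hu f hf => ?_
      obtain ⟨w, rfl⟩ := Ideal.mem_span_singleton'.1 hu
      rw [pow_mul] at hf
      have h5 := stepC 𝔡 r e k c x (h1 e) (h2 e)
        (Ideal.pow_right_mono (stepA hp.pos h0 ht hr) k hf)
      rw [mul_assoc]
      refine Ideal.mul_mem_left _ _ ((Ideal.span_le.2 ?_ : fpow _ _ ≤ _) h5)
      rintro _ ⟨z, hz, rfl⟩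
      exact Ideal.pow_mem_pow hz _
    refine (mult_bound hn hq hk hJ1 hJ2 h3).trans ?_
    have hN' : (N : ℝ) ≤ (p : ℝ) ^ e := by
      exact_mod_cast he.trans (Nat.lt_pow_self hp.one_lt).le
    have h6 : (1 : ℝ) ≤ (p : ℝ) ^ e * (t' - t) := (div_le_iff₀ hδ).1 (hN.trans hN')
    have h7 := (Nat.ceil_lt_add_one (mul_nonneg t.2 (pow_nonneg (Nat.cast_nonneg p) e))).le
    have h8 : ((⌈(t : ℝ) * (p : ℝ) ^ e⌉₊ * k : ℕ) : ℝ≥0) ≤ k * t' * ((p ^ e : ℕ) : ℝ≥0) := by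
      rw [← NNReal.coe_le_coe]
      push_cast
      have h9 : (⌈(t : ℝ) * (p : ℝ) ^ e⌉₊ : ℝ) ≤ t' * (p : ℝ) ^ e := by
        refine le_trans h7 ?_
        change (t : ℝ) * (p : ℝ) ^ e + 1 ≤ _
        linarith
      have h10 := mul_le_mul_of_nonneg_right h9 (Nat.cast_nonneg (α := ℝ) k)
      linarith
    have h11 : ((⌈(t : ℝ) * (p : ℝ) ^ e⌉₊ * k : ℕ) : ℝ≥0∞) / ((p ^ e : ℕ) : ℝ≥0∞) ≤
        (k : ℝ≥0∞) * t' := by
      refine ENNReal.div_le_of_le_mul ?_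
      exact_mod_cast h8
    gcongr

end

end Pool.Agent.Lib.MP_4287a9_ag
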