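import Mathlib

/-!
Weighted resolution, formal layer: weighted ideals, saturation at a prime, centres and
certificates, inside an arbitrary commutative algebra `L`.
-/

namespace Pool.Agent.Lib.MP_4287a9_ag.Res

noncomputable section

variable {k L : Type} [Field k] [CommRing L] [Algebra k L] {N : ℕ}

/-- `q` is a prime ideal of `S`, seen inside `L`. -/
structure PrimeAt (S : Subalgebra k L) (q : Submodule S L) : Prop where
  sub : ∀ y ∈ q, y ∈ S
  one : (1 : L) ∉ q
  prime : ∀ a ∈ S, ∀ b ∈ S, a * b ∈ q → a ∈ q ∨ b ∈ q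

/-- `y` lies in the localization of `M` at `q`. -/
def Sat {S : Subalgebra k L} (q M : Submodule S L) (y : L) : Prop :=
  ∃ σ ∈ S, σ ∉ q ∧ σ * y ∈ M

/-- The principal submodule generated by `y`. -/
abbrev pr1 (S : Subalgebra k L) (y : L) : Submodule S L := Submodule.span S {y}

/-- `y` is a unit of `S`. -/
def UnitIn (S : Subalgebra k L) (y : L) : Prop := y ∈ S ∧ ∃ υ ∈ S, y * υ = 1

/-- The span of the monomials in the coordinates of positive weight that have weight `≥ d`. -/
def Jw (S : Subalgebra k L) (t : Fin N → L) (w : Fin N → ℚ) (d : ℚ) : Submodule S L :=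
  Submodule.span S {y | ∃ α : Fin N → ℕ, (∀ i, w i ≤ 0 → α i = 0) ∧ d ≤ ∑ i, w i * α i ∧
    y = ∏ i, t i ^ α i}

/-- The derivation preserves `S`. -/
def Pres (S : Subalgebra k L) (δ : Derivation k L L) : Prop := ∀ y ∈ S, δ y ∈ S

/-- One entry of the invariant: weight, and whether the coordinate is free. -/
def nuE (w : Fin N → ℚ) (fr : Fin N → Bool) (i : Fin N) : ℚ ×ₗ Bool :=
  toLex (w i, fr i && decide (0 < w i))

/-- The type of invariants. Larger means less singular. -/
abbrev Nu (N : ℕ) : Type := Lex (Fin N → ℚ ×ₗ Bool)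

/-- The invariant. -/
def nu (w : Fin N → ℚ) (fr : Fin N → Bool) : Nu N := toLex (nuE w fr)

/-- An admissible (pseudo-)centre at `q`. -/
structure IsCen (S : Subalgebra k L) (q : Submodule S L) (y : ℕ → L) (I : Set L) (t : Fin N → L)
    (w : Fin N → ℚ) (fr : Fin N → Bool) : Prop where
  nonneg : ∀ i, 0 ≤ w i
  anti : Antitone (nuE w fr)
  mem : ∀ i, 0 < w i → t i ∈ q
  div : ∀ i, 0 < w i → fr i = false → ∃ e, Sat q (pr1 S (y e)) (t i) ∧ Sat q (pr1 S (t i)) (y e)
  adm : ∀ f ∈ I, Sat q (Jw S t w 1) f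

/-- Apply a list of derivations. -/
def app (Ld : List (Derivation k L L × Fin N)) (f : L) : L := Ld.foldr (fun p z => p.1 z) f

/-- One step of a certificate. -/
def Step (S : Subalgebra k L) (G : Derivation k L L → Prop) (y : ℕ → L) (I : Set L)
    (x : Fin N → L) (w : Fin N → ℚ) (fr : Fin N → Bool) (j : Fin N) : Prop :=
  ∃ f ∈ Submodule.span S I, ∃ (Ld : List (Derivation k L L × Fin N)) (D : Derivation k L L),
    (∀ p ∈ Ld, p.2 ≤ j ∧ G p.1 ∧ Pres S p.1 ∧ ∀ i < p.2, p.1 (x i) = 0) ∧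
    (Ld.map fun p => w p.2).sum + w j = 1 ∧
    G D ∧ Pres S D ∧ (∀ i < j, D (x i) = 0) ∧ UnitIn S (D (app Ld f)) ∧
    (fr j = true → x j = app Ld f ∧ ∀ e, D (y e) ∈ pr1 S (y e)) ∧
    (fr j = false → ∃ e₀, x j ∈ pr1 S (y e₀) ∧ y e₀ ∈ pr1 S (x j) ∧
      ∀ e, e ≠ e₀ → D (y e) ∈ pr1 S (y e))

/-- A certificate for the bound `nu w fr`. -/
structure Cert (S : Subalgebra k L) (G : Derivation k L L → Prop) (y : ℕ → L) (I : Set L)
    (x : Fin N → L) (w : Fin N → ℚ) (fr : Fin N → Bool) : Prop where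
  nonneg : ∀ i, 0 ≤ w i
  anti : Antitone w
  mem : ∀ i, x i ∈ S
  step : ∀ j, 0 < w j → Step S G y I x w fr j

/-- The set of possible invariants. -/
def NuSet (N : ℕ) : Set (Nu N) :=
  {ν | ∃ (w : Fin N → ℚ) (fr : Fin N → Bool), ν = nu w fr ∧ (∀ i, 0 ≤ w i) ∧ Antitone w ∧
    ∀ j, 0 < w j → ∃ β : Fin N → ℕ, (∀ i, j < i → β i = 0) ∧ 1 ≤ β j ∧ ∑ i, w i * β i = 1}

/-- Every derivation on `S` that kills `T` vanishes: `S` is unramified over `k[T]`. -/
def Unr (S : Subalgebra k L) (T : Set L) : Prop :=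
  ∀ (M : Type) [AddCommGroup M] [Module k M] [Module S M] [IsScalarTower k S M]
    (D : Derivation k S M), (∀ y : S, (y : L) ∈ T → D y = 0) → D = 0

/-- Localization away from a unit of the ambient ring. -/
def away (S : Subalgebra k L) (σ : Lˣ) : Subalgebra k L :=
  Algebra.adjoin k ((S : Set L) ∪ {((σ⁻¹ : Lˣ) : L)})

/-- Composition of a list of derivations from a family. -/
def appI (D : Fin N → Derivation k L L) (Ls : List (Fin N)) (f : L) : L :=
  Ls.foldr (fun i z => D i z) f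

/-- Weights that agree with `w` below `j` and are constant `b` from `j` on. -/
def tail (w : Fin N → ℚ) (j : ℕ) (b : ℚ) : Fin N → ℚ := fun i => if (i : ℕ) < j then w i else b

/-- A critical triple: `D l (D Ls f)` does not vanish at `q` and the total weight is one. -/
def Crit {S : Subalgebra k L} (q : Submodule S L) (D : Fin N → Derivation k L L) (I : Set L)
    (w : Fin N → ℚ) (l : Fin N) : Prop :=
  ∃ f ∈ I, ∃ Ls : List (Fin N), (Ls.map w).sum + w l = 1 ∧ D l (appI D Ls f) ∉ q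

end

end Pool.Agent.Lib.MP_4287a9_ag.Res
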