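import Pool.Agent.Lib.MP_4287a9_ag.ResA

/-! Basic calculus of `Sat`, `Jw`, `away`, `Unr`. -/

namespace Pool.Agent.Lib.MP_4287a9_ag.Res

variable {k L : Type} [Field k] [CommRing L] [Algebra k L] {N : ℕ} {S : Subalgebra k L}

theorem mul_mem_sub {M : Submodule S L} {c y : L} (hc : c ∈ S) (hy : y ∈ M) : c * y ∈ M :=
  M.smul_mem (⟨c, hc⟩ : S) hy

theorem ResA1_smul (c : S) (y : L) : c • y = (c : L) * y := rfl

theorem mem_pr1 {y z : L} : z ∈ pr1 S y ↔ ∃ c ∈ S, z = c * y := by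
  rw [Submodule.mem_span_singleton]
  exact ⟨fun ⟨a, ha⟩ => ⟨a, a.2, ha.symm⟩, fun ⟨c, hc, h⟩ => ⟨⟨c, hc⟩, h.symm⟩⟩

theorem PrimeAt.mul_notMem {q : Submodule S L} (hq : PrimeAt S q) {a b : L} (ha : a ∈ S)
    (hb : b ∈ S) (ha' : a ∉ q) (hb' : b ∉ q) : a * b ∉ q := by
  exact fun h => (hq.prime a ha b hb h).elim ha' hb'

theorem PrimeAt.notMem_of_unitIn {q : Submodule S L} (hq : PrimeAt S q) {a : L}
    (ha : UnitIn S a) : a ∉ q := by
  obtain ⟨-, υ, hυ, h⟩ := ha
  intro h1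
  have := mul_mem_sub hυ h1
  rw [mul_comm, h] at this
  exact hq.one this

theorem Sat.of_mem {q M : Submodule S L} (hq : PrimeAt S q) {y : L} (hy : y ∈ M) : Sat q M y := by
  exact ⟨1, one_mem S, hq.one, by rwa [one_mul]⟩

theorem Sat.add {q M : Submodule S L} (hq : PrimeAt S q) {y z : L} (hy : Sat q M y)
    (hz : Sat q M z) : Sat q M (y + z) := by
  obtain ⟨s, hs, hs', ha⟩ := hy
  obtain ⟨r, hr, hr', hb⟩ := hz
  refine ⟨s * r, mul_mem hs hr, hq.mul_notMem hs hr hs' hr', ?_⟩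
  have : s * r * (y + z) = r * (s * y) + s * (r * z) := by ring
  rw [this]
  exact add_mem (mul_mem_sub hr ha) (mul_mem_sub hs hb)

theorem Sat.mul_left {q M : Submodule S L} {c y : L} (hc : c ∈ S) (hy : Sat q M y) :
    Sat q M (c * y) := by
  obtain ⟨s, hs, hs', ha⟩ := hy
  exact ⟨s, hs, hs', by rw [mul_left_comm]; exact mul_mem_sub hc ha⟩

theorem Sat.mono {q M M' : Submodule S L} (h : M ≤ M') {y : L} (hy : Sat q M y) : Sat q M' y := by
  obtain ⟨s, hs, hs', ha⟩ := hy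
  exact ⟨s, hs, hs', h ha⟩

theorem Sat.of_mul {q M : Submodule S L} (hq : PrimeAt S q) {σ y : L} (hσ : σ ∈ S) (hσ' : σ ∉ q)
    (hy : Sat q M (σ * y)) : Sat q M y := by
  obtain ⟨s, hs, hs', ha⟩ := hy
  exact ⟨s * σ, mul_mem hs hσ, hq.mul_notMem hs hσ hs' hσ', by rwa [mul_assoc]⟩

/-- Saturation is idempotent, in the form needed for spans. -/
theorem Sat.span {q M : Submodule S L} (hq : PrimeAt S q) {T : Set L} (hT : ∀ z ∈ T, Sat q M z)
    {y : L} (hy : Sat q (Submodule.span S T) y) : Sat q M y := by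
  obtain ⟨s, hs, hs', ha⟩ := hy
  refine Sat.of_mul hq hs hs' ?_
  generalize s * y = z at ha
  induction ha using Submodule.span_induction with
  | mem z hz => exact hT z hz
  | zero => exact Sat.of_mem hq (zero_mem M)
  | add a b _ _ ha hb => exact ha.add hq hb
  | smul r a _ ih => exact ih.mul_left r.2

theorem Sat.mem_of_le {q M : Submodule S L} (hq : PrimeAt S q) (h : M ≤ q) {y : L} (hyS : y ∈ S)
    (hy : Sat q M y) : y ∈ q := by
  obtain ⟨s, hs, hs', ha⟩ := hy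
  exact (hq.prime s hs y hyS (h ha)).resolve_left hs'

/-- Local-global principle: the ideal `{σ ∈ S | σ * y ∈ M}` of `S` lies in no maximal ideal. -/
theorem mem_of_forall_sat {M : Submodule S L} {y : L}
    (h : ∀ q : Submodule S L, PrimeAt S q → Sat q M y) : y ∈ M := by
  by_contra hy
  have hA : (M.comap (LinearMap.toSpanSingleton S L y) : Ideal S) ≠ ⊤ := by
    rw [Ideal.ne_top_iff_one]
    intro h1
    rw [Submodule.mem_comap, LinearMap.toSpanSingleton_apply, one_smul] at h1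
    exact hy h1
  obtain ⟨m, hm, hAm⟩ := Ideal.exists_le_maximal _ hA
  have hmem : ∀ (a : L) (ha : a ∈ S),
      a ∈ Submodule.map (Algebra.linearMap S L) m ↔ (⟨a, ha⟩ : S) ∈ m := fun a ha =>
    ⟨fun ⟨s, hs, e⟩ => by rwa [show (⟨a, ha⟩ : S) = s from Subtype.ext e.symm],
      fun h => ⟨_, h, rfl⟩⟩
  obtain ⟨s, hs, hs', ha⟩ := h (Submodule.map (Algebra.linearMap S L) m)
    ⟨fun _ ⟨s, _, e⟩ => e ▸ s.2,
      fun h1 => (Ideal.ne_top_iff_one m).1 hm.ne_top ((hmem 1 (one_mem S)).1 h1),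
      fun a ha b hb hab => by
        rw [hmem a ha, hmem b hb]
        exact hm.isPrime.mem_or_mem ((hmem _ (mul_mem ha hb)).1 hab)⟩
  exact hs' ((hmem s hs).2 (hAm ha))

theorem ResA1_mono_mem (t : Fin N → L) (w : Fin N → ℚ) {d : ℚ} (α : Fin N → ℕ)
    (h0 : ∀ i, w i ≤ 0 → α i = 0) (h : d ≤ ∑ i, w i * α i) : ∏ i, t i ^ α i ∈ Jw S t w d :=
  Submodule.subset_span ⟨α, h0, h, rfl⟩

theorem ResA1_pos {w : Fin N → ℚ} {α : Fin N → ℕ} (h0 : ∀ i, w i ≤ 0 → α i = 0) {i : Fin N}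
    (h : α i ≠ 0) : 0 < w i := not_le.1 fun h' => h (h0 i h')

theorem Jw_mono (t : Fin N → L) (w : Fin N → ℚ) {d d' : ℚ} (h : d' ≤ d) :
    Jw S t w d ≤ Jw S t w d' := by
  exact Submodule.span_mono fun _ ⟨a, h0, ha, hz⟩ => ⟨a, h0, h.trans ha, hz⟩

theorem Jw_mul {t : Fin N → L} {w : Fin N → ℚ} {d d' : ℚ} {y z : L} (hy : y ∈ Jw S t w d)
    (hz : z ∈ Jw S t w d') : y * z ∈ Jw S t w (d + d') := by
  induction hy using Submodule.span_induction with
  | mem y hy =>
    obtain ⟨a, ha0, ha, rfl⟩ := hy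
    induction hz using Submodule.span_induction with
    | mem z hz =>
      obtain ⟨b, hb0, hb, rfl⟩ := hz
      have := ResA1_mono_mem (S := S) t w (d := d + d') (a + b)
        (fun i hi => by rw [Pi.add_apply, ha0 i hi, hb0 i hi]) (by
          simp only [Pi.add_apply, Nat.cast_add, mul_add, Finset.sum_add_distrib]
          exact add_le_add ha hb)
      simpa only [Pi.add_apply, pow_add, Finset.prod_mul_distrib] using this
    | zero => rw [mul_zero]; exact zero_mem _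
    | add u v _ _ hu hv => rw [mul_add]; exact add_mem hu hv
    | smul r u _ ih => rw [ResA1_smul, mul_left_comm]; exact mul_mem_sub r.2 ih
  | zero => rw [zero_mul]; exact zero_mem _
  | add u v _ _ hu hv => rw [add_mul]; exact add_mem hu hv
  | smul r u _ ih => rw [ResA1_smul, mul_assoc]; exact mul_mem_sub r.2 ih

theorem one_mem_Jw (t : Fin N → L) (w : Fin N → ℚ) {d : ℚ} (h : d ≤ 0) : (1 : L) ∈ Jw S t w d := by
  simpa using ResA1_mono_mem (S := S) t w (d := d) 0 (fun _ _ => rfl) (by simpa using h)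

theorem self_mem_Jw (t : Fin N → L) (w : Fin N → ℚ) {i : Fin N} (h : 0 < w i) :
    t i ∈ Jw S t w (w i) := by
  have h1 := ResA1_mono_mem (S := S) t w (d := w i) (Pi.single i 1)
    (fun j hj => Pi.single_eq_of_ne (fun e : j = i => absurd h (not_lt.2 (e ▸ hj))) _) (by
      rw [Finset.sum_eq_single i] <;> simp +contextual)
  rwa [Finset.prod_eq_single i, Pi.single_eq_same, pow_one] at h1
  · intro b _ hb
    simp [hb]
  · simp

theorem ResA1_mono_S {t : Fin N → L} {w : Fin N → ℚ} (ht : ∀ i, 0 < w i → t i ∈ S)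
    {α : Fin N → ℕ} (h0 : ∀ i, w i ≤ 0 → α i = 0) (i : Fin N) : t i ^ α i ∈ S := by
  by_cases h : α i = 0
  · rw [h, pow_zero]
    exact one_mem S
  · exact pow_mem (ht i (ResA1_pos h0 h)) _

theorem Jw_le_subalgebra {t : Fin N → L} {w : Fin N → ℚ} (ht : ∀ i, 0 < w i → t i ∈ S) {d : ℚ}
    {y : L} (hy : y ∈ Jw S t w d) : y ∈ S := by
  induction hy using Submodule.span_induction with
  | mem y hy =>
    obtain ⟨a, ha0, -, rfl⟩ := hy
    exact prod_mem fun i _ => ResA1_mono_S ht ha0 i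
  | zero => exact zero_mem S
  | add u v _ _ hu hv => exact add_mem hu hv
  | smul r u _ ih => exact mul_mem r.2 ih

theorem Jw_le_prime {q : Submodule S L} (hq : PrimeAt S q) {t : Fin N → L} {w : Fin N → ℚ}
    (ht : ∀ i, 0 < w i → t i ∈ q) {d : ℚ} (hd : 0 < d) : Jw S t w d ≤ q := by
  refine Submodule.span_le.2 ?_
  rintro _ ⟨a, ha0, ha, rfl⟩
  have hS : ∀ i, 0 < w i → t i ∈ S := fun i hi => hq.sub _ (ht i hi)
  obtain ⟨i, hi⟩ : ∃ i, a i ≠ 0 := by
    by_contra h
    push Not at h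
    simp only [h, Nat.cast_zero, mul_zero, Finset.sum_const_zero] at ha
    exact absurd hd (not_lt.2 ha)
  obtain ⟨m, hm⟩ := Nat.exists_eq_succ_of_ne_zero hi
  rw [← Finset.prod_erase_mul _ _ (Finset.mem_univ i), hm, pow_succ, ← mul_assoc]
  exact mul_mem_sub (mul_mem (prod_mem fun j _ => ResA1_mono_S hS ha0 j)
    (pow_mem (hS i (ResA1_pos ha0 hi)) _)) (ht i (ResA1_pos ha0 hi))

/-- Extension of the ring. -/
theorem Jw_le_of_le {S' : Subalgebra k L} (h : S ≤ S') {t : Fin N → L} {w : Fin N → ℚ} {d : ℚ}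
    {y : L} (hy : y ∈ Jw S t w d) : y ∈ Jw S' t w d := by
  induction hy using Submodule.span_induction with
  | mem y hy => exact Submodule.subset_span hy
  | zero => exact zero_mem _
  | add u v _ _ hu hv => exact add_mem hu hv
  | smul r u _ ih => exact mul_mem_sub (h r.2) ih

theorem ResA1_perm_le (t : Fin N → L) (w : Fin N → ℚ) (π : Equiv.Perm (Fin N)) (d : ℚ) :
    Jw S (t ∘ π) (w ∘ π) d ≤ Jw S t w d := by
  refine Submodule.span_mono ?_
  rintro _ ⟨a, ha0, ha, rfl⟩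
  refine ⟨a ∘ π.symm, fun i hi => ha0 _ (by simpa using hi), ha.trans (le_of_eq ?_), ?_⟩
  · exact Fintype.sum_equiv π _ _ fun i => by simp
  · exact Fintype.prod_equiv π _ _ fun i => by simp

theorem Jw_perm (t : Fin N → L) (w : Fin N → ℚ) (π : Equiv.Perm (Fin N)) (d : ℚ) :
    Jw S (t ∘ π) (w ∘ π) d = Jw S t w d := by
  refine le_antisymm (ResA1_perm_le t w π d) ?_
  have := ResA1_perm_le (S := S) (t ∘ π) (w ∘ π) π.symm d
  rwa [Function.comp_assoc, Function.comp_assoc, Equiv.self_comp_symm, Function.comp_id,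
    Function.comp_id] at this

theorem Jw_congr {t t' : Fin N → L} {w : Fin N → ℚ} (h : ∀ i, 0 < w i → t i = t' i) (d : ℚ) :
    Jw S t w d = Jw S t' w d := by
  have key : ∀ a : Fin N → ℕ, (∀ i, w i ≤ 0 → a i = 0) → ∏ i, t i ^ a i = ∏ i, t' i ^ a i :=
    fun a ha => Finset.prod_congr rfl fun i _ => by
      by_cases hi : a i = 0
      · rw [hi, pow_zero, pow_zero]
      · rw [h i (ResA1_pos ha hi)]
  refine le_antisymm (Submodule.span_mono ?_) (Submodule.span_mono ?_)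
  · rintro _ ⟨a, ha0, ha, rfl⟩
    exact ⟨a, ha0, ha, key a ha0⟩
  · rintro _ ⟨a, ha0, ha, rfl⟩
    exact ⟨a, ha0, ha, (key a ha0).symm⟩

theorem ResA1_sat_mul {q : Submodule S L} (hq : PrimeAt S q) {t : Fin N → L} {w : Fin N → ℚ}
    {d d' : ℚ} {a b : L} (ha : Sat q (Jw S t w d) a) (hb : Sat q (Jw S t w d') b) :
    Sat q (Jw S t w (d + d')) (a * b) := by
  obtain ⟨s, hs, hs', ha⟩ := ha
  obtain ⟨r, hr, hr', hb⟩ := hb
  refine ⟨s * r, mul_mem hs hr, hq.mul_notMem hs hr hs' hr', ?_⟩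
  rw [mul_mul_mul_comm]
  exact Jw_mul ha hb

theorem ResA1_sat_pow {q : Submodule S L} (hq : PrimeAt S q) {t : Fin N → L} {w : Fin N → ℚ}
    {d : ℚ} {a : L} (ha : Sat q (Jw S t w d) a) (m : ℕ) :
    Sat q (Jw S t w (d * m)) (a ^ m) := by
  induction m with
  | zero => rw [pow_zero]; exact Sat.of_mem hq (one_mem_Jw t w (by simp))
  | succ m ih =>
    rw [pow_succ, Nat.cast_succ, mul_add, mul_one]
    exact ResA1_sat_mul hq ih ha

theorem sat_Jw_of_coord {q : Submodule S L} (hq : PrimeAt S q) {t t' : Fin N → L} {w : Fin N → ℚ}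
    (h : ∀ i, 0 < w i → Sat q (Jw S t w (w i)) (t' i)) {d : ℚ} {y : L}
    (hy : Sat q (Jw S t' w d) y) : Sat q (Jw S t w d) y := by
  refine Sat.span hq ?_ hy
  rintro _ ⟨a, ha0, ha, rfl⟩
  refine Sat.mono (Jw_mono t w ha) ?_
  have : ∀ u : Finset (Fin N), Sat q (Jw S t w (∑ i ∈ u, w i * a i)) (∏ i ∈ u, t' i ^ a i) := by
    intro u
    induction u using Finset.induction_on with
    | empty => exact Sat.of_mem hq (one_mem_Jw t w (by simp))
    | insert i u hi ih =>
      rw [Finset.prod_insert hi, Finset.sum_insert hi]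
      refine ResA1_sat_mul hq ?_ ih
      by_cases h1 : a i = 0
      · rw [h1, pow_zero]
        exact Sat.of_mem hq (one_mem_Jw t w (by simp))
      · exact ResA1_sat_pow hq (h i (ResA1_pos ha0 h1)) _
  exact this _

/-- If a coordinate of positive weight does not vanish at `q`, the centre is trivial at `q`. -/
theorem sat_Jw_of_notMem {q : Submodule S L} (hq : PrimeAt S q) {t : Fin N → L} {w : Fin N → ℚ}
    {i : Fin N} (hi : 0 < w i) (hS : t i ∈ S) (h : t i ∉ q) (d : ℚ) {y : L} (hy : y ∈ S) :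
    Sat q (Jw S t w d) y := by
  obtain ⟨m, hm⟩ := Archimedean.arch d hi
  have h1 : ∀ n : ℕ, t i ^ n ∉ q := fun n => by
    induction n with
    | zero => rw [pow_zero]; exact hq.one
    | succ n ih => rw [pow_succ]; exact hq.mul_notMem (pow_mem hS n) hS ih h
  refine Sat.of_mul hq (pow_mem hS m) (h1 m) ?_
  rw [mul_comm]
  refine Sat.mul_left hy (Sat.mono (Jw_mono t w ?_)
    (ResA1_sat_pow hq (Sat.of_mem hq (self_mem_Jw t w hi)) m))
  rwa [nsmul_eq_mul, mul_comm] at hm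

theorem ResA1_deriv_prod (D : Derivation k L L) {ι : Type} [DecidableEq ι] (u : Finset ι)
    (f : ι → L) : D (∏ i ∈ u, f i) = ∑ l ∈ u, (∏ i ∈ u.erase l, f i) * D (f l) := by
  induction u using Finset.induction_on with
  | empty => simp
  | insert j u hj ih =>
    rw [Finset.prod_insert hj, Finset.sum_insert hj, Derivation.leibniz, ih, Finset.erase_insert hj,
      smul_eq_mul, smul_eq_mul, add_comm, Finset.mul_sum]
    congr 1
    refine Finset.sum_congr rfl fun l hl => ?_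
    have hjl : j ≠ l := fun h => hj (h ▸ hl)
    rw [Finset.erase_insert_of_ne hjl,
      Finset.prod_insert fun h => hj (Finset.mem_of_mem_erase h), mul_assoc]

theorem ResA1_deriv_mono (D : Derivation k L L) (t : Fin N → L) (a : Fin N → ℕ) :
    D (∏ i, t i ^ a i) = ∑ l, (a l : L) * D (t l) *
      ∏ i, t i ^ (a - Pi.single l 1 : Fin N → ℕ) i := by
  rw [ResA1_deriv_prod]
  refine Finset.sum_congr rfl fun l _ => ?_
  rw [Derivation.leibniz_pow, ← Finset.mul_prod_erase _ _ (Finset.mem_univ l)]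
  have : ∏ i ∈ Finset.univ.erase l, t i ^ (a - Pi.single l 1 : Fin N → ℕ) i =
      ∏ i ∈ Finset.univ.erase l, t i ^ a i :=
    Finset.prod_congr rfl fun i hi => by simp [Finset.ne_of_mem_erase hi]
  rw [this]
  simp only [Pi.sub_apply, Pi.single_eq_same, smul_eq_mul, nsmul_eq_mul]
  ring

theorem ResA1_weight_sub (w : Fin N → ℚ) {a : Fin N → ℕ} {l : Fin N} (h : a l ≠ 0) :
    ∑ i, w i * ((a - Pi.single l 1 : Fin N → ℕ) i : ℚ) = ∑ i, w i * (a i : ℚ) - w l := by
  rw [← Finset.add_sum_erase _ _ (Finset.mem_univ l),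
    ← Finset.add_sum_erase _ (fun i => w i * (a i : ℚ)) (Finset.mem_univ l)]
  have : ∑ i ∈ Finset.univ.erase l, w i * ((a - Pi.single l 1 : Fin N → ℕ) i : ℚ) =
      ∑ i ∈ Finset.univ.erase l, w i * (a i : ℚ) :=
    Finset.sum_congr rfl fun i hi => by simp [Finset.ne_of_mem_erase hi]
  rw [this]
  simp only [Pi.sub_apply, Pi.single_eq_same]
  rw [Nat.cast_sub (Nat.pos_of_ne_zero h)]
  push_cast
  ring

/-- A derivation that kills the coordinates of weight `> c` lowers the weight by at most `c`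
(Leibniz rule on `s * ∏ t ^ α`). -/
theorem deriv_mem_Jw {t : Fin N → L} {w : Fin N → ℚ} (ht : ∀ i, 0 < w i → t i ∈ S)
    {δ : Derivation k L L} (hδ : Pres S δ) {c : ℚ} (hc : 0 ≤ c) (h : ∀ i, c < w i → δ (t i) = 0)
    {d : ℚ} {y : L} (hy : y ∈ Jw S t w d) : δ y ∈ Jw S t w (d - c) := by
  induction hy using Submodule.span_induction with
  | mem z hz =>
    obtain ⟨a, ha0, ha, rfl⟩ := hz
    rw [ResA1_deriv_mono]
    refine Submodule.sum_mem _ fun l _ => ?_
    by_cases hl : a l = 0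
    · simp [hl]
    rcases lt_or_ge c (w l) with h1 | h1
    · simp [h l h1]
    · refine mul_mem_sub (mul_mem (natCast_mem S _) (hδ _ (ht l (ResA1_pos ha0 hl))))
        (ResA1_mono_mem t w _ (fun i hi => ?_) ?_)
      · rw [Pi.sub_apply, ha0 i hi, Nat.zero_sub]
      · rw [ResA1_weight_sub w hl]
        linarith
  | zero => rw [map_zero]; exact zero_mem _
  | add a b _ _ ha hb => rw [map_add]; exact add_mem ha hb
  | smul r a ha ih =>
    rw [ResA1_smul, Derivation.leibniz, smul_eq_mul, smul_eq_mul, mul_comm a]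
    exact add_mem (mul_mem_sub r.2 ih)
      (mul_mem_sub (hδ _ r.2) (Jw_mono t w (by linarith) ha))

/-- `σ² δ y = σ δ (σ y) - δ σ (σ y)`. -/
theorem deriv_sat_Jw {q : Submodule S L} (hq : PrimeAt S q) {t : Fin N → L} {w : Fin N → ℚ}
    (ht : ∀ i, 0 < w i → t i ∈ S) {δ : Derivation k L L} (hδ : Pres S δ) {c : ℚ} (hc : 0 ≤ c)
    (h : ∀ i, c < w i → δ (t i) = 0) {d : ℚ} {y : L} (hy : Sat q (Jw S t w d) y) :
    Sat q (Jw S t w (d - c)) (δ y) := by
  obtain ⟨s, hs, hs', hz⟩ := hy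
  have h1 := deriv_mem_Jw ht hδ hc h hz
  refine ⟨s * s, mul_mem hs hs, hq.mul_notMem hs hs hs' hs', ?_⟩
  have : s * s * δ y = s * δ (s * y) - δ s * (s * y) := by
    rw [Derivation.leibniz, smul_eq_mul, smul_eq_mul]
    ring
  rw [this]
  exact sub_mem (mul_mem_sub hs h1) (mul_mem_sub (hδ _ hs) (Jw_mono t w (by linarith) hz))

end Pool.Agent.Lib.MP_4287a9_ag.Res
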