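import Pool.Agent.Lib.MP_4287a9_ag.ResA1

/-! Basic calculus of `away`, `Pres`, `Unr`. -/

namespace Pool.Agent.Lib.MP_4287a9_ag.Res

variable {k L : Type} [Field k] [CommRing L] [Algebra k L] {N : ℕ} {S : Subalgebra k L}

theorem le_away (σ : Lˣ) : S ≤ away S σ := by
  exact fun y hy => Algebra.subset_adjoin (Or.inl hy)

theorem inv_mem_away (σ : Lˣ) : ((σ⁻¹ : Lˣ) : L) ∈ away S σ := by
  exact Algebra.subset_adjoin (Or.inr rfl)

theorem away_le {S' : Subalgebra k L} {σ : Lˣ} (h : S ≤ S') (h' : ((σ⁻¹ : Lˣ) : L) ∈ S') :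
    away S σ ≤ S' := by
  refine Algebra.adjoin_le ?_
  rintro y (hy | rfl)
  · exact h hy
  · exact h'

theorem mem_away {σ : Lˣ} (hσ : (σ : L) ∈ S) {y : L} :
    y ∈ away S σ ↔ ∃ m : ℕ, (σ : L) ^ m * y ∈ S := by
  constructor
  · intro hy
    induction hy using Algebra.adjoin_induction with
    | mem x hx =>
      rcases hx with hx | rfl
      · exact ⟨0, by rwa [pow_zero, one_mul]⟩
      · exact ⟨1, by rw [pow_one, Units.mul_inv]; exact one_mem _⟩
    | algebraMap r => exact ⟨0, by rw [pow_zero, one_mul]; exact S.algebraMap_mem r⟩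
    | add x y _ _ hx hy =>
      obtain ⟨i, hi⟩ := hx
      obtain ⟨j, hj⟩ := hy
      refine ⟨i + j, ?_⟩
      have : (σ : L) ^ (i + j) * (x + y) =
          (σ : L) ^ j * ((σ : L) ^ i * x) + (σ : L) ^ i * ((σ : L) ^ j * y) := by ring
      rw [this]
      exact add_mem (mul_mem (pow_mem hσ j) hi) (mul_mem (pow_mem hσ i) hj)
    | mul x y _ _ hx hy =>
      obtain ⟨i, hi⟩ := hx
      obtain ⟨j, hj⟩ := hy
      refine ⟨i + j, ?_⟩
      have : (σ : L) ^ (i + j) * (x * y) = ((σ : L) ^ i * x) * ((σ : L) ^ j * y) := by ring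
      rw [this]
      exact mul_mem hi hj
  · rintro ⟨m, hm⟩
    have : y = ((σ⁻¹ : Lˣ) : L) ^ m * ((σ : L) ^ m * y) := by
      rw [← mul_assoc, ← mul_pow, Units.inv_mul, one_pow, one_mul]
    rw [this]
    exact mul_mem (pow_mem (inv_mem_away σ) m) (le_away σ hm)

theorem resA2_pres {T : Set L} {δ : Derivation k L L}
    (h : ∀ y ∈ T, δ y ∈ Algebra.adjoin k T) : Pres (Algebra.adjoin k T) δ := by
  intro w hw
  induction hw using Algebra.adjoin_induction with
  | mem x hx => exact h x hx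
  | algebraMap r => rw [Derivation.map_algebraMap]; exact zero_mem _
  | add x y _ _ hx hy => rw [map_add]; exact add_mem hx hy
  | mul x y hx' hy' hx hy =>
    rw [Derivation.leibniz, smul_eq_mul, smul_eq_mul]
    exact add_mem (mul_mem hx' hy) (mul_mem hy' hx)

theorem Pres.away {σ : Lˣ} (hσ : (σ : L) ∈ S) {δ : Derivation k L L} (h : Pres S δ) :
    Pres (away S σ) δ := by
  refine resA2_pres ?_
  rintro y (hy | rfl)
  · exact le_away σ (h y hy)
  · rw [δ.leibniz_of_mul_eq_one (Units.inv_mul σ), neg_smul, smul_eq_mul]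
    exact neg_mem (mul_mem (pow_mem (inv_mem_away σ) 2) (le_away σ (h _ hσ)))

theorem Pres.adjoin {T : Set L} {δ : Derivation k L L} (h : ∀ y ∈ T, δ y ∈ Algebra.adjoin k T) :
    Pres (Algebra.adjoin k T) δ := by
  exact resA2_pres h

theorem resA2_apply {T : Set L} (h : Unr S T) {M : Type} [AddCommGroup M] [Module k M]
    [Module S M] [IsScalarTower k S M] (f : S →ₗ[k] M)
    (hf : ∀ a b : S, f (a * b) = a • f b + b • f a) (h0 : ∀ y : S, (y : L) ∈ T → f y = 0)
    (y : S) : f y = 0 :=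
  DFunLike.congr_fun (h M (Derivation.mk' f hf) h0) y

/-- The elements of `S` killed by a derivation. -/
def resA2_ker {M : Type} [AddCommGroup M] [Module k M] [Module S M] [IsScalarTower k S M]
    (D : Derivation k S M) : Subalgebra k L where
  carrier := {y | ∃ h : y ∈ S, D ⟨y, h⟩ = 0}
  mul_mem' := by
    rintro a b ⟨ha, ha'⟩ ⟨hb, hb'⟩
    refine ⟨mul_mem ha hb, ?_⟩
    have := D.leibniz ⟨a, ha⟩ ⟨b, hb⟩
    rw [ha', hb', smul_zero, smul_zero, add_zero] at this
    exact this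
  add_mem' := by
    rintro a b ⟨ha, ha'⟩ ⟨hb, hb'⟩
    refine ⟨add_mem ha hb, ?_⟩
    have := map_add D ⟨a, ha⟩ ⟨b, hb⟩
    rw [ha', hb', add_zero] at this
    exact this
  algebraMap_mem' r := ⟨S.algebraMap_mem r, D.map_algebraMap r⟩

/-- Restrict the derivation to `S` (`Subalgebra.inclusion`, `Module.compHom`), conclude that it
kills `S`, then use `Algebra.adjoin_induction`. `hT`: the old coordinates lie in the algebra
generated by the new ones; `hU`: the new generators are new coordinates, or inverses of elements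
of the algebra generated by `S` and the new coordinates. -/
theorem Unr.extend {T T' U : Set L} (h : Unr S T) {S' : Subalgebra k L}
    (hS' : S' = Algebra.adjoin k ((S : Set L) ∪ U)) (hT' : ∀ y ∈ T', y ∈ S')
    (hT : ∀ y ∈ T, y ∈ S → y ∈ Algebra.adjoin k T')
    (hU : ∀ y ∈ U, y ∈ T' ∨ ∃ z ∈ Algebra.adjoin k ((S : Set L) ∪ T'), z * y = 1) :
    Unr S' T' := by
  intro M _ _ _ _ D hD
  have hle : S ≤ S' := by
    rw [hS']
    exact fun y hy => Algebra.subset_adjoin (Or.inl hy)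
  have h1 : T' ⊆ resA2_ker D := fun y hy => ⟨hT' y hy, hD _ hy⟩
  have h2 : Algebra.adjoin k T' ≤ resA2_ker D := Algebra.adjoin_le h1
  have h3 : (S : Set L) ⊆ resA2_ker D := by
    let _ : Module S M := Module.compHom M (Subalgebra.inclusion hle).toRingHom
    have : IsScalarTower k S M := ⟨fun c a m => by
      change Subalgebra.inclusion hle (c • a) • m = c • (Subalgebra.inclusion hle a • m)
      rw [map_smul, smul_assoc]⟩
    intro y hy
    refine ⟨hle hy, resA2_apply h (D.toLinearMap ∘ₗ (Subalgebra.inclusion hle).toLinearMap)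
      (fun a b => D.leibniz (Subalgebra.inclusion hle a) (Subalgebra.inclusion hle b))
      (fun z hz => ?_) ⟨y, hy⟩⟩
    obtain ⟨_, h4⟩ := h2 (hT z hz z.2)
    exact h4
  have h4 : Algebra.adjoin k ((S : Set L) ∪ T') ≤ resA2_ker D :=
    Algebra.adjoin_le (Set.union_subset h3 h1)
  have h5 : U ⊆ resA2_ker D := by
    intro y hy
    rcases hU y hy with h6 | ⟨z, hz, hzy⟩
    · exact h1 h6
    · have hyS : y ∈ S' := by
        rw [hS']
        exact Algebra.subset_adjoin (Or.inr hy)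
      obtain ⟨hzS, hz0⟩ := h4 hz
      refine ⟨hyS, ?_⟩
      have h7 : (⟨y, hyS⟩ : S') * ⟨z, hzS⟩ = 1 := Subtype.ext ((mul_comm y z).trans hzy)
      rw [D.leibniz_of_mul_eq_one h7, hz0, smul_zero]
  have h6 : Algebra.adjoin k ((S : Set L) ∪ U) ≤ resA2_ker D :=
    Algebra.adjoin_le (Set.union_subset h3 h5)
  rw [← hS'] at h6
  ext y
  obtain ⟨_, h7⟩ := h6 y.2
  exact h7

/-- Change of one coordinate: if `D` kills `g` and all elements of `T` other than `x`, then
`D - δ(·) • D x` kills `T`, so `0 = D g = δ g • D x`. -/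
theorem Unr.replace {T : Set L} (h : Unr S T) {x g : L} (hx : x ∈ S) (hg : g ∈ S)
    {δ : Derivation k L L} (hδ : Pres S δ) (h1 : δ x = 1) (h0 : ∀ y ∈ T, y ≠ x → δ y = 0)
    (hu : UnitIn S (δ g)) : Unr S ((T \ {x}) ∪ {g}) := by
  intro M _ _ _ _ D hD
  let e : S →ₗ[k] S :=
    { toFun := fun y => ⟨δ y, hδ _ y.2⟩
      map_add' := fun a b => Subtype.ext (map_add δ (a : L) b)
      map_smul' := fun c a => Subtype.ext (δ.map_smul c (a : L)) }
  have he : ∀ a b : S, e (a * b) = a * e b + b * e a := fun a b =>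
    Subtype.ext (δ.leibniz (a : L) b)
  have key := resA2_apply h (D.toLinearMap - e.smulRight (D ⟨x, hx⟩)) (fun a b => by
      change D (a * b) - e (a * b) • D ⟨x, hx⟩ =
        a • (D b - e b • D ⟨x, hx⟩) + b • (D a - e a • D ⟨x, hx⟩)
      rw [D.leibniz, he, add_smul, mul_smul, mul_smul, smul_sub, smul_sub]
      abel) (fun y hy => by
      change D y - e y • D ⟨x, hx⟩ = 0
      by_cases hyx : (y : L) = x
      · have e1 : y = ⟨x, hx⟩ := Subtype.ext hyx
        have e2 : e ⟨x, hx⟩ = 1 := Subtype.ext h1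
        rw [e1, e2, one_smul, sub_self]
      · have e2 : e y = 0 := Subtype.ext (h0 _ hy hyx)
        rw [e2, zero_smul, sub_zero]
        exact hD y (Or.inl ⟨hy, hyx⟩))
  have key' : ∀ y, D y = e y • D ⟨x, hx⟩ := fun y => sub_eq_zero.1 (key y)
  obtain ⟨_, υ, hυ, hυ'⟩ := hu
  have h2 : (⟨υ, hυ⟩ : S) * e ⟨g, hg⟩ = 1 := Subtype.ext ((mul_comm υ (δ g)).trans hυ')
  have h3 : D ⟨x, hx⟩ = 0 := by
    rw [← one_smul S (D ⟨x, hx⟩), ← h2, mul_smul, ← key', hD ⟨g, hg⟩ (Or.inr rfl), smul_zero]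
  ext y
  rw [key', h3, smul_zero]
  rfl

theorem Unr.mono {T T' : Set L} (h : Unr S T) (hT : ∀ y ∈ T, y ∈ T') : Unr S T' := by
  exact fun M _ _ _ _ D hD => h M D fun y hy => hD y (hT _ hy)

/-- Use `M = L`. -/
theorem Unr.eq_zero {T : Set L} (h : Unr S T) (δ : Derivation k L L) (h0 : ∀ y ∈ T, δ y = 0)
    {y : L} (hy : y ∈ S) : δ y = 0 := by
  exact resA2_apply h (δ.toLinearMap ∘ₗ S.val.toLinearMap) (fun a b => δ.leibniz (a : L) b)
    (fun z hz => h0 _ hz) ⟨y, hy⟩

/-- Use `M = L ⧸ S` (quotient by the span of `1`). -/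
theorem Unr.pres {T : Set L} (h : Unr S T) (δ : Derivation k L L) (h0 : ∀ y ∈ T, δ y ∈ S) :
    Pres S δ := by
  have hS : ∀ z : L, z ∈ pr1 S 1 ↔ z ∈ S := fun z => by
    rw [Submodule.mem_span_singleton]
    constructor
    · rintro ⟨c, rfl⟩
      exact mul_mem c.2 (one_mem S)
    · exact fun hz => ⟨⟨z, hz⟩, mul_one z⟩
  intro y hy
  have key := resA2_apply h (M := L ⧸ pr1 S 1)
    (((pr1 S 1).mkQ.restrictScalars k) ∘ₗ δ.toLinearMap ∘ₗ S.val.toLinearMap) (fun a b => by
      change (pr1 S 1).mkQ (δ (a * b : L)) = a • (pr1 S 1).mkQ (δ b) + b • (pr1 S 1).mkQ (δ a)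
      rw [← (pr1 S 1).mkQ.map_smul, ← (pr1 S 1).mkQ.map_smul, ← map_add, δ.leibniz]
      rfl)
    (fun z hz => (Submodule.Quotient.mk_eq_zero _).2 ((hS _).2 (h0 _ hz))) ⟨y, hy⟩
  exact (hS _).1 ((Submodule.Quotient.mk_eq_zero _).1 key)

end Pool.Agent.Lib.MP_4287a9_ag.Res
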