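import Mathlib

/-!
Weighted centres: the key comparison lemma.
-/

namespace Pool.Agent.Lib.MP_4287a9_ag.Res.Abs

noncomputable section

variable {k S : Type} [CommRing k] [CommRing S] [Algebra k S] {N : ℕ}

/-- The ideal spanned by the monomials in `t` of weight at least `d`. -/
def wJ (t : Fin N → S) (w : Fin N → ℚ) (d : ℚ) : Ideal S :=
  Ideal.span {z | ∃ a : Fin N → ℕ, d ≤ ∑ i, (a i : ℚ) * w i ∧ z = ∏ i, t i ^ a i}

/-- Saturation of `I` at the prime `q`. -/
def sat (q : Ideal S) [hq : q.IsPrime] (I : Ideal S) : Ideal S where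
  carrier := {z | ∃ s, s ∉ q ∧ s * z ∈ I}
  add_mem' := by
    rintro a b ⟨s, hs, ha⟩ ⟨s', hs', hb⟩
    refine ⟨s * s', fun h => (hq.mem_or_mem h).elim hs hs', ?_⟩
    have : s * s' * (a + b) = s' * (s * a) + s * (s' * b) := by ring
    rw [this]
    exact add_mem (I.mul_mem_left _ ha) (I.mul_mem_left _ hb)
  zero_mem' := ⟨1, (Ideal.ne_top_iff_one q).1 hq.ne_top, by simp⟩
  smul_mem' := by
    rintro c a ⟨s, hs, ha⟩
    refine ⟨s, hs, ?_⟩
    rw [smul_eq_mul, mul_left_comm]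
    exact I.mul_mem_left _ ha

/-- Iterated application of a list of derivations. -/
def app (L : List (Derivation k S S × Fin N)) (f : S) : S := L.foldr (fun p z => p.1 z) f

/-- `a` and `b` are associated at `q`. -/
def AsAt (q : Ideal S) (a b : S) : Prop := ∃ s s', s ∉ q ∧ s' ∉ q ∧ s * a = s' * b

/-- A certificate at the prime `q`. -/
def CertAt (k : Type) [CommRing k] [Algebra k S] (q I : Ideal S) {E : Type} (y : E → S)
    (x : Fin N → S) (w : Fin N → ℚ) (fr : Fin N → Bool) : Prop :=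
  ∀ j, (w j = 0 ∧ fr j = false) ∨ (0 < w j ∧ ∃ f ∈ I, ∃ L : List (Derivation k S S × Fin N),
    (∀ p ∈ L, p.2 ≤ j ∧ ∀ i < p.2, p.1 (x i) = 0) ∧ (L.map fun p => w p.2).sum + w j = 1 ∧
    ∃ D : Derivation k S S, (∀ i < j, D (x i) = 0) ∧ D (app L f) ∉ q ∧
      ((fr j = true ∧ x j = app L f ∧ ∀ e, D (y e) ∈ Ideal.span {y e}) ∨
        (fr j = false ∧ ∃ e0, AsAt q (x j) (y e0) ∧ ∀ e, e ≠ e0 → D (y e) ∈ Ideal.span {y e})))

/-- An admissible pseudo-centre at the prime `q`. -/
structure Pseudo (q : Ideal S) [q.IsPrime] (I : Ideal S) {E : Type} (y : E → S) (t : Fin N → S)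
    (w : Fin N → ℚ) (fr : Fin N → Bool) : Prop where
  nonneg : ∀ i, 0 ≤ w i
  mem : ∀ i, 0 < w i → t i ∈ q
  anti : Antitone fun i => toLex (w i, fr i)
  divi : ∀ i, 0 < w i → fr i = false → ∃ e, AsAt q (t i) (y e)
  adm : I ≤ sat q (wJ t w 1)

theorem mono_mem_wJ (t : Fin N → S) (w : Fin N → ℚ) {d : ℚ} (a : Fin N → ℕ)
    (h : d ≤ ∑ i, (a i : ℚ) * w i) : ∏ i, t i ^ a i ∈ wJ t w d :=
  Ideal.subset_span ⟨a, h, rfl⟩

theorem wJ_anti (t : Fin N → S) (w : Fin N → ℚ) {d d' : ℚ} (h : d ≤ d') :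
    wJ t w d' ≤ wJ t w d :=
  Ideal.span_mono fun _ ⟨a, ha, hz⟩ => ⟨a, h.trans ha, hz⟩

theorem wJ_nonpos (t : Fin N → S) (w : Fin N → ℚ) {d : ℚ} (h : d ≤ 0) : wJ t w d = ⊤ := by
  rw [Ideal.eq_top_iff_one]
  simpa using mono_mem_wJ t w (d := d) 0 (by simpa using h)

theorem self_mem_wJ (t : Fin N → S) (w : Fin N → ℚ) (i : Fin N) : t i ∈ wJ t w (w i) := by
  have h := mono_mem_wJ t w (d := w i) (Pi.single i 1) (by
    rw [Finset.sum_eq_single i] <;> simp +contextual)
  rwa [Finset.prod_eq_single i, Pi.single_eq_same, pow_one] at h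
  · intro b _ hb
    simp [hb]
  · simp

theorem wJ_mul (t : Fin N → S) (w : Fin N → ℚ) (d d' : ℚ) :
    wJ t w d * wJ t w d' ≤ wJ t w (d + d') := by
  rw [wJ, wJ, Ideal.span_mul_span']
  refine Ideal.span_le.2 ?_
  rintro _ ⟨_, ⟨a, ha, rfl⟩, _, ⟨b, hb, rfl⟩, rfl⟩
  have := mono_mem_wJ t w (d := d + d') (a + b) (by
    simp only [Pi.add_apply, Nat.cast_add, add_mul, Finset.sum_add_distrib]
    exact add_le_add ha hb)
  simpa [pow_add, Finset.prod_mul_distrib] using this

theorem mono_mem_of_pos {q : Ideal S} {t : Fin N → S} {w : Fin N → ℚ} (h0 : ∀ i, 0 ≤ w i)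
    (hm : ∀ i, 0 < w i → t i ∈ q) {a : Fin N → ℕ} (h : 0 < ∑ i, (a i : ℚ) * w i) :
    ∏ i, t i ^ a i ∈ q := by
  obtain ⟨i, -, hi⟩ := Finset.exists_lt_of_sum_lt (s := Finset.univ) (f := fun _ => (0 : ℚ))
    (g := fun i => (a i : ℚ) * w i) (by simpa using h)
  have h1 : 0 < w i := by
    rcases (h0 i).lt_or_eq with h | h
    · exact h
    · simp [← h] at hi
  have h2 : a i ≠ 0 := by
    rintro h
    simp [h] at hi
  rw [← Finset.mul_prod_erase _ _ (Finset.mem_univ i)]
  exact q.mul_mem_right _ (q.pow_mem_of_mem (hm i h1) _ (Nat.pos_of_ne_zero h2))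

theorem wJ_le_of_pos {q : Ideal S} {t : Fin N → S} {w : Fin N → ℚ} (h0 : ∀ i, 0 ≤ w i)
    (hm : ∀ i, 0 < w i → t i ∈ q) {d : ℚ} (hd : 0 < d) : wJ t w d ≤ q :=
  Ideal.span_le.2 fun _ ⟨_, ha, hz⟩ => hz ▸ mono_mem_of_pos h0 hm (hd.trans_le ha)

section Sat

variable {q : Ideal S} [hq : q.IsPrime]

theorem mem_sat {I : Ideal S} {z : S} : z ∈ sat q I ↔ ∃ s, s ∉ q ∧ s * z ∈ I := Iff.rfl

theorem one_notMem (q : Ideal S) [hq : q.IsPrime] : (1 : S) ∉ q :=
  (Ideal.ne_top_iff_one q).1 hq.ne_top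

theorem mul_notMem {a b : S} (ha : a ∉ q) (hb : b ∉ q) : a * b ∉ q :=
  fun h => (hq.mem_or_mem h).elim ha hb

theorem le_sat (I : Ideal S) : I ≤ sat q I := fun z hz => ⟨1, one_notMem q, by simpa using hz⟩

theorem sat_mono {I J : Ideal S} (h : I ≤ J) : sat q I ≤ sat q J :=
  fun _ ⟨s, hs, hz⟩ => ⟨s, hs, h hz⟩

theorem sat_le_sat {I J : Ideal S} (h : I ≤ sat q J) : sat q I ≤ sat q J := by
  rintro z ⟨s, hs, hz⟩
  obtain ⟨s', hs', hz'⟩ := h hz
  exact ⟨s' * s, mul_notMem hs' hs, by rwa [mul_assoc]⟩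

theorem sat_le_prime {I : Ideal S} (h : I ≤ q) : sat q I ≤ q :=
  fun _ ⟨_, hs, hz⟩ => (hq.mem_or_mem (h hz)).resolve_left hs

theorem mem_sat_of_mul {I : Ideal S} {s z : S} (hs : s ∉ q) (h : s * z ∈ sat q I) :
    z ∈ sat q I := by
  obtain ⟨s', hs', hz'⟩ := h
  exact ⟨s' * s, mul_notMem hs' hs, by rwa [mul_assoc]⟩

theorem mul_mem_sat_wJ {t : Fin N → S} {w : Fin N → ℚ} {d d' : ℚ} {a b : S}
    (ha : a ∈ sat q (wJ t w d)) (hb : b ∈ sat q (wJ t w d')) :
    a * b ∈ sat q (wJ t w (d + d')) := by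
  obtain ⟨s, hs, ha⟩ := ha
  obtain ⟨s', hs', hb⟩ := hb
  refine ⟨s * s', mul_notMem hs hs', ?_⟩
  rw [mul_mul_mul_comm]
  exact wJ_mul t w d d' (Ideal.mul_mem_mul ha hb)

theorem pow_mem_sat_wJ {t : Fin N → S} {w : Fin N → ℚ} {d : ℚ} {a : S}
    (ha : a ∈ sat q (wJ t w d)) (m : ℕ) : a ^ m ∈ sat q (wJ t w (m * d)) := by
  induction m with
  | zero => exact le_sat _ (by rw [wJ_nonpos t w (by simp)]; trivial)
  | succ m ih =>
    rw [pow_succ, Nat.cast_succ, add_mul, one_mul]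
    exact mul_mem_sat_wJ ih ha

/-- Comparison of two weighted filtrations. -/
theorem sat_wJ_le {t t' : Fin N → S} {w w' : Fin N → ℚ}
    (h : ∀ i, t i ∈ sat q (wJ t' w' (w i))) (d : ℚ) :
    sat q (wJ t w d) ≤ sat q (wJ t' w' d) := by
  refine sat_le_sat (Ideal.span_le.2 ?_)
  rintro _ ⟨a, ha, rfl⟩
  refine sat_mono (wJ_anti t' w' ha) ?_
  have : ∀ u : Finset (Fin N), ∏ i ∈ u, t i ^ a i ∈
      sat q (wJ t' w' (∑ i ∈ u, (a i : ℚ) * w i)) := by
    intro u
    induction u using Finset.induction_on with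
    | empty => exact le_sat _ (by rw [wJ_nonpos t' w' (by simp)]; trivial)
    | insert i u hi ih =>
      rw [Finset.prod_insert hi, Finset.sum_insert hi]
      exact mul_mem_sat_wJ (pow_mem_sat_wJ (h i) _) ih
  exact this _

theorem AsAt.mem_left {a b : S} (h : AsAt q a b) (hb : b ∈ q) : a ∈ q := by
  obtain ⟨s, s', hs, -, h⟩ := h
  exact (hq.mem_or_mem (h ▸ q.mul_mem_left s' hb)).resolve_left hs

theorem AsAt.symm' {q : Ideal S} {a b : S} (h : AsAt q a b) : AsAt q b a := by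
  obtain ⟨s, s', hs, hs', h⟩ := h
  exact ⟨s', s, hs', hs, h.symm⟩

theorem AsAt.trans' {a b c : S} (h : AsAt q a b) (h' : AsAt q b c) : AsAt q a c := by
  obtain ⟨s, s', hs, hs', h⟩ := h
  obtain ⟨r, r', hr, hr', h'⟩ := h'
  refine ⟨r * s, s' * r', mul_notMem hr hs, mul_notMem hs' hr', ?_⟩
  rw [mul_assoc, h, mul_left_comm, h', mul_assoc]

theorem AsAt.mem_sat {a b : S} (h : AsAt q a b) {I : Ideal S} (hb : b ∈ sat q I) :
    a ∈ sat q I := by
  obtain ⟨s, s', hs, -, h⟩ := h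
  exact mem_sat_of_mul hs (h ▸ Ideal.mul_mem_left _ s' hb)

/-- A logarithmic derivation maps an element associated to `y` into `q`. -/
theorem AsAt.deriv_mem {a y : S} (h : AsAt q a y) (ha : a ∈ q) {D : Derivation k S S}
    (hD : D y ∈ Ideal.span {y}) : D a ∈ q := by
  have hy : y ∈ q := h.symm'.mem_left ha
  obtain ⟨s, s', hs, -, h⟩ := h
  have h1 := congrArg D h
  simp only [Derivation.leibniz, smul_eq_mul] at h1
  have h2 : D y ∈ q := (Ideal.span_singleton_le_iff_mem q).2 hy hD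
  have h3 : s * D a ∈ q := by
    rw [eq_sub_of_add_eq h1]
    exact sub_mem (add_mem (q.mul_mem_left _ h2) (q.mul_mem_right _ hy)) (q.mul_mem_right _ ha)
  exact (hq.mem_or_mem h3).resolve_left hs

end Sat

theorem deriv_prod (D : Derivation k S S) {ι : Type} [DecidableEq ι] (u : Finset ι) (f : ι → S) :
    D (∏ i ∈ u, f i) = ∑ l ∈ u, (∏ i ∈ u.erase l, f i) * D (f l) := by
  induction u using Finset.induction_on with
  | empty => simp
  | insert j u hj ih =>
    rw [Finset.prod_insert hj, Finset.sum_insert hj, Derivation.leibniz, ih, Finset.erase_insert hj,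
      smul_eq_mul, smul_eq_mul, add_comm, Finset.mul_sum]
    congr 1
    refine Finset.sum_congr rfl fun l hl => ?_
    have hjl : j ≠ l := fun h => hj (h ▸ hl)
    rw [Finset.erase_insert_of_ne hjl,
      Finset.prod_insert fun h => hj (Finset.mem_of_mem_erase h), mul_assoc]

theorem deriv_mono (D : Derivation k S S) (t : Fin N → S) (a : Fin N → ℕ) :
    D (∏ i, t i ^ a i) = ∑ l, (a l : S) * (∏ i, t i ^ (a - Pi.single l 1 : Fin N → ℕ) i) *
      D (t l) := by
  rw [deriv_prod]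
  refine Finset.sum_congr rfl fun l _ => ?_
  rw [Derivation.leibniz_pow, ← Finset.mul_prod_erase _ _ (Finset.mem_univ l)]
  have : ∏ i ∈ Finset.univ.erase l, t i ^ (a - Pi.single l 1 : Fin N → ℕ) i =
      ∏ i ∈ Finset.univ.erase l, t i ^ a i :=
    Finset.prod_congr rfl fun i hi => by simp [Finset.ne_of_mem_erase hi]
  rw [this]
  simp only [Pi.sub_apply, Pi.single_eq_same, smul_eq_mul, nsmul_eq_mul]
  ring

theorem weight_sub (w : Fin N → ℚ) {a : Fin N → ℕ} {l : Fin N} (h : a l ≠ 0) :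
    ∑ i, ((a - Pi.single l 1 : Fin N → ℕ) i : ℚ) * w i = ∑ i, (a i : ℚ) * w i - w l := by
  rw [← Finset.add_sum_erase _ _ (Finset.mem_univ l),
    ← Finset.add_sum_erase _ (fun i => (a i : ℚ) * w i) (Finset.mem_univ l)]
  have : ∑ i ∈ Finset.univ.erase l, ((a - Pi.single l 1 : Fin N → ℕ) i : ℚ) * w i =
      ∑ i ∈ Finset.univ.erase l, (a i : ℚ) * w i :=
    Finset.sum_congr rfl fun i hi => by simp [Finset.ne_of_mem_erase hi]
  rw [this]
  simp only [Pi.sub_apply, Pi.single_eq_same]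
  rw [Nat.cast_sub (Nat.pos_of_ne_zero h)]
  push_cast
  ring

/-- A derivation lowers the weight by at most the largest weight of a variable that it does not
kill. -/
theorem deriv_mem_wJ {t : Fin N → S} {w : Fin N → ℚ} {D : Derivation k S S} {c : ℚ} (hc : 0 ≤ c)
    (h : ∀ l, D (t l) = 0 ∨ w l ≤ c) {d : ℚ} {z : S} (hz : z ∈ wJ t w d) :
    D z ∈ wJ t w (d - c) := by
  induction hz using Submodule.span_induction with
  | mem z hz =>
    obtain ⟨a, ha, rfl⟩ := hz
    rw [deriv_mono]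
    refine Ideal.sum_mem _ fun l _ => ?_
    rcases h l with h | h
    · simp [h]
    · by_cases hl : a l = 0
      · simp [hl]
      · refine Ideal.mul_mem_right _ _ (Ideal.mul_mem_left _ _ (mono_mem_wJ t w _ ?_))
        rw [weight_sub w hl]
        linarith
  | zero => simp
  | add a b _ _ ha hb => rw [map_add]; exact add_mem ha hb
  | smul r a ha ih =>
    rw [smul_eq_mul, Derivation.leibniz, smul_eq_mul, smul_eq_mul]
    exact add_mem (Ideal.mul_mem_left _ _ ih)
      (Ideal.mul_mem_right _ _ (wJ_anti t w (by linarith) ha))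

section Sat

variable {q : Ideal S} [hq : q.IsPrime]

theorem deriv_mem_sat_wJ {t : Fin N → S} {w : Fin N → ℚ} {D : Derivation k S S} {c : ℚ}
    (hc : 0 ≤ c) (h : ∀ l, D (t l) = 0 ∨ w l ≤ c) {d : ℚ} {z : S}
    (hz : z ∈ sat q (wJ t w d)) : D z ∈ sat q (wJ t w (d - c)) := by
  obtain ⟨s, hs, hz⟩ := hz
  have h1 := deriv_mem_wJ hc h hz
  refine ⟨s * s, mul_notMem hs hs, ?_⟩
  have : s * s * D z = s * D (s * z) - D s * (s * z) := by
    rw [Derivation.leibniz, smul_eq_mul, smul_eq_mul]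
    ring
  rw [this]
  exact sub_mem (Ideal.mul_mem_left _ _ h1)
    (Ideal.mul_mem_left _ _ (wJ_anti t w (by linarith) hz))

theorem app_mem_sat_wJ {t : Fin N → S} {w : Fin N → ℚ} (h0 : ∀ i, 0 ≤ w i)
    {L : List (Derivation k S S × Fin N)} (h : ∀ p ∈ L, ∀ l, p.1 (t l) = 0 ∨ w l ≤ w p.2)
    {d : ℚ} {z : S} (hz : z ∈ sat q (wJ t w d)) :
    app L z ∈ sat q (wJ t w (d - (L.map fun p => w p.2).sum)) := by
  induction L with
  | nil => simpa [app] using hz
  | cons p L ih =>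
    have h1 := deriv_mem_sat_wJ (h0 p.2) (h p List.mem_cons_self)
      (ih fun p' hp' => h p' (List.mem_cons_of_mem _ hp'))
    rw [List.map_cons, List.sum_cons, add_comm, ← sub_sub]
    exact h1

/-- Exchange lemma: an element of weight `d > 0` whose derivative is a unit can replace a
variable. -/
theorem exists_exchange {t : Fin N → S} {w : Fin N → ℚ} (h0 : ∀ i, 0 ≤ w i)
    (hm : ∀ i, 0 < w i → t i ∈ q) {D : Derivation k S S} {d : ℚ} (hd : 0 < d)
    (h : ∀ l, D (t l) = 0 ∨ w l ≤ d) {g : S} (hg : g ∈ sat q (wJ t w d)) (hD : D g ∉ q) :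
    ∃ l, w l = d ∧ D (t l) ∉ q ∧ t l ∈ sat q (wJ (Function.update t l g) w d) := by
  classical
  obtain ⟨s, hs, hg⟩ := hg
  set Λ : Finset (Fin N) := Finset.univ.filter fun l => w l = d ∧ D (t l) ∉ q with hΛ
  have key : ∀ z ∈ wJ t w d, ∃ c : Fin N → S, ∃ z', D z' ∈ q ∧ z' ∈ q ∧
      (∀ l ∈ Λ, z' ∈ wJ (Function.update t l g) w d) ∧ z = ∑ l ∈ Λ, c l * t l + z' := by
    intro z hz
    induction hz using Submodule.span_induction with
    | mem z hz =>
      obtain ⟨a, ha, rfl⟩ := hz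
      by_cases hl : ∃ l ∈ Λ, a l ≠ 0
      · obtain ⟨l, hl, hal⟩ := hl
        refine ⟨Pi.single l (∏ i, t i ^ (a - Pi.single l 1 : Fin N → ℕ) i), 0, by simp,
          zero_mem _, fun _ _ => zero_mem _, ?_⟩
        rw [Finset.sum_eq_single l (fun b _ hb => by simp [hb]) (fun h => absurd hl h),
          Pi.single_eq_same, add_zero, ← Finset.mul_prod_erase _ _ (Finset.mem_univ l),
          ← Finset.mul_prod_erase _ _ (Finset.mem_univ l)]
        have : ∏ i ∈ Finset.univ.erase l, t i ^ (a - Pi.single l 1 : Fin N → ℕ) i =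
            ∏ i ∈ Finset.univ.erase l, t i ^ a i :=
          Finset.prod_congr rfl fun i hi => by simp [Finset.ne_of_mem_erase hi]
        rw [this]
        simp only [Pi.sub_apply, Pi.single_eq_same]
        obtain ⟨m, hm⟩ := Nat.exists_eq_succ_of_ne_zero hal
        rw [hm, Nat.succ_sub_one, pow_succ]
        ring
      · push Not at hl
        refine ⟨0, ∏ i, t i ^ a i, ?_, mono_mem_of_pos h0 hm (hd.trans_le ha), ?_, by simp⟩
        · rw [deriv_mono]
          refine Ideal.sum_mem _ fun l _ => ?_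
          by_cases hal : a l = 0
          · simp [hal]
          by_cases hDl : D (t l) ∈ q
          · exact q.mul_mem_left _ hDl
          have h1 : w l ≤ d := (h l).resolve_left fun h => hDl (h ▸ zero_mem q)
          have h2 : w l ≠ d := fun h' => hal (hl l (by simp [hΛ, h', hDl]))
          refine q.mul_mem_right _ (q.mul_mem_left _ (mono_mem_of_pos h0 hm ?_))
          rw [weight_sub w hal]
          have := lt_of_le_of_ne h1 h2
          linarith
        · intro l hlΛ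
          have : ∏ i, t i ^ a i = ∏ i, Function.update t l g i ^ a i := by
            refine Finset.prod_congr rfl fun i _ => ?_
            by_cases hi : i = l
            · rw [hi, hl l hlΛ, pow_zero, pow_zero]
            · rw [Function.update_of_ne hi]
          rw [this]
          exact mono_mem_wJ _ w a ha
    | zero => exact ⟨0, 0, by simp, zero_mem _, fun _ _ => zero_mem _, by simp⟩
    | add a b _ _ ha hb =>
      obtain ⟨c, z, h1, h2, h3, rfl⟩ := ha
      obtain ⟨c', z', h1', h2', h3', rfl⟩ := hb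
      refine ⟨c + c', z + z', by rw [map_add]; exact add_mem h1 h1', add_mem h2 h2',
        fun l hl => add_mem (h3 l hl) (h3' l hl), ?_⟩
      simp only [Pi.add_apply, add_mul, Finset.sum_add_distrib]
      ring
    | smul r a _ ih =>
      obtain ⟨c, z, h1, h2, h3, rfl⟩ := ih
      refine ⟨r • c, r * z, ?_, q.mul_mem_left _ h2, fun l hl => Ideal.mul_mem_left _ _ (h3 l hl),
        ?_⟩
      · rw [Derivation.leibniz, smul_eq_mul, smul_eq_mul]
        exact add_mem (q.mul_mem_left _ h1) (q.mul_mem_right _ h2)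
      · simp only [Pi.smul_apply, smul_eq_mul, mul_add, Finset.mul_sum, mul_assoc]
  obtain ⟨c, z', h1, h2, h3, h4⟩ := key _ hg
  have hgq : g ∈ q := (hq.mem_or_mem (wJ_le_of_pos h0 hm hd hg)).resolve_left hs
  have hc : ∃ l ∈ Λ, c l ∉ q := by
    by_contra hc
    push Not at hc
    have h5 : D (s * g) ∈ q := by
      rw [h4, map_add, map_sum]
      refine add_mem (Ideal.sum_mem _ fun l hl => ?_) h1
      rw [Derivation.leibniz, smul_eq_mul, smul_eq_mul]
      have hl' : w l = d := (Finset.mem_filter.1 hl).2.1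
      exact add_mem (q.mul_mem_right _ (hc l hl)) (q.mul_mem_right _ (hm l (hl' ▸ hd)))
    rw [Derivation.leibniz, smul_eq_mul, smul_eq_mul] at h5
    exact mul_notMem hs hD ((Submodule.add_mem_iff_left q (q.mul_mem_right _ hgq)).1 h5)
  obtain ⟨l, hl, hcl⟩ := hc
  have hl' := (Finset.mem_filter.1 hl).2
  refine ⟨l, hl'.1, hl'.2, c l, hcl, ?_⟩
  have h6 : c l * t l = s * g - ∑ l' ∈ Λ.erase l, c l' * t l' - z' := by
    rw [h4, ← Finset.add_sum_erase _ _ hl]
    ring
  rw [h6]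
  refine sub_mem (sub_mem (Ideal.mul_mem_left _ _ ?_) (Ideal.sum_mem _ fun l' hl'' =>
    Ideal.mul_mem_left _ _ ?_)) (h3 l hl)
  · have := self_mem_wJ (Function.update t l g) w l
    rwa [Function.update_self, hl'.1] at this
  · have := self_mem_wJ (Function.update t l g) w l'
    rwa [Function.update_of_ne (Finset.ne_of_mem_erase hl''),
      (Finset.mem_filter.1 (Finset.mem_of_mem_erase hl'')).2.1] at this

theorem sat_wJ_update {t : Fin N → S} {w : Fin N → ℚ} {l : Fin N} {z : S}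
    (hz : z ∈ sat q (wJ t w (w l))) (ht : t l ∈ sat q (wJ (Function.update t l z) w (w l)))
    (d : ℚ) : sat q (wJ (Function.update t l z) w d) = sat q (wJ t w d) := by
  refine le_antisymm (sat_wJ_le (fun i => ?_) d) (sat_wJ_le (fun i => ?_) d)
  · by_cases hi : i = l
    · rw [hi, Function.update_self]
      exact hz
    · rw [Function.update_of_ne hi]
      exact le_sat _ (self_mem_wJ t w i)
  · by_cases hi : i = l
    · rw [hi]
      exact ht
    · have := self_mem_wJ (Function.update t l z) w i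
      rw [Function.update_of_ne hi] at this
      exact le_sat _ this

theorem sat_wJ_perm {t : Fin N → S} {w : Fin N → ℚ} (σ : Equiv.Perm (Fin N))
    (hσ : ∀ i, w (σ i) = w i) (d : ℚ) : sat q (wJ (t ∘ σ) w d) = sat q (wJ t w d) := by
  refine le_antisymm (sat_wJ_le (fun i => ?_) d) (sat_wJ_le (fun i => ?_) d)
  · rw [← hσ i]
    exact le_sat _ (self_mem_wJ t w (σ i))
  · have := self_mem_wJ (t ∘ σ) w (σ.symm i)
    rw [Function.comp_apply, Equiv.apply_symm_apply, ← hσ, Equiv.apply_symm_apply] at this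
    exact le_sat _ this

theorem Pseudo.replace {I : Ideal S} {E : Type} {y : E → S} {t : Fin N → S} {w : Fin N → ℚ}
    {fr : Fin N → Bool} (h : Pseudo q I y t w fr) {j l : Fin N} (hw : w l = w j)
    (hf : fr l = fr j) (hpos : 0 < w l) {z : S} (hz : z ∈ sat q (wJ t w (w l)))
    (ht : t l ∈ sat q (wJ (Function.update t l z) w (w l)))
    (hdiv : fr l = false → ∃ e, AsAt q z (y e)) :
    Pseudo q I y (Function.update t l z ∘ Equiv.swap j l) w fr ∧
      ∀ d, sat q (wJ (Function.update t l z ∘ Equiv.swap j l) w d) = sat q (wJ t w d) := by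
  have hσ : ∀ i, w (Equiv.swap j l i) = w i := fun i => Equiv.apply_swap_eq_self hw.symm i
  have hσ' : ∀ i, fr (Equiv.swap j l i) = fr i := fun i => Equiv.apply_swap_eq_self hf.symm i
  have he : ∀ d, sat q (wJ (Function.update t l z ∘ Equiv.swap j l) w d) = sat q (wJ t w d) :=
    fun d => (sat_wJ_perm _ hσ d).trans (sat_wJ_update hz ht d)
  refine ⟨⟨h.nonneg, fun i hi => ?_, h.anti, fun i hi hfi => ?_, by rw [he]; exact h.adm⟩, he⟩
  · rw [Function.comp_apply]
    by_cases hi' : Equiv.swap j l i = l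
    · rw [hi', Function.update_self]
      exact sat_le_prime (wJ_le_of_pos h.nonneg h.mem hpos) hz
    · rw [Function.update_of_ne hi']
      exact h.mem _ (by rwa [hσ])
  · rw [Function.comp_apply]
    by_cases hi' : Equiv.swap j l i = l
    · rw [hi', Function.update_self]
      exact hdiv (by rw [← hi', hσ', hfi])
    · rw [Function.update_of_ne hi']
      exact h.divi _ (by rwa [hσ]) (by rwa [hσ'])

theorem Pseudo.anti_w {I : Ideal S} {E : Type} {y : E → S} {t : Fin N → S} {w : Fin N → ℚ}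
    {fr : Fin N → Bool} (h : Pseudo q I y t w fr) {i j : Fin N} (hij : i ≤ j) : w j ≤ w i :=
  Prod.Lex.monotone_fst _ _ (h.anti hij)

theorem Pseudo.anti_fr {I : Ideal S} {E : Type} {y : E → S} {t : Fin N → S} {w : Fin N → ℚ}
    {fr : Fin N → Bool} (h : Pseudo q I y t w fr) {i j : Fin N} (hij : i ≤ j) (hw : w j = w i) :
    fr j ≤ fr i := by
  rcases Prod.Lex.toLex_le_toLex.1 (h.anti hij) with h1 | h1
  · exact absurd hw h1.ne
  · exact h1.2

theorem key_step {I : Ideal S} {E : Type} {y : E → S} {x t : Fin N → S} {w w' : Fin N → ℚ}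
    {fr fr' : Fin N → Bool} (hc : CertAt k q I y x w fr) (hp : Pseudo q I y t w' fr') (j : Fin N)
    (hw : ∀ i < j, w i = w' i) (hx : ∀ i < j, 0 < w i → t i = x i) :
    toLex (w j, fr j) ≤ toLex (w' j, fr' j) ∧ (w j = w' j → fr j = fr' j →
      ∃ t', Pseudo q I y t' w' fr' ∧ (∀ i ≤ j, 0 < w i → t' i = x i) ∧
        ∀ d, sat q (wJ t' w' d) = sat q (wJ t w' d)) := by
  rcases hc j with ⟨h0, h1⟩ | ⟨hpos, f, hf, L, hL, hsum, D, hDx, hD, hcase⟩
  · refine ⟨?_, fun _ _ => ⟨t, hp, fun i hi hi' => ?_, fun _ => rfl⟩⟩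
    · rw [Prod.Lex.toLex_le_toLex, h0, h1]
      rcases (hp.nonneg j).lt_or_eq with h | h
      · exact Or.inl h
      · exact Or.inr ⟨h, Bool.false_le _⟩
    · rcases hi.lt_or_eq with h | h
      · exact hx i h hi'
      · rw [h, h0] at hi'
        exact absurd hi' (lt_irrefl _)
  by_cases hlt : w j < w' j
  · exact ⟨Prod.Lex.toLex_le_toLex.2 (Or.inl hlt), fun h => absurd h hlt.ne⟩
  have hle : w' j ≤ w j := not_lt.1 hlt
  have hkill : ∀ (δ : Derivation k S S) (i0 : Fin N), i0 ≤ j → (∀ i < i0, δ (x i) = 0) →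
      ∀ l, δ (t l) = 0 ∨ w' l ≤ w' i0 := by
    intro δ i0 hi0 hδ l
    rcases lt_or_ge l i0 with h | h
    · have hlj : l < j := h.trans_le hi0
      by_cases hl : 0 < w l
      · exact Or.inl (by rw [hx l hlj hl, hδ l h])
      · exact Or.inr (by rw [← hw l hlj]; exact (not_lt.1 hl).trans (hp.nonneg i0))
    · exact Or.inr (hp.anti_w h)
  have hg : app L f ∈ sat q (wJ t w' (w j)) := by
    refine sat_mono (wJ_anti t w' ?_) (app_mem_sat_wJ hp.nonneg
      (fun p hpL => hkill p.1 p.2 (hL p hpL).1 (hL p hpL).2) (hp.adm hf))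
    have : (L.map fun p => w' p.2).sum ≤ (L.map fun p => w p.2).sum := by
      refine List.sum_le_sum fun p hpL => ?_
      rcases (hL p hpL).1.lt_or_eq with h | h
      · exact (hw _ h).ge
      · rw [h]
        exact hle
    linarith
  obtain ⟨l, hl, hDl, htl⟩ := exists_exchange hp.nonneg hp.mem hpos
    (fun l => (hkill D j le_rfl hDx l).imp_right fun h => h.trans hle) hg hD
  have hjl : j ≤ l := by
    by_contra h
    have h := not_le.1 h
    refine hDl ?_
    rw [hx l h (by rw [hw l h, hl]; exact hpos), hDx l h]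
    exact zero_mem q
  have hwj : w' j = w j := le_antisymm hle (hl ▸ hp.anti_w hjl)
  have hpos' : 0 < w' l := hl ▸ hpos
  have hfin : ∀ z, x j = z → ∀ i ≤ j, 0 < w i →
      (Function.update t l z ∘ Equiv.swap j l) i = x i := by
    intro z hz i hi hi'
    rcases hi.lt_or_eq with h | h
    · have h1 : i ≠ l := (h.trans_le hjl).ne
      rw [Function.comp_apply, Equiv.swap_apply_of_ne_of_ne h.ne h1, Function.update_of_ne h1]
      exact hx i h hi'
    · rw [h, Function.comp_apply, Equiv.swap_apply_left, Function.update_self, hz]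
  rcases hcase with ⟨hfr, hxj, hlog⟩ | ⟨hfr, e0, he0, hlog⟩
  · have h1 : fr' l = true := by
      by_contra h
      obtain ⟨e, he⟩ := hp.divi l hpos' (by simpa using h)
      exact hDl (he.deriv_mem (hp.mem l hpos') (hlog e))
    have h2 : fr' j = true := by
      have := hp.anti_fr hjl (hl.trans hwj.symm)
      rw [h1] at this
      exact Bool.eq_true_of_true_le this
    refine ⟨by rw [hwj, hfr, h2], fun _ _ => ?_⟩
    obtain ⟨h3, h4⟩ := hp.replace (j := j) (hl.trans hwj.symm) (h1.trans h2.symm) hpos'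
      (hl ▸ hg) (hl ▸ htl) (fun h => by simp [h1] at h)
    exact ⟨_, h3, hfin _ hxj, h4⟩
  · refine ⟨Prod.Lex.toLex_le_toLex.2 (Or.inr ⟨hwj.symm, hfr ▸ Bool.false_le _⟩),
      fun _ h2 => ?_⟩
    have h1 : fr' l = false := by
      have := hp.anti_fr hjl (hl.trans hwj.symm)
      rw [← h2, hfr] at this
      exact Bool.eq_false_of_le_false this
    obtain ⟨e, he⟩ := hp.divi l hpos' h1
    have he' : e = e0 := by
      by_contra h
      exact hDl (he.deriv_mem (hp.mem l hpos') (hlog e h))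
    have has : AsAt q (x j) (t l) := he0.trans' (he' ▸ he).symm'
    have h5 : t l ∈ sat q (wJ (Function.update t l (x j)) w' (w' l)) := by
      refine has.symm'.mem_sat (le_sat _ ?_)
      have := self_mem_wJ (Function.update t l (x j)) w' l
      rwa [Function.update_self] at this
    obtain ⟨h3, h4⟩ := hp.replace (j := j) (hl.trans hwj.symm) (by rw [h1, ← h2, hfr]) hpos'
      (has.mem_sat (le_sat _ (self_mem_wJ t w' l))) h5 (fun _ => ⟨e0, he0⟩)
    exact ⟨_, h3, hfin _ rfl, h4⟩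

theorem key_ind {I : Ideal S} {E : Type} {y : E → S} {x t : Fin N → S} {w w' : Fin N → ℚ}
    {fr fr' : Fin N → Bool} (hc : CertAt k q I y x w fr) (hp : Pseudo q I y t w' fr') (j : ℕ)
    (hw : ∀ i : Fin N, i.val < j → w i = w' i ∧ fr i = fr' i) :
    ∃ t', Pseudo q I y t' w' fr' ∧ (∀ i : Fin N, i.val < j → 0 < w i → t' i = x i) ∧
      ∀ d, sat q (wJ t' w' d) = sat q (wJ t w' d) := by
  induction j with
  | zero => exact ⟨t, hp, fun i hi => absurd hi (Nat.not_lt_zero _), fun _ => rfl⟩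
  | succ j ih =>
    obtain ⟨t', h1, h2, h3⟩ := ih fun i hi => hw i (hi.trans (Nat.lt_succ_self j))
    by_cases hj : j < N
    · obtain ⟨t'', h4, h5, h6⟩ := (key_step hc h1 ⟨j, hj⟩
        (fun i hi => (hw i (Nat.lt_succ_of_lt hi)).1) (fun i hi => h2 i hi)).2
        (hw ⟨j, hj⟩ (Nat.lt_succ_self j)).1 (hw ⟨j, hj⟩ (Nat.lt_succ_self j)).2
      exact ⟨t'', h4, fun i hi => h5 i (Nat.lt_succ_iff.1 hi), fun d => (h6 d).trans (h3 d)⟩
    · exact ⟨t', h1, fun i _ => h2 i (i.2.trans_le (not_lt.1 hj)), h3⟩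

/-- The invariant. -/
def nu (w : Fin N → ℚ) (fr : Fin N → Bool) : Lex (Fin N → ℚ ×ₗ Bool) :=
  toLex fun i => toLex (w i, fr i)

theorem nu_eq_iff {w w' : Fin N → ℚ} {fr fr' : Fin N → Bool} :
    nu w fr = nu w' fr' ↔ w = w' ∧ fr = fr' := by
  constructor
  · intro h
    have h1 : ∀ i, (w i, fr i) = (w' i, fr' i) := fun i =>
      toLex.injective (congrFun (toLex.injective h) i)
    exact ⟨funext fun i => (Prod.ext_iff.1 (h1 i)).1, funext fun i => (Prod.ext_iff.1 (h1 i)).2⟩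
  · rintro ⟨rfl, rfl⟩
    rfl

/-- Key lemma, inequality. -/
theorem key_le {I : Ideal S} {E : Type} {y : E → S} {x t : Fin N → S} {w w' : Fin N → ℚ}
    {fr fr' : Fin N → Bool} (hc : CertAt k q I y x w fr) (hp : Pseudo q I y t w' fr') :
    nu w fr ≤ nu w' fr' := by
  by_contra h
  obtain ⟨j, h1, h2⟩ := not_le.1 h
  have hw : ∀ i : Fin N, i.val < j.val → w i = w' i ∧ fr i = fr' i := fun i hi =>
    Prod.ext_iff.1 (toLex.injective (h1 i hi)).symm
  obtain ⟨t', h3, h4, -⟩ := key_ind hc hp j hw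
  exact absurd h2 (not_lt.2
    (key_step hc h3 j (fun i hi => (hw i hi).1) (fun i hi => h4 i hi)).1)

/-- Key lemma, case of equality. -/
theorem key_eq {I : Ideal S} {E : Type} {y : E → S} {x t : Fin N → S} {w : Fin N → ℚ}
    {fr : Fin N → Bool} (hc : CertAt k q I y x w fr) (hp : Pseudo q I y t w fr) :
    (∀ i, 0 < w i → x i ∈ q) ∧ ∀ d, sat q (wJ x w d) = sat q (wJ t w d) := by
  obtain ⟨t', h1, h2, h3⟩ := key_ind hc hp N fun i _ => ⟨rfl, rfl⟩
  refine ⟨fun i hi => h2 i i.2 hi ▸ h1.mem i hi, fun d => ?_⟩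
  rw [← h3 d]
  refine le_antisymm (sat_wJ_le (fun i => ?_) d) (sat_wJ_le (fun i => ?_) d)
  · by_cases hi : 0 < w i
    · rw [← h2 i i.2 hi]
      exact le_sat _ (self_mem_wJ t' w i)
    · exact le_sat _ (by rw [wJ_nonpos _ _ (not_lt.1 hi)]; trivial)
  · by_cases hi : 0 < w i
    · rw [h2 i i.2 hi]
      exact le_sat _ (self_mem_wJ x w i)
    · exact le_sat _ (by rw [wJ_nonpos _ _ (not_lt.1 hi)]; trivial)

end Sat

end

end Pool.Agent.Lib.MP_4287a9_ag.Res.Abs
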