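import Pool.Agent.Lib.MP_4287a9_ag.ResAbsKey

/-!
Weighted centres: the Taylor lemma.
-/

namespace Pool.Agent.Lib.MP_4287a9_ag.Res.Abs

noncomputable section

variable {k S : Type} [CommRing k] [CommRing S] [Algebra k S] {N : ℕ}

/-- Iterated coordinate derivative. -/
def dl (D : Fin N → Derivation k S S) (L : List (Fin N)) (f : S) : S :=
  L.foldr (fun i z => D i z) f

theorem dl_concat (D : Fin N → Derivation k S S) (L : List (Fin N)) (i : Fin N) (f : S) :
    dl D (L ++ [i]) f = dl D L (D i f) := by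
  simp [dl]

theorem euler_apply (t : Fin N → S) (D : Fin N → Derivation k S S) (z : S) :
    (∑ i, t i • D i : Derivation k S S) z = ∑ i, t i * D i z := by
  have : ∀ u : Finset (Fin N), (∑ i ∈ u, t i • D i : Derivation k S S) z =
      ∑ i ∈ u, t i * D i z := by
    intro u
    induction u using Finset.induction_on with
    | empty => simp
    | insert i u hi ih => rw [Finset.sum_insert hi, Finset.sum_insert hi, Derivation.add_apply, ih,
        Derivation.smul_apply, smul_eq_mul]
  exact this _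

theorem euler_sub {t : Fin N → S} {E : Derivation k S S} (hE : ∀ i, E (t i) = t i)
    (hE' : ∀ z, E z ∈ Ideal.span (Set.range t)) (m : ℕ) {r : S}
    (hr : r ∈ Ideal.span (Set.range t) ^ m) :
    E r - m * r ∈ Ideal.span (Set.range t) ^ (m + 1) := by
  have h1 : ∀ x ∈ Ideal.span (Set.range t), E x - x ∈ Ideal.span (Set.range t) ^ 2 := by
    intro x hx
    induction hx using Submodule.span_induction with
    | mem x hx =>
      obtain ⟨i, rfl⟩ := hx
      simp [hE]
    | zero => simp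
    | add a b _ _ ha hb =>
      rw [map_add, add_sub_add_comm]
      exact add_mem ha hb
    | smul c a ha ih =>
      have : E (c • a) - c • a = c * (E a - a) + a * E c := by
        rw [smul_eq_mul, Derivation.leibniz, smul_eq_mul, smul_eq_mul]
        ring
      rw [this]
      exact add_mem (Ideal.mul_mem_left _ _ ih) (by rw [sq]; exact Ideal.mul_mem_mul ha (hE' c))
  induction hr using Submodule.pow_induction_on_left' with
  | algebraMap c => simpa using hE' c
  | add a b i _ _ ha hb =>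
    rw [map_add, mul_add, add_sub_add_comm]
    exact add_mem ha hb
  | mem_mul x hx i r hr ih =>
    have : E (x * r) - (i.succ : ℕ) * (x * r) = (E x - x) * r + x * (E r - i * r) := by
      rw [Derivation.leibniz, smul_eq_mul, smul_eq_mul]
      push_cast
      ring
    rw [this]
    refine add_mem ?_ ?_
    · rw [show i.succ + 1 = 2 + i by omega, pow_add]
      exact Ideal.mul_mem_mul (h1 x hx) hr
    · rw [pow_succ']
      exact Ideal.mul_mem_mul hx ih

variable {q : Ideal S} [hq : q.IsPrime]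

theorem mem_sat_of_forall [IsNoetherianRing S] {J T : Ideal S} (hT : T ≤ q) {f : S}
    (h : ∀ m, f ∈ sat q (J ⊔ T ^ m)) : f ∈ sat q J := by
  let A := Localization.AtPrime q
  let J' : Ideal A := J.map (algebraMap S A)
  have h1 : (⨅ i : ℕ, IsLocalRing.maximalIdeal A ^ i • ⊤ : Submodule A (A ⧸ J')) = ⊥ :=
    Ideal.iInf_pow_smul_eq_bot_of_isLocalRing _ (IsLocalRing.maximalIdeal.isMaximal A).ne_top
  have h2 : Ideal.Quotient.mk J' (algebraMap S A f) ∈
      (⨅ i : ℕ, IsLocalRing.maximalIdeal A ^ i • ⊤ : Submodule A (A ⧸ J')) := by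
    refine (Submodule.mem_iInf _).2 fun m => ?_
    obtain ⟨s, hs, hf⟩ := h m
    obtain ⟨j, hj, r, hr, hjr⟩ := Submodule.mem_sup.1 hf
    obtain ⟨u, hu⟩ : IsUnit (algebraMap S A s) :=
      IsLocalization.map_units A (⟨s, hs⟩ : q.primeCompl)
    have h3 : algebraMap S A f = (u⁻¹ : Aˣ) * algebraMap S A j + (u⁻¹ : Aˣ) * algebraMap S A r := by
      rw [← mul_add, ← map_add, hjr, map_mul, ← hu, Units.inv_mul_cancel_left]
    have h4 : algebraMap S A r ∈ IsLocalRing.maximalIdeal A ^ m := by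
      rw [← Localization.AtPrime.map_eq_maximalIdeal, ← Ideal.map_pow]
      exact Ideal.mem_map_of_mem _ (Ideal.pow_right_mono hT m hr)
    have h5 : Ideal.Quotient.mk J' (algebraMap S A f) =
        (((u⁻¹ : Aˣ) : A) * algebraMap S A r) • (1 : A ⧸ J') := by
      rw [h3, map_add, Ideal.Quotient.eq_zero_iff_mem.2
        (Ideal.mul_mem_left _ _ (Ideal.mem_map_of_mem _ hj)), zero_add,
        ← Algebra.algebraMap_eq_smul_one]
      rfl
    rw [h5]
    exact Submodule.smul_mem_smul (Ideal.mul_mem_left _ _ h4) trivial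
  rw [h1, Submodule.mem_bot, Ideal.Quotient.eq_zero_iff_mem] at h2
  obtain ⟨s, hs, h3⟩ := (IsLocalization.algebraMap_mem_map_algebraMap_iff q.primeCompl A J f).1 h2
  exact ⟨s, hs, h3⟩

/-- Taylor lemma up to a power of the ideal of the coordinates. -/
theorem taylor_aux (hchar : ∀ m : ℕ, m ≠ 0 → (m : S) ∉ q) {t : Fin N → S}
    {D : Fin N → Derivation k S S} (hD : ∀ i j, D i (t j) = if i = j then 1 else 0)
    (hqt : q ≤ sat q (Ideal.span (Set.range t))) {w : Fin N → ℚ}
    (h0 : ∀ i, 0 ≤ w i) {d : ℚ} {f : S}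
    (hf : ∀ L : List (Fin N), (L.map w).sum < d → dl D L f ∈ q) (m : ℕ) :
    f ∈ sat q (wJ t w d ⊔ Ideal.span (Set.range t) ^ m) := by
  set T := Ideal.span (Set.range t) with hT
  set E : Derivation k S S := ∑ i, t i • D i with hE
  have hE1 : ∀ i, E (t i) = t i := fun i => by simp [hE, euler_apply, hD]
  have hE2 : ∀ z, E z ∈ T := fun z => by
    rw [hE, euler_apply]
    exact Ideal.sum_mem _ fun i _ => Ideal.mul_mem_right _ _ (Ideal.subset_span ⟨i, rfl⟩)
  have hmul : ∀ (d : ℚ) (m : ℕ) (i : Fin N) (z : S), z ∈ sat q (wJ t w (d - w i) ⊔ T ^ m) →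
      t i * z ∈ sat q (wJ t w d ⊔ T ^ (m + 1)) := by
    rintro d m i z ⟨s, hs, hz⟩
    obtain ⟨j, hj, r, hr, hjr⟩ := Submodule.mem_sup.1 hz
    refine ⟨s, hs, ?_⟩
    rw [mul_left_comm, ← hjr, mul_add]
    refine add_mem (Ideal.mem_sup_left ?_) (Ideal.mem_sup_right ?_)
    · have := wJ_mul t w _ _ (Ideal.mul_mem_mul (self_mem_wJ t w i) hj)
      rwa [add_sub_cancel] at this
    · rw [pow_succ']
      exact Ideal.mul_mem_mul (Ideal.subset_span ⟨i, rfl⟩) hr
  have hEJ : ∀ (d : ℚ), ∀ z ∈ wJ t w d, E z ∈ wJ t w d := by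
    intro d z hz
    rw [hE, euler_apply]
    refine Ideal.sum_mem _ fun i _ => ?_
    have h1 : D i z ∈ wJ t w (d - w i) := deriv_mem_wJ (h0 i) (fun l => by
      by_cases hl : i = l
      · exact Or.inr (hl ▸ le_rfl)
      · exact Or.inl (by simp [hD, hl])) hz
    have := wJ_mul t w _ _ (Ideal.mul_mem_mul (self_mem_wJ t w i) h1)
    rwa [add_sub_cancel] at this
  induction m generalizing d f with
  | zero => exact le_sat _ (by simp)
  | succ m ih =>
    rcases Nat.eq_zero_or_pos m with rfl | hm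
    · rcases le_or_gt d 0 with hd | hd
      · exact le_sat _ (by simp [wJ_nonpos t w hd])
      · exact sat_mono (by simp) (hqt (hf [] (by simpa using hd)))
    have h1 : E f ∈ sat q (wJ t w d ⊔ T ^ (m + 1)) := by
      rw [hE, euler_apply]
      refine Ideal.sum_mem _ fun i _ => hmul d m i _ (ih fun L hL => ?_)
      rw [← dl_concat]
      refine hf _ ?_
      rw [List.map_append, List.sum_append, List.map_singleton, List.sum_singleton]
      linarith
    obtain ⟨s, hs, hz⟩ := ih hf
    obtain ⟨j, hj, r, hr, hjr⟩ := Submodule.mem_sup.1 hz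
    have h2 : E s * f ∈ sat q (wJ t w d ⊔ T ^ (m + 1)) := by
      refine ⟨s, hs, ?_⟩
      rw [mul_left_comm, ← hjr, mul_add]
      refine add_mem (Ideal.mem_sup_left (Ideal.mul_mem_left _ _ hj)) (Ideal.mem_sup_right ?_)
      rw [pow_succ']
      exact Ideal.mul_mem_mul (hE2 s) hr
    have h3 : (m : S) * r ∈ sat q (wJ t w d ⊔ T ^ (m + 1)) := by
      have e : (m : S) * r = s * E f + E s * f - E j - (E r - m * r) := by
        have := congrArg E hjr
        rw [map_add, Derivation.leibniz, smul_eq_mul, smul_eq_mul] at this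
        linear_combination this
      rw [e]
      exact sub_mem (sub_mem (add_mem (Ideal.mul_mem_left _ _ h1) h2)
        (le_sat _ (Ideal.mem_sup_left (hEJ d j hj))))
        (le_sat _ (Ideal.mem_sup_right (euler_sub hE1 hE2 m hr)))
    refine mem_sat_of_mul hs ?_
    rw [← hjr]
    exact add_mem (le_sat _ (Ideal.mem_sup_left hj)) (mem_sat_of_mul (hchar m hm.ne') h3)

/-- Taylor lemma: `f` has weight at least `d` as soon as all its derivatives of weight less than
`d` vanish at `q`. -/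
theorem taylor [IsNoetherianRing S] (hchar : ∀ m : ℕ, m ≠ 0 → (m : S) ∉ q) {t : Fin N → S}
    {D : Fin N → Derivation k S S} (hD : ∀ i j, D i (t j) = if i = j then 1 else 0)
    (ht : ∀ i, t i ∈ q) (hqt : q ≤ sat q (Ideal.span (Set.range t))) {w : Fin N → ℚ}
    (h0 : ∀ i, 0 ≤ w i) {d : ℚ} {f : S}
    (hf : ∀ L : List (Fin N), (L.map w).sum < d → dl D L f ∈ q) : f ∈ sat q (wJ t w d) :=
  mem_sat_of_forall (Ideal.span_le.2 (Set.range_subset_iff.2 ht))
    (taylor_aux hchar hD hqt h0 hf)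

omit hq in
theorem pow_le_wJ (t : Fin N → S) {w : Fin N → ℚ} {ε : ℚ} (h : ∀ i, ε ≤ w i) (m : ℕ) :
    Ideal.span (Set.range t) ^ m ≤ wJ t w (m * ε) := by
  induction m with
  | zero => simp [wJ_nonpos t w le_rfl]
  | succ m ih =>
    rw [pow_succ, Nat.cast_succ, add_mul, one_mul]
    refine (Ideal.mul_mono ih (Ideal.span_le.2 ?_)).trans (wJ_mul t w _ _)
    rintro _ ⟨i, rfl⟩
    exact wJ_anti t w (h i) (self_mem_wJ t w i)

/-- Taylor lemma for positive weights. -/
theorem taylor_pos (hchar : ∀ m : ℕ, m ≠ 0 → (m : S) ∉ q) {t : Fin N → S}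
    {D : Fin N → Derivation k S S} (hD : ∀ i j, D i (t j) = if i = j then 1 else 0)
    (hqt : q ≤ sat q (Ideal.span (Set.range t))) {w : Fin N → ℚ}
    (h0 : ∀ i, 0 < w i) {d : ℚ} {f : S}
    (hf : ∀ L : List (Fin N), (L.map w).sum < d → dl D L f ∈ q) : f ∈ sat q (wJ t w d) := by
  obtain ⟨ε, hε, h⟩ : ∃ ε : ℚ, 0 < ε ∧ ∀ i, ε ≤ w i := by
    rcases isEmpty_or_nonempty (Fin N) with hN | hN
    · exact ⟨1, one_pos, fun i => hN.elim i⟩
    · obtain ⟨i, hi⟩ := Finite.exists_min w
      exact ⟨w i, h0 i, hi⟩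
  obtain ⟨m, hm⟩ := exists_nat_ge (d / ε)
  rw [div_le_iff₀ hε] at hm
  refine sat_mono (sup_le le_rfl ((pow_le_wJ t h m).trans (wJ_anti t w hm)))
    (taylor_aux hchar hD hqt (fun i => (h0 i).le) hf m)

end

end Pool.Agent.Lib.MP_4287a9_ag.Res.Abs
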