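import Pool.Agent.Lib.MP_4287a9_ag.ResA

/-! Termination, common denominators. -/

namespace Pool.Agent.Lib.MP_4287a9_ag.Res

variable {N : ℕ}

theorem exists_int_weights (w : Fin N → ℚ) (hw : ∀ i, 0 ≤ w i) :
    ∃ D : ℕ, 0 < D ∧ ∃ W : Fin N → ℕ, ∀ i, (W i : ℚ) = D * w i := by
  refine ⟨∏ i, (w i).den, Finset.prod_pos fun i _ => (w i).den_pos,
    fun i => (w i).num.toNat * ∏ i' ∈ Finset.univ.erase i, (w i').den, fun i => ?_⟩
  rw [← Finset.mul_prod_erase _ _ (Finset.mem_univ i)]
  have h1 : (((w i).num.toNat : ℕ) : ℚ) = (w i).num := by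
    have : (((w i).num.toNat : ℕ) : ℤ) = (w i).num := Int.toNat_of_nonneg (Rat.num_nonneg.2 (hw i))
    exact_mod_cast this
  rw [Nat.cast_mul, Nat.cast_mul, h1, ← Rat.mul_den_eq_num]
  ring

theorem acc_finite (v : Fin N → ℚ) (hv : ∀ i, 0 ≤ v i) {ε : ℚ} (hε : 0 < ε) :
    {x | ε ≤ x ∧ ∃ (a : Fin N → ℕ) (m : ℕ), 1 ≤ m ∧ ∑ i, v i * a i + m * x = 1}.Finite := by
  obtain ⟨M, hM, W, hW⟩ := exists_int_weights v hv
  refine (((Finset.range (M + 1) ×ˢ Finset.range (⌈1 / ε⌉₊ + 1)).finite_toSet).image
    fun p : ℕ × ℕ => ((M : ℚ) - p.1) / (M * p.2)).subset ?_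
  rintro x ⟨hx, a, m, hm, h⟩
  have hM' : (0 : ℚ) < M := by exact_mod_cast hM
  have hm' : (1 : ℚ) ≤ m := by exact_mod_cast hm
  have h1 : ((∑ i, W i * a i : ℕ) : ℚ) = M * ∑ i, v i * a i := by
    push_cast
    rw [Finset.mul_sum]
    exact Finset.sum_congr rfl fun i _ => by rw [hW, mul_assoc]
  have h2 : 0 ≤ ∑ i, v i * a i :=
    Finset.sum_nonneg fun i _ => mul_nonneg (hv i) (Nat.cast_nonneg _)
  have h3 : 0 < (m : ℚ) * x := mul_pos (by linarith) (by linarith)
  refine ⟨(∑ i, W i * a i, m), ?_, ?_⟩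
  · simp only [Finset.coe_product, Finset.coe_range, Set.mem_prod, Set.mem_Iio]
    constructor
    · have : ((∑ i, W i * a i : ℕ) : ℚ) ≤ M := by
        rw [h1]
        nlinarith
      have : ∑ i, W i * a i ≤ M := by exact_mod_cast this
      omega
    · have h4 : (m : ℚ) ≤ 1 / ε := by
        rw [le_div_iff₀ hε]
        nlinarith
      have : m ≤ ⌈1 / ε⌉₊ := by exact_mod_cast h4.trans (Nat.le_ceil _)
      omega
  · simp only
    rw [h1, show ∑ i, v i * a i = 1 - m * x by linarith]
    field_simp
    ring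

theorem acc_stab {α : Type} [LinearOrder α] {f : ℕ → α} {n0 : ℕ}
    (hf : ∀ a b, n0 ≤ a → a ≤ b → f a ≤ f b) (hfin : (f '' Set.Ici n0).Finite) :
    ∃ n1, n0 ≤ n1 ∧ ∀ a, n1 ≤ a → f a = f n1 := by
  obtain ⟨_, ⟨n1, hn1, rfl⟩, h⟩ :=
    Set.exists_max_image _ id hfin ⟨f n0, n0, Set.self_mem_Ici, rfl⟩
  exact ⟨n1, hn1, fun a ha => le_antisymm (h _ ⟨a, hn1.trans ha, rfl⟩) (hf n1 a hn1 ha)⟩

/-- No strictly increasing sequence (`RelEmbedding.wellFounded_iff_isEmpty` or
`wellFounded_iff_isEmpty_descending_chain`): by induction on `j`, the first `j` entries of an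
increasing sequence are eventually constant. Given the weights below `j` (all positive if
`w j > 0`), for every `ε > 0` only finitely many values `≥ ε` are possible for `w j`, and from that
point on the `j`-th entries form a monotone sequence. -/
theorem nuSet_wf : WellFounded (fun a b : NuSet N => (b : Nu N) < (a : Nu N)) := by
  rw [wellFounded_iff_isEmpty_descending_chain]
  refine ⟨fun ⟨f, hf⟩ => ?_⟩
  choose w fr hg h0 _ hβ using fun a => (f a).2
  set g : ℕ → Nu N := fun a => (f a : Nu N) with hgd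
  have hgw : ∀ a i, (ofLex (g a i)).1 = w a i := fun a i => by
    rw [hgd]
    simp only [hg a]
    rfl
  have hmono : StrictMono g := strictMono_nat_of_lt_succ hf
  have key : ∀ j : ℕ, ∃ n0, ∀ a, n0 ≤ a → ∀ i : Fin N, i.val < j → g a i = g n0 i := by
    intro j
    induction j with
    | zero => exact ⟨0, fun _ _ i hi => absurd hi (Nat.not_lt_zero _)⟩
    | succ j ih =>
      obtain ⟨n0, hn0⟩ := ih
      by_cases hj : j < N
      swap
      · exact ⟨n0, fun a ha i _ => hn0 a ha i (i.2.trans_le (not_lt.1 hj))⟩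
      set J : Fin N := ⟨j, hj⟩
      have hle : ∀ a b, n0 ≤ a → a ≤ b → g a J ≤ g b J := by
        intro a b ha hab
        rcases (hmono.monotone hab).lt_or_eq with h | h
        · obtain ⟨i, h1, h2⟩ := h
          rcases lt_trichotomy i J with h3 | h3 | h3
          · rw [hn0 a ha i h3, hn0 b (ha.trans hab) i h3] at h2
            exact absurd h2 (lt_irrefl _)
          · exact (h3 ▸ h2).le
          · exact (h1 J h3).le
        · rw [h]
      have hfin : ((fun a => g a J) '' Set.Ici n0).Finite := by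
        have h1 : ((fun a => w a J) '' Set.Ici n0).Finite := by
          by_cases hz : ∃ a, n0 ≤ a ∧ w a J ≠ 0
          · obtain ⟨a, ha, hz⟩ := hz
            have hpos : 0 < w a J := lt_of_le_of_ne (h0 a J) hz.symm
            refine (((Set.finite_Iio a).image fun a => w a J).union
              (acc_finite (w n0) (h0 n0) hpos)).subset ?_
            rintro _ ⟨b, hb, rfl⟩
            rcases lt_or_ge b a with h | h
            · exact Or.inl ⟨b, h, rfl⟩
            · have h2 : w a J ≤ w b J := by
                rw [← hgw, ← hgw]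
                exact Prod.Lex.monotone_fst _ _ (hle a b ha h)
              obtain ⟨β, hβ1, hβ2, hβ3⟩ := hβ b J (hpos.trans_le h2)
              refine Or.inr ⟨h2, Function.update β J 0, β J, hβ2, ?_⟩
              rw [← hβ3, ← Finset.add_sum_erase _ _ (Finset.mem_univ J),
                ← Finset.add_sum_erase _ (fun i => w b i * β i) (Finset.mem_univ J),
                Function.update_self, Nat.cast_zero, mul_zero, zero_add, add_comm, mul_comm]
              congr 1
              refine Finset.sum_congr rfl fun i hi => ?_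
              have hi' := Finset.ne_of_mem_erase hi
              rw [Function.update_of_ne hi']
              rcases lt_or_gt_of_ne hi' with h3 | h3
              · rw [← hgw, ← hgw, hn0 b hb i h3]
              · simp [hβ1 i h3]
          · push Not at hz
            refine (Set.finite_singleton 0).subset ?_
            rintro _ ⟨b, hb, rfl⟩
            exact hz b hb
        refine ((h1.prod (Set.finite_univ (α := Bool))).image toLex).subset ?_
        rintro _ ⟨b, hb, rfl⟩
        exact ⟨ofLex (g b J), ⟨⟨b, hb, (hgw b J).symm⟩, trivial⟩, rfl⟩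
      obtain ⟨n1, h1, h2⟩ := acc_stab hle hfin
      refine ⟨n1, fun a ha i hi => ?_⟩
      rcases (Nat.lt_succ_iff.1 hi).lt_or_eq with h | h
      · rw [hn0 a (h1.trans ha) i h, hn0 n1 h1 i h]
      · have : i = J := Fin.ext h
        rw [this]
        exact h2 a ha
  obtain ⟨n0, hn0⟩ := key N
  have : g (n0 + 1) = g n0 := funext fun i => hn0 _ (Nat.le_succ _) i i.2
  exact absurd this (hmono (Nat.lt_succ_self n0)).ne'

/-- The invariant of a smooth subvariety of codimension `c`. -/
def nuC (N c : ℕ) : Nu N := nu (fun i : Fin N => if (i : ℕ) < c then 1 else 0) (fun _ => true)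

/-- All weights of an element of `NuSet` are at most one. -/
theorem nuC_le {c : ℕ} {w : Fin N → ℚ} {fr : Fin N → Bool} (hw : ∀ i, w i ≤ 1)
    (h : nuC N c ≤ nu w fr) (i : Fin N) (hi : (i : ℕ) < c) : w i = 1 ∧ fr i = true := by
  have hC : ∀ i : Fin N, (i : ℕ) < c → nuC N c i = toLex ((1 : ℚ), true) := fun i hi => by
    change toLex (_, _) = _
    simp [hi]
  have htop : ∀ i : Fin N, nu w fr i ≤ toLex ((1 : ℚ), true) := fun i => by
    change toLex (_, _) ≤ _
    rw [Prod.Lex.toLex_le_toLex]
    rcases (hw i).lt_or_eq with h | h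
    · exact Or.inl h
    · exact Or.inr ⟨h, Bool.le_true _⟩
  have h1 : nu w fr i = toLex ((1 : ℚ), true) := by
    rcases h.lt_or_eq with h | h
    · obtain ⟨j, h1, h2⟩ := h
      rcases lt_or_ge i j with hij | hij
      · rw [← hC i hi]
        exact (h1 i hij).symm
      · have hj : (j : ℕ) < c := lt_of_le_of_lt hij hi
        have h3 : nuC N c j < nu w fr j := h2
        rw [hC j hj] at h3
        exact absurd h3 (not_lt.2 (htop j))
    · rw [← h, hC i hi]
  have h2 : (w i, fr i && decide (0 < w i)) = ((1 : ℚ), true) := toLex.injective h1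
  have h3 := Prod.ext_iff.1 h2
  simp only [Bool.and_eq_true] at h3
  exact ⟨h3.1, h3.2.1⟩

end Pool.Agent.Lib.MP_4287a9_ag.Res
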