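import Mathlib

/-!
Derivations of a monoid algebra `K[Γ]`: `a τ ^ γ ↦ (D₀ a + φ γ * a) τ ^ γ`.
-/

namespace Pool.Agent.Lib.MP_4287a9_ag.Res

noncomputable section

variable {k K Γ : Type} [CommRing k] [CommRing K] [Algebra k K] [AddCommMonoid Γ]

/-- The underlying linear map. -/
def aDL (D₀ : Derivation k K K) (φ : Γ →+ K) : AddMonoidAlgebra K Γ →ₗ[k] AddMonoidAlgebra K Γ where
  toFun z := AddMonoidAlgebra.ofCoeff (Finsupp.onFinset z.coeff.support
    (fun γ => D₀ (z.coeff γ) + φ γ * z.coeff γ) (fun γ h => by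
      rw [Finsupp.mem_support_iff]
      intro h0
      simp [h0] at h))
  map_add' z z' := by
    ext γ
    simp
    ring
  map_smul' c z := by
    ext γ
    simp

theorem aDL_coeff (D₀ : Derivation k K K) (φ : Γ →+ K) (z : AddMonoidAlgebra K Γ) (γ : Γ) :
    (aDL D₀ φ z).coeff γ = D₀ (z.coeff γ) + φ γ * z.coeff γ := rfl

theorem aDL_single (D₀ : Derivation k K K) (φ : Γ →+ K) (γ : Γ) (a : K) :
    aDL D₀ φ (AddMonoidAlgebra.single γ a) = AddMonoidAlgebra.single γ (D₀ a + φ γ * a) := by
  classical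
  ext β
  rw [aDL_coeff]
  by_cases h : γ = β
  · subst h
    simp
  · simp [h]

/-- The derivation `a τ ^ γ ↦ (D₀ a + φ γ * a) τ ^ γ`. -/
def aD (D₀ : Derivation k K K) (φ : Γ →+ K) :
    Derivation k (AddMonoidAlgebra K Γ) (AddMonoidAlgebra K Γ) :=
  Derivation.mk' (aDL D₀ φ) (fun z z' => by
    induction z using AddMonoidAlgebra.induction_linear with
    | zero => simp
    | add a b ha hb =>
      rw [add_mul, map_add, ha, hb, map_add, add_smul, smul_add]
      abel
    | single γ a =>
      induction z' using AddMonoidAlgebra.induction_linear with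
      | zero => simp
      | add a b ha hb =>
        rw [mul_add, map_add, ha, hb, map_add, add_smul, smul_add]
        abel
      | single β b =>
        simp only [AddMonoidAlgebra.single_mul_single, aDL_single, smul_eq_mul, add_comm β γ,
          ← AddMonoidAlgebra.single_add, Derivation.leibniz, map_add]
        congr 1
        ring)

theorem aD_coeff (D₀ : Derivation k K K) (φ : Γ →+ K) (z : AddMonoidAlgebra K Γ) (γ : Γ) :
    (aD D₀ φ z).coeff γ = D₀ (z.coeff γ) + φ γ * z.coeff γ := rfl

theorem aD_single (D₀ : Derivation k K K) (φ : Γ →+ K) (γ : Γ) (a : K) :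
    aD D₀ φ (AddMonoidAlgebra.single γ a) = AddMonoidAlgebra.single γ (D₀ a + φ γ * a) :=
  aDL_single D₀ φ γ a

/-- The `c`-th coordinate of a degree, as an element of `K`. -/
def degK (K : Type) [CommRing K] {σ : Type} (c : σ) : (σ → ℤ) →+ K :=
  (Int.castAddHom K).comp (Pi.evalAddMonoidHom (fun _ : σ => ℤ) c)

theorem degK_apply {σ : Type} (c : σ) (γ : σ → ℤ) : degK K c γ = (γ c : K) := rfl

/-- The ambient derivations: `D₀` on the coefficients, and the Euler derivations for the
variables `e c`. -/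
def amb {n ρ : ℕ} {σ : Type} (D₀ : Fin n → Derivation k K K) (e : Fin ρ → σ) :
    Fin (n + ρ) → Derivation k (AddMonoidAlgebra K (σ → ℤ)) (AddMonoidAlgebra K (σ → ℤ)) :=
  Fin.append (fun a => aD (D₀ a) 0) (fun c => aD 0 (degK K (e c)))

end

end Pool.Agent.Lib.MP_4287a9_ag.Res
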