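import Pool.Agent.Lib.MP_4287a9_ag.ResA
import Pool.Agent.Lib.MP_4287a9_ag.ResD

/-!
Weighted resolution, concrete layer: graded charts inside `K[τ₀^±, τ₁^±, ...]`.
-/

namespace Pool.Agent.Lib.MP_4287a9_ag.Res

noncomputable section

/-- Degrees. -/
abbrev Gam : Type := ℕ → ℤ

/-- The ambient ring. -/
abbrev LL (K : Type) [Field K] : Type := AddMonoidAlgebra K Gam

variable {k K : Type} [Field k] [Field K] [Algebra k K] {N : ℕ}

/-- The homogeneous element `a τ ^ γ`. -/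
abbrev sg (γ : Gam) (a : K) : LL K := AddMonoidAlgebra.single γ a

/-- Homogeneous of degree `γ`. -/
def IsH (γ : Gam) (z : LL K) : Prop := ∃ a : K, z = sg γ a

/-- Homogeneous. -/
def Hm (z : LL K) : Prop := ∃ γ, IsH γ z

/-- The homogeneous component of degree `γ`. -/
def prj (γ : Gam) (z : LL K) : LL K := sg γ (z.coeff γ)

/-- The unit `a τ ^ γ`. -/
def hu (γ : Gam) (a : Kˣ) : (LL K)ˣ where
  val := sg γ (a : K)
  inv := sg (-γ) ((a⁻¹ : Kˣ) : K)
  val_inv := by
    rw [AddMonoidAlgebra.single_mul_single]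
    simp [AddMonoidAlgebra.one_def]
  inv_val := by
    rw [AddMonoidAlgebra.single_mul_single]
    simp [AddMonoidAlgebra.one_def]

/-- The variable `τ c`. -/
def tau (K : Type) [Field K] (c : ℕ) : (LL K)ˣ := hu (Pi.single c 1) 1

/-- The degree involves only the variables of index `< ρ`. -/
def Below (ρ : ℕ) (γ : Gam) : Prop := ∀ c, ρ ≤ c → γ c = 0

/-- The derivation kills the variables of index `≥ ρ`. -/
def Fresh (ρ : ℕ) (δ : Derivation k (LL K) (LL K)) : Prop :=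
  ∀ c, ρ ≤ c → δ (tau K c : LL K) = 0

/-- The derivation maps homogeneous elements to homogeneous elements. -/
def HomDer (δ : Derivation k (LL K) (LL K)) : Prop := ∀ z, Hm z → Hm (δ z)

/-- A graded subalgebra. -/
def GrA (S : Subalgebra k (LL K)) : Prop := ∀ z ∈ S, ∀ γ, prj γ z ∈ S

/-- A graded submodule. -/
def GrM {S : Subalgebra k (LL K)} (M : Submodule S (LL K)) : Prop := ∀ z ∈ M, ∀ γ, prj γ z ∈ M

/-- A homogeneous prime ideal. -/
structure GPt (S : Subalgebra k (LL K)) (q : Submodule S (LL K)) : Prop where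
  prime : PrimeAt S q
  gr : GrM q

/-- The residues of the elements of degree zero are algebraic over `k`. -/
def AlgAt (S : Subalgebra k (LL K)) (q : Submodule S (LL K)) : Prop :=
  ∀ a : K, sg 0 a ∈ S → ∃ P : Polynomial k, P ≠ 0 ∧ sg 0 (Polynomial.aeval a P) ∈ q

/-- The extension of `q` to a larger ring. -/
def extq {S : Subalgebra k (LL K)} (q : Submodule S (LL K)) (S' : Subalgebra k (LL K)) :
    Submodule S' (LL K) :=
  Submodule.span S' (q : Set (LL K))

/-- The elements with coefficients in `O`. -/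
def OL (O : Subalgebra k K) : Subalgebra k (LL K) :=
  Algebra.adjoin k {z | ∃ γ, ∃ a ∈ O, z = sg γ a}

/-- The elements with coefficients in the maximal ideal of `O`. -/
def mL (O : Subalgebra k K) : Submodule (OL O) (LL K) :=
  Submodule.span (OL O) {z | ∃ γ, ∃ a ∈ O, (a = 0 ∨ a⁻¹ ∉ O) ∧ z = sg γ a}

/-- Ambient data. -/
structure Amb (k K : Type) [Field k] [Field K] [Algebra k K] (N : ℕ) where
  O : Subalgebra k K
  R0 : Subalgebra k K
  x0 : Fin N → K
  D0 : Fin N → Derivation k K K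
  WW : Set (Subalgebra k K)

/-- `O` is local, `D0` is dual to `x0`, the rings in `WW` are relative valuation rings. -/
structure Amb.Good (A : Amb k K N) : Prop where
  loc : ∀ a ∈ A.O, ∀ b ∈ A.O, a + b = 1 → (a ≠ 0 ∧ a⁻¹ ∈ A.O) ∨ (b ≠ 0 ∧ b⁻¹ ∈ A.O)
  mem : ∀ i, A.x0 i ∈ A.R0
  dual : ∀ i j, A.D0 i (A.x0 j) = if i = j then 1 else 0
  le : ∀ W ∈ A.WW, W ≤ A.O
  val : ∀ W ∈ A.WW, ∀ a ∈ A.O, a ∈ W ∨ a⁻¹ ∈ W

/-- A chart: ring, coordinates, invertible coordinates, labels of the boundary. -/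
structure Chart (k K : Type) [Field k] [Field K] [Algebra k K] (N : ℕ) where
  B : Subalgebra k (LL K)
  t : Fin N → LL K
  u : ℕ → (LL K)ˣ
  lab : Fin N → Option ℕ

namespace Chart

/-- The equation of the boundary divisor `e`. -/
def y (c : Chart k K N) (e : ℕ) : LL K := ∏ i, if c.lab i = some e then c.t i else 1

/-- A unit times a monomial in the boundary equations. -/
def Mono (c : Chart k K N) (ρ : ℕ) (z : LL K) : Prop :=
  ∃ υ, UnitIn c.B υ ∧ ∃ a : ℕ → ℕ, z = υ * ∏ e ∈ Finset.range ρ, c.y e ^ a e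

/-- The set of all coordinates. -/
def T (c : Chart k K N) (ρ : ℕ) : Set (LL K) :=
  Set.range c.t ∪ {z | ∃ e < ρ, z = (c.u e : LL K)}

/-- The family of all coordinates. -/
def yy (c : Chart k K N) (ρ : ℕ) : Fin (N + ρ) → LL K :=
  Fin.append c.t fun e : Fin ρ => (c.u e : LL K)

/-- The group generated by the invertible coordinates. -/
def U (c : Chart k K N) (ρ : ℕ) : Subgroup (LL K)ˣ := Subgroup.closure {v | ∃ e < ρ, v = c.u e}

/-- The conditions on a chart at stage `ρ`. -/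
structure Good (A : Amb k K N) (ρ : ℕ) (c : Chart k K N) : Prop where
  fg : ∃ s : Finset (LL K), (∀ z ∈ s, ∃ γ, Below ρ γ ∧ IsH γ z) ∧ c.B = Algebra.adjoin k s
  base : ∀ a ∈ A.R0, sg 0 a ∈ c.B
  tmem : ∀ i, c.t i ∈ c.B
  thom : ∀ i, Hm (c.t i)
  uunit : ∀ e < ρ, UnitIn c.B (c.u e : LL K)
  udeg : ∀ e < ρ, ∃ γ, IsH γ (c.u e : LL K) ∧ γ e ≠ 0 ∧ Below (e + 1) γ
  unr : Unr c.B (c.T ρ)
  inj : ∀ i j e, c.lab i = some e → c.lab j = some e → i = j
  lt : ∀ i e, c.lab i = some e → e < ρ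
  tauMono : ∀ e < ρ, c.Mono ρ (tau K e : LL K)

/-- Derivations dual to the coordinates `t`. -/
structure Dual (ρ : ℕ) (c : Chart k K N) (D : Fin N → Derivation k (LL K) (LL K)) : Prop where
  fresh : ∀ i, Fresh ρ (D i)
  hom : ∀ i, HomDer (D i)
  pres : ∀ i, Pres c.B (D i)
  dual : ∀ i j, D i (c.t j) = if i = j then 1 else 0
  kill : ∀ i, ∀ e < ρ, D i (c.u e : LL K) = 0
  comm : ∀ i j, ∀ z ∈ c.B, D i (D j z) = D j (D i z)

/-- `c'` lives on the localization of `c` away from `σ` and has the same boundary. -/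
structure Loc (c : Chart k K N) (σ : (LL K)ˣ) (c' : Chart k K N) : Prop where
  mem : (σ : LL K) ∈ c.B
  hom : Hm (σ : LL K)
  eq : c'.B = away c.B σ
  as : ∀ e, ∃ υ, UnitIn c'.B υ ∧ c'.y e = υ * c.y e

/-- Localization with the same coordinates. -/
def loc (c : Chart k K N) (σ : (LL K)ˣ) : Chart k K N := { c with B := away c.B σ }

/-- Permutation of the coordinates. -/
def perm (c : Chart k K N) (π : Equiv.Perm (Fin N)) : Chart k K N :=
  { c with t := c.t ∘ π, lab := c.lab ∘ π }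

/-- Replacement of one coordinate. -/
def upd (c : Chart k K N) (l : Fin N) (g : LL K) : Chart k K N :=
  { c with t := Function.update c.t l g, lab := Function.update c.lab l none }

/-- The ideal is trivial on the chart. -/
def Triv (c : Chart k K N) (I : Set (LL K)) : Prop := ∃ f ∈ I, UnitIn c.B f

/-- The coordinates of the chart give a certified centre. -/
structure CC (c : Chart k K N) (ρ : ℕ) (I : Set (LL K)) (w : Fin N → ℚ) (fr : Fin N → Bool) :
    Prop where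
  cert : Cert c.B (Fresh ρ) c.y I c.t w fr
  anti : Antitone (nuE w fr)
  adm : ∀ f ∈ I, f ∈ Jw c.B c.t w 1
  free : ∀ i, 0 < w i → (fr i = true ↔ c.lab i = none)

/-- All admissible centres on the chart have invariant `> ν`. -/
def Bnd (c : Chart k K N) (ρ : ℕ) (I : Set (LL K)) (ν : Nu N) : Prop :=
  c.Triv I ∨ ∃ x w fr, Cert c.B (Fresh ρ) c.y I x w fr ∧
    (ν < nu w fr ∨ (ν = nu w fr ∧ ∃ i, 0 < w i ∧ UnitIn c.B (x i)))

/-- `c'` dominates `c`, and monomials stay monomials. -/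
def Dom (c : Chart k K N) (ρ : ℕ) (c' : Chart k K N) (ρ' : ℕ) : Prop :=
  c.B ≤ c'.B ∧ ∀ z, c.Mono ρ z → c'.Mono ρ' z

/-- The active part of the blow-up algebra. -/
def blB (c : Chart k K N) (ρ : ℕ) (W : Fin N → ℕ) : Subalgebra k (LL K) :=
  Algebra.adjoin k ((c.B : Set (LL K)) ∪ ({(tau K ρ : LL K)} ∪
    Set.range fun i => c.t i * (((tau K ρ)⁻¹ ^ W i : (LL K)ˣ) : LL K)))

/-- The inactive part of the blow-up algebra. -/
def blT (c : Chart k K N) (ρ : ℕ) : Subalgebra k (LL K) :=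
  Algebra.adjoin k ((c.B : Set (LL K)) ∪ {(tau K ρ : LL K), (((tau K ρ)⁻¹ : (LL K)ˣ) : LL K)})

/-- The strict transform of the boundary equation `y e`. -/
def yt (c : Chart k K N) (ρ : ℕ) (W : Fin N → ℕ) (e : ℕ) : LL K :=
  ∏ i, if c.lab i = some e then c.t i * (((tau K ρ)⁻¹ ^ W i : (LL K)ˣ) : LL K) else 1

/-- The chart `ξ ≠ 0` of the blow-up, where `ξ = t i₀ * τ ^ (- W i₀)`. -/
def blA (c : Chart k K N) (ρ : ℕ) (W : Fin N → ℕ) (i₀ : Fin N) (ξ : (LL K)ˣ) : Chart k K N where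
  B := away (c.blB ρ W) ξ
  t := Function.update (fun i => c.t i * (((tau K ρ)⁻¹ ^ W i : (LL K)ˣ) : LL K)) i₀ (tau K ρ)
  u := Function.update c.u ρ ξ
  lab := Function.update c.lab i₀ (some ρ)

/-- The chart of the blow-up over a chart that misses the centre. -/
def blI (c : Chart k K N) (ρ : ℕ) : Chart k K N where
  B := c.blT ρ
  t := c.t
  u := Function.update c.u ρ (tau K ρ)
  lab := c.lab

end Chart

/-- A finite system of charts. -/
structure Sys (k K : Type) [Field k] [Field K] [Algebra k K] (N : ℕ) where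
  ι : Type
  ch : ι → Chart k K N
  F : ι → Kˣ

namespace Sys

/-- The ring of the overlap of two charts. -/
def ov (S : Sys k K N) (l l' : S.ι) : Subalgebra k (LL K) :=
  away (S.ch l).B (hu 0 (S.F l' / S.F l))

/-- The conditions on a system at stage `ρ`. -/
structure Good (A : Amb k K N) (ρ : ℕ) (S : Sys k K N) : Prop where
  fin : Finite S.ι
  good : ∀ l, (S.ch l).Good A ρ
  int : ∀ l, (S.ch l).B ≤ OL A.O
  unit : ∀ l, (((S.F l)⁻¹ : Kˣ) : K) ∈ A.O
  div : ∀ l l', (hu 0 (S.F l' / S.F l) : LL K) ∈ (S.ch l).B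
  glue : ∀ l l', (S.ch l').B ≤ S.ov l l'
  yglue : ∀ l l' e, ∃ υ, UnitIn (S.ov l l') υ ∧ (S.ch l').y e = υ * (S.ch l).y e
  mono : ∀ l, (S.ch l).Mono ρ (hu 0 (S.F l) : LL K)
  dvd : ∀ l e, (hu 0 (S.F l) : LL K) ∈ pr1 (S.ch l).B ((S.ch l).y e)
  gen : ∀ l, Unr (away (S.ch l).B (hu 0 (S.F l)))
    ({z | ∃ a ∈ A.R0, z = sg 0 a} ∪ {z | ∃ e < ρ, z = (tau K e : LL K)})
  cover : ∀ W ∈ A.WW, ∃ l, ∀ a : K, sg 0 a ∈ (S.ch l).B → a ∈ W

/-- Every chart of `S'` dominates a chart of `S`. -/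
def Dom (S : Sys k K N) (ρ : ℕ) (S' : Sys k K N) (ρ' : ℕ) : Prop :=
  ∀ j, ∃ l, (S.ch l).Dom ρ (S'.ch j) ρ'

end Sys

/-- The weak transform of the set `I₀`. -/
def Iset (γ : Gam) (I₀ : Set K) : Set (LL K) := {z | ∃ f ∈ I₀, z = sg (-γ) f}

/-- A state of a run. -/
structure St (A : Amb k K N) (I₀ : Set K) (ρ : ℕ) (S : Sys k K N) (γ : Gam) : Prop where
  good : S.Good A ρ
  below : Below ρ γ
  nonneg : ∀ c, 0 ≤ γ c
  sub : ∀ l, ∀ f ∈ Iset γ I₀, f ∈ (S.ch l).B

end

end Pool.Agent.Lib.MP_4287a9_ag.Res
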