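import Pool.Agent.Lib.MP_4287a9_ag.ResB
import Pool.Agent.Lib.MP_4287a9_ag.ResA2

/-! Homogeneous elements, graded subalgebras and submodules. -/

namespace Pool.Agent.Lib.MP_4287a9_ag.Res

variable {k K : Type} [Field k] [Field K] [Algebra k K] {N : ℕ}

theorem sg_mul (γ β : Gam) (a b : K) : sg γ a * sg β b = sg (γ + β) (a * b) :=
  AddMonoidAlgebra.single_mul_single ..

theorem algebraMap_eq_sg (a : k) : algebraMap k (LL K) a = sg 0 (algebraMap k K a) := by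
  rfl

theorem coe_hu (γ : Gam) (a : Kˣ) : (hu γ a : LL K) = sg γ (a : K) := rfl

theorem hu_mul (γ β : Gam) (a b : Kˣ) : hu γ a * hu β b = hu (γ + β) (a * b) := by
  exact Units.ext (sg_mul γ β (a : K) (b : K))

theorem hu_inv (γ : Gam) (a : Kˣ) : (hu γ a)⁻¹ = hu (-γ) a⁻¹ := by
  exact Units.ext rfl

theorem hu_pow (γ : Gam) (a : Kˣ) (m : ℕ) : hu γ a ^ m = hu (m • γ) (a ^ m) := by
  refine Units.ext ?_
  rw [Units.val_pow_eq_pow_val, coe_hu, coe_hu, Units.val_pow_eq_pow_val]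
  exact AddMonoidAlgebra.single_pow ..

theorem hu_zero_one : hu 0 (1 : Kˣ) = 1 := by
  exact Units.ext rfl

theorem IsH.mul {γ β : Gam} {z z' : LL K} (h : IsH γ z) (h' : IsH β z') : IsH (γ + β) (z * z') := by
  obtain ⟨a, rfl⟩ := h
  obtain ⟨b, rfl⟩ := h'
  exact ⟨_, sg_mul ..⟩

theorem IsH.add {γ : Gam} {z z' : LL K} (h : IsH γ z) (h' : IsH γ z') : IsH γ (z + z') := by
  obtain ⟨a, rfl⟩ := h
  obtain ⟨b, rfl⟩ := h'
  exact ⟨a + b, (AddMonoidAlgebra.single_add ..).symm⟩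

theorem IsH.pow {γ : Gam} {z : LL K} (h : IsH γ z) (m : ℕ) : IsH (m • γ) (z ^ m) := by
  obtain ⟨a, rfl⟩ := h
  exact ⟨_, AddMonoidAlgebra.single_pow ..⟩

theorem IsH.inv {γ : Gam} {σ : (LL K)ˣ} (h : IsH γ (σ : LL K)) :
    IsH (-γ) ((σ⁻¹ : (LL K)ˣ) : LL K) := by
  obtain ⟨a, ha⟩ := h
  have h0 : a ≠ 0 := by
    rintro rfl
    exact σ.ne_zero (ha.trans (AddMonoidAlgebra.single_zero _))
  have h1 : σ = hu γ (Units.mk0 a h0) := Units.ext ha
  rw [h1, hu_inv]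
  exact ⟨_, rfl⟩

theorem IsH.unique {γ β : Gam} {z : LL K} (h : IsH γ z) (h' : IsH β z) (hz : z ≠ 0) : γ = β := by
  obtain ⟨a, rfl⟩ := h
  obtain ⟨b, hb⟩ := h'
  rcases AddMonoidAlgebra.single_inj.1 hb with h1 | h1
  · exact h1.1
  · exact absurd (AddMonoidAlgebra.single_eq_zero.2 h1.1) hz

theorem isH_tau (c : ℕ) : IsH (Pi.single c 1) (tau K c : LL K) := by
  exact ⟨_, rfl⟩

theorem isH_prj (γ : Gam) (z : LL K) : IsH γ (prj γ z) := ⟨_, rfl⟩

theorem Hm.mul {z z' : LL K} (h : Hm z) (h' : Hm z') : Hm (z * z') := by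
  obtain ⟨γ, h⟩ := h
  obtain ⟨β, h'⟩ := h'
  exact ⟨_, h.mul h'⟩

theorem Hm.pow {z : LL K} (h : Hm z) (m : ℕ) : Hm (z ^ m) := by
  obtain ⟨γ, h⟩ := h
  exact ⟨_, h.pow m⟩

theorem Hm.prod {ι : Type} {s : Finset ι} {f : ι → LL K} (h : ∀ i ∈ s, Hm (f i)) :
    Hm (∏ i ∈ s, f i) := by
  exact Finset.prod_induction f Hm (fun _ _ => Hm.mul) ⟨0, 1, rfl⟩ h

theorem Hm.inv {σ : (LL K)ˣ} (h : Hm (σ : LL K)) : Hm ((σ⁻¹ : (LL K)ˣ) : LL K) := by
  obtain ⟨γ, h⟩ := h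
  exact ⟨_, h.inv⟩

theorem hm_one : Hm (1 : LL K) := by
  exact ⟨0, 1, rfl⟩

/-- Nonzero homogeneous elements are units of the ambient ring. -/
theorem Hm.exists_unit {z : LL K} (h : Hm z) (hz : z ≠ 0) : ∃ σ : (LL K)ˣ, (σ : LL K) = z := by
  obtain ⟨γ, a, rfl⟩ := h
  have h0 : a ≠ 0 := fun e => hz (AddMonoidAlgebra.single_eq_zero.2 e)
  exact ⟨hu γ (Units.mk0 a h0), rfl⟩

theorem IsH.exists_hu {γ : Gam} {z : LL K} (h : IsH γ z) (hz : z ≠ 0) :
    ∃ a : Kˣ, (hu γ a : LL K) = z := by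
  obtain ⟨a, rfl⟩ := h
  have h0 : a ≠ 0 := fun e => hz (AddMonoidAlgebra.single_eq_zero.2 e)
  exact ⟨Units.mk0 a h0, rfl⟩

theorem prj_add (γ : Gam) (z z' : LL K) : prj γ (z + z') = prj γ z + prj γ z' := by
  exact AddMonoidAlgebra.single_add ..

theorem resB1_coeff_sg (z : LL K) (β γ : Gam) (b : K) :
    (z * sg β b).coeff γ = z.coeff (γ - β) * b :=
  AddMonoidAlgebra.coeff_mul_single_eq_coeff_mul _ fun _ _ => eq_sub_iff_add_eq.symm

theorem prj_mul_isH {β : Gam} {h : LL K} (hh : IsH β h) (γ : Gam) (z : LL K) :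
    prj (γ + β) (z * h) = prj γ z * h := by
  obtain ⟨b, rfl⟩ := hh
  rw [prj, prj, sg_mul, resB1_coeff_sg, add_sub_cancel_right]

theorem IsH.prj_self {γ : Gam} {z : LL K} (h : IsH γ z) : prj γ z = z := by
  obtain ⟨a, rfl⟩ := h
  simp [prj]

theorem IsH.prj_ne {γ β : Gam} {z : LL K} (h : IsH γ z) (hne : β ≠ γ) : prj β z = 0 := by
  obtain ⟨a, rfl⟩ := h
  simp [prj, Finsupp.single_eq_of_ne hne]

theorem sum_prj (z : LL K) : ∑ γ ∈ z.coeff.support, prj γ z = z := by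
  exact AddMonoidAlgebra.sum_coeff_single z

theorem resB1_coeff_mul (a b : LL K) (γ : Gam) :
    (a * b).coeff γ = ∑ β ∈ b.coeff.support, a.coeff (γ - β) * b.coeff β := by
  conv_lhs => rw [← sum_prj b, Finset.mul_sum, AddMonoidAlgebra.coeff_sum, Finsupp.finsetSum_apply]
  exact Finset.sum_congr rfl fun β _ => resB1_coeff_sg a β γ _

theorem resB1_prj_mul (γ : Gam) (a b : LL K) :
    prj γ (a * b) = ∑ β ∈ b.coeff.support, prj (γ - β) a * prj β b := by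
  rw [prj, resB1_coeff_mul]
  refine (map_sum (AddMonoidAlgebra.singleAddHom γ) _ _).trans
    (Finset.sum_congr rfl fun β _ => ?_)
  rw [prj, prj, sg_mul, sub_add_cancel]
  rfl

theorem resB1_prj_mem {A : Type} [SetLike A (LL K)] [ZeroMemClass A (LL K)] (M : A) {z : LL K}
    (h : Hm z) (hz : z ∈ M) (γ : Gam) : prj γ z ∈ M := by
  obtain ⟨β, h⟩ := h
  by_cases e : γ = β
  · rwa [e, h.prj_self]
  · rw [h.prj_ne e]
    exact zero_mem M

theorem resB1_grA {s : Set (LL K)} (hs : ∀ z ∈ s, ∀ γ, prj γ z ∈ Algebra.adjoin k s) :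
    GrA (Algebra.adjoin k s) := by
  intro z hz
  induction hz using Algebra.adjoin_induction with
  | mem x hx => exact hs x hx
  | algebraMap r => exact resB1_prj_mem _ ⟨0, _, algebraMap_eq_sg r⟩ (Subalgebra.algebraMap_mem _ r)
  | add x y _ _ hx hy => exact fun γ => prj_add γ x y ▸ add_mem (hx γ) (hy γ)
  | mul x y _ _ hx hy =>
    intro γ
    rw [resB1_prj_mul]
    exact sum_mem fun β _ => mul_mem (hx _) (hy _)

theorem grA_adjoin {s : Set (LL K)} (hs : ∀ z ∈ s, Hm z) : GrA (Algebra.adjoin k s) := by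
  exact resB1_grA fun z hz γ =>
    resB1_prj_mem (Algebra.adjoin k s) (hs z hz) (Algebra.subset_adjoin hz) γ

theorem GrA.adjoin_union {S : Subalgebra k (LL K)} (h : GrA S) {s : Set (LL K)}
    (hs : ∀ z ∈ s, Hm z) : GrA (Algebra.adjoin k ((S : Set (LL K)) ∪ s)) := by
  refine resB1_grA fun z hz γ => ?_
  rcases hz with hz | hz
  · exact Algebra.subset_adjoin (Or.inl (h z hz γ))
  · exact resB1_prj_mem _ (hs z hz) (Algebra.subset_adjoin (Or.inr hz)) γ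

theorem GrA.away {S : Subalgebra k (LL K)} (h : GrA S) {σ : (LL K)ˣ} (hσ : Hm (σ : LL K)) :
    GrA (away S σ) := by
  refine h.adjoin_union fun z hz => ?_
  rw [Set.mem_singleton_iff.1 hz]
  exact hσ.inv

theorem grM_span {S : Subalgebra k (LL K)} (h : GrA S) {s : Set (LL K)} (hs : ∀ z ∈ s, Hm z) :
    GrM (Submodule.span S s) := by
  intro z hz
  induction hz using Submodule.span_induction with
  | mem x hx => exact resB1_prj_mem _ (hs x hx) (Submodule.subset_span hx)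
  | zero => exact resB1_prj_mem _ ⟨0, 0, (AddMonoidAlgebra.single_zero _).symm⟩ (zero_mem _)
  | add x y _ _ hx hy => exact fun γ => prj_add γ x y ▸ add_mem (hx γ) (hy γ)
  | smul c x _ hx =>
    intro γ
    rw [ResA1_smul, resB1_prj_mul]
    exact sum_mem fun β _ => mul_mem_sub (h _ c.2 _) (hx β)

theorem grM_Jw {S : Subalgebra k (LL K)} (h : GrA S) {t : Fin N → LL K} (ht : ∀ i, Hm (t i))
    (w : Fin N → ℚ) (d : ℚ) : GrM (Jw S t w d) := by
  refine grM_span h ?_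
  rintro z ⟨α, -, -, rfl⟩
  exact Hm.prod fun i _ => (ht i).pow _

/-- Denominators of homogeneous elements can be taken homogeneous: some component of `σ` is not
in `q`. (No hypothesis on `q` is needed besides being a submodule.) -/
theorem Sat.hom {S : Subalgebra k (LL K)} (h : GrA S) {q M : Submodule S (LL K)} (hM : GrM M)
    {z : LL K} (hz : Hm z) (hs : Sat q M z) : ∃ σ ∈ S, Hm σ ∧ σ ∉ q ∧ σ * z ∈ M := by
  obtain ⟨σ, hσ, hq, hm⟩ := hs
  obtain ⟨γ, hz⟩ := hz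
  have h1 : ∃ β, prj β σ ∉ q := by
    by_contra hc
    push Not at hc
    exact hq (sum_prj σ ▸ sum_mem fun β _ => hc β)
  obtain ⟨β, hβ⟩ := h1
  exact ⟨prj β σ, h σ hσ β, ⟨β, isH_prj β σ⟩, hβ, prj_mul_isH hz β σ ▸ hM _ hm _⟩

/-- Elements of an algebra generated by homogeneous elements of degree below `ρ`. -/
theorem below_of_adjoin {ρ : ℕ} {s : Set (LL K)} (hs : ∀ z ∈ s, ∃ γ, Below ρ γ ∧ IsH γ z)
    {z : LL K} (hz : z ∈ Algebra.adjoin k s) {γ : Gam} (hγ : z.coeff γ ≠ 0) : Below ρ γ := by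
  have h0 : ∀ {β : Gam} {x : LL K}, IsH β x → Below ρ β → ∀ γ, x.coeff γ ≠ 0 → Below ρ γ := by
    rintro β _ ⟨a, rfl⟩ hb γ hγ
    by_cases e : γ = β
    · exact e ▸ hb
    · exact absurd (Finsupp.single_eq_of_ne e) hγ
  induction hz using Algebra.adjoin_induction generalizing γ with
  | mem x hx =>
    obtain ⟨β, hb, hx⟩ := hs x hx
    exact h0 hx hb γ hγ
  | algebraMap r => exact h0 ⟨_, algebraMap_eq_sg r⟩ (fun _ _ => rfl) γ hγ
  | add x y _ _ hx hy =>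
    by_cases e : x.coeff γ = 0
    · refine hy fun e' => hγ ?_
      rw [AddMonoidAlgebra.coeff_add, Finsupp.add_apply, e, e', add_zero]
    · exact hx e
  | mul x y _ _ hx hy =>
    rw [resB1_coeff_mul] at hγ
    obtain ⟨β, -, hβ⟩ := Finset.exists_ne_zero_of_sum_ne_zero hγ
    intro c hc
    have h1 := hx (left_ne_zero_of_mul hβ) c hc
    have h2 := hy (right_ne_zero_of_mul hβ) c hc
    rwa [Pi.sub_apply, h2, sub_zero] at h1

theorem mem_OL {O : Subalgebra k K} {z : LL K} : z ∈ OL O ↔ ∀ γ, z.coeff γ ∈ O := by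
  have h0 : ∀ (β : Gam) (a : K), a ∈ O → ∀ γ, (sg β a).coeff γ ∈ O := by
    intro β a ha γ
    by_cases e : γ = β
    · subst e
      simpa using ha
    · rw [AddMonoidAlgebra.coeff_single, Finsupp.single_eq_of_ne e]
      exact zero_mem O
  refine ⟨fun hz => ?_, fun h => ?_⟩
  · induction hz using Algebra.adjoin_induction with
    | mem x hx =>
      obtain ⟨β, a, ha, rfl⟩ := hx
      exact h0 β a ha
    | algebraMap r => exact h0 0 _ (O.algebraMap_mem r)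
    | add x y _ _ hx hy => exact fun γ => add_mem (hx γ) (hy γ)
    | mul x y _ _ hx hy =>
      intro γ
      rw [resB1_coeff_mul]
      exact sum_mem fun β _ => mul_mem (hx _) (hy _)
  · rw [← sum_prj z]
    exact sum_mem fun γ _ => Algebra.subset_adjoin ⟨γ, _, h γ, rfl⟩

theorem sg_mem_OL {O : Subalgebra k K} {γ : Gam} {a : K} : sg γ a ∈ OL O ↔ a ∈ O := by
  refine ⟨fun h => ?_, fun h => Algebra.subset_adjoin ⟨γ, a, h, rfl⟩⟩
  simpa using mem_OL.1 h γ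

theorem resB1_unitIn {S : Subalgebra k (LL K)} {σ : (LL K)ˣ} :
    UnitIn S (σ : LL K) ↔ (σ : LL K) ∈ S ∧ ((σ⁻¹ : (LL K)ˣ) : LL K) ∈ S := by
  refine and_congr_right fun _ => ⟨?_, fun h => ⟨_, h, σ.mul_inv⟩⟩
  rintro ⟨υ, h1, h2⟩
  rwa [Units.inv_eq_of_mul_eq_one_right h2]

theorem unitIn_OL_hu {O : Subalgebra k K} {γ : Gam} {a : Kˣ} :
    UnitIn (OL O) (hu γ a : LL K) ↔ (a : K) ∈ O ∧ ((a⁻¹ : Kˣ) : K) ∈ O := by
  rw [resB1_unitIn, hu_inv, coe_hu, coe_hu, sg_mem_OL, sg_mem_OL]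

theorem UnitIn.mul {S : Subalgebra k (LL K)} {a b : LL K} (ha : UnitIn S a) (hb : UnitIn S b) :
    UnitIn S (a * b) := by
  obtain ⟨h1, υ, h2, h3⟩ := ha
  obtain ⟨h4, υ', h5, h6⟩ := hb
  exact ⟨mul_mem h1 h4, υ * υ', mul_mem h2 h5, by rw [mul_mul_mul_comm, h3, h6, one_mul]⟩

theorem UnitIn.pow {S : Subalgebra k (LL K)} {a : LL K} (ha : UnitIn S a) (m : ℕ) :
    UnitIn S (a ^ m) := by
  obtain ⟨h1, υ, h2, h3⟩ := ha
  exact ⟨pow_mem h1 m, υ ^ m, pow_mem h2 m, by rw [← mul_pow, h3, one_pow]⟩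

theorem UnitIn.prod {S : Subalgebra k (LL K)} {ι : Type} {s : Finset ι} {f : ι → LL K}
    (h : ∀ i ∈ s, UnitIn S (f i)) : UnitIn S (∏ i ∈ s, f i) := by
  exact Finset.prod_induction f (UnitIn S) (fun _ _ => UnitIn.mul)
    ⟨one_mem S, 1, one_mem S, one_mul 1⟩ h

theorem UnitIn.mono {S S' : Subalgebra k (LL K)} (h : S ≤ S') {a : LL K} (ha : UnitIn S a) :
    UnitIn S' a := by
  obtain ⟨h1, υ, h2, h3⟩ := ha
  exact ⟨h h1, υ, h h2, h3⟩

theorem UnitIn.of_mul {S : Subalgebra k (LL K)} {a b : LL K} (ha : a ∈ S) (hb : b ∈ S)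
    (h : UnitIn S (a * b)) : UnitIn S a := by
  obtain ⟨-, υ, h2, h3⟩ := h
  exact ⟨ha, b * υ, mul_mem hb h2, by rw [← mul_assoc, h3]⟩

theorem unitIn_one {S : Subalgebra k (LL K)} : UnitIn S 1 := by
  exact ⟨one_mem S, 1, one_mem S, one_mul 1⟩

theorem unitIn_coe {S : Subalgebra k (LL K)} {σ : (LL K)ˣ} :
    UnitIn S (σ : LL K) ↔ (σ : LL K) ∈ S ∧ ((σ⁻¹ : (LL K)ˣ) : LL K) ∈ S := by
  exact resB1_unitIn

theorem away_away {S : Subalgebra k (LL K)} {σ σ' : (LL K)ˣ} (hσ : (σ : LL K) ∈ S)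
    (hσ' : (σ' : LL K) ∈ S) : away (away S σ) σ' = away S (σ * σ') := by
  have e1 : ((σ⁻¹ : (LL K)ˣ) : LL K) = σ' * (((σ * σ')⁻¹ : (LL K)ˣ) : LL K) := by
    rw [mul_inv_rev, Units.val_mul, Units.mul_inv_cancel_left]
  have e2 : ((σ'⁻¹ : (LL K)ˣ) : LL K) = σ * (((σ * σ')⁻¹ : (LL K)ˣ) : LL K) := by
    rw [mul_inv, Units.val_mul, Units.mul_inv_cancel_left]
  refine le_antisymm (away_le (away_le (le_away _) ?_) ?_)
    (away_le ((le_away σ).trans (le_away σ')) ?_)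
  · rw [e1]
    exact mul_mem (le_away _ hσ') (inv_mem_away _)
  · rw [e2]
    exact mul_mem (le_away _ hσ) (inv_mem_away _)
  · rw [mul_inv, Units.val_mul]
    exact mul_mem (le_away σ' (inv_mem_away σ)) (inv_mem_away σ')

theorem away_one {S : Subalgebra k (LL K)} : away S 1 = S := by
  refine le_antisymm (away_le le_rfl ?_) (le_away 1)
  rw [inv_one, Units.val_one]
  exact one_mem S

end Pool.Agent.Lib.MP_4287a9_ag.Res
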