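import Pool.Agent.Lib.MP_4287a9_ag.ResB1

/-! Homogeneous primes and their extensions. -/

namespace Pool.Agent.Lib.MP_4287a9_ag.Res

variable {k K : Type} [Field k] [Field K] [Algebra k K] {N : ℕ}

theorem resB2_prj_sum {ι : Type} (γ : Gam) (s : Finset ι) (f : ι → LL K) :
    prj γ (∑ i ∈ s, f i) = ∑ i ∈ s, prj γ (f i) :=
  map_sum (AddMonoidHom.mk' (prj γ) (prj_add γ)) f s

/-- Primality of a graded submodule can be tested on homogeneous elements. -/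
theorem resB2_prime {S : Subalgebra k (LL K)} (hS : GrA S) {q : Submodule S (LL K)} (hq : GrM q)
    (h : ∀ a ∈ S, ∀ b ∈ S, Hm a → Hm b → a * b ∈ q → a ∈ q ∨ b ∈ q) :
    ∀ a ∈ S, ∀ b ∈ S, a * b ∈ q → a ∈ q ∨ b ∈ q := by
  classical
  intro a ha b hb hab
  have ne : ∀ z : LL K, z ∉ q → (z.coeff.support.filter fun γ => prj γ z ∉ q).Nonempty := by
    intro z hz
    by_contra h0
    refine hz (sum_prj z ▸ q.sum_mem fun γ hγ => ?_)
    by_contra h1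
    exact h0 ⟨γ, Finset.mem_filter.2 ⟨hγ, h1⟩⟩
  by_contra hc
  push Not at hc
  obtain ⟨γ, hγ, β, hβ, hu⟩ := UniqueSums.uniqueAdd_of_nonempty (ne a hc.1) (ne b hc.2)
  obtain ⟨hγ1, hγ2⟩ := Finset.mem_filter.1 hγ
  obtain ⟨hβ1, hβ2⟩ := Finset.mem_filter.1 hβ
  refine (h _ (hS a ha γ) _ (hS b hb β) ⟨_, isH_prj _ _⟩ ⟨_, isH_prj _ _⟩ ?_).elim hγ2 hβ2
  have e := hq _ hab (γ + β)
  rw [← sum_prj a, ← sum_prj b, Finset.sum_mul_sum, ← Finset.sum_product', resB2_prj_sum,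
    ← Finset.add_sum_erase _ _ (a := (γ, β)) (Finset.mem_product.2 ⟨hγ1, hβ1⟩),
    ((isH_prj γ a).mul (isH_prj β b)).prj_self] at e
  refine (q.add_mem_iff_left (q.sum_mem fun x hx => ?_)).1 e
  obtain ⟨h1, h2⟩ := Finset.mem_erase.1 hx
  obtain ⟨h2, h3⟩ := Finset.mem_product.1 h2
  by_cases h4 : prj x.1 a ∈ q
  · exact hq _ (mul_comm (prj x.1 a) _ ▸ mul_mem_sub (hS b hb _) h4) _
  by_cases h5 : prj x.2 b ∈ q
  · exact hq _ (mul_mem_sub (hS a ha _) h5) _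
  rw [((isH_prj x.1 a).mul (isH_prj x.2 b)).prj_ne fun h6 => h1 (Prod.ext_iff.2
    (hu (Finset.mem_filter.2 ⟨h2, h4⟩) (Finset.mem_filter.2 ⟨h3, h5⟩) h6.symm))]
  exact q.zero_mem

/-- The homogeneous core of a maximal ideal. Take a maximal ideal `𝔪` of `S` that contains the
proper ideal spanned by `T`; `q = {z ∈ S | all components of z are in 𝔪}`. Primality: take the
largest components outside `𝔪` for the lexicographic order on `Gam` (`Lex (ℕ → ℤ)` is a linearly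
ordered group). `S ⧸ 𝔪` is finite over `k` (`finite_of_finite_type_of_isJacobsonRing`), which
gives `AlgAt`. -/
theorem exists_gpt {S : Subalgebra k (LL K)} (hS : GrA S) (hfg : S.FG) {T : Set (LL K)}
    (hT : ∀ z ∈ T, z ∈ S ∧ Hm z) (h1 : (1 : LL K) ∉ Submodule.span S T) :
    ∃ q : Submodule S (LL K), GPt S q ∧ AlgAt S q ∧ ∀ z ∈ T, z ∈ q := by
  obtain ⟨m, hm, hle⟩ := Ideal.exists_le_maximal
    ((Submodule.span S T).comap (Algebra.linearMap S (LL K)) : Ideal S)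
    ((Ideal.ne_top_iff_one _).2 h1)
  have gr : GrM (Submodule.span S {z | Hm z ∧ ∃ h : z ∈ S, (⟨z, h⟩ : S) ∈ m}) :=
    grM_span hS fun z hz => hz.1
  have le : ∀ z ∈ Submodule.span S {z | Hm z ∧ ∃ h : z ∈ S, (⟨z, h⟩ : S) ∈ m},
      ∃ h : z ∈ S, (⟨z, h⟩ : S) ∈ m := fun z hz => by
    have h2 : Submodule.span S {z | Hm z ∧ ∃ h : z ∈ S, (⟨z, h⟩ : S) ∈ m} ≤
        Submodule.map (Algebra.linearMap S (LL K)) m :=
      Submodule.span_le.2 fun y ⟨_, h, hy⟩ => Submodule.mem_map.2 ⟨⟨y, h⟩, hy, rfl⟩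
    obtain ⟨y, hy, rfl⟩ := Submodule.mem_map.1 (h2 hz)
    exact ⟨y.2, hy⟩
  refine ⟨_, ⟨⟨fun y hy => (le y hy).1, fun h => ?_, resB2_prime hS gr fun a ha b hb h2 h3 h => ?_⟩,
    gr⟩, fun a ha => ?_, fun z hz => Submodule.subset_span
      ⟨(hT z hz).2, (hT z hz).1, hle (Submodule.subset_span (R := S) hz)⟩⟩
  · exact (Ideal.ne_top_iff_one _).1 hm.ne_top (le _ h).2
  · exact (hm.isPrime.mem_or_mem (x := ⟨a, ha⟩) (y := ⟨b, hb⟩) (le _ h).2).imp
      (fun h4 => Submodule.subset_span ⟨h2, ha, h4⟩) fun h4 => Submodule.subset_span ⟨h3, hb, h4⟩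
  · have := (Subalgebra.fg_iff_finiteType S).1 hfg
    let := Ideal.Quotient.field m
    have := finite_of_finite_type_of_isJacobsonRing k (S ⧸ m)
    obtain ⟨P, h2, h3⟩ := Algebra.IsAlgebraic.isAlgebraic (R := k)
      (Ideal.Quotient.mkₐ k m ⟨sg 0 a, ha⟩)
    rw [Polynomial.aeval_algHom_apply, Ideal.Quotient.mkₐ_eq_mk,
      Ideal.Quotient.eq_zero_iff_mem] at h3
    have e : ((Polynomial.aeval (⟨sg 0 a, ha⟩ : S) P : S) : LL K) =
        sg 0 (Polynomial.aeval a P) :=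
      (Polynomial.aeval_algHom_apply S.val _ P).symm.trans
        (Polynomial.aeval_algHom_apply (AddMonoidAlgebra.singleZeroAlgHom : K →ₐ[k] LL K) a P)
    refine ⟨P, h2, Submodule.subset_span ⟨⟨0, _, rfl⟩, ?_⟩⟩
    rw [← e]
    exact ⟨Subtype.prop _, h3⟩

theorem mem_extq_away {S : Subalgebra k (LL K)} {q : Submodule S (LL K)} {σ : (LL K)ˣ}
    (hσ : (σ : LL K) ∈ S) {z : LL K} :
    z ∈ extq q (away S σ) ↔ ∃ m : ℕ, (σ : LL K) ^ m * z ∈ q := by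
  constructor
  · intro hz
    induction hz using Submodule.span_induction with
    | mem x hx => exact ⟨0, by simpa using hx⟩
    | zero => exact ⟨0, by simp⟩
    | add x y _ _ hx hy =>
      obtain ⟨m, hm⟩ := hx
      obtain ⟨n, hn⟩ := hy
      refine ⟨m + n, ?_⟩
      have := q.add_mem (mul_mem_sub (pow_mem hσ n) hm) (mul_mem_sub (pow_mem hσ m) hn)
      convert this using 1
      ring
    | smul c x _ hx =>
      obtain ⟨m, hm⟩ := hx
      obtain ⟨n, hn⟩ := (mem_away hσ).1 c.2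
      refine ⟨m + n, ?_⟩
      convert mul_mem_sub hn hm using 1
      rw [ResA1_smul]
      ring
  · rintro ⟨m, hm⟩
    have := mul_mem_sub (M := extq q (away S σ)) (pow_mem (inv_mem_away σ) m)
      (Submodule.subset_span hm)
    rwa [← mul_assoc, ← mul_pow, Units.inv_mul, one_pow, one_mul] at this

theorem resB2_pow {S : Subalgebra k (LL K)} {q : Submodule S (LL K)} (hq : PrimeAt S q)
    {a : LL K} (ha : a ∈ S) (h : a ∉ q) (m : ℕ) : a ^ m ∉ q := by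
  induction m with
  | zero => simpa using hq.one
  | succ m ih => exact pow_succ a m ▸ hq.mul_notMem (pow_mem ha m) ha ih h

theorem PrimeAt.mem_extq {S : Subalgebra k (LL K)} {q : Submodule S (LL K)} (hq : PrimeAt S q)
    {σ : (LL K)ˣ} (hσ : (σ : LL K) ∈ S) (hσq : (σ : LL K) ∉ q) {z : LL K} (hz : z ∈ S) :
    z ∈ extq q (away S σ) ↔ z ∈ q := by
  refine ⟨fun h => ?_, fun h => Submodule.subset_span h⟩
  obtain ⟨m, hm⟩ := (mem_extq_away hσ).1 h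
  exact (hq.prime _ (pow_mem hσ m) z hz hm).resolve_left (resB2_pow hq hσ hσq m)

theorem PrimeAt.extq_away {S : Subalgebra k (LL K)} {q : Submodule S (LL K)} (hq : PrimeAt S q)
    {σ : (LL K)ˣ} (hσ : (σ : LL K) ∈ S) (hσq : (σ : LL K) ∉ q) :
    PrimeAt (away S σ) (extq q (away S σ)) := by
  refine ⟨fun y hy => ?_, fun h => hq.one ((hq.mem_extq hσ hσq (one_mem S)).1 h),
    fun a ha b hb h => ?_⟩
  · obtain ⟨m, hm⟩ := (mem_extq_away hσ).1 hy
    exact (mem_away hσ).2 ⟨m, hq.sub _ hm⟩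
  · obtain ⟨m, hm⟩ := (mem_away hσ).1 ha
    obtain ⟨n, hn⟩ := (mem_away hσ).1 hb
    obtain ⟨r, hr⟩ := (mem_extq_away hσ).1 h
    have h1 := mul_mem_sub (pow_mem hσ (m + n)) hr
    rw [show (σ : LL K) ^ (m + n) * ((σ : LL K) ^ r * (a * b)) =
      (σ : LL K) ^ r * ((σ : LL K) ^ m * a * ((σ : LL K) ^ n * b)) by ring] at h1
    exact (hq.prime _ hm _ hn ((hq.prime _ (pow_mem hσ r) _ (mul_mem hm hn) h1).resolve_left
      (resB2_pow hq hσ hσq r))).imp (fun h2 => (mem_extq_away hσ).2 ⟨m, h2⟩)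
      fun h2 => (mem_extq_away hσ).2 ⟨n, h2⟩

theorem GPt.extq_away {S : Subalgebra k (LL K)} {q : Submodule S (LL K)} (hq : GPt S q)
    {σ : (LL K)ˣ} (hσ : (σ : LL K) ∈ S) (hσh : Hm (σ : LL K)) (hσq : (σ : LL K) ∉ q) :
    GPt (away S σ) (extq q (away S σ)) := by
  refine ⟨hq.prime.extq_away hσ hσq, fun z hz γ => ?_⟩
  obtain ⟨m, hm⟩ := (mem_extq_away hσ).1 hz
  obtain ⟨β, hβ⟩ := hσh.pow m
  refine (mem_extq_away hσ).2 ⟨m, ?_⟩
  rw [mul_comm] at hm ⊢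
  rw [← prj_mul_isH hβ]
  exact hq.gr _ hm _

theorem Sat.extq_away {S : Subalgebra k (LL K)} {q M : Submodule S (LL K)} (hq : PrimeAt S q)
    {σ : (LL K)ˣ} (hσ : (σ : LL K) ∈ S) (hσq : (σ : LL K) ∉ q)
    {M' : Submodule (away S σ) (LL K)} (hM : ∀ z ∈ M, z ∈ M') {z : LL K} (hz : Sat q M z) :
    Sat (extq q (away S σ)) M' z := by
  obtain ⟨s, h1, h2, h3⟩ := hz
  exact ⟨s, le_away σ h1, fun h => h2 ((hq.mem_extq hσ hσq h1).1 h), hM _ h3⟩

/-- Two successive localizations at a point are one localization. If `σ'` lies in `away S σ`,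
then `σ ^ (m + 1) * σ'` lies in `S` for some `m`. -/
theorem exists_away_comp {S : Subalgebra k (LL K)} {q : Submodule S (LL K)} (hq : PrimeAt S q)
    {σ σ' : (LL K)ˣ} (hσ : (σ : LL K) ∈ S) (hσh : Hm (σ : LL K)) (hσq : (σ : LL K) ∉ q)
    (hσ' : (σ' : LL K) ∈ away S σ) (hσh' : Hm (σ' : LL K))
    (hσq' : (σ' : LL K) ∉ extq q (away S σ)) :
    ∃ σ'' : (LL K)ˣ, (σ'' : LL K) ∈ S ∧ Hm (σ'' : LL K) ∧ (σ'' : LL K) ∉ q ∧
      away (away S σ) σ' = away S σ'' := by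
  obtain ⟨m, hm⟩ := (mem_away hσ).1 hσ'
  have e : ((σ ^ (m + 1) * σ' : (LL K)ˣ) : LL K) = (σ : LL K) ^ (m + 1) * σ' := by simp
  refine ⟨σ ^ (m + 1) * σ', ?_, e ▸ (hσh.pow _).mul hσh',
    fun h => hσq' ((mem_extq_away hσ).2 ⟨m + 1, e ▸ h⟩), le_antisymm
      (away_le (away_le (le_away _) ?_) ?_) (away_le ((le_away σ).trans (le_away σ')) ?_)⟩
  · rw [e, pow_succ', mul_assoc]
    exact mul_mem hσ hm
  · rw [show σ⁻¹ = (σ ^ (m + 1) * σ')⁻¹ * (σ ^ m * σ') by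
      rw [pow_succ', mul_assoc, mul_inv, inv_mul_cancel_right], Units.val_mul, Units.val_mul,
      Units.val_pow_eq_pow_val]
    exact mul_mem (inv_mem_away _) (le_away _ hm)
  · rw [show σ'⁻¹ = (σ ^ (m + 1) * σ')⁻¹ * σ ^ (m + 1) by
      rw [mul_inv, inv_mul_cancel_comm], Units.val_mul, Units.val_pow_eq_pow_val]
    exact mul_mem (inv_mem_away _) (le_away _ (pow_mem hσ _))
  · rw [mul_inv, ← inv_pow, Units.val_mul, Units.val_pow_eq_pow_val]
    exact mul_mem (le_away σ' (pow_mem (inv_mem_away σ) _)) (inv_mem_away σ')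

theorem resB2_mul {O : Subalgebra k K} {a b : K} (ha : a ∈ O)
    (hb : b ∈ O ∧ (b = 0 ∨ b⁻¹ ∉ O)) : a * b ∈ O ∧ (a * b = 0 ∨ (a * b)⁻¹ ∉ O) := by
  refine ⟨mul_mem ha hb.1, or_iff_not_imp_left.2 fun h0 h1 => ?_⟩
  refine hb.2.resolve_left (right_ne_zero_of_mul h0) ?_
  convert mul_mem ha h1 using 1
  rw [mul_inv, mul_inv_cancel_left₀ (left_ne_zero_of_mul h0)]

/-- The non-units of the local ring. -/
def resB2_nu {A : Amb k K N} (hA : A.Good) : AddSubmonoid K where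
  carrier := {a | a ∈ A.O ∧ (a = 0 ∨ a⁻¹ ∉ A.O)}
  zero_mem' := ⟨zero_mem _, Or.inl rfl⟩
  add_mem' := fun {a b} ha hb => by
    refine ⟨add_mem ha.1 hb.1, or_iff_not_imp_left.2 fun h0 h1 => ?_⟩
    rcases hA.loc _ (mul_mem h1 ha.1) _ (mul_mem h1 hb.1)
      (by rw [← mul_add, inv_mul_cancel₀ h0]) with h | h
    · exact (resB2_mul h1 ha).2.elim h.1 fun h2 => h2 h.2
    · exact (resB2_mul h1 hb).2.elim h.1 fun h2 => h2 h.2

theorem mem_mL {A : Amb k K N} (hA : A.Good) {z : LL K} :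
    z ∈ mL A.O ↔ ∀ γ, z.coeff γ ∈ A.O ∧ (z.coeff γ = 0 ∨ (z.coeff γ)⁻¹ ∉ A.O) := by
  classical
  constructor
  · intro hz
    change ∀ γ, z.coeff γ ∈ resB2_nu hA
    induction hz using Submodule.span_induction with
    | mem x hx =>
      obtain ⟨β, a, h1, h2, rfl⟩ := hx
      intro γ
      rw [AddMonoidAlgebra.coeff_single, Finsupp.single_apply]
      split_ifs
      exacts [⟨h1, h2⟩, zero_mem _]
    | zero => exact fun _ => zero_mem _
    | add x y _ _ hx hy => exact fun γ => add_mem (hx γ) (hy γ)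
    | smul c x _ hx =>
      intro γ
      rw [ResA1_smul, AddMonoidAlgebra.coeff_mul]
      refine sum_mem fun β _ => sum_mem fun β' _ => ?_
      dsimp only
      split_ifs
      exacts [resB2_mul (mem_OL.1 c.2 β) (hx β'), zero_mem _]
  · intro h
    rw [← sum_prj z]
    exact Submodule.sum_mem _ fun γ _ => Submodule.subset_span ⟨γ, _, (h γ).1, (h γ).2, rfl⟩

/-- The non-units of the local ring `O` form a maximal ideal `m`; compare the largest components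
with unit coefficient, or use that `(O ⧸ m)[Gam]` is a domain. -/
theorem primeAt_mL {A : Amb k K N} (hA : A.Good) : PrimeAt (OL A.O) (mL A.O) := by
  have hS : GrA (OL A.O) := grA_adjoin fun _ ⟨γ, a, _, h⟩ => ⟨γ, a, h⟩
  refine ⟨fun y hy => mem_OL.2 fun γ => ((mem_mL hA).1 hy γ).1, fun h => ?_,
    resB2_prime hS (grM_span hS fun _ ⟨γ, a, _, _, h⟩ => ⟨γ, a, h⟩) ?_⟩
  · simpa using ((mem_mL hA).1 h 0).2
  · rintro _ ha _ hb ⟨γ, a, rfl⟩ ⟨β, b, rfl⟩ h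
    have h1 := ((mem_mL hA).1 h (γ + β)).2
    rw [sg_mul, AddMonoidAlgebra.coeff_single, Finsupp.single_eq_same] at h1
    by_cases h2 : a = 0 ∨ a⁻¹ ∉ A.O
    · exact Or.inl (Submodule.subset_span ⟨γ, a, sg_mem_OL.1 ha, h2, rfl⟩)
    by_cases h3 : b = 0 ∨ b⁻¹ ∉ A.O
    · exact Or.inr (Submodule.subset_span ⟨β, b, sg_mem_OL.1 hb, h3, rfl⟩)
    push Not at h2 h3
    exact absurd (mul_inv a b ▸ mul_mem h2.2 h3.2) (h1.resolve_left (mul_ne_zero h2.1 h3.1))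

theorem unitIn_of_notMem_mL {A : Amb k K N} (hA : A.Good) {z : LL K} (hz : z ∈ OL A.O)
    (hh : Hm z) (h : z ∉ mL A.O) : UnitIn (OL A.O) z := by
  obtain ⟨γ, a, rfl⟩ := hh
  have h1 : ¬ (a = 0 ∨ a⁻¹ ∉ A.O) := fun h2 =>
    h (Submodule.subset_span ⟨γ, a, sg_mem_OL.1 hz, h2, rfl⟩)
  push Not at h1
  refine ⟨hz, sg (-γ) a⁻¹, sg_mem_OL.2 h1.2, ?_⟩
  rw [sg_mul, add_neg_cancel, mul_inv_cancel₀ h1.1]
  rfl

end Pool.Agent.Lib.MP_4287a9_ag.Res
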