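import Pool.Agent.Lib.MP_4287a9_ag.ResB1

/-! Dual derivations and units on a chart. -/

namespace Pool.Agent.Lib.MP_4287a9_ag.Res

variable {k K : Type} [Field k] [Field K] [Algebra k K] {N : ℕ}

variable {A : Amb k K N} {ρ : ℕ} {c : Chart k K N}

theorem Chart.Good.grA (h : c.Good A ρ) : GrA c.B := by
  obtain ⟨s, hs, e⟩ := h.fg
  rw [e]
  exact grA_adjoin fun z hz => (hs z hz).imp fun _ h => h.2

theorem Chart.Good.fg' (h : c.Good A ρ) : c.B.FG := by
  obtain ⟨s, -, e⟩ := h.fg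
  exact ⟨s, e.symm⟩

theorem Chart.Good.noeth (h : c.Good A ρ) : IsNoetherianRing c.B :=
  isNoetherianRing_of_fg h.fg'

theorem Chart.Good.below (h : c.Good A ρ) {γ : Gam} {z : LL K} (hz : z ∈ c.B) (hγ : IsH γ z)
    (h0 : z ≠ 0) : Below ρ γ := by
  obtain ⟨s, hs, e⟩ := h.fg
  obtain ⟨a, rfl⟩ := hγ
  rw [e] at hz
  refine below_of_adjoin (fun z hz => hs z (Finset.mem_coe.1 hz)) hz ?_
  rw [AddMonoidAlgebra.coeff_single, Finsupp.single_eq_same]
  exact fun h1 => h0 (AddMonoidAlgebra.single_eq_zero.2 h1)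

theorem Chart.Good.yy_mem (h : c.Good A ρ) (i : Fin (N + ρ)) : c.yy ρ i ∈ c.B := by
  refine Fin.addCases (fun j => ?_) (fun e => ?_) i
  · rw [Chart.yy, Fin.append_left]
    exact h.tmem j
  · rw [Chart.yy, Fin.append_right]
    exact (h.uunit e e.2).1

theorem Chart.Good.yy_hom (h : c.Good A ρ) (i : Fin (N + ρ)) : Hm (c.yy ρ i) := by
  refine Fin.addCases (fun j => ?_) (fun e => ?_) i
  · rw [Chart.yy, Fin.append_left]
    exact h.thom j
  · rw [Chart.yy, Fin.append_right]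
    exact (h.udeg e e.2).imp fun _ h => h.1

theorem Chart.range_yy (c : Chart k K N) (ρ : ℕ) : Set.range (c.yy ρ) = c.T ρ := by
  ext z
  constructor
  · rintro ⟨i, rfl⟩
    refine Fin.addCases (fun j => ?_) (fun e => ?_) i
    · rw [Chart.yy, Fin.append_left]
      exact Or.inl ⟨j, rfl⟩
    · rw [Chart.yy, Fin.append_right]
      exact Or.inr ⟨e, e.2, rfl⟩
  · rintro (⟨j, rfl⟩ | ⟨e, he, rfl⟩)
    · exact ⟨Fin.castAdd ρ j, Fin.append_left ..⟩
    · exact ⟨Fin.natAdd N ⟨e, he⟩, Fin.append_right ..⟩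

/-- The Euler derivations preserve graded subalgebras. -/
theorem GrA.pres_euler [CharZero k] {S : Subalgebra k (LL K)} (h : GrA S) (e : ℕ) :
    Pres S (aD (0 : Derivation k K K) (degK K e)) := by
  intro z hz
  rw [← sum_prj z, map_sum]
  refine sum_mem fun γ _ => ?_
  have h1 : aD (0 : Derivation k K K) (degK K e) (prj γ z) = γ e • prj γ z := by
    rw [prj, aD_single, degK_apply, Derivation.zero_apply, zero_add, ← zsmul_eq_mul]
    exact map_zsmul (AddMonoidAlgebra.singleAddHom γ) _ _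
  rw [h1]
  exact zsmul_mem (h z hz γ) _

theorem resB3_zero (γ : Gam) : sg γ (0 : K) = 0 := AddMonoidAlgebra.single_zero γ

/-- The coefficient of an ambient derivative of a homogeneous element. -/
noncomputable def resB3_m (D : Fin N → Derivation k K K) (ρ : ℕ) (γ : Gam) (a : K) :
    Fin (N + ρ) → K :=
  Fin.append (fun j => D j a) fun e : Fin ρ => (γ e : K) * a

theorem resB3_amb (D : Fin N → Derivation k K K) (i : Fin (N + ρ)) (γ : Gam) (a : K) :
    amb D (Fin.val : Fin ρ → ℕ) i (sg γ a) = sg γ (resB3_m D ρ γ a i) := by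
  refine Fin.addCases (fun j => ?_) (fun e => ?_) i
  · rw [amb, resB3_m, Fin.append_left, Fin.append_left, aD_single, AddMonoidHom.zero_apply,
      zero_mul, add_zero]
  · rw [amb, resB3_m, Fin.append_right, Fin.append_right, aD_single, Derivation.zero_apply,
      zero_add, degK_apply]

/-- A homogeneous combination of the ambient derivations. -/
noncomputable def resB3_d (D : Fin N → Derivation k K K) (ρ : ℕ) (β : Gam) (v : Fin (N + ρ) → K) :
    Derivation k (LL K) (LL K) :=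
  ∑ i, sg β (v i) • amb D (Fin.val : Fin ρ → ℕ) i

theorem resB3_d_sg (D : Fin N → Derivation k K K) (β : Gam) (v : Fin (N + ρ) → K) (γ : Gam)
    (a : K) : resB3_d D ρ β v (sg γ a) = sg (β + γ) (v ⬝ᵥ resB3_m D ρ γ a) := by
  have h1 := congrFun (map_sum Derivation.coeFnAddMonoidHom
    (fun i => sg β (v i) • amb D (Fin.val : Fin ρ → ℕ) i) Finset.univ) (sg γ a)
  rw [Finset.sum_apply] at h1
  refine h1.trans (Eq.trans (Finset.sum_congr rfl fun i _ => ?_)
    (map_sum (AddMonoidAlgebra.singleAddHom (β + γ)) _ _).symm)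
  rw [Derivation.coeFnAddMonoidHom_apply, Derivation.smul_apply, resB3_amb, smul_eq_mul, sg_mul]
  rfl

/-- The matrix of coefficients is invertible. -/
theorem resB3_det [CharZero k] (hA : A.Good) (h : c.Good A ρ) {γ : Fin (N + ρ) → Gam}
    {a : Fin (N + ρ) → K} (hy : ∀ l, c.yy ρ l = sg (γ l) (a l)) :
    (Matrix.of fun i l => resB3_m A.D0 ρ (γ l) (a l) i).det ≠ 0 := by
  have : CharZero K := charZero_of_injective_algebraMap (algebraMap k K).injective
  intro h0
  obtain ⟨v, hv, h1⟩ := Matrix.exists_vecMul_eq_zero_iff.2 h0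
  have h2 : ∀ l, v ⬝ᵥ resB3_m A.D0 ρ (γ l) (a l) = 0 := fun l => congrFun h1 l
  have h3 : ∀ j, v (Fin.castAdd ρ j) = 0 := fun j => by
    have h4 := h.unr.eq_zero (resB3_d A.D0 ρ 0 v) (by
      rw [← c.range_yy]
      rintro _ ⟨l, rfl⟩
      rw [hy, resB3_d_sg, h2, resB3_zero]) (h.base _ (hA.mem j))
    rw [resB3_d_sg, AddMonoidAlgebra.single_eq_zero, dotProduct, Fin.sum_univ_add] at h4
    simpa [resB3_m, hA.dual] using h4
  have h5 : ∀ n : ℕ, ∀ e : Fin ρ, (e : ℕ) = n → v (Fin.natAdd N e) = 0 := fun n => by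
    induction n using Nat.strong_induction_on with
    | _ n ih =>
      rintro e rfl
      obtain ⟨β, hβ, h6, h7⟩ := h.udeg e e.2
      have h8 := hy (Fin.natAdd N e)
      rw [Chart.yy, Fin.append_right] at h8
      have h9 : β = γ (Fin.natAdd N e) := hβ.unique ⟨_, h8⟩ (Units.ne_zero _)
      have h10 : a (Fin.natAdd N e) ≠ 0 := fun h11 =>
        (c.u e).ne_zero (by rw [h8, h11, resB3_zero])
      have h11 := h2 (Fin.natAdd N e)
      rw [dotProduct, Fin.sum_univ_add, ← h9, Finset.sum_eq_zero fun j _ => by rw [h3, zero_mul],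
        zero_add, Finset.sum_eq_single e (fun e' _ he' => ?_) (by simp), resB3_m,
        Fin.append_right] at h11
      · exact (mul_eq_zero.1 h11).resolve_right (mul_ne_zero (Int.cast_ne_zero.2 h6) h10)
      · rcases lt_or_gt_of_ne he' with h12 | h12
        · rw [ih e' h12 e' rfl, zero_mul]
        · rw [resB3_m, Fin.append_right, h7 e' h12, Int.cast_zero, zero_mul, mul_zero]
  exact hv (funext fun i => Fin.addCases h3 (fun e => h5 e e rfl) i)

/-- The Jacobian determinant does not vanish. Let `Σ c i • amb i` (`c i ∈ K`) kill all the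
coordinates. By `Unr.eq_zero` it kills `c.B`, in particular `sg 0 (x0 a)`, so the first `N`
coefficients vanish. The matrix of the degrees of the `u e` is triangular with nonzero diagonal,
so the other coefficients vanish as well (characteristic zero). With `yy l = sg (γ l) (a l)`
the entries are `sg (γ l) (M i l)`, `M` a matrix over `K` with independent rows, and the
determinant is `sg (Σ γ l) M.det`. -/
theorem Chart.Good.exists_jac [CharZero k] (hA : A.Good) (h : c.Good A ρ) :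
    ∃ j : (LL K)ˣ, Hm (j : LL K) ∧
      (j : LL K) * (Matrix.of fun i l => amb A.D0 (Fin.val : Fin ρ → ℕ) i (c.yy ρ l)).det = 1 := by
  choose γ a hy using h.yy_hom
  have h0 := resB3_det hA h hy
  have h1 : (Matrix.of fun i l => amb A.D0 (Fin.val : Fin ρ → ℕ) i (c.yy ρ l)).det =
      (((∏ l, hu (γ l) 1) * hu 0 (Units.mk0 _ h0) : (LL K)ˣ) : LL K) := by
    rw [Units.val_mul, Units.coe_prod, coe_hu, Units.val_mk0]
    refine Eq.trans ?_ (congrArg _ (RingHom.map_det
      (AddMonoidAlgebra.singleZeroRingHom : K →+* LL K) _).symm)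
    rw [← Matrix.det_mul_row]
    refine congrArg Matrix.det (Matrix.ext fun i l => ?_)
    rw [Matrix.of_apply, hy, resB3_amb, Matrix.of_apply, coe_hu]
    refine Eq.trans ?_ (sg_mul ..).symm
    rw [add_zero, Units.val_one, one_mul]
    rfl
  refine ⟨_, Hm.inv ?_, h1 ▸ Units.inv_mul _⟩
  rw [Units.val_mul, Units.coe_prod]
  exact (Hm.prod fun l _ => ⟨_, _, rfl⟩).mul ⟨_, _, rfl⟩

/-- Dual derivations for all coordinates: `D l = Σ i, sg (-γ l) (M⁻¹ l i) • amb i`. They preserve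
`c.B` by `Unr.pres`, commute on `c.B` by `Unr.eq_zero` (commutator `⁅D i, D j⁆`). -/
theorem Chart.Good.exists_dual_all [CharZero k] (hA : A.Good) (h : c.Good A ρ) :
    ∃ D : Fin (N + ρ) → Derivation k (LL K) (LL K), (∀ i, Fresh ρ (D i)) ∧ (∀ i, HomDer (D i)) ∧
      (∀ i, Pres c.B (D i)) ∧ (∀ i j, D i (c.yy ρ j) = if i = j then 1 else 0) ∧
      ∀ i j, ∀ z ∈ c.B, D i (D j z) = D j (D i z) := by
  choose γ a hy using h.yy_hom
  have h0 := resB3_det hA h hy
  obtain ⟨M, hM⟩ : ∃ M, M = Matrix.of fun i l => resB3_m A.D0 ρ (γ l) (a l) i := ⟨_, rfl⟩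
  have h1 : ∀ i j, resB3_d A.D0 ρ (-γ i) (M⁻¹ i) (c.yy ρ j) = if i = j then 1 else 0 := by
    intro i j
    have h2 : M⁻¹ i ⬝ᵥ resB3_m A.D0 ρ (γ j) (a j) = (M⁻¹ * M) i j := by
      rw [hM]
      rfl
    rw [hy, resB3_d_sg, h2, Matrix.nonsing_inv_mul M (hM ▸ h0.isUnit), Matrix.one_apply]
    split_ifs with h3
    · rw [h3, neg_add_cancel]
      rfl
    · exact AddMonoidAlgebra.single_zero _
  refine ⟨fun i => resB3_d A.D0 ρ (-γ i) (M⁻¹ i), fun i e he => ?_, ?_, fun i => h.unr.pres _ ?_,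
    h1, fun i j z hz => ?_⟩
  · have h2 : resB3_m A.D0 ρ (Pi.single e 1) 1 = 0 := funext fun l =>
      Fin.addCases (fun j => by simp [resB3_m]) (fun e' => by
        rw [resB3_m, Fin.append_right, Pi.single_eq_of_ne (by omega), Int.cast_zero, zero_mul,
          Pi.zero_apply]) l
    rw [tau, coe_hu, resB3_d_sg, Units.val_one, h2, dotProduct_zero, resB3_zero]
  · rintro i _ ⟨β, b, rfl⟩
    exact ⟨_, _, resB3_d_sg ..⟩
  · rw [← c.range_yy]
    rintro _ ⟨l, rfl⟩
    rw [h1]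
    split_ifs
    exacts [one_mem _, zero_mem _]
  · rw [← sub_eq_zero, ← Derivation.commutator_apply]
    refine h.unr.eq_zero _ ?_ hz
    rw [← c.range_yy]
    rintro _ ⟨l, rfl⟩
    rw [Derivation.commutator_apply, h1, h1]
    split_ifs <;> simp

theorem Chart.Good.exists_dual [CharZero k] (hA : A.Good) (h : c.Good A ρ) :
    ∃ D : Fin N → Derivation k (LL K) (LL K), c.Dual ρ D := by
  obtain ⟨D, h1, h2, h3, h4, h5⟩ := h.exists_dual_all hA
  refine ⟨fun i => D (Fin.castAdd ρ i), fun i => h1 _, fun i => h2 _, fun i => h3 _,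
    fun i j => ?_, fun i e he => ?_, fun i j => h5 _ _⟩
  · have h6 := h4 (Fin.castAdd ρ i) (Fin.castAdd ρ j)
    rw [Chart.yy, Fin.append_left] at h6
    simpa using h6
  · have h6 := h4 (Fin.castAdd ρ i) (Fin.natAdd N ⟨e, he⟩)
    rw [Chart.yy, Fin.append_right, if_neg fun h7 => ?_] at h6
    · exact h6
    · have h8 := congrArg Fin.val h7
      simp only [Fin.val_castAdd, Fin.val_natAdd] at h8
      omega

theorem Chart.Good.t_ne_zero [CharZero k] (hA : A.Good) (h : c.Good A ρ) (i : Fin N) :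
    c.t i ≠ 0 := by
  obtain ⟨D, hD⟩ := h.exists_dual hA
  intro h0
  have h1 := hD.dual i i
  rw [h0, map_zero, if_pos rfl] at h1
  exact zero_ne_one h1

theorem Chart.Good.unitIn_U (h : c.Good A ρ) {υ : (LL K)ˣ} (hυ : υ ∈ c.U ρ) :
    UnitIn c.B (υ : LL K) ∧ Hm (υ : LL K) := by
  induction hυ using Subgroup.closure_induction with
  | mem v hv =>
    obtain ⟨e, he, rfl⟩ := hv
    exact ⟨h.uunit e he, (h.udeg e he).imp fun _ h => h.1⟩
  | one => exact ⟨unitIn_one, hm_one⟩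
  | mul v v' _ _ hv hv' => exact ⟨hv.1.mul hv'.1, hv.2.mul hv'.2⟩
  | inv v _ hv => exact ⟨unitIn_coe.2 (unitIn_coe.1 hv.1).symm, hv.2.inv⟩

/-- The degrees of the elements of a group of units. -/
def resB3_deg (U : Subgroup (LL K)ˣ) : AddSubgroup Gam where
  carrier := {γ | ∃ v ∈ U, IsH γ (v : LL K)}
  zero_mem' := ⟨1, one_mem U, 1, rfl⟩
  add_mem' := fun ⟨v, hv, h1⟩ ⟨v', hv', h2⟩ => ⟨v * v', mul_mem hv hv', h1.mul h2⟩
  neg_mem' := fun ⟨v, hv, h1⟩ => ⟨v⁻¹, inv_mem hv, h1.inv⟩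

theorem resB3_zpow {γ : Gam} {v : (LL K)ˣ} (h : IsH γ (v : LL K)) (n : ℤ) :
    IsH (n • γ) ((v ^ n : (LL K)ˣ) : LL K) := by
  cases n with
  | ofNat n =>
    rw [Int.ofNat_eq_natCast, zpow_natCast, natCast_zsmul, Units.val_pow_eq_pow_val]
    exact h.pow n
  | negSucc n =>
    rw [zpow_negSucc, negSucc_zsmul]
    exact IsH.inv (Units.val_pow_eq_pow_val v (n + 1) ▸ h.pow (n + 1))

theorem resB3_below {n : ℕ} {γ : Gam} (h : Below n γ) :
    γ = ∑ e ∈ Finset.range n, γ e • (Pi.single e 1 : Gam) := by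
  funext e
  rw [Finset.sum_apply]
  by_cases he : e < n
  · rw [Finset.sum_eq_single e] <;> simp +contextual [he, eq_comm]
  · rw [h e (not_lt.1 he), Finset.sum_eq_zero fun e' he' => ?_]
    rw [Pi.smul_apply, Pi.single_eq_of_ne (by rintro rfl; exact he (Finset.mem_range.1 he')),
      smul_zero]

theorem resB3_single (h : c.Good A ρ) (n : ℕ) : n ≤ ρ → ∃ m : ℕ, 0 < m ∧
    ∀ e < n, m • (Pi.single e 1 : Gam) ∈ resB3_deg (c.U ρ) := by
  induction n with
  | zero => exact fun _ => ⟨1, one_pos, fun e he => absurd he (Nat.not_lt_zero e)⟩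
  | succ n ih =>
    intro hn
    obtain ⟨m, hm, h1⟩ := ih (by omega)
    obtain ⟨β, hβ, h2, h3⟩ := h.udeg n hn
    have h4 : β ∈ resB3_deg (c.U ρ) := ⟨_, Subgroup.subset_closure ⟨n, hn, rfl⟩, hβ⟩
    refine ⟨(β n).natAbs * m, Nat.mul_pos (Int.natAbs_pos.2 h2) hm, fun e he => ?_⟩
    rcases Nat.lt_succ_iff_lt_or_eq.1 he with h5 | rfl
    · rw [mul_nsmul']
      exact nsmul_mem (h1 e h5) _
    · have h6 := nsmul_mem h4 m
      rw [resB3_below h3, Finset.sum_range_succ, smul_add, Finset.smul_sum,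
        (resB3_deg (c.U ρ)).add_mem_cancel_left (sum_mem fun e' he' => by
          rw [smul_comm]
          exact zsmul_mem (h1 e' (Finset.mem_range.1 he')) _)] at h6
      have h7 := zsmul_mem h6 (β e).sign
      rw [smul_comm m, smul_smul, Int.sign_mul_self_eq_natAbs, natCast_zsmul] at h7
      rwa [mul_nsmul']

/-- Units of degree `m • γ`. By induction on `e < ρ` find `m e > 0` and a unit in `c.U ρ` of
degree `m e • Pi.single e 1` (triangular degrees), take a common multiple `m₀`, and put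
`V γ = ∏ e < ρ, v e ^ γ e`. -/
theorem Chart.Good.exists_units (h : c.Good A ρ) :
    ∃ m₀ : ℕ, 0 < m₀ ∧ ∀ m : ℕ, m₀ ∣ m → ∃ V : Gam → (LL K)ˣ, (∀ γ β, V (γ + β) = V γ * V β) ∧
      (∀ γ, V γ ∈ c.U ρ) ∧ ∀ γ, Below ρ γ → IsH (m • γ) (V γ : LL K) := by
  obtain ⟨m₀, hm₀, h1⟩ := resB3_single h ρ le_rfl
  refine ⟨m₀, hm₀, ?_⟩
  rintro _ ⟨n, rfl⟩
  have h2 : ∀ e, ∃ v ∈ c.U ρ, e < ρ → IsH ((m₀ * n) • (Pi.single e 1 : Gam)) (v : LL K) := by
    intro e
    by_cases he : e < ρ
    · obtain ⟨v, hv, h3⟩ := nsmul_mem (h1 e he) n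
      exact ⟨v, hv, fun _ => mul_nsmul (Pi.single e 1 : Gam) m₀ n ▸ h3⟩
    · exact ⟨1, one_mem _, fun h3 => absurd h3 he⟩
  choose v hv h3 using h2
  refine ⟨fun γ => ∏ e ∈ Finset.range ρ, v e ^ γ e, fun γ β => ?_,
    fun γ => prod_mem fun e _ => zpow_mem (hv e) _, fun γ hγ => ?_⟩
  · simp only [Pi.add_apply, zpow_add, Finset.prod_mul_distrib]
  · have h4 : ∀ r ≤ ρ, IsH ((m₀ * n) • ∑ e ∈ Finset.range r, γ e • (Pi.single e 1 : Gam))
        ((∏ e ∈ Finset.range r, v e ^ γ e : (LL K)ˣ) : LL K) := by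
      intro r
      induction r with
      | zero => exact fun _ => ⟨1, by rw [Finset.sum_range_zero, smul_zero]; rfl⟩
      | succ r ih =>
        intro hr
        rw [Finset.sum_range_succ, Finset.prod_range_succ, smul_add, Units.val_mul, smul_comm]
        exact (ih (by omega)).mul (resB3_zpow (h3 r hr) _)
    have h5 := h4 ρ le_rfl
    rwa [← resB3_below hγ] at h5

end Pool.Agent.Lib.MP_4287a9_ag.Res
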