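import Pool.Agent.Lib.MP_4287a9_ag.ResBr

/-! The key lemma: a certificate bounds every admissible centre. -/

namespace Pool.Agent.Lib.MP_4287a9_ag.Res

variable {k L : Type} [Field k] [CommRing L] [Algebra k L] {N : ℕ} {S : Subalgebra k L}

theorem nu_eq_iff {w w' : Fin N → ℚ} {fr fr' : Fin N → Bool} :
    nu w fr = nu w' fr' ↔ w = w' ∧ ∀ i, 0 < w i → fr i = fr' i := by
  refine (Abs.nu_eq_iff (w := w) (w' := w') (fr := fun i => fr i && decide (0 < w i))
    (fr' := fun i => fr' i && decide (0 < w' i))).trans ?_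
  constructor
  · rintro ⟨rfl, h⟩
    exact ⟨rfl, fun i hi => by simpa [hi] using congrFun h i⟩
  · rintro ⟨rfl, h⟩
    refine ⟨rfl, funext fun i => ?_⟩
    by_cases hi : 0 < w i
    · rw [h i hi]
    · simp [hi]

theorem Cert.certAt {G : Derivation k L L → Prop} {y : ℕ → L} (hy : ∀ e, y e ∈ S) {I : Set L}
    (hI : ∀ f ∈ I, f ∈ S) {x : Fin N → L} {w : Fin N → ℚ} {fr : Fin N → Bool}
    (hc : Cert S G y I x w fr) {q : Submodule S L} (hq : PrimeAt S q) :
    Abs.CertAt k (idl q) (idl (Submodule.span S I)) (fun e => cutE S (y e))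
      (fun i => cutE S (x i)) w (fun i => fr i && decide (0 < w i)) := by
  have := hq.isPrime
  intro j
  rcases (hc.nonneg j).lt_or_eq with hj | hj
  swap
  · exact Or.inl ⟨hj.symm, by simp [← hj]⟩
  obtain ⟨f, hf, Ld, D, hL, hs, -, hD, hDx, hu, hfr, hdv⟩ := hc.step j hj
  have hfS : f ∈ S := by
    refine (Submodule.span_le (p := LinearMap.range (Algebra.linearMap S L))).2
      (fun z hz => ⟨⟨z, hI z hz⟩, rfl⟩) hf |>.elim fun z hz => hz ▸ z.2
  have happ := coe_app (fun p hp => (hL p hp).2.2.1) ⟨f, hfS⟩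
  have hlog : ∀ e, D (y e) ∈ pr1 S (y e) →
      resD S D (cutE S (y e)) ∈ Ideal.span {cutE S (y e)} := by
    intro e he
    rw [← idl_pr1, mem_idl, coe_resD hD, coe_cutE (hy e)]
    exact he
  refine Or.inr ⟨hj, ⟨f, hfS⟩, hf, Ld.map fun p => (resD S p.1, p.2), ?_, ?_, resD S D, ?_, ?_, ?_⟩
  · intro p' hp'
    obtain ⟨p, hp, rfl⟩ := List.mem_map.1 hp'
    refine ⟨(hL p hp).1, fun i hi => Subtype.ext ?_⟩
    rw [coe_resD (hL p hp).2.2.1, coe_cutE (hc.mem i)]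
    exact (hL p hp).2.2.2 i hi
  · rw [List.map_map]
    exact hs
  · intro i hi
    refine Subtype.ext ?_
    rw [coe_resD hD, coe_cutE (hc.mem i)]
    exact hDx i hi
  · rw [mem_idl, coe_resD hD, happ]
    exact hq.notMem_of_unitIn hu
  · cases h : fr j with
    | true =>
      refine Or.inl ⟨by simp [h, hj], Subtype.ext ?_, fun e => hlog e ((hfr h).2 e)⟩
      rw [happ, coe_cutE (hc.mem j)]
      exact (hfr h).1
    | false =>
      obtain ⟨e0, h1, h2, h3⟩ := hdv h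
      refine Or.inr ⟨by simp [h], e0, asAt_of_sat ?_ ?_, fun e he => hlog e (h3 e he)⟩
      · rw [coe_cutE (hy e0), coe_cutE (hc.mem j)]
        exact Sat.of_mem hq h1
      · rw [coe_cutE (hy e0), coe_cutE (hc.mem j)]
        exact Sat.of_mem hq h2

theorem IsCen.pseudo {y : ℕ → L} (hy : ∀ e, y e ∈ S) {I : Set L}
    {q : Submodule S L} (hq : PrimeAt S q) [(idl q).IsPrime] {t : Fin N → L} {w : Fin N → ℚ}
    {fr : Fin N → Bool} (h : IsCen S q y I t w fr) :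
    Abs.Pseudo (idl q) (idl (Submodule.span S I)) (fun e => cutE S (y e))
      (fun i => cutE S (t i)) w (fun i => fr i && decide (0 < w i)) where
  nonneg := h.nonneg
  mem i hi := by
    rw [mem_idl, coe_cutE (hq.sub _ (h.mem i hi))]
    exact h.mem i hi
  anti := h.anti
  divi i hi hf := by
    obtain ⟨e, h1, h2⟩ := h.div i hi (by simpa [hi] using hf)
    refine ⟨e, asAt_of_sat ?_ ?_⟩
    · rwa [coe_cutE (hy e), coe_cutE (hq.sub _ (h.mem i hi))]
    · rwa [coe_cutE (hy e), coe_cutE (hq.sub _ (h.mem i hi))]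
  adm z hz := by
    rw [← idl_Jw fun i hi => hq.sub _ (h.mem i hi), ← sat_iff]
    exact Sat.span hq h.adm (Sat.of_mem hq hz)

/-- The key lemma (induction on `j` with `key_step`). -/
theorem key {G : Derivation k L L → Prop} {y : ℕ → L} (hy : ∀ e, y e ∈ S) {I : Set L}
    (hI : ∀ f ∈ I, f ∈ S) {x : Fin N → L} {w : Fin N → ℚ} {fr : Fin N → Bool}
    (hc : Cert S G y I x w fr) {q : Submodule S L} (hq : PrimeAt S q) {t : Fin N → L}
    {w' : Fin N → ℚ} {fr' : Fin N → Bool} (h : IsCen S q y I t w' fr') :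
    nu w fr ≤ nu w' fr' ∧ (nu w fr = nu w' fr' → (∀ i, 0 < w i → x i ∈ q) ∧
      ∀ d z, Sat q (Jw S x w d) z ↔ Sat q (Jw S t w' d) z) := by
  have := hq.isPrime
  have h1 := hc.certAt hy hI hq
  have h2 := h.pseudo hy hq
  refine ⟨Abs.key_le h1 h2, fun he => ?_⟩
  obtain ⟨rfl, he'⟩ := (Abs.nu_eq_iff (fr := fun i => fr i && decide (0 < w i))
    (fr' := fun i => fr' i && decide (0 < w' i))).1 he
  rw [← he'] at h2
  obtain ⟨h3, h4⟩ := Abs.key_eq h1 h2
  have hx : ∀ i, 0 < w i → x i ∈ S := fun i _ => hc.mem i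
  have ht : ∀ i, 0 < w i → t i ∈ S := fun i hi => hq.sub _ (h.mem i hi)
  refine ⟨fun i hi => ?_, fun d z => ⟨sat_of_sat_le (fun _ => Jw_le_subalgebra hx) ?_,
    sat_of_sat_le (fun _ => Jw_le_subalgebra ht) ?_⟩⟩
  · have := h3 i hi
    rwa [mem_idl, coe_cutE (hc.mem i)] at this
  · rw [idl_Jw hx, idl_Jw ht, h4 d]
  · rw [idl_Jw hx, idl_Jw ht, h4 d]

/-- Certificates persist in larger rings and for associated boundary equations. -/
theorem Cert.mono {G : Derivation k L L → Prop} {y y' : ℕ → L} {I I' : Set L} {x : Fin N → L}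
    {w : Fin N → ℚ} {fr : Fin N → Bool} (hc : Cert S G y I x w fr) {S' : Subalgebra k L}
    (hS : S ≤ S') (hP : ∀ δ, G δ → Pres S δ → Pres S' δ)
    (hy : ∀ e, ∃ υ, UnitIn S' υ ∧ y' e = υ * y e) (hI : ∀ f ∈ I, f ∈ Submodule.span S' I')
    {G' : Derivation k L L → Prop} (hG : ∀ δ, G δ → G' δ) : Cert S' G' y' I' x w fr := by
  refine ⟨hc.nonneg, hc.anti, fun i => hS (hc.mem i), fun j hj => ?_⟩
  obtain ⟨f, hf, Ld, D, hL, hs, hGD, hD, hDx, hu, hfr, hdv⟩ := hc.step j hj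
  have hD' := hP D hGD hD
  have hlog : ∀ e, D (y e) ∈ pr1 S (y e) → D (y' e) ∈ pr1 S' (y' e) := by
    intro e he
    obtain ⟨υ, ⟨h1, υ', h2, h3⟩, h4⟩ := hy e
    obtain ⟨c, hc', h5⟩ := mem_pr1.1 he
    refine mem_pr1.2 ⟨c + D υ * υ', add_mem (hS hc') (mul_mem (hD' υ h1) h2), ?_⟩
    rw [h4, Derivation.leibniz, smul_eq_mul, smul_eq_mul, h5]
    linear_combination (-(D υ * y e)) * h3
  refine ⟨f, ?_, Ld, D, fun p hp => ⟨(hL p hp).1, hG _ (hL p hp).2.1,
    hP _ (hL p hp).2.1 (hL p hp).2.2.1, (hL p hp).2.2.2⟩, hs, hG D hGD, hD', hDx,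
    ⟨hS hu.1, hu.2.imp fun _ h => ⟨hS h.1, h.2⟩⟩,
    fun h => ⟨(hfr h).1, fun e => hlog e ((hfr h).2 e)⟩, fun h => ?_⟩
  · clear hu hfr hdv
    induction hf using Submodule.span_induction with
    | mem z hz => exact hI z hz
    | zero => exact zero_mem _
    | add a b _ _ ha hb => exact add_mem ha hb
    | smul c a _ ha => exact mul_mem_sub (hS c.2) ha
  · obtain ⟨e0, h1, h2, h3⟩ := hdv h
    obtain ⟨υ, ⟨h4, υ', h5, h6⟩, h7⟩ := hy e0
    obtain ⟨c, hc', h8⟩ := mem_pr1.1 h1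
    obtain ⟨c', hc'', h9⟩ := mem_pr1.1 h2
    refine ⟨e0, mem_pr1.2 ⟨c * υ', mul_mem (hS hc') h5, ?_⟩,
      mem_pr1.2 ⟨υ * c', mul_mem h4 (hS hc''), ?_⟩, fun e he => hlog e (h3 e he)⟩
    · rw [h7, h8]
      linear_combination (-(c * y e0)) * h6
    · rw [h7, mul_assoc, ← h9]

theorem Cert.mem_nuSet {G : Derivation k L L → Prop} {y : ℕ → L} {I : Set L} {x : Fin N → L}
    {w : Fin N → ℚ} {fr : Fin N → Bool} (hc : Cert S G y I x w fr) : nu w fr ∈ NuSet N := by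
  refine ⟨w, fr, rfl, hc.nonneg, hc.anti, fun j hj => ?_⟩
  obtain ⟨f, -, Ld, D, hL, hs, -⟩ := hc.step j hj
  have key : ∀ Ld : List (Derivation k L L × Fin N), (∀ p ∈ Ld, p.2 ≤ j) →
      ∃ β : Fin N → ℕ, (∀ i, j < i → β i = 0) ∧
        ∑ i, w i * β i = (Ld.map fun p => w p.2).sum := by
    intro Ld hL
    induction Ld with
    | nil => exact ⟨0, fun _ _ => rfl, by simp⟩
    | cons p Ld ih =>
      obtain ⟨β, h1, h2⟩ := ih fun p' hp' => hL p' (List.mem_cons_of_mem _ hp')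
      refine ⟨Pi.single p.2 1 + β, fun i hi => ?_, ?_⟩
      · have : i ≠ p.2 := ((hL p List.mem_cons_self).trans_lt hi).ne'
        simp [h1 i hi, this]
      · simp [mul_add, Finset.sum_add_distrib, h2, Pi.single_apply]
  obtain ⟨β, h1, h2⟩ := key Ld fun p hp => (hL p hp).1
  refine ⟨β + Pi.single j 1, fun i hi => by simp [h1 i hi, hi.ne'], by simp, ?_⟩
  simp [mul_add, Finset.sum_add_distrib, h2, Pi.single_apply, hs]

end Pool.Agent.Lib.MP_4287a9_ag.Res
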