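import Pool.Agent.Lib.MP_4287a9_ag.ResB2
import Pool.Agent.Lib.MP_4287a9_ag.ResB3
import Pool.Agent.Lib.MP_4287a9_ag.ResKey

/-! Operations on charts. -/

namespace Pool.Agent.Lib.MP_4287a9_ag.Res

variable {k K : Type} [Field k] [Field K] [Algebra k K] {N : ℕ}

variable {A : Amb k K N} {ρ : ℕ} {c : Chart k K N}

theorem Chart.Good.y_eq (h : c.Good A ρ) {i : Fin N} {e : ℕ} (hi : c.lab i = some e) :
    c.y e = c.t i := by
  unfold Chart.y
  rw [Finset.prod_eq_single i, if_pos hi]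
  · intro j _ hj
    exact if_neg fun hje => hj (h.inj j i e hje hi)
  · intro hh
    exact absurd (Finset.mem_univ i) hh

theorem Chart.y_eq_one {e : ℕ} (h : ∀ i, c.lab i ≠ some e) : c.y e = 1 := by
  exact Finset.prod_eq_one fun i _ => if_neg (h i)

theorem Chart.Good.y_mem (h : c.Good A ρ) (e : ℕ) : c.y e ∈ c.B := by
  refine Subalgebra.prod_mem _ fun i _ => ?_
  split_ifs
  · exact h.tmem i
  · exact one_mem _

theorem Chart.Good.y_hom (h : c.Good A ρ) (e : ℕ) : Hm (c.y e) := by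
  refine Hm.prod fun i _ => ?_
  split_ifs
  · exact h.thom i
  · exact hm_one

theorem Chart.Good.y_ge (h : c.Good A ρ) {e : ℕ} (he : ρ ≤ e) : c.y e = 1 := by
  exact Chart.y_eq_one fun i hi => absurd (h.lt i e hi) (not_lt.2 he)

theorem Chart.Mono.mul {z z' : LL K} (h : c.Mono ρ z) (h' : c.Mono ρ z') : c.Mono ρ (z * z') := by
  obtain ⟨υ, hυ, a, rfl⟩ := h
  obtain ⟨υ', hυ', a', rfl⟩ := h'
  refine ⟨υ * υ', hυ.mul hυ', a + a', ?_⟩
  simp only [Pi.add_apply, pow_add, Finset.prod_mul_distrib]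
  ring

theorem Chart.Mono.pow {z : LL K} (h : c.Mono ρ z) (m : ℕ) : c.Mono ρ (z ^ m) := by
  obtain ⟨υ, hυ, a, rfl⟩ := h
  refine ⟨υ ^ m, hυ.pow m, fun e => a e * m, ?_⟩
  simp only [pow_mul, Finset.prod_pow, mul_pow]

theorem Chart.mono_of_unit {z : LL K} (h : UnitIn c.B z) : c.Mono ρ z := by
  exact ⟨z, h, fun _ => 0, by simp⟩

theorem Chart.mono_y {e : ℕ} (he : e < ρ) : c.Mono ρ (c.y e) := by
  refine ⟨1, unitIn_one, fun e' => if e' = e then 1 else 0, ?_⟩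
  rw [one_mul, Finset.prod_eq_single e]
  · simp
  · intro j _ hj
    simp [hj]
  · intro hh
    exact absurd (Finset.mem_range.2 he) hh

theorem Chart.Mono.prod {ι : Type} {s : Finset ι} {f : ι → LL K} (h : ∀ i ∈ s, c.Mono ρ (f i)) :
    c.Mono ρ (∏ i ∈ s, f i) := by
  exact Finset.prod_induction f (c.Mono ρ) (fun _ _ => Chart.Mono.mul)
    (Chart.mono_of_unit unitIn_one) h

theorem Chart.Good.mono_mem (h : c.Good A ρ) {z : LL K} (hz : c.Mono ρ z) : z ∈ c.B := by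
  obtain ⟨υ, hυ, a, rfl⟩ := hz
  exact mul_mem hυ.1 (Subalgebra.prod_mem _ fun e _ => pow_mem (h.y_mem e) _)

/-- It is enough that the boundary equations stay monomials. -/
theorem Chart.dom_of_y {c' : Chart k K N} {ρ' : ℕ} (hB : c.B ≤ c'.B)
    (hy : ∀ e < ρ, c'.Mono ρ' (c.y e)) : c.Dom ρ c' ρ' := by
  refine ⟨hB, ?_⟩
  rintro z ⟨υ, hυ, a, rfl⟩
  exact (Chart.mono_of_unit (hυ.mono hB)).mul
    (Chart.Mono.prod fun e he => (hy e (Finset.mem_range.1 he)).pow _)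

theorem Chart.Dom.trans {c' c'' : Chart k K N} {ρ' ρ'' : ℕ} (h : c.Dom ρ c' ρ')
    (h' : c'.Dom ρ' c'' ρ'') : c.Dom ρ c'' ρ'' := by
  exact ⟨h.1.trans h'.1, fun z hz => h'.2 z (h.2 z hz)⟩

theorem Chart.Dom.refl (c : Chart k K N) (ρ : ℕ) : c.Dom ρ c ρ := by
  exact ⟨le_rfl, fun _ hz => hz⟩

theorem Sys.Dom.trans {S S' S'' : Sys k K N} {ρ ρ' ρ'' : ℕ} (h : S.Dom ρ S' ρ')
    (h' : S'.Dom ρ' S'' ρ'') : S.Dom ρ S'' ρ'' := by
  intro j
  obtain ⟨l, hl⟩ := h' j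
  obtain ⟨m, hm⟩ := h l
  exact ⟨m, hm.trans hl⟩

theorem Sys.Dom.refl (S : Sys k K N) (ρ : ℕ) : S.Dom ρ S ρ := by
  exact fun j => ⟨j, Chart.Dom.refl _ _⟩

theorem Chart.Loc.le {σ : (LL K)ˣ} {c' : Chart k K N} (h : c.Loc σ c') : c.B ≤ c'.B := by
  rw [h.eq]
  exact le_away σ

theorem Chart.Loc.dom {σ : (LL K)ˣ} {c' : Chart k K N} (h : c.Loc σ c') : c.Dom ρ c' ρ := by
  refine Chart.dom_of_y h.le fun e he => ?_
  obtain ⟨υ, ⟨hυ, υ', hυ', hm⟩, hy⟩ := h.as e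
  have e1 : c.y e = υ' * c'.y e := by
    rw [hy, ← mul_assoc, mul_comm υ', hm, one_mul]
  rw [e1]
  exact (Chart.mono_of_unit ⟨hυ', υ, hυ, by rw [mul_comm, hm]⟩).mul (Chart.mono_y he)

theorem Chart.loc_loc {σ : (LL K)ˣ} (hσ : (σ : LL K) ∈ c.B) (hh : Hm (σ : LL K)) :
    c.Loc σ (c.loc σ) := by
  exact ⟨hσ, hh, rfl, fun e => ⟨1, unitIn_one, (one_mul _).symm⟩⟩

theorem Chart.Good.loc (h : c.Good A ρ) {σ : (LL K)ˣ} (hσ : (σ : LL K) ∈ c.B)
    (hh : Hm (σ : LL K)) : (c.loc σ).Good A ρ := by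
  classical
  have hle : c.B ≤ away c.B σ := le_away σ
  refine ⟨?_, fun a ha => hle (h.base a ha), fun i => hle (h.tmem i), h.thom,
    fun e he => (h.uunit e he).mono hle, h.udeg, ?_, h.inj, h.lt, fun e he => ?_⟩
  · obtain ⟨s, hs, hB⟩ := h.fg
    obtain ⟨γ, hγ⟩ := hh
    refine ⟨insert ((σ⁻¹ : (LL K)ˣ) : LL K) s, fun z hz => ?_, ?_⟩
    · rcases Finset.mem_insert.1 hz with rfl | hz
      · refine ⟨-γ, fun e he => ?_, hγ.inv⟩
        rw [Pi.neg_apply, h.below hσ hγ σ.ne_zero e he, neg_zero]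
      · exact hs z hz
    · change away c.B σ = _
      rw [away, hB, Set.union_singleton, Algebra.adjoin_insert_adjoin, Finset.coe_insert]
  · refine h.unr.extend (U := {((σ⁻¹ : (LL K)ˣ) : LL K)}) rfl ?_
      (fun y hy _ => Algebra.subset_adjoin hy) ?_
    · rintro y (⟨i, rfl⟩ | ⟨e, he, rfl⟩)
      · exact hle (h.tmem i)
      · exact hle (h.uunit e he).1
    · rintro y rfl
      exact Or.inr ⟨σ, Algebra.subset_adjoin (Or.inl hσ), σ.mul_inv⟩
  · obtain ⟨υ, hυ, a, ha⟩ := h.tauMono e he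
    exact ⟨υ, hυ.mono hle, a, ha⟩

theorem Chart.Dual.loc {D : Fin N → Derivation k (LL K) (LL K)} (h : c.Dual ρ D) {σ : (LL K)ˣ}
    (hσ : (σ : LL K) ∈ c.B) : (c.loc σ).Dual ρ D := by
  refine ⟨h.fresh, h.hom, fun i => (h.pres i).away hσ, h.dual, h.kill, fun i j z hz => ?_⟩
  have h0 : ∀ y ∈ c.B, ⁅D i, D j⁆ y = 0 := fun y hy => by
    rw [Derivation.commutator_apply, h.comm i j y hy, sub_self]
  have h1 : Set.EqOn (⁅D i, D j⁆ : Derivation k (LL K) (LL K)) (0 : Derivation k (LL K) (LL K))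
      ((c.B : Set (LL K)) ∪ {((σ⁻¹ : (LL K)ˣ) : LL K)}) := by
    rintro y (hy | rfl)
    · exact h0 y hy
    · rw [Derivation.leibniz_of_mul_eq_one _ σ.inv_mul, h0 _ hσ, smul_zero]
      rfl
  have h2 := Derivation.eqOn_adjoin h1 hz
  rw [Derivation.commutator_apply] at h2
  exact sub_eq_zero.1 h2

theorem Chart.perm_y (c : Chart k K N) (π : Equiv.Perm (Fin N)) (e : ℕ) :
    (c.perm π).y e = c.y e := by
  exact Equiv.prod_comp π fun i => if c.lab i = some e then c.t i else 1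

theorem Chart.Good.perm (h : c.Good A ρ) (π : Equiv.Perm (Fin N)) : (c.perm π).Good A ρ := by
  refine ⟨h.fg, h.base, fun i => h.tmem _, fun i => h.thom _, h.uunit, h.udeg, ?_,
    fun i j e hi hj => π.injective (h.inj _ _ e hi hj), fun i e hi => h.lt _ e hi, fun e he => ?_⟩
  · refine h.unr.mono ?_
    rintro y (⟨i, rfl⟩ | hy)
    · exact Or.inl ⟨π.symm i, congrArg c.t (π.apply_symm_apply i)⟩
    · exact Or.inr hy
  · obtain ⟨υ, hυ, a, ha⟩ := h.tauMono e he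
    exact ⟨υ, hυ, a, by simpa only [Chart.perm_y] using ha⟩

theorem Chart.Dual.perm {D : Fin N → Derivation k (LL K) (LL K)} (h : c.Dual ρ D)
    (π : Equiv.Perm (Fin N)) : (c.perm π).Dual ρ (D ∘ π) := by
  refine ⟨fun i => h.fresh _, fun i => h.hom _, fun i => h.pres _, fun i j => ?_,
    fun i => h.kill _, fun i j => h.comm _ _⟩
  have := h.dual (π i) (π j)
  simp only [π.apply_eq_iff_eq] at this
  exact this

theorem Chart.upd_y {l : Fin N} (hl : c.lab l = none) (g : LL K) (e : ℕ) :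
    (c.upd l g).y e = c.y e := by
  refine Finset.prod_congr rfl fun i _ => ?_
  by_cases hi : i = l
  · subst hi
    simp [Chart.upd, hl]
  · simp [Chart.upd, hi]

/-- Use `Unr.replace` (the coordinates are pairwise distinct because of the dual derivations). -/
theorem Chart.Good.upd (h : c.Good A ρ) {D : Fin N → Derivation k (LL K) (LL K)}
    (hD : c.Dual ρ D) {l : Fin N} (hl : c.lab l = none) {g : LL K} (hg : g ∈ c.B) (hh : Hm g)
    (hu : UnitIn c.B (D l g)) : (c.upd l g).Good A ρ := by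
  have hlab : (c.upd l g).lab = c.lab := by
    change Function.update c.lab l none = c.lab
    rw [← hl, Function.update_eq_self]
  have ht : ∀ P : LL K → Prop, P g → (∀ i, P (c.t i)) → ∀ i, P ((c.upd l g).t i) := by
    intro P h1 h2 i
    change P (Function.update c.t l g i)
    by_cases hi : i = l
    · rw [hi, Function.update_self]
      exact h1
    · rw [Function.update_of_ne hi]
      exact h2 i
  refine ⟨h.fg, h.base, ht (· ∈ c.B) hg h.tmem, ht Hm hh h.thom, h.uunit, h.udeg, ?_,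
    by rw [hlab]; exact h.inj, by rw [hlab]; exact h.lt, fun e he => ?_⟩
  · refine (h.unr.replace (h.tmem l) hg (hD.pres l) (by rw [hD.dual, if_pos rfl]) ?_ hu).mono ?_
    · rintro y (⟨i, rfl⟩ | ⟨e, he, rfl⟩) hy
      · rw [hD.dual, if_neg fun e => hy (by rw [e])]
      · exact hD.kill l e he
    · rintro y (⟨⟨i, rfl⟩ | hy, hy'⟩ | rfl)
      · exact Or.inl ⟨i, Function.update_of_ne (fun e => hy' (by rw [e]; rfl)) _ _⟩
      · exact Or.inr hy
      · exact Or.inl ⟨l, Function.update_self _ _ _⟩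
  · obtain ⟨υ, hυ, a, ha⟩ := h.tauMono e he
    exact ⟨υ, hυ, a, by simpa only [Chart.upd_y hl] using ha⟩

/-- Composition of localizations at a point. -/
theorem Chart.Loc.trans {σ σ' : (LL K)ˣ} {c' c'' : Chart k K N} (h : c.Loc σ c')
    (h' : c'.Loc σ' c'') {q : Submodule c.B (LL K)} (hq : PrimeAt c.B q) (hσ : (σ : LL K) ∉ q)
    (hσ' : (σ' : LL K) ∉ extq q c'.B) :
    ∃ σ'' : (LL K)ˣ, (σ'' : LL K) ∉ q ∧ c.Loc σ'' c'' := by
  have hm := h'.mem
  rw [h.eq] at hm hσ'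
  obtain ⟨σ'', h1, h2, h3, h4⟩ := exists_away_comp hq h.mem h.hom hσ hm h'.hom hσ'
  refine ⟨σ'', h3, h1, h2, by rw [h'.eq, h.eq, h4], fun e => ?_⟩
  obtain ⟨υ, hυ, hy⟩ := h.as e
  obtain ⟨υ', hυ', hy'⟩ := h'.as e
  exact ⟨υ' * υ, hυ'.mul (hυ.mono h'.le), by rw [hy', hy, mul_assoc]⟩

/-- A derivation in `Fresh ρ` that preserves `c.B` preserves the localization. -/
theorem Chart.Loc.bnd {σ : (LL K)ˣ} {c' : Chart k K N} (h : c.Loc σ c') {I : Set (LL K)}
    {ν : Nu N} (hb : c.Bnd ρ I ν) : c'.Bnd ρ I ν := by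
  rcases hb with ⟨f, hf, hu⟩ | ⟨x, w, fr, hc, hν⟩
  · exact Or.inl ⟨f, hf, hu.mono h.le⟩
  · refine Or.inr ⟨x, w, fr, hc.mono h.le (fun δ _ hδ => ?_) h.as
      (fun f hf => Submodule.subset_span hf) fun _ hδ => hδ,
      hν.imp_right fun ⟨e, i, hi, hu⟩ => ⟨e, i, hi, hu.mono h.le⟩⟩
    rw [h.eq]
    exact hδ.away h.mem

/-- `key`, or the unit of `Triv` would lie in `q` (`Jw_le_prime`). -/
theorem Chart.Bnd.lt {I : Set (LL K)} {ν : Nu N} (hb : c.Bnd ρ I ν) (hy : ∀ e, c.y e ∈ c.B)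
    (hI : ∀ f ∈ I, f ∈ c.B) {q : Submodule c.B (LL K)} (hq : PrimeAt c.B q) {t : Fin N → LL K}
    {w : Fin N → ℚ} {fr : Fin N → Bool} (h : IsCen c.B q c.y I t w fr) : ν < nu w fr := by
  rcases hb with ⟨f, hf, hu⟩ | ⟨x, w', fr', hc, hν⟩
  · exact absurd ((h.adm f hf).mem_of_le hq (Jw_le_prime hq h.mem one_pos) hu.1)
      (hq.notMem_of_unitIn hu)
  · obtain ⟨h1, h2⟩ := key hy hI hc hq h
    rcases hν with hν | ⟨rfl, i, hi, hu⟩
    · exact hν.trans_le h1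
    · exact lt_of_le_of_ne h1 fun e => hq.notMem_of_unitIn hu ((h2 e).1 i hi)

/-- A certified centre is an admissible centre at each of its points in a larger ring. -/
theorem Chart.CC.isCen (h : c.Good A ρ) {I : Set (LL K)} {w : Fin N → ℚ} {fr : Fin N → Bool}
    (hc : c.CC ρ I w fr) {S : Subalgebra k (LL K)} (hS : c.B ≤ S) {q : Submodule S (LL K)}
    (hq : PrimeAt S q) (ht : ∀ i, 0 < w i → c.t i ∈ q) : IsCen S q c.y I c.t w fr := by
  refine ⟨hc.cert.nonneg, hc.anti, ht, fun i hi hf => ?_,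
    fun f hf => Sat.of_mem hq (Jw_le_of_le hS (hc.adm f hf))⟩
  obtain ⟨e, he⟩ := Option.ne_none_iff_exists'.1 fun hn : c.lab i = none => by
    rw [(hc.free i hi).2 hn] at hf
    exact absurd hf (by decide)
  refine ⟨e, ?_⟩
  rw [h.y_eq he]
  exact ⟨Sat.of_mem hq (Submodule.mem_span_singleton_self _),
    Sat.of_mem hq (Submodule.mem_span_singleton_self _)⟩

end Pool.Agent.Lib.MP_4287a9_ag.Res
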