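import Pool.Agent.Lib.MP_4287a9_ag.ResA2
import Pool.Agent.Lib.MP_4287a9_ag.ResKey

/-! The extended Rees algebra of a weighted centre; lifting of certificates; gluing. -/

namespace Pool.Agent.Lib.MP_4287a9_ag.Res

noncomputable section

variable {k L : Type} [Field k] [CommRing L] [Algebra k L] {N : ℕ} {S : Subalgebra k L}

/-- The transformed coordinates. -/
def blx (x : Fin N → L) (W : Fin N → ℕ) (s : Lˣ) : Fin N → L :=
  fun i => x i * ((s⁻¹ ^ W i : Lˣ) : L)

/-- The algebra `S[s, x i / s ^ W i]`. -/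
def bl (S : Subalgebra k L) (x : Fin N → L) (W : Fin N → ℕ) (s : Lˣ) : Subalgebra k L :=
  Algebra.adjoin k ((S : Set L) ∪ ({(s : L)} ∪ Set.range (blx x W s)))

variable {x : Fin N → L} {W : Fin N → ℕ} {s : Lˣ}

theorem le_bl : S ≤ bl S x W s := fun _ h => Algebra.subset_adjoin (Or.inl h)

theorem s_mem_bl : (s : L) ∈ bl S x W s := Algebra.subset_adjoin (Or.inr (Or.inl rfl))

theorem blx_mem (i : Fin N) : blx x W s i ∈ bl S x W s :=
  Algebra.subset_adjoin (Or.inr (Or.inr ⟨i, rfl⟩))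

theorem bl_le {S' : Subalgebra k L} (h1 : S ≤ S') (h2 : (s : L) ∈ S')
    (h3 : ∀ i, blx x W s i ∈ S') : bl S x W s ≤ S' := by
  refine Algebra.adjoin_le ?_
  rintro z (hz | rfl | ⟨i, rfl⟩)
  exacts [h1 hz, h2, h3 i]

theorem blx_mul (i : Fin N) : blx x W s i * (s : L) ^ W i = x i := by
  rw [blx, mul_assoc, ← Units.val_pow_eq_pow_val, ← Units.val_mul, ← mul_pow, inv_mul_cancel,
    one_pow, Units.val_one, mul_one]

theorem mul_inv_pow_mem {S' : Subalgebra k L} (h2 : (s : L) ∈ S')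
    (h3 : ∀ i, blx x W s i ∈ S') {w : Fin N → ℚ} {D : ℕ} (hW : ∀ i, (W i : ℚ) = D * w i) {d : ℚ}
    {n : ℕ} (hn : (n : ℚ) ≤ D * d) {z : L} (hz : z ∈ Jw S' x w d) :
    z * ((s⁻¹ ^ n : Lˣ) : L) ∈ S' := by
  induction hz using Submodule.span_induction with
  | mem z hz =>
    obtain ⟨α, -, hα, rfl⟩ := hz
    have h1 : n ≤ ∑ i, W i * α i := by
      have : (n : ℚ) ≤ (∑ i, W i * α i : ℕ) := by
        push_cast
        simp only [hW, mul_assoc, ← Finset.mul_sum]
        exact hn.trans (mul_le_mul_of_nonneg_left hα (Nat.cast_nonneg _))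
      exact_mod_cast this
    obtain ⟨m, hm⟩ := Nat.exists_eq_add_of_le h1
    have h4 : ∏ i, x i ^ α i = (∏ i, blx x W s i ^ α i) * (s : L) ^ m * (s : L) ^ n := by
      rw [mul_assoc, ← pow_add, add_comm, ← hm, ← Finset.prod_pow_eq_pow_sum,
        ← Finset.prod_mul_distrib]
      exact Finset.prod_congr rfl fun i _ => by rw [pow_mul, ← mul_pow, blx_mul]
    rw [h4, mul_assoc, ← Units.val_pow_eq_pow_val s n, ← Units.val_mul, ← mul_pow, mul_inv_cancel,
      one_pow, Units.val_one, mul_one]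
    exact mul_mem (prod_mem fun i _ => pow_mem (h3 i) _) (pow_mem h2 _)
  | zero => simp
  | add a b _ _ ha hb => rw [add_mul]; exact add_mem ha hb
  | smul c a _ ha =>
    rw [Subalgebra.smul_def, smul_eq_mul, mul_assoc]
    exact mul_mem c.2 ha

theorem deriv_zpow {δ : Derivation k L L} (h : δ (s : L) = 0) (b : ℤ) :
    δ ((s ^ b : Lˣ) : L) = 0 := by
  have h1 : δ ((s⁻¹ : Lˣ) : L) = 0 := by
    rw [δ.leibniz_of_mul_eq_one (a := ((s⁻¹ : Lˣ) : L)) (b := s) s.inv_mul, h, smul_zero]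
  obtain ⟨n, rfl | rfl⟩ := b.eq_nat_or_neg
  · simp [h]
  · rw [zpow_neg, zpow_natCast, ← inv_pow, Units.val_pow_eq_pow_val]
    simp [h1]

theorem deriv_mul_zpow {δ : Derivation k L L} (h : δ (s : L) = 0) (b : ℤ) (z : L) :
    δ (z * ((s ^ b : Lˣ) : L)) = δ z * ((s ^ b : Lˣ) : L) := by
  rw [Derivation.leibniz, deriv_zpow h, smul_zero, zero_add, smul_eq_mul, mul_comm]

theorem inv_pow_eq (s : Lˣ) (n : ℕ) : s⁻¹ ^ n = s ^ (-(n : ℤ)) := by
  rw [zpow_neg, zpow_natCast, inv_pow]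

theorem Pres.bl {δ : Derivation k L L} (hδ : Pres S δ) (hx : ∀ i, x i ∈ S) (hs : δ (s : L) = 0)
    {c : ℕ} (h : ∀ i, c < W i → δ (x i) = 0) : Pres (bl S x W s) (((s : L) ^ c) • δ) := by
  refine Pres.adjoin ?_
  rintro z (hz | rfl | ⟨i, rfl⟩)
  · exact mul_mem (pow_mem s_mem_bl c) (le_bl (hδ z hz))
  · simp [hs]
  · rw [Derivation.smul_apply, blx, inv_pow_eq, deriv_mul_zpow hs, smul_eq_mul]
    rcases lt_or_ge c (W i) with hi | hi
    · simp [h i hi]
    · obtain ⟨m, rfl⟩ := Nat.exists_eq_add_of_le hi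
      rw [mul_left_comm, ← Units.val_pow_eq_pow_val, ← Units.val_mul, ← zpow_natCast, ← zpow_add,
        show ((W i + m : ℕ) : ℤ) + -(W i : ℤ) = m by push_cast; ring, zpow_natCast,
        Units.val_pow_eq_pow_val]
      exact mul_mem (le_bl (hδ _ (hx i))) (pow_mem s_mem_bl m)

theorem app_lift (W : Fin N → ℕ) {Ld : List (Derivation k L L × Fin N)}
    (h : ∀ p ∈ Ld, p.1 (s : L) = 0) (b : ℤ) (f : L) :
    app (Ld.map fun p => (((s : L) ^ W p.2) • p.1, p.2)) (f * ((s ^ b : Lˣ) : L)) =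
      app Ld f * ((s ^ (b + ((Ld.map fun p => W p.2).sum : ℕ)) : Lˣ) : L) := by
  induction Ld with
  | nil => simp [app]
  | cons p Ld ih =>
    have := ih fun p' hp' => h p' (List.mem_cons_of_mem _ hp')
    simp only [app, List.map_cons, List.foldr_cons, List.sum_cons] at this ⊢
    rw [this, Derivation.smul_apply, deriv_mul_zpow (h p List.mem_cons_self), smul_eq_mul,
      mul_left_comm, ← Units.val_pow_eq_pow_val, ← Units.val_mul, ← zpow_natCast, ← zpow_add]
    congr 3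
    push_cast
    ring

/-- A certificate lifts to the extended Rees algebra. -/
theorem Cert.lift {G G' : Derivation k L L → Prop} {y : ℕ → L} {I : Set L} {w : Fin N → ℚ}
    {fr : Fin N → Bool} (hc : Cert S G y I x w fr) {D : ℕ} (hW : ∀ i, (W i : ℚ) = D * w i)
    (hG : ∀ δ, G δ → δ (s : L) = 0 ∧ ∀ c : ℕ, G' (((s : L) ^ c) • δ)) (b : ℕ → ℤ)
    (hb : ∀ j e, 0 < w j → fr j = false → x j ∈ pr1 S (y e) → y e ∈ pr1 S (x j) → b e = -W j) :
    Cert (bl S x W s) G' (fun e => y e * ((s ^ b e : Lˣ) : L))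
      ((fun f => f * ((s⁻¹ ^ D : Lˣ) : L)) '' I) (blx x W s) w fr := by
  refine ⟨hc.nonneg, hc.anti, blx_mem, fun j hj => ?_⟩
  obtain ⟨f, hf, Ld, δ, hL, hs, hGD, hD, hDx, hu, hfr, hdv⟩ := hc.step j hj
  have hlt : ∀ i i' : Fin N, W i < W i' → i' < i := by
    intro i i' h
    by_contra h'
    have h1 := mul_le_mul_of_nonneg_left (hc.anti (not_lt.1 h')) (Nat.cast_nonneg (α := ℚ) D)
    rw [← hW, ← hW] at h1
    exact absurd h (not_lt.2 (by exact_mod_cast h1))
  have hkill : ∀ (δ : Derivation k L L) (c : ℕ) (i : Fin N), δ (s : L) = 0 → δ (x i) = 0 →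
      (((s : L) ^ c) • δ) (blx x W s i) = 0 := by
    intro δ c i h1 h2
    rw [Derivation.smul_apply, blx, inv_pow_eq, deriv_mul_zpow h1, h2, zero_mul, smul_zero]
  have hsum : -(D : ℤ) + ((Ld.map fun p => W p.2).sum : ℕ) = -(W j : ℤ) := by
    have h1 : (((Ld.map fun p => W p.2).sum : ℕ) : ℚ) = D * (Ld.map fun p => w p.2).sum := by
      rw [Nat.cast_list_sum, List.map_map, ← List.sum_map_mul_left]
      exact congrArg List.sum (List.map_congr_left fun p _ => hW p.2)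
    have h2 : (((Ld.map fun p => W p.2).sum + W j : ℕ) : ℚ) = D := by
      rw [Nat.cast_add, h1, hW, ← mul_add, hs, mul_one]
    have h3 : (Ld.map fun p => W p.2).sum + W j = D := by exact_mod_cast h2
    omega
  have happ : app (Ld.map fun p => (((s : L) ^ W p.2) • p.1, p.2)) (f * ((s⁻¹ ^ D : Lˣ) : L)) =
      app Ld f * ((s ^ (-(W j : ℤ)) : Lˣ) : L) := by
    rw [inv_pow_eq, app_lift W fun p hp => (hG _ (hL p hp).2.1).1, hsum]
  have hδs := (hG δ hGD).1
  have hlog : ∀ e, δ (y e) ∈ pr1 S (y e) → (((s : L) ^ W j) • δ) (y e * ((s ^ b e : Lˣ) : L)) ∈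
      pr1 (bl S x W s) (y e * ((s ^ b e : Lˣ) : L)) := by
    intro e he
    obtain ⟨c, hc', h1⟩ := mem_pr1.1 he
    refine mem_pr1.2 ⟨(s : L) ^ W j * c, mul_mem (pow_mem s_mem_bl _) (le_bl hc'), ?_⟩
    rw [Derivation.smul_apply, deriv_mul_zpow hδs, h1, smul_eq_mul]
    ring
  refine ⟨f * ((s⁻¹ ^ D : Lˣ) : L), ?_, Ld.map fun p => (((s : L) ^ W p.2) • p.1, p.2),
    ((s : L) ^ W j) • δ, ?_, ?_, (hG δ hGD).2 _,
    hD.bl hc.mem hδs fun i hi => hDx i (hlt _ _ hi), fun i hi => hkill δ _ i hδs (hDx i hi), ?_,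
    fun h => ⟨?_, fun e => hlog e ((hfr h).2 e)⟩, fun h => ?_⟩
  · clear happ hu hfr hdv
    induction hf using Submodule.span_induction with
    | mem z hz => exact Submodule.subset_span ⟨z, hz, rfl⟩
    | zero => simp
    | add a b _ _ ha hb => rw [add_mul]; exact add_mem ha hb
    | smul c a _ ha =>
      rw [Subalgebra.smul_def, smul_eq_mul, mul_assoc]
      exact mul_mem_sub (le_bl c.2) ha
  · intro p' hp'
    obtain ⟨p, hp, rfl⟩ := List.mem_map.1 hp'
    obtain ⟨h1, h2, h3, h4⟩ := hL p hp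
    exact ⟨h1, (hG _ h2).2 _, h3.bl hc.mem (hG _ h2).1 fun i hi => h4 i (hlt _ _ hi),
      fun i hi => hkill _ _ i (hG _ h2).1 (h4 i hi)⟩
  · rw [List.map_map]
    exact hs
  · rw [happ, Derivation.smul_apply, deriv_mul_zpow hδs, smul_eq_mul, mul_left_comm,
      ← Units.val_pow_eq_pow_val, ← Units.val_mul, ← zpow_natCast, ← zpow_add, add_neg_cancel,
      zpow_zero, Units.val_one, mul_one]
    exact ⟨le_bl hu.1, hu.2.imp fun _ h => ⟨le_bl h.1, h.2⟩⟩
  · rw [happ, blx, inv_pow_eq, (hfr h).1]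
  · obtain ⟨e0, h1, h2, h3⟩ := hdv h
    refine ⟨e0, ?_, ?_, fun e he => hlog e (h3 e he)⟩
    · obtain ⟨c, hc', h4⟩ := mem_pr1.1 h1
      refine mem_pr1.2 ⟨c, le_bl hc', ?_⟩
      beta_reduce
      rw [hb j e0 hj h h1 h2, blx, inv_pow_eq, ← mul_assoc, ← h4]
    · obtain ⟨c, hc', h4⟩ := mem_pr1.1 h2
      refine mem_pr1.2 ⟨c, le_bl hc', ?_⟩
      beta_reduce
      rw [hb j e0 hj h h1 h2, blx, inv_pow_eq, ← mul_assoc, ← h4]

/-- After the blow-up the invariant is strictly larger where a coordinate of positive weight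
is invertible. -/
theorem Cert.lt_of_unit {G : Derivation k L L → Prop} {y : ℕ → L} (hy : ∀ e, y e ∈ S) {I : Set L}
    (hI : ∀ f ∈ I, f ∈ S) {w : Fin N → ℚ} {fr : Fin N → Bool} (hc : Cert S G y I x w fr)
    {i : Fin N} (hi : 0 < w i) (hu : UnitIn S (x i)) {q : Submodule S L} (hq : PrimeAt S q)
    {t : Fin N → L} {w' : Fin N → ℚ} {fr' : Fin N → Bool} (h : IsCen S q y I t w' fr') :
    nu w fr < nu w' fr' := by
  obtain ⟨h1, h2⟩ := key hy hI hc hq h
  exact lt_of_le_of_ne h1 fun e => hq.notMem_of_unitIn hu ((h2 e).1 i hi)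

/-- A global centre: admissible at every prime that contains the coordinates of positive
weight. -/
def GCen (S : Subalgebra k L) (y : ℕ → L) (I : Set L) (x : Fin N → L) (w : Fin N → ℚ)
    (fr : Fin N → Bool) : Prop :=
  ∀ q : Submodule S L, PrimeAt S q → (∀ i, 0 < w i → x i ∈ q) → IsCen S q y I x w fr

/-- Two certified centres with the same invariant define the same filtration. -/
theorem Jw_le_of_cert {G : Derivation k L L → Prop} {y : ℕ → L} (hy : ∀ e, y e ∈ S) {I : Set L}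
    (hI : ∀ f ∈ I, f ∈ S) {w : Fin N → ℚ} {fr fr' : Fin N → Bool} {x' : Fin N → L}
    (hc : Cert S G y I x w fr) (hx' : ∀ i, x' i ∈ S) (hg : GCen S y I x' w fr')
    (hfr : nu w fr = nu w fr') (d : ℚ) : Jw S x w d ≤ Jw S x' w d := by
  intro z hz
  refine mem_of_forall_sat fun q hq => ?_
  by_cases h : ∀ i, 0 < w i → x' i ∈ q
  · exact (((key hy hI hc hq (hg q hq h)).2 hfr).2 d z).1 (Sat.of_mem hq hz)
  · push Not at h
    obtain ⟨i, hi, h⟩ := h
    exact sat_Jw_of_notMem hq hi (hx' i) h d (Jw_le_subalgebra (fun i _ => hc.mem i) hz)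

/-- A centre whose invariant is smaller than a certified bound is empty. -/
theorem one_mem_Jw_of_cert {G : Derivation k L L → Prop} {y : ℕ → L} (hy : ∀ e, y e ∈ S)
    {I : Set L} (hI : ∀ f ∈ I, f ∈ S) {w w' : Fin N → ℚ} {fr fr' : Fin N → Bool} {x' : Fin N → L}
    (hc : Cert S G y I x w fr) (hx' : ∀ i, x' i ∈ S) (hg : GCen S y I x' w' fr')
    (hlt : nu w' fr' < nu w fr) (d : ℚ) : (1 : L) ∈ Jw S x' w' d := by
  refine mem_of_forall_sat fun q hq => ?_
  by_cases h : ∀ i, 0 < w' i → x' i ∈ q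
  · exact absurd (key hy hI hc hq (hg q hq h)).1 (not_le.2 hlt)
  · push Not at h
    obtain ⟨i, hi, h⟩ := h
    exact sat_Jw_of_notMem hq hi (hx' i) h d (one_mem _)

/-- If the ideal is trivial, every centre is empty. -/
theorem one_mem_Jw_of_top {y : ℕ → L} {I : Set L} (hI : (1 : L) ∈ Submodule.span S I)
    {w' : Fin N → ℚ} {fr' : Fin N → Bool} {x' : Fin N → L} (hx' : ∀ i, x' i ∈ S)
    (hg : GCen S y I x' w' fr') (d : ℚ) : (1 : L) ∈ Jw S x' w' d := by
  refine mem_of_forall_sat fun q hq => ?_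
  by_cases h : ∀ i, 0 < w' i → x' i ∈ q
  · exact absurd (Sat.mem_of_le hq (Jw_le_prime hq h one_pos) (one_mem _)
      (Sat.span hq (hg q hq h).adm (Sat.of_mem hq hI))) hq.one
  · push Not at h
    obtain ⟨i, hi, h⟩ := h
    exact sat_Jw_of_notMem hq hi (hx' i) h d (one_mem _)

end

end Pool.Agent.Lib.MP_4287a9_ag.Res
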