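import Pool.Agent.Lib.MP_4287a9_ag.ResB4
import Pool.Agent.Lib.MP_4287a9_ag.ResBl0

/-! The charts of the blow-up. -/

namespace Pool.Agent.Lib.MP_4287a9_ag.Res

variable {k K : Type} [Field k] [Field K] [Algebra k K] {N : ℕ}

variable {A : Amb k K N} {ρ : ℕ} {c : Chart k K N}

theorem Chart.blB_eq (c : Chart k K N) (ρ : ℕ) (W : Fin N → ℕ) :
    c.blB ρ W = bl c.B c.t W (tau K ρ) := rfl

theorem resBl1_le_blB (c : Chart k K N) (ρ : ℕ) (W : Fin N → ℕ) : c.B ≤ c.blB ρ W :=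
  le_bl (S := c.B) (x := c.t) (W := W) (s := tau K ρ)

theorem resBl1_tau_mem (c : Chart k K N) (ρ : ℕ) (W : Fin N → ℕ) :
    (tau K ρ : LL K) ∈ c.blB ρ W :=
  s_mem_bl (S := c.B) (x := c.t) (W := W) (s := tau K ρ)

theorem resBl1_x_mem (c : Chart k K N) (ρ : ℕ) (W : Fin N → ℕ) (i : Fin N) :
    c.t i * (((tau K ρ)⁻¹ ^ W i : (LL K)ˣ) : LL K) ∈ c.blB ρ W :=
  blx_mem (S := c.B) (x := c.t) (W := W) (s := tau K ρ) i

theorem resBl1_x_mul (c : Chart k K N) (ρ : ℕ) (W : Fin N → ℕ) (i : Fin N) :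
    c.t i * (((tau K ρ)⁻¹ ^ W i : (LL K)ˣ) : LL K) * (tau K ρ : LL K) ^ W i = c.t i :=
  blx_mul (x := c.t) (W := W) (s := tau K ρ) i

theorem resBl1_unit_away {S : Subalgebra k (LL K)} {σ : (LL K)ˣ} (h : (σ : LL K) ∈ S) :
    UnitIn (away S σ) (σ : LL K) :=
  unitIn_coe.2 ⟨le_away σ h, inv_mem_away σ⟩

theorem resBl1_unit_inv {S : Subalgebra k (LL K)} {σ : (LL K)ˣ} (h : UnitIn S (σ : LL K)) :
    UnitIn S ((σ⁻¹ : (LL K)ˣ) : LL K) := by
  rw [unitIn_coe] at h ⊢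
  rw [inv_inv]
  exact ⟨h.2, h.1⟩

theorem resBl1_unit_of_pow {S : Subalgebra k (LL K)} {a : LL K} (ha : a ∈ S) {n : ℕ}
    (hn : 0 < n) (h : UnitIn S (a ^ n)) : UnitIn S a := by
  obtain ⟨m, rfl⟩ : ∃ m, n = m + 1 := ⟨n - 1, by omega⟩
  rw [pow_succ'] at h
  exact UnitIn.of_mul ha (pow_mem ha m) h

theorem resBl1_below (h : c.Good A ρ) {z : LL K} (hz : z ∈ c.B) (hh : Hm z) :
    ∃ γ, Below ρ γ ∧ IsH γ z := by
  by_cases h0 : z = 0
  · refine ⟨0, fun _ _ => rfl, 0, ?_⟩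
    rw [h0]
    simp
  · obtain ⟨γ, hγ⟩ := hh
    exact ⟨γ, h.below hz hγ h0, hγ⟩

theorem resBl1_below_succ {γ : Gam} (h : Below ρ γ) : Below (ρ + 1) γ :=
  fun e he => h e (by omega)

theorem resBl1_below_single (ρ : ℕ) : Below (ρ + 1) (Pi.single ρ 1 : Gam) := fun e he => by
  rw [Pi.single_eq_of_ne (by omega)]

theorem resBl1_below_neg {γ : Gam} (h : Below ρ γ) : Below ρ (-γ) := fun e he => by
  rw [Pi.neg_apply, h e he, neg_zero]

theorem resBl1_x_deg (h : c.Good A ρ) (W : Fin N → ℕ) (i : Fin N) :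
    ∃ γ : Gam, IsH γ (c.t i * (((tau K ρ)⁻¹ ^ W i : (LL K)ˣ) : LL K)) ∧
      γ ρ = -(W i : ℤ) ∧ Below (ρ + 1) γ := by
  obtain ⟨γ, hγ, hγ'⟩ := resBl1_below h (h.tmem i) (h.thom i)
  refine ⟨γ + W i • (-(Pi.single ρ 1 : Gam)), ?_, ?_, ?_⟩
  · rw [Units.val_pow_eq_pow_val]
    exact hγ'.mul ((isH_tau ρ).inv.pow _)
  · simp [hγ ρ le_rfl]
  · intro e he
    have h1 : (Pi.single ρ 1 : Gam) e = 0 := resBl1_below_single ρ e he
    simp [hγ e (by omega), h1]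

theorem Chart.Good.yt_eq (h : c.Good A ρ) (W : Fin N → ℕ) (e : ℕ) :
    c.yt ρ W e = c.y e *
      (((tau K ρ)⁻¹ ^ (∑ i, if c.lab i = some e then W i else 0) : (LL K)ˣ) : LL K) := by
  have _ := h.inj
  unfold Chart.yt Chart.y
  rw [← Finset.prod_pow_eq_pow_sum, Units.coe_prod, ← Finset.prod_mul_distrib]
  refine Finset.prod_congr rfl fun i _ => ?_
  split_ifs
  · rfl
  · simp

theorem Chart.yt_mem (c : Chart k K N) (ρ : ℕ) (W : Fin N → ℕ) (e : ℕ) :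
    c.yt ρ W e ∈ c.blB ρ W := by
  unfold Chart.yt
  refine prod_mem fun i _ => ?_
  split_ifs
  · exact resBl1_x_mem c ρ W i
  · exact one_mem _

theorem Chart.Good.blA_y_self (h : c.Good A ρ) (W : Fin N → ℕ) (i₀ : Fin N) (ξ : (LL K)ˣ) :
    (c.blA ρ W i₀ ξ).y ρ = (tau K ρ : LL K) := by
  unfold Chart.y
  rw [Finset.prod_eq_single i₀]
  · simp [Chart.blA]
  · intro i _ hi
    rw [if_neg]
    intro h1
    simp only [Chart.blA, Function.update_of_ne hi] at h1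
    exact lt_irrefl _ (h.lt i ρ h1)
  · intro h1
    exact absurd (Finset.mem_univ _) h1

theorem resBl1_xi_unit {W : Fin N → ℕ} {i₀ : Fin N} {ξ : (LL K)ˣ}
    (hξ : (ξ : LL K) = c.t i₀ * (((tau K ρ)⁻¹ ^ W i₀ : (LL K)ˣ) : LL K)) :
    UnitIn (c.blA ρ W i₀ ξ).B (ξ : LL K) :=
  resBl1_unit_away (hξ ▸ resBl1_x_mem c ρ W i₀)

theorem resBl1_le_blA (c : Chart k K N) (ρ : ℕ) (W : Fin N → ℕ) (i₀ : Fin N) (ξ : (LL K)ˣ) :
    c.blB ρ W ≤ (c.blA ρ W i₀ ξ).B := le_away ξ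

theorem resBl1_yt {W : Fin N → ℕ} {i₀ : Fin N} {ξ : (LL K)ˣ}
    (hξ : (ξ : LL K) = c.t i₀ * (((tau K ρ)⁻¹ ^ W i₀ : (LL K)ˣ) : LL K)) {e : ℕ} (he : e ≠ ρ) :
    ∃ υ : (LL K)ˣ, UnitIn (c.blA ρ W i₀ ξ).B (υ : LL K) ∧
      c.yt ρ W e = υ * (c.blA ρ W i₀ ξ).y e := by
  refine ⟨if c.lab i₀ = some e then ξ else 1, ?_, ?_⟩
  · split_ifs
    · exact resBl1_xi_unit hξ
    · exact unitIn_one
  · unfold Chart.yt Chart.y
    rw [← Finset.mul_prod_erase _ _ (Finset.mem_univ i₀),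
      ← Finset.mul_prod_erase _ _ (Finset.mem_univ i₀)]
    have h1 : ¬ (c.blA ρ W i₀ ξ).lab i₀ = some e := by
      simp only [Chart.blA, Function.update_self, Option.some.injEq]
      exact he.symm
    rw [if_neg h1, one_mul]
    congr 1
    · split_ifs
      · exact hξ.symm
      · rfl
    · refine Finset.prod_congr rfl fun i hi => ?_
      have hi' : i ≠ i₀ := Finset.ne_of_mem_erase hi
      simp only [Chart.blA, Function.update_of_ne hi']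

theorem Chart.Good.blA_y (h : c.Good A ρ) {W : Fin N → ℕ} {i₀ : Fin N} {ξ : (LL K)ˣ}
    (hξ : (ξ : LL K) = c.t i₀ * (((tau K ρ)⁻¹ ^ W i₀ : (LL K)ˣ) : LL K)) {e : ℕ} (he : e ≠ ρ) :
    ∃ υ, UnitIn (c.blA ρ W i₀ ξ).B υ ∧ (c.blA ρ W i₀ ξ).y e = υ * c.yt ρ W e := by
  have _ := h.inj
  obtain ⟨υ, hυ, hy⟩ := resBl1_yt hξ he
  refine ⟨((υ⁻¹ : (LL K)ˣ) : LL K), resBl1_unit_inv hυ, ?_⟩
  rw [hy, Units.inv_mul_cancel_left]

theorem Chart.Good.dom_blA (h : c.Good A ρ) {W : Fin N → ℕ} {i₀ : Fin N} {ξ : (LL K)ˣ}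
    (hξ : (ξ : LL K) = c.t i₀ * (((tau K ρ)⁻¹ ^ W i₀ : (LL K)ˣ) : LL K)) :
    c.Dom ρ (c.blA ρ W i₀ ξ) (ρ + 1) := by
  refine Chart.dom_of_y ((resBl1_le_blB c ρ W).trans (resBl1_le_blA c ρ W i₀ ξ)) fun e he => ?_
  obtain ⟨υ, hυ, hy⟩ := resBl1_yt hξ he.ne
  have h1 : c.y e = (υ * (c.blA ρ W i₀ ξ).y e) *
      (c.blA ρ W i₀ ξ).y ρ ^ (∑ i, if c.lab i = some e then W i else 0) := by
    rw [← hy, h.blA_y_self, h.yt_eq, mul_assoc, ← Units.val_pow_eq_pow_val, ← Units.val_mul,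
      ← mul_pow, inv_mul_cancel, one_pow, Units.val_one, mul_one]
  rw [h1]
  exact ((Chart.mono_of_unit hυ).mul (Chart.mono_y (by omega))).mul
    ((Chart.mono_y (by omega)).pow _)

theorem resBl1_blA_eq (c : Chart k K N) (ρ : ℕ) (W : Fin N → ℕ) (i₀ : Fin N) (ξ : (LL K)ˣ) :
    (c.blA ρ W i₀ ξ).B = Algebra.adjoin k ((c.B : Set (LL K)) ∪ (({(tau K ρ : LL K)} ∪
      Set.range fun i => c.t i * (((tau K ρ)⁻¹ ^ W i : (LL K)ˣ) : LL K)) ∪
        {((ξ⁻¹ : (LL K)ˣ) : LL K)})) := by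
  apply le_antisymm
  · refine away_le (Algebra.adjoin_mono ?_) (Algebra.subset_adjoin (Or.inr (Or.inr rfl)))
    exact Set.union_subset_union_right _ Set.subset_union_left
  · refine Algebra.adjoin_le ?_
    rintro z (hz | (hz | ⟨i, rfl⟩) | hz)
    · exact resBl1_le_blA c ρ W i₀ ξ (resBl1_le_blB c ρ W hz)
    · rw [hz]
      exact resBl1_le_blA c ρ W i₀ ξ (resBl1_tau_mem c ρ W)
    · exact resBl1_le_blA c ρ W i₀ ξ (resBl1_x_mem c ρ W i)
    · rw [hz]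
      exact inv_mem_away ξ

theorem resBl1_fg (h : c.Good A ρ) {U : Set (LL K)} (hU : U.Finite)
    (hU' : ∀ z ∈ U, ∃ γ, Below (ρ + 1) γ ∧ IsH γ z) :
    ∃ s : Finset (LL K), (∀ z ∈ s, ∃ γ, Below (ρ + 1) γ ∧ IsH γ z) ∧
      Algebra.adjoin k ((c.B : Set (LL K)) ∪ U) = Algebra.adjoin k s := by
  classical
  obtain ⟨s, hs, hB⟩ := h.fg
  refine ⟨s ∪ hU.toFinset, ?_, ?_⟩
  · intro z hz
    rcases Finset.mem_union.1 hz with hz | hz
    · obtain ⟨γ, h1, h2⟩ := hs z hz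
      exact ⟨γ, resBl1_below_succ h1, h2⟩
    · exact hU' z (hU.mem_toFinset.1 hz)
  · rw [hB, Finset.coe_union, Set.Finite.coe_toFinset, Algebra.adjoin_union, Algebra.adjoin_union,
      Algebra.adjoin_eq]

/-- `Unr.extend` with `U = {τ, t i * τ ^ (-W i), ξ⁻¹}`; `t i = (t i * τ ^ (-W i)) * τ ^ W i`. -/
theorem Chart.Good.blA (h : c.Good A ρ) {W : Fin N → ℕ} {i₀ : Fin N} (hW : 0 < W i₀)
    {ξ : (LL K)ˣ} (hξ : (ξ : LL K) = c.t i₀ * (((tau K ρ)⁻¹ ^ W i₀ : (LL K)ˣ) : LL K)) :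
    (c.blA ρ W i₀ ξ).Good A (ρ + 1) := by
  have hle : c.B ≤ (c.blA ρ W i₀ ξ).B := (resBl1_le_blB c ρ W).trans (resBl1_le_blA c ρ W i₀ ξ)
  have ht0 : (c.blA ρ W i₀ ξ).t i₀ = (tau K ρ : LL K) := by simp [Chart.blA]
  have ht1 : ∀ i, i ≠ i₀ →
      (c.blA ρ W i₀ ξ).t i = c.t i * (((tau K ρ)⁻¹ ^ W i : (LL K)ˣ) : LL K) := fun i hi => by
    simp only [Chart.blA, Function.update_of_ne hi]
  have hu0 : (c.blA ρ W i₀ ξ).u ρ = ξ := by simp [Chart.blA]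
  have hu1 : ∀ e, e ≠ ρ → (c.blA ρ W i₀ ξ).u e = c.u e := fun e he => by
    simp only [Chart.blA, Function.update_of_ne he]
  have hl0 : (c.blA ρ W i₀ ξ).lab i₀ = some ρ := by simp [Chart.blA]
  have hl1 : ∀ i, i ≠ i₀ → (c.blA ρ W i₀ ξ).lab i = c.lab i := fun i hi => by
    simp only [Chart.blA, Function.update_of_ne hi]
  have htm : ∀ i, (c.blA ρ W i₀ ξ).t i ∈ (c.blA ρ W i₀ ξ).B := fun i => by
    by_cases hi : i = i₀
    · rw [hi, ht0]
      exact resBl1_le_blA c ρ W i₀ ξ (resBl1_tau_mem c ρ W)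
    · rw [ht1 i hi]
      exact resBl1_le_blA c ρ W i₀ ξ (resBl1_x_mem c ρ W i)
  have hum : ∀ e < ρ + 1, UnitIn (c.blA ρ W i₀ ξ).B ((c.blA ρ W i₀ ξ).u e : LL K) :=
    fun e he => by
    by_cases h1 : e = ρ
    · rw [h1, hu0]
      exact resBl1_xi_unit hξ
    · rw [hu1 e h1]
      exact (h.uunit e (by omega)).mono hle
  have hτT : (tau K ρ : LL K) ∈ (c.blA ρ W i₀ ξ).T (ρ + 1) := Or.inl ⟨i₀, ht0⟩
  have hξT : (ξ : LL K) ∈ (c.blA ρ W i₀ ξ).T (ρ + 1) := Or.inr ⟨ρ, by omega, by rw [hu0]⟩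
  have hxT : ∀ i, c.t i * (((tau K ρ)⁻¹ ^ W i : (LL K)ˣ) : LL K) ∈
      (c.blA ρ W i₀ ξ).T (ρ + 1) := fun i => by
    by_cases hi : i = i₀
    · rw [hi, ← hξ]
      exact hξT
    · exact Or.inl ⟨i, ht1 i hi⟩
  refine ⟨?_, fun a ha => hle (h.base a ha), htm, ?_, hum, ?_, ?_, ?_, ?_, ?_⟩
  · rw [resBl1_blA_eq]
    refine resBl1_fg h (((Set.finite_singleton _).union (Set.finite_range _)).union
      (Set.finite_singleton _)) ?_
    rintro z ((hz | ⟨i, rfl⟩) | hz)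
    · rw [hz]
      exact ⟨_, resBl1_below_single ρ, isH_tau ρ⟩
    · obtain ⟨γ, h1, -, h2⟩ := resBl1_x_deg h W i
      exact ⟨γ, h2, h1⟩
    · obtain ⟨γ, h1, -, h2⟩ := resBl1_x_deg h W i₀
      rw [hz]
      exact ⟨-γ, resBl1_below_neg h2, IsH.inv (hξ ▸ h1)⟩
  · intro i
    by_cases hi : i = i₀
    · rw [hi, ht0]
      exact ⟨_, isH_tau ρ⟩
    · rw [ht1 i hi]
      obtain ⟨γ, h1, -⟩ := resBl1_x_deg h W i
      exact ⟨γ, h1⟩
  · intro e he
    by_cases h1 : e = ρ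
    · rw [h1, hu0, hξ]
      obtain ⟨γ, h2, h3, h4⟩ := resBl1_x_deg h W i₀
      exact ⟨γ, h2, by omega, h4⟩
    · rw [hu1 e h1]
      exact h.udeg e (by omega)
  · refine h.unr.extend (resBl1_blA_eq c ρ W i₀ ξ) ?_ ?_ ?_
    · rintro z (⟨i, rfl⟩ | ⟨e, he, rfl⟩)
      · exact htm i
      · exact (hum e he).1
    · rintro z (⟨i, rfl⟩ | ⟨e, he, rfl⟩) -
      · rw [← resBl1_x_mul c ρ W i]
        exact mul_mem (Algebra.subset_adjoin (hxT i)) (pow_mem (Algebra.subset_adjoin hτT) _)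
      · exact Algebra.subset_adjoin (Or.inr ⟨e, by omega, by rw [hu1 e he.ne]⟩)
    · rintro z ((hz | ⟨i, rfl⟩) | hz)
      · rw [hz]
        exact Or.inl hτT
      · exact Or.inl (hxT i)
      · rw [hz]
        exact Or.inr ⟨ξ, Algebra.subset_adjoin (Or.inr hξT), Units.mul_inv ξ⟩
  · intro i j e hi hj
    by_cases h1 : i = i₀
    · by_cases h2 : j = i₀
      · rw [h1, h2]
      · rw [h1, hl0] at hi
        rw [hl1 j h2, ← hi] at hj
        exact absurd (h.lt j ρ hj) (lt_irrefl _)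
    · by_cases h2 : j = i₀
      · rw [h2, hl0] at hj
        rw [hl1 i h1, ← hj] at hi
        exact absurd (h.lt i ρ hi) (lt_irrefl _)
      · rw [hl1 i h1] at hi
        rw [hl1 j h2] at hj
        exact h.inj i j e hi hj
  · intro i e hi
    by_cases h1 : i = i₀
    · rw [h1, hl0, Option.some.injEq] at hi
      omega
    · rw [hl1 i h1] at hi
      exact (h.lt i e hi).trans (Nat.lt_succ_self ρ)
  · intro e he
    by_cases h1 : e = ρ
    · rw [h1, ← h.blA_y_self W i₀ ξ]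
      exact Chart.mono_y (Nat.lt_succ_self ρ)
    · exact (h.dom_blA hξ).2 _ (h.tauMono e (by omega))

theorem Chart.blI_y (c : Chart k K N) (ρ e : ℕ) : (c.blI ρ).y e = c.y e := rfl

theorem Chart.le_blT (c : Chart k K N) (ρ : ℕ) : c.B ≤ c.blT ρ := by
  exact fun _ hz => Algebra.subset_adjoin (Or.inl hz)

theorem Chart.unitIn_blT (c : Chart k K N) (ρ : ℕ) : UnitIn (c.blT ρ) (tau K ρ : LL K) := by
  exact unitIn_coe.2 ⟨Algebra.subset_adjoin (Or.inr (Or.inl rfl)),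
    Algebra.subset_adjoin (Or.inr (Or.inr rfl))⟩

theorem Chart.blT_le {S : Subalgebra k (LL K)} (h : c.B ≤ S) (h' : UnitIn S (tau K ρ : LL K)) :
    c.blT ρ ≤ S := by
  refine Algebra.adjoin_le ?_
  rintro z (hz | hz | hz)
  · exact h hz
  · rw [hz]
    exact h'.1
  · rw [hz]
    exact (unitIn_coe.1 h').2

theorem Chart.dom_blI (c : Chart k K N) (ρ : ℕ) : c.Dom ρ (c.blI ρ) (ρ + 1) := by
  refine Chart.dom_of_y (c.le_blT ρ) fun e he => ?_
  rw [← c.blI_y ρ e]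
  exact Chart.mono_y (by omega)

theorem Chart.Good.blI (h : c.Good A ρ) : (c.blI ρ).Good A (ρ + 1) := by
  have hle : c.B ≤ (c.blI ρ).B := c.le_blT ρ
  have hu0 : (c.blI ρ).u ρ = tau K ρ := by simp [Chart.blI]
  have hu1 : ∀ e, e ≠ ρ → (c.blI ρ).u e = c.u e := fun e he => by
    simp only [Chart.blI, Function.update_of_ne he]
  have hum : ∀ e < ρ + 1, UnitIn (c.blI ρ).B ((c.blI ρ).u e : LL K) := fun e he => by
    by_cases h1 : e = ρ
    · rw [h1, hu0]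
      exact c.unitIn_blT ρ
    · rw [hu1 e h1]
      exact (h.uunit e (by omega)).mono hle
  have hτT : (tau K ρ : LL K) ∈ (c.blI ρ).T (ρ + 1) := Or.inr ⟨ρ, by omega, by rw [hu0]⟩
  refine ⟨?_, fun a ha => hle (h.base a ha), fun i => hle (h.tmem i), h.thom, hum, ?_, ?_, h.inj,
    fun i e hi => (h.lt i e hi).trans (Nat.lt_succ_self ρ), ?_⟩
  · refine resBl1_fg h (Set.toFinite _) ?_
    rintro z (hz | hz)
    · rw [hz]
      exact ⟨_, resBl1_below_single ρ, isH_tau ρ⟩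
    · rw [hz]
      exact ⟨_, resBl1_below_neg (resBl1_below_single ρ), (isH_tau ρ).inv⟩
  · intro e he
    by_cases h1 : e = ρ
    · rw [h1, hu0]
      exact ⟨_, isH_tau ρ, by simp, resBl1_below_single ρ⟩
    · rw [hu1 e h1]
      exact h.udeg e (by omega)
  · refine h.unr.extend (U := {(tau K ρ : LL K), (((tau K ρ)⁻¹ : (LL K)ˣ) : LL K)}) rfl ?_ ?_ ?_
    · rintro z (⟨i, rfl⟩ | ⟨e, he, rfl⟩)
      · exact hle (h.tmem i)
      · exact (hum e he).1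
    · rintro z (⟨i, rfl⟩ | ⟨e, he, rfl⟩) -
      · exact Algebra.subset_adjoin (Or.inl ⟨i, rfl⟩)
      · exact Algebra.subset_adjoin (Or.inr ⟨e, by omega, by rw [hu1 e he.ne]⟩)
    · rintro z (hz | hz)
      · rw [hz]
        exact Or.inl hτT
      · rw [hz]
        exact Or.inr ⟨tau K ρ, Algebra.subset_adjoin (Or.inr hτT), Units.mul_inv _⟩
  · intro e he
    by_cases h1 : e = ρ
    · rw [h1]
      exact Chart.mono_of_unit (c.unitIn_blT ρ)
    · exact (c.dom_blI ρ).2 _ (h.tauMono e (by omega))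

/-- `Unr.extend` with `U = {τ, τ⁻¹, (t i₀)⁻¹}`, where `t i₀ = ξ * τ ^ W i₀` is a unit of the ambient
ring: `away B' F' = adjoin (away B F ∪ U)`. -/
theorem Chart.Good.gen_blA (h : c.Good A ρ) {W : Fin N → ℕ} {i₀ : Fin N} {ξ : (LL K)ˣ}
    (hξ : (ξ : LL K) = c.t i₀ * (((tau K ρ)⁻¹ ^ W i₀ : (LL K)ˣ) : LL K)) {F υ : (LL K)ˣ}
    (hF : (F : LL K) ∈ c.B) (hυ : UnitIn (c.blA ρ W i₀ ξ).B (υ : LL K)) {D M : ℕ} (hD : 0 < D)
    (hM : 0 < M) {T : Set (LL K)} (hT : ∀ z ∈ T, z ∈ c.B) (hU : Unr (away c.B F) T) :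
    Unr (away (c.blA ρ W i₀ ξ).B (tau K ρ ^ D * υ * F ^ M)) (T ∪ {(tau K ρ : LL K)}) := by
  have hle : c.B ≤ (c.blA ρ W i₀ ξ).B := (resBl1_le_blB c ρ W).trans (resBl1_le_blA c ρ W i₀ ξ)
  have hτ : (tau K ρ : LL K) ∈ (c.blA ρ W i₀ ξ).B :=
    resBl1_le_blA c ρ W i₀ ξ (resBl1_tau_mem c ρ W)
  have hle' : (c.blA ρ W i₀ ξ).B ≤ away (c.blA ρ W i₀ ξ).B (tau K ρ ^ D * υ * F ^ M) :=
    le_away _
  have hG : UnitIn (away (c.blA ρ W i₀ ξ).B (tau K ρ ^ D * υ * F ^ M))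
      ((tau K ρ ^ D * υ * F ^ M : (LL K)ˣ) : LL K) := by
    refine resBl1_unit_away ?_
    rw [Units.val_mul, Units.val_mul, Units.val_pow_eq_pow_val, Units.val_pow_eq_pow_val]
    exact mul_mem (mul_mem (pow_mem hτ _) hυ.1) (pow_mem (hle hF) _)
  rw [Units.val_mul, Units.val_mul, Units.val_pow_eq_pow_val, Units.val_pow_eq_pow_val] at hG
  have hτu : UnitIn (away (c.blA ρ W i₀ ξ).B (tau K ρ ^ D * υ * F ^ M)) (tau K ρ : LL K) :=
    resBl1_unit_of_pow (hle' hτ) hD (UnitIn.of_mul (hle' (pow_mem hτ _)) (hle' hυ.1)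
      (UnitIn.of_mul (hle' (mul_mem (pow_mem hτ _) hυ.1)) (hle' (pow_mem (hle hF) _)) hG))
  have hFu : UnitIn (away (c.blA ρ W i₀ ξ).B (tau K ρ ^ D * υ * F ^ M)) (F : LL K) := by
    rw [mul_comm _ ((F : LL K) ^ M)] at hG
    exact resBl1_unit_of_pow (hle' (hle hF)) hM
      (UnitIn.of_mul (hle' (pow_mem (hle hF) _)) (hle' (mul_mem (pow_mem hτ _) hυ.1)) hG)
  have ht : ((ξ * tau K ρ ^ W i₀ : (LL K)ˣ) : LL K) = c.t i₀ := by
    rw [Units.val_mul, Units.val_pow_eq_pow_val, hξ, resBl1_x_mul]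
  refine hU.extend (U := {(tau K ρ : LL K), (((tau K ρ)⁻¹ : (LL K)ˣ) : LL K),
    (((ξ * tau K ρ ^ W i₀)⁻¹ : (LL K)ˣ) : LL K)}) ?_ ?_ ?_ ?_
  · apply le_antisymm
    · have h1 : ∀ S : Subalgebra k (LL K), away c.B F ≤ S → (tau K ρ : LL K) ∈ S →
          (((tau K ρ)⁻¹ : (LL K)ˣ) : LL K) ∈ S →
          (((ξ * tau K ρ ^ W i₀)⁻¹ : (LL K)ˣ) : LL K) ∈ S →
          away (c.blA ρ W i₀ ξ).B (tau K ρ ^ D * υ * F ^ M) ≤ S := by
        intro S h1 h2 h3 h4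
        have h5 : c.B ≤ S := (le_away F).trans h1
        have h6 : (c.blA ρ W i₀ ξ).B ≤ S := by
          refine away_le (bl_le (x := c.t) (W := W) (s := tau K ρ) h5 h2 fun i => ?_) ?_
          · unfold blx
            rw [Units.val_pow_eq_pow_val]
            exact mul_mem (h5 (h.tmem i)) (pow_mem h3 _)
          · have h7 : ξ⁻¹ = (ξ * tau K ρ ^ W i₀)⁻¹ * tau K ρ ^ W i₀ := by
              rw [mul_inv, inv_mul_cancel_right]
            rw [h7, Units.val_mul, Units.val_pow_eq_pow_val]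
            exact mul_mem h4 (pow_mem h2 _)
        refine away_le h6 ?_
        rw [mul_inv, mul_inv, ← inv_pow, ← inv_pow, Units.val_mul, Units.val_mul,
          Units.val_pow_eq_pow_val, Units.val_pow_eq_pow_val]
        exact mul_mem (mul_mem (pow_mem h3 _) (h6 (unitIn_coe.1 hυ).2))
          (pow_mem (h1 (inv_mem_away F)) _)
      exact h1 _ (fun _ hz => Algebra.subset_adjoin (Or.inl hz))
        (Algebra.subset_adjoin (Or.inr (Or.inl rfl)))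
        (Algebra.subset_adjoin (Or.inr (Or.inr (Or.inl rfl))))
        (Algebra.subset_adjoin (Or.inr (Or.inr (Or.inr rfl))))
    · refine Algebra.adjoin_le ?_
      rintro z (hz | hz | hz | hz)
      · exact away_le (hle.trans hle') (unitIn_coe.1 hFu).2 hz
      · rw [hz]
        exact hτu.1
      · rw [hz]
        exact (unitIn_coe.1 hτu).2
      · rw [hz, mul_inv, ← inv_pow, Units.val_mul, Units.val_pow_eq_pow_val]
        exact mul_mem (hle' (unitIn_coe.1 (resBl1_xi_unit hξ)).2) (pow_mem (unitIn_coe.1 hτu).2 _)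
  · rintro z (hz | hz)
    · exact hle' (hle (hT z hz))
    · rw [hz]
      exact hτu.1
  · exact fun z hz _ => Algebra.subset_adjoin (Or.inl hz)
  · rintro z (hz | hz | hz)
    · exact Or.inl (Or.inr hz)
    · rw [hz]
      exact Or.inr ⟨tau K ρ, Algebra.subset_adjoin (Or.inr (Or.inr rfl)), Units.mul_inv _⟩
    · rw [hz]
      refine Or.inr ⟨c.t i₀, Algebra.subset_adjoin (Or.inl (le_away F (h.tmem i₀))), ?_⟩
      rw [← ht]
      exact Units.mul_inv _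

theorem Chart.gen_blI {F υ : (LL K)ˣ} (hF : (F : LL K) ∈ c.B)
    (hυ : UnitIn (c.blI ρ).B (υ : LL K)) {M : ℕ} (hM : 0 < M) {T : Set (LL K)}
    (hT : ∀ z ∈ T, z ∈ c.B) (hU : Unr (away c.B F) T) :
    Unr (away (c.blI ρ).B (υ * F ^ M)) (T ∪ {(tau K ρ : LL K)}) := by
  have hle : c.B ≤ (c.blI ρ).B := c.le_blT ρ
  have hle' : (c.blI ρ).B ≤ away (c.blI ρ).B (υ * F ^ M) := le_away _
  have hG : UnitIn (away (c.blI ρ).B (υ * F ^ M)) ((υ * F ^ M : (LL K)ˣ) : LL K) := by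
    refine resBl1_unit_away ?_
    rw [Units.val_mul, Units.val_pow_eq_pow_val]
    exact mul_mem hυ.1 (pow_mem (hle hF) _)
  rw [Units.val_mul, Units.val_pow_eq_pow_val] at hG
  have hτu : UnitIn (away (c.blI ρ).B (υ * F ^ M)) (tau K ρ : LL K) := (c.unitIn_blT ρ).mono hle'
  have hFu : UnitIn (away (c.blI ρ).B (υ * F ^ M)) (F : LL K) := by
    rw [mul_comm _ ((F : LL K) ^ M)] at hG
    exact resBl1_unit_of_pow (hle' (hle hF)) hM
      (UnitIn.of_mul (hle' (pow_mem (hle hF) _)) (hle' hυ.1) hG)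
  refine hU.extend (U := {(tau K ρ : LL K), (((tau K ρ)⁻¹ : (LL K)ˣ) : LL K)}) ?_ ?_ ?_ ?_
  · apply le_antisymm
    · have h1 : ∀ S : Subalgebra k (LL K), away c.B F ≤ S → (tau K ρ : LL K) ∈ S →
          (((tau K ρ)⁻¹ : (LL K)ˣ) : LL K) ∈ S → away (c.blI ρ).B (υ * F ^ M) ≤ S := by
        intro S h1 h2 h3
        have h6 : (c.blI ρ).B ≤ S :=
          Chart.blT_le ((le_away F).trans h1) (unitIn_coe.2 ⟨h2, h3⟩)
        refine away_le h6 ?_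
        rw [mul_inv, ← inv_pow, Units.val_mul, Units.val_pow_eq_pow_val]
        exact mul_mem (h6 (unitIn_coe.1 hυ).2) (pow_mem (h1 (inv_mem_away F)) _)
      exact h1 _ (fun _ hz => Algebra.subset_adjoin (Or.inl hz))
        (Algebra.subset_adjoin (Or.inr (Or.inl rfl)))
        (Algebra.subset_adjoin (Or.inr (Or.inr rfl)))
    · refine Algebra.adjoin_le ?_
      rintro z (hz | hz | hz)
      · exact away_le (hle.trans hle') (unitIn_coe.1 hFu).2 hz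
      · rw [hz]
        exact hτu.1
      · rw [hz]
        exact (unitIn_coe.1 hτu).2
  · rintro z (hz | hz)
    · exact hle' (hle (hT z hz))
    · rw [hz]
      exact hτu.1
  · exact fun z hz _ => Algebra.subset_adjoin (Or.inl hz)
  · rintro z (hz | hz)
    · exact Or.inl (Or.inr hz)
    · rw [hz]
      exact Or.inr ⟨tau K ρ, Algebra.subset_adjoin (Or.inr (Or.inr rfl)), Units.mul_inv _⟩

end Pool.Agent.Lib.MP_4287a9_ag.Res
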