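import Pool.Agent.Lib.MP_4287a9_ag.ResBl1

/-! Certificates after the blow-up. -/

namespace Pool.Agent.Lib.MP_4287a9_ag.Res

variable {k K : Type} [Field k] [Field K] [Algebra k K] {N : ℕ}

variable {A : Amb k K N} {ρ : ℕ} {c : Chart k K N}

theorem resBl2_sg (γ : Gam) (f : K) (ρ D : ℕ) :
    sg (-(γ + Pi.single ρ (D : ℤ))) f =
      sg (-γ) f * (((tau K ρ)⁻¹ ^ D : (LL K)ˣ) : LL K) := by
  rw [tau, hu_inv, hu_pow, coe_hu, sg_mul, inv_one, one_pow, Units.val_one, mul_one]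
  congr 1
  ext e
  by_cases h : e = ρ
  · subst h
    simp
    ring
  · simp [h]

theorem Iset_add (γ : Gam) (I₀ : Set K) (ρ D : ℕ) :
    Iset (γ + Pi.single ρ (D : ℤ)) I₀ =
      (fun f => f * (((tau K ρ)⁻¹ ^ D : (LL K)ˣ) : LL K)) '' Iset γ I₀ := by
  ext z
  constructor
  · rintro ⟨f, hf, rfl⟩
    exact ⟨sg (-γ) f, ⟨f, hf, rfl⟩, (resBl2_sg γ f ρ D).symm⟩
  · rintro ⟨_, ⟨f, hf, rfl⟩, rfl⟩
    exact ⟨f, hf, (resBl2_sg γ f ρ D).symm⟩

/-- `mul_inv_pow_mem`. -/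
theorem Chart.CC.sub_blB {γ : Gam} {I₀ : Set K} {w : Fin N → ℚ} {fr : Fin N → Bool}
    (hc : c.CC ρ (Iset γ I₀) w fr) {D : ℕ} {W : Fin N → ℕ} (hW : ∀ i, (W i : ℚ) = D * w i) :
    ∀ f ∈ Iset (γ + Pi.single ρ (D : ℤ)) I₀, f ∈ c.blB ρ W := by
  rw [Iset_add]
  rintro _ ⟨g, hg, rfl⟩
  rw [Chart.blB_eq]
  exact mul_inv_pow_mem s_mem_bl blx_mem hW (d := 1) (by rw [mul_one])
    (Jw_le_of_le le_bl (hc.adm g hg))

theorem resBl2_fresh {δ : Derivation k (LL K) (LL K)} (h : Fresh ρ δ) : Fresh (ρ + 1) δ :=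
  fun e he => h e (Nat.le_of_succ_le he)

theorem resBl2_pres {δ : Derivation k (LL K) (LL K)} (h : Fresh ρ δ) (hP : Pres c.B δ) :
    Pres (c.blT ρ) δ := by
  refine Pres.adjoin ?_
  rintro z (hz | rfl | rfl)
  · exact c.le_blT ρ (hP z hz)
  · rw [h ρ le_rfl]
    exact zero_mem _
  · rw [← zpow_neg_one, deriv_zpow (h ρ le_rfl)]
    exact zero_mem _

theorem resBl2_span {S : Subalgebra k (LL K)} (hτ : (tau K ρ : LL K) ∈ S) (γ : Gam) (I₀ : Set K)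
    (D : ℕ) : ∀ f ∈ Iset γ I₀,
      f ∈ Submodule.span S (Iset (γ + Pi.single ρ (D : ℤ)) I₀) := by
  intro f hf
  have h1 : f = (tau K ρ : LL K) ^ D * (f * (((tau K ρ)⁻¹ ^ D : (LL K)ˣ) : LL K)) := by
    rw [mul_left_comm, ← Units.val_pow_eq_pow_val, ← Units.val_mul, ← mul_pow, mul_inv_cancel,
      one_pow, Units.val_one, mul_one]
  rw [h1, Iset_add]
  exact mul_mem_sub (pow_mem hτ D) (Submodule.subset_span ⟨f, hf, rfl⟩)

theorem resBl2_inv_pow {S : Subalgebra k (LL K)} {σ : (LL K)ˣ} (h : UnitIn S (σ : LL K)) (n : ℕ) :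
    UnitIn S ((σ⁻¹ ^ n : (LL K)ˣ) : LL K) := by
  rw [Units.val_pow_eq_pow_val]
  refine UnitIn.pow (unitIn_coe.2 ⟨(unitIn_coe.1 h).2, ?_⟩) n
  rw [inv_inv]
  exact h.1

theorem resBl2_unit [CharZero k] (hA : A.Good) (h : c.Good A ρ) {j : Fin N} {e : ℕ}
    (hj : c.lab j ≠ some e) (h1 : c.t j ∈ pr1 c.B (c.y e)) (h2 : c.y e ∈ pr1 c.B (c.t j)) :
    UnitIn c.B (c.t j) := by
  obtain ⟨a, ha, h3⟩ := mem_pr1.1 h1
  obtain ⟨a', ha', h4⟩ := mem_pr1.1 h2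
  have key : UnitIn c.B (c.y e) := by
    by_cases h5 : ∃ i, c.lab i = some e
    · obtain ⟨i, hi⟩ := h5
      obtain ⟨D, hD⟩ := h.exists_dual hA
      have hne : j ≠ i := fun h6 => hj (h6 ▸ hi)
      rw [h.y_eq hi] at h3 ⊢
      have h6 := congrArg (D j) h3
      rw [hD.dual, if_pos rfl, Derivation.leibniz, hD.dual, if_neg hne, smul_zero, zero_add,
        smul_eq_mul] at h6
      exact ⟨h.tmem i, D j a, hD.pres j a ha, h6.symm⟩
    · rw [Chart.y_eq_one fun i hi => h5 ⟨i, hi⟩]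
      exact unitIn_one
  rw [h4, mul_comm] at key
  exact UnitIn.of_mul (h.tmem j) ha' key

/-- If no `t i` of positive weight is a unit of `c.B`: `Cert.lift` with `b e = -Σ_(lab i = e) W i` for
`e ≠ ρ` and `b ρ = 1` (`y ρ = 1`); hypothesis `hb`: if `t j` and `y e` divide each other and
`lab j ≠ some e`, then `t j` is a unit (apply a dual derivation to `t j = a * t j'`). Then
`Cert.mono` to the chart (`Pres.away`, `blA_y`, `blA_y_self`, `yt_eq`); the coordinate `i₀` becomes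
the unit `ξ`. If some `t i` of positive weight is a unit, then `τ` is a unit of `blB`, so
`blB = blT`, and `Cert.mono` applies directly to the old certificate. -/
theorem Chart.CC.bnd_blA [CharZero k] (hA : A.Good) (h : c.Good A ρ) {γ : Gam} {I₀ : Set K}
    {w : Fin N → ℚ} {fr : Fin N → Bool} (hc : c.CC ρ (Iset γ I₀) w fr) {D : ℕ} (hD : 0 < D)
    {W : Fin N → ℕ} (hW : ∀ i, (W i : ℚ) = D * w i) {i₀ : Fin N} (hi : 0 < w i₀) {ξ : (LL K)ˣ}
    (hξ : (ξ : LL K) = c.t i₀ * (((tau K ρ)⁻¹ ^ W i₀ : (LL K)ˣ) : LL K)) :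
    (c.blA ρ W i₀ ξ).Bnd (ρ + 1) (Iset (γ + Pi.single ρ (D : ℤ)) I₀) (nu w fr) := by
  have hξB : (ξ : LL K) ∈ c.blB ρ W := by
    rw [hξ]
    exact blx_mem (S := c.B) (x := c.t) (W := W) (s := tau K ρ) i₀
  have hle : c.blB ρ W ≤ (c.blA ρ W i₀ ξ).B := le_away ξ
  have hτB : (tau K ρ : LL K) ∈ c.blB ρ W := s_mem_bl (S := c.B) (x := c.t) (W := W)
  have hB : c.B ≤ c.blB ρ W := le_bl (S := c.B) (x := c.t) (W := W) (s := tau K ρ)
  right
  by_cases hu : ∃ i, 0 < w i ∧ UnitIn c.B (c.t i)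
  · obtain ⟨i, hwi, hu⟩ := hu
    have hWi : 0 < W i := by
      have : (0 : ℚ) < W i := by
        rw [hW]
        exact mul_pos (by exact_mod_cast hD) hwi
      exact_mod_cast this
    have hτ : UnitIn (c.blB ρ W) (tau K ρ : LL K) := by
      obtain ⟨m, hm⟩ : ∃ m, W i = m + 1 := ⟨W i - 1, by omega⟩
      have h1 := blx_mul (x := c.t) (W := W) (s := tau K ρ) i
      have h2 := hu.mono hB
      rw [← h1, hm, pow_succ, ← mul_assoc, mul_comm] at h2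
      exact UnitIn.of_mul hτB (mul_mem (blx_mem (S := c.B) i) (pow_mem hτB m)) h2
    have hBT : c.blB ρ W = c.blT ρ := by
      refine le_antisymm ?_ (Chart.blT_le hB hτ)
      rw [Chart.blB_eq]
      exact bl_le (c.le_blT ρ) (c.unitIn_blT ρ).1 fun j =>
        mul_mem (c.le_blT ρ (h.tmem j)) (resBl2_inv_pow (c.unitIn_blT ρ) _).1
    refine ⟨c.t, w, fr, hc.cert.mono (hB.trans hle) (fun δ h1 h2 => ?_) (fun e => ?_)
      (resBl2_span (hle hτB) γ I₀ D) fun δ hδ => resBl2_fresh hδ,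
      Or.inr ⟨rfl, i, hwi, hu.mono (hB.trans hle)⟩⟩
    · exact Pres.away hξB (hBT ▸ resBl2_pres h1 h2)
    · by_cases he : e = ρ
      · subst he
        exact ⟨_, hτ.mono hle, by rw [h.blA_y_self, h.y_ge le_rfl, mul_one]⟩
      · obtain ⟨υ, hυ, h1⟩ := h.blA_y hξ he
        refine ⟨_, hυ.mul (resBl2_inv_pow (hτ.mono hle)
          (∑ i, if c.lab i = some e then W i else 0)), ?_⟩
        rw [h1, h.yt_eq]
        ring
  · have hcert := hc.cert.lift (s := tau K ρ) (G' := Fresh (ρ + 1)) hW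
      (fun δ hδ => ⟨hδ ρ le_rfl, fun n e he => by
        rw [Derivation.smul_apply, hδ e (Nat.le_of_succ_le he), smul_zero]⟩)
      (fun e => if e = ρ then 1 else -((∑ i, if c.lab i = some e then W i else 0 : ℕ) : ℤ))
      (fun j e hj _ h1 h2 => by
        by_cases hl : c.lab j = some e
        · rw [if_neg (h.lt j e hl).ne, Finset.sum_eq_single j, if_pos hl]
          · intro i _ hij
            exact if_neg fun h3 => hij (h.inj i j e h3 hl)
          · intro h3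
            exact absurd (Finset.mem_univ j) h3
        · exact absurd ⟨j, hj, resBl2_unit hA h hl h1 h2⟩ hu)
    refine ⟨blx c.t W (tau K ρ), w, fr, hcert.mono hle (fun δ _ h2 => Pres.away hξB h2)
      (fun e => ?_) (fun f hf => Submodule.subset_span (by rwa [Iset_add])) fun δ hδ => hδ,
      Or.inr ⟨rfl, i₀, hi, ?_⟩⟩
    · by_cases he : e = ρ
      · subst he
        refine ⟨1, unitIn_one, ?_⟩
        rw [h.blA_y_self, h.y_ge le_rfl, if_pos rfl, zpow_one, one_mul, one_mul]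
      · obtain ⟨υ, hυ, h1⟩ := h.blA_y hξ he
        refine ⟨υ, hυ, ?_⟩
        rw [h1, h.yt_eq, if_neg he, inv_pow_eq]
    · have h1 : blx c.t W (tau K ρ) i₀ = (ξ : LL K) := hξ.symm
      rw [h1]
      exact unitIn_coe.2 ⟨hle hξB, inv_mem_away ξ⟩

theorem Chart.bnd_blI {γ : Gam} {I₀ : Set K} {ν : Nu N}
    (hc : c.Triv (Iset γ I₀) ∨ ∃ w fr, c.CC ρ (Iset γ I₀) w fr ∧ ν < nu w fr) (D : ℕ) :
    (c.blI ρ).Bnd (ρ + 1) (Iset (γ + Pi.single ρ (D : ℤ)) I₀) ν := by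
  rcases hc with ⟨f, hf, hu⟩ | ⟨w, fr, hc, hν⟩
  · left
    refine ⟨f * (((tau K ρ)⁻¹ ^ D : (LL K)ˣ) : LL K), ?_,
      (hu.mono (c.le_blT ρ)).mul (resBl2_inv_pow (c.unitIn_blT ρ) D)⟩
    rw [Iset_add]
    exact ⟨f, hf, rfl⟩
  · right
    exact ⟨c.t, w, fr, hc.cert.mono (c.le_blT ρ) (fun δ h1 h2 => resBl2_pres h1 h2)
      (fun e => ⟨1, unitIn_one, (one_mul _).symm⟩) (resBl2_span (c.unitIn_blT ρ).1 γ I₀ D)
      fun δ hδ => resBl2_fresh hδ, Or.inl hν⟩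

end Pool.Agent.Lib.MP_4287a9_ag.Res
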