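import Pool.Agent.Lib.MP_4287a9_ag.ResBl1

/-! Gluing of the blow-up algebras. -/

namespace Pool.Agent.Lib.MP_4287a9_ag.Res

variable {k K : Type} [Field k] [Field K] [Algebra k K] {N : ℕ}

variable {A : Amb k K N} {ρ : ℕ}

open Classical in
/-- The blow-up algebra over the chart `l`. -/
noncomputable def Sys.Bt (S : Sys k K N) (ρ : ℕ) (W : Fin N → ℕ) (act : S.ι → Prop) (l : S.ι) :
    Subalgebra k (LL K) :=
  if act l then (S.ch l).blB ρ W else (S.ch l).blT ρ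

open Classical in
/-- The strict transform of the boundary over the chart `l`. -/
noncomputable def Sys.Yt (S : Sys k K N) (ρ : ℕ) (W : Fin N → ℕ) (act : S.ι → Prop) (l : S.ι)
    (e : ℕ) : LL K :=
  if act l then (S.ch l).yt ρ W e else (S.ch l).y e

/-- The charts in `act` carry the centre of minimal invariant `ν`. -/
structure Sys.Cen (S : Sys k K N) (ρ : ℕ) (I : Set (LL K)) (act : S.ι → Prop) (w : Fin N → ℚ)
    (ν : Nu N) : Prop where
  on : ∀ l, act l → ∃ fr, (S.ch l).CC ρ I w fr ∧ nu w fr = ν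
  off : ∀ l, ¬ act l → (S.ch l).Triv I ∨ ∃ w' fr', (S.ch l).CC ρ I w' fr' ∧ ν < nu w' fr'

theorem Sys.Good.ov_comm {S : Sys k K N} (h : S.Good A ρ) (l l' : S.ι) :
    S.ov l l' = S.ov l' l := by
  have key : ∀ l l' : S.ι, S.ov l l' ≤ S.ov l' l := fun l l' => by
    refine away_le (h.glue l' l) ?_
    rw [hu_inv, neg_zero, inv_div]
    exact le_away _ (h.div l' l)
  exact le_antisymm (key l l') (key l' l)

/-- A certificate of the chart `l'` is a certificate on the overlap, for the boundary of `l`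
(`Cert.mono`, `ov_comm`, `Pres.away`). -/
theorem Sys.Good.cert_ov {S : Sys k K N} (h : S.Good A ρ) (l l' : S.ι) {I : Set (LL K)}
    {x : Fin N → LL K} {w : Fin N → ℚ} {fr : Fin N → Bool}
    (hc : Cert (S.ch l').B (Fresh ρ) (S.ch l').y I x w fr) :
    Cert (S.ov l l') (Fresh ρ) (S.ch l).y I x w fr := by
  refine hc.mono (h.glue l l') (fun δ _ hδ => ?_) (fun e => ?_)
    (fun f hf => Submodule.subset_span hf) fun _ hδ => hδ
  · rw [h.ov_comm l l']
    exact hδ.away (h.div l' l)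
  · rw [h.ov_comm l l']
    exact h.yglue l' l e

theorem ResBl3_inv {L : Type} [CommRing L] [Algebra k L] {S' : Subalgebra k L} {x : Fin N → L}
    {W : Fin N → ℕ} {s : Lˣ} (h2 : (s : L) ∈ S') (h3 : ∀ i, blx x W s i ∈ S') {w : Fin N → ℚ}
    {D : ℕ} (hD : 0 < D) (hW : ∀ i, (W i : ℚ) = D * w i) {d : ℚ} (hd : 0 < d)
    (h1 : (1 : L) ∈ Jw S' x w d) : ((s⁻¹ : Lˣ) : L) ∈ S' := by
  have hp : ∀ m : ℕ, (1 : L) ∈ Jw S' x w (m * d) := fun m => by
    induction m with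
    | zero => exact one_mem_Jw _ _ (by simp)
    | succ m ih =>
      have := Jw_mul ih h1
      rwa [one_mul, show (m : ℚ) * d + d = ((m + 1 : ℕ) : ℚ) * d by push_cast; ring] at this
  obtain ⟨m, hm⟩ := exists_nat_ge (1 / d)
  have h4 : 1 ≤ (m : ℚ) * d := by rwa [div_le_iff₀ hd] at hm
  have h5 : (1 : ℚ) ≤ D := by exact_mod_cast hD
  have := mul_inv_pow_mem h2 h3 hW (n := 1) (d := m * d)
    (by rw [Nat.cast_one]; exact one_le_mul_of_one_le_of_one_le h5 h4) (hp m)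
  rwa [one_mul, pow_one] at this

theorem ResBl3_le_Bt (S : Sys k K N) (ρ : ℕ) (W : Fin N → ℕ) (act : S.ι → Prop) (l : S.ι) :
    (S.ch l).B ≤ S.Bt ρ W act l ∧ (tau K ρ : LL K) ∈ S.Bt ρ W act l := by
  unfold Sys.Bt
  split_ifs
  · rw [Chart.blB_eq]
    exact ⟨le_bl, s_mem_bl⟩
  · exact ⟨Chart.le_blT _ _, (Chart.unitIn_blT _ _).1⟩

theorem ResBl3_ov_le (S : Sys k K N) (ρ : ℕ) (W : Fin N → ℕ) (act : S.ι → Prop) (l l' : S.ι) :
    S.ov l l' ≤ away (S.Bt ρ W act l) (hu 0 (S.F l' / S.F l)) :=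
  away_le ((ResBl3_le_Bt S ρ W act l).1.trans (le_away _)) (inv_mem_away _)

theorem ResBl3_blx {S : Sys k K N} {ρ : ℕ} (W : Fin N → ℕ) {act : S.ι → Prop} {l : S.ι}
    (hl : act l) (i : Fin N) : blx (S.ch l).t W (tau K ρ) i ∈ S.Bt ρ W act l := by
  rw [Sys.Bt, if_pos hl, Chart.blB_eq]
  exact blx_mem i

theorem ResBl3_off {S : Sys k K N} {ρ : ℕ} (W : Fin N → ℕ) {act : S.ι → Prop} {l : S.ι}
    (hl : ¬ act l) : (((tau K ρ)⁻¹ : (LL K)ˣ) : LL K) ∈ S.Bt ρ W act l := by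
  rw [Sys.Bt, if_neg hl]
  exact (unitIn_coe.1 (Chart.unitIn_blT _ _)).2

theorem ResBl3_gcen {S : Sys k K N} (h : S.Good A ρ) (l l' : S.ι) {I : Set (LL K)}
    {w : Fin N → ℚ} {fr : Fin N → Bool} (hc : (S.ch l).CC ρ I w fr) :
    GCen (S.ov l l') (S.ch l).y I (S.ch l).t w fr := fun _ hq ht =>
  Chart.CC.isCen (h.good l) hc (le_away _) hq ht

/-- two active charts define the same filtration on the overlap -/
theorem ResBl3_Jw {S : Sys k K N} (h : S.Good A ρ) {I : Set (LL K)}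
    (hI : ∀ l, ∀ f ∈ I, f ∈ (S.ch l).B) {act : S.ι → Prop} {w : Fin N → ℚ} {ν : Nu N}
    (hc : S.Cen ρ I act w ν) {l l' : S.ι} (hl : act l) (hl' : act l') (d : ℚ) :
    Jw (S.ov l l') (S.ch l').t w d ≤ Jw (S.ov l l') (S.ch l).t w d := by
  obtain ⟨fr, h1, h2⟩ := hc.on l hl
  obtain ⟨fr', h1', h2'⟩ := hc.on l' hl'
  exact Jw_le_of_cert (fun e => le_away _ ((h.good l).y_mem e))
    (fun f hf => le_away _ (hI l f hf)) (h.cert_ov l l' h1'.cert)
    (fun i => le_away _ ((h.good l).tmem i)) (ResBl3_gcen h l l' h1) (h2'.trans h2.symm) d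

/-- an empty centre on the overlap makes the new variable invertible -/
theorem ResBl3_empty {S : Sys k K N} {act : S.ι → Prop} {w : Fin N → ℚ} {D : ℕ} (hD : 0 < D)
    {W : Fin N → ℕ} (hW : ∀ i, (W i : ℚ) = D * w i) {l : S.ι} (l' : S.ι) (hl : act l) {d : ℚ}
    (hd : 0 < d) (h1 : (1 : LL K) ∈ Jw (S.ov l l') (S.ch l).t w d) :
    (((tau K ρ)⁻¹ : (LL K)ˣ) : LL K) ∈ away (S.Bt ρ W act l) (hu 0 (S.F l' / S.F l)) :=
  ResBl3_inv (le_away _ (ResBl3_le_Bt S ρ W act l).2) (fun i => le_away _ (ResBl3_blx W hl i)) hD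
    hW hd (Jw_le_of_le (ResBl3_ov_le S ρ W act l l') h1)

/-- Let `Sv = away (Bt l) r ≥ ov l l'`. Both active: `Jw_le_of_cert` (with `CC.isCen` for `GCen`),
`mul_inv_pow_mem`. `l` active, `l'` not: `1 ∈ Jw (ov l l') t w 1` (`one_mem_Jw_of_cert`,
`one_mem_Jw_of_top`), so `τ⁻¹ ∈ Sv`. `l` not active: `τ⁻¹ ∈ Sv` is clear. -/
theorem Sys.Good.glue_Bt {S : Sys k K N} (h : S.Good A ρ) {I : Set (LL K)}
    (hI : ∀ l, ∀ f ∈ I, f ∈ (S.ch l).B) {act : S.ι → Prop} {w : Fin N → ℚ} {ν : Nu N}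
    (hc : S.Cen ρ I act w ν) {D : ℕ} (hD : 0 < D) {W : Fin N → ℕ}
    (hW : ∀ i, (W i : ℚ) = D * w i) (l l' : S.ι) :
    S.Bt ρ W act l' ≤ away (S.Bt ρ W act l) (hu 0 (S.F l' / S.F l)) := by
  have hov := ResBl3_ov_le S ρ W act l l'
  have hB := (h.glue l l').trans hov
  have hτ := le_away (hu 0 (S.F l' / S.F l)) (ResBl3_le_Bt S ρ W act l).2
  have hall : (((tau K ρ)⁻¹ : (LL K)ˣ) : LL K) ∈ away (S.Bt ρ W act l) (hu 0 (S.F l' / S.F l)) →
      S.Bt ρ W act l' ≤ away (S.Bt ρ W act l) (hu 0 (S.F l' / S.F l)) := fun hi => by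
    by_cases hl' : act l'
    · rw [Sys.Bt, if_pos hl', Chart.blB_eq]
      refine bl_le hB hτ fun i => ?_
      rw [blx, Units.val_pow_eq_pow_val]
      exact mul_mem (hB ((h.good l').tmem i)) (pow_mem hi _)
    · rw [Sys.Bt, if_neg hl']
      exact Chart.blT_le hB (unitIn_coe.2 ⟨hτ, hi⟩)
  by_cases hl : act l
  swap
  · exact hall (le_away _ (ResBl3_off W hl))
  obtain ⟨fr, h1, h2⟩ := hc.on l hl
  by_cases hl' : act l'
  · rw [Sys.Bt, if_pos hl', Chart.blB_eq]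
    refine bl_le hB hτ fun i => ?_
    rcases (h1.cert.nonneg i).lt_or_eq with hi | hi
    · exact mul_inv_pow_mem hτ (fun i => le_away _ (ResBl3_blx W hl i)) hW (hW i).le
        (Jw_le_of_le hov (ResBl3_Jw h hI hc hl hl' _ (self_mem_Jw _ _ hi)))
    · have h3 : W i = 0 := by
        have := hW i
        rw [← hi, mul_zero] at this
        exact_mod_cast this
      rw [blx, h3, pow_zero, Units.val_one, mul_one]
      exact hB ((h.good l').tmem i)
  · refine hall (ResBl3_empty hD hW l' hl one_pos ?_)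
    rcases hc.off l' hl' with ⟨f, hf, -, υ, hυ, h3⟩ | ⟨w', fr', h3, h4⟩
    · refine one_mem_Jw_of_top ?_ (fun i => le_away _ ((h.good l).tmem i))
        (ResBl3_gcen h l l' h1) 1
      rw [← h3, mul_comm]
      exact mul_mem_sub (h.glue l l' hυ) (Submodule.subset_span hf)
    · exact one_mem_Jw_of_cert (fun e => le_away _ ((h.good l).y_mem e))
        (fun f hf => le_away _ (hI l f hf)) (h.cert_ov l l' h3.cert)
        (fun i => le_away _ ((h.good l).tmem i)) (ResBl3_gcen h l l' h1) (h2 ▸ h4) 1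

theorem ResBl3_sum {c : Chart k K N} (h : c.Good A ρ) (W : Fin N → ℕ) {i : Fin N} {e : ℕ}
    (hi : c.lab i = some e) : (∑ j, if c.lab j = some e then W j else 0) = W i := by
  rw [Finset.sum_eq_single i (fun j _ hj => if_neg fun h' => hj (h.inj j i e h' hi))
    (fun h' => absurd (Finset.mem_univ i) h'), if_pos hi]

/-- different weights of a label: the centre is empty on the overlap -/
theorem ResBl3_lt [CharZero k] (hA : A.Good) {S : Sys k K N} (h : S.Good A ρ) {I : Set (LL K)}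
    (hI : ∀ l, ∀ f ∈ I, f ∈ (S.ch l).B) {act : S.ι → Prop} {w : Fin N → ℚ} {ν : Nu N}
    (hc : S.Cen ρ I act w ν) {D : ℕ} (hD : 0 < D) {W : Fin N → ℕ}
    (hW : ∀ i, (W i : ℚ) = D * w i) {l l' : S.ι} (hl : act l) (hl' : act l') {e : ℕ}
    (hlt : (∑ j, if (S.ch l).lab j = some e then W j else 0) <
      ∑ j, if (S.ch l').lab j = some e then W j else 0) :
    ∃ d : ℚ, 0 < d ∧ (1 : LL K) ∈ Jw (S.ov l l') (S.ch l).t w d := by
  have hD' : (0 : ℚ) < D := by exact_mod_cast hD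
  obtain ⟨fr, h1, -⟩ := hc.on l hl
  obtain ⟨i', hi'⟩ : ∃ i', (S.ch l').lab i' = some e := by
    by_contra h2
    push Not at h2
    rw [Finset.sum_eq_zero (s := Finset.univ) (f := fun j =>
      if (S.ch l').lab j = some e then W j else 0) fun j _ => if_neg (h2 j)] at hlt
    exact Nat.not_lt_zero _ hlt
  rw [ResBl3_sum (h.good l') W hi'] at hlt
  have h3 : 0 < w i' := by
    have h4 : (0 : ℚ) < W i' := by exact_mod_cast (Nat.zero_le _).trans_lt hlt
    rw [hW] at h4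
    exact (mul_pos_iff_of_pos_left hD').1 h4
  have h5 : (S.ch l).y e ∈ Jw (S.ov l l') (S.ch l).t w (w i') := by
    obtain ⟨υ, hυ, h6⟩ := h.yglue l' l e
    rw [← h.ov_comm l l'] at hυ
    rw [h6, (h.good l').y_eq hi']
    exact mul_mem_sub hυ.1 (ResBl3_Jw h hI hc hl hl' _ (self_mem_Jw _ _ h3))
  by_cases hb : ∃ b, (S.ch l).lab b = some e
  · obtain ⟨b, hb⟩ := hb
    rw [ResBl3_sum (h.good l) W hb] at hlt
    have h6 : w b < w i' := by
      have h4 : (W b : ℚ) < W i' := by exact_mod_cast hlt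
      rw [hW, hW] at h4
      exact lt_of_mul_lt_mul_left h4 hD'.le
    obtain ⟨δ, hδ⟩ := (h.good l).exists_dual hA
    rw [(h.good l).y_eq hb] at h5
    have h7 := deriv_mem_Jw (fun i _ => le_away _ ((h.good l).tmem i))
      ((hδ.pres b).away (h.div l l')) (h1.cert.nonneg b)
      (fun i hi => by rw [hδ.dual, if_neg (by rintro rfl; exact lt_irrefl _ hi)]) h5
    rw [hδ.dual, if_pos rfl] at h7
    exact ⟨_, sub_pos.2 h6, h7⟩
  · push Not at hb
    rw [Chart.y_eq_one hb] at h5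
    exact ⟨_, h3, h5⟩

theorem ResBl3_Yt {S : Sys k K N} (h : S.Good A ρ) (W : Fin N → ℕ) (act : S.ι → Prop) (l : S.ι)
    (e : ℕ) : ∃ a : ℕ, S.Yt ρ W act l e = (S.ch l).y e * (((tau K ρ)⁻¹ ^ a : (LL K)ˣ) : LL K) ∧
      (act l → a = ∑ j, if (S.ch l).lab j = some e then W j else 0) := by
  by_cases hl : act l
  · exact ⟨_, by rw [Sys.Yt, if_pos hl, (h.good l).yt_eq], fun _ => rfl⟩
  · exact ⟨0, by rw [Sys.Yt, if_neg hl, pow_zero, Units.val_one, mul_one], fun h' => absurd h' hl⟩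

/-- If `τ⁻¹ ∈ Sv` everything is clear from `yt_eq` and `yglue`. Otherwise both charts are active.
If the weights `a`, `a'` of the label `e` on `l`, `l'` agree, use `yt_eq`. If `a < a'`, the centre is
empty on the overlap: `y l' e = t' i' ∈ Jw t' w (w i') ≤ Jw t w (w i')`, so `y l e ∈ Jw t w (w i')`.
If `y l e = 1` we get `1 ∈ Jw t w (w i')`; if `y l e = t b` apply the dual derivation `D b`
(`deriv_mem_Jw` with `c = w b`) and get `1 ∈ Jw t w (w i' - w b)`; take powers (`Jw_mul`) to get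
`τ⁻¹ ∈ Sv`. The case `a' < a` is symmetric (`glue_Bt` for `l', l` shows that the two rings `Sv`
agree). -/
theorem Sys.Good.glue_Yt [CharZero k] (hA : A.Good) {S : Sys k K N} (h : S.Good A ρ)
    {I : Set (LL K)} (hI : ∀ l, ∀ f ∈ I, f ∈ (S.ch l).B) {act : S.ι → Prop} {w : Fin N → ℚ}
    {ν : Nu N} (hc : S.Cen ρ I act w ν) {D : ℕ} (hD : 0 < D) {W : Fin N → ℕ}
    (hW : ∀ i, (W i : ℚ) = D * w i) (l l' : S.ι) (e : ℕ) :
    ∃ υ, UnitIn (away (S.Bt ρ W act l) (hu 0 (S.F l' / S.F l))) υ ∧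
      S.Yt ρ W act l' e = υ * S.Yt ρ W act l e := by
  have hov := ResBl3_ov_le S ρ W act l l'
  have hτ := le_away (hu 0 (S.F l' / S.F l)) (ResBl3_le_Bt S ρ W act l).2
  obtain ⟨υ, hυ, h1⟩ := h.yglue l l' e
  obtain ⟨a, ha, ha'⟩ := ResBl3_Yt h W act l e
  obtain ⟨b, hb, hb'⟩ := ResBl3_Yt h W act l' e
  by_cases hi : (((tau K ρ)⁻¹ : (LL K)ˣ) : LL K) ∈ away (S.Bt ρ W act l) (hu 0 (S.F l' / S.F l))
  · refine ⟨υ * (tau K ρ : LL K) ^ a * (((tau K ρ)⁻¹ : (LL K)ˣ) : LL K) ^ b,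
      ((hυ.mono hov).mul ((unitIn_coe.2 ⟨hτ, hi⟩).pow a)).mul
        ((unitIn_coe.2 ⟨hi, by rwa [inv_inv]⟩).pow b), ?_⟩
    have h2 : (tau K ρ : LL K) ^ a * (((tau K ρ)⁻¹ : (LL K)ˣ) : LL K) ^ a = 1 := by
      rw [← mul_pow, Units.mul_inv, one_pow]
    rw [ha, hb, h1, Units.val_pow_eq_pow_val, Units.val_pow_eq_pow_val]
    linear_combination (-(υ * (S.ch l).y e * (((tau K ρ)⁻¹ : (LL K)ˣ) : LL K) ^ b)) * h2
  have hl : act l := by
    by_contra hl
    exact hi (le_away _ (ResBl3_off W hl))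
  have hl' : act l' := by
    by_contra hl'
    exact hi (h.glue_Bt hI hc hD hW l l' (ResBl3_off W hl'))
  have hab : a = b := by
    rw [ha' hl, hb' hl']
    by_contra hne
    rcases lt_or_gt_of_ne hne with h2 | h2
    · obtain ⟨d, hd, h3⟩ := ResBl3_lt hA h hI hc hD hW hl hl' h2
      exact hi (ResBl3_empty hD hW l' hl hd h3)
    · obtain ⟨d, hd, h3⟩ := ResBl3_lt hA h hI hc hD hW hl' hl h2
      rw [← h.ov_comm l l'] at h3
      exact hi (ResBl3_empty hD hW l' hl hd (ResBl3_Jw h hI hc hl hl' d h3))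
  exact ⟨υ, hυ.mono hov, by rw [ha, hb, h1, hab, mul_assoc]⟩

end Pool.Agent.Lib.MP_4287a9_ag.Res
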