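import Pool.Agent.Lib.MP_4287a9_ag.ResB1

/-! Relative valuation rings. -/

namespace Pool.Agent.Lib.MP_4287a9_ag.Res

variable {k K : Type} [Field k] [Field K] [Algebra k K] {N : ℕ}

variable {A : Amb k K N}

theorem ResW_add_unit {S : Subalgebra k K}
    (hloc : ∀ a ∈ S, ∀ b ∈ S, a + b = 1 → (a ≠ 0 ∧ a⁻¹ ∈ S) ∨ (b ≠ 0 ∧ b⁻¹ ∈ S)) {a b : K}
    (ha : a ∈ S) (hb : b ∈ S) (h0 : a + b ≠ 0) (h : (a + b)⁻¹ ∈ S) :
    (a ≠ 0 ∧ a⁻¹ ∈ S) ∨ (b ≠ 0 ∧ b⁻¹ ∈ S) := by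
  have key : ∀ c : K, c * (a + b)⁻¹ ≠ 0 ∧ (c * (a + b)⁻¹)⁻¹ ∈ S → c ≠ 0 ∧ c⁻¹ ∈ S := by
    rintro c ⟨h1, h2⟩
    refine ⟨left_ne_zero_of_mul h1, ?_⟩
    have e : c⁻¹ = (c * (a + b)⁻¹)⁻¹ * (a + b)⁻¹ := by
      rw [mul_inv, inv_inv, mul_assoc, mul_inv_cancel₀ h0, mul_one]
    rw [e]
    exact S.mul_mem h2 h
  exact (hloc _ (S.mul_mem ha h) _ (S.mul_mem hb h)
    (by rw [← add_mul, mul_inv_cancel₀ h0])).imp (key a) (key b)

theorem ResW_loc (hA : A.Good) {W : Subalgebra k K} (hW : W ∈ A.WW) :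
    ∀ a ∈ W, ∀ b ∈ W, a + b = 1 → (a ≠ 0 ∧ a⁻¹ ∈ W) ∨ (b ≠ 0 ∧ b⁻¹ ∈ W) := by
  have key : ∀ a ∈ W, ∀ b ∈ W, a + b = 1 → a ≠ 0 → a⁻¹ ∈ A.O →
      (a ≠ 0 ∧ a⁻¹ ∈ W) ∨ (b ≠ 0 ∧ b⁻¹ ∈ W) := by
    intro a _ b hb h h0 h1
    have hl : b * a⁻¹ ∈ W → a⁻¹ ∈ W := fun h2 => by
      have e : a⁻¹ = 1 + b * a⁻¹ := by
        rw [← mul_inv_cancel₀ h0, ← add_mul, h, one_mul]
      rw [e]
      exact W.add_mem W.one_mem h2
    by_cases hb0 : b = 0
    · exact Or.inl ⟨h0, hl (by rw [hb0, zero_mul]; exact W.zero_mem)⟩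
    rcases hA.val W hW _ (A.O.mul_mem (hA.le W hW hb) h1) with h2 | h2
    · exact Or.inl ⟨h0, hl h2⟩
    · refine Or.inr ⟨hb0, ?_⟩
      have e : b⁻¹ = 1 + (b * a⁻¹)⁻¹ := by
        rw [mul_inv, inv_inv, ← inv_mul_cancel₀ hb0, ← mul_add, add_comm, h, mul_one]
      rw [e]
      exact W.add_mem W.one_mem h2
  intro a ha b hb h
  rcases hA.loc a (hA.le W hW ha) b (hA.le W hW hb) h with h1 | h1
  · exact key a ha b hb h h1.1 h1.2
  · exact (key b hb a ha (by rw [add_comm, h]) h1.1 h1.2).symm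

/-- `W` is local: a sum of elements of `W` is a unit of `W` only if one of them is. -/
theorem Amb.Good.exists_unit (hA : A.Good) {W : Subalgebra k K} (hW : W ∈ A.WW) {ι : Type}
    {s : Finset ι} {a : ι → K} (ha : ∀ i ∈ s, a i ∈ W) (h : ∑ i ∈ s, a i = 1) :
    ∃ i ∈ s, a i ≠ 0 ∧ (a i)⁻¹ ∈ W := by
  classical
  have key : ∀ s : Finset ι, (∀ i ∈ s, a i ∈ W) → ∑ i ∈ s, a i ≠ 0 → (∑ i ∈ s, a i)⁻¹ ∈ W →
      ∃ i ∈ s, a i ≠ 0 ∧ (a i)⁻¹ ∈ W := by
    intro s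
    induction s using Finset.induction_on with
    | empty => intro _ h0; simp at h0
    | insert j s hj ih =>
      intro ha h0 h1
      rw [Finset.sum_insert hj] at h0 h1
      have hs : ∀ i ∈ s, a i ∈ W := fun i hi => ha i (Finset.mem_insert_of_mem hi)
      rcases ResW_add_unit (ResW_loc hA hW) (ha j (Finset.mem_insert_self _ _))
        (W.sum_mem hs) h0 h1 with h2 | h2
      · exact ⟨j, Finset.mem_insert_self _ _, h2⟩
      · obtain ⟨i, hi, h3⟩ := ih hs h2.1 h2.2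
        exact ⟨i, Finset.mem_insert_of_mem hi, h3⟩
  exact key s ha (by rw [h]; exact one_ne_zero) (by rw [h, inv_one]; exact W.one_mem)

theorem Amb.Good.mem_of_pow (hA : A.Good) {W : Subalgebra k K} (hW : W ∈ A.WW) {a : K}
    (ha : a ∈ A.O) {m : ℕ} (hm : 0 < m) (h : a ^ m ∈ W) : a ∈ W := by
  by_cases h0 : a = 0
  · rw [h0]
    exact W.zero_mem
  rcases hA.val W hW a ha with h1 | h1
  · exact h1
  · obtain ⟨n, rfl⟩ : ∃ n, m = n + 1 := ⟨m - 1, by omega⟩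
    have e : a = a ^ (n + 1) * a⁻¹ ^ n := by
      rw [pow_succ', mul_assoc, ← mul_pow, mul_inv_cancel₀ h0, one_pow, mul_one]
    rw [e]
    exact W.mul_mem h (W.pow_mem h1 n)

theorem Amb.Good.mem_of_not_unit (hA : A.Good) {W : Subalgebra k K} (hW : W ∈ A.WW) {a : K}
    (ha : a ∈ A.O) (h : a = 0 ∨ a⁻¹ ∉ A.O) : a ∈ W := by
  rcases h with h | h
  · rw [h]
    exact W.zero_mem
  · exact (hA.val W hW a ha).resolve_right fun h1 => h (hA.le W hW h1)

/-- Among finitely many units of `O` one divides all the others in `W`. -/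
theorem Amb.Good.exists_min (hA : A.Good) {W : Subalgebra k K} (hW : W ∈ A.WW) {ι : Type}
    {s : Finset ι} (hs : s.Nonempty) {a : ι → Kˣ}
    (ha : ∀ i ∈ s, (a i : K) ∈ A.O ∧ (((a i)⁻¹ : Kˣ) : K) ∈ A.O) :
    ∃ i ∈ s, ∀ j ∈ s, ((a j / a i : Kˣ) : K) ∈ W := by
  induction hs using Finset.Nonempty.cons_induction with
  | singleton i =>
    refine ⟨i, Finset.mem_singleton_self i, fun j hj => ?_⟩
    rw [Finset.mem_singleton.1 hj, div_self']
    exact W.one_mem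
  | cons j s hj hs ih =>
    obtain ⟨i, hi, h1⟩ := ih fun i hi => ha i (Finset.mem_cons_of_mem hi)
    have hO : ((a j / a i : Kˣ) : K) ∈ A.O := by
      rw [div_eq_mul_inv, Units.val_mul]
      exact A.O.mul_mem (ha j (Finset.mem_cons_self _ _)).1 (ha i (Finset.mem_cons_of_mem hi)).2
    rcases hA.val W hW _ hO with h2 | h2
    · refine ⟨i, Finset.mem_cons_of_mem hi, fun l hl => ?_⟩
      rcases Finset.mem_cons.1 hl with rfl | hl
      · exact h2
      · exact h1 l hl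
    · refine ⟨j, Finset.mem_cons_self _ _, fun l hl => ?_⟩
      rcases Finset.mem_cons.1 hl with rfl | hl
      · rw [div_self']
        exact W.one_mem
      · rw [← Units.val_inv_eq_inv_val, inv_div] at h2
        rw [← div_mul_div_cancel (a l) (a i) (a j), Units.val_mul]
        exact W.mul_mem (h1 l hl) h2

/-- The set of `z` with `z.coeff γ ∈ O` and `z.coeff γ ^ m / cv γ ∈ W` for all `γ` is a subalgebra.
Sum of two elements `a, b` of the same degree: if both are non-units of `O`, so is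
`(a + b) ^ m / cv γ`; otherwise `a / b ∈ W` or `b / a ∈ W` and `a + b = b (1 + a / b)`. Products:
reduce to homogeneous elements (it is convenient to prove by `Algebra.adjoin_induction` or span
induction that every element is a finite sum of good `sg γ a`). In degree zero use `mem_of_pow`. -/
theorem Amb.Good.mem_of_adjoin (hA : A.Good) {W : Subalgebra k K} (hW : W ∈ A.WW) {m : ℕ}
    (hm : 0 < m) {cv : Gam → Kˣ} (hcv : ∀ γ β, cv (γ + β) = cv γ * cv β)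
    (hO : ∀ γ, (cv γ : K) ∈ A.O) {s : Set (LL K)}
    (hs : ∀ z ∈ s, ∃ γ, ∃ a ∈ A.O, z = sg γ a ∧ a ^ m / (cv γ : K) ∈ W) {a : K}
    (ha : sg 0 a ∈ Algebra.adjoin k s) : a ∈ W := by
  classical
  have hcv0 : cv 0 = 1 := by
    have := hcv 0 0
    rw [add_zero] at this
    exact left_eq_mul.1 this
  have hinv : ∀ γ, (cv γ : K)⁻¹ ∈ A.O := fun γ => by
    have h1 : cv γ * cv (-γ) = 1 := by rw [← hcv, add_neg_cancel, hcv0]
    rw [← Units.val_inv_eq_inv_val, inv_eq_of_mul_eq_one_right h1]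
    exact hO _
  let P : Gam → K → Prop := fun γ a => a ∈ A.O ∧ a ^ m / (cv γ : K) ∈ W
  have P0 : ∀ γ, P γ 0 := fun γ =>
    ⟨A.O.zero_mem, by rw [zero_pow hm.ne', zero_div]; exact W.zero_mem⟩
  have Pm : ∀ γ β a b, P γ a → P β b → P (γ + β) (a * b) := fun γ β a b h1 h2 =>
    ⟨A.O.mul_mem h1.1 h2.1, by
      rw [hcv, Units.val_mul, mul_pow, mul_div_mul_comm]
      exact W.mul_mem h1.2 h2.2⟩
  have Pw : ∀ γ a b, P γ a → a ≠ 0 → b * a⁻¹ ∈ W → (a + b) ^ m / (cv γ : K) ∈ W := by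
    intro γ a b h1 h0 h2
    have e : a + b = a * (1 + b * a⁻¹) := by field_simp
    rw [e, mul_pow, mul_div_right_comm]
    exact W.mul_mem h1.2 (W.pow_mem (W.add_mem W.one_mem h2) m)
  have Pu : ∀ γ a b, P γ a → P γ b → a ≠ 0 → a⁻¹ ∈ A.O → (a + b) ^ m / (cv γ : K) ∈ W := by
    intro γ a b h1 h2 h0 h3
    by_cases hb0 : b = 0
    · rw [hb0, add_zero]
      exact h1.2
    rcases hA.val W hW _ (A.O.mul_mem h2.1 h3) with h4 | h4
    · exact Pw γ a b h1 h0 h4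
    · rw [add_comm]
      refine Pw γ b a h2 hb0 ?_
      rwa [mul_inv, inv_inv, mul_comm] at h4
  have Pa : ∀ γ a b, P γ a → P γ b → P γ (a + b) := by
    intro γ a b h1 h2
    have hab := A.O.add_mem h1.1 h2.1
    refine ⟨hab, ?_⟩
    by_cases h0 : a + b = 0
    · rw [h0]
      exact (P0 γ).2
    by_cases h3 : (a + b)⁻¹ ∈ A.O
    · rcases ResW_add_unit hA.loc h1.1 h2.1 h0 h3 with h4 | h4
      · exact Pu γ a b h1 h2 h4.1 h4.2
      · rw [add_comm]
        exact Pu γ b a h2 h1 h4.1 h4.2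
    · refine hA.mem_of_not_unit hW ?_ (Or.inr fun h4 => h3 ?_)
      · rw [div_eq_mul_inv]
        exact A.O.mul_mem (A.O.pow_mem hab m) (hinv γ)
      · obtain ⟨n, rfl⟩ : ∃ n, m = n + 1 := ⟨m - 1, by omega⟩
        have e : (a + b)⁻¹ = ((a + b) ^ (n + 1) / (cv γ : K))⁻¹ * ((a + b) ^ n * (cv γ : K)⁻¹) := by
          have := (cv γ).ne_zero
          rw [pow_succ']
          field_simp
        rw [e]
        exact A.O.mul_mem h4 (A.O.mul_mem (A.O.pow_mem hab n) (hinv γ))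
  have Ps : ∀ γ a, P γ a → ∀ β, P β ((sg γ a).coeff β) := by
    intro γ a h β
    rw [AddMonoidAlgebra.coeff_single, Finsupp.single_apply]
    split_ifs with h1
    · exact h1 ▸ h
    · exact P0 β
  have key : ∀ z ∈ Algebra.adjoin k s, ∀ γ, P γ (z.coeff γ) := by
    intro z hz
    induction hz using Algebra.adjoin_induction with
    | mem z hz =>
      obtain ⟨γ, a, ha, rfl, h⟩ := hs z hz
      exact Ps γ a ⟨ha, h⟩
    | algebraMap r =>
      refine Ps 0 (algebraMap k K r) ⟨A.O.algebraMap_mem r, ?_⟩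
      rw [hcv0, Units.val_one, div_one]
      exact W.pow_mem (W.algebraMap_mem r) m
    | add x y _ _ hx hy => exact fun γ => Pa γ _ _ (hx γ) (hy γ)
    | mul x y _ _ hx hy =>
      intro γ
      rw [AddMonoidAlgebra.coeff_mul]
      refine Finset.sum_induction _ (P γ) (Pa γ) (P0 γ) fun β _ => ?_
      refine Finset.sum_induction _ (P γ) (Pa γ) (P0 γ) fun β' _ => ?_
      dsimp only
      split_ifs with h1
      · exact h1 ▸ Pm β β' _ _ (hx β) (hy β')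
      · exact P0 γ
  have h := key _ ha 0
  rw [AddMonoidAlgebra.coeff_single, Finsupp.single_eq_same] at h
  refine hA.mem_of_pow hW h.1 hm ?_
  have h2 := h.2
  rwa [hcv0, Units.val_one, div_one] at h2

end Pool.Agent.Lib.MP_4287a9_ag.Res
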