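import Pool.Agent.Lib.MP_4287a9_ag.ResBl1
import Pool.Agent.Lib.MP_4287a9_ag.ResW

/-! The covering property after the blow-up. -/

namespace Pool.Agent.Lib.MP_4287a9_ag.Res

variable {k K : Type} [Field k] [Field K] [Algebra k K] {N : ℕ}

variable {A : Amb k K N} {ρ : ℕ} {c : Chart k K N}

theorem ResBl5_units (h : c.Good A ρ) (hint : c.B ≤ OL A.O)
    {W : Subalgebra k K} (h0 : ∀ a : K, sg 0 a ∈ c.B → a ∈ W) :
    ∃ m₀ : ℕ, 0 < m₀ ∧ ∃ v : Gam → Kˣ, (∀ γ β, v (γ + β) = v γ * v β) ∧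
      (∀ γ, (v γ : K) ∈ A.O) ∧ (∀ n : ℤ, v (Pi.single ρ n) = 1) ∧
      ∀ γ a, sg γ a ∈ c.B → a ^ m₀ / (v γ : K) ∈ W := by
  classical
  obtain ⟨m₀, hm₀, hV⟩ := h.exists_units
  obtain ⟨V, hVa, hVU, hVH⟩ := hV m₀ dvd_rfl
  let cut : Gam → Gam := fun γ e => if e < ρ then γ e else 0
  have cut_add : ∀ γ β, cut (γ + β) = cut γ + cut β := by
    intro γ β
    funext e
    simp only [cut, Pi.add_apply]
    split_ifs <;> simp
  have cut_below : ∀ γ, Below ρ (cut γ) := fun γ e he => if_neg (not_lt.2 he)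
  have cut_eq : ∀ γ, Below ρ γ → cut γ = γ := by
    intro γ hγ
    funext e
    simp only [cut]
    split_ifs with he
    · rfl
    · exact (hγ e (not_lt.1 he)).symm
  have hex : ∀ γ, ∃ a : Kˣ, hu (m₀ • cut γ) a = V (cut γ) := fun γ => by
    obtain ⟨a, ha⟩ := (hVH _ (cut_below γ)).exists_hu (V (cut γ)).ne_zero
    exact ⟨a, Units.ext ha⟩
  choose v hv using hex
  have hinj : ∀ (γ : Gam) (a b : Kˣ), hu γ a = hu γ b → a = b := by
    intro γ a b e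
    have e' := congrArg (fun z : (LL K)ˣ => (z : LL K).coeff γ) e
    simp only [coe_hu, AddMonoidAlgebra.coeff_single, Finsupp.single_eq_same] at e'
    exact Units.ext e'
  have hva : ∀ γ β, v (γ + β) = v γ * v β := by
    intro γ β
    refine hinj (m₀ • cut (γ + β)) _ _ ?_
    rw [hv, cut_add, hVa, ← hv, ← hv, hu_mul, smul_add]
  have hv0 : v 0 = 1 := by
    have := hva 0 0
    rw [add_zero] at this
    exact left_eq_mul.1 this
  refine ⟨m₀, hm₀, v, hva, fun γ => ?_, fun n => ?_, fun γ a ha => ?_⟩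
  · have := hint (h.unitIn_U (hVU (cut γ))).1.1
    rw [← hv, coe_hu] at this
    exact sg_mem_OL.1 this
  · have e : cut (Pi.single ρ n) = cut 0 := by
      funext e
      simp only [cut]
      split_ifs with he
      · rw [Pi.single_eq_of_ne he.ne]
        rfl
      · rfl
    refine hinj (m₀ • cut 0) _ _ ?_
    rw [← hv0, hv, ← e, hv]
  · by_cases ha0 : a = 0
    · rw [ha0, zero_pow hm₀.ne', zero_div]
      exact W.zero_mem
    have hb : Below ρ γ := h.below ha ⟨a, rfl⟩ fun e => ha0 (AddMonoidAlgebra.single_eq_zero.1 e)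
    have h1 := (unitIn_coe.1 (h.unitIn_U (hVU (cut γ))).1).2
    rw [← hv, hu_inv, coe_hu, cut_eq γ hb] at h1
    have h2 := mul_mem (pow_mem ha m₀) h1
    rw [AddMonoidAlgebra.single_pow, sg_mul, add_neg_cancel] at h2
    have h3 := h0 _ h2
    rwa [Units.val_inv_eq_inv_val, ← div_eq_mul_inv] at h3

theorem ResBl5_core (hA : A.Good) (h : c.Good A ρ) (hint : c.B ≤ OL A.O)
    {W : Subalgebra k K} (hW : W ∈ A.WW) {m₀ : ℕ} (hm₀ : 0 < m₀) {v : Gam → Kˣ}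
    (hva : ∀ γ β, v (γ + β) = v γ * v β) (hvO : ∀ γ, (v γ : K) ∈ A.O)
    (hvW : ∀ γ a, sg γ a ∈ c.B → a ^ m₀ / (v γ : K) ∈ W) {P : ℕ} (hP : 0 < P) {ζ : Kˣ}
    (hζ : (ζ : K) ∈ A.O) (hζ' : ((ζ⁻¹ : Kˣ) : K) ∈ A.O) {s : Set (LL K)}
    (hs : ∀ z ∈ s, ∃ γ, ∃ a ∈ A.O, z = sg γ a ∧
      a ^ (m₀ * P) / ((v γ ^ P * ζ ^ (-γ ρ) : Kˣ) : K) ∈ W) {a : K}
    (ha : sg 0 a ∈ Algebra.adjoin k ((c.B : Set (LL K)) ∪ s)) : a ∈ W := by
  refine hA.mem_of_adjoin hW (Nat.mul_pos hm₀ hP) (cv := fun γ => v γ ^ P * ζ ^ (-γ ρ))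
    (fun γ β => ?_) (fun γ => ?_) (s := {z | z ∈ c.B ∧ Hm z} ∪ s) ?_ ?_
  · simp only [hva, Pi.add_apply, neg_add, zpow_add, mul_pow]
    exact mul_mul_mul_comm _ _ _ _
  · rw [Units.val_mul, Units.val_pow_eq_pow_val]
    refine A.O.mul_mem (A.O.pow_mem (hvO γ) P) ?_
    obtain ⟨n, e | e⟩ := (-γ ρ).eq_nat_or_neg
    · rw [e, zpow_natCast, Units.val_pow_eq_pow_val]
      exact A.O.pow_mem hζ n
    · rw [e, zpow_neg, zpow_natCast, ← inv_pow, Units.val_pow_eq_pow_val]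
      exact A.O.pow_mem hζ' n
  · rintro z (⟨hz, γ, b, rfl⟩ | hz)
    · refine ⟨γ, b, sg_mem_OL.1 (hint hz), rfl, ?_⟩
      by_cases hb0 : b = 0
      · rw [hb0, zero_pow (Nat.mul_pos hm₀ hP).ne', zero_div]
        exact W.zero_mem
      have hb : Below ρ γ := h.below hz ⟨b, rfl⟩ fun e => hb0 (AddMonoidAlgebra.single_eq_zero.1 e)
      rw [hb ρ le_rfl, neg_zero, zpow_zero, mul_one, Units.val_pow_eq_pow_val, pow_mul, ← div_pow]
      exact W.pow_mem (hvW γ b hz) P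
    · exact hs z hz
  · refine (Algebra.adjoin_le ?_ : _ ≤ Algebra.adjoin k ({z | z ∈ c.B ∧ Hm z} ∪ s)) ha
    rintro z (hz | hz)
    · rw [← sum_prj z]
      exact Subalgebra.sum_mem _ fun γ _ =>
        Algebra.subset_adjoin (Or.inl ⟨h.grA z hz γ, γ, isH_prj γ z⟩)
    · exact Algebra.subset_adjoin (Or.inr hz)

theorem ResBl5_tau_inv_pow (n : ℕ) :
    (((tau K ρ)⁻¹ ^ n : (LL K)ˣ) : LL K) = sg (Pi.single ρ (-(n : ℤ))) (1 : K) := by
  rw [tau, hu_inv, hu_pow, coe_hu, inv_one, one_pow, Units.val_one]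
  congr 1
  funext e
  by_cases he : e = ρ
  · subst he
    simp
  · simp [Pi.single_eq_of_ne he]

/-- Every element of `blT` is a finite sum of `b * τ ^ j`, `b ∈ c.B` homogeneous of degree below
`ρ` (or use `mem_of_adjoin` as in `cover_blA`). -/
theorem Chart.Good.cover_blI (hA : A.Good) (h : c.Good A ρ) (hint : c.B ≤ OL A.O)
    {W : Subalgebra k K} (hW : W ∈ A.WW) (h0 : ∀ a : K, sg 0 a ∈ c.B → a ∈ W) {a : K}
    (ha : sg 0 a ∈ (c.blI ρ).B) : a ∈ W := by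
  obtain ⟨m₀, hm₀, v, hva, hvO, hv1, hvW⟩ := ResBl5_units h hint h0
  refine ResBl5_core hA h hint hW hm₀ hva hvO hvW one_pos (ζ := 1) A.O.one_mem
    (by rw [inv_one]; exact A.O.one_mem) ?_ ha
  rintro z (rfl | hz)
  · refine ⟨Pi.single ρ 1, 1, A.O.one_mem, rfl, ?_⟩
    simp [hv1]
  · rw [Set.mem_singleton_iff.1 hz]
    refine ⟨Pi.single ρ (-((1 : ℕ) : ℤ)), 1, A.O.one_mem, ?_, ?_⟩
    · rw [← ResBl5_tau_inv_pow, pow_one]
    · simp [hv1]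

/-- Let `m₀, V` come from `exists_units`, `P = ∏_(Wt i > 0) Wt i`, `m = m₀ * P`. For `Wt i > 0` put
`z i = (t i ^ m₀ * V (-deg (t i))) ^ (P / Wt i)`, of degree zero in `c.B`. Choose `i₀` by
`exists_min` among the `i` with `t i` a unit of `OL O`; for the other `i` with `Wt i > 0` the
quotient `z i / z i₀` is a non-unit of `O`, hence in `W`. Apply `mem_of_adjoin` with
`cv γ = (coefficient of V (γ cut below ρ)) ^ P * (z i₀) ^ (-γ ρ)` to the generators: those of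
`c.B`, `τ`, `t i * τ ^ (-Wt i)` (gives `(z i / z i₀) ^ Wt i`), `ξ⁻¹` (gives `1`). -/
theorem Chart.Good.cover_blA (hA : A.Good) (h : c.Good A ρ) (hint : c.B ≤ OL A.O)
    {W : Subalgebra k K} (hW : W ∈ A.WW) (h0 : ∀ a : K, sg 0 a ∈ c.B → a ∈ W) (Wt : Fin N → ℕ)
    (hne : ∃ i, 0 < Wt i ∧ UnitIn (OL A.O) (c.t i)) :
    ∃ i₀, 0 < Wt i₀ ∧ UnitIn (OL A.O) (c.t i₀) ∧ ∀ ξ : (LL K)ˣ,
      (ξ : LL K) = c.t i₀ * (((tau K ρ)⁻¹ ^ Wt i₀ : (LL K)ˣ) : LL K) →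
        ∀ a : K, sg 0 a ∈ (c.blA ρ Wt i₀ ξ).B → a ∈ W := by
  classical
  obtain ⟨m₀, hm₀, v, hva, hvO, hv1, hvW⟩ := ResBl5_units h hint h0
  have hv0 : v 0 = 1 := by simpa using hv1 0
  have hvO' : ∀ γ, (v γ : K)⁻¹ ∈ A.O := fun γ => by
    have h1 : v γ * v (-γ) = 1 := by rw [← hva, add_neg_cancel, hv0]
    rw [← Units.val_inv_eq_inv_val, inv_eq_of_mul_eq_one_right h1]
    exact hvO _
  have ht : ∀ i, ∃ γ, ∃ a : K, c.t i = sg γ a := fun i => h.thom i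
  choose g b hb using ht
  have hbB : ∀ i, sg (g i) (b i) ∈ c.B := fun i => hb i ▸ h.tmem i
  have hbO : ∀ i, b i ∈ A.O := fun i => sg_mem_OL.1 (hint (hbB i))
  have hunit : ∀ i, UnitIn (OL A.O) (c.t i) ↔ b i ≠ 0 ∧ (b i)⁻¹ ∈ A.O := by
    intro i
    by_cases hb0 : b i = 0
    · refine ⟨fun ⟨_, υ, _, h1⟩ => ?_, fun h1 => absurd hb0 h1.1⟩
      rw [hb, hb0, sg, AddMonoidAlgebra.single_zero, zero_mul] at h1
      exact absurd h1 zero_ne_one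
    · have e : c.t i = (hu (g i) (Units.mk0 (b i) hb0) : LL K) := hb i
      rw [e, unitIn_OL_hu, Units.val_inv_eq_inv_val, Units.val_mk0]
      exact ⟨fun h1 => ⟨hb0, h1.2⟩, fun h1 => ⟨hbO i, h1.2⟩⟩
  obtain ⟨P, hP, hdvd⟩ : ∃ P : ℕ, 0 < P ∧ ∀ i, 0 < Wt i → Wt i ∣ P :=
    ⟨∏ i ∈ Finset.univ.filter fun i => 0 < Wt i, Wt i,
      Finset.prod_pos fun i hi => (Finset.mem_filter.1 hi).2,
      fun i hi => Finset.dvd_prod_of_mem _ (Finset.mem_filter.2 ⟨Finset.mem_univ _, hi⟩)⟩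
  have hQ : ∀ i, 0 < Wt i → P / Wt i * Wt i = P := fun i hi => Nat.div_mul_cancel (hdvd i hi)
  have hQ0 : ∀ i, 0 < Wt i → 0 < P / Wt i := fun i hi =>
    Nat.pos_of_ne_zero fun e => hP.ne' (by rw [← hQ i hi, e, zero_mul])
  let z : Fin N → K := fun i => (b i ^ m₀ / (v (g i) : K)) ^ (P / Wt i)
  have hzW : ∀ i, z i ∈ W := fun i => W.pow_mem (hvW _ _ (hbB i)) _
  have hz0 : ∀ i, b i ≠ 0 → z i ≠ 0 := fun i hi =>
    pow_ne_zero _ (div_ne_zero (pow_ne_zero _ hi) (v (g i)).ne_zero)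
  have hzi : ∀ i, (b i)⁻¹ ∈ A.O → (z i)⁻¹ ∈ A.O := fun i hi => by
    simp only [z]
    rw [← inv_pow, inv_div, div_eq_mul_inv, ← inv_pow]
    exact A.O.pow_mem (A.O.mul_mem (hvO _) (A.O.pow_mem hi _)) _
  let zu : Fin N → Kˣ := fun i => if h : z i = 0 then 1 else Units.mk0 (z i) h
  have hzu : ∀ i, b i ≠ 0 → (zu i : K) = z i := fun i hi => by
    simp only [zu]
    rw [dif_neg (hz0 i hi), Units.val_mk0]
  have hzO : ∀ i, UnitIn (OL A.O) (c.t i) →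
      (zu i : K) ∈ A.O ∧ (((zu i)⁻¹ : Kˣ) : K) ∈ A.O := fun i hi => by
    obtain ⟨h1, h2⟩ := (hunit i).1 hi
    rw [Units.val_inv_eq_inv_val, hzu i h1]
    exact ⟨hA.le W hW (hzW i), hzi i h2⟩
  obtain ⟨i₀, hi₀, hmin⟩ := hA.exists_min hW
    (s := Finset.univ.filter fun i => 0 < Wt i ∧ UnitIn (OL A.O) (c.t i))
    (hne.imp fun i hi => Finset.mem_filter.2 ⟨Finset.mem_univ _, hi⟩) (a := zu)
    fun i hi => hzO i (Finset.mem_filter.1 hi).2.2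
  obtain ⟨hw₀, hu₀⟩ := (Finset.mem_filter.1 hi₀).2
  obtain ⟨hb₀, hb₀'⟩ := (hunit i₀).1 hu₀
  obtain ⟨hζ, hζ'⟩ := hzO i₀ hu₀
  have hquot : ∀ i, 0 < Wt i → z i / (zu i₀ : K) ∈ W := by
    intro i hi
    by_cases hu : UnitIn (OL A.O) (c.t i)
    · have := hmin i (Finset.mem_filter.2 ⟨Finset.mem_univ _, hi, hu⟩)
      rwa [Units.val_div_eq_div_val, hzu i ((hunit i).1 hu).1] at this
    · by_cases hb0 : b i = 0
      · simp only [z]
        rw [hb0, zero_pow hm₀.ne', zero_div, zero_pow (hQ0 i hi).ne', zero_div]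
        exact W.zero_mem
      refine hA.mem_of_not_unit hW ?_ (Or.inr fun h1 => hu ((hunit i).2 ⟨hb0, ?_⟩))
      · rw [div_eq_mul_inv, ← Units.val_inv_eq_inv_val]
        exact A.O.mul_mem (hA.le W hW (hzW i)) hζ'
      · obtain ⟨n, hn⟩ : ∃ n, m₀ * (P / Wt i) = n + 1 :=
          ⟨_, (Nat.succ_pred_eq_of_pos (Nat.mul_pos hm₀ (hQ0 i hi))).symm⟩
        have e : (b i)⁻¹ = (z i / (zu i₀ : K))⁻¹ * ((zu i₀ : K)⁻¹ *
            (b i ^ n * (v (g i) : K)⁻¹ ^ (P / Wt i))) := by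
          have h2 := (zu i₀).ne_zero
          have h3 := (v (g i)).ne_zero
          simp only [z]
          rw [div_pow, ← pow_mul, hn, pow_succ, inv_pow]
          field_simp
        rw [e]
        rw [Units.val_inv_eq_inv_val] at hζ'
        exact A.O.mul_mem h1 (A.O.mul_mem hζ'
          (A.O.mul_mem (A.O.pow_mem (hbO i) n) (A.O.pow_mem (hvO' _) _)))
  have hx : ∀ i, c.t i * (((tau K ρ)⁻¹ ^ Wt i : (LL K)ˣ) : LL K) =
      sg (g i + Pi.single ρ (-(Wt i : ℤ))) (b i) := fun i => by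
    rw [hb, ResBl5_tau_inv_pow, sg_mul, mul_one]
  have hval : ∀ i, b i ≠ 0 → b i ^ (m₀ * P) / ((v (g i + Pi.single ρ (-(Wt i : ℤ))) ^ P *
      zu i₀ ^ (-(g i + Pi.single ρ (-(Wt i : ℤ)) : Gam) ρ) : Kˣ) : K) =
        (b i ^ m₀ / (v (g i) : K)) ^ P / (zu i₀ : K) ^ Wt i := fun i hi => by
    have hbl : Below ρ (g i) :=
      h.below (hbB i) ⟨b i, rfl⟩ fun e => hi (AddMonoidAlgebra.single_eq_zero.1 e)
    rw [hva, hv1, mul_one, Pi.add_apply, hbl ρ le_rfl, zero_add, Pi.single_eq_same, neg_neg,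
      zpow_natCast, Units.val_mul, Units.val_pow_eq_pow_val, Units.val_pow_eq_pow_val, div_pow,
      pow_mul, div_div]
  have hval' : ∀ i, 0 < Wt i → (b i ^ m₀ / (v (g i) : K)) ^ P / (zu i₀ : K) ^ Wt i =
      (z i / (zu i₀ : K)) ^ Wt i := fun i hi => by
    simp only [z]
    rw [div_pow _ (zu i₀ : K), ← pow_mul, hQ i hi]
  refine ⟨i₀, hw₀, hu₀, fun ξ hξ a ha => ?_⟩
  refine ResBl5_core hA h hint hW hm₀ hva hvO hvW hP hζ hζ'
    (s := ({(tau K ρ : LL K)} ∪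
      Set.range fun i => c.t i * (((tau K ρ)⁻¹ ^ Wt i : (LL K)ˣ) : LL K)) ∪
        {((ξ⁻¹ : (LL K)ˣ) : LL K)}) ?_ ?_
  · rintro y ((hy | ⟨i, rfl⟩) | hy)
    · rw [Set.mem_singleton_iff.1 hy]
      refine ⟨Pi.single ρ 1, 1, A.O.one_mem, rfl, ?_⟩
      have := hzW i₀
      rw [← hzu i₀ hb₀] at this
      simpa [hv1] using this
    · refine ⟨_, b i, hbO i, hx i, ?_⟩
      by_cases hb0 : b i = 0
      · rw [hb0, zero_pow (Nat.mul_pos hm₀ hP).ne', zero_div]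
        exact W.zero_mem
      rw [hval i hb0]
      rcases Nat.eq_zero_or_pos (Wt i) with h1 | h1
      · rw [h1, pow_zero, div_one]
        exact W.pow_mem (hvW _ _ (hbB i)) _
      · rw [hval' i h1]
        exact W.pow_mem (hquot i h1) _
    · rw [Set.mem_singleton_iff.1 hy]
      have e : ξ = hu (g i₀ + Pi.single ρ (-(Wt i₀ : ℤ))) (Units.mk0 (b i₀) hb₀) :=
        Units.ext (hξ.trans (hx i₀))
      refine ⟨-(g i₀ + Pi.single ρ (-(Wt i₀ : ℤ))), (b i₀)⁻¹, hb₀', ?_, ?_⟩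
      · rw [e, hu_inv, coe_hu, Units.val_inv_eq_inv_val, Units.val_mk0]
      · have h1 := hval i₀ hb₀
        rw [hval' i₀ hw₀, hzu i₀ hb₀, div_self (hz0 i₀ hb₀), one_pow] at h1
        generalize (g i₀ + Pi.single ρ (-(Wt i₀ : ℤ)) : Gam) = β at h1 ⊢
        have h2 : v (-β) = (v β)⁻¹ := by
          rw [eq_inv_iff_mul_eq_one, ← hva, neg_add_cancel, hv0]
        have h3 : (v (-β) ^ P * zu i₀ ^ (-(-β) ρ) : Kˣ) = (v β ^ P * zu i₀ ^ (-β ρ))⁻¹ := by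
          rw [h2, Pi.neg_apply, mul_inv, inv_pow, zpow_neg _ (-β ρ)]
        rw [h3, Units.val_inv_eq_inv_val, inv_pow, inv_div_inv, ← inv_div, h1, inv_one]
        exact W.one_mem
  · refine (Algebra.adjoin_le ?_ : (c.blA ρ Wt i₀ ξ).B ≤ _) ha
    rintro y (hy | hy)
    · refine (Algebra.adjoin_mono ?_ : c.blB ρ Wt ≤ _) hy
      rintro y (hy | hy)
      · exact Or.inl hy
      · exact Or.inr (Or.inl hy)
    · exact Algebra.subset_adjoin (Or.inr (Or.inr hy))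

end Pool.Agent.Lib.MP_4287a9_ag.Res
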