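import Pool.Agent.Lib.MP_4287a9_ag.ResA2

/-! The twisting lemma: new transition functions `z j * F (π j) ^ M`. -/

namespace Pool.Agent.Lib.MP_4287a9_ag.Res

variable {k L : Type} [Field k] [CommRing L] [Algebra k L]

/-- The units of the ambient ring that lie in `S`. -/
def resMod_U (S : Subalgebra k L) : Submonoid Lˣ := S.toSubmonoid.comap (Units.coeHom L)

theorem resMod_mem {S : Subalgebra k L} {u : Lˣ} : u ∈ resMod_U S ↔ (u : L) ∈ S := Iff.rfl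

theorem resMod_inv {S : Subalgebra k L} {u : Lˣ} (h : UnitIn S (u : L)) : u⁻¹ ∈ resMod_U S := by
  obtain ⟨-, v, hv, e⟩ := h
  rw [resMod_mem, Units.inv_eq_of_mul_eq_one_right e]
  exact hv

theorem resMod_one (B B' : Subalgebra k L) (r ξ ξ' υ υ' q : Lˣ) (a a' M : ℕ)
    (hr : (r : L) ∈ B) (hglue : B' ≤ away B r) (hξ' : (ξ' : L) ∈ B') (hυ : UnitIn B (υ : L))
    (hυ' : (υ' : L) ∈ B') (hw : r ^ M * (ξ' ^ (a' + 1) * υ') ∈ resMod_U B)
    (hq : q = r * (r ^ M * (ξ' ^ (a' + 1) * υ')) * (ξ⁻¹ ^ a * υ⁻¹)) :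
    (q : L) ∈ away B ξ ∧ away B' ξ' ≤ away (away B ξ) q ∧ away B r ≤ away (away B ξ) q := by
  have hs : ξ⁻¹ ^ a * υ⁻¹ ∈ resMod_U (away B ξ) :=
    mul_mem (pow_mem (resMod_mem.2 (inv_mem_away ξ)) a)
      (resMod_mem.2 (le_away ξ (resMod_mem.1 (resMod_inv hυ))))
  have hBC : B ≤ away (away B ξ) q := (le_away ξ).trans (le_away q)
  have hsC : ξ⁻¹ ^ a * υ⁻¹ ∈ resMod_U (away (away B ξ) q) :=
    resMod_mem.2 (le_away q (resMod_mem.1 hs))
  have hqC : q⁻¹ ∈ resMod_U (away (away B ξ) q) := resMod_mem.2 (inv_mem_away q)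
  have h3 : away B r ≤ away (away B ξ) q := by
    refine away_le hBC (resMod_mem.1 ?_)
    have e : r⁻¹ = q⁻¹ * (r ^ M * (ξ' ^ (a' + 1) * υ')) * (ξ⁻¹ ^ a * υ⁻¹) := by
      rw [hq]
      apply Additive.ofMul.injective
      simp only [ofMul_mul, ofMul_pow, ofMul_inv]
      module
    rw [e]
    exact mul_mem (mul_mem hqC (resMod_mem.2 (hBC (resMod_mem.1 hw)))) hsC
  refine ⟨resMod_mem.1 ?_, away_le (hglue.trans h3) (resMod_mem.1 ?_), h3⟩
  · rw [hq]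
    exact mul_mem (mul_mem (resMod_mem.2 (le_away ξ hr))
      (resMod_mem.2 (le_away ξ (resMod_mem.1 hw)))) hs
  · have e : ξ'⁻¹ = q⁻¹ * r ^ (M + 1) * (ξ' ^ a' * υ') * (ξ⁻¹ ^ a * υ⁻¹) := by
      rw [hq]
      apply Additive.ofMul.injective
      simp only [ofMul_mul, ofMul_pow, ofMul_inv]
      module
    rw [e]
    exact mul_mem (mul_mem (mul_mem hqC (pow_mem (resMod_mem.2 (hBC hr)) _))
      (mul_mem (pow_mem (resMod_mem.2 (h3 (hglue hξ'))) _) (resMod_mem.2 (h3 (hglue hυ'))))) hsC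

/-- Let `r = F (π j') / F (π j) ∈ Bt (π j)`. The elements `ξ j' ^ a j' * υ j'` lie in
`Bt (π j') ≤ away (Bt (π j)) r`, so `r ^ M₀ * ξ j' ^ a j' * υ j' ∈ Bt (π j)` for one `M₀` that works
for all pairs (`mem_away`, finiteness). Take `M = M₀ + 1`. The quotient of the new functions is
`r * (r ^ M₀ * ξ j' ^ a j' * υ j') * (ξ j ^ a j * υ j)⁻¹`; inverting it inverts `r`, then the ring
contains `Bt (π j')`, and `ξ j'` is inverted as well since `a j' ≥ 1`. -/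
theorem exists_twist {ι ι' : Type} [Finite ι'] (Bt : ι → Subalgebra k L) (F : ι → Lˣ)
    (hdiv : ∀ l l', ((F l' / F l : Lˣ) : L) ∈ Bt l)
    (hglue : ∀ l l', Bt l' ≤ away (Bt l) (F l' / F l)) (π : ι' → ι) (ξ υ z : ι' → Lˣ) (g : Lˣ)
    (a : ι' → ℕ) (ha : ∀ j, 0 < a j) (hξ : ∀ j, (ξ j : L) ∈ Bt (π j))
    (hυ : ∀ j, UnitIn (Bt (π j)) (υ j : L)) (hz : ∀ j, z j = g * ξ j ^ a j * υ j) :
    ∃ M : ℕ, 0 < M ∧ ∀ j j',
      ((z j' * F (π j') ^ M / (z j * F (π j) ^ M) : Lˣ) : L) ∈ away (Bt (π j)) (ξ j) ∧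
      away (Bt (π j')) (ξ j') ≤
        away (away (Bt (π j)) (ξ j)) (z j' * F (π j') ^ M / (z j * F (π j) ^ M)) ∧
      away (Bt (π j)) (F (π j') / F (π j)) ≤
        away (away (Bt (π j)) (ξ j)) (z j' * F (π j') ^ M / (z j * F (π j) ^ M)) := by
  have h1 : ∀ p : ι' × ι', ∃ m : ℕ, (F (π p.2) / F (π p.1)) ^ m * (ξ p.2 ^ a p.2 * υ p.2) ∈
      resMod_U (Bt (π p.1)) := fun p => by
    obtain ⟨m, hm⟩ := (mem_away (hdiv (π p.1) (π p.2))).1
      (hglue (π p.1) (π p.2) (mul_mem (pow_mem (hξ p.2) (a p.2)) (hυ p.2).1))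
    refine ⟨m, resMod_mem.2 ?_⟩
    rw [Units.val_mul, Units.val_mul, Units.val_pow_eq_pow_val, Units.val_pow_eq_pow_val]
    exact hm
  choose m hm using h1
  obtain ⟨M, hM⟩ := (Set.finite_range m).bddAbove
  refine ⟨M + 1, Nat.succ_pos M, fun j j' => ?_⟩
  obtain ⟨c, hc⟩ := Nat.exists_eq_add_of_le (hM (Set.mem_range_self (j, j')))
  obtain ⟨a', ha'⟩ := Nat.exists_eq_succ_of_ne_zero (ha j').ne'
  refine resMod_one (Bt (π j)) (Bt (π j')) (F (π j') / F (π j)) (ξ j) (ξ j') (υ j) (υ j') _ (a j)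
    a' M (hdiv _ _) (hglue _ _) (hξ j') (hυ j) (hυ j').1 ?_ ?_
  · rw [hc, add_comm, pow_add, mul_assoc, ← Nat.succ_eq_add_one, ← ha']
    exact mul_mem (pow_mem (resMod_mem.2 (hdiv _ _)) c) (hm (j, j'))
  · rw [hz j, hz j', ha']
    apply Additive.ofMul.injective
    simp only [ofMul_mul, ofMul_pow, ofMul_inv, ofMul_div, Nat.succ_eq_add_one]
    module

end Pool.Agent.Lib.MP_4287a9_ag.Res
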