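import Pool.Agent.Lib.MP_4287a9_ag.ResBl2
import Pool.Agent.Lib.MP_4287a9_ag.ResBl3
import Pool.Agent.Lib.MP_4287a9_ag.ResBl5
import Pool.Agent.Lib.MP_4287a9_ag.ResMod
import Pool.Agent.Lib.MP_4287a9_ag.ResAcc

/-! The blow-up of a system of charts. -/

namespace Pool.Agent.Lib.MP_4287a9_ag.Res

variable {k K : Type} [Field k] [Field K] [Algebra k K] {N : ℕ}

variable {A : Amb k K N} {ρ : ℕ}

theorem resBl4_hu_div (a b : Kˣ) : (hu 0 a / hu 0 b : (LL K)ˣ) = hu 0 (a / b) := by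
  rw [div_eq_mul_inv, div_eq_mul_inv, hu_inv, hu_mul]
  simp

theorem resBl4_hu_mul_pow (a b : Kˣ) (M : ℕ) :
    (hu 0 (a * b ^ M) : (LL K)ˣ) = hu 0 a * hu 0 b ^ M := by
  rw [hu_pow, hu_mul]
  simp

theorem resBl4_unit_inv {S : Subalgebra k (LL K)} {a : LL K} (h : UnitIn S a) :
    ∃ b, UnitIn S b ∧ a * b = 1 := by
  obtain ⟨ha, b, hb, hab⟩ := h
  exact ⟨b, ⟨hb, a, ha, by rw [mul_comm, hab]⟩, hab⟩

theorem resBl4_tau (O : Subalgebra k K) (ρ : ℕ) : UnitIn (OL O) (tau K ρ : LL K) :=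
  unitIn_OL_hu.2 ⟨one_mem O, by rw [inv_one]; exact one_mem O⟩

theorem resBl4_inv_pow {S : Subalgebra k (LL K)} {σ : (LL K)ˣ} (h : UnitIn S (σ : LL K)) (n : ℕ) :
    UnitIn S ((σ⁻¹ ^ n : (LL K)ˣ) : LL K) := by
  rw [Units.val_pow_eq_pow_val]
  refine UnitIn.pow (unitIn_coe.2 ⟨(unitIn_coe.1 h).2, ?_⟩) n
  rw [inv_inv]
  exact h.1

theorem resBl4_le (S : Sys k K N) (ρ : ℕ) (W : Fin N → ℕ) (act : S.ι → Prop) (l : S.ι) :
    (S.ch l).B ≤ S.Bt ρ W act l ∧ (tau K ρ : LL K) ∈ S.Bt ρ W act l := by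
  unfold Sys.Bt
  split_ifs
  · rw [Chart.blB_eq]
    exact ⟨le_bl, s_mem_bl⟩
  · exact ⟨(S.ch l).le_blT ρ, ((S.ch l).unitIn_blT ρ).1⟩

theorem resBl4_int {S : Sys k K N} (h : S.Good A ρ) (W : Fin N → ℕ) (act : S.ι → Prop)
    (l : S.ι) : S.Bt ρ W act l ≤ OL A.O := by
  unfold Sys.Bt
  split_ifs
  · rw [Chart.blB_eq]
    exact bl_le (h.int l) (resBl4_tau A.O ρ).1 fun i =>
      mul_mem (h.int l ((h.good l).tmem i)) (resBl4_inv_pow (resBl4_tau A.O ρ) _).1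
  · exact Chart.blT_le (h.int l) (resBl4_tau A.O ρ)

theorem resBl4_dvd {S : Sys k K N} (h : S.Good A ρ) (W : Fin N → ℕ) (act : S.ι → Prop)
    (l : S.ι) (e : ℕ) : ∃ b ∈ S.Bt ρ W act l, (S.ch l).y e = b * S.Yt ρ W act l e := by
  have h1 := (resBl4_le S ρ W act l).2
  unfold Sys.Yt
  split_ifs
  · rw [(h.good l).yt_eq]
    generalize (∑ i, if (S.ch l).lab i = some e then W i else 0) = n
    refine ⟨_, pow_mem h1 n, ?_⟩
    rw [mul_left_comm, inv_pow, ← Units.val_pow_eq_pow_val, Units.mul_inv, mul_one]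
  · exact ⟨1, one_mem _, (one_mul _).symm⟩

/-- The blow-up. `D, W` from `exists_int_weights`; `γ' = γ + Pi.single ρ D`. New index type:
`{p : ι × Fin N // act p.1 ∧ 0 < w p.2 ∧ UnitIn (OL A.O) (t p.1 p.2)} ⊕ {l // ¬ act l}` with charts
`blA` and `blI`. Take `m₀ > 0` and `V l` from `exists_units` (one `m₀` for all `l`),
`P = ∏_(W i > 0) W i`, `g = τ ^ (m₀ * P)`. For `(l, i)`: `ξ = t i * τ ^ (-W i)`, `a = m₀ * (P / W i)`,
`υ = V l (-deg (t i)) ^ (P / W i)`; for inactive `l`: `ξ = 1`, `a = 1`, `υ = g⁻¹` (`away_one`). Then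
`z = g * ξ ^ a * υ` has degree zero, `z = hu 0 _`. Apply `exists_twist` to `Bt` (`glue_Bt`) and put
`F' = z * F ^ M`. `yglue`: for `e ≠ ρ` the new `y e` is associated with `Yt e` (`glue_Yt`), and the new
`y ρ` is associated with `τ` on every chart. -/
theorem St.blowup [CharZero k] (hA : A.Good) {I₀ : Set K} {S : Sys k K N} {γ : Gam}
    (h : St A I₀ ρ S γ) {act : S.ι → Prop} {w : Fin N → ℚ} {ν : Nu N} (hw : ∀ i, 0 ≤ w i)
    (hc : S.Cen ρ (Iset γ I₀) act w ν)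
    (hne : ∀ l, act l → ∃ i, 0 < w i ∧ UnitIn (OL A.O) ((S.ch l).t i)) :
    ∃ (S' : Sys k K N) (γ' : Gam), St A I₀ (ρ + 1) S' γ' ∧ S.Dom ρ S' (ρ + 1) ∧
      ∀ j, (S'.ch j).Bnd (ρ + 1) (Iset γ' I₀) ν := by
  classical
  have hS := h.good
  have hfin := hS.fin
  have := Fintype.ofFinite S.ι
  obtain ⟨D, hD, W, hW⟩ := exists_int_weights w hw
  have hWp : ∀ i, 0 < W i ↔ 0 < w i := fun i => by
    rw [← Nat.cast_pos (α := ℚ), hW i]
    exact mul_pos_iff_of_pos_left (Nat.cast_pos.2 hD)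
  choose m₀ hm₀ hV using fun l => (hS.good l).exists_units
  obtain ⟨m, hm, hmd⟩ : ∃ m : ℕ, 0 < m ∧ ∀ l, m₀ l ∣ m :=
    ⟨∏ l, m₀ l, Finset.prod_pos fun l _ => hm₀ l,
      fun l => Finset.dvd_prod_of_mem _ (Finset.mem_univ l)⟩
  obtain ⟨P, hP, hPd⟩ : ∃ P : ℕ, 0 < P ∧ ∀ i, 0 < W i → W i ∣ P :=
    ⟨(Finset.univ.sup W).factorial, Nat.factorial_pos _,
      fun i hi => Nat.dvd_factorial hi (Finset.le_sup (Finset.mem_univ i))⟩
  obtain ⟨n, hn⟩ : ∃ n, m * P = n + 1 := ⟨m * P - 1, by have := Nat.mul_pos hm hP; omega⟩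
  have hFm : ∀ l, (hu 0 (S.F l) : LL K) ∈ (S.ch l).B := fun l => (hS.good l).mono_mem (hS.mono l)
  have hle := fun l => (resBl4_le S ρ W act l).1
  have hτ := fun l => (resBl4_le S ρ W act l).2
  have hT : ∀ l, ∀ z ∈ ({z | ∃ a ∈ A.R0, z = sg 0 a} ∪ {z | ∃ e < ρ, z = (tau K e : LL K)} :
      Set (LL K)), z ∈ (S.ch l).B := by
    rintro l _ (⟨x, hx, rfl⟩ | ⟨e, he, rfl⟩)
    · exact (hS.good l).base x hx
    · exact (hS.good l).mono_mem ((hS.good l).tauMono e he)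
  obtain ⟨Y, hY1, hY2⟩ : ∃ Y : S.ι → ℕ → LL K, (∀ l, Y l ρ = (tau K ρ : LL K)) ∧
      ∀ l e, e ≠ ρ → Y l e = S.Yt ρ W act l e :=
    ⟨fun l e => if e = ρ then (tau K ρ : LL K) else S.Yt ρ W act l e, fun l => if_pos rfl,
      fun l e he => if_neg he⟩
  let ι' : Type := {p : S.ι × Option (Fin N) // (p.2 = none ∧ ¬ act p.1) ∨
    ∃ i, p.2 = some i ∧ act p.1 ∧ 0 < w i ∧ UnitIn (OL A.O) ((S.ch p.1).t i)}
  have key : ∀ j : ι', ∃ (c' : Chart k K N) (ξ υ : (LL K)ˣ) (a : ℕ) (z : Kˣ),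
      c'.B = away (S.Bt ρ W act j.1.1) ξ ∧ c'.Good A (ρ + 1) ∧ (S.ch j.1.1).Dom ρ c' (ρ + 1) ∧
      c'.Bnd (ρ + 1) (Iset (γ + Pi.single ρ (D : ℤ)) I₀) ν ∧
      (ξ : LL K) ∈ S.Bt ρ W act j.1.1 ∧ UnitIn (OL A.O) (ξ : LL K) ∧
      UnitIn (S.Bt ρ W act j.1.1) (υ : LL K) ∧ 0 < a ∧
      hu 0 z = tau K ρ ^ (n + 1) * ξ ^ a * υ ∧
      (∀ e, ∃ υ', UnitIn c'.B υ' ∧ c'.y e = υ' * Y j.1.1 e) ∧
      (∀ M, 0 < M → Unr (away c'.B (hu 0 z * hu 0 (S.F j.1.1) ^ M))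
        (({z | ∃ a ∈ A.R0, z = sg 0 a} ∪ {z | ∃ e < ρ, z = (tau K e : LL K)}) ∪
          {(tau K ρ : LL K)})) ∧
      (j.1.2 = none → c' = (S.ch j.1.1).blI ρ) ∧
      ∀ i, j.1.2 = some i → c' = (S.ch j.1.1).blA ρ W i ξ ∧
        (ξ : LL K) = (S.ch j.1.1).t i * (((tau K ρ)⁻¹ ^ W i : (LL K)ˣ) : LL K) := by
    rintro ⟨⟨l, o⟩, hj⟩
    dsimp only at hj ⊢
    rcases hj with ⟨rfl, hl⟩ | ⟨i, rfl, hl, hi, hti⟩
    · have hB : S.Bt ρ W act l = (S.ch l).blT ρ := if_neg hl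
      have hu1 := (S.ch l).unitIn_blT ρ
      refine ⟨(S.ch l).blI ρ, 1, (tau K ρ)⁻¹ ^ (n + 1), 1, 1, ?_, (hS.good l).blI,
        (S.ch l).dom_blI ρ, Chart.bnd_blI (hc.off l hl) D, one_mem _, unitIn_one, ?_, one_pos, ?_,
        fun e => ?_, fun M hM => ?_, fun _ => rfl, fun i hi => by simp at hi⟩
      · rw [away_one]
        exact hB.symm
      · rw [hB]
        exact resBl4_inv_pow hu1 _
      · rw [hu_zero_one, one_pow, mul_one, inv_pow, mul_inv_cancel]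
      · rw [Chart.blI_y]
        by_cases he : e = ρ
        · rw [he, hY1, (hS.good l).y_ge le_rfl]
          exact ⟨_, resBl4_inv_pow hu1 1, by rw [pow_one, Units.inv_mul]⟩
        · rw [hY2 l e he]
          exact ⟨1, unitIn_one, by rw [one_mul]; exact (if_neg hl).symm⟩
      · exact Chart.gen_blI (hFm l) (by rw [hu_zero_one]; exact unitIn_one) hM (hT l) (hS.gen l)
    · have hB : S.Bt ρ W act l = (S.ch l).blB ρ W := if_pos hl
      have hG := hS.good l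
      obtain ⟨d, hd⟩ := hG.thom i
      have ht0 := hG.t_ne_zero hA i
      have hd' : IsH (d + W i • (-Pi.single ρ 1))
          ((S.ch l).t i * (((tau K ρ)⁻¹ ^ W i : (LL K)ˣ) : LL K)) := by
        rw [Units.val_pow_eq_pow_val]
        exact hd.mul ((isH_tau ρ).inv.pow _)
      obtain ⟨ξ, hξ⟩ := Hm.exists_unit ⟨_, hd'⟩ (by
        rw [Ne, Units.mul_left_eq_zero]
        exact ht0)
      obtain ⟨q, hq⟩ := hPd i ((hWp i).2 hi)
      have hq0 : 0 < q := Nat.pos_of_ne_zero fun h0 => by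
        rw [h0, mul_zero] at hq
        omega
      obtain ⟨V, -, hVU, hVH⟩ := hV l (m * q) ((hmd l).mul_right q)
      have hVu : UnitIn (S.Bt ρ W act l) (V (-d) : LL K) := (hG.unitIn_U (hVU _)).1.mono (hle l)
      have hb : Below ρ (-d) := fun c hc => by
        rw [Pi.neg_apply, hG.below (hG.tmem i) hd ht0 c hc, neg_zero]
      have h3 := (((isH_tau (K := K) ρ).pow (n + 1)).mul ((hξ ▸ hd' :
        IsH _ (ξ : LL K)).pow (m * q))).mul (hVH _ hb)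
      have h4 : (n + 1) • (Pi.single ρ 1 : Gam) + (m * q) • (d + W i • (-Pi.single ρ 1)) +
          (m * q) • (-d) = 0 := by
        rw [← hn, hq]
        module
      rw [h4, ← Units.val_pow_eq_pow_val, ← Units.val_pow_eq_pow_val, ← Units.val_mul,
        ← Units.val_mul] at h3
      obtain ⟨z, hz⟩ := h3.exists_hu (Units.ne_zero _)
      have hz' := Units.ext hz
      have hξB : (ξ : LL K) ∈ S.Bt ρ W act l := by
        rw [hB, hξ, Chart.blB_eq]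
        exact blx_mem i
      obtain ⟨fr, hcc, hν⟩ := hc.on l hl
      have hcB : ((S.ch l).blA ρ W i ξ).B = away (S.Bt ρ W act l) ξ := by
        rw [hB]
        rfl
      refine ⟨(S.ch l).blA ρ W i ξ, ξ, V (-d), m * q, z, hcB, hG.blA ((hWp i).2 hi) hξ,
        hG.dom_blA hξ, hν ▸ hcc.bnd_blA hA hG hD hW hi hξ, hξB, ?_, hVu, Nat.mul_pos hm hq0, hz',
        fun e => ?_, fun M hM => ?_, fun h0 => by simp at h0, fun i' hi' => ?_⟩
      · rw [hξ]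
        exact hti.mul (resBl4_inv_pow (resBl4_tau A.O ρ) _)
      · by_cases he : e = ρ
        · rw [he, hY1, hG.blA_y_self]
          exact ⟨1, unitIn_one, (one_mul _).symm⟩
        · rw [hY2 l e he, show S.Yt ρ W act l e = (S.ch l).yt ρ W e from if_pos hl]
          exact hG.blA_y hξ he
      · rw [hz', mul_assoc (tau K ρ ^ (n + 1))]
        refine hG.gen_blA hξ (hFm l) ?_ n.succ_pos hM (hT l) (hS.gen l)
        rw [hcB, Units.val_mul, Units.val_pow_eq_pow_val]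
        exact ((unitIn_coe.2 ⟨le_away ξ hξB, inv_mem_away ξ⟩).pow _).mul (hVu.mono (le_away ξ))
      · obtain rfl : i = i' := Option.some.inj hi'
        exact ⟨rfl, hξ⟩
  choose ch ξ υ a z hB hG hDom hBnd hξ hξO hυ ha hz hy hgen hI hAc using key
  obtain ⟨M, hM, htw⟩ := exists_twist (ι' := ι') (S.Bt ρ W act) (fun l => hu 0 (S.F l))
    (fun l l' => by rw [resBl4_hu_div]; exact hle l (hS.div l l'))
    (fun l l' => by rw [resBl4_hu_div]; exact hS.glue_Bt h.sub hc hD hW l l') (fun j => j.1.1) ξ υ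
    (fun j => hu 0 (z j)) (tau K ρ ^ (n + 1)) a ha hξ hυ hz
  simp only [← resBl4_hu_mul_pow, resBl4_hu_div, ← hB] at htw
  have hBt : ∀ j : ι', S.Bt ρ W act j.1.1 ≤ (ch j).B := fun j => hB j ▸ le_away _
  have hxu : ∀ j : ι', UnitIn (ch j).B ((ξ j : LL K) ^ a j * υ j) := fun j =>
    (UnitIn.pow (hB j ▸ unitIn_coe.2 ⟨le_away _ (hξ j), inv_mem_away _⟩) _).mul
      ((hυ j).mono (hBt j))
  have hF : ∀ j : ι', (hu 0 (z j * S.F j.1.1 ^ M) : LL K) =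
      (tau K ρ : LL K) ^ (n + 1) * ((ξ j : LL K) ^ a j * υ j) * (hu 0 (S.F j.1.1) : LL K) ^ M := by
    intro j
    rw [resBl4_hu_mul_pow, hz j]
    simp only [Units.val_mul, Units.val_pow_eq_pow_val, mul_assoc]
  refine ⟨⟨ι', ch, fun j => z j * S.F j.1.1 ^ M⟩, γ + Pi.single ρ (D : ℤ),
    ⟨⟨inferInstance, hG, fun j => ?_, fun j => ?_, fun j j' => (htw j j').1,
      fun j j' => (htw j j').2.1, fun j j' e => ?_, fun j => ?_, fun j e => ?_, fun j => ?_,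
      fun Wv hWv => ?_⟩, fun c hc => ?_, fun c => ?_, fun j f hf => ?_⟩,
    fun j => ⟨j.1.1, hDom j⟩, hBnd⟩
  · change (ch j).B ≤ _
    rw [hB j]
    exact away_le (resBl4_int hS W act _) (unitIn_coe.1 (hξO j)).2
  · change (((z j * S.F j.1.1 ^ M)⁻¹ : Kˣ) : K) ∈ _
    have h1 : UnitIn (OL A.O) (hu 0 (z j) : LL K) := by
      rw [hz j, Units.val_mul, Units.val_mul, Units.val_pow_eq_pow_val, Units.val_pow_eq_pow_val]
      exact (((resBl4_tau A.O ρ).pow _).mul ((hξO j).pow _)).mul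
        ((hυ j).mono (resBl4_int hS W act _))
    rw [mul_inv, ← inv_pow, Units.val_mul, Units.val_pow_eq_pow_val]
    exact mul_mem (unitIn_OL_hu.1 h1).2 (pow_mem (hS.unit _) M)
  · change ∃ υ', UnitIn (away (ch j).B _) υ' ∧ (ch j').y e = υ' * (ch j).y e
    obtain ⟨υ₁, h1, e1⟩ := hy j' e
    obtain ⟨υ₂, h2, e2⟩ : ∃ υ₂, UnitIn (away (S.Bt ρ W act j.1.1)
        (hu 0 (S.F j'.1.1 / S.F j.1.1))) υ₂ ∧ Y j'.1.1 e = υ₂ * Y j.1.1 e := by
      by_cases he : e = ρ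
      · rw [he, hY1, hY1]
        exact ⟨1, unitIn_one, (one_mul _).symm⟩
      · rw [hY2 _ e he, hY2 _ e he]
        exact hS.glue_Yt hA h.sub hc hD hW _ _ e
    obtain ⟨υ₃, h3, e3⟩ := hy j e
    obtain ⟨υ₄, h4, e4⟩ := resBl4_unit_inv h3
    refine ⟨υ₁ * υ₂ * υ₄, ((h1.mono (htw j j').2.1).mul (h2.mono (htw j j').2.2)).mul
      (h4.mono (le_away _)), ?_⟩
    rw [e1, e2, e3]
    linear_combination (-(υ₁ * υ₂ * Y j.1.1 e)) * e4
  · change (ch j).Mono (ρ + 1) (hu 0 (z j * S.F j.1.1 ^ M) : LL K)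
    rw [hF j]
    exact ((((hG j).tauMono ρ ρ.lt_succ_self).pow _).mul (Chart.mono_of_unit (hxu j))).mul
      (((hDom j).2 _ (hS.mono _)).pow M)
  · change (hu 0 (z j * S.F j.1.1 ^ M) : LL K) ∈ pr1 (ch j).B ((ch j).y e)
    obtain ⟨b, hb, e1⟩ : ∃ b ∈ S.Bt ρ W act j.1.1,
        (tau K ρ : LL K) * (hu 0 (S.F j.1.1) : LL K) = b * Y j.1.1 e := by
      by_cases he : e = ρ
      · rw [he, hY1]
        exact ⟨_, hle _ (hFm _), mul_comm _ _⟩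
      · obtain ⟨β, hβ, e2⟩ := mem_pr1.1 (hS.dvd j.1.1 e)
        obtain ⟨b, hb, e3⟩ := resBl4_dvd hS W act j.1.1 e
        rw [hY2 _ e he, e2, e3]
        exact ⟨_, mul_mem (mul_mem (hτ _) (hle _ hβ)) hb, by ring⟩
    obtain ⟨υ₃, h3, e3⟩ := hy j e
    obtain ⟨υ₄, h4, e4⟩ := resBl4_unit_inv h3
    obtain ⟨M, rfl⟩ : ∃ M', M = M' + 1 := ⟨M - 1, by omega⟩
    refine mem_pr1.2 ⟨(tau K ρ : LL K) ^ n * ((ξ j : LL K) ^ a j * υ j) *
      (hu 0 (S.F j.1.1) : LL K) ^ M * b * υ₄, mul_mem (mul_mem (mul_mem (mul_mem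
        (pow_mem (hBt j (hτ _)) n) (hxu j).1) (pow_mem (hBt j (hle _ (hFm _))) M)) (hBt j hb))
          h4.1, ?_⟩
    rw [hF j, e3]
    linear_combination ((tau K ρ : LL K) ^ n * ((ξ j : LL K) ^ a j * υ j) *
      (hu 0 (S.F j.1.1) : LL K) ^ M) * e1 - ((tau K ρ : LL K) ^ n * ((ξ j : LL K) ^ a j * υ j) *
      (hu 0 (S.F j.1.1) : LL K) ^ M * b * Y j.1.1 e) * e4
  · change Unr (away (ch j).B (hu 0 (z j * S.F j.1.1 ^ M))) _
    rw [resBl4_hu_mul_pow]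
    refine (hgen j M hM).mono ?_
    rintro _ ((h1 | ⟨e, he, rfl⟩) | rfl)
    · exact Or.inl h1
    · exact Or.inr ⟨e, he.trans ρ.lt_succ_self, rfl⟩
    · exact Or.inr ⟨ρ, ρ.lt_succ_self, rfl⟩
  · obtain ⟨l, hl⟩ := hS.cover Wv hWv
    by_cases hact : act l
    · obtain ⟨i, h1, h2, h3⟩ := (hS.good l).cover_blA hA (hS.int l) hWv hl W
        ((hne l hact).imp fun i hi => ⟨(hWp i).2 hi.1, hi.2⟩)
      refine ⟨⟨(l, some i), Or.inr ⟨i, rfl, hact, (hWp i).1 h1, h2⟩⟩, fun x hx => ?_⟩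
      obtain ⟨e1, e2⟩ := hAc ⟨(l, some i), Or.inr ⟨i, rfl, hact, (hWp i).1 h1, h2⟩⟩ i rfl
      exact h3 _ e2 x (e1 ▸ hx)
    · refine ⟨⟨(l, none), Or.inl ⟨rfl, hact⟩⟩, fun x hx => ?_⟩
      have e1 := hI ⟨(l, none), Or.inl ⟨rfl, hact⟩⟩ rfl
      exact (hS.good l).cover_blI hA (hS.int l) hWv hl (e1 ▸ hx)
  · rw [Pi.add_apply, h.below c (by omega), Pi.single_eq_of_ne (by omega), add_zero]
  · rw [Pi.add_apply, Pi.single_apply]
    have := h.nonneg c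
    split_ifs <;> omega
  · refine hBt j ?_
    unfold Sys.Bt
    split_ifs with hact
    · obtain ⟨fr, hcc, -⟩ := hc.on _ hact
      exact hcc.sub_blB hW f hf
    · rw [Iset_add] at hf
      obtain ⟨f₀, hf₀, rfl⟩ := hf
      exact mul_mem ((S.ch _).le_blT ρ (h.sub _ f₀ hf₀))
        (resBl4_inv_pow ((S.ch _).unitIn_blT ρ) D).1

end Pool.Agent.Lib.MP_4287a9_ag.Res
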