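import Pool.Agent.Lib.MP_4287a9_ag.ResA1
import Pool.Agent.Lib.MP_4287a9_ag.ResAbsTay

/-! Translation between the ambient layer and ideals of the ring `S`. -/

namespace Pool.Agent.Lib.MP_4287a9_ag.Res

noncomputable section

variable {k L : Type} [Field k] [CommRing L] [Algebra k L] {N : ℕ} {S : Subalgebra k L}

/-- The ideal of `S` cut out by a submodule of `L`. -/
def idl (M : Submodule S L) : Ideal S := M.comap (Algebra.linearMap S L)

theorem mem_idl {M : Submodule S L} {z : S} : z ∈ idl M ↔ (z : L) ∈ M := Iff.rfl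

theorem PrimeAt.isPrime {q : Submodule S L} (hq : PrimeAt S q) : (idl q).IsPrime :=
  ⟨(Ideal.ne_top_iff_one _).2 hq.one, fun {a b} h => hq.prime a a.2 b b.2 h⟩

open Classical in
/-- An element of `L` seen in `S`. -/
def cutE (S : Subalgebra k L) (y : L) : S := if h : y ∈ S then ⟨y, h⟩ else 0

theorem coe_cutE {y : L} (h : y ∈ S) : (cutE S y : L) = y := by
  simp [cutE, h]

theorem cutE_coe (z : S) : cutE S (z : L) = z := Subtype.ext (coe_cutE z.2)

/-- Restriction of a derivation that preserves `S`. -/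
def resD' {δ : Derivation k L L} (h : Pres S δ) : Derivation k S S where
  toFun z := ⟨δ z, h z z.2⟩
  map_add' a b := Subtype.ext (by simp)
  map_smul' c a := Subtype.ext (by simp)
  map_one_eq_zero' := Subtype.ext (by simp)
  leibniz' a b := Subtype.ext (by simp)

open Classical in
/-- Restriction of a derivation. -/
def resD (S : Subalgebra k L) (δ : Derivation k L L) : Derivation k S S :=
  if h : Pres S δ then resD' h else 0

theorem coe_resD {δ : Derivation k L L} (h : Pres S δ) (z : S) : (resD S δ z : L) = δ z := by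
  rw [resD, dif_pos h]
  rfl

theorem idl_Jw {t : Fin N → L} {w : Fin N → ℚ} (ht : ∀ i, 0 < w i → t i ∈ S) (d : ℚ) :
    idl (Jw S t w d) = Abs.wJ (fun i => cutE S (t i)) w d := by
  refine le_antisymm (fun z hz => ?_) (Ideal.span_le.2 ?_)
  · have : Jw S t w d ≤
        Submodule.map (Algebra.linearMap S L) (Abs.wJ (fun i => cutE S (t i)) w d) := by
      refine Submodule.span_le.2 ?_
      rintro _ ⟨α, h0, hα, rfl⟩
      refine ⟨∏ i, cutE S (t i) ^ α i, Abs.mono_mem_wJ _ w α (by simpa [mul_comm] using hα), ?_⟩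
      rw [Algebra.linearMap_apply, map_prod]
      refine Finset.prod_congr rfl fun i _ => ?_
      rcases lt_or_ge 0 (w i) with h | h
      · rw [map_pow]
        exact congrArg (· ^ α i) (coe_cutE (ht i h))
      · simp [h0 i h]
    obtain ⟨z', hz', h⟩ := this hz
    rwa [← Subtype.ext h]
  · rintro _ ⟨a, ha, rfl⟩
    rw [← Finset.prod_filter_mul_prod_filter_not Finset.univ (fun i => 0 < w i)]
    refine Ideal.mul_mem_right _ _ (Submodule.subset_span
      ⟨fun i => if 0 < w i then a i else 0, fun i hi => if_neg (not_lt.2 hi), ?_, ?_⟩)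
    · refine ha.trans (Finset.sum_le_sum fun i _ => ?_)
      beta_reduce
      split_ifs with h
      · rw [mul_comm]
      · simpa using mul_nonpos_of_nonneg_of_nonpos (Nat.cast_nonneg _) (not_lt.1 h)
    · rw [Algebra.linearMap_apply, map_prod, Finset.prod_filter]
      refine Finset.prod_congr rfl fun i _ => ?_
      beta_reduce
      split_ifs with h
      · rw [map_pow]
        exact congrArg (· ^ a i) (coe_cutE (ht i h))
      · simp

theorem idl_pr1 (y : S) : idl (pr1 S (y : L)) = Ideal.span {y} := by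
  ext z
  rw [mem_idl, mem_pr1, Ideal.mem_span_singleton']
  exact ⟨fun ⟨c, hc, h⟩ => ⟨⟨c, hc⟩, Subtype.ext h.symm⟩,
    fun ⟨c, h⟩ => ⟨c, c.2, (congrArg Subtype.val h).symm⟩⟩

theorem idl_span_range (t : Fin N → S) :
    idl (Submodule.span S (Set.range fun i => (t i : L))) = Ideal.span (Set.range t) := by
  have : Submodule.span S (Set.range fun i => (t i : L)) =
      Submodule.map (Algebra.linearMap S L) (Ideal.span (Set.range t)) := by
    rw [Ideal.span, Submodule.map_span, ← Set.range_comp]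
    rfl
  rw [idl, this, Submodule.comap_map_eq_of_injective Subtype.val_injective]

theorem sat_iff {q M : Submodule S L} [(idl q).IsPrime] (z : S) :
    Sat q M (z : L) ↔ z ∈ Abs.sat (idl q) (idl M) :=
  ⟨fun ⟨σ, hσ, h1, h2⟩ => ⟨⟨σ, hσ⟩, h1, h2⟩, fun ⟨σ, h1, h2⟩ => ⟨σ, σ.2, h1, h2⟩⟩

theorem sat_of_sat_le {q M M' : Submodule S L} [(idl q).IsPrime] (hM : ∀ y ∈ M, y ∈ S)
    (h : Abs.sat (idl q) (idl M) ≤ Abs.sat (idl q) (idl M')) {z : L} (hz : Sat q M z) :
    Sat q M' z := by
  obtain ⟨σ, hσ, h1, h2⟩ := hz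
  obtain ⟨s, hs, h3⟩ := h (Abs.le_sat _ (show (⟨σ * z, hM _ h2⟩ : S) ∈ idl M from h2))
  refine ⟨s * σ, mul_mem s.2 hσ, Abs.mul_notMem (q := idl q) (b := ⟨σ, hσ⟩) hs h1, ?_⟩
  rw [mul_assoc]
  exact h3

theorem asAt_of_sat {q : Submodule S L} [(idl q).IsPrime] {a b : S}
    (h1 : Sat q (pr1 S (b : L)) (a : L)) (h2 : Sat q (pr1 S (a : L)) (b : L)) :
    Abs.AsAt (idl q) a b := by
  rw [sat_iff, idl_pr1] at h1 h2
  obtain ⟨σ, hσ, h1⟩ := h1
  obtain ⟨σ', hσ', h2⟩ := h2
  obtain ⟨c, h1⟩ := Ideal.mem_span_singleton'.1 h1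
  obtain ⟨c', h2⟩ := Ideal.mem_span_singleton'.1 h2
  by_cases hc : c ∈ idl q
  · have h3 : σ * σ' - c * c' ∉ idl q := fun h => Abs.mul_notMem hσ hσ' (by
      simpa using add_mem h (Ideal.mul_mem_right c' _ hc))
    refine ⟨σ * σ' - c * c', σ' * (σ * σ' - c * c'), h3, Abs.mul_notMem hσ' h3, ?_⟩
    have h4 : (σ * σ' - c * c') * a = 0 := by linear_combination -σ' * h1 - c * h2
    linear_combination (1 - c') * h4 + (σ * σ' - c * c') * h2
  · exact ⟨σ, c, hσ, hc, h1.symm⟩

theorem coe_app {Ld : List (Derivation k L L × Fin N)} (h : ∀ p ∈ Ld, Pres S p.1) (f : S) :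
    ((Abs.app (Ld.map fun p => (resD S p.1, p.2)) f : S) : L) = app Ld f := by
  induction Ld with
  | nil => rfl
  | cons p Ld ih =>
    have := ih fun p' hp' => h p' (List.mem_cons_of_mem _ hp')
    simp only [Abs.app, app, List.map_cons, List.foldr_cons] at this ⊢
    rw [coe_resD (h p List.mem_cons_self), this]

theorem coe_dl {D : Fin N → Derivation k L L} (h : ∀ i, Pres S (D i)) (Ls : List (Fin N))
    (f : S) : ((Abs.dl (fun i => resD S (D i)) Ls f : S) : L) = appI D Ls f := by
  induction Ls with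
  | nil => rfl
  | cons i Ls ih =>
    simp only [Abs.dl, appI, List.foldr_cons] at ih ⊢
    rw [coe_resD (h i), ih]

theorem PrimeAt.natCast_notMem [CharZero k] {q : Submodule S L} (hq : PrimeAt S q) (m : ℕ)
    (hm : m ≠ 0) : (m : S) ∉ idl q := by
  intro h
  have h1 : ((m : k)⁻¹ • (m : S)) ∈ idl q := by
    rw [Algebra.smul_def]
    exact Ideal.mul_mem_left _ _ h
  rw [← map_natCast (algebraMap k S), Algebra.smul_def, ← map_mul,
    inv_mul_cancel₀ (Nat.cast_ne_zero.2 hm), map_one] at h1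
  exact hq.one h1

end

end Pool.Agent.Lib.MP_4287a9_ag.Res
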