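import Pool.Agent.Lib.MP_4287a9_ag.ResBr

/-! Taylor expansion at a point and the choice of the next weight. -/

namespace Pool.Agent.Lib.MP_4287a9_ag.Res

variable {k L : Type} [Field k] [CommRing L] [Algebra k L] {N : ℕ} {S : Subalgebra k L}

/-- Coordinates at the point `q` with dual derivations. -/
structure Coord (S : Subalgebra k L) (q : Submodule S L) (t : Fin N → L)
    (D : Fin N → Derivation k L L) : Prop where
  prime : PrimeAt S q
  mem : ∀ i, t i ∈ q
  pres : ∀ i, Pres S (D i)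
  dual : ∀ i j, D i (t j) = if i = j then 1 else 0
  comm : ∀ i j, ∀ y ∈ S, D i (D j y) = D j (D i y)
  gen : ∀ y ∈ q, Sat q (Submodule.span S (Set.range t)) y

theorem appI_mem {D : Fin N → Derivation k L L} (hD : ∀ i, Pres S (D i)) (Ls : List (Fin N))
    {f : L} (hf : f ∈ S) : appI D Ls f ∈ S := by
  induction Ls with
  | nil => exact hf
  | cons i Ls ih => exact hD i _ ih

theorem appI_perm {D : Fin N → Derivation k L L} (hD : ∀ i, Pres S (D i))
    (hc : ∀ i j, ∀ y ∈ S, D i (D j y) = D j (D i y)) {Ls Ls' : List (Fin N)} (h : Ls.Perm Ls')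
    {f : L} (hf : f ∈ S) : appI D Ls f = appI D Ls' f := by
  induction h with
  | nil => rfl
  | cons i _ ih => exact congrArg (D i) ih
  | swap i j Ls => exact hc j i _ (appI_mem hD Ls hf)
  | trans _ _ ih ih' => exact ih.trans ih' 

theorem appI_sat_Jw {q : Submodule S L} {t : Fin N → L} {D : Fin N → Derivation k L L}
    (h : Coord S q t D) {w : Fin N → ℚ} (hw : ∀ i, 0 ≤ w i) (Ls : List (Fin N)) {d : ℚ} {f : L}
    (hf : Sat q (Jw S t w d) f) : Sat q (Jw S t w (d - (Ls.map w).sum)) (appI D Ls f) := by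
  induction Ls with
  | nil => simpa [appI] using hf
  | cons i Ls ih =>
    have := deriv_sat_Jw h.prime (fun l _ => h.prime.sub _ (h.mem l)) (h.pres i) (hw i)
      (fun l hl => by rw [h.dual, if_neg fun e => absurd hl (by rw [e]; exact lt_irrefl _)]) ih
    rw [List.map_cons, List.sum_cons, add_comm, ← sub_sub]
    exact this

theorem Coord.dual' {q : Submodule S L} {t : Fin N → L} {D : Fin N → Derivation k L L}
    (h : Coord S q t D) (i j : Fin N) :
    resD S (D i) (cutE S (t j)) = if i = j then 1 else 0 := by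
  refine Subtype.ext ?_
  rw [coe_resD (h.pres i), coe_cutE (h.prime.sub _ (h.mem j)), h.dual]
  split_ifs <;> rfl

theorem Coord.gen' {q : Submodule S L} [(idl q).IsPrime] {t : Fin N → L}
    {D : Fin N → Derivation k L L} (h : Coord S q t D) :
    idl q ≤ Abs.sat (idl q) (Ideal.span (Set.range fun i => cutE S (t i))) := by
  intro z hz
  rw [← idl_span_range, ← sat_iff]
  simp only [coe_cutE (h.prime.sub _ (h.mem _))]
  exact h.gen z hz

/-- Taylor lemma. All weights are positive, so only finitely many weights of monomials are below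
`d` (or clear denominators and induct on integers). If `σ f ∈ Jw d'` with `d' < d`, write
`σ f = Σ_(weight α = d') c_α t^α + (higher weight)`; for `Ls` with multiplicities `β` of weight
`d'` one has `appI D Ls (σ f) ≡ σ * appI D Ls f` and `≡ β! c_β` modulo `q`; so `c_β ∈ q`, and
`c_β t^β` is in the saturation of a weighted ideal of higher weight by `gen`. -/
theorem taylor [CharZero k] {q : Submodule S L} {t : Fin N → L} {D : Fin N → Derivation k L L}
    (h : Coord S q t D) {w : Fin N → ℚ} (hw : ∀ i, 0 < w i) {d : ℚ} {f : L} (hf : f ∈ S)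
    (h0 : ∀ Ls : List (Fin N), (Ls.map w).sum < d → appI D Ls f ∈ q) :
    Sat q (Jw S t w d) f := by
  have := h.prime.isPrime
  refine (sat_iff ⟨f, hf⟩).2 ?_
  rw [idl_Jw fun i _ => h.prime.sub _ (h.mem i)]
  refine Abs.taylor_pos h.prime.natCast_notMem h.dual' h.gen' hw fun Ls hL => ?_
  rw [mem_idl, coe_dl h.pres]
  exact h0 Ls hL

/-- Taylor lemma for nonnegative weights. -/
theorem taylor0 [CharZero k] [IsNoetherianRing S] {q : Submodule S L} {t : Fin N → L}
    {D : Fin N → Derivation k L L} (h : Coord S q t D) {w : Fin N → ℚ} (hw : ∀ i, 0 ≤ w i) {d : ℚ}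
    {f : L} (hf : f ∈ S) (h0 : ∀ Ls : List (Fin N), (Ls.map w).sum < d → appI D Ls f ∈ q) :
    Sat q (Jw S t w d) f := by
  have := h.prime.isPrime
  refine (sat_iff ⟨f, hf⟩).2 ?_
  rw [idl_Jw fun i _ => h.prime.sub _ (h.mem i)]
  refine Abs.taylor h.prime.natCast_notMem h.dual' (fun i => ?_) h.gen' hw fun Ls hL => ?_
  · rw [mem_idl, coe_cutE (h.prime.sub _ (h.mem i))]
    exact h.mem i
  · rw [mem_idl, coe_dl h.pres]
    exact h0 Ls hL

/-- Krull intersection in the localization of `S` at `q`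
(`Ideal.iInf_pow_eq_bot_of_isLocalRing` in the quotient, or
`Ideal.mem_iInf_smul_pow_eq_bot_iff`). -/
theorem sat_of_forall_pow [IsNoetherianRing S] {q M : Submodule S L} (hq : PrimeAt S q)
    (hM : ∀ y ∈ M, y ∈ S) {f : L} (hf : f ∈ S)
    (h : ∀ m : ℕ, Sat q (M ⊔ Submodule.span S {z | ∃ a : Fin m → L, (∀ i, a i ∈ q) ∧
      z = ∏ i, a i}) f) : Sat q M f := by
  have := hq.isPrime
  refine (sat_iff ⟨f, hf⟩).2 (Abs.mem_sat_of_forall (T := idl q) le_rfl fun m => ?_)
  obtain ⟨σ, hσ, h1, h2⟩ := h m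
  refine ⟨⟨σ, hσ⟩, h1, ?_⟩
  obtain ⟨a, ha, b, hb, hab⟩ := Submodule.mem_sup.1 h2
  have h3 : Submodule.span S {z | ∃ a : Fin m → L, (∀ i, a i ∈ q) ∧ z = ∏ i, a i} ≤
      Submodule.map (Algebra.linearMap S L) (idl q ^ m) := by
    refine Submodule.span_le.2 ?_
    rintro _ ⟨a, ha, rfl⟩
    refine ⟨∏ i, (⟨a i, hq.sub _ (ha i)⟩ : S), ?_, by simp⟩
    have := Ideal.prod_mem_prod (s := Finset.univ) (I := fun _ : Fin m => idl q)
      (x := fun i => (⟨a i, hq.sub _ (ha i)⟩ : S)) fun i _ => ha i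
    simpa using this
  obtain ⟨b', hb', rfl⟩ := h3 hb
  exact Submodule.mem_sup.2 ⟨⟨a, hM a ha⟩, ha, b', hb', Subtype.ext hab⟩

end Pool.Agent.Lib.MP_4287a9_ag.Res
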