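import Pool.Agent.Lib.MP_4287a9_ag.ResB4
import Pool.Agent.Lib.MP_4287a9_ag.ResTay

/-! The coordinates generate the homogeneous prime. -/

namespace Pool.Agent.Lib.MP_4287a9_ag.Res

variable {k K : Type} [Field k] [Field K] [Algebra k K] {N : ℕ}

variable {A : Amb k K N} {ρ : ℕ} {c : Chart k K N}

theorem ResC1_unr {R B : Type} [CommRing R] [CommRing B] [Algebra R B]
    [Algebra.FormallyUnramified R B] [Algebra.FiniteType R B] (q : Ideal B) [q.IsPrime] {z : B}
    (hz : z ∈ q) : ∃ σ, σ ∉ q ∧ σ * z ∈ (q.under R).map (algebraMap R B) := by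
  let := Localization.AtPrime.algebraOfLiesOver (q.under R) q
  have h0 : Algebra.IsUnramifiedAt R q :=
    Algebra.FormallyUnramified.comp R B (Localization.AtPrime q)
  have h1 := ((Algebra.isUnramifiedAt_iff_map_eq R (q.under R) q).1 h0).2
  have h2 : algebraMap B (Localization.AtPrime q) z ∈
      ((q.under R).map (algebraMap R B)).map (algebraMap B (Localization.AtPrime q)) := by
    rw [Ideal.map_map, ← IsScalarTower.algebraMap_eq, h1]
    exact (IsLocalization.AtPrime.to_map_mem_maximal_iff _ q z).2 hz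
  exact (IsLocalization.algebraMap_mem_map_algebraMap_iff q.primeCompl _ _ _).1 h2

theorem ResC1_zpow {γ : Gam} {σ : (LL K)ˣ} (h : IsH γ (σ : LL K)) (n : ℤ) :
    IsH (n • γ) ((σ ^ n : (LL K)ˣ) : LL K) := by
  cases n with
  | ofNat m => simpa using h.pow m
  | negSucc m =>
    have h1 : IsH ((m + 1) • γ) ((σ ^ (m + 1) : (LL K)ˣ) : LL K) := by
      rw [Units.val_pow_eq_pow_val]
      exact h.pow (m + 1)
    rw [zpow_negSucc, negSucc_zsmul]
    exact h1.inv

theorem ResC1_repr {υ : (LL K)ˣ} (hυ : υ ∈ c.U ρ) :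
    ∃ n : ℕ → ℤ, υ = ∏ e ∈ Finset.range ρ, c.u e ^ n e := by
  induction hυ using Subgroup.closure_induction with
  | mem v hv =>
    obtain ⟨e, he, rfl⟩ := hv
    refine ⟨Pi.single e 1, ?_⟩
    rw [Finset.prod_eq_single e, Pi.single_eq_same, zpow_one]
    · intro b _ hb
      rw [Pi.single_eq_of_ne hb, zpow_zero]
    · intro h
      exact absurd (Finset.mem_range.2 he) h
  | one => exact ⟨0, by simp⟩
  | mul a b _ _ ha hb =>
    obtain ⟨n, rfl⟩ := ha
    obtain ⟨n', rfl⟩ := hb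
    exact ⟨n + n', by simp only [Pi.add_apply, zpow_add, Finset.prod_mul_distrib]⟩
  | inv a _ ha =>
    obtain ⟨n, rfl⟩ := ha
    exact ⟨-n, by simp only [Pi.neg_apply, zpow_neg, Finset.prod_inv_distrib]⟩

theorem ResC1_tri {γ : ℕ → Gam} {n : ℕ → ℤ} {m : ℕ}
    (hγ : ∀ e < m, γ e e ≠ 0 ∧ Below (e + 1) (γ e)) (h : ∑ e ∈ Finset.range m, n e • γ e = 0) :
    ∀ e < m, n e = 0 := by
  induction m with
  | zero => exact fun e he => absurd he (Nat.not_lt_zero e)
  | succ m ih =>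
    rw [Finset.sum_range_succ] at h
    have h1 := congrFun h m
    rw [Pi.add_apply, Finset.sum_apply, Finset.sum_eq_zero (fun e he => by
      have he' := Finset.mem_range.1 he
      rw [Pi.smul_apply, (hγ e (by omega)).2 m (by omega), smul_zero]), zero_add, Pi.smul_apply,
      smul_eq_mul, Pi.zero_apply] at h1
    have h2 : n m = 0 := (mul_eq_zero.1 h1).resolve_right (hγ m (by omega)).1
    rw [h2, zero_smul, add_zero] at h
    intro e he
    rcases Nat.lt_succ_iff_lt_or_eq.1 he with h3 | h3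
    · exact ih (fun e he => hγ e (by omega)) h e h3
    · rw [h3, h2]

theorem ResC1_one (h : c.Good A ρ) {υ : (LL K)ˣ} (hυ : υ ∈ c.U ρ) (h0 : IsH 0 (υ : LL K)) :
    υ = 1 := by
  obtain ⟨n, rfl⟩ := ResC1_repr hυ
  choose! γ hγ using h.udeg
  have key : ∀ m ≤ ρ, IsH (∑ e ∈ Finset.range m, n e • γ e)
      ((∏ e ∈ Finset.range m, c.u e ^ n e : (LL K)ˣ) : LL K) := by
    intro m hm
    induction m with
    | zero => exact ⟨1, by simp [AddMonoidAlgebra.one_def]⟩
    | succ m ih =>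
      rw [Finset.sum_range_succ, Finset.prod_range_succ, Units.val_mul]
      exact (ih (by omega)).mul (ResC1_zpow (hγ m (by omega)).1 _)
  have h1 := ResC1_tri (fun e he => (hγ e he).2)
    ((key ρ le_rfl).unique h0 (Units.ne_zero _))
  exact Finset.prod_eq_one fun e he => by rw [h1 e (Finset.mem_range.1 he), zpow_zero]

theorem ResC1_eq (h : c.Good A ρ) {γ : Gam} {υ υ' : (LL K)ˣ} (hυ : υ ∈ c.U ρ) (hυ' : υ' ∈ c.U ρ)
    (h1 : IsH γ (υ : LL K)) (h2 : IsH γ (υ' : LL K)) : υ = υ' := by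
  have h3 := h1.mul h2.inv
  rw [add_neg_cancel, ← Units.val_mul] at h3
  exact mul_inv_eq_one.1 (ResC1_one h (mul_mem hυ (inv_mem hυ')) h3)

theorem ResC1_prj_smul (γ : Gam) (a : k) (z : LL K) : prj γ (a • z) = a • prj γ z := by
  simp [prj, AddMonoidAlgebra.smul_single]

theorem ResC1_comp (h : c.Good A ρ) {b : LL K}
    (hb : b ∈ Submodule.span k {z : LL K | ∃ υ ∈ c.U ρ, z = (υ : LL K)}) (γ : Gam) :
    prj γ b = 0 ∨ ∃ υ ∈ c.U ρ, IsH γ (υ : LL K) ∧ ∃ a : k, prj γ b = a • (υ : LL K) := by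
  induction hb using Submodule.span_induction with
  | mem z hz =>
    obtain ⟨υ, hυ, rfl⟩ := hz
    obtain ⟨β, hβ⟩ := (h.unitIn_U hυ).2
    by_cases e : γ = β
    · subst e
      exact Or.inr ⟨υ, hυ, hβ, 1, by rw [hβ.prj_self, one_smul]⟩
    · exact Or.inl (hβ.prj_ne e)
  | zero => exact Or.inl (by simp [prj])
  | add x y _ _ hx hy =>
    rw [prj_add]
    rcases hx with hx | ⟨υ, hυ, h1, a, hx⟩
    · rwa [hx, zero_add]
    rcases hy with hy | ⟨υ', hυ', h2, a', hy⟩
    · rw [hy, add_zero]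
      exact Or.inr ⟨υ, hυ, h1, a, hx⟩
    · refine Or.inr ⟨υ, hυ, h1, a + a', ?_⟩
      rw [hx, hy, ResC1_eq h hυ hυ' h1 h2, add_smul]
  | smul a x _ hx =>
    rw [ResC1_prj_smul]
    rcases hx with hx | ⟨υ, hυ, h1, a', hx⟩
    · exact Or.inl (by rw [hx, smul_zero])
    · exact Or.inr ⟨υ, hυ, h1, a * a', by rw [hx, mul_smul]⟩

theorem ResC1_zero (h : c.Good A ρ) {q : Submodule c.B (LL K)} (hq : GPt c.B q) {b : LL K}
    (hb : b ∈ Submodule.span k {z : LL K | ∃ υ ∈ c.U ρ, z = (υ : LL K)}) (hbq : b ∈ q) :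
    b = 0 := by
  rw [← sum_prj b]
  refine Finset.sum_eq_zero fun γ _ => ?_
  rcases ResC1_comp h hb γ with h0 | ⟨υ, hυ, -, a, ha⟩
  · exact h0
  by_cases ha0 : a = 0
  · rw [ha, ha0, zero_smul]
  have h1 := mul_mem_sub (c.B.algebraMap_mem a⁻¹) (hq.gr b hbq γ)
  rw [ha, ← Algebra.smul_def, inv_smul_smul₀ ha0] at h1
  exact absurd h1 (hq.prime.notMem_of_unitIn (h.unitIn_U hυ).1)

theorem ResC1_span_mem (h : c.Good A ρ) {b : LL K}
    (hb : b ∈ Submodule.span k {z : LL K | ∃ υ ∈ c.U ρ, z = (υ : LL K)}) : b ∈ c.B := by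
  refine (Submodule.span_le (p := Subalgebra.toSubmodule c.B)).2 ?_ hb
  rintro _ ⟨υ, hυ, rfl⟩
  exact (h.unitIn_U hυ).1.1

theorem ResC1_split (h : c.Good A ρ) {y : c.B} (hy : y ∈ Algebra.adjoin k
      {y : c.B | (y : LL K) ∈ Set.range c.t ∨ ∃ υ ∈ c.U ρ, (y : LL K) = (υ : LL K)}) :
    ∃ b ∈ Submodule.span k {z : LL K | ∃ υ ∈ c.U ρ, z = (υ : LL K)},
      (y : LL K) - b ∈ Submodule.span c.B (Set.range c.t) := by
  induction hy using Algebra.adjoin_induction with
  | mem y hy =>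
    rcases hy with hy | hy
    · exact ⟨0, zero_mem _, by rw [sub_zero]; exact Submodule.subset_span hy⟩
    · exact ⟨y, Submodule.subset_span hy, by rw [sub_self]; exact zero_mem _⟩
  | algebraMap a =>
    refine ⟨a • (1 : LL K), Submodule.smul_mem _ a (Submodule.subset_span ⟨1, one_mem _, rfl⟩), ?_⟩
    rw [Subalgebra.coe_algebraMap, Algebra.algebraMap_eq_smul_one, sub_self]
    exact zero_mem _
  | add x y _ _ hx hy =>
    obtain ⟨b, hb, hx⟩ := hx
    obtain ⟨b', hb', hy⟩ := hy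
    refine ⟨b + b', add_mem hb hb', ?_⟩
    rw [Subalgebra.coe_add, add_sub_add_comm]
    exact add_mem hx hy
  | mul x y _ _ hx hy =>
    obtain ⟨b, hb, hx⟩ := hx
    obtain ⟨b', hb', hy⟩ := hy
    refine ⟨b * b', ?_, ?_⟩
    · have h1 := Submodule.mul_mem_mul hb hb'
      rw [Submodule.span_mul_span] at h1
      refine Submodule.span_mono ?_ h1
      rintro _ ⟨_, ⟨υ, hυ, rfl⟩, _, ⟨υ', hυ', rfl⟩, rfl⟩
      exact ⟨υ * υ', mul_mem hυ hυ', rfl⟩
    · have e : ((x * y : c.B) : LL K) - b * b' = (y : LL K) * (x - b) + b * (y - b') := by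
        rw [Subalgebra.coe_mul]
        ring
      rw [e]
      exact add_mem (mul_mem_sub y.2 hx) (mul_mem_sub (ResC1_span_mem h hb) hy)

theorem ResC1_fu {S : Subalgebra k (LL K)} {T : Set (LL K)} (hu : Unr S T) (R : Subalgebra k S)
    (hR : ∀ y : S, (y : LL K) ∈ T → y ∈ R) : Algebra.FormallyUnramified R S := by
  have h1 := hu Ω[S⁄R] ((KaehlerDifferential.D R S).restrictScalars k) fun y hy =>
    (KaehlerDifferential.D R S).map_algebraMap (⟨y, hR y hy⟩ : R)
  refine ⟨subsingleton_of_forall_eq 0 fun x => ?_⟩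
  have h2 : x ∈ Submodule.span S (Set.range (KaehlerDifferential.D R S)) := by
    rw [KaehlerDifferential.span_range_derivation]
    exact Submodule.mem_top
  refine (Submodule.span_le (p := ⊥)).2 ?_ h2
  rintro _ ⟨y, rfl⟩
  exact congrArg (fun D : Derivation k S Ω[S⁄R] => D y) h1

/-- If all `t i` vanish at the homogeneous prime `q`, they generate it locally.
Let `P = k[t, u, u⁻¹] ≤ c.B` (`Algebra.adjoin`). (1) `c.B` is formally unramified over `P`: apply
`h.unr` to the universal derivation `c.B → Ω[c.B⁄P]` (restrict scalars to `k`); it vanishes, and its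
range spans. It is of finite type. (2) `q ∩ P = (t) P`: every element of `P` is a sum of an element
of `(t) P` and a `k`-combination of elements of the group `c.U ρ`; two elements of `c.U ρ` of the
same degree are equal (triangular degrees; write them as `∏ u e ^ n e`), so after taking
homogeneous components an element of `q` among these combinations is a sum of terms `a • υ ∈ q`,
which forces `a = 0`. (3) `Algebra.isUnramifiedAt_iff_map_eq` or
`Algebra.FormallyUnramified.map_maximalIdeal`: `q B_q = (q ∩ P) B_q`. -/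
theorem Chart.Good.sat_span (h : c.Good A ρ) {q : Submodule c.B (LL K)} (hq : GPt c.B q)
    (ht : ∀ i, c.t i ∈ q) {z : LL K} (hz : z ∈ q) :
    Sat q (Submodule.span c.B (Set.range c.t)) z := by
  let R : Subalgebra k c.B := Algebra.adjoin k
    {y : c.B | (y : LL K) ∈ Set.range c.t ∨ ∃ υ ∈ c.U ρ, (y : LL K) = (υ : LL K)}
  have hfu : Algebra.FormallyUnramified R c.B := ResC1_fu h.unr R fun y hy =>
    Algebra.subset_adjoin (hy.imp id fun ⟨e, he, h1⟩ =>
      ⟨c.u e, Subgroup.subset_closure ⟨e, he, rfl⟩, h1⟩)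
  have hft : Algebra.FiniteType k c.B := (Subalgebra.fg_iff_finiteType _).1 h.fg'
  have hft' : Algebra.FiniteType R c.B :=
    Algebra.FiniteType.of_restrictScalars_finiteType k R c.B
  let Q : Ideal c.B := q.comap (Algebra.linearMap c.B (LL K))
  have hQ : ∀ y : c.B, y ∈ Q ↔ (y : LL K) ∈ q := fun y => Iff.rfl
  have hp : Q.IsPrime := ⟨(Ideal.ne_top_iff_one Q).2 hq.prime.one, fun {a b} hab =>
    hq.prime.prime a a.2 b b.2 hab⟩
  obtain ⟨σ, hσ, h1⟩ := ResC1_unr (R := R) Q (z := ⟨z, hq.prime.sub z hz⟩) hz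
  have h2 : (Q.under R).map (algebraMap R c.B) ≤
      (Submodule.span c.B (Set.range c.t)).comap (Algebra.linearMap c.B (LL K)) := by
    refine Ideal.map_le_iff_le_comap.2 fun y hy => ?_
    obtain ⟨b, hb, h3⟩ := ResC1_split h y.2
    have h4 : ((y : c.B) : LL K) ∈ q := hy
    have h5 : Submodule.span c.B (Set.range c.t) ≤ q :=
      Submodule.span_le.2 (Set.range_subset_iff.2 ht)
    have h6 : b ∈ q := by
      have h7 := sub_mem h4 (h5 h3)
      rwa [sub_sub_cancel] at h7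
    rw [ResC1_zero h hq hb h6, sub_zero] at h3
    exact h3
  exact ⟨σ, σ.2, hσ, h2 h1⟩

theorem Chart.Good.coord (h : c.Good A ρ) {q : Submodule c.B (LL K)} (hq : GPt c.B q)
    (ht : ∀ i, c.t i ∈ q) {D : Fin N → Derivation k (LL K) (LL K)} (hD : c.Dual ρ D) :
    Coord c.B q c.t D :=
  ⟨hq.prime, ht, hD.pres, hD.dual, hD.comm, fun _ hz => h.sat_span hq ht hz⟩

end Pool.Agent.Lib.MP_4287a9_ag.Res
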