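import Pool.Agent.Lib.MP_4287a9_ag.ResB4

/-! Coordinates centred at a point. -/

namespace Pool.Agent.Lib.MP_4287a9_ag.Res

variable {k K : Type} [Field k] [Field K] [Algebra k K] {N : ℕ}

variable {A : Amb k K N} {ρ : ℕ} {c : Chart k K N}

theorem ResC2_aeval (a : K) (P : Polynomial k) :
    sg 0 (Polynomial.aeval a P) = Polynomial.aeval (sg 0 a : LL K) P :=
  (Polynomial.aeval_algebraMap_apply (LL K) a P).symm

theorem ResC2_aeval_mem {S : Subalgebra k (LL K)} {a : K} (h : sg 0 a ∈ S) (P : Polynomial k) :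
    sg 0 (Polynomial.aeval a P) ∈ S := by
  rw [ResC2_aeval]
  have h1 := Polynomial.aeval_algHom_apply S.val (⟨_, h⟩ : S) P
  rw [Subalgebra.coe_val] at h1
  rw [h1]
  exact Subtype.property _

theorem ResC2_isUnit {S : Subalgebra k (LL K)} {x : S} (h : UnitIn S (x : LL K)) : IsUnit x := by
  obtain ⟨-, υ, hυ, h1⟩ := h
  exact IsUnit.of_mul_eq_one (⟨υ, hυ⟩ : S) (Subtype.ext h1)

theorem ResC2_prod_notMem {S : Subalgebra k (LL K)} {q : Submodule S (LL K)} (hq : PrimeAt S q)
    {ι : Type} (s : Finset ι) {f : ι → LL K} (h : ∀ i, f i ∈ S ∧ f i ∉ q) :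
    ∏ i ∈ s, f i ∉ q := by
  classical
  induction s using Finset.induction_on with
  | empty => simpa using hq.one
  | insert i s hi ih =>
    rw [Finset.prod_insert hi]
    exact hq.mul_notMem (h i).1 (S.prod_mem fun j _ => (h j).1) (h i).2 ih

/-- A derivation that kills the `u e` kills the group they generate. -/
theorem ResC2_kill_U (h : c.Good A ρ) {M : Type} [AddCommGroup M] [Module k M] [Module c.B M]
    [IsScalarTower k c.B M] (D : Derivation k c.B M)
    (hD : ∀ y : c.B, (∃ e < ρ, (y : LL K) = (c.u e : LL K)) → D y = 0) {υ : (LL K)ˣ}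
    (hυ : υ ∈ c.U ρ) : ∀ y : c.B, (y : LL K) = (υ : LL K) → D y = 0 := by
  induction hυ using Subgroup.closure_induction with
  | mem x hx =>
    obtain ⟨e, he, rfl⟩ := hx
    exact fun y hy => hD y ⟨e, he, hy⟩
  | one =>
    intro y hy
    have h1 : y = 1 := Subtype.ext hy
    rw [h1, D.map_one_eq_zero]
  | mul x x' hx hx' ih ih' =>
    intro y hy
    have h1 : y = ⟨_, (h.unitIn_U hx).1.1⟩ * ⟨_, (h.unitIn_U hx').1.1⟩ := Subtype.ext hy
    rw [h1, D.leibniz, ih ⟨_, (h.unitIn_U hx).1.1⟩ rfl, ih' ⟨_, (h.unitIn_U hx').1.1⟩ rfl,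
      smul_zero, smul_zero, add_zero]
  | inv x hx ih =>
    intro y hy
    have h1 : y * ⟨_, (h.unitIn_U hx).1.1⟩ = 1 := Subtype.ext (by
      change (y : LL K) * (x : LL K) = 1
      rw [hy, Units.inv_mul])
    have h2 := congrArg D h1
    rw [D.leibniz, ih _ rfl, smul_zero, zero_add, D.map_one_eq_zero] at h2
    have h3 := congrArg (fun v => y • v) h2
    simpa only [smul_smul, h1, one_smul, smul_zero] using h3

/-- A polynomial of minimal degree with `P (a) ∈ q` has `P' (a) ∉ q` (characteristic zero). -/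
theorem AlgAt.exists_sep [CharZero k] {S : Subalgebra k (LL K)} {q : Submodule S (LL K)}
    (hq : PrimeAt S q) (ha : AlgAt S q) {a : K} (h : sg 0 a ∈ S) :
    ∃ P : Polynomial k, sg 0 (Polynomial.aeval a P) ∈ q ∧
      sg 0 (Polynomial.aeval a (Polynomial.derivative P)) ∉ q := by
  obtain ⟨P, hP0, hP⟩ := ha a h
  induction hn : P.natDegree using Nat.strong_induction_on generalizing P with
  | _ n ih =>
    by_cases hd : sg 0 (Polynomial.aeval a (Polynomial.derivative P)) ∈ q
    · by_cases h0 : P.natDegree = 0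
      · exfalso
        rw [Polynomial.eq_C_of_natDegree_eq_zero h0] at hP hP0
        have h1 : P.coeff 0 ≠ 0 := fun h2 => hP0 (by rw [h2, Polynomial.C_0])
        rw [Polynomial.aeval_C, ← algebraMap_eq_sg] at hP
        refine hq.notMem_of_unitIn ⟨S.algebraMap_mem _, _, S.algebraMap_mem (P.coeff 0)⁻¹, ?_⟩ hP
        rw [← map_mul, mul_inv_cancel₀ h1, map_one]
      · exact ih _ (hn ▸ Polynomial.natDegree_derivative_lt h0) _
          (Polynomial.derivative_ne_zero.2 h0) hd rfl
    · exact ⟨P, hP, hd⟩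

/-- Coordinates that vanish at the point. For `t i ∉ q` of degree `γ i` put
`z i = t i ^ m * V (-γ i) = sg 0 (a i)` (`exists_units`), `t' i = sg 0 (P i (a i))`, and drop the
label of `i`; keep the `t i ∈ q`. Localize at `σ = ∏_(t i ∉ q) t i * sg 0 (P i' (a i))`.
`Unr`: first `Good.loc`; a derivation `D` that kills `t'` and `u` kills `V _`, and
`0 = D (t' i) = P i' (z i) * m * t i ^ (m - 1) * V _ * D (t i)`, so it kills `t i`. -/
theorem Chart.Good.exists_center [CharZero k] (hA : A.Good) (h : c.Good A ρ)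
    {q : Submodule c.B (LL K)} (hq : GPt c.B q) (ha : AlgAt c.B q) :
    ∃ (σ : (LL K)ˣ) (c' : Chart k K N), (σ : LL K) ∉ q ∧ c.Loc σ c' ∧ c'.Good A ρ ∧
      ∀ i, c'.t i ∈ extq q c'.B := by
  classical
  obtain ⟨m, hm, hV⟩ := h.exists_units
  obtain ⟨V, -, VU, Vdeg⟩ := hV m dvd_rfl
  choose γ hγ using h.thom
  have hbel : ∀ i, Below ρ (-γ i) := fun i e he => by
    rw [Pi.neg_apply, h.below (h.tmem i) (hγ i) (h.t_ne_zero hA i) e he, neg_zero]
  have hz : ∀ i, ∃ a : K, c.t i ^ m * (V (-γ i) : LL K) = sg 0 a := fun i => by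
    have h1 := ((hγ i).pow m).mul (Vdeg _ (hbel i))
    rwa [smul_neg, add_neg_cancel] at h1
  choose a hza using hz
  have haB : ∀ i, sg 0 (a i) ∈ c.B := fun i => by
    rw [← hza i]
    exact c.B.mul_mem (c.B.pow_mem (h.tmem i) m) (h.unitIn_U (VU _)).1.1
  choose P hP hP' using fun i => ha.exists_sep hq.prime (haB i)
  let f : Fin N → LL K := fun i =>
    if c.t i ∈ q then 1 else c.t i * sg 0 (Polynomial.aeval (a i) (Polynomial.derivative (P i)))
  have hf : ∀ i, f i ∈ c.B ∧ f i ∉ q := fun i => by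
    simp only [f]
    split_ifs with hi
    · exact ⟨c.B.one_mem, hq.prime.one⟩
    · exact ⟨c.B.mul_mem (h.tmem i) (ResC2_aeval_mem (haB i) _),
        hq.prime.mul_notMem (h.tmem i) (ResC2_aeval_mem (haB i) _) hi (hP' i)⟩
  have hfh : ∀ i, Hm (f i) := fun i => by
    simp only [f]
    split_ifs with hi
    · exact hm_one
    · exact Hm.mul ⟨_, hγ i⟩ ⟨0, _, rfl⟩
  have hsq : ∏ i, f i ∉ q := ResC2_prod_notMem hq.prime _ hf
  have hsh : Hm (∏ i, f i) := Hm.prod fun i _ => hfh i
  obtain ⟨σ, hσ⟩ := hsh.exists_unit (fun h0 => hsq (h0 ▸ q.zero_mem))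
  have hσB : (σ : LL K) ∈ c.B := hσ ▸ c.B.prod_mem fun i _ => (hf i).1
  have hσh : Hm (σ : LL K) := hσ ▸ hsh
  have hle : c.B ≤ away c.B σ := le_away σ
  have hfu : ∀ i, UnitIn (away c.B σ) (f i) := fun i => by
    have h1 : UnitIn (away c.B σ) (σ : LL K) := unitIn_coe.2 ⟨hle hσB, inv_mem_away σ⟩
    rw [hσ, ← Finset.mul_prod_erase _ _ (Finset.mem_univ i)] at h1
    exact UnitIn.of_mul (hle (hf i).1) (hle (c.B.prod_mem fun j _ => (hf j).1)) h1
  have htu : ∀ i, c.t i ∉ q → UnitIn (away c.B σ) (c.t i) ∧ UnitIn (away c.B σ)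
      (sg 0 (Polynomial.aeval (a i) (Polynomial.derivative (P i)))) := fun i hi => by
    have h1 := hfu i
    simp only [f, if_neg hi] at h1
    refine ⟨UnitIn.of_mul (hle (h.tmem i)) (hle (ResC2_aeval_mem (haB i) _)) h1, ?_⟩
    rw [mul_comm] at h1
    exact UnitIn.of_mul (hle (ResC2_aeval_mem (haB i) _)) (hle (h.tmem i)) h1
  let c' : Chart k K N :=
    { B := away c.B σ
      t := fun i => if c.t i ∈ q then c.t i else sg 0 (Polynomial.aeval (a i) (P i))
      u := c.u
      lab := fun i => if c.t i ∈ q then c.lab i else none }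
  have hloc : c.Loc σ c' := by
    refine ⟨hσB, hσh, rfl, fun e => ?_⟩
    have hw : ∀ i, ∃ w, UnitIn (away c.B σ) w ∧
        (if c'.lab i = some e then c'.t i else 1)
          = w * (if c.lab i = some e then c.t i else 1) := fun i => by
      by_cases hi : c.t i ∈ q
      · exact ⟨1, unitIn_one, by simp only [c', if_pos hi, one_mul]⟩
      · by_cases hl : c.lab i = some e
        · obtain ⟨h1, w, hw, h2⟩ := (htu i hi).1
          refine ⟨w, ⟨hw, _, h1, by rw [mul_comm, h2]⟩, ?_⟩
          simp only [c', if_neg hi, if_pos hl, reduceCtorEq, if_false]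
          rw [mul_comm, h2]
        · refine ⟨1, unitIn_one, ?_⟩
          simp only [c', if_neg hi, if_neg hl, reduceCtorEq, if_false, one_mul]
    choose w hw1 hw2 using hw
    refine ⟨∏ i, w i, UnitIn.prod fun i _ => hw1 i, ?_⟩
    unfold Chart.y
    rw [← Finset.prod_mul_distrib]
    exact Finset.prod_congr rfl fun i _ => hw2 i
  have hl := h.loc hσB hσh
  have hlab : ∀ i e, c'.lab i = some e → c.lab i = some e := fun i e hi => by
    simp only [c'] at hi
    split_ifs at hi
    exact hi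
  have htm : ∀ i, c'.t i ∈ q := fun i => by
    simp only [c']
    split_ifs with hi
    · exact hi
    · exact hP i
  refine ⟨σ, c', hσ ▸ hsq, hloc, ⟨hl.fg, hl.base, fun i => hle (hq.prime.sub _ (htm i)),
    fun i => ?_, hl.uunit, hl.udeg, ?_, fun i j e hi hj => h.inj i j e (hlab i e hi) (hlab j e hj),
    fun i e hi => h.lt i e (hlab i e hi), fun e he => hloc.dom.2 _ (h.tauMono e he)⟩,
    fun i => Submodule.subset_span (htm i)⟩
  · simp only [c']
    split_ifs with hi
    · exact ⟨_, hγ i⟩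
    · exact ⟨0, _, rfl⟩
  · change Unr (away c.B σ) _
    intro M _ _ instM _ D hD
    have hun : Unr (away c.B σ) ((c.loc σ).T ρ) := hl.unr
    refine hun M D fun y hy => ?_
    rcases hy with ⟨i, hi⟩ | hy
    · have hi' : c.t i = (y : LL K) := hi
      by_cases hiq : c.t i ∈ q
      · exact hD y (Or.inl ⟨i, by simp only [c', if_pos hiq]; exact hi'⟩)
      · let v : away c.B σ := ⟨_, hle (h.unitIn_U (VU (-γ i))).1.1⟩
        have hv : D v = 0 :=
          @ResC2_kill_U k K _ _ _ N A ρ (c.loc σ) hl M _ _ instM ‹_› D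
            (fun y hy => hD y (Or.inr hy)) _ (VU (-γ i)) v rfl
        have hyv : ((y ^ m * v : away c.B σ) : LL K) = sg 0 (a i) := by
          rw [← hza i, hi']
          rfl
        have hae : ∀ Q : Polynomial k,
            ((Polynomial.aeval (y ^ m * v : away c.B σ) Q : away c.B σ) : LL K)
              = sg 0 (Polynomial.aeval (a i) Q) := fun Q => by
          rw [ResC2_aeval, ← hyv]
          exact (Polynomial.aeval_algHom_apply (away c.B σ).val _ Q).symm
        have h1 : D (Polynomial.aeval (y ^ m * v : away c.B σ) (P i)) = 0 :=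
          hD _ (Or.inl ⟨i, by simp only [c', if_neg hiq]; exact (hae _).symm⟩)
        have u1 : IsUnit (Polynomial.aeval (y ^ m * v : away c.B σ)
            (Polynomial.derivative (P i))) := ResC2_isUnit (by rw [hae]; exact (htu i hiq).2)
        have u2 : IsUnit v := ResC2_isUnit ((h.unitIn_U (VU (-γ i))).1.mono hle)
        have u3 : IsUnit y := ResC2_isUnit (hi' ▸ (htu i hiq).1)
        have u4 : IsUnit ((m : ℕ) : away c.B σ) := by
          have h2 : IsUnit ((m : ℕ) : k) := (Nat.cast_ne_zero.2 hm.ne').isUnit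
          simpa using h2.map (algebraMap k (away c.B σ))
        rw [D.map_aeval, u1.smul_eq_zero, D.leibniz, hv, smul_zero, zero_add, u2.smul_eq_zero,
          D.leibniz_pow, ← Nat.cast_smul_eq_nsmul (away c.B σ), u4.smul_eq_zero,
          (u3.pow _).smul_eq_zero] at h1
        exact h1
    · exact hD y (Or.inr hy)

end Pool.Agent.Lib.MP_4287a9_ag.Res
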