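import Pool.Agent.Lib.MP_4287a9_ag.ResFin

/-! The degree zero part of a chart is finitely generated. -/

namespace Pool.Agent.Lib.MP_4287a9_ag

variable {k R K : Type} [Field k] [CommRing R] [Field K] [Algebra k K] [Algebra R K] [Algebra k R]
  [IsScalarTower k R K] {n s : ℕ} {d : ResOut k R K n s} {D₀ : Fin n → Derivation k K K}
  {𝔞 : Fin s → Ideal R}

theorem resDv4_vz (h : d.Good D₀ 𝔞) (a : Fin d.m) (μ : Fin d.ρ → ℤ) :
    ResFinS ((d.mv : ℤ) • μ) ((∏ e, d.v a e ^ μ e : (LA K d.ρ)ˣ) : LA K d.ρ) := by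
  have h1 := ResFinS.prod Finset.univ fun e => (ResFin_of_deg (h.dv a e)).zpow (μ e)
  have h2 : ∑ e, μ e • (Pi.single e (d.mv : ℤ) : Fin d.ρ → ℤ) = (d.mv : ℤ) • μ := by
    funext e'
    simp [Finset.sum_apply, Pi.single_apply, mul_comm]
  rwa [h2] at h1

theorem resDv4_mem (h : d.Good D₀ 𝔞) (a : Fin d.m) (μ : Fin d.ρ → ℤ) :
    ((∏ e, d.v a e ^ μ e : (LA K d.ρ)ˣ) : LA K d.ρ) ∈ d.B a :=
  ResFin_prod_mem _ (fun e => (h.hv a e).1) (fun e => (h.hv a e).2) μ

theorem resDv4_add (a : Fin d.m) (μ ν : Fin d.ρ → ℤ) :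
    (∏ e, d.v a e ^ μ e) * ∏ e, d.v a e ^ ν e = ∏ e, d.v a e ^ (μ + ν) e := by
  simp only [← Finset.prod_mul_distrib, ← zpow_add, Pi.add_apply]

theorem ResOut.Good.isGr (h : d.Good D₀ 𝔞) (a : Fin d.m) : IsGr (d.B a) := by
  obtain ⟨σ, hσ, hB⟩ := h.fg a
  intro γ w hw
  have hw' : w ∈ Subalgebra.toSubmodule (Algebra.adjoin k (σ : Set (LA K d.ρ))) := hB ▸ hw
  rw [Algebra.adjoin_eq_span] at hw'
  clear hw
  induction hw' using Submodule.span_induction with
  | mem x hx =>
    have h1 : IsHom x ∧ x ∈ d.B a := by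
      induction hx using Submonoid.closure_induction with
      | mem x hx => exact ⟨hσ x hx, hB ▸ Algebra.subset_adjoin hx⟩
      | one => exact ⟨⟨0, ResFinS.one.deg⟩, one_mem _⟩
      | mul x y _ _ hx hy =>
        obtain ⟨⟨γ, hγ⟩, hx⟩ := hx
        obtain ⟨⟨β, hβ⟩, hy⟩ := hy
        exact ⟨⟨_, ((ResFin_of_deg hγ).mul (ResFin_of_deg hβ)).deg⟩, mul_mem hx hy⟩
    obtain ⟨⟨β, hβ⟩, hx⟩ := h1
    change AddMonoidAlgebra.single γ (x.coeff γ) ∈ d.B a
    by_cases hγ : γ = β
    · obtain ⟨c, rfl⟩ := ResFin_of_deg hβ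
      subst hγ
      simpa using hx
    · rw [hβ γ hγ, AddMonoidAlgebra.single_zero]
      exact zero_mem _
  | zero => rw [map_zero]; exact zero_mem _
  | add x y _ _ hx hy => rw [map_add]; exact add_mem hx hy
  | smul c x _ hx =>
    have : pr γ (c • x) = c • pr γ x := by
      change AddMonoidAlgebra.single γ ((c • x).coeff γ) = c • AddMonoidAlgebra.single γ (x.coeff γ)
      simp
    rw [this]
    exact Subalgebra.smul_mem _ hx c

theorem resDv4_norm (h : d.Good D₀ 𝔞) (a : Fin d.m) {σ : LA K d.ρ} (hσ : IsHom σ) :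
    ∃ (μ : Fin d.ρ → ℤ) (b : K), σ ^ d.mv * ((∏ e, d.v a e ^ μ e : (LA K d.ρ)ˣ) : LA K d.ρ) =
      algebraMap K (LA K d.ρ) b := by
  obtain ⟨γ, hγ⟩ := hσ
  have h1 := ((ResFin_of_deg hγ).pow d.mv).mul (resDv4_vz h a (-γ))
  rw [smul_neg, add_neg_cancel] at h1
  obtain ⟨b, hb⟩ := h1
  exact ⟨-γ, b, hb⟩

/-- A homogeneous element becomes of degree zero after raising it to the power `mv` and
multiplying by the unit `∏ c, v a c ^ (-γ c)`. -/
theorem ResOut.Good.exists_norm (h : d.Good D₀ 𝔞) (a : Fin d.m) {σ : LA K d.ρ} (hσ : IsHom σ) :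
    ∃ (υ : (LA K d.ρ)ˣ) (b : K), (υ : LA K d.ρ) ∈ d.B a ∧
      ((υ⁻¹ : (LA K d.ρ)ˣ) : LA K d.ρ) ∈ d.B a ∧ σ ^ d.mv * υ = algebraMap K (LA K d.ρ) b := by
  obtain ⟨μ, b, hb⟩ := resDv4_norm h a hσ
  refine ⟨_, b, resDv4_mem h a μ, ?_, hb⟩
  have := resDv4_mem h a (-μ)
  simpa only [Pi.neg_apply, zpow_neg, Finset.prod_inv_distrib] using this

/-- Let `σ j` be the homogeneous generators, of degrees `γ j`, and `vz μ = ∏ c, v a c ^ μ c`.
Generators: the elements `σ j ^ mv * vz (-γ j)`, and `∏ σ j ^ r j * vz μ` for the finitely many `r`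
with all `r j < mv` for which some `μ` makes the degree zero. With `T` the algebra they generate,
the set of finite sums of `τ * vz μ * ∏ σ j ^ r j` (`τ ∈ T`, `r j < mv`) is stable under
multiplication by the `σ j`, so it is all of `B a`; take components of degree zero. -/
theorem ResOut.Good.exists_deg0 (h : d.Good D₀ 𝔞) (a : Fin d.m) :
    ∃ σ : Finset K, (∀ y ∈ σ, algebraMap K (LA K d.ρ) y ∈ d.B a) ∧
      ∀ y : K, algebraMap K (LA K d.ρ) y ∈ d.B a → y ∈ Algebra.adjoin R (σ : Set K) := by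
  classical
  obtain ⟨σ, hσ, hB⟩ := h.fg a
  let vz : (Fin d.ρ → ℤ) → LA K d.ρ := fun μ => ((∏ e, d.v a e ^ μ e : (LA K d.ρ)ˣ) : LA K d.ρ)
  have hvz : ∀ μ ν, vz μ * vz ν = vz (μ + ν) := fun μ ν => by
    simp only [vz, ← Units.val_mul, resDv4_add]
  have hvz0 : vz 0 = 1 := by simp [vz]
  choose μ b hb using fun z : σ => resDv4_norm h a (hσ z z.2)
  let T₀ : Subalgebra R K := Algebra.adjoin R (Set.range b)
  let A : Subalgebra k (LA K d.ρ) :=
    Algebra.adjoin k (algebraMap K (LA K d.ρ) '' (T₀ : Set K) ∪ Set.range vz)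
  obtain ⟨t, ht, hsp⟩ := ResFin_span (A := A) hσ hB fun z hz => by
    refine IsIntegral.of_pow h.hmv ?_
    have h1 : z ^ d.mv = algebraMap K (LA K d.ρ) (b ⟨z, hz⟩) * vz (-μ ⟨z, hz⟩) := by
      rw [← hb, mul_assoc]
      change _ = _ * (vz _ * vz _)
      rw [hvz, add_neg_cancel, hvz0, mul_one]
    have h2 : z ^ d.mv ∈ A := by
      rw [h1]
      exact mul_mem (Algebra.subset_adjoin (Or.inl ⟨_, Algebra.subset_adjoin ⟨_, rfl⟩, rfl⟩))
        (Algebra.subset_adjoin (Or.inr ⟨_, rfl⟩))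
    exact isIntegral_algebraMap (R := A) (x := ⟨_, h2⟩)
  choose γ hγ using fun w : t => (ht w w.2).1
  let c : t → K := fun w => ((w : LA K d.ρ) * vz fun e => -γ w e / d.mv).coeff 0
  refine ⟨Finset.univ.image b ∪ Finset.univ.image c, fun y hy => ?_, fun y hy => ?_⟩
  · rcases Finset.mem_union.1 hy with hy | hy
    · obtain ⟨z, -, rfl⟩ := Finset.mem_image.1 hy
      rw [← hb]
      exact mul_mem (pow_mem (hB ▸ Algebra.subset_adjoin z.2) _) (resDv4_mem h a _)
    · obtain ⟨w, -, rfl⟩ := Finset.mem_image.1 hy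
      exact h.isGr a 0 _ (mul_mem (ht w w.2).2 (resDv4_mem h a _))
  · set T : Subalgebra R K := Algebra.adjoin R
      ((Finset.univ.image b ∪ Finset.univ.image c : Finset K) : Set K) with hT
    have hle : T₀ ≤ T := Algebra.adjoin_mono (by
      rintro _ ⟨z, rfl⟩
      simp)
    have hι : ∀ x ∈ T, ∀ w : LA K d.ρ, (∀ ν, (w * vz ν).coeff 0 ∈ T) →
        ∀ ν, (algebraMap K (LA K d.ρ) x * w * vz ν).coeff 0 ∈ T := fun x hx w hw ν => by
      rw [mul_assoc, ← Algebra.smul_def, AddMonoidAlgebra.coeff_smul, Finsupp.smul_apply,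
        smul_eq_mul]
      exact mul_mem hx (hw ν)
    have hA : ∀ x ∈ A, ∀ w : LA K d.ρ, (∀ ν, (w * vz ν).coeff 0 ∈ T) →
        ∀ ν, (x * w * vz ν).coeff 0 ∈ T := by
      intro x hx
      induction hx using Algebra.adjoin_induction with
      | mem x hx =>
        rcases hx with ⟨x, hx, rfl⟩ | ⟨ν', rfl⟩
        · exact hι x (hle hx)
        · intro w hw ν
          rw [mul_comm (vz ν'), mul_assoc, hvz]
          exact hw _
      | algebraMap r =>
        rw [IsScalarTower.algebraMap_apply k K (LA K d.ρ), IsScalarTower.algebraMap_apply k R K]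
        exact hι _ (T.algebraMap_mem _)
      | add x x' _ _ hx hx' =>
        intro w hw ν
        rw [add_mul, add_mul, AddMonoidAlgebra.coeff_add, Finsupp.add_apply]
        exact add_mem (hx w hw ν) (hx' w hw ν)
      | mul x x' _ _ hx hx' =>
        intro w hw
        rw [mul_assoc]
        exact hx _ (hx' w hw)
    have key : ∀ w ∈ Submodule.span A (t : Set (LA K d.ρ)), ∀ ν, (w * vz ν).coeff 0 ∈ T := by
      intro w hw
      induction hw using Submodule.span_induction with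
      | mem w hw =>
        intro ν
        by_cases h0 : 0 = γ ⟨w, hw⟩ + (d.mv : ℤ) • ν
        · have h1 : ν = fun e => -γ ⟨w, hw⟩ e / d.mv := by
            funext e
            have h2 : -γ ⟨w, hw⟩ e = d.mv * ν e := by
              have := congrFun h0 e
              simp only [Pi.zero_apply, Pi.add_apply, Pi.smul_apply, smul_eq_mul] at this
              linarith
            rw [h2, Int.mul_ediv_cancel_left _ (by exact_mod_cast h.hmv.ne')]
          rw [h1]
          exact Algebra.subset_adjoin (Finset.mem_coe.2 (Finset.mem_union_right _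
            (Finset.mem_image_of_mem c (Finset.mem_univ (⟨w, hw⟩ : t)))))
        · rw [((ResFin_of_deg (hγ ⟨w, hw⟩)).mul (resDv4_vz h a ν)).deg 0 h0]
          exact zero_mem _
      | zero => intro ν; simp
      | add x x' _ _ hx hx' =>
        intro ν
        rw [add_mul, AddMonoidAlgebra.coeff_add, Finsupp.add_apply]
        exact add_mem (hx ν) (hx' ν)
      | smul x w _ hw => exact hA x x.2 w hw
    have := key _ (hsp _ hy) 0
    rw [hvz0, mul_one] at this
    simpa using this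

end Pool.Agent.Lib.MP_4287a9_ag
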