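import Pool.Agent.Lib.MP_4287a9_ag.ResDv3
import Pool.Agent.Lib.MP_4287a9_ag.ResDv4

/-! The divisorial valuations of the labels and their discrepancies. -/

namespace Pool.Agent.Lib.MP_4287a9_ag

open Res

/-- `x` has order `e` for the uniformizer `π` of `O`. -/
def OrdO {K : Type} [Field K] (O : ValuationSubring K) (π x : K) (e : ℤ) : Prop :=
  x ≠ 0 ∧ x * π ^ (-e) ∈ O ∧ (x * π ^ (-e))⁻¹ ∈ O

theorem resDiv_as {k L : Type} [Field k] [CommRing L] [Algebra k L] {S V : Subalgebra k L}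
    {t : Lˣ} (hV : TAdic V t) (hS : S ≤ V) {x y : Lˣ} (h : As S x y) {m : ℤ}
    (hy : Ord V t (y : L) m) : Ord V t (x : L) m := by
  have h1 : UnitIn V ((x * y⁻¹ : Lˣ) : L) := ⟨hS h.1, _, hS h.2, by
    rw [← Units.val_mul, mul_assoc, inv_mul_cancel_left, mul_inv_cancel, Units.val_one]⟩
  have h2 := (hV.ord_of_unit h1).mul hV hy
  rwa [← Units.val_mul, inv_mul_cancel_right, zero_add] at h2

theorem resDiv_pr {K : Type} [Field K] {ρ : ℕ} (γ : Fin ρ → ℤ) (σ : LA K ρ) (y : K) :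
    pr γ (σ * algebraMap K (LA K ρ) y) = pr γ σ * algebraMap K (LA K ρ) y := by
  have h1 : algebraMap K (LA K ρ) y = AddMonoidAlgebra.single 0 y := by
    simp [AddMonoidAlgebra.coe_algebraMap]
  change AddMonoidAlgebra.single γ _ = AddMonoidAlgebra.single γ _ * _
  rw [h1, AddMonoidAlgebra.single_mul_single, add_zero, AddMonoidAlgebra.coeff_mul_single_zero]

theorem resDiv_sum {K : Type} [Field K] {ρ : ℕ} (σ : LA K ρ) :
    ∑ γ ∈ σ.coeff.support, pr γ σ = σ :=
  AddMonoidAlgebra.sum_coeff_single σ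

theorem resDiv_single {K : Type} [Field K] {ρ : ℕ} {γ : Fin ρ → ℤ} {σ : LA K ρ} (h : IsDeg γ σ) :
    σ = AddMonoidAlgebra.single γ (σ.coeff γ) := by
  ext β
  by_cases hβ : β = γ
  · subst hβ
    simp
  · rw [h β hβ, AddMonoidAlgebra.coeff_single, Finsupp.single_eq_of_ne hβ]

theorem ResOut.Good.exists_div {k R K : Type} [Field k] [CharZero k] [CommRing R] [IsDomain R]
    [Field K] [Algebra k K] [Algebra R K] [IsFractionRing R K] [Algebra k R] [IsScalarTower k R K]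
    {n s : ℕ} {d : ResOut k R K n s} {D₀ : Fin n → Derivation k K K} {𝔞 : Fin s → Ideal R}
    (h : d.Good D₀ 𝔞) (htr : ∀ w : Fin (n + 1) → K, ¬ AlgebraicIndependent k w) (i : Fin d.μ) :
    ∃ (O : ValuationSubring K) (π : O) (m : ℕ) (b : Fin s → ℕ), IsDiscreteValuationRing O ∧
      Irreducible π ∧ 0 < m ∧ (∀ r, algebraMap R K r ∈ O) ∧
      (∃ σ : Finset K, (∀ y ∈ σ, y ∈ O) ∧ ∀ y ∈ O, ∃ c ∈ Algebra.adjoin R (σ : Set K),
        c ≠ 0 ∧ c⁻¹ ∈ O ∧ c * y ∈ Algebra.adjoin R (σ : Set K)) ∧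
      (∀ x : K, x ≠ 0 → ∃ e, OrdO O π x e) ∧
      (∀ j, m * b j = d.af j i ∧ (∃ g ∈ 𝔞 j, OrdO O π (algebraMap R K g) (b j)) ∧
        ∀ g ∈ 𝔞 j, algebraMap R K g * (π : K) ^ (-(b j : ℤ)) ∈ O) ∧
      ∀ (z : Fin n → K) (e : ℤ), (∀ l, z l ∈ O) →
        OrdO O π (Matrix.of fun a l => D₀ a (z l)).det e → (m : ℤ) * (1 - e) ≤ d.aj i := by
  classical
  obtain ⟨a, ha⟩ := h.occ i
  obtain ⟨l, hl⟩ : ∃ l, d.lam a i = some l := by
    cases hl : d.lam a i with
    | some l => exact ⟨l, rfl⟩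
    | none =>
      have h1 : d.t a i = 1 := Units.ext (by rw [h.ht, hl]; rfl)
      exact absurd (by rw [h1]; exact one_mem _) ha
  have htl : (d.t a i : LA K d.ρ) = d.y a l := by rw [h.ht, hl]; rfl
  have hfg : (d.B a).FG := by
    obtain ⟨σ, -, hσ⟩ := h.fg a
    exact ⟨σ, hσ.symm⟩
  have hy : ∀ l, d.y a l ∈ d.B a := (h.het a).1
  have hU := unr_of_etC (h.het a)
  obtain ⟨D, hD, hdet⟩ := exists_dual_of_det (h.hdet a)
  have hP : ∀ j, Pres (d.B a) (D j) := fun j => hU.pres _ (by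
    rintro _ ⟨l', rfl⟩
    rw [hD]
    split_ifs
    exacts [one_mem _, zero_mem _])
  obtain ⟨V, hSV, hV, hoth, hPV, hloc⟩ := exists_tadic hfg hy hU hP hD htl ha
  set t := d.t a i with ht
  have hot : ∀ e, Ord V t (d.t a e : LA K d.ρ) (if e = i then 1 else 0) := by
    intro e
    split_ifs with he
    · rw [he]
      exact hV.ord_self
    · rw [h.ht]
      cases hl' : d.lam a e with
      | none => exact hV.ord_one
      | some l' =>
        have h1 : l' ≠ l := fun h' => he (h.hinj a e i l (h' ▸ hl') hl)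
        refine ⟨by simpa using hSV (hy l'), ?_⟩
        simpa using hoth l' h1
  have hmon : ∀ c : Fin d.μ → ℤ,
      Ord V t ((∏ e, d.t a e ^ c e : (LA K d.ρ)ˣ) : LA K d.ρ) (c i) := by
    intro c
    have h1 := Ord.prod hV (s := Finset.univ) fun e _ => (hot e).zpow hV (c e)
    rw [← Units.coe_prod] at h1
    simpa using h1
  have hmon' : ∀ c : Fin d.μ → ℕ,
      Ord V t ((∏ e, d.t a e ^ c e : (LA K d.ρ)ˣ) : LA K d.ρ) (c i) := by
    intro c
    simpa using hmon fun e => (c e : ℤ)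
  set ι := algebraMap K (LA K d.ρ) with hι
  have hR : ∀ r : R, ι (algebraMap R K r) ∈ V := fun r => hSV (h.base a r)
  have hne0 : ∀ (r : R) (u : (LA K d.ρ)ˣ), (u : LA K d.ρ) = inL R K d.ρ r →
      algebraMap R K r ≠ 0 := by
    intro r u hu h0
    refine u.ne_zero ?_
    rw [hu, inL, RingHom.comp_apply, h0, map_zero]
  have hF := resDiv_as hV hSV (h.hF a) (hmon' d.aF)
  obtain ⟨O, π, m, hO, hdvr, hirr, hm, hex, hord⟩ := hV.exists_dvr ι (fun x => by
      obtain ⟨r, r', hr', rfl⟩ := IsFractionRing.div_surjective (A := R) x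
      have h0 : algebraMap R K r' ≠ 0 := IsFractionRing.to_map_ne_zero_of_mem_nonZeroDivisors hr'
      exact ⟨_, h0, hR r', by rw [mul_div_cancel₀ _ h0]; exact hR r⟩)
    ⟨_, hne0 _ _ (h.hFu a), by
      have h1 := hV.mem_of_le (m' := 1) (by exact_mod_cast h.aFpos i) hF.1
      rw [h.hFu a, zpow_neg_one] at h1
      exact h1⟩
  have hπ0 : (π : K) ≠ 0 := fun h0 => hirr.ne_zero (Subtype.ext h0)
  have hπ : Ord V t (ι π) m := by
    have h1 : (π : K) * (π : K) ^ (-(1 : ℤ)) = 1 := by simp [hπ0]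
    simpa using hord π 1 hπ0 (by rw [h1]; exact one_mem _) (by rw [h1, inv_one]; exact one_mem _)
  have hb : ∀ j, ∃ b : ℕ, m * b = d.af j i ∧ OrdO O π (algebraMap R K (d.f a j)) b := by
    intro j
    have h0 := hne0 _ _ (h.hfu a j)
    obtain ⟨e, h1, h2⟩ := hex _ h0
    have h3 := resDiv_as hV hSV (h.hf a j) (hmon' (d.af j))
    rw [h.hfu a j] at h3
    have h4 : (m : ℤ) * e = d.af j i := (hord _ e h0 h1 h2).unique hV h3
    have h5 : 0 ≤ e := by
      by_contra h5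
      have : (m : ℤ) * e < 0 := mul_neg_of_pos_of_neg (by exact_mod_cast hm) (not_le.1 h5)
      omega
    lift e to ℕ using h5
    exact ⟨e, by exact_mod_cast h4, h0, h1, h2⟩
  choose b hb1 hb2 using hb
  refine ⟨O, π, m, b, hdvr, hirr, hm, fun r => (hO _).2 (hR r), ?_,
    fun x hx => (hex x hx).imp fun e he => ⟨hx, he⟩,
    fun j => ⟨hb1 j, ⟨_, h.fmem a j, hb2 j⟩, fun g hg => ?_⟩, fun z e hz hJ => ?_⟩
  · obtain ⟨σ, hσ1, hσ2⟩ := h.exists_deg0 a
    refine ⟨σ, fun y hy' => (hO _).2 (hSV (hσ1 y hy')), fun y hy' => ?_⟩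
    obtain ⟨σ₀, h1, h2, h3⟩ := hloc _ ((hO _).1 hy')
    obtain ⟨γ, hγ⟩ : ∃ γ, pr γ σ₀ * ((t⁻¹ : (LA K d.ρ)ˣ) : LA K d.ρ) ∉ V := by
      by_contra hc
      push Not at hc
      refine h2 ?_
      rw [← resDiv_sum σ₀, Finset.sum_mul]
      exact sum_mem fun γ _ => hc γ
    have h4 : pr γ σ₀ ∈ d.B a := h.isGr a γ _ h1
    have h5 : pr γ σ₀ * ι y ∈ d.B a := by
      rw [← resDiv_pr]
      exact h.isGr a γ _ h3
    obtain ⟨υ, c, hυ, hυ', hc⟩ := h.exists_norm a (σ := pr γ σ₀) ⟨γ, fun β hβ => by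
      change (AddMonoidAlgebra.single γ _ : LA K d.ρ).coeff β = 0
      rw [AddMonoidAlgebra.coeff_single, Finsupp.single_eq_of_ne hβ]⟩
    have h6 : Ord V t (pr γ σ₀) 0 := ⟨by simpa using hSV h4, by simpa using hγ⟩
    have h7 : Ord V t (ι c) 0 := by
      have h8 := (Ord.prod hV (s := Finset.range d.mv) fun _ _ => h6).mul hV
        (hV.ord_of_unit ⟨hSV hυ, _, hSV hυ', υ.mul_inv⟩)
      rw [← hc]
      simpa using h8
    have hc0 : c ≠ 0 := by
      rintro rfl
      exact h7.2 (by simp)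
    refine ⟨c, hσ2 c (hc ▸ mul_mem (pow_mem h4 _) hυ), hc0, ?_, hσ2 _ ?_⟩
    · have h8 := Ord.inv hV (σ := Units.map (ι : K →* LA K d.ρ) (Units.mk0 c hc0)) h7
      exact (hO _).2 ((h8.mem_iff hV).2 le_rfl)
    · obtain ⟨m', hm'⟩ := Nat.exists_eq_succ_of_ne_zero h.hmv.ne'
      rw [map_mul, ← hc, hm', pow_succ]
      have : pr γ σ₀ ^ m' * pr γ σ₀ * (υ : LA K d.ρ) * ι y =
        pr γ σ₀ ^ m' * υ * (pr γ σ₀ * ι y) := by ring
      rw [this]
      exact mul_mem (mul_mem (pow_mem h4 _) hυ) h5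
  · have h0 := (hb2 j).1
    have h1 : algebraMap R K g * (algebraMap R K (d.f a j))⁻¹ ∈ O := by
      refine (hO _).2 (hSV ?_)
      have h2 : ι (algebraMap R K (d.f a j))⁻¹ = (((d.fu a j)⁻¹ : (LA K d.ρ)ˣ) : LA K d.ρ) := by
        refine (Units.inv_eq_of_mul_eq_one_right ?_).symm
        rw [h.hfu, inL, RingHom.comp_apply, ← map_mul, mul_inv_cancel₀ h0, map_one]
      rw [map_mul, h2]
      exact h.fgen a j g hg
    have h2 := mul_mem h1 (hb2 j).2.1
    rwa [mul_assoc, inv_mul_cancel_left₀ h0] at h2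
  · have hk : ∀ c : k, algebraMap k K c ∈ O := fun c => by
      rw [IsScalarTower.algebraMap_apply k R K]
      exact (hO _).2 (hR _)
    have hπ' : (π : K)⁻¹ ∉ O := fun h' =>
      hirr.not_isUnit (IsUnit.of_mul_eq_one ⟨_, h'⟩ (Subtype.ext (mul_inv_cancel₀ hπ0)))
    obtain ⟨Q, l₀, hQ1, hQ2, hQ3⟩ := exists_dep htr O hk π.2 hπ0 hπ' (fun x hx hx' => by
      have hx0 : x ≠ 0 := by
        rintro rfl
        exact hx' (by simp)
      obtain ⟨e, h1, h2⟩ := hex x hx0
      have h3 : 1 ≤ e := by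
        by_contra h3
        refine hx' ?_
        have h4 : x⁻¹ = (x * (π : K) ^ (-e))⁻¹ * (π : K) ^ (-e).toNat := by
          rw [← zpow_natCast, Int.toNat_of_nonneg (by omega), mul_inv,
            inv_mul_cancel_right₀ (zpow_ne_zero _ hπ0)]
        rw [h4]
        exact mul_mem h2 (pow_mem π.2 _)
      have h4 : x * (π : K)⁻¹ = x * (π : K) ^ (-e) * (π : K) ^ (e - 1).toNat := by
        rw [← zpow_natCast, Int.toNat_of_nonneg (by omega), mul_assoc, ← zpow_add₀ hπ0,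
          show -e + (e - 1) = -1 by ring, zpow_neg_one]
      rw [h4]
      exact mul_mem h1 (pow_mem π.2 _)) hz
    set w : Fin (n + d.ρ) → LA K d.ρ := Fin.append (fun j => ι (z j))
      (fun c => (AddMonoidAlgebra.single (Pi.single c (d.mv : ℤ))
        ((d.v a c : LA K d.ρ).coeff (Pi.single c (d.mv : ℤ))) : LA K d.ρ)) with hw
    have hv : ∀ c, (AddMonoidAlgebra.single (Pi.single c (d.mv : ℤ))
        ((d.v a c : LA K d.ρ).coeff (Pi.single c (d.mv : ℤ))) : LA K d.ρ) = d.v a c :=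
      fun c => (resDiv_single (h.dv a c)).symm
    have hwV : ∀ j, w j ∈ V := fun j => by
      refine Fin.addCases (fun j => ?_) (fun j => ?_) j
      · rw [hw, Fin.append_left]
        exact (hO _).1 (hz j)
      · rw [hw, Fin.append_right, hv]
        exact hSV (h.hv a j).1
    have hev : ∀ P : MvPolynomial (Fin n) k,
        MvPolynomial.aeval w (MvPolynomial.rename (Fin.castAdd d.ρ) P) =
          ι (MvPolynomial.aeval z P) := by
      intro P
      rw [MvPolynomial.aeval_rename]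
      have h1 : w ∘ Fin.castAdd d.ρ = fun j => IsScalarTower.toAlgHom k K (LA K d.ρ) (z j) := by
        funext j
        rw [Function.comp_apply, hw, Fin.append_left]
        rfl
      rw [h1, ← MvPolynomial.comp_aeval]
      rfl
    have h1 := hV.det_mem (fun j => hPV _ (hP j)) hwV
      (Q := MvPolynomial.rename (Fin.castAdd d.ρ) Q) (l := Fin.castAdd d.ρ l₀) (m := m) (by
        rw [hev]
        have h2 := mul_mem ((hO _).1 hQ1) hπ.1
        rwa [← mul_assoc, ← map_mul, inv_mul_cancel_right₀ hπ0] at h2) (by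
        rw [MvPolynomial.pderiv_rename (Fin.castAdd_injective _ _), hev]
        refine ⟨?_, _, (hO _).1 hQ3, by rw [← map_mul, mul_inv_cancel₀ hQ2, map_one]⟩
        rw [← hev]
        have h2 : ∀ P : MvPolynomial (Fin (n + d.ρ)) k, MvPolynomial.aeval w P ∈ V := fun P => by
          have h3 : Algebra.adjoin k (Set.range w) ≤ V :=
            Algebra.adjoin_le (by rintro _ ⟨j, rfl⟩; exact hwV j)
          rw [Algebra.adjoin_range_eq_range_aeval] at h3
          exact h3 ⟨P, rfl⟩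
        exact h2 _)
    have h2 : Ord V t (∏ c, ((d.mv : LA K d.ρ) * (d.v a c : LA K d.ρ))) 0 := by
      have h3 : UnitIn V (d.mv : LA K d.ρ) := ⟨natCast_mem _ _, algebraMap k _ (d.mv : k)⁻¹,
        algebraMap_mem _ _, by
          rw [← map_natCast (algebraMap k (LA K d.ρ)), ← map_mul,
            mul_inv_cancel₀ (Nat.cast_ne_zero.2 h.hmv.ne'), map_one]⟩
      have h4 := Ord.prod hV (s := Finset.univ) fun c _ => (hV.ord_of_unit h3).mul hV
        (hV.ord_of_unit ⟨hSV (h.hv a c).1, _, hSV (h.hv a c).2, (d.v a c).mul_inv⟩)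
      simpa using h4
    have h3 := (resDiv_as hV hSV (h.hj a) (hmon fun e => (d.aj e : ℤ) - 1)).mul hV
      ((hord _ e hJ.1 hJ.2.1 hJ.2.2).mul hV h2)
    rw [hdet, hw, det_amb_append] at h1
    simp only [hv] at h1
    have h4 := h3.le hV h1
    linarith

end Pool.Agent.Lib.MP_4287a9_ag
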