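import Mathlib

/-!
Definitions used in the statement: multiplicity, strong F-regularity of triples, F-pure threshold,
Frobenius volume, klt triples through log resolutions, log canonical threshold, normalized volume,
and the fibres of a model.
-/

open scoped TensorProduct ENNReal NNReal
open Filter

namespace Pool.Agent.Lib.MP_4287a9_ag

noncomputable section

/-- Hilbert-Samuel multiplicity `e(𝔞) = lim n! * length (R / 𝔞 ^ j) / j ^ n`. -/
def mult {R : Type} [CommRing R] (n : ℕ) (𝔞 : Ideal R) : ℝ≥0∞ :=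
  limsup (fun j : ℕ =>
    (n.factorial : ℝ≥0∞) * (Module.length R (R ⧸ 𝔞 ^ j) : ℝ≥0∞) / (j : ℝ≥0∞) ^ n) atTop

/-- The fraction `z` lies in the localization `R_P`. -/
def InLoc {R : Type} [CommRing R] (P : Ideal R) (z : FractionRing R) : Prop :=
  ∃ s ∉ P, ∃ a : R, algebraMap R (FractionRing R) s * z = algebraMap R (FractionRing R) a

/-- The largest `j` with `𝔡 R_P ⊆ P ^ j R_P`. -/
def ordAt {R : Type} [CommRing R] (P 𝔡 : Ideal R) : ℕ :=
  sSup {j : ℕ | ∀ d ∈ 𝔡, ∃ s ∉ P, s * d ∈ P ^ j}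

/-- The fractional ideal `R(⌈(q - 1) Δ⌉)` for `Δ = (1 / r) div 𝔡`. -/
def secs {R : Type} [CommRing R] (𝔡 : Ideal R) (r q : ℕ) : Set (FractionRing R) :=
  {z | ∀ P : Ideal R, P.IsPrime → P.height = 1 →
    ∀ w ∈ P ^ ⌈(((q - 1) * ordAt P 𝔡 : ℕ) : ℚ) / (r : ℚ)⌉₊,
      InLoc P (algebraMap R (FractionRing R) w * z)}

/-- The triple `(R, (1 / r) div 𝔡, 𝔞 ^ t)` is strongly F-regular: for every `c ≠ 0` there are
`q = p ^ e`, `a ∈ 𝔞 ^ ⌈t (q - 1)⌉` and a `q⁻¹`-linear map sending `R(⌈(q - 1) Δ⌉)` into `R` and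
`c a` to `1`. -/
def SFR {R : Type} [CommRing R] (𝔡 : Ideal R) (r : ℕ) (𝔞 : Ideal R) (t : ℝ≥0) : Prop :=
  ∀ c : R, c ≠ 0 → ∃ e : ℕ, 0 < e ∧
    ∃ a ∈ 𝔞 ^ ⌈(t : ℝ) * ((ringChar R : ℝ) ^ e - 1)⌉₊, ∃ φ : FractionRing R →+ FractionRing R,
      (∀ w z : FractionRing R, φ (w ^ ringChar R ^ e * z) = w * φ z) ∧
      (∀ z ∈ secs 𝔡 r (ringChar R ^ e), φ z ∈ (algebraMap R (FractionRing R)).range) ∧
      φ (algebraMap R (FractionRing R) (c * a)) = 1

/-- F-pure threshold. -/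
def fpt {R : Type} [CommRing R] (𝔡 : Ideal R) (r : ℕ) (𝔞 : Ideal R) : ℝ≥0∞ :=
  ⨆ (t : ℝ≥0) (_ : SFR 𝔡 r 𝔞 t), (t : ℝ≥0∞)

/-- Frobenius volume. -/
def Fvol {R : Type} [CommRing R] [IsLocalRing R] (n : ℕ) (𝔡 : Ideal R) (r : ℕ) : ℝ≥0∞ :=
  ⨅ (𝔞 : Ideal R) (_ : 𝔞.radical = IsLocalRing.maximalIdeal R), mult n 𝔞 * fpt 𝔡 r 𝔞 ^ n

/-- The elements `y l` lie in `S` and `Λ[Y] → S`, `Y l ↦ y l`, is etale. -/
def EtC {Λ W : Type} [CommRing Λ] [CommRing W] [Algebra Λ W] {n : ℕ} (S : Subalgebra Λ W)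
    (y : Fin n → W) : Prop :=
  ∃ hy : ∀ l, y l ∈ S, (MvPolynomial.aeval (fun l => (⟨y l, hy l⟩ : S)) :
    MvPolynomial (Fin n) Λ →ₐ[Λ] S).toRingHom.Etale

/-- The chart `A[1 / s][𝔠 / G]` of the blow-up of `𝔠` over the open set `s ≠ 0`. -/
def chart (k : Type) [Field k] {A : Type} [CommRing A] [IsDomain A] [Algebra k A] (s : A)
    (𝔠 : Ideal A) (G : A) : Subalgebra k (FractionRing A) :=
  Algebra.adjoin k (Set.range (algebraMap A (FractionRing A)) ∪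
    {(algebraMap A (FractionRing A) s)⁻¹} ∪
    {z | ∃ c ∈ 𝔠, z = algebraMap A (FractionRing A) c / algebraMap A (FractionRing A) G})

/-- `x` and `y` are nonzero and differ by a unit of `S`. -/
def Asc {k K : Type} [Field k] [Field K] [Algebra k K] (S : Subalgebra k K) (x y : K) : Prop :=
  x ≠ 0 ∧ y ≠ 0 ∧ x / y ∈ S ∧ y / x ∈ S

/-- The triple `(Spec A, (1 / r) div 𝔡, 𝔞 ^ t)` is klt at the point `m`.
Over a neighbourhood `s ≠ 0` of `m`, the blow-up `Y` of `𝔠` is covered by the charts `S a`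
(the `G a` generate a reduction of `𝔠`), with etale coordinates `y a`. The divisors `E i` have local
equations `τ a i`, each equal to `1` or to a coordinate (distinct `i`, distinct coordinates), and
these agree up to units on overlaps. `𝔠 O_Y = O(-∑ h i E i)`, `𝔞 O_Y = O(-∑ b i E i)`.
With `J a = det (D i (y a l))`, the rational `n`-form dual to `D 1 ∧ ... ∧ D n` is
`(J a)⁻¹ d y a`; `div u = r M (K_X + Δ)` at the height one primes, and
`r M (K_Y - π^* (K_X + Δ)) = ∑ α i E i`. All discrepancies exceed `-1`. -/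
def Klt (k : Type) [Field k] {A : Type} [CommRing A] [IsDomain A] [Algebra k A] (n : ℕ)
    (m 𝔡 : Ideal A) (r : ℕ) (𝔞 : Ideal A) (t : ℝ≥0) : Prop :=
  ∃ (s : A) (𝔠 : Ideal A) (ι μ : ℕ) (G f : Fin ι → A) (S : Fin ι → Subalgebra k (FractionRing A))
    (y : Fin ι → Fin n → FractionRing A) (lam : Fin ι → Fin μ → Option (Fin n))
    (τ : Fin ι → Fin μ → FractionRing A) (h b : Fin μ → ℕ) (α : Fin μ → ℤ) (M : ℕ)
    (u : FractionRing A) (D : Fin n → Derivation k (FractionRing A) (FractionRing A))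
    (v : Fin ι → FractionRing A),
    s ∉ m ∧ 𝔠 ≠ ⊥ ∧ 0 < M ∧ (∀ a, G a ∈ 𝔠 ∧ f a ∈ 𝔞 ∧ S a = chart k s 𝔠 (G a)) ∧
    (∃ ρ j : ℕ, Ideal.span {s ^ j} * 𝔠 ^ (ρ + 1) ≤ Ideal.span (Set.range G) * 𝔠 ^ ρ) ∧
    (∀ a, EtC (S a) (y a)) ∧
    (∀ a i, τ a i = (lam a i).elim 1 (y a)) ∧
    (∀ a i i' l, lam a i = some l → lam a i' = some l → i = i') ∧
    (∀ a a' i, Asc (S a ⊔ S a') (τ a i) (τ a' i)) ∧
    (∀ a, Asc (S a) (algebraMap A (FractionRing A) (G a)) (∏ i, τ a i ^ h i)) ∧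
    (∀ a, Asc (S a) (algebraMap A (FractionRing A) (f a)) (∏ i, τ a i ^ b i) ∧
      ∀ c ∈ 𝔞, algebraMap A (FractionRing A) c / algebraMap A (FractionRing A) (f a) ∈ S a) ∧
    (∀ a, v a = u * (Matrix.of fun i l => D i (y a l)).det ^ (r * M)) ∧
    (∀ P : Ideal A, P.IsPrime → P.height = 1 → s ∉ P → ∃ a, (∀ z ∈ S a, InLoc P z) ∧
      (∃ e ∉ P, ∃ d ∈ 𝔡 ^ M, algebraMap A (FractionRing A) e * v a =
        algebraMap A (FractionRing A) d) ∧
      ∀ d ∈ 𝔡 ^ M, InLoc P (algebraMap A (FractionRing A) d / v a)) ∧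
    (∀ a, Asc (S a) (v a)⁻¹ (∏ i, τ a i ^ α i)) ∧
    ∀ i, -1 < (α i : ℝ) / ((r : ℝ) * M) - (t : ℝ) * b i

/-- Log canonical threshold. -/
def lct (k : Type) [Field k] {A : Type} [CommRing A] [IsDomain A] [Algebra k A] (n : ℕ)
    (m 𝔡 : Ideal A) (r : ℕ) (𝔞 : Ideal A) : ℝ≥0∞ :=
  ⨆ (t : ℝ≥0) (_ : Klt k n m 𝔡 r 𝔞 t), (t : ℝ≥0∞)

/-- Normalized volume. -/
def nvol (k : Type) [Field k] {A : Type} [CommRing A] [IsDomain A] [Algebra k A] (n : ℕ)
    (m 𝔡 : Ideal A) (r : ℕ) : ℝ≥0∞ :=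
  ⨅ (𝔞 : Ideal A) (_ : 𝔞.radical = m), mult n 𝔞 * lct k n m 𝔡 r 𝔞 ^ n

/-- The `F`-point of the fibre `F ⊗[B] T` given by the section `σ`. -/
def aug {B T : Type} [CommRing B] [CommRing T] [Algebra B T] (σ : T →ₐ[B] B) (F : Type)
    [CommRing F] [Algebra B F] : F ⊗[B] T →ₐ[F] F :=
  Algebra.TensorProduct.lift (AlgHom.id F F) ((Algebra.ofId B F).comp σ)
    (fun _ _ => Commute.all _ _)

/-- The maximal ideal of that point. -/
def pt {B T : Type} [CommRing B] [CommRing T] [Algebra B T] (σ : T →ₐ[B] B) (F : Type)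
    [Field F] [Algebra B F] : Ideal (F ⊗[B] T) :=
  RingHom.ker (aug σ F)

instance pt_isPrime {B T : Type} [CommRing B] [CommRing T] [Algebra B T] (σ : T →ₐ[B] B)
    (F : Type) [Field F] [Algebra B F] : (pt σ F).IsPrime :=
  RingHom.ker_isPrime _

/-- The local ring of the fibre at that point. -/
abbrev Loc {B T : Type} [CommRing B] [CommRing T] [Algebra B T] (σ : T →ₐ[B] B) (F : Type)
    [Field F] [Algebra B F] : Type :=
  Localization.AtPrime (pt σ F)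

/-- The extension of an ideal of `T` to the fibre `F ⊗[B] T`. -/
def ext (B : Type) {T : Type} [CommRing B] [CommRing T] [Algebra B T] (F : Type) [CommRing F]
    [Algebra B F] (𝔡 : Ideal T) : Ideal (F ⊗[B] T) :=
  𝔡.map (Algebra.TensorProduct.includeRight : T →ₐ[B] F ⊗[B] T)

end

end Pool.Agent.Lib.MP_4287a9_ag
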