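import Pool.Agent.Lib.MP_4287a9_ag.ResA
import Pool.Agent.Lib.MP_4287a9_ag.Stmt

/-! An injective unramified map of finite type from a normal domain to a domain is etale. -/

namespace Pool.Agent.Lib.MP_4287a9_ag.Res

open Polynomial

theorem etale_of_surj {A T : Type} [CommRing A] [IsDomain A] [IsIntegrallyClosed A] [CommRing T]
    [IsDomain T] [Algebra A T] (hinj : Function.Injective (algebraMap A T))
    (P : StandardEtalePair A) (φ : P.Ring →ₐ[A] T) (hφ : Function.Surjective φ) :
    Algebra.Etale A T := by
  have : FaithfulSMul A T := (faithfulSMul_iff_algebraMap_injective A T).2 hinj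
  obtain ⟨x, hx⟩ : ∃ x, x = φ P.X := ⟨_, rfl⟩
  have hP : P.HasMap x := hx ▸ StandardEtalePair.hasMap_X.map φ
  have hint : IsIntegral A x := ⟨P.f, P.monic_f, hP.1⟩
  obtain ⟨h, hh⟩ := minpoly.isIntegrallyClosed_dvd hint hP.1
  let P' : StandardEtalePair A :=
    { f := minpoly A x
      monic_f := minpoly.monic hint
      g := P.g
      cond := by
        obtain ⟨p₁, p₂, n, e⟩ := P.cond
        refine ⟨h * p₁, derivative h * p₁ + h * p₂, n, ?_⟩
        rw [← e, hh, derivative_mul]
        ring }
  have hP' : P'.HasMap x := ⟨minpoly.aeval A x, hP.2⟩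
  have hm : P.HasMap P'.X := ⟨by
    rw [hh, map_mul, show aeval P'.X (minpoly A x) = 0 from StandardEtalePair.hasMap_X.1,
      zero_mul], (StandardEtalePair.hasMap_X (P := P')).2⟩
  have h1 : (P'.lift x hP').comp (P.lift P'.X hm) = φ := StandardEtalePair.hom_ext (by
    rw [AlgHom.comp_apply, StandardEtalePair.lift_X, StandardEtalePair.lift_X, hx])
  have hs : Function.Surjective (P'.lift x hP') :=
    Function.Surjective.of_comp (g := P.lift P'.X hm) (by rw [← AlgHom.coe_comp, h1]; exact hφ)
  have hi : Function.Injective (P'.lift x hP') := by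
    rw [injective_iff_map_eq_zero]
    intro z hz
    let Q : StandardEtalePresentation A P'.Ring :=
      ⟨P', P'.X, StandardEtalePair.hasMap_X, by simpa using Function.bijective_id⟩
    obtain ⟨p, n, hp⟩ := Q.exists_mul_aeval_x_g_pow_eq_aeval_x z
    change z * aeval P'.X P'.g ^ n = aeval P'.X p at hp
    have h2 : aeval x p = 0 := by
      have := congrArg (P'.lift x hP') hp
      rw [map_mul, hz, zero_mul, ← aeval_algHom_apply, StandardEtalePair.lift_X] at this
      exact this.symm
    obtain ⟨r, hr⟩ := minpoly.isIntegrallyClosed_dvd hint h2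
    rw [hr, map_mul, show aeval P'.X (minpoly A x) = 0 from StandardEtalePair.hasMap_X.1,
      zero_mul] at hp
    exact ((StandardEtalePair.hasMap_X (P := P')).2.pow n).mul_left_eq_zero.1 hp
  exact Algebra.Etale.of_equiv (AlgEquiv.ofBijective _ ⟨hi, hs⟩)

theorem etale_of_unramified {A S : Type} [CommRing A] [IsDomain A] [IsIntegrallyClosed A]
    [IsNoetherianRing A] [CommRing S] [IsDomain S] [Algebra A S]
    (hinj : Function.Injective (algebraMap A S)) [Algebra.FiniteType A S]
    [Algebra.FormallyUnramified A S] : Algebra.Etale A S := by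
  have : Algebra.FinitePresentation A S := Algebra.FinitePresentation.of_finiteType.1 ‹_›
  rw [← Algebra.etaleLocus_eq_univ_iff_etale, Set.eq_univ_iff_forall]
  intro Q
  obtain ⟨f, hf, P, φ, hφ⟩ :=
    Algebra.IsUnramifiedAt.exists_hasStandardEtaleSurjectionOn (R := A) Q.asIdeal
  have hf0 : f ≠ 0 := fun h => hf (h ▸ zero_mem _)
  have hle : Submonoid.powers f ≤ nonZeroDivisors S :=
    powers_le_nonZeroDivisors_of_noZeroDivisors hf0
  have : IsDomain (Localization.Away f) := IsLocalization.isDomain_localization hle
  have h1 : Algebra.Etale A (Localization.Away f) := etale_of_surj (by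
    rw [IsScalarTower.algebraMap_eq A S]
    exact (IsLocalization.injective (Localization.Away f) hle).comp hinj) P φ hφ
  exact Algebra.basicOpen_subset_etaleLocus_iff_etale.2 h1 hf

theorem deriv_aeval {k L σ : Type} [CommRing k] [CommRing L] [Algebra k L] [Fintype σ]
    (D : Derivation k L L) (y : σ → L) (P : MvPolynomial σ k) :
    D (MvPolynomial.aeval y P) = ∑ j, MvPolynomial.aeval y (MvPolynomial.pderiv j P) * D (y j) := by
  classical
  induction P using MvPolynomial.induction_on with
  | C a => simp
  | add p q hp hq => simp [hp, hq, add_mul, Finset.sum_add_distrib]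
  | mul_X p i hp =>
    simp only [map_mul, MvPolynomial.aeval_X, Derivation.leibniz, smul_eq_mul, hp, map_add,
      MvPolynomial.pderiv_X, Pi.single_apply, add_mul, Finset.sum_add_distrib, Finset.mul_sum]
    congr 1
    · rw [Finset.sum_eq_single i] <;> simp +contextual [eq_comm]
    · exact Finset.sum_congr rfl fun j _ => by ring

/-- Elements with dual derivations are algebraically independent in characteristic zero. -/
theorem aeval_injective_of_dual {k L σ : Type} [Field k] [CharZero k] [CommRing L] [Nontrivial L]
    [Algebra k L] [Fintype σ] [DecidableEq σ] {y : σ → L} {D : σ → Derivation k L L}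
    (hD : ∀ i j, D i (y j) = if i = j then 1 else 0) :
    Function.Injective (MvPolynomial.aeval y : MvPolynomial σ k →ₐ[k] L) := by
  rw [injective_iff_map_eq_zero]
  have key : ∀ (d : ℕ) (P : MvPolynomial σ k), (∀ m, P.coeff m ≠ 0 → m.degree < d) →
      MvPolynomial.aeval y P = 0 → P = 0 := by
    intro d
    induction d with
    | zero =>
      intro P h _
      ext m
      by_contra hm
      exact absurd (h m hm) (Nat.not_lt_zero _)
    | succ d ih =>
      intro P h hP
      have h1 : ∀ i, MvPolynomial.pderiv i P = 0 := by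
        intro i
        refine ih _ (fun m hm => ?_) ?_
        · rw [MvPolynomial.coeff_pderiv] at hm
          have := h _ (left_ne_zero_of_mul hm)
          rw [map_add, Finsupp.degree_single] at this
          omega
        · have := deriv_aeval (D i) y P
          rw [hP, map_zero] at this
          simpa [hD] using this.symm
      have h2 : P = MvPolynomial.C (P.coeff 0) := by
        ext m
        rw [MvPolynomial.coeff_C]
        split_ifs with hm
        · rw [hm]
        · obtain ⟨i, hi⟩ := Finsupp.ne_iff.1 (Ne.symm hm)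
          have h3 := congrArg (MvPolynomial.coeff (m - Finsupp.single i 1)) (h1 i)
          rw [MvPolynomial.coeff_pderiv, MvPolynomial.coeff_zero,
            tsub_add_cancel_of_le (Finsupp.single_le_iff.2 (Nat.pos_of_ne_zero hi))] at h3
          exact (mul_eq_zero.1 h3).resolve_right (Nat.cast_add_one_ne_zero _)
      rw [h2, MvPolynomial.aeval_C, map_eq_zero] at hP
      rw [h2, hP, map_zero]
  intro P hP
  refine key (P.totalDegree + 1) P (fun m hm => Nat.lt_succ_of_le ?_) hP
  exact MvPolynomial.le_totalDegree (MvPolynomial.mem_support_iff.2 hm)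

variable {k L : Type} [Field k] [CommRing L] [Algebra k L]

theorem Unr.formallyUnramified {S : Subalgebra k L} {T : Set L} (h : Unr S T) (A : Type)
    [CommRing A] [Algebra k A] [Algebra A S] [IsScalarTower k A S]
    (hT : ∀ y : S, (y : L) ∈ T → y ∈ (algebraMap A S).range) :
    Algebra.FormallyUnramified A S := by
  have h1 := h Ω[S⁄A] ((KaehlerDifferential.D A S).restrictScalars k) (by
    intro y hy
    obtain ⟨a, rfl⟩ := hT y hy
    exact (KaehlerDifferential.D A S).map_algebraMap a)
  refine ⟨subsingleton_of_forall_eq 0 fun ω => ?_⟩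
  have h2 : ω ∈ Submodule.span S (Set.range (KaehlerDifferential.D A S)) := by
    rw [KaehlerDifferential.span_range_derivation]
    trivial
  have h3 : Submodule.span S (Set.range (KaehlerDifferential.D A S)) ≤ ⊥ := by
    refine Submodule.span_le.2 ?_
    rintro _ ⟨z, rfl⟩
    exact DFunLike.congr_fun h1 z
  exact h3 h2

/-- Lemma U in the ambient form. -/
theorem etC_of_unr [CharZero k] [IsDomain L] {n : ℕ} {S : Subalgebra k L} (hfg : S.FG)
    {y : Fin n → L} (hy : ∀ l, y l ∈ S) (hU : Unr S (Set.range y))
    {D : Fin n → Derivation k L L} (hD : ∀ i j, D i (y j) = if i = j then 1 else 0) :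
    EtC S y := by
  refine ⟨hy, ?_⟩
  set φ : MvPolynomial (Fin n) k →ₐ[k] S := MvPolynomial.aeval fun l => (⟨y l, hy l⟩ : S) with hφ
  let : Algebra (MvPolynomial (Fin n) k) S := φ.toRingHom.toAlgebra
  have : IsScalarTower k (MvPolynomial (Fin n) k) S :=
    IsScalarTower.of_algebraMap_eq fun c => (φ.commutes c).symm
  have : Algebra.FiniteType k S := (Subalgebra.fg_iff_finiteType S).1 hfg
  have : Algebra.FiniteType (MvPolynomial (Fin n) k) S :=
    Algebra.FiniteType.of_restrictScalars_finiteType k _ _
  have : Algebra.FormallyUnramified (MvPolynomial (Fin n) k) S := hU.formallyUnramified _ (by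
    rintro z ⟨l, hl⟩
    exact ⟨MvPolynomial.X l, Subtype.ext (by simpa [RingHom.algebraMap_toAlgebra, hφ] using hl)⟩)
  have hinj : Function.Injective (algebraMap (MvPolynomial (Fin n) k) S) := by
    have h1 : S.val.comp φ = MvPolynomial.aeval y := by
      ext l
      simp [hφ]
    exact Function.Injective.of_comp (f := S.val)
      (by rw [show S.val ∘ algebraMap _ S = S.val.comp φ from rfl, h1]
          exact aeval_injective_of_dual hD)
  exact etale_of_unramified hinj

open scoped TensorProduct nonZeroDivisors in
theorem isIntegrallyClosed_of_etale {A S : Type} [CommRing A] [IsDomain A] [IsIntegrallyClosed A]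
    [CommRing S] [IsDomain S] [Algebra A S] (hinj : Function.Injective (algebraMap A S))
    [Algebra.Etale A S] : IsIntegrallyClosed S := by
  let F := FractionRing A
  have hle : Algebra.algebraMapSubmonoid S A⁰ ≤ S⁰ := by
    rintro _ ⟨a, ha, rfl⟩
    exact mem_nonZeroDivisors_of_ne_zero fun h =>
      nonZeroDivisors.ne_zero ha (hinj (h.trans (map_zero _).symm))
  have : IsDomain (S ⊗[A] F) := IsLocalization.isDomain_of_le_nonZeroDivisors _ hle
  have h1 : IsField (S ⊗[A] F) := by
    have : IsDomain (F ⊗[A] S) := (Algebra.TensorProduct.comm A F S).toMulEquiv.isDomain _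
    have : Module.Finite F (F ⊗[A] S) := Algebra.FormallyUnramified.finite_of_free _ _
    exact MulEquiv.isField (isField_of_isIntegral_of_isField' (R := F) (S := F ⊗[A] S)
      (Field.toIsField F)) (Algebra.TensorProduct.comm A S F).toMulEquiv
  have : IsFractionRing S (S ⊗[A] F) := by
    refine IsLocalization.of_le (Algebra.algebraMapSubmonoid S A⁰) S⁰ hle fun r hr => ?_
    obtain ⟨b, hb⟩ := h1.mul_inv_cancel (a := algebraMap S (S ⊗[A] F) r) fun h =>
      nonZeroDivisors.ne_zero hr (IsLocalization.injective (S ⊗[A] F) hle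
        (h.trans (map_zero _).symm))
    exact IsUnit.of_mul_eq_one _ hb
  rw [isIntegrallyClosed_iff (S ⊗[A] F)]
  intro z hz
  obtain ⟨u, hu⟩ := (TensorProduct.toIntegralClosure_bijective_of_smooth (R := A) (S := S)
    (B := F)).2 ⟨z, hz⟩
  have h2 : z = Algebra.TensorProduct.map (AlgHom.id S S) (integralClosure A F).val u :=
    (congrArg Subtype.val hu).symm
  rw [h2]
  clear hu h2
  induction u with
  | zero => exact ⟨0, by simp⟩
  | add a b ha hb =>
    obtain ⟨a', ha⟩ := ha
    obtain ⟨b', hb⟩ := hb
    exact ⟨a' + b', by rw [map_add, map_add, ha, hb]⟩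
  | tmul s c =>
    obtain ⟨a, ha⟩ := (isIntegrallyClosed_iff F).1 ‹_› c.2
    refine ⟨a • s, ?_⟩
    rw [Algebra.TensorProduct.map_tmul, Subalgebra.coe_val, ← ha, Algebra.algebraMap_eq_smul_one a,
      TensorProduct.tmul_smul, TensorProduct.smul_tmul']
    rfl

/-- A chart with etale coordinates is normal. -/
theorem etC_normal [CharZero k] [IsDomain L] {n : ℕ} {S : Subalgebra k L} {y : Fin n → L}
    (h : EtC S y) {D : Fin n → Derivation k L L}
    (hD : ∀ i j, D i (y j) = if i = j then 1 else 0) : IsIntegrallyClosed S := by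
  obtain ⟨hy, h⟩ := h
  set φ : MvPolynomial (Fin n) k →ₐ[k] S := MvPolynomial.aeval fun l => (⟨y l, hy l⟩ : S) with hφ
  let : Algebra (MvPolynomial (Fin n) k) S := φ.toRingHom.toAlgebra
  have : Algebra.Etale (MvPolynomial (Fin n) k) S := h
  have hinj : Function.Injective (algebraMap (MvPolynomial (Fin n) k) S) := by
    have h1 : S.val.comp φ = MvPolynomial.aeval y := by
      ext l
      simp [hφ]
    exact Function.Injective.of_comp (f := S.val)
      (by rw [show S.val ∘ algebraMap _ S = S.val.comp φ from rfl, h1]
          exact aeval_injective_of_dual hD)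
  exact isIntegrallyClosed_of_etale hinj

/-- A fraction of elements of a normal subalgebra that is integral over it lies in it. -/
theorem mem_of_isIntegral [IsDomain L] {S : Subalgebra k L} [IsIntegrallyClosed S] {z b : L}
    (hz : IsIntegral S z) (hb : b ∈ S) (hb0 : b ≠ 0) (hbz : b * z ∈ S) : z ∈ S := by
  have hb1 : (⟨b, hb⟩ : S) ≠ 0 := fun h => hb0 (congrArg Subtype.val h)
  obtain ⟨c, hc⟩ : (⟨b, hb⟩ : S) ∣ ⟨b * z, hbz⟩ := by
    have hinj : Function.Injective (Algebra.ofId S (FractionRing L)) :=
      (IsFractionRing.injective L (FractionRing L)).comp Subtype.val_injective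
    let ψ : FractionRing S →ₐ[S] FractionRing L := IsFractionRing.liftAlgHom hinj
    have hb2 : algebraMap S (FractionRing S) ⟨b, hb⟩ ≠ 0 := by simpa using hb1
    have hb3 : algebraMap L (FractionRing L) b ≠ 0 := by simpa using hb0
    have h1 : ψ (algebraMap S _ ⟨b * z, hbz⟩ / algebraMap S _ ⟨b, hb⟩) =
        algebraMap L (FractionRing L) z := by
      rw [map_div₀, AlgHom.commutes, AlgHom.commutes, div_eq_iff (by exact hb3)]
      exact (map_mul (algebraMap L (FractionRing L)) b z).trans (mul_comm _ _)
    have h2 : IsIntegral S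
        (algebraMap S (FractionRing S) ⟨b * z, hbz⟩ / algebraMap S _ ⟨b, hb⟩) := by
      rw [← isIntegral_algHom_iff ψ ψ.toRingHom.injective, h1]
      exact hz.algebraMap
    obtain ⟨c, hc⟩ := (isIntegrallyClosed_iff (FractionRing S)).1 ‹_› h2
    refine ⟨c, IsFractionRing.injective S (FractionRing S) ?_⟩
    rw [map_mul, hc, mul_div_cancel₀ _ hb2]
  have : b * z = b * c := congrArg Subtype.val hc
  rw [mul_left_cancel₀ hb0 this]
  exact c.2

end Pool.Agent.Lib.MP_4287a9_ag.Res
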