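import Pool.Agent.Lib.MP_4287a9_ag.ResBr
import Pool.Agent.Lib.MP_4287a9_ag.ResLemU

/-! At an unramified point the vanishing coordinates generate the prime. -/

namespace Pool.Agent.Lib.MP_4287a9_ag.Res

variable {k L : Type} [Field k] [CommRing L] [Algebra k L] {N : ℕ} {S : Subalgebra k L}

theorem gen_of_unr (hfg : S.FG) {t : Fin N → L} {U : Set L} (hU : Unr S (Set.range t ∪ U))
    (hUS : ∀ z ∈ U, z ∈ S) {q : Submodule S L} (hq : PrimeAt S q) (ht : ∀ i, t i ∈ q)
    (h0 : ∀ z ∈ Algebra.adjoin k U, z ∈ q → z = 0) {y : L} (hy : y ∈ q) :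
    Sat q (Submodule.span S (Set.range t)) y := by
  have := hq.isPrime
  let A : Subalgebra k S := (Algebra.adjoin k (Set.range t ∪ U)).comap S.val
  have : Algebra.FiniteType k S := (Subalgebra.fg_iff_finiteType S).1 hfg
  have : Algebra.FiniteType A S := Algebra.FiniteType.of_restrictScalars_finiteType k _ _
  have : Algebra.FormallyUnramified A S := hU.formallyUnramified A fun z hz =>
    ⟨⟨z, Algebra.subset_adjoin hz⟩, rfl⟩
  let := Localization.AtPrime.algebraOfLiesOver ((idl q).under A) (idl q)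
  have h1 := ((Algebra.isUnramifiedAt_iff_map_eq A ((idl q).under A) (idl q)).1 inferInstance).2
  have hsp : Submodule.span S (Set.range t) ≤ q := Submodule.span_le.2 (Set.range_subset_iff.2 ht)
  have hU' : Algebra.adjoin k U ≤ S := Algebra.adjoin_le hUS
  have h2 : ∀ z ∈ Algebra.adjoin k (Set.range t ∪ U),
      ∃ z0 ∈ Algebra.adjoin k U, z - z0 ∈ Submodule.span S (Set.range t) := by
    intro z hz
    induction hz using Algebra.adjoin_induction with
    | mem z hz =>
      rcases hz with hz | hz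
      · exact ⟨0, zero_mem _, by simpa using Submodule.subset_span hz⟩
      · exact ⟨z, Algebra.subset_adjoin hz, by simp⟩
    | algebraMap c => exact ⟨_, Subalgebra.algebraMap_mem _ c, by simp⟩
    | add a b _ _ ha hb =>
      obtain ⟨a0, h1, h2⟩ := ha
      obtain ⟨b0, h3, h4⟩ := hb
      exact ⟨a0 + b0, add_mem h1 h3, by rw [add_sub_add_comm]; exact add_mem h2 h4⟩
    | mul a b _ _ ha hb =>
      obtain ⟨a0, h1, h2⟩ := ha
      obtain ⟨b0, h3, h4⟩ := hb
      refine ⟨a0 * b0, mul_mem h1 h3, ?_⟩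
      have hb : b ∈ S := by
        have := add_mem (hq.sub _ (hsp h4)) (hU' h3)
        rwa [sub_add_cancel] at this
      have : a * b - a0 * b0 = b * (a - a0) + a0 * (b - b0) := by ring
      rw [this]
      exact add_mem (mul_mem_sub hb h2) (mul_mem_sub (hU' h1) h4)
  have h3 : ((idl q).under A).map (algebraMap A S) ≤ idl (Submodule.span S (Set.range t)) := by
    rw [Ideal.map_le_iff_le_comap]
    intro z hz
    obtain ⟨z0, h4, h5⟩ := h2 ((z : S) : L) z.2
    have h6 : z0 ∈ q := by
      have := sub_mem (show ((z : S) : L) ∈ q from hz) (hsp h5)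
      rwa [sub_sub_cancel] at this
    rw [h0 z0 h4 h6, sub_zero] at h5
    exact h5
  have h4 : algebraMap S (Localization.AtPrime (idl q)) ⟨y, hq.sub y hy⟩ ∈
      (idl (Submodule.span S (Set.range t))).map (algebraMap S (Localization.AtPrime (idl q))) := by
    refine Ideal.map_mono h3 ?_
    rw [Ideal.map_map, ← IsScalarTower.algebraMap_eq]
    refine h1.ge ?_
    rw [← Localization.AtPrime.map_eq_maximalIdeal]
    exact Ideal.mem_map_of_mem _ hy
  obtain ⟨s, hs, h5⟩ := (IsLocalization.algebraMap_mem_map_algebraMap_iff (idl q).primeCompl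
    (Localization.AtPrime (idl q)) _ _).1 h4
  exact ⟨s, s.2, hs, h5⟩

end Pool.Agent.Lib.MP_4287a9_ag.Res
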