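import Pool.Agent.Lib.MP_4287a9_ag.ResA2
import Pool.Agent.Lib.MP_4287a9_ag.ResGen

/-! The local ring at the generic point of a coordinate divisor, inside the ambient ring. -/

namespace Pool.Agent.Lib.MP_4287a9_ag.Res

variable {k L : Type} [Field k] [CommRing L] [Algebra k L]

/-- `V` is the trace on `L` of a discrete valuation ring with uniformizer `t`. -/
structure TAdic (V : Subalgebra k L) (t : Lˣ) : Prop where
  mem : (t : L) ∈ V
  inv_notMem : ((t⁻¹ : Lˣ) : L) ∉ V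
  prime : ∀ a ∈ V, ∀ b ∈ V, a * b * ((t⁻¹ : Lˣ) : L) ∈ V →
    a * ((t⁻¹ : Lˣ) : L) ∈ V ∨ b * ((t⁻¹ : Lˣ) : L) ∈ V
  sep : ∀ z : L, (∀ m : ℕ, z * ((t⁻¹ ^ m : Lˣ) : L) ∈ V) → z = 0
  sat : ∀ a ∈ V, a * ((t⁻¹ : Lˣ) : L) ∉ V → ∀ z : L, a * z ∈ V → z ∈ V

/-- `z` has order `m`. -/
def Ord (V : Subalgebra k L) (t : Lˣ) (z : L) (m : ℤ) : Prop :=
  z * ((t ^ (-m) : Lˣ) : L) ∈ V ∧ z * ((t ^ (-m - 1) : Lˣ) : L) ∉ V

/-- A prime that is minimal over `t` (`Ideal.exists_minimalPrimes_le`; in the localization the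
maximal ideal is the radical of `(t)`). -/
theorem exists_min_prime {S : Subalgebra k L} {t : L} (ht : t ∈ S) (hu : ¬ UnitIn S t) :
    ∃ q : Submodule S L, PrimeAt S q ∧ t ∈ q ∧ ∀ x ∈ q, ∃ m : ℕ, Sat q (pr1 S t) (x ^ m) := by
  have hI : Ideal.span {(⟨t, ht⟩ : S)} ≠ ⊤ := by
    intro h
    obtain ⟨c, hc⟩ := Ideal.mem_span_singleton'.1 ((Ideal.eq_top_iff_one _).1 h)
    exact hu ⟨ht, c, c.2, by rw [mul_comm]; exact congrArg Subtype.val hc⟩
  obtain ⟨p, hp⟩ := Ideal.nonempty_minimalPrimes hI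
  have hp' : p.IsPrime := hp.1.1
  have hmem : ∀ (a : L) (ha : a ∈ S),
      a ∈ Submodule.map (Algebra.linearMap S L) p ↔ (⟨a, ha⟩ : S) ∈ p := fun a ha =>
    ⟨fun ⟨s, hs, e⟩ => by rwa [show (⟨a, ha⟩ : S) = s from Subtype.ext e.symm],
      fun h => ⟨_, h, rfl⟩⟩
  refine ⟨Submodule.map (Algebra.linearMap S L) p, ⟨fun _ ⟨s, _, e⟩ => e ▸ s.2,
    fun h1 => (Ideal.ne_top_iff_one p).1 hp'.ne_top ((hmem 1 (one_mem S)).1 h1),
    fun a ha b hb hab => by
      rw [hmem a ha, hmem b hb]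
      exact hp'.mem_or_mem ((hmem _ (mul_mem ha hb)).1 hab)⟩,
    (hmem t ht).2 (hp.1.2 (Ideal.subset_span rfl)), ?_⟩
  rintro _ ⟨s, hs, rfl⟩
  have h1 := IsLocalization.AtPrime.radical_map_of_mem_minimalPrimes (Localization.AtPrime p) p _ hp
  obtain ⟨m, hm⟩ := h1.ge (Ideal.mem_map_of_mem _ hs)
  rw [← map_pow] at hm
  obtain ⟨σ, hσ, h2⟩ := (IsLocalization.algebraMap_mem_map_algebraMap_iff p.primeCompl
    (Localization.AtPrime p) _ _).1 hm
  refine ⟨m, σ, σ.2, fun h => hσ ((hmem _ σ.2).1 h), ?_⟩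
  rw [← idl_pr1] at h2
  exact h2

/-- Seidenberg. Take `m` minimal with `σ x ^ m ∈ (t)`; then `m σ ² (δ x) x ^ (m - 1) ∈ (t)`. -/
theorem deriv_mem_of_min [CharZero k] {S : Subalgebra k L} {q : Submodule S L} (hq : PrimeAt S q)
    {t : L} (ht : t ∈ q) (hmin : ∀ x ∈ q, ∃ m : ℕ, Sat q (pr1 S t) (x ^ m))
    {δ : Derivation k L L} (hδ : Pres S δ) (hδt : δ t ∈ pr1 S t) {x : L} (hx : x ∈ q) :
    δ x ∈ q := by
  classical
  have hle : pr1 S t ≤ q := Submodule.span_le.2 (Set.singleton_subset_iff.2 ht)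
  have hxS := hq.sub x hx
  have H := hmin x hx
  have h0 : Nat.find H ≠ 0 := by
    intro h
    have h1 := Nat.find_spec H
    rw [h, pow_zero] at h1
    exact hq.one (Sat.mem_of_le hq hle (one_mem S) h1)
  obtain ⟨n, hn⟩ := Nat.exists_eq_succ_of_ne_zero h0
  have h1 := Nat.find_spec H
  rw [hn] at h1
  obtain ⟨σ, hσ, hσq, h2⟩ := h1
  by_contra hδx
  refine Nat.find_min H (m := n) (by omega) ⟨σ * σ * (((n + 1 : ℕ) : L) * δ x),
    mul_mem (mul_mem hσ hσ) (mul_mem (natCast_mem S _) (hδ x hxS)),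
    hq.mul_notMem (mul_mem hσ hσ) (mul_mem (natCast_mem S _) (hδ x hxS))
      (hq.mul_notMem hσ hσ hσq hσq) (hq.mul_notMem (natCast_mem S _) (hδ x hxS) ?_ hδx), ?_⟩
  · have h3 := hq.natCast_notMem (n + 1) (by omega)
    rw [mem_idl] at h3
    simpa using h3
  · obtain ⟨c, hc, h3⟩ := mem_pr1.1 h2
    have h4 : δ (σ * x ^ (n + 1)) ∈ pr1 S t := by
      rw [h3, Derivation.leibniz, smul_eq_mul, smul_eq_mul, mul_comm t]
      exact add_mem (mul_mem_sub hc hδt) (mul_mem_sub (hδ c hc) (Submodule.subset_span rfl))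
    have h5 : σ * σ * (((n + 1 : ℕ) : L) * δ x) * x ^ n =
        σ * δ (σ * x ^ (n + 1)) - δ σ * (σ * x ^ (n + 1)) := by
      rw [Derivation.leibniz, Derivation.leibniz_pow]
      simp only [smul_eq_mul, nsmul_eq_mul, Nat.add_sub_cancel]
      ring
    rw [h5]
    exact sub_mem (mul_mem_sub hσ h4) (mul_mem_sub (hδ σ hσ) h2)

/-- A nonzero polynomial in the other coordinates of minimal degree that lies in `q` has all
its derivatives in `q` (`deriv_aeval`), so it is a constant. -/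
theorem eq_zero_of_stable [CharZero k] {n : ℕ} {S : Subalgebra k L} {q : Submodule S L}
    (hq : PrimeAt S q) {y : Fin n → L} {D : Fin n → Derivation k L L}
    (hD : ∀ i j, D i (y j) = if i = j then 1 else 0) (l : Fin n)
    (hst : ∀ i, i ≠ l → ∀ x ∈ q, D i x ∈ q) {z : L}
    (hz : z ∈ Algebra.adjoin k {w | ∃ i, i ≠ l ∧ w = y i}) (hzq : z ∈ q) : z = 0 := by
  classical
  have key : ∀ (d : ℕ) (P : MvPolynomial {i // i ≠ l} k), (∀ m, P.coeff m ≠ 0 → m.degree < d) →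
      MvPolynomial.aeval (fun i : {i // i ≠ l} => y i) P ∈ q → P = 0 := by
    intro d
    induction d with
    | zero =>
      intro P h _
      ext m
      by_contra hm
      exact absurd (h m hm) (Nat.not_lt_zero _)
    | succ d ih =>
      intro P h hP
      have h1 : ∀ i, MvPolynomial.pderiv i P = 0 := by
        intro i
        refine ih _ (fun m hm => ?_) ?_
        · rw [MvPolynomial.coeff_pderiv] at hm
          have := h _ (left_ne_zero_of_mul hm)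
          rw [map_add, Finsupp.degree_single] at this
          omega
        · have h2 := hst i i.2 _ hP
          rw [deriv_aeval, Finset.sum_eq_single i] at h2
          · rwa [hD, if_pos rfl, mul_one] at h2
          · intro j _ hj
            rw [hD, if_neg fun e => hj (Subtype.ext e.symm), mul_zero]
          · intro h3
            exact absurd (Finset.mem_univ _) h3
      have h2 : P = MvPolynomial.C (P.coeff 0) := by
        ext m
        rw [MvPolynomial.coeff_C]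
        split_ifs with hm
        · rw [hm]
        · obtain ⟨i, hi⟩ := Finsupp.ne_iff.1 (Ne.symm hm)
          have h3 := congrArg (MvPolynomial.coeff (m - Finsupp.single i 1)) (h1 i)
          rw [MvPolynomial.coeff_pderiv, MvPolynomial.coeff_zero,
            tsub_add_cancel_of_le (Finsupp.single_le_iff.2 (Nat.pos_of_ne_zero hi))] at h3
          exact (mul_eq_zero.1 h3).resolve_right (Nat.cast_add_one_ne_zero _)
      rw [h2, MvPolynomial.aeval_C] at hP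
      have h3 : P.coeff 0 = 0 := by
        by_contra h3
        refine hq.notMem_of_unitIn ⟨S.algebraMap_mem _, algebraMap k L (P.coeff 0)⁻¹,
          S.algebraMap_mem _, ?_⟩ hP
        rw [← map_mul, mul_inv_cancel₀ h3, map_one]
      rw [h2, h3, map_zero]
  have h1 : {w | ∃ i, i ≠ l ∧ w = y i} = Set.range fun i : {i // i ≠ l} => y i := by
    ext w
    exact ⟨fun ⟨i, hi, e⟩ => ⟨⟨i, hi⟩, e.symm⟩, fun ⟨i, e⟩ => ⟨i, i.2, e.symm⟩⟩
  rw [h1, Algebra.adjoin_range_eq_range_aeval] at hz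
  obtain ⟨P, rfl⟩ := hz
  have h2 : P = 0 := key (P.totalDegree + 1) P (fun m hm => Nat.lt_succ_of_le
    (MvPolynomial.le_totalDegree (MvPolynomial.mem_support_iff.2 hm))) hzq
  rw [h2, map_zero]

/-- The trace on `L` of the localization of `S` at `q`. -/
def resDv1_loc {S : Subalgebra k L} {q : Submodule S L} (hq : PrimeAt S q) : Subalgebra k L where
  carrier := {z | ∃ σ ∈ S, σ ∉ q ∧ σ * z ∈ S}
  mul_mem' := by
    rintro a b ⟨σ, hσ, hσq, ha⟩ ⟨s, hs, hsq, hb⟩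
    refine ⟨σ * s, mul_mem hσ hs, hq.mul_notMem hσ hs hσq hsq, ?_⟩
    rw [mul_mul_mul_comm]
    exact mul_mem ha hb
  add_mem' := by
    rintro a b ⟨σ, hσ, hσq, ha⟩ ⟨s, hs, hsq, hb⟩
    refine ⟨σ * s, mul_mem hσ hs, hq.mul_notMem hσ hs hσq hsq, ?_⟩
    rw [show σ * s * (a + b) = s * (σ * a) + σ * (s * b) by ring]
    exact add_mem (mul_mem hs ha) (mul_mem hσ hb)
  algebraMap_mem' r := ⟨1, one_mem S, hq.one, by rw [one_mul]; exact S.algebraMap_mem r⟩

theorem resDv1_krull [IsDomain L] {S : Subalgebra k L} (hfg : S.FG) {q : Submodule S L}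
    (hq : PrimeAt S q) {t : L} (ht : t ∈ q) {f : L} (hf : f ∈ S)
    (h : ∀ m : ℕ, Sat q (pr1 S (t ^ m)) f) : f = 0 := by
  have := hq.isPrime
  have : Algebra.FiniteType k S := (Subalgebra.fg_iff_finiteType S).1 hfg
  have : IsNoetherianRing S := Algebra.FiniteType.isNoetherianRing k S
  have h1 : algebraMap S (Localization.AtPrime (idl q)) ⟨f, hf⟩ ∈
      ⨅ m : ℕ, IsLocalRing.maximalIdeal (Localization.AtPrime (idl q)) ^ m := by
    rw [Ideal.mem_iInf]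
    intro m
    rw [← Localization.AtPrime.map_eq_maximalIdeal, ← Ideal.map_pow,
      IsLocalization.algebraMap_mem_map_algebraMap_iff (idl q).primeCompl]
    obtain ⟨σ, hσ, hσq, h2⟩ := h m
    obtain ⟨c, hc, h3⟩ := mem_pr1.1 h2
    refine ⟨⟨σ, hσ⟩, hσq, ?_⟩
    have h4 : (⟨σ, hσ⟩ * ⟨f, hf⟩ : S) = ⟨c, hc⟩ * ⟨t, hq.sub t ht⟩ ^ m := Subtype.ext h3
    rw [h4]
    exact Ideal.mul_mem_left _ _ (Ideal.pow_mem_pow (I := idl q) ht m)
  rw [Ideal.iInf_pow_eq_bot_of_isLocalRing _ (IsLocalRing.maximalIdeal.isMaximal _).ne_top,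
    Ideal.mem_bot] at h1
  have h2 := IsLocalization.injective (Localization.AtPrime (idl q))
    (idl q).primeCompl_le_nonZeroDivisors (h1.trans (map_zero _).symm)
  exact congrArg Subtype.val h2

/-- `V = {z | ∃ σ ∈ S, σ ∉ q, σ z ∈ S}` for `q` minimal over `t = y l`. By `gen_of_unr` (with the
single coordinate `t`, `Fin 1`) `q ⊆ t V`; conversely `z t⁻¹ ∈ V`, `z ∈ S` gives `z ∈ q`. `sep`:
`sat_of_forall_pow` with `M = ⊥` or Krull in `S`. -/
theorem exists_tadic [CharZero k] [IsDomain L] {n : ℕ} {S : Subalgebra k L} (hfg : S.FG)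
    {y : Fin n → L} (hy : ∀ l, y l ∈ S) (hU : Unr S (Set.range y)) {D : Fin n → Derivation k L L}
    (hP : ∀ i, Pres S (D i)) (hD : ∀ i j, D i (y j) = if i = j then 1 else 0) {l : Fin n}
    {t : Lˣ} (ht : (t : L) = y l) (hu : ((t⁻¹ : Lˣ) : L) ∉ S) :
    ∃ V : Subalgebra k L, S ≤ V ∧ TAdic V t ∧ (∀ i, i ≠ l → y i * ((t⁻¹ : Lˣ) : L) ∉ V) ∧
      (∀ δ, Pres S δ → Pres V δ) ∧
      ∀ z ∈ V, ∃ σ ∈ S, σ * ((t⁻¹ : Lˣ) : L) ∉ V ∧ σ * z ∈ S := by
  have htS : (t : L) ∈ S := ht ▸ hy l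
  obtain ⟨q, hq, htq, hmin⟩ := exists_min_prime htS fun ⟨_, υ, hυ, h⟩ =>
    hu (by rwa [Units.inv_eq_of_mul_eq_one_right h])
  have h0 : ∀ z ∈ Algebra.adjoin k {w | ∃ i, i ≠ l ∧ w = y i}, z ∈ q → z = 0 := fun z hz hzq =>
    eq_zero_of_stable hq hD l (fun i hi x hx => deriv_mem_of_min hq htq hmin (hP i)
      (by rw [ht, hD, if_neg hi]; exact zero_mem _) hx) hz hzq
  have hgen : ∀ x ∈ q, Sat q (pr1 S (t : L)) x := by
    intro x hx
    have h1 := gen_of_unr (t := fun _ : Fin 1 => (t : L)) hfg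
      (U := {w | ∃ i, i ≠ l ∧ w = y i}) (hU.mono ?_) ?_ hq (fun _ => htq) h0 hx
    · rwa [Set.range_const] at h1
    · rintro _ ⟨i, rfl⟩
      by_cases hi : i = l
      · exact Or.inl ⟨0, by rw [hi, ht]⟩
      · exact Or.inr ⟨i, hi, rfl⟩
    · rintro _ ⟨i, _, rfl⟩
      exact hy i
  have hle : S ≤ resDv1_loc hq := fun z hz => ⟨1, one_mem S, hq.one, by rwa [one_mul]⟩
  have hsat : ∀ σ ∈ S, σ ∉ q → ∀ z, σ * z ∈ resDv1_loc hq → z ∈ resDv1_loc hq := by
    rintro σ hσ hσq z ⟨s, hs, hsq, h⟩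
    exact ⟨s * σ, mul_mem hs hσ, hq.mul_notMem hs hσ hsq hσq, by rwa [mul_assoc]⟩
  have key : ∀ z ∈ S, z * ((t⁻¹ : Lˣ) : L) ∈ resDv1_loc hq ↔ z ∈ q := by
    intro z hz
    constructor
    · rintro ⟨σ, hσ, hσq, h⟩
      have h1 := mul_mem_sub h htq
      rw [mul_assoc, Units.inv_mul_cancel_right] at h1
      exact (hq.prime σ hσ z hz h1).resolve_left hσq
    · intro h
      obtain ⟨σ, hσ, hσq, h1⟩ := hgen z h
      obtain ⟨c, hc, h2⟩ := mem_pr1.1 h1
      refine ⟨σ, hσ, hσq, ?_⟩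
      rwa [← mul_assoc, h2, Units.mul_inv_cancel_right]
  refine ⟨resDv1_loc hq, hle, ⟨hle htS, ?_, ?_, ?_, ?_⟩, ?_, ?_, ?_⟩
  · intro h
    exact hq.one ((key 1 (one_mem S)).1 (by rwa [one_mul]))
  · rintro a ⟨σ, hσ, hσq, ha⟩ b ⟨s, hs, hsq, hb⟩ hab
    have h1 : σ * a * (s * b) ∈ q := by
      refine (key _ (mul_mem ha hb)).1 ?_
      have h2 := mul_mem (hle (mul_mem hσ hs)) hab
      rwa [show σ * s * (a * b * ((t⁻¹ : Lˣ) : L)) = σ * a * (s * b) * ((t⁻¹ : Lˣ) : L) by ring]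
        at h2
    rcases hq.prime _ ha _ hb h1 with h2 | h2
    · exact Or.inl (hsat σ hσ hσq _ (by rw [← mul_assoc]; exact (key _ ha).2 h2))
    · exact Or.inr (hsat s hs hsq _ (by rw [← mul_assoc]; exact (key _ hb).2 h2))
  · intro z hz
    obtain ⟨σ, hσ, hσq, hf⟩ := hz 0
    rw [pow_zero, Units.val_one, mul_one] at hf
    have h1 : σ * z = 0 := by
      refine resDv1_krull hfg hq htq hf fun m => ?_
      obtain ⟨s, hs, hsq, h⟩ := hz m
      refine ⟨s, hs, hsq, mem_pr1.2 ⟨σ * (s * (z * ((t⁻¹ ^ m : Lˣ) : L))), mul_mem hσ h, ?_⟩⟩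
      have h2 : ((t⁻¹ ^ m : Lˣ) : L) * (t : L) ^ m = 1 := by
        rw [← Units.val_pow_eq_pow_val, ← Units.val_mul, ← mul_pow, inv_mul_cancel, one_pow,
          Units.val_one]
      linear_combination (-(s * σ * z)) * h2
    exact (mul_eq_zero.1 h1).resolve_left fun h => hσq (h ▸ zero_mem q)
  · rintro a ⟨σ, hσ, hσq, ha⟩ hat z hz
    refine hsat _ ha (fun h => hat (hsat σ hσ hσq _ ?_)) z ?_
    · rw [← mul_assoc]
      exact (key _ ha).2 h
    · rw [mul_assoc]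
      exact mul_mem (hle hσ) hz
  · intro i hi h
    have h1 := h0 _ (Algebra.subset_adjoin ⟨i, hi, rfl⟩) ((key _ (hy i)).1 h)
    have h2 := hD i i
    rw [h1, map_zero, if_pos rfl] at h2
    exact zero_ne_one h2
  · rintro δ hδ z ⟨σ, hσ, hσq, hz⟩
    refine ⟨σ * σ, mul_mem hσ hσ, hq.mul_notMem hσ hσ hσq hσq, ?_⟩
    have h1 : σ * σ * δ z = σ * δ (σ * z) - δ σ * (σ * z) := by
      rw [Derivation.leibniz, smul_eq_mul, smul_eq_mul]
      ring
    rw [h1]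
    exact sub_mem (mul_mem hσ (hδ _ hz)) (mul_mem (hδ σ hσ) hz)
  · rintro z ⟨σ, hσ, hσq, hz⟩
    exact ⟨σ, hσ, fun h => hσq ((key σ hσ).1 h), hz⟩

end Pool.Agent.Lib.MP_4287a9_ag.Res
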