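import Pool.Agent.Lib.MP_4287a9_ag.ResDv1

/-! Orders of vanishing; the induced discrete valuation ring of the field of degree zero. -/

namespace Pool.Agent.Lib.MP_4287a9_ag.Res

variable {k L : Type} [Field k] [CommRing L] [Algebra k L] {V : Subalgebra k L} {t : Lˣ}

theorem resDv2_add (t : Lˣ) (a b : ℤ) :
    ((t ^ (a + b) : Lˣ) : L) = ((t ^ a : Lˣ) : L) * ((t ^ b : Lˣ) : L) := by
  rw [zpow_add, Units.val_mul]

theorem resDv2_pred (t : Lˣ) (a : ℤ) :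
    ((t ^ (a - 1) : Lˣ) : L) = ((t ^ a : Lˣ) : L) * ((t⁻¹ : Lˣ) : L) := by
  rw [zpow_sub_one, Units.val_mul]

theorem resDv2_cancel (t : Lˣ) (a : ℤ) : ((t ^ a : Lˣ) : L) * ((t ^ (-a) : Lˣ) : L) = 1 := by
  rw [← resDv2_add, add_neg_cancel, zpow_zero, Units.val_one]

theorem resDv2_mem (h : TAdic V t) {a : ℤ} (ha : 0 ≤ a) : ((t ^ a : Lˣ) : L) ∈ V := by
  obtain ⟨n, rfl⟩ := Int.eq_ofNat_of_zero_le ha
  rw [zpow_natCast, Units.val_pow_eq_pow_val]
  exact pow_mem h.mem n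

theorem resDv2_zero {z : L} : Ord V t z 0 ↔ z ∈ V ∧ z * ((t⁻¹ : Lˣ) : L) ∉ V := by
  simp only [Ord, neg_zero, zpow_zero, Units.val_one, mul_one, zero_sub, zpow_neg_one]

theorem TAdic.mem_of_le (h : TAdic V t) {z : L} {m m' : ℤ} (hm : m' ≤ m)
    (hz : z * ((t ^ (-m) : Lˣ) : L) ∈ V) : z * ((t ^ (-m') : Lˣ) : L) ∈ V := by
  have e : z * ((t ^ (-m') : Lˣ) : L) = z * ((t ^ (-m) : Lˣ) : L) * ((t ^ (m - m') : Lˣ) : L) := by
    rw [mul_assoc, ← resDv2_add, show -m + (m - m') = -m' by ring]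
  rw [e]
  exact mul_mem hz (resDv2_mem h (by omega))

theorem Ord.le (h : TAdic V t) {z : L} {m m' : ℤ} (hz : Ord V t z m)
    (hz' : z * ((t ^ (-m') : Lˣ) : L) ∈ V) : m' ≤ m := by
  by_contra hlt
  apply hz.2
  rw [show -m - 1 = -(m + 1) by ring]
  exact h.mem_of_le (by omega) hz'

theorem Ord.unique (h : TAdic V t) {z : L} {m m' : ℤ} (hz : Ord V t z m) (hz' : Ord V t z m') :
    m = m' := by
  exact le_antisymm (hz'.le h hz.1) (hz.le h hz'.1)

theorem Ord.mul (h : TAdic V t) {z z' : L} {m m' : ℤ} (hz : Ord V t z m) (hz' : Ord V t z' m') :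
    Ord V t (z * z') (m + m') := by
  have e : z * z' * ((t ^ (-(m + m')) : Lˣ) : L) =
      z * ((t ^ (-m) : Lˣ) : L) * (z' * ((t ^ (-m') : Lˣ) : L)) := by
    rw [neg_add, resDv2_add]
    ring
  refine ⟨by rw [e]; exact mul_mem hz.1 hz'.1, fun h1 => ?_⟩
  rw [resDv2_pred, ← mul_assoc, e] at h1
  rcases h.prime _ hz.1 _ hz'.1 h1 with h2 | h2
  · exact hz.2 (by rwa [resDv2_pred, ← mul_assoc])
  · exact hz'.2 (by rwa [resDv2_pred, ← mul_assoc])

theorem TAdic.ord_one (h : TAdic V t) : Ord V t 1 0 := by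
  exact resDv2_zero.2 ⟨one_mem _, by rw [one_mul]; exact h.inv_notMem⟩

theorem TAdic.ord_self (h : TAdic V t) : Ord V t (t : L) 1 := by
  have e : (t : L) * ((t ^ (-1 : ℤ) : Lˣ) : L) = 1 := by
    rw [zpow_neg_one, Units.mul_inv]
  refine ⟨by rw [e]; exact one_mem _, fun h1 => ?_⟩
  rw [resDv2_pred, ← mul_assoc, e, one_mul] at h1
  exact h.inv_notMem h1

theorem Ord.inv (h : TAdic V t) {σ : Lˣ} {m : ℤ} (hσ : Ord V t (σ : L) m) :
    Ord V t ((σ⁻¹ : Lˣ) : L) (-m) := by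
  have e : (σ : L) * ((t ^ (-m) : Lˣ) : L) * (((σ⁻¹ : Lˣ) : L) * ((t ^ (- -m) : Lˣ) : L)) = 1 := by
    rw [mul_mul_mul_comm, Units.mul_inv, resDv2_cancel, one_mul]
  refine ⟨h.sat _ hσ.1 (fun h1 => hσ.2 (by rwa [resDv2_pred, ← mul_assoc])) _
    (by rw [e]; exact one_mem _), fun h1 => h.inv_notMem ?_⟩
  have h2 := mul_mem hσ.1 h1
  rwa [resDv2_pred, ← mul_assoc ((σ⁻¹ : Lˣ) : L), ← mul_assoc, e, one_mul] at h2

theorem Ord.zpow (h : TAdic V t) {σ : Lˣ} {m : ℤ} (hσ : Ord V t (σ : L) m) (e : ℤ) :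
    Ord V t ((σ ^ e : Lˣ) : L) (e * m) := by
  have hn : ∀ n : ℕ, Ord V t ((σ ^ n : Lˣ) : L) (n * m) := fun n => by
    induction n with
    | zero => simpa using h.ord_one
    | succ n ih =>
      rw [pow_succ, Units.val_mul, Nat.cast_succ, add_mul, one_mul]
      exact ih.mul h hσ
  obtain ⟨n, rfl | rfl⟩ := Int.eq_nat_or_neg e
  · rw [zpow_natCast]
    exact hn n
  · rw [zpow_neg, zpow_natCast, neg_mul]
    exact (hn n).inv h

theorem Ord.prod (h : TAdic V t) {ι : Type} {s : Finset ι} {z : ι → L} {m : ι → ℤ}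
    (hz : ∀ i ∈ s, Ord V t (z i) (m i)) : Ord V t (∏ i ∈ s, z i) (∑ i ∈ s, m i) := by
  classical
  induction s using Finset.induction_on with
  | empty => simpa using h.ord_one
  | insert a s ha ih =>
    rw [Finset.prod_insert ha, Finset.sum_insert ha]
    exact (hz a (Finset.mem_insert_self a s)).mul h
      (ih fun i hi => hz i (Finset.mem_insert_of_mem hi))

theorem TAdic.ord_of_unit (h : TAdic V t) {z : L} (hz : UnitIn V z) : Ord V t z 0 := by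
  obtain ⟨h1, υ, h2, e⟩ := hz
  refine resDv2_zero.2 ⟨h1, fun h3 => h.inv_notMem ?_⟩
  have h4 := mul_mem h2 h3
  rwa [← mul_assoc, mul_comm υ, e, one_mul] at h4

theorem TAdic.exists_ord (h : TAdic V t) {z : L} (hz : z ∈ V) (h0 : z ≠ 0) :
    ∃ m : ℕ, Ord V t z m := by
  classical
  have hex : ∃ m : ℕ, z * ((t ^ (-(m : ℤ) - 1) : Lˣ) : L) ∉ V := by
    by_contra hcon
    refine h0 (h.sep z fun m => ?_)
    have h1 : z * ((t ^ (-((m : ℤ) + 1)) : Lˣ) : L) ∈ V := by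
      by_contra h2
      exact hcon ⟨m, by rwa [show -(m : ℤ) - 1 = -((m : ℤ) + 1) by ring]⟩
    have h2 := h.mem_of_le (m' := m) (by omega) h1
    rwa [zpow_neg, zpow_natCast, ← inv_pow] at h2
  refine ⟨Nat.find hex, ?_, Nat.find_spec hex⟩
  rcases Nat.eq_zero_or_pos (Nat.find hex) with h1 | h1
  · rw [h1]
    simpa using hz
  · have h2 := Nat.find_min hex (Nat.sub_lt h1 one_pos)
    rw [not_not] at h2
    rwa [show -((Nat.find hex - 1 : ℕ) : ℤ) - 1 = -(Nat.find hex : ℤ) by omega] at h2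

theorem Ord.mem_iff (h : TAdic V t) {z : L} {m : ℤ} (hz : Ord V t z m) : z ∈ V ↔ 0 ≤ m := by
  refine ⟨fun h1 => hz.le h (by simpa using h1), fun h1 => ?_⟩
  simpa using h.mem_of_le h1 hz.1

/-- A derivation lowers the order by at most one. -/
theorem TAdic.deriv (h : TAdic V t) {δ : Derivation k L L} (hδ : Pres V δ) {z : L} {m : ℕ}
    (hz : z * ((t ^ (-(m : ℤ)) : Lˣ) : L) ∈ V) :
    δ z * ((t ^ (-((m : ℤ) - 1)) : Lˣ) : L) ∈ V := by
  obtain ⟨a, ha, rfl⟩ : ∃ a ∈ V, z = a * (t : L) ^ m := by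
    refine ⟨_, hz, ?_⟩
    rw [← Units.val_pow_eq_pow_val, ← zpow_natCast, mul_assoc, mul_comm _ ((t ^ (m : ℤ) : Lˣ) : L),
      resDv2_cancel, mul_one]
  cases m with
  | zero =>
    rw [pow_zero, mul_one]
    exact mul_mem (hδ a ha) (resDv2_mem h (by simp))
  | succ n =>
    have e1 : (t : L) ^ n * ((t ^ (-(((n + 1 : ℕ) : ℤ) - 1)) : Lˣ) : L) = 1 := by
      rw [← Units.val_pow_eq_pow_val, ← zpow_natCast, show ((n + 1 : ℕ) : ℤ) - 1 = n by omega,
        resDv2_cancel]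
    have e2 : δ (a * (t : L) ^ (n + 1)) =
        (a * ((n + 1 : ℕ) : L) * δ t + (t : L) * δ a) * (t : L) ^ n := by
      rw [Derivation.leibniz, Derivation.leibniz_pow]
      simp only [smul_eq_mul, nsmul_eq_mul, Nat.add_sub_cancel]
      ring
    rw [e2, mul_assoc, e1, mul_one]
    exact add_mem (mul_mem (mul_mem ha (natCast_mem V _)) (hδ _ h.mem)) (mul_mem h.mem (hδ a ha))

/-- `O` is the preimage of `V`. Every nonzero `x : K` has an order; the orders form a nonzero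
subgroup `m ℤ` of `ℤ`; `π` has order `m`
(`IsDiscreteValuationRing.ofHasUnitMulPowIrreducibleFactorization`). -/
theorem TAdic.exists_dvr (h : TAdic V t) {K : Type} [Field K] (ι : K →+* L)
    (hfr : ∀ x : K, ∃ b : K, b ≠ 0 ∧ ι b ∈ V ∧ ι (b * x) ∈ V)
    (hne : ∃ x : K, x ≠ 0 ∧ ι x * ((t⁻¹ : Lˣ) : L) ∈ V) :
    ∃ (O : ValuationSubring K) (π : O) (m : ℕ), (∀ x, x ∈ O ↔ ι x ∈ V) ∧
      IsDiscreteValuationRing O ∧ Irreducible π ∧ 0 < m ∧
      (∀ x : K, x ≠ 0 → ∃ e : ℤ, x * (π : K) ^ (-e) ∈ O ∧ (x * (π : K) ^ (-e))⁻¹ ∈ O) ∧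
      ∀ (x : K) (e : ℤ), x ≠ 0 → x * (π : K) ^ (-e) ∈ O → (x * (π : K) ^ (-e))⁻¹ ∈ O →
        Ord V t (ι x) (m * e) := by
  classical
  have hL : (1 : L) ≠ 0 := fun e => h.inv_notMem (by
    rw [← mul_one ((t⁻¹ : Lˣ) : L), e, mul_zero]
    exact zero_mem _)
  have : Nontrivial L := nontrivial_of_ne _ _ hL
  have hmul : ∀ {x y : K} {a b : ℤ}, Ord V t (ι x) a → Ord V t (ι y) b →
      Ord V t (ι (x * y)) (a + b) := fun h1 h2 => by
    rw [map_mul]
    exact h1.mul h h2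
  have hzpow : ∀ {x : K} {a : ℤ}, x ≠ 0 → Ord V t (ι x) a → ∀ e : ℤ,
      Ord V t (ι (x ^ e)) (e * a) := fun {x a} hx h1 e => by
    have h2 := Ord.zpow h (σ := Units.map (ι : K →* L) (Units.mk0 x hx)) h1 e
    rw [← map_zpow, Units.coe_map, Units.val_zpow_eq_zpow_val] at h2
    exact h2
  have hinv : ∀ {x : K} {a : ℤ}, x ≠ 0 → Ord V t (ι x) a → Ord V t (ι x⁻¹) (-a) :=
    fun hx h1 => by simpa using hzpow hx h1 (-1)
  have hex : ∀ x : K, x ≠ 0 → ∃ a : ℤ, Ord V t (ι x) a := fun x hx => by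
    obtain ⟨b, hb, h1, h2⟩ := hfr x
    obtain ⟨m1, h3⟩ := h.exists_ord h1 ((map_ne_zero ι).2 hb)
    obtain ⟨m2, h4⟩ := h.exists_ord h2 ((map_ne_zero ι).2 (mul_ne_zero hb hx))
    have h5 := hmul (hinv hb h3) h4
    rw [← mul_assoc, inv_mul_cancel₀ hb, one_mul] at h5
    exact ⟨_, h5⟩
  obtain ⟨O, hO⟩ : ∃ O : ValuationSubring K, ∀ x, x ∈ O ↔ ι x ∈ V := by
    refine ⟨⟨V.toSubring.comap ι, fun x => ?_⟩, fun x => Iff.rfl⟩
    by_cases hx : x = 0
    · left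
      rw [hx]
      exact zero_mem (V.toSubring.comap ι)
    · obtain ⟨a, ha⟩ := hex x hx
      rcases le_total 0 a with h1 | h1
      · exact Or.inl ((ha.mem_iff h).2 h1)
      · exact Or.inr (((hinv hx ha).mem_iff h).2 (by omega))
  have hpos : ∃ m : ℕ, 0 < m ∧ ∃ x : K, x ≠ 0 ∧ Ord V t (ι x) m := by
    obtain ⟨x, hx, h1⟩ := hne
    obtain ⟨a, ha⟩ := hex x hx
    have h2 : 1 ≤ a := ha.le h (by rwa [zpow_neg_one])
    exact ⟨a.toNat, by omega, x, hx, by rwa [Int.toNat_of_nonneg (by omega)]⟩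
  obtain ⟨hm, p, hp, hpm⟩ := Nat.find_spec hpos
  have hmin : ∀ (x : K) (a : ℤ), x ≠ 0 → Ord V t (ι x) a → 0 ≤ a → a < Nat.find hpos → a = 0 :=
    fun x a hx ha h1 h2 => by
      by_contra h3
      exact Nat.find_min hpos (m := a.toNat) (by omega)
        ⟨by omega, x, hx, by rwa [Int.toNat_of_nonneg h1]⟩
  generalize Nat.find hpos = m at hm hpm hmin
  have hpO : p ∈ O := (hO p).2 ((hpm.mem_iff h).2 (by omega))
  have hunit : ∀ x : O, (x : K) ≠ 0 → Ord V t (ι x) 0 → IsUnit x := fun x hx h1 =>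
    IsUnit.of_mul_eq_one ⟨(x : K)⁻¹, (hO _).2 (((hinv hx h1).mem_iff h).2 (by omega))⟩
      (Subtype.ext (mul_inv_cancel₀ hx))
  have hirr : Irreducible (⟨p, hpO⟩ : O) := by
    constructor
    · intro hu
      obtain ⟨y, hy⟩ := hu.exists_right_inv
      have e : p * (y : K) = 1 := congrArg Subtype.val hy
      have h1 : UnitIn V (ι p) := ⟨(hO p).1 hpO, ι y, (hO _).1 y.2, by rw [← map_mul, e, map_one]⟩
      have := hpm.unique h (h.ord_of_unit h1)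
      omega
    · intro x y hxy
      have e : p = (x : K) * y := congrArg Subtype.val hxy
      have hx : (x : K) ≠ 0 := left_ne_zero_of_mul (e ▸ hp)
      have hy : (y : K) ≠ 0 := right_ne_zero_of_mul (e ▸ hp)
      obtain ⟨a, ha⟩ := hex _ hx
      obtain ⟨b, hb⟩ := hex _ hy
      have h1 := (ha.mem_iff h).1 ((hO _).1 x.2)
      have h2 := (hb.mem_iff h).1 ((hO _).1 y.2)
      have h3 := hmul ha hb
      rw [← e] at h3
      have h4 := h3.unique h hpm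
      by_cases h5 : a < m
      · rw [hmin _ a hx ha h1 h5] at ha
        exact Or.inl (hunit x hx ha)
      · rw [show b = 0 by omega] at hb
        exact Or.inr (hunit y hy hb)
  have hfac : ∀ (x : K) (a : ℤ), x ≠ 0 → Ord V t (ι x) a →
      Ord V t (ι (x * p ^ (-(a / m)))) 0 := fun x a hx ha => by
    have h1 := hmul ha (hzpow hp hpm (-(a / m)))
    have h2 : a + -(a / m) * m = a % m := by
      rw [Int.emod_def]
      ring
    rw [h2] at h1
    have h3 := hmin _ _ (mul_ne_zero hx (zpow_ne_zero _ hp)) h1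
      (Int.emod_nonneg _ (by omega)) (Int.emod_lt_of_pos _ (by omega))
    rwa [h3] at h1
  refine ⟨O, ⟨p, hpO⟩, m, hO, ?_, hirr, hm, fun x hx => ?_, fun x e hx h1 h2 => ?_⟩
  · refine IsDiscreteValuationRing.ofHasUnitMulPowIrreducibleFactorization
      ⟨_, hirr, fun {x} hx => ?_⟩
    have hx' : (x : K) ≠ 0 := fun e => hx (Subtype.ext e)
    obtain ⟨a, ha⟩ := hex _ hx'
    have h1 := hfac _ a hx' ha
    have h2 : 0 ≤ a / m := Int.ediv_nonneg ((ha.mem_iff h).1 ((hO _).1 x.2)) (by omega)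
    obtain ⟨n, hn⟩ := Int.eq_ofNat_of_zero_le h2
    rw [hn] at h1
    obtain ⟨u, hu⟩ := hunit ⟨_, (hO _).2 ((h1.mem_iff h).2 le_rfl)⟩
      (mul_ne_zero hx' (zpow_ne_zero _ hp)) h1
    refine ⟨n, u, Subtype.ext ?_⟩
    rw [hu]
    change p ^ n * ((x : K) * p ^ (-(n : ℤ))) = x
    rw [zpow_neg, zpow_natCast, mul_comm, inv_mul_cancel_right₀ (pow_ne_zero n hp)]
  · obtain ⟨a, ha⟩ := hex x hx
    have h1 := hfac x a hx ha
    exact ⟨a / m, (hO _).2 ((h1.mem_iff h).2 le_rfl), (hO _).2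
      (((hinv (mul_ne_zero hx (zpow_ne_zero _ hp)) h1).mem_iff h).2 (by omega))⟩
  · have h3 : x * p ^ (-e) ≠ 0 := mul_ne_zero hx (zpow_ne_zero _ hp)
    have h4 : UnitIn V (ι (x * p ^ (-e))) :=
      ⟨(hO _).1 h1, _, (hO _).1 h2, by rw [← map_mul, mul_inv_cancel₀ h3, map_one]⟩
    have h5 := hmul (h.ord_of_unit h4) (hzpow hp hpm e)
    rwa [mul_assoc, zpow_neg, inv_mul_cancel₀ (zpow_ne_zero _ hp), mul_one, zero_add,
      mul_comm e] at h5

end Pool.Agent.Lib.MP_4287a9_ag.Res
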