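import Pool.Agent.Lib.MP_4287a9_ag.D4
import Pool.Agent.Lib.MP_4287a9_ag.ResD

/-!
The output of the weighted resolution: finitely many graded charts inside `K[τ₁^±, ..., τ_ρ^±]`.
-/

namespace Pool.Agent.Lib.MP_4287a9_ag

noncomputable section

/-- The map `R → K → K[τ^±]` onto elements of degree zero. -/
def inL (R K : Type) [CommRing R] [CommRing K] [Algebra R K] (ρ : ℕ) : R →+* LA K ρ :=
  (algebraMap K (LA K ρ)).comp (algebraMap R K)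

/-- Data of a resolution: `m` charts, `μ` divisors, `s` principalized ideals. -/
structure ResOut (k R K : Type) [Field k] [CommRing R] [Field K] [Algebra k K] (n s : ℕ) where
  ρ : ℕ
  m : ℕ
  μ : ℕ
  mv : ℕ
  B : Fin m → Subalgebra k (LA K ρ)
  y : Fin m → Fin (n + ρ) → LA K ρ
  lam : Fin m → Fin μ → Option (Fin (n + ρ))
  t : Fin m → Fin μ → (LA K ρ)ˣ
  v : Fin m → Fin ρ → (LA K ρ)ˣ
  jac : Fin m → (LA K ρ)ˣ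
  F : Fin m → R
  f : Fin m → Fin s → R
  Fu : Fin m → (LA K ρ)ˣ
  fu : Fin m → Fin s → (LA K ρ)ˣ
  aF : Fin μ → ℕ
  af : Fin s → Fin μ → ℕ
  aj : Fin μ → ℕ

/-- The properties. `D₀` are derivations of `K`, dual to a transcendence basis `x` in `R`; then
`dx ∧ dlog τ = jac a • dy` on the chart `a`. -/
structure ResOut.Good {k R K : Type} [Field k] [CommRing R] [Field K] [Algebra k K] [Algebra R K]
    {n s : ℕ} (d : ResOut k R K n s) (D₀ : Fin n → Derivation k K K) (𝔞 : Fin s → Ideal R) :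
    Prop where
  mpos : 0 < d.m
  hmv : 0 < d.mv
  fg : ∀ a, ∃ σ : Finset (LA K d.ρ), (∀ z ∈ σ, IsHom z) ∧ d.B a = Algebra.adjoin k σ
  base : ∀ a r, inL R K d.ρ r ∈ d.B a
  het : ∀ a, EtC (d.B a) (d.y a)
  dy : ∀ a l, IsHom (d.y a l)
  hinj : ∀ a i i' l, d.lam a i = some l → d.lam a i' = some l → i = i'
  ht : ∀ a i, (d.t a i : LA K d.ρ) = (d.lam a i).elim 1 (d.y a)
  occ : ∀ i, ∃ a, (((d.t a i)⁻¹ : (LA K d.ρ)ˣ) : LA K d.ρ) ∉ d.B a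
  hglue : ∀ a b i, As (d.B a ⊔ d.B b) (d.t a i) (d.t b i)
  hFu : ∀ a, (d.Fu a : LA K d.ρ) = inL R K d.ρ (d.F a)
  hfu : ∀ a i, (d.fu a i : LA K d.ρ) = inL R K d.ρ (d.f a i)
  Fdiv : ∀ a b, ((d.Fu b * (d.Fu a)⁻¹ : (LA K d.ρ)ˣ) : LA K d.ρ) ∈ d.B a
  hBB : ∀ a b, ∀ z ∈ d.B b, ∃ e : ℕ,
    (((d.Fu b * (d.Fu a)⁻¹) ^ e : (LA K d.ρ)ˣ) : LA K d.ρ) * z ∈ d.B a
  hτ : ∀ a, ∀ w ∈ GD.taus K d.ρ, ∃ e : ℕ, (d.Fu a : LA K d.ρ) ^ e * w ∈ d.B a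
  dv : ∀ a c, IsDeg (Pi.single c (d.mv : ℤ)) (d.v a c : LA K d.ρ)
  hv : ∀ a c, (d.v a c : LA K d.ρ) ∈ d.B a ∧ (((d.v a c)⁻¹ : (LA K d.ρ)ˣ) : LA K d.ρ) ∈ d.B a
  cover : ∀ W : ValuationSubring K, (∀ r, algebraMap R K r ∈ W) →
    ∃ a, ∀ z : K, algebraMap K (LA K d.ρ) z ∈ d.B a → z ∈ W
  fmem : ∀ a i, d.f a i ∈ 𝔞 i
  fgen : ∀ a i, ∀ g ∈ 𝔞 i,
    inL R K d.ρ g * (((d.fu a i)⁻¹ : (LA K d.ρ)ˣ) : LA K d.ρ) ∈ d.B a
  aFpos : ∀ i, 0 < d.aF i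
  hF : ∀ a, As (d.B a) (d.Fu a) (∏ i, d.t a i ^ d.aF i)
  hf : ∀ a i, As (d.B a) (d.fu a i) (∏ e, d.t a e ^ d.af i e)
  hdet : ∀ a, (d.jac a : LA K d.ρ) *
    (Matrix.of fun i l => Res.amb D₀ (id : Fin d.ρ → Fin d.ρ) i (d.y a l)).det = 1
  hj : ∀ a, As (d.B a) (d.jac a) (∏ i, d.t a i ^ ((d.aj i : ℤ) - 1))

/-- The finiteness statement for the twisted family `G a = Fu a * ∏ fu a i ^ c i`. -/
def ResOut.Fin' {k R K : Type} [Field k] [CommRing R] [Field K] [Algebra k K] [Algebra R K]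
    {n s : ℕ} (d : ResOut k R K n s) (c : Fin s → ℕ) : Prop :=
  ∃ (no : ℕ) (om : Fin d.m → Fin no → LA K d.ρ), (∀ a i, IsHom (om a i) ∧ om a i ∈ d.B a) ∧
    ∀ a, ∀ w ∈ d.B a, w ∈ Submodule.span (Algebra.adjoin k (Set.range (inL R K d.ρ) ∪
      Set.range (fun b => (((d.Fu b * ∏ i, d.fu b i ^ c i) * (d.Fu a * ∏ i, d.fu a i ^ c i)⁻¹ :
        (LA K d.ρ)ˣ) : LA K d.ρ)) ∪
      Set.range (fun e => (d.v a e : LA K d.ρ)) ∪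
      Set.range fun e => (((d.v a e)⁻¹ : (LA K d.ρ)ˣ) : LA K d.ρ))) (Set.range (om a))

end

end Pool.Agent.Lib.MP_4287a9_ag
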