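import Pool.Agent.Lib.MP_4287a9_ag.ResDv2
import Pool.Agent.Lib.MP_4287a9_ag.ResOut

/-! Dual derivations from a determinant; the order of a Jacobian determinant. -/

namespace Pool.Agent.Lib.MP_4287a9_ag.Res

variable {k L : Type} [Field k] [CommRing L] [Algebra k L]

/-- Etale maps are formally unramified: the module of differentials over `k[Y]` vanishes, and a
`k`-derivation that kills the `y l` is a `k[Y]`-derivation. -/
theorem unr_of_etC {n : ℕ} {S : Subalgebra k L} {y : Fin n → L} (h : EtC S y) :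
    Unr S (Set.range y) := by
  obtain ⟨hy, h⟩ := h
  intro M _ _ _ _ D hD
  set φ : MvPolynomial (Fin n) k →ₐ[k] S := MvPolynomial.aeval fun l => (⟨y l, hy l⟩ : S) with hφ
  have h0 : ∀ p, D (φ p) = 0 := by
    intro p
    induction p using MvPolynomial.induction_on with
    | C a => rw [MvPolynomial.algHom_C, Derivation.map_algebraMap]
    | add p q hp hq => rw [map_add, map_add, hp, hq, add_zero]
    | mul_X p i hp =>
      rw [map_mul, Derivation.leibniz, hp, hφ, MvPolynomial.aeval_X, hD _ ⟨i, rfl⟩, smul_zero,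
        smul_zero, add_zero]
  let _ : Algebra (MvPolynomial (Fin n) k) S := φ.toRingHom.toAlgebra
  let _ : Module (MvPolynomial (Fin n) k) M := Module.compHom M φ.toRingHom
  have : IsScalarTower (MvPolynomial (Fin n) k) S M :=
    ⟨fun p s m => mul_smul (φ p) s m⟩
  have : Algebra.Etale (MvPolynomial (Fin n) k) S := h
  let D' : Derivation (MvPolynomial (Fin n) k) S M :=
    { toFun := D
      map_add' := fun a b => map_add D a b
      map_smul' := fun p s => by
        change D (φ p * s) = φ p • D s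
        rw [Derivation.leibniz, h0, smul_zero, add_zero]
      map_one_eq_zero' := D.map_one_eq_zero
      leibniz' := fun a b => D.leibniz a b }
  ext s
  have h1 := D'.liftKaehlerDifferential_comp_D s
  rw [Subsingleton.elim (KaehlerDifferential.D (MvPolynomial (Fin n) k) S s) 0, map_zero] at h1
  exact h1.symm

theorem resDv3_sum {ι : Type} (u : Finset ι) (c : ι → L) (E : ι → Derivation k L L) (z : L) :
    (∑ i ∈ u, c i • E i : Derivation k L L) z = ∑ i ∈ u, c i * E i z := by
  classical
  induction u using Finset.induction_on with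
  | empty => simp
  | insert i u hi ih => rw [Finset.sum_insert hi, Finset.sum_insert hi, Derivation.add_apply, ih,
      Derivation.smul_apply, smul_eq_mul]

/-- `D l = Σ i, (j * adjugate l i) • E i`. -/
theorem exists_dual_of_det {n : ℕ} {E : Fin n → Derivation k L L} {y : Fin n → L} {j : L}
    (h : j * (Matrix.of fun i l => E i (y l)).det = 1) :
    ∃ D : Fin n → Derivation k L L, (∀ i l, D i (y l) = if i = l then 1 else 0) ∧
      ∀ w : Fin n → L, (Matrix.of fun i l => D i (w l)).det =
        j * (Matrix.of fun i l => E i (w l)).det := by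
  set A : Matrix (Fin n) (Fin n) L := Matrix.of fun i l => E i (y l) with hA
  have h1 : (j • A.adjugate) * A = 1 := by
    rw [Matrix.smul_mul, Matrix.adjugate_mul, smul_smul, h, one_smul]
  have h2 : (j • A.adjugate).det = j := by
    have h3 := congrArg Matrix.det h1
    rw [Matrix.det_mul, Matrix.det_one] at h3
    linear_combination j * h3 - (j • A.adjugate).det * h
  have h3 : ∀ w : Fin n → L,
      (Matrix.of fun i l => (∑ m, (j • A.adjugate) i m • E m : Derivation k L L) (w l)) =
        (j • A.adjugate) * Matrix.of fun i l => E i (w l) := by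
    intro w
    ext i l
    rw [Matrix.of_apply, resDv3_sum, Matrix.mul_apply]
    rfl
  refine ⟨fun i => ∑ m, (j • A.adjugate) i m • E m, fun i l => ?_, fun w => ?_⟩
  · have h4 := congrFun (congrFun (h3 y) i) l
    rw [← hA, h1, Matrix.of_apply, Matrix.one_apply] at h4
    exact h4
  · rw [h3, Matrix.det_mul, h2]

theorem resDv3_const [CharZero k] {n : ℕ} {Q : MvPolynomial (Fin n) k}
    (h : ∀ l, MvPolynomial.pderiv l Q = 0) : Q = MvPolynomial.C (Q.coeff 0) := by
  classical
  ext m
  rw [MvPolynomial.coeff_C]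
  split_ifs with hm
  · rw [hm]
  · obtain ⟨l, hl⟩ : ∃ l, m l ≠ 0 := by
      by_contra hc
      push Not at hc
      exact hm (Finsupp.ext fun l => (hc l).symm)
    have h1 := MvPolynomial.coeff_pderiv (i := l) Q (m - Finsupp.single l 1)
    rw [h l, MvPolynomial.coeff_zero, tsub_add_cancel_of_le
      (Finsupp.single_le_iff.2 (Nat.one_le_iff_ne_zero.2 hl))] at h1
    refine (mul_eq_zero.1 h1.symm).resolve_right ?_
    exact Nat.cast_add_one_ne_zero _

theorem resDv3_deg {n : ℕ} {Q : MvPolynomial (Fin n) k} {l : Fin n}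
    (h : MvPolynomial.pderiv l Q ≠ 0) :
    (MvPolynomial.pderiv l Q).totalDegree < Q.totalDegree := by
  classical
  obtain ⟨m, hm, e⟩ := Finset.exists_mem_eq_sup (MvPolynomial.pderiv l Q).support
    (MvPolynomial.support_nonempty.2 h) (fun s => s.sum fun _ e => e)
  rw [MvPolynomial.totalDegree, e]
  rw [MvPolynomial.mem_support_iff, MvPolynomial.coeff_pderiv] at hm
  have h1 := MvPolynomial.le_totalDegree
    (MvPolynomial.mem_support_iff.2 (left_ne_zero_of_mul hm))
  rw [Finsupp.sum_add_index' (fun _ => rfl) (fun _ _ _ => rfl),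
    Finsupp.sum_single_index rfl] at h1
  omega

theorem resDv3_rel {K : Type} [Field K] [Algebra k K] {n : ℕ}
    (htr : ∀ w : Fin (n + 1) → K, ¬ AlgebraicIndependent k w) (O : Subalgebra k K)
    {π : K} (hπ : π ∈ O) (hπ0 : π ≠ 0) {z : Fin n → K} (hz : ∀ l, z l ∈ O) :
    ∃ Q : MvPolynomial (Fin n) k, Q ≠ 0 ∧ MvPolynomial.aeval z Q * π⁻¹ ∈ O := by
  by_contra hc
  push Not at hc
  have h1 : AlgebraicIndependent k z := by
    rw [algebraicIndependent_iff]
    intro p hp
    by_contra hp0
    exact hc p hp0 (by rw [hp, zero_mul]; exact zero_mem O)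
  have hle : Algebra.adjoin k (Set.range z) ≤ O :=
    Algebra.adjoin_le (by rintro _ ⟨l, rfl⟩; exact hz l)
  have h2 : Transcendental (Algebra.adjoin k (Set.range z)) π := by
    rintro ⟨p, hp0, hp⟩
    obtain ⟨q, e, hq⟩ := Polynomial.exists_eq_pow_rootMultiplicity_mul_and_not_dvd p hp0 0
    rw [Polynomial.C_0, sub_zero] at e hq
    rw [Polynomial.X_dvd_iff] at hq
    rw [e, map_mul, map_pow, Polynomial.aeval_X] at hp
    have h3 : Polynomial.aeval π q = 0 := (mul_eq_zero.1 hp).resolve_left (pow_ne_zero _ hπ0)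
    rw [← Polynomial.X_mul_divX_add q, map_add, map_mul, Polynomial.aeval_X,
      Polynomial.aeval_C] at h3
    have h4 : Polynomial.aeval π q.divX ∈ O := by
      rw [Polynomial.aeval_eq_sum_range]
      exact sum_mem fun i _ => mul_mem (hle (q.divX.coeff i).2) (pow_mem hπ i)
    obtain ⟨Q, hQ⟩ := (Algebra.adjoin_range_eq_range_aeval k z).le (q.coeff 0).2
    have hQ' : MvPolynomial.aeval z Q = (q.coeff 0 : K) := hQ
    refine hc Q (fun h0 => hq (Subtype.ext ?_)) ?_
    · rw [← hQ', h0, map_zero]
      rfl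
    · have h6 : MvPolynomial.aeval z Q * π⁻¹ = -Polynomial.aeval π q.divX := by
        rw [hQ', mul_inv_eq_iff_eq_mul₀ hπ0]
        change π * _ + (q.coeff 0 : K) = 0 at h3
        linear_combination h3
      rw [h6]
      exact neg_mem h4
  exact htr _ ((algebraicIndependent_equiv (finSuccEquiv n)).2
    ((h1.option_iff_transcendental π).2 h2))

/-- If the residues of the `z l` were independent, then `z, π` would be algebraically independent
(look at the lowest power of `π` in a relation). Take `Q ≠ 0` of minimal total degree with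
`Q (z) ∈ π O`; it is not constant, so some first derivative is a nonzero polynomial of smaller
degree, and its value is a unit of `O`. -/
theorem exists_dep [CharZero k] {K : Type} [Field K] [Algebra k K] {n : ℕ}
    (htr : ∀ w : Fin (n + 1) → K, ¬ AlgebraicIndependent k w) (O : ValuationSubring K)
    (hk : ∀ c : k, algebraMap k K c ∈ O) {π : K} (hπ : π ∈ O) (hπ0 : π ≠ 0) (hπ' : π⁻¹ ∉ O)
    (hmax : ∀ x ∈ O, x⁻¹ ∉ O → x * π⁻¹ ∈ O) {z : Fin n → K} (hz : ∀ l, z l ∈ O) :
    ∃ (Q : MvPolynomial (Fin n) k) (l : Fin n), MvPolynomial.aeval z Q * π⁻¹ ∈ O ∧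
      MvPolynomial.aeval z (MvPolynomial.pderiv l Q) ≠ 0 ∧
      (MvPolynomial.aeval z (MvPolynomial.pderiv l Q))⁻¹ ∈ O := by
  let O' : Subalgebra k K := { O.toSubring with algebraMap_mem' := hk }
  have hO : ∀ P : MvPolynomial (Fin n) k, MvPolynomial.aeval z P ∈ O := fun P =>
    (Algebra.adjoin_le (S := O') (by rintro _ ⟨l, rfl⟩; exact hz l) :
      Algebra.adjoin k (Set.range z) ≤ O')
      (by rw [Algebra.adjoin_range_eq_range_aeval]; exact ⟨P, rfl⟩)
  obtain ⟨Q, hQ0, hQ⟩ := resDv3_rel htr O' (π := π) hπ hπ0 (z := z) hz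
  change MvPolynomial.aeval z Q * π⁻¹ ∈ O at hQ
  induction hd : Q.totalDegree using Nat.strong_induction_on generalizing Q with
  | _ d ih =>
    obtain ⟨l, hl⟩ : ∃ l, MvPolynomial.pderiv l Q ≠ 0 := by
      by_contra hc
      push Not at hc
      have e := resDv3_const hc
      have h0 : Q.coeff 0 ≠ 0 := fun h0 => hQ0 (by rw [e, h0, map_zero])
      rw [e, MvPolynomial.algHom_C] at hQ
      have h1 := mul_mem (hk (Q.coeff 0)⁻¹) hQ
      rw [← mul_assoc, ← map_mul, inv_mul_cancel₀ h0, map_one, one_mul] at h1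
      exact hπ' h1
    by_cases h1 : MvPolynomial.aeval z (MvPolynomial.pderiv l Q) * π⁻¹ ∈ O
    · exact ih _ (hd ▸ resDv3_deg hl) _ hl h1 rfl
    · refine ⟨Q, l, hQ, fun h0 => h1 (by rw [h0, zero_mul]; exact zero_mem O), ?_⟩
      by_contra h2
      exact h1 (hmax _ (hO _) h2)

/-- Replace the column `l` by `D i (Q w) = Σ j, Q_j (w) * D i (w j)` (`deriv_aeval`,
`Matrix.det_updateCol_sum`); this multiplies the determinant by `Q_l (w)`. The new column lies in
`t ^ (m - 1) V` (`TAdic.deriv`), the others in `V`. -/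
theorem TAdic.det_mem {V : Subalgebra k L} {t : Lˣ} (h : TAdic V t) {n : ℕ}
    {D : Fin n → Derivation k L L} (hD : ∀ i, Pres V (D i)) {w : Fin n → L} (hw : ∀ l, w l ∈ V)
    {Q : MvPolynomial (Fin n) k} {l : Fin n} {m : ℕ}
    (hQ : MvPolynomial.aeval w Q * ((t ^ (-(m : ℤ)) : Lˣ) : L) ∈ V)
    (hQ' : UnitIn V (MvPolynomial.aeval w (MvPolynomial.pderiv l Q))) :
    (Matrix.of fun i l => D i (w l)).det * ((t ^ (-((m : ℤ) - 1)) : Lˣ) : L) ∈ V := by
  set A : Matrix (Fin n) (Fin n) L := Matrix.of fun i l => D i (w l) with hA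
  set τ : L := ((t ^ (-((m : ℤ) - 1)) : Lˣ) : L) with hτ
  obtain ⟨-, υ, hυ, e⟩ := hQ'
  have h1 := Matrix.det_updateCol_sum A l fun j => MvPolynomial.aeval w (MvPolynomial.pderiv j Q)
  have h2 : (fun i => ∑ j, MvPolynomial.aeval w (MvPolynomial.pderiv j Q) • A i j) =
      fun i => D i (MvPolynomial.aeval w Q) := by
    funext i
    rw [deriv_aeval]
    rfl
  rw [h2] at h1
  have h3 := Matrix.det_updateCol_smul A l τ fun i => D i (MvPolynomial.aeval w Q)
  have h4 : (A.updateCol l (τ • fun i => D i (MvPolynomial.aeval w Q))).det ∈ V := by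
    rw [Matrix.det_apply']
    refine sum_mem fun σ _ => mul_mem (intCast_mem V _) (prod_mem fun i _ => ?_)
    rw [Matrix.updateCol_apply]
    split_ifs
    · rw [Pi.smul_apply, smul_eq_mul, mul_comm]
      exact h.deriv (hD _) hQ
    · exact hD _ _ (hw i)
  rw [h3, h1, smul_eq_mul] at h4
  have h5 : A.det * τ = υ * (τ * (MvPolynomial.aeval w (MvPolynomial.pderiv l Q) * A.det)) := by
    linear_combination (-(A.det * τ)) * e
  rw [h5]
  exact mul_mem hυ h4

/-- Block triangular matrix: the Euler derivations kill elements of degree zero, and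
`E c (v c') = if c = c' then m • v c else 0`. -/
theorem det_amb_append {K : Type} [Field K] [Algebra k K] {n ρ : ℕ}
    (D₀ : Fin n → Derivation k K K) (z : Fin n → K) (m : ℕ) (a : Fin ρ → K) :
    (Matrix.of fun i l => amb D₀ (id : Fin ρ → Fin ρ) i
      (Fin.append (fun j => algebraMap K (LA K ρ) (z j))
        (fun c => (AddMonoidAlgebra.single (Pi.single c (m : ℤ)) (a c) : LA K ρ)) l)).det =
      algebraMap K (LA K ρ) (Matrix.of fun i j => D₀ i (z j)).det *
        ∏ c, ((m : LA K ρ) * AddMonoidAlgebra.single (Pi.single c (m : ℤ)) (a c)) := by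
  have hal : ∀ x : K, algebraMap K (LA K ρ) x = AddMonoidAlgebra.single 0 x := fun x => rfl
  rw [← Matrix.det_submatrix_equiv_self finSumFinEquiv]
  have e : (Matrix.of fun i l => amb D₀ (id : Fin ρ → Fin ρ) i
      (Fin.append (fun j => algebraMap K (LA K ρ) (z j))
        (fun c => (AddMonoidAlgebra.single (Pi.single c (m : ℤ)) (a c) : LA K ρ)) l)).submatrix
          finSumFinEquiv finSumFinEquiv =
      Matrix.fromBlocks ((algebraMap K (LA K ρ)).mapMatrix (Matrix.of fun i j => D₀ i (z j)))
        (Matrix.of fun i c => aD (D₀ i) 0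
          (AddMonoidAlgebra.single (Pi.single c (m : ℤ)) (a c) : LA K ρ)) 0
        (Matrix.diagonal fun c =>
          ((m : LA K ρ) * AddMonoidAlgebra.single (Pi.single c (m : ℤ)) (a c))) := by
    ext1 i l
    rcases i with i | i <;> rcases l with l | l <;>
      simp only [Matrix.submatrix_apply, Matrix.of_apply, finSumFinEquiv_apply_left,
        finSumFinEquiv_apply_right, amb, Fin.append_left, Fin.append_right,
        Matrix.fromBlocks_apply₁₁, Matrix.fromBlocks_apply₁₂, Matrix.fromBlocks_apply₂₁,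
        Matrix.fromBlocks_apply₂₂, id]
    · rw [hal, aD_single]
      simp
    · rw [hal, aD_single]
      simp
    · rw [aD_single, degK_apply, Matrix.diagonal_apply]
      split_ifs with hil
      · subst hil
        rw [← map_natCast (algebraMap K (LA K ρ)), hal, AddMonoidAlgebra.single_mul_single]
        simp
      · simp [hil]
  rw [e, Matrix.det_fromBlocks_zero₂₁, Matrix.det_diagonal, RingHom.map_det]

end Pool.Agent.Lib.MP_4287a9_ag.Res
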