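import Pool.Agent.Lib.MP_4287a9_ag.ResRun

/-! The embedded run. -/

namespace Pool.Agent.Lib.MP_4287a9_ag.Res

variable {k K : Type} [Field k] [Field K] [Algebra k K] {N : ℕ}

/-- Derivations extend to the fraction field. -/
theorem ResEmb_der {R K₀ : Type} [CommRing R] [IsDomain R] [Field K₀] [Algebra k R] [Algebra k K₀]
    [Algebra R K₀] [IsScalarTower k R K₀] [IsFractionRing R K₀] (d : Derivation k R R) :
    ∃ D : Derivation k K₀ K₀, ∀ p, D (algebraMap R K₀ p) = algebraMap R K₀ (d p) := by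
  let g : R →ₐ[k] TrivSqZeroExt K₀ K₀ :=
    { toFun := fun p => (algebraMap R K₀ p, algebraMap R K₀ (d p))
      map_one' := by
        ext <;> simp
      map_mul' := fun p q => by
        ext
        · simp
        · simp [mul_comm]
      map_zero' := by
        ext <;> simp
      map_add' := fun p q => by
        ext <;> simp
      commutes' := fun c => by
        rw [TrivSqZeroExt.algebraMap_eq_inl']
        ext
        · simp [← IsScalarTower.algebraMap_apply]
        · simp }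
  have hg : ∀ y : nonZeroDivisors R, IsUnit (g y) := fun y =>
    TrivSqZeroExt.isUnit_iff_isUnit_fst.2 (IsLocalization.map_units K₀ y)
  let L : K₀ →ₐ[k] TrivSqZeroExt K₀ K₀ := IsLocalization.liftAlgHom (M := nonZeroDivisors R) hg
  have hL : ∀ p, L (algebraMap R K₀ p) = g p := fun p => IsLocalization.lift_eq hg p
  have h1 : ∀ x, (L x).fst = x := fun x => by
    have h2 : ((TrivSqZeroExt.fstHom k K₀ K₀).comp L).toRingHom = RingHom.id K₀ :=
      IsLocalization.ringHom_ext (nonZeroDivisors R) (RingHom.ext fun p => by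
        change (L (algebraMap R K₀ p)).fst = algebraMap R K₀ p
        rw [hL]
        rfl)
    exact DFunLike.congr_fun h2 x
  refine ⟨Derivation.mk' (((TrivSqZeroExt.sndHom K₀ K₀).restrictScalars k) ∘ₗ L.toLinearMap)
    (fun a b => ?_), fun p => ?_⟩
  · change (L (a * b)).snd = a • (L b).snd + b • (L a).snd
    rw [map_mul, TrivSqZeroExt.snd_mul, h1, h1]
    simp [mul_comm]
  · change (L (algebraMap R K₀ p)).snd = _
    rw [hL]
    rfl

/-- The fractions whose denominator is not killed by `φ`. -/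
def ResEmbO {R : Type} [CommRing R] [Algebra k R] (φ : R →ₐ[k] K) (K₀ : Type) [Field K₀]
    [Algebra k K₀] [Algebra R K₀] [IsScalarTower k R K₀] : Subalgebra k K₀ where
  carrier := {a | ∃ p q, φ q ≠ 0 ∧ a * algebraMap R K₀ q = algebraMap R K₀ p}
  mul_mem' := by
    rintro a b ⟨p, q, hq, h⟩ ⟨p', q', hq', h'⟩
    refine ⟨p * p', q * q', by rw [map_mul]; exact mul_ne_zero hq hq', ?_⟩
    rw [map_mul, map_mul, ← h, ← h']
    ring
  add_mem' := by
    rintro a b ⟨p, q, hq, h⟩ ⟨p', q', hq', h'⟩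
    refine ⟨p * q' + p' * q, q * q', by rw [map_mul]; exact mul_ne_zero hq hq', ?_⟩
    rw [map_add, map_mul, map_mul, map_mul, ← h, ← h']
    ring
  algebraMap_mem' c := ⟨algebraMap k R c, 1, by rw [map_one]; exact one_ne_zero, by
    rw [map_one, mul_one, ← IsScalarTower.algebraMap_apply]⟩

theorem ResEmb_pi {R : Type} [CommRing R] [Algebra k R] (φ : R →ₐ[k] K) (K₀ : Type) [Field K₀]
    [Algebra k K₀] [Algebra R K₀] [IsScalarTower k R K₀]
    (hinj : Function.Injective (algebraMap R K₀)) :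
    ∃ π : ResEmbO φ K₀ →ₐ[k] K, ∀ (a : ResEmbO φ K₀) p q,
      (a : K₀) * algebraMap R K₀ q = algebraMap R K₀ p → π a * φ q = φ p := by
  have hex : ∀ a : ResEmbO φ K₀, ∃ v : K, ∀ p q,
      (a : K₀) * algebraMap R K₀ q = algebraMap R K₀ p → v * φ q = φ p := by
    rintro ⟨a, p₀, q₀, hq₀, h₀⟩
    refine ⟨φ p₀ / φ q₀, fun p q h => ?_⟩
    have h1 : p₀ * q = p * q₀ := hinj (by
      rw [map_mul, map_mul, ← h₀, ← h]
      ring)
    have h2 := congrArg φ h1
    rw [map_mul, map_mul] at h2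
    rw [div_mul_eq_mul_div, h2, mul_div_cancel_right₀ _ hq₀]
  choose v hv using hex
  have h1 : ∀ (a : ResEmbO φ K₀) p, (a : K₀) = algebraMap R K₀ p → v a = φ p := fun a p h => by
    have h2 := hv a p 1 (by rw [map_one, mul_one, h])
    rwa [map_one, mul_one] at h2
  refine ⟨{ toFun := v
            map_one' := ?_
            map_mul' := fun a b => ?_
            map_zero' := ?_
            map_add' := fun a b => ?_
            commutes' := fun c => ?_ }, hv⟩
  · rw [h1 1 1 (by simp), map_one]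
  · obtain ⟨p, q, hq, h⟩ := a.2
    obtain ⟨p', q', hq', h'⟩ := b.2
    have h2 := hv (a * b) (p * p') (q * q') (by
      rw [map_mul, map_mul, ← h, ← h', Subalgebra.coe_mul]
      ring)
    rw [map_mul, map_mul, ← hv a p q h, ← hv b p' q' h'] at h2
    refine mul_right_cancel₀ (mul_ne_zero hq hq') ?_
    rw [h2]
    ring
  · rw [h1 0 0 (by simp), map_zero]
  · obtain ⟨p, q, hq, h⟩ := a.2
    obtain ⟨p', q', hq', h'⟩ := b.2
    have h2 := hv (a + b) (p * q' + p' * q) (q * q') (by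
      rw [map_add, map_mul, map_mul, map_mul, ← h, ← h', Subalgebra.coe_add]
      ring)
    rw [map_add, map_mul, map_mul, map_mul, ← hv a p q h, ← hv b p' q' h'] at h2
    refine mul_right_cancel₀ (mul_ne_zero hq hq') ?_
    rw [h2]
    ring
  · rw [h1 _ (algebraMap k R c) (by
      rw [← IsScalarTower.algebraMap_apply]
      rfl), AlgHom.commutes]

/-- The preimage of a valuation ring. -/
def ResEmbW {K₀ : Type} [Field K₀] [Algebra k K₀] {O : Subalgebra k K₀} (π : O →ₐ[k] K)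
    (V : ValuationSubring K) (hV : ∀ c, algebraMap k K c ∈ V) : Subalgebra k K₀ where
  carrier := {a | ∃ h : a ∈ O, π ⟨a, h⟩ ∈ V}
  mul_mem' := by
    rintro a b ⟨ha, h⟩ ⟨hb, h'⟩
    refine ⟨mul_mem ha hb, ?_⟩
    have h1 := mul_mem h h'
    rwa [← map_mul] at h1
  add_mem' := by
    rintro a b ⟨ha, h⟩ ⟨hb, h'⟩
    refine ⟨add_mem ha hb, ?_⟩
    have h1 := add_mem h h'
    rwa [← map_add] at h1
  algebraMap_mem' c := ⟨O.algebraMap_mem c, by
    have h1 := hV c
    rwa [← π.commutes] at h1⟩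

theorem ResEmb_unr {L : Type} [CommRing L] [Algebra k L] (T : Set L) :
    Unr (Algebra.adjoin k T) T := by
  intro M _ _ _ _ D hD
  have h1 : Algebra.adjoin k T ≤ resA2_ker D :=
    Algebra.adjoin_le fun y hy => ⟨Algebra.subset_adjoin hy, hD _ hy⟩
  ext y
  obtain ⟨_, h2⟩ := h1 y.2
  exact h2

/-- The local ring of affine space at the kernel of `φ`. `O = {a / b | φ b ≠ 0}` inside the
fraction field `K₀`, `π (a / b) = φ a / φ b`, `D0 i` extends `pderiv i` (derivations extend to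
localizations: `Derivation.localization`-style lemmas, or `Algebra.FormallyEtale`, or by hand with
`IsLocalization.lift` into the trivial square-zero extension), `WW` is the set of the preimages
under `π` of the valuation rings that contain the image of `φ`. -/
theorem exists_amb (φ : MvPolynomial (Fin N) k →ₐ[k] K) (K₀ : Type) [Field K₀] [Algebra k K₀]
    [Algebra (MvPolynomial (Fin N) k) K₀] [IsScalarTower k (MvPolynomial (Fin N) k) K₀]
    [IsFractionRing (MvPolynomial (Fin N) k) K₀] :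
    ∃ (A : Amb k K₀ N) (π : A.O →ₐ[k] K), A.Good ∧
      (∀ i, A.x0 i = algebraMap (MvPolynomial (Fin N) k) K₀ (MvPolynomial.X i)) ∧
      A.R0 = Algebra.adjoin k (Set.range A.x0) ∧ A.R0 ≤ A.O ∧ (∀ W ∈ A.WW, A.R0 ≤ W) ∧
      (∀ a : A.O, π a = 0 ↔ ((a : K₀) = 0 ∨ (a : K₀)⁻¹ ∉ A.O)) ∧
      (∀ (p : MvPolynomial (Fin N) k) (a : A.O),
        (a : K₀) = algebraMap (MvPolynomial (Fin N) k) K₀ p → π a = φ p) ∧
      (∀ i, ∀ a ∈ A.O, A.D0 i a ∈ A.O) ∧
      (∀ i p, A.D0 i (algebraMap (MvPolynomial (Fin N) k) K₀ p) =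
        algebraMap (MvPolynomial (Fin N) k) K₀ (MvPolynomial.pderiv i p)) ∧
      ∀ V : ValuationSubring K, (∀ p, φ p ∈ V) →
        ∃ W ∈ A.WW, ∀ a : A.O, (a : K₀) ∈ W → π a ∈ V := by
  have hinj := IsFractionRing.injective (MvPolynomial (Fin N) k) K₀
  obtain ⟨π, hπ⟩ := ResEmb_pi φ K₀ hinj
  choose D hD using fun i : Fin N =>
    ResEmb_der (K₀ := K₀) (MvPolynomial.pderiv i : Derivation k (MvPolynomial (Fin N) k) _)
  have hmem : ∀ p, algebraMap (MvPolynomial (Fin N) k) K₀ p ∈ ResEmbO φ K₀ := fun p =>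
    ⟨p, 1, by rw [map_one]; exact one_ne_zero, by rw [map_one, mul_one]⟩
  have h1 : ∀ (p : MvPolynomial (Fin N) k) (a : ResEmbO φ K₀),
      (a : K₀) = algebraMap (MvPolynomial (Fin N) k) K₀ p → π a = φ p := fun p a h => by
    have h2 := hπ a p 1 (by rw [map_one, mul_one, h])
    rwa [map_one, mul_one] at h2
  have hinv : ∀ (a : ResEmbO φ K₀) (h : (a : K₀)⁻¹ ∈ ResEmbO φ K₀), (a : K₀) ≠ 0 →
      π a * π ⟨_, h⟩ = 1 := fun a h h0 => by
    rw [← map_mul, ← map_one π]
    exact congrArg π (Subtype.ext (mul_inv_cancel₀ h0))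
  have hu : ∀ a : ResEmbO φ K₀, π a ≠ 0 → (a : K₀) ≠ 0 ∧ (a : K₀)⁻¹ ∈ ResEmbO φ K₀ := by
    intro a ha
    have h0 : (a : K₀) ≠ 0 := fun h => ha (by rw [show a = 0 from Subtype.ext h, map_zero])
    obtain ⟨p, q, hq, h⟩ := a.2
    refine ⟨h0, q, p, ?_, ?_⟩
    · rw [← hπ a p q h]
      exact mul_ne_zero ha hq
    · rw [← h, inv_mul_cancel_left₀ h0]
  have hk : ∀ V : ValuationSubring K, (∀ p, φ p ∈ V) → ∀ c, algebraMap k K c ∈ V :=
    fun V hV c => by
      rw [← φ.commutes]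
      exact hV _
  refine ⟨{ O := ResEmbO φ K₀
            R0 := Algebra.adjoin k (Set.range fun i =>
              algebraMap (MvPolynomial (Fin N) k) K₀ (MvPolynomial.X i))
            x0 := fun i => algebraMap (MvPolynomial (Fin N) k) K₀ (MvPolynomial.X i)
            D0 := D
            WW := {W | ∃ (V : ValuationSubring K) (hV : ∀ p, φ p ∈ V),
              W = ResEmbW π V (hk V hV)} }, π, ⟨?_, ?_, ?_, ?_, ?_⟩, fun _ => rfl, rfl, ?_, ?_, ?_,
    h1, ?_, hD, ?_⟩
  · intro a ha b hb hab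
    by_cases h : π ⟨a, ha⟩ = 0
    · refine Or.inr (hu ⟨b, hb⟩ ?_)
      have h2 : π ⟨a, ha⟩ + π ⟨b, hb⟩ = 1 := by
        rw [← map_add, ← map_one π]
        exact congrArg π (Subtype.ext hab)
      rw [h, zero_add] at h2
      rw [h2]
      exact one_ne_zero
    · exact Or.inl (hu ⟨a, ha⟩ h)
  · exact fun i => Algebra.subset_adjoin ⟨i, rfl⟩
  · intro i j
    change D i (algebraMap _ K₀ (MvPolynomial.X j)) = _
    rw [hD, MvPolynomial.pderiv_X]
    by_cases h : i = j
    · subst h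
      simp
    · simp [h, Ne.symm h]
  · rintro W ⟨V, hV, rfl⟩ a ⟨h, _⟩
    exact h
  · rintro W ⟨V, hV, rfl⟩ a ha
    by_cases h : π ⟨a, ha⟩ = 0
    · exact Or.inl ⟨ha, by rw [h]; exact zero_mem _⟩
    · rcases V.mem_or_inv_mem (π ⟨a, ha⟩) with h2 | h2
      · exact Or.inl ⟨ha, h2⟩
      · obtain ⟨h3, h4⟩ := hu ⟨a, ha⟩ h
        refine Or.inr ⟨h4, ?_⟩
        rwa [← eq_inv_of_mul_eq_one_right (hinv ⟨a, ha⟩ h4 h3)] at h2
  · refine Algebra.adjoin_le ?_
    rintro _ ⟨i, rfl⟩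
    exact hmem _
  · rintro W ⟨V, hV, rfl⟩
    refine Algebra.adjoin_le ?_
    rintro _ ⟨i, rfl⟩
    refine ⟨hmem _, ?_⟩
    rw [h1 (MvPolynomial.X i) _ rfl]
    exact hV _
  · intro a
    constructor
    · intro h
      by_contra hn
      rw [not_or, not_not] at hn
      have h2 := hinv a hn.2 hn.1
      rw [h, zero_mul] at h2
      exact zero_ne_one h2
    · intro h
      by_contra hn
      obtain ⟨h2, h3⟩ := hu a hn
      exact h.elim h2 fun h4 => h4 h3
  · rintro i a ⟨p, q, hq, h⟩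
    refine ⟨MvPolynomial.pderiv i p * q - p * MvPolynomial.pderiv i q, q * q,
      by rw [map_mul]; exact mul_ne_zero hq hq, ?_⟩
    have h2 := congrArg (D i) h
    rw [Derivation.leibniz, hD, hD, smul_eq_mul, smul_eq_mul] at h2
    change D i a * _ = _
    rw [map_sub, map_mul, map_mul, map_mul, ← h2, ← h]
    ring
  · intro V hV
    refine ⟨_, ⟨V, hV, rfl⟩, ?_⟩
    rintro a ⟨_, h⟩
    exact h

/-- The starting system: one chart `k[x0]`, no labels, `F = 1`. -/
theorem exists_start {A : Amb k K N} (hR : A.R0 = Algebra.adjoin k (Set.range A.x0))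
    (hO : A.R0 ≤ A.O) (hW : ∀ W ∈ A.WW, A.R0 ≤ W) {I₀ : Set K} (hI : ∀ f ∈ I₀, f ∈ A.R0) :
    ∃ S : Sys k K N, St A I₀ 0 S 0 := by
  classical
  have hB : ∀ z, z ∈ Algebra.adjoin k (Set.range fun i => sg 0 (A.x0 i)) ↔
      ∃ a ∈ A.R0, z = sg 0 a := fun z => by
    have h1 : Algebra.adjoin k (Set.range fun i => sg 0 (A.x0 i)) =
        A.R0.map (IsScalarTower.toAlgHom k K (LL K)) := by
      rw [hR, AlgHom.map_adjoin, ← Set.range_comp]
      rfl
    rw [h1, Subalgebra.mem_map]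
    exact exists_congr fun a => and_congr_right fun _ => eq_comm
  let c : Chart k K N :=
    { B := Algebra.adjoin k (Set.range fun i => sg 0 (A.x0 i))
      t := fun i => sg 0 (A.x0 i)
      u := fun _ => 1
      lab := fun _ => none }
  have hy : ∀ e, c.y e = 1 := fun e => Chart.y_eq_one fun i => by simp [c]
  have hc : c.Good A 0 :=
    { fg := ⟨Finset.univ.image fun i => sg 0 (A.x0 i), fun z hz => by
        obtain ⟨i, _, rfl⟩ := Finset.mem_image.1 hz
        exact ⟨0, fun _ _ => rfl, _, rfl⟩, by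
        rw [Finset.coe_image, Finset.coe_univ, Set.image_univ]⟩
      base := fun a ha => (hB _).2 ⟨a, ha, rfl⟩
      tmem := fun i => Algebra.subset_adjoin ⟨i, rfl⟩
      thom := fun i => ⟨0, _, rfl⟩
      uunit := fun e he => absurd he (Nat.not_lt_zero e)
      udeg := fun e he => absurd he (Nat.not_lt_zero e)
      unr := (ResEmb_unr _).mono fun y hy => Or.inl hy
      inj := fun i j e h => by simp [c] at h
      lt := fun i e h => by simp [c] at h
      tauMono := fun e he => absurd he (Nat.not_lt_zero e) }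
  refine ⟨{ ι := Unit, ch := fun _ => c, F := fun _ => 1 },
    ⟨inferInstanceAs (Finite Unit), fun _ => hc, fun _ z hz => ?_, fun _ => ?_, fun _ _ => ?_,
      fun _ _ => le_away _, fun _ _ e => ⟨1, unitIn_one, (one_mul _).symm⟩, fun _ => ?_,
      fun _ e => ?_, fun _ => ?_, fun W hW' => ⟨(), fun a ha => ?_⟩⟩,
    fun _ _ => rfl, fun _ => le_rfl, ?_⟩
  · obtain ⟨a, ha, rfl⟩ := (hB z).1 hz
    exact sg_mem_OL.2 (hO ha)
  · change (((1 : Kˣ)⁻¹ : Kˣ) : K) ∈ A.O
    rw [inv_one]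
    exact one_mem _
  · change (hu 0 ((1 : Kˣ) / 1) : LL K) ∈ c.B
    rw [div_one, hu_zero_one]
    exact one_mem _
  · change c.Mono 0 (hu 0 (1 : Kˣ) : LL K)
    rw [hu_zero_one]
    exact Chart.mono_of_unit unitIn_one
  · change (hu 0 (1 : Kˣ) : LL K) ∈ pr1 c.B (c.y e)
    rw [hu_zero_one, hy]
    exact Submodule.subset_span rfl
  · change Unr (away c.B (hu 0 (1 : Kˣ))) _
    rw [hu_zero_one, away_one]
    refine (ResEmb_unr _).mono fun y hy => Or.inl ((hB y).1 (Algebra.subset_adjoin hy))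
  · obtain ⟨b, hb, h⟩ := (hB _).1 ha
    rw [resRef_sg_inj h]
    exact hW W hW' hb
  · rintro _ _ ⟨f, hf, rfl⟩
    rw [neg_zero]
    exact (hB _).2 ⟨f, hI f hf, rfl⟩

/-- The certificate at the generic point of the hypersurface: `x 0 = sg (-γ) P`, weights
`(1, 0, ..., 0)`, empty list, derivation `aD (D0 0) 0`; apply `key` in the ring `OL A.O`
(`primeAt_mL`). -/
theorem nuC_le_of_isCen {n : ℕ} {A : Amb k K (n + 1)} (hA : A.Good) {P : K} (hP : P ∈ A.O)
    (hD : ∀ a ∈ A.O, A.D0 0 a ∈ A.O) (h0 : A.D0 0 P ≠ 0) (h1 : (A.D0 0 P)⁻¹ ∈ A.O) (γ : Gam)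
    {y : ℕ → LL K} (hy : ∀ e, UnitIn (OL A.O) (y e)) {t : Fin (n + 1) → LL K}
    {w : Fin (n + 1) → ℚ} {fr : Fin (n + 1) → Bool}
    (h : IsCen (OL A.O) (mL A.O) y (Iset γ {P}) t w fr) : nuC (n + 1) 1 ≤ nu w fr := by
  have hPm : sg (-γ) P ∈ OL A.O := sg_mem_OL.2 hP
  have hpres : Pres (OL A.O) (aD (A.D0 0) (0 : Gam →+ K)) := fun z hz => mem_OL.2 fun β => by
    rw [aD_coeff, AddMonoidHom.zero_apply, zero_mul, add_zero]
    exact hD _ (mem_OL.1 hz β)
  have hc : Cert (OL A.O) (fun _ => True) y (Iset γ {P}) (fun _ => sg (-γ) P)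
      (fun i : Fin (n + 1) => if (i : ℕ) < 1 then 1 else 0) (fun _ => true) :=
    { nonneg := fun i => by split_ifs <;> norm_num
      anti := fun i j hij => by
        have h2 : (i : ℕ) ≤ j := hij
        dsimp only
        split_ifs with h3 h4
        · exact le_rfl
        · omega
        · norm_num
        · exact le_rfl
      mem := fun _ => hPm
      step := fun j hj => by
        have hj' : (j : ℕ) < 1 := by
          by_contra h2
          rw [if_neg h2] at hj
          exact lt_irrefl _ hj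
        refine ⟨sg (-γ) P, Submodule.subset_span ⟨P, rfl, rfl⟩, [], aD (A.D0 0) (0 : Gam →+ K),
          by simp, by simp [hj'], trivial, hpres, fun i hi => ?_, ?_, fun _ => ⟨rfl, fun e => ?_⟩,
          fun h2 => by simp at h2⟩
        · have h2 : (i : ℕ) < j := hi
          omega
        · change UnitIn _ (aD (A.D0 0) (0 : Gam →+ K) (sg (-γ) P))
          rw [aD_single, AddMonoidHom.zero_apply, zero_mul, add_zero]
          exact (unitIn_OL_hu (γ := -γ) (a := Units.mk0 _ h0)).2 ⟨hD _ hP, h1⟩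
        · obtain ⟨h2, υ, hυ, h3⟩ := hy e
          refine mem_pr1.2 ⟨aD (A.D0 0) (0 : Gam →+ K) (y e) * υ, mul_mem (hpres _ h2) hυ, ?_⟩
          rw [mul_assoc, mul_comm υ, h3, mul_one] }
  refine (key (fun e => (hy e).1) ?_ hc (primeAt_mL hA) h).1
  rintro _ ⟨f, hf, rfl⟩
  rw [Set.mem_singleton_iff.1 hf]
  exact hPm

/-- At the end of the embedded run the first coordinate is a free equation of the strict
transform. Weights of a certificate are `≤ 1`; `nuC_le`; the list in `Step 0` is empty because all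
its entries have weight `w 0 = 1`. -/
theorem Chart.CC.of_nuC {n ρ : ℕ} {c : Chart k K (n + 1)} {I : Set (LL K)} {w : Fin (n + 1) → ℚ}
    {fr : Fin (n + 1) → Bool} (hc : c.CC ρ I w fr) (h : nuC (n + 1) 1 ≤ nu w fr) :
    c.lab 0 = none ∧ c.t 0 ∈ Submodule.span c.B I := by
  have hsum : ∀ Ld : List (Derivation k (LL K) (LL K) × Fin (n + 1)),
      0 ≤ (Ld.map fun p => w p.2).sum := fun Ld => List.sum_nonneg fun x hx => by
    obtain ⟨p, _, rfl⟩ := List.mem_map.1 hx
    exact hc.cert.nonneg _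
  have hw : ∀ i, w i ≤ 1 := fun i => by
    rcases le_or_gt (w i) 0 with h1 | h1
    · exact h1.trans zero_le_one
    · obtain ⟨_, _, Ld, _, _, h2, _⟩ := hc.cert.step i h1
      have := hsum Ld
      linarith
  obtain ⟨h1, h2⟩ := nuC_le hw h 0 (by simp)
  have h3 : 0 < w 0 := by
    rw [h1]
    exact one_pos
  refine ⟨(hc.free 0 h3).1 h2, ?_⟩
  obtain ⟨f, hf, Ld, _, h4, h5, _, _, _, _, h6, _⟩ := hc.cert.step 0 h3
  rcases Ld with _ | ⟨p, Ld⟩
  · rw [(h6 h2).1]
    exact hf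
  · have h7 : p.2 = 0 := le_antisymm (h4 p List.mem_cons_self).1 (Fin.zero_le _)
    rw [List.map_cons, List.sum_cons, h7, h1] at h5
    have := hsum Ld
    linarith

/-- The embedded run (`exists_start`, `St.run` with `Stop ν := nuC (n + 1) 1 ≤ ν`; `Triv` is
impossible because `sg (-γ) P ∈ mL`). -/
theorem exists_embedded [CharZero k] {n : ℕ} {A : Amb k K (n + 1)} (hA : A.Good)
    (hR : A.R0 = Algebra.adjoin k (Set.range A.x0)) (hO : A.R0 ≤ A.O) (hW : ∀ W ∈ A.WW, A.R0 ≤ W)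
    {P : K} (hP : P ∈ A.R0) (hP' : P = 0 ∨ P⁻¹ ∉ A.O) (hD : ∀ a ∈ A.O, A.D0 0 a ∈ A.O)
    (h0 : A.D0 0 P ≠ 0) (h1 : (A.D0 0 P)⁻¹ ∈ A.O) :
    ∃ (ρ : ℕ) (S : Sys k K (n + 1)), S.Good A ρ ∧
      ∀ l, (S.ch l).lab 0 = none ∧ (S.ch l).t 0 ∈ mL A.O := by
  obtain ⟨S₀, h₀⟩ := exists_start hR hO hW (I₀ := {P}) fun f hf => by
    rw [Set.mem_singleton_iff.1 hf]
    exact hP
  obtain ⟨ρ, S, γ, hS, _, hF⟩ := St.run hA (Set.finite_singleton P)
    (Stop := fun ν => nuC (n + 1) 1 ≤ ν) (fun _ _ ha hab => ha.trans hab)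
    (fun γ _ _ _ _ _ hy h => nuC_le_of_isCen hA (hO hP) hD h0 h1 γ hy h) h₀
  have hm : ∀ f ∈ Iset γ {P}, f ∈ mL A.O := by
    rintro _ ⟨f, hf, rfl⟩
    rw [Set.mem_singleton_iff.1 hf]
    exact Submodule.subset_span ⟨-γ, P, hO hP, hP', rfl⟩
  refine ⟨ρ, S, hS.good, fun l => ?_⟩
  rcases hF l with ⟨f, hf, hu⟩ | ⟨w, fr, hc, hs⟩
  · exact absurd (hm f hf) ((primeAt_mL hA).notMem_of_unitIn (hu.mono (hS.good.int l)))
  · obtain ⟨h2, h3⟩ := hc.of_nuC hs
    refine ⟨h2, ?_⟩
    generalize (S.ch l).t 0 = z at h3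
    induction h3 using Submodule.span_induction with
    | mem x hx => exact hm x hx
    | zero => exact zero_mem _
    | add x y _ _ hx hy => exact add_mem hx hy
    | smul a x _ hx => exact mul_mem_sub (hS.good.int l a.2) hx

end Pool.Agent.Lib.MP_4287a9_ag.Res
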