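import Pool.Agent.Lib.MP_4287a9_ag.ResEx1

/-! Existence of a certified centre at a point. -/

namespace Pool.Agent.Lib.MP_4287a9_ag.Res

noncomputable section

variable {k L : Type} [Field k] [CommRing L] [Algebra k L] {N : ℕ} {Γ : Type}
  {H : Γ → L → Prop} {S S' : Subalgebra k L} {q : Submodule S L} {q' : Submodule S' L}
  {G : Derivation k L L → Prop} {U : Set L} {y : ℕ → L} {I : Set L} {t : Fin N → L}
  {D : Fin N → Derivation k L L} {lab : Fin N → Option ℕ} {w : Fin N → ℚ} {fr : Fin N → Bool}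

theorem Step.loc {x x' : Fin N → L} {w' : Fin N → ℚ} {fr' : Fin N → Bool} {j : Fin N}
    (h : Step S G y I x w fr j) (hl : PLoc H S q S' q') (hx : ∀ i ≤ j, x' i = x i)
    (hw : ∀ i ≤ j, w' i = w i) (hfr : fr' j = fr j) : Step S' G y I x' w' fr' j := by
  obtain ⟨f, hf, Ld, δ, hL, hs, hG, hD, hDx, hu, h1, h2⟩ := h
  have hpr : ∀ a b : L, a ∈ pr1 S b → a ∈ pr1 S' b := fun a b h => by
    obtain ⟨c, hc, h⟩ := mem_pr1.1 h
    exact mem_pr1.2 ⟨c, hl.le hc, h⟩
  refine ⟨f, ?_, Ld, δ, fun p hp => ⟨(hL p hp).1, (hL p hp).2.1, hl.pres (hL p hp).2.2.1,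
    fun i hi => ?_⟩, ?_, hG, hl.pres hD, fun i hi => ?_,
    ⟨hl.le hu.1, hu.2.imp fun _ h => ⟨hl.le h.1, h.2⟩⟩, fun h => ?_, fun h => ?_⟩
  · clear hu h1 h2
    induction hf using Submodule.span_induction with
    | mem z hz => exact Submodule.subset_span hz
    | zero => exact zero_mem _
    | add a b _ _ ha hb => exact add_mem ha hb
    | smul c a _ ha => exact mul_mem_sub (hl.le c.2) ha
  · rw [hx i (hi.le.trans (hL p hp).1)]
    exact (hL p hp).2.2.2 i hi
  · rw [hw j le_rfl, ← hs]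
    exact congrArg (fun u => List.sum u + w j) (List.map_congr_left fun p hp => hw _ (hL p hp).1)
  · rw [hx i hi.le]
    exact hDx i hi
  · rw [hx j le_rfl]
    exact ⟨(h1 (hfr ▸ h)).1, fun e => hpr _ _ ((h1 (hfr ▸ h)).2 e)⟩
  · obtain ⟨e, h3, h4, h5⟩ := h2 (hfr ▸ h)
    rw [hx j le_rfl]
    exact ⟨e, hpr _ _ h3, hpr _ _ h4, fun e' he => hpr _ _ (h5 e' he)⟩

/-- The state of the construction after `j` coordinates have been chosen. -/
structure Stg (G : Derivation k L L → Prop) (y : ℕ → L) (I : Set L) (S : Subalgebra k L)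
    (q : Submodule S L) (t : Fin N → L) (D : Fin N → Derivation k L L) (lab : Fin N → Option ℕ)
    (w : Fin N → ℚ) (fr : Fin N → Bool) (j : ℕ) (b : ℚ) : Prop where
  pos : 0 < b
  ge : ∀ i : Fin N, (i : ℕ) < j → b ≤ w i
  anti : ∀ i i' : Fin N, i ≤ i' → (i' : ℕ) < j → toLex (w i', fr i') ≤ toLex (w i, fr i)
  step : ∀ i : Fin N, (i : ℕ) < j → Step S G y I t w fr i
  free : ∀ i : Fin N, (i : ℕ) < j → (fr i = true ↔ lab i = none)
  adm : ∀ f ∈ I, Sat q (Jw S t (tail w j b) 1) f
  nf : (∃ i : Fin N, (i : ℕ) < j ∧ w i = b ∧ fr i = false) →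
    ∀ l : Fin N, j ≤ (l : ℕ) → lab l = none → ¬ Crit q D I (tail w j b) l

theorem appI_map (D : Fin N → Derivation k L L) (π : Fin N → Fin N) (Ls : List (Fin N)) (f : L) :
    appI (D ∘ π) Ls f = appI D (Ls.map π) f := by
  simp [appI, List.foldr_map]

theorem Crit.of_perm {π : Equiv.Perm (Fin N)} {v : Fin N → ℚ} (hv : v ∘ π = v) {l : Fin N}
    (h : Crit q (D ∘ π) I v l) : Crit q D I v (π l) := by
  obtain ⟨f, hf, Ls, h1, h2⟩ := h
  refine ⟨f, hf, Ls.map π, ?_, by rwa [← appI_map]⟩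
  rwa [List.map_map, hv, show v (π l) = v l from congrFun hv l]

theorem tail_swap (w : Fin N → ℚ) {j : ℕ} (b : ℚ) {a l : Fin N} (ha : j ≤ (a : ℕ))
    (hl : j ≤ (l : ℕ)) : tail w j b ∘ Equiv.swap a l = tail w j b :=
  funext fun i => Equiv.apply_swap_eq_self (by simp [tail, not_lt.2 ha, not_lt.2 hl]) i

theorem swap_ge {j : ℕ} {a l : Fin N} (ha : j ≤ (a : ℕ)) (hl : j ≤ (l : ℕ)) {i : Fin N}
    (hi : j ≤ (i : ℕ)) : j ≤ (Equiv.swap a l i : ℕ) := by
  rw [Equiv.swap_apply_def]
  split_ifs <;> assumption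

theorem swap_lt {j : ℕ} {a l : Fin N} (ha : j ≤ (a : ℕ)) (hl : j ≤ (l : ℕ)) {i : Fin N}
    (hi : (i : ℕ) < j) : Equiv.swap a l i = i :=
  Equiv.swap_apply_of_ne_of_ne (fun e => by omega) fun e => by omega

variable [AddCommGroup Γ]

theorem Stg.swap (hH : Grd H) (hq : PrimeAt S q) {j : ℕ} {b : ℚ}
    (h : Stg G y I S q t D lab w fr j b) {a l : Fin N} (ha : j ≤ (a : ℕ)) (hl : j ≤ (l : ℕ)) :
    Stg G y I S q (t ∘ Equiv.swap a l) (D ∘ Equiv.swap a l) (lab ∘ Equiv.swap a l) w fr j b where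
  pos := h.pos
  ge := h.ge
  anti := h.anti
  step i hi := (h.step i hi).loc (PLoc.refl hH hq)
    (fun i' hi' => congrArg t (swap_lt ha hl (lt_of_le_of_lt hi' hi))) (fun _ _ => rfl) rfl
  free i hi := by
    rw [Function.comp_apply, swap_lt ha hl hi]
    exact h.free i hi
  adm f hf := by
    rw [← tail_swap w b ha hl, Jw_perm]
    exact h.adm f hf
  nf h1 i hi h2 h3 := h.nf h1 _ (swap_ge ha hl hi) h2 (h3.of_perm (tail_swap w b ha hl))

theorem Fr.appI_hom (h : Fr H G U y S q t D lab) (Ls : List (Fin N)) {f : L} (hf : ∃ γ, H γ f) :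
    ∃ γ, H γ (appI D Ls f) := by
  induction Ls with
  | nil => exact hf
  | cons i Ls ih =>
    obtain ⟨γ, h1⟩ := ih
    obtain ⟨β, -, h2⟩ := h.hom i
    exact ⟨_, h2 γ _ h1⟩

theorem Stg.core (hH : Grd H) (hG : ∀ (a : L) δ, G δ → G (a • δ))
    (hG' : ∀ δ δ', G δ → G δ' → G (δ - δ')) (hI : ∀ f ∈ I, f ∈ S ∧ ∃ γ, H γ f)
    (hF : Fr H G U y S q t D lab) {J : Fin N} {b b' : ℚ} (h : Stg G y I S q t D lab w fr J b)
    (hb : 0 < b') (hb' : b' ≤ b) (hadm : ∀ f ∈ I, Sat q (Jw S t (tail w J b') 1) f)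
    (hc : Crit q D I (tail w J b') J)
    (hlab : lab J = none ∨ ∀ l : Fin N, (J : ℕ) ≤ l → lab l = none →
      ¬ Crit q D I (tail w J b') l) :
    ∃ (S' : Subalgebra k L) (q' : Submodule S' L) (t' : Fin N → L)
      (D' : Fin N → Derivation k L L) (w' : Fin N → ℚ) (fr' : Fin N → Bool),
      PLoc H S q S' q' ∧ Fr H G U y S' q' t' D' lab ∧
        Stg G y I S' q' t' D' lab w' fr' (J + 1) b' := by
  have hc' := hc
  obtain ⟨f, hf, Ls, hs, hu⟩ := hc'
  set g := appI D Ls f with hg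
  have hgS : g ∈ S := appI_mem hF.pres Ls (hI f hf).1
  obtain ⟨γ, hγ⟩ := hF.appI_hom Ls (hI f hf).2
  obtain ⟨γl, -, hγl⟩ := hF.hom J
  obtain ⟨υ, hυ, hυ'⟩ := hH.inv (hγl γ g hγ) fun e => hu (e ▸ zero_mem q)
  obtain ⟨q', hl⟩ := exists_loc (H := H) hF.prime (σ := υ) ⟨_, hυ ▸ hγl γ g hγ⟩
    (hυ ▸ hF.pres J g hgS) (hυ ▸ hu)
  have hF' := hF.loc hl
  have hone : D J g * ((υ⁻¹ : Lˣ) : L) = 1 := hυ ▸ υ.mul_inv
  have htJ : tail w J b' J = b' := by simp [tail]
  have hlt : ∀ i : Fin N, (i : ℕ) < J → i ≠ J := fun i hi e => by omega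
  have htail : tail (Function.update w J b') (J + 1) b' = tail w J b' := by
    funext i
    rcases lt_trichotomy i J with hi | rfl | hi
    · simp [tail, show (i : ℕ) < J from hi, Nat.lt_succ_of_lt hi, hi.ne]
    · simp [tail]
    · simp [tail, not_lt.2 (show (J : ℕ) ≤ i from hi.le), not_lt.2 (show (J : ℕ) + 1 ≤ i from hi)]
  have hnn : ∀ i, 0 < tail w J b' i := fun i => by
    unfold tail
    split_ifs with hi
    · exact h.pos.trans_le (h.ge i hi)
    · exact hb
  have hcases : ∀ i : Fin N, (i : ℕ) < J + 1 → (i : ℕ) < J ∨ i = J := fun i hi =>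
    (Nat.lt_succ_iff.1 hi).lt_or_eq.imp_right Fin.ext
  have hge : ∀ i : Fin N, (i : ℕ) < J + 1 → b' ≤ Function.update w J b' i := by
    intro i hi
    rcases hcases i hi with hi | rfl
    · rw [Function.update_of_ne (hlt i hi)]
      exact hb'.trans (h.ge i hi)
    · rw [Function.update_self]
  have hanti : ∀ c : Bool, (∀ i : Fin N, (i : ℕ) < J → w i = b' → c ≤ fr i) →
      ∀ i i' : Fin N, i ≤ i' → (i' : ℕ) < J + 1 →
        toLex (Function.update w J b' i', Function.update fr J c i') ≤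
          toLex (Function.update w J b' i, Function.update fr J c i) := by
    intro c hc i i' hii hi'
    rcases hcases i' hi' with hi' | rfl
    · have hi : (i : ℕ) < J := lt_of_le_of_lt hii hi'
      simp only [Function.update_of_ne (hlt i hi), Function.update_of_ne (hlt i' hi')]
      exact h.anti i i' hii hi'
    · rcases hii.lt_or_eq with hi | rfl
      · simp only [Function.update_of_ne hi.ne, Function.update_self, Prod.Lex.toLex_le_toLex]
        rcases (hb'.trans (h.ge i hi)).lt_or_eq with h1 | h1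
        · exact Or.inl h1
        · exact Or.inr ⟨h1, hc i hi h1.symm⟩
      · exact le_rfl
  have hstep : ∀ (c : Bool) (z : L), (c = true → z = g ∧ ∀ e, D J (y e) = 0) →
      (c = false → ∃ e₀, z = y e₀ ∧ ∀ e, e ≠ e₀ → D J (y e) = 0) →
      ∀ i : Fin N, (i : ℕ) < J + 1 → Step (away S υ) G y I (Function.update t J z)
        (Function.update w J b') (Function.update fr J c) i := by
    intro c z h1 h2 i hi
    rcases hcases i hi with hi | rfl
    · exact (h.step i hi).loc hl
        (fun i' hi' => Function.update_of_ne (hlt i' (lt_of_le_of_lt hi' hi)) _ _)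
        (fun i' hi' => Function.update_of_ne (hlt i' (lt_of_le_of_lt hi' hi)) _ _)
        (Function.update_of_ne (hlt i hi) _ _)
    have happ : app (Ls.map fun m => (D m, min m i)) f = g := by
      simp [app, hg, appI, List.foldr_map]
    refine ⟨f, Submodule.subset_span hf, Ls.map fun m => (D m, min m i), D i, ?_, ?_, hF.good i,
      hF'.pres i, fun i' hi' => ?_, ?_, fun hc => ?_, fun hc => ?_⟩
    · intro p hp
      obtain ⟨m, -, rfl⟩ := List.mem_map.1 hp
      refine ⟨min_le_right _ _, hF.good m, hF'.pres m, fun i' hi' => ?_⟩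
      rw [Function.update_of_ne (hi'.trans_le (min_le_right _ _)).ne, hF.dual,
        if_neg (hi'.trans_le (min_le_left _ _)).ne']
    · rw [List.map_map, Function.update_self, ← hs, htJ]
      refine congrArg (fun u => List.sum u + b') (List.map_congr_left fun m _ => ?_)
      rcases lt_or_ge m i with hm | hm
      · simp [tail, hm.le, hm.ne, show (m : ℕ) < i from hm]
      · simp [tail, hm, not_lt.2 (show (i : ℕ) ≤ m from hm)]
    · rw [Function.update_of_ne hi'.ne, hF.dual, if_neg hi'.ne']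
    · rw [happ]
      exact ⟨hF'.pres i g (hl.le hgS), _, inv_mem_away υ, hone⟩
    · rw [Function.update_self] at hc
      rw [Function.update_self, happ]
      exact ⟨(h1 hc).1, fun e => by rw [(h1 hc).2 e]; exact zero_mem _⟩
    · rw [Function.update_self] at hc
      obtain ⟨e₀, h3, h4⟩ := h2 hc
      rw [Function.update_self, h3]
      exact ⟨e₀, Submodule.mem_span_singleton_self _, Submodule.mem_span_singleton_self _,
        fun e he => by rw [h4 e he]; exact zero_mem _⟩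
  have hfree : ∀ c : Bool, (c = true ↔ lab J = none) → ∀ i : Fin N, (i : ℕ) < J + 1 →
      (Function.update fr J c i = true ↔ lab i = none) := by
    intro c hc i hi
    rcases hcases i hi with hi | rfl
    · rw [Function.update_of_ne (hlt i hi)]
      exact h.free i hi
    · rwa [Function.update_self]
  cases hJ : lab J with
  | none =>
    have hno : ∀ i : Fin N, (i : ℕ) < J → w i = b' → true ≤ fr i := by
      intro i hi h1
      by_contra h2
      have h3 : b' = b := le_antisymm hb' (h1 ▸ h.ge i hi)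
      subst h3
      exact h.nf ⟨i, hi, h1, Bool.eq_false_iff.2 fun e => h2 e.ge⟩ J le_rfl hJ hc
    have hgJ : Sat q (Jw S t (tail w J b') (tail w J b' J)) g := by
      have := appI_sat_Jw hF.coord (fun i => (hnn i).le) Ls (hadm f hf)
      rwa [← hs, add_sub_cancel_left] at this
    have hgq : g ∈ q := Sat.mem_of_le hF.prime
      (Jw_le_prime hF.prime (fun i _ => hF.mem i) (hnn J)) hgS hgJ
    refine ⟨_, q', Function.update t J g, exD D J g (υ⁻¹ : Lˣ), Function.update w J b',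
      Function.update fr J true, hl, hF'.exch hH hG hG' hJ ((hl.mem_iff hgS).2 hgq) hγ hγl
        (inv_mem_away υ) (by rwa [neg_sub] at hυ') hone, hb, hge, hanti true hno,
      hstep true g (fun _ => ⟨rfl, fun e => hF.deriv_y (by simp [hJ])⟩) (by simp),
      hfree true (by simp [hJ]), fun f' hf' => ?_, ?_⟩
    · rw [htail]
      exact hl.sat_Jw (hF.coord.sat_update (fun i => (hnn i).le) (hnn J) hgS hgJ hu (hadm f' hf'))
    · rintro ⟨i, hi, h1, h2⟩
      rcases hcases i hi with hi | rfl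
      · rw [Function.update_of_ne (hlt i hi)] at h1 h2
        exact absurd (h2 ▸ hno i hi h1) (by decide)
      · simp at h2
  | some e₀ =>
    refine ⟨_, q', t, D, Function.update w J b', Function.update fr J false, hl, hF', hb, hge,
      hanti false fun _ _ _ => Bool.false_le _, ?_, hfree false (by simp [hJ]),
      fun f' hf' => ?_, fun _ l hl' h1 h2 => ?_⟩
    · have := hstep false (t J) (by simp) fun _ => ⟨e₀, (hF.lsome J e₀ hJ).symm,
        fun e he => hF.deriv_y (by simp [hJ, he.symm])⟩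
      rwa [Function.update_eq_self] at this
    · rw [htail]
      exact hl.sat_Jw (hadm f' hf')
    · rw [htail] at h2
      obtain ⟨f', hf', Ls', h3, h4⟩ := h2
      exact hlab.resolve_left (by simp [hJ]) l (by omega) h1 ⟨f', hf', Ls', h3, fun h5 =>
        h4 ((hl.mem_iff (hF.pres l _ (appI_mem hF.pres Ls' (hI f' hf').1))).2 h5)⟩

theorem Stg.next [CharZero k] (hH : Grd H) (hG : ∀ (a : L) δ, G δ → G (a • δ))
    (hG' : ∀ δ δ', G δ → G δ' → G (δ - δ')) (hI : ∀ f ∈ I, f ∈ S ∧ ∃ γ, H γ f)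
    (hF : Fr H G U y S q t D lab) {J : Fin N} {b : ℚ} (h : Stg G y I S q t D lab w fr J b) :
    (∀ f ∈ I, Sat q (Jw S t (tail w J 0) 1) f) ∨
    ∃ (S' : Subalgebra k L) (q' : Submodule S' L) (t' : Fin N → L)
      (D' : Fin N → Derivation k L L) (lab' : Fin N → Option ℕ) (w' : Fin N → ℚ)
      (fr' : Fin N → Bool) (b' : ℚ), PLoc H S q S' q' ∧ Fr H G U y S' q' t' D' lab' ∧
        Stg G y I S' q' t' D' lab' w' fr' (J + 1) b' := by
  have : Algebra.FiniteType k S := (Subalgebra.fg_iff_finiteType S).1 hF.fg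
  have : IsNoetherianRing S := Algebra.FiniteType.isNoetherianRing k S
  refine (next_weight hF.coord (fun f hf => (hI f hf).1) h.pos
    (fun i hi => h.pos.trans_le (h.ge i hi)) h.adm).imp_right ?_
  rintro ⟨b', hb, hb', hadm, l0, hl0, hc0⟩
  obtain ⟨l, hl, hc, hlab⟩ : ∃ l : Fin N, (J : ℕ) ≤ l ∧ Crit q D I (tail w J b') l ∧
      (lab l = none ∨ ∀ l : Fin N, (J : ℕ) ≤ l → lab l = none → ¬ Crit q D I (tail w J b') l) := by
    by_cases h1 : ∃ l : Fin N, (J : ℕ) ≤ l ∧ lab l = none ∧ Crit q D I (tail w J b') l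
    · obtain ⟨l, h1, h2, h3⟩ := h1
      exact ⟨l, h1, h3, Or.inl h2⟩
    · exact ⟨l0, hl0, hc0, Or.inr fun l h2 h3 h4 => h1 ⟨l, h2, h3, h4⟩⟩
  have hπ := tail_swap w b' (le_refl (J : ℕ)) hl
  obtain ⟨S', q', t', D', w', fr', h1, h2, h3⟩ := (h.swap hH hF.prime le_rfl hl).core hH hG hG' hI
    (hF.perm (Equiv.swap J l)) hb hb' (fun f hf => by rw [← hπ, Jw_perm]; exact hadm f hf)
    (by
      have : Crit q ((D ∘ Equiv.swap J l) ∘ Equiv.swap J l) I (tail w J b') l := by
        rwa [Function.comp_assoc, ← Equiv.coe_trans, Equiv.swap_swap, Equiv.coe_refl,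
          Function.comp_id]
      simpa using this.of_perm hπ)
    (hlab.imp (fun h => by simpa using h) fun h i hi h1 h2 =>
      h _ (swap_ge le_rfl hl hi) h1 (h2.of_perm hπ))
  exact ⟨S', q', t', D', _, w', fr', b', h1, h2, h3⟩

/-- Existence of a certified centre after inverting a homogeneous element. -/
theorem exists_cert [CharZero k] (hH : Grd H) (hG : ∀ (a : L) δ, G δ → G (a • δ))
    (hG' : ∀ δ δ', G δ → G δ' → G (δ - δ')) (hI : ∀ f ∈ I, f ∈ q ∧ ∃ γ, H γ f)
    (hF : Fr H G U y S q t D lab) :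
    ∃ (S' : Subalgebra k L) (q' : Submodule S' L) (x : Fin N → L)
      (D' : Fin N → Derivation k L L) (lab' : Fin N → Option ℕ) (w : Fin N → ℚ)
      (fr : Fin N → Bool), PLoc H S q S' q' ∧ Fr H G U y S' q' x D' lab' ∧
        Cert S' G y I x w fr ∧ Antitone (nuE w fr) ∧
        (∀ i, 0 < w i → (fr i = true ↔ lab' i = none)) ∧ ∀ f ∈ I, Sat q' (Jw S' x w 1) f := by
  have key : ∀ m j : ℕ, j + m = N → ∀ (S : Subalgebra k L) (q : Submodule S L) (t : Fin N → L)
      (D : Fin N → Derivation k L L) (lab : Fin N → Option ℕ) (w : Fin N → ℚ) (fr : Fin N → Bool)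
      (b : ℚ), (∀ f ∈ I, f ∈ S ∧ ∃ γ, H γ f) → Fr H G U y S q t D lab →
      Stg G y I S q t D lab w fr j b →
      ∃ (S' : Subalgebra k L) (q' : Submodule S' L) (t' : Fin N → L)
        (D' : Fin N → Derivation k L L) (lab' : Fin N → Option ℕ) (w' : Fin N → ℚ)
        (fr' : Fin N → Bool) (j' : ℕ) (b' : ℚ), PLoc H S q S' q' ∧ Fr H G U y S' q' t' D' lab' ∧
          Stg G y I S' q' t' D' lab' w' fr' j' b' ∧
          ∀ f ∈ I, Sat q' (Jw S' t' (tail w' j' 0) 1) f := by
    intro m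
    induction m with
    | zero =>
      intro j hj S q t D lab w fr b _ hF h
      refine ⟨S, q, t, D, lab, w, fr, j, b, PLoc.refl hH hF.prime, hF, h, fun f hf => ?_⟩
      have : tail w j 0 = tail w j b := funext fun i => by
        simp [tail, show (i : ℕ) < j by omega]
      rw [this]
      exact h.adm f hf
    | succ m ih =>
      intro j hj S q t D lab w fr b hI hF h
      rcases Stg.next (J := ⟨j, by omega⟩) hH hG hG' hI hF h with h1 | h1
      · exact ⟨S, q, t, D, lab, w, fr, j, b, PLoc.refl hH hF.prime, hF, h, h1⟩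
      · obtain ⟨S', q', t', D', lab', w', fr', b', h1, h2, h3⟩ := h1
        obtain ⟨S'', q'', t'', D'', lab'', w'', fr'', j'', b'', h4, h5⟩ := ih (j + 1) (by omega)
          S' q' t' D' lab' w' fr' b' (fun f hf => ⟨h1.le (hI f hf).1, (hI f hf).2⟩) h2 h3
        exact ⟨S'', q'', t'', D'', lab'', w'', fr'', j'', b'', h1.trans hH h4, h5⟩
  have h0 : Stg G y I S q t D lab 0 (fun _ => true) 0 1 := by
    refine ⟨one_pos, by simp, by simp, by simp, by simp, fun f hf => ?_, by simp⟩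
    refine (hF.coord.gen f (hI f hf).1).mono (Submodule.span_le.2 ?_)
    rintro _ ⟨i, rfl⟩
    exact self_mem_Jw (S := S) t (tail 0 0 1) (i := i) one_pos
  obtain ⟨S', q', x, D', lab', w, fr, j, b, h1, h2, h3, h4⟩ := key N 0 (zero_add N) S q t D lab _ _
    1 (fun f hf => ⟨hF.prime.sub f (hI f hf).1, (hI f hf).2⟩) hF h0
  have hpos : ∀ i : Fin N, (i : ℕ) < j → 0 < w i := fun i hi => h3.pos.trans_le (h3.ge i hi)
  have hlt : ∀ i : Fin N, 0 < tail w j 0 i → (i : ℕ) < j := fun i hi => by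
    by_contra h
    simp [tail, h] at hi
  have hnn : ∀ i, 0 ≤ tail w j 0 i := fun i => by
    unfold tail
    split_ifs with hi
    · exact (hpos i hi).le
    · exact le_rfl
  have hanti : Antitone (nuE (tail w j 0) fr) := by
    intro i i' hii
    by_cases hi' : (i' : ℕ) < j
    · have hi : (i : ℕ) < j := lt_of_le_of_lt hii hi'
      simpa [nuE, tail, hi, hi', hpos i hi, hpos i' hi'] using h3.anti i i' hii hi'
    · simp only [nuE, Prod.Lex.toLex_le_toLex]
      rw [show tail w j 0 i' = 0 by simp [tail, hi']]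
      rcases (hnn i).lt_or_eq with h | h
      · exact Or.inl h
      · exact Or.inr ⟨h, by simp⟩
  refine ⟨S', q', x, D', lab', tail w j 0, fr, h1, h2, ⟨hnn, fun i i' hii =>
    Prod.Lex.monotone_fst _ _ (hanti hii), h2.memS, fun i hi => ?_⟩, hanti,
    fun i hi => h3.free i (hlt i hi), h4⟩
  exact (h3.step i (hlt i hi)).loc (PLoc.refl hH h2.prime) (fun _ _ => rfl)
    (fun i' hi' => if_pos (lt_of_le_of_lt (show (i' : ℕ) ≤ i from hi') (hlt i hi))) rfl

end

end Pool.Agent.Lib.MP_4287a9_ag.Res
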