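import Pool.Agent.Lib.MP_4287a9_ag.ResC1
import Pool.Agent.Lib.MP_4287a9_ag.ResC2
import Pool.Agent.Lib.MP_4287a9_ag.ResEx2

/-! Existence of certified centres. -/

namespace Pool.Agent.Lib.MP_4287a9_ag.Res

variable {k K : Type} [Field k] [Field K] [Algebra k K] {N : ℕ}

variable {A : Amb k K N} {ρ : ℕ} {c : Chart k K N}

theorem ex_grd : Grd (IsH : Gam → LL K → Prop) where
  one := ⟨1, rfl⟩
  mul := IsH.mul
  sub := by
    rintro γ _ _ ⟨a, rfl⟩ ⟨b, rfl⟩
    exact ⟨a - b, (AddMonoidAlgebra.single_sub ..).symm⟩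
  inv h h0 := by
    obtain ⟨a, ha⟩ := h.exists_hu h0
    exact ⟨_, ha, IsH.inv (ha ▸ h)⟩

theorem HomDer.shift {δ : Derivation k (LL K) (LL K)} (h : HomDer δ) {γ : Gam} {t : LL K}
    (ht : IsH γ t) (h1 : δ t = 1) (β : Gam) (z : LL K) (hz : IsH β z) : IsH (β - γ) (δ z) := by
  by_cases h0 : δ z = 0
  · exact ⟨0, by simp [h0]⟩
  have hz0 : z ≠ 0 := fun e => h0 (by simp [e])
  have ht0 : t ≠ 0 := fun e => by simp [e] at h1
  obtain ⟨β', hβ'⟩ := h z ⟨β, hz⟩
  obtain ⟨η, hη⟩ := h _ ⟨_, hz.mul ht⟩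
  rw [Derivation.leibniz, h1, smul_eq_mul, smul_eq_mul, mul_one] at hη
  have h2 := ht.mul hβ'
  by_cases h3 : β = γ + β'
  · rwa [h3, add_sub_cancel_left]
  have h4 : β = η := by
    by_contra h4
    have := hη.prj_ne h4
    rw [prj_add, hz.prj_self, h2.prj_ne h3, add_zero] at this
    exact hz0 this
  have h5 : γ + β' = η := by
    by_contra h5
    have := hη.prj_ne h5
    rw [prj_add, h2.prj_self, hz.prj_ne (Ne.symm h3), zero_add] at this
    exact mul_ne_zero ht0 h0 this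
  exact absurd (h4.trans h5.symm) h3

theorem Chart.Good.ex_indep (h : c.Good A ρ) {q : Submodule c.B (LL K)} (hq : GPt c.B q) :
    ∀ z ∈ Algebra.adjoin k {z | ∃ e < ρ, z = (c.u e : LL K)}, z ∈ q → z = 0 := by
  intro z hz hzq
  have hset : {z | ∃ e < ρ, z = (c.u e : LL K)} = Set.range fun e : Fin ρ => (c.u e : LL K) := by
    ext z
    exact ⟨fun ⟨e, he, h⟩ => ⟨⟨e, he⟩, h.symm⟩, fun ⟨e, h⟩ => ⟨e, e.2, h.symm⟩⟩
  rw [hset, Algebra.adjoin_range_eq_range_aeval] at hz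
  obtain ⟨P, rfl⟩ := hz
  choose γ h1 h2 h3 using fun e : Fin ρ => h.udeg e e.2
  have hdeg : ∀ α : Fin ρ →₀ ℕ, IsH (∑ e, α e • γ e) (∏ e : Fin ρ, (c.u e : LL K) ^ α e) := by
    intro α
    induction (Finset.univ : Finset (Fin ρ)) using Finset.induction_on with
    | empty => exact ⟨1, rfl⟩
    | insert a u ha ih =>
      rw [Finset.sum_insert ha, Finset.prod_insert ha]
      exact ((h1 a).pow _).mul ih
  have hinj : ∀ α α' : Fin ρ →₀ ℕ, ∑ e, α e • γ e = ∑ e, α' e • γ e → α = α' := by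
    intro α α' he
    by_contra hne
    obtain ⟨e, he1, he2⟩ := (Finset.univ.filter fun e => α e ≠ α' e).exists_max_image id (by
      obtain ⟨e, h⟩ := Finsupp.ne_iff.1 hne
      exact ⟨e, by simpa using h⟩)
    have h4 := congrFun he e
    simp only [Finset.sum_apply, Pi.smul_apply] at h4
    rw [← sub_eq_zero, ← Finset.sum_sub_distrib, Finset.sum_eq_single e] at h4
    · rw [nsmul_eq_mul, nsmul_eq_mul, ← sub_mul, mul_eq_zero, sub_eq_zero] at h4
      exact (Finset.mem_filter.1 he1).2 (Nat.cast_injective (h4.resolve_right (h2 e)))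
    · intro e' _ hne'
      rcases lt_or_gt_of_ne hne' with h5 | h5
      · simp [h3 e' e h5]
      · have : α e' = α' e' := by
          by_contra h6
          exact absurd (he2 e' (by simpa using h6)) (not_le.2 h5)
        simp [this]
    · simp
  change MvPolynomial.aeval _ P ∈ q at hzq
  change MvPolynomial.aeval _ P = 0
  rw [MvPolynomial.aeval_def, MvPolynomial.eval₂_eq'] at hzq ⊢
  refine Finset.sum_eq_zero fun α hα => ?_
  have hh : ∀ α : Fin ρ →₀ ℕ, IsH (∑ e, α e • γ e)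
      (algebraMap k (LL K) (P.coeff α) * ∏ e : Fin ρ, (c.u e : LL K) ^ α e) := fun α => by
    simpa using IsH.mul ⟨_, algebraMap_eq_sg (P.coeff α)⟩ (hdeg α)
  have h5 := hq.gr _ hzq (∑ e, α e • γ e)
  have h6 : ∀ u : Finset (Fin ρ →₀ ℕ), ∀ f : (Fin ρ →₀ ℕ) → LL K, ∀ β,
      prj β (∑ a ∈ u, f a) = ∑ a ∈ u, prj β (f a) := by
    intro u f β
    induction u using Finset.induction_on with
    | empty => simp [prj]
    | insert a u ha ih => rw [Finset.sum_insert ha, Finset.sum_insert ha, prj_add, ih]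
  rw [h6, Finset.sum_eq_single α (fun α' _ hne => (hh α').prj_ne fun e => hne (hinj _ _ e).symm)
    (fun h => absurd hα h), (hh α).prj_self] at h5
  by_contra h7
  refine hq.prime.notMem_of_unitIn (UnitIn.mul ?_ (UnitIn.prod fun (e : Fin ρ) _ =>
    (h.uunit e e.2).pow _)) h5
  have h8 : P.coeff α ≠ 0 := MvPolynomial.mem_support_iff.1 hα
  exact ⟨Subalgebra.algebraMap_mem _ _, _, Subalgebra.algebraMap_mem _ (P.coeff α)⁻¹,
    by rw [← map_mul, mul_inv_cancel₀ h8, map_one]⟩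

theorem Chart.Good.fr (h : c.Good A ρ) {q : Submodule c.B (LL K)} (hq : GPt c.B q)
    (ht : ∀ i, c.t i ∈ q) {D : Fin N → Derivation k (LL K) (LL K)} (hD : c.Dual ρ D) :
    Fr IsH (Fresh ρ) {z | ∃ e < ρ, z = (c.u e : LL K)} c.y c.B q c.t D c.lab where
  fg := h.fg'
  prime := hq.prime
  mem := ht
  pres := hD.pres
  dual := hD.dual
  unr := h.unr
  hU := by
    rintro _ ⟨e, he, rfl⟩
    exact (h.uunit e he).1
  kill i := by
    rintro _ ⟨e, he, rfl⟩
    exact hD.kill i e he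
  indep := h.ex_indep hq
  good := hD.fresh
  hom i := by
    obtain ⟨γ, hγ⟩ := h.thom i
    exact ⟨γ, hγ, (hD.hom i).shift hγ (by simp [hD.dual])⟩
  lsome _ _ hi := h.y_eq hi
  lnone _ he := Chart.y_eq_one he
  inj := h.inj

/-- Existence of a certified centre near a point where all coordinates vanish.
Induction on `j ≤ N`; the state is a chart `c'` with `c.Loc σ c'` (`Loc.trans`), the prime
`q' = extq q c'.B` containing all `c'.t i`, dual derivations `D`, and `w`, `fr`, `b₀` with: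
for `i < j`: `0 < w i`, `Step c'.B (Fresh ρ) c'.y I c'.t w fr i`, `fr i = true ↔ lab i = none`,
`nuE` antitone below `j`; `b₀ = w (j - 1)` (`1` for `j = 0`); `I` admissible for `tail w j b₀`; and
if `fr (j - 1) = false` then no unlabelled `l ≥ j` has `Crit q' D I (tail w j b₀) l`.
Step: `next_weight`. First alternative (or `j = N`): put `w i = 0` for `i ≥ j`, clear the
denominators (`Sat.hom`, `grM_Jw`, `I` is finite), localize, done. Otherwise get `b`; take an
unlabelled critical `l ≥ j` if there is one, else a labelled one; `g = appI D Ls f` is homogeneous,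
localize at `D l g`. The list of the step is `Ls.map fun i => (D i, min i j)`, the derivation is
`D l`. Unlabelled: `upd l g` (exchange lemma for admissibility, `g ∈ q'` because it has positive
weight), then `perm (swap j l)`, new duals from `exists_dual`. Labelled: only `perm`, keep `D ∘ swap`. -/
theorem Chart.Good.exists_cc_of_mem [CharZero k] (hA : A.Good) (h : c.Good A ρ)
    {q : Submodule c.B (LL K)} (hq : GPt c.B q) (ht : ∀ i, c.t i ∈ q) {I : Set (LL K)}
    (hfin : I.Finite) (hI : ∀ f ∈ I, Hm f ∧ f ∈ q) :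
    ∃ (σ : (LL K)ˣ) (c' : Chart k K N) (w : Fin N → ℚ) (fr : Fin N → Bool), (σ : LL K) ∉ q ∧
      c.Loc σ c' ∧ c'.Good A ρ ∧ c'.CC ρ I w fr ∧ ∀ i, c'.t i ∈ extq q c'.B := by
  classical
  obtain ⟨D, hD⟩ := h.exists_dual hA
  obtain ⟨S', q', x, D', lab', w, fr, h1, h2, h3, h4, h5, h6⟩ := exists_cert (I := I) ex_grd
    (fun a δ hδ e he => by simp [hδ e he]) (fun δ δ' hδ hδ' e he => by simp [hδ e he, hδ' e he])
    (fun f hf => ⟨(hI f hf).2, (hI f hf).1⟩) (h.fr hq ht hD)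
  have hgr : GrA S' := by
    obtain ⟨σ, h7, -, -, rfl, -⟩ := h1
    exact h.grA.away h7
  have hx : ∀ i, Hm (x i) := fun i => (h2.hom i).imp fun _ h => h.1
  choose! σ hσ1 hσ2 hσ3 hσ4 using fun f (hf : f ∈ I) =>
    Sat.hom hgr (grM_Jw hgr hx w 1) (hI f hf).1 (h6 f hf)
  have hmem : ∀ f, f ∈ hfin.toFinset → f ∈ I := fun f hf => hfin.mem_toFinset.1 hf
  have hp : ∀ u : Finset (LL K), (∀ f ∈ u, f ∈ I) → ∏ f ∈ u, σ f ∉ q' := by
    intro u hu
    induction u using Finset.induction_on with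
    | empty => simpa using h2.prime.one
    | insert a u ha ih =>
      rw [Finset.prod_insert ha]
      exact h2.prime.mul_notMem (hσ1 a (hu a (Finset.mem_insert_self _ _)))
        (prod_mem fun f hf => hσ1 f (hu f (Finset.mem_insert_of_mem hf)))
        (hσ3 a (hu a (Finset.mem_insert_self _ _)))
        (ih fun f hf => hu f (Finset.mem_insert_of_mem hf))
  have hph : Hm (∏ f ∈ hfin.toFinset, σ f) := Hm.prod fun f hf => hσ2 f (hmem f hf)
  obtain ⟨υ, hυ⟩ := hph.exists_unit fun e => hp _ hmem (e ▸ zero_mem q')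
  have hυS : (υ : LL K) ∈ S' := hυ ▸ prod_mem fun f hf => hσ1 f (hmem f hf)
  obtain ⟨q'', h7⟩ := exists_loc (H := IsH) h2.prime (σ := υ) (hυ ▸ hph) hυS (hυ ▸ hp _ hmem)
  have h8 := h2.loc h7
  have h9 : Cert (away S' υ) (Fresh ρ) c.y I x w fr := h3.mono h7.le (fun δ _ hδ => h7.pres hδ)
    (fun e => ⟨1, unitIn_one, (one_mul _).symm⟩) (fun f hf => Submodule.subset_span hf)
    fun _ hδ => hδ
  have h10 : ∀ f ∈ I, f ∈ Jw (away S' υ) x w 1 := by
    intro f hf
    have : f = (((υ⁻¹ : (LL K)ˣ) : LL K) * ∏ g ∈ hfin.toFinset.erase f, σ g) * (σ f * f) := by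
      rw [mul_assoc, ← mul_assoc _ (σ f), Finset.prod_erase_mul _ _ (hfin.mem_toFinset.2 hf), ← hυ,
        Units.inv_mul_cancel_left]
    rw [this]
    exact mul_mem_sub (mul_mem (inv_mem_away υ) (h7.le (prod_mem fun g hg =>
      hσ1 g (hmem g (Finset.mem_of_mem_erase hg))))) (Jw_le_of_le h7.le (hσ4 f hf))
  have h11 := h1.trans ex_grd h7
  generalize away S' υ = S'' at *
  obtain ⟨σ', h12, h13, h14, rfl, h15, h16⟩ := h11
  set c' : Chart k K N := ⟨away c.B σ', x, c.u, lab'⟩ with hc'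
  have hy : c'.y = c.y := by
    funext e
    by_cases he : ∃ i, lab' i = some e
    · obtain ⟨i, hi⟩ := he
      rw [h8.lsome i e hi, Chart.y, Finset.prod_eq_single i]
      · exact if_pos hi
      · exact fun j _ hj => if_neg fun hj' => hj (h8.inj j i e hj' hi)
      · simp
    · push Not at he
      rw [h8.lnone e he, Chart.y_eq_one he]
  have hl := h.loc h13 h12
  refine ⟨σ', c', w, fr, h14, ⟨h13, h12, rfl, fun e => ⟨1, unitIn_one, by rw [hy, one_mul]⟩⟩,
    ⟨hl.fg, hl.base, h8.memS, hx, hl.uunit, hl.udeg, h8.unr, h8.inj, fun i e hi => ?_,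
      fun e he => ?_⟩, ⟨hy ▸ h9, h4, h10, h5⟩, fun i => ?_⟩
  · by_contra he
    have := h8.mem i
    rw [← h8.lsome i e hi, h.y_ge (not_lt.1 he)] at this
    exact h15.one this
  · obtain ⟨υ', h17, a, h18⟩ := hl.tauMono e he
    exact ⟨υ', h17, a, by rw [hy]; exact h18⟩
  · obtain ⟨m, hm⟩ := (mem_away h13).1 (h8.memS i)
    exact (mem_extq_away h13).2 ⟨m, (h16 _ hm).1
      (mul_mem_sub (le_away σ' (pow_mem h13 m)) (h8.mem i))⟩

/-- Near every point the ideal is trivial or has a certified centre. If some `f ∈ I` is not in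
`q`, localize at `f`. Otherwise `exists_center`, `exists_cc_of_mem`, `Loc.trans`; for the last
claim use `Loc.bnd` twice, `CC.isCen`, `Bnd.lt`. -/
theorem Chart.Good.exists_cc [CharZero k] (hA : A.Good) (h : c.Good A ρ)
    {q : Submodule c.B (LL K)} (hq : GPt c.B q) (ha : AlgAt c.B q) {I : Set (LL K)}
    (hfin : I.Finite) (hI : ∀ f ∈ I, Hm f ∧ f ∈ c.B) :
    ∃ (σ : (LL K)ˣ) (c' : Chart k K N), (σ : LL K) ∉ q ∧ c.Loc σ c' ∧ c'.Good A ρ ∧
      (c'.Triv I ∨ ∃ w fr, c'.CC ρ I w fr ∧ ∀ ν, c.Bnd ρ I ν → ν < nu w fr) := by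
  by_cases h0 : ∃ f ∈ I, f ∉ q
  · obtain ⟨f, hf, hfq⟩ := h0
    obtain ⟨σ, rfl⟩ := (hI f hf).1.exists_unit fun e => hfq (e ▸ zero_mem q)
    exact ⟨σ, c.loc σ, hfq, Chart.loc_loc (hI _ hf).2 (hI _ hf).1, h.loc (hI _ hf).2 (hI _ hf).1,
      Or.inl ⟨σ, hf, unitIn_coe.2 ⟨le_away σ (hI _ hf).2, inv_mem_away σ⟩⟩⟩
  push Not at h0
  obtain ⟨σ₁, c₁, h1, h2, h3, h4⟩ := h.exists_center hA hq ha
  have h5 : GPt c₁.B (extq q c₁.B) := by
    rw [h2.eq]
    exact hq.extq_away h2.mem h2.hom h1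
  obtain ⟨σ₂, c₂, w, fr, h6, h7, h8, h9, h10⟩ := h3.exists_cc_of_mem hA h5 h4 hfin
    fun f hf => ⟨(hI f hf).1, Submodule.subset_span (h0 f hf)⟩
  obtain ⟨σ, h11, h12⟩ := h2.trans h7 hq.prime h1 h6
  refine ⟨σ, c₂, h11, h12, h8, Or.inr ⟨w, fr, h9, fun ν hν => ?_⟩⟩
  have h13 : PrimeAt c₂.B (extq (extq q c₁.B) c₂.B) := by
    rw [h7.eq]
    exact h5.prime.extq_away h7.mem h6
  exact (h12.bnd hν).lt h8.y_mem (fun f hf => h12.le (hI f hf).2) h13
    (h9.isCen h8 le_rfl h13 fun i _ => h10 i)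

end Pool.Agent.Lib.MP_4287a9_ag.Res
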