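import Pool.Agent.Lib.MP_4287a9_ag.ResTay
import Pool.Agent.Lib.MP_4287a9_ag.ResAcc

/-! The choice of the next weight. -/

namespace Pool.Agent.Lib.MP_4287a9_ag.Res

variable {k L : Type} [Field k] [CommRing L] [Algebra k L] {N : ℕ} {S : Subalgebra k L}

theorem tail_sum (w : Fin N → ℚ) (j : ℕ) (b : ℚ) (Ls : List (Fin N)) :
    (Ls.map (tail w j b)).sum =
      (Ls.map (tail w j 0)).sum + (Ls.countP fun i : Fin N => j ≤ (i : ℕ)) * b := by
  induction Ls with
  | nil => simp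
  | cons i Ls ih =>
    rw [List.map_cons, List.map_cons, List.sum_cons, List.sum_cons, ih, List.countP_cons]
    by_cases h : (i : ℕ) < j
    · simp [tail, h, not_le.2 h, add_assoc]
    · simp only [tail, h, not_lt.1 h, if_false, decide_true, if_true]
      push_cast
      ring

theorem exists_sum_eq (v : Fin N → ℚ) (Ls : List (Fin N)) :
    ∃ a : Fin N → ℕ, ∑ i, v i * a i = (Ls.map v).sum := by
  induction Ls with
  | nil => exact ⟨0, by simp⟩
  | cons i Ls ih =>
    obtain ⟨a, h⟩ := ih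
    exact ⟨Pi.single i 1 + a, by simp [mul_add, Finset.sum_add_distrib, h, Pi.single_apply]⟩

/-- The next weight. Consider the pairs `(f, Ls)` with `appI D Ls f ∉ q` and weight `s < 1` of
the indices `< j` in `Ls`; let `m` be the number of indices `≥ j`. By admissibility for the tail
`b₀`, `1 ≤ s + m b₀`, so `m ≥ 1` and `(1 - s) / m ≤ b₀`. If there is no such pair, `f` is admissible
for every tail `1 / M` by `taylor`, hence for the tail `0` by `sat_of_forall_pow`. Otherwise take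
the maximum `b` of `(1 - s) / m` (finitely many values above any positive bound: finitely many
`s`), use `taylor` for admissibility and `appI_perm` to move an index `≥ j` to the front. -/
theorem next_weight [CharZero k] [IsNoetherianRing S] {q : Submodule S L} {t : Fin N → L}
    {D : Fin N → Derivation k L L} (h : Coord S q t D) {I : Set L} (hI : ∀ f ∈ I, f ∈ S)
    {w : Fin N → ℚ} {j : ℕ} {b₀ : ℚ} (hb : 0 < b₀) (hw : ∀ i : Fin N, (i : ℕ) < j → 0 < w i)
    (hadm : ∀ f ∈ I, Sat q (Jw S t (tail w j b₀) 1) f) :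
    (∀ f ∈ I, Sat q (Jw S t (tail w j 0) 1) f) ∨
    ∃ b : ℚ, 0 < b ∧ b ≤ b₀ ∧ (∀ f ∈ I, Sat q (Jw S t (tail w j b) 1) f) ∧
      ∃ l : Fin N, j ≤ (l : ℕ) ∧ Crit q D I (tail w j b) l := by
  have hnn : ∀ b : ℚ, 0 ≤ b → ∀ i, 0 ≤ tail w j b i := by
    intro b hb i
    unfold tail
    split_ifs with hi
    · exact (hw i hi).le
    · exact hb
  set V : Set ℚ := {b | ∃ f ∈ I, ∃ Ls : List (Fin N), appI D Ls f ∉ q ∧
    (Ls.map (tail w j 0)).sum < 1 ∧ (Ls.map (tail w j b)).sum = 1} with hV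
  have hge : ∀ f ∈ I, ∀ Ls : List (Fin N), appI D Ls f ∉ q → 1 ≤ (Ls.map (tail w j b₀)).sum := by
    intro f hf Ls hL
    by_contra hlt
    exact hL (Sat.mem_of_le h.prime (Jw_le_prime h.prime (fun i _ => h.mem i)
      (sub_pos.2 (not_le.1 hlt))) (appI_mem h.pres Ls (hI f hf))
      (appI_sat_Jw h (hnn b₀ hb.le) Ls (hadm f hf)))
  have hmk : ∀ f ∈ I, ∀ Ls : List (Fin N), appI D Ls f ∉ q → (Ls.map (tail w j 0)).sum < 1 →
      ∃ b ∈ V, (Ls.map (tail w j b)).sum = 1 := by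
    intro f hf Ls hL hs
    have h1 := hge f hf Ls hL
    rw [tail_sum] at h1
    have h2 : ((Ls.countP fun i : Fin N => j ≤ (i : ℕ) : ℕ) : ℚ) ≠ 0 := by
      intro h2
      rw [h2] at h1
      linarith
    have h3 : (Ls.map (tail w j ((1 - (Ls.map (tail w j 0)).sum) /
        (Ls.countP fun i : Fin N => j ≤ (i : ℕ) : ℕ)))).sum = 1 := by
      rw [tail_sum, mul_div_cancel₀ _ h2]
      ring
    exact ⟨_, ⟨f, hf, Ls, hL, hs, h3⟩, h3⟩
  have hpos : ∀ b ∈ V, 0 < b := by
    rintro b ⟨f, -, Ls, -, h1, h2⟩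
    rw [tail_sum] at h2
    by_contra hb'
    have := mul_nonpos_of_nonneg_of_nonpos
      (Nat.cast_nonneg (α := ℚ) (Ls.countP fun i : Fin N => j ≤ (i : ℕ))) (not_lt.1 hb')
    linarith
  rcases V.eq_empty_or_nonempty with hE | ⟨ε, hε⟩
  · refine Or.inl fun f hf => taylor0 h (hnn 0 le_rfl) (hI f hf) fun Ls hL => ?_
    by_contra hq
    obtain ⟨b, hb', -⟩ := hmk f hf Ls hq hL
    rw [hE] at hb'
    exact hb'
  have hfin : (V ∩ Set.Ici ε).Finite := by
    refine (acc_finite (tail w j 0) (hnn 0 le_rfl) (hpos ε hε)).subset ?_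
    rintro b ⟨⟨f, -, Ls, -, h1, h2⟩, hb'⟩
    obtain ⟨a, ha⟩ := exists_sum_eq (tail w j 0) Ls
    rw [tail_sum] at h2
    refine ⟨hb', a, _, ?_, by rw [ha]; exact h2⟩
    by_contra h3
    rw [show (Ls.countP fun i : Fin N => j ≤ (i : ℕ)) = 0 by omega] at h2
    simp at h2
    linarith
  obtain ⟨b, ⟨hbV, hbε⟩, hmax⟩ := Set.exists_max_image _ id hfin ⟨ε, hε, Set.self_mem_Ici⟩
  have hmax' : ∀ b' ∈ V, b' ≤ b := fun b' hb' =>
    (le_total b' ε).elim (fun h => h.trans hbε) fun h => hmax b' ⟨hb', h⟩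
  have hb0 := hpos b hbV
  obtain ⟨f, hf, Ls, hL, h1, h2⟩ := hbV
  have hc : 0 < Ls.countP fun i : Fin N => j ≤ (i : ℕ) := by
    rw [tail_sum] at h2
    by_contra h3
    rw [show (Ls.countP fun i : Fin N => j ≤ (i : ℕ)) = 0 by omega] at h2
    simp at h2
    linarith
  refine Or.inr ⟨b, hb0, ?_, fun f' hf' => taylor0 h (hnn b hb0.le) (hI f' hf') fun Ls' hL' => ?_,
    ?_⟩
  · have h3 := hge f hf Ls hL
    rw [tail_sum] at h2 h3
    have h4 : (0 : ℚ) < (Ls.countP fun i : Fin N => j ≤ (i : ℕ) : ℕ) := by exact_mod_cast hc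
    exact le_of_mul_le_mul_left (by linarith) h4
  · by_contra hq
    rw [tail_sum] at hL'
    have h4 := mul_nonneg (Nat.cast_nonneg (α := ℚ) (Ls'.countP fun i : Fin N => j ≤ (i : ℕ))) hb0.le
    obtain ⟨b', hb', h5⟩ := hmk f' hf' Ls' hq (by linarith)
    rw [tail_sum] at h5
    have := mul_le_mul_of_nonneg_left (hmax' b' hb')
      (Nat.cast_nonneg (α := ℚ) (Ls'.countP fun i : Fin N => j ≤ (i : ℕ)))
    linarith
  · obtain ⟨l, hl, hjl⟩ := List.countP_pos_iff.1 hc
    have hp := List.perm_cons_erase hl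
    refine ⟨l, by simpa using hjl, f, hf, Ls.erase l, ?_, ?_⟩
    · rw [← h2, (hp.map _).sum_eq, List.map_cons, List.sum_cons, add_comm]
    · rwa [appI_perm h.pres h.comm hp (hI f hf)] at hL

end Pool.Agent.Lib.MP_4287a9_ag.Res
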