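import Pool.Agent.Lib.MP_4287a9_ag.ResA2
import Pool.Agent.Lib.MP_4287a9_ag.ResKey
import Pool.Agent.Lib.MP_4287a9_ag.ResTay2
import Pool.Agent.Lib.MP_4287a9_ag.ResGen

/-! Frames at a point: localization, permutation and exchange of coordinates. -/

namespace Pool.Agent.Lib.MP_4287a9_ag.Res

noncomputable section

variable {k L : Type} [Field k] [CommRing L] [Algebra k L] {N : ℕ} {Γ : Type}

/-- An abstract notion of degree in which nonzero homogeneous elements are invertible. -/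
structure Grd [AddCommGroup Γ] (H : Γ → L → Prop) : Prop where
  one : H 0 1
  mul : ∀ {γ β a b}, H γ a → H β b → H (γ + β) (a * b)
  sub : ∀ {γ a b}, H γ a → H γ b → H γ (a - b)
  inv : ∀ {γ a}, H γ a → a ≠ 0 → ∃ υ : Lˣ, (υ : L) = a ∧ H (-γ) ((υ⁻¹ : Lˣ) : L)

theorem Grd.pow [AddCommGroup Γ] {H : Γ → L → Prop} (hH : Grd H) {γ : Γ} {a : L} (h : H γ a) (m : ℕ) :
    H (m • γ) (a ^ m) := by
  induction m with
  | zero => simpa using hH.one
  | succ m ih => rw [succ_nsmul, pow_succ]; exact hH.mul ih h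

/-- `(S', q')` is obtained from `(S, q)` by inverting a homogeneous element outside `q`. -/
def PLoc (H : Γ → L → Prop) (S : Subalgebra k L) (q : Submodule S L) (S' : Subalgebra k L)
    (q' : Submodule S' L) : Prop :=
  ∃ σ : Lˣ, (∃ γ, H γ (σ : L)) ∧ (σ : L) ∈ S ∧ (σ : L) ∉ q ∧ S' = away S σ ∧ PrimeAt S' q' ∧
    ∀ y ∈ S, y ∈ q' ↔ y ∈ q

variable {H : Γ → L → Prop} {S S' S'' : Subalgebra k L} {q : Submodule S L} {q' : Submodule S' L}
  {q'' : Submodule S'' L}

theorem exists_loc (hq : PrimeAt S q) {σ : Lˣ} (h1 : ∃ γ, H γ (σ : L)) (h2 : (σ : L) ∈ S)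
    (h3 : (σ : L) ∉ q) : ∃ q' : Submodule (away S σ) L, PLoc H S q (away S σ) q' := by
  have hp : ∀ m : ℕ, (σ : L) ^ m ∉ q := by
    intro m
    induction m with
    | zero => simpa using hq.one
    | succ m ih => rw [pow_succ]; exact hq.mul_notMem (pow_mem h2 m) h2 ih h3
  refine ⟨{ carrier := {y | ∃ m : ℕ, (σ : L) ^ m * y ∈ q}
            add_mem' := ?_
            zero_mem' := ⟨0, by simp⟩
            smul_mem' := ?_ }, σ, h1, h2, h3, rfl, ⟨?_, ?_, ?_⟩, ?_⟩
  · rintro a b ⟨m, ha⟩ ⟨n, hb⟩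
    refine ⟨m + n, ?_⟩
    have : (σ : L) ^ (m + n) * (a + b) = σ ^ n * (σ ^ m * a) + σ ^ m * (σ ^ n * b) := by ring
    rw [this]
    exact add_mem (mul_mem_sub (pow_mem h2 n) ha) (mul_mem_sub (pow_mem h2 m) hb)
  · rintro c a ⟨m, ha⟩
    obtain ⟨n, hc⟩ := (mem_away h2).1 c.2
    refine ⟨n + m, ?_⟩
    rw [Subalgebra.smul_def, smul_eq_mul, pow_add, mul_mul_mul_comm]
    exact mul_mem_sub hc ha
  · rintro y ⟨m, hy⟩
    exact (mem_away h2).2 ⟨m, hq.sub _ hy⟩
  · rintro ⟨m, hm⟩
    exact hp m (by simpa using hm)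
  · rintro a ha b hb ⟨m, hm⟩
    obtain ⟨n, ha⟩ := (mem_away h2).1 ha
    obtain ⟨n', hb⟩ := (mem_away h2).1 hb
    have h4 : (σ : L) ^ m * ((σ ^ n * a) * (σ ^ n' * b)) ∈ q := by
      have : (σ : L) ^ m * ((σ ^ n * a) * (σ ^ n' * b)) = σ ^ (n + n') * (σ ^ m * (a * b)) := by
        ring
      rw [this]
      exact mul_mem_sub (pow_mem h2 _) hm
    exact (hq.prime _ ha _ hb ((hq.prime _ (pow_mem h2 m) _ (mul_mem ha hb) h4).resolve_left
      (hp m))).imp (fun h => ⟨n, h⟩) fun h => ⟨n', h⟩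
  · intro y hy
    exact ⟨fun ⟨m, hm⟩ => (hq.prime _ (pow_mem h2 m) _ hy hm).resolve_left (hp m),
      fun h => ⟨0, by simpa using h⟩⟩

theorem PLoc.le (h : PLoc H S q S' q') : S ≤ S' := by
  obtain ⟨σ, -, -, -, rfl, -⟩ := h
  exact le_away σ

theorem PLoc.prime (h : PLoc H S q S' q') : PrimeAt S' q' := h.choose_spec.2.2.2.2.1

theorem PLoc.mem_iff (h : PLoc H S q S' q') {y : L} (hy : y ∈ S) : y ∈ q' ↔ y ∈ q :=
  h.choose_spec.2.2.2.2.2 y hy

theorem PLoc.pres (h : PLoc H S q S' q') {δ : Derivation k L L} (hδ : Pres S δ) : Pres S' δ := by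
  obtain ⟨σ, -, h2, -, rfl, -⟩ := h
  exact hδ.away h2

theorem PLoc.refl [AddCommGroup Γ] (hH : Grd H) (hq : PrimeAt S q) : PLoc H S q S q :=
  ⟨1, ⟨0, hH.one⟩, one_mem S, hq.one, le_antisymm (le_away 1) (away_le le_rfl (by simp)), hq,
    fun _ _ => Iff.rfl⟩

theorem PLoc.trans [AddCommGroup Γ] (hH : Grd H) (h : PLoc H S q S' q') (h' : PLoc H S' q' S'' q'') :
    PLoc H S q S'' q'' := by
  obtain ⟨σ, ⟨γ, h1⟩, h2, h3, rfl, h4, h5⟩ := h
  obtain ⟨υ, ⟨β, h1'⟩, h2', h3', rfl, h4', h5'⟩ := h'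
  obtain ⟨m, hm⟩ := (mem_away h2).1 h2'
  have hS : ((σ * (σ ^ m * υ) : Lˣ) : L) ∈ S := mul_mem h2 hm
  have hσ : (σ : L) ∉ q' := fun h => h3 ((h5 _ h2).1 h)
  have hp : ∀ m : ℕ, (σ : L) ^ m ∉ q' := by
    intro m
    induction m with
    | zero => simpa using h4.one
    | succ m ih =>
      rw [pow_succ]
      exact h4.mul_notMem (le_away σ (pow_mem h2 m)) (le_away σ h2) ih hσ
  refine ⟨σ * (σ ^ m * υ), ⟨_, hH.mul h1 (hH.mul (hH.pow h1 m) h1')⟩, hS, fun h => ?_, ?_, h4',
    fun y hy => (h5' y (le_away σ hy)).trans (h5 y hy)⟩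
  · exact h4.mul_notMem (le_away σ h2) (le_away σ hm) hσ
      (h4.mul_notMem (le_away σ (pow_mem h2 m)) h2' (hp m) h3') ((h5 _ hS).2 h)
  · refine le_antisymm (away_le (away_le (le_away _) ?_) ?_) (away_le
      ((le_away σ).trans (le_away υ)) ?_)
    · have : ((σ⁻¹ : Lˣ) : L) = ((σ ^ m * υ : Lˣ) : L) * (((σ * (σ ^ m * υ))⁻¹ : Lˣ) : L) := by
        rw [← Units.val_mul, mul_inv, mul_left_comm, mul_inv_cancel, mul_one]
      rw [this]
      exact mul_mem (le_away _ hm) (inv_mem_away _)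
    · have : ((υ⁻¹ : Lˣ) : L) = ((σ * σ ^ m : Lˣ) : L) * (((σ * (σ ^ m * υ))⁻¹ : Lˣ) : L) := by
        rw [← Units.val_mul, ← mul_assoc, mul_inv, mul_inv_cancel_left]
      rw [this]
      exact mul_mem (le_away _ (mul_mem h2 (pow_mem h2 m))) (inv_mem_away _)
    · rw [mul_inv, mul_inv, ← inv_pow, Units.val_mul, Units.val_mul, Units.val_pow_eq_pow_val]
      exact mul_mem (le_away υ (inv_mem_away σ))
        (mul_mem (pow_mem (le_away υ (inv_mem_away σ)) m) (inv_mem_away υ))

theorem PLoc.fg (h : PLoc H S q S' q') (hfg : S.FG) : S'.FG := by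
  obtain ⟨σ, -, -, -, rfl, -⟩ := h
  have : away S σ = S ⊔ Algebra.adjoin k {((σ⁻¹ : Lˣ) : L)} := by
    rw [away, Algebra.adjoin_union, Algebra.adjoin_eq]
  rw [this]
  exact hfg.sup (Subalgebra.fg_def.2 ⟨_, Set.finite_singleton _, rfl⟩)

theorem PLoc.unr (h : PLoc H S q S' q') {T : Set L} (hT : ∀ z ∈ T, z ∈ S) (hU : Unr S T) :
    Unr S' T := by
  obtain ⟨σ, -, h2, -, rfl, -⟩ := h
  refine hU.extend rfl (fun z hz => le_away σ (hT z hz)) (fun z hz _ => Algebra.subset_adjoin hz) ?_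
  rintro _ rfl
  exact Or.inr ⟨σ, Algebra.subset_adjoin (Or.inl h2), σ.mul_inv⟩

theorem PLoc.sat_Jw (h : PLoc H S q S' q') {t : Fin N → L} {w : Fin N → ℚ} {d : ℚ} {f : L}
    (hf : Sat q (Jw S t w d) f) : Sat q' (Jw S' t w d) f := by
  obtain ⟨σ, h1, h2, h3⟩ := hf
  exact ⟨σ, h.le h1, fun h4 => h2 ((h.mem_iff h1).1 h4), Jw_le_of_le h.le h3⟩

variable [AddCommGroup Γ]

/-- Homogeneous coordinates vanishing at `q`, with dual derivations and labels. -/
structure Fr (H : Γ → L → Prop) (G : Derivation k L L → Prop) (U : Set L) (y : ℕ → L)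
    (S : Subalgebra k L) (q : Submodule S L) (t : Fin N → L) (D : Fin N → Derivation k L L)
    (lab : Fin N → Option ℕ) : Prop where
  fg : S.FG
  prime : PrimeAt S q
  mem : ∀ i, t i ∈ q
  pres : ∀ i, Pres S (D i)
  dual : ∀ i j, D i (t j) = if i = j then 1 else 0
  unr : Unr S (Set.range t ∪ U)
  hU : ∀ z ∈ U, z ∈ S
  kill : ∀ i, ∀ z ∈ U, D i z = 0
  indep : ∀ z ∈ Algebra.adjoin k U, z ∈ q → z = 0
  good : ∀ i, G (D i)
  hom : ∀ i, ∃ γ, H γ (t i) ∧ ∀ β a, H β a → H (β - γ) (D i a)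
  lsome : ∀ i e, lab i = some e → y e = t i
  lnone : ∀ e, (∀ i, lab i ≠ some e) → y e = 1
  inj : ∀ i i' e, lab i = some e → lab i' = some e → i = i'

variable {G : Derivation k L L → Prop} {U : Set L} {y : ℕ → L} {t : Fin N → L}
  {D : Fin N → Derivation k L L} {lab : Fin N → Option ℕ}

theorem Fr.memS (h : Fr H G U y S q t D lab) (i : Fin N) : t i ∈ S := h.prime.sub _ (h.mem i)

theorem Fr.coord (h : Fr H G U y S q t D lab) : Coord S q t D where
  prime := h.prime
  mem := h.mem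
  pres := h.pres
  dual := h.dual
  comm i j z hz := by
    have := h.unr.eq_zero ⁅D i, D j⁆ (by
      rintro z (⟨l, rfl⟩ | hz)
      · rw [Derivation.commutator_apply, h.dual, h.dual]
        split_ifs <;> simp
      · rw [Derivation.commutator_apply, h.kill i z hz, h.kill j z hz]
        simp) hz
    rwa [Derivation.commutator_apply, sub_eq_zero] at this
  gen _ hy := gen_of_unr h.fg h.unr h.hU h.prime h.mem h.indep hy

theorem Fr.loc (h : Fr H G U y S q t D lab) (hl : PLoc H S q S' q') :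
    Fr H G U y S' q' t D lab where
  fg := hl.fg h.fg
  prime := hl.prime
  mem i := (hl.mem_iff (h.memS i)).2 (h.mem i)
  pres i := hl.pres (h.pres i)
  dual := h.dual
  unr := hl.unr (by
    rintro z (⟨i, rfl⟩ | hz)
    exacts [h.memS i, h.hU z hz]) h.unr
  hU z hz := hl.le (h.hU z hz)
  kill := h.kill
  indep z hz hq := h.indep z hz ((hl.mem_iff (Algebra.adjoin_le h.hU hz)).1 hq)
  good := h.good
  hom := h.hom
  lsome := h.lsome
  lnone := h.lnone
  inj := h.inj

theorem Fr.perm (h : Fr H G U y S q t D lab) (π : Equiv.Perm (Fin N)) :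
    Fr H G U y S q (t ∘ π) (D ∘ π) (lab ∘ π) where
  fg := h.fg
  prime := h.prime
  mem i := h.mem _
  pres i := h.pres _
  dual i j := by simp [h.dual]
  unr := by rw [π.surjective.range_comp]; exact h.unr
  hU := h.hU
  kill i := h.kill _
  indep := h.indep
  good i := h.good _
  hom i := h.hom _
  lsome i := h.lsome _
  lnone e he := h.lnone e fun i => by simpa using he (π.symm i)
  inj i i' e h1 h2 := π.injective (h.inj _ _ e h1 h2)

theorem Fr.deriv_y (h : Fr H G U y S q t D lab) {l : Fin N} {e : ℕ} (hl : lab l ≠ some e) :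
    D l (y e) = 0 := by
  by_cases he : ∃ i, lab i = some e
  · obtain ⟨i, hi⟩ := he
    rw [h.lsome i e hi, h.dual, if_neg fun e' : l = i => hl (e' ▸ hi)]
  · push Not at he
    rw [h.lnone e he, Derivation.map_one_eq_zero]

theorem Fr.y_mem (h : Fr H G U y S q t D lab) (e : ℕ) : y e ∈ S := by
  by_cases he : ∃ i, lab i = some e
  · obtain ⟨i, hi⟩ := he
    rw [h.lsome i e hi]
    exact h.memS i
  · push Not at he
    rw [h.lnone e he]
    exact one_mem S

/-- The dual derivations after replacing `t l` by `g`, where `υ` is the inverse of `D l g`. -/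
def exD (D : Fin N → Derivation k L L) (l : Fin N) (g υ : L) : Fin N → Derivation k L L :=
  fun m => if m = l then υ • D l else D m - (D m g * υ) • D l

theorem Fr.exch (hH : Grd H) (hG : ∀ (a : L) δ, G δ → G (a • δ))
    (hG' : ∀ δ δ', G δ → G δ' → G (δ - δ'))
    (h : Fr H G U y S q t D lab) {l : Fin N} (hl : lab l = none) {g υ : L} (hg : g ∈ q)
    {γ γl : Γ} (hγ : H γ g) (hγl : ∀ β a, H β a → H (β - γl) (D l a)) (hυ : υ ∈ S)
    (hυ' : H (γl - γ) υ) (h1 : D l g * υ = 1) :
    Fr H G U y S q (Function.update t l g) (exD D l g υ) lab where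
  fg := h.fg
  prime := h.prime
  mem i := by
    by_cases hi : i = l
    · rwa [hi, Function.update_self]
    · rw [Function.update_of_ne hi]
      exact h.mem i
  pres m z hz := by
    unfold exD
    split_ifs
    · exact mul_mem hυ (h.pres l z hz)
    · exact sub_mem (h.pres m z hz)
        (mul_mem (mul_mem (h.pres m g (h.prime.sub _ hg)) hυ) (h.pres l z hz))
  dual m j := by
    unfold exD
    by_cases hm : m = l <;> by_cases hj : j = l
    · simp [hm, hj, mul_comm υ, h1]
    · simp [hm, hj, Ne.symm hj, h.dual]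
    · simp [hm, hj, mul_assoc, mul_comm υ, h1]
    · simp [hm, hj, Ne.symm hj, h.dual]
  unr := by
    have hne : ∀ z ∈ Set.range t ∪ U, z ≠ t l → D l z = 0 := by
      rintro z (⟨i, rfl⟩ | hz) h2
      · rw [h.dual, if_neg fun e => h2 (by rw [e])]
      · exact h.kill l z hz
    refine (h.unr.replace (h.memS l) (h.prime.sub _ hg) (h.pres l) (by simp [h.dual]) hne
      ⟨h.pres l g (h.prime.sub _ hg), υ, hυ, h1⟩).mono ?_
    rintro z (⟨⟨i, rfl⟩ | hz, h2⟩ | rfl)
    · exact Or.inl ⟨i, Function.update_of_ne (fun e => h2 (by rw [e]; rfl)) _ _⟩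
    · exact Or.inr hz
    · exact Or.inl ⟨l, Function.update_self ..⟩
  hU := h.hU
  kill m z hz := by
    unfold exD
    split_ifs <;> simp [h.kill _ z hz]
  indep := h.indep
  good m := by
    unfold exD
    split_ifs
    · exact hG _ _ (h.good l)
    · exact hG' _ _ (h.good m) (hG _ _ (h.good l))
  hom m := by
    unfold exD
    split_ifs with hm
    · refine ⟨γ, by rwa [hm, Function.update_self], fun β a ha => ?_⟩
      have := hH.mul hυ' (hγl β a ha)
      rwa [show γl - γ + (β - γl) = β - γ by abel] at this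
    · obtain ⟨γm, h2, h3⟩ := h.hom m
      refine ⟨γm, by rwa [Function.update_of_ne hm], fun β a ha => hH.sub (h3 β a ha) ?_⟩
      have := hH.mul (hH.mul (h3 γ g hγ) hυ') (hγl β a ha)
      rwa [show γ - γm + (γl - γ) + (β - γl) = β - γm by abel] at this
  lsome i e hi := by
    rw [Function.update_of_ne fun e' => by simp [e', hl] at hi]
    exact h.lsome i e hi
  lnone := h.lnone
  inj := h.inj

/-- The filtration does not change when a coordinate is replaced by an element of the same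
weight. -/
theorem Coord.sat_update (h : Coord S q t D) {w : Fin N → ℚ} (hw : ∀ i, 0 ≤ w i) {l : Fin N}
    (hl : 0 < w l) {g : L} (hgS : g ∈ S) (hg : Sat q (Jw S t w (w l)) g) (hD : D l g ∉ q) {d : ℚ}
    {f : L} (hf : Sat q (Jw S t w d) f) : Sat q (Jw S (Function.update t l g) w d) f := by
  have := h.prime.isPrime
  have hS : ∀ i, t i ∈ S := fun i => h.prime.sub _ (h.mem i)
  have hS' : ∀ i, Function.update t l g i ∈ S := fun i => by
    by_cases hi : i = l
    · rwa [hi, Function.update_self]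
    · rw [Function.update_of_ne hi]
      exact hS i
  refine sat_Jw_of_coord h.prime (fun i hi => ?_) hf
  by_cases hil : i = l
  swap
  · have := self_mem_Jw (S := S) (Function.update t l g) w hi
    rw [Function.update_of_ne hil] at this
    exact Sat.of_mem h.prime this
  subst hil
  have h1 := (sat_iff (⟨g, hgS⟩ : S)).1 hg
  rw [idl_Jw fun i _ => hS i] at h1
  obtain ⟨l, -, h2, h3⟩ := Abs.exists_exchange (D := resD S (D i)) hw (fun j _ => by
      rw [mem_idl, coe_cutE (hS j)]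
      exact h.mem j) hl (fun j => by
      by_cases hj : i = j
      · exact Or.inr (hj ▸ le_rfl)
      · exact Or.inl (by rw [h.dual', if_neg hj])) h1 (by
      rw [mem_idl, coe_resD (h.pres i)]
      exact hD)
  have h4 : i = l := by
    by_contra h4
    rw [h.dual', if_neg h4] at h2
    exact h2 (zero_mem _)
  subst h4
  have h5 : (Function.update (fun j => cutE S (t j)) i ⟨g, hgS⟩) =
      fun j => cutE S (Function.update t i g j) := by
    funext j
    by_cases hj : j = i
    · rw [hj, Function.update_self, Function.update_self]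
      exact (cutE_coe ⟨g, hgS⟩).symm
    · rw [Function.update_of_ne hj, Function.update_of_ne hj]
  rw [h5, ← idl_Jw fun j _ => hS' j, ← sat_iff, coe_cutE (hS i)] at h3
  exact h3

end

end Pool.Agent.Lib.MP_4287a9_ag.Res
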