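import Pool.Agent.Lib.MP_4287a9_ag.ResOut

/-! Finiteness of the charts over `R[G / G a][v ^ ±]`. -/

namespace Pool.Agent.Lib.MP_4287a9_ag

variable {k R K : Type} [Field k] [CommRing R] [Field K] [Algebra k K] [Algebra R K] [Algebra k R]
  [IsScalarTower k R K] {n s : ℕ}

section ResFinAux

variable {ρ : ℕ}

/-- A monomial of degree `γ`. -/
def ResFinS (γ : Fin ρ → ℤ) (w : LA K ρ) : Prop := ∃ x : K, w = AddMonoidAlgebra.single γ x

theorem ResFin_of_deg {γ : Fin ρ → ℤ} {w : LA K ρ} (h : IsDeg γ w) : ResFinS γ w := by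
  refine ⟨w.coeff γ, ?_⟩
  apply AddMonoidAlgebra.coeff_injective
  ext β
  by_cases hβ : β = γ
  · subst hβ
    simp
  · rw [h β hβ, AddMonoidAlgebra.coeff_single, Finsupp.single_eq_of_ne hβ]

theorem ResFinS.deg {γ : Fin ρ → ℤ} {w : LA K ρ} (h : ResFinS γ w) : IsDeg γ w := by
  obtain ⟨x, rfl⟩ := h
  intro β hβ
  rw [AddMonoidAlgebra.coeff_single, Finsupp.single_eq_of_ne hβ]

theorem ResFinS.one : ResFinS 0 (1 : LA K ρ) := ⟨1, rfl⟩

theorem ResFinS.mul {γ β : Fin ρ → ℤ} {x y : LA K ρ} (hx : ResFinS γ x) (hy : ResFinS β y) :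
    ResFinS (γ + β) (x * y) := by
  obtain ⟨x, rfl⟩ := hx
  obtain ⟨y, rfl⟩ := hy
  exact ⟨x * y, AddMonoidAlgebra.single_mul_single _ _ _ _⟩

theorem ResFinS.pow {γ : Fin ρ → ℤ} {x : LA K ρ} (hx : ResFinS γ x) (j : ℕ) :
    ResFinS ((j : ℤ) • γ) (x ^ j) := by
  induction j with
  | zero => simpa using ResFinS.one
  | succ j ih =>
    rw [pow_succ, Nat.cast_succ, add_smul, one_smul]
    exact ih.mul hx

theorem ResFinS.inv {γ : Fin ρ → ℤ} {x : (LA K ρ)ˣ} (hx : ResFinS γ (x : LA K ρ)) :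
    ResFinS (-γ) ((x⁻¹ : (LA K ρ)ˣ) : LA K ρ) := by
  obtain ⟨y, hy⟩ := hx
  have hy0 : y ≠ 0 := by
    rintro rfl
    exact x.ne_zero (by rw [hy, AddMonoidAlgebra.single_zero])
  refine ⟨y⁻¹, Units.inv_eq_of_mul_eq_one_right ?_⟩
  rw [hy, AddMonoidAlgebra.single_mul_single, add_neg_cancel, mul_inv_cancel₀ hy0]
  rfl

theorem ResFinS.zpow {γ : Fin ρ → ℤ} {x : (LA K ρ)ˣ} (hx : ResFinS γ (x : LA K ρ)) (j : ℤ) :
    ResFinS (j • γ) ((x ^ j : (LA K ρ)ˣ) : LA K ρ) := by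
  obtain ⟨j, rfl | rfl⟩ := j.eq_nat_or_neg
  · rw [zpow_natCast, Units.val_pow_eq_pow_val]
    exact hx.pow j
  · rw [zpow_neg, zpow_natCast, neg_smul]
    refine ResFinS.inv ?_
    rw [Units.val_pow_eq_pow_val]
    exact hx.pow j

theorem ResFinS.prod {ι : Type} (t : Finset ι) {γ : ι → Fin ρ → ℤ} {x : ι → (LA K ρ)ˣ}
    (hx : ∀ i, ResFinS (γ i) (x i : LA K ρ)) :
    ResFinS (∑ i ∈ t, γ i) ((∏ i ∈ t, x i : (LA K ρ)ˣ) : LA K ρ) := by
  classical
  induction t using Finset.induction_on with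
  | empty => simpa using ResFinS.one
  | insert a s ha ih =>
    rw [Finset.sum_insert ha, Finset.prod_insert ha, Units.val_mul]
    exact (hx a).mul ih

theorem ResFin_zpow_mem (S : Subalgebra k (LA K ρ)) {x : (LA K ρ)ˣ} (h1 : (x : LA K ρ) ∈ S)
    (h2 : ((x⁻¹ : (LA K ρ)ˣ) : LA K ρ) ∈ S) (j : ℤ) : ((x ^ j : (LA K ρ)ˣ) : LA K ρ) ∈ S := by
  obtain ⟨j, rfl | rfl⟩ := j.eq_nat_or_neg
  · rw [zpow_natCast, Units.val_pow_eq_pow_val]
    exact S.pow_mem h1 j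
  · rw [zpow_neg, zpow_natCast, ← inv_pow, Units.val_pow_eq_pow_val]
    exact S.pow_mem h2 j

theorem ResFin_prod_mem (S : Subalgebra k (LA K ρ)) {v : Fin ρ → (LA K ρ)ˣ}
    (h1 : ∀ e, (v e : LA K ρ) ∈ S) (h2 : ∀ e, (((v e)⁻¹ : (LA K ρ)ˣ) : LA K ρ) ∈ S)
    (γ : Fin ρ → ℤ) : ((∏ e, v e ^ γ e : (LA K ρ)ˣ) : LA K ρ) ∈ S := by
  rw [Units.coe_prod]
  exact S.prod_mem fun e _ => ResFin_zpow_mem S (h1 e) (h2 e) _

theorem ResFin_ne {U : (LA K ρ)ˣ} {x : K} (h : (U : LA K ρ) = algebraMap K (LA K ρ) x) :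
    x ≠ 0 := by
  rintro rfl
  exact U.ne_zero (by rw [h, map_zero])

theorem ResFin_inv {U : (LA K ρ)ˣ} {x : K} (h : (U : LA K ρ) = algebraMap K (LA K ρ) x) :
    ((U⁻¹ : (LA K ρ)ˣ) : LA K ρ) = algebraMap K (LA K ρ) x⁻¹ := by
  refine Units.inv_eq_of_mul_eq_one_right ?_
  rw [h, ← map_mul, mul_inv_cancel₀ (ResFin_ne h), map_one]

/-- A homogeneous element of `B` is integral over `A` if the elements of degree zero are. -/
theorem ResFin_hom {A B : Subalgebra k (LA K ρ)} {mv : ℕ} (hmv : 0 < mv)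
    {v : Fin ρ → (LA K ρ)ˣ} (dv : ∀ e, IsDeg (Pi.single e (mv : ℤ)) (v e : LA K ρ))
    (hA : ∀ e, (v e : LA K ρ) ∈ A ∧ (((v e)⁻¹ : (LA K ρ)ˣ) : LA K ρ) ∈ A)
    (hB : ∀ e, (v e : LA K ρ) ∈ B ∧ (((v e)⁻¹ : (LA K ρ)ˣ) : LA K ρ) ∈ B)
    (h0 : ∀ z : K, algebraMap K (LA K ρ) z ∈ B → IsIntegral A (algebraMap K (LA K ρ) z))
    {σ : LA K ρ} (hσ : IsHom σ) (hσB : σ ∈ B) : IsIntegral A σ := by
  obtain ⟨γ, hγ⟩ := hσ
  have h1 := ((ResFin_of_deg hγ).pow mv).mul (ResFinS.prod Finset.univ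
    fun e => (ResFin_of_deg (dv e)).zpow (-γ e))
  have h2 : (mv : ℤ) • γ + ∑ e, (-γ e) • (Pi.single e (mv : ℤ) : Fin ρ → ℤ) = 0 := by
    funext e'
    simp [Finset.sum_apply, Pi.single_apply, mul_comm]
  rw [h2] at h1
  obtain ⟨z, hz⟩ := h1
  have hz' : σ ^ mv * ((∏ e, v e ^ (-γ e) : (LA K ρ)ˣ) : LA K ρ) = algebraMap K (LA K ρ) z := hz
  have h3 := h0 z (hz' ▸ B.mul_mem (B.pow_mem hσB mv)
    (ResFin_prod_mem B (fun e => (hB e).1) (fun e => (hB e).2) _))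
  have h4 : IsIntegral A ((∏ e, v e ^ γ e : (LA K ρ)ˣ) : LA K ρ) :=
    isIntegral_algebraMap (R := A)
      (x := ⟨_, ResFin_prod_mem A (fun e => (hA e).1) (fun e => (hA e).2) γ⟩)
  have h5 := h3.mul h4
  rw [← hz', mul_assoc, ← Units.val_mul, ← Finset.prod_mul_distrib] at h5
  simp only [← zpow_add, neg_add_cancel, zpow_zero, Finset.prod_const_one, Units.val_one,
    mul_one] at h5
  exact IsIntegral.of_pow hmv h5

/-- Finitely many monomials in the generators span. -/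
theorem ResFin_span {A B : Subalgebra k (LA K ρ)} {σ : Finset (LA K ρ)}
    (h1 : ∀ z ∈ σ, IsHom z) (hB : B = Algebra.adjoin k σ) (h2 : ∀ z ∈ σ, IsIntegral A z) :
    ∃ t : Finset (LA K ρ), (∀ z ∈ t, IsHom z ∧ z ∈ B) ∧
      ∀ w ∈ B, w ∈ Submodule.span A (t : Set (LA K ρ)) := by
  have hfg := fg_adjoin_of_finite (R := A) σ.finite_toSet h2
  rw [Algebra.adjoin_eq_span, Submodule.fg_span_iff_fg_span_finset_subset] at hfg
  obtain ⟨t, ht, he⟩ := hfg
  refine ⟨t, fun z hz => ?_, fun w hw => ?_⟩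
  · have hz' : z ∈ Submonoid.closure (σ : Set (LA K ρ)) := ht hz
    clear hz
    induction hz' using Submonoid.closure_induction with
    | mem x hx => exact ⟨h1 x hx, hB ▸ Algebra.subset_adjoin hx⟩
    | one => exact ⟨⟨0, ResFinS.one.deg⟩, B.one_mem⟩
    | mul x y _ _ hx hy =>
      obtain ⟨⟨γ, hγ⟩, hx⟩ := hx
      obtain ⟨⟨β, hβ⟩, hy⟩ := hy
      exact ⟨⟨_, ((ResFin_of_deg hγ).mul (ResFin_of_deg hβ)).deg⟩, B.mul_mem hx hy⟩
  · rw [← he, ← Algebra.adjoin_eq_span]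
    rw [hB] at hw
    have hle : Algebra.adjoin k (σ : Set (LA K ρ)) ≤
        (Algebra.adjoin A (σ : Set (LA K ρ))).restrictScalars k :=
      Algebra.adjoin_le Algebra.subset_adjoin
    exact hle hw

end ResFinAux

omit [Algebra k R] [IsScalarTower k R K] in
theorem ResFin_zero {d : ResOut k R K n s} {D₀ : Fin n → Derivation k K K}
    {𝔞 : Fin s → Ideal R} (h : d.Good D₀ 𝔞) (c : Fin s → ℕ) (a : Fin d.m)
    {A : Subalgebra k (LA K d.ρ)} (hR : ∀ r, inL R K d.ρ r ∈ A)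
    (hG : ∀ b, (((d.Fu b * ∏ i, d.fu b i ^ c i) * (d.Fu a * ∏ i, d.fu a i ^ c i)⁻¹ :
        (LA K d.ρ)ˣ) : LA K d.ρ) ∈ A) (z : K) (hz : algebraMap K (LA K d.ρ) z ∈ d.B a) :
    IsIntegral A (algebraMap K (LA K d.ρ) z) := by
  let F : Fin d.m → K := fun b => algebraMap R K (d.F b)
  let f : Fin d.m → Fin s → K := fun b i => algebraMap R K (d.f b i)
  let G : Fin d.m → K := fun b => F b * ∏ i, f b i ^ c i
  have hF : ∀ b, (d.Fu b : LA K d.ρ) = algebraMap K (LA K d.ρ) (F b) := h.hFu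
  have hf : ∀ b i, (d.fu b i : LA K d.ρ) = algebraMap K (LA K d.ρ) (f b i) := h.hfu
  have hGu : ∀ b, ((d.Fu b * ∏ i, d.fu b i ^ c i : (LA K d.ρ)ˣ) : LA K d.ρ) =
      algebraMap K (LA K d.ρ) (G b) := by
    intro b
    simp only [G, Units.val_mul, Units.coe_prod, Units.val_pow_eq_pow_val, hF, hf, map_mul,
      map_prod, map_pow]
  let S : Set K := Set.range (algebraMap R K) ∪ Set.range fun b => G b * (G a)⁻¹
  have hint : IsIntegral (Subring.closure S) z := by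
    have h1 : z ∈ (integralClosure (Subring.closure S) K).toSubring := by
      rw [← iInf_valuationSubring_superset, Subring.mem_iInf]
      rintro ⟨W, hW⟩
      obtain ⟨b, hb⟩ := h.cover W fun r => hW (Or.inl ⟨r, rfl⟩)
      have e1 : ((d.Fu a * (d.Fu b)⁻¹ : (LA K d.ρ)ˣ) : LA K d.ρ) =
          algebraMap K (LA K d.ρ) (F a * (F b)⁻¹) := by
        rw [Units.val_mul, ResFin_inv (hF b), hF a, map_mul]
      have m1 : ∀ i, f a i * (f b i)⁻¹ ∈ W := fun i => hb _ (by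
        rw [map_mul, ← ResFin_inv (hf b i)]
        exact h.fgen b i _ (h.fmem a i))
      have m2 : G b * (G a)⁻¹ ∈ W := hW (Or.inr ⟨b, rfl⟩)
      have m3 : F b * (F a)⁻¹ ∈ W := by
        have e2 : F b * (F a)⁻¹ = G b * (G a)⁻¹ * ∏ i, (f a i * (f b i)⁻¹) ^ c i := by
          have n1 : ∏ i, f a i ^ c i ≠ 0 :=
            Finset.prod_ne_zero_iff.2 fun i _ => pow_ne_zero _ (ResFin_ne (hf a i))
          have n2 : ∏ i, f b i ^ c i ≠ 0 :=
            Finset.prod_ne_zero_iff.2 fun i _ => pow_ne_zero _ (ResFin_ne (hf b i))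
          have n3 := ResFin_ne (hF a)
          simp only [G, mul_pow, inv_pow, Finset.prod_mul_distrib, Finset.prod_inv_distrib]
          field_simp
        rw [e2]
        exact mul_mem m2 (prod_mem fun i _ => pow_mem (m1 i) _)
      obtain ⟨e, he⟩ := h.hBB b a _ hz
      rw [Units.val_pow_eq_pow_val, e1, ← map_pow, ← map_mul] at he
      have m4 := mul_mem (pow_mem m3 e) (hb _ he)
      have n3 := ResFin_ne (hF a)
      have n4 := ResFin_ne (hF b)
      have e3 : F b * (F a)⁻¹ * (F a * (F b)⁻¹) = 1 := by field_simp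
      rw [← mul_assoc, ← mul_pow, e3, one_pow, one_mul] at m4
      exact m4
    exact h1
  have hSA : Subring.closure S ≤ A.toSubring.comap (algebraMap K (LA K d.ρ)) := by
    rw [Subring.closure_le]
    rintro x (⟨r, rfl⟩ | ⟨b, rfl⟩)
    · exact hR r
    · have h1 := hG b
      rw [Units.val_mul, ResFin_inv (hGu a), hGu b, ← map_mul] at h1
      exact h1
  exact hint.map_of_comp_eq (T := A)
    (((algebraMap K (LA K d.ρ)).comp (Subring.closure S).subtype).codRestrict A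
      fun x => hSA x.2) (algebraMap K (LA K d.ρ)) rfl

/-- Let `G a ∈ K` be the twisted element, `A = k[R, G b / G a] ⊆ K`. Claim: every `z : K` with
`algebraMap z ∈ B a` is integral over `A` (`iInf_valuationSubring_superset`): let `W ⊇ A` be a
valuation ring and `b` the chart from `cover`. `G a / G b` is a product of `F a / F b` and the
`f a i / f b i`, all in the degree zero part of `B b` (`Fdiv`, `fgen`), hence in `W`, and its
inverse is in `W`; so `F a / F b` is a unit of `W`, and `hBB` gives `z ∈ W`. A homogeneous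
generator `σ` of degree `γ` has `σ ^ mv * ∏ v c ^ (-γ c)` of degree zero in `B a`, so `σ` is
integral over `A[v ^ ±]`; take for `om a` the monomials in the generators with bounded exponents
(pad with `0` to get the same number `no` for all charts). -/
theorem ResOut.Good.fin {d : ResOut k R K n s} {D₀ : Fin n → Derivation k K K}
    {𝔞 : Fin s → Ideal R} (h : d.Good D₀ 𝔞) (c : Fin s → ℕ) : d.Fin' c := by
  classical
  have key : ∀ a, ∃ t : Finset (LA K d.ρ), (∀ z ∈ t, IsHom z ∧ z ∈ d.B a) ∧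
      ∀ w ∈ d.B a, w ∈ Submodule.span (Algebra.adjoin k (Set.range (inL R K d.ρ) ∪
      Set.range (fun b => (((d.Fu b * ∏ i, d.fu b i ^ c i) * (d.Fu a * ∏ i, d.fu a i ^ c i)⁻¹ :
        (LA K d.ρ)ˣ) : LA K d.ρ)) ∪
      Set.range (fun e => (d.v a e : LA K d.ρ)) ∪
      Set.range fun e => (((d.v a e)⁻¹ : (LA K d.ρ)ˣ) : LA K d.ρ))) (t : Set (LA K d.ρ)) := by
    intro a
    obtain ⟨σ, h1, h2⟩ := h.fg a
    refine ResFin_span h1 h2 fun z hz => ?_
    refine ResFin_hom h.hmv (h.dv a) (fun e => ⟨Algebra.subset_adjoin (Or.inl (Or.inr ⟨e, rfl⟩)),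
      Algebra.subset_adjoin (Or.inr ⟨e, rfl⟩)⟩) (h.hv a) ?_ (h1 z hz)
      (h2 ▸ Algebra.subset_adjoin hz)
    exact ResFin_zero h c a (fun r => Algebra.subset_adjoin (Or.inl (Or.inl (Or.inl ⟨r, rfl⟩))))
      fun b => Algebra.subset_adjoin (Or.inl (Or.inl (Or.inr ⟨b, rfl⟩)))
  choose t ht hsp using key
  let u : Finset (LA K d.ρ) := Finset.univ.biUnion t
  refine ⟨u.card, fun a i => if (u.equivFin.symm i : LA K d.ρ) ∈ t a then u.equivFin.symm i else 0,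
    fun a i => ?_, fun a w hw => Submodule.span_mono ?_ (hsp a w hw)⟩
  · beta_reduce
    split_ifs with hi
    · exact ht a _ hi
    · exact ⟨⟨0, fun β _ => by simp⟩, (d.B a).zero_mem⟩
  · intro z hz
    refine ⟨u.equivFin ⟨z, Finset.mem_biUnion.2 ⟨a, Finset.mem_univ _, hz⟩⟩, ?_⟩
    beta_reduce
    rw [Equiv.symm_apply_apply, if_pos (Finset.mem_coe.1 hz)]

end Pool.Agent.Lib.MP_4287a9_ag
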