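import Pool.Agent.Lib.MP_4287a9_ag.ResB2

/-! Images of subalgebras under homomorphisms that are defined on a subalgebra. -/

namespace Pool.Agent.Lib.MP_4287a9_ag.Res

variable {k K : Type} [Field k] [Field K] [Algebra k K] {N : ℕ}

section Img

variable {L L' : Type} [CommRing L] [Algebra k L] [CommRing L'] [Algebra k L']

/-- A map that is a `k`-algebra homomorphism on the subalgebra `S₀`. -/
structure HomOn (S₀ : Subalgebra k L) (f : L → L') : Prop where
  add : ∀ a ∈ S₀, ∀ b ∈ S₀, f (a + b) = f a + f b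
  mul : ∀ a ∈ S₀, ∀ b ∈ S₀, f (a * b) = f a * f b
  alg : ∀ c : k, f (algebraMap k L c) = algebraMap k L' c

/-- The image of a subalgebra. -/
def img (f : L → L') (S : Subalgebra k L) : Subalgebra k L' :=
  Algebra.adjoin k (f '' (S : Set L))

variable {S₀ S : Subalgebra k L} {f : L → L'}

theorem HomOn.one (h : HomOn S₀ f) : f 1 = 1 := by
  simpa using h.alg 1

theorem HomOn.zero (h : HomOn S₀ f) : f 0 = 0 := by
  simpa using h.alg 0

/-- The homomorphism on a smaller subalgebra. -/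
def resImgHom (h : HomOn S₀ f) (hS : S ≤ S₀) : S →ₐ[k] L' where
  toFun a := f a
  map_one' := h.one
  map_mul' a b := h.mul a (hS a.2) b (hS b.2)
  map_zero' := h.zero
  map_add' a b := h.add a (hS a.2) b (hS b.2)
  commutes' c := h.alg c

theorem HomOn.pow (h : HomOn S₀ f) {a : L} (ha : a ∈ S₀) (m : ℕ) : f (a ^ m) = f a ^ m :=
  map_pow (resImgHom h le_rfl) ⟨a, ha⟩ m

theorem HomOn.prod (h : HomOn S₀ f) {ι : Type} {s : Finset ι} {a : ι → L}
    (ha : ∀ i ∈ s, a i ∈ S₀) : f (∏ i ∈ s, a i) = ∏ i ∈ s, f (a i) := by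
  classical
  induction s using Finset.induction_on with
  | empty => simpa using h.one
  | insert i s hi ih =>
    have h1 : ∀ j ∈ s, a j ∈ S₀ := fun j hj => ha j (Finset.mem_insert_of_mem hj)
    rw [Finset.prod_insert hi, Finset.prod_insert hi,
      h.mul _ (ha i (Finset.mem_insert_self i s)) _ (prod_mem h1), ih h1]

theorem HomOn.mem_img (h : HomOn S₀ f) (hS : S ≤ S₀) {z : L'} :
    z ∈ img f S ↔ ∃ a ∈ S, f a = z := by
  refine ⟨fun hz => ?_, fun ⟨a, ha, e⟩ => Algebra.subset_adjoin ⟨a, ha, e⟩⟩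
  have : img f S ≤ (resImgHom h hS).range :=
    Algebra.adjoin_le fun _ ⟨a, ha, e⟩ => ⟨⟨a, ha⟩, e⟩
  obtain ⟨a, e⟩ := this hz
  exact ⟨a, a.2, e⟩

theorem img_mono {S' : Subalgebra k L} (h : S ≤ S') : img f S ≤ img f S' :=
  Algebra.adjoin_mono (Set.image_mono h)

theorem HomOn.img_adjoin (h : HomOn S₀ f) {s : Set L} (hs : ∀ a ∈ s, a ∈ S₀) :
    img f (Algebra.adjoin k s) = Algebra.adjoin k (f '' s) := by
  have hS : Algebra.adjoin k s ≤ S₀ := Algebra.adjoin_le hs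
  refine le_antisymm (Algebra.adjoin_le ?_)
    (Algebra.adjoin_mono (Set.image_mono Algebra.subset_adjoin))
  rintro _ ⟨a, ha, rfl⟩
  change f a ∈ Algebra.adjoin k (f '' s)
  induction ha using Algebra.adjoin_induction with
  | mem x hx => exact Algebra.subset_adjoin ⟨x, hx, rfl⟩
  | algebraMap c => rw [h.alg]; exact Subalgebra.algebraMap_mem _ c
  | add x y hx hy ix iy => rw [h.add x (hS hx) y (hS hy)]; exact add_mem ix iy
  | mul x y hx hy ix iy => rw [h.mul x (hS hx) y (hS hy)]; exact mul_mem ix iy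

theorem HomOn.unitIn (h : HomOn S₀ f) (hS : S ≤ S₀) {a : L} (ha : UnitIn S a) :
    UnitIn (img f S) (f a) := by
  obtain ⟨h1, υ, h2, e⟩ := ha
  exact ⟨(h.mem_img hS).2 ⟨a, h1, rfl⟩, f υ, (h.mem_img hS).2 ⟨υ, h2, rfl⟩,
    by rw [← h.mul a (hS h1) υ (hS h2), e, h.one]⟩

theorem HomOn.mem_pr1 (h : HomOn S₀ f) (hS : S ≤ S₀) {a b : L} (hb : b ∈ S₀) (ha : a ∈ pr1 S b) :
    f a ∈ pr1 (img f S) (f b) := by
  obtain ⟨c, hc, rfl⟩ := Res.mem_pr1.1 ha
  exact Res.mem_pr1.2 ⟨f c, (h.mem_img hS).2 ⟨c, hc, rfl⟩, h.mul c (hS hc) b hb⟩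

theorem HomOn.exists_unit (h : HomOn S₀ f) {σ : Lˣ} (hσ : UnitIn S₀ (σ : L)) :
    ∃ σ' : L'ˣ, (σ' : L') = f σ := by
  obtain ⟨-, υ, -, e⟩ := h.unitIn le_rfl hσ
  exact ⟨Units.mkOfMulEqOne _ _ e, rfl⟩

theorem HomOn.img_away (h : HomOn S₀ f) (hS : S ≤ S₀) {σ : Lˣ} (hσ : UnitIn S₀ (σ : L))
    {σ' : L'ˣ} (hσ' : (σ' : L') = f σ) : img f (away S σ) = away (img f S) σ' := by
  obtain ⟨h1, υ, h2, e⟩ := hσ
  have e1 : ((σ⁻¹ : Lˣ) : L) = υ := Units.inv_eq_of_mul_eq_one_right e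
  have e2 : ((σ'⁻¹ : L'ˣ) : L') = f υ :=
    Units.inv_eq_of_mul_eq_one_right (by rw [hσ', ← h.mul _ h1 _ h2, e, h.one])
  rw [away, away, h.img_adjoin, Set.image_union, Set.image_singleton, e1, e2, img,
    Algebra.adjoin_union, Algebra.adjoin_union, Algebra.adjoin_eq]
  rintro a (ha | ha)
  · exact hS ha
  · rw [ha, e1]
    exact h2

/-- Pull the derivation back along the surjection `S → img f S` (`Module.compHom`). -/
theorem HomOn.unr (h : HomOn S₀ f) (hS : S ≤ S₀) {T : Set L} (hU : Unr S T) {T' : Set L'}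
    (hT : ∀ a ∈ T, a ∈ S → f a = 0 ∨ f a ∈ T') : Unr (img f S) T' := by
  intro M _ _ _ _ D hD
  let φ : S →ₐ[k] img f S :=
    (resImgHom h hS).codRestrict _ fun a => (h.mem_img hS).2 ⟨a, a.2, rfl⟩
  let _ : Module S M := Module.compHom M φ.toRingHom
  have hs : ∀ (a : S) (m : M), a • m = φ a • m := fun _ _ => rfl
  have : IsScalarTower k S M := ⟨fun c a m => by rw [hs, hs, map_smul, smul_assoc]⟩
  have key := resA2_apply hU (D.toLinearMap.comp φ.toLinearMap)
    (fun a b => by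
      change D (φ (a * b)) = φ a • D (φ b) + φ b • D (φ a)
      rw [map_mul, D.leibniz])
    (fun y hy => by
      change D (φ y) = 0
      rcases hT y hy y.2 with e | e
      · rw [show φ y = 0 from Subtype.ext e, map_zero]
      · exact hD _ e)
  ext z
  obtain ⟨a, ha, e⟩ := (h.mem_img hS).1 z.2
  rw [show z = φ ⟨a, ha⟩ from Subtype.ext e.symm]
  exact key ⟨a, ha⟩

end Img

/-- Coefficientwise reduction (`AddMonoidAlgebra.ofCoeff (Finsupp.mapRange ..)` with the map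
`a ↦ if h : a ∈ O then π ⟨a, h⟩ else 0`). -/
theorem exists_red {K' : Type} [Field K'] [Algebra k K'] {O : Subalgebra k K} (π : O →ₐ[k] K') :
    ∃ f : LL K → LL K', HomOn (OL O) f ∧ (∀ (γ : Gam) (a : O), f (sg γ (a : K)) = sg γ (π a)) ∧
      ∀ z ∈ OL O, ∀ (γ : Gam) (a : O), z.coeff γ = (a : K) → (f z).coeff γ = π a := by
  classical
  obtain ⟨g, hg, hg0⟩ : ∃ g : K → K', (∀ a : O, g a = π a) ∧ g 0 = 0 :=
    ⟨fun a => if h : a ∈ O then π ⟨a, h⟩ else 0, fun a => dif_pos a.2,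
      (dif_pos O.zero_mem).trans (map_zero π)⟩
  obtain ⟨f, hf⟩ : ∃ f : LL K → LL K', ∀ z γ, (f z).coeff γ = g (z.coeff γ) :=
    ⟨fun z => AddMonoidAlgebra.ofCoeff (Finsupp.mapRange g hg0 z.coeff), fun _ _ => rfl⟩
  have hsg : ∀ (γ : Gam) (a : O), f (sg γ (a : K)) = sg γ (π a) := by
    intro γ a
    ext β
    rw [hf]
    by_cases e : γ = β
    · subst e
      simp [hg]
    · simp [e, hg0]
  have hadd : ∀ a ∈ OL O, ∀ b ∈ OL O, f (a + b) = f a + f b := by
    intro a ha b hb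
    ext γ
    have := map_add π ⟨_, mem_OL.1 ha γ⟩ ⟨_, mem_OL.1 hb γ⟩
    rw [← hg, ← hg, ← hg] at this
    simpa [hf] using this
  have h0 : f 0 = 0 := by
    ext γ
    simp [hf, hg0]
  have hind : ∀ {P : LL K → Prop}, P 0 → (∀ γ (a : O), P (sg γ (a : K))) →
      (∀ a ∈ OL O, ∀ b ∈ OL O, P a → P b → P (a + b)) → ∀ z ∈ OL O, P z := by
    intro P p0 p1 p2 z hz
    have hp : ∀ γ, prj γ z ∈ OL O := fun γ => sg_mem_OL.2 (mem_OL.1 hz γ)
    rw [← sum_prj z]
    induction z.coeff.support using Finset.induction_on with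
    | empty => simpa using p0
    | insert γ s hγ ih =>
      rw [Finset.sum_insert hγ]
      exact p2 _ (hp γ) _ (sum_mem fun β _ => hp β) (p1 γ ⟨_, mem_OL.1 hz γ⟩) ih
  refine ⟨f, ⟨hadd, fun a ha b hb => ?_, fun c => ?_⟩, hsg, fun z _ γ a e => by rw [hf, e, hg]⟩
  · refine hind (P := fun a => f (a * b) = f a * f b) (by rw [zero_mul, h0, zero_mul]) ?_ ?_ a ha
    · intro γ a
      refine hind (P := fun b => f (sg γ (a : K) * b) = f (sg γ (a : K)) * f b)
        (by rw [mul_zero, h0, mul_zero]) ?_ ?_ b hb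
      · intro β b
        rw [sg_mul, hsg, hsg, sg_mul, ← map_mul]
        exact hsg _ (a * b)
      · intro x hx y hy ix iy
        have := sg_mem_OL (γ := γ).2 a.2
        rw [mul_add, hadd _ (mul_mem this hx) _ (mul_mem this hy), ix, iy, hadd x hx y hy, mul_add]
    · intro x hx y hy ix iy
      rw [add_mul, hadd _ (mul_mem hx hb) _ (mul_mem hy hb), ix, iy, hadd x hx y hy, add_mul]
  · rw [algebraMap_eq_sg, algebraMap_eq_sg, ← π.commutes c]
    exact hsg 0 (algebraMap k O c)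

end Pool.Agent.Lib.MP_4287a9_ag.Res
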