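import Pool.Agent.Lib.MP_4287a9_ag.ResB4

/-! The Jacobian of a chart. -/

namespace Pool.Agent.Lib.MP_4287a9_ag.Res

variable {k K : Type} [Field k] [Field K] [Algebra k K] {N : ℕ}

variable {A : Amb k K N} {ρ : ℕ} {c : Chart k K N}

/-- `j` is the inverse of the Jacobian determinant of the coordinates. -/
def Chart.IsJac (A : Amb k K N) (ρ : ℕ) (c : Chart k K N) (j : (LL K)ˣ) : Prop :=
  (j : LL K) * (Matrix.of fun i l => amb A.D0 (Fin.val : Fin ρ → ℕ) i (c.yy ρ l)).det = 1

/-- The logarithmic Jacobian is a monomial. -/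
def Chart.JMono (A : Amb k K N) (ρ : ℕ) (c : Chart k K N) : Prop :=
  ∃ j : (LL K)ˣ, c.IsJac A ρ j ∧ c.Mono ρ ((j : LL K) * ∏ e ∈ Finset.range ρ, c.y e)

theorem resJac1_sum {ι : Type} [Fintype ι] (f : ι → Derivation k (LL K) (LL K)) (z : LL K) :
    (∑ l, f l) z = ∑ l, f l z := by
  have h1 := congrFun (map_sum Derivation.coeFnAddMonoidHom f Finset.univ) z
  rw [Finset.sum_apply] at h1
  exact h1

theorem resJac1_det {n : ℕ} {S : Subalgebra k (LL K)} {P : Matrix (Fin n) (Fin n) (LL K)}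
    (h : ∀ i l, P i l ∈ S) : P.det ∈ S := by
  rw [Matrix.det_apply']
  exact sum_mem fun σ _ => mul_mem (intCast_mem _ _) (prod_mem fun i _ => h _ _)

/-- Chain rule: `δ - Σ l, δ (yy l) • D l` kills the coordinates (`Unr.eq_zero`). -/
theorem Chart.Good.chain (h : c.Good A ρ) {D : Fin (N + ρ) → Derivation k (LL K) (LL K)}
    (hD : ∀ i j, D i (c.yy ρ j) = if i = j then 1 else 0) (δ : Derivation k (LL K) (LL K))
    {z : LL K} (hz : z ∈ c.B) : δ z = ∑ l, δ (c.yy ρ l) * D l z := by
  have h1 := h.unr.eq_zero (δ - ∑ l, δ (c.yy ρ l) • D l) (by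
    rw [← c.range_yy]
    rintro _ ⟨j, rfl⟩
    rw [Derivation.sub_apply, resJac1_sum]
    simp [hD]) hz
  rw [Derivation.sub_apply, resJac1_sum, sub_eq_zero] at h1
  exact h1

/-- The multiplier of a row. -/
noncomputable def resJac1_s (c : Chart k K N) (ρ : ℕ) : Fin (N + ρ) → LL K :=
  Fin.append (fun i => if c.lab i = none then 1 else c.t i) fun _ : Fin ρ => 1

theorem resJac1_s_mem (h : c.Good A ρ) (l : Fin (N + ρ)) : resJac1_s c ρ l ∈ c.B := by
  refine Fin.addCases (fun i => ?_) (fun e => ?_) l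
  · rw [resJac1_s, Fin.append_left]
    split_ifs
    · exact one_mem _
    · exact h.tmem i
  · rw [resJac1_s, Fin.append_right]
    exact one_mem _

theorem resJac1_prod (h : c.Good A ρ) :
    ∏ l, resJac1_s c ρ l = ∏ e ∈ Finset.range ρ, c.y e := by
  rw [Fin.prod_univ_add]
  simp only [resJac1_s, Fin.append_left, Fin.append_right, Finset.prod_const_one, mul_one]
  unfold Chart.y
  rw [Finset.prod_comm]
  refine Finset.prod_congr rfl fun i _ => ?_
  cases hi : c.lab i with
  | none => simp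
  | some e =>
    rw [if_neg (Option.some_ne_none e), Finset.prod_eq_single e, if_pos rfl]
    · intro e' _ he
      exact if_neg fun h' => he (Option.some.inj h').symm
    · intro he
      exact absurd (Finset.mem_range.2 (h.lt i e hi)) he

theorem resJac1_log (h : c.Good A ρ) {D : Fin (N + ρ) → Derivation k (LL K) (LL K)}
    (hP : ∀ i, Pres c.B (D i)) (hD : ∀ i j, D i (c.yy ρ j) = if i = j then 1 else 0)
    (l : Fin (N + ρ)) {z : LL K} (hz : c.Mono ρ z) :
    ∃ b ∈ c.B, resJac1_s c ρ l * D l z = b * z := by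
  have hmul : ∀ z z' : LL K, (∃ b ∈ c.B, resJac1_s c ρ l * D l z = b * z) →
      (∃ b ∈ c.B, resJac1_s c ρ l * D l z' = b * z') →
      ∃ b ∈ c.B, resJac1_s c ρ l * D l (z * z') = b * (z * z') := by
    rintro z z' ⟨b, hb, e⟩ ⟨b', hb', e'⟩
    refine ⟨b + b', add_mem hb hb', ?_⟩
    rw [Derivation.leibniz, smul_eq_mul, smul_eq_mul]
    linear_combination z * e' + z' * e
  have hone : ∃ b ∈ c.B, resJac1_s c ρ l * D l 1 = b * 1 :=
    ⟨0, zero_mem _, by rw [Derivation.map_one_eq_zero, mul_zero, zero_mul]⟩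
  obtain ⟨υ, ⟨hυ, υ', hυ', hm⟩, a, rfl⟩ := hz
  refine hmul _ _ ⟨resJac1_s c ρ l * D l υ * υ',
    mul_mem (mul_mem (resJac1_s_mem h l) (hP l υ hυ)) hυ', by
      rw [mul_assoc _ υ', mul_comm υ', hm, mul_one]⟩ ?_
  refine Finset.prod_induction _ (fun z => ∃ b ∈ c.B, resJac1_s c ρ l * D l z = b * z) hmul hone
    fun e _ => ?_
  have hy : ∃ b ∈ c.B, resJac1_s c ρ l * D l (c.y e) = b * c.y e := by
    by_cases he : ∃ i, c.lab i = some e
    · obtain ⟨i, hi⟩ := he
      have h1 := hD l (Fin.castAdd ρ i)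
      rw [Chart.yy, Fin.append_left] at h1
      rw [h.y_eq hi, h1]
      split_ifs with h2
      · refine ⟨1, one_mem _, ?_⟩
        rw [h2, resJac1_s, Fin.append_left, hi, if_neg (Option.some_ne_none e), mul_comm]
      · exact ⟨0, zero_mem _, by rw [mul_zero, zero_mul]⟩
    · rw [Chart.y_eq_one fun i hi => he ⟨i, hi⟩]
      exact hone
  induction a e with
  | zero => rw [pow_zero]; exact hone
  | succ n ih => rw [pow_succ]; exact hmul _ _ ih hy

/-- By the chain rule the inverse of the Jacobian matrix has the entries `D l (sg 0 (x0 a))` and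
`D l τ / τ`. Multiply the row `l` by `t l` if `l` is labelled; the entries are then in `c.B`, because
`τ = υ * ∏ y e ^ a e`, and `∏_(e < ρ) y e` is the product of the labelled `t l`. -/
theorem Chart.Good.jlog_mem [CharZero k] (hA : A.Good) (h : c.Good A ρ) {j : (LL K)ˣ}
    (hj : c.IsJac A ρ j) : (j : LL K) * ∏ e ∈ Finset.range ρ, c.y e ∈ c.B := by
  obtain ⟨D, -, -, hP, hD, -⟩ := h.exists_dual_all hA
  set z : Fin (N + ρ) → LL K :=
    Fin.append (fun a => sg 0 (A.x0 a)) fun e : Fin ρ => (tau K e : LL K) with hz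
  set r : Fin (N + ρ) → (LL K)ˣ := Fin.append (fun _ => 1) fun e : Fin ρ => tau K e with hr
  have hzB : ∀ m, z m ∈ c.B := fun m => by
    refine Fin.addCases (fun a => ?_) (fun e => ?_) m
    · rw [hz, Fin.append_left]
      exact h.base _ (hA.mem a)
    · rw [hz, Fin.append_right]
      exact h.mono_mem (h.tauMono e e.2)
  have hE : (Matrix.of fun i l => amb A.D0 (Fin.val : Fin ρ → ℕ) i (c.yy ρ l)) *
      (Matrix.of fun l m => D l (z m)) = Matrix.diagonal fun m => (r m : LL K) := by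
    ext1 i m
    rw [Matrix.mul_apply]
    simp only [Matrix.of_apply]
    rw [← h.chain hD _ (hzB m), Matrix.diagonal_apply]
    refine Fin.addCases (fun a => ?_) (fun e => ?_) m
    · rw [hz, Fin.append_left, resB3_amb]
      refine Fin.addCases (fun a' => ?_) (fun e' => ?_) i
      · rw [resB3_m, Fin.append_left, hA.dual, hr, Fin.append_left]
        by_cases h1 : a' = a
        · rw [if_pos h1, if_pos (by rw [h1])]
          rfl
        · rw [if_neg h1, if_neg fun h2 => h1 (Fin.castAdd_injective _ _ h2), resB3_zero]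
      · rw [resB3_m, Fin.append_right, if_neg fun h2 => ?_]
        · simp
        · have h3 := congrArg Fin.val h2
          simp only [Fin.val_castAdd, Fin.val_natAdd] at h3
          omega
    · rw [hz, Fin.append_right, tau, coe_hu, resB3_amb]
      refine Fin.addCases (fun a' => ?_) (fun e' => ?_) i
      · rw [resB3_m, Fin.append_left, if_neg fun h2 => ?_]
        · simp
        · have h3 := congrArg Fin.val h2
          simp only [Fin.val_castAdd, Fin.val_natAdd] at h3
          omega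
      · rw [resB3_m, Fin.append_right, hr, Fin.append_right]
        by_cases h1 : e' = e
        · rw [if_pos (by rw [h1]), h1, Pi.single_eq_same, tau, coe_hu]
          simp
        · rw [if_neg fun h2 => h1 (Fin.natAdd_injective _ _ h2),
            Pi.single_eq_of_ne fun h2 => h1 (Fin.ext h2)]
          simp
  have h1 := congrArg Matrix.det hE
  rw [Matrix.det_mul, Matrix.det_diagonal] at h1
  have h2 : (Matrix.of fun l m => resJac1_s c ρ l * (((r m)⁻¹ : (LL K)ˣ) * D l (z m))).det ∈ c.B := by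
    refine resJac1_det fun l m => ?_
    rw [Matrix.of_apply]
    refine Fin.addCases (fun a => ?_) (fun e => ?_) m
    · rw [hr, Fin.append_left, inv_one, Units.val_one, one_mul]
      exact mul_mem (resJac1_s_mem h l) (hP l _ (hzB _))
    · obtain ⟨b, hb, e1⟩ := resJac1_log h hP hD l (h.tauMono e e.2)
      rw [hr, hz, Fin.append_right, Fin.append_right, mul_left_comm, e1, mul_left_comm,
        Units.inv_mul, mul_one]
      exact hb
  have h3 := Matrix.det_mul_column (resJac1_s c ρ)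
    (Matrix.of fun l m => (((r m)⁻¹ : (LL K)ˣ) : LL K) * D l (z m))
  have h4 := Matrix.det_mul_row (fun m => (((r m)⁻¹ : (LL K)ˣ) : LL K))
    (Matrix.of fun l m => D l (z m))
  simp only [Matrix.of_apply] at h3 h4
  rw [h3, h4, resJac1_prod h] at h2
  have h5 : (∏ m, (((r m)⁻¹ : (LL K)ˣ) : LL K)) * ∏ m, (r m : LL K) = 1 := by
    rw [← Finset.prod_mul_distrib]
    simp
  have h6 : (∏ m, (((r m)⁻¹ : (LL K)ˣ) : LL K)) * (Matrix.of fun l m => D l (z m)).det = j := by
    have h7 : (j : LL K) * _ = 1 := hj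
    rw [← h1] at h5
    linear_combination (j : LL K) * h5 -
      ((∏ m, (((r m)⁻¹ : (LL K)ˣ) : LL K)) * (Matrix.of fun l m => D l (z m)).det) * h7
  rw [h6, mul_comm] at h2
  exact h2

/-- `det (amb (yy')) = det (amb (yy)) * det (D (yy'))`, and `D` preserves `away c.B r`; the chain
rule extends to `away c.B r` (apply `chain` to `c.loc r`). -/
theorem Chart.Good.jac_div [CharZero k] (hA : A.Good) (h : c.Good A ρ) {c' : Chart k K N}
    (h' : c'.Good A ρ) {r : (LL K)ˣ} (hr : (r : LL K) ∈ c.B) (hrh : Hm (r : LL K))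
    (hle : c'.B ≤ away c.B r) {j j' : (LL K)ˣ} (hj : c.IsJac A ρ j) (hj' : c'.IsJac A ρ j') :
    ((j / j' : (LL K)ˣ) : LL K) ∈ away c.B r := by
  have h1 := h.loc hr hrh
  obtain ⟨D, -, -, hP, hD, -⟩ := h1.exists_dual_all hA
  have hE : (Matrix.of fun i l => amb A.D0 (Fin.val : Fin ρ → ℕ) i (c.yy ρ l)) *
      (Matrix.of fun l m => D l (c'.yy ρ m)) =
      Matrix.of fun i l => amb A.D0 (Fin.val : Fin ρ → ℕ) i (c'.yy ρ l) := by
    ext1 i m
    rw [Matrix.mul_apply]
    simp only [Matrix.of_apply]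
    exact (h1.chain hD _ (hle (h'.yy_mem m))).symm
  have h2 := congrArg Matrix.det hE
  rw [Matrix.det_mul] at h2
  have h3 : (Matrix.of fun l m => D l (c'.yy ρ m)).det ∈ away c.B r :=
    resJac1_det fun l m => hP l _ (hle (h'.yy_mem m))
  have h4 : (j : LL K) * _ = 1 := hj
  have h5 : (j' : LL K) * _ = 1 := hj'
  have h6 : ((j / j' : (LL K)ˣ) : LL K) = (Matrix.of fun l m => D l (c'.yy ρ m)).det := by
    rw [div_eq_mul_inv, Units.val_mul, Units.inv_eq_of_mul_eq_one_right h5, ← h2, ← mul_assoc, h4,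
      one_mul]
  rw [h6]
  exact h3

/-- The entries of the Jacobian matrix lie in `away c.B g` (`GrA.pres_euler`), so `g ^ M * j⁻¹ ∈ c.B`. -/
theorem Chart.Good.jlog_dvd [CharZero k] (h : c.Good A ρ) {j : (LL K)ˣ} (hj : c.IsJac A ρ j)
    {g : (LL K)ˣ} (hg : c.Mono ρ (g : LL K))
    (hD : ∀ a, Pres (away c.B g) (aD (A.D0 a) (0 : Gam →+ K))) :
    ∃ b ∈ c.B, c.Mono ρ (((j : LL K) * ∏ e ∈ Finset.range ρ, c.y e) * b) := by
  have h1 : (Matrix.of fun i l => amb A.D0 (Fin.val : Fin ρ → ℕ) i (c.yy ρ l)).det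
      ∈ away c.B g := by
    refine resJac1_det fun i l => ?_
    rw [Matrix.of_apply]
    refine Fin.addCases (fun a => ?_) (fun e => ?_) i
    · rw [amb, Fin.append_left]
      exact hD a _ (le_away g (h.yy_mem l))
    · rw [amb, Fin.append_right]
      exact le_away g (h.grA.pres_euler e _ (h.yy_mem l))
  obtain ⟨m, hm⟩ := (mem_away (h.mono_mem hg)).1 h1
  refine ⟨_, hm, ?_⟩
  have h4 : (j : LL K) * _ = 1 := hj
  have h5 : ((j : LL K) * ∏ e ∈ Finset.range ρ, c.y e) * ((g : LL K) ^ m *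
      (Matrix.of fun i l => amb A.D0 (Fin.val : Fin ρ → ℕ) i (c.yy ρ l)).det) =
      (∏ e ∈ Finset.range ρ, c.y e) * (g : LL K) ^ m := by
    linear_combination ((∏ e ∈ Finset.range ρ, c.y e) * (g : LL K) ^ m) * h4
  rw [h5]
  exact (Chart.Mono.prod fun e he => Chart.mono_y (Finset.mem_range.1 he)).mul (hg.pow m)

end Pool.Agent.Lib.MP_4287a9_ag.Res
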