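import Pool.Agent.Lib.MP_4287a9_ag.ResB4
import Pool.Agent.Lib.MP_4287a9_ag.ResMod
import Pool.Agent.Lib.MP_4287a9_ag.ResW

/-! Refinement of a system of charts. -/

namespace Pool.Agent.Lib.MP_4287a9_ag.Res

variable {k K : Type} [Field k] [Field K] [Algebra k K] {N : ℕ}

variable {A : Amb k K N} {ρ : ℕ}

theorem resRef_hu_div (a b : Kˣ) : (hu 0 a / hu 0 b : (LL K)ˣ) = hu 0 (a / b) := by
  rw [div_eq_mul_inv, div_eq_mul_inv, hu_inv, hu_mul]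
  simp

theorem resRef_hu_mul_pow (a b : Kˣ) (M : ℕ) :
    (hu 0 (a * b ^ M) : (LL K)ˣ) = hu 0 a * hu 0 b ^ M := by
  rw [hu_pow, hu_mul]
  simp

theorem resRef_sg_inj {a b : K} (h : sg 0 a = sg 0 b) : a = b := by
  have := congrArg (fun z : LL K => z.coeff 0) h
  simpa using this

theorem resRef_sg_pow (a : K) (n : ℕ) : sg 0 a ^ n = sg 0 (a ^ n) := by
  induction n with
  | zero => simp [AddMonoidAlgebra.one_def]
  | succ n ih => rw [pow_succ, ih, sg_mul, pow_succ, add_zero]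

theorem resRef_unit_inv {S : Subalgebra k (LL K)} {a : LL K} (h : UnitIn S a) :
    ∃ b, UnitIn S b ∧ a * b = 1 := by
  obtain ⟨ha, b, hb, hab⟩ := h
  exact ⟨b, ⟨hb, a, ha, by rw [mul_comm, hab]⟩, hab⟩

theorem resRef_unit_away {S : Subalgebra k (LL K)} {σ : (LL K)ˣ} (hσ : (σ : LL K) ∈ S) :
    UnitIn (away S σ) (σ : LL K) :=
  unitIn_coe.2 ⟨le_away σ hσ, inv_mem_away σ⟩

/-- The two descriptions of the ring where `σ` and `F` are inverted. -/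
theorem resRef_away_eq {S : Subalgebra k (LL K)} {σ F z : (LL K)ˣ} (hF : (F : LL K) ∈ S)
    (hz : UnitIn (away S σ) (z : LL K)) {M : ℕ} (hM : 0 < M) :
    away (away S σ) (z * F ^ M) =
      Algebra.adjoin k ((away S F : Set (LL K)) ∪ {((σ⁻¹ : (LL K)ˣ) : LL K)}) := by
  change _ = away (away S F) σ
  obtain ⟨hz1, hz2⟩ := unitIn_coe.1 hz
  have h1 : away S σ ≤ away (away S F) σ :=
    away_le ((le_away F).trans (le_away σ)) (inv_mem_away σ)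
  apply le_antisymm
  · refine away_le h1 ?_
    rw [mul_inv, ← inv_pow, Units.val_mul, Units.val_pow_eq_pow_val]
    exact mul_mem (h1 hz2) (pow_mem (le_away σ (inv_mem_away F)) M)
  · refine away_le (away_le ((le_away σ).trans (le_away _)) ?_) (le_away _ (inv_mem_away σ))
    obtain ⟨M, rfl⟩ : ∃ M', M = M' + 1 := ⟨M - 1, by omega⟩
    have e : (F⁻¹ : (LL K)ˣ) = (z * F ^ (M + 1))⁻¹ * (z * F ^ M) := by
      rw [pow_succ, ← mul_assoc z, mul_inv, mul_right_comm, inv_mul_cancel, one_mul]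
    rw [e, Units.val_mul, Units.val_mul z, Units.val_pow_eq_pow_val]
    exact mul_mem (inv_mem_away _)
      (mul_mem (le_away _ hz1) (pow_mem (le_away _ (le_away σ hF)) M))

/-- The degree zero part of a localization lies in `W`. -/
theorem resRef_cover {B : Subalgebra k (LL K)} {W : Subalgebra k K}
    (hW : ∀ a : K, sg 0 a ∈ B → a ∈ W) {σ V : (LL K)ˣ} (hσ : (σ : LL K) ∈ B)
    (hV : UnitIn B (V : LL K)) {m : ℕ} (hm : 0 < m) {a : Kˣ} (ha : hu 0 a = σ ^ m * V)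
    {β : LL K} (hβ : β ∈ B) {e : K} (he : β * σ = sg 0 e) (he0 : e ≠ 0) (he1 : e⁻¹ ∈ W) {x : K}
    (hx : sg 0 x ∈ away B σ) : x ∈ W := by
  obtain ⟨hV1, hV2⟩ := unitIn_coe.1 hV
  have ha' : sg 0 (a : K) = (σ : LL K) ^ m * V := by
    rw [← coe_hu, ha, Units.val_mul, Units.val_pow_eq_pow_val]
  have h1 : sg 0 (e ^ m * ((a⁻¹ : Kˣ) : K)) = β ^ m * ((V⁻¹ : (LL K)ˣ) : LL K) := by
    have e1 : sg 0 (((a⁻¹ : Kˣ) : K)) = (((σ ^ m * V)⁻¹ : (LL K)ˣ) : LL K) := by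
      rw [← ha, hu_inv, coe_hu, neg_zero]
    have e2 : sg 0 (e ^ m * ((a⁻¹ : Kˣ) : K)) = sg 0 e ^ m * sg 0 (((a⁻¹ : Kˣ) : K)) := by
      rw [resRef_sg_pow, sg_mul, add_zero]
    rw [e2, e1, ← he, mul_inv, Units.val_mul, mul_pow, ← Units.val_pow_eq_pow_val σ,
      mul_assoc, ← mul_assoc _ ((σ ^ m)⁻¹ : (LL K)ˣ).val, Units.mul_inv, one_mul]
  have h2 : e ^ m * ((a⁻¹ : Kˣ) : K) ∈ W := hW _ (h1 ▸ mul_mem (pow_mem hβ m) hV2)
  have h3 : ((a⁻¹ : Kˣ) : K) ∈ W := by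
    have : ((a⁻¹ : Kˣ) : K) = e⁻¹ ^ m * (e ^ m * ((a⁻¹ : Kˣ) : K)) := by
      rw [← mul_assoc, ← mul_pow, inv_mul_cancel₀ he0, one_pow, one_mul]
    rw [this]
    exact mul_mem (pow_mem he1 m) h2
  obtain ⟨n, hn⟩ := (mem_away hσ).1 hx
  obtain ⟨m, rfl⟩ : ∃ m', m = m' + 1 := ⟨m - 1, by omega⟩
  have h4 : sg 0 ((a : K) ^ n * x) =
      ((σ : LL K) ^ m * V) ^ n * ((σ : LL K) ^ n * sg 0 x) := by
    have e2 : sg 0 ((a : K) ^ n * x) = sg 0 (a : K) ^ n * sg 0 x := by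
      rw [resRef_sg_pow, sg_mul, add_zero]
    rw [e2, ha']
    ring
  have h5 : (a : K) ^ n * x ∈ W :=
    hW _ (h4 ▸ mul_mem (pow_mem (mul_mem (pow_mem hσ m) hV1) n) hn)
  have : x = ((a⁻¹ : Kˣ) : K) ^ n * ((a : K) ^ n * x) := by
    rw [← mul_assoc, ← mul_pow, Units.inv_mul, one_pow, one_mul]
  rw [this]
  exact mul_mem (pow_mem h3 n) h5

/-- Finitely many of the `σ` generate the unit ideal: otherwise `exists_gpt` gives a point that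
contains all of them. -/
theorem exists_fin_cover {S : Subalgebra k (LL K)} (hS : GrA S) (hfg : S.FG) {T : Set (LL K)ˣ}
    (hT : ∀ σ ∈ T, (σ : LL K) ∈ S ∧ Hm (σ : LL K))
    (h : ∀ q : Submodule S (LL K), GPt S q → AlgAt S q → ∃ σ ∈ T, (σ : LL K) ∉ q) :
    ∃ s : Finset (LL K)ˣ, (∀ σ ∈ s, σ ∈ T) ∧ ∃ b : (LL K)ˣ → LL K, (∀ σ ∈ s, b σ ∈ S) ∧
      ∑ σ ∈ s, b σ * σ = 1 := by
  classical
  have h1 : (1 : LL K) ∈ Submodule.span S ((fun σ : (LL K)ˣ => (σ : LL K)) '' T) := by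
    by_contra h1
    obtain ⟨q, hq, hqa, hqT⟩ := exists_gpt hS hfg (T := (fun σ : (LL K)ˣ => (σ : LL K)) '' T)
      (by rintro _ ⟨σ, hσ, rfl⟩; exact hT σ hσ) h1
    obtain ⟨σ, hσ, hσq⟩ := h q hq hqa
    exact hσq (hqT _ ⟨σ, hσ, rfl⟩)
  rw [Finsupp.mem_span_image_iff_linearCombination] at h1
  obtain ⟨c, hc, hc1⟩ := h1
  refine ⟨c.support, fun σ hσ => (Finsupp.mem_supported S c).1 hc hσ, fun σ => (c σ : LL K),
    fun σ _ => (c σ).2, ?_⟩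
  rw [← hc1, Finsupp.linearCombination_apply, Finsupp.sum]
  rfl

/-- Refinement. New index set: the pairs `(l, σ)` with `σ` in the finite cover of the chart `l`
and `UnitIn (OL A.O) σ`. With `m`, `V l` from `exists_units` (one `m > 0` for all `l`) let
`z (l, σ) = σ ^ m * V l (-deg σ) = hu 0 _`, and apply `exists_twist` with `g = 1`, `ξ = σ`,
`a = m`, `υ = V l _`; new `F = z * F l ^ M`. `gen`: `Unr.extend`
(`away B' F' = adjoin (away B F ∪ {σ⁻¹})`). `cover`: take degree zero parts of `Σ b σ * σ = 1`,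
`exists_unit` gives `σ` with `prj _ (b σ) * σ` a unit of `W`; its `m`-th power is the product of
`z` and another element of the degree zero part of `B l`, so `z` is a unit of `W ≤ O`, `σ` is a unit
of `OL O`; a degree zero element `sg 0 a` of `away B σ` has `z ^ e * a` in the degree zero part
of `B`. -/
theorem Sys.Good.refine {S : Sys k K N} (hA : A.Good) (h : S.Good A ρ)
    (Φ : S.ι → Chart k K N → Prop)
    (hΦ : ∀ l (q : Submodule (S.ch l).B (LL K)), GPt (S.ch l).B q → AlgAt (S.ch l).B q →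
      ∃ (σ : (LL K)ˣ) (c' : Chart k K N), (σ : LL K) ∉ q ∧ (S.ch l).Loc σ c' ∧ c'.Good A ρ ∧
        Φ l c') :
    ∃ S' : Sys k K N, S'.Good A ρ ∧
      ∀ j, ∃ (l : S.ι) (σ : (LL K)ˣ), (S.ch l).Loc σ (S'.ch j) ∧ Φ l (S'.ch j) := by
  classical
  have hfin := h.fin
  have := Fintype.ofFinite S.ι
  let T : S.ι → Set (LL K)ˣ := fun l =>
    {σ | ∃ c' : Chart k K N, (S.ch l).Loc σ c' ∧ c'.Good A ρ ∧ Φ l c'}
  have hTm : ∀ l, ∀ σ ∈ T l, (σ : LL K) ∈ (S.ch l).B ∧ Hm (σ : LL K) := by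
    rintro l σ ⟨c', hc, -⟩
    exact ⟨hc.mem, hc.hom⟩
  have hcov : ∀ l, ∃ s : Finset (LL K)ˣ, (∀ σ ∈ s, σ ∈ T l) ∧ ∃ b : (LL K)ˣ → LL K,
      (∀ σ ∈ s, b σ ∈ (S.ch l).B) ∧ ∑ σ ∈ s, b σ * σ = 1 := fun l =>
    exists_fin_cover (h.good l).grA (h.good l).fg' (hTm l) fun q hq ha => by
      obtain ⟨σ, c', h1, h2⟩ := hΦ l q hq ha
      exact ⟨σ, ⟨c', h2⟩, h1⟩
  choose s hsT b hb hb1 using hcov
  have hch : ∀ (l : S.ι) (σ : (LL K)ˣ), ∃ c' : Chart k K N, σ ∈ T l →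
      (S.ch l).Loc σ c' ∧ c'.Good A ρ ∧ Φ l c' := by
    intro l σ
    by_cases hσ : σ ∈ T l
    · obtain ⟨c', hc⟩ := hσ
      exact ⟨c', fun _ => hc⟩
    · exact ⟨S.ch l, fun h' => absurd h' hσ⟩
  choose ch hch using hch
  have hd : ∀ σ : (LL K)ˣ, ∃ γ, Hm (σ : LL K) → IsH γ (σ : LL K) := by
    intro σ
    by_cases hσ : Hm (σ : LL K)
    · obtain ⟨γ, hγ⟩ := hσ
      exact ⟨γ, fun _ => hγ⟩
    · exact ⟨0, fun h' => absurd h' hσ⟩
  choose d hd using hd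
  choose m₀ hm₀ hV using fun l => (h.good l).exists_units
  have hm : 0 < ∏ l, m₀ l := Finset.prod_pos fun l _ => hm₀ l
  choose V _ hVU hVH using fun l => hV l (∏ l, m₀ l) (Finset.dvd_prod_of_mem _ (Finset.mem_univ l))
  generalize ∏ l, m₀ l = m at hm hVH
  have hVu : ∀ l γ, UnitIn (S.ch l).B (V l γ : LL K) := fun l γ =>
    ((h.good l).unitIn_U (hVU l γ)).1
  have ha : ∀ (l : S.ι) (σ : (LL K)ˣ), ∃ a : Kˣ, σ ∈ T l → hu 0 a = σ ^ m * V l (-d σ) := by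
    intro l σ
    by_cases hσ : σ ∈ T l
    · have h1 := hd σ (hTm l σ hσ).2
      have h2 : Below ρ (-d σ) := fun c hc => by
        rw [Pi.neg_apply, (h.good l).below (hTm l σ hσ).1 h1 σ.ne_zero c hc, neg_zero]
      have h3 := (h1.pow m).mul (hVH l _ h2)
      rw [smul_neg, add_neg_cancel, ← Units.val_pow_eq_pow_val, ← Units.val_mul] at h3
      obtain ⟨a, ha⟩ := h3.exists_hu (Units.ne_zero _)
      exact ⟨a, fun _ => Units.ext ha⟩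
    · exact ⟨1, fun h' => absurd h' hσ⟩
  choose a ha using ha
  let ι' : Type := {p : S.ι × (LL K)ˣ // p.2 ∈ s p.1 ∧ UnitIn (OL A.O) (p.2 : LL K)}
  have hfin' : Finite ι' := by
    refine Finite.of_injective (β := Σ l : S.ι, s l) (fun j => ⟨j.1.1, j.1.2, j.2.1⟩) ?_
    rintro ⟨⟨l, σ⟩, h1⟩ ⟨⟨l', σ'⟩, h2⟩ e
    obtain ⟨rfl, e2⟩ := Sigma.mk.inj_iff.1 e
    have e3 : σ = σ' := congrArg Subtype.val (eq_of_heq e2)
    subst e3
    rfl
  have hjT : ∀ j : ι', j.1.2 ∈ T j.1.1 := fun j => hsT _ _ j.2.1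
  have hL : ∀ j : ι', (S.ch j.1.1).Loc j.1.2 (ch j.1.1 j.1.2) := fun j => (hch _ _ (hjT j)).1
  have hG : ∀ j : ι', (ch j.1.1 j.1.2).Good A ρ := fun j => (hch _ _ (hjT j)).2.1
  have hFm : ∀ l, (hu 0 (S.F l) : LL K) ∈ (S.ch l).B := fun l => (h.good l).mono_mem (h.mono l)
  have hzu : ∀ (j : ι') (B' : Subalgebra k (LL K)), (S.ch j.1.1).B ≤ B' →
      UnitIn B' (j.1.2 : LL K) → UnitIn B' (hu 0 (a j.1.1 j.1.2) : LL K) := by
    intro j B' h1 h2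
    rw [ha _ _ (hjT j), Units.val_mul, Units.val_pow_eq_pow_val]
    exact (h2.pow m).mul ((hVu _ _).mono h1)
  have hzc : ∀ j : ι', UnitIn (away (S.ch j.1.1).B j.1.2) (hu 0 (a j.1.1 j.1.2) : LL K) :=
    fun j => hzu j _ (le_away _) (resRef_unit_away (hL j).mem)
  obtain ⟨M, hM, htw⟩ := exists_twist (ι' := ι') (fun l => (S.ch l).B) (fun l => hu 0 (S.F l))
    (fun l l' => by rw [resRef_hu_div]; exact h.div l l')
    (fun l l' => by rw [resRef_hu_div]; exact h.glue l l') (fun j => j.1.1) (fun j => j.1.2)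
    (fun j => V j.1.1 (-d j.1.2)) (fun j => hu 0 (a j.1.1 j.1.2)) 1 (fun _ => m) (fun _ => hm)
    (fun j => (hL j).mem) (fun j => hVu _ _) (fun j => by rw [one_mul]; exact ha _ _ (hjT j))
  simp only [← resRef_hu_mul_pow, resRef_hu_div] at htw
  refine ⟨⟨ι', fun j => ch j.1.1 j.1.2, fun j => a j.1.1 j.1.2 * S.F j.1.1 ^ M⟩,
    ⟨hfin', hG, fun j => ?_, fun j => ?_, fun j j' => ?_, fun j j' => ?_, fun j j' e => ?_,
      fun j => ?_, fun j e => ?_, fun j => ?_, fun W hW => ?_⟩,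
    fun j => ⟨j.1.1, j.1.2, hL j, (hch _ _ (hjT j)).2.2⟩⟩
  · change (ch j.1.1 j.1.2).B ≤ _
    rw [(hL j).eq]
    exact away_le (h.int _) (unitIn_coe.1 j.2.2).2
  · change (((a j.1.1 j.1.2 * S.F j.1.1 ^ M)⁻¹ : Kˣ) : K) ∈ _
    rw [mul_inv, ← inv_pow, Units.val_mul, Units.val_pow_eq_pow_val]
    exact mul_mem (unitIn_OL_hu.1 (hzu j _ (h.int _) j.2.2)).2 (pow_mem (h.unit _) M)
  · change _ ∈ (ch j.1.1 j.1.2).B
    rw [(hL j).eq]
    exact (htw j j').1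
  · change (ch j'.1.1 j'.1.2).B ≤ away (ch j.1.1 j.1.2).B _
    rw [(hL j).eq, (hL j').eq]
    exact (htw j j').2.1
  · change ∃ υ, UnitIn (away (ch j.1.1 j.1.2).B _) υ ∧
      (ch j'.1.1 j'.1.2).y e = υ * (ch j.1.1 j.1.2).y e
    obtain ⟨υ₁, h1, e1⟩ := (hL j').as e
    obtain ⟨υ₂, h2, e2⟩ := h.yglue j.1.1 j'.1.1 e
    obtain ⟨υ₃, h3, e3⟩ := (hL j).as e
    obtain ⟨υ₄, h4, e4⟩ := resRef_unit_inv h3
    rw [(hL j').eq] at h1
    refine ⟨υ₁ * υ₂ * υ₄, ((UnitIn.mono ?_ h1).mul (UnitIn.mono ?_ h2)).mul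
      (h4.mono (le_away _)), ?_⟩
    · rw [(hL j).eq]
      exact (htw j j').2.1
    · rw [(hL j).eq]
      exact (htw j j').2.2
    · rw [e1, e2, e3]
      linear_combination (-(υ₁ * υ₂ * (S.ch j.1.1).y e)) * e4
  · change (ch j.1.1 j.1.2).Mono ρ (hu 0 (a j.1.1 j.1.2 * S.F j.1.1 ^ M) : LL K)
    rw [resRef_hu_mul_pow, Units.val_mul, Units.val_pow_eq_pow_val]
    refine Chart.Mono.mul (Chart.mono_of_unit ?_) (((hL j).dom.2 _ (h.mono _)).pow M)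
    rw [(hL j).eq]
    exact hzc j
  · change (hu 0 (a j.1.1 j.1.2 * S.F j.1.1 ^ M) : LL K) ∈
      pr1 (ch j.1.1 j.1.2).B ((ch j.1.1 j.1.2).y e)
    obtain ⟨β, hβ⟩ := Submodule.mem_span_singleton.1 (h.dvd j.1.1 e)
    obtain ⟨υ₃, h3, e3⟩ := (hL j).as e
    obtain ⟨υ₄, h4, e4⟩ := resRef_unit_inv h3
    obtain ⟨M, rfl⟩ : ∃ M', M = M' + 1 := ⟨M - 1, by omega⟩
    have h5 : (hu 0 (a j.1.1 j.1.2) : LL K) ∈ (ch j.1.1 j.1.2).B := by
      rw [(hL j).eq]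
      exact (hzc j).1
    have hβ' : (β : LL K) * (S.ch j.1.1).y e = hu 0 (S.F j.1.1) := hβ
    refine Submodule.mem_span_singleton.2 ⟨⟨(hu 0 (a j.1.1 j.1.2) : LL K) *
      (hu 0 (S.F j.1.1) : LL K) ^ M * β * υ₄,
      mul_mem (mul_mem (mul_mem h5 (pow_mem ((hL j).le (hFm _)) M)) ((hL j).le β.2)) h4.1⟩, ?_⟩
    change (hu 0 (a j.1.1 j.1.2) : LL K) * (hu 0 (S.F j.1.1) : LL K) ^ M * β * υ₄ *
      (ch j.1.1 j.1.2).y e = _
    rw [resRef_hu_mul_pow, Units.val_mul, Units.val_pow_eq_pow_val, e3, pow_succ]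
    linear_combination ((hu 0 (a j.1.1 j.1.2) : LL K) * (hu 0 (S.F j.1.1) : LL K) ^ M * β *
      (S.ch j.1.1).y e) * e4 + (hu 0 (a j.1.1 j.1.2) : LL K) * (hu 0 (S.F j.1.1) : LL K) ^ M * hβ'
  · change Unr (away (ch j.1.1 j.1.2).B (hu 0 (a j.1.1 j.1.2 * S.F j.1.1 ^ M))) _
    refine Unr.extend (h.gen j.1.1) (U := {((j.1.2⁻¹ : (LL K)ˣ) : LL K)}) ?_ ?_
      (fun y hy _ => Algebra.subset_adjoin hy) ?_
    · rw [(hL j).eq, resRef_hu_mul_pow]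
      exact resRef_away_eq (hFm _) (hzc j) hM
    · rintro y (⟨x, hx, rfl⟩ | ⟨e, he, rfl⟩)
      · exact le_away _ ((hG j).base x hx)
      · exact le_away _ ((hG j).mono_mem ((hG j).tauMono e he))
    · rintro y rfl
      exact Or.inr ⟨j.1.2, Algebra.subset_adjoin (Or.inl (le_away _ (hL j).mem)),
        Units.mul_inv _⟩
  · obtain ⟨l, hl⟩ := h.cover W hW
    have hgr := (h.good l).grA
    have h1 : ∑ σ ∈ s l, (b l σ * σ).coeff 0 = 1 := by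
      have := congrArg (fun z : LL K => z.coeff 0) (hb1 l)
      simpa using this
    obtain ⟨σ, hσ, h2, h3⟩ := hA.exists_unit hW (fun σ hσ =>
      hl _ (hgr _ (mul_mem (hb l σ hσ) (hTm l σ (hsT l σ hσ)).1) 0)) h1
    have hσB := (hTm l σ (hsT l σ hσ)).1
    have h4 : prj (-d σ) (b l σ) * σ = sg 0 ((b l σ * σ).coeff 0) := by
      rw [← prj_mul_isH (hd σ (hTm l σ (hsT l σ hσ)).2), neg_add_cancel]
      rfl
    have h5 : prj (-d σ) (b l σ) ∈ (S.ch l).B := hgr _ (hb l σ hσ) _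
    have h6 : UnitIn (OL A.O) (σ : LL K) := by
      refine ⟨h.int l hσB, prj (-d σ) (b l σ) * sg 0 ((b l σ * σ).coeff 0)⁻¹,
        mul_mem (h.int l h5) (sg_mem_OL.2 (hA.le W hW h3)), ?_⟩
      rw [← mul_assoc, mul_comm (σ : LL K), h4, sg_mul, mul_inv_cancel₀ h2, add_zero]
      rfl
    refine ⟨⟨(l, σ), hσ, h6⟩, fun x hx => ?_⟩
    change sg 0 x ∈ (ch l σ).B at hx
    rw [(hch l σ (hsT l σ hσ)).1.eq] at hx
    exact resRef_cover hl hσB (hVu l _) hm (ha l σ (hsT l σ hσ)) h5 h4 h2 h3 hx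

end Pool.Agent.Lib.MP_4287a9_ag.Res
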