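import Pool.Agent.Lib.MP_4287a9_ag.ResTay

/-! Coordinates are prime at the point. -/

namespace Pool.Agent.Lib.MP_4287a9_ag.Res

variable {k L : Type} [Field k] [CommRing L] [Algebra k L] {N : ℕ} {S : Subalgebra k L}

namespace Tay3

theorem iter_mul (δ : Derivation k L L) (n : ℕ) (a b : L) :
    δ^[n] (a * b) = ∑ ij ∈ Finset.HasAntidiagonal.antidiagonal n, n.choose ij.1 • (δ^[ij.1] a * δ^[ij.2] b) := by
  induction n with
  | zero => simp
  | succ n ih =>
    rw [Finset.sum_antidiagonal_choose_succ_nsmul (M := L) (fun i j => δ^[i] a * δ^[j] b) n]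
    simp only [Function.iterate_succ_apply', ih, map_sum, map_nsmul, Derivation.leibniz, smul_add,
      Finset.sum_add_distrib, smul_eq_mul, add_right_inj]
    refine Finset.sum_congr rfl fun ⟨i, j⟩ hij => ?_
    rw [n.choose_symm_of_eq_add (Finset.HasAntidiagonal.mem_antidiagonal.1 hij).symm, mul_comm]

theorem iter_mem {δ : Derivation k L L} (hδ : Pres S δ) (n : ℕ) {a : L} (ha : a ∈ S) :
    δ^[n] a ∈ S := by
  induction n with
  | zero => exact ha
  | succ n ih => rw [Function.iterate_succ_apply']; exact hδ _ ih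

theorem iter_add (δ : Derivation k L L) (n : ℕ) (a b : L) :
    δ^[n] (a + b) = δ^[n] a + δ^[n] b := by
  induction n with
  | zero => rfl
  | succ n ih => simp only [Function.iterate_succ_apply', ih, map_add]

theorem sharp [CharZero k] {q : Submodule S L} (hq : PrimeAt S q) {δ : Derivation k L L}
    (hδ : Pres S δ) : ∃ p : Submodule S L, PrimeAt S p ∧ ∀ f, f ∈ p ↔ ∀ n, δ^[n] f ∈ q := by
  classical
  let p : Submodule S L :=
    { carrier := {f | ∀ n, δ^[n] f ∈ q}
      add_mem' := fun ha hb n => by rw [iter_add]; exact q.add_mem (ha n) (hb n)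
      zero_mem' := fun n => by rw [Function.iterate_fixed (map_zero δ)]; exact q.zero_mem
      smul_mem' := fun c f hf n => by
        show δ^[n] ((c : L) * f) ∈ q
        rw [iter_mul]
        exact q.sum_mem fun ij _ => nsmul_mem (mul_mem_sub (iter_mem hδ _ c.2) (hf _)) _ }
  refine ⟨p, ⟨fun y hy => hq.sub y (hy 0), fun h => hq.one (h 0), fun a ha b hb hab => ?_⟩,
    fun f => Iff.rfl⟩
  by_contra hc
  obtain ⟨h1, h2⟩ := not_or.1 hc
  replace h1 : ∃ n, δ^[n] a ∉ q := not_forall.1 h1
  replace h2 : ∃ n, δ^[n] b ∉ q := not_forall.1 h2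
  have h3 : δ^[Nat.find h1 + Nat.find h2] (a * b) ∈ q := hab _
  rw [iter_mul, ← Finset.add_sum_erase _ _ (a := (Nat.find h1, Nat.find h2))
    (Finset.HasAntidiagonal.mem_antidiagonal.2 rfl), q.add_mem_iff_left (q.sum_mem fun ij hij => ?_)] at h3
  · have h4 : (((Nat.find h1 + Nat.find h2).choose (Nat.find h1) : ℕ) : k) ≠ 0 :=
      Nat.cast_ne_zero.2 (Nat.choose_pos (Nat.le_add_right _ _)).ne'
    have h5 := mul_mem_sub (S.algebraMap_mem
      (((Nat.find h1 + Nat.find h2).choose (Nat.find h1) : ℕ) : k)⁻¹) h3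
    rw [nsmul_eq_mul, ← map_natCast (algebraMap k L), ← mul_assoc, ← map_mul, inv_mul_cancel₀ h4,
      map_one, one_mul] at h5
    exact hq.mul_notMem (iter_mem hδ _ ha) (iter_mem hδ _ hb) (Nat.find_spec h1)
      (Nat.find_spec h2) h5
  · obtain ⟨h4, h5⟩ := Finset.mem_erase.1 hij
    rw [Finset.HasAntidiagonal.mem_antidiagonal] at h5
    refine nsmul_mem ?_ _
    by_cases h6 : ij.1 < Nat.find h1
    · rw [mul_comm]
      exact mul_mem_sub (iter_mem hδ _ hb) (not_not.1 (Nat.find_min h1 h6))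
    · have h7 : ij.2 < Nat.find h2 := by
        by_contra h7
        exact h4 (Prod.ext (by simp only; omega) (by simp only; omega))
      exact mul_mem_sub (iter_mem hδ _ ha) (not_not.1 (Nat.find_min h2 h7))

theorem appI_append (D : Fin N → Derivation k L L) (A B : List (Fin N)) (f : L) :
    appI D (A ++ B) f = appI D A (appI D B f) := List.foldr_append

theorem appI_replicate (D : Fin N → Derivation k L L) (j : Fin N) (n : ℕ) (f : L) :
    appI D (List.replicate n j) f = (D j)^[n] f := by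
  induction n with
  | zero => rfl
  | succ n ih => rw [Function.iterate_succ_apply', ← ih]; rfl

theorem sharps [CharZero k] {q : Submodule S L} {t : Fin N → L} {D : Fin N → Derivation k L L}
    (h : Coord S q t D) (T : Finset (Fin N)) : ∃ p : Submodule S L, PrimeAt S p ∧
      ∀ f ∈ S, f ∈ p ↔ ∀ Ls : List (Fin N), (∀ i ∈ Ls, i ∈ T) → appI D Ls f ∈ q := by
  induction T using Finset.induction_on with
  | empty =>
    refine ⟨q, h.prime, fun f _ => ⟨fun hf Ls hL => ?_, fun hf => hf [] (by simp)⟩⟩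
    obtain rfl : Ls = [] := List.eq_nil_iff_forall_not_mem.2 fun i hi => by simpa using hL i hi
    exact hf
  | insert j T _ ih =>
    obtain ⟨p, hp, hp'⟩ := ih
    obtain ⟨p', h1, h2⟩ := sharp hp (h.pres j)
    refine ⟨p', h1, fun f hf => ?_⟩
    rw [h2]
    refine ⟨fun h3 Ls hL => ?_, fun h3 n => (hp' _ (iter_mem (h.pres j) n hf)).2 fun Ls hL => ?_⟩
    · rw [← appI_perm h.pres h.comm ((List.perm_append_comm).trans
        (List.filter_append_perm (fun i => i == j) Ls)) hf, appI_append, List.filter_beq,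
        appI_replicate]
      refine (hp' _ (iter_mem (h.pres j) _ hf)).1 (h3 _) _ fun i hi => ?_
      obtain ⟨h4, h5⟩ := List.mem_filter.1 hi
      exact (Finset.mem_insert.1 (hL i h4)).resolve_left (by simpa using h5)
    · rw [← appI_replicate, ← appI_append]
      refine h3 _ fun i hi => ?_
      rcases List.mem_append.1 hi with hi | hi
      · exact Finset.mem_insert_of_mem (hL i hi)
      · exact Finset.mem_insert.2 (Or.inl (List.eq_of_mem_replicate hi))

theorem prod_succ (t : Fin N → L) (a : Fin N → ℕ) (b : Fin N) :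
    ∏ i, t i ^ (a + Pi.single b 1 : Fin N → ℕ) i = t b * ∏ i, t i ^ a i := by
  simp only [Pi.add_apply, pow_add, Finset.prod_mul_distrib]
  rw [mul_comm, Finset.prod_eq_single b (fun i _ hi => by simp [hi]) (by simp)]
  simp

theorem split {a : Fin N → ℕ} {b : Fin N} (h : a b ≠ 0) :
    ∃ a' : Fin N → ℕ, a = a' + Pi.single b 1 :=
  ⟨a - Pi.single b 1, funext fun i => by
    by_cases hi : i = b
    · subst hi; simp; omega
    · simp [hi]⟩

theorem sum_succ (a : Fin N → ℕ) (b : Fin N) :
    ∑ i, (a + Pi.single b 1 : Fin N → ℕ) i = ∑ i, a i + 1 := by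
  simp [Finset.sum_add_distrib]

theorem prod_mem_pow {q : Submodule S L} (hq : PrimeAt S q) {t : Fin N → L} (ht : ∀ i, t i ∈ q)
    (m : ℕ) : ∀ a : Fin N → ℕ, m ≤ ∑ i, a i → ∏ i, t i ^ a i ∈
      Submodule.span S {z | ∃ a : Fin m → L, (∀ i, a i ∈ q) ∧ z = ∏ i, a i} := by
  induction m with
  | zero =>
    intro a _
    rw [← mul_one (∏ i, t i ^ a i)]
    exact mul_mem_sub (prod_mem fun i _ => pow_mem (hq.sub _ (ht i)) _)
      (Submodule.subset_span ⟨Fin.elim0, fun i => i.elim0, by simp⟩)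
  | succ m ih =>
    intro a ha
    obtain ⟨b, -, hb⟩ := Finset.exists_ne_zero_of_sum_ne_zero
      (show ∑ i, a i ≠ 0 by omega)
    obtain ⟨a, rfl⟩ := split hb
    rw [sum_succ] at ha
    rw [prod_succ]
    refine Submodule.span_induction (p := fun z _ => t b * z ∈ _) ?_ ?_ ?_ ?_
      (ih a (Nat.le_of_succ_le_succ ha))
    · rintro z ⟨c, hc, rfl⟩
      exact Submodule.subset_span ⟨Fin.cons (t b) c, fun i => Fin.cases (ht b) hc i,
        by simp [Fin.prod_univ_succ]⟩
    · simp
    · intro x y _ _ hx hy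
      rw [mul_add]
      exact add_mem hx hy
    · intro c x _ hx
      rw [mul_smul_comm]
      exact Submodule.smul_mem _ c hx

theorem sat_iff [CharZero k] [IsNoetherianRing S] {q : Submodule S L} {t : Fin N → L}
    {D : Fin N → Derivation k L L} (h : Coord S q t D) (b : Fin N) {f : L} (hf : f ∈ S) :
    Sat q (pr1 S (t b)) f ↔
      ∀ Ls : List (Fin N), (∀ i ∈ Ls, i ∈ Finset.univ.erase b) → appI D Ls f ∈ q := by
  have hb : t b ∈ S := h.prime.sub _ (h.mem b)
  refine ⟨fun h1 Ls hL => ?_, fun h1 => ?_⟩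
  · refine Sat.mem_of_le h.prime ((Submodule.span_singleton_le_iff_mem _ _).2 (h.mem b))
      (appI_mem h.pres Ls hf) ?_
    induction Ls with
    | nil => exact h1
    | cons j Ls ih =>
      obtain ⟨σ, s1, s2, s3⟩ := ih fun i hi => hL i (List.mem_cons_of_mem _ hi)
      obtain ⟨c, hc, e⟩ := mem_pr1.1 s3
      have e' := congrArg (D j) e
      rw [Derivation.leibniz, Derivation.leibniz, h.dual,
        if_neg (Finset.ne_of_mem_erase (hL j List.mem_cons_self))] at e'
      simp only [smul_eq_mul] at e'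
      refine ⟨σ * σ, mul_mem s1 s1, h.prime.mul_notMem s1 s1 s2 s2, mem_pr1.2
        ⟨σ * D j c - D j σ * c, sub_mem (mul_mem s1 (h.pres j c hc)) (mul_mem (h.pres j σ s1) hc),
        ?_⟩⟩
      show σ * σ * D j (appI D Ls f) = _
      linear_combination σ * e' - D j σ * e
  · refine sat_of_forall_pow h.prime (fun y hy => ?_) hf fun m => ?_
    · obtain ⟨c, hc, rfl⟩ := mem_pr1.1 hy
      exact mul_mem hc hb
    have hm : (0 : ℚ) < 1 / (m + 1) := by positivity
    have hw : ∀ i, (0 : ℚ) < if i = b then (1 : ℚ) else 1 / (m + 1) := fun i => by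
      split_ifs
      exacts [one_pos, hm]
    refine Sat.mono (Submodule.span_le.2 ?_) (taylor h hw (d := 1) hf fun Ls hL =>
      h1 Ls fun i hi => Finset.mem_erase.2 ⟨?_, Finset.mem_univ _⟩)
    · rintro y ⟨α, -, h2, rfl⟩
      by_cases h3 : α b = 0
      · refine Submodule.mem_sup_right (prod_mem_pow h.prime h.mem m α ?_)
        have h4 : ∑ i, (if i = b then (1 : ℚ) else 1 / (m + 1)) * α i =
            1 / (m + 1) * (∑ i, α i : ℕ) := by
          rw [Nat.cast_sum, Finset.mul_sum]
          refine Finset.sum_congr rfl fun i _ => ?_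
          split_ifs with hi
          · simp [hi, h3]
          · rfl
        rw [h4, one_div, ← div_eq_inv_mul, one_le_div (by positivity)] at h2
        exact Nat.le_of_succ_le (by exact_mod_cast h2)
      · obtain ⟨α, rfl⟩ := split h3
        exact Submodule.mem_sup_left (mem_pr1.2 ⟨∏ i, t i ^ α i,
          prod_mem fun i _ => pow_mem (h.prime.sub _ (h.mem i)) _, by rw [prod_succ, mul_comm]⟩)
    · rintro rfl
      have := List.single_le_sum (l := Ls.map fun j => if j = i then (1 : ℚ) else 1 / (m + 1))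
        (fun x hx => by obtain ⟨j, -, rfl⟩ := List.mem_map.1 hx; exact (hw j).le) 1
        (List.mem_map.2 ⟨i, hi, if_pos rfl⟩)
      exact this.not_gt hL

end Tay3

/-- A coordinate is prime at `q`. Either order the exponents with `β b = 0` and use the Leibniz
rule for the minimal nonvanishing derivatives of `f` and `g` (`taylor` with weights `1` at `b` and
`1 / M` elsewhere plus `sat_of_forall_pow` show that `f` is in the saturation of `(t b)` if all
`appI D Ls f` with `b ∉ Ls` lie in `q`), or induct downwards on the set of coordinates in the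
localization. -/
theorem coord_prime [CharZero k] [IsNoetherianRing S] {q : Submodule S L} {t : Fin N → L}
    {D : Fin N → Derivation k L L} (h : Coord S q t D) (b : Fin N) {f g : L} (hf : f ∈ S)
    (hg : g ∈ S) (hfg : Sat q (pr1 S (t b)) (f * g)) :
    Sat q (pr1 S (t b)) f ∨ Sat q (pr1 S (t b)) g := by
  obtain ⟨p, hp, hp'⟩ := Tay3.sharps h (Finset.univ.erase b)
  rw [Tay3.sat_iff h b (mul_mem hf hg), ← hp' _ (mul_mem hf hg)] at hfg
  rw [Tay3.sat_iff h b hf, Tay3.sat_iff h b hg, ← hp' _ hf, ← hp' _ hg]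
  exact hp.prime f hf g hg hfg

/-- A divisor of a monomial is a monomial at `q` (induction on the total degree with
`coord_prime`; `L` is a domain). -/
theorem monomial_of_dvd [CharZero k] [IsDomain L] [IsNoetherianRing S] {q : Submodule S L}
    {t : Fin N → L} {D : Fin N → Derivation k L L} (h : Coord S q t D) (a : Fin N → ℕ) {f g : L}
    (hf : f ∈ S) (hg : g ∈ S) (hfg : f * g = ∏ i, t i ^ a i) :
    ∃ a' : Fin N → ℕ, (∀ i, a' i ≤ a i) ∧ ∃ σ ∈ S, σ ∉ q ∧ ∃ σ' ∈ S, σ' ∉ q ∧
      σ * f = σ' * ∏ i, t i ^ a' i := by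
  have key : ∀ (n : ℕ) (a : Fin N → ℕ), ∑ i, a i = n → ∀ f ∈ S, ∀ g ∈ S, ∀ u ∈ S, u ∉ q →
      f * g = u * ∏ i, t i ^ a i → ∃ a' : Fin N → ℕ, (∀ i, a' i ≤ a i) ∧ ∃ σ ∈ S, σ ∉ q ∧
        ∃ σ' ∈ S, σ' ∉ q ∧ σ * f = σ' * ∏ i, t i ^ a' i := by
    intro n
    induction n with
    | zero =>
      intro a ha f hf g hg u _ hu e
      obtain rfl : a = 0 := funext fun i => Finset.sum_eq_zero_iff.1 ha i (Finset.mem_univ i)
      refine ⟨0, fun _ => le_rfl, 1, one_mem _, h.prime.one, f, hf, fun h1 => hu ?_, by simp⟩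
      have h2 := mul_mem_sub hg h1
      rw [mul_comm, e] at h2
      simpa using h2
    | succ n ih =>
      intro a ha f hf g hg u hu hu' e
      obtain ⟨b, -, hb⟩ := Finset.exists_ne_zero_of_sum_ne_zero (show ∑ i, a i ≠ 0 by omega)
      obtain ⟨a, rfl⟩ := Tay3.split hb
      rw [Tay3.sum_succ] at ha
      rw [Tay3.prod_succ] at e
      have hb0 : t b ≠ 0 := fun h0 => by simpa [h0] using h.dual b b
      have hP : ∏ i, t i ^ a i ∈ S := prod_mem fun i _ => pow_mem (h.prime.sub _ (h.mem i)) _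
      rcases coord_prime h b hf hg (Sat.of_mem h.prime (mem_pr1.2 ⟨_, mul_mem hu hP,
        by rw [e]; ring⟩)) with ⟨σ, s1, s2, s3⟩ | ⟨σ, s1, s2, s3⟩
      · obtain ⟨c, hc, e'⟩ := mem_pr1.1 s3
        obtain ⟨a', h1, τ, t1, t2, τ', t3, t4, h2⟩ := ih a (Nat.succ_injective ha) c hc g hg _
          (mul_mem s1 hu) (h.prime.mul_notMem s1 hu s2 hu')
          (mul_left_cancel₀ hb0 (by linear_combination σ * e - g * e'))
        refine ⟨a' + Pi.single b 1, fun i => Nat.add_le_add_right (h1 i) _, τ * σ, mul_mem t1 s1,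
          h.prime.mul_notMem t1 s1 t2 s2, τ', t3, t4, ?_⟩
        rw [Tay3.prod_succ]
        linear_combination τ * e' + t b * h2
      · obtain ⟨c, hc, e'⟩ := mem_pr1.1 s3
        obtain ⟨a', h1, h2⟩ := ih a (Nat.succ_injective ha) f hf c hc _
          (mul_mem s1 hu) (h.prime.mul_notMem s1 hu s2 hu')
          (mul_left_cancel₀ hb0 (by linear_combination σ * e - f * e'))
        exact ⟨a', fun i => (h1 i).trans (Nat.le_add_right _ _), h2⟩
  exact key _ a rfl f hf g hg 1 (one_mem _) h.prime.one (by rw [hfg, one_mul])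

end Pool.Agent.Lib.MP_4287a9_ag.Res
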