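import Pool.Agent.Lib.MP_4287a9_ag.ResJac1
import Pool.Agent.Lib.MP_4287a9_ag.ResC1
import Pool.Agent.Lib.MP_4287a9_ag.ResC2
import Pool.Agent.Lib.MP_4287a9_ag.ResTay3
import Pool.Agent.Lib.MP_4287a9_ag.ResRef

/-! The Jacobian becomes a monomial. -/

namespace Pool.Agent.Lib.MP_4287a9_ag.Res

variable {k K : Type} [Field k] [Field K] [Algebra k K] {N : ℕ}

variable {A : Amb k K N} {ρ : ℕ} {c : Chart k K N}

theorem resJac2_prod (h : c.Good A ρ) (a : ℕ → ℕ) :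
    ∏ e ∈ Finset.range ρ, c.y e ^ a e = ∏ i, c.t i ^ (c.lab i).elim 0 a := by
  simp only [Chart.y, ← Finset.prod_pow]
  rw [Finset.prod_comm]
  refine Finset.prod_congr rfl fun i _ => ?_
  cases hi : c.lab i with
  | none => simp
  | some e₀ =>
    rw [Finset.prod_eq_single e₀]
    · simp
    · intro e _ he
      have : ¬ (some e₀ = some e) := fun h' => he (Option.some.inj h').symm
      rw [if_neg this, one_pow]
    · intro he
      exact absurd (Finset.mem_range.2 (h.lt i e₀ hi)) he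

theorem resJac2_gpt {S S' : Subalgebra k (LL K)} {q : Submodule S (LL K)} (hq : GPt S q)
    {σ : (LL K)ˣ} (hσ : (σ : LL K) ∈ S) (hσh : Hm (σ : LL K)) (hσq : (σ : LL K) ∉ q)
    (h : S' = away S σ) : GPt S' (extq q S') := by
  subst h
  exact hq.extq_away hσ hσh hσq

/-- A homogeneous divisor of a monomial is a monomial near the point. `monomial_of_dvd` gives
`σ f = σ' m`, `m = ∏ t i ^ a' i` with `a' i = 0` for unlabelled `i`. By `Sat.hom` there are homogeneous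
`σ₁, σ₂ ∉ q` with `σ₁ f ∈ (m)`, `σ₂ m ∈ (f)`; localize at `σ₁ σ₂`. -/
theorem Chart.Good.mono_loc [CharZero k] (hA : A.Good) (h : c.Good A ρ)
    {q : Submodule c.B (LL K)} (hq : GPt c.B q) (ht : ∀ i, c.t i ∈ q) {f b : LL K} (hf : f ∈ c.B)
    (hfh : Hm f) (hb : b ∈ c.B) (hm : c.Mono ρ (f * b)) :
    ∃ σ : (LL K)ˣ, (σ : LL K) ∈ c.B ∧ Hm (σ : LL K) ∧ (σ : LL K) ∉ q ∧ (c.loc σ).Mono ρ f := by
  classical
  obtain ⟨υ, ⟨_, υ', hυ', hυ1⟩, a, ha⟩ := hm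
  obtain ⟨D, hD⟩ := h.exists_dual hA
  have := h.noeth
  have hfg : f * (b * υ') = ∏ i, c.t i ^ (c.lab i).elim 0 a := by
    rw [← resJac2_prod h, ← mul_assoc, ha, mul_right_comm, hυ1, one_mul]
  obtain ⟨a', ha', σ, hσ, hσq, σ', hσ', hσq', he⟩ :=
    monomial_of_dvd (h.coord hq ht hD) _ hf (c.B.mul_mem hb hυ') hfg
  set m : LL K := ∏ i, c.t i ^ a' i with hmdef
  have hmm : c.Mono ρ m := by
    refine Chart.Mono.prod fun i _ => ?_
    cases hi : c.lab i with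
    | none =>
      have h0 : a' i = 0 := by
        have := ha' i
        rw [hi] at this
        exact Nat.le_zero.1 this
      rw [h0, pow_zero]
      exact Chart.mono_of_unit unitIn_one
    | some e =>
      rw [← h.y_eq hi]
      exact (Chart.mono_y (h.lt i e hi)).pow _
  have hmh : Hm m := Hm.prod fun i _ => (h.thom i).pow _
  have hm0 : m ≠ 0 := Finset.prod_ne_zero_iff.2 fun i _ => pow_ne_zero _ (h.t_ne_zero hA i)
  have hg : ∀ z : LL K, Hm z → GrM (pr1 c.B z) := fun z hz =>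
    grM_span h.grA fun y hy => by
      rw [Set.mem_singleton_iff.1 hy]
      exact hz
  obtain ⟨σ₁, h1, h1h, h1q, h1m⟩ :=
    Sat.hom h.grA (q := q) (hg m hmh) hfh ⟨σ, hσ, hσq, mem_pr1.2 ⟨σ', hσ', he⟩⟩
  obtain ⟨σ₂, h2, h2h, h2q, h2m⟩ :=
    Sat.hom h.grA (q := q) (hg f hfh) hmh ⟨σ', hσ', hσq', mem_pr1.2 ⟨σ, hσ, he.symm⟩⟩
  obtain ⟨c₁, hc₁, e₁⟩ := mem_pr1.1 h1m
  obtain ⟨c₂, hc₂, e₂⟩ := mem_pr1.1 h2m
  have hq12 : σ₁ * σ₂ ∉ q := hq.prime.mul_notMem h1 h2 h1q h2q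
  have h0 : σ₁ * σ₂ ≠ 0 := fun h0 => hq12 (h0 ▸ q.zero_mem)
  obtain ⟨τ, hτ⟩ := (h1h.mul h2h).exists_unit h0
  have hτB : (τ : LL K) ∈ c.B := hτ ▸ c.B.mul_mem h1 h2
  have hτh : Hm (τ : LL K) := hτ ▸ h1h.mul h2h
  have hcc : σ₁ * σ₂ = c₁ * c₂ := by
    apply mul_right_cancel₀ hm0
    linear_combination σ₁ * e₂ + c₂ * e₁
  have hi : ((τ⁻¹ : (LL K)ˣ) : LL K) * (σ₁ * σ₂) = 1 := by
    rw [← hτ]
    exact τ.inv_mul
  refine ⟨τ, hτB, hτh, hτ ▸ hq12, ?_⟩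
  have hle : c.B ≤ away c.B τ := le_away τ
  have hu : UnitIn (c.loc τ).B (((τ⁻¹ : (LL K)ˣ) : LL K) * (σ₂ * c₁)) := by
    refine ⟨(away c.B τ).mul_mem (inv_mem_away τ) (hle (c.B.mul_mem h2 hc₁)),
      ((τ⁻¹ : (LL K)ˣ) : LL K) * (σ₁ * c₂),
      (away c.B τ).mul_mem (inv_mem_away τ) (hle (c.B.mul_mem h1 hc₂)), ?_⟩
    linear_combination (((τ⁻¹ : (LL K)ˣ) : LL K) * (σ₁ * σ₂) + 1) * hi -
      ((τ⁻¹ : (LL K)ˣ) : LL K) ^ 2 * (σ₁ * σ₂) * hcc
  have hfe : f = ((τ⁻¹ : (LL K)ˣ) : LL K) * (σ₂ * c₁) * m := by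
    linear_combination ((τ⁻¹ : (LL K)ˣ) : LL K) * σ₂ * e₁ - f * hi
  rw [hfe]
  exact (Chart.mono_of_unit hu).mul ((Chart.loc_loc hτB hτh).dom.2 m hmm)

/-- `Sys.Good.refine`. At a point: `exists_center` gives `c'`; with `g = F * c₀` the derivations
`aD (D0 a) 0` preserve `away (away B F) c₀` (`gen`, `Unr.extend`, `Unr.pres`), hence `away c'.B g`
(`Pres.away`); then `exists_jac`, `jlog_mem`, `jlog_dvd`, `mono_loc`, `Loc.trans`. The chart
`c'.loc σ` has the same coordinates as `c'`. -/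
theorem Sys.Good.jmono [CharZero k] (hA : A.Good) {S : Sys k K N} (h : S.Good A ρ) {c₀ : K}
    (hc : c₀ ≠ 0) (hm : ∀ l, (S.ch l).Mono ρ (sg 0 c₀))
    (hD : ∀ i, ∀ a ∈ A.R0, c₀ * A.D0 i a ∈ A.R0) :
    ∃ S' : Sys k K N, S'.Good A ρ ∧ S.Dom ρ S' ρ ∧ ∀ j, (S'.ch j).JMono A ρ := by
  obtain ⟨S', hS', hj⟩ := Sys.Good.refine hA h (fun _ c' => c'.JMono A ρ) (fun l q hq ha => by
    have hg := h.good l
    obtain ⟨σ, c', hσq, hL, hg', ht'⟩ := hg.exists_center hA hq ha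
    have hq' : GPt c'.B (extq q c'.B) := resJac2_gpt hq hL.mem hL.hom hσq hL.eq
    set C : (LL K)ˣ := hu 0 (Units.mk0 c₀ hc) with hC
    set F : (LL K)ˣ := hu 0 (S.F l) with hF
    have hCm : (S.ch l).Mono ρ (C : LL K) := hm l
    have hFm : (S.ch l).Mono ρ (F : LL K) := h.mono l
    have hCB : (C : LL K) ∈ (S.ch l).B := hg.mono_mem hCm
    have hFB : (F : LL K) ∈ (S.ch l).B := hg.mono_mem hFm
    have hgm : (S.ch l).Mono ρ ((F * C : (LL K)ˣ) : LL K) := hFm.mul hCm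
    have hgB : ((F * C : (LL K)ˣ) : LL K) ∈ (S.ch l).B := hg.mono_mem hgm
    have hle : (S.ch l).B ≤ away (away (S.ch l).B F) C := (le_away F).trans (le_away C)
    have hU : Unr (away (away (S.ch l).B F) C)
        ({z | ∃ a ∈ A.R0, z = sg 0 a} ∪ {z | ∃ e < ρ, z = (tau K e : LL K)}) := by
      refine (h.gen l).extend (U := {((C⁻¹ : (LL K)ˣ) : LL K)}) rfl ?_ ?_ ?_
      · rintro y (⟨a, ha, rfl⟩ | ⟨e, he, rfl⟩)
        · exact hle (hg.base a ha)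
        · exact hle (hg.mono_mem (hg.tauMono e he))
      · exact fun y hy _ => Algebra.subset_adjoin hy
      · intro y hy
        rw [Set.mem_singleton_iff.1 hy]
        exact Or.inr ⟨C, Algebra.subset_adjoin (Or.inl (le_away F hCB)), C.mul_inv⟩
    have hP : ∀ i, Pres (away c'.B (F * C)) (aD (A.D0 i) (0 : Gam →+ K)) := by
      intro i
      have h1 : Pres (away (away (S.ch l).B F) C) (aD (A.D0 i) (0 : Gam →+ K)) := by
        refine hU.pres _ ?_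
        rintro y (⟨a, ha, rfl⟩ | ⟨e, _, rfl⟩)
        · have e1 : aD (A.D0 i) (0 : Gam →+ K) (sg 0 a) =
              ((C⁻¹ : (LL K)ˣ) : LL K) * sg 0 (c₀ * A.D0 i a) := by
            have e2 : (sg 0 (c₀ * A.D0 i a) : LL K) = (C : LL K) * sg 0 (A.D0 i a) := by
              rw [hC, coe_hu, sg_mul, add_zero, Units.val_mk0]
            rw [e2, ← mul_assoc, C.inv_mul, one_mul, aD_single, AddMonoidHom.zero_apply, zero_mul,
              add_zero]
          rw [e1]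
          exact Subalgebra.mul_mem _ (inv_mem_away C) (hle (hg.base _ (hD i a ha)))
        · have e1 : aD (A.D0 i) (0 : Gam →+ K) (tau K e : LL K) = 0 := by
            rw [tau, coe_hu, aD_single, Units.val_one, Derivation.map_one_eq_zero,
              AddMonoidHom.zero_apply, zero_mul, add_zero, AddMonoidAlgebra.single_zero]
          rw [e1]
          exact Subalgebra.zero_mem _
      rw [away_away hFB hCB] at h1
      have h2 := h1.away (le_away (F * C) hL.mem)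
      rw [away_away hgB hL.mem, mul_comm, ← away_away hL.mem hgB, ← hL.eq] at h2
      exact h2
    obtain ⟨j, hjh, hj⟩ := hg'.exists_jac hA
    obtain ⟨b, hb, hbm⟩ := hg'.jlog_dvd hj (hL.dom.2 _ hgm) hP
    obtain ⟨σ', h1, h2, h3, h4⟩ := hg'.mono_loc hA hq' ht' (hg'.jlog_mem hA hj)
      (hjh.mul (Hm.prod fun e _ => hg'.y_hom e)) hb hbm
    obtain ⟨σ'', h5, h6⟩ := hL.trans (Chart.loc_loc h1 h2) hq.prime hσq h3
    exact ⟨σ'', c'.loc σ', h5, h6, hg'.loc h1 h2, j, hj, h4⟩)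
  refine ⟨S', hS', fun j => ?_, fun j => ?_⟩
  · obtain ⟨l, σ, hL, _⟩ := hj j
    exact ⟨l, hL.dom⟩
  · obtain ⟨_, _, _, h1⟩ := hj j
    exact h1

end Pool.Agent.Lib.MP_4287a9_ag.Res
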