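import Pool.Agent.Lib.MP_4287a9_ag.ResJac1

/-! Labels with global exponents: definitions and uniqueness of exponents. -/

namespace Pool.Agent.Lib.MP_4287a9_ag.Res

variable {k K : Type} [Field k] [Field K] [Algebra k K] {N : ℕ}

variable {A : Amb k K N} {ρ : ℕ}

/-- New labels with global exponents. -/
structure Lab (S : Sys k K N) (s : ℕ) where
  μ : ℕ
  lam : S.ι → Fin μ → Option (Fin N)
  f : S.ι → Fin s → Kˣ
  jac : S.ι → (LL K)ˣ
  aF : Fin μ → ℕ
  af : Fin s → Fin μ → ℕ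
  aj : Fin μ → ℕ

/-- The equation of the divisor `i` on the chart `l`. -/
noncomputable def Lab.t {S : Sys k K N} {s : ℕ} (d : Lab S s) (l : S.ι) (i : Fin d.μ) : LL K :=
  (d.lam l i).elim 1 (S.ch l).t

/-- The properties of the new labels. -/
structure Lab.Good {S : Sys k K N} {s : ℕ} (d : Lab S s) (A : Amb k K N) (ρ : ℕ)
    (I : Fin s → Set K) : Prop where
  inj : ∀ l i i' b, d.lam l i = some b → d.lam l i' = some b → i = i'
  occ : ∀ i, ∃ l, ¬ UnitIn (S.ch l).B (d.t l i)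
  glue : ∀ l l' i, ∃ υ, UnitIn (S.ov l l') υ ∧ d.t l' i = υ * d.t l i
  fmem : ∀ l i, (d.f l i : K) ∈ I i
  fgen : ∀ l i, ∀ g ∈ I i, sg 0 g ∈ pr1 (S.ch l).B (hu 0 (d.f l i) : LL K)
  aFpos : ∀ i, 0 < d.aF i
  hF : ∀ l, ∃ υ, UnitIn (S.ch l).B υ ∧ (hu 0 (S.F l) : LL K) = υ * ∏ i, d.t l i ^ d.aF i
  hf : ∀ l i, ∃ υ, UnitIn (S.ch l).B υ ∧ (hu 0 (d.f l i) : LL K) = υ * ∏ e, d.t l e ^ d.af i e
  hdet : ∀ l, (S.ch l).IsJac A ρ (d.jac l)
  hj : ∀ l, ∃ υ, UnitIn (S.ch l).B υ ∧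
    (d.jac l : LL K) * ∏ i, d.t l i = υ * ∏ i, d.t l i ^ d.aj i

/-- If `t b * c = ∏_(i ≠ b) t i ^ a i`, apply `∏ D i ^ a i` (induction on `Σ a i`): `t b` is a
unit. -/
theorem unitIn_of_mul_eq_prod [CharZero k] {S : Subalgebra k (LL K)} {t : Fin N → LL K}
    (ht : ∀ i, t i ∈ S) {D : Fin N → Derivation k (LL K) (LL K)} (hP : ∀ i, Pres S (D i))
    (hD : ∀ i j, D i (t j) = if i = j then 1 else 0) {b : Fin N} {a : Fin N → ℕ} (ha : a b = 0)
    {c : LL K} (hc : c ∈ S) (h : t b * c = ∏ i, t i ^ a i) : UnitIn S (t b) := by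
  induction hn : ∑ i, a i using Nat.strong_induction_on generalizing a c with
  | _ n ih =>
  by_cases h0 : ∀ l, a l = 0
  · refine ⟨ht b, c, hc, ?_⟩
    rw [h]
    exact Finset.prod_eq_one fun i _ => by rw [h0 i, pow_zero]
  · obtain ⟨l, hl⟩ := not_forall.1 h0
    have hlb : l ≠ b := fun e => hl (e ▸ ha)
    have h1 := congrArg (D l) h
    rw [Derivation.leibniz, hD l b, if_neg hlb, smul_zero, add_zero, smul_eq_mul,
      ResA1_deriv_mono, Finset.sum_eq_single l (fun m _ hm => by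
        rw [hD l m, if_neg hm.symm, mul_zero, zero_mul]) (fun h => absurd (Finset.mem_univ l) h),
      hD l l, if_pos rfl, mul_one] at h1
    have hk : ((a l : ℕ) : k) ≠ 0 := Nat.cast_ne_zero.2 hl
    refine ih (∑ i, (a - Pi.single l 1 : Fin N → ℕ) i) ?_ (a := a - Pi.single l 1)
      (c := ((a l : ℕ) : k)⁻¹ • D l c) ?_ (S.smul_mem (hP l c hc) _) ?_ rfl
    · rw [← hn]
      refine Finset.sum_lt_sum (fun i _ => Nat.sub_le _ _) ⟨l, Finset.mem_univ l, ?_⟩
      rw [Pi.sub_apply, Pi.single_eq_same]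
      omega
    · rw [Pi.sub_apply, ha, Nat.zero_sub]
    · rw [mul_smul_comm, h1, ← nsmul_eq_mul, ← Nat.cast_smul_eq_nsmul k, smul_smul,
        inv_mul_cancel₀ hk, one_smul]

theorem ResLab1_key [CharZero k] {S : Subalgebra k (LL K)} {t : Fin N → LL K}
    (ht : ∀ i, t i ∈ S) {D : Fin N → Derivation k (LL K) (LL K)} (hP : ∀ i, Pres S (D i))
    (hD : ∀ i j, D i (t j) = if i = j then 1 else 0) {b : Fin N} (hb : IsUnit (t b))
    {a a' : Fin N → ℕ} (ha : a b < a' b) {υ : LL K} (hυ : υ ∈ S)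
    (h : ∏ i, t i ^ a i = υ * ∏ i, t i ^ a' i) : UnitIn S (t b) := by
  obtain ⟨m, hm⟩ := Nat.exists_eq_add_of_lt ha
  refine unitIn_of_mul_eq_prod ht hP hD (a := Function.update a b 0) (Function.update_self ..)
    (c := υ * (t b ^ m * ∏ i ∈ Finset.univ.erase b, t i ^ a' i))
    (mul_mem hυ (mul_mem (pow_mem (ht b) m) (Subalgebra.prod_mem _ fun i _ => pow_mem (ht i) _))) ?_
  refine (hb.pow (a b)).mul_left_cancel ?_
  have e1 : ∏ i, t i ^ Function.update a b 0 i = ∏ i ∈ Finset.univ.erase b, t i ^ a i := by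
    rw [← Finset.mul_prod_erase _ _ (Finset.mem_univ b), Function.update_self, pow_zero, one_mul]
    exact Finset.prod_congr rfl fun i hi => by
      rw [Function.update_of_ne (Finset.ne_of_mem_erase hi)]
  rw [e1, Finset.mul_prod_erase _ (fun i => t i ^ a i) (Finset.mem_univ b), h,
    ← Finset.mul_prod_erase _ (fun i => t i ^ a' i) (Finset.mem_univ b), hm]
  ring

theorem ResLab1_prod {c : Chart k K N} (h : c.Good A ρ) (a : ℕ → ℕ) :
    ∏ e ∈ Finset.range ρ, c.y e ^ a e = ∏ i, c.t i ^ (c.lab i).elim 0 a := by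
  simp only [Chart.y, ← Finset.prod_pow]
  rw [Finset.prod_comm]
  refine Finset.prod_congr rfl fun i _ => ?_
  rcases hi : c.lab i with _ | e
  · simp
  · rw [Finset.prod_eq_single e]
    · simp
    · intro e' _ he
      rw [if_neg fun h' => he (Option.some.inj h').symm, one_pow]
    · exact fun h' => absurd (Finset.mem_range.2 (h.lt i e hi)) h'

/-- Exponents of a monomial are unique along the divisors that meet the chart. Rewrite both
products as monomials in the `t i`, cancel the smaller power of `t b = y e`, and use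
`unitIn_of_mul_eq_prod` in `away c.B r`. -/
theorem Chart.Good.unitIn_of_exp_ne [CharZero k] (hA : A.Good) {c : Chart k K N}
    (h : c.Good A ρ) {r : (LL K)ˣ} (hr : (r : LL K) ∈ c.B) {υ : LL K}
    (hυ : UnitIn (away c.B r) υ) {a a' : ℕ → ℕ}
    (heq : ∏ e ∈ Finset.range ρ, c.y e ^ a e = υ * ∏ e ∈ Finset.range ρ, c.y e ^ a' e) {e : ℕ}
    (he : e < ρ) (hne : a e ≠ a' e) : UnitIn (away c.B r) (c.y e) := by
  by_cases hl : ∀ i, c.lab i ≠ some e
  · rw [Chart.y_eq_one hl]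
    exact unitIn_one
  obtain ⟨b, hb⟩ := not_forall.1 hl
  rw [not_not] at hb
  obtain ⟨D, hD⟩ := h.exists_dual hA
  obtain ⟨σ, hσ⟩ := (h.thom b).exists_unit (h.t_ne_zero hA b)
  have hu : IsUnit (c.t b) := ⟨σ, hσ⟩
  have ht : ∀ i, c.t i ∈ away c.B r := fun i => le_away r (h.tmem i)
  have hP : ∀ i, Pres (away c.B r) (D i) := fun i => (hD.pres i).away hr
  rw [ResLab1_prod h, ResLab1_prod h] at heq
  rw [h.y_eq hb]
  rcases lt_or_gt_of_ne hne with h1 | h1
  · exact ResLab1_key ht hP hD.dual hu (a := fun i => (c.lab i).elim 0 a)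
      (a' := fun i => (c.lab i).elim 0 a') (by simpa only [hb, Option.elim_some] using h1) hυ.1 heq
  · obtain ⟨-, υ', hυ', hm⟩ := hυ
    refine ResLab1_key ht hP hD.dual hu (a := fun i => (c.lab i).elim 0 a')
      (a' := fun i => (c.lab i).elim 0 a) (by simpa only [hb, Option.elim_some] using h1) hυ' ?_
    rw [heq, ← mul_assoc, mul_comm υ', hm, one_mul]

end Pool.Agent.Lib.MP_4287a9_ag.Res
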