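import Pool.Agent.Lib.MP_4287a9_ag.ResRun
import Pool.Agent.Lib.MP_4287a9_ag.ResLemU

/-! Normality of the charts and principalization. -/

namespace Pool.Agent.Lib.MP_4287a9_ag.Res

variable {k K : Type} [Field k] [Field K] [Algebra k K] {N : ℕ}

variable {A : Amb k K N} {ρ : ℕ}

theorem Chart.Good.etC [CharZero k] (hA : A.Good) {c : Chart k K N} (h : c.Good A ρ) :
    EtC c.B (c.yy ρ) := by
  obtain ⟨D, -, -, -, hD, -⟩ := h.exists_dual_all hA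
  exact etC_of_unr h.fg' h.yy_mem (by rw [c.range_yy]; exact h.unr) hD

theorem prin_sg_zero (a : K) : sg 0 a = algebraMap K (LL K) a := by
  simp [AddMonoidAlgebra.coe_algebraMap]

/-- The charts are normal (`etC_normal`, `mem_of_isIntegral`). -/
theorem Sys.Good.upgrade [CharZero k] (hA : A.Good) {S : Sys k K N} (h : S.Good A ρ)
    {A' : Amb k K N} (hO : A'.O = A.O) (hR : A.R0 ≤ A'.R0) (hW : A'.WW ⊆ A.WW)
    (hint : ∀ a ∈ A'.R0, IsIntegral A.R0 a ∧ ∃ b ∈ A.R0, b ≠ 0 ∧ b * a ∈ A.R0) :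
    S.Good A' ρ := by
  refine ⟨h.fin, fun l => ?_, hO ▸ h.int, hO ▸ h.unit, h.div, h.glue, h.yglue, h.mono, h.dvd,
    fun l => (h.gen l).mono ?_, fun W hW' => h.cover W (hW hW')⟩
  · have hg := h.good l
    refine ⟨hg.fg, fun a ha => ?_, hg.tmem, hg.thom, hg.uunit, hg.udeg, hg.unr, hg.inj, hg.lt,
      hg.tauMono⟩
    obtain ⟨D, -, -, -, hD, -⟩ := hg.exists_dual_all hA
    have := etC_normal (hg.etC hA) hD
    obtain ⟨h1, b, hb, hb0, hba⟩ := hint a ha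
    let g : A.R0 →+* (S.ch l).B :=
      ((algebraMap K (LL K)).comp (algebraMap A.R0 K)).codRestrict (S.ch l).B.toSubring
        fun z => by
          have := hg.base z z.2
          rwa [prin_sg_zero] at this
    have h2 : IsIntegral (S.ch l).B (sg 0 a) := by
      rw [prin_sg_zero]
      exact h1.map_of_comp_eq g (algebraMap K (LL K)) (RingHom.ext fun _ => rfl)
    refine mem_of_isIntegral h2 (hg.base b hb) (AddMonoidAlgebra.single_ne_zero.2 hb0) ?_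
    rw [sg_mul, add_zero]
    exact hg.base _ hba
  · rintro z (⟨a, ha, rfl⟩ | hz)
    · exact Or.inl ⟨a, hR ha, rfl⟩
    · exact Or.inr hz

/-- The ideal generated by `I₀` is generated by one element of `I₀`, which is a monomial. -/
def Chart.Prin (c : Chart k K N) (ρ : ℕ) (I₀ : Set K) : Prop :=
  ∃ f ∈ I₀, f ≠ 0 ∧ c.Mono ρ (sg 0 f) ∧ ∀ g ∈ I₀, sg 0 g ∈ pr1 c.B (sg 0 f)

theorem Chart.Dom.prin {c c' : Chart k K N} {ρ' : ℕ} (h : c.Dom ρ c' ρ') {I₀ : Set K}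
    (hp : c.Prin ρ I₀) : c'.Prin ρ' I₀ := by
  obtain ⟨f, hf, h0, hm, hg⟩ := hp
  refine ⟨f, hf, h0, h.2 _ hm, fun g hg' => ?_⟩
  obtain ⟨a, ha, he⟩ := mem_pr1.1 (hg g hg')
  exact mem_pr1.2 ⟨a, h.1 ha, he⟩

theorem prin_sg_eq_prod {γ : Gam} (hb : Below ρ γ) (h0 : ∀ c, 0 ≤ γ c) :
    (sg γ 1 : LL K) = ∏ e ∈ Finset.range ρ, (tau K e : LL K) ^ (γ e).toNat := by
  have h1 : ∀ e, (tau K e : LL K) ^ (γ e).toNat = sg (Pi.single e (γ e)) 1 := by
    intro e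
    rw [tau, coe_hu, AddMonoidAlgebra.single_pow, Units.val_one, one_pow]
    congr 1
    rw [← Pi.single_smul, nsmul_eq_mul, mul_one, Int.toNat_of_nonneg (h0 e)]
  simp only [h1]
  rw [AddMonoidAlgebra.prod_single, Finset.prod_const_one]
  congr 1
  funext c
  rw [Finset.sum_apply]
  by_cases hc : c < ρ
  · rw [Finset.sum_eq_single c (fun b _ hb => Pi.single_eq_of_ne hb.symm _)
      (fun h => absurd (Finset.mem_range.2 hc) h), Pi.single_eq_same]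
  · rw [hb c (not_lt.1 hc)]
    refine (Finset.sum_eq_zero fun b hb' => Pi.single_eq_of_ne ?_ _).symm
    rintro rfl
    exact hc (Finset.mem_range.1 hb')

/-- `St.run` with `Stop = False`, starting at `γ = 0`: `mL ⊤ = ⊥`, so an admissible centre forces
`I₀ ⊆ {0}` (`Jw_le_prime`). At the end `sg (-γ) f` is a unit of the chart, and
`sg γ 1 = ∏ e < ρ, τ e ^ γ e` is a monomial (`tauMono`, `St.below`, `St.nonneg`). -/
theorem Sys.Good.prin [CharZero k] (hA : A.Good) (hO : A.O = ⊤) {S : Sys k K N} (h : S.Good A ρ)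
    {I₀ : Set K} (hfin : I₀.Finite) (hI : ∀ f ∈ I₀, f ∈ A.R0) (hne : ∃ f ∈ I₀, f ≠ 0) :
    ∃ (ρ' : ℕ) (S' : Sys k K N), S'.Good A ρ' ∧ S.Dom ρ S' ρ' ∧ ∀ j, (S'.ch j).Prin ρ' I₀ := by
  have hst : St A I₀ ρ S 0 := ⟨h, fun _ _ => rfl, fun _ => le_rfl, by
    rintro l _ ⟨f, hf, rfl⟩
    rw [neg_zero]
    exact (h.good l).base f (hI f hf)⟩
  obtain ⟨ρ', S', γ, h1, h2, h3⟩ := St.run hA hfin (Stop := fun _ => False) (fun _ _ h _ => h)
    (fun γ y t w fr hsub _ hc => by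
      obtain ⟨f, hf, hf0⟩ := hne
      have hq := primeAt_mL hA
      have hm : sg (-γ) f ∈ mL A.O := Sat.mem_of_le hq (Jw_le_prime hq hc.mem one_pos)
        (hsub _ ⟨f, hf, rfl⟩) (hc.adm _ ⟨f, hf, rfl⟩)
      have := ((mem_mL hA).1 hm (-γ)).2
      simp [hO, hf0] at this) hst
  refine ⟨ρ', S', h1.good, h2, fun j => ?_⟩
  rcases h3 j with ⟨_, ⟨f, hf, rfl⟩, hu⟩ | ⟨_, _, _, h⟩
  · have hf0 : f ≠ 0 := by
      rintro rfl
      obtain ⟨-, υ, -, hυ⟩ := hu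
      simp at hυ
    have he : ∀ g : K, sg 0 g = sg (-γ) g * sg γ 1 := fun g => by
      rw [sg_mul, neg_add_cancel, mul_one]
    refine ⟨f, hf, hf0, ?_, fun g hg => ?_⟩
    · rw [he, prin_sg_eq_prod h1.below h1.nonneg]
      exact (Chart.mono_of_unit hu).mul (Chart.Mono.prod fun e he =>
        ((h1.good.good j).tauMono e (Finset.mem_range.1 he)).pow _)
    · obtain ⟨-, υ, hυ, hυ'⟩ := hu
      refine mem_pr1.2 ⟨sg (-γ) g * υ, mul_mem (h1.sub j _ ⟨g, hg, rfl⟩) hυ, ?_⟩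
      rw [he f, he g]
      linear_combination (-(sg (-γ) g * sg γ 1)) * hυ'
  · exact h.elim

theorem Sys.Good.prin_all [CharZero k] (hA : A.Good) (hO : A.O = ⊤) {S : Sys k K N}
    (h : S.Good A ρ) {s : ℕ} {I : Fin s → Set K} (hfin : ∀ i, (I i).Finite)
    (hI : ∀ i, ∀ f ∈ I i, f ∈ A.R0) (hne : ∀ i, ∃ f ∈ I i, f ≠ 0) :
    ∃ (ρ' : ℕ) (S' : Sys k K N), S'.Good A ρ' ∧ S.Dom ρ S' ρ' ∧
      ∀ j i, (S'.ch j).Prin ρ' (I i) := by
  have key : ∀ u : Finset (Fin s), ∃ (ρ' : ℕ) (S' : Sys k K N), S'.Good A ρ' ∧ S.Dom ρ S' ρ' ∧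
      ∀ j, ∀ i ∈ u, (S'.ch j).Prin ρ' (I i) := by
    intro u
    induction u using Finset.induction_on with
    | empty => exact ⟨ρ, S, h, Sys.Dom.refl S ρ, fun _ _ hi => absurd hi (Finset.notMem_empty _)⟩
    | insert i u _ ih =>
      obtain ⟨ρ₁, S₁, h1, h2, h3⟩ := ih
      obtain ⟨ρ₂, S₂, h4, h5, h6⟩ := h1.prin hA hO (hfin i) (hI i) (hne i)
      refine ⟨ρ₂, S₂, h4, h2.trans h5, fun j i' hi' => ?_⟩
      rcases Finset.mem_insert.1 hi' with rfl | hi'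
      · exact h6 j
      · obtain ⟨l, hl⟩ := h5 j
        exact hl.prin (h3 l i' hi')
  obtain ⟨ρ', S', h1, h2, h3⟩ := key Finset.univ
  exact ⟨ρ', S', h1, h2, fun j i => h3 j i (Finset.mem_univ i)⟩

end Pool.Agent.Lib.MP_4287a9_ag.Res
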