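import Pool.Agent.Lib.MP_4287a9_ag.ResLab1
import Pool.Agent.Lib.MP_4287a9_ag.ResPrin
import Pool.Agent.Lib.MP_4287a9_ag.ResBl3

/-! Existence of labels with global exponents. -/

namespace Pool.Agent.Lib.MP_4287a9_ag.Res

variable {k K : Type} [Field k] [Field K] [Algebra k K] {N : ℕ}

variable {A : Amb k K N} {ρ : ℕ}

theorem resLab2_inv {S : Subalgebra k (LL K)} {υ : LL K} (h : UnitIn S υ) :
    ∃ υ', UnitIn S υ' ∧ υ * υ' = 1 := by
  obtain ⟨h1, υ', h2, h3⟩ := h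
  exact ⟨υ', ⟨h2, υ, h1, by rw [mul_comm, h3]⟩, h3⟩

theorem resLab2_lab {c : Chart k K N} {e : ℕ} (h : ¬ UnitIn c.B (c.y e)) :
    ∃ b, c.lab b = some e := by
  by_contra hl
  refine h ?_
  rw [Chart.y_eq_one fun i hi => hl ⟨i, hi⟩]
  exact unitIn_one

/-- Two associated monomials have the same exponents along the divisors that meet the overlap. -/
theorem resLab2_ne [CharZero k] (hA : A.Good) {S : Sys k K N} (h : S.Good A ρ) (l l' : S.ι)
    {z z' υ υ' w : LL K} {a a' : ℕ → ℕ} (hυ : UnitIn (S.ch l).B υ) (hυ' : UnitIn (S.ch l').B υ')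
    (hw : UnitIn (S.ov l l') w) (hz : z = υ * ∏ e ∈ Finset.range ρ, (S.ch l).y e ^ a e)
    (hz' : z' = υ' * ∏ e ∈ Finset.range ρ, (S.ch l').y e ^ a' e) (hzz : z' = w * z) {e : ℕ}
    (he : e < ρ) (hne : a e ≠ a' e) : UnitIn (S.ov l l') ((S.ch l).y e) := by
  choose g hg hg' using h.yglue l l'
  obtain ⟨υ₁, h1, h1'⟩ := resLab2_inv (hw.mul (hυ.mono (le_away _)))
  refine (h.good l).unitIn_of_exp_ne hA (h.div l l')
    (υ := υ₁ * (υ' * ∏ e ∈ Finset.range ρ, g e ^ a' e))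
    (h1.mul ((hυ'.mono (h.glue l l')).mul (UnitIn.prod fun e _ => (hg e).pow _))) ?_ he hne
  simp only [hg', mul_pow, Finset.prod_mul_distrib] at hz'
  rw [hz, hz'] at hzz
  linear_combination (-υ₁) * hzz - (∏ e ∈ Finset.range ρ, (S.ch l).y e ^ a e) * h1'

/-- The product over the old labels and the product over the new labels are associated. -/
theorem resLab2_prod {c : Chart k K N} {μ : ℕ} {ε : Fin μ → ℕ} {On : Fin μ → Prop}
    {T : Fin μ → LL K} (h1 : ∀ i, On i → T i = c.y (ε i)) (h2 : ∀ i, ¬ On i → T i = 1)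
    (h3 : ∀ i, On i → ε i < ρ ∧ ¬ UnitIn c.B (c.y (ε i)))
    (h4 : ∀ i i', On i → On i' → ε i = ε i' → i = i')
    (h5 : ∀ e < ρ, ¬ UnitIn c.B (c.y e) → ∃ i, On i ∧ ε i = e) {a : ℕ → ℕ} {a' : Fin μ → ℕ}
    (ha : ∀ i, On i → a (ε i) = a' i) :
    ∃ υ, UnitIn c.B υ ∧ ∏ e ∈ Finset.range ρ, c.y e ^ a e = υ * ∏ i, T i ^ a' i := by
  classical
  refine ⟨∏ e ∈ Finset.range ρ with UnitIn c.B (c.y e), c.y e ^ a e,
    UnitIn.prod fun e he => (Finset.mem_filter.1 he).2.pow _, ?_⟩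
  rw [← Finset.prod_filter_mul_prod_filter_not (Finset.range ρ) fun e => UnitIn c.B (c.y e),
    ← Finset.prod_filter_mul_prod_filter_not Finset.univ On]
  congr 1
  rw [Finset.prod_eq_one (s := Finset.univ.filter fun i => ¬ On i) fun i hi => by
    rw [h2 i (Finset.mem_filter.1 hi).2, one_pow], mul_one]
  symm
  refine Finset.prod_bij (fun i _ => ε i) (fun i hi => ?_) (fun i hi i' hi' => ?_)
    (fun e he => ?_) fun i hi => ?_
  · have := h3 i (Finset.mem_filter.1 hi).2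
    exact Finset.mem_filter.2 ⟨Finset.mem_range.2 this.1, this.2⟩
  · exact h4 i i' (Finset.mem_filter.1 hi).2 (Finset.mem_filter.1 hi').2
  · obtain ⟨he1, he2⟩ := Finset.mem_filter.1 he
    obtain ⟨i, hi, rfl⟩ := h5 e (Finset.mem_range.1 he1) he2
    exact ⟨i, Finset.mem_filter.2 ⟨Finset.mem_univ i, hi⟩, rfl⟩
  · rw [h1 i (Finset.mem_filter.1 hi).2, ha i (Finset.mem_filter.1 hi).2]

/-- An enumeration of the pairs `(e, α l e)`. -/
theorem resLab2_enum {ι V : Type} [Finite ι] (ρ : ℕ) (P : ι → ℕ → Prop) (α : ι → ℕ → V) :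
    ∃ (μ : ℕ) (ε : Fin μ → ℕ) (β : Fin μ → V), (∀ i i', ε i = ε i' → β i = β i' → i = i') ∧
      (∀ i, ε i < ρ ∧ ∃ l, P l (ε i) ∧ α l (ε i) = β i) ∧
      ∀ l, ∀ e < ρ, P l e → ∃ i, ε i = e ∧ β i = α l e := by
  let Q : Set (ℕ × V) := {p | p.1 < ρ ∧ ∃ l, P l p.1 ∧ α l p.1 = p.2}
  have hQ : Q.Finite := by
    refine (Set.finite_range fun p : ι × Fin ρ => ((p.2 : ℕ), α p.1 p.2)).subset ?_
    rintro ⟨e, v⟩ ⟨he, l, -, hl⟩
    exact ⟨(l, ⟨e, he⟩), Prod.ext rfl hl⟩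
  have := hQ.to_subtype
  obtain ⟨μ, ⟨σ⟩⟩ := Finite.exists_equiv_fin Q
  refine ⟨μ, fun i => (σ.symm i).1.1, fun i => (σ.symm i).1.2, fun i i' h1 h2 => ?_,
    fun i => (σ.symm i).2, fun l e he hP => ⟨σ ⟨(e, α l e), he, l, hP, rfl⟩, ?_, ?_⟩⟩
  · exact σ.symm.injective (Subtype.ext (Prod.ext h1 h2))
  · simp
  · simp

theorem resLab2_pos [CharZero k] (hA : A.Good) {c : Chart k K N} (h : c.Good A ρ) {z υ : LL K}
    {a : ℕ → ℕ} (hυ : UnitIn c.B υ) (hz : z = υ * ∏ e ∈ Finset.range ρ, c.y e ^ a e) {e : ℕ}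
    (hd : z ∈ pr1 c.B (c.y e)) (he : ¬ UnitIn c.B (c.y e)) : 0 < a e := by
  refine Nat.pos_of_ne_zero fun h0 => he ?_
  obtain ⟨b, hb⟩ := resLab2_lab he
  obtain ⟨D, hD⟩ := h.exists_dual hA
  obtain ⟨c₁, hc₁, hc⟩ := mem_pr1.1 hd
  obtain ⟨-, υ', hυ', h1⟩ := hυ
  rw [h.y_eq hb] at hc ⊢
  refine unitIn_of_mul_eq_prod h.tmem hD.pres hD.dual (a := fun i => (c.lab i).elim 0 a)
    (by simpa only [hb, Option.elim_some] using h0) (mul_mem hc₁ hυ') ?_
  rw [← ResLab1_prod h]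
  linear_combination υ' * hz - υ' * hc + (∏ e ∈ Finset.range ρ, c.y e ^ a e) * h1

/-- Choose on every chart `l` the exponent functions `aF l`, `af l i`, `aj l : ℕ → ℕ` and let
`α l e = (aF l e, (af l i e)_i, aj l e)`. The new labels are the pairs `(e, α l e)` with `e < ρ` and
`y l e` not a unit of `B l` (a finite set, enumerate it by `Fin μ`); `lam l (e, β) = some b` if
`lab l b = some e`, `t l b` is not a unit and `α l e = β`, and `none` otherwise. So
`t l (e, β)` is `y l e` or `1`, and `∏_(e < ρ) y l e ^ a l e` is associated in `B l` with the product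
over the new labels. `glue`: if `α l e ≠ α l' e` then `y l e` is a unit of the overlap
(`unitIn_of_exp_ne`: `F l ~ F l'`, `f l i ~ f l' i`, `jac l ~ jac l'` by `jac_div`, `ov_comm`).
`aFpos`: if `aF l e = 0`, then `F = c * y e` and `unitIn_of_mul_eq_prod` show that `y l e` is a
unit. -/
theorem Sys.Good.exists_lab [CharZero k] (hA : A.Good) {S : Sys k K N} (h : S.Good A ρ) {s : ℕ}
    {I : Fin s → Set K} (hI : ∀ l i, (S.ch l).Prin ρ (I i)) (hJ : ∀ l, (S.ch l).JMono A ρ) :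
    ∃ d : Lab S s, d.Good A ρ I := by
  classical
  have := h.fin
  choose υF hυF aF haF using h.mono
  choose f hfI hf0 hfm hfg using hI
  choose υf hυf af haf using hfm
  choose j hj hjm using hJ
  choose υj hυj aj haj using hjm
  let α : S.ι → ℕ → ℕ × (Fin s → ℕ) × ℕ := fun l e => (aF l e, fun i => af l i e, aj l e)
  have key : ∀ l l', ∀ e < ρ, α l e ≠ α l' e → UnitIn (S.ov l l') ((S.ch l).y e) := by
    intro l l' e he hne
    have hle : (S.ch l).B ≤ S.ov l l' := le_away _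
    by_contra hu
    refine hne (Prod.ext ?_ (Prod.ext (funext fun i => ?_) ?_))
    · by_contra h1
      refine hu (resLab2_ne hA h l l' (hυF l) (hυF l')
        (unitIn_coe.2 ⟨hle (h.div l l'), inv_mem_away _⟩) (haF l) (haF l') ?_ he h1)
      rw [← Units.val_mul, hu_mul, add_zero, div_mul_cancel]
    · by_contra h1
      obtain ⟨c₁, hc₁, e₁⟩ := mem_pr1.1 (hfg l i _ (hfI l' i))
      obtain ⟨c₂, hc₂, e₂⟩ := mem_pr1.1 (hfg l' i _ (hfI l i))
      refine hu (resLab2_ne hA h l l' (hυf l i) (hυf l' i)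
        ⟨hle hc₁, c₂, h.glue l l' hc₂, ?_⟩ (haf l i) (haf l' i) e₁ he h1)
      refine mul_right_cancel₀ (AddMonoidAlgebra.single_ne_zero.2 (hf0 l i) :
        (sg 0 (f l i) : LL K) ≠ 0) ?_
      linear_combination (-c₂) * e₁ - e₂
    · by_contra h1
      choose g hg hg' using h.yglue l l'
      have h2 := (h.good l).jac_div hA (h.good l') (h.div l l') ⟨_, _, rfl⟩ (h.glue l l')
        (hj l) (hj l')
      have h3 := (h.good l').jac_div hA (h.good l) (h.div l' l) ⟨_, _, rfl⟩ (h.glue l' l)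
        (hj l') (hj l)
      have h4 : UnitIn (S.ov l l') ((j l' / j l : (LL K)ˣ) : LL K) :=
        unitIn_coe.2 ⟨h.ov_comm l l' ▸ h3, by rw [inv_div]; exact h2⟩
      refine hu (resLab2_ne hA h l l' (hυj l) (hυj l')
        (h4.mul (UnitIn.prod (s := Finset.range ρ) fun e _ => hg e)) (haj l) (haj l') ?_ he h1)
      have h5 : ((j l' / j l : (LL K)ˣ) : LL K) * j l = j l' := by
        rw [← Units.val_mul, div_mul_cancel]
      simp only [hg', Finset.prod_mul_distrib]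
      rw [← h5]
      ring
  obtain ⟨μ, ε, β, hinj, hocc, hsurj⟩ :=
    resLab2_enum ρ (fun l e => ¬ UnitIn (S.ch l).B ((S.ch l).y e)) α
  let On : S.ι → Fin μ → Prop := fun l i =>
    ¬ UnitIn (S.ch l).B ((S.ch l).y (ε i)) ∧ α l (ε i) = β i
  let d : Lab S s :=
    { μ := μ
      lam := fun l i => if hi : On l i then some (resLab2_lab hi.1).choose else none
      f := fun l i => Units.mk0 (f l i) (hf0 l i)
      jac := j
      aF := fun i => (β i).1
      af := fun a i => (β i).2.1 a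
      aj := fun i => (β i).2.2 }
  have h1 : ∀ l i, On l i → d.t l i = (S.ch l).y (ε i) := fun l i hi => by
    simp only [Lab.t, d, dif_pos hi, Option.elim_some]
    exact ((h.good l).y_eq (resLab2_lab hi.1).choose_spec).symm
  have h2 : ∀ l i, ¬ On l i → d.t l i = 1 := fun l i hi => by
    simp only [Lab.t, d, dif_neg hi, Option.elim_none]
  have hp : ∀ l (a : ℕ → ℕ) (a' : Fin μ → ℕ), (∀ i, On l i → a (ε i) = a' i) →
      ∃ υ, UnitIn (S.ch l).B υ ∧
        ∏ e ∈ Finset.range ρ, (S.ch l).y e ^ a e = υ * ∏ i, d.t l i ^ a' i := fun l a a' ha =>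
    resLab2_prod (h1 l) (h2 l) (fun i hi => ⟨(hocc i).1, hi.1⟩)
      (fun i i' hi hi' he => hinj i i' he (by rw [← hi.2, ← hi'.2, he]))
      (fun e he hu => by
        obtain ⟨i, rfl, hi⟩ := hsurj l e he hu
        exact ⟨i, ⟨hu, hi.symm⟩, rfl⟩) ha
  refine ⟨d, fun l i i' b hi hi' => ?_, fun i => ?_, fun l l' i => ?_, hfI, hfg, fun i => ?_,
    fun l => ?_, fun l a => ?_, hj, fun l => ?_⟩
  · by_cases ho : On l i
    · by_cases ho' : On l i'
      · simp only [d, dif_pos ho, dif_pos ho', Option.some.injEq] at hi hi'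
        have e1 := (resLab2_lab ho.1).choose_spec
        have e2 := (resLab2_lab ho'.1).choose_spec
        rw [hi] at e1
        rw [hi', e1] at e2
        have e3 := Option.some.inj e2
        exact hinj i i' e3 (by rw [← ho.2, ← ho'.2, e3])
      · simp [d, dif_neg ho'] at hi'
    · simp [d, dif_neg ho] at hi
  · obtain ⟨-, l, hl⟩ := hocc i
    exact ⟨l, by rw [h1 l i hl]; exact hl.1⟩
  · obtain ⟨υ, hυ, e1⟩ := h.yglue l l' (ε i)
    have hle : (S.ch l).B ≤ S.ov l l' := le_away _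
    by_cases ho : On l i <;> by_cases ho' : On l' i
    · exact ⟨υ, hυ, by rw [h1 l i ho, h1 l' i ho', e1]⟩
    · have hu : UnitIn (S.ov l l') ((S.ch l).y (ε i)) := by
        by_cases h3 : UnitIn (S.ch l').B ((S.ch l').y (ε i))
        · refine UnitIn.of_mul (hle ((h.good l).y_mem _)) hυ.1 ?_
          rw [mul_comm, ← e1]
          exact h3.mono (h.glue l l')
        · exact key l l' _ (hocc i).1 fun h4 => ho' ⟨h3, h4 ▸ ho.2⟩
      obtain ⟨υ', h5, h6⟩ := resLab2_inv hu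
      exact ⟨υ', h5, by rw [h1 l i ho, h2 l' i ho', mul_comm, h6]⟩
    · have hu : UnitIn (S.ov l l') ((S.ch l).y (ε i)) := by
        by_cases h3 : UnitIn (S.ch l).B ((S.ch l).y (ε i))
        · exact h3.mono hle
        · exact key l l' _ (hocc i).1 fun h4 => ho ⟨h3, h4 ▸ ho'.2⟩
      exact ⟨υ * (S.ch l).y (ε i), hυ.mul hu, by rw [h1 l' i ho', h2 l i ho, e1, mul_one]⟩
    · exact ⟨1, unitIn_one, by rw [h2 l i ho, h2 l' i ho', mul_one]⟩
  · obtain ⟨-, l, hl, hl'⟩ := hocc i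
    have := resLab2_pos hA (h.good l) (hυF l) (haF l) (h.dvd l (ε i)) hl
    simp only [d, ← hl']
    exact this
  · obtain ⟨υ, hυ, e1⟩ := hp l (aF l) d.aF fun i hi => by simp only [d, ← hi.2, α]
    exact ⟨υF l * υ, (hυF l).mul hυ, by rw [haF l, e1, mul_assoc]⟩
  · obtain ⟨υ, hυ, e1⟩ := hp l (af l a) (d.af a) fun i hi => by simp only [d, ← hi.2, α]
    exact ⟨υf l a * υ, (hυf l a).mul hυ, by rw [mul_assoc, ← e1, ← haf l a]; rfl⟩
  · obtain ⟨υ, hυ, e1⟩ := hp l (aj l) d.aj fun i hi => by simp only [d, ← hi.2, α]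
    obtain ⟨υ₁, hυ₁, e2⟩ := hp l (fun _ => 1) (fun _ => 1) fun _ _ => rfl
    obtain ⟨υ₂, hυ₂, e3⟩ := resLab2_inv hυ₁
    simp only [pow_one] at e2
    refine ⟨υ₂ * (υj l * υ), hυ₂.mul ((hυj l).mul hυ), ?_⟩
    have e4 := haj l
    rw [e1, e2] at e4
    linear_combination υ₂ * e4 - ((j l : LL K) * ∏ i, d.t l i) * e3

end Pool.Agent.Lib.MP_4287a9_ag.Res
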