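import Pool.Agent.Lib.MP_4287a9_ag.ResB

/-! Primitive element, common denominator. -/

namespace Pool.Agent.Lib.MP_4287a9_ag.Res

variable {k K : Type} [Field k] [Field K] [Algebra k K] {N : ℕ}

open Polynomial in
theorem ResPrim_abs {A R F L : Type} [CommRing A] [IsDomain A] [CommRing R] [IsDomain R] [Field F]
    [Field L] [CharZero F] [Algebra A R] [FaithfulSMul A R] [Module.Finite A R] [Algebra A F]
    [IsFractionRing A F] [Algebra R L] [IsFractionRing R L] [Algebra A L] [Algebra F L]
    [IsScalarTower A R L] [IsScalarTower A F L] :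
    ∃ (θ : R) (q : A[X]), aeval θ q = 0 ∧ aeval θ (derivative q) ≠ 0 ∧
      ∀ r : R, ∃ (p : A[X]) (b : A), b ≠ 0 ∧ algebraMap A R b * r = aeval θ p := by
  haveI : Module.Finite F L := Module.Finite.of_isLocalization A R (nonZeroDivisors A)
  obtain ⟨α, hα⟩ := Field.exists_primitive_element F L
  obtain ⟨⟨θ, _, a, ha, rfl⟩, hθ⟩ :=
    IsLocalization.surj (Algebra.algebraMapSubmonoid R (nonZeroDivisors A)) α
  have hRL := IsFractionRing.injective R L
  have ha' : algebraMap A F a ≠ 0 := IsFractionRing.to_map_ne_zero_of_mem_nonZeroDivisors ha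
  have hθ' : α * algebraMap F L (algebraMap A F a) = algebraMap R L θ := by
    rw [← IsScalarTower.algebraMap_apply, IsScalarTower.algebraMap_apply A R L]
    exact hθ
  have htop : IntermediateField.adjoin F {algebraMap R L θ} = ⊤ := by
    rw [eq_top_iff, ← hα, IntermediateField.adjoin_simple_le_iff,
      show α = algebraMap R L θ / algebraMap F L (algebraMap A F a) from
        eq_div_of_mul_eq ((_root_.map_ne_zero _).2 ha') hθ']
    exact div_mem (IntermediateField.mem_adjoin_simple_self _ _)
      (IntermediateField.algebraMap_mem _ _)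
  have key : ∀ q : F[X], ∃ (p : A[X]) (b : A), b ≠ 0 ∧
      algebraMap R L (aeval θ p) = algebraMap A L b * aeval (algebraMap R L θ) q ∧
      algebraMap R L (aeval θ (derivative p)) =
        algebraMap A L b * aeval (algebraMap R L θ) (derivative q) := by
    intro q
    obtain ⟨b, hb, h⟩ := IsLocalization.integerNormalization_spec (nonZeroDivisors A) q
    refine ⟨IsLocalization.integerNormalization (nonZeroDivisors A) q, b,
      nonZeroDivisors.ne_zero hb, ?_, ?_⟩
    · rw [← aeval_algebraMap_apply, ← aeval_map_algebraMap F, h, ← algebraMap_smul F b q,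
        map_smul, Algebra.smul_def, ← IsScalarTower.algebraMap_apply]
    · rw [← aeval_algebraMap_apply, ← aeval_map_algebraMap F, ← derivative_map, h,
        ← algebraMap_smul F b q, map_smul, map_smul, Algebra.smul_def,
        ← IsScalarTower.algebraMap_apply]
  have hAL : Function.Injective (algebraMap A L) := by
    rw [IsScalarTower.algebraMap_eq A R L]
    exact hRL.comp (FaithfulSMul.algebraMap_injective A R)
  obtain ⟨q, b, hb, h1, h2⟩ := key (minpoly F (algebraMap R L θ))
  refine ⟨θ, q, hRL ?_, fun h => ?_, fun r => ?_⟩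
  · rw [h1, minpoly.aeval, mul_zero, map_zero]
  · rw [h, map_zero] at h2
    exact mul_ne_zero ((map_ne_zero_iff _ hAL).2 hb)
      ((Algebra.IsSeparable.isSeparable F _).aeval_derivative_ne_zero (minpoly.aeval _ _)) h2.symm
  · have h3 : algebraMap R L r ∈ Algebra.adjoin F {algebraMap R L θ} := by
      rw [← IntermediateField.adjoin_simple_toSubalgebra_of_isAlgebraic
        (IsAlgebraic.of_finite F _), htop]
      exact Algebra.mem_top
    rw [Algebra.adjoin_singleton_eq_range_aeval] at h3
    obtain ⟨q', hq'⟩ := h3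
    obtain ⟨p, c, hc, h4, -⟩ := key q'
    refine ⟨p, c, hc, hRL ?_⟩
    rw [h4, map_mul, ← IsScalarTower.algebraMap_apply]
    exact congrArg _ hq'.symm

theorem ResPrim_lift {R : Type} [CommRing R] [Algebra k R] {n : ℕ} (x : Fin n → R) (θ : R)
    (q : Polynomial (Algebra.adjoin k (Set.range x))) :
    ∃ P : MvPolynomial (Fin (n + 1)) k,
      MvPolynomial.aeval (Fin.cons θ x : Fin (n + 1) → R) P = Polynomial.aeval θ q ∧
      MvPolynomial.aeval (Fin.cons θ x : Fin (n + 1) → R) (MvPolynomial.pderiv 0 P) =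
        Polynomial.aeval θ (Polynomial.derivative q) := by
  classical
  induction q using Polynomial.induction_on' with
  | add p q hp hq =>
    obtain ⟨P, h1, h2⟩ := hp
    obtain ⟨Q, h3, h4⟩ := hq
    exact ⟨P + Q, by rw [map_add, map_add, h1, h3], by
      rw [map_add, map_add, map_add, map_add, h2, h4]⟩
  | monomial i a =>
    obtain ⟨c, hc⟩ : a.1 ∈ (MvPolynomial.aeval x : MvPolynomial (Fin n) k →ₐ[k] R).range :=
      Algebra.adjoin_range_eq_range_aeval k x ▸ a.2
    have h1 : MvPolynomial.aeval (Fin.cons θ x : Fin (n + 1) → R)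
        (MvPolynomial.rename Fin.succ c) = algebraMap _ R a := by
      rw [MvPolynomial.aeval_rename]
      exact hc
    have h2 : MvPolynomial.pderiv 0 (MvPolynomial.rename Fin.succ c) = 0 :=
      MvPolynomial.pderiv_eq_zero_of_notMem_vars fun h => by
        obtain ⟨j, -, hj⟩ := MvPolynomial.mem_vars_rename _ _ h
        exact Fin.succ_ne_zero j hj
    refine ⟨MvPolynomial.rename Fin.succ c * MvPolynomial.X 0 ^ i, ?_, ?_⟩
    · rw [map_mul, map_pow, h1, MvPolynomial.aeval_X, Fin.cons_zero, Polynomial.aeval_monomial]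
    · rw [MvPolynomial.pderiv_mul, h2, zero_mul, zero_add, MvPolynomial.pderiv_pow,
        MvPolynomial.pderiv_X_self, mul_one, map_mul, map_mul, map_pow, h1, MvPolynomial.aeval_X,
        Fin.cons_zero, Polynomial.derivative_monomial, Polynomial.aeval_monomial, map_mul,
        map_natCast, map_natCast, mul_assoc]

/-- A primitive element. `K` is finite and separable over `F = IntermediateField.adjoin k (range x)`
(`R` is of finite type and integral over `k[x]`); take a primitive element, multiply it by a nonzero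
element of `k[x]` to make it integral over `k[x]`, so that it lies in `R`. Clear the denominators
of the minimal polynomial over `F` and lift the coefficients to `MvPolynomial (Fin n) k`; it is
convenient to build `P` as `Σ i, rename Fin.succ (c i) * X 0 ^ i`. -/
theorem exists_primitive [CharZero k] {R : Type} [CommRing R] [IsDomain R] [IsIntegrallyClosed R]
    [Algebra k R] [Algebra.FiniteType k R] [Algebra R K] [IsScalarTower k R K] [IsFractionRing R K]
    {n : ℕ} (x : Fin n → R) (hx : ∀ r : R, IsIntegral (Algebra.adjoin k (Set.range x)) r) :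
    ∃ (θ : R) (P : MvPolynomial (Fin (n + 1)) k),
      MvPolynomial.aeval (Fin.cons θ x : Fin (n + 1) → R) P = 0 ∧
      MvPolynomial.aeval (Fin.cons θ x : Fin (n + 1) → R) (MvPolynomial.pderiv 0 P) ≠ 0 ∧
      ∀ r : R, ∃ p p' : MvPolynomial (Fin (n + 1)) k,
        MvPolynomial.aeval (Fin.cons θ x : Fin (n + 1) → R) p' ≠ 0 ∧
        MvPolynomial.aeval (Fin.cons θ x : Fin (n + 1) → R) p' * r =
          MvPolynomial.aeval (Fin.cons θ x : Fin (n + 1) → R) p := by
  haveI : Algebra.IsIntegral (Algebra.adjoin k (Set.range x)) R := ⟨hx⟩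
  haveI : Algebra.FiniteType (Algebra.adjoin k (Set.range x)) R :=
    Algebra.FiniteType.of_restrictScalars_finiteType k _ R
  haveI : Module.Finite (Algebra.adjoin k (Set.range x)) R := Algebra.IsIntegral.finite
  haveI : FaithfulSMul (Algebra.adjoin k (Set.range x)) K := by
    rw [faithfulSMul_iff_algebraMap_injective,
      IsScalarTower.algebraMap_eq (Algebra.adjoin k (Set.range x)) R K]
    exact (IsFractionRing.injective R K).comp Subtype.val_injective
  letI := FractionRing.liftAlgebra (Algebra.adjoin k (Set.range x)) K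
  haveI : CharZero (FractionRing (Algebra.adjoin k (Set.range x))) :=
    charZero_of_injective_algebraMap (algebraMap k _).injective
  obtain ⟨θ, q, h1, h2, h3⟩ := ResPrim_abs (A := Algebra.adjoin k (Set.range x)) (R := R)
    (F := FractionRing (Algebra.adjoin k (Set.range x))) (L := K)
  obtain ⟨P, h4, h5⟩ := ResPrim_lift x θ q
  refine ⟨θ, P, h4.trans h1, h5 ▸ h2, fun r => ?_⟩
  obtain ⟨p, b, hb, h6⟩ := h3 r
  obtain ⟨p₁, h7, -⟩ := ResPrim_lift x θ p
  obtain ⟨p₂, h8, -⟩ := ResPrim_lift x θ (Polynomial.C b)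
  rw [Polynomial.aeval_C] at h8
  refine ⟨p₁, p₂, ?_, by rw [h8, h7, h6]⟩
  rw [h8]
  exact fun h => hb (Subtype.ext h)

/-- A common denominator for the values of the derivations on generators of `R`. -/
theorem exists_denom {R : Type} [CommRing R] [IsDomain R] [Algebra k R] [Algebra.FiniteType k R]
    [Algebra R K] [IsScalarTower k R K] [IsFractionRing R K] (D₀ : Fin N → Derivation k K K) :
    ∃ c₀ : R, c₀ ≠ 0 ∧ ∀ i (r : R), ∃ r' : R,
      algebraMap R K c₀ * D₀ i (algebraMap R K r) = algebraMap R K r' := by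
  obtain ⟨s, hs⟩ := Algebra.FiniteType.out (R := k) (A := R)
  obtain ⟨b, hb⟩ := IsLocalization.exist_integer_multiples_of_finite (nonZeroDivisors R)
    (fun p : Fin N × s => D₀ p.1 (algebraMap R K p.2))
  refine ⟨b, nonZeroDivisors.ne_zero b.2, fun i r => ?_⟩
  have hr : r ∈ Algebra.adjoin k (s : Set R) := hs ▸ Algebra.mem_top
  induction hr using Algebra.adjoin_induction with
  | mem r hr =>
    obtain ⟨r', h⟩ := hb (i, ⟨r, hr⟩)
    exact ⟨r', by rw [h, Algebra.smul_def]⟩
  | algebraMap c =>
    exact ⟨0, by rw [← IsScalarTower.algebraMap_apply, Derivation.map_algebraMap, mul_zero,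
      map_zero]⟩
  | add a c _ _ ha hc =>
    obtain ⟨a', ha⟩ := ha
    obtain ⟨c', hc⟩ := hc
    exact ⟨a' + c', by rw [map_add, map_add, mul_add, ha, hc, map_add]⟩
  | mul a c _ _ ha hc =>
    obtain ⟨a', ha⟩ := ha
    obtain ⟨c', hc⟩ := hc
    refine ⟨a * c' + c * a', ?_⟩
    rw [map_mul, Derivation.leibniz, map_add, map_mul, map_mul, ← ha, ← hc, smul_eq_mul,
      smul_eq_mul]
    ring

/-- The ambient data over `K`: `O = ⊤`, and `WW` is the set of the valuation rings (as
`k`-subalgebras) that contain `R₁`. -/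
theorem exists_amb_top (R₀ R₁ : Subalgebra k K) {x : Fin N → K} (hx : ∀ i, x i ∈ R₀)
    {D₀ : Fin N → Derivation k K K} (hD : ∀ a b, D₀ a (x b) = if a = b then 1 else 0) :
    ∃ A : Amb k K N, A.Good ∧ A.O = ⊤ ∧ A.R0 = R₀ ∧ A.x0 = x ∧ A.D0 = D₀ ∧
      A.WW = {W | R₁ ≤ W ∧ ∀ a : K, a ∈ W ∨ a⁻¹ ∈ W} := by
  refine ⟨⟨⊤, R₀, x, D₀, {W | R₁ ≤ W ∧ ∀ a : K, a ∈ W ∨ a⁻¹ ∈ W}⟩,
    ⟨fun a _ b _ h => ?_, hx, hD, fun _ _ => le_top, fun _ hW a _ => hW.2 a⟩,
    rfl, rfl, rfl, rfl, rfl⟩
  by_cases ha : a = 0
  · rw [ha, zero_add] at h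
    exact Or.inr ⟨h ▸ one_ne_zero, Algebra.mem_top⟩
  · exact Or.inl ⟨ha, Algebra.mem_top⟩

end Pool.Agent.Lib.MP_4287a9_ag.Res
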