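import Pool.Agent.Lib.MP_4287a9_ag.ResImg
import Pool.Agent.Lib.MP_4287a9_ag.ResB4

/-! Reduction of the embedded resolution to the strict transform. -/

namespace Pool.Agent.Lib.MP_4287a9_ag.Res

variable {k K : Type} [Field k] [Field K] [Algebra k K] {N : ℕ}

/-- Reduction modulo the maximal ideal of `O`. With `f` from `exists_red`: `B' = img f B`,
`t' i = f (t i.succ)`, `lab' i = lab i.succ`, `u' e` the unit with value `f (u e)` (`1` for `e ≥ ρ`),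
`F' l = π (F l)`. One has `f (t 0) = 0` (`mem_mL`), `y' e = f (y e)` (`Fin.prod_univ_succ`),
`f τ = τ`. `cover`: if `sg 0 a = f b` with `b ∈ B`, then `prj 0 b ∈ B` and `a = π (b.coeff 0)`. -/
theorem Sys.Good.reduce {n ρ : ℕ} {K' : Type} [Field K'] [Algebra k K'] {A : Amb k K (n + 1)}
    (hA : A.Good) {A' : Amb k K' n} (π : A.O →ₐ[k] K')
    (hπ : ∀ a : A.O, π a = 0 ↔ ((a : K) = 0 ∨ (a : K)⁻¹ ∉ A.O)) (hO : A'.O = ⊤)
    (hR : ∀ a', a' ∈ A'.R0 ↔ ∃ a : A.O, (a : K) ∈ A.R0 ∧ π a = a')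
    (hW : ∀ W' ∈ A'.WW, ∃ W ∈ A.WW, ∀ a : A.O, (a : K) ∈ W → π a ∈ W') {S : Sys k K (n + 1)}
    (h : S.Good A ρ) (h0 : ∀ l, (S.ch l).lab 0 = none ∧ (S.ch l).t 0 ∈ mL A.O) :
    ∃ S' : Sys k K' n, S'.Good A' ρ := by
  classical
  obtain ⟨f, hf, hsg, hco⟩ := exists_red π
  have hH : ∀ {γ : Gam} {z : LL K}, IsH γ z → z ∈ OL A.O → IsH γ (f z) := by
    rintro γ _ ⟨a, rfl⟩ hz
    exact ⟨_, hsg γ ⟨a, sg_mem_OL.1 hz⟩⟩
  have htau : ∀ e, f (tau K e : LL K) = (tau K' e : LL K') := fun e => by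
    have := hsg (Pi.single e 1) 1
    rwa [map_one] at this
  have hF : ∀ l, (S.F l : K) ∈ A.O := fun l =>
    sg_mem_OL.1 (h.int l ((h.good l).mono_mem (h.mono l)))
  obtain ⟨F', hF1, hF2⟩ : ∃ F' : S.ι → K'ˣ, (∀ l, (F' l : K') = π ⟨_, hF l⟩) ∧
      ∀ l, (((F' l)⁻¹ : K'ˣ) : K') = π ⟨_, h.unit l⟩ :=
    ⟨fun l => Units.mkOfMulEqOne (π ⟨_, hF l⟩) (π ⟨_, h.unit l⟩) (by
      rw [← map_mul, ← map_one π]
      exact congrArg π (Subtype.ext (S.F l).mul_inv)), fun _ => rfl, fun _ => rfl⟩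
  have hq0 : ∀ l, (hu 0 (F' l) : LL K') = f (hu 0 (S.F l)) := fun l => by
    rw [coe_hu, hF1]
    exact (hsg 0 ⟨_, hF l⟩).symm
  have hu0 : ∀ l, UnitIn (OL A.O) (hu 0 (S.F l) : LL K) := fun l =>
    unitIn_OL_hu.2 ⟨hF l, h.unit l⟩
  have hq1 : ∀ l l', (hu 0 (F' l' / F' l) : LL K') = f (hu 0 (S.F l' / S.F l)) := fun l l' => by
    rw [coe_hu, coe_hu, div_eq_mul_inv, div_eq_mul_inv, Units.val_mul, Units.val_mul, hF1, hF2,
      ← map_mul]
    exact (hsg 0 (⟨_, hF l'⟩ * ⟨_, h.unit l⟩)).symm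
  have hu1 : ∀ l l', UnitIn (OL A.O) (hu 0 (S.F l' / S.F l) : LL K) := fun l l' => by
    rw [unitIn_OL_hu, inv_div, div_eq_mul_inv, div_eq_mul_inv, Units.val_mul, Units.val_mul]
    exact ⟨mul_mem (hF l') (h.unit l), mul_mem (hF l) (h.unit l')⟩
  have hov : ∀ l l', S.ov l l' ≤ OL A.O := fun l l' =>
    away_le (h.int l) (unitIn_coe.1 (hu1 l l')).2
  have hex : ∀ l e, ∃ v : (LL K')ˣ, e < ρ → (v : LL K') = f ((S.ch l).u e) := fun l e => by
    by_cases he : e < ρ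
    · obtain ⟨v, hv⟩ := hf.exists_unit (((h.good l).uunit e he).mono (h.int l))
      exact ⟨v, fun _ => hv⟩
    · exact ⟨1, fun he' => absurd he' he⟩
  choose u' hu' using hex
  obtain ⟨c', hB, ht, hcu, hlab⟩ : ∃ c' : S.ι → Chart k K' n, (∀ l, (c' l).B = img f (S.ch l).B) ∧
      (∀ l i, (c' l).t i = f ((S.ch l).t i.succ)) ∧ (∀ l, (c' l).u = u' l) ∧
      ∀ l i, (c' l).lab i = (S.ch l).lab i.succ :=
    ⟨fun l => ⟨img f (S.ch l).B, fun i => f ((S.ch l).t i.succ), u' l,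
      fun i => (S.ch l).lab i.succ⟩, fun _ => rfl, fun _ _ => rfl, fun _ => rfl, fun _ _ => rfl⟩
  have hmem : ∀ l, ∀ z ∈ (S.ch l).B, f z ∈ (c' l).B := fun l z hz => by
    rw [hB]
    exact (hf.mem_img (h.int l)).2 ⟨z, hz, rfl⟩
  have hy : ∀ l e, (c' l).y e = f ((S.ch l).y e) := fun l e => by
    rw [Chart.y, Chart.y, hf.prod, Fin.prod_univ_succ, (h0 l).1, if_neg (by simp), hf.one, one_mul]
    · refine Finset.prod_congr rfl fun i _ => ?_
      rw [hlab, ht]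
      split_ifs
      · rfl
      · exact hf.one.symm
    · intro i _
      split_ifs
      · exact h.int l ((h.good l).tmem i)
      · exact one_mem _
  have hyO : ∀ l e, (S.ch l).y e ∈ OL A.O := fun l e => h.int l ((h.good l).y_mem e)
  have hmono : ∀ l z, (S.ch l).Mono ρ z → (c' l).Mono ρ (f z) := by
    rintro l _ ⟨υ, hυ, a, rfl⟩
    refine ⟨f υ, by rw [hB]; exact hf.unitIn (h.int l) hυ, a, ?_⟩
    rw [hf.mul _ (h.int l hυ.1) _ (prod_mem fun e _ => pow_mem (hyO l e) _),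
      hf.prod fun e _ => pow_mem (hyO l e) _]
    exact congrArg _ (Finset.prod_congr rfl fun e _ => by rw [hf.pow (hyO l e), hy])
  have ht0 : ∀ l, f ((S.ch l).t 0) = 0 := fun l => by
    ext γ
    have h1 := (mem_mL hA).1 (h0 l).2 γ
    rw [hco _ (h.int l ((h.good l).tmem 0)) γ ⟨_, h1.1⟩ rfl]
    exact (hπ _).2 h1.2
  have hov' : ∀ l l', away (c' l).B (hu 0 (F' l' / F' l)) = img f (S.ov l l') := fun l l' => by
    rw [hB]
    exact (hf.img_away (h.int l) (hu1 l l') (hq1 l l')).symm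
  refine ⟨⟨S.ι, c', F'⟩, h.fin, fun l => ?_, fun l z _ => mem_OL.2 fun γ => by rw [hO]; trivial,
    fun l => by rw [hO]; trivial, fun l l' => ?_, fun l l' => ?_, fun l l' e => ?_, fun l => ?_,
    fun l e => ?_, fun l => ?_, fun W' hW' => ?_⟩
  · have g := h.good l
    refine (⟨?_, fun a ha => ?_, fun i => ?_, fun i => ?_, fun e he => ?_, fun e he => ?_, ?_,
      fun i j e hi hj => ?_, fun i e hi => ?_, fun e he => ?_⟩ : (c' l).Good A' ρ)
    · obtain ⟨s, hs, e⟩ := g.fg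
      have hsO : ∀ z ∈ s, z ∈ OL A.O := fun z hz => h.int l (e ▸ Algebra.subset_adjoin hz)
      refine ⟨s.image f, fun z hz => ?_, by rw [hB, e, hf.img_adjoin hsO, Finset.coe_image]⟩
      obtain ⟨x, hx, rfl⟩ := Finset.mem_image.1 hz
      obtain ⟨γ, h1, h2⟩ := hs x hx
      exact ⟨γ, h1, hH h2 (hsO x hx)⟩
    · obtain ⟨b, hb, rfl⟩ := (hR a).1 ha
      rw [← hsg]
      exact hmem l _ (g.base _ hb)
    · rw [ht]
      exact hmem l _ (g.tmem _)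
    · obtain ⟨γ, hγ⟩ := g.thom i.succ
      exact ⟨γ, by rw [ht]; exact hH hγ (h.int l (g.tmem _))⟩
    · rw [hcu, hu' l e he, hB]
      exact hf.unitIn (h.int l) (g.uunit e he)
    · obtain ⟨γ, h1, h2⟩ := g.udeg e he
      exact ⟨γ, by rw [hcu, hu' l e he]; exact hH h1 (h.int l (g.uunit e he).1), h2⟩
    · rw [hB]
      refine hf.unr (h.int l) g.unr ?_
      rintro _ (⟨i, rfl⟩ | ⟨e, he, rfl⟩) _
      · refine Fin.cases (Or.inl (ht0 l)) (fun j => Or.inr (Or.inl ⟨j, ht l j⟩)) i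
      · exact Or.inr (Or.inr ⟨e, he, by rw [hcu, hu' l e he]⟩)
    · rw [hlab] at hi hj
      exact Fin.succ_injective _ (g.inj _ _ e hi hj)
    · rw [hlab] at hi
      exact g.lt _ e hi
    · rw [← htau]
      exact hmono l _ (g.tauMono e he)
  · change (hu 0 (F' l' / F' l) : LL K') ∈ (c' l).B
    rw [hq1]
    exact hmem l _ (h.div l l')
  · change (c' l').B ≤ away (c' l).B (hu 0 (F' l' / F' l))
    rw [hov', hB]
    exact img_mono (h.glue l l')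
  · obtain ⟨υ, h1, h2⟩ := h.yglue l l' e
    refine ⟨f υ, ?_, ?_⟩
    · change UnitIn (away (c' l).B (hu 0 (F' l' / F' l))) _
      rw [hov']
      exact hf.unitIn (hov l l') h1
    · change (c' l').y e = f υ * (c' l).y e
      rw [hy, hy, h2, hf.mul _ (hov l l' h1.1) _ (hyO l e)]
  · change (c' l).Mono ρ (hu 0 (F' l) : LL K')
    rw [hq0]
    exact hmono l _ (h.mono l)
  · change (hu 0 (F' l) : LL K') ∈ pr1 (c' l).B ((c' l).y e)
    rw [hq0, hy, hB]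
    exact hf.mem_pr1 (h.int l) (hyO l e) (h.dvd l e)
  · change Unr (away (c' l).B (hu 0 (F' l))) _
    have h1 : away (S.ch l).B (hu 0 (S.F l)) ≤ OL A.O :=
      away_le (h.int l) (unitIn_coe.1 (hu0 l)).2
    rw [hB, ← hf.img_away (h.int l) (hu0 l) (hq0 l)]
    refine hf.unr h1 (h.gen l) ?_
    rintro _ (⟨a, ha, rfl⟩ | ⟨e, he, rfl⟩) hz
    · have h2 := sg_mem_OL.1 (h1 hz)
      exact Or.inr (Or.inl ⟨π ⟨a, h2⟩, (hR _).2 ⟨⟨a, h2⟩, ha, rfl⟩, hsg 0 ⟨a, h2⟩⟩)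
    · exact Or.inr (Or.inr ⟨e, he, htau e⟩)
  · obtain ⟨W, h1, h2⟩ := hW W' hW'
    obtain ⟨l, hl⟩ := h.cover W h1
    refine ⟨l, fun a ha => ?_⟩
    change sg 0 a ∈ (c' l).B at ha
    rw [hB] at ha
    obtain ⟨b, hb, e⟩ := (hf.mem_img (h.int l)).1 ha
    have h3 := hco b (h.int l hb) 0 ⟨_, mem_OL.1 (h.int l hb) 0⟩ rfl
    rw [e] at h3
    have h4 : a = π ⟨_, mem_OL.1 (h.int l hb) 0⟩ := by simpa using h3
    rw [h4]
    exact h2 _ (hl _ ((h.good l).grA b hb 0))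

end Pool.Agent.Lib.MP_4287a9_ag.Res
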