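import Pool.Agent.Lib.MP_4287a9_ag.ResTr1
import Pool.Agent.Lib.MP_4287a9_ag.ResLab1
import Pool.Agent.Lib.MP_4287a9_ag.ResPrin

/-! The output. -/

namespace Pool.Agent.Lib.MP_4287a9_ag.Res

variable {k K : Type} [Field k] [Field K] [Algebra k K] {N : ℕ}

/-- The image of a unit. -/
noncomputable def resTr2_cu (k K : Type) [Field k] [Field K] [Algebra k K] (ρ : ℕ) :
    (LL K)ˣ →* (LA K ρ)ˣ :=
  Units.map (cut k K ρ : LL K →* LA K ρ)

theorem resTr2_coe {ρ : ℕ} (x : (LL K)ˣ) :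
    (resTr2_cu k K ρ x : LA K ρ) = cut k K ρ (x : LL K) := rfl

theorem resTr2_mem {ρ : ℕ} {S : Subalgebra k (LL K)} {x : (LL K)ˣ} (hx : (x : LL K) ∈ S) :
    (resTr2_cu k K ρ x : LA K ρ) ∈ S.map (cut k K ρ) :=
  Subalgebra.mem_map.2 ⟨_, hx, rfl⟩

theorem resTr2_as {ρ : ℕ} {S : Subalgebra k (LL K)} {x y : (LL K)ˣ} {υ : LL K} (hυ : UnitIn S υ)
    (e : (x : LL K) = υ * y) {S' : Subalgebra k (LA K ρ)} (hS : S.map (cut k K ρ) ≤ S') :
    As S' (resTr2_cu k K ρ x) (resTr2_cu k K ρ y) := by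
  have e1 : ((x * y⁻¹ : (LL K)ˣ) : LL K) = υ := by
    rw [Units.val_mul, e, Units.mul_inv_cancel_right]
  rw [← e1, unitIn_coe, mul_inv_rev, inv_inv] at hυ
  constructor
  · rw [← map_inv, ← map_mul]
    exact hS (resTr2_mem hυ.1)
  · rw [← map_inv, ← map_mul]
    exact hS (resTr2_mem hυ.2)

theorem resTr2_symm {W : Type} [CommRing W] [Algebra k W] {S : Subalgebra k W} {x y : Wˣ}
    (h : As S x y) : As S y x := ⟨h.2, h.1⟩

theorem resTr2_div (x y : Kˣ) : hu 0 x * (hu 0 y)⁻¹ = hu 0 (x / y) := by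
  rw [hu_inv, hu_mul, neg_zero, add_zero, div_eq_mul_inv]

theorem resTr2_ov {A : Amb k K N} {ρ : ℕ} {S : Sys k K N} (h : S.Good A ρ) (l l' : S.ι) :
    S.ov l l' ≤ (S.ch l).B ⊔ (S.ch l').B := by
  refine away_le le_sup_left ((le_sup_right : (S.ch l').B ≤ _) ?_)
  rw [hu_inv, neg_zero, inv_div]
  exact h.div l' l

theorem resTr2_zero {A : Amb k K N} {ρ : ℕ} {c : Chart k K N} (h : c.Good A ρ) {z : K}
    (hz : algebraMap K (LA K ρ) z ∈ c.B.map (cut k K ρ)) : sg 0 z ∈ c.B := by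
  obtain ⟨z', hz', e⟩ := Subalgebra.mem_map.1 hz
  have h1 : z' - sg 0 z = 0 := by
    refine cut_eq_zero (k := k) (ρ := ρ) (fun γ hγ => ?_) (by rw [map_sub, e, cut_sg_zero, sub_self])
    by_cases h0 : γ = 0
    · subst h0
      exact fun _ _ => rfl
    · obtain ⟨s, hs, es⟩ := h.fg
      refine below_of_adjoin (k := k) (s := (s : Set (LL K))) hs (es ▸ hz') fun h2 => hγ ?_
      simp [h2, Finsupp.single_eq_of_ne h0]
  rwa [← sub_eq_zero.1 h1]

theorem resTr2_deg {ρ : ℕ} (m : ℕ) (c : Fin ρ) :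
    (fun c' : Fin ρ => (m • (Pi.single c.val 1 : Gam)) c'.val) = Pi.single c (m : ℤ) := by
  funext c'
  by_cases e : c' = c
  · subst e
    simp
  · have e' : c'.val ≠ c.val := fun h => e (Fin.ext h)
    simp [Pi.single_eq_of_ne e, Pi.single_eq_of_ne e']

/-- Enumerate the charts by `Fin m` (`Finite.equivFin`), `B a = (B l).map cut`, `y a = cut ∘ yy`,
`lam a i = (lam l i).map (Fin.castAdd ρ)`, `t a i` the unit with value `cut (t l i)`
(`t_ne_zero`, `Hm.exists_unit`, `Units.map`), `v a c = cut (V l (Pi.single c 1))` with one common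
`m` from `exists_units`, `F` from `exists_F`. `B a ⊔ B b` contains the image of the overlap ring
(`away_le`, `div`). `occ`, `cover`: `cut_injOn`. `fgen`: induction over the span of `G i`. -/
theorem Lab.Good.exists_out [CharZero k] {R : Type} [CommRing R] [IsDomain R] [IsIntegrallyClosed R]
    [Algebra R K] [IsFractionRing R K] {A : Amb k K N} (hA : A.Good)
    (hR : ∀ r : R, algebraMap R K r ∈ A.R0)
    (hW : ∀ V : ValuationSubring K, (∀ r, algebraMap R K r ∈ V) → ∃ W ∈ A.WW, ∀ a ∈ W, a ∈ V)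
    {ρ : ℕ} {S : Sys k K N} (h : S.Good A ρ) {s : ℕ} {𝔞 : Fin s → Ideal R} {G : Fin s → Set R}
    (hG : ∀ i, Ideal.span (G i) = 𝔞 i) {d : Lab S s}
    (hd : d.Good A ρ fun i => algebraMap R K '' G i) :
    ∃ o : ResOut k R K N s, o.Good A.D0 𝔞 := by
  classical
  have := h.fin
  have := Fintype.ofFinite S.ι
  obtain ⟨W₀, hW₀, -⟩ := hW ⊤ fun _ => ValuationSubring.mem_top _
  obtain ⟨l₀, -⟩ := h.cover W₀ hW₀
  let ε : Fin (Nat.card S.ι) ≃ S.ι := (Finite.equivFin S.ι).symm
  have hT : ∀ l i, ∃ σ : (LL K)ˣ, (σ : LL K) = d.t l i := fun l i => by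
    rw [Lab.t]
    cases d.lam l i with
    | none => exact ⟨1, rfl⟩
    | some b => exact ((h.good l).thom b).exists_unit ((h.good l).t_ne_zero hA b)
  choose T hT using hT
  have hTm : ∀ l i, (T l i : LL K) ∈ (S.ch l).B := fun l i => by
    rw [hT, Lab.t]
    cases d.lam l i with
    | none => exact one_mem _
    | some b => exact (h.good l).tmem b
  choose m₀ hm₀ hV using fun l => (h.good l).exists_units
  choose V _ hVU hVd using fun l => hV l (∏ l, m₀ l) (Finset.dvd_prod_of_mem _ (Finset.mem_univ l))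
  choose F hF using h.exists_F hW
  choose f hfG hf using hd.fmem
  have hin : ∀ (r : R), inL R K ρ r = cut k K ρ (sg 0 (algebraMap R K r)) := fun r =>
    (cut_sg_zero _).symm
  have hbase : ∀ l r, inL R K ρ r ∈ (S.ch l).B.map (cut k K ρ) := fun l r =>
    Subalgebra.mem_map.2 ⟨_, (h.good l).base _ (hR r), (hin r).symm⟩
  have hFF : ∀ l l', resTr2_cu k K ρ (hu 0 (S.F l')) * (resTr2_cu k K ρ (hu 0 (S.F l)))⁻¹ =
      resTr2_cu k K ρ (hu 0 (S.F l' / S.F l)) := fun l l' => by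
    rw [← map_inv, ← map_mul, resTr2_div]
  have hXu : ∀ c : Fin ρ, resTr2_cu k K ρ (tau K c.val) = Xu K c := fun c =>
    Units.ext (cut_tau (k := k) c)
  refine ⟨{ ρ := ρ, m := Nat.card S.ι, μ := d.μ, mv := ∏ l, m₀ l
            B := fun a => (S.ch (ε a)).B.map (cut k K ρ)
            y := fun a l => cut k K ρ ((S.ch (ε a)).yy ρ l)
            lam := fun a i => (d.lam (ε a) i).map (Fin.castAdd ρ)
            t := fun a i => resTr2_cu k K ρ (T (ε a) i)
            v := fun a c => resTr2_cu k K ρ (V (ε a) (Pi.single c.val 1))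
            jac := fun a => resTr2_cu k K ρ (d.jac (ε a))
            F := fun a => F (ε a)
            f := fun a i => f (ε a) i
            Fu := fun a => resTr2_cu k K ρ (hu 0 (S.F (ε a)))
            fu := fun a i => resTr2_cu k K ρ (hu 0 (d.f (ε a) i))
            aF := d.aF, af := d.af, aj := d.aj },
    { mpos := (ε.symm l₀).pos
      hmv := Finset.prod_pos fun l _ => hm₀ l
      fg := fun a => ?_
      base := fun a r => hbase _ r
      het := fun a => etC_map ((h.good _).etC hA) _ fun z hz z' hz' =>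
        (h.good _).cut_injOn hz hz'
      dy := fun a l => isHom_cut ((h.good _).yy_hom l)
      hinj := fun a i i' l h1 h2 => ?_
      ht := fun a i => ?_
      occ := fun i => ?_
      hglue := fun a b i => ?_
      hFu := fun a => ?_
      hfu := fun a i => ?_
      Fdiv := fun a b => ?_
      hBB := fun a b z hz => ?_
      hτ := fun a w hw => ?_
      dv := fun a c => ?_
      hv := fun a c => ?_
      cover := fun W hWR => ?_
      fmem := fun a i => ?_
      fgen := fun a i g hg => ?_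
      aFpos := hd.aFpos
      hF := fun a => ?_
      hf := fun a i => ?_
      hdet := fun a => ?_
      hj := fun a => ?_ }⟩
  all_goals dsimp only at *
  · obtain ⟨σ, hσ, e⟩ := (h.good (ε a)).fg
    refine ⟨σ.image (cut k K ρ), fun z hz => ?_, ?_⟩
    · obtain ⟨z', hz', rfl⟩ := Finset.mem_image.1 hz
      obtain ⟨γ, -, hγ⟩ := hσ z' hz'
      exact isHom_cut ⟨γ, hγ⟩
    · rw [e, AlgHom.map_adjoin, Finset.coe_image]
  · obtain ⟨b, hb, e⟩ := Option.map_eq_some_iff.1 h1
    obtain ⟨b', hb', e'⟩ := Option.map_eq_some_iff.1 h2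
    have : b' = b := Fin.castAdd_injective _ _ (e'.trans e.symm)
    exact hd.inj _ _ _ b hb (this ▸ hb')
  · rw [resTr2_coe, hT, Lab.t]
    cases d.lam (ε a) i with
    | none => exact map_one _
    | some b => simp [Chart.yy]
  · obtain ⟨l, hl⟩ := hd.occ i
    refine ⟨ε.symm l, fun hm => hl ?_⟩
    rw [Equiv.apply_symm_apply, ← map_inv] at hm
    obtain ⟨z, hz, e⟩ := Subalgebra.mem_map.1 hm
    rw [← hT]
    refine ⟨hTm l i, z, hz, (h.good l).cut_injOn (mul_mem (hTm l i) hz) (one_mem _) ?_⟩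
    rw [map_mul, e, resTr2_coe, ← map_mul, Units.mul_inv]
  · obtain ⟨υ, hυ, e⟩ := hd.glue (ε a) (ε b) i
    rw [← hT, ← hT] at e
    refine resTr2_symm (resTr2_as hυ e ?_)
    rw [← Algebra.map_sup]
    exact Subalgebra.map_mono (resTr2_ov h _ _)
  · rw [resTr2_coe, hin, hF, coe_hu]
  · rw [resTr2_coe, hin, hf, coe_hu]
  · rw [hFF]
    exact resTr2_mem (h.div _ _)
  · obtain ⟨z', hz', rfl⟩ := Subalgebra.mem_map.1 hz
    obtain ⟨e, he⟩ := (mem_away (h.div (ε a) (ε b))).1 (h.glue (ε a) (ε b) hz')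
    refine ⟨e, Subalgebra.mem_map.2 ⟨_, he, ?_⟩⟩
    rw [hFF, map_mul, map_pow, Units.val_pow_eq_pow_val, resTr2_coe]
  · rcases hw with ⟨c, rfl⟩ | ⟨c, rfl⟩
    · refine ⟨0, ?_⟩
      dsimp only
      rw [pow_zero, one_mul, ← hXu]
      exact resTr2_mem ((h.good _).mono_mem ((h.good _).tauMono c.val c.2))
    · obtain ⟨e, he⟩ := h.tau_inv (ε a) c.2
      refine ⟨e, Subalgebra.mem_map.2 ⟨_, he, ?_⟩⟩
      dsimp only
      rw [map_mul, map_pow, ← hXu, ← map_inv, resTr2_coe, resTr2_coe]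
  · rw [← resTr2_deg]
    refine isDeg_cut (k := k) (hVd _ _ fun c' hc' => Pi.single_eq_of_ne ?_ _)
    have : c.val < ρ := c.2
    omega
  · have h1 := unitIn_coe.1 ((h.good (ε a)).unitIn_U (hVU (ε a) (Pi.single c.val 1))).1
    rw [← map_inv]
    exact ⟨resTr2_mem h1.1, resTr2_mem h1.2⟩
  · obtain ⟨W', hW', hle⟩ := hW W hWR
    obtain ⟨l, hl⟩ := h.cover W' hW'
    refine ⟨ε.symm l, fun z hz => hle z (hl z ?_)⟩
    rw [Equiv.apply_symm_apply] at hz
    exact resTr2_zero (h.good l) hz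
  · rw [← hG]
    exact Ideal.subset_span (hfG _ _)
  · rw [← hG] at hg
    induction hg using Submodule.span_induction with
    | mem x hx =>
      obtain ⟨b, hb⟩ := Submodule.mem_span_singleton.1 (hd.fgen (ε a) i _ ⟨x, hx, rfl⟩)
      refine Subalgebra.mem_map.2 ⟨b, b.2, ?_⟩
      rw [hin, ← hb, ← map_inv, resTr2_coe, ← map_mul, Subalgebra.smul_def, smul_eq_mul,
        Units.mul_inv_cancel_right]
    | zero =>
      rw [map_zero, zero_mul]
      exact zero_mem _
    | add x y _ _ hx hy =>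
      rw [map_add, add_mul]
      exact add_mem hx hy
    | smul r x _ hx =>
      rw [smul_eq_mul, map_mul, mul_assoc]
      exact mul_mem (hbase _ r) hx
  · obtain ⟨υ, hυ, e⟩ := hd.hF (ε a)
    simp only [← map_pow, ← map_prod]
    refine resTr2_as hυ ?_ le_rfl
    simpa [hT] using e
  · obtain ⟨υ, hυ, e⟩ := hd.hf (ε a) i
    simp only [← map_pow, ← map_prod]
    refine resTr2_as hυ ?_ le_rfl
    simpa [hT] using e
  · have e := congrArg (cut k K ρ) (hd.hdet (ε a))
    rw [map_mul, map_one, AlgHom.map_det] at e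
    rw [resTr2_coe, ← e]
    congr 2
    ext1 i l
    exact (cut_amb _ _ _).symm
  · obtain ⟨υ, hυ, e⟩ := hd.hj (ε a)
    simp only [← map_zpow, ← map_prod]
    refine resTr2_as hυ ?_ le_rfl
    have e1 : ∏ i, T (ε a) i ^ ((d.aj i : ℤ) - 1) =
        (∏ i, T (ε a) i ^ d.aj i) * (∏ i, T (ε a) i)⁻¹ := by
      rw [← Finset.prod_inv_distrib, ← Finset.prod_mul_distrib]
      exact Finset.prod_congr rfl fun i _ => by rw [zpow_sub_one, zpow_natCast]
    rw [e1, Units.val_mul, ← mul_assoc, Units.eq_mul_inv_iff_mul_eq]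
    simpa [hT] using e

end Pool.Agent.Lib.MP_4287a9_ag.Res
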