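import Pool.Agent.Lib.MP_4287a9_ag.ResFin
import Pool.Agent.Lib.MP_4287a9_ag.ResEmb
import Pool.Agent.Lib.MP_4287a9_ag.ResRed
import Pool.Agent.Lib.MP_4287a9_ag.ResJac2
import Pool.Agent.Lib.MP_4287a9_ag.ResLab2
import Pool.Agent.Lib.MP_4287a9_ag.ResTr2
import Pool.Agent.Lib.MP_4287a9_ag.ResPrim

/-! Existence of weighted log resolutions in characteristic zero. -/

namespace Pool.Agent.Lib.MP_4287a9_ag

open Res

/-- Resolution of singularities: a good system of charts over `K` that contain `R`. -/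
theorem Res.exists_sys {k R K : Type} [Field k] [CharZero k] [CommRing R] [IsDomain R]
    [IsIntegrallyClosed R] [Algebra k R] [Algebra.FiniteType k R] [Field K] [Algebra k K]
    [Algebra R K] [IsScalarTower k R K] [IsFractionRing R K] {n : ℕ} (x : Fin n → R)
    (hx : ∀ r : R, IsIntegral (Algebra.adjoin k (Set.range x)) r)
    (D₀ : Fin n → Derivation k K K)
    (hD : ∀ a b, D₀ a (algebraMap R K (x b)) = if a = b then 1 else 0) :
    ∃ (A : Amb k K n) (ρ : ℕ) (S : Sys k K n), A.Good ∧ A.O = ⊤ ∧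
      A.R0 = (IsScalarTower.toAlgHom k R K).range ∧ A.D0 = D₀ ∧
      A.WW = {W | (IsScalarTower.toAlgHom k R K).range ≤ W ∧ ∀ a : K, a ∈ W ∨ a⁻¹ ∈ W} ∧
      S.Good A ρ := by
  obtain ⟨θ, P, hP0, hP1, hgen⟩ := exists_primitive (k := k) (K := K) x hx
  have hinj : Function.Injective (algebraMap R K) := IsFractionRing.injective R K
  set ι : R →ₐ[k] K := IsScalarTower.toAlgHom k R K with hι
  set ψ : MvPolynomial (Fin (n + 1)) k →ₐ[k] R :=
    MvPolynomial.aeval (Fin.cons θ x : Fin (n + 1) → R) with hψ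
  set φ : MvPolynomial (Fin (n + 1)) k →ₐ[k] K := ι.comp ψ with hφ
  have hφ' : ∀ p, φ p = algebraMap R K (ψ p) := fun p => rfl
  obtain ⟨A, π, hA, hx0, hR, hO, hW, hπ, hπφ, hDO, hDp, hV⟩ :=
    exists_amb φ (FractionRing (MvPolynomial (Fin (n + 1)) k))
  have hR0 : ∀ a, a ∈ A.R0 ↔ ∃ p, algebraMap (MvPolynomial (Fin (n + 1)) k) _ p = a := by
    intro a
    have h1 : A.x0 = fun i => IsScalarTower.toAlgHom k (MvPolynomial (Fin (n + 1)) k) _
        (MvPolynomial.X i) := funext hx0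
    rw [hR, h1, Algebra.adjoin_range_eq_range_aeval, ← MvPolynomial.comp_aeval,
      MvPolynomial.aeval_X_left, AlgHom.comp_id]
    rfl
  have hmem : ∀ p, algebraMap (MvPolynomial (Fin (n + 1)) k) _ p ∈ A.O :=
    fun p => hO ((hR0 _).2 ⟨p, rfl⟩)
  have hP' := (hπ ⟨_, hmem P⟩).1 (by rw [hπφ P _ rfl, hφ', hP0, map_zero])
  have hP'' := (hπ ⟨_, hmem (MvPolynomial.pderiv 0 P)⟩).not.1 (by
    rw [hπφ _ _ rfl, hφ']
    exact fun h => hP1 (hinj (h.trans (map_zero _).symm)))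
  rw [not_or, not_not] at hP''
  obtain ⟨ρ, S, hS, hS0⟩ := exists_embedded hA hR hO hW ((hR0 _).2 ⟨P, rfl⟩) hP' (hDO 0)
    (by rw [hDp]; exact hP''.1) (by rw [hDp]; exact hP''.2)
  have hxφ : ∀ i, algebraMap R K (x i) ∈ φ.range := fun i =>
    ⟨MvPolynomial.X i.succ, by
      change φ _ = _
      rw [hφ', hψ, MvPolynomial.aeval_X, Fin.cons_succ]⟩
  obtain ⟨A₁, hA₁, hO₁, hR₁, -, -, hW₁⟩ := exists_amb_top φ.range ι.range hxφ hD
  obtain ⟨A₂, hA₂, hO₂, hR₂, -, hD₂, hW₂⟩ :=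
    exists_amb_top ι.range ι.range (x := fun i => algebraMap R K (x i)) (fun i => ⟨x i, rfl⟩) hD
  obtain ⟨S₁, hS₁⟩ := hS.reduce hA (A' := A₁) π hπ hO₁ (fun a' => by
      rw [hR₁]
      constructor
      · rintro ⟨p, rfl⟩
        exact ⟨⟨_, hmem p⟩, (hR0 _).2 ⟨p, rfl⟩, hπφ p _ rfl⟩
      · rintro ⟨a, ha, rfl⟩
        obtain ⟨p, hp⟩ := (hR0 _).1 ha
        exact ⟨p, (hπφ p a hp.symm).symm⟩)
    (fun W' hW' => by
      rw [hW₁] at hW'
      exact hV ⟨W'.toSubring, hW'.2⟩ fun p => hW'.1 ⟨ψ p, rfl⟩) hS0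
  refine ⟨A₂, ρ, S₁, hA₂, hO₂, hR₂, hD₂, hW₂, hS₁.upgrade hA₁ (hO₂.trans hO₁.symm) ?_
    (by rw [hW₁, hW₂]) ?_⟩
  · rw [hR₁, hR₂]
    rintro _ ⟨p, rfl⟩
    exact ⟨ψ p, rfl⟩
  · rw [hR₁, hR₂]
    rintro _ ⟨r, rfl⟩
    constructor
    · have hle : ∀ z : Algebra.adjoin k (Set.range x), ι (z : R) ∈ φ.range := by
        intro z
        have h1 : (Algebra.adjoin k (Set.range x)).map ι ≤ φ.range := by
          rw [AlgHom.map_adjoin, Algebra.adjoin_le_iff]
          rintro _ ⟨_, ⟨i, rfl⟩, rfl⟩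
          exact hxφ i
        exact h1 ⟨z, z.2, rfl⟩
      let g : Algebra.adjoin k (Set.range x) →+* φ.range :=
        ((ι.comp (Subalgebra.val _)).codRestrict φ.range hle).toRingHom
      exact (hx r).map_of_comp_eq g ι.toRingHom (RingHom.ext fun _ => rfl)
    · obtain ⟨p, p', h1, h2⟩ := hgen r
      refine ⟨φ p', ⟨p', rfl⟩, fun h => h1 (hinj (h.trans (map_zero _).symm)), p, ?_⟩
      change algebraMap R K (ψ p) = algebraMap R K (ψ p') * algebraMap R K r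
      rw [← map_mul, h2]

theorem exists_res {k R K : Type} [Field k] [CharZero k] [CommRing R] [IsDomain R]
    [IsIntegrallyClosed R] [Algebra k R] [Algebra.FiniteType k R] [Field K] [Algebra k K]
    [Algebra R K] [IsScalarTower k R K] [IsFractionRing R K] {n s : ℕ} (x : Fin n → R)
    (hx : ∀ r : R, IsIntegral (Algebra.adjoin k (Set.range x)) r)
    (D₀ : Fin n → Derivation k K K)
    (hD : ∀ a b, D₀ a (algebraMap R K (x b)) = if a = b then 1 else 0)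
    (𝔞 : Fin s → Ideal R) (h𝔞 : ∀ i, 𝔞 i ≠ ⊥) :
    ∃ d : ResOut k R K n s, d.Good D₀ 𝔞 := by
  obtain ⟨A, ρ, S, hA, hO, hR, hD0, hW, hS⟩ := Res.exists_sys (K := K) x hx D₀ hD
  have hinj : Function.Injective (algebraMap R K) := IsFractionRing.injective R K
  have hne : ∀ r : R, r ≠ 0 → algebraMap R K r ≠ 0 :=
    fun r hr h => hr (hinj (h.trans (map_zero _).symm))
  have hmem : ∀ r : R, algebraMap R K r ∈ A.R0 := fun r => hR ▸ ⟨r, rfl⟩
  have hN : IsNoetherianRing R := Algebra.FiniteType.isNoetherianRing k R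
  choose G hG using fun i => (IsNoetherian.noetherian (𝔞 i) : (𝔞 i).FG)
  obtain ⟨c₀, hc₀, hc⟩ := exists_denom (R := R) D₀
  obtain ⟨ρ₁, S₁, hS₁, -, hp₁⟩ := hS.prin_all hA hO
    (I := fun i => algebraMap R K '' (G i : Set R)) (fun i => (G i).finite_toSet.image _)
    (by rintro i _ ⟨r, -, rfl⟩; exact hmem r) (fun i => by
      by_contra h
      push Not at h
      refine h𝔞 i ?_
      rw [← hG i, Ideal.span_eq_bot]
      intro r hr
      by_contra h0
      exact hne r h0 (h _ ⟨r, hr, rfl⟩))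
  obtain ⟨ρ₂, S₂, hS₂, hd₂, hp₂⟩ := hS₁.prin hA hO (I₀ := {algebraMap R K c₀})
    (Set.finite_singleton _) (by rintro _ rfl; exact hmem c₀) ⟨_, rfl, hne c₀ hc₀⟩
  obtain ⟨S₃, hS₃, hd₃, hj₃⟩ := hS₂.jmono hA (hne c₀ hc₀)
    (fun l => by
      obtain ⟨f, rfl, -, hf, -⟩ := hp₂ l
      exact hf)
    (fun i a ha => by
      rw [hR] at ha
      obtain ⟨r, rfl⟩ := ha
      obtain ⟨r', hr'⟩ := hc i r
      rw [hD0]
      exact (show algebraMap R K c₀ * D₀ i (algebraMap R K r) ∈ A.R0 from hr' ▸ hmem r'))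
  obtain ⟨d, hd⟩ := hS₃.exists_lab hA (I := fun i => algebraMap R K '' (G i : Set R))
    (fun l i => by
      obtain ⟨l', hl'⟩ := hd₂.trans hd₃ l
      exact hl'.prin (hp₁ l' i)) hj₃
  rw [← hD0]
  refine hd.exists_out hA hmem (fun V hV => ?_) hS₃ hG
  refine ⟨{ V.toSubring with
    algebraMap_mem' := fun c => by
      rw [IsScalarTower.algebraMap_apply k R K]
      exact hV _ }, ?_, fun a ha => ha⟩
  rw [hW]
  exact ⟨by rintro _ ⟨r, rfl⟩; exact hV r, V.mem_or_inv_mem⟩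

end Pool.Agent.Lib.MP_4287a9_ag
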