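import Pool.Agent.Lib.MP_4287a9_ag.ResBl4
import Pool.Agent.Lib.MP_4287a9_ag.ResEx
import Pool.Agent.Lib.MP_4287a9_ag.ResRef

/-! Termination of the algorithm. -/

namespace Pool.Agent.Lib.MP_4287a9_ag.Res

variable {k K : Type} [Field k] [Field K] [Algebra k K] {N : ℕ}

variable {A : Amb k K N}

/-- On every chart the ideal is trivial or has a certified centre in the stopping set. -/
def Sys.Final (S : Sys k K N) (ρ : ℕ) (I : Set (LL K)) (Stop : Nu N → Prop) : Prop :=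
  ∀ l, (S.ch l).Triv I ∨ ∃ w fr, (S.ch l).CC ρ I w fr ∧ Stop (nu w fr)

/-- One round: refine (`Sys.Good.refine` with `exists_cc`); if the result is not final take the
minimal invariant `ν` among the charts that are not trivial (choose `w l, fr l`), `act l` := not
trivial and `nu (w l) (fr l) = ν` (`nu_eq_iff`: the same `w`); `¬ Stop ν`. For `hne`: `y e` is a unit
of `OL O` because it divides `F`; if no `t i` of positive weight is a unit of `OL O`, they all lie in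
`mL O` (`unitIn_of_notMem_mL`), and `CC.isCen`, `hstar` give `Stop ν`. -/
theorem St.round [CharZero k] (hA : A.Good) {I₀ : Set K} (hfin : I₀.Finite)
    {Stop : Nu N → Prop} (hup : ∀ a b, Stop a → a ≤ b → Stop b)
    (hstar : ∀ (γ : Gam) (y : ℕ → LL K) (t : Fin N → LL K) (w : Fin N → ℚ) (fr : Fin N → Bool),
      (∀ f ∈ Iset γ I₀, f ∈ OL A.O) → (∀ e, UnitIn (OL A.O) (y e)) →
        IsCen (OL A.O) (mL A.O) y (Iset γ I₀) t w fr → Stop (nu w fr))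
    {ρ : ℕ} {S : Sys k K N} {γ : Gam} (h : St A I₀ ρ S γ) :
    (∃ S' : Sys k K N, St A I₀ ρ S' γ ∧ S.Dom ρ S' ρ ∧ S'.Final ρ (Iset γ I₀) Stop) ∨
    ∃ ν ∈ NuSet N, (∀ ν₀, (∀ l, (S.ch l).Bnd ρ (Iset γ I₀) ν₀) → ν₀ < ν) ∧
      ∃ (S' : Sys k K N) (γ' : Gam), St A I₀ (ρ + 1) S' γ' ∧ S.Dom ρ S' (ρ + 1) ∧
        ∀ j, (S'.ch j).Bnd (ρ + 1) (Iset γ' I₀) ν := by
  classical
  obtain ⟨S', hS', hl⟩ := h.good.refine hA
    (fun l c' => c'.Triv (Iset γ I₀) ∨ ∃ w fr, c'.CC ρ (Iset γ I₀) w fr ∧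
      ∀ ν, (S.ch l).Bnd ρ (Iset γ I₀) ν → ν < nu w fr)
    (fun l q hq ha => (h.good.good l).exists_cc hA hq ha
      ((hfin.image fun f => sg (-γ) f).subset fun _ ⟨f, hf, e⟩ => ⟨f, hf, e.symm⟩)
      fun f hf => ⟨by obtain ⟨a, -, rfl⟩ := hf; exact ⟨_, a, rfl⟩, h.sub l f hf⟩)
  have hSt : St A I₀ ρ S' γ := ⟨hS', h.below, h.nonneg, fun j f hf => by
    obtain ⟨l, σ, hL, -⟩ := hl j
    exact hL.le (h.sub l f hf)⟩
  have hDom : S.Dom ρ S' ρ := fun j => by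
    obtain ⟨l, σ, hL, -⟩ := hl j
    exact ⟨l, hL.dom⟩
  by_cases hF : S'.Final ρ (Iset γ I₀) Stop
  · exact Or.inl ⟨S', hSt, hDom, hF⟩
  right
  have hch : ∀ j, ∃ (w : Fin N → ℚ) (fr : Fin N → Bool), ¬ (S'.ch j).Triv (Iset γ I₀) →
      (S'.ch j).CC ρ (Iset γ I₀) w fr ∧
        ∀ ν₀, (∀ l, (S.ch l).Bnd ρ (Iset γ I₀) ν₀) → ν₀ < nu w fr := by
    intro j
    obtain ⟨l, σ, -, hT | ⟨w, fr, h1, h2⟩⟩ := hl j
    · exact ⟨0, fun _ => true, fun h' => absurd hT h'⟩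
    · exact ⟨w, fr, fun _ => ⟨h1, fun ν₀ hν => h2 ν₀ (hν l)⟩⟩
  choose w fr hw using hch
  obtain ⟨j₀, hj₀⟩ := not_forall.1 hF
  rw [not_or] at hj₀
  have := hS'.fin
  obtain ⟨m, hm, hmin⟩ := Set.exists_min_image {j | ¬ (S'.ch j).Triv (Iset γ I₀)}
    (fun j => nu (w j) (fr j)) (Set.toFinite _) ⟨j₀, hj₀.1⟩
  have hns : ¬ Stop (nu (w m) (fr m)) := fun hs =>
    hj₀.2 ⟨w j₀, fr j₀, (hw j₀ hj₀.1).1, hup _ _ hs (hmin j₀ hj₀.1)⟩
  have hcen : S'.Cen ρ (Iset γ I₀)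
      (fun j => ¬ (S'.ch j).Triv (Iset γ I₀) ∧ nu (w j) (fr j) = nu (w m) (fr m)) (w m)
      (nu (w m) (fr m)) := by
    refine ⟨fun j hj => ?_, fun j hj => ?_⟩
    · have e := (nu_eq_iff.1 hj.2).1
      refine ⟨fr j, e ▸ (hw j hj.1).1, ?_⟩
      rw [← hj.2, e]
    · by_cases hT : (S'.ch j).Triv (Iset γ I₀)
      · exact Or.inl hT
      · exact Or.inr ⟨w j, fr j, (hw j hT).1,
          lt_of_le_of_ne (hmin j hT) fun e => hj ⟨hT, e.symm⟩⟩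
  obtain ⟨S'', γ', h1, h2, h3⟩ := hSt.blowup hA (hw m hm).1.cert.nonneg hcen fun j hj => by
    by_contra hc
    push Not at hc
    obtain ⟨fr', hcc, e⟩ := hcen.on j hj
    have hg := hS'.good j
    refine hns (e ▸ hstar γ (S'.ch j).y (S'.ch j).t (w m) fr'
      (fun f hf => hS'.int j (hSt.sub j f hf)) (fun e' => ?_)
      (hcc.isCen hg (hS'.int j) (primeAt_mL hA) fun i hi => ?_))
    · obtain ⟨c, hc1, hc2⟩ := mem_pr1.1 (hS'.dvd j e')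
      have hu1 : UnitIn (OL A.O) (hu 0 (S'.F j) : LL K) :=
        unitIn_OL_hu.2 ⟨sg_mem_OL.1 (hS'.int j (hg.mono_mem (hS'.mono j))), hS'.unit j⟩
      rw [hc2, mul_comm] at hu1
      exact hu1.of_mul (hS'.int j (hg.y_mem e')) (hS'.int j hc1)
    · by_contra hn
      exact hc i hi (unitIn_of_notMem_mL hA (hS'.int j (hg.tmem i)) (hg.thom i) hn)
  exact ⟨_, (hw m hm).1.cert.mem_nuSet, (hw m hm).2, S'', γ', h1, hDom.trans h2, h3⟩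

/-- Well-founded induction along `nuSet_wf`. -/
theorem St.run [CharZero k] (hA : A.Good) {I₀ : Set K} (hfin : I₀.Finite)
    {Stop : Nu N → Prop} (hup : ∀ a b, Stop a → a ≤ b → Stop b)
    (hstar : ∀ (γ : Gam) (y : ℕ → LL K) (t : Fin N → LL K) (w : Fin N → ℚ) (fr : Fin N → Bool),
      (∀ f ∈ Iset γ I₀, f ∈ OL A.O) → (∀ e, UnitIn (OL A.O) (y e)) →
        IsCen (OL A.O) (mL A.O) y (Iset γ I₀) t w fr → Stop (nu w fr))
    {ρ : ℕ} {S : Sys k K N} {γ : Gam} (h : St A I₀ ρ S γ) :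
    ∃ (ρ' : ℕ) (S' : Sys k K N) (γ' : Gam), St A I₀ ρ' S' γ' ∧ S.Dom ρ S' ρ' ∧
      S'.Final ρ' (Iset γ' I₀) Stop := by
  have key : ∀ ν : NuSet N, ∀ (ρ : ℕ) (S : Sys k K N) (γ : Gam), St A I₀ ρ S γ →
      (∀ l, (S.ch l).Bnd ρ (Iset γ I₀) ν) → ∃ (ρ' : ℕ) (S' : Sys k K N) (γ' : Gam),
        St A I₀ ρ' S' γ' ∧ S.Dom ρ S' ρ' ∧ S'.Final ρ' (Iset γ' I₀) Stop := by
    intro ν
    induction ν using nuSet_wf.induction with
    | _ ν ih =>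
      intro ρ S γ h hb
      rcases h.round hA hfin hup hstar with ⟨S', h1, h2, h3⟩ | ⟨ν', hν', hlt, S', γ', h1, h2, h3⟩
      · exact ⟨ρ, S', γ, h1, h2, h3⟩
      · obtain ⟨ρ'', S'', γ'', h4, h5, h6⟩ := ih ⟨ν', hν'⟩ (hlt _ hb) _ S' γ' h1 h3
        exact ⟨ρ'', S'', γ'', h4, h2.trans h5, h6⟩
  rcases h.round hA hfin hup hstar with ⟨S', h1, h2, h3⟩ | ⟨ν', hν', -, S', γ', h1, h2, h3⟩
  · exact ⟨ρ, S', γ, h1, h2, h3⟩
  · obtain ⟨ρ'', S'', γ'', h4, h5, h6⟩ := key ⟨ν', hν'⟩ _ S' γ' h1 h3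
    exact ⟨ρ'', S'', γ'', h4, h2.trans h5, h6⟩

end Pool.Agent.Lib.MP_4287a9_ag.Res
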