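import Pool.Agent.Lib.MP_4287a9_ag.ResB4
import Pool.Agent.Lib.MP_4287a9_ag.ResOut

/-! Passage to finitely many variables. -/

namespace Pool.Agent.Lib.MP_4287a9_ag.Res

variable {k K : Type} [Field k] [Field K] [Algebra k K] {N : ℕ}

/-- Restriction of degrees to the first `ρ` variables, as a map of algebras. -/
noncomputable def cut (k K : Type) [Field k] [Field K] [Algebra k K] (ρ : ℕ) :
    LL K →ₐ[k] LA K ρ :=
  AddMonoidAlgebra.mapDomainAlgHom k K
    ({ toFun := fun γ c => γ c.val, map_zero' := rfl, map_add' := fun _ _ => rfl } :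
      Gam →+ (Fin ρ → ℤ))

variable {ρ : ℕ}

theorem cut_sg (γ : Gam) (a : K) :
    cut k K ρ (sg γ a) = AddMonoidAlgebra.single (fun c : Fin ρ => γ c.val) a := by
  exact AddMonoidAlgebra.mapDomain_single

theorem cut_sg_zero (a : K) : cut k K ρ (sg 0 a) = algebraMap K (LA K ρ) a := by
  rw [cut_sg]
  simp only [AddMonoidAlgebra.coe_algebraMap, Algebra.algebraMap_self, RingHom.coe_id,
    Function.comp_apply, id_eq]
  rfl

theorem cut_tau (c : Fin ρ) : cut k K ρ (tau K c.val : LL K) = (Xu K c : LA K ρ) := by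
  rw [tau, coe_hu, cut_sg]
  change _ = AddMonoidAlgebra.single (Pi.single c 1) 1
  congr 1
  funext c'
  by_cases h : c' = c
  · subst h
    simp
  · rw [Pi.single_eq_of_ne h, Pi.single_eq_of_ne (fun h' => h (Fin.ext h'))]

theorem isHom_cut {z : LL K} (h : Hm z) : IsHom (cut k K ρ z) := by
  obtain ⟨γ, a, rfl⟩ := h
  refine ⟨fun c : Fin ρ => γ c.val, fun β hβ => ?_⟩
  rw [cut_sg, AddMonoidAlgebra.coeff_single, Finsupp.single_eq_of_ne hβ]

theorem isDeg_cut {γ : Gam} {z : LL K} (h : IsH γ z) :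
    IsDeg (fun c : Fin ρ => γ c.val) (cut k K ρ z) := by
  obtain ⟨a, rfl⟩ := h
  intro β hβ
  rw [cut_sg, AddMonoidAlgebra.coeff_single, Finsupp.single_eq_of_ne hβ]

/-- `Finsupp.mapDomain` is injective on functions whose support lies in a set on which the map
is injective. -/
theorem cut_eq_zero {z : LL K} (hz : ∀ γ, z.coeff γ ≠ 0 → Below ρ γ) (h : cut k K ρ z = 0) :
    z = 0 := by
  have hinj : Set.InjOn (fun (γ : Gam) (c : Fin ρ) => γ c.val) {γ | Below ρ γ} := by
    intro γ hγ β hβ he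
    funext c
    by_cases hc : c < ρ
    · exact congrFun he ⟨c, hc⟩
    · rw [hγ c (not_lt.1 hc), hβ c (not_lt.1 hc)]
  ext γ
  by_contra h0
  have h1 := Finsupp.mapDomain_apply' {γ | Below ρ γ} z.coeff
    (fun β hβ => hz β (Finsupp.mem_support_iff.1 hβ)) hinj (hz γ h0)
  have h2 : Finsupp.mapDomain (fun (γ : Gam) (c : Fin ρ) => γ c.val) z.coeff = 0 :=
    congrArg AddMonoidAlgebra.coeff h
  rw [h2] at h1
  exact h0 h1.symm

theorem cut_amb (D₀ : Fin N → Derivation k K K) (i : Fin (N + ρ)) (z : LL K) :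
    cut k K ρ (amb D₀ (Fin.val : Fin ρ → ℕ) i z) =
      amb D₀ (id : Fin ρ → Fin ρ) i (cut k K ρ z) := by
  induction z using AddMonoidAlgebra.induction_linear with
  | zero => simp
  | add a b ha hb => simp only [map_add, ha, hb]
  | single γ a =>
    refine Fin.addCases (fun i => ?_) (fun i => ?_) i
    · simp only [amb, Fin.append_left, aD_single, cut_sg, AddMonoidHom.zero_apply]
    · simp only [amb, Fin.append_right, aD_single, cut_sg, degK_apply, id_eq]

theorem Chart.Good.cut_injOn {A : Amb k K N} {c : Chart k K N} (h : c.Good A ρ) {z z' : LL K}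
    (hz : z ∈ c.B) (hz' : z' ∈ c.B) (he : cut k K ρ z = cut k K ρ z') : z = z' := by
  obtain ⟨s, hs, hB⟩ := h.fg
  refine sub_eq_zero.1 (cut_eq_zero (k := k) (ρ := ρ) (fun γ hγ => ?_) (by rw [map_sub, he, sub_self]))
  exact below_of_adjoin (k := k) (s := (s : Set (LL K))) hs (hB ▸ sub_mem hz hz') hγ

/-- Transport along the isomorphism `S ≃ S.map f`. -/
theorem etC_map {L L' : Type} [CommRing L] [Algebra k L] [CommRing L'] [Algebra k L'] {n : ℕ}
    {S : Subalgebra k L} {y : Fin n → L} (h : EtC S y) (f : L →ₐ[k] L')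
    (hf : ∀ z ∈ S, ∀ z' ∈ S, f z = f z' → z = z') : EtC (S.map f) fun l => f (y l) := by
  obtain ⟨hy, h⟩ := h
  refine ⟨fun l => ⟨y l, hy l, rfl⟩, ?_⟩
  let g : S →ₐ[k] S.map f := (f.comp S.val).codRestrict (S.map f) fun z => ⟨z, z.2, rfl⟩
  have hg : Function.Bijective g := by
    constructor
    · intro a b hab
      exact Subtype.ext (hf _ a.2 _ b.2 (congrArg Subtype.val hab))
    · rintro ⟨_, z, hz, rfl⟩
      exact ⟨⟨z, hz⟩, rfl⟩
  have h1 := RingHom.Etale.stableUnderComposition _ _ h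
    (RingHom.Etale.of_bijective (f := g.toRingHom) hg)
  have h2 : (MvPolynomial.aeval (fun l => (⟨f (y l), y l, hy l, rfl⟩ : S.map f)) :
      MvPolynomial (Fin n) k →ₐ[k] S.map f) =
      g.comp (MvPolynomial.aeval fun l => (⟨y l, hy l⟩ : S)) := by
    ext i : 1
    simp only [MvPolynomial.aeval_X, AlgHom.comp_apply]
    rfl
  rw [h2]
  exact h1

/-- `F l = (F l / F l') * F l'` lies in every valuation ring that contains `R`
(`iInf_valuationSubring_superset`), so it is integral over `R`. -/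
theorem Sys.Good.exists_F {R : Type} [CommRing R] [IsDomain R] [IsIntegrallyClosed R] [Algebra R K]
    [IsFractionRing R K] {A : Amb k K N} {S : Sys k K N} (h : S.Good A ρ)
    (hW : ∀ V : ValuationSubring K, (∀ r, algebraMap R K r ∈ V) → ∃ W ∈ A.WW, ∀ a ∈ W, a ∈ V)
    (l : S.ι) : ∃ r : R, algebraMap R K r = (S.F l : K) := by
  have h1 : (S.F l : K) ∈ (integralClosure
      (Subring.closure (Set.range (algebraMap R K))) K).toSubring := by
    rw [← iInf_valuationSubring_superset, Subring.mem_iInf]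
    rintro ⟨V, hV⟩
    obtain ⟨W, hW1, hW2⟩ := hW V fun r => hV ⟨r, rfl⟩
    obtain ⟨l', hl'⟩ := h.cover W hW1
    refine hW2 _ (hl' _ ?_)
    have h2 := mul_mem (h.div l' l) ((h.good l').mono_mem (h.mono l'))
    rwa [← Units.val_mul, hu_mul, add_zero, div_mul_cancel, coe_hu] at h2
  have h2 : IsIntegral (Subring.closure (Set.range (algebraMap R K))) (S.F l : K) := h1
  have h3 : Subring.closure (Set.range (algebraMap R K)) = (algebraMap R K).range :=
    Subring.closure_eq (algebraMap R K).range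
  rw [h3] at h2
  have h4 : IsIntegral R (S.F l : K) := by
    obtain ⟨p, hp, hp0⟩ := h2
    obtain ⟨p', hp', -, hm⟩ := Polynomial.lifts_and_degree_eq_and_monic
      (f := (algebraMap R K).rangeRestrict) (p := p)
      (Polynomial.lifts_iff_coeff_lifts _ |>.2 fun n =>
        (algebraMap R K).rangeRestrict_surjective _) hp
    refine ⟨p', hm, ?_⟩
    rw [← hp', Polynomial.eval₂_map] at hp0
    exact hp0
  exact IsIntegrallyClosed.isIntegral_iff.1 h4

/-- `τ ∈ B` is a monomial and every `y e` divides `F`. -/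
theorem Sys.Good.tau_inv {A : Amb k K N} {S : Sys k K N} (h : S.Good A ρ) (l : S.ι) {e : ℕ}
    (he : e < ρ) : ∃ m : ℕ,
      (hu 0 (S.F l) : LL K) ^ m * (((tau K e)⁻¹ : (LL K)ˣ) : LL K) ∈ (S.ch l).B := by
  obtain ⟨υ, ⟨-, υ', hυ', hυ⟩, a, ha⟩ := (h.good l).tauMono e he
  choose c hc hc' using fun e => mem_pr1.1 (h.dvd l e)
  refine ⟨∑ e ∈ Finset.range ρ, a e, ?_⟩
  have h1 : (hu 0 (S.F l) : LL K) ^ (∑ e ∈ Finset.range ρ, a e) =
      (υ' * ∏ e ∈ Finset.range ρ, c e ^ a e) * (tau K e : LL K) := by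
    rw [← Finset.prod_pow_eq_pow_sum, ha, mul_mul_mul_comm, mul_comm υ', hυ, one_mul,
      ← Finset.prod_mul_distrib]
    exact Finset.prod_congr rfl fun e _ => by rw [← mul_pow, ← hc']
  rw [h1, mul_assoc, Units.mul_inv, mul_one]
  exact mul_mem hυ' (prod_mem fun e _ => pow_mem (hc e) _)

end Pool.Agent.Lib.MP_4287a9_ag.Res
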