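import Pool.Agent.Lib.MP_4287a9_ag.EpsA

/-!
The Cech complex of a free graded module.
-/

open scoped TensorProduct ENNReal NNReal nonZeroDivisors Polynomial
open Filter

namespace Pool.Agent.Lib.MP_4287a9_ag

noncomputable section

theorem serA_unit {T : Type} [CommRing T] {m : ℕ} (σ : Finset (Fin m)) (i : ℕ) :
    (((∏ a ∈ σ, Xu T a) ^ i : (LA T m)ˣ) : LA T m) =
      AddMonoidAlgebra.single (fun a => if a ∈ σ then (i : ℤ) else 0) 1 := by
  rw [Units.val_pow_eq_pow_val, Units.coe_prod]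
  simp only [Xu]
  rw [AddMonoidAlgebra.prod_single, AddMonoidAlgebra.single_pow, Finset.prod_const_one, one_pow]
  congr 1
  funext a
  simp [Finset.sum_apply, Pi.single_apply]

theorem mem_secM_frM {T : Type} [CommRing T] {m k : ℕ} (d : Fin k → ℕ) (j : ℕ)
    (σ : Finset (Fin m)) (v : Fin k → LA T m) :
    v ∈ secM (Xu T) (frM T m d) j σ ↔
      ∀ i β, (v i).coeff β ≠ 0 → (∀ a, a ∉ σ → 0 ≤ β a) ∧ ∑ a, β a + d i = j := by
  have hs : ∀ e : ℕ, ∑ a, (if a ∈ σ then (e : ℤ) else 0) = e * σ.card := fun e => by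
    simp [mul_comm]
  have hc : ∀ (e : ℕ) (i : Fin k) (β : Fin m → ℤ),
      (((((∏ a ∈ σ, Xu T a) ^ e : (LA T m)ˣ) : LA T m) • v) i).coeff β =
        (v i).coeff (-(fun a => if a ∈ σ then (e : ℤ) else 0) + β) := fun e i β => by
    rw [Pi.smul_apply, smul_eq_mul, serA_unit, AddMonoidAlgebra.coeff_single_mul_apply, one_mul]
  constructor
  · rintro ⟨e, he⟩ i β h
    obtain ⟨h1, h2⟩ := he i ((fun a => if a ∈ σ then (e : ℤ) else 0) + β) (by
      rwa [hc, neg_add_cancel_left])
    refine ⟨fun a ha => by simpa [ha] using h1 a, ?_⟩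
    simp only [Pi.add_apply, Finset.sum_add_distrib, hs] at h2
    push_cast at h2
    linarith
  · intro h
    let e : ℕ := Finset.univ.sup fun i => (v i).coeff.support.sup fun β =>
      Finset.univ.sup fun a => (β a).natAbs
    refine ⟨e, fun i β hβ => ?_⟩
    rw [hc] at hβ
    obtain ⟨h1, h2⟩ := h i _ hβ
    refine ⟨fun a => ?_, ?_⟩
    · by_cases ha : a ∈ σ
      · have h3 : ((-(fun a => if a ∈ σ then (e : ℤ) else 0) + β) a).natAbs ≤ e :=
          Finset.le_sup_of_le (Finset.mem_univ i) (Finset.le_sup_of_le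
            (Finsupp.mem_support_iff.2 hβ) (Finset.le_sup_of_le (Finset.mem_univ a) le_rfl))
        simp only [Pi.add_apply, Pi.neg_apply, if_pos ha] at h3
        omega
      · simpa [ha] using h1 a ha
    · simp only [Pi.add_apply, Pi.neg_apply, Finset.sum_add_distrib, Finset.sum_neg_distrib,
        hs] at h2
      push_cast
      linarith

/-- contraction with the `a`-th basis vector -/
def serA_con {m : ℕ} {M : Type} [AddCommGroup M] (a : Fin m) (c : Finset (Fin m) → M) :
    Finset (Fin m) → M :=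
  fun τ => if a ∈ τ then 0 else (-1 : ℤ) ^ ((insert a τ).filter (· < a)).card • c (insert a τ)

theorem serA_cdel_con {m : ℕ} {M : Type} [AddCommGroup M] (a : Fin m) (c : Finset (Fin m) → M)
    {s : ℕ} (hc : ∀ σ, σ.card = s + 2 → cdel c σ = 0) (σ : Finset (Fin m))
    (hσ : σ.card = s + 1) : cdel (serA_con a c) σ = c σ := by
  have hsq : ∀ (e : ℕ) (v : M), (-1 : ℤ) ^ e • (-1 : ℤ) ^ e • v = v := fun e v => by
    rw [smul_smul, ← mul_pow, neg_one_mul, neg_neg, one_pow, one_smul]
  have h1 : ∀ τ, a ∈ τ → (cdel (serA_con a c) - c) τ = 0 := fun τ hτ => by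
    rw [Pi.sub_apply, sub_eq_zero, cdel_apply, Finset.sum_eq_single_of_mem a hτ]
    · rw [serA_con, if_neg (Finset.notMem_erase a τ), Finset.insert_erase hτ, hsq]
    · intro b _ hb
      rw [serA_con, if_pos (Finset.mem_erase.2 ⟨hb.symm, hτ⟩), smul_zero]
  rw [← sub_eq_zero]
  by_cases ha : a ∈ σ
  · exact h1 σ ha
  have h2 : cdel (cdel (serA_con a c) - c) (insert a σ) = 0 := by
    rw [cdel_sub, cdel_cdel, Pi.sub_apply, hc _ (by rw [Finset.card_insert_of_notMem ha, hσ]),
      Pi.zero_apply, sub_zero]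
  rw [cdel_apply, Finset.sum_eq_single_of_mem a (Finset.mem_insert_self a σ),
    Finset.erase_insert ha] at h2
  · rw [← hsq ((insert a σ).filter (· < a)).card (_ - _)]
    exact (congrArg _ h2).trans (smul_zero _)
  · intro b _ hb
    rw [h1 _ (Finset.mem_erase.2 ⟨hb.symm, Finset.mem_insert_self a σ⟩), smul_zero]

/-- the part of a vector with exponents satisfying `p` -/
def serA_proj {T : Type} [CommRing T] {m k : ℕ} (p : (Fin m → ℤ) → Prop) [DecidablePred p] :
    (Fin k → LA T m) →+ (Fin k → LA T m) where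
  toFun v i := AddMonoidAlgebra.ofCoeff ((v i).coeff.filter p)
  map_zero' := by
    funext i
    simp [Finsupp.filter_zero]
  map_add' v w := by
    funext i
    simp [Finsupp.filter_add]

theorem serA_proj_coeff {T : Type} [CommRing T] {m k : ℕ} (p : (Fin m → ℤ) → Prop)
    [DecidablePred p] (v : Fin k → LA T m) (i : Fin k) (β : Fin m → ℤ) :
    (serA_proj p v i).coeff β = if p β then (v i).coeff β else 0 := rfl

/-- For an exponent `β` with `∑ β ≥ 0` choose `a₀ β` with `β (a₀ β) ≥ 0` (if `m = 0` there is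
nothing to prove). Define the coefficient of `β` in `b τ` as `± coeff β (c (insert a₀ τ))` when
`a₀ ∉ τ` and `0` otherwise. The contraction `ι a₀` satisfies `cdel ∘ ι + ι ∘ cdel = id`. -/
theorem cexact_frM {T : Type} [CommRing T] {m k : ℕ} (d : Fin k → ℕ) {j : ℕ}
    (hj : ∀ i, d i ≤ j) (s : ℕ) : CExact (secM (Xu T (m := m)) (frM T m d) j) s := by
  classical
  intro c hc hd
  rcases isEmpty_or_nonempty (Fin m) with hm | ⟨⟨a₁⟩⟩
  · refine ⟨0, fun σ _ => (mem_secM_frM d j σ _).2 fun i β h => absurd rfl h, fun σ hσ => ?_⟩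
    rw [Finset.eq_empty_of_isEmpty σ] at hσ
    simp at hσ
  have hex : ∀ β : Fin m → ℤ, ∃ a, 0 ≤ ∑ a, β a → 0 ≤ β a := fun β => by
    by_contra h
    push Not at h
    exact absurd (h a₁).1 (not_le.2 (Finset.sum_neg (fun a _ => (h a).2) ⟨a₁, Finset.mem_univ _⟩))
  choose a₀ ha₀ using hex
  refine ⟨fun τ => ∑ a, serA_con a (fun σ => serA_proj (fun β => a₀ β = a) (c σ)) τ,
    fun τ hτ => (mem_secM_frM d j τ _).2 fun i β h => ?_, fun σ hσ => ?_⟩
  · beta_reduce at h
    rw [Finset.sum_apply, AddMonoidAlgebra.coeff_sum, Finsupp.finsetSum_apply] at h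
    obtain ⟨a, -, h⟩ := Finset.exists_ne_zero_of_sum_ne_zero h
    by_cases ha : a ∈ τ
    · simp [serA_con, ha] at h
    rw [serA_con, if_neg ha, Pi.smul_apply, AddMonoidAlgebra.coeff_smul_apply,
      serA_proj_coeff] at h
    have h1 : a₀ β = a := by
      by_contra h1
      simp [h1] at h
    rw [if_pos h1] at h
    obtain ⟨h2, h3⟩ := (mem_secM_frM d j _ _).1
      (hc (insert a τ) (by rw [Finset.card_insert_of_notMem ha, hτ])) i β
      (right_ne_zero_of_smul h)
    refine ⟨fun a' ha' => ?_, h3⟩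
    by_cases e : a' = a
    · rw [e, ← h1]
      have : (d i : ℤ) ≤ j := by exact_mod_cast hj i
      exact ha₀ β (by linarith)
    · exact h2 a' fun h4 => (Finset.mem_insert.1 h4).elim e ha'
  · have h1 : ∀ a, cdel (serA_con a fun σ => serA_proj (fun β => a₀ β = a) (c σ)) σ =
        serA_proj (fun β => a₀ β = a) (c σ) := fun a =>
      serA_cdel_con a _ (fun τ hτ => by rw [cdel_comp, hd τ hτ, map_zero]) σ hσ
    have h2 : c σ = ∑ a, serA_proj (fun β => a₀ β = a) (c σ) := by
      funext i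
      ext β
      rw [Finset.sum_apply, AddMonoidAlgebra.coeff_sum, Finsupp.finsetSum_apply]
      simp only [serA_proj_coeff]
      rw [Finset.sum_ite_eq, if_pos (Finset.mem_univ _)]
    rw [h2, ← Finset.sum_congr rfl fun a _ => h1 a]
    simp only [cdel_apply, Finset.smul_sum]
    exact Finset.sum_comm

end

end Pool.Agent.Lib.MP_4287a9_ag
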