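import Pool.Agent.Lib.MP_4287a9_ag.D2

/-!
Graded submodules of free graded modules are finitely generated.
-/

open scoped TensorProduct ENNReal NNReal nonZeroDivisors Polynomial
open Filter

namespace Pool.Agent.Lib.MP_4287a9_ag

noncomputable section

theorem frM_fg {T : Type} [CommRing T] {m k : ℕ} (d : Fin k → ℕ) (j : ℕ) :
    (frM T m d j).FG := by
  have h : frM T m d j = Submodule.pi Set.univ fun i =>
      AddMonoidAlgebra.supported T T {β : Fin m → ℤ | (∀ a, 0 ≤ β a) ∧ ∑ a, β a + d i = j} := by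
    ext v
    simp only [Submodule.mem_pi, Set.mem_univ, true_imp_iff, AddMonoidAlgebra.mem_supported']
    exact forall_congr' fun i => forall_congr' fun β => not_imp_comm
  rw [h]
  refine Submodule.fg_pi fun i => ?_
  rw [AddMonoidAlgebra.supported_eq_span_single]
  refine Submodule.fg_span (Set.Finite.image _ ?_)
  refine (Set.finite_Icc (0 : Fin m → ℤ) fun _ => j).subset fun β hβ => ⟨hβ.1, fun a => ?_⟩
  have h1 := Finset.single_le_sum (f := β) (fun b _ => hβ.1 b) (Finset.mem_univ a)
  have h2 := hβ.2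
  change β a ≤ j
  omega

theorem frM_step {T : Type} [CommRing T] {m k : ℕ} (d : Fin k → ℕ) (j : ℕ) (a : Fin m)
    {v : Fin k → LA T m} (hv : v ∈ frM T m d j) :
    ((Xu T a : (LA T m)ˣ) : LA T m) • v ∈ frM T m d (j + 1) := by
  intro i β h
  have e : ((((Xu T a : (LA T m)ˣ) : LA T m) • v) i).coeff β
      = (v i).coeff (-Pi.single a 1 + β) := by
    change (AddMonoidAlgebra.single (Pi.single a 1) 1 * v i).coeff β = _
    rw [AddMonoidAlgebra.coeff_single_mul_apply, one_mul]
  rw [e] at h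
  obtain ⟨h1, h2⟩ := hv i _ h
  simp only [Pi.add_apply, Pi.neg_apply, Finset.sum_add_distrib, Finset.sum_neg_distrib,
    Finset.sum_pi_single', Finset.mem_univ, if_true] at h1 h2
  refine ⟨fun b => ?_, by push_cast; omega⟩
  have h3 := h1 b
  have h4 : (0 : ℤ) ≤ (Pi.single a 1 : Fin m → ℤ) b := by
    rw [Pi.single_apply]
    split_ifs <;> norm_num
  omega

/-- The subalgebra of polynomials. -/
def SerB_P (T : Type) [CommRing T] (m : ℕ) : Subalgebra T (LA T m) :=
  Algebra.adjoin T (Set.range fun a => ((Xu T a : (LA T m)ˣ) : LA T m))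

theorem SerB_mem {T : Type} [CommRing T] {m : ℕ} {x : LA T m}
    (hx : ∀ β, x.coeff β ≠ 0 → ∀ a, 0 ≤ β a) : x ∈ SerB_P T m := by
  let A : AddSubmonoid (Fin m → ℤ) :=
    { carrier := {β | AddMonoidAlgebra.single β 1 ∈ SerB_P T m}
      zero_mem' := one_mem (SerB_P T m)
      add_mem' := fun {β γ} hβ hγ => by
        have h := (SerB_P T m).mul_mem hβ hγ
        rwa [AddMonoidAlgebra.single_mul_single, one_mul] at h }
  have h1 : x ∈ AddMonoidAlgebra.supported T T {β : Fin m → ℤ | ∀ a, 0 ≤ β a} :=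
    AddMonoidAlgebra.mem_supported'.2 fun β hβ => not_not.1 fun h => hβ (hx β h)
  rw [AddMonoidAlgebra.supported_eq_span_single] at h1
  refine (Submodule.span_le (p := Subalgebra.toSubmodule (SerB_P T m))).2 ?_ h1
  rintro _ ⟨β, hβ, rfl⟩
  have h2 : β = ∑ a, (β a).toNat • (Pi.single a 1 : Fin m → ℤ) := by
    funext b
    simp [Finset.sum_apply, Pi.single_apply, hβ b]
  change β ∈ A
  rw [h2]
  refine sum_mem fun a _ => nsmul_mem ?_ _
  exact Algebra.subset_adjoin (s := Set.range fun a => ((Xu T a : (LA T m)ˣ) : LA T m)) ⟨a, rfl⟩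

/-- The component of degree `e`. -/
def SerB_pr {T : Type} [CommRing T] {m k : ℕ} (d : Fin k → ℕ) (e : ℕ) (v : Fin k → LA T m) :
    Fin k → LA T m :=
  fun i => AddMonoidAlgebra.ofCoeff ((v i).coeff.filter fun β => ∑ a, β a + d i = e)

theorem SerB_pr_add {T : Type} [CommRing T] {m k : ℕ} (d : Fin k → ℕ) (e : ℕ)
    (v w : Fin k → LA T m) : SerB_pr d e (v + w) = SerB_pr d e v + SerB_pr d e w := by
  funext i
  ext β
  simp [SerB_pr, Finsupp.filter_add]

theorem SerB_pr_self {T : Type} [CommRing T] {m k : ℕ} {d : Fin k → ℕ} {e : ℕ}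
    {v : Fin k → LA T m} (hv : v ∈ frM T m d e) : SerB_pr d e v = v := by
  funext i
  ext β
  simp only [SerB_pr, Finsupp.filter_apply]
  split_ifs with h
  · rfl
  · exact (not_not.1 fun h' => h (hv i β h').2).symm

theorem SerB_pr_ne {T : Type} [CommRing T] {m k : ℕ} {d : Fin k → ℕ} {e e' : ℕ}
    {v : Fin k → LA T m} (hv : v ∈ frM T m d e') (he : e' ≠ e) : SerB_pr d e v = 0 := by
  funext i
  ext β
  simp only [SerB_pr, Finsupp.filter_apply]
  split_ifs with h
  · exact not_not.1 fun h' => he (by have := (hv i β h').2; omega)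
  · rfl

/-- Sums of variables times elements of `K`. -/
def SerB_G {T : Type} [CommRing T] {m k : ℕ} (K : Submodule T (Fin k → LA T m)) :
    Submodule T (Fin k → LA T m) where
  carrier := {v | ∃ w : Fin m → Fin k → LA T m,
    (∀ a, w a ∈ K) ∧ v = ∑ a, ((Xu T a : (LA T m)ˣ) : LA T m) • w a}
  zero_mem' := ⟨0, fun _ => zero_mem _, by simp⟩
  add_mem' := by
    rintro _ _ ⟨w, hw, rfl⟩ ⟨w', hw', rfl⟩
    exact ⟨w + w', fun a => add_mem (hw a) (hw' a), by simp [Finset.sum_add_distrib]⟩
  smul_mem' := by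
    rintro c _ ⟨w, hw, rfl⟩
    refine ⟨c • w, fun a => K.smul_mem c (hw a), ?_⟩
    rw [Finset.smul_sum]
    exact Finset.sum_congr rfl fun a _ => smul_comm _ _ _

theorem SerB_G_mem {T : Type} [CommRing T] {m k : ℕ} {K : Submodule T (Fin k → LA T m)}
    (a : Fin m) {v : Fin k → LA T m} (hv : v ∈ K) :
    ((Xu T a : (LA T m)ˣ) : LA T m) • v ∈ SerB_G K := by
  refine ⟨Pi.single a v, fun b => ?_, ?_⟩
  · rw [Pi.single_apply]
    split_ifs
    exacts [hv, zero_mem _]
  · rw [Finset.sum_eq_single a (fun b _ hb => by simp [hb]) (by simp), Pi.single_eq_same]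

/-- Hilbert basis theorem. View `Fin k → LA T m` as a module over `P = MvPolynomial (Fin m) T`.
The `P`-span of all `frM j` is finitely generated, so the increasing chain
`U j = span_P (K 0 ∪ ... ∪ K j)` stabilizes at some `j₁`. For `v ∈ K (j + 1) ⊆ U j₁`, write `v`
as a sum of `monomial * element of K i` and keep only the terms of total degree `j + 1`
(projection onto the exponents of the right degree); each has a monomial of positive degree. -/
theorem sub_gen {T : Type} [CommRing T] [IsNoetherianRing T] {m k : ℕ} (d : Fin k → ℕ)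
    (K : ℕ → Submodule T (Fin k → LA T m)) (hK : ∀ j, K j ≤ frM T m d j)
    (hX : ∀ a j, ∀ v ∈ K j, ((Xu T a : (LA T m)ˣ) : LA T m) • v ∈ K (j + 1)) :
    ∃ j1, ∀ j, j1 ≤ j → ∀ v ∈ K (j + 1), ∃ w : Fin m → Fin k → LA T m,
      (∀ a, w a ∈ K j) ∧ v = ∑ a, ((Xu T a : (LA T m)ˣ) : LA T m) • w a := by
  have : IsNoetherianRing (SerB_P T m) :=
    isNoetherianRing_of_fg (Subalgebra.fg_def.2 ⟨_, Set.finite_range _, rfl⟩)
  have hF : (Submodule.span (SerB_P T m) (⋃ j, (K j : Set (Fin k → LA T m)))).FG := by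
    refine (Submodule.fg_pi fun _ : Fin k =>
      Submodule.fg_span_singleton (R := SerB_P T m) (1 : LA T m)).of_le (Submodule.span_le.2 ?_)
    intro v hv i _
    obtain ⟨j, hj⟩ := Set.mem_iUnion.1 hv
    exact Submodule.mem_span_singleton.2 ⟨⟨v i, SerB_mem fun β h => (hK j hj i β h).1⟩, mul_one _⟩
  obtain ⟨t, ht, hspan⟩ := (Submodule.fg_span_iff_fg_span_finset_subset _).1 hF
  have h1 : ∀ v : t, ∃ j, v.1 ∈ K j := fun v => Set.mem_iUnion.1 (ht v.2)
  choose f hf using h1
  refine ⟨Finset.univ.sup f, fun j hj v hv => ?_⟩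
  let K' : ℕ → Submodule T (Fin k → LA T m) := fun e =>
    if e ≤ Finset.univ.sup f then K e else SerB_G (K (e - 1))
  have h2 : ∀ e, K' e ≤ K e := fun e => by
    simp only [K']
    split_ifs with he
    · exact le_rfl
    · rintro _ ⟨w, hw, rfl⟩
      refine sum_mem fun a _ => ?_
      have h := hX a _ _ (hw a)
      rwa [Nat.sub_add_cancel (by omega)] at h
  have h3 : ∀ a e, ∀ w ∈ K' e, ((Xu T a : (LA T m)ˣ) : LA T m) • w ∈ K' (e + 1) := by
    intro a e w hw
    simp only [K']
    split_ifs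
    · exact hX a e w (h2 e hw)
    · exact SerB_G_mem a (h2 e hw)
  have h4 : ∀ r ∈ SerB_P T m, ∀ w ∈ ⨆ e, K' e, r • w ∈ ⨆ e, K' e := by
    intro r hr
    induction hr using Algebra.adjoin_induction with
    | mem r hr =>
      obtain ⟨a, rfl⟩ := hr
      intro w hw
      refine Submodule.iSup_induction K' (motive := fun w => _ • w ∈ ⨆ e, K' e) hw
        (fun e w hw => Submodule.mem_iSup_of_mem (e + 1) (h3 a e w hw)) (by simp) fun w w' g g' => ?_
      rw [smul_add]
      exact add_mem g g'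
    | algebraMap c =>
      intro w hw
      rw [algebraMap_smul]
      exact Submodule.smul_mem _ c hw
    | add r r' _ _ g g' =>
      intro w hw
      rw [add_smul]
      exact add_mem (g w hw) (g' w hw)
    | mul r r' _ _ g g' =>
      intro w hw
      rw [mul_smul]
      exact g _ (g' w hw)
  have h5 : v ∈ ⨆ e, K' e := by
    have h6 : v ∈ Submodule.span (SerB_P T m) (t : Set (Fin k → LA T m)) :=
      hspan ▸ Submodule.subset_span (Set.mem_iUnion.2 ⟨_, hv⟩)
    clear hv
    induction h6 using Submodule.span_induction with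
    | mem w hw =>
      refine Submodule.mem_iSup_of_mem (f ⟨w, hw⟩) ?_
      simp only [K', if_pos (Finset.le_sup (f := f) (Finset.mem_univ (⟨w, hw⟩ : t)))]
      exact hf ⟨w, hw⟩
    | zero => exact zero_mem _
    | add w w' _ _ g g' => exact add_mem g g'
    | smul r w _ g => exact h4 r r.2 w g
  have h6 : SerB_pr d (j + 1) v ∈ K' (j + 1) := by
    refine Submodule.iSup_induction K' (motive := fun w => SerB_pr d (j + 1) w ∈ K' (j + 1)) h5
      (fun e w hw => ?_) ?_ fun w w' g g' => ?_
    · rcases eq_or_ne e (j + 1) with rfl | he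
      · rwa [SerB_pr_self (hK _ (h2 _ hw))]
      · rw [SerB_pr_ne (hK _ (h2 _ hw)) he]
        exact zero_mem _
    · rw [SerB_pr_self (zero_mem _)]
      exact zero_mem _
    · rw [SerB_pr_add]
      exact add_mem g g'
  rw [SerB_pr_self (hK _ hv)] at h6
  simp only [K', if_neg (show ¬ j + 1 ≤ Finset.univ.sup f by omega)] at h6
  exact h6

end

end Pool.Agent.Lib.MP_4287a9_ag
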