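import Pool.Agent.Lib.MP_4287a9_ag.SerA
import Pool.Agent.Lib.MP_4287a9_ag.SerB

/-!
Serre vanishing for finitely generated graded families.
-/

open scoped TensorProduct ENNReal NNReal nonZeroDivisors Polynomial
open Filter

namespace Pool.Agent.Lib.MP_4287a9_ag

noncomputable section

section

variable {T A N : Type} [CommRing T] [CommRing A] [AddCommGroup N] [Module T N] [Module A N]
  {m : ℕ} {G : Fin m → Aˣ} {M : ℕ → Submodule T N}

theorem serc_mono (hG : ∀ a j, ∀ v ∈ M j, (G a : A) • v ∈ M (j + 1)) (γ : Fin m → ℕ)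
    (σ : Finset (Fin m)) {j : ℕ} {v : N} (hv : v ∈ M j) :
    ((∏ a ∈ σ, G a ^ γ a : Aˣ) : A) • v ∈ M (j + ∑ a ∈ σ, γ a) := by
  have h1 : ∀ a n j, ∀ v ∈ M j, ((G a ^ n : Aˣ) : A) • v ∈ M (j + n) := by
    intro a n j v hv
    induction n with
    | zero => simpa using hv
    | succ n ih =>
      rw [pow_succ', Units.val_mul, mul_smul]
      exact hG a _ _ ih
  induction σ using Finset.induction_on with
  | empty => simpa using hv
  | insert a σ ha ih =>
    rw [Finset.prod_insert ha, Finset.sum_insert ha, Units.val_mul, mul_smul, add_comm (γ a),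
      ← add_assoc]
    exact h1 a _ _ _ ih

theorem serc_pow (hG : ∀ a j, ∀ v ∈ M j, (G a : A) • v ∈ M (j + 1)) (i : ℕ)
    (σ : Finset (Fin m)) {j : ℕ} {v : N} (hv : v ∈ M j) :
    (((∏ a ∈ σ, G a) ^ i : Aˣ) : A) • v ∈ M (j + i * σ.card) := by
  have h := serc_mono hG (fun _ => i) σ hv
  rwa [Finset.prod_pow, Finset.sum_const, smul_eq_mul, mul_comm] at h

/-- The sections form an additive subgroup. -/
def sercSec (hG : ∀ a j, ∀ v ∈ M j, (G a : A) • v ∈ M (j + 1)) (j : ℕ) (σ : Finset (Fin m)) :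
    AddSubgroup N where
  carrier := secM G M j σ
  zero_mem' := ⟨0, by simp⟩
  neg_mem' := fun ⟨i, hi⟩ => ⟨i, by rw [smul_neg]; exact neg_mem hi⟩
  add_mem' := fun ⟨i, hi⟩ ⟨i', hi'⟩ => ⟨i + i', by
    have h1 := serc_pow hG i' σ hi
    have h2 := serc_pow hG i σ hi'
    rw [← mul_smul, ← Units.val_mul, ← pow_add, add_assoc, ← add_mul] at h1 h2
    rw [add_comm i' i] at h1 h2
    rw [smul_add]
    exact add_mem h1 h2⟩

theorem serc_le (hG : ∀ a j, ∀ v ∈ M j, (G a : A) • v ∈ M (j + 1)) (j : ℕ)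
    {τ σ : Finset (Fin m)} (h : τ ⊆ σ) {v : N} (hv : v ∈ secM G M j τ) : v ∈ secM G M j σ := by
  obtain ⟨i, hi⟩ := hv
  refine ⟨i, ?_⟩
  have h1 := serc_pow hG i (σ \ τ) hi
  rwa [← mul_smul, ← Units.val_mul, ← mul_pow, Finset.prod_sdiff h, add_assoc, ← mul_add,
    add_comm τ.card, Finset.card_sdiff_add_card_eq_card h] at h1

theorem serc_cdel (hG : ∀ a j, ∀ v ∈ M j, (G a : A) • v ∈ M (j + 1)) (j : ℕ) {s : ℕ}
    {c : Finset (Fin m) → N} (hc : ∀ τ, τ.card = s → c τ ∈ secM G M j τ) {σ : Finset (Fin m)}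
    (hσ : σ.card = s + 1) : cdel c σ ∈ secM G M j σ := by
  rw [cdel_apply]
  refine (sercSec hG j σ).sum_mem fun a ha => (sercSec hG j σ).zsmul_mem ?_ _
  exact serc_le hG j (Finset.erase_subset a σ) (hc _ (by rw [Finset.card_erase_of_mem ha]; omega))

theorem serc_comm {A' N' : Type} [CommRing A'] [AddCommGroup N'] [Module T N'] [Module A' N']
    {G' : Fin m → A'ˣ} {Φ : N' →ₗ[T] N} (h : ∀ a x, Φ ((G' a : A') • x) = (G a : A) • Φ x)
    (σ : Finset (Fin m)) (i : ℕ) (x : N') :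
    Φ ((((∏ a ∈ σ, G' a) ^ i : A'ˣ) : A') • x) = (((∏ a ∈ σ, G a) ^ i : Aˣ) : A) • Φ x := by
  have h1 : ∀ x, Φ (((∏ a ∈ σ, G' a : A'ˣ) : A') • x) = ((∏ a ∈ σ, G a : Aˣ) : A) • Φ x := by
    induction σ using Finset.induction_on with
    | empty => simp
    | insert a σ ha ih =>
      intro x
      rw [Finset.prod_insert ha, Finset.prod_insert ha, Units.val_mul, Units.val_mul, mul_smul,
        mul_smul, h, ih]
  induction i with
  | zero => simp
  | succ i ih =>
    rw [pow_succ', pow_succ', Units.val_mul, Units.val_mul, mul_smul, mul_smul, h1, ih]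

theorem serc_cancel (u : Aˣ) {v w : N} (h : (u : A) • v = (u : A) • w) : v = w := by
  have := congrArg (fun x => ((u⁻¹ : Aˣ) : A) • x) h
  simpa only [← mul_smul, Units.inv_mul, one_smul] using this

theorem serc_gens (hfg : ∀ j, (M j).FG) (j1 : ℕ) : ∃ (k : ℕ) (d : Fin k → ℕ) (v : Fin k → N),
    (∀ i, v i ∈ M (d i)) ∧ ∀ j ≤ j1, M j ≤ Submodule.span T {x | ∃ i, d i = j ∧ v i = x} := by
  choose n s hs using fun j => Submodule.fg_iff_exists_fin_generating_family.1 (hfg j)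
  let e := (Fintype.equivFin ((j : Fin (j1 + 1)) × Fin (n j))).symm
  refine ⟨_, fun i => (e i).1, fun i => s _ (e i).2, fun i => ?_, fun j hj => ?_⟩
  · rw [← hs]
    exact Submodule.subset_span ⟨_, rfl⟩
  · rw [← hs]
    refine Submodule.span_mono ?_
    rintro _ ⟨l, rfl⟩
    refine ⟨e.symm ⟨⟨j, Nat.lt_succ_of_le hj⟩, l⟩, ?_, ?_⟩
    · simp only [Equiv.apply_symm_apply]
    · beta_reduce
      rw [Equiv.apply_symm_apply]

end

/-- A presentation: choose generators `v i ∈ M (d i)` of `M 0, ..., M j₁`, let `φ : LA T m → A`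
send `X a` to `G a`, and `Φ x = ∑ i, φ (x i) • v i`. -/
theorem exists_cover {T A N : Type} [CommRing T] [CommRing A] [Algebra T A] [AddCommGroup N]
    [Module T N] [Module A N] [IsScalarTower T A N] {m : ℕ} (G : Fin m → Aˣ)
    (M : ℕ → Submodule T N) (hG : ∀ a j, ∀ v ∈ M j, (G a : A) • v ∈ M (j + 1))
    (hfg : ∀ j, (M j).FG)
    (hgen : ∃ j1, ∀ j, j1 ≤ j → ∀ v ∈ M (j + 1), ∃ w : Fin m → N,
      (∀ a, w a ∈ M j) ∧ v = ∑ a, (G a : A) • w a) :
    ∃ (k : ℕ) (d : Fin k → ℕ) (Φ : (Fin k → LA T m) →ₗ[T] N),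
      (∀ j, (frM T m d j).map Φ = M j) ∧
      (∀ a x, Φ (((Xu T a : (LA T m)ˣ) : LA T m) • x) = (G a : A) • Φ x) := by
  classical
  obtain ⟨j1, hj1⟩ := hgen
  obtain ⟨k, d, v, hv, hsp⟩ := serc_gens hfg j1
  let F : Multiplicative (Fin m → ℤ) →* A :=
    { toFun := fun β => ((∏ a, G a ^ (β.toAdd a) : Aˣ) : A)
      map_one' := by simp
      map_mul' := fun β γ => by
        rw [← Units.val_mul, ← Finset.prod_mul_distrib]
        simp only [toAdd_mul, Pi.add_apply, zpow_add] }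
  let φ : LA T m →ₐ[T] A := AddMonoidAlgebra.lift T A (Fin m → ℤ) F
  let Φ : (Fin k → LA T m) →ₗ[T] N :=
    { toFun := fun x => ∑ i, φ (x i) • v i
      map_add' := fun x y => by simp only [Pi.add_apply, map_add, add_smul, Finset.sum_add_distrib]
      map_smul' := fun c x => by
        simp only [Pi.smul_apply, map_smul, smul_assoc, RingHom.id_apply, Finset.smul_sum] }
  have hΦ : ∀ x, Φ x = ∑ i, φ (x i) • v i := fun _ => rfl
  have hX : ∀ a, φ ((Xu T a : (LA T m)ˣ) : LA T m) = G a := by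
    intro a
    refine (AddMonoidAlgebra.lift_single F (Pi.single a 1) 1).trans ?_
    rw [one_smul]
    show ((∏ b, G b ^ (Pi.single a 1 : Fin m → ℤ) b : Aˣ) : A) = G a
    rw [Finset.prod_eq_single a (fun b _ hb => by simp [hb]) (by simp)]
    simp
  have h3 : ∀ a x, Φ (((Xu T a : (LA T m)ˣ) : LA T m) • x) = (G a : A) • Φ x := by
    intro a x
    simp only [hΦ, Pi.smul_apply, smul_eq_mul, map_mul, hX, mul_smul, Finset.smul_sum]
  refine ⟨k, d, Φ, fun j => le_antisymm ?_ ?_, h3⟩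
  · rintro _ ⟨x, hx, rfl⟩
    rw [hΦ]
    refine Submodule.sum_mem _ fun i _ => ?_
    rw [show φ (x i) = _ from AddMonoidAlgebra.lift_apply F (x i), Finsupp.sum, Finset.sum_smul]
    refine Submodule.sum_mem _ fun β hβ => ?_
    rw [smul_assoc]
    refine Submodule.smul_mem _ _ ?_
    obtain ⟨h1, h2⟩ := hx i β (Finsupp.mem_support_iff.1 hβ)
    lift β to Fin m → ℕ using h1 with γ
    have h4 := serc_mono hG γ Finset.univ (hv i)
    have h5 : d i + ∑ a, γ a = j := by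
      have : ((d i + ∑ a, γ a : ℕ) : ℤ) = j := by
        rw [← h2]
        push_cast
        exact add_comm _ _
      exact_mod_cast this
    rw [h5] at h4
    show ((∏ a, G a ^ ((γ a : ℕ) : ℤ) : Aˣ) : A) • v i ∈ M j
    simpa only [zpow_natCast] using h4
  · have hlow : ∀ j ≤ j1, M j ≤ (frM T m d j).map Φ := by
      intro j hj
      refine (hsp j hj).trans (Submodule.span_le.2 ?_)
      rintro _ ⟨i, rfl, rfl⟩
      refine ⟨Pi.single i 1, fun l β hβ => ?_, ?_⟩
      · by_cases hl : l = i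
        · subst hl
          rw [Pi.single_eq_same, AddMonoidAlgebra.one_def, AddMonoidAlgebra.coeff_single] at hβ
          have h0 : β = 0 := by
            by_contra h0
            exact hβ (Finsupp.single_eq_of_ne h0)
          simp [h0]
        · simp [hl] at hβ
      · rw [hΦ, Finset.sum_eq_single i (fun b _ hb => by simp [hb]) (by simp)]
        simp
    induction j with
    | zero => exact hlow 0 (Nat.zero_le _)
    | succ j ih =>
      rcases le_or_gt (j + 1) j1 with h | h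
      · exact hlow _ h
      intro y hy
      obtain ⟨w, hw, rfl⟩ := hj1 j (by omega) y hy
      refine Submodule.sum_mem _ fun a _ => ?_
      obtain ⟨x, hx, hx'⟩ := ih (hw a)
      exact ⟨_, frM_step d j a hx, by rw [h3, hx']⟩

theorem serc_aux {T : Type} [CommRing T] [IsNoetherianRing T] {m : ℕ} (t : ℕ) :
    ∀ {A N : Type} [CommRing A] [Algebra T A] [AddCommGroup N] [Module T N] [Module A N]
      [IsScalarTower T A N] (G : Fin m → Aˣ) (M : ℕ → Submodule T N),
      (∀ a j, ∀ v ∈ M j, (G a : A) • v ∈ M (j + 1)) → (∀ j, (M j).FG) →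
      (∃ j1, ∀ j, j1 ≤ j → ∀ v ∈ M (j + 1), ∃ w : Fin m → N,
        (∀ a, w a ∈ M j) ∧ v = ∑ a, (G a : A) • w a) →
      ∃ j0, ∀ j, j0 ≤ j → ∀ s, m ≤ s + t → CExact (secM G M j) s := by
  classical
  induction t with
  | zero =>
    intro A N _ _ _ _ _ _ G M hG _ _
    refine ⟨0, fun j _ s hs c _ _ => ⟨0, fun σ _ => (sercSec hG j σ).zero_mem, fun σ hσ => ?_⟩⟩
    have := Finset.card_le_univ σ
    rw [Fintype.card_fin] at this
    omega
  | succ t ih =>
    intro A N _ _ _ _ _ _ G M hG hfg hgen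
    obtain ⟨k, d, Φ, h1, h2⟩ := exists_cover G M hG hfg hgen
    have hF : ∀ a j, ∀ v ∈ frM T m d j,
        ((Xu T a : (LA T m)ˣ) : LA T m) • v ∈ frM T m d (j + 1) := fun a j v => frM_step d j a
    have hK : ∀ a j, ∀ v ∈ frM T m d j ⊓ LinearMap.ker Φ,
        ((Xu T a : (LA T m)ˣ) : LA T m) • v ∈ frM T m d (j + 1) ⊓ LinearMap.ker Φ :=
      fun a j v hv => ⟨hF a j v hv.1, by
        rw [SetLike.mem_coe, LinearMap.mem_ker, h2, LinearMap.mem_ker.1 hv.2, smul_zero]⟩
    obtain ⟨j0, hj0⟩ := ih (Xu T) (fun j => frM T m d j ⊓ LinearMap.ker Φ) hK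
      (fun j => (frM_fg d j).of_le inf_le_left) (sub_gen d _ (fun j => inf_le_left) hK)
    refine ⟨max j0 (Finset.univ.sup d), fun j hj s hs c hc hc0 => ?_⟩
    have hlift : ∀ σ : Finset (Fin m), ∃ x, σ.card = s + 1 →
        x ∈ secM (Xu T) (frM T m d) j σ ∧ Φ x = c σ := by
      intro σ
      by_cases hσ : σ.card = s + 1
      · obtain ⟨i, hi⟩ := hc σ hσ
        rw [← h1] at hi
        obtain ⟨y, hy, hy'⟩ := hi
        have e : (((∏ a ∈ σ, Xu T a) ^ i : (LA T m)ˣ) : LA T m) •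
            (((((∏ a ∈ σ, Xu T a) ^ i)⁻¹ : (LA T m)ˣ) : LA T m) • y) = y := by
          rw [← mul_smul, Units.mul_inv, one_smul]
        refine ⟨_, fun _ => ⟨⟨i, e.symm ▸ hy⟩, serc_cancel ((∏ a ∈ σ, G a) ^ i) ?_⟩⟩
        rw [← serc_comm h2, e, hy']
      · exact ⟨0, fun h => absurd h hσ⟩
    choose x hx using hlift
    obtain ⟨b', hb1, hb2⟩ := hj0 j ((le_max_left _ _).trans hj) (s + 1) (by omega) (cdel x)
      (fun σ hσ => by
        obtain ⟨i, hi⟩ := serc_cdel hF j (fun τ hτ => (hx τ hτ).1) hσ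
        refine ⟨i, hi, ?_⟩
        have e : Φ (cdel x σ) = 0 := by
          rw [← hc0 σ hσ]
          refine (cdel_comp Φ.toAddMonoidHom x σ).symm.trans (cdel_congr fun τ hτ => ?_)
          exact (hx τ (by omega)).2
        rw [SetLike.mem_coe, LinearMap.mem_ker, serc_comm h2, e, smul_zero])
      (fun σ _ => by rw [cdel_cdel]; rfl)
    have hb3 : ∀ σ : Finset (Fin m), σ.card = s + 1 →
        b' σ ∈ secM (Xu T) (frM T m d) j σ ∧ Φ (b' σ) = 0 := by
      intro σ hσ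
      obtain ⟨i, hi, hi'⟩ := hb1 σ hσ
      refine ⟨⟨i, hi⟩, serc_cancel ((∏ a ∈ σ, G a) ^ i) ?_⟩
      rw [← serc_comm h2, smul_zero]
      exact hi'
    obtain ⟨b, e1, e2⟩ := cexact_frM (T := T) (m := m) d (j := j)
      (fun i => (Finset.le_sup (f := d) (Finset.mem_univ i)).trans ((le_max_right _ _).trans hj))
      s (x - b') (fun σ hσ => (sercSec hF j σ).sub_mem (hx σ hσ).1 (hb3 σ hσ).1)
      (fun σ hσ => by rw [cdel_sub, Pi.sub_apply, hb2 σ hσ, sub_self])
    refine ⟨fun σ => Φ (b σ), fun σ hσ => ?_, fun σ hσ => ?_⟩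
    · obtain ⟨i, hi⟩ := e1 σ hσ
      refine ⟨i, ?_⟩
      rw [← serc_comm h2, ← h1]
      exact ⟨_, hi, rfl⟩
    · refine (cdel_comp Φ.toAddMonoidHom b σ).trans ?_
      rw [e2 σ hσ, LinearMap.toAddMonoidHom_coe, Pi.sub_apply, map_sub, (hx σ hσ).2, (hb3 σ hσ).2,
        sub_zero]

/-- Descending induction on `s`, for all data `(A, N, G, M)` at once: if `s ≥ m` there is nothing
to prove; otherwise use the cover `F → M` with kernel family `K j = frM j ⊓ ker Φ` (which
satisfies the hypotheses by `frM_fg`, `sub_gen`), exactness of `F` at `s` and of `K` at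
`s + 1`. -/
theorem serre {T A N : Type} [CommRing T] [IsNoetherianRing T] [CommRing A] [Algebra T A]
    [AddCommGroup N] [Module T N] [Module A N] [IsScalarTower T A N] {m : ℕ} (G : Fin m → Aˣ)
    (M : ℕ → Submodule T N) (hG : ∀ a j, ∀ v ∈ M j, (G a : A) • v ∈ M (j + 1))
    (hfg : ∀ j, (M j).FG)
    (hgen : ∃ j1, ∀ j, j1 ≤ j → ∀ v ∈ M (j + 1), ∃ w : Fin m → N,
      (∀ a, w a ∈ M j) ∧ v = ∑ a, (G a : A) • w a) :
    ∃ j0, ∀ j, j0 ≤ j → ∀ s, CExact (secM G M j) s := by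
  obtain ⟨j0, h⟩ := serc_aux m G M hG hfg hgen
  exact ⟨j0, fun j hj s => h j hj s (Nat.le_add_left _ _)⟩

end

end Pool.Agent.Lib.MP_4287a9_ag
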