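import Pool.Agent.Lib.MP_4287a9_ag.Stmt

/-!
Definitions used in the full statement: orders along a valuation ring, divisors over an affine
variety, log discrepancies, klt triples, log canonical threshold and normalized volume.
-/

open scoped TensorProduct ENNReal NNReal nonZeroDivisors Polynomial
open Filter

namespace Pool.Agent.Lib.MP_4287a9_ag

noncomputable section

/-- The order of the set `Z` along `O`: the largest `m` with `Z ⊆ π ^ m O`. -/
def ordS {K : Type} [Field K] (O : ValuationSubring K) (Z : Set K) : ℤ :=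
  sSup {m : ℤ | ∀ π : O, Irreducible π → ∀ y ∈ Z, y / (π : K) ^ m ∈ O}

/-- `O` is the local ring of a prime divisor on the birational model `Spec A[S]` of `Spec A`. -/
def IsDiv (A : Type) [CommRing A] {K : Type} [Field K] [Algebra A K] (S : Finset K)
    (O : ValuationSubring K) : Prop :=
  IsDiscreteValuationRing O ∧ (∀ a ∈ Algebra.adjoin A (S : Set K), a ∈ O) ∧
    ∀ z ∈ O, ∃ b ∈ Algebra.adjoin A (S : Set K), b ≠ 0 ∧ b⁻¹ ∈ O ∧
      b * z ∈ Algebra.adjoin A (S : Set K)

/-- The values of the `n`-forms `d z 1 ∧ ... ∧ d z n`, `z l ∈ O`, on `D 1 ∧ ... ∧ D n`. -/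
def jacs {k K : Type} [Field k] [Field K] [Algebra k K] {n : ℕ} (D : Fin n → Derivation k K K)
    (O : ValuationSubring K) : Set K :=
  {j | ∃ z : Fin n → K, (∀ l, z l ∈ O) ∧ j = (Matrix.of fun i l => D i (z l)).det}

/-- The log discrepancy `1 + ord (ω) - ord (u) / N` of `O`, where `ω` is the rational `n`-form
dual to `D 1 ∧ ... ∧ D n` and `div u = N (K_X + Δ)`, `K_X = div ω`. -/
def ldisc {k K : Type} [Field k] [Field K] [Algebra k K] {n : ℕ} (D : Fin n → Derivation k K K)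
    (u : K) (N : ℕ) (O : ValuationSubring K) : ℝ :=
  1 - (ordS O (jacs D O) : ℝ) - (ordS O {u} : ℝ) / N

/-- The triple `(Spec A, (1 / r) div 𝔡, 𝔞 ^ t)` is klt at the point `m`: on a neighbourhood
`s ≠ 0` of `m`, `r M (K_X + Δ) = div u`, and every divisor over that neighbourhood has log
discrepancy larger than `t` times the order of `𝔞`. -/
def KltV (k : Type) [Field k] {A : Type} [CommRing A] [IsDomain A] [Algebra k A] (n : ℕ)
    (m 𝔡 : Ideal A) (r : ℕ) (𝔞 : Ideal A) (t : ℝ≥0) : Prop :=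
  ∃ (s : A) (M : ℕ) (u : FractionRing A)
    (D : Fin n → Derivation k (FractionRing A) (FractionRing A)),
    s ∉ m ∧ 0 < M ∧ u ≠ 0 ∧
    (∃ z : Fin n → FractionRing A, (Matrix.of fun i l => D i (z l)).det ≠ 0) ∧
    (∀ O : ValuationSubring (FractionRing A), IsDiv A ∅ O →
      (algebraMap A (FractionRing A) s)⁻¹ ∈ O →
        ldisc D u (r * M) O = 1 - (ordS O (algebraMap A (FractionRing A) '' 𝔡) : ℝ) / r) ∧
    ∀ (S : Finset (FractionRing A)) (O : ValuationSubring (FractionRing A)), IsDiv A S O →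
      (algebraMap A (FractionRing A) s)⁻¹ ∈ O →
        (t : ℝ) * ordS O (algebraMap A (FractionRing A) '' 𝔞) < ldisc D u (r * M) O

/-- Log canonical threshold. -/
def lctV (k : Type) [Field k] {A : Type} [CommRing A] [IsDomain A] [Algebra k A] (n : ℕ)
    (m 𝔡 : Ideal A) (r : ℕ) (𝔞 : Ideal A) : ℝ≥0∞ :=
  ⨆ (t : ℝ≥0) (_ : KltV k n m 𝔡 r 𝔞 t), (t : ℝ≥0∞)

/-- Normalized volume. -/
def nvolV (k : Type) [Field k] {A : Type} [CommRing A] [IsDomain A] [Algebra k A] (n : ℕ)
    (m 𝔡 : Ideal A) (r : ℕ) : ℝ≥0∞ :=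
  ⨅ (𝔞 : Ideal A) (_ : 𝔞.radical = m), mult n 𝔞 * lctV k n m 𝔡 r 𝔞 ^ n

end

end Pool.Agent.Lib.MP_4287a9_ag
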