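import Pool.Agent.Lib.MP_4287a9_ag.D5
import Pool.Agent.Lib.MP_4287a9_ag.Std
import Pool.Agent.Lib.MP_4287a9_ag.Norm
import Pool.Agent.Lib.MP_4287a9_ag.LocB

/-!
Elementary facts on internal strong F-regularity and multiplicities.
-/

open scoped TensorProduct ENNReal NNReal nonZeroDivisors Polynomial
open Filter

namespace Pool.Agent.Lib.MP_4287a9_ag

noncomputable section

/-- `φ a = 1` gives `x = φ (x ^ q a)`, so `R` is reduced; then `SFRi.normal` with `T = R`. -/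
theorem SFRi.domain_normal {p : ℕ} (hp : 2 ≤ p) {R : Type} [CommRing R] [IsLocalRing R]
    [IsNoetherianRing R] {𝔡 𝔞 : Ideal R} {r : ℕ} {t : ℝ≥0} (h : SFRi p 𝔡 r 𝔞 t) :
    IsDomain R ∧ IsIntegrallyClosed R := by
  obtain ⟨e, he, -, a, -, φ, hφ, h1⟩ := h 1 (one_mem _)
  have hq : 1 < p ^ e := Nat.one_lt_pow he.ne' hp
  have : IsReduced R := (isReduced_iff_pow_one_lt (p ^ e) hq).2 fun x hx => by
    have := hφ.lin x (1 * a)
    rw [hx, zero_mul, map_zero, h1, mul_one] at this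
    exact this.symm
  have : IsLocalization.AtPrime R (IsLocalRing.maximalIdeal R) :=
    IsLocalization.of_le_isUnit fun x hx => IsLocalRing.notMem_maximalIdeal.1 hx
  obtain ⟨h1, h2, -⟩ := h.normal (R := R) (IsLocalRing.maximalIdeal R)
  exact ⟨h1, h2⟩

/-- Iterate `y ↦ φ (c a y)` exactly `totient N` times (compare `pure_iter`). -/
theorem SFRi.level {p : ℕ} (hp : 0 < p) {R : Type} [CommRing R] {𝔡 𝔞 : Ideal R} {r : ℕ}
    {t : ℝ≥0} (h : SFRi p 𝔡 r 𝔞 t) {N : ℕ} (hN0 : 0 < N) (hN : Nat.Coprime p N) {c : R}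
    (hc : c ∈ R⁰) : ∃ e : ℕ, 0 < e ∧ r ∣ p ^ e - 1 ∧ N ∣ p ^ e - 1 ∧
      ∃ a ∈ 𝔞 ^ ⌈(t : ℝ) * ((p : ℝ) ^ e - 1)⌉₊, ∃ φ : R →+ R,
        IsCart 𝔡 r (p ^ e) φ ∧ φ (c * a) = 1 := by
  obtain ⟨e, he, hr, a, ha, φ, hφ, h1⟩ := h c hc
  have hd : ∀ q q' : ℕ, 0 < q → 0 < q' → r ∣ q - 1 → r ∣ q' - 1 → r ∣ q * q' - 1 := by
    rintro q q' hq hq' ⟨Q, hQ⟩ ⟨Q', hQ'⟩
    have e1 : q = r * Q + 1 := by omega
    have e2 : q' = r * Q' + 1 := by omega
    refine ⟨Q * q' + Q', ?_⟩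
    have : q * q' = r * (Q * q' + Q') + 1 := by
      rw [e1, e2]
      ring
    omega
  have key : ∀ m : ℕ, r ∣ p ^ (e * (m + 1)) - 1 ∧
      ∃ a ∈ 𝔞 ^ ⌈(t : ℝ) * ((p : ℝ) ^ (e * (m + 1)) - 1)⌉₊, ∃ φ : R →+ R,
        IsCart 𝔡 r (p ^ (e * (m + 1))) φ ∧ φ (c * a) = 1 := by
    intro m
    induction m with
    | zero =>
      rw [zero_add, mul_one]
      exact ⟨hr, a, ha, φ, hφ, h1⟩
    | succ m ih =>
      obtain ⟨hr', a', ha', φ', hφ', h1'⟩ := ih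
      have e1 : e * (m + 1 + 1) = e * (m + 1) + e := by ring
      rw [e1]
      generalize e * (m + 1) = f at *
      refine ⟨?_, (c * a') ^ p ^ e * a, ?_, φ'.comp φ, ?_, ?_⟩
      · rw [pow_add]
        exact hd _ _ (pow_pos hp _) (pow_pos hp _) hr' hr
      · refine Ideal.pow_le_pow_right (m := ⌈(t : ℝ) * ((p : ℝ) ^ (f + e) - 1)⌉₊)
          (n := ⌈(t : ℝ) * ((p : ℝ) ^ f - 1)⌉₊ * p ^ e + ⌈(t : ℝ) * ((p : ℝ) ^ e - 1)⌉₊) ?_ ?_
        · refine Nat.ceil_le.2 ?_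
          have a1 := Nat.le_ceil ((t : ℝ) * ((p : ℝ) ^ f - 1))
          have a2 : (0 : ℝ) ≤ (p : ℝ) ^ e := by positivity
          have a3 := mul_le_mul_of_nonneg_right a1 a2
          have a4 := Nat.le_ceil ((t : ℝ) * ((p : ℝ) ^ e - 1))
          push_cast
          rw [pow_add]
          nlinarith
        · rw [pow_add, pow_mul]
          exact Ideal.mul_mem_mul (Ideal.pow_mem_pow (Ideal.mul_mem_left _ _ ha') _) ha
      · rw [pow_add]
        exact IsCart.comp (pow_pos hp _) (pow_pos hp _) hr' hr hφ' hφ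
      · simp only [AddMonoidHom.coe_comp, Function.comp_apply]
        rw [mul_left_comm, hφ.lin, h1, mul_one, h1']
  obtain ⟨m, hm⟩ : ∃ m, Nat.totient N = m + 1 :=
    ⟨Nat.totient N - 1, by have := Nat.totient_pos.2 hN0; omega⟩
  refine ⟨e * (m + 1), by positivity, (key m).1, ?_, (key m).2⟩
  have := Nat.ModEq.pow_totient (Nat.Coprime.pow_left e hN)
  rw [hm, ← pow_mul] at this
  exact (Nat.modEq_iff_dvd' (Nat.one_le_iff_ne_zero.2 (pow_pos hp _).ne')).1 this.symm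

theorem SFRi.mono_t {p : ℕ} (hp : 0 < p) {R : Type} [CommRing R] {𝔡 𝔞 : Ideal R} {r : ℕ}
    {t t' : ℝ≥0} (htt : t ≤ t') (h : SFRi p 𝔡 r 𝔞 t') : SFRi p 𝔡 r 𝔞 t := by
  intro c hc
  obtain ⟨e, he, hr, a, ha, φ, hφ, h1⟩ := h c hc
  refine ⟨e, he, hr, a, Ideal.pow_le_pow_right (Nat.ceil_mono ?_) ha, φ, hφ, h1⟩
  have : (1 : ℝ) ≤ (p : ℝ) ^ e := one_le_pow₀ (by exact_mod_cast hp)
  exact mul_le_mul_of_nonneg_right (by exact_mod_cast htt) (by linarith)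

theorem SFR.mono_t {p : ℕ} [Fact p.Prime] {R : Type} [CommRing R] [CharP R p] {𝔡 𝔞 : Ideal R}
    {r : ℕ} {t t' : ℝ≥0} (htt : t ≤ t') (h : SFR 𝔡 r 𝔞 t') : SFR 𝔡 r 𝔞 t := by
  intro c hc
  obtain ⟨e, he, a, ha, φ, hφ⟩ := h c hc
  refine ⟨e, he, a, Ideal.pow_le_pow_right (Nat.ceil_mono ?_) ha, φ, hφ⟩
  rw [ringChar.eq R p]
  have : (1 : ℝ) ≤ (p : ℝ) ^ e := one_le_pow₀ (by exact_mod_cast (Fact.out : p.Prime).pos)
  exact mul_le_mul_of_nonneg_right (by exact_mod_cast htt) (by linarith)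

/-- `red1` for `I = m`, `fpow_le_Isp`, `pure_iter`. -/
theorem SFRi.le_dim {p : ℕ} [Fact p.Prime] {R : Type} [CommRing R] [IsLocalRing R]
    [IsNoetherianRing R] [CharP R p] {𝔡 𝔞 : Ideal R} {r n C : ℕ}
    (ha : 𝔞 ≤ IsLocalRing.maximalIdeal R)
    (hl : ∀ j : ℕ, Module.length R (R ⧸ IsLocalRing.maximalIdeal R ^ j) ≤
      ((C * j ^ n : ℕ) : ℕ∞)) {t : ℝ≥0} (h : SFRi p 𝔡 r 𝔞 t) : (t : ℝ) ≤ n := by
  have hp : p.Prime := Fact.out
  obtain ⟨r0, hr0⟩ := red1 (p := p) (I := IsLocalRing.maximalIdeal R) (L := 1) le_rfl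
    (by rw [pow_one]) hl
  by_contra hcon
  push Not at hcon
  obtain ⟨E, hE⟩ := exists_nat_gt (((t : ℝ) + r0) / ((t : ℝ) - n))
  obtain ⟨e, he, -, a, ha', φ, hφ, h1⟩ := pure_iter hp.pos h E
  have hq : (E : ℝ) ≤ (p : ℝ) ^ e := by
    exact_mod_cast he.trans (Nat.lt_pow_self hp.one_lt).le
  rw [div_lt_iff₀ (by linarith)] at hE
  have hle : n * p ^ e + r0 ≤ ⌈(t : ℝ) * ((p : ℝ) ^ e - 1)⌉₊ := by
    have a1 := Nat.le_ceil ((t : ℝ) * ((p : ℝ) ^ e - 1))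
    have a2 := mul_le_mul_of_nonneg_right hq (sub_pos.2 hcon).le
    have : ((n * p ^ e + r0 : ℕ) : ℝ) ≤ (⌈(t : ℝ) * ((p : ℝ) ^ e - 1)⌉₊ : ℝ) := by
      push_cast
      nlinarith
    exact_mod_cast this
  have h2 : a ∈ Isp 𝔡 r (p ^ e) := fpow_le_Isp 𝔡 r _ (hr0 e
    (Ideal.pow_le_pow_right hle (Ideal.pow_right_mono ha _ ha')))
  have h3 := mem_Isp.1 h2 φ hφ
  rw [h1] at h3
  exact h3 isUnit_one

theorem SFRi.of_equiv {p : ℕ} {R R' : Type} [CommRing R] [CommRing R'] (e : R ≃+* R')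
    {𝔡 𝔞 : Ideal R} {r : ℕ} {t : ℝ≥0} (h : SFRi p 𝔡 r 𝔞 t) :
    SFRi p (𝔡.map (e : R →+* R')) r (𝔞.map (e : R →+* R')) t := by
  have hz : ∀ z ∈ R'⁰, e.symm z ∈ R⁰ := fun z hz =>
    mem_nonZeroDivisors_iff_right.2 fun x hx => e.injective (by
      have := congrArg e hx
      rw [map_mul, e.apply_symm_apply, map_zero] at this
      rw [map_zero]
      exact mem_nonZeroDivisors_iff_right.1 hz _ this)
  intro c hc
  obtain ⟨k, hk, hr, a, ha, φ, hφ, h1⟩ := h (e.symm c) (hz c hc)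
  refine ⟨k, hk, hr, e a, ?_, (e : R →+ R').comp (φ.comp (e.symm : R' →+ R)), ⟨fun w y => ?_,
    fun z hz' y hy => ?_⟩, ?_⟩
  · rw [← Ideal.map_pow]
    exact Ideal.mem_map_of_mem (e : R →+* R') ha
  · change e (φ (e.symm (w ^ p ^ k * y))) = w * e (φ (e.symm y))
    rw [map_mul, map_pow, hφ.lin, map_mul, e.apply_symm_apply]
  · change z ∣ e (φ (e.symm y))
    have := hφ.div (e.symm z) (hz z hz') (e.symm y) fun d hd => by
      have h2 := hy (e d) (by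
        rw [← Ideal.map_pow]
        exact Ideal.mem_map_of_mem (e : R →+* R') hd)
      have h3 := map_dvd e.symm h2
      rwa [map_pow, map_mul, e.symm_apply_apply] at h3
    have h4 := map_dvd e this
    rwa [e.apply_symm_apply] at h4
  · change e (φ (e.symm (c * e a))) = 1
    rw [map_mul, e.symm_apply_apply, h1, map_one]

/-- `Localization.localRingHom m Q ρ` is bijective; `SFRi.of_equiv`, `SFRi.mono`. -/
theorem SFat.to_away {p : ℕ} {P T : Type} [CommRing P] [CommRing T] (ρ : P →+* T) {f : P}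
    (hρ : IsAway ρ f) (Q : Ideal T) [Q.IsPrime] (m : Ideal P) [m.IsPrime] (hm : Q.comap ρ = m)
    {𝔡 𝔞 : Ideal P} {𝔡' 𝔞' : Ideal T} (hd : 𝔡.map ρ ≤ 𝔡') (ha : 𝔞.map ρ ≤ 𝔞') {r : ℕ} {t : ℝ≥0}
    (h : SFat p m 𝔡 r 𝔞 t) : SFat p Q 𝔡' r 𝔞' t := by
  let _ : Algebra P T := ρ.toAlgebra
  have : IsLocalization (Submonoid.powers f) T := by
    refine (isLocalization_iff _ _).2 ⟨?_, fun w => ?_, fun {x y} e => ?_⟩
    · rintro ⟨_, i, rfl⟩
      exact (map_pow ρ f i).symm ▸ hρ.1.pow i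
    · obtain ⟨i, x, e⟩ := hρ.2.1 w
      exact ⟨⟨x, ⟨_, i, rfl⟩⟩, (mul_comm _ _).trans ((congrArg (· * w) (map_pow ρ f i)).trans e)⟩
    · obtain ⟨i, k⟩ := hρ.2.2 (x - y) (by rw [map_sub]; exact sub_eq_zero.2 e)
      exact ⟨⟨_, i, rfl⟩, sub_eq_zero.1 ((mul_sub _ _ _).symm.trans k)⟩
  subst hm
  have : IsLocalization.AtPrime (Localization.AtPrime Q) (Q.comap ρ) :=
    IsLocalization.isLocalization_isLocalization_atPrime_isLocalization (Submonoid.powers f)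
      (Localization.AtPrime Q) Q
  let e := IsLocalization.algEquiv (Q.comap ρ).primeCompl (Localization.AtPrime (Q.comap ρ))
    (Localization.AtPrime Q)
  have he : ∀ I : Ideal P, (lo (Q.comap ρ) I).map
      (e.toRingEquiv : Localization.AtPrime (Q.comap ρ) →+* Localization.AtPrime Q) =
      lo Q (I.map ρ) := fun I => by
    rw [lo, lo, Ideal.map_map, Ideal.map_map]
    congr 1
    ext x
    exact e.commutes x
  have h2 := SFRi.of_equiv e.toRingEquiv h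
  rw [he, he] at h2
  exact h2.mono (Ideal.map_mono hd) (Ideal.map_mono ha)

theorem mult_anti {R : Type} [CommRing R] (n : ℕ) {I J : Ideal R} (h : I ≤ J) :
    mult n J ≤ mult n I := by
  refine limsup_le_limsup (Eventually.of_forall fun j => ?_)
  have h1 : Module.length R (R ⧸ J ^ j) ≤ Module.length R (R ⧸ I ^ j) :=
    Module.length_le_of_surjective (Submodule.factor (Ideal.pow_right_mono h j))
      (Submodule.factor_surjective _)
  have h2 : (Module.length R (R ⧸ J ^ j) : ℝ≥0∞) ≤ (Module.length R (R ⧸ I ^ j) : ℝ≥0∞) :=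
    ENat.toENNReal_le.2 h1
  dsimp only
  gcongr

theorem mult_le_of_bound {R : Type} [CommRing R] {n C : ℕ} {I : Ideal R}
    (h : ∀ j : ℕ, Module.length R (R ⧸ I ^ j) ≤ ((C * j ^ n : ℕ) : ℕ∞)) :
    mult n I ≤ ((n.factorial * C : ℕ) : ℝ≥0∞) := by
  refine limsup_le_of_le (h := Eventually.of_forall fun j => ?_)
  have h2 : (Module.length R (R ⧸ I ^ j) : ℝ≥0∞) ≤ (C : ℝ≥0∞) * (j : ℝ≥0∞) ^ n := by
    have := ENat.toENNReal_le.2 (h j)
    simpa using this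
  refine ENNReal.div_le_of_le_mul ?_
  push_cast
  rw [mul_assoc]
  gcongr

end

end Pool.Agent.Lib.MP_4287a9_ag
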