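import Pool.Agent.Lib.MP_4287a9_ag.WGlob
import Pool.Agent.Lib.MP_4287a9_ag.WLoc

/-!
Local strong F-regularity through globally defined maps.
-/

open scoped TensorProduct ENNReal NNReal nonZeroDivisors Polynomial
open Filter

namespace Pool.Agent.Lib.MP_4287a9_ag

noncomputable section

/-- `SFRi.level`, `IsCart.glob`; if `φ' (c a / s) = 1` then `φ' (c a s ^ (q - 1)) = s`. -/
theorem SFat.sfg {p : ℕ} [Fact p.Prime] {S : Type} [CommRing S] [IsNoetherianRing S] [CharP S p]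
    (hF : ∀ e, FFin (p ^ e) S) (m : Ideal S) [m.IsPrime] {𝔡 𝔞 : Ideal S} {δ : S} (hδ : δ ∈ 𝔡)
    (hδ0 : δ ∈ S⁰) {N : ℕ} (hN0 : 0 < N) (hN : Nat.Coprime p N) {r : ℕ} {t : ℝ≥0}
    (h : SFat p m 𝔡 r 𝔞 t) : SFg p N m 𝔡 r 𝔞 t := by
  intro c hc
  have hp : 0 < p := (Fact.out : p.Prime).pos
  obtain ⟨e, he, hr, hNe, a', ha', φ', hφ', h1⟩ := SFRi.level hp h hN0 hN hc
  obtain ⟨φ, s₀, hs₀, hφ, hg⟩ := IsCart.glob m.primeCompl (hF e) hδ hδ0 hφ'
  rw [lo, ← Ideal.map_pow, IsLocalization.mem_map_algebraMap_iff m.primeCompl] at ha'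
  obtain ⟨⟨⟨a, ha⟩, s⟩, hs⟩ := ha'
  dsimp only at hs
  refine ⟨e, he, hr, hNe, a * (s : S) ^ (p ^ e - 1), Ideal.mul_mem_right _ _ ha, φ, hφ,
    fun hm => ?_⟩
  have hq : p ^ e = p ^ e - 1 + 1 := (Nat.sub_add_cancel (pow_pos hp e)).symm
  have h2 : algebraMap S (Localization.AtPrime m) (c * (a * (s : S) ^ (p ^ e - 1))) =
      algebraMap S (Localization.AtPrime m) s ^ p ^ e *
        (algebraMap S (Localization.AtPrime m) c * a') := by
    rw [map_mul, map_mul, map_pow, ← hs]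
    conv_rhs => rw [hq, pow_succ]
    ring
  have h3 := hg (c * (a * (s : S) ^ (p ^ e - 1)))
  rw [h2, hφ'.lin, h1, mul_one, ← map_mul] at h3
  have h4 := (IsLocalization.AtPrime.to_map_mem_maximal_iff (Localization.AtPrime m) m _).2 hm
  rw [h3, IsLocalization.AtPrime.to_map_mem_maximal_iff (Localization.AtPrime m) m] at h4
  exact m.primeCompl.mul_mem hs₀ s.2 h4

/-- `IsCart.loc`; rescale by the `q`-th power of a unit. -/
theorem SFg.sfat {p N : ℕ} (hp : 0 < p) {S : Type} [CommRing S] [IsNoetherianRing S]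
    (m : Ideal S) [m.IsPrime] {𝔡 𝔞 : Ideal S} {δ : S} (hδ : δ ∈ 𝔡) (hδ0 : δ ∈ S⁰) {r : ℕ}
    {t : ℝ≥0} (h : SFg p N m 𝔡 r 𝔞 t) : SFat p m 𝔡 r 𝔞 t := by
  intro c' hc'
  obtain ⟨⟨c, s⟩, hs⟩ := IsLocalization.surj m.primeCompl c'
  dsimp only at hs
  have hc : algebraMap S (Localization.AtPrime m) c ∈ (Localization.AtPrime m)⁰ := by
    rw [← hs]
    exact mul_mem hc' (IsLocalization.map_units (Localization.AtPrime m) s).mem_nonZeroDivisors
  obtain ⟨e, he, hr, -, a, ha, φ, hφ, h1⟩ := h c hc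
  obtain ⟨φ', hφ', hl⟩ :=
    IsCart.loc (S' := Localization.AtPrime m) m.primeCompl (pow_pos hp e) hδ hδ0 hφ
  obtain ⟨v, hv⟩ := (IsLocalization.map_units (Localization.AtPrime m)
    (⟨φ (c * a), h1⟩ : m.primeCompl)).exists_left_inv
  refine ⟨e, he, hr, v ^ p ^ e * algebraMap S (Localization.AtPrime m) s *
    algebraMap S (Localization.AtPrime m) a, Ideal.mul_mem_left _ _ ?_, φ', hφ', ?_⟩
  · rw [lo, ← Ideal.map_pow]
    exact Ideal.mem_map_of_mem _ ha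
  · have h2 : c' * (v ^ p ^ e * algebraMap S (Localization.AtPrime m) s *
        algebraMap S (Localization.AtPrime m) a) =
        v ^ p ^ e * algebraMap S (Localization.AtPrime m) (c * a) := by
      rw [map_mul, ← hs]
      ring
    rw [h2, hφ'.lin, hl]
    exact hv

end

end Pool.Agent.Lib.MP_4287a9_ag
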