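import Pool.Agent.Lib.MP_4287a9_ag.WBas
import Pool.Agent.Lib.MP_4287a9_ag.WGlb2

/-!
Strong F-regularity and finite extensions of the ground field.
-/

open scoped TensorProduct ENNReal NNReal nonZeroDivisors Polynomial
open Filter

namespace Pool.Agent.Lib.MP_4287a9_ag

noncomputable section

private theorem asc_aux {S₀ S : Type} [CommRing S₀] [CommRing S] (ι : S₀ →+* S) (m : Ideal S₀)
    [m.IsPrime] (m' : Ideal S) [m'.IsPrime] (hm : m'.comap ι = m) {c : S}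
    (hc : algebraMap S (Localization.AtPrime m') c ∈ (Localization.AtPrime m')⁰) (i : ℕ) :
    ∀ P : S₀[X], algebraMap S₀ (Localization.AtPrime m) (P.coeff i) ≠ 0 →
      algebraMap S (Localization.AtPrime m') (P.eval₂ ι c) = 0 →
      ∃ (c₀ : S₀) (h : S), algebraMap S₀ (Localization.AtPrime m) c₀ ≠ 0 ∧
        algebraMap S (Localization.AtPrime m') (ι c₀) =
          algebraMap S (Localization.AtPrime m') (c * h) := by
  have key : ∀ P : S₀[X], P.eval₂ ι c = c * P.divX.eval₂ ι c + ι (P.coeff 0) := fun P => by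
    conv_lhs => rw [← Polynomial.X_mul_divX_add P]
    rw [Polynomial.eval₂_add, Polynomial.eval₂_mul, Polynomial.eval₂_X, Polynomial.eval₂_C]
  have base : ∀ P : S₀[X], algebraMap S₀ (Localization.AtPrime m) (P.coeff 0) ≠ 0 →
      algebraMap S (Localization.AtPrime m') (P.eval₂ ι c) = 0 →
      ∃ (c₀ : S₀) (h : S), algebraMap S₀ (Localization.AtPrime m) c₀ ≠ 0 ∧
        algebraMap S (Localization.AtPrime m') (ι c₀) =
          algebraMap S (Localization.AtPrime m') (c * h) := fun P h0 hP => by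
    refine ⟨P.coeff 0, -P.divX.eval₂ ι c, h0, ?_⟩
    rw [key, map_add] at hP
    rw [mul_neg, map_neg]
    exact eq_neg_of_add_eq_zero_right hP
  induction i with
  | zero => exact base
  | succ i ih =>
    intro P hi hP
    by_cases h0 : algebraMap S₀ (Localization.AtPrime m) (P.coeff 0) = 0
    · refine ih P.divX (by rwa [Polynomial.coeff_divX]) ?_
      obtain ⟨⟨s, hs⟩, e⟩ := (IsLocalization.map_eq_zero_iff m.primeCompl _ _).1 h0
      have h1 : algebraMap S (Localization.AtPrime m') (ι (P.coeff 0)) = 0 := by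
        refine (IsLocalization.map_eq_zero_iff m'.primeCompl _ _).2 ⟨⟨ι s, fun h => hs ?_⟩, ?_⟩
        · rw [← hm]
          exact h
        · change ι s * _ = 0
          rw [← map_mul, show s * P.coeff 0 = 0 from e, map_zero]
      rw [key, map_add, h1, add_zero, map_mul] at hP
      exact hc.1 _ hP
    · exact base P h0 hP

/-- Use `SFat.sfg` (with `N = 1`) and `SFg.sfat`. `R = S₀ localized at m` is a domain
(`SFRi.domain_normal`). Let `c ∈ S` be regular in `R' = S localized at m'` and `P` monic over `S₀`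
with `P(c) = 0`; in `R[X]` write `P = X ^ a g` with `g(0) ≠ 0`; then `g(c) = 0` in `R'`, so `c`
divides in `R'` the image of some `c₀ ∈ S₀` that is nonzero in `R`: `s * ι c₀ = c * h` with
`s ∉ m'`. With `φ (c₀ a) ∉ m` and `φ'` from `IsBas.exists_ext`,
`φ' (s ^ q * ι (c₀ a)) = s * ι (φ (c₀ a)) ∉ m'`. -/
theorem SFat.asc {p : ℕ} [Fact p.Prime] {S₀ S : Type} [CommRing S₀] [CommRing S]
    [IsNoetherianRing S₀] [IsNoetherianRing S] [CharP S₀ p] [CharP S p]
    (hF : ∀ e, FFin (p ^ e) S₀) {ι : S₀ →+* S} {k : ℕ} {w : Fin k → S}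
    (hw : ∀ e : ℕ, IsBas ι fun i => w i ^ p ^ e) (m : Ideal S₀) [m.IsPrime] (m' : Ideal S)
    [m'.IsPrime] (hm : m'.comap ι = m) {𝔡 𝔞 : Ideal S₀} {δ : S₀} (hδ : δ ∈ 𝔡) (hδ0 : δ ∈ S₀⁰)
    {r : ℕ} {t : ℝ≥0} (h : SFat p m 𝔡 r 𝔞 t) : SFat p m' (𝔡.map ι) r (𝔞.map ι) t := by
  have hp : p.Prime := Fact.out
  have h1 : IsBas ι w := by simpa using hw 0
  have hδ' : ι δ ∈ 𝔡.map ι := Ideal.mem_map_of_mem ι hδ
  have hdom : IsDomain (Localization.AtPrime m) := (SFRi.domain_normal hp.two_le h).1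
  have hg := SFat.sfg hF m hδ hδ0 (N := 1) one_pos (Nat.coprime_one_right p) h
  refine SFg.sfat (N := 1) hp.pos m' hδ' (h1.map_nzd hδ0) fun c hc => ?_
  obtain ⟨P, hP, hP0⟩ := h1.isIntegral c
  obtain ⟨c₀, u, hc₀, e0⟩ := asc_aux ι m m' hm hc P.natDegree P
    (by rw [hP.coeff_natDegree, map_one]; exact one_ne_zero) (by rw [hP0, map_zero])
  obtain ⟨⟨s, hs⟩, e1⟩ := (IsLocalization.eq_iff_exists m'.primeCompl _).1 e0
  obtain ⟨e, he, hr, hN, a, ha, φ, hφ, hm0⟩ := hg c₀ (mem_nonZeroDivisors_of_ne_zero hc₀)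
  obtain ⟨φ', hφ', hext⟩ := h1.exists_ext (hw e) hδ hδ0 hφ
  refine ⟨e, he, hr, hN, ι a, ?_, _, hφ'.premul (s ^ (p ^ e - 1) * s * u), ?_⟩
  · rw [← Ideal.map_pow]
    exact Ideal.mem_map_of_mem ι ha
  · change φ' (s ^ (p ^ e - 1) * s * u * (c * ι a)) ∉ m'
    have e2 : s ^ (p ^ e - 1) * s * u * (c * ι a) = s ^ p ^ e * ι (c₀ * a) := by
      have e3 : s * ι c₀ = s * (c * u) := e1
      have e4 : s ^ p ^ e = s ^ (p ^ e - 1) * s := by
        rw [← pow_succ, Nat.sub_add_cancel (Nat.one_le_pow _ _ hp.pos)]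
      rw [e4, map_mul]
      linear_combination (-(s ^ (p ^ e - 1) * ι a)) * e3
    rw [e2, hφ'.lin, hext]
    intro hmem
    rcases ‹m'.IsPrime›.mem_or_mem hmem with h2 | h2
    · exact hs h2
    · exact hm0 (by rw [← hm]; exact h2)

/-- `IsBas.loc_nzd`; write `a' = ∑ v j * ι (a j)` with `a j` in the power of `𝔞`; one of the
`φ' (v j * ι (c a j))` is not in `m' ⊇ m.map ι`; `IsBas.exists_res`. -/
theorem SFat.desc {p : ℕ} [Fact p.Prime] {S₀ S : Type} [CommRing S₀] [CommRing S]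
    [IsNoetherianRing S₀] [IsNoetherianRing S] [CharP S p]
    (hF : ∀ e, FFin (p ^ e) S) {ι : S₀ →+* S} {k : ℕ} {w : Fin k → S}
    (hw : IsBas ι w) (m : Ideal S₀) [m.IsPrime] (m' : Ideal S)
    [m'.IsPrime] (hm : m'.comap ι = m) {𝔡 𝔞 : Ideal S₀} {δ : S₀} (hδ : δ ∈ 𝔡) (hδ0 : δ ∈ S₀⁰)
    {r : ℕ} {t : ℝ≥0} (h : SFat p m' (𝔡.map ι) r (𝔞.map ι) t) : SFat p m 𝔡 r 𝔞 t := by
  have hp : p.Prime := Fact.out
  have hδ' : ι δ ∈ 𝔡.map ι := Ideal.mem_map_of_mem ι hδ
  have hg := SFat.sfg hF m' hδ' (hw.map_nzd hδ0) (N := 1) one_pos (Nat.coprime_one_right p) h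
  refine SFg.sfat (N := 1) hp.pos m hδ hδ0 fun c hc => ?_
  obtain ⟨e, he, hr, hN, a', ha', φ', hφ', hm0⟩ := hg (ι c) (hw.loc_nzd m m' hm hc)
  have key : ∃ a ∈ 𝔞 ^ ⌈(t : ℝ) * ((p : ℝ) ^ e - 1)⌉₊, ∃ v : S, φ' (v * ι (c * a)) ∉ m' := by
    by_contra hcon
    push Not at hcon
    have all : ∀ v : S, φ' (v * (ι c * a')) ∈ m' := by
      rw [← Ideal.map_pow] at ha'
      clear hm0
      induction ha' using Submodule.span_induction with
      | mem x hx =>
        obtain ⟨d, hd, rfl⟩ := hx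
        intro v
        rw [← map_mul]
        exact hcon d hd v
      | zero => simp
      | add a b _ _ ha hb =>
        intro v
        rw [mul_add, mul_add, map_add]
        exact add_mem (ha v) (hb v)
      | smul u a _ ha =>
        intro v
        rw [smul_eq_mul, mul_left_comm (ι c), ← mul_assoc]
        exact ha _
    exact hm0 (by simpa using all 1)
  obtain ⟨a, ha, v, hv⟩ := key
  obtain ⟨φ, hφ, h0⟩ := hw.exists_res hφ' v (m := m) (y₀ := c * a)
    fun hh => hv (Ideal.map_le_iff_le_comap.2 hm.ge hh)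
  exact ⟨e, he, hr, hN, a, ha, φ, hφ, h0⟩

/-- `exists_bas`, `ffin_of_finiteType`, `SFat.asc`, `SFat.desc`. Both fibres are nontrivial rings
since they have a prime ideal. -/
theorem sfat_iff {B T κ κ' : Type} [CommRing B] [CommRing T] [Algebra B T]
    [Algebra.FiniteType B T] [Field κ] [Field κ'] [Finite κ'] [Algebra B κ] [Algebra B κ']
    (ι : κ →ₐ[B] κ') (m : Ideal (κ ⊗[B] T)) [m.IsPrime] (m' : Ideal (κ' ⊗[B] T)) [m'.IsPrime]
    (hm : m'.comap (bm T ι) = m) {𝔡 : Ideal (κ ⊗[B] T)} (hδ : ∃ δ ∈ 𝔡, δ ∈ (κ ⊗[B] T)⁰)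
    (𝔞 : Ideal (κ ⊗[B] T)) (r : ℕ) (t : ℝ≥0) :
    SFat (ringChar κ') m' (spk ι 𝔡) r (spk ι 𝔞) t ↔ SFat (ringChar κ) m 𝔡 r 𝔞 t := by
  obtain ⟨δ, hδ, hδ0⟩ := hδ
  have hinj : Function.Injective ι := ι.toRingHom.injective
  have _ : Finite κ := Finite.of_injective ι hinj
  have hc' : CharP κ' (ringChar κ') := ringChar.charP κ'
  have hp : Fact (ringChar κ').Prime := ⟨CharP.char_is_prime κ' _⟩
  have hc : CharP κ (ringChar κ') := (RingHom.charP_iff_charP ι.toRingHom _).2 hc'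
  rw [ringChar.eq κ (ringChar κ')]
  have n1 : Nontrivial (κ ⊗[B] T) := nontrivial_of_ne 1 0 fun h =>
    ‹m.IsPrime›.ne_top ((Ideal.eq_top_iff_one _).2 (h ▸ m.zero_mem))
  have n2 : Nontrivial (κ' ⊗[B] T) := nontrivial_of_ne 1 0 fun h =>
    ‹m'.IsPrime›.ne_top ((Ideal.eq_top_iff_one _).2 (h ▸ m'.zero_mem))
  have c1 : CharP (κ ⊗[B] T) (ringChar κ') :=
    charP_of_injective_algebraMap (algebraMap κ (κ ⊗[B] T)).injective _
  have c2 : CharP (κ' ⊗[B] T) (ringChar κ') :=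
    charP_of_injective_algebraMap (algebraMap κ' (κ' ⊗[B] T)).injective _
  have f1 : IsNoetherianRing (κ ⊗[B] T) := Algebra.FiniteType.isNoetherianRing κ _
  have f2 : IsNoetherianRing (κ' ⊗[B] T) := Algebra.FiniteType.isNoetherianRing κ' _
  obtain ⟨k, w, hw⟩ := exists_bas (p := ringChar κ') T ι
  have h1 : IsBas (bm T ι).toRingHom w := by simpa using hw 0
  exact ⟨fun h => SFat.desc (ffin_of_finiteType κ' _) h1 m m' hm hδ hδ0 h,
    fun h => SFat.asc (ffin_of_finiteType κ _) hw m m' hm hδ hδ0 h⟩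

end

end Pool.Agent.Lib.MP_4287a9_ag
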