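import Pool.Agent.Lib.MP_4287a9_ag.Norm
import Pool.Agent.Lib.MP_4287a9_ag.EtA

/-!
Normality of rings with zero divisors: etale algebras, gluing along a regular sequence, components.
-/

open scoped TensorProduct nonZeroDivisors

namespace Pool.Agent.Lib.MP_4287a9_ag

/-- An etale algebra over a normal domain is integrally closed in its total ring of fractions. -/
theorem wb_normal_of_etale {A S : Type} [CommRing A] [IsDomain A] [IsIntegrallyClosed A]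
    [CommRing S] [Algebra A S] [Algebra.Etale A S] : IsIntegrallyClosed S := by
  let F := FractionRing A
  have hle : Algebra.algebraMapSubmonoid S A⁰ ≤ S⁰ := by
    rintro _ ⟨a, ha, rfl⟩
    have h1 : IsSMulRegular S a := Module.Flat.isSMulRegular_of_nonZeroDivisors ha
    refine mem_nonZeroDivisors_iff_left.2 fun w hw => h1.right_eq_zero_of_smul ?_
    rwa [Algebra.smul_def]
  have h1 : IsArtinianRing (S ⊗[A] F) := by
    have : Module.Finite F (F ⊗[A] S) := Algebra.FormallyUnramified.finite_of_free _ _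
    have : IsArtinianRing (F ⊗[A] S) := IsArtinianRing.of_finite F _
    exact (Algebra.TensorProduct.comm A F S).toRingEquiv.isArtinianRing
  have : IsFractionRing S (S ⊗[A] F) :=
    IsLocalization.of_le (Algebra.algebraMapSubmonoid S A⁰) S⁰ hle fun r hr =>
      IsArtinianRing.isUnit_of_mem_nonZeroDivisors (IsLocalization.map_nonZeroDivisors_le
        (Algebra.algebraMapSubmonoid S A⁰) (S ⊗[A] F) ⟨r, hr, rfl⟩)
  rw [isIntegrallyClosed_iff (S ⊗[A] F)]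
  intro z hz
  obtain ⟨u, hu⟩ := (TensorProduct.toIntegralClosure_bijective_of_smooth (R := A) (S := S)
    (B := F)).2 ⟨z, hz⟩
  have h2 : z = Algebra.TensorProduct.map (AlgHom.id S S) (integralClosure A F).val u :=
    (congrArg Subtype.val hu).symm
  rw [h2]
  clear hu h2
  induction u with
  | zero => exact ⟨0, by simp⟩
  | add a b ha hb =>
    obtain ⟨a', ha⟩ := ha
    obtain ⟨b', hb⟩ := hb
    exact ⟨a' + b', by rw [map_add, map_add, ha, hb]⟩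
  | tmul s c =>
    obtain ⟨a, ha⟩ := (isIntegrallyClosed_iff F).1 ‹_› c.2
    refine ⟨a • s, ?_⟩
    rw [Algebra.TensorProduct.map_tmul, Subalgebra.coe_val, ← ha, Algebra.algebraMap_eq_smul_one a,
      TensorProduct.tmul_smul, TensorProduct.smul_tmul']
    rfl

theorem wb_dvd_of_integral {S S' : Type} [CommRing S] [CommRing S'] [IsIntegrallyClosed S']
    (j : S →+* S') (hj : S⁰ ≤ S'⁰.comap j) {a : S} {b : S⁰}
    (h : IsIntegral S (IsLocalization.mk' (FractionRing S) a b)) : j b ∣ j a := by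
  have h1 := h.map_of_comp_eq j (IsLocalization.map (FractionRing S') j hj)
    (IsLocalization.map_comp hj).symm
  rw [IsLocalization.map_mk'] at h1
  obtain ⟨c, hc⟩ := (isIntegrallyClosed_iff (FractionRing S')).1 ‹_› h1
  rw [IsLocalization.eq_mk'_iff_mul_eq, ← map_mul] at hc
  exact ⟨c, by rw [← IsFractionRing.injective S' (FractionRing S') hc, mul_comm]⟩

theorem wb_reg_pow {S : Type} [CommRing S] {e1 e2 : S} (h0 : e1 ∈ S⁰)
    (hreg : ∀ w, e1 ∣ e2 * w → e1 ∣ w) (N M : ℕ) (w : S) (h : e1 ^ N ∣ e2 ^ M * w) :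
    e1 ^ N ∣ w := by
  have h1 : ∀ (M : ℕ) w, e1 ∣ e2 ^ M * w → e1 ∣ w := by
    intro M
    induction M with
    | zero => simp
    | succ M ih => exact fun w hw => hreg w (ih _ (by rwa [← mul_assoc, ← pow_succ]))
  induction N generalizing w with
  | zero => simp
  | succ N ih =>
    obtain ⟨v, rfl⟩ := h1 M w ((dvd_pow_self e1 N.succ_ne_zero).trans h)
    obtain ⟨c, hc⟩ := h
    rw [pow_succ']
    refine mul_dvd_mul_left e1 (ih v ⟨c, ?_⟩)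
    refine sub_eq_zero.1 ((mem_nonZeroDivisors_iff_left.1 h0) _ ?_)
    linear_combination hc

/-- Normality can be checked on charts that cover the complement of a regular sequence. -/
theorem wb_normal_of_charts {S : Type} [CommRing S] {ι : Type} (e : ι → S) {e1 e2 : S}
    (h0 : e1 ∈ S⁰) (h1 : e1 ∈ Ideal.span (Set.range e)) (h2 : e2 ∈ Ideal.span (Set.range e))
    (hreg : ∀ w, e1 ∣ e2 * w → e1 ∣ w)
    (h : ∀ i, ∃ (S' : Type) (_ : CommRing S') (j : S →+* S'), IsIntegrallyClosed S' ∧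
      Function.Injective j ∧ IsAway j (e i)) : IsIntegrallyClosed S := by
  rw [isIntegrallyClosed_iff (FractionRing S)]
  intro z hz
  obtain ⟨⟨a, b⟩, rfl⟩ := IsLocalization.mk'_surjective S⁰ z
  have h3 : Ideal.span (Set.range e) ≤ ((Ideal.span {(b : S)}).colon {a}).radical := by
    rw [Ideal.span_le]
    rintro _ ⟨i, rfl⟩
    obtain ⟨S', _, j, _, hj, hu, hs, -⟩ := h i
    have hle : S⁰ ≤ S'⁰.comap j := fun x hx => mem_nonZeroDivisors_iff_left.2 fun w hw => by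
      obtain ⟨N, y, hy⟩ := hs w
      have h4 : y = 0 := mem_nonZeroDivisors_iff_left.1 hx y (hj (by
        rw [map_mul, ← hy, mul_left_comm, hw, mul_zero, map_zero]))
      rw [h4, map_zero] at hy
      exact ((hu.pow N).mul_right_eq_zero).1 hy
    obtain ⟨c, hc⟩ := wb_dvd_of_integral j hle hz
    obtain ⟨N, y, hy⟩ := hs c
    refine ⟨N, Submodule.mem_colon_singleton.2 (Ideal.mem_span_singleton.2 ⟨y, hj ?_⟩)⟩
    rw [smul_eq_mul, map_mul, map_mul, map_pow, hc, ← hy]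
    ring
  obtain ⟨N, hN⟩ := h3 h1
  obtain ⟨M, hM⟩ := h3 h2
  obtain ⟨c1, hc1⟩ := Ideal.mem_span_singleton.1 (Submodule.mem_colon_singleton.1 hN)
  obtain ⟨c2, hc2⟩ := Ideal.mem_span_singleton.1 (Submodule.mem_colon_singleton.1 hM)
  rw [smul_eq_mul] at hc1 hc2
  obtain ⟨c, rfl⟩ := wb_reg_pow h0 hreg N M c1 ⟨c2, sub_eq_zero.1
    (mem_nonZeroDivisors_iff_left.1 b.2 _ (by linear_combination e1 ^ N * hc2 - e2 ^ M * hc1))⟩
  refine ⟨c, IsLocalization.eq_mk'_iff_mul_eq.2 ?_⟩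
  rw [← map_mul]
  congr 1
  refine sub_eq_zero.1 (mem_nonZeroDivisors_iff_left.1 (pow_mem h0 N) _ ?_)
  linear_combination -hc1

/-- The component of a normal ring through a prime. -/
theorem wb_component {T : Type} [CommRing T] [IsNoetherianRing T] [IsReduced T]
    [IsIntegrallyClosed T] (𝔫 : Ideal T) [h𝔫 : 𝔫.IsPrime] :
    ∃ (𝔭 : Ideal T) (ε : T), 𝔭.IsPrime ∧ ε ∉ 𝔫 ∧ 1 - ε ∈ 𝔭 ∧ ∀ w ∈ 𝔭, w * ε = 0 := by
  classical
  obtain ⟨𝔭, h𝔭, hle⟩ := Ideal.exists_minimalPrimes_le (I := ⊥) (J := 𝔫) bot_le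
  have hp : 𝔭.IsPrime := h𝔭.1.1
  have hfin : (minimalPrimes T \ {𝔭}).Finite :=
    (minimalPrimes.finite_of_isNoetherianRing T).sdiff
  have hmin : ∀ 𝔮 ∈ minimalPrimes T, ∀ 𝔮' ∈ minimalPrimes T, 𝔮 ≤ 𝔮' → 𝔮 = 𝔮' :=
    fun 𝔮 h𝔮 𝔮' h𝔮' hle => le_antisymm hle (h𝔮'.2 h𝔮.1 hle)
  have hx : ∃ x, x ∉ 𝔭 ∧ ∀ 𝔮 ∈ minimalPrimes T, 𝔮 ≠ 𝔭 → x ∈ 𝔮 := by
    have h1 : ¬ hfin.toFinset.inf id ≤ 𝔭 := by
      rw [hp.inf_le']
      rintro ⟨𝔮, h𝔮, h2⟩
      rw [Set.Finite.mem_toFinset] at h𝔮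
      exact h𝔮.2 (hmin 𝔮 h𝔮.1 𝔭 h𝔭 h2)
    obtain ⟨x, hx1, hx2⟩ := Set.not_subset.1 h1
    refine ⟨x, hx2, fun 𝔮 h𝔮 hne => ?_⟩
    have h3 : hfin.toFinset.inf id ≤ 𝔮 :=
      Finset.inf_le (f := id) (hfin.mem_toFinset.2 ⟨h𝔮, hne⟩)
    exact h3 hx1
  have hy : ∃ y, y ∈ 𝔭 ∧ ∀ 𝔮 ∈ minimalPrimes T, 𝔮 ≠ 𝔭 → y ∉ 𝔮 := by
    have h1 : ¬ ((𝔭 : Set T) ⊆ ⋃ 𝔮 ∈ minimalPrimes T \ {𝔭}, ((id 𝔮 : Ideal T) : Set T)) := by
      rw [Ideal.subset_union_prime_finite hfin (f := id) 𝔭 𝔭 fun 𝔮 h𝔮 _ _ => h𝔮.1.1.1]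
      rintro ⟨𝔮, h𝔮, h2⟩
      exact h𝔮.2 (hmin 𝔭 h𝔭 𝔮 h𝔮.1 h2).symm
    obtain ⟨y, hy1, hy2⟩ := Set.not_subset.1 h1
    refine ⟨y, hy1, fun 𝔮 h𝔮 hne hy => hy2 ?_⟩
    exact Set.mem_biUnion (show 𝔮 ∈ minimalPrimes T \ {𝔭} from ⟨h𝔮, hne⟩) hy
  obtain ⟨x, hx1, hx2⟩ := hx
  obtain ⟨y, hy1, hy2⟩ := hy
  have hkill : ∀ w ∈ 𝔭, w * x = 0 := by
    intro w hw
    refine norm_eq_zero fun 𝔮 h𝔮 => ?_
    by_cases hq : 𝔮 = 𝔭
    · rw [hq]
      exact 𝔭.mul_mem_right _ hw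
    · exact 𝔮.mul_mem_left _ (hx2 𝔮 h𝔮 hq)
  have hb : ∀ 𝔮 ∈ minimalPrimes T, x + y ∉ 𝔮 := by
    intro 𝔮 h𝔮 hm
    by_cases hq : 𝔮 = 𝔭
    · rw [hq] at hm
      exact hx1 (by simpa using 𝔭.sub_mem hm hy1)
    · exact hy2 𝔮 h𝔮 hq (by simpa using 𝔮.sub_mem hm (hx2 𝔮 h𝔮 hq))
  have hreg : ∀ w, (x + y) * w = 0 → w = 0 := by
    intro w hw
    refine norm_eq_zero fun 𝔮 h𝔮 => ?_
    have hq : 𝔮.IsPrime := h𝔮.1.1
    exact (hq.mem_or_mem (hw ▸ 𝔮.zero_mem : (x + y) * w ∈ 𝔮)).resolve_left (hb 𝔮 h𝔮)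
  have hnz : x + y ∈ T⁰ := mem_nonZeroDivisors_iff_left.2 hreg
  have hxy : y * x = 0 := hkill y hy1
  obtain ⟨ε, hε⟩ : x + y ∣ x := by
    refine wb_dvd_of_integral (RingHom.id T) le_rfl (b := ⟨_, hnz⟩)
      ⟨Polynomial.X * (Polynomial.X - Polynomial.C 1),
        Polynomial.monic_X.mul (Polynomial.monic_X_sub_C 1), ?_⟩
    rw [Polynomial.eval₂_mul, Polynomial.eval₂_sub, Polynomial.eval₂_X, Polynomial.eval₂_C,
      map_one, mul_sub, mul_one, sub_eq_zero, ← IsLocalization.mk'_mul,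
      IsLocalization.mk'_eq_iff_eq]
    congr 1
    simp only [Submonoid.coe_mul]
    linear_combination (-(x + y)) * hxy
  have h1 : (x + y) * (1 - ε) = y := by linear_combination hε
  have h2 : 1 - ε ∈ 𝔭 := (hp.mem_or_mem (h1.symm ▸ hy1 : (x + y) * (1 - ε) ∈ 𝔭)).resolve_left
    (hb 𝔭 h𝔭)
  refine ⟨𝔭, ε, hp, fun hm => h𝔫.ne_top ((Ideal.eq_top_iff_one 𝔫).2 (by
    simpa using 𝔫.add_mem (hle h2) hm)), h2, fun w hw => hreg _ ?_⟩
  linear_combination hkill w hw - w * hε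

end Pool.Agent.Lib.MP_4287a9_ag
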