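import Pool.Agent.Lib.MP_4287a9_ag.WGlob

/-!
Free extensions: extension and restriction of Cartier maps.
-/

open scoped TensorProduct ENNReal NNReal nonZeroDivisors Polynomial
open Filter

namespace Pool.Agent.Lib.MP_4287a9_ag

noncomputable section

private theorem isBas_of_basis {B : Type} (T : Type) {κ κ' : Type} [CommRing B]
    [CommRing T] [Algebra B T] [Field κ] [Field κ'] [Algebra B κ]
    [Algebra B κ'] (ι : κ →ₐ[B] κ') {k : ℕ} (v : Fin k → κ')
    (h1 : ∀ x : κ', ∃ c : Fin k → κ, x = ∑ i, ι (c i) * v i)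
    (h2 : ∀ c : Fin k → κ, ∑ i, ι (c i) * v i = 0 → ∀ i, c i = 0) :
    IsBas (bm T ι).toRingHom fun i => (v i ⊗ₜ[B] (1 : T) : κ' ⊗[B] T) := by
  classical
  let _ : Algebra κ κ' := ι.toRingHom.toAlgebra
  have hs : ∀ (a : κ) (x : κ'), a • x = ι a * x := fun a x => rfl
  have : IsScalarTower B κ κ' := IsScalarTower.of_algebraMap_eq fun b => (ι.commutes b).symm
  have hli : LinearIndependent κ v := by
    rw [Fintype.linearIndependent_iff]
    intro c hc
    exact h2 c (by simpa only [hs] using hc)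
  have hsp : ⊤ ≤ Submodule.span κ (Set.range v) := by
    intro x _
    obtain ⟨c, hc⟩ := h1 x
    rw [hc]
    exact Submodule.sum_mem _ fun i _ => by
      rw [← hs]
      exact Submodule.smul_mem _ _ (Submodule.subset_span ⟨i, rfl⟩)
  let b : Module.Basis (Fin k) κ κ' := Module.Basis.mk hli hsp
  have hb : ∀ i, b i = v i := fun i => Module.Basis.mk_apply hli hsp i
  constructor
  · intro s
    induction s using TensorProduct.induction_on with
    | zero => exact ⟨0, by simp⟩
    | tmul x t =>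
      obtain ⟨c, hc⟩ := h1 x
      refine ⟨fun i => c i ⊗ₜ[B] t, ?_⟩
      rw [hc, TensorProduct.sum_tmul]
      refine Finset.sum_congr rfl fun i _ => ?_
      simp [mul_comm]
    | add x y hx hy =>
      obtain ⟨a, ha⟩ := hx
      obtain ⟨c, hc⟩ := hy
      refine ⟨a + c, ?_⟩
      rw [ha, hc, ← Finset.sum_add_distrib]
      refine Finset.sum_congr rfl fun i _ => ?_
      simp only [Pi.add_apply, map_add, mul_add]
  · intro y hy i
    let f : κ' ⊗[B] T →ₗ[B] κ ⊗[B] T :=
      LinearMap.rTensor T ((b.coord i).restrictScalars B)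
    have hf : ∀ (j : Fin k) (z : κ ⊗[B] T),
        f ((v j ⊗ₜ[B] (1 : T)) * (bm T ι).toRingHom z) = if j = i then z else 0 := by
      intro j z
      induction z using TensorProduct.induction_on with
      | zero => simp
      | tmul a t =>
        have e1 : (v j ⊗ₜ[B] (1 : T)) * (bm T ι).toRingHom (a ⊗ₜ[B] t)
            = (a • b j) ⊗ₜ[B] t := by
          simp [hs, hb, mul_comm]
        rw [e1]
        simp only [f, LinearMap.rTensor_tmul, LinearMap.restrictScalars_apply, map_smul,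
          Module.Basis.coord_apply, Module.Basis.repr_self, smul_eq_mul, Finsupp.single_apply]
        split_ifs <;> simp
      | add x y hx hy =>
        rw [map_add, mul_add, map_add, hx, hy]
        split_ifs <;> simp
    have := congrArg f hy
    rw [map_sum, map_zero] at this
    simp only [hf] at this
    simpa using this

/-- `w i = v i ⊗ 1` for a basis `v` of `κ'` over `κ`; the `q`-th powers of a basis form a basis,
since Frobenius is an automorphism of `κ'` that maps `κ` onto `κ`. -/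
theorem exists_bas {p : ℕ} [Fact p.Prime] {B : Type} (T : Type) {κ κ' : Type} [CommRing B]
    [CommRing T] [Algebra B T] [Field κ] [Field κ'] [Finite κ'] [CharP κ' p] [Algebra B κ]
    [Algebra B κ'] (ι : κ →ₐ[B] κ') :
    ∃ (k : ℕ) (w : Fin k → κ' ⊗[B] T), ∀ e : ℕ,
      IsBas (bm T ι).toRingHom fun i => w i ^ p ^ e := by
  classical
  let _ : Algebra κ κ' := ι.toRingHom.toAlgebra
  have hs : ∀ (a : κ) (x : κ'), a • x = ι a * x := fun a x => rfl
  have : Finite κ := Finite.of_injective _ ι.toRingHom.injective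
  have : CharP κ p := (RingHom.charP_iff_charP ι.toRingHom p).2 inferInstance
  have : Module.Finite κ κ' := Module.Finite.of_finite
  let b := Module.finBasis κ κ'
  refine ⟨_, fun i => (b i ⊗ₜ[B] (1 : T) : κ' ⊗[B] T), fun e => ?_⟩
  have key : IsBas (bm T ι).toRingHom fun i => ((b i ^ p ^ e) ⊗ₜ[B] (1 : T) : κ' ⊗[B] T) := by
    refine isBas_of_basis T ι _ (fun x => ?_) (fun c hc i => ?_)
    · obtain ⟨x', hx'⟩ := (iterateFrobeniusEquiv κ' p e).surjective x
      rw [iterateFrobeniusEquiv_apply, iterateFrobenius_def] at hx'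
      refine ⟨fun i => b.repr x' i ^ p ^ e, ?_⟩
      rw [← hx']
      conv_lhs => rw [← b.sum_repr x']
      rw [sum_pow_char_pow]
      refine Finset.sum_congr rfl fun i _ => ?_
      rw [hs, mul_pow, map_pow]
    · choose c' hc' using fun i => (iterateFrobeniusEquiv κ p e).surjective (c i)
      simp only [iterateFrobeniusEquiv_apply, iterateFrobenius_def] at hc'
      have h0 : (∑ i, c' i • b i) ^ p ^ e = 0 := by
        rw [sum_pow_char_pow, ← hc]
        refine Finset.sum_congr rfl fun i _ => ?_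
        rw [hs, mul_pow, ← map_pow, hc']
      have h1 := Fintype.linearIndependent_iff.1 b.linearIndependent c' (pow_eq_zero_iff
        (pow_ne_zero e (Fact.out : p.Prime).ne_zero) |>.1 h0) i
      rw [← hc' i, h1]
      exact zero_pow (pow_ne_zero e (Fact.out : p.Prime).ne_zero)
  simpa only [Algebra.TensorProduct.tmul_pow, one_pow] using key

variable {S₀ S : Type} [CommRing S₀] [CommRing S] {ι : S₀ →+* S} {k : ℕ} {w : Fin k → S}

/-- Coordinates in the basis. -/
private def IsBas.co (h : IsBas ι w) (s : S) : Fin k → S₀ := (h.1 s).choose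

private theorem IsBas.sum_co (h : IsBas ι w) (s : S) : s = ∑ i, w i * ι (h.co s i) :=
  (h.1 s).choose_spec

private theorem IsBas.co_eq (h : IsBas ι w) {s : S} {y : Fin k → S₀}
    (hy : s = ∑ i, w i * ι (y i)) (i : Fin k) : h.co s i = y i := by
  have h0 : ∑ i, w i * ι ((h.co s - y) i) = 0 := by
    simp only [Pi.sub_apply, map_sub, mul_sub, Finset.sum_sub_distrib]
    rw [← hy, ← h.sum_co s, sub_self]
  exact sub_eq_zero.1 (h.2 _ h0 i)

private theorem IsBas.co_add (h : IsBas ι w) (s t : S) (i : Fin k) :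
    h.co (s + t) i = h.co s i + h.co t i := by
  refine h.co_eq (y := fun i => h.co s i + h.co t i) ?_ i
  simp only [map_add, mul_add, Finset.sum_add_distrib]
  rw [← h.sum_co s, ← h.sum_co t]

private theorem IsBas.co_mul (h : IsBas ι w) (z : S₀) (s : S) (i : Fin k) :
    h.co (ι z * s) i = z * h.co s i := by
  refine h.co_eq (y := fun i => z * h.co s i) ?_ i
  conv_lhs => rw [h.sum_co s]
  rw [Finset.mul_sum]
  refine Finset.sum_congr rfl fun i _ => ?_
  rw [map_mul]
  ring

private theorem IsBas.co_zero (h : IsBas ι w) (i : Fin k) : h.co 0 i = 0 :=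
  h.co_eq (y := fun _ => 0) (by simp) i

theorem IsBas.map_nzd (h : IsBas ι w) {z : S₀} (hz : z ∈ S₀⁰) : ι z ∈ S⁰ := by
  rw [mem_nonZeroDivisors_iff_left]
  intro s hs
  rw [h.sum_co s]
  refine Finset.sum_eq_zero fun i _ => ?_
  have h1 := h.co_mul z s i
  rw [hs, h.co_zero] at h1
  rw [(mem_nonZeroDivisors_iff_left.1 hz) _ h1.symm, map_zero, mul_zero]

theorem IsBas.isIntegral (h : IsBas ι w) : ι.IsIntegral := by
  classical
  let _ : Algebra S₀ S := ι.toAlgebra
  have hf : ι.Finite := by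
    refine ⟨⟨Finset.univ.image w, ?_⟩⟩
    rw [eq_top_iff]
    intro s _
    rw [h.sum_co s]
    refine Submodule.sum_mem _ fun i _ => ?_
    have : w i * ι (h.co s i) = h.co s i • w i := mul_comm _ _
    rw [this]
    exact Submodule.smul_mem _ _ (Submodule.subset_span (by simp))
  exact hf.to_isIntegral

/-- If `ι c * s * x = 0` then `c` kills the coordinates of `s * x`. -/
theorem IsBas.loc_nzd (h : IsBas ι w) (m : Ideal S₀) [m.IsPrime] (m' : Ideal S) [m'.IsPrime]
    (hm : m'.comap ι = m) {c : S₀}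
    (hc : algebraMap S₀ (Localization.AtPrime m) c ∈ (Localization.AtPrime m)⁰) :
    algebraMap S (Localization.AtPrime m') (ι c) ∈ (Localization.AtPrime m')⁰ := by
  rw [mem_nonZeroDivisors_iff_left]
  intro x hx
  obtain ⟨⟨a, s'⟩, rfl⟩ := IsLocalization.mk'_surjective m'.primeCompl x
  have h1 : algebraMap S (Localization.AtPrime m') (ι c * a) = 0 := by
    have := congrArg (· * algebraMap S (Localization.AtPrime m') (s' : S)) hx
    simp only [zero_mul, mul_assoc, IsLocalization.mk'_spec] at this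
    rw [map_mul]
    exact this
  obtain ⟨s, hs⟩ := (IsLocalization.map_eq_zero_iff m'.primeCompl _ _).1 h1
  have h2 : ∀ i, ∃ t : m.primeCompl, (t : S₀) * h.co (s * a) i = 0 := by
    intro i
    have h3 := h.co_mul c (s * a) i
    rw [show ι c * (s * a) = 0 by rw [← hs]; ring, h.co_zero] at h3
    have h4 : algebraMap S₀ (Localization.AtPrime m) (h.co (s * a) i) = 0 := by
      refine (mem_nonZeroDivisors_iff_left.1 hc) _ ?_
      rw [← map_mul, ← h3, map_zero]
    exact (IsLocalization.map_eq_zero_iff m.primeCompl _ _).1 h4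
  choose t ht using h2
  have h5 : ι ((∏ i, t i : m.primeCompl) : S₀) ∈ m'.primeCompl := by
    intro hh
    have : ((∏ i, t i : m.primeCompl) : S₀) ∈ m := hm.le (Ideal.mem_comap.2 hh)
    exact (∏ i, t i : m.primeCompl).2 this
  have h6 : ι ((∏ i, t i : m.primeCompl) : S₀) * (s * a) = 0 := by
    rw [h.sum_co (ι ((∏ i, t i : m.primeCompl) : S₀) * (s * a))]
    refine Finset.sum_eq_zero fun i _ => ?_
    rw [h.co_mul]
    obtain ⟨u, hu⟩ : t i ∣ ∏ i, t i := Finset.dvd_prod_of_mem _ (Finset.mem_univ i)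
    rw [hu, Submonoid.coe_mul, mul_right_comm, ht, zero_mul, map_zero, mul_zero]
  show IsLocalization.mk' (Localization.AtPrime m') a s' = 0
  rw [IsLocalization.mk'_eq_zero_iff]
  exact ⟨⟨_, h5⟩ * s, by rw [Submonoid.coe_mul, mul_assoc]; exact h6⟩

/-- `φ' (∑ w i ^ q * ι (y i)) = ∑ w i * ι (φ (y i))`. For linearity write `s * w i` in the basis
`w` and take `q`-th powers. `isCart_of_one`. -/
theorem IsBas.exists_ext {p : ℕ} [Fact p.Prime] [CharP S p] {e : ℕ} (h1 : IsBas ι w)
    (hq : IsBas ι fun i => w i ^ p ^ e) {𝔡 : Ideal S₀} {r : ℕ} {δ : S₀} (hδ : δ ∈ 𝔡)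
    (hδ0 : δ ∈ S₀⁰) {φ : S₀ →+ S₀} (h : IsCart 𝔡 r (p ^ e) φ) :
    ∃ φ' : S →+ S, IsCart (𝔡.map ι) r (p ^ e) φ' ∧ ∀ y, φ' (ι y) = ι (φ y) := by
  let φ' : S →+ S := AddMonoidHom.mk' (fun s => ∑ i, w i * ι (φ (hq.co s i))) fun s t => by
    simp only [hq.co_add, map_add, mul_add, Finset.sum_add_distrib]
  have hφ' : ∀ s, φ' s = ∑ i, w i * ι (φ (hq.co s i)) := fun s => rfl
  have hpow : ∀ s : S, s ^ p ^ e = ∑ j, w j ^ p ^ e * ι (h1.co s j ^ p ^ e) := by
    intro s
    conv_lhs => rw [h1.sum_co s]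
    rw [sum_pow_char_pow]
    refine Finset.sum_congr rfl fun j _ => ?_
    rw [mul_pow, map_pow]
  have hone : ∀ (s : S) (y : S₀), φ' (s ^ p ^ e * ι y) = s * ι (φ y) := by
    intro s y
    have e1 : s ^ p ^ e * ι y = ∑ j, w j ^ p ^ e * ι (h1.co s j ^ p ^ e * y) := by
      rw [hpow s, Finset.sum_mul]
      refine Finset.sum_congr rfl fun j _ => ?_
      rw [map_mul, mul_assoc]
    rw [hφ']
    conv_rhs => rw [h1.sum_co s]
    rw [Finset.sum_mul]
    refine Finset.sum_congr rfl fun j _ => ?_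
    rw [hq.co_eq e1 j, h.lin, map_mul, mul_assoc]
  refine ⟨φ', isCart_of_one (Ideal.mem_map_of_mem ι hδ) (h1.map_nzd hδ0) (fun s y => ?_)
    (fun y hy => ?_), fun y => ?_⟩
  · conv_lhs => rw [hq.sum_co y]
    rw [Finset.mul_sum, map_sum, hφ' y, Finset.mul_sum]
    refine Finset.sum_congr rfl fun i _ => ?_
    rw [← mul_assoc, ← mul_pow, hone, mul_assoc]
  · rw [hφ']
    refine Finset.dvd_sum fun i _ => Dvd.dvd.mul_left (map_dvd ι (h.div δ hδ0 _ fun d hd => ?_)) _
    obtain ⟨u, hu⟩ := hy (ι d) (by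
      rw [← Ideal.map_pow]
      exact Ideal.mem_map_of_mem ι hd)
    refine ⟨hq.co u i, ?_⟩
    rw [← hq.co_mul, map_pow, ← hu, mul_comm y, hq.co_mul, mul_comm]
  · have := hone 1 y
    rwa [one_pow, one_mul, one_mul] at this

/-- `φ y` is a coordinate of `φ' (v * ι y)`. -/
theorem IsBas.exists_res (h1 : IsBas ι w) {𝔡 : Ideal S₀} {r q : ℕ} {φ' : S →+ S}
    (h : IsCart (𝔡.map ι) r q φ') (v : S) {m : Ideal S₀} {y₀ : S₀}
    (hy : φ' (v * ι y₀) ∉ m.map ι) : ∃ φ : S₀ →+ S₀, IsCart 𝔡 r q φ ∧ φ y₀ ∉ m := by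
  have hi : ∃ i, h1.co (φ' (v * ι y₀)) i ∉ m := by
    by_contra hc
    push Not at hc
    apply hy
    rw [h1.sum_co (φ' (v * ι y₀))]
    exact Ideal.sum_mem _ fun i _ => Ideal.mul_mem_left _ _ (Ideal.mem_map_of_mem ι (hc i))
  obtain ⟨i, hi⟩ := hi
  let φ : S₀ →+ S₀ := AddMonoidHom.mk' (fun y => h1.co (φ' (v * ι y)) i) fun s t => by
    simp only [map_add, mul_add, h1.co_add]
  have hφ : ∀ y, φ y = h1.co (φ' (v * ι y)) i := fun y => rfl
  refine ⟨φ, ⟨fun z y => ?_, fun z hz y hd => ?_⟩, hi⟩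
  · rw [hφ, hφ, map_mul ι, map_pow ι, mul_left_comm, h.lin, h1.co_mul]
  · obtain ⟨u, hu⟩ := h.div (ι z) (h1.map_nzd hz) (v * ι y) fun d hd' => by
      rw [← Ideal.map_pow] at hd'
      rw [mul_assoc]
      refine Dvd.dvd.mul_left ?_ v
      induction hd' using Submodule.span_induction with
      | mem x hx =>
        obtain ⟨d₀, hd₀, rfl⟩ := hx
        rw [← map_mul, ← map_pow]
        exact map_dvd ι (hd d₀ hd₀)
      | zero => simp
      | add x y _ _ hx hy =>
        rw [mul_add]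
        exact dvd_add hx hy
      | smul a x _ hx =>
        rw [smul_eq_mul, mul_left_comm]
        exact Dvd.dvd.mul_left hx a
    exact ⟨h1.co u i, by rw [hφ, hu, h1.co_mul]⟩

end

end Pool.Agent.Lib.MP_4287a9_ag
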