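import Pool.Agent.Lib.MP_4287a9_ag.WBa0
import Pool.Agent.Lib.MP_4287a9_ag.D5

/-!
Base change along a field extension: regular elements, localizations, etale coordinates.
-/

open scoped TensorProduct nonZeroDivisors

namespace Pool.Agent.Lib.MP_4287a9_ag

variable {k L : Type} [Field k] [Field L] [Algebra k L]

/-- Coordinates for a basis of `L` over `k`. -/
noncomputable def wbCo (k L : Type) [Field k] [Field L] [Algebra k L] (R : Type) [CommRing R]
    [Algebra k R] : L ⊗[k] R ≃ₗ[k] (Module.Basis.ofVectorSpaceIndex k L →₀ R) := by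
  classical
  exact TensorProduct.equivFinsuppOfBasisLeft (Module.Basis.ofVectorSpace k L)

variable {R A : Type} [CommRing R] [Algebra k R] [CommRing A] [Algebra k A]

theorem wbCo_tmul (l : L) (r : R) (i : Module.Basis.ofVectorSpaceIndex k L) :
    wbCo k L R (l ⊗ₜ r) i = (Module.Basis.ofVectorSpace k L).repr l i • r := by
  classical
  exact TensorProduct.equivFinsuppOfBasisLeft_apply_tmul_apply _ _ _ _

theorem wbCo_sum (w : L ⊗[k] R) : w = ∑ i ∈ (wbCo k L R w).support,
    Module.Basis.ofVectorSpace k L i ⊗ₜ wbCo k L R w i := by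
  classical
  conv_lhs => rw [← (wbCo k L R).symm_apply_apply w]
  exact TensorProduct.equivFinsuppOfBasisLeft_symm_apply _ _

theorem wbCo_mul (r : R) (w : L ⊗[k] R) (i : Module.Basis.ofVectorSpaceIndex k L) :
    wbCo k L R (((1 : L) ⊗ₜ r) * w) i = r * wbCo k L R w i := by
  induction w with
  | zero => simp
  | add a b ha hb => simp only [mul_add, map_add, Finsupp.add_apply, ha, hb]
  | tmul l s => simp [wbCo_tmul]

theorem wbCo_map (j : R →ₐ[k] A) (w : L ⊗[k] R) (i : Module.Basis.ofVectorSpaceIndex k L) :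
    wbCo k L A (Algebra.TensorProduct.map (AlgHom.id L L) j w) i = j (wbCo k L R w i) := by
  induction w with
  | zero => simp
  | add a b ha hb => simp only [map_add, Finsupp.add_apply, ha, hb]
  | tmul l s => simp [wbCo_tmul]

theorem wb_reg_tmul {r : R} (hr : r ∈ R⁰) : ((1 : L) ⊗ₜ[k] r) ∈ (L ⊗[k] R)⁰ := by
  refine mem_nonZeroDivisors_iff_left.2 fun w hw => (wbCo k L R).injective ?_
  ext i
  refine (mem_nonZeroDivisors_iff_left.1 hr _ ?_).trans (by simp)
  rw [← wbCo_mul, hw]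
  simp

theorem wb_hreg_tmul {e1 e2 : R} (hreg : ∀ w, e1 ∣ e2 * w → e1 ∣ w) (w : L ⊗[k] R)
    (h : ((1 : L) ⊗ₜ[k] e1) ∣ ((1 : L) ⊗ₜ[k] e2) * w) : ((1 : L) ⊗ₜ[k] e1) ∣ w := by
  obtain ⟨v, hv⟩ := h
  rw [wbCo_sum w]
  refine Finset.dvd_sum fun i _ => ?_
  obtain ⟨c, hc⟩ := hreg (wbCo k L R w i) ⟨wbCo k L R v i, by rw [← wbCo_mul, hv, wbCo_mul]⟩
  exact ⟨Module.Basis.ofVectorSpace k L i ⊗ₜ c, by
    rw [hc, Algebra.TensorProduct.tmul_mul_tmul, one_mul]⟩

theorem wb_inj_tmul {j : R →ₐ[k] A} (hj : Function.Injective j) :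
    Function.Injective (Algebra.TensorProduct.map (AlgHom.id L L) j) := by
  refine (injective_iff_map_eq_zero _).2 fun w hw => (wbCo k L R).injective ?_
  ext i
  refine hj ?_
  rw [← wbCo_map, hw]
  simp

theorem wb_away_tmul {j : R →ₐ[k] A} {f : R} (h : IsAway j.toRingHom f) :
    IsAway (Algebra.TensorProduct.map (AlgHom.id L L) j).toRingHom ((1 : L) ⊗ₜ[k] f) := by
  obtain ⟨hu, hs, hk⟩ := h
  refine ⟨hu.map (Algebra.TensorProduct.includeRight : A →ₐ[k] L ⊗[k] A), fun w => ?_,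
    fun w hw => ?_⟩
  · induction w with
    | zero => exact ⟨0, 0, by simp⟩
    | add a b ha hb =>
      obtain ⟨N, x, hx⟩ := ha
      obtain ⟨M, y, hy⟩ := hb
      refine ⟨N + M, ((1 : L) ⊗ₜ[k] f) ^ M * x + ((1 : L) ⊗ₜ[k] f) ^ N * y, ?_⟩
      rw [map_add, map_mul, map_mul, map_pow, map_pow, ← hx, ← hy]
      ring
    | tmul l a =>
      obtain ⟨N, x, hx⟩ := hs a
      refine ⟨N, l ⊗ₜ x, ?_⟩
      have hx' : j f ^ N * a = j x := hx
      simp [← hx']
  · have h1 : ∀ i, ∃ N : ℕ, f ^ N * wbCo k L R w i = 0 := fun i => hk _ (by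
      have h2 : Algebra.TensorProduct.map (AlgHom.id L L) j w = 0 := hw
      have := wbCo_map j w i
      rw [h2] at this
      simpa using this.symm)
    choose N hN using h1
    refine ⟨∑ i ∈ (wbCo k L R w).support, N i, (wbCo k L R).injective ?_⟩
    ext i
    rw [Algebra.TensorProduct.tmul_pow, one_pow, wbCo_mul, map_zero, Finsupp.zero_apply]
    by_cases hi : i ∈ (wbCo k L R w).support
    · obtain ⟨m, hm⟩ := Nat.exists_eq_add_of_le (Finset.single_le_sum (f := N)
        (fun _ _ => Nat.zero_le _) hi)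
      rw [hm, pow_add, mul_right_comm, hN, zero_mul]
    · rw [Finsupp.notMem_support_iff.1 hi, mul_zero]

attribute [local instance] MvPolynomial.algebraMvPolynomial Algebra.TensorProduct.rightAlgebra in
theorem wb_etale_tmul {n : ℕ} {y : Fin n → A}
    (h : (MvPolynomial.aeval y : MvPolynomial (Fin n) k →ₐ[k] A).toRingHom.Etale) :
    (MvPolynomial.aeval (fun l => (1 : L) ⊗ₜ[k] y l) :
      MvPolynomial (Fin n) L →ₐ[L] L ⊗[k] A).toRingHom.Etale := by
  let f : MvPolynomial (Fin n) k →ₐ[k] A := MvPolynomial.aeval y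
  let g : MvPolynomial (Fin n) L →ₐ[L] L ⊗[k] A := MvPolynomial.aeval fun l => (1 : L) ⊗ₜ[k] y l
  let _ : Algebra (MvPolynomial (Fin n) k) A := f.toRingHom.toAlgebra
  let _ : Algebra (MvPolynomial (Fin n) L) (L ⊗[k] A) := g.toRingHom.toAlgebra
  let _ : Algebra (MvPolynomial (Fin n) k) (L ⊗[k] A) :=
    ((algebraMap A (L ⊗[k] A)).comp f.toRingHom).toAlgebra
  have : IsScalarTower k (MvPolynomial (Fin n) k) A :=
    IsScalarTower.of_algebraMap_eq fun c => (f.commutes c).symm
  have : IsScalarTower L (MvPolynomial (Fin n) L) (L ⊗[k] A) :=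
    IsScalarTower.of_algebraMap_eq fun c => (g.commutes c).symm
  have : IsScalarTower (MvPolynomial (Fin n) k) A (L ⊗[k] A) := IsScalarTower.of_algebraMap_eq' rfl
  have : IsScalarTower (MvPolynomial (Fin n) k) (MvPolynomial (Fin n) L) (L ⊗[k] A) := by
    refine IsScalarTower.of_algebraMap_eq' ?_
    change (algebraMap A (L ⊗[k] A)).comp f.toRingHom =
      g.toRingHom.comp (MvPolynomial.map (algebraMap k L))
    refine MvPolynomial.ringHom_ext (fun c => ?_) fun l => ?_
    · simp [f, g, Algebra.TensorProduct.right_algebraMap_apply, Algebra.algebraMap_eq_smul_one,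
        TensorProduct.smul_tmul']
    · simp [f, g, Algebra.TensorProduct.right_algebraMap_apply]
  have : IsScalarTower k (MvPolynomial (Fin n) L) (L ⊗[k] A) :=
    IsScalarTower.of_algebraMap_eq fun c => by
      rw [IsScalarTower.algebraMap_apply k L (MvPolynomial (Fin n) L),
        ← IsScalarTower.algebraMap_apply L, ← IsScalarTower.algebraMap_apply]
  have : Algebra.IsPushout (MvPolynomial (Fin n) k) A (MvPolynomial (Fin n) L) (L ⊗[k] A) :=
    (Algebra.IsPushout.comp_iff k (MvPolynomial (Fin n) k) L (MvPolynomial (Fin n) L)).1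
      inferInstance
  exact RingHom.Etale.isStableUnderBaseChange (MvPolynomial (Fin n) k) A (MvPolynomial (Fin n) L)
    (L ⊗[k] A) h

theorem wb_ch_away {K : Type} [Field K] [Algebra k K] [Algebra R K] [IsScalarTower k R K]
    (hinj : Function.Injective (algebraMap R K)) {e : R} (he : e ≠ 0) :
    ∃ j : R →ₐ[k] ch k R {(algebraMap R K e)⁻¹}, (∀ r, (j r : K) = algebraMap R K r) ∧
      Function.Injective j ∧ IsAway j.toRingHom e := by
  have he' : algebraMap R K e ≠ 0 := fun h => he (hinj (h.trans (map_zero _).symm))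
  let j : R →ₐ[k] ch k R {(algebraMap R K e)⁻¹} := (IsScalarTower.toAlgHom k R K).codRestrict _
    fun r => Algebra.subset_adjoin (Or.inl ⟨r, rfl⟩)
  have hj : Function.Injective j := fun a b h => hinj (congrArg Subtype.val h)
  refine ⟨j, fun _ => rfl, hj, IsUnit.of_mul_eq_one ⟨_, Algebra.subset_adjoin (Or.inr rfl)⟩
    (Subtype.ext (mul_inv_cancel₀ he')), fun ⟨w, hw⟩ => ?_,
    fun x hx => ⟨0, by rw [pow_zero, one_mul]; exact hj (hx.trans (map_zero j).symm)⟩⟩
  suffices ∃ (N : ℕ) (x : R), algebraMap R K e ^ N * w = algebraMap R K x by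
    obtain ⟨N, x, hx⟩ := this
    exact ⟨N, x, Subtype.ext hx⟩
  induction hw using Algebra.adjoin_induction with
  | mem w hw =>
    rcases hw with ⟨r, rfl⟩ | rfl
    · exact ⟨0, r, by simp⟩
    · exact ⟨1, 1, by simp [he']⟩
  | algebraMap c => exact ⟨0, algebraMap k R c, by simp [← IsScalarTower.algebraMap_apply]⟩
  | add a b _ _ ha hb =>
    obtain ⟨N, x, hx⟩ := ha
    obtain ⟨M, y, hy⟩ := hb
    refine ⟨N + M, e ^ M * x + e ^ N * y, ?_⟩
    rw [map_add, map_mul, map_mul, map_pow, map_pow, ← hx, ← hy]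
    ring
  | mul a b _ _ ha hb =>
    obtain ⟨N, x, hx⟩ := ha
    obtain ⟨M, y, hy⟩ := hb
    refine ⟨N + M, x * y, ?_⟩
    rw [map_mul, ← hx, ← hy]
    ring

/-- The base change of a ring with etale charts in codimension one is reduced and normal. -/
theorem CD.Good.tmul_normal {K : Type} [Field K] [Algebra k K] [Algebra R K] [IsScalarTower k R K]
    [IsDomain R] (hinj : Function.Injective (algebraMap R K)) {n : ℕ} {c : CD k R K n}
    {𝔡 : Ideal R} {r : ℕ} (h : c.Good 𝔡 r) (L : Type) [Field L] [Algebra k L] :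
    IsReduced (L ⊗[k] R) ∧ IsIntegrallyClosed (L ⊗[k] R) := by
  have key : ∀ i, ∃ (S' : Type) (_ : CommRing S') (j : L ⊗[k] R →+* S'), IsReduced S' ∧
      IsIntegrallyClosed S' ∧ Function.Injective j ∧ IsAway j ((1 : L) ⊗ₜ[k] c.e i) := by
    intro i
    obtain ⟨j, -, hj, ha⟩ := wb_ch_away (k := k) hinj (h.he i)
    obtain ⟨hy, het⟩ := h.het i
    have h1 := wb_etale_tmul (L := L) het
    refine ⟨_, inferInstance, _, etA_red _ h1, ?_, wb_inj_tmul hj, wb_away_tmul ha⟩
    algebraize [(MvPolynomial.aeval (fun l => (1 : L) ⊗ₜ[k] (⟨c.z i l, hy l⟩ :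
      ch k R {(algebraMap R K (c.e i))⁻¹})) : MvPolynomial (Fin n) L →ₐ[L] _).toRingHom]
    exact wb_normal_of_etale (A := MvPolynomial (Fin n) L)
  have hsp : ∀ x ∈ Ideal.span (Set.range c.e), ((1 : L) ⊗ₜ[k] x) ∈
      Ideal.span (Set.range fun i => (1 : L) ⊗ₜ[k] c.e i) := fun x hx => by
    have := Ideal.mem_map_of_mem (Algebra.TensorProduct.includeRight : R →ₐ[k] L ⊗[k] R) hx
    rwa [Ideal.map_span, ← Set.range_comp] at this
  constructor
  · by_cases h0 : c.ne = 0
    · have : IsEmpty (Fin c.ne) := h0 ▸ Fin.isEmpty'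
      have h1 := h.he1
      rw [Set.range_eq_empty, Ideal.span_empty, Ideal.mem_bot] at h1
      exact absurd h1 h.he0
    · obtain ⟨S', _, j, _, -, hj, -⟩ := key ⟨0, Nat.pos_of_ne_zero h0⟩
      exact isReduced_of_injective j hj
  · refine wb_normal_of_charts _ (wb_reg_tmul (mem_nonZeroDivisors_of_ne_zero h.he0))
      (hsp _ h.he1) (hsp _ h.he2) (wb_hreg_tmul h.hreg) fun i => ?_
    obtain ⟨S', _, j, -, h1⟩ := key i
    exact ⟨S', inferInstance, j, h1⟩

end Pool.Agent.Lib.MP_4287a9_ag
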