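import Pool.Agent.Lib.MP_4287a9_ag.WBb0

/-!
Transfer of the canonical data to a component of the base change.
-/

open scoped TensorProduct nonZeroDivisors

namespace Pool.Agent.Lib.MP_4287a9_ag

theorem IsAway.etale {P T : Type} [CommRing P] [CommRing T] {ρ : P →+* T} {f : P}
    (h : IsAway ρ f) : ρ.Etale := by
  algebraize [ρ]
  have : IsLocalization.Away f T := by
    refine IsLocalization.Away.mk _ h.1 (fun z => ?_) fun a b hab => ?_
    · obtain ⟨i, x, hx⟩ := h.2.1 z
      exact ⟨i, x, (mul_comm _ _).trans hx⟩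
    · obtain ⟨i, hi⟩ := h.2.2 (a - b) (by rw [map_sub]; exact sub_eq_zero.2 hab)
      exact ⟨i, sub_eq_zero.1 (by rw [← mul_sub, hi])⟩
  exact Algebra.Etale.of_isLocalizationAway f

variable {k L R K R' K' : Type} [Field k] [Field L] [Algebra k L] [CommRing R] [IsDomain R]
  [Algebra k R] [Field K] [Algebra k K] [Algebra R K] [IsScalarTower k R K] [IsFractionRing R K]
  [CommRing R'] [IsDomain R'] [Algebra L R'] [Field K'] [Algebra L K'] [Algebra R' K']
  [IsScalarTower L R' K'] [IsFractionRing R' K']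

/-- `R'` is a component of `L ⊗ R`. -/
structure IsComp (π : L ⊗[k] R →ₐ[L] R') (ε : L ⊗[k] R) : Prop where
  surj : Function.Surjective π
  one : π ε = 1
  ker : ∀ w, π w = 0 → w * ε = 0

variable {π : L ⊗[k] R →ₐ[L] R'} {ε : L ⊗[k] R}

theorem IsComp.ne_zero (h : IsComp π ε) {r : R} (hr : r ≠ 0) : π ((1 : L) ⊗ₜ[k] r) ≠ 0 := by
  intro h0
  have h1 := mem_nonZeroDivisors_iff_left.1
    (wb_reg_tmul (L := L) (k := k) (mem_nonZeroDivisors_of_ne_zero hr)) ε (h.ker _ h0)
  exact zero_ne_one (by rw [← h.one, h1, map_zero] : (0 : R') = 1)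

theorem IsComp.exists_hom (h : IsComp π ε) (K K' : Type) [Field K] [Algebra R K]
    [IsFractionRing R K] [Field K'] [Algebra R' K'] [IsFractionRing R' K'] :
    ∃ ι : K →+* K', ∀ r, ι (algebraMap R K r) = algebraMap R' K' (π ((1 : L) ⊗ₜ[k] r)) := by
  let g : R →+* K' := (algebraMap R' K').comp (π.toRingHom.comp
    (Algebra.TensorProduct.includeRight : R →ₐ[k] L ⊗[k] R).toRingHom)
  have hg : Function.Injective g := (injective_iff_map_eq_zero g).2 fun r hr => by
    by_contra h0
    exact h.ne_zero h0 (IsFractionRing.injective R' K' (hr.trans (map_zero _).symm))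
  exact ⟨IsFractionRing.lift hg, fun r => IsFractionRing.lift_algebraMap hg r⟩

omit [IsDomain R] [IsFractionRing R K] [IsDomain R'] [IsFractionRing R' K'] in
theorem wb_hom_const {ι : K →+* K'}
    (hι : ∀ r, ι (algebraMap R K r) = algebraMap R' K' (π ((1 : L) ⊗ₜ[k] r))) (c : k) :
    ι (algebraMap k K c) = algebraMap L K' (algebraMap k L c) := by
  rw [IsScalarTower.algebraMap_apply k R K, hι, IsScalarTower.algebraMap_apply L R' K',
    ← π.commutes, Algebra.TensorProduct.algebraMap_apply, Algebra.algebraMap_eq_smul_one c,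
    Algebra.algebraMap_eq_smul_one c, TensorProduct.tmul_smul, Algebra.algebraMap_self_apply,
    TensorProduct.smul_tmul']

theorem IsComp.exists_der (h : IsComp π ε) {ι : K →+* K'}
    (hι : ∀ r, ι (algebraMap R K r) = algebraMap R' K' (π ((1 : L) ⊗ₜ[k] r)))
    (D : Derivation k K K) : ∃ D' : Derivation L K' K', ∀ y, D' (ι y) = ι (D y) := by
  let _ : Algebra k K' := ((algebraMap L K').comp (algebraMap k L)).toAlgebra
  have : IsScalarTower k L K' := IsScalarTower.of_algebraMap_eq' rfl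
  let g : K →ₐ[k] TrivSqZeroExt K' K' :=
    { toFun := fun p => TrivSqZeroExt.inl (ι p) + TrivSqZeroExt.inr (ι (D p))
      map_one' := by
        ext <;> simp
      map_mul' := fun p q => by
        ext
        · simp
        · simp [mul_comm]
      map_zero' := by
        ext <;> simp
      map_add' := fun p q => by
        ext <;> simp
      commutes' := fun c => by
        rw [TrivSqZeroExt.algebraMap_eq_inl']
        ext
        · exact (add_zero _).trans (wb_hom_const hι c)
        · simp }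
  let Φ : L ⊗[k] R →ₐ[L] TrivSqZeroExt K' K' := Algebra.TensorProduct.lift (Algebra.ofId L _)
    (g.comp (IsScalarTower.toAlgHom k R K)) fun _ _ => Commute.all _ _
  have hΦ : ∀ r, Φ ((1 : L) ⊗ₜ[k] r) = g (algebraMap R K r) := fun r => by simp [Φ]
  have h1 : ∀ w, (Φ w).fst = algebraMap R' K' (π w) := fun w => by
    have h2 : (TrivSqZeroExt.fstHom L K' K').comp Φ = (IsScalarTower.toAlgHom L R' K').comp π := by
      refine Algebra.TensorProduct.ext (Subsingleton.elim _ _) (AlgHom.ext fun r => ?_)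
      change (Φ ((1 : L) ⊗ₜ[k] r)).fst = algebraMap R' K' (π ((1 : L) ⊗ₜ[k] r))
      rw [hΦ, ← hι]
      exact add_zero _
    exact DFunLike.congr_fun h2 w
  have h2 : RingHom.ker π.toRingHom ≤ RingHom.ker Φ.toRingHom := fun w hw => by
    have h3 : IsUnit (Φ ε) := TrivSqZeroExt.isUnit_iff_isUnit_fst.2 (by
      rw [h1, h.one, map_one]
      exact isUnit_one)
    exact h3.mul_left_eq_zero.1 (by
      change Φ w * Φ ε = 0
      rw [← map_mul, h.ker w hw, map_zero])
  let Ψ : R' →ₐ[L] TrivSqZeroExt K' K' := AlgHom.liftOfSurjective π h.surj Φ h2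
  have hΨ : ∀ w, Ψ (π w) = Φ w := fun w => AlgHom.liftOfSurjective_apply ..
  have h3 : ∀ y, (Ψ y).fst = algebraMap R' K' y := fun y => by
    obtain ⟨w, rfl⟩ := h.surj y
    rw [hΨ, h1]
  have hg : ∀ y : R'⁰, IsUnit (Ψ y) := fun y =>
    TrivSqZeroExt.isUnit_iff_isUnit_fst.2 (h3 y ▸ IsLocalization.map_units K' y)
  let Θ : K' →ₐ[L] TrivSqZeroExt K' K' := IsLocalization.liftAlgHom (M := R'⁰) hg
  have hΘ : ∀ p, Θ (algebraMap R' K' p) = Ψ p := fun p => IsLocalization.lift_eq hg p
  have h4 : ∀ x, (Θ x).fst = x := fun x => by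
    have h5 : ((TrivSqZeroExt.fstHom L K' K').comp Θ).toRingHom = RingHom.id K' :=
      IsLocalization.ringHom_ext R'⁰ (RingHom.ext fun p => by
        change (Θ (algebraMap R' K' p)).fst = algebraMap R' K' p
        rw [hΘ, h3])
    exact DFunLike.congr_fun h5 x
  have h5 : Θ.toRingHom.comp ι = g.toRingHom :=
    IsLocalization.ringHom_ext R⁰ (RingHom.ext fun r => by
      change Θ (ι (algebraMap R K r)) = g (algebraMap R K r)
      rw [hι, hΘ, hΨ, hΦ])
  refine ⟨Derivation.mk' (((TrivSqZeroExt.sndHom K' K').restrictScalars L) ∘ₗ Θ.toLinearMap)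
    (fun a b => ?_), fun y => ?_⟩
  · change (Θ (a * b)).snd = a • (Θ b).snd + b • (Θ a).snd
    rw [map_mul, TrivSqZeroExt.snd_mul, h4, h4]
    simp [mul_comm]
  · exact (congrArg TrivSqZeroExt.snd (DFunLike.congr_fun h5 y)).trans (zero_add _)

omit [IsDomain R] [IsFractionRing R K] [IsDomain R'] [IsFractionRing R' K'] in
theorem wb_ch_mem {ι : K →+* K'}
    (hι : ∀ r, ι (algebraMap R K r) = algebraMap R' K' (π ((1 : L) ⊗ₜ[k] r))) {S : Set K} {y : K}
    (hy : y ∈ ch k R S) : ι y ∈ ch L R' (ι '' S) := by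
  induction hy using Algebra.adjoin_induction with
  | mem w hw =>
    rcases hw with ⟨r, rfl⟩ | hw
    · exact Algebra.subset_adjoin (Or.inl ⟨_, (hι r).symm⟩)
    · exact Algebra.subset_adjoin (Or.inr ⟨w, hw, rfl⟩)
  | algebraMap c => rw [wb_hom_const hι]; exact Subalgebra.algebraMap_mem _ _
  | add a b _ _ ha hb => rw [map_add]; exact add_mem ha hb
  | mul a b _ _ ha hb => rw [map_mul]; exact mul_mem ha hb

theorem IsComp.etC (h : IsComp π ε) {ι : K →+* K'}
    (hι : ∀ r, ι (algebraMap R K r) = algebraMap R' K' (π ((1 : L) ⊗ₜ[k] r))) {e : R} (he : e ≠ 0)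
    {n : ℕ} {z : Fin n → K} (hz : EtC (ch k R {(algebraMap R K e)⁻¹}) z) :
    EtC (ch L R' {(algebraMap R' K' (π ((1 : L) ⊗ₜ[k] e)))⁻¹}) fun l => ι (z l) := by
  have hmem : ∀ y ∈ ch k R {(algebraMap R K e)⁻¹},
      ι y ∈ ch L R' {(algebraMap R' K' (π ((1 : L) ⊗ₜ[k] e)))⁻¹} := fun y hy => by
    have := wb_ch_mem hι hy
    rwa [Set.image_singleton, map_inv₀, hι] at this
  obtain ⟨hy, het⟩ := hz
  refine ⟨fun l => hmem _ (hy l), ?_⟩
  obtain ⟨j, hj, -, ha⟩ := wb_ch_away (k := k) (IsFractionRing.injective R K) he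
  obtain ⟨j', hj', hinj', ha'⟩ := wb_ch_away (k := L) (IsFractionRing.injective R' K') (h.ne_zero he)
  generalize ch k R {(algebraMap R K e)⁻¹} = A at *
  generalize ch L R' {(algebraMap R' K' (π ((1 : L) ⊗ₜ[k] e)))⁻¹} = A' at *
  let _ : Algebra k A' := ((algebraMap L A').comp (algebraMap k L)).toAlgebra
  have : IsScalarTower k L A' := IsScalarTower.of_algebraMap_eq' rfl
  let g : A →ₐ[k] A' :=
    { (ι.comp A.val.toRingHom).codRestrict A'.toSubring (fun y => hmem y y.2) with
      commutes' := fun c => Subtype.ext (wb_hom_const hι c) }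
  let θ : L ⊗[k] A →ₐ[L] A' :=
    Algebra.TensorProduct.lift (Algebra.ofId L _) g fun _ _ => Commute.all _ _
  have hθ : ∀ y, θ ((1 : L) ⊗ₜ[k] y) = g y := fun y => by simp [θ]
  have h1 : ∀ w, θ (Algebra.TensorProduct.map (AlgHom.id L L) j w) = j' (π w) := fun w => by
    have h2 : θ.comp (Algebra.TensorProduct.map (AlgHom.id L L) j) = j'.comp π := by
      refine Algebra.TensorProduct.ext (Subsingleton.elim _ _) (AlgHom.ext fun r => ?_)
      change θ ((1 : L) ⊗ₜ[k] j r) = j' (π ((1 : L) ⊗ₜ[k] r))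
      rw [hθ]
      exact Subtype.ext (by rw [hj', ← hι, ← hj]; rfl)
    exact DFunLike.congr_fun h2 w
  obtain ⟨hu, hs, -⟩ := wb_away_tmul (L := L) ha
  have h2 : IsAway θ.toRingHom (Algebra.TensorProduct.map (AlgHom.id L L) j ε) := by
    have h3 : θ.toRingHom (Algebra.TensorProduct.map (AlgHom.id L L) j ε) = 1 :=
      (h1 ε).trans (by rw [h.one, map_one])
    refine ⟨h3 ▸ isUnit_one, fun w => ?_, fun w hw => ?_⟩
    · obtain ⟨N, x, hx⟩ := ha'.2.1 w
      obtain ⟨x, rfl⟩ := h.surj x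
      obtain ⟨υ, hυ⟩ := (hu.pow N).exists_left_inv
      refine ⟨0, υ * Algebra.TensorProduct.map (AlgHom.id L L) j x, ?_⟩
      have h4 := congrArg θ hυ
      rw [map_mul, map_pow, map_one] at h4
      have h5 : θ ((Algebra.TensorProduct.map (AlgHom.id L L) j).toRingHom ((1 : L) ⊗ₜ[k] e)) =
        j'.toRingHom (π ((1 : L) ⊗ₜ[k] e)) := h1 _
      rw [h5] at h4
      change _ = θ (υ * _)
      rw [map_mul, h1]
      have hx' : j'.toRingHom (π ((1 : L) ⊗ₜ[k] e)) ^ N * w = j' (π x) := hx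
      rw [← hx', ← mul_assoc, h4, pow_zero]
    · obtain ⟨N, x, hx⟩ := hs w
      have h4 : π x = 0 := hinj' (by
        have hw' : θ w = 0 := hw
        rw [← h1, map_zero]
        change θ ((Algebra.TensorProduct.map (AlgHom.id L L) j).toRingHom x) = 0
        rw [← hx, map_mul, hw', mul_zero])
      refine ⟨1, (hu.pow N).mul_right_eq_zero.1 ?_⟩
      rw [pow_one, mul_left_comm, hx]
      change Algebra.TensorProduct.map (AlgHom.id L L) j ε *
        Algebra.TensorProduct.map (AlgHom.id L L) j x = 0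
      rw [← map_mul, mul_comm, h.ker x h4, map_zero]
  have hc := RingHom.Etale.stableUnderComposition _ _ (wb_etale_tmul (L := L) het) h2.etale
  have heq : (MvPolynomial.aeval (fun l => (⟨ι (z l), hmem _ (hy l)⟩ : A')) :
      MvPolynomial (Fin n) L →ₐ[L] A') =
      θ.comp (MvPolynomial.aeval fun l => (1 : L) ⊗ₜ[k] (⟨z l, hy l⟩ : A)) := by
    refine MvPolynomial.algHom_ext fun l => ?_
    rw [AlgHom.comp_apply, MvPolynomial.aeval_X, MvPolynomial.aeval_X, hθ]
    rfl
  rw [heq]
  exact hc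

end Pool.Agent.Lib.MP_4287a9_ag
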