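import Pool.Agent.Lib.MP_4287a9_ag.D5
import Pool.Agent.Lib.MP_4287a9_ag.Semi

/-!
Points of fibres; semicontinuity of multiplicities (compare `Semi`).
-/

open scoped TensorProduct ENNReal NNReal nonZeroDivisors Polynomial
open Filter

namespace Pool.Agent.Lib.MP_4287a9_ag

noncomputable section

variable {B T : Type} [CommRing B] [CommRing T] [Algebra B T]

theorem pa_tmul {F : Type} [CommRing F] [Algebra B F] (τ : T →ₐ[B] F) (a : F) (x : T) :
    pa τ (a ⊗ₜ[B] x) = a * τ x := by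
  rfl

theorem pa_bm {C F : Type} [CommRing C] [Algebra B C] [CommRing F] [Algebra B F] (σ : T →ₐ[B] C)
    (χ : C →ₐ[B] F) (x : C ⊗[B] T) : pa (χ.comp σ) (bm T χ x) = χ (pa σ x) := by
  induction x with
  | zero => simp
  | add x y hx hy => simp only [map_add, hx, hy]
  | tmul a t => simp [pa_tmul]

theorem bm_bm {C F F' : Type} [CommRing C] [Algebra B C] [CommRing F] [Algebra B F] [CommRing F']
    [Algebra B F'] (χ : C →ₐ[B] F) (j : F →ₐ[B] F') (x : C ⊗[B] T) :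
    bm T j (bm T χ x) = bm T (j.comp χ) x := by
  induction x with
  | zero => simp
  | add x y hx hy => simp only [map_add, hx, hy]
  | tmul a t => simp

theorem spk_id {C : Type} [CommRing C] [Algebra B C] (𝒥 : Ideal (C ⊗[B] T)) :
    spk (AlgHom.id B C) 𝒥 = 𝒥 := by
  rw [spk, Algebra.TensorProduct.map_id]
  exact Ideal.map_id 𝒥

theorem comap_pk {C F : Type} [CommRing C] [Algebra B C] [CommRing F] [Algebra B F]
    (σ : T →ₐ[B] C) (χ : C →ₐ[B] F) (hχ : Function.Injective χ) :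
    (pk (χ.comp σ)).comap (bm T χ) = pk σ := by
  ext x
  rw [Ideal.mem_comap, pk, pk, RingHom.mem_ker, RingHom.mem_ker, pa_bm, map_eq_zero_iff _ hχ]

/-- `pk τ` is generated by the elements `1 ⊗ x - τ x ⊗ 1`. -/
theorem pk_eq_span {F : Type} [CommRing F] [Algebra B F] (τ : T →ₐ[B] F) :
    pk τ = Ideal.span (Set.range fun x : T => (1 : F) ⊗ₜ[B] x - τ x ⊗ₜ[B] (1 : T)) := by
  refine le_antisymm (fun w hw => ?_) (Ideal.span_le.2 ?_)
  · have h : ∀ w : F ⊗[B] T, w - (pa τ w) ⊗ₜ[B] (1 : T) ∈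
        Ideal.span (Set.range fun x : T => (1 : F) ⊗ₜ[B] x - τ x ⊗ₜ[B] (1 : T)) := by
      intro w
      induction w with
      | zero => simp
      | add x y hx hy =>
        rw [map_add, TensorProduct.add_tmul, add_sub_add_comm]
        exact add_mem hx hy
      | tmul a t =>
        have e : a ⊗ₜ[B] t - (pa τ (a ⊗ₜ[B] t)) ⊗ₜ[B] (1 : T) =
            (a ⊗ₜ[B] (1 : T)) * ((1 : F) ⊗ₜ[B] t - τ t ⊗ₜ[B] (1 : T)) := by
          rw [pa_tmul, mul_sub, Algebra.TensorProduct.tmul_mul_tmul,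
            Algebra.TensorProduct.tmul_mul_tmul, mul_one, one_mul, mul_one]
        rw [e]
        exact Ideal.mul_mem_left _ _ (Ideal.subset_span ⟨t, rfl⟩)
    have h1 := h w
    rwa [RingHom.mem_ker.1 hw, TensorProduct.zero_tmul, sub_zero] at h1
  · rintro _ ⟨x, rfl⟩
    change pa τ _ = 0
    rw [map_sub, pa_tmul, pa_tmul, one_mul, map_one, mul_one, sub_self]

theorem spk_pk {C F : Type} [CommRing C] [Algebra B C] [CommRing F] [Algebra B F] (σ : T →ₐ[B] C)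
    (χ : C →ₐ[B] F) : spk χ (pk σ) = pk (χ.comp σ) := by
  rw [pk_eq_span, pk_eq_span, spk, Ideal.map_span, ← Set.range_comp]
  congr 2
  funext x
  simp

theorem pk_isMaximal {F : Type} [Field F] [Algebra B F] (τ : T →ₐ[B] F) : (pk τ).IsMaximal := by
  exact RingHom.ker_isMaximal_of_surjective _ fun a => ⟨algebraMap _ _ a, (pa τ).commutes a⟩

theorem ext_ker_le_pk {C F : Type} [CommRing C] [Algebra B C] [CommRing F] [Algebra B F]
    (σ : T →ₐ[B] C) (χ : C →ₐ[B] F) : ext B F (RingHom.ker σ) ≤ pk (χ.comp σ) := by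
  refine Ideal.map_le_iff_le_comap.2 fun t ht => ?_
  change pa (χ.comp σ) ((1 : F) ⊗ₜ[B] t) = 0
  rw [pa_tmul, AlgHom.comp_apply, RingHom.mem_ker.1 ht, map_zero, mul_zero]

theorem eq_of_pk_le {F Ω : Type} [CommRing F] [Algebra B F] [CommRing Ω] [Algebra B Ω]
    (τ : T →ₐ[B] F) (j : F →ₐ[B] Ω) (τ' : T →ₐ[B] Ω) (h : pk τ ≤ (pk τ').comap (bm T j)) :
    τ' = j.comp τ := by
  ext x
  have h1 : (1 : F) ⊗ₜ[B] x - τ x ⊗ₜ[B] (1 : T) ∈ pk τ := by
    rw [pk_eq_span]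
    exact Ideal.subset_span ⟨x, rfl⟩
  have h2 : pa τ' (bm T j ((1 : F) ⊗ₜ[B] x - τ x ⊗ₜ[B] (1 : T))) = 0 := h h1
  rw [map_sub, map_sub, sub_eq_zero] at h2
  simpa [pa_tmul] using h2

theorem res_pk {F : Type} [Field F] [Algebra B F] (τ : T →ₐ[B] F)
    (y : Localization.AtPrime (pk τ)) : ∃ l : F, y - algebraMap F _ l ∈
      IsLocalRing.maximalIdeal (Localization.AtPrime (pk τ)) := by
  obtain ⟨⟨a, s⟩, rfl⟩ := IsLocalization.mk'_surjective (pk τ).primeCompl y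
  have hs : pa τ s ≠ 0 := s.2
  refine ⟨pa τ a / pa τ s, ?_⟩
  have hu : IsUnit (algebraMap (F ⊗[B] T) (Localization.AtPrime (pk τ)) s) :=
    IsLocalization.map_units _ s
  rw [← Ideal.mul_unit_mem_iff_mem _ hu, sub_mul, IsLocalization.mk'_spec,
    IsScalarTower.algebraMap_apply F (F ⊗[B] T) (Localization.AtPrime (pk τ)), ← map_mul,
    ← map_sub, IsLocalization.AtPrime.to_map_mem_maximal_iff _ (pk τ)]
  change pa τ _ = 0
  rw [map_sub, map_mul, AlgHom.commutes, Algebra.algebraMap_self, RingHom.id_apply,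
    div_mul_cancel₀ _ hs, sub_self]

theorem wsemi_loc_le {T' : Type} [CommRing T'] {m : Ideal T'} [m.IsPrime] (J : Ideal T') :
    Module.length (Localization.AtPrime m)
      (Localization.AtPrime m ⧸ J.map (algebraMap T' (Localization.AtPrime m))) ≤
      Module.length T' (T' ⧸ J) := by
  rw [Module.length_quotient, Module.length_quotient, ← WithBot.coe_le_coe,
    Order.coheight_eq_krullDim_Ici, Order.coheight_eq_krullDim_Ici]
  refine Order.krullDim_le_of_strictMono (fun I => ⟨Ideal.comap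
    (algebraMap T' (Localization.AtPrime m)) I.1, Ideal.map_le_iff_le_comap.1 I.2⟩)
    fun I I' h => ?_
  exact (IsLocalization.orderEmbedding m.primeCompl (Localization.AtPrime m)).strictMono h

theorem wsemi_length_spk {Λ F : Type} [Algebra.FiniteType B T] [CommRing Λ] [Algebra B Λ]
    [Field F] [Algebra B F] [Algebra Λ F] [IsScalarTower B Λ F] (τ : T →ₐ[B] F)
    (𝒥 : Ideal (Λ ⊗[B] T)) {k : ℕ} (h : pk τ ^ k ≤ spk (IsScalarTower.toAlgHom B Λ F) 𝒥) :
    Module.length (F ⊗[B] T) ((F ⊗[B] T) ⧸ spk (IsScalarTower.toAlgHom B Λ F) 𝒥) =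
      (Module.finrank F (F ⊗[Λ] ((Λ ⊗[B] T) ⧸ 𝒥)) : ℕ∞) := by
  rw [length_eq_finrank_of_aug (pa τ) h]
  congr 1
  refine (((Algebra.TensorProduct.tensorQuotientEquiv F (Λ ⊗[B] T) F 𝒥).trans
    (Ideal.quotientEquivAlg _ _ (Algebra.TensorProduct.cancelBaseChange B Λ F F T)
      ?_)).toLinearEquiv.finrank_eq).symm
  rw [spk]
  refine Eq.trans ?_ (Ideal.map_map (Algebra.TensorProduct.includeRight :
    Λ ⊗[B] T →ₐ[Λ] F ⊗[Λ] (Λ ⊗[B] T)).toRingHom _).symm
  change Ideal.map (Algebra.TensorProduct.map (IsScalarTower.toAlgHom B Λ F)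
    (AlgHom.id B T)).toRingHom 𝒥 = _
  congr 1
  refine RingHom.ext fun w => ?_
  induction w with
  | zero => simp
  | add x y hx hy => rw [map_add, map_add, hx, hy]
  | tmul a t => simp [Algebra.algebraMap_eq_smul_one]

/-- The length is the dimension of the fibre of the finite `Λ`-module `(Λ ⊗[B] T) / 𝒥 ^ j`
(`length_eq_finrank_of_aug`, and the global length is the local length). -/
theorem length_lo_spk [Algebra.FiniteType B T] {Λ F : Type} [CommRing Λ] [Algebra B Λ] [Field F]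
    [Algebra B F] [Algebra Λ F] [IsScalarTower B Λ F] (σ : T →ₐ[B] Λ) (𝒥 : Ideal (Λ ⊗[B] T))
    {k0 : ℕ} (h𝒥 : pk σ ^ k0 ≤ 𝒥) (j : ℕ) :
    Module.length (Localization.AtPrime (pk ((IsScalarTower.toAlgHom B Λ F).comp σ)))
      (Localization.AtPrime (pk ((IsScalarTower.toAlgHom B Λ F).comp σ)) ⧸
        lo (pk ((IsScalarTower.toAlgHom B Λ F).comp σ))
          (spk (IsScalarTower.toAlgHom B Λ F) 𝒥) ^ j) =
      (Module.finrank F (F ⊗[Λ] ((Λ ⊗[B] T) ⧸ 𝒥 ^ j)) : ℕ∞) := by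
  have h1 : pk σ ^ (k0 * j) ≤ 𝒥 ^ j := by
    rw [pow_mul]
    exact Ideal.pow_right_mono h𝒥 j
  have h2 : pk ((IsScalarTower.toAlgHom B Λ F).comp σ) ^ (k0 * j) ≤
      spk (IsScalarTower.toAlgHom B Λ F) (𝒥 ^ j) := by
    rw [← spk_pk, spk, ← Ideal.map_pow]
    exact Ideal.map_mono h1
  have e2 : lo (pk ((IsScalarTower.toAlgHom B Λ F).comp σ))
      (spk (IsScalarTower.toAlgHom B Λ F) 𝒥) ^ j =
      lo (pk ((IsScalarTower.toAlgHom B Λ F).comp σ))
        (spk (IsScalarTower.toAlgHom B Λ F) (𝒥 ^ j)) := by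
    rw [lo, lo, ← Ideal.map_pow, spk, spk, ← Ideal.map_pow]
  rw [e2, ← wsemi_length_spk ((IsScalarTower.toAlgHom B Λ F).comp σ) (𝒥 ^ j) h2]
  exact le_antisymm (wsemi_loc_le _) (length_le_length_loc (pk_isMaximal _) h2)

theorem finite_quot_pk [Algebra.FiniteType B T] {Λ : Type} [CommRing Λ] [Algebra B Λ]
    (σ : T →ₐ[B] Λ) (𝒥 : Ideal (Λ ⊗[B] T)) {k0 : ℕ} (h𝒥 : pk σ ^ k0 ≤ 𝒥) :
    Module.Finite Λ ((Λ ⊗[B] T) ⧸ 𝒥) := by
  exact semi_finite (pa σ) h𝒥

/-- `length_lo_spk`, `finrank_generic_le`. -/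
theorem mult_semicont' [Algebra.FiniteType B T] {Λ F κ : Type} [CommRing Λ] [Algebra B Λ]
    [Field F] [Algebra B F] [Field κ] [Algebra B κ] (σ : T →ₐ[B] Λ) (f : Λ →ₐ[B] F)
    (hf : Function.Injective f) (χ : Λ →ₐ[B] κ) (𝒥 : Ideal (Λ ⊗[B] T)) {k0 : ℕ}
    (h𝒥 : pk σ ^ k0 ≤ 𝒥) (n : ℕ) :
    mult n (lo (pk (f.comp σ)) (spk f 𝒥)) ≤ mult n (lo (pk (χ.comp σ)) (spk χ 𝒥)) := by
  refine mult_le_of_length n _ _ fun j => ?_
  let _ : Algebra Λ F := f.toRingHom.toAlgebra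
  let _ : Algebra Λ κ := χ.toRingHom.toAlgebra
  have : IsScalarTower B Λ F := .of_algebraMap_eq fun a => (f.commutes a).symm
  have : IsScalarTower B Λ κ := .of_algebraMap_eq fun a => (χ.commutes a).symm
  have h1 : pk σ ^ (k0 * j) ≤ 𝒥 ^ j := by
    rw [pow_mul]
    exact Ideal.pow_right_mono h𝒥 j
  have : Module.Finite Λ ((Λ ⊗[B] T) ⧸ 𝒥 ^ j) := finite_quot_pk σ _ h1
  have l1 := length_lo_spk (F := F) σ 𝒥 h𝒥 j
  have l2 := length_lo_spk (F := κ) σ 𝒥 h𝒥 j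
  refine (le_of_eq l1).trans (le_trans ?_ (le_of_eq l2.symm))
  exact_mod_cast finrank_generic_le (k := F) (κ := κ) hf

end

end Pool.Agent.Lib.MP_4287a9_ag
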