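import Pool.Agent.Lib.MP_4287a9_ag.WBd0
import Pool.Agent.Lib.MP_4287a9_ag.WSemi

/-!
Base change of a model.
-/

open scoped TensorProduct ENNReal NNReal nonZeroDivisors Polynomial
open Filter

namespace Pool.Agent.Lib.MP_4287a9_ag

noncomputable section

theorem Mdl.baseChange {k L B T : Type} [Field k] [CharZero k] [Field L] [CommRing B] [Algebra B k]
    [Algebra B L] [Algebra k L] [IsScalarTower B k L] [Algebra.EssFiniteType k L] [CommRing T]
    [Algebra B T] {n r : ℕ} {𝔡 : Ideal T} (μ : Mdl k (k ⊗[B] T) n (ext B k 𝔡) r)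
    (𝔮 : Ideal (L ⊗[B] T)) [𝔮.IsPrime] (h : bm T (IsScalarTower.toAlgHom B k L) μ.f ∉ 𝔮) :
    ∃ μ' : Mdl L (L ⊗[B] T) n (ext B L 𝔡) r, μ'.f ∉ 𝔮 ∧
      bm T (IsScalarTower.toAlgHom B k L) μ.f ∣ μ'.f := by
  have hφ : ∀ x, (bm T (IsScalarTower.toAlgHom B k L)).toRingHom x =
      Algebra.TensorProduct.cancelBaseChange B k L L T ((1 : L) ⊗ₜ[k] x) := fun x => by
    induction x with
    | zero => simp
    | add a b ha hb => rw [map_add, ha, hb, TensorProduct.tmul_add, map_add]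
    | tmul a y => simp [Algebra.smul_def]
  have he : (ext B k 𝔡).map (bm T (IsScalarTower.toAlgHom B k L)).toRingHom = ext B L 𝔡 := by
    change (𝔡.map (Algebra.TensorProduct.includeRight : T →ₐ[B] k ⊗[B] T).toRingHom).map _ =
      𝔡.map (Algebra.TensorProduct.includeRight : T →ₐ[B] L ⊗[B] T).toRingHom
    rw [Ideal.map_map]
    congr 1
    ext x
    simp
  obtain ⟨μ', -, -, h1, h2, -⟩ := μ.exists_bc _ hφ 𝔮 h
  rw [← he]
  exact ⟨μ', h1, h2⟩

end

end Pool.Agent.Lib.MP_4287a9_ag
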