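import Pool.Agent.Lib.MP_4287a9_ag.WBc0

/-!
Base change of models along a field extension.
-/

open scoped TensorProduct nonZeroDivisors

namespace Pool.Agent.Lib.MP_4287a9_ag

section

variable {k L R K R' K' : Type} [Field k] [Field L] [Algebra k L] [CommRing R] [IsDomain R]
  [Algebra k R] [Field K] [Algebra k K] [Algebra R K] [IsScalarTower k R K] [IsFractionRing R K]
  [CommRing R'] [IsDomain R'] [Algebra L R'] [Field K'] [Algebra L K'] [Algebra R' K']
  [IsScalarTower L R' K'] [IsFractionRing R' K'] {π : L ⊗[k] R →ₐ[L] R'} {ε : L ⊗[k] R}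

/-- The map `R → R'`. -/
noncomputable def wbIn (π : L ⊗[k] R →ₐ[L] R') : R →+* R' :=
  π.toRingHom.comp (Algebra.TensorProduct.includeRight : R →ₐ[k] L ⊗[k] R).toRingHom

/-- The transported data. -/
noncomputable def CD.bc {n : ℕ} (c : CD k R K n) (π : L ⊗[k] R →ₐ[L] R') (ι : K →+* K')
    (D' : Fin n → Derivation L K' K') : CD L R' K' n where
  x l := wbIn π (c.x l)
  D := D'
  M := c.M
  u := ι c.u
  ne := c.ne
  e i := wbIn π (c.e i)
  z i l := ι (c.z i l)
  e1 := wbIn π c.e1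
  e2 := wbIn π c.e2

theorem wb_jac {k L K K' : Type} [CommRing k] [CommRing L] [CommRing K] [CommRing K'] [Algebra k K]
    [Algebra L K'] {n : ℕ} {ι : K →+* K'} {D : Fin n → Derivation k K K}
    {D' : Fin n → Derivation L K' K'} (h : ∀ i y, D' i (ι y) = ι (D i y)) (z : Fin n → K) :
    jac D' (fun l => ι (z l)) = ι (jac D z) := by
  rw [jac, jac, RingHom.map_det]
  congr 1
  ext i l
  simp [h]

theorem IsComp.good (h : IsComp π ε) {ι : K →+* K'}
    (hι : ∀ r, ι (algebraMap R K r) = algebraMap R' K' (π ((1 : L) ⊗ₜ[k] r))) {n : ℕ}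
    {c : CD k R K n} {𝔡 : Ideal R} {r : ℕ} (hc : c.Good 𝔡 r) {D' : Fin n → Derivation L K' K'}
    (hD : ∀ i y, D' i (ι y) = ι (c.D i y)) : (c.bc π ι D').Good (𝔡.map (wbIn π)) r := by
  have hι' : ∀ r, algebraMap R' K' (wbIn π r) = ι (algebraMap R K r) := fun r => (hι r).symm
  have hsp : ∀ x ∈ Ideal.span (Set.range c.e),
      wbIn π x ∈ Ideal.span (Set.range fun i => wbIn π (c.e i)) := fun x hx => by
    have := Ideal.mem_map_of_mem (wbIn π) hx
    rwa [Ideal.map_span, ← Set.range_comp] at this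
  have hj : ∀ i, (c.bc π ι D').u * jac (c.bc π ι D').D ((c.bc π ι D').z i) ^ (r * c.M) =
      ι (c.u * jac c.D (c.z i) ^ (r * c.M)) := fun i => by
    rw [map_mul, map_pow, ← wb_jac hD]
    rfl
  refine ⟨fun a => ?_, fun i l => ?_, hc.hM, (map_ne_zero ι).2 hc.hu, fun i => h.ne_zero (hc.he i),
    fun i => h.etC hι (hc.he i) (hc.het i), fun i => ?_, fun i d hd => ?_, h.ne_zero hc.he0,
    hsp _ hc.he1, hsp _ hc.he2, fun w hw => ?_⟩
  · have hmem : ∀ y ∈ Algebra.adjoin k (Set.range c.x),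
        wbIn π y ∈ Algebra.adjoin L (Set.range (c.bc π ι D').x) := by
      intro y hy
      induction hy using Algebra.adjoin_induction with
      | mem w hw =>
        obtain ⟨l, rfl⟩ := hw
        exact Algebra.subset_adjoin ⟨l, rfl⟩
      | algebraMap a =>
        have : wbIn π (algebraMap k R a) = algebraMap L R' (algebraMap k L a) := by
          rw [← π.commutes]
          exact congrArg π ((Algebra.TensorProduct.includeRight : R →ₐ[k] L ⊗[k] R).commutes a)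
        rw [this]
        exact Subalgebra.algebraMap_mem _ _
      | add a b _ _ ha hb => rw [map_add]; exact add_mem ha hb
      | mul a b _ _ ha hb => rw [map_mul]; exact mul_mem ha hb
    obtain ⟨w, rfl⟩ := h.surj a
    induction w with
    | zero => rw [map_zero]; exact isIntegral_zero
    | add a b ha hb => rw [map_add]; exact ha.add hb
    | tmul l y =>
      have h1 : π (l ⊗ₜ[k] y) = algebraMap L R' l * wbIn π y := by
        rw [← π.commutes]
        change _ = π _ * π ((1 : L) ⊗ₜ[k] y)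
        rw [← map_mul]
        simp
      rw [h1]
      refine (isIntegral_algebraMap (x := (⟨_, Subalgebra.algebraMap_mem _ l⟩ :
        Algebra.adjoin L (Set.range (c.bc π ι D').x)))).mul ?_
      exact (hc.hint y).map_of_comp_eq (((wbIn π).comp
        (Algebra.adjoin k (Set.range c.x)).val.toRingHom).codRestrict
        (Algebra.adjoin L (Set.range (c.bc π ι D').x)).toSubring fun y => hmem y y.2) (wbIn π)
        (RingHom.ext fun _ => rfl)
  · change D' i (algebraMap R' K' (wbIn π (c.x l))) = _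
    rw [hι', hD, hc.dual i l]
    split_ifs <;> simp
  · obtain ⟨N, d, hd, he⟩ := hc.hed i
    refine ⟨N, wbIn π d, ?_, ?_⟩
    · change _ ∈ _ ^ c.M
      rw [← Ideal.map_pow]
      exact Ideal.mem_map_of_mem _ hd
    · change algebraMap R' K' (wbIn π (c.e i)) ^ N * (_ * _ ^ (r * c.M)) = _
      rw [hj, hι', hι', ← he, map_mul ι (_ ^ N), map_pow ι]
  · change _ / (_ * _ ^ (r * c.M)) ∈ ch L R' {(algebraMap R' K' (wbIn π (c.e i)))⁻¹}
    change _ ∈ _ ^ c.M at hd
    rw [← Ideal.map_pow] at hd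
    rw [hj]
    induction hd using Submodule.span_induction with
    | mem d hd =>
      obtain ⟨d, hd, rfl⟩ := hd
      have := wb_ch_mem hι (hc.hde i d hd)
      rwa [Set.image_singleton, map_inv₀, map_div₀, ← hι', ← hι'] at this
    | zero => rw [map_zero, zero_div]; exact zero_mem _
    | add a b _ _ ha hb => rw [map_add, add_div]; exact add_mem ha hb
    | smul a b _ hb =>
      rw [smul_eq_mul, map_mul, mul_div_assoc]
      exact mul_mem (Algebra.subset_adjoin (Or.inl ⟨a, rfl⟩)) hb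
  · obtain ⟨w, rfl⟩ := h.surj w
    obtain ⟨v, hv⟩ := hw
    obtain ⟨v, rfl⟩ := h.surj v
    have h1 := h.ker ((1 : L) ⊗ₜ[k] c.e2 * w - (1 : L) ⊗ₜ[k] c.e1 * v) (by
      rw [map_sub, map_mul, map_mul]
      exact sub_eq_zero.2 hv)
    obtain ⟨y, hy⟩ := wb_hreg_tmul hc.hreg (w * ε) ⟨v * ε, by linear_combination h1⟩
    refine ⟨π y, ?_⟩
    have h2 := congrArg π hy
    rwa [map_mul, map_mul, h.one, mul_one] at h2

end

/-- Etale charts in codimension one make `R` normal. -/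
theorem CD.Good.normal {k R K : Type} [Field k] [CommRing R] [IsDomain R] [Algebra k R] [Field K]
    [Algebra k K] [Algebra R K] [IsScalarTower k R K] [IsFractionRing R K] {n : ℕ} {c : CD k R K n}
    {𝔡 : Ideal R} {r : ℕ} (h : c.Good 𝔡 r) : IsIntegrallyClosed R := by
  refine wb_normal_of_charts c.e (mem_nonZeroDivisors_of_ne_zero h.he0) h.he1 h.he2 h.hreg
    fun i => ?_
  obtain ⟨j, -, hj, ha⟩ := wb_ch_away (k := k) (IsFractionRing.injective R K) (h.he i)
  obtain ⟨hy, het⟩ := h.het i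
  refine ⟨_, inferInstance, _, ?_, hj, ha⟩
  algebraize [(MvPolynomial.aeval (fun l => (⟨c.z i l, hy l⟩ :
    ch k R {(algebraMap R K (c.e i))⁻¹})) : MvPolynomial (Fin n) k →ₐ[k] _).toRingHom]
  exact wb_normal_of_etale (A := MvPolynomial (Fin n) k)

theorem IsAway.exists_prime {P T : Type} [CommRing P] [CommRing T] {ρ : P →+* T} {f : P}
    (h : IsAway ρ f) (m : Ideal P) [hm : m.IsPrime] (hf : f ∉ m) :
    ∃ 𝔫 : Ideal T, 𝔫.IsPrime ∧ 𝔫.comap ρ = m := by
  algebraize [ρ]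
  have : IsLocalization.Away f T := by
    refine IsLocalization.Away.mk _ h.1 (fun z => ?_) fun a b hab => ?_
    · obtain ⟨i, x, hx⟩ := h.2.1 z
      exact ⟨i, x, (mul_comm _ _).trans hx⟩
    · obtain ⟨i, hi⟩ := h.2.2 (a - b) (by rw [map_sub]; exact sub_eq_zero.2 hab)
      exact ⟨i, sub_eq_zero.1 (by rw [← mul_sub, hi])⟩
  have hd : Disjoint (Submonoid.powers f : Set P) m := by
    rw [Set.disjoint_left]
    rintro _ ⟨i, rfl⟩ hi
    exact hf (hm.mem_of_pow_mem i hi)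
  exact ⟨m.map (algebraMap P T), IsLocalization.isPrime_of_isPrime_disjoint _ T m hm hd,
    IsLocalization.under_map_of_isPrime_disjoint _ T hm hd⟩

/-- Base change of a model to the component through a given prime. -/
theorem Mdl.exists_bc {k L P P' : Type} [Field k] [Field L] [Algebra k L] [CommRing P] [Algebra k P]
    [CommRing P'] [Algebra L P'] {n r : ℕ} {𝔡 : Ideal P} (μ : Mdl k P n 𝔡 r)
    (E : L ⊗[k] P ≃ₐ[L] P') {φ : P →+* P'} (hφ : ∀ x, φ x = E ((1 : L) ⊗ₜ[k] x)) (m : Ideal P')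
    [hm : m.IsPrime] (hf : φ μ.f ∉ m) :
    ∃ (μ' : Mdl L P' n (𝔡.map φ) r) (α : μ.R →+* μ'.R) (ι : μ.K →+* μ'.K), μ'.f ∉ m ∧
      φ μ.f ∣ μ'.f ∧ (∀ x, α (μ.ρ x) = μ'.ρ (φ x)) ∧
      (∀ a, ι (algebraMap μ.R μ.K a) = algebraMap μ'.R μ'.K (α a)) ∧
      (∀ i y, μ'.c.D i (ι y) = ι (μ.c.D i y)) ∧ μ'.c.M = μ.c.M ∧ μ'.c.u = ι μ.c.u := by
  obtain ⟨h1, h2⟩ := μ.good.tmul_normal (IsFractionRing.injective μ.R μ.K) L
  have : IsNoetherianRing (L ⊗[k] μ.R) := Algebra.FiniteType.isNoetherianRing L _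
  let ψ : P' →ₐ[L] L ⊗[k] μ.R := (Algebra.TensorProduct.map (AlgHom.id L L) μ.ρ).comp E.symm
  have hψ : ∀ x, ψ (φ x) = (1 : L) ⊗ₜ[k] μ.ρ x := fun x => by simp [ψ, hφ]
  have ha : IsAway ψ.toRingHom (φ μ.f) := by
    obtain ⟨hu, hs, hk⟩ := wb_away_tmul (L := L) μ.away
    refine ⟨(hψ _).symm ▸ hu, fun w => ?_, fun x hx => ?_⟩
    · obtain ⟨i, x, hx⟩ := hs w
      refine ⟨i, E x, ?_⟩
      change ψ _ ^ i * w = ψ (E x)
      rw [hψ]
      simpa [ψ] using hx
    · obtain ⟨i, hi⟩ := hk (E.symm x) hx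
      refine ⟨i, E.symm.injective ?_⟩
      rw [map_mul, map_pow, hφ, E.symm_apply_apply, hi, map_zero]
  obtain ⟨𝔫, h𝔫, hc⟩ := ha.exists_prime m hf
  obtain ⟨𝔭, ε, h𝔭, hε, hε1, hε0⟩ := wb_component 𝔫
  obtain ⟨hu, hs, hk⟩ := ha
  obtain ⟨N, g, hg⟩ := hs ε
  have hgm : g ∉ m := fun h0 => by
    rw [← hc, Ideal.mem_comap, ← hg] at h0
    exact hε ((Ideal.unit_mul_mem_iff_mem 𝔫 (hu.pow N)).1 h0)
  let π := Ideal.Quotient.mkₐ L 𝔭
  have hπ : IsComp π ε := ⟨Ideal.Quotient.mk_surjective,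
    (Ideal.Quotient.eq.2 hε1).symm, fun w hw => hε0 w (Ideal.Quotient.eq_zero_iff_mem.1 hw)⟩
  obtain ⟨ι, hι⟩ := hπ.exists_hom μ.K (FractionRing ((L ⊗[k] μ.R) ⧸ 𝔭))
  choose D' hD' using fun i => hπ.exists_der hι (μ.c.D i)
  have hgood := hπ.good hι μ.good hD'
  have hρ : ∀ x, wbIn π (μ.ρ x) = (π.comp ψ) (φ x) := fun x => by
    rw [AlgHom.comp_apply, hψ]
    rfl
  have hid : (𝔡.map μ.ρ).map (wbIn π) = (𝔡.map φ).map (π.comp ψ) := by
    change (𝔡.map μ.ρ.toRingHom).map (wbIn π) = (𝔡.map φ).map (π.comp ψ).toRingHom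
    rw [Ideal.map_map, Ideal.map_map]
    congr 1
    exact RingHom.ext hρ
  have hg' : π (ψ (φ μ.f)) ^ N = π (ψ g) := by
    have h3 := congrArg π hg
    rwa [map_mul, map_pow, hπ.one, mul_one] at h3
  have haw : IsAway (π.comp ψ).toRingHom (φ μ.f * g) := by
    refine ⟨?_, fun w => ?_, fun x hx => ?_⟩
    · change IsUnit (π (ψ (φ μ.f * g)))
      rw [map_mul, map_mul, ← hg']
      exact (hu.map π).mul ((hu.map π).pow N)
    · obtain ⟨w, rfl⟩ := hπ.surj w
      obtain ⟨i, x, hx⟩ := hs w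
      refine ⟨i, g ^ i * x, ?_⟩
      have hx' : ψ (φ μ.f) ^ i * w = ψ x := hx
      change π (ψ (φ μ.f * g)) ^ i * π w = π (ψ (g ^ i * x))
      simp only [map_mul, map_pow, ← hx']
      ring
    · obtain ⟨i, hi⟩ := hk (g * x) (by
        have hg2 : ψ (φ μ.f) ^ N * ε = ψ g := hg
        change ψ (g * x) = 0
        rw [map_mul, ← hg2, mul_assoc, mul_comm ε, hπ.ker (ψ x) hx, mul_zero])
      exact ⟨i + 1, by linear_combination φ μ.f * g ^ i * hi⟩
  have := hgood.normal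
  let μ' : Mdl L P' n (𝔡.map φ) r :=
    { R := (L ⊗[k] μ.R) ⧸ 𝔭
      K := FractionRing ((L ⊗[k] μ.R) ⧸ 𝔭)
      ρ := π.comp ψ
      f := φ μ.f * g
      away := haw
      c := μ.c.bc π ι D'
      good := hid ▸ hgood }
  exact ⟨μ', wbIn π, ι, fun h0 => (hm.mem_or_mem h0).elim hf hgm, dvd_mul_right _ _, hρ, hι, hD',
    rfl, rfl⟩

end Pool.Agent.Lib.MP_4287a9_ag
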