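import Pool.Agent.Lib.MP_4287a9_ag.WVb
import Pool.Agent.Lib.MP_4287a9_ag.Hart
import Pool.Agent.Lib.MP_4287a9_ag.WBb0

/-!
Charts in codimension one.
-/

open scoped TensorProduct ENNReal NNReal nonZeroDivisors Polynomial
open Filter

namespace Pool.Agent.Lib.MP_4287a9_ag

noncomputable section

variable {F R K : Type} [Field F] [CharZero F] [CommRing R] [IsDomain R] [IsIntegrallyClosed R]
  [Field K] [Algebra F R] [Algebra F K] [Algebra R K] [IsScalarTower F R K] [IsFractionRing R K]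
  [Algebra.FiniteType F R]

/-- The localization at a height one prime. -/
theorem exists_isDiv_of_height [IsNoetherianRing R] {P : Ideal R} (hP : P.IsPrime)
    (h1 : P.height = 1) : ∃ O : ValuationSubring K, IsDiv R ∅ O ∧
      ∀ a : R, a ∉ P ↔ a ≠ 0 ∧ (algebraMap R K a)⁻¹ ∈ O := by
  have hinj := IsFractionRing.injective R K
  let T := Localization.subalgebra.ofField K _ P.primeCompl_le_nonZeroDivisors
  have : IsLocalRing T := IsLocalization.AtPrime.isLocalRing T P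
  have : IsNoetherianRing T := IsLocalization.isNoetherianRing P.primeCompl T inferInstance
  have h2 : IsIntegrallyClosed T :=
    isIntegrallyClosed_of_isLocalization T P.primeCompl P.primeCompl_le_nonZeroDivisors
  have h3 : ringKrullDim T = 1 := by
    rw [IsLocalization.AtPrime.ringKrullDim_eq_height P T, h1]
    rfl
  have : Ring.KrullDimLE 1 T := Ring.krullDimLE_iff.2 h3.le
  have h4 : ¬ IsField T := fun h => by
    rw [ringKrullDim_eq_zero_of_isField h] at h3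
    exact zero_ne_one h3
  have h5 : IsDiscreteValuationRing T := ((IsDiscreteValuationRing.TFAE T h4).out 3 0).1
    (And.intro h2 (ExistsUnique.intro (IsLocalRing.maximalIdeal T)
      ⟨IsLocalRing.isField_iff_maximalIdeal_eq.not.1 h4, inferInstance⟩
      fun Q (hQ : Q ≠ ⊥ ∧ Q.IsPrime) =>
        IsLocalRing.eq_maximalIdeal (hQ.2.isMaximal_of_ne_bot hQ.1)))
  have h6 : ∀ s ∉ P, algebraMap R K s ≠ 0 := fun s hs h0 =>
    hs (hinj (h0.trans (map_zero _).symm) ▸ P.zero_mem)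
  have h7 : ∀ a : R, algebraMap R K a ∈ Algebra.adjoin R ((∅ : Finset K) : Set K) :=
    fun a => algebraMap_mem _ a
  refine ⟨.ofSubring T.toSubring fun y => by
    simpa [IsLocalization.IsInteger] using ValuationRing.isInteger_or_isInteger T y,
    ⟨h5, fun a ha => (Algebra.adjoin_le (by simp) : _ ≤ T) ha, ?_⟩, fun a => ⟨fun ha =>
      ⟨fun h0 => ha (h0 ▸ P.zero_mem), 1, a, ha, by simp⟩, ?_⟩⟩
  · rintro _ ⟨a, s, hs, rfl⟩
    refine ⟨_, h7 s, h6 s hs, ⟨1, s, hs, by simp⟩, ?_⟩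
    rw [mul_left_comm, mul_inv_cancel₀ (h6 s hs), mul_one]
    exact h7 a
  · rintro ⟨h0, b, s, hs, he⟩ ha
    have h8 : algebraMap R K a ≠ 0 := fun h => h0 (hinj (h.trans (map_zero _).symm))
    have h9 : s = a * b := hinj (by
      rw [map_mul, ← mul_inv_cancel_right₀ (h6 s hs) (algebraMap R K b), mul_right_comm, ← he,
        mul_inv_cancel_left₀ h8])
    exact hs (h9 ▸ P.mul_mem_right b ha)

omit [CharZero F] [IsIntegrallyClosed R] [IsScalarTower F R K] [Algebra.FiniteType F R]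
  [Algebra F R] [IsDomain R] in
theorem wca_inv_mem {b e : R} (h : b ∣ e) (he : e ≠ 0) :
    (algebraMap R K b)⁻¹ ∈ ch F R {(algebraMap R K e)⁻¹} := by
  obtain ⟨c, rfl⟩ := h
  have hc : algebraMap R K c ≠ 0 :=
    (map_ne_zero_iff _ (IsFractionRing.injective R K)).2 (right_ne_zero_of_mul he)
  have : (algebraMap R K b)⁻¹ = algebraMap R K c * (algebraMap R K (b * c))⁻¹ := by
    rw [map_mul, mul_inv, mul_left_comm, mul_inv_cancel₀ hc, mul_one]
  rw [this]
  exact mul_mem (Algebra.subset_adjoin (Or.inl ⟨c, rfl⟩)) (Algebra.subset_adjoin (Or.inr rfl))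

omit [CharZero F] [IsIntegrallyClosed R] [Algebra.FiniteType F R] in
theorem wca_etC {b e : R} (h : b ∣ e) (he : e ≠ 0) {n : ℕ} {z : Fin n → K}
    (hz : EtC (ch F R {(algebraMap R K b)⁻¹}) z) : EtC (ch F R {(algebraMap R K e)⁻¹}) z := by
  have hinj := IsFractionRing.injective R K
  refine hz.of_away (Algebra.adjoin_le ?_) (Algebra.subset_adjoin (Or.inl ⟨e, rfl⟩))
    ⟨_, Algebra.subset_adjoin (Or.inr rfl), mul_inv_cancel₀ ((map_ne_zero_iff _ hinj).2 he)⟩
    fun w hw => ?_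
  · rintro _ (⟨a, rfl⟩ | rfl)
    · exact Algebra.subset_adjoin (Or.inl ⟨a, rfl⟩)
    · exact wca_inv_mem h he
  · obtain ⟨j, hj, -, -, hs, -⟩ := wb_ch_away (k := F) hinj he
    obtain ⟨i, a, ha⟩ := hs ⟨w, hw⟩
    have h1 : (j e : K) ^ i * w = j a := congrArg Subtype.val ha
    rw [hj, hj] at h1
    exact ⟨i, h1 ▸ Algebra.subset_adjoin (Or.inl ⟨a, rfl⟩)⟩

/-- A good chart near a height one prime. -/
theorem wca_chart {n : ℕ} {x : Fin n → R} {D : Fin n → Derivation F K K}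
    (hx : ∀ a : R, IsIntegral (Algebra.adjoin F (Set.range x)) a)
    (hD : DualD D fun l => algebraMap R K (x l)) {𝔡 : Ideal R} (h𝔡 : 𝔡 ≠ ⊥) {r M : ℕ}
    (hr : 0 < r) (hM : 0 < M) {u : K} (hu : u ≠ 0)
    (h : ∀ O : ValuationSubring K, IsDiv R ∅ O →
      ldisc D u (r * M) O = 1 - (ordS O (algebraMap R K '' 𝔡) : ℝ) / r)
    {P : Ideal R} (hP : P.IsPrime) (h1 : P.height = 1) :
    ∃ e ∉ P, ∃ z : Fin n → K, EtC (ch F R {(algebraMap R K e)⁻¹}) z ∧
      (∃ k : ℕ, ∃ d ∈ 𝔡 ^ M,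
        algebraMap R K e ^ k * (u * jac D z ^ (r * M)) = algebraMap R K d) ∧
      ∀ d ∈ 𝔡 ^ M, algebraMap R K d / (u * jac D z ^ (r * M)) ∈
        ch F R {(algebraMap R K e)⁻¹} := by
  classical
  have hinj := IsFractionRing.injective R K
  have : IsNoetherianRing R := Algebra.FiniteType.isNoetherianRing F R
  obtain ⟨O, hO, hOP⟩ := exists_isDiv_of_height (K := K) hP h1
  have hbot : ∀ w ∈ Algebra.adjoin R ((∅ : Finset K) : Set K), ∃ a, algebraMap R K a = w := by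
    intro w hw
    rwa [Finset.coe_empty, Algebra.adjoin_empty, Algebra.mem_bot] at hw
  have hloc : ∀ w ∈ O, ∃ b ∉ P, ∃ a, algebraMap R K b * w = algebraMap R K a := fun w hw => by
    obtain ⟨b, hb, hb0, hb1, hb2⟩ := hO.2.2 w hw
    obtain ⟨b, rfl⟩ := hbot b hb
    obtain ⟨a, ha⟩ := hbot _ hb2
    exact ⟨b, (hOP b).2 ⟨fun h0 => hb0 (by rw [h0, map_zero]), hb1⟩, a, ha.symm⟩
  obtain ⟨e, z, -, -, he, he0, he1, hz, -⟩ := hO.exists_chart hx hD
  obtain ⟨e, rfl⟩ := hbot e he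
  have heP : e ∉ P := (hOP e).2 ⟨fun h0 => he0 (by rw [h0, map_zero]), he1⟩
  rw [Finset.coe_empty, Set.empty_union] at hz
  have hJ := jac_ne_zero hD hz
  have hJ1 := hO.ordS_jacs hD (by simp) (by rintro _ rfl; exact he1) hz
  obtain ⟨_, ⟨d₀, hd₀, rfl⟩, hy0, hy⟩ := exists_gen hO.1 (Z := algebraMap R K '' 𝔡) one_ne_zero
    (by rintro _ ⟨a, -, rfl⟩; rw [div_one]; exact hO.base a) (by
      obtain ⟨a, ha, ha0⟩ := Submodule.exists_mem_ne_zero_of_ne_bot h𝔡
      exact ⟨_, ⟨a, ha, rfl⟩, (map_ne_zero_iff _ hinj).2 ha0⟩)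
  have hv0 : u * jac D z ^ (r * M) ≠ 0 := mul_ne_zero hu (pow_ne_zero _ hJ)
  have hord : ordS O {u * jac D z ^ (r * M)} = ordS O {algebraMap R K d₀ ^ M} := by
    have h2 := h O hO
    rw [ldisc, hJ1, ordS_eq_of_gen (Set.mem_image_of_mem _ hd₀) hy hy0] at h2
    rw [ordS_mul hO.1 hu (pow_ne_zero _ hJ), ← zpow_natCast, ← zpow_natCast, ordS_zpow hO.1 hJ,
      ordS_zpow hO.1 hy0]
    have h3 : (r : ℝ) ≠ 0 := by positivity
    have h4 : (M : ℝ) ≠ 0 := by positivity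
    apply Int.cast_injective (α := ℝ)
    push_cast at h2 ⊢
    field_simp at h2
    linear_combination -h2
  generalize hv : u * jac D z ^ (r * M) = v at hv0 hord
  have h2 := (ordS_le_iff hO.1 hv0 (pow_ne_zero M hy0)).1 hord.le
  have h3 := (ordS_le_iff hO.1 (pow_ne_zero M hy0) hv0).1 hord.ge
  have h4 : ∀ N : ℕ, ∀ d ∈ 𝔡 ^ N, algebraMap R K d / algebraMap R K d₀ ^ N ∈ O := by
    intro N
    induction N with
    | zero => intro d _; simpa using hO.base d
    | succ N ih =>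
      intro d hd
      rw [pow_succ] at hd
      refine Submodule.mul_induction_on hd (fun a ha b hb => ?_) fun a b ha hb => ?_
      · rw [map_mul, pow_succ, ← div_mul_div_comm]
        exact mul_mem (ih a ha) (hy _ ⟨b, hb, rfl⟩)
      · rw [map_add, add_div]
        exact add_mem ha hb
  obtain ⟨T, hT⟩ : (𝔡 ^ M).FG := IsNoetherian.noetherian _
  choose b hb a ha using fun g : T => hloc (algebraMap R K g / v) (by
    have h5 := mul_mem (h4 M g (hT ▸ Ideal.subset_span g.2)) h2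
    rwa [div_mul_div_cancel₀ (pow_ne_zero M hy0)] at h5)
  obtain ⟨b₁, hb₁, a₁, ha₁⟩ := hloc _ h3
  have hB : (e * ∏ g, b g) * b₁ ∉ P :=
    P.primeCompl.mul_mem (P.primeCompl.mul_mem heP (P.primeCompl.prod_mem fun g _ => hb g)) hb₁
  have hB0 : (e * ∏ g, b g) * b₁ ≠ 0 := fun h0 => hB (h0 ▸ P.zero_mem)
  refine ⟨_, hB, z, wca_etC ((dvd_mul_right _ _).mul_right _) hB0 hz, ⟨1, (e * ∏ g, b g) * a₁ *
    d₀ ^ M, Ideal.mul_mem_left _ _ (Ideal.pow_mem_pow hd₀ M), ?_⟩, fun d hd => ?_⟩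
  · rw [hv, pow_one, map_mul _ _ b₁, map_mul _ _ (d₀ ^ M), map_mul _ _ a₁, ← ha₁, map_pow]
    field_simp
  · rw [← hT] at hd
    rw [hv]
    induction hd using Submodule.span_induction with
    | mem g hg =>
      have h5 : algebraMap R K (b ⟨g, hg⟩) ≠ 0 :=
        (map_ne_zero_iff _ hinj).2 fun h0 => hb ⟨g, hg⟩ (h0 ▸ P.zero_mem)
      rw [← inv_mul_cancel_left₀ h5 (algebraMap R K g / v), ha ⟨g, hg⟩]
      exact mul_mem (wca_inv_mem (((Finset.dvd_prod_of_mem b (Finset.mem_univ _)).mul_left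
        _).mul_right _) hB0) (Algebra.subset_adjoin (Or.inl ⟨_, rfl⟩))
    | zero => rw [map_zero, zero_div]; exact zero_mem _
    | add a b _ _ ha hb => rw [map_add, add_div]; exact add_mem ha hb
    | smul a b _ hb =>
      rw [smul_eq_mul, map_mul _ a b, mul_div_assoc]
      exact mul_mem (Algebra.subset_adjoin (Or.inl ⟨a, rfl⟩)) hb

omit [IsIntegrallyClosed R] in
theorem wca_height {n : ℕ} {x : Fin n → R} {D : Fin n → Derivation F K K}
    (hD : DualD D fun l => algebraMap R K (x l)) (hn : 1 ≤ n) :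
    ∃ P : Ideal R, P.IsPrime ∧ P.height = 1 := by
  have : IsNoetherianRing R := Algebra.FiniteType.isNoetherianRing F R
  have h1 : ¬ IsField R := fun hR => by
    have h2 : Module.Finite F R :=
      let _ := hR.toField
      finite_of_finite_type_of_isJacobsonRing F R
    have h3 := deriv_eq_zero_of_int (x := (Fin.elim0 : Fin 0 → R))
      (fun a => (IsIntegral.of_finite F a).tower_top) (D ⟨0, hn⟩) fun l => l.elim0
    have h4 := hD ⟨0, hn⟩ ⟨0, hn⟩
    rw [h3, if_pos rfl] at h4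
    exact zero_ne_one h4
  obtain ⟨a, ha0, ha⟩ := Ring.exists_not_isUnit_of_not_isField h1
  obtain ⟨m, hm, hle⟩ := Ideal.exists_le_maximal _ (Ideal.span_singleton_ne_top ha)
  obtain ⟨P, hP, -⟩ := Ideal.exists_minimalPrimes_le hle
  refine ⟨P, hP.1.1, le_antisymm
    (Ideal.height_le_one_of_isPrincipal_of_mem_minimalPrimes _ P hP)
    (Order.one_le_iff_ne_zero.2 fun h0 => ha0 ?_)⟩
  have := hP.1.1
  have h2 := hP.1.2 (Ideal.mem_span_singleton_self a)
  rwa [Ideal.height_eq_zero_iff_eq_bot.1 h0] at h2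

/-- The ideal generated by the denominators of the good charts is generated by finitely many of
them and lies in no height one prime. -/
theorem exists_cd {n : ℕ} {x : Fin n → R} {D : Fin n → Derivation F K K}
    (hx : ∀ a : R, IsIntegral (Algebra.adjoin F (Set.range x)) a)
    (hD : DualD D fun l => algebraMap R K (x l)) (hn : 1 ≤ n) {𝔡 : Ideal R} (h𝔡 : 𝔡 ≠ ⊥) {r M : ℕ}
    (hr : 0 < r) (hM : 0 < M) {u : K} (hu : u ≠ 0)
    (h : ∀ O : ValuationSubring K, IsDiv R ∅ O →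
      ldisc D u (r * M) O = 1 - (ordS O (algebraMap R K '' 𝔡) : ℝ) / r) :
    ∃ c : CD F R K n, c.D = D ∧ c.u = u ∧ c.M = M ∧ c.Good 𝔡 r := by
  have : IsNoetherianRing R := Algebra.FiniteType.isNoetherianRing F R
  let G : Set R := {e | e ≠ 0 ∧ ∃ z : Fin n → K, EtC (ch F R {(algebraMap R K e)⁻¹}) z ∧
      (∃ k : ℕ, ∃ d ∈ 𝔡 ^ M,
        algebraMap R K e ^ k * (u * jac D z ^ (r * M)) = algebraMap R K d) ∧
      ∀ d ∈ 𝔡 ^ M, algebraMap R K d / (u * jac D z ^ (r * M)) ∈ ch F R {(algebraMap R K e)⁻¹}}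
  have hG : ∀ P : Ideal R, P.IsPrime → P.height = 1 → ∃ e ∈ G, e ∉ P := fun P hP h1 => by
    obtain ⟨e, he, hz⟩ := wca_chart hx hD h𝔡 hr hM hu h hP h1
    exact ⟨e, ⟨fun h0 => he (h0 ▸ P.zero_mem), hz⟩, he⟩
  obtain ⟨P, hP, h1⟩ := wca_height hD hn
  obtain ⟨e1, he1, -⟩ := hG P hP h1
  obtain ⟨e2, he2, hreg⟩ := exists_regseq 1 (Ideal.span G) he1.1 fun Q hQ h2 _ hle => by
    obtain ⟨e, he, heQ⟩ := hG Q hQ h2
    exact heQ (hle (Ideal.subset_span he))
  obtain ⟨T, hT, hsp⟩ := (Submodule.fg_span_iff_fg_span_finset_subset G).1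
    (IsNoetherian.noetherian (Ideal.span G))
  choose h0 z het hed hde using fun i : Fin T.card => hT (T.equivFin.symm i).2
  have hrg : Ideal.span G = Ideal.span (Set.range fun i => (T.equivFin.symm i : R)) := by
    refine hsp.trans (congrArg _ (Set.ext fun a => ⟨fun ha => ⟨T.equivFin ⟨a, ha⟩, by simp⟩, ?_⟩))
    rintro ⟨i, rfl⟩
    exact (T.equivFin.symm i).2
  refine ⟨⟨x, D, M, u, T.card, fun i => T.equivFin.symm i, z, e1, e2⟩, rfl, rfl, rfl, hx, hD, hM,
    hu, h0, het, hed, hde, he1.1, hrg ▸ Ideal.subset_span he1, hrg ▸ he2, fun w hw => ?_⟩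
  obtain ⟨i, hi⟩ := hreg w hw
  rwa [one_pow, one_mul] at hi

end

end Pool.Agent.Lib.MP_4287a9_ag
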