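import Pool.Agent.Lib.MP_4287a9_ag.WCa
import Pool.Agent.Lib.MP_4287a9_ag.TD0a

/-!
From the klt condition to a model.
-/

open scoped TensorProduct ENNReal NNReal nonZeroDivisors Polynomial
open Filter

namespace Pool.Agent.Lib.MP_4287a9_ag

noncomputable section

section away

variable {A R K : Type} [CommRing A] [CommRing R] [Field K] [Algebra A R] [Algebra A K]
  [Algebra R K] [IsScalarTower A R K] (s : A) [IsLocalization.Away s R]

theorem wcb_inv : algebraMap A K s * algebraMap R K (IsLocalization.Away.invSelf s) = 1 := by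
  rw [IsScalarTower.algebraMap_apply A R K, ← map_mul, IsLocalization.Away.mul_invSelf, map_one]

theorem wcb_surj (z : R) :
    ∃ (i : ℕ) (a : A), algebraMap R K z * algebraMap A K s ^ i = algebraMap A K a := by
  obtain ⟨i, a, h⟩ := IsLocalization.Away.surj s z
  refine ⟨i, a, ?_⟩
  rw [IsScalarTower.algebraMap_apply A R K, IsScalarTower.algebraMap_apply A R K a, ← h, map_mul,
    map_pow]

theorem wcb_adjoin (S : Set K) (z : K) :
    z ∈ Algebra.adjoin R S ↔ z ∈ Algebra.adjoin A (insert (algebraMap A K s)⁻¹ S) := by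
  have h0 := wcb_inv (R := R) (K := K) s
  constructor
  · intro hz
    induction hz using Algebra.adjoin_induction with
    | mem z hz => exact Algebra.subset_adjoin (Or.inr hz)
    | algebraMap z =>
      obtain ⟨i, a, h⟩ := wcb_surj (K := K) s z
      rw [← eq_mul_inv_iff_mul_eq₀ (pow_ne_zero i (left_ne_zero_of_mul_eq_one h0)), ← inv_pow] at h
      rw [h]
      exact mul_mem (Subalgebra.algebraMap_mem _ a)
        (pow_mem (Algebra.subset_adjoin (Set.mem_insert _ _)) i)
    | add a b _ _ ha hb => exact add_mem ha hb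
    | mul a b _ _ ha hb => exact mul_mem ha hb
  · intro hz
    induction hz using Algebra.adjoin_induction with
    | mem z hz =>
      rcases hz with rfl | hz
      · rw [inv_eq_of_mul_eq_one_right h0]
        exact Subalgebra.algebraMap_mem _ _
      · exact Algebra.subset_adjoin hz
    | algebraMap a =>
      rw [IsScalarTower.algebraMap_apply A R K]
      exact Subalgebra.algebraMap_mem _ _
    | add a b _ _ ha hb => exact add_mem ha hb
    | mul a b _ _ ha hb => exact mul_mem ha hb

theorem wcb_up [DecidableEq K] {S : Finset K} {O : ValuationSubring K} (h : IsDiv R S O) :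
    IsDiv A (insert (algebraMap A K s)⁻¹ S) O ∧ (algebraMap A K s)⁻¹ ∈ O := by
  refine ⟨?_, ?_⟩
  · simpa only [IsDiv, wcb_adjoin (R := R) s, Finset.coe_insert] using h
  · rw [inv_eq_of_mul_eq_one_right (wcb_inv (R := R) s)]
    exact h.base _

theorem wcb_down {S : Finset K} {O : ValuationSubring K} (h : IsDiv A S O)
    (hs : (algebraMap A K s)⁻¹ ∈ O) : IsDiv R S O := by
  have hle : ∀ z ∈ Algebra.adjoin A (S : Set K), z ∈ Algebra.adjoin R (S : Set K) := fun z hz =>
    (wcb_adjoin s _ z).2 (Algebra.adjoin_mono (Set.subset_insert _ _) hz)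
  refine ⟨h.1, fun z hz => ?_, fun z hz => ?_⟩
  · rw [wcb_adjoin s] at hz
    induction hz using Algebra.adjoin_induction with
    | mem z hz =>
      rcases hz with rfl | hz
      · exact hs
      · exact h.2.1 z (Algebra.subset_adjoin hz)
    | algebraMap a => exact h.base a
    | add a b _ _ ha hb => exact add_mem ha hb
    | mul a b _ _ ha hb => exact mul_mem ha hb
  · obtain ⟨b, h1, h2, h3, h4⟩ := h.2.2 z hz
    exact ⟨b, hle b h1, h2, h3, hle _ h4⟩

include s in
theorem wcb_empty {O : ValuationSubring K} (h : IsDiv R ∅ O) : IsDiv A ∅ O := by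
  classical
  have hs := (wcb_up s h).2
  have hs0 : algebraMap A K s ≠ 0 := left_ne_zero_of_mul_eq_one (wcb_inv (R := R) s)
  obtain ⟨h1, h2, h3⟩ := h
  simp only [IsDiv, Finset.coe_empty, Algebra.adjoin_empty, Algebra.mem_bot] at h2 h3 ⊢
  refine ⟨h1, ?_, fun z hz => ?_⟩
  · rintro _ ⟨a, rfl⟩
    exact h2 _ ⟨algebraMap A R a, (IsScalarTower.algebraMap_apply A R K a).symm⟩
  · obtain ⟨_, ⟨b, rfl⟩, hb0, hb1, c, hc⟩ := h3 z hz
    obtain ⟨i, a, ha⟩ := wcb_surj (K := K) s b
    obtain ⟨j, a', ha'⟩ := wcb_surj (K := K) s c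
    refine ⟨algebraMap R K b * algebraMap A K s ^ (i + j), ⟨a * s ^ j, ?_⟩,
      mul_ne_zero hb0 (pow_ne_zero _ hs0), ?_, ⟨a' * s ^ i, ?_⟩⟩
    · rw [map_mul, map_pow, ← ha, pow_add, mul_assoc]
    · rw [mul_inv, ← inv_pow]
      exact mul_mem hb1 (pow_mem hs _)
    · rw [map_mul, map_pow, ← ha', hc]
      ring

end away

section chg

variable {F R K : Type} [Field F] [CommRing R] [IsDomain R] [Field K] [Algebra F R]
  [Algebra F K] [Algebra R K] [IsScalarTower F R K] [IsFractionRing R K] [Algebra.FiniteType F R]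
  {n : ℕ} {x : Fin n → R} {D D' : Fin n → Derivation F K K}

theorem wcb_jac [CharZero F] (hx : ∀ a : R, IsIntegral (Algebra.adjoin F (Set.range x)) a)
    {z : Fin n → K} (hz : (Matrix.of fun i l => D i (z l)).det ≠ 0) :
    (Matrix.of fun i l => D i (algebraMap R K (x l))).det ≠ 0 := by
  intro h
  obtain ⟨v, hv, h1⟩ := Matrix.exists_vecMul_eq_zero_iff.2 h
  have h2 : ∀ w : K, (∑ i, v i • D i) w = ∑ i, v i * D i w := fun w => by
    have e : ⇑(∑ i, v i • D i) = ∑ i, ⇑(v i • D i) := map_sum Derivation.coeFnAddMonoidHom _ _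
    rw [e, Finset.sum_apply]
    rfl
  have h3 := deriv_eq_zero_of_int hx (∑ i, v i • D i) fun l => by
    rw [h2]
    exact congrFun h1 l
  refine hz (Matrix.exists_vecMul_eq_zero_iff.1 ⟨v, hv, funext fun l => ?_⟩)
  have h4 := h2 (z l)
  rw [h3] at h4
  exact h4.symm

theorem wcb_ldisc (hD : DualD D' fun l => algebraMap R K (x l)) {J u : K} (hJ : J ≠ 0)
    (hu : u ≠ 0) (hc : ∀ y : Fin n → K, (Matrix.of fun i l => D' i (y l)).det * J =
      (Matrix.of fun i l => D i (y l)).det) {N : ℕ} (hN : 0 < N) {S : Finset K}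
    {O : ValuationSubring K} (h : IsDiv R S O) :
    ldisc D' (u * J ^ N) N O = ldisc D u N O := by
  obtain ⟨c, hc0, hc1⟩ := h.jacs_denom D'
  have h1 : (1 : K) ∈ jacs D' O := by
    refine ⟨fun l => algebraMap R K (x l), fun l => h.base _, ?_⟩
    rw [← Matrix.det_one (n := Fin n)]
    congr 1
    ext i l
    rw [Matrix.of_apply, hD, Matrix.one_apply]
  obtain ⟨y, hy, hy0, hy1⟩ := exists_gen h.1 (Z := jacs D' O) (inv_ne_zero hc0)
    (fun z hz => by rw [div_inv_eq_mul, mul_comm]; exact hc1 z hz) ⟨1, h1, one_ne_zero⟩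
  have h2 : ordS O (jacs D O) = ordS O {y * J} := by
    refine ordS_eq_of_gen ?_ ?_ (mul_ne_zero hy0 hJ)
    · obtain ⟨w, hw, rfl⟩ := hy
      exact ⟨w, hw, hc w⟩
    · rintro _ ⟨w, hw, rfl⟩
      rw [← hc w, mul_div_mul_right _ _ hJ]
      exact hy1 _ ⟨w, hw, rfl⟩
  have h3 : (N : ℝ) ≠ 0 := Nat.cast_ne_zero.2 hN.ne'
  rw [ldisc, ldisc, h2, ordS_eq_of_gen hy hy1 hy0, ordS_mul h.1 hy0 hJ,
    ordS_mul h.1 hu (pow_ne_zero _ hJ), ← zpow_natCast, ordS_zpow h.1 hJ]
  push_cast
  field_simp
  ring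

end chg

theorem wcb_noether {F T : Type} [Field F] [CommRing T] [IsDomain T] [Algebra F T]
    [Algebra.FiniteType F T] {n : ℕ} (hn : Algebra.trdeg F T = n) :
    ∃ x : Fin n → T, ∀ a : T, IsIntegral (Algebra.adjoin F (Set.range x)) a := by
  obtain ⟨s, g, hinj, hfin⟩ := exists_finite_inj_algHom_of_fg F T
  obtain rfl : s = n := by
    have h := (td0a_trdeg g hinj hfin).symm.trans hn
    exact_mod_cast h
  refine ⟨fun i => g (MvPolynomial.X i), fun a => ?_⟩
  rw [Algebra.adjoin_range_eq_range_aeval,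
    show (MvPolynomial.aeval fun i => g (MvPolynomial.X i)) = g from
      (MvPolynomial.aeval_unique g).symm]
  let _ : Algebra (MvPolynomial (Fin s) F) T := g.toRingHom.toAlgebra
  have : Module.Finite (MvPolynomial (Fin s) F) T := hfin
  exact IsIntegral.map_of_comp_eq g.rangeRestrict.toRingHom (RingHom.id T) rfl
    (Algebra.IsIntegral.isIntegral (R := MvPolynomial (Fin s) F) a)

/-- `K = FractionRing A`, `R = ch k A {1 / s}` (a localization of `A`, hence normal), `x` a Noether
normalization of `R` (the number of variables is `n`: `td0a_trdeg`). `J = jac D x ≠ 0`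
(`deriv_eq_zero_of_int`), `D'` from `exists_dual`, `u' = u J ^ (r M)`; for every divisorial `O`,
`ldisc D' u' = ldisc D u` (`exists_chart`, `ordS_jacs`, `jac_div_mem`). `IsDiv R S O` is
equivalent to `IsDiv A (insert (1 / s) S) O`, and follows from `IsDiv A S O` and `1 / s ∈ O`;
`IsDiv R ∅ O` implies `IsDiv A ∅ O`. `exists_cd`, `ordS_map`. -/
theorem KltV.exists_mdl {k A : Type} [Field k] [CharZero k] [CommRing A] [IsDomain A]
    [IsIntegrallyClosed A] [Algebra k A] [Algebra.FiniteType k A] {n : ℕ} (hn1 : 1 ≤ n)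
    (hn : Algebra.trdeg k A = n) {m 𝔡 𝔞 : Ideal A} (h𝔡 : 𝔡 ≠ ⊥) {r : ℕ} (hr : 0 < r) {t : ℝ≥0}
    (h : KltV k n m 𝔡 r 𝔞 t) :
    ∃ μ : Mdl k A n 𝔡 r, μ.f ∉ m ∧ Function.Injective μ.ρ ∧ μ.VK 𝔞 t ∧
      ∀ (𝔞' : Ideal A) (t' : ℝ≥0), μ.VK 𝔞' t' → KltV k n m 𝔡 r 𝔞' t' := by
  classical
  obtain ⟨s, M, u, D, hs, hM, hu, ⟨z, hz⟩, h5, h6⟩ := h
  have hs0 : s ≠ 0 := fun e => hs (e ▸ zero_mem m)
  have hle : Submonoid.powers s ≤ A⁰ := powers_le_nonZeroDivisors_of_noZeroDivisors hs0
  let _ : Algebra (Localization.Away s) (FractionRing A) :=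
    IsLocalization.localizationAlgebraOfSubmonoidLe _ _ (Submonoid.powers s) A⁰ hle
  have : IsScalarTower A (Localization.Away s) (FractionRing A) :=
    IsLocalization.localization_isScalarTower_of_submonoid_le _ _ (Submonoid.powers s) A⁰ hle
  have : IsScalarTower k (Localization.Away s) (FractionRing A) := .to₁₃₄ _ A _ _
  have : IsFractionRing (Localization.Away s) (FractionRing A) :=
    IsFractionRing.isFractionRing_of_isDomain_of_isLocalization (Submonoid.powers s) _ _
  have : IsDomain (Localization.Away s) := IsLocalization.isDomain_localization hle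
  have : IsIntegrallyClosed (Localization.Away s) :=
    isIntegrallyClosed_of_isLocalization _ (Submonoid.powers s) hle
  have : Algebra.FiniteType k (Localization.Away s) :=
    Algebra.FiniteType.trans (S := A) inferInstance inferInstance
  have hinj : Function.Injective (algebraMap A (Localization.Away s)) :=
    IsLocalization.injective _ hle
  have hn' : Algebra.trdeg k (Localization.Away s) = n := by
    have : FaithfulSMul A (Localization.Away s) :=
      (faithfulSMul_iff_algebraMap_injective _ _).2 hinj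
    have : Algebra.IsAlgebraic A (Localization.Away s) :=
      IsLocalization.isAlgebraic _ (Submonoid.powers s)
    rw [← trdeg_add_eq k A (A := Localization.Away s),
      trdeg_eq_zero (R := A) (A := Localization.Away s), add_zero, hn]
  obtain ⟨x, hx⟩ := wcb_noether hn'
  have hJ := wcb_jac hx hz
  obtain ⟨D', hD, hc⟩ := exists_dual D _ hJ
  have hN : 0 < r * M := Nat.mul_pos hr hM
  have hmap : ∀ (O : ValuationSubring (FractionRing A)) (S : Finset (FractionRing A)),
      IsDiv (Localization.Away s) S O → ∀ 𝔟 : Ideal A,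
      ordS O (algebraMap (Localization.Away s) (FractionRing A) ''
        (𝔟.map (IsScalarTower.toAlgHom k A (Localization.Away s)))) =
        ordS O (algebraMap A (FractionRing A) '' 𝔟) := by
    intro O S hO 𝔟
    refine (ordS_map hO.base (algebraMap A (Localization.Away s)) 𝔟).trans ?_
    simp only [← IsScalarTower.algebraMap_apply]
  obtain ⟨c, c1, c2, c3, c4⟩ := exists_cd hx hD hn1
    (𝔡 := 𝔡.map (IsScalarTower.toAlgHom k A (Localization.Away s)))
    (fun e => h𝔡 ((Ideal.map_eq_bot_iff_of_injective hinj).1 e)) hr hM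
    (mul_ne_zero hu (pow_ne_zero (r * M) hJ)) fun O hO => by
      rw [wcb_ldisc hD hJ hu hc hN hO, hmap O _ hO]
      exact h5 O (wcb_empty s hO) (wcb_up s hO).2
  refine ⟨{ R := Localization.Away s, K := FractionRing A,
            ρ := IsScalarTower.toAlgHom k A (Localization.Away s), f := s,
            away := ⟨IsLocalization.Away.algebraMap_isUnit s, fun w => ?_, fun a ha => ?_⟩,
            c := c, good := c4 }, hs, hinj, fun S O hO => ?_,
    fun 𝔞' t' hV => ⟨s, M, u, D, hs, hM, hu, ⟨z, hz⟩, h5, fun S O hO hsO => ?_⟩⟩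
  · obtain ⟨i, a, ha⟩ := IsLocalization.Away.surj s w
    exact ⟨i, a, (mul_comm _ _).trans ha⟩
  · exact ⟨0, by rw [hinj (ha.trans (map_zero _).symm), mul_zero]⟩
  · rw [c1, c2, c3, wcb_ldisc hD hJ hu hc hN hO, hmap O _ hO]
    exact h6 _ O (wcb_up s hO).1 (wcb_up s hO).2
  · have hO' : IsDiv (Localization.Away s) S O := wcb_down s hO hsO
    have h7 := hV S O hO'
    rwa [c1, c2, c3, wcb_ldisc hD hJ hu hc hN hO', hmap O _ hO'] at h7

end

end Pool.Agent.Lib.MP_4287a9_ag
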