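import Pool.Agent.Lib.MP_4287a9_ag.D5

/-!
Points in general position; coefficients of a family of elements.
-/

open scoped TensorProduct ENNReal NNReal nonZeroDivisors Polynomial
open Filter

namespace Pool.Agent.Lib.MP_4287a9_ag

noncomputable section

theorem geo_red (F K Ω : Type) [Field F] [CharZero F] [Field K] [Algebra F K] [Field Ω]
    [Algebra F Ω] [Algebra.IsAlgebraic F Ω] : IsReduced (K ⊗[F] Ω) := by
  refine IsReduced.tensorProduct_of_flat_of_forall_fg fun S hS => ?_
  have hf : IsField S := Subalgebra.isField_of_algebraic S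
  let : Field S := hf.toField
  have : Algebra.FiniteType F S := ⟨(Subalgebra.fg_top S).2 hS⟩
  have : Algebra.IsAlgebraic F S := Algebra.IsAlgebraic.of_injective S.val Subtype.val_injective
  have : Algebra.IsSeparable F S := inferInstance
  have : Algebra.FormallyUnramified F S := Algebra.FormallyUnramified.of_isSeparable F S
  exact Algebra.FormallyUnramified.isReduced_of_field K (K ⊗[F] S)

theorem geo_pt (Ω A : Type) [Field Ω] [IsAlgClosed Ω] [CommRing A] [Algebra Ω A]
    [Algebra.FiniteType Ω A] [IsReduced A] {d : A} (hd : d ≠ 0) : ∃ x : A →ₐ[Ω] Ω, x d ≠ 0 := by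
  have : IsJacobsonRing A := isJacobsonRing_of_finiteType (A := Ω)
  have h1 : d ∉ (⊥ : Ideal A).jacobson := by
    rw [← Ideal.radical_eq_jacobson]
    intro h
    exact hd (IsNilpotent.eq_zero (mem_nilradical.1 h))
  obtain ⟨m, ⟨-, hm⟩, hdm⟩ : ∃ m : Ideal A, (⊥ ≤ m ∧ m.IsMaximal) ∧ d ∉ m := by
    by_contra hc
    push Not at hc
    exact h1 (Ideal.mem_sInf.2 fun {I} hI => hc I hI)
  let : Field (A ⧸ m) := Ideal.Quotient.field m
  have : Module.Finite Ω (A ⧸ m) := finite_of_finite_type_of_isJacobsonRing Ω (A ⧸ m)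
  have hb : Function.Bijective (algebraMap Ω (A ⧸ m)) :=
    IsAlgClosed.algebraMap_bijective_of_isIntegral
  let e : Ω ≃ₐ[Ω] (A ⧸ m) := AlgEquiv.ofBijective (Algebra.ofId Ω (A ⧸ m)) hb
  refine ⟨(e.symm : (A ⧸ m) →ₐ[Ω] Ω).comp (Ideal.Quotient.mkₐ Ω m), fun h => hdm ?_⟩
  have h2 : e.symm (Ideal.Quotient.mk m d) = 0 := h
  rw [map_eq_zero_iff _ e.symm.injective] at h2
  exact Ideal.Quotient.eq_zero_iff_mem.1 h2

theorem geo_det (Ω : Type) [Field Ω] {X : Type} {s : ℕ} (v : X → Fin s → Ω)
    (h : ∀ c : Fin s → Ω, (∀ x, ∑ i, c i * v x i = 0) → c = 0) :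
    ∃ x : Fin s → X, (Matrix.of fun a i => v (x a) i).det ≠ 0 := by
  classical
  have htop : Submodule.span Ω (Set.range v) = ⊤ := by
    by_contra hne
    obtain ⟨φ, hφ, hk⟩ := Submodule.exists_le_ker_of_lt_top _ (lt_top_iff_ne_top.2 hne)
    have hφ' : ∀ w : Fin s → Ω, φ w = ∑ i, φ (Pi.single i 1) * w i := by
      intro w
      conv_lhs => rw [← Finset.univ_sum_single w]
      rw [map_sum]
      refine Finset.sum_congr rfl fun i _ => ?_
      have : (Pi.single i (w i) : Fin s → Ω) = w i • Pi.single i 1 := by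
        ext j
        by_cases hj : j = i
        · subst hj; simp
        · simp [hj]
      rw [this, map_smul, smul_eq_mul, mul_comm]
    have h0 := h (fun i => φ (Pi.single i 1)) fun x => by
      rw [← hφ']
      exact hk (Submodule.subset_span ⟨x, rfl⟩)
    apply hφ
    refine LinearMap.ext fun w => ?_
    rw [hφ']
    refine Finset.sum_eq_zero fun i _ => ?_
    have := congrFun h0 i
    simp only [Pi.zero_apply] at this
    rw [this, zero_mul]
  obtain ⟨κ, a, -, hsp, hli⟩ := exists_linearIndependent' Ω v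
  rw [htop] at hsp
  let bs : Module.Basis κ Ω (Fin s → Ω) := Module.Basis.mk hli hsp.ge
  let e : Fin s ≃ κ := (Pi.basisFun Ω (Fin s)).indexEquiv bs
  refine ⟨fun i => a (e i), ?_⟩
  have hli2 : LinearIndependent Ω (Matrix.of fun b i => v (a (e b)) i).row :=
    hli.comp e e.injective
  exact ((Matrix.isUnit_iff_isUnit_det _).1 (Matrix.linearIndependent_rows_iff_isUnit.1 hli2)).ne_zero

theorem geo_points (F K Ω : Type) [Field F] [CharZero F] [Field K] [Algebra F K] [Field Ω]
    [Algebra F Ω] [Algebra.IsAlgebraic F Ω] [IsAlgClosed Ω] (R : Subalgebra F K) (hR : R.FG)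
    {s : ℕ} (l : Fin s → R) (hl : LinearIndependent F l) :
    ∃ x : Fin s → R →ₐ[F] Ω, (Matrix.of fun a i => x a (l i)).det ≠ 0 := by
  have : Algebra.FiniteType F R := ⟨(Subalgebra.fg_top R).2 hR⟩
  have : IsReduced (K ⊗[F] Ω) := geo_red F K Ω
  have : IsReduced (Ω ⊗[F] K) :=
    isReduced_of_injective (Algebra.TensorProduct.comm F Ω K) (AlgEquiv.injective _)
  have hinj : Function.Injective (Algebra.TensorProduct.map (AlgHom.id F Ω) R.val) :=
    Module.Flat.lTensor_preserves_injective_linearMap (M := Ω) R.val.toLinearMap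
      Subtype.val_injective
  have : IsReduced (Ω ⊗[F] R) := isReduced_of_injective _ hinj
  refine geo_det Ω (fun (x : R →ₐ[F] Ω) i => x (l i)) fun c hc => ?_
  have hli := Module.Flat.linearIndependent_one_tmul (S := Ω) hl
  rw [Fintype.linearIndependent_iff] at hli
  refine funext (hli c ?_)
  by_contra hd
  obtain ⟨y, hy⟩ := geo_pt Ω (Ω ⊗[F] R) hd
  apply hy
  rw [map_sum, ← hc ((y.restrictScalars F).comp Algebra.TensorProduct.includeRight)]
  refine Finset.sum_congr rfl fun i _ => ?_
  rw [map_smul, smul_eq_mul]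
  rfl

/-- Let `Ω` be an algebraic closure of `F = FractionRing C`. The `l i` stay linearly independent in
`Ω ⊗[C] Λ[1 / b]`, which is reduced (characteristic zero:
`Algebra.FormallyUnramified.isReduced_of_field` and `IsReduced.tensorProduct_of_flat_of_forall_fg`,
or embed `Λ` in its fraction field, separable over a purely transcendental extension of `F`) and
of finite type over `Ω`. By the Nullstellensatz the vectors `(x (l i))_i`, `x` an `Ω`-point, span
`Ω ^ s`. `Λ''` is the subalgebra of `Ω` generated by `C` and the images of the chosen points. -/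
theorem exists_general {B C Λ : Type} [CommRing B] [CommRing C] [IsDomain C] [CharZero C]
    [Algebra B C] [Algebra.FiniteType B C] [CommRing Λ] [IsDomain Λ] [Algebra B Λ]
    [Algebra.FiniteType B Λ] (ι : C →ₐ[B] Λ) (hι : Function.Injective ι) {s : ℕ} (l : Fin s → Λ)
    (hl : ∀ a : Fin s → C, ∑ i, ι (a i) * l i = 0 → ∀ i, a i = 0) {b : Λ} (hb : b ≠ 0) :
    ∃ (Λ'' : Type) (_ : CommRing Λ'') (_ : IsDomain Λ'') (_ : Algebra B Λ'')
      (_ : Algebra.FiniteType B Λ'') (ι'' : C →ₐ[B] Λ'') (x : Fin s → Λ →ₐ[B] Λ''),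
      Function.Injective ι'' ∧ (∀ a, (x a).comp ι = ι'') ∧ (∀ a, x a b ≠ 0) ∧
      (Matrix.of fun a i => x a (l i)).det ≠ 0 := by
  classical
  let F := FractionRing C
  let K := FractionRing Λ
  let Ω := AlgebraicClosure F
  have hiK : Function.Injective (algebraMap Λ K) := IsFractionRing.injective Λ K
  have hiF : Function.Injective (algebraMap C F) := IsFractionRing.injective C F
  have hg : Function.Injective ((algebraMap Λ K).comp ι.toRingHom) := hiK.comp hι
  have : CharZero F := algebraRat.charZero F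
  let : Algebra F K := (IsFractionRing.lift (K := F) hg).toAlgebra
  have hFK : ∀ c : C, algebraMap F K (algebraMap C F c) = algebraMap Λ K (ι c) := fun c =>
    IsFractionRing.lift_algebraMap hg c
  obtain ⟨tC, htC⟩ := Algebra.FiniteType.out (R := B) (A := C)
  obtain ⟨tΛ, htΛ⟩ := Algebra.FiniteType.out (R := B) (A := Λ)
  let R : Subalgebra F K := Algebra.adjoin F (insert (algebraMap Λ K b)⁻¹ (algebraMap Λ K '' tΛ))
  have hR : R.FG := Subalgebra.fg_def.2 ⟨_, (tΛ.finite_toSet.image _).insert _, rfl⟩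
  have hmem : ∀ z : Λ, algebraMap Λ K z ∈ R := by
    intro z
    have hz : z ∈ Algebra.adjoin B (tΛ : Set Λ) := htΛ ▸ Algebra.mem_top
    induction hz using Algebra.adjoin_induction with
    | mem z hz => exact Algebra.subset_adjoin (Set.mem_insert_of_mem _ ⟨z, hz, rfl⟩)
    | algebraMap r =>
      rw [← ι.commutes, ← hFK]
      exact R.algebraMap_mem _
    | add x y _ _ hx hy => rw [map_add]; exact R.add_mem hx hy
    | mul x y _ _ hx hy => rw [map_mul]; exact R.mul_mem hx hy
  let j : Λ →+* R := (algebraMap Λ K).codRestrict R hmem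
  have hj : ∀ c : C, j (ι c) = algebraMap F R (algebraMap C F c) := fun c =>
    Subtype.ext (hFK c).symm
  have hli : LinearIndependent F fun i => j (l i) := by
    rw [Fintype.linearIndependent_iff]
    intro g hg0 i
    obtain ⟨d, hd⟩ := IsLocalization.exist_integer_multiples_of_finite C⁰ g
    choose u hu using hd
    have h1 : ∑ i, ι (u i) * l i = 0 := by
      apply hiK
      have h2 := congrArg (fun z : R => algebraMap Λ K (ι d) * (z : K)) hg0
      simp only [AddSubmonoidClass.coe_finsetSum, ZeroMemClass.coe_zero, mul_zero] at h2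
      rw [map_sum, map_zero, ← h2, Finset.mul_sum]
      refine Finset.sum_congr rfl fun i _ => ?_
      rw [map_mul, ← hFK, ← hFK, hu i, Algebra.smul_def, map_mul, mul_assoc]
      congr 1
    have h3 := hu i
    rw [hl u h1 i, map_zero, Algebra.smul_def] at h3
    refine (mul_eq_zero.1 h3.symm).resolve_left fun h => ?_
    exact nonZeroDivisors.coe_ne_zero d (hiF (h.trans (map_zero _).symm))
  obtain ⟨y, hy⟩ := geo_points F K Ω R hR _ hli
  let iΩ : C →ₐ[B] Ω := IsScalarTower.toAlgHom B C Ω
  have hiΩ : ∀ c : C, iΩ c = algebraMap F Ω (algebraMap C F c) := fun c => rfl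
  have hyj : ∀ a c, y a (j (ι c)) = iΩ c := fun a c => by
    rw [hj, AlgHom.commutes, hiΩ]
  let x : Fin s → Λ →ₐ[B] Ω := fun a =>
    { (y a).toRingHom.comp j with
      commutes' := fun r => by
        have := hyj a (algebraMap B C r)
        rw [ι.commutes, iΩ.commutes] at this
        exact this }
  have hx : ∀ a z, x a z = y a (j z) := fun a z => rfl
  let S : Subalgebra B Ω := Algebra.adjoin B (iΩ '' tC ∪ ⋃ a, x a '' tΛ)
  have hS : S.FG := Subalgebra.fg_def.2 ⟨_, (tC.finite_toSet.image _).union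
    (Set.finite_iUnion fun a => tΛ.finite_toSet.image _), rfl⟩
  have hS1 : ∀ c, iΩ c ∈ S := by
    intro c
    have : (⊤ : Subalgebra B C).map iΩ ≤ S := by
      rw [← htC, AlgHom.map_adjoin]
      exact Algebra.adjoin_mono Set.subset_union_left
    exact this ⟨c, Algebra.mem_top, rfl⟩
  have hS2 : ∀ a z, x a z ∈ S := by
    intro a z
    have : (⊤ : Subalgebra B Λ).map (x a) ≤ S := by
      rw [← htΛ, AlgHom.map_adjoin]
      exact Algebra.adjoin_mono
        ((Set.subset_iUnion (fun a => x a '' tΛ) a).trans Set.subset_union_right)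
    exact this ⟨z, Algebra.mem_top, rfl⟩
  refine ⟨S, inferInstance, inferInstance, inferInstance, ⟨(Subalgebra.fg_top S).2 hS⟩,
    iΩ.codRestrict S hS1, fun a => (x a).codRestrict S (hS2 a), ?_, ?_, ?_, ?_⟩
  · intro c c' h
    have h1 : iΩ c = iΩ c' := congrArg Subtype.val h
    rw [hiΩ, hiΩ] at h1
    exact hiF ((algebraMap F Ω).injective h1)
  · intro a
    refine AlgHom.ext fun c => Subtype.ext ?_
    exact hyj a c
  · intro a h
    have h1 : y a (j b) = 0 := congrArg Subtype.val h
    have hb' : algebraMap Λ K b ≠ 0 := fun h => hb (hiK (h.trans (map_zero _).symm))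
    have h2 : j b * ⟨(algebraMap Λ K b)⁻¹, Algebra.subset_adjoin (Set.mem_insert _ _)⟩ = 1 :=
      Subtype.ext (mul_inv_cancel₀ hb')
    have h3 := congrArg (y a) h2
    rw [map_mul, h1, zero_mul, map_one] at h3
    exact zero_ne_one h3
  · intro h
    apply hy
    have h1 := congrArg S.val.toRingHom h
    rw [RingHom.map_det, map_zero] at h1
    exact h1

/-- Write each `f j` as a sum of terms `λ ⊗ t`; choose a maximal `C`-linearly independent subfamily
of the finite family that consists of `1` and the `λ`. -/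
theorem exists_coeff {B T C Λ : Type} [CommRing B] [CommRing T] [Algebra B T] [CommRing C]
    [IsDomain C] [Algebra B C] [CommRing Λ] [IsDomain Λ] [Algebra B Λ] (ι : C →ₐ[B] Λ)
    (hι : Function.Injective ι) {a : ℕ} (f : Fin a → Λ ⊗[B] T) :
    ∃ (s : ℕ) (l : Fin s → Λ) (c : Fin a → Fin s → C ⊗[B] T) (b : C), 0 < s ∧ b ≠ 0 ∧
      (∀ u : Fin s → C, ∑ i, ι (u i) * l i = 0 → ∀ i, u i = 0) ∧
      ∀ j, ι b • f j = ∑ i, l i • bm T ι (c j i) := by
  classical
  let : Algebra C Λ := ι.toRingHom.toAlgebra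
  have hs : ∀ (u : C) (z : Λ), u • z = ι u * z := fun u z => rfl
  choose S hS using fun j => TensorProduct.exists_finset (R := B) (f j)
  let V : Finset Λ := insert 1 (Finset.univ.biUnion fun j => (S j).image Prod.fst)
  obtain ⟨I, hI, hmax⟩ := exists_maximal_linearIndepOn C (fun v : V => (v : Λ))
  have hall : ∀ v : V, ∃ u : C, u ≠ 0 ∧
      u • (v : Λ) ∈ Submodule.span C ((fun v : V => (v : Λ)) '' I) := by
    intro v
    by_cases hv : v ∈ I
    · exact ⟨1, one_ne_zero, by rw [one_smul]; exact Submodule.subset_span ⟨v, hv, rfl⟩⟩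
    · exact hmax v hv
  choose u hu0 hu using hall
  let e : Fin (Fintype.card I) ≃ I := (Fintype.equivFin I).symm
  let l : Fin (Fintype.card I) → Λ := fun i => ((e i : V) : Λ)
  have hrange : Set.range l = (fun v : V => (v : Λ)) '' I := by
    ext z
    constructor
    · rintro ⟨i, rfl⟩
      exact ⟨e i, (e i).2, rfl⟩
    · rintro ⟨v, hv, rfl⟩
      exact ⟨e.symm ⟨v, hv⟩, by simp [l]⟩
  have hli : LinearIndependent C l := LinearIndependent.comp hI e e.injective
  have hb0 : ∏ v, u v ≠ 0 := Finset.prod_ne_zero_iff.2 fun v _ => hu0 v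
  have hb : ∀ v ∈ V, ∃ w : Fin (Fintype.card I) → C, ι (∏ v, u v) * v = ∑ i, ι (w i) * l i := by
    intro v hv
    have h1 : (∏ v, u v) • v ∈ Submodule.span C (Set.range l) := by
      rw [hrange, ← Finset.mul_prod_erase _ _ (Finset.mem_univ (⟨v, hv⟩ : V)), mul_comm, mul_smul]
      exact Submodule.smul_mem _ _ (hu ⟨v, hv⟩)
    obtain ⟨w, hw⟩ := (Submodule.mem_span_range_iff_exists_fun C).1 h1
    exact ⟨w, hw.symm⟩
  have hc : ∀ j, ∃ c : Fin (Fintype.card I) → C ⊗[B] T,
      ι (∏ v, u v) • f j = ∑ i, l i • bm T ι (c i) := by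
    intro j
    have hp : ∀ p : Λ × T, ∃ w : Fin (Fintype.card I) → C, p ∈ S j →
        ι (∏ v, u v) * p.1 = ∑ i, ι (w i) * l i := by
      intro p
      by_cases hp : p ∈ S j
      · obtain ⟨w, hw⟩ := hb p.1 (Finset.mem_insert_of_mem (Finset.mem_biUnion.2
          ⟨j, Finset.mem_univ _, Finset.mem_image_of_mem _ hp⟩))
        exact ⟨w, fun _ => hw⟩
      · exact ⟨0, fun h => absurd h hp⟩
    choose w hw using hp
    refine ⟨fun i => ∑ p ∈ S j, w p i ⊗ₜ[B] p.2, ?_⟩
    rw [hS j, Finset.smul_sum]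
    simp only [map_sum, Finset.smul_sum]
    rw [Finset.sum_comm]
    refine Finset.sum_congr rfl fun p hp => ?_
    rw [TensorProduct.smul_tmul', smul_eq_mul, hw p hp, TensorProduct.sum_tmul]
    refine Finset.sum_congr rfl fun i _ => ?_
    rw [Algebra.TensorProduct.map_tmul, TensorProduct.smul_tmul', smul_eq_mul, mul_comm]
    rfl
  choose c hc using hc
  refine ⟨_, l, c, ∏ v, u v, ?_, hb0, ?_, hc⟩
  · rcases Nat.eq_zero_or_pos (Fintype.card I) with h | h
    · obtain ⟨w, hw⟩ := hb 1 (Finset.mem_insert_self _ _)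
      have : IsEmpty (Fin (Fintype.card I)) := by rw [h]; infer_instance
      rw [mul_one, Fintype.sum_empty] at hw
      exact absurd (hι (hw.trans (map_zero ι).symm)) hb0
    · exact h
  · exact Fintype.linearIndependent_iff.1 hli

end

end Pool.Agent.Lib.MP_4287a9_ag
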