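import Pool.Agent.Lib.MP_4287a9_ag.D5
import Pool.Agent.Lib.MP_4287a9_ag.Semi

/-!
Lengths and multiplicities under extension of a perfect ground field.
-/

open scoped TensorProduct ENNReal NNReal nonZeroDivisors Polynomial
open Filter

namespace Pool.Agent.Lib.MP_4287a9_ag

noncomputable section

private theorem wlen_radical {R : Type} [CommRing R] (m : Ideal R) [m.IsPrime] {I J : Ideal R}
    {N : ℕ} (hI : ∀ q : Ideal R, q.IsPrime → I ≤ q → q.IsMaximal) (h1 : I ^ N ≤ J) (h2 : J ≤ m) :
    (lo m J).radical = IsLocalRing.maximalIdeal (Localization.AtPrime m) := by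
  refine le_antisymm ?_ ?_
  · refine (Ideal.IsPrime.radical_le_iff inferInstance).2 ?_
    rw [← Localization.AtPrime.map_eq_maximalIdeal]
    exact Ideal.map_mono h2
  · rw [Ideal.radical_eq_sInf]
    refine le_sInf ?_
    rintro Q ⟨hQ1, hQ2⟩
    have h3 : J ≤ Q.comap (algebraMap R (Localization.AtPrime m)) := Ideal.map_le_iff_le_comap.1 hQ1
    have h4 := hI _ (Ideal.comap_isPrime _ Q) (Ideal.IsPrime.le_of_pow_le (h1.trans h3))
    have h5 : Q.comap (algebraMap R (Localization.AtPrime m)) ≤ m := by
      refine le_trans (Ideal.comap_mono (IsLocalRing.le_maximalIdeal hQ2.ne_top)) (le_of_eq ?_)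
      exact Localization.AtPrime.under_maximalIdeal
    have h6 := h4.eq_of_le (Ideal.IsPrime.ne_top inferInstance) h5
    rw [← Localization.AtPrime.map_eq_maximalIdeal, Ideal.map_le_iff_le_comap]
    exact h6.ge

private theorem wlen_fib {F F' R : Type} [Field F] [PerfectField F] [Field F'] [Algebra F F']
    [CommRing R] [Algebra F R] [Algebra.FiniteType F R] (m : Ideal R) (hm : m.IsMaximal) :
    IsReduced (F' ⊗[F] (R ⧸ m)) ∧ IsArtinianRing (F' ⊗[F] (R ⧸ m)) := by
  let := Ideal.Quotient.field m
  have h1 : Module.Finite F (R ⧸ m) := finite_of_finite_type_of_isJacobsonRing F (R ⧸ m)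
  have h2 : Algebra.IsSeparable F (R ⧸ m) := inferInstance
  have h3 : Algebra.FormallyUnramified F (R ⧸ m) :=
    Algebra.FormallyUnramified.of_isSeparable F (R ⧸ m)
  exact ⟨Algebra.FormallyUnramified.isReduced_of_field F' _,
    IsArtinianRing.of_finite F' _⟩

private theorem wlen_ker {S D : Type} [CommRing S] [CommRing D] (ψ : S →+* D)
    (hψ : Function.Surjective ψ) [IsReduced D] [IsArtinianRing D] :
    (RingHom.ker ψ).IsRadical ∧ ∀ q : Ideal S, q.IsPrime → RingHom.ker ψ ≤ q → q.IsMaximal := by
  refine ⟨(RingHom.ker_isRadical_iff_reduced_of_surjective hψ).2 inferInstance, fun q hq h => ?_⟩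
  have h1 : (q.map ψ).IsPrime := Ideal.map_isPrime_of_surjective hψ h
  have h2 : (q.map ψ).IsMaximal := IsArtinianRing.isMaximal_of_isPrime _
  have h3 := Ideal.comap_isMaximal_of_surjective ψ hψ (K := q.map ψ)
  rwa [Ideal.comap_map_of_surjective ψ hψ, ← RingHom.ker_eq_comap_bot, sup_eq_left.2 h] at h3

private theorem wlen_gen {F F' R S : Type} [Field F] [PerfectField F] [Field F'] [Algebra F F']
    [CommRing R] [Algebra F R] [Algebra.FiniteType F R] [CommRing S] (e : F' ⊗[F] R ≃+* S)
    (f : R →+* S) (he : ∀ x : R, e ((1 : F') ⊗ₜ[F] x) = f x) (m : Ideal R) (hm : m.IsMaximal) :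
    (m.map f).IsRadical ∧ ∀ q : Ideal S, q.IsPrime → m.map f ≤ q → q.IsMaximal := by
  obtain ⟨h1, h2⟩ := wlen_fib (F := F) (F' := F') m hm
  let φ := Algebra.TensorProduct.map (AlgHom.id F F') (Ideal.Quotient.mkₐ F m)
  have hφ : Function.Surjective φ :=
    LinearMap.lTensor_surjective F' (g := (Ideal.Quotient.mkₐ F m).toLinearMap)
      (Ideal.Quotient.mkₐ_surjective F m)
  have hk : RingHom.ker φ = m.map (Algebra.TensorProduct.includeRight : R →ₐ[F] F' ⊗[F] R) := by
    rw [Algebra.TensorProduct.lTensor_ker _ (Ideal.Quotient.mkₐ_surjective F m)]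
    congr 1
    exact Ideal.Quotient.mkₐ_ker F m
  have hψ : Function.Surjective (φ.toRingHom.comp e.symm.toRingHom) := hφ.comp e.symm.surjective
  have hker : RingHom.ker (φ.toRingHom.comp e.symm.toRingHom) = m.map f := by
    refine le_antisymm (fun x hx => ?_) (Ideal.map_le_iff_le_comap.2 fun x hx => ?_)
    · have h3 : e.symm x ∈ RingHom.ker φ := hx
      rw [hk] at h3
      have h4 : m.map (Algebra.TensorProduct.includeRight : R →ₐ[F] F' ⊗[F] R) ≤
          (m.map f).comap e := by
        refine Ideal.map_le_iff_le_comap.2 fun y hy => ?_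
        change e ((1 : F') ⊗ₜ[F] y) ∈ m.map f
        rw [he]
        exact Ideal.mem_map_of_mem _ hy
      have h5 : e (e.symm x) ∈ m.map f := h4 h3
      rwa [e.apply_symm_apply] at h5
    · change φ (e.symm (f x)) = 0
      rw [← he, e.symm_apply_apply, ← RingHom.mem_ker, hk]
      exact Ideal.mem_map_of_mem _ hx
  rw [← hker]
  exact wlen_ker _ hψ

private theorem wlen_spk {B T F F' : Type} [CommRing B] [CommRing T] [Algebra B T]
    [Algebra.FiniteType B T] [Field F] [PerfectField F] [Field F'] [Algebra B F] [Algebra B F']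
    (ι : F →ₐ[B] F') (m : Ideal (F ⊗[B] T)) (hm : m.IsMaximal) :
    (spk ι m).IsRadical ∧ ∀ q : Ideal (F' ⊗[B] T), q.IsPrime → spk ι m ≤ q → q.IsMaximal := by
  let : Algebra F F' := ι.toRingHom.toAlgebra
  have : IsScalarTower B F F' := IsScalarTower.of_algebraMap_eq fun b => (ι.commutes b).symm
  refine wlen_gen (Algebra.TensorProduct.cancelBaseChange B F F' F' T).toRingEquiv
    (bm T ι).toRingHom (fun x => ?_) m hm
  change Algebra.TensorProduct.cancelBaseChange B F F' F' T ((1 : F') ⊗ₜ[F] x) = bm T ι x
  induction x with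
  | zero => simp
  | add x y hx hy => rw [TensorProduct.tmul_add, map_add, map_add, hx, hy]
  | tmul a t =>
    rw [Algebra.TensorProduct.cancelBaseChange_tmul, Algebra.TensorProduct.map_tmul,
      Algebra.smul_def, mul_one]
    rfl

private theorem wlen_flat {R S : Type} [CommRing R] [CommRing S] (f : R →+* S) (hf : f.Flat)
    (m : Ideal R) [m.IsPrime] (m' : Ideal S) [m'.IsPrime] (h : m = m'.comap f)
    (hmax : lo m' (m.map f) = IsLocalRing.maximalIdeal (Localization.AtPrime m')) (I : Ideal R) :
    Module.length (Localization.AtPrime m') (Localization.AtPrime m' ⧸ lo m' (I.map f)) =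
      Module.length (Localization.AtPrime m) (Localization.AtPrime m ⧸ lo m I) := by
  let := (Localization.localRingHom m m' f h).toAlgebra
  have h1 : Module.Flat (Localization.AtPrime m) (Localization.AtPrime m') :=
    hf.localRingHom m' m h
  have h2 : IsLocalHom (algebraMap (Localization.AtPrime m) (Localization.AtPrime m')) :=
    Localization.isLocalHom_localRingHom m m' f h
  have h3 : ∀ J : Ideal R, lo m' (J.map f) =
      (lo m J).map (algebraMap (Localization.AtPrime m) (Localization.AtPrime m')) := by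
    intro J
    rw [lo, lo, Ideal.map_map, Ideal.map_map]
    congr 1
    ext x
    exact (Localization.localRingHom_to_map m m' f h x).symm
  have h4 : (IsLocalRing.maximalIdeal (Localization.AtPrime m)).map
      (algebraMap (Localization.AtPrime m) (Localization.AtPrime m')) =
      IsLocalRing.maximalIdeal (Localization.AtPrime m') := by
    rw [← hmax, h3, lo, Localization.AtPrime.map_eq_maximalIdeal]
  have h5 : IsSimpleModule (Localization.AtPrime m') (Localization.AtPrime m' ⧸
      IsLocalRing.maximalIdeal (Localization.AtPrime m')) :=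
    isSimpleModule_iff_isCoatom.2 (IsLocalRing.maximalIdeal.isMaximal _).out
  rw [h3, (Algebra.TensorProduct.quotIdealMapEquivTensorQuot (Localization.AtPrime m')
    (lo m I)).toLinearEquiv.length_eq, IsLocalRing.length_baseChange, h4,
    Module.length_eq_one_iff.2 h5, mul_one]

private theorem wlen_loc {R : Type} [CommRing R] (m : Ideal R) [m.IsPrime] (hm : m.IsMaximal)
    {N : ℕ} {I : Ideal R} (hI : m ^ N ≤ I) :
    Module.length (Localization.AtPrime m) (Localization.AtPrime m ⧸ lo m I) =
      Module.length R (R ⧸ I) := by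
  have hsurj : Function.Surjective (algebraMap R (Localization.AtPrime m ⧸ lo m I)) := by
    intro z
    obtain ⟨z, rfl⟩ := Ideal.Quotient.mk_surjective z
    obtain ⟨x, s, rfl⟩ := IsLocalization.exists_mk'_eq m.primeCompl z
    obtain ⟨y, i, hi, hy⟩ := Ideal.IsMaximal.exists_inv_pow m s.2 N
    refine ⟨y * x, ?_⟩
    rw [IsScalarTower.algebraMap_apply R (Localization.AtPrime m), Ideal.Quotient.algebraMap_eq,
      Ideal.Quotient.eq]
    have h1 := congrArg (algebraMap R (Localization.AtPrime m)) hy
    rw [map_add, map_mul, map_one] at h1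
    have h2 := IsLocalization.mk'_spec (Localization.AtPrime m) x s
    have h3 : algebraMap R (Localization.AtPrime m) (y * x) -
        IsLocalization.mk' (Localization.AtPrime m) x s =
        -IsLocalization.mk' (Localization.AtPrime m) x s *
          algebraMap R (Localization.AtPrime m) i := by
      rw [map_mul]
      linear_combination (IsLocalization.mk' (Localization.AtPrime m) x s) * h1 -
        algebraMap R (Localization.AtPrime m) y * h2
    rw [h3]
    exact Ideal.mul_mem_left _ _ (Ideal.mem_map_of_mem _ (hI hi))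
  have hker : LinearMap.ker (Algebra.linearMap R (Localization.AtPrime m ⧸ lo m I)) = I := by
    ext x
    rw [LinearMap.mem_ker, Algebra.linearMap_apply,
      IsScalarTower.algebraMap_apply R (Localization.AtPrime m), Ideal.Quotient.algebraMap_eq,
      Ideal.Quotient.eq_zero_iff_mem,
      IsLocalization.algebraMap_mem_map_algebraMap_iff m.primeCompl]
    refine ⟨fun ⟨s, hs, h⟩ => ?_, fun h => ⟨1, one_mem _, by rwa [one_mul]⟩⟩
    obtain ⟨y, i, hi, hy⟩ := Ideal.IsMaximal.exists_inv_pow m hs N
    have h1 : x = y * (s * x) + i * x := by linear_combination (-x) * hy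
    rw [h1]
    exact add_mem (Ideal.mul_mem_left _ _ h) (Ideal.mul_mem_right _ _ (hI hi))
  have e : (R ⧸ I) ≃ₗ[R] (Localization.AtPrime m ⧸ lo m I) :=
    (Submodule.quotEquivOfEq _ _ hker.symm).trans
      ((Algebra.linearMap R (Localization.AtPrime m ⧸ lo m I)).quotKerEquivOfSurjective hsurj)
  rw [e.length_eq, Module.length_eq_of_surjective hsurj,
    Module.length_eq_of_surjective (S := Localization.AtPrime m)
      (R := Localization.AtPrime m ⧸ lo m I) Ideal.Quotient.mk_surjective]

/-- `S = F' ⊗[B] T ≅ F' ⊗[F] (F ⊗[B] T)`, so `S / m S ≅ F' ⊗[F] E` with `E = (F ⊗[B] T) / m`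
finite (Nullstellensatz) and separable over `F`. Hence `S / m S` is reduced
(`Algebra.FormallyUnramified.isReduced_of_field`) and Artinian; so `m S` is a radical ideal all of
whose primes are maximal, and a radical ideal stays radical in the localization. -/
theorem lo_spk_max {B T F F' : Type} [CommRing B] [CommRing T] [Algebra B T]
    [Algebra.FiniteType B T] [Field F] [PerfectField F] [Field F'] [Algebra B F] [Algebra B F']
    (ι : F →ₐ[B] F') (m : Ideal (F ⊗[B] T)) (hm : m.IsMaximal) (m' : Ideal (F' ⊗[B] T))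
    [m'.IsPrime] (h : m'.comap (bm T ι) = m) :
    lo m' (spk ι m) = IsLocalRing.maximalIdeal (Localization.AtPrime m') := by
  obtain ⟨h1, h2⟩ := wlen_spk ι m hm
  have h3 : spk ι m ≤ m' := Ideal.map_le_iff_le_comap.2 h.ge
  rw [← wlen_radical m' (N := 1) h2 (pow_one _).le h3, ← IsLocalization.map_radical m'.primeCompl,
    h1.radical]

/-- The local map is flat; `IsLocalRing.length_baseChange` and `lo_spk_max`. -/
theorem mult_lo_spk {B T F F' : Type} [CommRing B] [CommRing T] [Algebra B T]
    [Algebra.FiniteType B T] [Field F] [PerfectField F] [Field F'] [Algebra B F] [Algebra B F']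
    (ι : F →ₐ[B] F') (m : Ideal (F ⊗[B] T)) [m.IsPrime] (hm : m.IsMaximal)
    (m' : Ideal (F' ⊗[B] T)) [m'.IsPrime] (h : m'.comap (bm T ι) = m) (J : Ideal (F ⊗[B] T))
    (n : ℕ) : mult n (lo m' (spk ι J)) = mult n (lo m J) := by
  have hf : (bm T ι).toRingHom.Flat :=
    RingHom.Flat.tensorProductMap (RingHom.Flat.of_isField (Field.toIsField F) _)
      (RingHom.Flat.id T)
  have key : ∀ j : ℕ, Module.length (Localization.AtPrime m')
      (Localization.AtPrime m' ⧸ lo m' (spk ι J) ^ j) =
      Module.length (Localization.AtPrime m) (Localization.AtPrime m ⧸ lo m J ^ j) := by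
    intro j
    have h1 := wlen_flat (bm T ι).toRingHom hf m m' h.symm (lo_spk_max ι m hm m' h) (J ^ j)
    rw [Ideal.map_pow, lo, lo, Ideal.map_pow, Ideal.map_pow] at h1
    exact h1
  simp only [mult, key]

/-- `R / J ^ j → R_m / J ^ j R_m` is bijective. -/
theorem mult_lo {R : Type} [CommRing R] (m : Ideal R) [m.IsPrime] (hm : m.IsMaximal) {k : ℕ}
    {J : Ideal R} (hJ : m ^ k ≤ J) (n : ℕ) : mult n (lo m J) = mult n J := by
  have key : ∀ j : ℕ, Module.length (Localization.AtPrime m)
      (Localization.AtPrime m ⧸ lo m J ^ j) = Module.length R (R ⧸ J ^ j) := by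
    intro j
    have h1 := wlen_loc m hm (N := k * j) (I := J ^ j) (by
      rw [pow_mul]
      exact Ideal.pow_right_mono hJ j)
    rw [lo, Ideal.map_pow] at h1
    exact h1
  simp only [mult, key]

theorem radical_lo {R : Type} [CommRing R] (m : Ideal R) [m.IsPrime] {I J : Ideal R} {N : ℕ}
    (hI : ∀ q : Ideal R, q.IsPrime → I ≤ q → q.IsMaximal) (h1 : I ^ N ≤ J) (h2 : J ≤ m) :
    (lo m J).radical = IsLocalRing.maximalIdeal (Localization.AtPrime m) := by
  exact wlen_radical m hI h1 h2

end

end Pool.Agent.Lib.MP_4287a9_ag
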