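import Pool.Agent.Lib.MP_4287a9_ag.WSemi
import Pool.Agent.Lib.MP_4287a9_ag.WLen

/-!
Spreading of local inclusions; ideals at an unramified point come from `T`.
-/

open scoped TensorProduct ENNReal NNReal nonZeroDivisors Polynomial
open Filter

namespace Pool.Agent.Lib.MP_4287a9_ag

noncomputable section

variable {B T : Type} [CommRing B] [CommRing T] [Algebra B T]

/-- Clearing denominators on the fibre over the fraction field. -/
theorem wspr_frac {Λ E : Type} [CommRing Λ] [IsDomain Λ] [Algebra B Λ] [Field E] [Algebra B E]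
    [Algebra Λ E] [IsScalarTower B Λ E] [IsFractionRing Λ E] (σ : T →ₐ[B] Λ)
    {I₂ : Ideal (Λ ⊗[B] T)} {x : Λ ⊗[B] T} {s : E ⊗[B] T}
    (hs : pa ((IsScalarTower.toAlgHom B Λ E).comp σ) s ≠ 0)
    (h : s * bm T (IsScalarTower.toAlgHom B Λ E) x ∈ spk (IsScalarTower.toAlgHom B Λ E) I₂) :
    ∃ g : Λ ⊗[B] T, pa σ g ≠ 0 ∧ g * x ∈ I₂ := by
  set i := IsScalarTower.toAlgHom B Λ E with hi
  let u : Λ ⊗[B] T →ₗ[Λ] E ⊗[B] T :=
    TensorProduct.AlgebraTensorModule.rTensor B T (Algebra.linearMap Λ E)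
  have hu : ∀ r, u r = bm T i r := fun r => by
    induction r using TensorProduct.induction_on with
    | zero => simp
    | tmul a t => simp [u, hi]
    | add a b ha hb => rw [map_add, map_add, ha, hb]
  have hloc : IsLocalizedModule Λ⁰ u := IsLocalizedModule.rTensor Λ Λ⁰ (Algebra.linearMap Λ E)
  have hsm : ∀ (d : Λ) (r : Λ ⊗[B] T), bm T i (d • r) = d • bm T i r := fun d r => by
    rw [← hu, ← hu, map_smul]
  have hsurj : ∀ y : E ⊗[B] T, ∃ d : Λ, d ≠ 0 ∧ ∃ r, d • y = bm T i r := fun y => by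
    obtain ⟨⟨r, d⟩, hd⟩ := IsLocalizedModule.surj Λ⁰ u y
    exact ⟨d, nonZeroDivisors.coe_ne_zero d, r, by rw [← hu]; exact hd⟩
  have hker : ∀ r r' : Λ ⊗[B] T, bm T i r = bm T i r' → ∃ d : Λ, d ≠ 0 ∧ d • r = d • r' :=
    fun r r' e => by
      rw [← hu, ← hu] at e
      obtain ⟨d, hd⟩ := IsLocalizedModule.exists_of_eq (S := Λ⁰) e
      exact ⟨d, nonZeroDivisors.coe_ne_zero d, hd⟩
  have hI : ∀ y ∈ spk i I₂, ∃ d : Λ, d ≠ 0 ∧ ∃ r ∈ I₂, d • y = bm T i r := by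
    intro y hy
    unfold spk Ideal.map at hy
    induction hy using Submodule.span_induction with
    | mem y hy =>
      obtain ⟨r, hr, rfl⟩ := hy
      exact ⟨1, one_ne_zero, r, hr, one_smul _ _⟩
    | zero => exact ⟨1, one_ne_zero, 0, I₂.zero_mem, by simp⟩
    | add y z _ _ hy hz =>
      obtain ⟨d, hd, r, hr, e⟩ := hy
      obtain ⟨d', hd', r', hr', e'⟩ := hz
      refine ⟨d * d', mul_ne_zero hd hd', d' • r + d • r',
        I₂.add_mem (Submodule.smul_of_tower_mem _ _ hr) (Submodule.smul_of_tower_mem _ _ hr'), ?_⟩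
      rw [map_add, hsm, hsm, ← e, ← e', smul_add, smul_smul, smul_smul, mul_comm d' d]
    | smul z y _ hy =>
      obtain ⟨d, hd, r, hr, e⟩ := hy
      obtain ⟨d', hd', r', e'⟩ := hsurj z
      refine ⟨d' * d, mul_ne_zero hd' hd, r' * r, I₂.mul_mem_left _ hr, ?_⟩
      rw [map_mul, ← e, ← e', smul_eq_mul, smul_mul_smul_comm]
  obtain ⟨d₁, hd₁, g₁, e₁⟩ := hsurj s
  obtain ⟨d₂, hd₂, r, hr, e₂⟩ := hI _ h
  obtain ⟨d₃, hd₃, e₃⟩ := hker (d₂ • (g₁ * x)) (d₁ • r) (by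
    rw [hsm, hsm, map_mul, ← e₁, ← e₂, smul_mul_assoc, smul_comm])
  refine ⟨(d₃ * d₂) • g₁, ?_, ?_⟩
  · rw [map_smul, smul_eq_mul]
    refine mul_ne_zero (mul_ne_zero hd₃ hd₂) fun h0 => ?_
    have e₄ := pa_bm σ i g₁
    rw [h0, map_zero, ← e₁, ← algebraMap_smul E d₁ s, map_smul, smul_eq_mul] at e₄
    rcases mul_eq_zero.1 e₄ with h1 | h1
    · exact hd₁ (IsFractionRing.injective Λ E (h1.trans (map_zero _).symm))
    · exact hs h1
  · rw [smul_mul_assoc, mul_smul, e₃]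
    exact Submodule.smul_of_tower_mem _ _ (Submodule.smul_of_tower_mem _ _ hr)

/-- Descent of one relation from `F` to `Λ`. -/
theorem wspr_one {Λ F : Type} [CommRing Λ] [Algebra B Λ] [Field F] [Algebra B F] (σ : T →ₐ[B] Λ)
    (j : Λ →ₐ[B] F) (hj : Function.Injective j) {I₂ : Ideal (Λ ⊗[B] T)} {x : Λ ⊗[B] T}
    {s : F ⊗[B] T} (hs : pa (j.comp σ) s ≠ 0) (h : s * bm T j x ∈ spk j I₂) :
    ∃ g : Λ ⊗[B] T, pa σ g ≠ 0 ∧ g * x ∈ I₂ := by
  haveI : IsDomain Λ := Function.Injective.isDomain j.toRingHom hj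
  let E := FractionRing Λ
  let i : Λ →ₐ[B] E := IsScalarTower.toAlgHom B Λ E
  have hj' : Function.Injective (j : Λ →+* F) := hj
  letI : Algebra E F := (IsFractionRing.lift (K := E) hj').toAlgebra
  have hij : ∀ a : Λ, algebraMap E F (i a) = j a := fun a =>
    IsFractionRing.lift_algebraMap (K := E) hj' a
  obtain ⟨π, hπ⟩ := Module.Projective.exists_dual_eq_one E hs
  have hπm : ∀ (a : Λ) (y : F), π (y * j a) = π y * i a := fun a y => by
    rw [← hij, mul_comm y, ← Algebra.smul_def, map_smul, smul_eq_mul, mul_comm]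
  let π' : F →ₗ[B] E :=
    { toFun := π
      map_add' := π.map_add
      map_smul' := fun b y => by
        rw [Algebra.smul_def, mul_comm, ← j.commutes b, hπm, i.commutes, RingHom.id_apply,
          Algebra.smul_def, mul_comm] }
  let P : F ⊗[B] T →ₗ[B] E ⊗[B] T := TensorProduct.map π' LinearMap.id
  have hP : ∀ (a : F) (t : T), P (a ⊗ₜ[B] t) = π a ⊗ₜ[B] t := fun a t => rfl
  have hmul : ∀ (y : F ⊗[B] T) (r : Λ ⊗[B] T), P (y * bm T j r) = P y * bm T i r := by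
    intro y r
    induction r using TensorProduct.induction_on with
    | zero => simp
    | add a b ha hb => rw [map_add, map_add, mul_add, mul_add, map_add, ha, hb]
    | tmul a t =>
      induction y using TensorProduct.induction_on with
      | zero => simp
      | add y z hy hz => rw [add_mul, map_add, map_add, add_mul, hy, hz]
      | tmul c w =>
        rw [Algebra.TensorProduct.map_tmul, Algebra.TensorProduct.map_tmul,
          Algebra.TensorProduct.tmul_mul_tmul, hP, hP, Algebra.TensorProduct.tmul_mul_tmul, hπm]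
  have hpa : ∀ y : F ⊗[B] T, pa (i.comp σ) (P y) = π (pa (j.comp σ) y) := fun y => by
    induction y using TensorProduct.induction_on with
    | zero => simp
    | add y z hy hz => rw [map_add, map_add, map_add, map_add, hy, hz]
    | tmul c w => rw [hP, pa_tmul, pa_tmul, AlgHom.comp_apply, AlgHom.comp_apply, hπm]
  have hI : ∀ y ∈ spk j I₂, ∀ z, P (z * y) ∈ spk i I₂ := by
    intro y hy
    unfold spk Ideal.map at hy
    induction hy using Submodule.span_induction with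
    | mem y hy =>
      obtain ⟨r, hr, rfl⟩ := hy
      intro z
      rw [hmul]
      exact Ideal.mul_mem_left _ _ (Ideal.mem_map_of_mem _ hr)
    | zero => intro z; simp
    | add y y' _ _ hy hy' =>
      intro z
      rw [mul_add, map_add]
      exact Ideal.add_mem _ (hy z) (hy' z)
    | smul w y _ hy =>
      intro z
      rw [smul_eq_mul, ← mul_assoc]
      exact hy _
  have h1 := hI _ h 1
  rw [one_mul, hmul] at h1
  refine wspr_frac (E := E) σ (s := P s) ?_ h1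
  rw [hpa, hπ]
  exact one_ne_zero

/-- For a generator `x` of `I₁` there is `s` with `pa s ≠ 0` and `s * bm x ∈ spk j I₂`. Let
`E = FractionRing Λ` and `π : F → E` be `E`-linear with `π (pa s) = 1`. Apply `π ⊗ id` and clear
denominators. -/
theorem spr {Λ F : Type} [CommRing Λ] [Algebra B Λ] [Field F] [Algebra B F] (σ : T →ₐ[B] Λ)
    (j : Λ →ₐ[B] F) (hj : Function.Injective j) {I₁ I₂ : Ideal (Λ ⊗[B] T)} (hfg : I₁.FG)
    (h : lo (pk (j.comp σ)) (spk j I₁) ≤ lo (pk (j.comp σ)) (spk j I₂)) :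
    ∃ g : Λ ⊗[B] T, pa σ g ≠ 0 ∧ Ideal.span {g} * I₁ ≤ I₂ := by
  haveI : IsDomain Λ := Function.Injective.isDomain j.toRingHom hj
  have key : ∀ x ∈ I₁, ∃ g : Λ ⊗[B] T, pa σ g ≠ 0 ∧ g * x ∈ I₂ := fun x hx => by
    have h1 := h (Ideal.mem_map_of_mem _ (Ideal.mem_map_of_mem (bm T j) hx))
    obtain ⟨s, hs, h2⟩ := (IsLocalization.algebraMap_mem_map_algebraMap_iff
      (pk (j.comp σ)).primeCompl _ _ _).1 h1
    exact wspr_one σ j hj hs h2
  obtain ⟨S, rfl⟩ := hfg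
  choose! g hg1 hg2 using key
  refine ⟨∏ x ∈ S, g x, ?_, ?_⟩
  · rw [map_prod]
    exact Finset.prod_ne_zero_iff.2 fun x hx => hg1 x (Ideal.subset_span hx)
  · rw [Ideal.span_singleton_mul_le_iff]
    intro z hz
    induction hz using Submodule.span_induction with
    | mem y hy =>
      obtain ⟨c, hc⟩ := Finset.dvd_prod_of_mem g (show y ∈ S from hy)
      rw [hc, mul_right_comm]
      exact Ideal.mul_mem_right _ _ (hg2 y (Ideal.subset_span hy))
    | zero => simp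
    | add y y' _ _ hy hy' =>
      rw [mul_add]
      exact Ideal.add_mem _ hy hy'
    | smul w y _ hy =>
      rw [smul_eq_mul, mul_left_comm]
      exact Ideal.mul_mem_left _ _ hy

theorem spr_lo {Λ κ : Type} [CommRing Λ] [Algebra B Λ] [Field κ] [Algebra B κ] (σ : T →ₐ[B] Λ)
    (χ : Λ →ₐ[B] κ) {I₁ I₂ : Ideal (Λ ⊗[B] T)} {g : Λ ⊗[B] T} (hg : χ (pa σ g) ≠ 0)
    (h : Ideal.span {g} * I₁ ≤ I₂) :
    lo (pk (χ.comp σ)) (spk χ I₁) ≤ lo (pk (χ.comp σ)) (spk χ I₂) := by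
  rw [Ideal.span_singleton_mul_le_iff] at h
  unfold spk
  rw [Ideal.map_le_iff_le_comap, Ideal.map_le_iff_le_comap]
  intro x hx
  rw [Ideal.mem_comap, Ideal.mem_comap]
  refine (IsLocalization.algebraMap_mem_map_algebraMap_iff
    (pk (χ.comp σ)).primeCompl _ _ _).2 ⟨bm T χ g, ?_, ?_⟩
  · intro h0
    exact hg ((pa_bm σ χ g).symm.trans h0)
  · rw [← map_mul]
    exact Ideal.mem_map_of_mem _ (h x hx)

/-- Let `P = C ⊗[B] T`, `K = pk σ`, `𝔨 = ker σ`, `σ g₀ = pa g`. Then `P = T + K`, `g K ⊆ 𝔨 P`,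
`g - g₀ ∈ K`, so `g₀ ^ i K ^ i ⊆ T + K ^ (i + 1)`, and `g₀ ^ a P ⊆ T + K ^ N` for some `a`. For
`c ∈ 𝔠`, `g₀ ^ a c = t + c'` with `c' ∈ K ^ N`, `t` in the contraction; `g ^ N c' ∈ 𝔨 ^ N P`. -/
theorem pullback {C : Type} [CommRing C] [IsDomain C] [Algebra B C] (σ : T →ₐ[B] C)
    (hσ : Function.Surjective σ) {g : C ⊗[B] T} (hg : pa σ g ≠ 0)
    (hK : Ideal.span {g} * pk σ ≤ ext B C (RingHom.ker σ)) {𝔠 : Ideal (C ⊗[B] T)} {N : ℕ}
    (h1 : pk σ ^ N ≤ 𝔠) (h2 : 𝔠 ≤ pk σ) :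
    ∃ (𝔠₀ : Ideal T) (g' : C ⊗[B] T), RingHom.ker σ ^ N ≤ 𝔠₀ ∧ 𝔠₀ ≤ RingHom.ker σ ∧
      ext B C 𝔠₀ ≤ 𝔠 ∧ pa σ g' ≠ 0 ∧ Ideal.span {g'} * 𝔠 ≤ ext B C 𝔠₀ := by
  let ι : T →ₐ[B] C ⊗[B] T := Algebra.TensorProduct.includeRight
  have hι : ∀ t, pa σ (ι t) = σ t := fun t => by
    show pa σ ((1 : C) ⊗ₜ[B] t) = σ t
    rw [pa_tmul, one_mul]
  have hext : ∀ I : Ideal T, ext B C I = I.map ι := fun I => rfl
  have hkK : (RingHom.ker σ).map ι ≤ pk σ := by
    rw [Ideal.map_le_iff_le_comap]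
    intro t ht
    exact (hι t).trans ht
  have hsplit : ∀ p : C ⊗[B] T, ∃ t, p - ι t ∈ pk σ := fun p => by
    obtain ⟨t, ht⟩ := hσ (pa σ p)
    refine ⟨t, ?_⟩
    show pa σ (p - ι t) = 0
    rw [map_sub, hι, ht, sub_self]
  obtain ⟨g₀, hg₀⟩ := hsplit g
  have hg₀' : σ g₀ ≠ 0 := by
    have e : pa σ (g - ι g₀) = 0 := hg₀
    rw [map_sub, hι, sub_eq_zero] at e
    rwa [← e]
  have hpow : ∀ i : ℕ, ∀ y ∈ pk σ ^ i, g ^ i * y ∈ (RingHom.ker σ ^ i).map ι := fun i y hy => by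
    rw [Ideal.map_pow]
    have e := Ideal.pow_right_mono hK i
    rw [mul_pow, Ideal.span_singleton_pow, Ideal.span_singleton_mul_le_iff] at e
    exact e y hy
  have hmap : ∀ i : ℕ, ∀ y ∈ (RingHom.ker σ ^ i).map ι, ∀ z,
      ∃ t, z * y - ι t ∈ pk σ ^ (i + 1) := by
    intro i y hy
    unfold Ideal.map at hy
    induction hy using Submodule.span_induction with
    | mem y hy =>
      obtain ⟨r, hr, rfl⟩ := hy
      intro z
      obtain ⟨t, ht⟩ := hsplit z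
      refine ⟨t * r, ?_⟩
      rw [map_mul, ← sub_mul, pow_succ']
      refine Ideal.mul_mem_mul ht (Ideal.pow_right_mono hkK i ?_)
      rw [← Ideal.map_pow]
      exact Ideal.mem_map_of_mem _ hr
    | zero => exact fun z => ⟨0, by simp⟩
    | add y y' _ _ hy hy' =>
      intro z
      obtain ⟨t, ht⟩ := hy z
      obtain ⟨t', ht'⟩ := hy' z
      refine ⟨t + t', ?_⟩
      have e : z * (y + y') - ι (t + t') = (z * y - ι t) + (z * y' - ι t') := by
        rw [map_add]; ring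
      rw [e]
      exact Ideal.add_mem _ ht ht'
    | smul w y _ hy =>
      intro z
      rw [smul_eq_mul, ← mul_assoc]
      exact hy _
  have hA : ∀ i : ℕ, ∀ y ∈ pk σ ^ i, ∃ t, ι g₀ ^ i * y - ι t ∈ pk σ ^ (i + 1) := by
    intro i y hy
    obtain ⟨t, ht⟩ := hmap i _ (hpow i y hy) 1
    refine ⟨t, ?_⟩
    obtain ⟨c, hc⟩ := sub_dvd_pow_sub_pow g (ι g₀) i
    have e : ι g₀ ^ i * y - ι t = (1 * (g ^ i * y) - ι t) - ((g - ι g₀) * c) * y := by
      rw [← hc]; ring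
    rw [e]
    refine Ideal.sub_mem _ ht ?_
    rw [pow_succ']
    exact Ideal.mul_mem_mul (Ideal.mul_mem_right _ _ hg₀) hy
  have hB : ∀ M : ℕ, ∃ a : ℕ, ∀ p : C ⊗[B] T, ∃ t, ι g₀ ^ a * p - ι t ∈ pk σ ^ M := by
    intro M
    induction M with
    | zero => exact ⟨0, fun p => ⟨0, by simp⟩⟩
    | succ M ih =>
      obtain ⟨a, ha⟩ := ih
      refine ⟨M + a, fun p => ?_⟩
      obtain ⟨t, ht⟩ := ha p
      obtain ⟨t', ht'⟩ := hA M _ ht
      refine ⟨g₀ ^ M * t + t', ?_⟩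
      have e : ι g₀ ^ (M + a) * p - ι (g₀ ^ M * t + t') =
          ι g₀ ^ M * (ι g₀ ^ a * p - ι t) - ι t' := by
        rw [map_add, map_mul, map_pow]; ring
      rwa [e]
  obtain ⟨a, ha⟩ := hB N
  have hN : RingHom.ker σ ^ N ≤ 𝔠.comap ι := by
    rw [← Ideal.map_le_iff_le_comap, Ideal.map_pow]
    exact (Ideal.pow_right_mono hkK N).trans h1
  refine ⟨𝔠.comap ι, g ^ N * ι g₀ ^ a, hN, fun t ht => ?_, Ideal.map_comap_le, ?_, ?_⟩
  · exact (hι t).symm.trans (h2 ht)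
  · rw [map_mul, map_pow, map_pow, hι]
    exact mul_ne_zero (pow_ne_zero _ hg) (pow_ne_zero _ hg₀')
  · rw [Ideal.span_singleton_mul_le_iff, hext]
    intro c hc
    obtain ⟨t, ht⟩ := ha c
    have h3 : ι t ∈ 𝔠 := by
      have e : ι t = ι g₀ ^ a * c - (ι g₀ ^ a * c - ι t) := by ring
      rw [e]
      exact Ideal.sub_mem _ (Ideal.mul_mem_left _ _ hc) (h1 ht)
    have e : g ^ N * ι g₀ ^ a * c = g ^ N * ι t + g ^ N * (ι g₀ ^ a * c - ι t) := by ring
    rw [e]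
    exact Ideal.add_mem _ (Ideal.mul_mem_left _ _ (Ideal.mem_map_of_mem _ h3))
      (Ideal.map_mono hN (hpow N _ ht))

end

end Pool.Agent.Lib.MP_4287a9_ag
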