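import Pool.Agent.Lib.MP_4287a9_ag.P1f

/-!
A sum of bad ideals is bad.
-/

open scoped TensorProduct ENNReal NNReal nonZeroDivisors Polynomial
open Filter

namespace Pool.Agent.Lib.MP_4287a9_ag

noncomputable section

private lemma wsum_ineq {n k r0 μ Q q' j : ℕ} {q t : ℝ} (hk : 1 ≤ k)
    (hj : k * j ≤ n * q' + r0 + k)
    (h : (Q : ℝ) * (r0 + k + k * μ) + k * t ≤ (k * q * t - n * Q) * q') :
    Q * j + μ * Q ≤ ⌈t * (q * q' - 1)⌉₊ := by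
  have hk' : (0 : ℝ) < k := by exact_mod_cast hk
  have hj' : (k : ℝ) * j ≤ n * q' + r0 + k := by exact_mod_cast hj
  have h1 : ((Q * j + μ * Q : ℕ) : ℝ) ≤ t * (q * q' - 1) := by
    refine le_of_mul_le_mul_left ?_ hk'
    push_cast
    have h3 := mul_le_mul_of_nonneg_left hj' (Nat.cast_nonneg (α := ℝ) Q)
    nlinarith
  exact_mod_cast h1.trans (Nat.le_ceil _)

/-- As `stepE`, with `Q = p ^ e'` in place of `q` in the pigeonhole argument: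
`J ^ (Q j + μ Q) ⊆ (fpow J Q) ^ j ⊆ I ^ (k j)`. -/
theorem stepE' {p : ℕ} [Fact p.Prime] {R : Type} [CommRing R] [IsLocalRing R] [IsNoetherianRing R]
    [CharP R p] {𝔡 J : Ideal R} {r e e' n k r0 : ℕ} (hk : 1 ≤ k)
    (hJ : fpow J (p ^ e') ≤ Isp 𝔡 r (p ^ e) ^ k)
    (hred : ∀ e'' : ℕ, Isp 𝔡 r (p ^ e) ^ (n * p ^ e'' + r0) ≤ fpow (Isp 𝔡 r (p ^ e)) (p ^ e''))
    {t : ℝ≥0} (ht : (n : ℝ) * (p : ℝ) ^ e' < k * (p : ℝ) ^ e * t) : ¬ SFRi p 𝔡 r J t := by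
  intro hS
  have hp : p.Prime := Fact.out
  obtain ⟨μ, x, hx⟩ := p1f_gens J
  have hδ : (0 : ℝ) < k * (p : ℝ) ^ e * t - n * ((p ^ e' : ℕ) : ℝ) := by
    push_cast
    exact sub_pos.2 ht
  obtain ⟨N, hN⟩ := exists_nat_ge ((((p ^ e' : ℕ) : ℝ) * (r0 + k + k * μ) + k * t) /
    (k * (p : ℝ) ^ e * t - n * ((p ^ e' : ℕ) : ℝ)))
  obtain ⟨e₁, he₁, -, a, ha, Θ, hΘ, h1⟩ := pure_iter hp.pos hS (e + N)
  obtain ⟨e'', rfl⟩ : ∃ e'', e₁ = e + e'' := ⟨e₁ - e, by omega⟩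
  have hN' : (N : ℝ) ≤ ((p ^ e'' : ℕ) : ℝ) := by
    exact_mod_cast (show N ≤ e'' by omega).trans (Nat.lt_pow_self hp.one_lt).le
  have hdm := Nat.div_add_mod (n * p ^ e'' + r0) k
  have hml := Nat.mod_lt (n * p ^ e'' + r0) (show 0 < k from hk)
  set j := (n * p ^ e'' + r0) / k + 1 with hj
  have hj1 : k * j ≤ n * p ^ e'' + r0 + k := by rw [hj, mul_add, mul_one]; omega
  have hj2 : n * p ^ e'' + r0 ≤ k * j := by rw [hj, mul_add, mul_one]; omega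
  have hq : 0 < p ^ e' := pow_pos hp.pos e'
  have h2 := wsum_ineq (μ := μ) (Q := p ^ e') (q := (p : ℝ) ^ e) (t := t) hk hj1
    (((div_le_iff₀ hδ).1 (hN.trans hN')).trans_eq (mul_comm _ _))
  have h3 : J ^ ⌈(t : ℝ) * ((p : ℝ) ^ (e + e'') - 1)⌉₊ ≤ fpow (Isp 𝔡 r (p ^ e)) (p ^ e'') := by
    have h4 : ((p : ℝ) ^ (e + e'')) = (p : ℝ) ^ e * ((p ^ e'' : ℕ) : ℝ) := by
      push_cast
      rw [pow_add]
    rw [h4]
    refine (Ideal.pow_le_pow_right h2).trans ?_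
    conv_lhs => rw [← hx]
    refine (span_pow_le_fpow_pow x hq j).trans ?_
    refine (Ideal.pow_right_mono ((p1f_span_le hx _).trans hJ) j).trans ?_
    rw [← pow_mul]
    exact (Ideal.pow_le_pow_right hj2).trans (hred e'')
  have h5 := p1f_theta hΘ (h3 ha) 1
  rw [mul_one, h1] at h5
  exact (IsLocalRing.maximalIdeal.isMaximal R).ne_top ((Ideal.eq_top_iff_one _).2 h5)

/-- Take a large level `q` from `pure_iter h0` (so `I = Isp` is proper and contains a power of `m`,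
see `partI`), `A = ⌈τ q⌉ + 1` with `n A < q t`. By `stepA`, `J i ^ A ≤ I`. For `Q = p ^ e'` large
and `k = Q / A`, `x ^ Q ∈ I ^ k` for `x ∈ J i`, hence for `x ∈ ⨆ i, J i` (Frobenius is additive),
and `n Q < k q t`. `red1`, `stepE'`. -/
theorem sum_bad {p : ℕ} [Fact p.Prime] {R : Type} [CommRing R] [IsLocalRing R]
    [IsNoetherianRing R] [CharP R p] {𝔡 : Ideal R} {r n C s : ℕ} {J : Fin s → Ideal R}
    (hl : ∀ j : ℕ, Module.length R (R ⧸ IsLocalRing.maximalIdeal R ^ j) ≤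
      ((C * j ^ n : ℕ) : ℕ∞)) (h0 : SFRi p 𝔡 r ⊤ 0) {τ t : ℝ≥0}
    (hJ : ∀ i, ¬ SFRi p 𝔡 r (J i) τ) (ht : (n : ℝ) * τ < t) : ¬ SFRi p 𝔡 r (⨆ i, J i) t := by
  have hp : p.Prime := Fact.out
  have hδ : (0 : ℝ) < t - n * τ := sub_pos.2 ht
  obtain ⟨N, hN⟩ := exists_nat_gt (2 * n / ((t : ℝ) - n * τ))
  obtain ⟨e, he, hr, a, -, φ, hφ, hφa⟩ := pure_iter hp.pos h0 N
  have hm := IsLocalRing.maximalIdeal.isMaximal R
  have hI : Isp 𝔡 r (p ^ e) ≤ IsLocalRing.maximalIdeal R := by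
    refine IsLocalRing.le_maximalIdeal fun h => ?_
    have h5 : a ∈ Isp 𝔡 r (p ^ e) := h ▸ Submodule.mem_top
    have h6 := h5 φ hφ
    rw [hφa] at h6
    exact hm.ne_top ((Ideal.eq_top_iff_one _).2 h6)
  obtain ⟨μ, y, hy⟩ := p1f_gens (IsLocalRing.maximalIdeal R)
  have hL : IsLocalRing.maximalIdeal R ^ (μ * p ^ e + 1) ≤ Isp 𝔡 r (p ^ e) := by
    conv_lhs => rw [← hy]
    exact (span_pow_le_span_pow y _).trans ((p1f_span_le hy _).trans (fpow_le_Isp 𝔡 r _))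
  obtain ⟨r0, hr0⟩ := red1 (p := p) hI hL hl
  obtain ⟨A, hA⟩ : ∃ A, A = ⌈(τ : ℝ) * (p : ℝ) ^ e⌉₊ + 1 := ⟨_, rfl⟩
  have hA0 : 0 < A := by omega
  have hJA : ∀ i, J i ^ A ≤ Isp 𝔡 r (p ^ e) := fun i =>
    (Ideal.pow_le_pow_right (by omega)).trans (stepA hp.pos h0 (hJ i) hr)
  have hA1 : (n : ℝ) * A < (p : ℝ) ^ e * t := by
    have hN' : (N : ℝ) ≤ (p : ℝ) ^ e := by
      exact_mod_cast he.trans (Nat.lt_pow_self hp.one_lt).le
    have h6 : (2 * n : ℝ) < (p : ℝ) ^ e * (t - n * τ) := (div_lt_iff₀ hδ).1 (hN.trans_le hN')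
    have h7 : (⌈(τ : ℝ) * (p : ℝ) ^ e⌉₊ : ℝ) ≤ (τ : ℝ) * (p : ℝ) ^ e + 1 :=
      (Nat.ceil_lt_add_one (mul_nonneg τ.2 (pow_nonneg (Nat.cast_nonneg p) e))).le
    have h8 := mul_le_mul_of_nonneg_left h7 (Nat.cast_nonneg (α := ℝ) n)
    rw [hA]
    push_cast
    linarith
  have hδ' : (0 : ℝ) < (p : ℝ) ^ e * t - n * A := sub_pos.2 hA1
  obtain ⟨K, hK⟩ := exists_nat_gt (n * A / ((p : ℝ) ^ e * t - n * A))
  obtain ⟨e', hQ⟩ : ∃ e', (K + 1) * A ≤ p ^ e' := ⟨_, (Nat.lt_pow_self hp.one_lt).le⟩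
  obtain ⟨k, hk⟩ : ∃ k, k = p ^ e' / A := ⟨_, rfl⟩
  have hk1 : K + 1 ≤ k := hk ▸ (Nat.le_div_iff_mul_le hA0).2 hQ
  have hk2 : A * k ≤ p ^ e' := hk ▸ Nat.mul_div_le _ _
  have hk3 : p ^ e' ≤ A * (k + 1) := hk ▸ (Nat.lt_mul_div_succ _ hA0).le
  refine stepE' (e' := e') (k := k) (by omega) ?_ hr0 ?_
  · have h1 : (⨆ i, J i) ≤ (Isp 𝔡 r (p ^ e) ^ k).comap (iterateFrobenius R p e') := by
      refine iSup_le fun i z hz => ?_
      rw [Ideal.mem_comap, iterateFrobenius_def, ← Nat.add_sub_cancel' hk2, pow_add, pow_mul]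
      exact Ideal.mul_mem_right _ _ (Ideal.pow_mem_pow (hJA i (Ideal.pow_mem_pow hz A)) k)
    refine Ideal.span_le.2 ?_
    rintro _ ⟨z, hz, rfl⟩
    have h2 := h1 hz
    rwa [Ideal.mem_comap, iterateFrobenius_def] at h2
  · have h1 : ((p : ℝ) ^ e') ≤ A * (k + 1) := by exact_mod_cast hk3
    have h2 : (K : ℝ) ≤ k := by exact_mod_cast (show K ≤ k by omega)
    have h3 := (div_lt_iff₀ hδ').1 (hK.trans_le h2)
    have h4 := mul_le_mul_of_nonneg_left h1 (Nat.cast_nonneg (α := ℝ) n)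
    linarith

end

end Pool.Agent.Lib.MP_4287a9_ag
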