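import Pool.Agent.Lib.MP_4287a9_ag.WGn
import Pool.Agent.Lib.MP_4287a9_ag.WGeo
import Pool.Agent.Lib.MP_4287a9_ag.WSpr
import Pool.Agent.Lib.MP_4287a9_ag.WSum

/-!
Descent of a bad ideal to the smallest field of definition of the point.
-/

open scoped TensorProduct ENNReal NNReal nonZeroDivisors Polynomial
open Filter

namespace Pool.Agent.Lib.MP_4287a9_ag

noncomputable section

theorem dt_bm_smul {B T C F : Type} [CommRing B] [CommRing T] [Algebra B T] [CommRing C]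
    [Algebra B C] [CommRing F] [Algebra B F] (χ : C →ₐ[B] F) (a : C) (x : C ⊗[B] T) :
    bm T χ (a • x) = χ a • bm T χ x := by
  rw [Algebra.smul_def, Algebra.smul_def, map_mul]
  congr 1

theorem dt_mem_of_smul {κ S : Type} [Field κ] [CommRing S] [Algebra κ S] {I : Ideal S} {a : κ}
    (ha : a ≠ 0) {x : S} (h : a • x ∈ I) : x ∈ I := by
  have : x = a⁻¹ • (a • x) := by rw [smul_smul, inv_mul_cancel₀ ha, one_smul]
  rw [this, Algebra.smul_def]
  exact I.mul_mem_left _ h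

theorem dt_smul_mem {κ S : Type} [CommRing κ] [CommRing S] [Algebra κ S] {I : Ideal S} (a : κ)
    {x : S} (h : x ∈ I) : a • x ∈ I := by
  rw [Algebra.smul_def]
  exact I.mul_mem_left _ h

theorem dt_matrix {κ S : Type} [Field κ] [CommRing S] [Algebra κ S] {I : Ideal S} {s : ℕ}
    (M : Matrix (Fin s) (Fin s) κ) (hM : M.det ≠ 0) (v : Fin s → S)
    (h : ∀ a, ∑ i, M a i • v i ∈ I) (i : Fin s) : v i ∈ I := by
  refine dt_mem_of_smul hM ?_
  have h1 : M.det • v i = ∑ a, M.adjugate i a • ∑ k, M a k • v k := by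
    simp only [Finset.smul_sum, smul_smul]
    rw [Finset.sum_comm]
    simp only [← Finset.sum_smul]
    have h2 : ∀ k, ∑ a, M.adjugate i a * M a k = if i = k then M.det else 0 := by
      intro k
      have := congrFun (congrFun (Matrix.adjugate_mul M) i) k
      rw [Matrix.mul_apply] at this
      rw [this, Matrix.smul_apply, Matrix.one_apply]
      split_ifs <;> simp
    simp [h2]
  rw [h1]
  exact I.sum_mem fun a _ => dt_smul_mem _ (h a)

theorem dt_sfat_congr {B T κ : Type} [CommRing B] [CommRing T] [Algebra B T] [Field κ]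
    [Algebra B κ] {τ₁ τ₂ : T →ₐ[B] κ} (h : τ₁ = τ₂) {p r : ℕ} {𝔡 𝔞 : Ideal (κ ⊗[B] T)} {t : ℝ≥0}
    (H : SFat p (pk τ₁) 𝔡 r 𝔞 t) : SFat p (pk τ₂) 𝔡 r 𝔞 t := by
  subst h
  exact H

theorem dt_spk_pow {B T C F : Type} [CommRing B] [CommRing T] [Algebra B T] [CommRing C]
    [Algebra B C] [CommRing F] [Algebra B F] (σ : T →ₐ[B] C) (χ : C →ₐ[B] F) (N : ℕ) :
    spk χ (pk σ ^ N) = pk (χ.comp σ) ^ N := by
  rw [← spk_pk σ χ, spk, spk, Ideal.map_pow]

/-- Let `f j` generate `𝒥`; `exists_coeff` gives `l, c, b`; `𝔠 = (c j i) + pk σ ^ N` lies in `pk σ`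
by independence (`pa_bm`); `pullback` gives `𝔠₀, g'`; `g = ι (b * pa σ g')`. For the badness use
`Gen.down` along `ι''` from `exists_general`: at a general point `χ` of `Λ''` the ideals
`J a = lo (spk (χ.comp (x a)) 𝒥)` are bad at `τ` (the point is `χ.comp (ι''.comp σ)` for all `a`),
their sum is bad at `t` (`sum_bad`) and contains the `c j i` (invert the matrix) and `pk ^ N`
(`0 < s`); `SFRi.mono`. -/
theorem dt {B T C Λ : Type} [CommRing B] [Algebra.FiniteType ℤ B] [CommRing T] [Algebra B T]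
    [Algebra.FiniteType B T] [CommRing C] [IsDomain C] [CharZero C] [Algebra B C]
    (hC : Function.Injective (algebraMap B C)) {σ : T →ₐ[B] C} (hσ : Function.Surjective σ)
    (hu : ∃ g : C ⊗[B] T, pa σ g ≠ 0 ∧ Ideal.span {g} * pk σ ≤ ext B C (RingHom.ker σ))
    {𝔡 : Ideal T} (hz : NZ B 𝔡) {n E r : ℕ} {c : T} {x : Fin n → T} (hT : TG σ 𝔡 n E c x)
    (h0 : Gen True σ 𝔡 r ⊤ 0) [CommRing Λ] [IsDomain Λ] [Algebra B Λ] [Algebra.FiniteType B Λ]
    (ι : C →ₐ[B] Λ) (hι : Function.Injective ι) {𝒥 : Ideal (Λ ⊗[B] T)} {N : ℕ}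
    (h1 : pk (ι.comp σ) ^ N ≤ 𝒥) (h2 : 𝒥 ≤ pk (ι.comp σ)) {τ : ℝ≥0}
    (hb : Gen False (ι.comp σ) 𝔡 r 𝒥 τ) :
    ∃ 𝔠 : Ideal T, RingHom.ker σ ^ N ≤ 𝔠 ∧ 𝔠 ≤ RingHom.ker σ ∧
      (∀ t : ℝ≥0, (n : ℝ) * τ < t → Gen False σ 𝔡 r (ext B C 𝔠) t) ∧
      ∃ g : Λ, g ≠ 0 ∧ ∀ (κ : Type) [Field κ] [Algebra B κ] (χ : Λ →ₐ[B] κ), χ g ≠ 0 →
        lo (pk (χ.comp (ι.comp σ))) (spk χ 𝒥) ≤ lo (pk (χ.comp (ι.comp σ))) (ext B κ 𝔠) := by
  classical
  have hCft : Algebra.FiniteType B C := Algebra.FiniteType.of_surjective σ hσ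
  have hNB : IsNoetherianRing B := Algebra.FiniteType.isNoetherianRing ℤ B
  have hNΛ : IsNoetherianRing Λ := Algebra.FiniteType.isNoetherianRing B Λ
  have hNP : IsNoetherianRing (Λ ⊗[B] T) := Algebra.FiniteType.isNoetherianRing Λ _
  obtain ⟨a, f, hf⟩ := Submodule.fg_iff_exists_fin_generating_family.1
    ((isNoetherianRing_iff_ideal_fg _).1 hNP 𝒥)
  have hfm : ∀ j, f j ∈ 𝒥 := fun j => hf ▸ Submodule.subset_span ⟨j, rfl⟩
  obtain ⟨s, l, cf, b, hs, hb0, hl, hcf⟩ := exists_coeff (T := T) ι hι f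
  have hN : N ≠ 0 := by
    rintro rfl
    have : (1 : Λ ⊗[B] T) ∈ pk (ι.comp σ) := h2 (h1 (by simp))
    rw [pk, RingHom.mem_ker, map_one] at this
    exact one_ne_zero this
  have hcpk : ∀ j i, cf j i ∈ pk σ := by
    intro j
    have e := congrArg (pa (ι.comp σ)) (hcf j)
    have e0 : pa (ι.comp σ) (f j) = 0 := h2 (hfm j)
    rw [map_smul, e0, smul_zero, map_sum] at e
    refine hl (fun i => pa σ (cf j i)) ?_
    rw [e]
    refine Finset.sum_congr rfl fun i _ => ?_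
    rw [map_smul, pa_bm, smul_eq_mul, mul_comm]
  set 𝔠' : Ideal (C ⊗[B] T) :=
    Ideal.span (Set.range fun ji : Fin a × Fin s => cf ji.1 ji.2) ⊔ pk σ ^ N with h𝔠'
  have hc2 : 𝔠' ≤ pk σ := by
    refine sup_le (Ideal.span_le.2 ?_) (Ideal.pow_le_self hN)
    rintro _ ⟨ji, rfl⟩
    exact hcpk _ _
  obtain ⟨g, hg, hK⟩ := hu
  obtain ⟨𝔠₀, g', a1, a2, a3, a4, a5⟩ := pullback σ hσ hg hK (𝔠 := 𝔠') le_sup_right hc2
  have key : ∀ (κ : Type) [Field κ] [Algebra B κ] (χ : Λ →ₐ[B] κ) (j : Fin a),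
      χ (ι b) • bm T χ (f j) = ∑ i, χ (l i) • bm T (χ.comp ι) (cf j i) := by
    intro κ _ _ χ j
    rw [← dt_bm_smul, hcf j, map_sum]
    refine Finset.sum_congr rfl fun i _ => ?_
    rw [dt_bm_smul, bm_bm]
  refine ⟨𝔠₀, a1, a2, fun t ht => ?_, ι (b * pa σ g'),
    fun h => mul_ne_zero hb0 a4 (hι (h.trans (map_zero ι).symm)), fun κ _ _ χ hχ => ?_⟩
  · obtain ⟨b1, hb1, Hb⟩ := hb
    obtain ⟨b2, hb2, H0⟩ := h0
    obtain ⟨b3, hb3, HT⟩ := hT
    obtain ⟨Λ'', _, _, _, _, ι'', y, hι'', hy, hyb, hdet⟩ := exists_general ι hι l hl hb1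
    refine Gen.down hz hC ι'' hι'' ?_
    have hne : ∀ z : C, z ≠ 0 → ι'' z ≠ 0 := fun z hz h =>
      hz (hι'' (h.trans (map_zero ι'').symm))
    refine ⟨(∏ a', y a' b1) * ((Matrix.of fun a' i => y a' (l i)).det * (ι'' b2 * ι'' b3)),
      mul_ne_zero (Finset.prod_ne_zero_iff.2 fun a' _ => hyb a')
        (mul_ne_zero hdet (mul_ne_zero (hne _ hb2) (hne _ hb3))), fun κ _ _ _ χ hχ => ?_⟩
    rw [map_mul, map_mul, map_mul, map_prod] at hχ
    have n1 : ∀ a', χ (y a' b1) ≠ 0 := fun a' =>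
      Finset.prod_ne_zero_iff.1 (left_ne_zero_of_mul hχ) a' (Finset.mem_univ _)
    have n2 := left_ne_zero_of_mul (right_ne_zero_of_mul hχ)
    have n3 := left_ne_zero_of_mul (right_ne_zero_of_mul (right_ne_zero_of_mul hχ))
    have n4 := right_ne_zero_of_mul (right_ne_zero_of_mul (right_ne_zero_of_mul hχ))
    have hpt : ∀ a', (χ.comp (y a')).comp (ι.comp σ) = χ.comp (ι''.comp σ) := by
      intro a'
      rw [← hy a']
      rfl
    have hp : Fact (ringChar κ).Prime := ⟨CharP.char_is_prime κ _⟩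
    have hN1 : IsNoetherianRing (κ ⊗[B] T) := Algebra.FiniteType.isNoetherianRing κ _
    have hN2 : IsNoetherianRing (Localization.AtPrime (pk (χ.comp (ι''.comp σ)))) :=
      IsLocalization.isNoetherianRing (pk (χ.comp (ι''.comp σ))).primeCompl _ inferInstance
    have hN3 : CharP (Localization.AtPrime (pk (χ.comp (ι''.comp σ)))) (ringChar κ) :=
      charP_of_injective_algebraMap
        (algebraMap κ (Localization.AtPrime (pk (χ.comp (ι''.comp σ))))).injective _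
    have hbad := sum_bad (p := ringChar κ) (R := Localization.AtPrime (pk (χ.comp (ι''.comp σ))))
      (𝔡 := lo (pk (χ.comp (ι''.comp σ))) (ext B κ 𝔡)) (r := r) (n := n) (C := E)
      (J := fun a' => lo (pk (χ.comp (ι''.comp σ))) (spk (χ.comp (y a')) 𝒥))
      (HT κ (χ.comp ι'') n4).2.2.2 (SFRi.top ((H0 κ (χ.comp ι'') n3).2 trivial))
      (fun a' H => (Hb κ (χ.comp (y a')) (n1 a')).1 (dt_sfat_congr (hpt a').symm H)) ht
    refine ⟨fun H => hbad (SFRi.mono le_rfl ?_ H), False.elim⟩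
    rw [← Ideal.map_iSup]
    refine Ideal.map_mono ?_
    rw [spk_spk]
    refine (Ideal.map_mono a3).trans ?_
    rw [h𝔠', Ideal.map_sup]
    refine sup_le ?_ ?_
    · rw [Ideal.map_span, Ideal.span_le]
      rintro _ ⟨_, ⟨⟨j, i⟩, rfl⟩, rfl⟩
      refine dt_matrix (Matrix.of fun a' i => χ (y a' (l i))) ?_
        (fun i => bm T (χ.comp ι'') (cf j i)) (fun a' => ?_) i
      · rw [AlgHom.map_det] at n2
        exact n2
      · refine Ideal.mem_iSup_of_mem a' ?_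
        have e := key κ (χ.comp (y a')) j
        have e2 : (χ.comp (y a')).comp ι = χ.comp ι'' := by rw [← hy a']; rfl
        rw [e2] at e
        have : ∑ i, (Matrix.of fun a' i => χ (y a' (l i))) a' i • bm T (χ.comp ι'') (cf j i) =
            (χ.comp (y a')) (ι b) • bm T (χ.comp (y a')) (f j) := by rw [e]; rfl
        rw [this]
        exact dt_smul_mem _ (Ideal.mem_map_of_mem _ (hfm j))
    · refine le_trans ?_ (le_iSup (fun a' => spk (χ.comp (y a')) 𝒥) ⟨0, hs⟩)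
      refine le_trans ?_ (Ideal.map_mono h1)
      have e1 := dt_spk_pow σ (χ.comp ι'') N
      have e2 := dt_spk_pow (ι.comp σ) (χ.comp (y ⟨0, hs⟩)) N
      rw [hpt] at e2
      exact (e1.trans e2.symm).le
  · rw [map_mul, map_mul] at hχ
    have e := spr_lo σ (χ.comp ι) (right_ne_zero_of_mul hχ) a5
    rw [spk_ext] at e
    refine le_trans (Ideal.map_mono ?_) e
    rw [← hf, spk]
    refine (Ideal.map_span _ _).le.trans (Ideal.span_le.2 ?_)
    rintro _ ⟨_, ⟨j, rfl⟩, rfl⟩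
    refine dt_mem_of_smul (left_ne_zero_of_mul hχ) ?_
    rw [key κ χ j]
    refine Ideal.sum_mem _ fun i _ => dt_smul_mem _ (Ideal.mem_map_of_mem _ ?_)
    exact Ideal.mem_sup_left (Ideal.subset_span ⟨(j, i), rfl⟩)

end

end Pool.Agent.Lib.MP_4287a9_ag
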