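import Pool.Agent.Lib.MP_4287a9_ag.CartB

/-!
The Cartier operator generates all `q⁻¹`-linear maps.
-/

open scoped TensorProduct ENNReal NNReal nonZeroDivisors Polynomial
open Filter

namespace Pool.Agent.Lib.MP_4287a9_ag

noncomputable section

theorem wdual_sum {W ι : Type} [AddCommMonoid W] (Φ : W →+ W) (e : ℕ) (t : Finset ι)
    (f : ι → W) : Φ^[e] (∑ i ∈ t, f i) = ∑ i ∈ t, Φ^[e] (f i) := by
  induction e generalizing f with
  | zero => rfl
  | succ e ih => simp only [Function.iterate_succ_apply, map_sum, ih]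

variable {p : ℕ} [Fact p.Prime] {κ W : Type} [Field κ] [Finite κ] [CharP κ p] [CommRing W]
  [Algebra κ W] {n : ℕ}

theorem IsCar.iter_maps {S : Subalgebra κ W} {y : Fin n → W} (h : EtC S y) {Ψ : W →+ W}
    (hΨ : IsCar p y Ψ) (e : ℕ) {w : W} (hw : w ∈ S) : Ψ^[e] w ∈ S := by
  induction e generalizing w with
  | zero => exact hw
  | succ e ih =>
    rw [Function.iterate_succ_apply]
    exact ih (hΨ.maps_to h hw)

/-- Induction on `e`. For each `β` the map `a ↦ ψ (a ^ p * y ^ β)` is `Φ ^ e (w β * a)`; take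
`w = ∑ β, w β ^ p * y ^ (p - 1 - β)` and use `EtC.frob_span`. -/
theorem IsCar.exists_mul {y : Fin n → W} (h : EtC (⊤ : Subalgebra κ W) y) {Φ : W →+ W}
    (hΦ : IsCar p y Φ) (e : ℕ) {ψ : W →+ W} (hψ : ∀ w z, ψ (w ^ p ^ e * z) = w * ψ z) :
    ∃ w : W, ∀ z, ψ z = Φ^[e] (w * z) := by
  have hW : (p : W) = 0 := FBAux.cast_p κ W
  have hp : 0 < p := (Fact.out : p.Prime).pos
  induction e generalizing ψ with
  | zero =>
    refine ⟨ψ 1, fun z => ?_⟩
    have := hψ z 1
    rw [pow_zero, pow_one, mul_one] at this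
    rw [this, mul_comm]
    rfl
  | succ e ih =>
    let θ : (Fin n → Fin p) → W →+ W := fun β =>
      { toFun := fun a => ψ (a ^ p * ∏ i, y i ^ (β i : ℕ))
        map_zero' := by rw [zero_pow hp.ne', zero_mul, map_zero]
        map_add' := fun a b => by rw [FBAux.add_pow_p hW, add_mul, map_add] }
    have hθ : ∀ β w z, θ β (w ^ p ^ e * z) = w * θ β z := fun β w z => by
      change ψ ((w ^ p ^ e * z) ^ p * _) = w * ψ (z ^ p * _)
      rw [mul_pow, ← pow_mul, ← pow_succ, mul_assoc, hψ]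
    choose v hv using fun β => ih (hθ β)
    refine ⟨∑ γ : Fin n → Fin p, v (fun i => (γ i).rev) ^ p * ∏ i, y i ^ (γ i : ℕ), fun z => ?_⟩
    obtain ⟨a, -, ha⟩ := h.frob_span (p := p) (w := z) Algebra.mem_top
    have key : ∀ β : Fin n → Fin p,
        Φ ((∑ γ : Fin n → Fin p, v (fun i => (γ i).rev) ^ p * ∏ i, y i ^ (γ i : ℕ)) *
          ∏ i, y i ^ (β i : ℕ)) = v β := fun β => by
      have h1 := CartB_coeff hΦ (fun γ => v (fun i => (γ i).rev)) (fun i => (β i).rev)
      have h2 : ∀ i, p - 1 - ((β i).rev : ℕ) = β i := fun i => by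
        have := (β i).2
        rw [Fin.val_rev]
        omega
      simp only [h2, Fin.rev_rev] at h1
      exact h1
    rw [ha, map_sum, Finset.mul_sum, wdual_sum]
    refine Finset.sum_congr rfl fun β _ => ?_
    rw [Function.iterate_succ_apply, mul_left_comm, hΦ.1, key, mul_comm (a β)]
    exact hv β (a β)

/-- Induction on `e`: `w = ∑ β, a β ^ p * z ^ β` with `a β = Ψ (w * z ^ (p - 1 - β))`, and
`Ψ ^ e (a β * s) = Ψ ^ (e + 1) (w * z ^ (p - 1 - β) * s ^ p)`. -/
theorem IsCar.mem_of_iter {S : Subalgebra κ W} {z : Fin n → W} (hS : ∀ l, z l ∈ S)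
    (h : EtC (⊤ : Subalgebra κ W) z) {Ψ : W →+ W} (hΨ : IsCar p z Ψ) (e : ℕ) {w : W}
    (hw : ∀ s ∈ S, Ψ^[e] (w * s) ∈ S) : w ∈ S := by
  induction e generalizing w with
  | zero => simpa using hw 1 (one_mem _)
  | succ e ih =>
    obtain ⟨a, -, h1⟩ := h.frob_span (p := p) (w := w) Algebra.mem_top
    have h2 : ∀ β, a β ∈ S := fun β => ih fun v hv => by
      have h3 := hw (v ^ p * ∏ i, z i ^ (p - 1 - β i))
        (mul_mem (pow_mem hv _) (prod_mem fun i _ => pow_mem (hS i) _))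
      rwa [Function.iterate_succ_apply, mul_left_comm, hΨ.1, h1, CartB_coeff hΨ, mul_comm] at h3
    rw [h1]
    exact sum_mem fun β _ => mul_mem (pow_mem (h2 β) _) (prod_mem fun i _ => pow_mem (hS i) _)

end

end Pool.Agent.Lib.MP_4287a9_ag
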