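import Pool.Agent.Lib.MP_4287a9_ag.D5
import Pool.Agent.Lib.MP_4287a9_ag.RDa
import Pool.Agent.Lib.MP_4287a9_ag.H3
import Pool.Agent.Lib.MP_4287a9_ag.LatS

/-!
Basic facts on the data attached to one divisor.
-/

open scoped TensorProduct ENNReal NNReal nonZeroDivisors Polynomial
open Filter

namespace Pool.Agent.Lib.MP_4287a9_ag

noncomputable section

variable {n : ℕ} {s : EShp n} {W : Type} [CommRing W] {d : ED s W} {Λ : Type} [CommRing Λ]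
  [Algebra Λ W] {D : Fin n → Derivation Λ W W}

theorem wea_pow {A : Set W} {g g' : W} (hg : g ∈ Algebra.adjoin Λ A) (h1 : g * g' = 1) {w : W}
    (hw : w ∈ Algebra.adjoin Λ (A ∪ {g'})) : ∃ k : ℕ, g ^ k * w ∈ Algebra.adjoin Λ A := by
  induction hw using Algebra.adjoin_induction with
  | mem x hx =>
    rcases hx with hx | rfl
    · exact ⟨0, by rw [pow_zero, one_mul]; exact Algebra.subset_adjoin hx⟩
    · exact ⟨1, by rw [pow_one, h1]; exact one_mem _⟩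
  | algebraMap c => exact ⟨0, by simp⟩
  | add x y _ _ hx hy =>
    obtain ⟨i, hi⟩ := hx
    obtain ⟨k, hk⟩ := hy
    refine ⟨i + k, ?_⟩
    rw [pow_add, mul_add, mul_right_comm, mul_assoc _ _ y]
    exact add_mem (mul_mem hi (pow_mem hg k)) (mul_mem (pow_mem hg i) hk)
  | mul x y _ _ hx hy =>
    obtain ⟨i, hi⟩ := hx
    obtain ⟨k, hk⟩ := hy
    refine ⟨i + k, ?_⟩
    rw [pow_add, mul_mul_mul_comm]
    exact mul_mem hi hk

namespace ED

theorem T_le_S (d : ED s W) : d.rd.T Λ ≤ d.S Λ := by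
  exact Algebra.adjoin_mono Set.subset_union_left

theorem T_le_SE (d : ED s W) (i : Fin s.ne) : d.rd.T Λ ≤ d.SE Λ i := by
  exact Algebra.adjoin_mono Set.subset_union_left

theorem Amb.S_le_Ws (h : d.Amb Λ D) : d.S Λ ≤ d.rd.Ws Λ := by
  refine Algebra.adjoin_le ?_
  rintro _ (⟨i, rfl⟩ | ⟨i, rfl⟩)
  · exact Algebra.subset_adjoin (Or.inl ⟨i, rfl⟩)
  · exact h.wb i

theorem Amb.SE_le_Ws (h : d.Amb Λ D) (i : Fin s.ne) : d.SE Λ i ≤ d.rd.Ws Λ := by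
  refine Algebra.adjoin_le ?_
  rintro _ (⟨j, rfl⟩ | rfl)
  · exact Algebra.subset_adjoin (Or.inl ⟨j, rfl⟩)
  · exact h.weI i

theorem Amb.tt_mem (h : d.Amb Λ D) : (d.tt : W) ∈ d.S Λ := by
  rw [h.ht]
  exact h.het.mem _

theorem Amb.exists_pow_e (h : d.Amb Λ D) (i : Fin s.ne) {w : W} (hw : w ∈ d.SE Λ i) :
    ∃ k : ℕ, d.e i ^ k * w ∈ d.rd.T Λ := by
  exact wea_pow (h.eT i) (h.heI i) hw

theorem Good.exists_pow (h : d.Good Λ D) (w : W) : ∃ k : ℕ, (d.g : W) ^ k * w ∈ d.rd.T Λ := by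
  have hw : w ∈ d.rd.Ws Λ := by
    rw [h.hW]
    exact Algebra.mem_top
  exact wea_pow h.gT d.g.mul_inv hw

theorem Good.etc_top (h : d.Good Λ D) : EtC (⊤ : Subalgebra Λ W) d.y := by
  refine h.het.of_away le_top (d.T_le_S h.gT) ⟨_, Algebra.mem_top, d.g.mul_inv⟩ fun z _ => ?_
  obtain ⟨i, hi⟩ := h.exists_pow z
  exact ⟨i, d.T_le_S hi⟩

theorem Good.etc_top_E (h : d.Good Λ D) (i : Fin s.ne) : EtC (⊤ : Subalgebra Λ W) (d.zE i) := by
  refine (h.hetE i).of_away le_top (d.T_le_SE i h.gT) ⟨_, Algebra.mem_top, d.g.mul_inv⟩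
    fun z _ => ?_
  obtain ⟨k, hk⟩ := h.exists_pow z
  exact ⟨k, d.T_le_SE i hk⟩

/-- As `RD.Good.hartogs_list` with `z = 1`. -/
theorem Amb.hartogs {κ : Type} [Field κ] [Algebra κ W] {D : Fin n → Derivation κ W W}
    (h : d.Amb κ D) {v : W} (hv : ∀ i, v ∈ d.SE κ i) : v ∈ d.rd.T κ := by
  let I : Ideal (d.rd.T κ) :=
    { carrier := {t | (t : W) * v ∈ d.rd.T κ}
      add_mem' := by
        intro a b ha hb
        change ((a + b : d.rd.T κ) : W) * v ∈ d.rd.T κ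
        rw [Subalgebra.coe_add, add_mul]
        exact add_mem ha hb
      zero_mem' := by simp
      smul_mem' := by
        intro c x hx
        change ((c • x : d.rd.T κ) : W) * v ∈ d.rd.T κ
        rw [smul_eq_mul, Subalgebra.coe_mul, mul_assoc]
        exact mul_mem c.2 hx }
  have hsp : ∀ x ∈ d.rd.sp κ d.e, x ∈ d.rd.T κ ∧ ∃ k : ℕ, x ^ k * v ∈ d.rd.T κ := by
    have hle : d.rd.sp κ d.e ≤ Submodule.map (Algebra.linearMap (d.rd.T κ) W) I.radical := by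
      refine Submodule.span_le.2 ?_
      rintro _ ⟨i, rfl⟩
      obtain ⟨k, hk⟩ := h.exists_pow_e i (hv i)
      exact ⟨⟨d.e i, h.eT i⟩, ⟨k, hk⟩, rfl⟩
    intro x hx
    obtain ⟨t, ⟨k, hk⟩, rfl⟩ := hle hx
    exact ⟨t.2, k, hk⟩
  obtain ⟨h1, k1, hw1⟩ := hsp _ h.he1
  obtain ⟨h2, k2, hw2⟩ := hsp _ h.he2
  have r1 : ∀ w ∈ d.rd.T κ, (∃ v ∈ d.rd.T κ, d.e2 * w = d.e1 * v) →
      ∃ v ∈ d.rd.T κ, w = d.e1 * v := by
    intro w hw hx
    obtain ⟨b, hb, v', hv', e⟩ := h.hreg w hw hx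
    refine ⟨b⁻¹ • v', Subalgebra.smul_mem _ hv' _, ?_⟩
    rw [mul_smul_comm, ← e, smul_smul, inv_mul_cancel₀ hb, one_smul]
  have r2 : ∀ k : ℕ, ∀ w ∈ d.rd.T κ, (∃ v ∈ d.rd.T κ, d.e2 ^ k * w = d.e1 * v) →
      ∃ v ∈ d.rd.T κ, w = d.e1 * v := by
    intro k
    induction k with
    | zero => intro w _ hx; simpa using hx
    | succ k ih =>
      intro w hw hx
      refine ih w hw (r1 _ (mul_mem (pow_mem h2 k) hw) ?_)
      rwa [← mul_assoc, ← pow_succ']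
  have r3 : ∀ k : ℕ, ∀ w ∈ d.rd.T κ, (∃ v ∈ d.rd.T κ, d.e2 ^ k2 * w = (d.e1 : W) ^ k * v) →
      ∃ v ∈ d.rd.T κ, w = (d.e1 : W) ^ k * v := by
    intro k
    induction k with
    | zero => intro w hw _; exact ⟨w, hw, by simp⟩
    | succ k ih =>
      rintro w hw ⟨v', hv', e⟩
      obtain ⟨w', hw', rfl⟩ := r2 k2 w hw ⟨(d.e1 : W) ^ k * v', mul_mem (pow_mem h1 k) hv', by
        rw [e]; ring⟩
      obtain ⟨v'', hv'', e'⟩ := ih w' hw' ⟨v', hv', d.e1.isUnit.mul_left_cancel (by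
        rw [mul_left_comm, e]; ring)⟩
      exact ⟨v'', hv'', by rw [e']; ring⟩
  obtain ⟨w, hw, e4⟩ := r3 k1 _ hw1 ⟨_, hw2, by ring⟩
  rwa [(d.e1.isUnit.pow k1).mul_left_cancel e4]

theorem map_S {κ W' : Type} [CommRing κ] [CommRing W'] [Algebra κ W'] {χ : Λ →+* κ}
    {π : W →+* W'} (hπ : IsRed χ π) (d : ED s W) :
    (((d.map π).S κ : Subalgebra κ W') : Set W') = π '' (d.S Λ : Set W) := by
  rw [S, S, ← latS_adjoin hπ, Set.image_union, ← Set.range_comp, ← Set.range_comp]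
  rfl

theorem map_SE {κ W' : Type} [CommRing κ] [CommRing W'] [Algebra κ W'] {χ : Λ →+* κ}
    {π : W →+* W'} (hπ : IsRed χ π) (d : ED s W) (i : Fin s.ne) :
    (((d.map π).SE κ i : Subalgebra κ W') : Set W') = π '' (d.SE Λ i : Set W) := by
  rw [SE, SE, ← latS_adjoin hπ, Set.image_union, ← Set.range_comp, Set.image_singleton]
  rfl

end ED

end

end Pool.Agent.Lib.MP_4287a9_ag
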