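import Pool.Agent.Lib.MP_4287a9_ag.WEa
import Pool.Agent.Lib.MP_4287a9_ag.WDual
import Pool.Agent.Lib.MP_4287a9_ag.WGlb2
import Pool.Agent.Lib.MP_4287a9_ag.GrC

/-!
A divisor of small log discrepancy obstructs strong F-regularity.
-/

open scoped TensorProduct ENNReal NNReal nonZeroDivisors Polynomial
open Filter

namespace Pool.Agent.Lib.MP_4287a9_ag

noncomputable section

theorem wez_pow {κ W : Type} [CommRing κ] [CommRing W] [Algebra κ W] {T S : Subalgebra κ W}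
    (hle : T ≤ S) {A : Submodule T W} {c : W} (h : ∀ x ∈ A, x * c ∈ S) (J : ℕ) :
    ∀ x ∈ A ^ J, x * c ^ J ∈ S := by
  induction J with
  | zero =>
    intro x hx
    rw [pow_zero, Submodule.mem_one] at hx
    obtain ⟨y, rfl⟩ := hx
    rw [pow_zero, mul_one]
    exact hle y.2
  | succ J ih =>
    intro x hx
    rw [pow_succ] at hx
    refine Submodule.mul_induction_on hx (fun a ha b hb => ?_) (fun a b ha hb => ?_)
    · rw [pow_succ, mul_mul_mul_comm]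
      exact mul_mem (ih a ha) (h b hb)
    · rw [add_mul]
      exact add_mem ha hb

theorem wez_span {κ W : Type} [CommRing κ] [CommRing W] [Algebra κ W] {T S : Subalgebra κ W}
    (hle : T ≤ S) {A : Set W} {c : W} (h : ∀ x ∈ A, x * c ∈ S) :
    ∀ x ∈ Submodule.span T A, x * c ∈ S := by
  intro x hx
  induction hx using Submodule.span_induction with
  | mem x hx => exact h x hx
  | zero => simp
  | add x y _ _ hx hy =>
    rw [add_mul]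
    exact add_mem hx hy
  | smul a x _ hx =>
    rw [smul_mul_assoc]
    exact mul_mem (hle a.2) hx

theorem wez_reg {κ W : Type} [CommRing κ] [CommRing W] [Algebra κ W] {T : Subalgebra κ W}
    {z : T} (hz : IsUnit (z : W)) : z ∈ T⁰ := by
  rw [mem_nonZeroDivisors_iff_left]
  intro x hx
  exact Subtype.ext (hz.mul_right_eq_zero.1 (congrArg Subtype.val hx))

theorem wez_ineq {N J b : ℕ} {β : ℤ} {t x : ℝ} (ht : (N : ℝ) - β ≤ t * b * N) (hx : x = N * J) :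
    ∃ ρ : ℕ, β * J + 1 + b * (⌈t * x⌉₊ : ℕ) = ((N * J + 1 + ρ : ℕ) : ℤ) := by
  have h1 : t * x ≤ (⌈t * x⌉₊ : ℕ) := Nat.le_ceil _
  have h2 : ((N : ℝ) - β) * J ≤ t * b * N * J :=
    mul_le_mul_of_nonneg_right ht (Nat.cast_nonneg J)
  have h3 : (b : ℝ) * (t * x) ≤ b * (⌈t * x⌉₊ : ℕ) :=
    mul_le_mul_of_nonneg_left h1 (Nat.cast_nonneg b)
  have h4 : (N : ℝ) * J ≤ β * J + b * (⌈t * x⌉₊ : ℕ) := by
    have h5 : t * b * N * J = b * (t * x) := by rw [hx]; ring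
    linarith
  have h6 : (N : ℤ) * J ≤ β * J + b * (⌈t * x⌉₊ : ℕ) := by exact_mod_cast h4
  obtain ⟨ρ, hρ⟩ := Int.le.dest h6
  refine ⟨ρ, ?_⟩
  push_cast
  linarith

/-- The extension of `φ` to `W` maps `(SE i : 𝔡 ^ Q)` into `SE i`. -/
theorem ED.Good.wez_div {n : ℕ} {s : EShp n} {W : Type} [CommRing W] {d : ED s W} {κ : Type}
    [Field κ] [Algebra κ W] {D : Fin n → Derivation κ W W} (h : d.Good κ D) {q : ℕ} (hq : 0 < q)
    {φ : d.rd.T κ →+ d.rd.T κ} (hφ : IsCart (d.rd.idl κ d.dg) s.r q φ) {φ' : W →+ W}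
    (k1 : ∀ w y, φ' (w ^ q * y) = w * φ' y) (k2 : ∀ y : d.rd.T κ, φ' y = φ y) (i : Fin s.ne)
    {v : W} (hv : ∀ x ∈ d.rd.sp κ d.dg ^ ((q - 1) / s.r), x * v ∈ d.SE κ i) :
    φ' v ∈ d.SE κ i := by
  have hA : ∀ v : W, (∀ x ∈ d.rd.sp κ d.dg ^ ((q - 1) / s.r), x * v ∈ d.rd.T κ) →
      φ' v ∈ d.rd.T κ := by
    intro v hv
    obtain ⟨l, hl⟩ := h.exists_pow v
    have hz : (d.g : W) ^ l ∈ d.rd.T κ := pow_mem h.gT l
    have hy : ((d.g : W) ^ l) ^ q * v ∈ d.rd.T κ := by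
      rw [← pow_sub_one_mul hq.ne', mul_assoc]
      exact mul_mem (pow_mem hz _) hl
    obtain ⟨c, hc⟩ := hφ.div ⟨_, hz⟩ (wez_reg (d.g.isUnit.pow l)) ⟨_, hy⟩ fun x hx =>
      ⟨⟨x * v, hv x ((d.rd.mem_idl_pow h.dT _ x).1 hx)⟩, Subtype.ext (by
        change ((d.g : W) ^ l) ^ q * v * x = ((d.g : W) ^ l) ^ q * (x * v)
        ring)⟩
    have h1 := k2 ⟨_, hy⟩
    rw [hc] at h1
    change φ' (((d.g : W) ^ l) ^ q * v) = (d.g : W) ^ l * c at h1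
    rw [k1] at h1
    rw [(d.g.isUnit.pow l).mul_left_cancel h1]
    exact c.2
  have hfg : (d.rd.sp κ d.dg ^ ((q - 1) / s.r)).FG :=
    (Submodule.fg_span (Set.finite_range _)).pow _
  obtain ⟨G, hG⟩ := hfg
  have h1 : ∀ x ∈ G, ∃ k : ℕ, d.e i ^ k * (x * v) ∈ d.rd.T κ := fun x hx =>
    h.exists_pow_e i (hv x (hG ▸ Submodule.subset_span hx))
  choose! k hk using h1
  have h2 : ∀ x ∈ d.rd.sp κ d.dg ^ ((q - 1) / s.r),
      x * ((d.e i ^ G.sup k) ^ q * v) ∈ d.rd.T κ := by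
    rw [← hG]
    refine wez_span le_rfl fun x hx => ?_
    have h3 : k x ≤ G.sup k * q := (Finset.le_sup hx).trans (Nat.le_mul_of_pos_right _ hq)
    obtain ⟨j, hj⟩ := Nat.exists_eq_add_of_le h3
    have h4 : x * ((d.e i ^ G.sup k) ^ q * v) = d.e i ^ j * (d.e i ^ k x * (x * v)) := by
      rw [← pow_mul, hj]
      ring
    rw [h4]
    exact mul_mem (pow_mem (h.eT i) j) (hk x hx)
  have h5 := hA _ h2
  rw [k1] at h5
  have h6 : φ' v = d.eI i ^ G.sup k * (d.e i ^ G.sup k * φ' v) := by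
    rw [← mul_assoc, ← mul_pow, mul_comm (d.eI i), h.heI, one_pow, one_mul]
  rw [h6]
  have h7 : d.eI i ∈ d.SE κ i := Algebra.subset_adjoin (Or.inr rfl)
  exact mul_mem (pow_mem h7 _) (d.T_le_SE i h5)

/-- `SFat.sfg` with `N = r M`, `δ = d0`, `c = g` gives `φ` on `T` at a level `q = 1 + J N` with
`φ (g a) ∉ Q`. `W` is the localization of `T` away from `g`; extend `φ` to `W`
(`exists_ext_loc`) and write it as `Φ ^ e (w * ·)` (`IsCar.exists_mul`, `Φ` the Cartier operator of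
`y`). Let `v = u / jE i ^ N` and `y' ∈ SE i`. For large `k`, `x = e i ^ (k q) v ^ (-J) y'`
satisfies `x 𝔡 ^ (J M) ⊆ T` (`hde`, `𝔡 ^ (J M)` is finitely generated), so `d0 ^ q x ∈ T`,
`d0 ∣ φ (d0 ^ q x)`, and `φ (v ^ (-J) y') ∈ SE i`. With the Cartier operator of `zE i`
(`IsCar.chart_any`, `iterate_twist`) and `IsCar.mem_of_iter`, `w / u ^ J ∈ SE i`; by `hartogs`,
`w / u ^ J ∈ T`. Then `w g a ∈ tt ^ (β J + 1 + b ⌈t J N⌉) S ⊆ tt ^ q S`, so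
`φ (g a) ∈ tt S` (`IsCar.maps_to`), a contradiction. -/
theorem ED.Good.not_sfat {p : ℕ} [Fact p.Prime] {n : ℕ} {s : EShp n} {W : Type} [CommRing W]
    {d : ED s W} {κ : Type} [Field κ] [Finite κ] [CharP κ p] [Algebra κ W]
    {D : Fin n → Derivation κ W W} (h : d.Good κ D) (hN : Nat.Coprime p (s.r * s.M)) {t : ℝ≥0}
    (ht : ((s.r * s.M : ℕ) : ℝ) - s.β ≤ (t : ℝ) * s.b * ((s.r * s.M : ℕ) : ℝ))
    (Q : Ideal (d.rd.T κ)) [Q.IsPrime]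
    (hQ : ∀ x : d.rd.T κ, (x : W) * ((d.tt⁻¹ : Wˣ) : W) ∈ d.S κ → x ∈ Q) :
    ¬ SFat p Q (d.rd.idl κ d.dg) s.r (d.rd.idl κ d.ag) t := by
  intro hs
  have hp : 0 < p := (Fact.out : p.Prime).pos
  have hnt : Nontrivial (d.rd.T κ) :=
    nontrivial_of_ne 0 1 fun h0 => (Ideal.IsPrime.ne_top ‹_›) ((Ideal.eq_top_iff_one Q).2
      (h0 ▸ Q.zero_mem))
  have hch : CharP (d.rd.T κ) p :=
    charP_of_injective_algebraMap (algebraMap κ (d.rd.T κ)).injective p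
  have hno : IsNoetherianRing (d.rd.T κ) := d.rd.T_noeth
  have hft : Algebra.FiniteType κ (d.rd.T κ) :=
    (Subalgebra.fg_iff_finiteType _).1 (Subalgebra.fg_def.2 ⟨_, Set.finite_range _, rfl⟩)
  have hd0 : (d.d0 : W) ∈ d.rd.sp κ d.dg ^ 1 := by
    rw [pow_one]
    exact h.hd0
  have hδ : (⟨d.d0, d.rd.mem_T_of_mem_sp_pow h.dT 1 hd0⟩ : d.rd.T κ) ∈ d.rd.idl κ d.dg := by
    rw [← pow_one (d.rd.idl κ d.dg)]
    exact (d.rd.mem_idl_pow h.dT 1 _).2 hd0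
  have hN0 : 0 < s.r * s.M := Nat.mul_pos h.hr h.hM
  have hg := SFat.sfg (fun e => ffin_of_finiteType κ (d.rd.T κ) e) Q hδ (wez_reg d.d0.isUnit) hN0
    hN hs
  have hg0 : (⟨d.g, h.gT⟩ : d.rd.T κ) ∈ (d.rd.T κ)⁰ := wez_reg d.g.isUnit
  obtain ⟨e, -, -, ⟨J, hJ⟩, a, ha, φ, hφ, hm⟩ := hg ⟨d.g, h.gT⟩
    (IsLocalization.map_nonZeroDivisors_le Q.primeCompl _ ⟨_, hg0, rfl⟩)
  have hq : 0 < p ^ e := pow_pos hp e
  have hloc : IsLocalization (Submonoid.powers (⟨d.g, h.gT⟩ : d.rd.T κ)) W := by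
    refine (isLocalization_iff _ _).2 ⟨?_, fun w => ?_, fun {x y} e => ?_⟩
    · rintro ⟨_, i, rfl⟩
      exact d.g.isUnit.pow i
    · obtain ⟨i, hi⟩ := h.exists_pow w
      exact ⟨⟨⟨_, hi⟩, ⟨_, i, rfl⟩⟩, mul_comm _ _⟩
    · exact ⟨1, by rw [Subtype.ext e]⟩
  obtain ⟨φ', k1, k2⟩ := exists_ext_loc (R' := W) (Submonoid.powers (⟨d.g, h.gT⟩ : d.rd.T κ)) hq
    φ hφ.lin
  obtain ⟨Φ, hΦ⟩ := h.etc_top.exists_isCar (p := p)
  obtain ⟨w, hw⟩ := hΦ.exists_mul h.etc_top e k1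
  have hQ' : (p ^ e - 1) / s.r = s.M * J := by
    rw [hJ, mul_assoc, Nat.mul_div_cancel_left _ h.hr]
  have hf : w * ((d.u⁻¹ ^ J : Wˣ) : W) ∈ d.rd.T κ := by
    refine h.hartogs fun i => ?_
    have hΨ := hΦ.chart_any h.etc_top h.hdual (h.hdetE i)
    refine hΨ.mem_of_iter (h.hetE i).mem (h.etc_top_E i) e fun y hy => ?_
    have h1 := h.wez_div hq hφ k1 k2 i
      (v := ((d.u⁻¹ * d.jE i ^ (s.r * s.M) : Wˣ) : W) ^ J * y) fun x hx => by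
        rw [hQ', pow_mul] at hx
        rw [← mul_assoc]
        exact mul_mem (wez_pow (d.T_le_SE i) (h.hde i) J x hx) hy
    rw [iterate_twist hp hΦ.1, hJ]
    rw [hw] at h1
    convert h1 using 2
    push_cast
    ring
  have hx : (p : ℝ) ^ e - 1 = ((s.r * s.M : ℕ) : ℝ) * J := by
    have h1 : ((p ^ e - 1 : ℕ) : ℝ) = (p : ℝ) ^ e - 1 := by
      rw [Nat.cast_sub hq]
      simp
    rw [← h1, hJ, Nat.cast_mul]
  obtain ⟨ρ, hρ⟩ := wez_ineq ht hx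
  have hqe : s.r * s.M * J + 1 = p ^ e := by omega
  rw [hqe] at hρ
  set m := ⌈(t : ℝ) * ((p : ℝ) ^ e - 1)⌉₊ with hm'
  have ha' : (a : W) * ((d.tt⁻¹ ^ s.b : Wˣ) : W) ^ m ∈ d.S κ :=
    wez_pow d.T_le_S (wez_span d.T_le_S (by
      rintro _ ⟨i, rfl⟩
      exact h.ha i)) m _ ((d.rd.mem_idl_pow h.aT m a).1 ha)
  have hS : w * ((d.u⁻¹ ^ J : Wˣ) : W) * ((d.u * (d.tt ^ s.β)⁻¹ : Wˣ) : W) ^ J *
      ((d.g * d.tt⁻¹ : Wˣ) : W) * ((a : W) * ((d.tt⁻¹ ^ s.b : Wˣ) : W) ^ m) * (d.tt : W) ^ ρ ∈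
      d.S κ :=
    mul_mem (mul_mem (mul_mem (mul_mem (d.T_le_S hf) (pow_mem h.hu.1 J)) h.hg) ha')
      (pow_mem h.tt_mem ρ)
  have hu : d.tt ^ p ^ e * (d.u⁻¹ ^ J * (d.u * (d.tt ^ s.β)⁻¹) ^ J * (d.g * d.tt⁻¹) *
      (d.tt⁻¹ ^ s.b) ^ m * d.tt ^ ρ) = d.g := by
    have h1 : d.tt ^ p ^ e * d.tt ^ ρ = (d.tt ^ s.β) ^ J * d.tt * (d.tt ^ s.b) ^ m := by
      rw [← pow_add, ← zpow_natCast, ← hρ, zpow_add, zpow_add, zpow_one, zpow_mul, zpow_mul,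
        zpow_natCast, zpow_natCast, zpow_natCast]
    calc _ = (d.tt ^ p ^ e * d.tt ^ ρ) * (d.u⁻¹ ^ J * (d.u * (d.tt ^ s.β)⁻¹) ^ J *
          (d.g * d.tt⁻¹) * (d.tt⁻¹ ^ s.b) ^ m) := by ac_rfl
      _ = d.g := by
        rw [h1]
        simp only [mul_pow, inv_pow]
        group
        simp only [mul_comm, mul_left_comm, mul_assoc]
        group
  apply hm
  apply hQ
  have h2 := k2 (⟨d.g, h.gT⟩ * a)
  change φ' ((d.g : W) * a) = (φ (⟨d.g, h.gT⟩ * a) : W) at h2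
  have h3 : w * ((d.g : W) * a) = (d.tt : W) ^ p ^ e * (w * ((d.u⁻¹ ^ J : Wˣ) : W) *
      ((d.u * (d.tt ^ s.β)⁻¹ : Wˣ) : W) ^ J * ((d.g * d.tt⁻¹ : Wˣ) : W) *
      ((a : W) * ((d.tt⁻¹ ^ s.b : Wˣ) : W) ^ m) * (d.tt : W) ^ ρ) := by
    conv_lhs => rw [← hu]
    simp only [Units.val_mul, Units.val_pow_eq_pow_val]
    ring
  rw [← h2, hw, h3, iterate_lin hΦ.1, mul_comm (d.tt : W), Units.mul_inv_cancel_right]
  exact hΦ.iter_maps h.het e hS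

end

end Pool.Agent.Lib.MP_4287a9_ag
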