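import Pool.Agent.Lib.MP_4287a9_ag.WEr
import Pool.Agent.Lib.MP_4287a9_ag.WEzP
import Pool.Agent.Lib.MP_4287a9_ag.LinkB

/-!
The closed fibres are not strongly F-regular along the divisor.
-/

open scoped TensorProduct ENNReal NNReal nonZeroDivisors Polynomial
open Filter

namespace Pool.Agent.Lib.MP_4287a9_ag

noncomputable section

/-- As `RD.Link.red`; `map_mem_sp_pow` and `mem_idl_pow` for the two inclusions. -/
theorem RD.Link.red2 {n : ℕ} {s : Shp n} {W : Type} [CommRing W] {d : RD s W} {Λ P : Type}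
    [CommRing Λ] [IsDomain Λ] [Algebra Λ W] [CommRing P] [IsNoetherianRing P] [Algebra Λ P]
    {ρ : P →ₐ[Λ] W} {f : P} {𝔡 𝔞 : Ideal P} (h : d.Link ρ f 𝔡 𝔞) (h2 : d.Link2 ρ 𝔡 𝔞) :
    ∃ b : Λ, b ≠ 0 ∧ ∀ (κ W' P' : Type) [Field κ] [CommRing W'] [Algebra κ W'] [CommRing P']
      [Algebra κ P'] (χ : Λ →+* κ) (π : W →+* W') (π' : P →+* P'), IsRed χ π → IsRed χ π' →
      χ b ≠ 0 → Pure (RingHom.ker χ) (Subalgebra.toSubmodule (d.T Λ)) →
        ∃ ρ' : P' →+* (d.map π).T κ, IsAway ρ' (π' f) ∧ (∀ x, (ρ' (π' x) : W') = π (ρ x)) ∧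
          (𝔡.map π').map ρ' ≤ (d.map π).idl κ (d.map π).dg ∧
          (𝔞.map π').map ρ' ≤ (d.map π).idl κ (d.map π).ag := by
  obtain ⟨b, hb, j, hj⟩ := linkB_kill (Λ := Λ) f (RingHom.ker ρ) (IsNoetherian.noetherian _)
    fun x hx => h.ker x hx
  refine ⟨b, hb, fun κ W' P' _ _ _ _ _ χ π π' hπ hπ' hχ hp => ?_⟩
  have hT : ∀ w : W', w ∈ (d.map π).T κ ↔ ∃ v ∈ d.T Λ, π v = w := fun w =>
    Set.ext_iff.1 (RD.map_T hπ d) w
  have hker : RingHom.ker π' ≤ RingHom.ker (π.comp (ρ : P →+* W)) := by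
    intro x hx
    have h1 := (hπ'.ker x).1 hx
    change π (ρ x) = 0
    rw [hπ.ker]
    refine Submodule.smul_induction_on h1 (fun a ha y _ => ?_) fun y z hy hz => ?_
    · rw [map_smul]
      exact Submodule.smul_mem_smul ha Submodule.mem_top
    · rw [map_add]
      exact add_mem hy hz
  obtain ⟨τ, hτ⟩ : ∃ τ : P' →+* W', ∀ x, τ (π' x) = π (ρ x) :=
    ⟨π'.liftOfSurjective hπ'.surj ⟨_, hker⟩, fun x =>
      π'.liftOfRightInverse_comp_apply _ _ ⟨_, hker⟩ x⟩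
  have hmem : ∀ y, τ y ∈ (d.map π).T κ := by
    intro y
    obtain ⟨x, rfl⟩ := hπ'.surj y
    exact (hT _).2 ⟨ρ x, h.mem x, (hτ x).symm⟩
  obtain ⟨ρ', hρ'⟩ : ∃ ρ' : P' →+* (d.map π).T κ, ∀ x, (ρ' (π' x) : W') = π (ρ x) :=
    ⟨τ.codRestrict ((d.map π).T κ) hmem, hτ⟩
  have hidl : ∀ {k : ℕ} (v : Fin k → W) (I : Ideal P), (∀ i, ∃ x ∈ I, ρ x = v i) →
      (∀ x ∈ I, ρ x ∈ d.sp Λ v) → (I.map π').map ρ' ≤ (d.map π).idl κ (fun i => π (v i)) := by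
    intro k v I hv hI
    have hvT : ∀ i, π (v i) ∈ (d.map π).T κ := fun i => by
      obtain ⟨x, -, hx⟩ := hv i
      exact (hT _).2 ⟨v i, hx ▸ h.mem x, rfl⟩
    rw [Ideal.map_le_iff_le_comap, Ideal.map_le_iff_le_comap]
    intro x hx
    change ρ' (π' x) ∈ (d.map π).idl κ (fun i => π (v i))
    have h1 := (RD.mem_idl_pow (d.map π) hvT 1 (ρ' (π' x))).2 (by
      rw [hρ', ← SetLike.mem_coe, RD.h2_map_sp_pow hπ d v 1]
      exact ⟨ρ x, by simpa using hI x hx, rfl⟩)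
    simpa using h1
  refine ⟨ρ', ⟨?_, fun w => ?_, fun y hy => ?_⟩, hρ', hidl _ _ h.hd h2.hd, hidl _ _ h.ha h2.ha⟩
  · obtain ⟨w, hw, hw'⟩ := h.inv
    refine IsUnit.of_mul_eq_one ⟨π w, (hT _).2 ⟨w, hw, rfl⟩⟩ (Subtype.ext ?_)
    change (ρ' (π' f) : W') * π w = 1
    rw [hρ', ← map_mul, hw', map_one]
  · obtain ⟨v, hv, hv'⟩ := (hT _).1 w.2
    obtain ⟨i, x, hx⟩ := h.surj v hv
    refine ⟨i, π' x, Subtype.ext ?_⟩
    change (ρ' (π' f) : W') ^ i * (w : W') = _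
    rw [hρ', hρ', ← hv', ← map_pow, ← map_mul, hx]
  · obtain ⟨x, rfl⟩ := hπ'.surj y
    have h0 : π (ρ x) = 0 := by
      rw [← hρ', hy]
      rfl
    have h1 : ρ x ∈ RingHom.ker χ • Subalgebra.toSubmodule (d.T Λ) :=
      hp ⟨h.mem x, (hπ.ker _).1 h0⟩
    have h2' : ∃ (i : ℕ) (x' : P), π' x' = 0 ∧ ρ f ^ i * ρ x = ρ x' := by
      refine Submodule.smul_induction_on (p := fun v => ∃ (i : ℕ) (x' : P), π' x' = 0 ∧
        ρ f ^ i * v = ρ x') h1 (fun a ha w hw => ?_) fun y z hy hz => ?_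
      · obtain ⟨i, x', hx'⟩ := h.surj w hw
        refine ⟨i, a • x', (hπ'.ker _).2 (Submodule.smul_mem_smul ha Submodule.mem_top), ?_⟩
        rw [mul_smul_comm, hx', map_smul]
      · obtain ⟨i, u, hu, hu'⟩ := hy
        obtain ⟨i', v, hv, hv'⟩ := hz
        refine ⟨i + i', f ^ i' * u + f ^ i * v, by simp [hu, hv], ?_⟩
        simp only [map_add, map_mul, map_pow]
        linear_combination ρ f ^ i' * hu' + ρ f ^ i * hv'
    obtain ⟨i, x', hx', hx''⟩ := h2'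
    have h3 := hj (f ^ i * x - x') (by
      change ρ _ = 0
      rw [map_sub, map_mul, map_pow, hx'', sub_self])
    have h4 := congrArg π' h3
    rw [Algebra.smul_def, map_mul, hπ'.comm, map_zero] at h4
    have h5 := ((IsUnit.mk0 _ hχ).map (algebraMap κ P')).mul_right_eq_zero.1 h4
    refine ⟨j + i, ?_⟩
    simp only [map_mul, map_pow, map_sub, hx', sub_zero] at h5
    rw [pow_add, mul_assoc]
    exact h5

/-- `b` is the product of `r M` and the elements from `exists_pureAt`, `red2`. Take `W'` from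
`exists_isRed`, `D'` from `IsRed.exists_derivation`. By purity of `S` the map `ξ` factors through
`S' = π S` (`map_S`); `Q` is the kernel of its restriction to `T'`. `SFat.to_away`, `not_sfat`. -/
theorem ED.Good.bad_red {n : ℕ} {s : EShp n} {W : Type} [CommRing W] {d : ED s W} {Λ : Type}
    [CommRing Λ] [IsDomain Λ] [CharZero Λ] [IsNoetherianRing Λ] [Algebra Λ W]
    {D : Fin n → Derivation Λ W W} (h : d.Good Λ D) {P : Type} [CommRing P] [IsNoetherianRing P]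
    [Algebra Λ P] {ρ : P →ₐ[Λ] W} {f : P} {𝔡 𝔞 : Ideal P} (hl : d.rd.Link ρ f 𝔡 𝔞)
    (hl2 : d.rd.Link2 ρ 𝔡 𝔞) {t : ℝ≥0}
    (ht : ((s.r * s.M : ℕ) : ℝ) - s.β ≤ (t : ℝ) * s.b * ((s.r * s.M : ℕ) : ℝ)) :
    ∃ b : Λ, b ≠ 0 ∧ ∀ (κ P' Ω : Type) [Field κ] [Finite κ] [CommRing P'] [Algebra κ P'] [Field Ω]
      (χ : Λ →+* κ) (π' : P →+* P'), IsRed χ π' → χ b ≠ 0 →
      ∀ (ξ : d.S Λ →+* Ω) (m : Ideal P') [m.IsPrime],
        (∀ h : (d.tt : W) ∈ d.S Λ, ξ ⟨d.tt, h⟩ = 0) →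
        (∀ a : Λ, χ a = 0 → ξ (algebraMap Λ (d.S Λ) a) = 0) →
        (∀ (x : P) (h : ρ x ∈ d.S Λ), π' x ∈ m ↔ ξ ⟨ρ x, h⟩ = 0) →
          ¬ SFat (ringChar κ) m (𝔡.map π') s.r (𝔞.map π') t := by
  obtain ⟨b1, hb1, H1⟩ := h.exists_pureAt
  obtain ⟨b2, hb2, H2⟩ := hl.red2 hl2
  have h0 : 0 < s.r * s.M := Nat.mul_pos h.hr h.hM
  have hb3 : ((s.r * s.M : ℕ) : Λ) ≠ 0 := Nat.cast_ne_zero.2 h0.ne'
  refine ⟨b1 * b2 * ((s.r * s.M : ℕ) : Λ), mul_ne_zero (mul_ne_zero hb1 hb2) hb3, ?_⟩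
  intro κ P' Ω _ _ _ _ _ χ π' hπ' hb ξ m _ hξt hξχ hm hsf
  rw [map_mul, map_mul] at hb
  have hb1' : χ b1 ≠ 0 := left_ne_zero_of_mul (left_ne_zero_of_mul hb)
  have hb2' : χ b2 ≠ 0 := right_ne_zero_of_mul (left_ne_zero_of_mul hb)
  have hb3' := right_ne_zero_of_mul hb
  have hpr : (ringChar κ).Prime := CharP.char_is_prime κ (ringChar κ)
  have : Fact (ringChar κ).Prime := ⟨hpr⟩
  have hN : Nat.Coprime (ringChar κ) (s.r * s.M) := by
    rw [hpr.coprime_iff_not_dvd]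
    intro hdv
    apply hb3'
    rw [map_natCast, CharP.cast_eq_zero_iff κ (ringChar κ)]
    exact hdv
  have hmax : (RingHom.ker χ).IsMaximal := RingHom.ker_isMaximal_of_surjective χ hπ'.surjχ
  have hp : d.PureAt (RingHom.ker χ) := H1 _ hmax hb1'
  obtain ⟨W', _, _, π, hπ⟩ := exists_isRed W χ hπ'.surjχ
  choose D' hD' using fun i => hπ.exists_derivation (D i)
  have h' : (d.map π).Good κ D' := h.map_red hπ hp hD'
  obtain ⟨ρ', hρ, hρ', hd, ha⟩ := H2 κ W' P' χ π π' hπ hπ' hb2' hp.hT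
  have hS : ∀ w : W', w ∈ (d.map π).S κ ↔ ∃ v ∈ d.S Λ, π v = w := fun w =>
    Set.ext_iff.1 (ED.map_S hπ d) w
  let πS : d.S Λ →+* (d.map π).S κ :=
    (π.comp (d.S Λ).val.toRingHom).codRestrict ((d.map π).S κ) fun x => (hS _).2 ⟨x, x.2, rfl⟩
  have hπS : ∀ x : d.S Λ, (πS x : W') = π x := fun x => rfl
  have hsurj : Function.Surjective πS := by
    intro y
    obtain ⟨v, hv, hv'⟩ := (hS _).1 y.2
    exact ⟨⟨v, hv⟩, Subtype.ext hv'⟩
  have hker : RingHom.ker πS ≤ RingHom.ker ξ := by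
    intro x hx
    have h1 : π x = 0 := by
      rw [← hπS, (RingHom.mem_ker).1 hx]
      rfl
    have h2 : (x : W) ∈ RingHom.ker χ • Subalgebra.toSubmodule (d.S Λ) :=
      hp.hS ⟨x.2, (hπ.ker _).1 h1⟩
    have h3 : ∃ hx : (x : W) ∈ d.S Λ, ξ ⟨x, hx⟩ = 0 := by
      refine Submodule.smul_induction_on (p := fun v => ∃ hv : v ∈ d.S Λ, ξ ⟨v, hv⟩ = 0) h2
        (fun a ha w hw => ?_) fun y z hy hz => ?_
      · have hw' : w ∈ d.S Λ := hw
        refine ⟨(d.S Λ).smul_mem hw' a, ?_⟩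
        have e : (⟨a • w, (d.S Λ).smul_mem hw' a⟩ : d.S Λ) =
            algebraMap Λ (d.S Λ) a * ⟨w, hw'⟩ := Subtype.ext (by simp [Algebra.smul_def])
        rw [e, map_mul, hξχ a ha, zero_mul]
      · obtain ⟨hy, hy'⟩ := hy
        obtain ⟨hz, hz'⟩ := hz
        refine ⟨add_mem hy hz, ?_⟩
        have e : (⟨y + z, add_mem hy hz⟩ : d.S Λ) = ⟨y, hy⟩ + ⟨z, hz⟩ := rfl
        rw [e, map_add, hy', hz', add_zero]
    obtain ⟨_, h3⟩ := h3
    exact h3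
  obtain ⟨ξ', hξ'⟩ : ∃ ξ' : (d.map π).S κ →+* Ω, ∀ x, ξ' (πS x) = ξ x :=
    ⟨πS.liftOfSurjective hsurj ⟨_, hker⟩, fun x =>
      πS.liftOfRightInverse_comp_apply _ _ ⟨_, hker⟩ x⟩
  have hle : (d.map π).rd.T κ ≤ (d.map π).S κ := ED.T_le_S (d.map π)
  let η : (d.map π).rd.T κ →+* Ω := ξ'.comp (Subalgebra.inclusion hle).toRingHom
  have hη : ∀ x : (d.map π).rd.T κ, η x = ξ' ⟨x, hle x.2⟩ := fun x => rfl
  have hQp : (RingHom.ker η).IsPrime := RingHom.ker_isPrime η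
  have htt : (d.tt : W) ∈ d.S Λ := h.toAmb.tt_mem
  refine h'.not_sfat hN ht (RingHom.ker η) (fun x hx => ?_) ?_
  · rw [RingHom.mem_ker, hη]
    have e : (⟨x, hle x.2⟩ : (d.map π).S κ) = πS ⟨d.tt, htt⟩ * ⟨_, hx⟩ := by
      apply Subtype.ext
      change (x : W') = (((d.map π).tt : W'ˣ) : W') * ((x : W') * (((d.map π).tt⁻¹ : W'ˣ) : W'))
      rw [mul_left_comm, Units.mul_inv, mul_one]
    rw [e, map_mul, hξ', hξt, zero_mul]
  · refine SFat.to_away (T := (d.map π).rd.T κ) ρ' hρ (RingHom.ker η) m ?_ hd ha hsf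
    ext y
    obtain ⟨x, rfl⟩ := hπ'.surj y
    have hx : ρ x ∈ d.S Λ := ED.T_le_S d (hl.mem x)
    rw [hm x hx, Ideal.mem_comap, RingHom.mem_ker, hη, ← hξ']
    have e : πS ⟨ρ x, hx⟩ = ⟨_, hle (ρ' (π' x)).2⟩ := Subtype.ext (hρ' x).symm
    rw [e]
    rfl

end

end Pool.Agent.Lib.MP_4287a9_ag
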