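import Pool.Agent.Lib.MP_4287a9_ag.WVb
import Pool.Agent.Lib.MP_4287a9_ag.ResPrim
import Pool.Agent.Lib.MP_4287a9_ag.WEa

/-!
The data attached to a divisor of small log discrepancy.
-/

open scoped TensorProduct ENNReal NNReal nonZeroDivisors Polynomial
open Filter

namespace Pool.Agent.Lib.MP_4287a9_ag

noncomputable section

section aux

variable {F R K : Type} [Field F] [CommRing R] [Field K] [Algebra F R] [Algebra F K] [Algebra R K]
  [IsScalarTower F R K]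

theorem wed_gen [Algebra.FiniteType F R] : ∃ (a : ℕ) (tg : Fin a → K),
    ∀ z, z ∈ Algebra.adjoin F (Set.range tg) ↔ ∃ c : R, algebraMap R K c = z := by
  obtain ⟨a, p, hp⟩ := Algebra.FiniteType.iff_quotient_mvPolynomial''.1
    (inferInstance : Algebra.FiniteType F R)
  refine ⟨a, ((IsScalarTower.toAlgHom F R K).comp p) ∘ MvPolynomial.X, fun z => ?_⟩
  rw [Algebra.adjoin_range_eq_range_aeval, ← MvPolynomial.aeval_unique]
  constructor
  · rintro ⟨q, rfl⟩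
    exact ⟨p q, rfl⟩
  · rintro ⟨c, rfl⟩
    obtain ⟨q, rfl⟩ := hp c
    exact ⟨q, rfl⟩

omit [Algebra F R] [IsScalarTower F R K] in
theorem wed_ch {A : Set K} (hT : ∀ z, z ∈ Algebra.adjoin F A ↔ ∃ c : R, algebraMap R K c = z)
    (X : Set K) : Algebra.adjoin F (A ∪ X) = ch F R X := by
  refine le_antisymm (Algebra.adjoin_le ?_) (Algebra.adjoin_le ?_)
  · rintro z (hz | hz)
    · exact Algebra.subset_adjoin (Or.inl ((hT z).1 (Algebra.subset_adjoin hz)))
    · exact Algebra.subset_adjoin (Or.inr hz)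
  · rintro z (hz | hz)
    · exact Algebra.adjoin_mono Set.subset_union_left ((hT z).2 hz)
    · exact Algebra.subset_adjoin (Or.inr hz)

omit [Algebra F R] [IsScalarTower F R K] in
theorem wed_base (X : Set K) (c : R) : algebraMap R K c ∈ ch F R X :=
  Algebra.subset_adjoin (Or.inl ⟨c, rfl⟩)

omit [Algebra F R] [IsScalarTower F R K] in
theorem wed_adj {X Y : Set K} (h : X ⊆ Y) {z : K} (hz : z ∈ Algebra.adjoin R X) :
    z ∈ ch F R Y := by
  induction hz using Algebra.adjoin_induction with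
  | mem x hx => exact Algebra.subset_adjoin (Or.inr (h hx))
  | algebraMap c => exact wed_base Y c
  | add x y _ _ hx hy => exact add_mem hx hy
  | mul x y _ _ hx hy => exact mul_mem hx hy

theorem wed_le {O : ValuationSubring K} (hR : ∀ c : R, algebraMap R K c ∈ O) {X : Set K}
    (hX : ∀ x ∈ X, x ∈ O) {z : K} (hz : z ∈ ch F R X) : z ∈ O := by
  induction hz using Algebra.adjoin_induction with
  | mem x hx =>
    rcases hx with ⟨c, rfl⟩ | hx
    · exact hR c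
    · exact hX x hx
  | algebraMap c =>
    rw [IsScalarTower.algebraMap_apply F R K]
    exact hR _
  | add x y _ _ hx hy => exact add_mem hx hy
  | mul x y _ _ hx hy => exact mul_mem hx hy

omit [Algebra F R] [IsScalarTower F R K] in
theorem wed_span {T : Subalgebra F K} (hT : ∀ c : R, algebraMap R K c ∈ T) {k : ℕ}
    (v : Fin k → R) {a : R} (ha : a ∈ Ideal.span (Set.range v)) :
    algebraMap R K a ∈ Submodule.span T (Set.range fun i => algebraMap R K (v i)) := by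
  obtain ⟨x, rfl⟩ := Ideal.mem_span_range_iff_exists_fun.1 ha
  rw [map_sum]
  refine sum_mem fun i _ => ?_
  rw [map_mul]
  exact Submodule.smul_mem _ (⟨_, hT (x i)⟩ : T) (Submodule.subset_span ⟨i, rfl⟩)

omit [Algebra F R] [IsScalarTower F R K] in
theorem wed_pow {T : Subalgebra F K} (hT : ∀ z ∈ T, ∃ c : R, algebraMap R K c = z) {k : ℕ}
    (v : Fin k → R) {I : Ideal R} (hv : ∀ i, v i ∈ I) (M : ℕ) :
    ∀ x ∈ Submodule.span T (Set.range fun i => algebraMap R K (v i)) ^ M,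
      ∃ d ∈ I ^ M, algebraMap R K d = x := by
  have h1 : ∀ x ∈ Submodule.span T (Set.range fun i => algebraMap R K (v i)),
      ∃ d ∈ I, algebraMap R K d = x := by
    intro x hx
    induction hx using Submodule.span_induction with
    | mem x hx =>
      obtain ⟨i, rfl⟩ := hx
      exact ⟨v i, hv i, rfl⟩
    | zero => exact ⟨0, zero_mem _, map_zero _⟩
    | add x y _ _ hx hy =>
      obtain ⟨a, ha, rfl⟩ := hx
      obtain ⟨b, hb, rfl⟩ := hy
      exact ⟨a + b, add_mem ha hb, map_add _ _ _⟩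
    | smul c x _ hx =>
      obtain ⟨a, ha, rfl⟩ := hx
      obtain ⟨c', hc⟩ := hT c c.2
      exact ⟨c' * a, I.mul_mem_left _ ha, by rw [map_mul, hc]; rfl⟩
  induction M with
  | zero =>
    intro x hx
    rw [pow_zero, Submodule.mem_one] at hx
    obtain ⟨y, rfl⟩ := hx
    obtain ⟨c, hc⟩ := hT y y.2
    exact ⟨c, by simp, hc⟩
  | succ M ih =>
    intro x hx
    rw [pow_succ] at hx
    refine Submodule.mul_induction_on hx (fun a ha b hb => ?_) (fun a b ha hb => ?_)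
    · obtain ⟨a', ha', rfl⟩ := ih a ha
      obtain ⟨b', hb', rfl⟩ := h1 b hb
      exact ⟨a' * b', by rw [pow_succ]; exact Ideal.mul_mem_mul ha' hb', map_mul _ _ _⟩
    · obtain ⟨a', ha', rfl⟩ := ha
      obtain ⟨b', hb', rfl⟩ := hb
      exact ⟨a' + b', add_mem ha' hb', map_add _ _ _⟩

theorem wed_der (D : Derivation F K K) {X : Set K} {W : Subalgebra F K} (hX : X ⊆ W)
    (hD : ∀ x ∈ X, D x ∈ W) : ∀ w ∈ Algebra.adjoin F X, D w ∈ W := by
  intro w hw
  induction hw using Algebra.adjoin_induction with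
  | mem x hx => exact hD x hx
  | algebraMap x =>
    rw [Derivation.map_algebraMap]
    exact zero_mem _
  | add x y _ _ hx hy =>
    rw [map_add]
    exact add_mem hx hy
  | mul x y hx' hy' hx hy =>
    rw [Derivation.leibniz, smul_eq_mul, smul_eq_mul]
    exact add_mem (mul_mem (Algebra.adjoin_le hX hx') hy) (mul_mem (Algebra.adjoin_le hX hy') hx)

theorem wed_denom {S : Finset K} {O : ValuationSubring K} (h : IsDiv R S O) {Z : Set K}
    (hZ : Z.Finite) (hO : ∀ z ∈ Z, z ∈ O) : ∃ b ∈ Algebra.adjoin R (S : Set K), b ≠ 0 ∧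
      b⁻¹ ∈ O ∧ ∀ z ∈ Z, b * z ∈ Algebra.adjoin R (S : Set K) := by
  induction Z, hZ using Set.Finite.induction_on with
  | empty => exact ⟨1, one_mem _, one_ne_zero, by simp, by simp⟩
  | @insert a Z _ _ ih =>
    obtain ⟨b, h1, h2, h3, h4⟩ := ih fun z hz => hO z (Or.inr hz)
    obtain ⟨c, k1, k2, k3, k4⟩ := h.2.2 a (hO a (Or.inl rfl))
    refine ⟨b * c, mul_mem h1 k1, mul_ne_zero h2 k2, by rw [mul_inv]; exact mul_mem h3 k3, ?_⟩
    rintro z (rfl | hz)
    · rw [mul_assoc]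
      exact mul_mem h1 k4
    · rw [mul_right_comm]
      exact mul_mem (h4 z hz) k1

theorem wed_ord {O : ValuationSubring K} (hO : IsDiscreteValuationRing O) {π : O}
    (hπ : Irreducible π) {Z : Set K} (hZ : ∀ z ∈ Z, z ∈ O) :
    ∃ b : ℕ, ordS O Z = b ∧ ∀ z ∈ Z, z * ((π : K)⁻¹) ^ b ∈ O := by
  by_cases h0 : ∃ z ∈ Z, z ≠ 0
  · obtain ⟨y, hy, hy0, hy1⟩ := exists_gen hO one_ne_zero (by simpa using hZ) h0
    obtain ⟨b, hb⟩ := Int.eq_ofNat_of_zero_le ((ordS_nonneg_iff hO hy0).2 (hZ y hy))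
    refine ⟨b, (ordS_eq_of_gen hy hy1 hy0).trans hb, fun z hz => ?_⟩
    have h1 := (div_zpow_ordS_mem hO hπ hy0).1
    rw [hb, zpow_natCast] at h1
    have h2 := mul_mem (hy1 z hz) h1
    rwa [div_mul_div_cancel₀ hy0, div_eq_mul_inv, ← inv_pow] at h2
  · push Not at h0
    exact ⟨0, ordS_zero hO h0, fun z hz => by simpa using hZ z hz⟩

theorem wed_g [IsDomain R] [IsFractionRing R K] {A : Set K}
    (hT : ∀ c : R, algebraMap R K c ∈ Algebra.adjoin F A) {π : K} (hπ : π ≠ 0) {Z : Set K}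
    (hZ : Z.Finite) : ∃ g : R, algebraMap R K g ≠ 0 ∧
      algebraMap R K g * π⁻¹ ∈ Algebra.adjoin F A ∧
        ∀ z ∈ Z, z ∈ Algebra.adjoin F (A ∪ {(algebraMap R K g)⁻¹}) := by
  have hinj := IsFractionRing.injective R K
  obtain ⟨g, hg⟩ := IsLocalization.exist_integer_multiples_of_finset R⁰ hZ.toFinset
  have hg0 : algebraMap R K g ≠ 0 := (map_ne_zero_iff _ hinj).2 (nonZeroDivisors.coe_ne_zero g)
  obtain ⟨p1, p2, hp2, rfl⟩ := IsFractionRing.div_surjective (A := R) π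
  have h1 : algebraMap R K p1 ≠ 0 := (div_ne_zero_iff.1 hπ).1
  refine ⟨g * p1, by rw [map_mul]; exact mul_ne_zero hg0 h1, ?_, fun z hz => ?_⟩
  · rw [map_mul, inv_div, mul_assoc, mul_div_cancel₀ _ h1]
    exact mul_mem (hT _) (hT _)
  · obtain ⟨c, hc⟩ := hg z (hZ.mem_toFinset.2 hz)
    have e0 : z = (algebraMap R K (g * p1))⁻¹ * algebraMap R K (c * p1) := by
      rw [map_mul, map_mul, hc, Algebra.smul_def]
      field_simp
    rw [e0]
    exact mul_mem (Algebra.subset_adjoin (Or.inr rfl))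
      (Algebra.adjoin_mono Set.subset_union_left (hT _))

end aux

theorem wed_main {F P R K : Type} [Field F] [CharZero F] [CommRing P] [Algebra F P]
    [Algebra.FiniteType F P] [CommRing R] [Field K] [Algebra F R] [Algebra F K] [Algebra R K]
    [IsScalarTower F R K] [IsFractionRing R K] [IsDomain R] [Algebra.FiniteType F R] {n r : ℕ}
    {𝔡 𝔞 : Ideal P} (hr : 0 < r) (ρ : P →ₐ[F] R) {f : P} (away : IsAway ρ.toRingHom f)
    {c : CD F R K n} (hc : c.Good (𝔡.map ρ) r) {t : ℝ≥0} {S : Finset K}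
    {O : ValuationSubring K} (hO : IsDiv R S O)
    (hle : ldisc c.D c.u (r * c.M) O ≤ (t : ℝ) * ordS O (algebraMap R K '' (𝔞.map ρ))) :
    ∃ (Ω : Type) (_ : Field Ω) (_ : Algebra F Ω) (ζ : P →ₐ[F] Ω), ζ f ≠ 0 ∧
      (0 < ldisc c.D c.u (r * c.M) O → ∀ a ∈ 𝔞, ζ a = 0) ∧ HasED F f 𝔡 r 𝔞 t ζ := by
  classical
  have hNP : IsNoetherianRing P := Algebra.FiniteType.isNoetherianRing F P
  have hinj := IsFractionRing.injective R K
  have hne : ∀ {x : R}, x ≠ 0 → algebraMap R K x ≠ 0 := fun hx => (map_ne_zero_iff _ hinj).2 hx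
  have hdvr := hO.1
  have hN : 0 < r * c.M := Nat.mul_pos hr hc.hM
  obtain ⟨nt, tg, hT⟩ := wed_gen (F := F) (R := R) (K := K)
  have hT1 : ∀ x : R, algebraMap R K x ∈ Algebra.adjoin F (Set.range tg) :=
    fun x => (hT _).2 ⟨x, rfl⟩
  obtain ⟨e, y, l0, π, he1, he2, he3, het, hπ, hy⟩ := hO.exists_chart hc.hint hc.dual
  have hπ0 : (π : K) ≠ 0 := fun h0 => hπ.ne_zero (Subtype.ext h0)
  have hSO : ∀ x ∈ (S : Set K) ∪ {e⁻¹}, x ∈ O := by
    rintro x (hx | rfl)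
    · exact hO.2.1 x (Algebra.subset_adjoin hx)
    · exact he3
  have hJ : jac c.D y ≠ 0 := jac_ne_zero hc.dual het
  have hJE : ∀ i, jac c.D (c.z i) ≠ 0 := fun i => jac_ne_zero hc.dual (hc.het i)
  obtain ⟨D', hD1, hD2⟩ := exists_dual c.D y hJ
  have hD3 : ∀ w, jac D' w * jac c.D y = jac c.D w := hD2
  have hu : c.u * jac c.D y ^ (r * c.M) ≠ 0 := mul_ne_zero hc.hu (pow_ne_zero _ hJ)
  obtain ⟨β, hβ⟩ : ∃ β, β = ordS O {c.u * jac c.D y ^ (r * c.M)} := ⟨_, rfl⟩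
  have hβ1 := div_zpow_ordS_mem hdvr hπ hu
  rw [← hβ] at hβ1
  have hβ2 : ldisc c.D c.u (r * c.M) O * ((r * c.M : ℕ) : ℝ) = ((r * c.M : ℕ) : ℝ) - β := by
    have h1 : ((r * c.M : ℕ) : ℝ) ≠ 0 := Nat.cast_ne_zero.2 hN.ne'
    rw [ldisc, hO.ordS_jacs hc.dual (fun x hx => Algebra.subset_adjoin (Or.inr (Or.inl hx))) hSO het,
      hβ, ordS_mul hdvr hc.hu (pow_ne_zero _ hJ), ← zpow_natCast, ordS_zpow hdvr hJ, Int.cast_add,
      Int.cast_mul, Int.cast_natCast]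
    field_simp
    ring
  obtain ⟨b, hb1, hb2⟩ := wed_ord hdvr hπ (Z := algebraMap R K '' (𝔞.map ρ)) (by
    rintro _ ⟨a, -, rfl⟩
    exact hO.base a)
  rw [hb1, Int.cast_natCast] at hle
  have hgen : ∀ I : Ideal P, ∃ (j : ℕ) (x : Fin j → P), Ideal.span (Set.range x) = I := fun I =>
    Submodule.fg_iff_exists_fin_generating_family.1 (IsNoetherian.noetherian I)
  obtain ⟨nd, dg, hdg⟩ := hgen 𝔡
  obtain ⟨na, ag, hag⟩ := hgen 𝔞
  have hdg1 : ∀ i, dg i ∈ 𝔡 := fun i => hdg ▸ Ideal.subset_span ⟨i, rfl⟩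
  have hag1 : ∀ i, ag i ∈ 𝔞 := fun i => hag ▸ Ideal.subset_span ⟨i, rfl⟩
  have hmap : ∀ {j : ℕ} (x : Fin j → P), (Ideal.span (Set.range x)).map ρ =
      Ideal.span (Set.range fun i => ρ (x i)) := fun x => by
    rw [Ideal.map_span, ← Set.range_comp]
    rfl
  obtain ⟨i0, hi0⟩ : ∃ i, algebraMap R K (ρ (dg i)) ≠ 0 := by
    by_contra hcon
    push Not at hcon
    have h1 : 𝔡.map ρ = ⊥ := by
      rw [← hdg, hmap, Ideal.span_eq_bot]
      rintro _ ⟨i, rfl⟩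
      exact (map_eq_zero_iff _ hinj).1 (hcon i)
    obtain ⟨i⟩ : Nonempty (Fin c.ne) := by
      by_contra hι
      have : IsEmpty (Fin c.ne) := not_nonempty_iff.1 hι
      have h2 := hc.he1
      rw [Set.range_eq_empty, Ideal.span_empty] at h2
      exact hc.he0 h2
    obtain ⟨k, d, hd, h2⟩ := hc.hed i
    rw [h1, ← Ideal.zero_eq_bot, zero_pow hc.hM.ne', Ideal.zero_eq_bot, Ideal.mem_bot] at hd
    rw [hd, map_zero] at h2
    exact mul_ne_zero (pow_ne_zero _ (hne (hc.he i)))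
      (mul_ne_zero hc.hu (pow_ne_zero _ (hJE i))) h2
  obtain ⟨B, hB1, hB2, hB3, hB4⟩ := wed_denom hO
    (Z := {c.u * jac c.D y ^ (r * c.M) / (π : K) ^ β, (π : K) ^ β / (c.u * jac c.D y ^ (r * c.M))} ∪
      Set.range fun i => algebraMap R K (ρ (ag i)) * (π : K)⁻¹ ^ b) (Set.toFinite _) (by
    rintro z ((rfl | rfl) | ⟨i, rfl⟩)
    · exact hβ1.1
    · exact hβ1.2
    · exact hb2 _ ⟨_, Ideal.mem_map_of_mem _ (hag1 i), rfl⟩)
  obtain ⟨nb, bg, -, hbg⟩ := (Set.toFinite ((S : Set K) ∪ {e⁻¹} ∪ {B⁻¹})).fin_param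
  have hS2 : Algebra.adjoin F (Set.range tg ∪ Set.range bg) =
      ch F R ((S : Set K) ∪ {e⁻¹} ∪ {B⁻¹}) := by rw [hbg, wed_ch hT]
  have hB5 : ∀ z, B * z ∈ Algebra.adjoin R (S : Set K) →
      z ∈ Algebra.adjoin F (Set.range tg ∪ Set.range bg) := fun z hz => by
    rw [hS2, ← inv_mul_cancel_left₀ hB2 z]
    exact mul_mem (Algebra.subset_adjoin (Or.inr (Or.inr rfl)))
      (wed_adj (Set.subset_union_left.trans Set.subset_union_left) hz)
  have het2 : EtC (Algebra.adjoin F (Set.range tg ∪ Set.range bg)) y := by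
    rw [hS2]
    refine het.of_away (Algebra.adjoin_mono (Set.union_subset_union_right _ Set.subset_union_left))
      (wed_adj Set.subset_union_left hB1)
      ⟨B⁻¹, Algebra.subset_adjoin (Or.inr (Or.inr rfl)), mul_inv_cancel₀ hB2⟩ fun z hz => ?_
    rw [ch, ← Set.union_assoc] at hz
    exact wea_pow (wed_adj (F := F) Set.subset_union_left hB1) (mul_inv_cancel₀ hB2) hz
  have hS3 : ∀ z ∈ Algebra.adjoin F (Set.range tg ∪ Set.range bg), z ∈ O := fun z hz => by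
    rw [hS2] at hz
    refine wed_le hO.base ?_ hz
    rintro x (hx | rfl)
    · exact hSO x hx
    · exact hB3
  have hjE : ∀ i, jac c.D y / jac c.D (c.z i) ≠ 0 := fun i => div_ne_zero hJ (hJE i)
  obtain ⟨g, hg0, hg1, hg⟩ := wed_g (F := F) hT1 hπ0
    (Z := (Set.range bg ∪ Set.range fun i => (algebraMap R K (c.e i))⁻¹) ∪
      ((Set.range fun i => jac c.D y / jac c.D (c.z i)) ∪
        Set.range fun q : Fin n × Fin nt => D' q.1 (tg q.2)) ∪
      {(algebraMap R K c.e1)⁻¹, (algebraMap R K (ρ (dg i0)))⁻¹}) (Set.toFinite _)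
  let ι : Algebra.adjoin F (Set.range tg ∪ Set.range bg) →+* O :=
    (Algebra.adjoin F (Set.range tg ∪ Set.range bg)).val.toRingHom.codRestrict O
      fun z => hS3 z z.2
  let ξ0 := (IsLocalRing.residue O).comp ι
  letI : Algebra F (IsLocalRing.ResidueField O) := (ξ0.comp (algebraMap F _)).toAlgebra
  let ξ : Algebra.adjoin F (Set.range tg ∪ Set.range bg) →ₐ[F] IsLocalRing.ResidueField O :=
    { ξ0 with commutes' := fun _ => rfl }
  let ρ' : P →ₐ[F] K := (IsScalarTower.toAlgHom F R K).comp ρ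
  have hTS : ∀ x : R, algebraMap R K x ∈ Algebra.adjoin F (Set.range tg ∪ Set.range bg) :=
    fun x => Algebra.adjoin_mono Set.subset_union_left (hT1 x)
  have hξ : ∀ (z : K) (hz : z ∈ Algebra.adjoin F (Set.range tg ∪ Set.range bg)),
      z * (π : K)⁻¹ ∈ O → ξ ⟨z, hz⟩ = 0 := fun z hz h1 => by
    have h2 : ι ⟨z, hz⟩ = ⟨_, h1⟩ * π := Subtype.ext (inv_mul_cancel_right₀ hπ0 z).symm
    change IsLocalRing.residue O (ι ⟨z, hz⟩) = 0
    rw [h2, map_mul, (IsLocalRing.residue_eq_zero_iff π).2 hπ.not_isUnit, mul_zero]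
  obtain ⟨fi, hfi⟩ := away.1.exists_right_inv
  have hfi' : ρ' f * algebraMap R K fi = 1 := by
    rw [← map_one (algebraMap R K), ← hfi, map_mul]
    rfl
  refine ⟨IsLocalRing.ResidueField O, inferInstance, inferInstance,
    ξ.comp (ρ'.codRestrict _ fun x => hTS (ρ x)), fun h0 => ?_, fun h0 a ha => ?_,
    n, ⟨nt, nb, nd, na, c.ne, r, c.M, l0, β, b⟩, K, inferInstance, inferInstance,
    ⟨tg, bg, fun i => algebraMap R K (ρ (dg i)), fun i => algebraMap R K (ρ (ag i)),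
      fun i => algebraMap R K (c.e i), Units.mk0 _ hg0, Units.mk0 _ hu, Units.mk0 _ (hne hc.he0),
      algebraMap R K c.e2, y, Units.mk0 _ hπ0, Units.mk0 _ hi0,
      fun i => (algebraMap R K (c.e i))⁻¹, c.z, fun i => Units.mk0 _ (hjE i)⟩, D', ρ', ξ,
    ⟨hr, hc.hM, hy.symm, fun i => hT1 _, fun i => hT1 _, fun i => hT1 _, hT1 _, het2, ⟨?_, ?_⟩,
      fun i => ?_, Algebra.adjoin_mono Set.subset_union_left hg1,
      fun i => mul_inv_cancel₀ (hne (hc.he i)), fun i => ?_, fun i x hx => ?_,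
      Submodule.subset_span ⟨i0, rfl⟩, wed_span hT1 _ hc.he1, wed_span hT1 _ hc.he2, ?_,
      fun i => hg _ (Or.inl (Or.inl (Or.inl ⟨i, rfl⟩))), hg _ (Or.inr (Or.inl rfl)),
      hg _ (Or.inr (Or.inr rfl)), fun i => hg _ (Or.inl (Or.inl (Or.inr ⟨i, rfl⟩))),
      fun i => hg _ (Or.inl (Or.inr (Or.inl ⟨i, rfl⟩))), fun i => ?_, fun i => ?_, hD1⟩,
    ⟨fun x => hT1 (ρ x), ⟨_, hT1 fi, hfi'⟩, fun w hw => ?_, fun x hx => ?_,
      fun i => ⟨dg i, hdg1 i, rfl⟩, fun i => ⟨ag i, hag1 i, rfl⟩⟩,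
    ⟨fun x hx => ?_, fun x hx => ?_⟩, rfl, ?_, fun h0 => hξ _ h0 ?_, fun x _ => rfl⟩
  · have h1 : ξ ⟨ρ' f, hTS (ρ f)⟩ * ξ ⟨_, hTS fi⟩ = 1 := by
      rw [← map_mul, ← map_one ξ]
      exact congrArg ξ (Subtype.ext hfi')
    rw [show ξ ⟨ρ' f, hTS (ρ f)⟩ = 0 from h0, zero_mul] at h1
    exact zero_ne_one h1
  · have h1 : b ≠ 0 := by
      rintro rfl
      rw [Nat.cast_zero, mul_zero] at hle
      exact absurd h0 (not_lt.2 hle)
    obtain ⟨b', rfl⟩ := Nat.exists_eq_succ_of_ne_zero h1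
    refine hξ _ (hTS (ρ a)) ?_
    have h2 := mul_mem (hb2 _ ⟨_, Ideal.mem_map_of_mem ρ ha, rfl⟩) (pow_mem π.2 b')
    convert h2 using 1
    rw [pow_succ', mul_assoc, mul_assoc, ← mul_pow, inv_mul_cancel₀ hπ0, one_pow, mul_one]
  · refine hB5 _ ?_
    convert hB4 _ (Or.inl (Or.inl rfl)) using 2
    simp [div_eq_mul_inv]
  · refine hB5 _ ?_
    convert hB4 _ (Or.inl (Or.inr rfl)) using 2
    simp [div_eq_mul_inv]
  · refine hB5 _ ?_
    convert hB4 _ (Or.inr ⟨i, rfl⟩) using 2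
    simp
  · change EtC (Algebra.adjoin F (Set.range tg ∪ {(algebraMap R K (c.e i))⁻¹})) (c.z i)
    rw [wed_ch hT]
    exact hc.het i
  · obtain ⟨d, hd, rfl⟩ := wed_pow (fun z hz => (hT z).1 hz) (fun i => ρ (dg i))
      (fun i => Ideal.mem_map_of_mem ρ (hdg1 i)) c.M x hx
    change _ ∈ Algebra.adjoin F (Set.range tg ∪ {(algebraMap R K (c.e i))⁻¹})
    rw [wed_ch hT]
    convert hc.hde i d hd using 1
    have h1 := hJE i
    have h2 := hc.hu
    simp only [Units.val_mul, Units.val_inv_eq_inv_val, Units.val_pow_eq_pow_val, Units.val_mk0,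
      div_pow]
    field_simp
  · rintro w hw ⟨v, hv, hwv⟩
    obtain ⟨w0, rfl⟩ := (hT w).1 hw
    obtain ⟨v0, rfl⟩ := (hT v).1 hv
    obtain ⟨v1, rfl⟩ := hc.hreg w0 ⟨v0, hinj (by rw [map_mul, map_mul]; exact hwv)⟩
    exact ⟨1, one_ne_zero, _, hT1 v1, by rw [one_smul, map_mul]; rfl⟩
  · have q1 := wed_der (D' i) (X := Set.range tg) (W := Algebra.adjoin F
      (Set.range tg ∪ {(algebraMap R K g)⁻¹}))
      (Set.subset_union_left.trans Algebra.subset_adjoin) (by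
        rintro _ ⟨l, rfl⟩
        exact hg _ (Or.inl (Or.inr (Or.inr ⟨(i, l), rfl⟩))))
    refine wed_der (D' i) Algebra.subset_adjoin ?_
    rintro z (hz | rfl)
    · exact q1 z (Algebra.subset_adjoin hz)
    · change D' i (algebraMap R K g)⁻¹ ∈ _
      rw [Derivation.leibniz_inv, smul_eq_mul]
      exact mul_mem (neg_mem (pow_mem (Algebra.subset_adjoin (by exact Or.inr rfl)) 2))
        (q1 _ (hT1 g))
  · change jac c.D y / jac c.D (c.z i) * jac D' (c.z i) = 1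
    rw [div_mul_eq_mul_div, mul_comm, hD3, div_self (hJE i)]
  · obtain ⟨w0, rfl⟩ := (hT w).1 hw
    obtain ⟨i, x, hx⟩ := away.2.1 w0
    refine ⟨i, x, ?_⟩
    have h1 := congrArg (algebraMap R K) hx
    rw [map_mul, map_pow] at h1
    exact h1
  · obtain ⟨i, hi⟩ := away.2.2 x ((map_eq_zero_iff _ hinj).1 hx)
    exact ⟨1, one_ne_zero, i, by rw [hi, smul_zero]⟩
  · exact wed_span hT1 (fun i => ρ (dg i)) (hmap dg ▸ Ideal.mem_map_of_mem ρ (hdg.symm ▸ hx))
  · exact wed_span hT1 (fun i => ρ (ag i)) (hmap ag ▸ Ideal.mem_map_of_mem ρ (hag.symm ▸ hx))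
  · change ((r * c.M : ℕ) : ℝ) - β ≤ (t : ℝ) * b * ((r * c.M : ℕ) : ℝ)
    rw [← hβ2]
    exact mul_le_mul_of_nonneg_right hle (Nat.cast_nonneg _)
  · change (π : K) * (π : K)⁻¹ ∈ O
    rw [mul_inv_cancel₀ hπ0]
    exact one_mem _

/-- Let `O` be a divisor with `ldisc ≤ t * ord 𝔞`, `Ω` its residue field, `e, y, l0, π` from
`exists_chart`, `D'` dual to `y` (`exists_dual`), `J = jac D y`, `u' = u J ^ N`, `β = ord u'`
(`ordS_jacs`), `b = ord 𝔞` (`0` if `𝔞 R = 0`), `jE i = J / jac D (z i)`. Shrink the chart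
(`EtC.of_away`: invert one more element of the chart that is a unit of `O`) so that it contains
`u' / π ^ β`, its inverse and the `ag i / π ^ b`. `g ∈ R` is a multiple of a numerator of `π` and a
common denominator (`exists_denom` for `D'`). `d0 ≠ 0` exists by `hed` (there is a chart as
`e1 ≠ 0`). If `VK ⊤ 0` holds then `0 < ldisc ≤ t * b`, so `𝔞 ⊆ π O`. -/
theorem Mdl.hasED {F P : Type} [Field F] [CharZero F] [CommRing P] [Algebra F P]
    [Algebra.FiniteType F P] {n r : ℕ} {𝔡 : Ideal P} (hr : 0 < r) (μ : Mdl F P n 𝔡 r)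
    {𝔞 : Ideal P} {t : ℝ≥0} (h : ¬ μ.VK 𝔞 t) :
    ∃ (Ω : Type) (_ : Field Ω) (_ : Algebra F Ω) (ζ : P →ₐ[F] Ω), ζ μ.f ≠ 0 ∧
      (μ.VK ⊤ 0 → ∀ a ∈ 𝔞, ζ a = 0) ∧ HasED F μ.f 𝔡 r 𝔞 t ζ := by
  obtain ⟨S, O, hO, hle⟩ : ∃ (S : Finset μ.K) (O : ValuationSubring μ.K), IsDiv μ.R S O ∧
      ldisc μ.c.D μ.c.u (r * μ.c.M) O ≤
        (t : ℝ) * ordS O (algebraMap μ.R μ.K '' (𝔞.map μ.ρ)) := by
    by_contra hcon
    exact h fun S O hO => lt_of_not_ge fun h1 => hcon ⟨S, O, hO, h1⟩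
  obtain ⟨Ω, _, _, ζ, h1, h2, h3⟩ := wed_main hr μ.ρ μ.away μ.good hO hle
  refine ⟨Ω, inferInstance, inferInstance, ζ, h1, fun h0 => h2 ?_, h3⟩
  simpa using h0 S O hO

end

end Pool.Agent.Lib.MP_4287a9_ag
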