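import Pool.Agent.Lib.MP_4287a9_ag.WEa
import Pool.Agent.Lib.MP_4287a9_ag.H2

/-!
Reduction of the data attached to one divisor (compare `H2`).
-/

open scoped TensorProduct ENNReal NNReal nonZeroDivisors Polynomial
open Filter

namespace Pool.Agent.Lib.MP_4287a9_ag

noncomputable section

variable {n : ℕ} {s : EShp n} {W : Type} [CommRing W] {d : ED s W} {Λ : Type} [CommRing Λ]
  [Algebra Λ W] {D : Fin n → Derivation Λ W W}

/-- As `RD.Good.exists_pureAt`. -/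
theorem ED.Good.exists_pureAt [IsDomain Λ] [IsNoetherianRing Λ] (h : d.Good Λ D) :
    ∃ b : Λ, b ≠ 0 ∧ ∀ z : Ideal Λ, z.IsMaximal → b ∉ z → d.PureAt z := by
  have hTfg : (d.rd.T Λ).FG := Subalgebra.fg_def.2 ⟨_, Set.finite_range _, rfl⟩
  have hSfg : (d.S Λ).FG :=
    Subalgebra.fg_def.2 ⟨_, (Set.finite_range _).union (Set.finite_range _), rfl⟩
  have hEfg : ∀ i, (d.SE Λ i).FG := fun i =>
    Subalgebra.fg_def.2 ⟨_, (Set.finite_range _).union (Set.finite_singleton _), rfl⟩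
  obtain ⟨b₁, hb₁, H₁⟩ := h2_gen_pure (d.rd.T Λ) hTfg d.g h.gT h.exists_pow
  obtain ⟨b₀, hb₀, H₀⟩ := h2_gen_pure (d.S Λ) hSfg d.g (d.T_le_S h.gT) fun w =>
    (h.exists_pow w).imp fun i hi => d.T_le_S hi
  have hS : ∀ i, ∃ b : Λ, b ≠ 0 ∧ ∀ z : Ideal Λ, z.IsMaximal → b ∉ z →
      Pure z (Subalgebra.toSubmodule (d.SE Λ i)) := fun i =>
    h2_gen_pure (d.SE Λ i) (hEfg i) d.g (d.T_le_SE i h.gT) fun w =>
      (h.exists_pow w).imp fun k hk => d.T_le_SE i hk
  choose b₂ hb₂ H₂ using hS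
  have he1 : (d.e1 : W) ∈ d.rd.T Λ :=
    d.rd.mem_T_of_mem_sp_pow h.eT 1 (by rw [pow_one]; exact h.he1)
  have he2 : d.e2 ∈ d.rd.T Λ := d.rd.mem_T_of_mem_sp_pow h.eT 1 (by rw [pow_one]; exact h.he2)
  obtain ⟨b₃, hb₃, H₃⟩ := h2_gen_seq (d.rd.T Λ) hTfg he1 he2 h.hreg
  refine ⟨b₀ * b₁ * (∏ i, b₂ i) * b₃,
    mul_ne_zero (mul_ne_zero (mul_ne_zero hb₀ hb₁) (Finset.prod_ne_zero_iff.2 fun i _ => hb₂ i))
      hb₃, fun z hz hb => ?_⟩
  have h₀ : b₀ ∉ z := fun h' => hb (z.mul_mem_right _ (z.mul_mem_right _ (z.mul_mem_right _ h')))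
  have h₁ : b₁ ∉ z := fun h' => hb (z.mul_mem_right _ (z.mul_mem_right _ (z.mul_mem_left _ h')))
  have h₃ : b₃ ∉ z := fun h' => hb (z.mul_mem_left _ h')
  have h₂ : ∀ i, b₂ i ∉ z := fun i h' => hb (z.mul_mem_right _ (z.mul_mem_left _
    (z.mem_of_dvd (Finset.dvd_prod_of_mem b₂ (Finset.mem_univ i)) h')))
  refine ⟨H₁ z hz h₁, H₀ z hz h₀, fun i => H₂ i z hz (h₂ i), fun w hw v hv hwv => ?_⟩
  have hm : d.e2 * w - d.e1 * v ∈ d.rd.T Λ :=
    (d.rd.T Λ).sub_mem ((d.rd.T Λ).mul_mem he2 hw) ((d.rd.T Λ).mul_mem he1 hv)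
  obtain ⟨v', hv', H⟩ := H₃ z hz h₃ w hw v hv (H₁ z hz h₁ ⟨hm, hwv⟩)
  exact ⟨v', hv', Submodule.smul_mono le_rfl le_top H⟩

/-- As `RD.Good.map_red`. For `hde`: every element of the power of the span downstairs is the
image of an element of the power of the span upstairs. -/
theorem ED.Good.map_red (h : d.Good Λ D) {κ W' : Type} [Field κ] [CommRing W'] [Algebra κ W']
    {χ : Λ →+* κ} {π : W →+* W'} (hπ : IsRed χ π) (hp : d.PureAt (RingHom.ker χ))
    {D' : Fin n → Derivation κ W' W'} (hD' : ∀ i w, D' i (π w) = π (D i w)) :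
    (d.map π).Good κ D' := by
  have hT : ∀ w ∈ d.rd.T Λ, π w ∈ (d.map π).rd.T κ := fun w hw => by
    rw [← SetLike.mem_coe, ED.map_rd, RD.map_T hπ d.rd]
    exact ⟨w, hw, rfl⟩
  have hT' : ∀ w' ∈ (d.map π).rd.T κ, ∃ w ∈ d.rd.T Λ, π w = w' := fun w' hw => by
    rw [← SetLike.mem_coe, ED.map_rd, RD.map_T hπ d.rd] at hw
    exact hw
  have hS : ∀ w ∈ d.S Λ, π w ∈ (d.map π).S κ := fun w hw => by
    rw [← SetLike.mem_coe, ED.map_S hπ d]
    exact ⟨w, hw, rfl⟩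
  have hE : ∀ i, ∀ w ∈ d.SE Λ i, π w ∈ (d.map π).SE κ i := fun i w hw => by
    rw [← SetLike.mem_coe, ED.map_SE hπ d i]
    exact ⟨w, hw, rfl⟩
  have hsp : ∀ {k : ℕ} (v : Fin k → W), ∀ w ∈ d.rd.sp Λ v,
      π w ∈ (d.rd.map π).sp κ (fun l => π (v l)) := fun v w hw => by
    rw [← SetLike.mem_coe, RD.h2_map_sp hπ d.rd v]
    exact ⟨w, hw, rfl⟩
  have hW : (d.map π).rd.Ws κ = ⊤ := by
    refine eq_top_iff.2 fun w' _ => ?_
    obtain ⟨w, rfl⟩ := hπ.surj w'
    obtain ⟨i, hi⟩ := h.exists_pow w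
    have hle : (d.map π).rd.T κ ≤ (d.map π).rd.Ws κ := Algebra.adjoin_mono Set.subset_union_left
    have hg : ((((d.map π).g)⁻¹ : W'ˣ) : W') ∈ (d.map π).rd.Ws κ :=
      Algebra.subset_adjoin (Or.inr rfl)
    have e : π w = ((((d.map π).g)⁻¹ : W'ˣ) : W') ^ i * π ((d.g : W) ^ i * w) := by
      have e1 : π (d.g : W) = ((d.map π).g : W') := rfl
      rw [map_mul, map_pow, e1, ← mul_assoc, ← mul_pow, Units.inv_mul, one_pow, one_mul]
    rw [e]
    exact Subalgebra.mul_mem _ (Subalgebra.pow_mem _ hg i) (hle (hT _ hi))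
  have hall : ∀ w', w' ∈ (d.map π).rd.Ws κ := fun w' => hW ▸ Algebra.mem_top
  refine
    { hr := h.hr
      hM := h.hM
      ht := congrArg π h.ht
      dT := fun i => hT _ (h.dT i)
      aT := fun i => hT _ (h.aT i)
      eT := fun i => hT _ (h.eT i)
      gT := hT _ h.gT
      het := EtC.map_red hπ (ED.map_S hπ d) hp.hS h.het
      hu := ?_
      ha := fun i => ?_
      hg := ?_
      heI := fun i => ?_
      hetE := fun i => EtC.map_red hπ (ED.map_SE hπ d i) (hp.hE i) (h.hetE i)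
      hde := fun i w' hw' => ?_
      hd0 := hsp d.dg _ h.hd0
      he1 := hsp d.e _ h.he1
      he2 := hsp d.e _ h.he2
      hreg := ?_
      wb := fun i => hall _
      we := hall _
      wd := hall _
      weI := fun i => hall _
      wjE := fun i => hall _
      wD := fun i w _ => hall _
      hdetE := fun i => ?_
      hdual := fun i l => ?_
      hW := hW }
  · have h1 := h2_as π (ED.map_S hπ d) h.hu
    rw [map_zpow] at h1
    exact h1
  · have h1 := hS _ (h.ha i)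
    have e : π ((d.tt⁻¹ ^ s.b : Wˣ) : W) = (((d.map π).tt⁻¹ ^ s.b : W'ˣ) : W') := by
      have e1 : (d.map π).tt⁻¹ ^ s.b = Units.map (π : W →* W') (d.tt⁻¹ ^ s.b) := by
        rw [map_pow, map_inv]
        rfl
      rw [e1]
      rfl
    rw [map_mul, e] at h1
    exact h1
  · have h1 := hS _ h.hg
    have e1 : (d.map π).g * (d.map π).tt⁻¹ = Units.map (π : W →* W') (d.g * d.tt⁻¹) := by
      rw [map_mul, map_inv]
      rfl
    rw [e1]
    exact h1
  · have h1 := congrArg π (h.heI i)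
    rw [map_mul, map_one] at h1
    exact h1
  · have h1 : w' ∈ π '' ((d.rd.sp Λ d.dg ^ s.M : Submodule (d.rd.T Λ) W) : Set W) := by
      rw [← RD.h2_map_sp_pow hπ d.rd d.dg s.M]
      exact hw'
    obtain ⟨w, hw, rfl⟩ := h1
    have h2 := hE i _ (h.hde i w hw)
    have e1 : (d.map π).u⁻¹ * (d.map π).jE i ^ (s.r * s.M) =
        Units.map (π : W →* W') (d.u⁻¹ * d.jE i ^ (s.r * s.M)) := by
      rw [map_mul, map_pow, map_inv]
      rfl
    rw [map_mul] at h2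
    rw [e1]
    exact h2
  · rintro w' hw' ⟨v', hv', e⟩
    obtain ⟨w, hw, rfl⟩ := hT' w' hw'
    obtain ⟨v, hv, rfl⟩ := hT' v' hv'
    have h1 : π (d.e2 * w - d.e1 * v) = 0 := by
      rw [map_sub, map_mul, map_mul, sub_eq_zero]
      exact e
    obtain ⟨v₁, hv₁, h2⟩ := hp.hreg w hw v hv ((hπ.ker _).1 h1)
    have h3 := (hπ.ker _).2 h2
    rw [map_sub, map_mul, sub_eq_zero] at h3
    exact ⟨1, one_ne_zero, π v₁, hT _ hv₁, by rw [one_smul]; exact h3⟩
  · have h1 := congrArg π (h.hdetE i)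
    rw [map_mul, map_one, jac, RingHom.map_det] at h1
    have e : (Matrix.of fun a l => D' a ((d.map π).zE i l)) =
        π.mapMatrix (Matrix.of fun a l => D a (d.zE i l)) := by
      ext a l
      exact hD' a (d.zE i l)
    rw [jac, e]
    exact h1
  · have h1 : D' i ((d.map π).y l) = π (D i (d.y l)) := hD' i _
    rw [h1, h.hdual i l]
    split_ifs
    · exact map_one π
    · exact map_zero π

end

end Pool.Agent.Lib.MP_4287a9_ag
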