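import Pool.Agent.Lib.MP_4287a9_ag.WEa
import Pool.Agent.Lib.MP_4287a9_ag.H1c
import Pool.Agent.Lib.MP_4287a9_ag.LinkA

/-!
Spreading out the data attached to one divisor (compare `H1c`, `LinkA`).
-/

open scoped TensorProduct ENNReal NNReal nonZeroDivisors Polynomial
open Filter

namespace Pool.Agent.Lib.MP_4287a9_ag

noncomputable section

variable {B k : Type} [CommRing B] [Field k] [Algebra B k]

namespace WEsAux

open scoped Pointwise in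
theorem ev_hde {n : ℕ} {s : EShp n} {W : Type} [CommRing W] [Algebra k W] {d : ED s W}
    (i : Fin s.ne) (c : W) (h : ∀ x ∈ d.rd.sp k d.dg ^ s.M, x * c ∈ d.SE k i) :
    Ev B k fun Λ => ∀ x ∈ d.rd.sp Λ d.dg ^ s.M, x * c ∈ d.SE Λ i := by
  have hfin : ∀ j : ℕ, ((Set.range d.dg) ^ j).Finite := by
    intro j
    induction j with
    | zero => rw [pow_zero]; exact Set.finite_one
    | succ j ih => rw [pow_succ]; exact ih.mul (Set.finite_range _)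
  have key := H1cAux.ev_set (B := B) (k := k) (hfin s.M)
    (P := fun w Λ => w * c ∈ d.SE Λ i) (fun w hw => by
      refine ev_adjoin _ (h w ?_)
      unfold RD.sp
      rw [Submodule.span_pow]
      exact Submodule.subset_span hw)
  refine key.mono fun Λ H x hx => ?_
  unfold RD.sp at hx
  rw [Submodule.span_pow] at hx
  induction hx using Submodule.span_induction with
  | mem w hw => exact H w hw
  | zero => rw [zero_mul]; exact zero_mem _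
  | add a b _ _ ha hb => rw [add_mul]; exact add_mem ha hb
  | smul a x _ hx =>
    have : (a • x) * c = (a : W) * (x * c) := by
      rw [Subalgebra.smul_def, smul_eq_mul, mul_assoc]
    rw [this]
    exact mul_mem (ED.T_le_SE d i a.2) hx

theorem ev_reg {n : ℕ} {s : EShp n} {W : Type} [CommRing W] [Algebra k W] {d : ED s W}
    {D : Fin n → Derivation k W W} (h : d.Amb k D) : Ev B k fun Λ =>
    ∀ w ∈ d.rd.T Λ, (∃ v ∈ d.rd.T Λ, d.e2 * w = d.e1 * v) →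
      ∃ b : Λ, b ≠ 0 ∧ ∃ v ∈ d.rd.T Λ, b • w = d.e1 * v := by
  have h1 : (d.e1 : W) ∈ d.rd.T k :=
    d.rd.mem_T_of_mem_sp_pow (v := d.e) h.eT 1 (by rw [pow_one]; exact h.he1)
  refine ((ev_ld (B := B) (k := k) d.rd.tg).and (ev_adjoin (B := B) _ h1)).mono ?_
  rintro Λ ⟨H1, H2⟩ w hw ⟨v, hv, hwv⟩
  refine H1 w hw _ H2 ?_
  obtain ⟨b, hb, v', hv', hbv⟩ :=
    h.hreg w (adjoin_sub_le _ Λ hw) ⟨v, adjoin_sub_le _ Λ hv, hwv⟩
  refine ⟨b⁻¹ • v', Subalgebra.smul_mem _ hv' _, ?_⟩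
  rw [mul_smul_comm, ← hbv, smul_smul, inv_mul_cancel₀ hb, one_smul]

theorem span_sp {n : ℕ} {s : Shp n} {W Λ P : Type} [CommRing W] [CommRing Λ] [Algebra Λ W]
    [CommRing P] [Algebra Λ P] (d : RD s W) (ρ : P →ₐ[Λ] W) (hm : ∀ x, ρ x ∈ d.T Λ) {a : ℕ}
    (v : Fin a → W) {S : Set P} (hS : ∀ x ∈ S, ρ x ∈ d.sp Λ v) :
    ∀ x ∈ Ideal.span S, ρ x ∈ d.sp Λ v := by
  intro x hx
  induction hx using Submodule.span_induction with
  | mem y hy => exact hS y hy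
  | zero => rw [map_zero]; exact zero_mem _
  | add x y _ _ hx hy => rw [map_add]; exact add_mem hx hy
  | smul a x _ hx =>
    rw [smul_eq_mul, map_mul]
    exact (d.sp Λ v).smul_mem (⟨ρ a, hm a⟩ : d.T Λ) hx

end WEsAux

/-- As `RD.Amb.spread`. For `hde`: `sp dg ^ M` is spanned over `T` by the finitely many products of
`M` generators. -/
theorem ED.Amb.spread {n : ℕ} {s : EShp n} {W : Type} [CommRing W] [Algebra k W] {d : ED s W}
    {D : Fin n → Derivation k W W} (h : d.Amb k D) :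
    Ev B k fun Λ => d.Amb Λ (fun i => (D i).restrictScalars Λ) := by
  have dT : Ev B k fun Λ => ∀ i, d.dg i ∈ d.rd.T Λ := Ev.all fun i => ev_adjoin _ (h.dT i)
  have aT : Ev B k fun Λ => ∀ i, d.ag i ∈ d.rd.T Λ := Ev.all fun i => ev_adjoin _ (h.aT i)
  have eT : Ev B k fun Λ => ∀ i, d.e i ∈ d.rd.T Λ := Ev.all fun i => ev_adjoin _ (h.eT i)
  have gT : Ev B k fun Λ => (d.g : W) ∈ d.rd.T Λ := ev_adjoin _ h.gT
  have het : Ev B k fun Λ => EtC (d.S Λ) d.y :=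
    ev_etale ((Set.finite_range _).union (Set.finite_range _)) h.het
  have hu : Ev B k fun Λ => As (d.S Λ) d.u (d.tt ^ s.β) := H1cAux.ev_as _ h.hu
  have ha : Ev B k fun Λ => ∀ i, d.ag i * ((d.tt⁻¹ ^ s.b : Wˣ) : W) ∈ d.S Λ :=
    Ev.all fun i => ev_adjoin _ (h.ha i)
  have hg : Ev B k fun Λ => ((d.g * d.tt⁻¹ : Wˣ) : W) ∈ d.S Λ := ev_adjoin _ h.hg
  have hetE : Ev B k fun Λ => ∀ i, EtC (d.SE Λ i) (d.zE i) :=
    Ev.all fun i => ev_etale ((Set.finite_range _).union (Set.finite_singleton _)) (h.hetE i)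
  have hde : Ev B k fun Λ => ∀ i, ∀ x ∈ d.rd.sp Λ d.dg ^ s.M,
      x * ((d.u⁻¹ * d.jE i ^ (s.r * s.M) : Wˣ) : W) ∈ d.SE Λ i :=
    Ev.all fun i => WEsAux.ev_hde i _ (h.hde i)
  have hd0 : Ev B k fun Λ => (d.d0 : W) ∈ d.rd.sp Λ d.dg := H1cAux.ev_sp_one d.rd _ h.hd0
  have he1 : Ev B k fun Λ => (d.e1 : W) ∈ d.rd.sp Λ d.e := H1cAux.ev_sp_one d.rd _ h.he1
  have he2 : Ev B k fun Λ => d.e2 ∈ d.rd.sp Λ d.e := H1cAux.ev_sp_one d.rd _ h.he2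
  have wb : Ev B k fun Λ => ∀ i, d.bg i ∈ d.rd.Ws Λ := Ev.all fun i => ev_adjoin _ (h.wb i)
  have we : Ev B k fun Λ => ((d.e1⁻¹ : Wˣ) : W) ∈ d.rd.Ws Λ := ev_adjoin _ h.we
  have wd : Ev B k fun Λ => ((d.d0⁻¹ : Wˣ) : W) ∈ d.rd.Ws Λ := ev_adjoin _ h.wd
  have weI : Ev B k fun Λ => ∀ i, d.eI i ∈ d.rd.Ws Λ := Ev.all fun i => ev_adjoin _ (h.weI i)
  have wjE : Ev B k fun Λ => ∀ i, (d.jE i : W) ∈ d.rd.Ws Λ :=
    Ev.all fun i => ev_adjoin _ (h.wjE i)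
  have wD : Ev B k fun Λ => ∀ i, ∀ w ∈ Set.range d.rd.tg ∪ {((d.rd.g⁻¹ : Wˣ) : W)},
      D i w ∈ d.rd.Ws Λ :=
    Ev.all fun i => H1cAux.ev_set ((Set.finite_range _).union (Set.finite_singleton _))
      fun w hw => ev_adjoin _ (h.wD i w (Algebra.subset_adjoin hw))
  refine (dT.and <| aT.and <| eT.and <| gT.and <| het.and <| hu.and <| ha.and <| hg.and <|
    hetE.and <| hde.and <| hd0.and <| he1.and <| he2.and <| (WEsAux.ev_reg h).and <| wb.and <|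
    we.and <| wd.and <| weI.and <| wjE.and wD).mono ?_
  rintro Λ ⟨H1, H2, H3, H4, H5, H6, H7, H8, H9, H10, H11, H12, H13, H14, H15, H16, H17, H18,
    H19, H20⟩
  exact ⟨h.hr, h.hM, h.ht, H1, H2, H3, H4, H5, H6, H7, H8, h.heI, H9, H10, H11, H12, H13, H14,
    H15, H16, H17, H18, H19, fun i => H1cAux.der_mem ((D i).restrictScalars Λ) (H20 i),
    h.hdetE, h.hdual⟩

/-- As `RD.Link.spread` (`ρ' = linkaRho ρ Λ`). For `Link2`: `𝔡` and `𝒥` are finitely generated,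
and the images of the generators lie in `sp Λ` for large `Λ` (`H1cAux.ev_sp_one`). -/
theorem RD.Link.spread2 [IsNoetherianRing B] {T Λ₀ : Type} [CommRing T] [Algebra B T]
    [Algebra.FiniteType B T] [CommRing Λ₀] [Algebra B Λ₀] [Algebra.FiniteType B Λ₀]
    (φ : Λ₀ →ₐ[B] k) {n : ℕ} {s : Shp n} {W : Type} [CommRing W] [Algebra k W] {d : RD s W}
    {ρ : k ⊗[B] T →ₐ[k] W} {f : k ⊗[B] T} {𝔡 : Ideal T} {𝒥 : Ideal (Λ₀ ⊗[B] T)}
    (h : d.Link ρ f (ext B k 𝔡) (spk φ 𝒥)) (h2 : d.Link2 ρ (ext B k 𝔡) (spk φ 𝒥)) :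
    Ev B k fun Λ => ∃ (φ' : Λ₀ →ₐ[B] Λ) (f' : Λ ⊗[B] T) (ρ' : Λ ⊗[B] T →ₐ[Λ] W),
      Λ.val.comp φ' = φ ∧ (∀ x, ρ' x = ρ (bm T Λ.val x)) ∧
        d.Link ρ' f' (ext B Λ 𝔡) (spk φ' 𝒥) ∧ d.Link2 ρ' (ext B Λ 𝔡) (spk φ' 𝒥) := by
  have nT : IsNoetherianRing T := Algebra.FiniteType.isNoetherianRing B T
  have fT : Algebra.FiniteType B (Λ₀ ⊗[B] T) :=
    Algebra.FiniteType.trans (S := Λ₀) inferInstance inferInstance
  have nL : IsNoetherianRing (Λ₀ ⊗[B] T) := Algebra.FiniteType.isNoetherianRing B _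
  obtain ⟨gd, hgd⟩ := (IsNoetherian.noetherian 𝔡 : 𝔡.FG)
  obtain ⟨ga, hga⟩ := (IsNoetherian.noetherian 𝒥 : 𝒥.FG)
  have e7 : Ev B k fun Λ => ∀ τ : gd, ρ (1 ⊗ₜ (τ : T)) ∈ d.sp Λ d.dg :=
    Ev.all fun τ => H1cAux.ev_sp_one d _ (h2.hd _ (Ideal.mem_map_of_mem _
      (hgd ▸ Submodule.subset_span τ.2)))
  have e8 : Ev B k fun Λ => ∀ τ : ga,
      ρ (Algebra.TensorProduct.map φ (AlgHom.id B T) τ) ∈ d.sp Λ d.ag :=
    Ev.all fun τ => H1cAux.ev_sp_one d _ (h2.ha _ (Ideal.mem_map_of_mem _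
      (hga ▸ Submodule.subset_span τ.2)))
  have e1 : Ev B k fun Λ => ∀ y, φ y ∈ Λ :=
    ⟨(⊤ : Subalgebra B Λ₀).map φ, Algebra.FiniteType.out.map φ,
      fun Λ hΛ y => hΛ ⟨y, trivial, rfl⟩⟩
  obtain ⟨g, hg⟩ := Algebra.FiniteType.out (R := B) (A := T)
  have e2 : Ev B k fun Λ => ∀ τ : g, ρ (1 ⊗ₜ (τ : T)) ∈ d.T Λ :=
    Ev.all fun τ => ev_adjoin _ (h.mem _)
  obtain ⟨w, hw, hw1⟩ := h.inv
  have e3 : Ev B k fun Λ => w ∈ d.T Λ := ev_adjoin _ hw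
  choose m x hx using fun i => h.surj (d.tg i) (Algebra.subset_adjoin ⟨i, rfl⟩)
  have e4 := Ev.all fun i => ev_tensor (x i)
  choose y hy hy' using h.hd
  have e5 := Ev.all fun i => linka_span (hy i)
  choose z hz hz' using h.ha
  have e6 := Ev.all fun i => linka_span (hz i)
  refine ((((((((e1.and e2).and e3).and e4).and e5).and e6).and (ev_tensor f)).and e7).and
    e8).mono fun Λ hΛ => ?_
  obtain ⟨⟨⟨⟨⟨⟨⟨⟨a1, a2⟩, a3⟩, a4⟩, a5⟩, a6⟩, f', hf⟩, a7⟩, a8⟩ := hΛ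
  have hρ : linkaRho ρ Λ f' = ρ f := by rw [linkaRho_apply, hf]
  have hm : ∀ v, linkaRho ρ Λ v ∈ d.T Λ := by
    intro v
    have h1 : (⊤ : Subalgebra Λ (Λ ⊗[B] T)) ≤ (d.T Λ).comap (linkaRho ρ Λ) := by
      rw [← Algebra.TensorProduct.adjoin_one_tmul_image_eq_top (A := Λ) _ hg]
      refine Algebra.adjoin_le ?_
      rintro _ ⟨τ, hτ, rfl⟩
      exact a2 ⟨τ, hτ⟩
    exact h1 trivial
  refine ⟨φ.codRestrict Λ a1, f', linkaRho ρ Λ, rfl, fun _ => rfl,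
    ⟨hm, ⟨w, a3, by rw [hρ, hw1]⟩,
    linka_surj _ _ ?_, fun v hv => ?_, fun i => ?_, fun i => ?_⟩, ?_, ?_⟩
  · rintro _ ⟨i, rfl⟩
    obtain ⟨x', hx'⟩ := a4 i
    exact ⟨m i, x', by rw [hρ, linkaRho_apply, hx', hx]⟩
  · obtain ⟨b, hb, i, hi⟩ := h.ker _ hv
    obtain ⟨b', hb', h1⟩ := tensor_torsion Λ (f' ^ i * v) (by
      rw [map_mul, map_pow, hf]
      exact (smul_eq_zero_iff_right hb).1 hi)
    exact ⟨b', hb', i, h1⟩
  · obtain ⟨y', h1, h2⟩ := a5 i (ext B Λ 𝔡) (by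
      rintro _ ⟨t, ht, rfl⟩
      exact ⟨_, Ideal.mem_map_of_mem _ ht, rfl⟩)
    exact ⟨y', h1, by rw [linkaRho_apply, h2, hy']⟩
  · obtain ⟨z', h1, h2⟩ := a6 i (spk (φ.codRestrict Λ a1) 𝒥) (by
      rintro _ ⟨t, ht, rfl⟩
      refine ⟨_, Ideal.mem_map_of_mem _ ht, ?_⟩
      rw [← AlgHom.comp_apply, ← Algebra.TensorProduct.map_comp]
      rfl)
    exact ⟨z', h1, by rw [linkaRho_apply, h2, hz']⟩
  · intro v hv
    rw [← hgd] at hv
    unfold ext at hv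
    rw [Ideal.submodule_span_eq, Ideal.map_span] at hv
    refine WEsAux.span_sp d _ hm _ ?_ v hv
    rintro _ ⟨τ, hτ, rfl⟩
    exact a7 ⟨τ, hτ⟩
  · intro v hv
    rw [← hga] at hv
    unfold spk at hv
    rw [Ideal.submodule_span_eq, Ideal.map_span] at hv
    refine WEsAux.span_sp d _ hm _ ?_ v hv
    rintro _ ⟨τ, hτ, rfl⟩
    have := a8 ⟨τ, hτ⟩
    rw [linkaRho_apply, ← AlgHom.comp_apply, ← Algebra.TensorProduct.map_comp]
    exact this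

end

end Pool.Agent.Lib.MP_4287a9_ag
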