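import Pool.Agent.Lib.MP_4287a9_ag.WEa
import Pool.Agent.Lib.MP_4287a9_ag.H1d

/-!
Passing from the ambient ring to `T[1 / g]` (compare `H1d`).
-/

open scoped TensorProduct ENNReal NNReal nonZeroDivisors Polynomial
open Filter

namespace Pool.Agent.Lib.MP_4287a9_ag

noncomputable section

namespace WEtAux

open H1dAux

variable {n : ℕ} {s : EShp n} {W W' : Type} [CommRing W] [CommRing W'] {Λ : Type} [CommRing Λ]
  [Algebra Λ W] [Algebra Λ W'] {φ : W' →ₐ[Λ] W}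

theorem map_S (d : ED s W') (φ : W' →ₐ[Λ] W) :
    (d.map (φ : W' →+* W)).S Λ = (d.S Λ).map φ := by
  unfold ED.S
  rw [AlgHom.map_adjoin, Set.image_union, ← Set.range_comp, ← Set.range_comp]
  rfl

theorem map_SE (d : ED s W') (φ : W' →ₐ[Λ] W) (i : Fin s.ne) :
    (d.map (φ : W' →+* W)).SE Λ i = (d.SE Λ i).map φ := by
  unfold ED.SE
  rw [AlgHom.map_adjoin, Set.image_union, ← Set.range_comp, Set.image_singleton]
  rfl

theorem zmem (S : Subalgebra Λ W) (x : Wˣ) (h1 : (x : W) ∈ S) (h2 : ((x⁻¹ : Wˣ) : W) ∈ S)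
    (β : ℤ) : ((x ^ β : Wˣ) : W) ∈ S := by
  have e : x ^ β = Units.map ((S.val : S →+* W) : S →* W) (un S x h1 h2 ^ β) := by
    rw [map_zpow]
    rfl
  rw [e]
  exact ((un S x h1 h2 ^ β : Sˣ) : S).2

theorem amb_of_map (hφ : Function.Injective φ) {d : ED s W'} {D : Fin n → Derivation Λ W W}
    {D' : Fin n → Derivation Λ W' W'} (hD : ∀ i w, φ (D' i w) = D i (φ w))
    (h : (d.map (φ : W' →+* W)).Amb Λ D) : d.Amb Λ D' := by
  have hm : (d.map (φ : W' →+* W)).rd.T Λ = (d.rd.T Λ).map φ := map_T d.rd φ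
  have hT : ∀ x, φ x ∈ (d.map (φ : W' →+* W)).rd.T Λ ↔ x ∈ d.rd.T Λ := fun x => by
    rw [hm]; exact mem_map hφ _ _
  have hT' : ∀ y ∈ (d.map (φ : W' →+* W)).rd.T Λ, ∃ x ∈ d.rd.T Λ, φ x = y := fun y hy => by
    rw [hm] at hy; exact hy
  have hW : ∀ x, φ x ∈ (d.map (φ : W' →+* W)).rd.Ws Λ ↔ x ∈ d.rd.Ws Λ := fun x => by
    rw [ED.map_rd, map_Ws]; exact mem_map hφ _ _
  have hS : ∀ x, φ x ∈ (d.map (φ : W' →+* W)).S Λ ↔ x ∈ d.S Λ := fun x => by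
    rw [map_S]; exact mem_map hφ _ _
  have hE : ∀ i x, φ x ∈ (d.map (φ : W' →+* W)).SE Λ i ↔ x ∈ d.SE Λ i := fun i x => by
    rw [map_SE]; exact mem_map hφ _ _
  have hc : ∀ x : W'ˣ, φ (x : W') =
      ((Units.map ((φ : W' →+* W) : W' →* W) x : Wˣ) : W) := fun x => rfl
  refine ⟨h.hr, h.hM, hφ h.ht, fun i => (hT _).1 (h.dT i), fun i => (hT _).1 (h.aT i),
    fun i => (hT _).1 (h.eT i), (hT _).1 h.gT, ?_, ?_, fun i => (hS _).1 ?_, (hS _).1 ?_,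
    fun i => hφ ?_, fun i => ?_, fun i x hx => (hE i _).1 ?_,
    (im_sp d.rd φ d.dg).mem hφ h.hd0, (im_sp d.rd φ d.e).mem hφ h.he1,
    (im_sp d.rd φ d.e).mem hφ h.he2, ?_, fun i => (hW _).1 (h.wb i), (hW _).1 h.we,
    (hW _).1 h.wd, fun i => (hW _).1 (h.weI i), fun i => (hW _).1 (h.wjE i),
    fun i w hw => (hW _).1 ?_, fun i => hφ ?_, fun i l => hφ ?_⟩
  · have := h.het
    rw [map_S] at this
    exact etc_of_map hφ this
  · have := h.hu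
    rw [map_S] at this
    refine as_of_map hφ ?_
    rw [map_zpow]
    exact this
  · rw [map_mul, hc, map_pow, map_inv]
    exact h.ha i
  · rw [hc, map_mul, map_inv]
    exact h.hg
  · rw [map_mul, map_one]
    exact h.heI i
  · have := h.hetE i
    rw [map_SE] at this
    exact etc_of_map hφ this
  · rw [map_mul, hc, map_mul, map_pow, map_inv]
    exact h.hde i _ (((im_sp d.rd φ d.dg).pow hm _).1 x hx)
  · rintro w hw ⟨v, hv, e⟩
    obtain ⟨b, hb, v', hv', e'⟩ := h.hreg (φ w) ((hT _).2 hw)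
      ⟨φ v, (hT _).2 hv, by
        have := congrArg φ e
        rw [map_mul, map_mul] at this
        exact this⟩
    obtain ⟨v'', hv'', rfl⟩ := hT' v' hv'
    refine ⟨b, hb, v'', hv'', hφ ?_⟩
    rw [map_smul, map_mul]
    exact e'
  · rw [hD]; exact h.wD i _ ((hW _).2 hw)
  · have e : φ.mapMatrix (Matrix.of fun a l => D' a (d.zE i l)) =
        Matrix.of fun a l => D a ((d.map (φ : W' →+* W)).zE i l) := by
      ext a l
      exact hD a _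
    unfold jac
    rw [map_mul, AlgHom.map_det, e, map_one]
    exact h.hdetE i
  · rw [hD]
    have := h.hdual i l
    split_ifs at this ⊢
    · rw [map_one]; exact this
    · rw [map_zero]; exact this

theorem link2_of_map (hφ : Function.Injective φ) {s : Shp n} {d : RD s W'} {P : Type} [CommRing P]
    [Algebra Λ P] {ρ : P →ₐ[Λ] W} {ρ' : P →ₐ[Λ] W'} (hρ : ∀ x, φ (ρ' x) = ρ x)
    {𝔡 𝔞 : Ideal P} (h : (d.map (φ : W' →+* W)).Link2 ρ 𝔡 𝔞) : d.Link2 ρ' 𝔡 𝔞 :=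
  ⟨fun x hx => (im_sp d φ d.dg).mem hφ (by rw [hρ]; exact h.hd x hx),
    fun x hx => (im_sp d φ d.ag).mem hφ (by rw [hρ]; exact h.ha x hx)⟩

end WEtAux

open H1dAux in
/-- As `RD.Amb.to_sub`. -/
theorem ED.Amb.to_sub {n : ℕ} {s : EShp n} {W : Type} [CommRing W] {d : ED s W} {Λ : Type}
    [CommRing Λ] [Algebra Λ W] {D : Fin n → Derivation Λ W W} (h : d.Amb Λ D) {P : Type}
    [CommRing P] [Algebra Λ P] {ρ : P →ₐ[Λ] W} {f : P} {𝔡 𝔞 : Ideal P}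
    (hl : d.rd.Link ρ f 𝔡 𝔞) (hl2 : d.rd.Link2 ρ 𝔡 𝔞) :
    ∃ (d' : ED s (d.rd.Ws Λ)) (D' : Fin n → Derivation Λ (d.rd.Ws Λ) (d.rd.Ws Λ))
      (ρ' : P →ₐ[Λ] d.rd.Ws Λ), d'.Good Λ D' ∧ d'.rd.Link ρ' f 𝔡 𝔞 ∧ d'.rd.Link2 ρ' 𝔡 𝔞 ∧
      (∀ x ∈ d'.S Λ, (x : W) ∈ d.S Λ) ∧ ((d'.tt : d.rd.Ws Λ) : W) = d.tt ∧
      ∀ x, (ρ' x : W) = ρ x := by
  have hTW : d.rd.T Λ ≤ d.rd.Ws Λ := Algebra.adjoin_mono Set.subset_union_left
  have htg : ∀ i, d.tg i ∈ d.rd.Ws Λ := fun i => Algebra.subset_adjoin (Or.inl ⟨i, rfl⟩)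
  have hsp : ∀ {k : ℕ} {v : Fin k → W}, (∀ i, v i ∈ d.rd.T Λ) → ∀ x ∈ d.rd.sp Λ v,
      x ∈ d.rd.Ws Λ :=
    fun hv x hx => hTW (d.rd.mem_T_of_mem_sp_pow hv 1 (by rwa [pow_one]))
  have hg' : ((d.g⁻¹ : Wˣ) : W) ∈ d.rd.Ws Λ := Algebra.subset_adjoin (Or.inr rfl)
  have hy : ∀ l, d.y l ∈ d.rd.Ws Λ := fun l => h.S_le_Ws (h.het.mem l)
  have hz : ∀ i l, d.zE i l ∈ d.rd.Ws Λ := fun i l => h.SE_le_Ws i ((h.hetE i).mem l)
  have ht : (d.tt : W) ∈ d.rd.Ws Λ := h.S_le_Ws h.tt_mem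
  have ht' : ((d.tt⁻¹ : Wˣ) : W) ∈ d.rd.Ws Λ := by
    have := mul_mem hg' (h.S_le_Ws h.hg)
    rwa [← Units.val_mul, inv_mul_cancel_left] at this
  have hu : (d.u : W) ∈ d.rd.Ws Λ := by
    have := mul_mem (h.S_le_Ws h.hu.1) (WEtAux.zmem _ _ ht ht' s.β)
    rwa [← Units.val_mul, inv_mul_cancel_right] at this
  have hu' : ((d.u⁻¹ : Wˣ) : W) ∈ d.rd.Ws Λ := by
    have := mul_mem (WEtAux.zmem _ _ ht ht' (-s.β)) (h.S_le_Ws h.hu.2)
    rwa [← Units.val_mul, zpow_neg, inv_mul_cancel_left] at this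
  have hj : ∀ i, (((d.jE i)⁻¹ : Wˣ) : W) ∈ d.rd.Ws Λ := fun i => by
    have e : (((d.jE i)⁻¹ : Wˣ) : W) = jac D (d.zE i) :=
      Units.inv_eq_of_mul_eq_one_right (h.hdetE i)
    rw [e, jac, Matrix.det_apply]
    refine sum_mem fun σ _ => ?_
    rw [Units.smul_def]
    exact zsmul_mem (prod_mem fun l _ => h.wD _ _ (hz i l)) _
  let d' : ED s (d.rd.Ws Λ) :=
    { tg := fun i => ⟨d.tg i, htg i⟩
      bg := fun i => ⟨d.bg i, h.wb i⟩
      dg := fun i => ⟨d.dg i, hTW (h.dT i)⟩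
      ag := fun i => ⟨d.ag i, hTW (h.aT i)⟩
      e := fun i => ⟨d.e i, hTW (h.eT i)⟩
      g := un _ d.g (hTW h.gT) hg'
      u := un _ d.u hu hu'
      e1 := un _ d.e1 (hsp h.eT _ h.he1) h.we
      e2 := ⟨d.e2, hsp h.eT _ h.he2⟩
      y := fun l => ⟨d.y l, hy l⟩
      tt := un _ d.tt ht ht'
      d0 := un _ d.d0 (hsp h.dT _ h.hd0) h.wd
      eI := fun i => ⟨d.eI i, h.weI i⟩
      zE := fun i l => ⟨d.zE i l, hz i l⟩
      jE := fun i => un _ (d.jE i) (h.wjE i) (hj i) }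
  have hd : d'.map ((d.rd.Ws Λ).val : d.rd.Ws Λ →+* W) = d := rfl
  have hd' : d'.rd.map ((d.rd.Ws Λ).val : d.rd.Ws Λ →+* W) = d.rd := rfl
  have hφ : Function.Injective (d.rd.Ws Λ).val := Subtype.val_injective
  refine ⟨d', fun i => dres _ (D i) (h.wD i), ρ.codRestrict _ fun x => hTW (hl.mem x),
    ⟨WEtAux.amb_of_map hφ (D := D) (fun i w => rfl) (by rw [hd]; exact h), ?_⟩,
    link_of_map hφ (ρ := ρ) (fun x => rfl) (by rw [hd']; exact hl),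
    WEtAux.link2_of_map hφ (ρ := ρ) (fun x => rfl) (by rw [hd']; exact hl2),
    fun x hx => ?_, rfl, fun x => rfl⟩
  · rw [eq_top_iff]
    intro x _
    refine (mem_map hφ _ x).1 ?_
    rw [← map_Ws, hd']
    exact x.2
  · have := (mem_map hφ _ x).2 hx
    rw [← WEtAux.map_S, hd] at this
    exact this

end

end Pool.Agent.Lib.MP_4287a9_ag
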