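import Pool.Agent.Lib.MP_4287a9_ag.WHyF
import Pool.Agent.Lib.MP_4287a9_ag.WEb
import Pool.Agent.Lib.MP_4287a9_ag.WEs
import Pool.Agent.Lib.MP_4287a9_ag.WEt

/-!
A divisor of small log discrepancy gives a generically bad point.
-/

open scoped TensorProduct ENNReal NNReal nonZeroDivisors Polynomial
open Filter

namespace Pool.Agent.Lib.MP_4287a9_ag

noncomputable section

theorem HasED.genO {B T F : Type} [CommRing B] [Algebra.FiniteType ℤ B] [CommRing T] [Algebra B T]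
    [Algebra.FiniteType B T] [Field F] [CharZero F] [Algebra B F]
    (hB : Function.Injective (algebraMap B F)) {𝔡 : Ideal T} (hz : NZ B 𝔡) {Λ : Type} [CommRing Λ]
    [Algebra B Λ] [Algebra.FiniteType B Λ] (φ : Λ →ₐ[B] F) (𝒥 : Ideal (Λ ⊗[B] T)) {f : F ⊗[B] T}
    {r : ℕ} {t : ℝ≥0} {Ω : Type} [Field Ω] [Algebra F Ω] [Algebra B Ω] [IsScalarTower B F Ω]
    {ζ : F ⊗[B] T →ₐ[F] Ω} (h : HasED F f (ext B F 𝔡) r (spk φ 𝒥) t ζ) (τ : T →ₐ[B] Ω)
    (hτ : ∀ x, ζ x = pa τ (bm T (IsScalarTower.toAlgHom B F Ω) x)) :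
    GenO False τ ((IsScalarTower.toAlgHom B F Ω).comp φ) 𝔡 r 𝒥 t := by
  classical
  obtain ⟨n, s, W, _, _, d, D, ρ, ξ, hamb, hl, hl2, rfl, ht, hξ1, hξ2⟩ := h
  have hNB : IsNoetherianRing B := Algebra.FiniteType.isNoetherianRing ℤ B
  obtain ⟨Λ', hfg, hamb', φ', f', ρ', hφ', hρ', hlink, hlink2⟩ :=
    ((hamb.spread (B := B)).and (hl.spread2 φ hl2)).exists_fg
  obtain ⟨d', D', ρ'', hgood, hl', hl2', hS, htt, hρ''⟩ := hamb'.to_sub hlink hlink2
  have hft : Algebra.FiniteType B Λ' := (Subalgebra.fg_iff_finiteType Λ').1 hfg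
  have hNΛ : IsNoetherianRing Λ' := Algebra.FiniteType.isNoetherianRing B Λ'
  have hcz : CharZero Λ' := by
    refine ⟨fun a b hab => ?_⟩
    have := congrArg (Λ'.val) hab
    simpa using this
  have hNP : IsNoetherianRing (Λ' ⊗[B] T) := Algebra.FiniteType.isNoetherianRing Λ' _
  obtain ⟨b', hb', H⟩ := hgood.bad_red hl' hl2' ht
  obtain ⟨bz, hbz, hZ⟩ := hz
  obtain ⟨j, hj⟩ : ∃ j : F →ₐ[B] Ω, j = IsScalarTower.toAlgHom B F Ω := ⟨_, rfl⟩
  rw [← hj] at hτ ⊢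
  have hja : ∀ a, algebraMap F Ω a = j a := fun a => by rw [hj]; rfl
  have hsub : ∀ w ∈ d.S Λ', w ∈ d.S F := fun w hw => adjoin_sub_le _ Λ' hw
  let Γ : Set W := Set.range d.tg ∪ Set.range d.bg
  have hΓ : Γ.Finite := (Set.finite_range _).union (Set.finite_range _)
  have : Finite Γ := hΓ
  let v : Γ → Ω := fun w => ξ ⟨w, Algebra.subset_adjoin w.2⟩
  let C : Subalgebra B Ω := ((j.comp Λ'.val).range ⊔ τ.range) ⊔ Algebra.adjoin B (Set.range v)
  have hC1 : ∀ x : Λ', j x ∈ C := fun x =>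
    (le_sup_left.trans le_sup_left : (j.comp Λ'.val).range ≤ C) ⟨x, rfl⟩
  let σ : T →ₐ[B] C := τ.codRestrict C fun x =>
    (le_sup_right.trans le_sup_left : τ.range ≤ C) ⟨x, rfl⟩
  let ψ : Λ' →ₐ[B] C := (j.comp Λ'.val).codRestrict C hC1
  have hσ : C.val.comp σ = τ := rfl
  have hψ : C.val.comp ψ = j.comp Λ'.val := rfl
  have hξa : ∀ (a : Λ') (ha : algebraMap Λ' W a ∈ d.S F), ξ ⟨algebraMap Λ' W a, ha⟩ = j a :=
    fun a ha => (ξ.commutes (a : F)).trans (hja a)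
  have hmem : ∀ (w : W) (hw : w ∈ d.S Λ'), ξ ⟨w, hsub w hw⟩ ∈ C := by
    intro w hw
    induction hw using Algebra.adjoin_induction with
    | mem x hx =>
      exact (le_sup_right : Algebra.adjoin B (Set.range v) ≤ C)
        (Algebra.subset_adjoin ⟨⟨x, hx⟩, rfl⟩)
    | algebraMap a =>
      rw [hξa]
      exact hC1 a
    | add x y hx hy h1 h2 =>
      have := add_mem h1 h2
      rwa [← map_add] at this
    | mul x y hx hy h1 h2 =>
      have := mul_mem h1 h2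
      rwa [← map_mul] at this
  let inc : d'.S Λ' →+* d.S F :=
    ((d.rd.Ws Λ').val.toRingHom.comp (d'.S Λ').val.toRingHom).codRestrict (d.S F)
      fun x => hsub _ (hS _ x.2)
  let ξC : d'.S Λ' →+* C :=
    (ξ.toRingHom.comp inc).codRestrict C fun x => hmem _ (hS _ x.2)
  have hξC : ∀ x : d'.S Λ', (ξC x : Ω) = ξ ⟨((x : d.rd.Ws Λ') : W), hsub _ (hS _ x.2)⟩ :=
    fun x => rfl
  have h1 : ψ b' ≠ 0 := fun h0 => hb' (Subtype.ext (j.injective (by
    rw [Subalgebra.coe_zero, map_zero]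
    exact congrArg Subtype.val h0)))
  have h3 : algebraMap B C bz ≠ 0 := fun h0 => hbz (hB (j.injective (by
    rw [map_zero, map_zero]
    exact (j.commutes bz).trans (congrArg Subtype.val h0))))
  refine ⟨C, σ, ψ.comp φ', ((range_fg _).sup (range_fg _)).sup
    (Subalgebra.fg_def.2 ⟨_, Set.finite_range v, rfl⟩), hσ, ?_,
    ψ b' * algebraMap B C bz, mul_ne_zero h1 h3, ?_⟩
  · rw [← AlgHom.comp_assoc, hψ, AlgHom.comp_assoc, hφ']
  intro κ _ _ _ χ hχ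
  rw [map_mul, χ.commutes] at hχ
  obtain ⟨κ₁, _, _, _, χ₁, e, hs, he⟩ := exists_range_field (χ.comp ψ)
  have he' : ∀ a, e (χ₁ a) = χ (ψ a) := fun a => AlgHom.congr_fun he a
  have k1 : χ₁ b' ≠ 0 := fun h0 => left_ne_zero_of_mul hχ (by rw [← he', h0, map_zero])
  have k3 : algebraMap B κ₁ bz ≠ 0 := fun h0 => right_ne_zero_of_mul hχ (by
    rw [← e.commutes, h0, map_zero])
  rw [spk_spk, ← AlgHom.comp_assoc, ← he, AlgHom.comp_assoc,
    sfat_range e (χ₁.comp φ') _ _ rfl (hZ κ₁ k3), iff_false, ← spk_spk, ← spk_ext χ₁]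
  refine H κ₁ (κ₁ ⊗[B] T) κ χ₁.toRingHom (bm T χ₁).toRingHom (isRed_tensor χ₁ hs) k1
    (χ.toRingHom.comp ξC) _ (fun h0 => ?_) (fun a ha => ?_) fun x hx => ?_
  · have : ξC ⟨d'.tt, h0⟩ = 0 := Subtype.ext (by
      rw [hξC]
      simp only [htt]
      exact hξ1 _)
    rw [RingHom.comp_apply, this, map_zero]
  · have : ξC (algebraMap Λ' (d'.S Λ') a) = ψ a := Subtype.ext ((hξC _).trans (hξa a _))
    rw [RingHom.comp_apply, this]
    exact (he' a).symm.trans ((congrArg e ha).trans (map_zero e))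
  · have : ξC ⟨ρ'' x, hx⟩ = pa σ (bm T ψ x) := Subtype.ext (by
      rw [hξC]
      simp only [hρ'', hρ']
      rw [hξ2, hτ, bm_bm, ← hψ, ← bm_bm, ← hσ, pa_bm]
      rfl)
    rw [RingHom.comp_apply, this, Ideal.mem_comap, mem_pk]
    change pa _ (bm T e (bm T χ₁ x)) = 0 ↔ χ _ = 0
    rw [bm_bm, he, ← bm_bm, pa_bm]

end

end Pool.Agent.Lib.MP_4287a9_ag
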