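import Pool.Agent.Lib.MP_4287a9_ag.WV0
import Pool.Agent.Lib.MP_4287a9_ag.ResLemU
import Pool.Agent.Lib.MP_4287a9_ag.ResA2
import Pool.Agent.Lib.MP_4287a9_ag.EtA

/-! Etale coordinates at a divisorial valuation ring. -/

namespace Pool.Agent.Lib.MP_4287a9_ag

open Res

theorem wva_nak {F A : Type} [CommRing F] [CommRing A] [Algebra F A] [Algebra.FiniteType F A]
    (P : Ideal A) [hP : P.IsPrime] (N : Submodule A Ω[A⁄F])
    (H : ∀ a, ∃ s ∉ P, s • KaehlerDifferential.D F A a ∈ N ⊔ P • ⊤) :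
    ∃ e ∉ P, ∀ a, e • KaehlerDifferential.D F A a ∈ N := by
  have h1 : (⟨P, hP⟩ : PrimeSpectrum A) ∉ Module.support A
      ((Ω[A⁄F] ⧸ N) ⧸ (P • ⊤ : Submodule A (Ω[A⁄F] ⧸ N))) := by
    rw [Module.notMem_support_iff']
    intro m
    obtain ⟨m, rfl⟩ := Submodule.mkQ_surjective _ m
    obtain ⟨m, rfl⟩ := Submodule.mkQ_surjective _ m
    have h2 : m ∈ Submodule.span A (Set.range (KaehlerDifferential.D F A)) := by
      rw [KaehlerDifferential.span_range_derivation]
      trivial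
    induction h2 using Submodule.span_induction with
    | mem m hm =>
      obtain ⟨a, rfl⟩ := hm
      obtain ⟨s, hs, h⟩ := H a
      refine ⟨s, hs, ?_⟩
      obtain ⟨u, hu, v, hv, h⟩ := Submodule.mem_sup.1 h
      rw [← map_smul, ← map_smul, ← h, map_add, Submodule.mkQ_apply N,
        (Submodule.Quotient.mk_eq_zero N).2 hu, zero_add, Submodule.mkQ_apply,
        Submodule.Quotient.mk_eq_zero]
      have h3 := Submodule.mem_map_of_mem (f := N.mkQ) hv
      rw [Submodule.map_smul''] at h3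
      exact Submodule.smul_mono le_rfl le_top h3
    | zero => exact ⟨1, (Ideal.ne_top_iff_one _).1 hP.ne_top, by simp⟩
    | add u v _ _ hu hv =>
      obtain ⟨s, hs, hu⟩ := hu
      obtain ⟨s', hs', hv⟩ := hv
      refine ⟨s * s', hP.mul_notMem hs hs', ?_⟩
      rw [map_add, map_add, smul_add, mul_smul s s' (Submodule.mkQ _ (N.mkQ v)), hv, mul_comm,
        mul_smul, hu, smul_zero, smul_zero, add_zero]
    | smul c u _ hu =>
      obtain ⟨s, hs, hu⟩ := hu
      exact ⟨s, hs, by rw [map_smul, map_smul, smul_comm, hu, smul_zero]⟩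
  rw [Module.support_quotient, Set.mem_inter_iff, not_and', Module.mem_support_iff_of_finite] at h1
  obtain ⟨e, he, he'⟩ := SetLike.not_le_iff_exists.1 (h1 (by simp))
  refine ⟨e, he', fun a => ?_⟩
  have h2 := Module.mem_annihilator.1 he (N.mkQ (KaehlerDifferential.D F A a))
  rwa [← map_smul, Submodule.mkQ_apply, Submodule.Quotient.mk_eq_zero] at h2

variable {F K : Type} [Field F] [Field K] [Algebra F K]

theorem wva_indep {d : ℕ} (O : Subalgebra F K) {π : K} (hπ : π ∈ O) (hπ0 : π ≠ 0) {z : Fin d → K}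
    (hz : ∀ l, z l ∈ O)
    (hc : ∀ Q : MvPolynomial (Fin d) F, MvPolynomial.aeval z Q * π⁻¹ ∈ O → Q = 0) :
    AlgebraicIndependent F (Fin.cons π z : Fin (d + 1) → K) := by
  have h1 : AlgebraicIndependent F z := by
    rw [algebraicIndependent_iff]
    intro p hp
    exact hc p (by rw [hp, zero_mul]; exact zero_mem O)
  have hle : Algebra.adjoin F (Set.range z) ≤ O :=
    Algebra.adjoin_le (by rintro _ ⟨l, rfl⟩; exact hz l)
  have h2 : Transcendental (Algebra.adjoin F (Set.range z)) π := by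
    rintro ⟨p, hp0, hp⟩
    obtain ⟨q, e, hq⟩ := Polynomial.exists_eq_pow_rootMultiplicity_mul_and_not_dvd p hp0 0
    rw [Polynomial.C_0, sub_zero] at e hq
    rw [Polynomial.X_dvd_iff] at hq
    rw [e, map_mul, map_pow, Polynomial.aeval_X] at hp
    have h3 : Polynomial.aeval π q = 0 := (mul_eq_zero.1 hp).resolve_left (pow_ne_zero _ hπ0)
    rw [← Polynomial.X_mul_divX_add q, map_add, map_mul, Polynomial.aeval_X,
      Polynomial.aeval_C] at h3
    have h4 : Polynomial.aeval π q.divX ∈ O := by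
      rw [Polynomial.aeval_eq_sum_range]
      exact sum_mem fun i _ => mul_mem (hle (q.divX.coeff i).2) (pow_mem hπ i)
    obtain ⟨Q, hQ⟩ := (Algebra.adjoin_range_eq_range_aeval F z).le (q.coeff 0).2
    have hQ' : MvPolynomial.aeval z Q = (q.coeff 0 : K) := hQ
    have h6 : MvPolynomial.aeval z Q * π⁻¹ = -Polynomial.aeval π q.divX := by
      rw [hQ', mul_inv_eq_iff_eq_mul₀ hπ0]
      change π * _ + (q.coeff 0 : K) = 0 at h3
      linear_combination h3
    refine hq (Subtype.ext ?_)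
    rw [← hQ', hc Q (by rw [h6]; exact neg_mem h4), map_zero]
    rfl
  have h3 := (algebraicIndependent_equiv (finSuccEquiv d)).2
    ((h1.option_iff_transcendental π).2 h2)
  convert h3 using 1
  funext l
  refine Fin.cases ?_ (fun l => ?_) l <;> simp

theorem wva_eval {B A M : Type} [CommRing B] [CommRing A] [Algebra F A] [AddCommGroup M]
    [Module F M] [Module A M] (δ : Derivation F A M) (φ : B →+* A) (h : ∀ b, δ (φ b) = 0) (a : A)
    (p : Polynomial B) : δ (p.eval₂ φ a) = p.derivative.eval₂ φ a • δ a := by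
  induction p using Polynomial.induction_on' with
  | add p q hp hq => simp [Polynomial.eval₂_add, hp, hq, add_smul]
  | monomial j b =>
    rw [Polynomial.derivative_monomial, Polynomial.eval₂_monomial, Polynomial.eval₂_monomial,
      Derivation.leibniz, h, smul_zero, add_zero, Derivation.leibniz_pow, map_mul, map_natCast,
      mul_assoc, mul_smul, mul_smul, Nat.cast_smul_eq_nsmul]

/-- A relation of minimal degree modulo `P` has a derivative outside `P`. -/
theorem wva_rel {B A : Type} [CommRing B] [IsDomain B] [CharZero B] [CommRing A] (φ : B →+* A)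
    (P : Ideal A) (h : ∀ b, φ b ∈ P → b = 0) (a : A) {p : Polynomial B} (hp : p ≠ 0)
    (hp' : p.eval₂ φ a ∈ P) :
    ∃ q : Polynomial B, q.eval₂ φ a ∈ P ∧ q.derivative.eval₂ φ a ∉ P := by
  induction hd : p.natDegree using Nat.strong_induction_on generalizing p with
  | _ d ih =>
    have h1 : p.natDegree ≠ 0 := fun h0 => by
      rw [Polynomial.eq_C_of_natDegree_eq_zero h0] at hp hp'
      rw [Polynomial.eval₂_C] at hp'
      exact hp (by rw [h _ hp', map_zero])
    by_cases h2 : p.derivative.eval₂ φ a ∈ P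
    · exact ih _ (hd ▸ Polynomial.natDegree_derivative_lt h1)
        (fun h0 => h1 (Polynomial.derivative_eq_zero.1 h0)) h2 rfl
    · exact ⟨p, hp', h2⟩

theorem wva_cons {A : Type} [CommRing A] [Algebra F A] {d : ℕ} (a : A) (z : Fin d → A)
    (Q : MvPolynomial (Fin (d + 1)) F) :
    (MvPolynomial.finSuccEquiv F d Q).eval₂ (MvPolynomial.aeval z : _ →ₐ[F] A).toRingHom a =
      MvPolynomial.aeval (Fin.cons a z : Fin (d + 1) → A) Q := by
  induction Q using MvPolynomial.induction_on with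
  | C c => simp [MvPolynomial.finSuccEquiv_apply]
  | add p q hp hq => rw [map_add, map_add, Polynomial.eval₂_add, hp, hq]
  | mul_X p i hp =>
    rw [map_mul, map_mul, Polynomial.eval₂_mul, hp, MvPolynomial.aeval_X]
    refine congrArg _ (Fin.cases ?_ (fun i => ?_) i)
    · simp [MvPolynomial.finSuccEquiv_X_zero]
    · simp [MvPolynomial.finSuccEquiv_X_succ]

theorem wva_away {A : Subalgebra F K} {ι : Type} {y : ι → A} {e : A} (he : (e : K) ≠ 0)
    (h : ∀ a, e • KaehlerDifferential.D F A a ∈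
      Submodule.span A (Set.range fun l => KaehlerDifferential.D F A (y l))) {S : Subalgebra F K}
    (hS : S = Algebra.adjoin F ((A : Set K) ∪ {(e : K)⁻¹})) :
    Unr S (Set.range fun l => (y l : K)) := by
  intro M _ _ _ _ D hD
  have hle : A ≤ S := fun a ha => hS.ge (Algebra.subset_adjoin (Or.inl ha))
  have hi : (e : K)⁻¹ ∈ S := hS.ge (Algebra.subset_adjoin (Or.inr rfl))
  have h1 : (⟨_, hi⟩ : S) * ⟨e, hle e.2⟩ = 1 := Subtype.ext (inv_mul_cancel₀ he)
  have h3 : (A : Set K) ⊆ resA2_ker D := by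
    let _ : Module A M := Module.compHom M (Subalgebra.inclusion hle).toRingHom
    have : IsScalarTower F A M := ⟨fun c a m => by
      change Subalgebra.inclusion hle (c • a) • m = c • (Subalgebra.inclusion hle a • m)
      rw [map_smul, smul_assoc]⟩
    let D' : Derivation F A M := Derivation.mk'
      (D.toLinearMap ∘ₗ (Subalgebra.inclusion hle).toLinearMap)
      fun a b => D.leibniz (Subalgebra.inclusion hle a) (Subalgebra.inclusion hle b)
    have h4 : Submodule.span A (Set.range fun l => KaehlerDifferential.D F A (y l)) ≤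
        LinearMap.ker D'.liftKaehlerDifferential := Submodule.span_le.2 (by
      rintro _ ⟨l, rfl⟩
      exact (D'.liftKaehlerDifferential_comp_D _).trans (hD _ ⟨l, rfl⟩))
    intro a ha
    have h5 := h4 (h ⟨a, ha⟩)
    rw [LinearMap.mem_ker, map_smul, D'.liftKaehlerDifferential_comp_D] at h5
    have h6 : (⟨e, hle e.2⟩ : S) • D ⟨a, hle ha⟩ = 0 := h5
    exact ⟨hle ha, by rw [← one_smul S (D _), ← h1, mul_smul, h6, smul_zero]⟩
  have h4 : S ≤ resA2_ker D := hS.le.trans (Algebra.adjoin_le (Set.union_subset h3 (by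
    rintro _ rfl
    obtain ⟨_, h5⟩ := h3 e.2
    exact ⟨hi, by rw [D.leibniz_of_mul_eq_one h1, h5, smul_zero]⟩)))
  ext z
  obtain ⟨_, h5⟩ := h4 z.2
  exact h5

theorem wva_unr [CharZero F] {n : ℕ} (htr : ∀ w : Fin (n + 1) → K, ¬ AlgebraicIndependent F w)
    {A : Subalgebra F K} (hfg : A.FG) {O : ValuationSubring K} (hO : IsDiscreteValuationRing O)
    {π : O} (hπ : Irreducible π) (hA : ∀ a ∈ A, a ∈ O) (hπA : (π : K) ∈ A)
    (hloc : ∀ z ∈ O, ∃ b ∈ A, b ≠ 0 ∧ b⁻¹ ∈ O ∧ b * z ∈ A) :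
    ∃ (d : ℕ) (z : Fin d → K) (e : K),
      AlgebraicIndependent F (Fin.cons (π : K) z : Fin (d + 1) → K) ∧ (∀ l, z l ∈ A) ∧ e ∈ A ∧
      e ≠ 0 ∧ e⁻¹ ∈ O ∧ Unr (Algebra.adjoin F ((A : Set K) ∪ {e⁻¹}))
        (Set.range (Fin.cons (π : K) z : Fin (d + 1) → K)) := by
  have hπ0 := wv1_ne hπ
  let ι : A →+* O := A.val.toRingHom.codRestrict O fun a => hA a a.2
  let P : Ideal A := (IsLocalRing.maximalIdeal O).comap ι
  have hP : ∀ a : A, a ∈ P ↔ (a : K) * (π : K)⁻¹ ∈ O := fun a => by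
    rw [Ideal.mem_comap, hπ.maximalIdeal_eq, Ideal.mem_span_singleton']
    refine ⟨fun ⟨c, hc⟩ => ?_, fun h => ⟨⟨_, h⟩, Subtype.ext (inv_mul_cancel_right₀ hπ0 _)⟩⟩
    have h1 : (c : K) * π = a := congrArg Subtype.val hc
    rw [← h1, mul_inv_cancel_right₀ hπ0]
    exact c.2
  have hP' : ∀ a : A, a ∉ P ↔ (a : K) ≠ 0 ∧ (a : K)⁻¹ ∈ O := fun a => by
    rw [Ideal.mem_comap, IsLocalRing.mem_maximalIdeal, mem_nonunits_iff, not_not]
    refine ⟨fun h => ?_, fun h => IsUnit.of_mul_eq_one ⟨_, h.2⟩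
      (Subtype.ext (mul_inv_cancel₀ h.1))⟩
    obtain ⟨c, hc⟩ := h.exists_right_inv
    have h1 : (a : K) * c = 1 := congrArg Subtype.val hc
    exact ⟨left_ne_zero_of_mul_eq_one h1, by rw [inv_eq_of_mul_eq_one_right h1]; exact c.2⟩
  let O' : Subalgebra F K :=
    { O.toSubring with algebraMap_mem' := fun c => hA _ (algebraMap_mem A c) }
  have hind : ∀ {d : ℕ} (z : Fin d → A),
      (∀ Q : MvPolynomial (Fin d) F, MvPolynomial.aeval z Q ∈ P → Q = 0) →
      AlgebraicIndependent F (Fin.cons (π : K) (fun l => (z l : K)) : Fin (d + 1) → K) := by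
    intro d z hz
    refine wva_indep O' π.2 hπ0 (fun l => hA _ (z l).2) fun Q hQ => hz Q ((hP _).2 ?_)
    have h1 := MvPolynomial.comp_aeval_apply z A.val Q
    rw [← show A.val (MvPolynomial.aeval z Q) = (MvPolynomial.aeval z Q : A) from rfl, h1]
    exact hQ
  obtain ⟨d, ⟨z, hz⟩, hmax⟩ : ∃ d : ℕ, (∃ z : Fin d → A,
      ∀ Q : MvPolynomial (Fin d) F, MvPolynomial.aeval z Q ∈ P → Q = 0) ∧
      ∀ z : Fin (d + 1) → A,
        ∃ Q : MvPolynomial (Fin (d + 1)) F, MvPolynomial.aeval z Q ∈ P ∧ Q ≠ 0 := by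
    by_contra hc
    push Not at hc
    have h1 : ∀ d : ℕ, ∃ z : Fin d → A,
        ∀ Q : MvPolynomial (Fin d) F, MvPolynomial.aeval z Q ∈ P → Q = 0 := by
      intro d
      induction d with
      | zero =>
        refine ⟨Fin.elim0, fun Q hQ => ?_⟩
        rw [MvPolynomial.eq_C_of_isEmpty Q] at hQ ⊢
        by_contra h0
        rw [MvPolynomial.algHom_C] at hQ
        exact (Ideal.IsPrime.ne_top inferInstance) (P.eq_top_of_isUnit_mem hQ
          ((Ne.isUnit fun h => h0 (by rw [h, map_zero])).map _))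
      | succ d ih => exact hc d ih
    obtain ⟨z, hz⟩ := h1 n
    exact htr _ (hind z hz)
  have : Algebra.FiniteType F A := (Subalgebra.fg_iff_finiteType A).1 hfg
  let y : Fin (d + 1) → A := Fin.cons ⟨π, hπA⟩ z
  set N := Submodule.span A (Set.range fun l => KaehlerDifferential.D F A (y l)) with hN
  obtain ⟨e, he, h1⟩ := wva_nak (F := F) P N fun a => by
    obtain ⟨Q, hQ, hQ0⟩ := hmax (Fin.cons a z)
    rw [← wva_cons] at hQ
    obtain ⟨q, hq, hq'⟩ := wva_rel _ P hz a ((map_ne_zero_iff _ (AlgEquiv.injective _)).2 hQ0) hQ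
    set φ := (MvPolynomial.aeval z : _ →ₐ[F] A).toRingHom with hφ
    obtain ⟨b, hb, hb0, hb1, hb2⟩ := hloc _ ((hP _).1 hq)
    have h2 : (⟨b, hb⟩ : A) * q.eval₂ φ a = ⟨π, hπA⟩ * ⟨_, hb2⟩ := Subtype.ext (by
      change b * _ = (π : K) * (b * _)
      field_simp)
    let δ : Derivation F A (Ω[A⁄F] ⧸ N) := N.mkQ.compDer (KaehlerDifferential.D F A)
    have hδ : ∀ l, δ (y l) = 0 := fun l =>
      (Submodule.Quotient.mk_eq_zero N).2 (Submodule.subset_span ⟨l, rfl⟩)
    have h3 : ∀ Q, δ (φ Q) = 0 := fun Q => by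
      induction Q using MvPolynomial.induction_on with
      | C c => simp [hφ]
      | add p q hp hq => rw [map_add, map_add, hp, hq, add_zero]
      | mul_X p i hp =>
        have h4 : δ (φ (MvPolynomial.X i)) = 0 := by simpa [hφ, y] using hδ i.succ
        rw [map_mul, Derivation.leibniz, hp, h4, smul_zero, smul_zero, add_zero]
    have h4 := congrArg δ h2
    rw [Derivation.leibniz, Derivation.leibniz, wva_eval δ φ h3, show δ ⟨π, hπA⟩ = 0 from hδ 0,
      smul_zero, add_zero, smul_smul] at h4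
    refine ⟨⟨b, hb⟩ * q.derivative.eval₂ φ a,
      Ideal.IsPrime.mul_notMem inferInstance ((hP' _).2 ⟨hb0, hb1⟩) hq', ?_⟩
    refine Submodule.mem_sup.2 ⟨_, ?_, (⟨π, hπA⟩ : A) • KaehlerDifferential.D F A ⟨_, hb2⟩ -
      q.eval₂ φ a • KaehlerDifferential.D F A ⟨b, hb⟩, sub_mem
      (Submodule.smul_mem_smul ((hP _).2 (by simp [hπ0])) trivial)
      (Submodule.smul_mem_smul hq trivial), sub_add_cancel _ _⟩
    rw [← Submodule.Quotient.mk_eq_zero, ← Submodule.mkQ_apply, map_sub, map_sub, map_smul,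
      map_smul, map_smul, sub_eq_zero, eq_sub_iff_add_eq]
    exact h4
  obtain ⟨he0, he1⟩ := (hP' e).1 he
  refine ⟨d, fun l => z l, e, hind z hz, fun l => (z l).2, e.2, he0, he1, ?_⟩
  convert wva_away he0 h1 rfl using 2
  funext l
  refine Fin.cases ?_ (fun l => ?_) l <;> simp [y]

theorem wva_etC [CharZero F] {n : ℕ} {S : Subalgebra F K} (hfg : S.FG) {y : Fin n → K}
    (hy : ∀ l, y l ∈ S) (hU : Unr S (Set.range y)) (hi : AlgebraicIndependent F y) : EtC S y := by
  refine ⟨hy, ?_⟩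
  set φ : MvPolynomial (Fin n) F →ₐ[F] S := MvPolynomial.aeval fun l => (⟨y l, hy l⟩ : S) with hφ
  let : Algebra (MvPolynomial (Fin n) F) S := φ.toRingHom.toAlgebra
  have : IsScalarTower F (MvPolynomial (Fin n) F) S :=
    IsScalarTower.of_algebraMap_eq fun c => (φ.commutes c).symm
  have : Algebra.FiniteType F S := (Subalgebra.fg_iff_finiteType S).1 hfg
  have : Algebra.FiniteType (MvPolynomial (Fin n) F) S :=
    Algebra.FiniteType.of_restrictScalars_finiteType F _ _
  have : Algebra.FormallyUnramified (MvPolynomial (Fin n) F) S := hU.formallyUnramified _ (by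
    rintro z ⟨l, hl⟩
    exact ⟨MvPolynomial.X l, Subtype.ext (by simpa [RingHom.algebraMap_toAlgebra, hφ] using hl)⟩)
  have hinj : Function.Injective (algebraMap (MvPolynomial (Fin n) F) S) := by
    have h1 : S.val.comp φ = MvPolynomial.aeval y := by
      ext l
      simp [hφ]
    exact Function.Injective.of_comp (f := S.val)
      (by rw [show S.val ∘ algebraMap _ S = S.val.comp φ from rfl, h1]
          exact hi)
  exact etale_of_unramified hinj

theorem wva_chain {m : ℕ} {S : Subalgebra F K} {y : Fin m → K} (h : EtC S y)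
    {O : ValuationSubring K} (hS : ∀ a ∈ S, a ∈ O)
    (hloc : ∀ z ∈ O, ∃ b ∈ S, b ≠ 0 ∧ b⁻¹ ∈ O ∧ b * z ∈ S) {w : K} (hw : w ∈ O) :
    ∃ c : Fin m → K, (∀ l, c l ∈ O) ∧ ∀ D : Derivation F K K, D w = ∑ l, D (y l) * c l := by
  obtain ⟨b, hb, hb0, hb1, hb2⟩ := hloc w hw
  obtain ⟨c, hc, h1⟩ := h.exists_chain hb
  obtain ⟨c', hc', h2⟩ := h.exists_chain hb2
  refine ⟨fun l => b⁻¹ * (c' l - w * c l),
    fun l => mul_mem hb1 (sub_mem (hS _ (hc' l)) (mul_mem hw (hS _ (hc l)))), fun D => ?_⟩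
  have h3 := h2 D
  rw [Derivation.leibniz, smul_eq_mul, smul_eq_mul, h1 D, ← eq_sub_iff_add_eq, Finset.mul_sum,
    ← Finset.sum_sub_distrib] at h3
  rw [← inv_mul_cancel_left₀ hb0 (D w), h3, Finset.mul_sum]
  exact Finset.sum_congr rfl fun l _ => by ring

theorem wva_chainK {m : ℕ} {S : Subalgebra F K} {y : Fin m → K} (h : EtC S y)
    {O : ValuationSubring K} (hS : ∀ a ∈ S, a ∈ O)
    (hloc : ∀ z ∈ O, ∃ b ∈ S, b ≠ 0 ∧ b⁻¹ ∈ O ∧ b * z ∈ S) (w : K) :
    ∃ c : Fin m → K, ∀ D : Derivation F K K, D w = ∑ l, D (y l) * c l := by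
  rcases O.mem_or_inv_mem w with hw | hw
  · exact (wva_chain h hS hloc hw).imp fun c hc => hc.2
  · obtain ⟨c, -, hc⟩ := wva_chain h hS hloc hw
    refine ⟨fun l => -w ^ 2 * c l, fun D => ?_⟩
    have h1 := D.leibniz_inv w⁻¹
    rw [inv_inv, hc D, smul_eq_mul, Finset.mul_sum] at h1
    rw [h1]
    exact Finset.sum_congr rfl fun l _ => by ring

/-- Etale coordinates near the centre of `O`, one of which is a uniformizer. -/
theorem wva_chart [CharZero F] {n : ℕ} (htr : ∀ w : Fin (n + 1) → K, ¬ AlgebraicIndependent F w)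
    {D : Fin n → Derivation F K K} {x : Fin n → K} (hD : (Matrix.of fun i l => D i (x l)).det ≠ 0)
    {A : Subalgebra F K} (hfg : A.FG) {O : ValuationSubring K} (hO : IsDiscreteValuationRing O)
    (hA : ∀ a ∈ A, a ∈ O) (hloc : ∀ z ∈ O, ∃ b ∈ A, b ≠ 0 ∧ b⁻¹ ∈ O ∧ b * z ∈ A) :
    ∃ (l₀ : Fin n) (z : Fin n → K) (e : K) (π : O), Irreducible π ∧ z l₀ = π ∧ (∀ l, z l ∈ A) ∧
      e ∈ A ∧ e ≠ 0 ∧ e⁻¹ ∈ O ∧ EtC (Algebra.adjoin F ((A : Set K) ∪ {e⁻¹})) z ∧
      (Matrix.of fun i l => D i (z l)).det ≠ 0 ∧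
      ordS O (jacs D O) = ordS O {(Matrix.of fun i l => D i (z l)).det} := by
  classical
  obtain ⟨π₀, hπ₀⟩ := IsDiscreteValuationRing.exists_irreducible O
  obtain ⟨b, hb, hb0, hb1, hb2⟩ := hloc _ π₀.2
  have hπ : Irreducible ((⟨b, hA b hb⟩ : O) * π₀) := (irreducible_isUnit_mul
    (IsUnit.of_mul_eq_one ⟨_, hb1⟩ (Subtype.ext (mul_inv_cancel₀ hb0)))).2 hπ₀
  have hπA : (((⟨b, hA b hb⟩ : O) * π₀ : O) : K) ∈ A := hb2
  generalize (⟨b, hA b hb⟩ : O) * π₀ = π at hπ hπA
  obtain ⟨d, z, e, hi, hz, he, he0, he1, hU⟩ := wva_unr htr hfg hO hπ hA hπA hloc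
  set S := Algebra.adjoin F ((A : Set K) ∪ {e⁻¹}) with hS
  have hle : A ≤ S := fun a ha => Algebra.subset_adjoin (Or.inl ha)
  have hSO : ∀ a ∈ S, a ∈ O := fun a ha => by
    induction ha using Algebra.adjoin_induction with
    | mem a ha => exact ha.elim (hA a) fun h => h ▸ he1
    | algebraMap c => exact hA _ (algebraMap_mem A c)
    | add a a' _ _ ha ha' => exact add_mem ha ha'
    | mul a a' _ _ ha ha' => exact mul_mem ha ha'
  have hloc' : ∀ z ∈ O, ∃ b ∈ S, b ≠ 0 ∧ b⁻¹ ∈ O ∧ b * z ∈ S := fun w hw => by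
    obtain ⟨c, h1, h2, h3, h4⟩ := hloc w hw
    exact ⟨c, hle h1, h2, h3, hle h4⟩
  have hy : ∀ l, (Fin.cons (π : K) z : Fin (d + 1) → K) l ∈ A := fun l =>
    Fin.cases hπA (fun l => hz l) l
  have h0 : (Fin.cons (π : K) z : Fin (d + 1) → K) 0 = π := rfl
  generalize (Fin.cons (π : K) z : Fin (d + 1) → K) = y at hi hU hy h0
  have hE : EtC S y := wva_etC (by
    obtain ⟨σ, rfl⟩ := hfg
    refine ⟨σ ∪ {e⁻¹}, ?_⟩
    rw [hS, Finset.coe_union, Finset.coe_singleton, Algebra.adjoin_union, Algebra.adjoin_union,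
      Algebra.adjoin_eq]) (fun l => hle (hy l)) hU hi
  choose c hc using fun l => wva_chainK hE hSO hloc' (x l)
  have h1 : (Matrix.of fun i l => D i (x l)) =
      (Matrix.of fun i l => D i (y l)) * Matrix.of fun j l => c l j := by
    ext i l
    simp [Matrix.mul_apply, hc l]
  obtain rfl : n = d + 1 := by
    refine le_antisymm ?_ ?_
    · have h2 := Matrix.rank_of_isUnit _ ((Matrix.isUnit_iff_isUnit_det _).2 hD.isUnit)
      rw [h1, Fintype.card_fin] at h2
      exact h2.ge.trans ((Matrix.rank_mul_le_left _ _).trans (Matrix.rank_le_width _))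
    · by_contra hn
      exact htr _ (hi.comp (Fin.castLE (by omega)) (Fin.castLE_injective _))
  have h2 : (Matrix.of fun i l => D i (y l)).det ≠ 0 := by
    rw [h1, Matrix.det_mul] at hD
    exact left_ne_zero_of_mul hD
  refine ⟨0, y, e, π, hπ, h0, hy, he, he0, he1, hE, h2, ?_⟩
  obtain ⟨j, hj⟩ := exists_ordO hO hπ h2
  rw [ordS_single hO hπ hj]
  refine ordS_eq hO hπ ?_ ⟨_, ⟨y, fun l => hA _ (hy l), rfl⟩, hj⟩
  rintro _ ⟨w, hw, rfl⟩
  choose c' hc' hc'' using fun l => wva_chain hE hSO hloc' (hw l)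
  have h3 : (Matrix.of fun i l => D i (w l)) =
      (Matrix.of fun i l => D i (y l)) * Matrix.of fun j l => c' l j := by
    ext i l
    simp [Matrix.mul_apply, hc'' l]
  rw [h3, Matrix.det_mul, mul_right_comm]
  refine mul_mem hj.2.1 ?_
  rw [Matrix.det_apply']
  exact sum_mem fun σ _ => mul_mem (intCast_mem _ _) (prod_mem fun l _ => hc' _ _)

end Pool.Agent.Lib.MP_4287a9_ag
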