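import Pool.Agent.Lib.MP_4287a9_ag.D5
import Pool.Agent.Lib.MP_4287a9_ag.WVa
import Pool.Agent.Lib.MP_4287a9_ag.GrA
import Pool.Agent.Lib.MP_4287a9_ag.ResImg

/-! Laurent rings over localizations of `R`, dual derivations, charts in codimension one. -/

namespace Pool.Agent.Lib.MP_4287a9_ag

open Res

noncomputable section

variable {F R K : Type} [Field F] [CommRing R] [IsDomain R] [Algebra F R] [Field K] [Algebra F K]
  [Algebra R K] [IsScalarTower F R K] [IsFractionRing R K] {n ρ : ℕ}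

/-- A nonzero element of `K` as a unit of the Laurent ring. -/
def unL (ρ : ℕ) {x : K} (hx : x ≠ 0) : (LA K ρ)ˣ :=
  Units.map (algebraMap K (LA K ρ) : K →* LA K ρ) (Units.mk0 x hx)

theorem unL_val {x : K} (hx : x ≠ 0) : (unL ρ hx : LA K ρ) = algebraMap K (LA K ρ) x := rfl

theorem unL_inv {x : K} (hx : x ≠ 0) :
    (((unL ρ hx)⁻¹ : (LA K ρ)ˣ) : LA K ρ) = algebraMap K (LA K ρ) x⁻¹ := rfl

theorem wg_mono (γ : Fin ρ → ℤ) :
    ((∏ c, Xu K c ^ γ c : (LA K ρ)ˣ) : LA K ρ) = AddMonoidAlgebra.single γ 1 := by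
  let φ : Multiplicative (Fin ρ → ℤ) →* (LA K ρ)ˣ := (AddMonoidAlgebra.of K (Fin ρ → ℤ)).toHomUnits
  have h1 : ∀ c, Xu K c = φ (Multiplicative.ofAdd (Pi.single c 1)) := fun c => Units.ext rfl
  have h2 : ∏ c, Xu K c ^ γ c = φ (Multiplicative.ofAdd γ) := by
    conv_rhs => rw [pi_eq_sum_univ' γ]
    rw [ofAdd_sum, map_prod]
    exact Finset.prod_congr rfl fun c _ => by rw [h1, ← map_zpow, ofAdd_zsmul]
  rw [h2]
  rfl

theorem wg_single {S : Subalgebra F (LA K ρ)} (hS : GD.taus K ρ ⊆ S) (γ : Fin ρ → ℤ) {x : K}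
    (hx : algebraMap K (LA K ρ) x ∈ S) : (AddMonoidAlgebra.single γ x : LA K ρ) ∈ S := by
  have h1 : (AddMonoidAlgebra.single γ 1 : LA K ρ) ∈ S := by
    rw [← wg_mono, Units.coe_prod]
    refine prod_mem fun c _ => ?_
    obtain ⟨j, h | h⟩ := (γ c).eq_nat_or_neg
    · rw [h, zpow_natCast, Units.val_pow_eq_pow_val]
      exact pow_mem (hS (Or.inl ⟨c, rfl⟩)) j
    · rw [h, zpow_neg, zpow_natCast, ← inv_pow, Units.val_pow_eq_pow_val]
      exact pow_mem (hS (Or.inr ⟨c, rfl⟩)) j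
  have h2 := mul_mem hx h1
  rwa [show algebraMap K (LA K ρ) x = AddMonoidAlgebra.single 0 x from rfl,
    AddMonoidAlgebra.single_mul_single, zero_add, mul_one] at h2

omit [Algebra F R] [IsScalarTower F R K] in
theorem wg_den {Z : Set (LA K ρ)} (hZ : Z.Finite) : ∃ g : R, g ≠ 0 ∧ ∀ w ∈ Z,
    ∀ S : Subalgebra F (LA K ρ), (∀ r, inL R K ρ r ∈ S) → GD.taus K ρ ⊆ S →
      inL R K ρ g * w ∈ S := by
  have h1 : (⋃ w ∈ Z, (fun γ => w.coeff γ) '' (w.coeff.support : Set (Fin ρ → ℤ))).Finite :=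
    hZ.biUnion fun w _ => (Finset.finite_toSet _).image _
  obtain ⟨b, hb⟩ := IsLocalization.exist_integer_multiples_of_finset (nonZeroDivisors R) h1.toFinset
  refine ⟨b, nonZeroDivisors.ne_zero b.2, fun w hw S hR hS => ?_⟩
  rw [← sum_pr w, Finset.mul_sum]
  refine sum_mem fun γ hγ => ?_
  obtain ⟨r, hr⟩ := hb (w.coeff γ) (h1.mem_toFinset.2 (Set.mem_biUnion hw ⟨γ, hγ, rfl⟩))
  have h2 : inL R K ρ b * pr γ w = AddMonoidAlgebra.single γ (algebraMap R K r) := by
    rw [hr, Algebra.smul_def]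
    change AddMonoidAlgebra.single 0 (algebraMap R K b) * AddMonoidAlgebra.single γ _ = _
    rw [AddMonoidAlgebra.single_mul_single, zero_add]
  rw [h2]
  exact wg_single hS γ (hR r)

theorem wg_amb_deg (D₀ : Fin n → Derivation F K K) (m : Fin (n + ρ)) {γ : Fin ρ → ℤ} {w : LA K ρ}
    (h : IsDeg γ w) : IsDeg γ (amb D₀ (id : Fin ρ → Fin ρ) m w) := by
  intro β hβ
  refine Fin.addCases (fun a => ?_) (fun c => ?_) m
  · rw [amb, Fin.append_left, aD_coeff, h β hβ]
    simp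
  · rw [amb, Fin.append_right, aD_coeff, h β hβ]
    simp

theorem wg_amb_mem (D₀ : Fin n → Derivation F K K) (m : Fin (n + ρ)) {S : Subalgebra F (LA K ρ)}
    (hS : GD.taus K ρ ⊆ S) (γ : Fin ρ → ℤ) {x : K} (hx : algebraMap K (LA K ρ) x ∈ S)
    (hD : ∀ a, algebraMap K (LA K ρ) (D₀ a x) ∈ S) :
    amb D₀ (id : Fin ρ → Fin ρ) m (AddMonoidAlgebra.single γ x) ∈ S := by
  refine Fin.addCases (fun a => ?_) (fun c => ?_) m
  · rw [amb, Fin.append_left, aD_single]
    exact wg_single hS γ (by simpa using hD a)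
  · rw [amb, Fin.append_right, aD_single]
    refine wg_single hS γ ?_
    rw [Derivation.zero_apply, zero_add, degK_apply, map_mul, map_intCast]
    exact mul_mem (intCast_mem _ _) hx

omit [IsDomain R] [Algebra F R] [IsScalarTower F R K] [IsFractionRing R K] in
/-- The ambient derivations preserve `R[1 / g][τ ^ ±]`. -/
theorem wg_amb_pres (D₀ : Fin n → Derivation F K K) {g : R} (hg : algebraMap R K g ≠ 0)
    (h : ∀ i (r : R), ∃ r' : R, algebraMap R K g * D₀ i (algebraMap R K r) = algebraMap R K r')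
    (m : Fin (n + ρ)) :
    Pres (Algebra.adjoin F (Set.range (inL R K ρ) ∪ {(((unL ρ hg)⁻¹ : (LA K ρ)ˣ) : LA K ρ)} ∪
      GD.taus K ρ)) (amb D₀ (id : Fin ρ → Fin ρ) m) := by
  set S := Algebra.adjoin F (Set.range (inL R K ρ) ∪ {(((unL ρ hg)⁻¹ : (LA K ρ)ˣ) : LA K ρ)} ∪
    GD.taus K ρ) with hS
  have h1 : GD.taus K ρ ⊆ S := fun w hw => Algebra.subset_adjoin (Or.inr hw)
  have h2 : ∀ r, inL R K ρ r ∈ S := fun r => Algebra.subset_adjoin (Or.inl (Or.inl ⟨r, rfl⟩))
  have h3 : (((unL ρ hg)⁻¹ : (LA K ρ)ˣ) : LA K ρ) ∈ S := Algebra.subset_adjoin (Or.inl (Or.inr rfl))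
  have h4 : ∀ r, amb D₀ (id : Fin ρ → Fin ρ) m (inL R K ρ r) ∈ S := fun r =>
    wg_amb_mem D₀ m h1 0 (x := algebraMap R K r) (h2 r) fun a => by
      obtain ⟨r', hr'⟩ := h a r
      rw [← inv_mul_cancel_left₀ hg (D₀ a _), hr', map_mul]
      exact mul_mem h3 (h2 r')
  refine Pres.adjoin ?_
  rintro _ ((⟨r, rfl⟩ | rfl) | ⟨c, rfl⟩ | ⟨c, rfl⟩)
  · exact h4 r
  · rw [Derivation.leibniz_of_mul_eq_one _ (Units.inv_mul (unL ρ hg)), neg_smul, smul_eq_mul]
    exact neg_mem (mul_mem (pow_mem h3 2) (h4 g))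
  · exact wg_amb_mem D₀ m h1 _ (by rw [map_one]; exact one_mem _) (by simp)
  · exact wg_amb_mem D₀ m h1 _ (by rw [map_one]; exact one_mem _) (by simp)

/-- Derivations dual to homogeneous coordinates. -/
theorem wg_dual {N : ℕ} {E : Fin N → Derivation F (LA K ρ) (LA K ρ)}
    (hE : ∀ m γ w, IsDeg γ w → IsDeg γ (E m w)) {y : Fin N → LA K ρ} {dx : Fin N → Fin ρ → ℤ}
    (hy : ∀ l, IsDeg (dx l) (y l)) {j : LA K ρ}
    (h : j * (Matrix.of fun i l => E i (y l)).det = 1) :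
    ∃ (D : Fin N → Derivation F (LA K ρ) (LA K ρ)) (b : Fin N → Fin N → LA K ρ),
      (∀ i w, D i w = ∑ m, b i m * E m w) ∧ DualD D y ∧
      (∀ w : Fin N → LA K ρ, (Matrix.of fun i l => D i (w l)).det =
        j * (Matrix.of fun i l => E i (w l)).det) ∧
      (∀ i γ w, IsDeg γ w → IsDeg (γ - dx i) (D i w)) ∧ IsDeg (-∑ l, dx l) j := by
  set A : Matrix (Fin N) (Fin N) (LA K ρ) := Matrix.of fun i l => E i (y l) with hA
  set B := j • A.adjugate with hB
  have h1 : B * A = 1 := by rw [hB, Matrix.smul_mul, Matrix.adjugate_mul, smul_smul, h, one_smul]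
  have h2 : B.det = j := by
    have h3 := congrArg Matrix.det h1
    rw [Matrix.det_mul, Matrix.det_one] at h3
    linear_combination j * h3 - B.det * h
  have h3 : ∀ w : Fin N → LA K ρ,
      (Matrix.of fun i l => (∑ m, B i m • E m : Derivation F _ _) (w l)) =
        B * Matrix.of fun i l => E i (w l) := by
    intro w
    ext1 i l
    rw [Matrix.of_apply, resDv3_sum, Matrix.mul_apply]
    rfl
  have h4 : (Matrix.of fun i m => pr (-dx i) (B i m)) * A = 1 := by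
    ext1 i l
    have h5 := congrArg (pr (-dx i + dx l)) (congrFun (congrFun h1 i) l)
    rw [Matrix.mul_apply, map_sum] at h5
    rw [Matrix.mul_apply]
    refine (Finset.sum_congr rfl fun m _ => (pr_mul_deg (hE m _ _ (hy l)) _ _).symm).trans
      (h5.trans ?_)
    rw [Matrix.one_apply]
    split_ifs with hil
    · rw [hil, neg_add_cancel]
      exact isDeg_iff.1 isDeg_one
    · exact map_zero _
  have h5 : (Matrix.of fun i m => pr (-dx i) (B i m)) = B := by
    rw [← mul_one (Matrix.of fun i m => pr (-dx i) (B i m)), ← mul_eq_one_comm.1 h1, ← mul_assoc,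
      h4, one_mul]
  have h6 : ∀ i m, IsDeg (-dx i) (B i m) := fun i m =>
    isDeg_iff.2 (congrFun (congrFun h5 i) m)
  refine ⟨fun i => ∑ m, B i m • E m, B, fun i w => resDv3_sum _ _ _ _, fun i l => ?_,
    fun w => by rw [h3, Matrix.det_mul, h2], fun i γ w hw => ?_, ?_⟩
  · have h7 := congrFun (congrFun (h3 y) i) l
    rw [← hA, h1, Matrix.of_apply, Matrix.one_apply] at h7
    exact h7
  · rw [resDv3_sum, sub_eq_neg_add]
    exact IsDeg.sum _ fun m _ => (h6 i m).mul (hE m _ _ hw)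
  · refine IsDeg.of_mul_eq_one ?_ h
    rw [Matrix.det_apply]
    exact IsDeg.sum _ fun σ _ => (IsDeg.prod _ fun l _ => hE _ _ _ (hy l)).zsmul _

theorem wg_jac {S : Subalgebra F K} {z x : Fin n → K} (h : EtC S z) (hx : ∀ l, x l ∈ S)
    {D : Fin n → Derivation F K K} (hD : DualD D x) : jac D z ≠ 0 := by
  choose c _ hc using fun l => h.exists_chain (hx l)
  have h1 : (Matrix.of fun i l => D i (z l)) * (Matrix.of fun j l => c l j) = 1 := by
    ext i l
    rw [Matrix.one_apply, ← hD i l, hc l, Matrix.mul_apply]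
    exact Finset.sum_congr rfl fun j _ => mul_comm _ _
  exact (Matrix.isUnit_det_of_right_inverse h1).ne_zero

/-- The coordinates `z, τ`. -/
def yL (ρ : ℕ) (z : Fin n → K) : Fin (n + ρ) → LA K ρ :=
  Fin.append (fun j => algebraMap K (LA K ρ) (z j))
    fun c => AddMonoidAlgebra.single (Pi.single c ((1 : ℕ) : ℤ)) 1

theorem wg_det (D₀ : Fin n → Derivation F K K) (z : Fin n → K) :
    (Matrix.of fun i l => amb D₀ (id : Fin ρ → Fin ρ) i (yL ρ z l)).det =
      algebraMap K (LA K ρ) (jac D₀ z) * ((∏ c, Xu K c : (LA K ρ)ˣ) : LA K ρ) := by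
  rw [yL, det_amb_append D₀ z 1 fun _ => 1, Units.coe_prod]
  simp only [Nat.cast_one, one_mul]
  rfl

omit [IsDomain R] [IsFractionRing R K] in
theorem wg_etC [CharZero F] [Algebra.FiniteType F R] {e : K} {z : Fin n → K}
    (h : EtC (ch F R {e}) z) {D₀ : Fin n → Derivation F K K} (hJ : jac D₀ z ≠ 0) :
    EtC (Algebra.adjoin F (Set.range (inL R K ρ) ∪ {algebraMap K (LA K ρ) e} ∪ GD.taus K ρ))
      (yL ρ z) := by
  classical
  have hom : HomOn (⊤ : Subalgebra F K) (algebraMap K (LA K ρ)) :=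
    ⟨fun a _ b _ => map_add _ a b, fun a _ b _ => map_mul _ a b,
      fun c => (IsScalarTower.algebraMap_apply F K _ c).symm⟩
  have h1 : img (algebraMap K (LA K ρ)) (ch F R {e}) =
      Algebra.adjoin F (Set.range (inL R K ρ) ∪ {algebraMap K (LA K ρ) e}) := by
    rw [ch, hom.img_adjoin fun _ _ => trivial, Set.image_union, Set.image_singleton,
      ← Set.range_comp]
    rfl
  have h2 : Algebra.adjoin F (Set.range (inL R K ρ) ∪ {algebraMap K (LA K ρ) e} ∪ GD.taus K ρ) =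
      Algebra.adjoin F ((img (algebraMap K (LA K ρ)) (ch F R {e}) : Set (LA K ρ)) ∪
        GD.taus K ρ) := by
    rw [h1, Algebra.adjoin_union _ (GD.taus K ρ), Algebra.adjoin_union _ (GD.taus K ρ),
      Algebra.adjoin_eq]
  have hy : ∀ l, yL ρ z l ∈ Algebra.adjoin F
      (Set.range (inL R K ρ) ∪ {algebraMap K (LA K ρ) e} ∪ GD.taus K ρ) := fun l => by
    rw [h2]
    refine Algebra.subset_adjoin (Fin.addCases (fun j => Or.inl ?_) (fun c => Or.inr ?_) l)
    · rw [yL, Fin.append_left]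
      exact (hom.mem_img le_top).2 ⟨_, h.mem j, rfl⟩
    · rw [yL, Fin.append_right]
      exact Or.inl ⟨c, rfl⟩
  have hτ : ∀ c, ((Xu K c : (LA K ρ)ˣ) : LA K ρ) ∈ Set.range (yL ρ z) := fun c =>
    ⟨Fin.natAdd n c, by rw [yL, Fin.append_right]; rfl⟩
  have hU := (hom.unr le_top (unr_of_etC h) (T' := Set.range (yL ρ z)) (by
    rintro _ ⟨j, rfl⟩ -
    exact Or.inr ⟨Fin.castAdd ρ j, by rw [yL, Fin.append_left]⟩)).extend h2
    (T' := Set.range (yL ρ z)) (by rintro _ ⟨l, rfl⟩; exact hy l)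
    (fun y hy' _ => Algebra.subset_adjoin hy') (by
      rintro _ (⟨c, rfl⟩ | ⟨c, rfl⟩)
      · exact Or.inl (hτ c)
      · exact Or.inr ⟨_, Algebra.subset_adjoin (Or.inr (hτ c)), Units.mul_inv _⟩)
  obtain ⟨D, hD, -⟩ := exists_dual_of_det (E := amb D₀ (id : Fin ρ → Fin ρ)) (y := yL ρ z)
    (j := (((unL ρ hJ * ∏ c, Xu K c)⁻¹ : (LA K ρ)ˣ) : LA K ρ)) (by
      rw [wg_det]
      exact Units.inv_mul _)
  refine etC_of_unr ?_ hy hU hD
  obtain ⟨σ, hσ⟩ := Algebra.FiniteType.out (R := F) (A := R)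
  refine Subalgebra.fg_def.2 ⟨inL R K ρ '' σ ∪ {algebraMap K (LA K ρ) e} ∪ GD.taus K ρ,
    ((σ.finite_toSet.image _).union (Set.finite_singleton _)).union
      ((Set.finite_range _).union (Set.finite_range _)), ?_⟩
  have h3 := Algebra.adjoin_image F
    ((IsScalarTower.toAlgHom F K (LA K ρ)).comp (IsScalarTower.toAlgHom F R K)) (σ : Set R)
  have h4 := Algebra.adjoin_image F
    ((IsScalarTower.toAlgHom F K (LA K ρ)).comp (IsScalarTower.toAlgHom F R K)) Set.univ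
  rw [hσ] at h3
  rw [Algebra.adjoin_univ, Set.image_univ, ← h3] at h4
  rw [Set.union_assoc, Set.union_assoc, Algebra.adjoin_union, Algebra.adjoin_union (Set.range _)]
  exact congrArg (· ⊔ _) h4.symm

end

end Pool.Agent.Lib.MP_4287a9_ag
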