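import Pool.Agent.Lib.MP_4287a9_ag.WGa
import Pool.Agent.Lib.MP_4287a9_ag.RDb
import Pool.Agent.Lib.MP_4287a9_ag.ResMain
import Pool.Agent.Lib.MP_4287a9_ag.ResFin

/-! The exponents of the graded resolution data of a klt triple. -/

namespace Pool.Agent.Lib.MP_4287a9_ag

open Res
open scoped NNReal

theorem wg_num {μ : ℕ} {t : ℝ} (ht : 0 ≤ t) {N₀ : ℕ} (hN : 0 < N₀) (aj af aF : Fin μ → ℕ)
    (β : Fin μ → ℤ) (h : ∀ i, t * af i < aj i - (β i : ℝ) / N₀) :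
    ∃ M₂ a₁ : ℕ, 0 < M₂ ∧ t * ((N₀ * M₂ : ℕ) : ℝ) < a₁ ∧
      ∀ i, (M₂ : ℤ) * β i + aF i + a₁ * af i < (N₀ * M₂ : ℕ) * aj i := by
  have hN' : (0 : ℝ) < N₀ := by exact_mod_cast hN
  have h1 : ∀ i, ∀ᶠ M : ℕ in Filter.atTop,
      (aF i + af i : ℝ) < M * (N₀ * (aj i - t * af i) - β i) := fun i => by
    have h2 : 0 < N₀ * (aj i - t * af i) - β i := by
      have h3 : (β i : ℝ) / N₀ < aj i - t * af i := by linarith [h i]
      rw [div_lt_iff₀' hN'] at h3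
      linarith
    exact (tendsto_natCast_atTop_atTop.atTop_mul_const h2).eventually_gt_atTop _
  obtain ⟨M, hM, h2⟩ := ((Filter.eventually_gt_atTop 0).and (Filter.eventually_all.2 h1)).exists
  refine ⟨M, ⌊t * ((N₀ * M : ℕ) : ℝ)⌋₊ + 1, hM, by exact_mod_cast Nat.lt_floor_add_one _,
    fun i => ?_⟩
  have h3 := mul_le_mul_of_nonneg_right
    (Nat.floor_le (a := t * ((N₀ * M : ℕ) : ℝ)) (by positivity)) (Nat.cast_nonneg (α := ℝ) (af i))
  have h4 := h2 i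
  generalize ⌊t * ((N₀ * M : ℕ) : ℝ)⌋₊ = a at h3
  have h5 : (M : ℝ) * β i + aF i + (a + 1) * af i < N₀ * M * aj i := by
    push_cast at h3
    linarith
  exact_mod_cast h5

theorem OrdO.div {K : Type} [Field K] {O : ValuationSubring K} {π : O} (hπ : Irreducible π)
    {x y : K} {e e' : ℤ} (h : OrdO O π x e) (h' : OrdO O π y e') : OrdO O π (x / y) (e - e') := by
  have h1 : x / y * (π : K) ^ (-(e - e')) = x * (π : K) ^ (-e) * (y * (π : K) ^ (-e'))⁻¹ := by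
    rw [neg_sub, zpow_sub₀ (wv1_ne hπ), zpow_neg, zpow_neg]
    field_simp
  refine ⟨div_ne_zero h.1 h'.1, ?_, ?_⟩
  · rw [h1]
    exact mul_mem h.2.1 h'.2.2
  · rw [h1, mul_inv, inv_inv]
    exact mul_mem h.2.2 h'.2.1

variable {F R K : Type} [Field F] [CommRing R] [IsDomain R] [Algebra F R] [Field K] [Algebra F K]
  [Algebra R K] [IsScalarTower F R K] [IsFractionRing R K] {n : ℕ}

omit [IsDomain R] [IsFractionRing R K] in
theorem ordS_span {O : ValuationSubring K} (hO : IsDiscreteValuationRing O) {π : O}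
    (hπ : Irreducible π) (hR : ∀ r, algebraMap R K r ∈ O) {a : R} {e : ℤ}
    (h : OrdO O π (algebraMap R K a) e) : ordS O (algebraMap R K '' Ideal.span {a}) = e := by
  refine ordS_eq hO hπ ?_ ⟨_, ⟨a, Ideal.mem_span_singleton_self a, rfl⟩, h⟩
  rintro _ ⟨b, hb, rfl⟩
  obtain ⟨c, rfl⟩ := Ideal.mem_span_singleton'.1 hb
  rw [map_mul, mul_assoc]
  exact mul_mem (hR c) h.2.1

theorem wg_ineq [CharZero F] [Algebra.FiniteType F R] {c : CD F R K n} {𝔡 𝔞 : Ideal R} {r : ℕ}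
    (hc : c.Good 𝔡 r) {t : ℝ≥0} (hV : c.VK r 𝔞 t) {u₁ u₂ : R} (h₁ : algebraMap R K u₁ ≠ 0)
    (h₂ : algebraMap R K u₂ ≠ 0) (hu : algebraMap R K u₁ / algebraMap R K u₂ = c.u)
    {d : ResOut F R K n 3} (h : d.Good c.D ![𝔞, Ideal.span {u₁}, Ideal.span {u₂}]) (i : Fin d.μ) :
    (t : ℝ) * d.af 0 i <
      d.aj i - (((d.af 1 i : ℤ) - d.af 2 i : ℤ) : ℝ) / ((r * c.M : ℕ) : ℝ) := by
  obtain ⟨S, O, m, hO, hm, h1, h2⟩ := h.exists_isDiv hc.hint hc.dual i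
  have hR : ∀ r, algebraMap R K r ∈ O := fun r => hO.2.1 _ (algebraMap_mem _ r)
  have := hO.1
  obtain ⟨π, hπ⟩ := IsDiscreteValuationRing.exists_irreducible O
  obtain ⟨e₁, he₁⟩ := exists_ordO hO.1 hπ h₁
  obtain ⟨e₂, he₂⟩ := exists_ordO hO.1 hπ h₂
  have h3 : (m : ℤ) * ordS O (algebraMap R K '' 𝔞) = d.af 0 i := h1 0
  have h4 : (m : ℤ) * ordS O (algebraMap R K '' Ideal.span {u₁}) = d.af 1 i := h1 1
  have h5 : (m : ℤ) * ordS O (algebraMap R K '' Ideal.span {u₂}) = d.af 2 i := h1 2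
  rw [ordS_span hO.1 hπ hR he₁] at h4
  rw [ordS_span hO.1 hπ hR he₂] at h5
  have h6 := mul_lt_mul_of_pos_left (hV S O hO) (Nat.cast_pos (α := ℝ) |>.2 hm)
  rw [ldisc, ← hu, ordS_single hO.1 hπ (he₁.div hπ he₂)] at h6
  have h7 : (m : ℝ) * ordS O (algebraMap R K '' 𝔞) = d.af 0 i := by exact_mod_cast h3
  have h8 : (m : ℝ) * (1 - ordS O (jacs c.D O)) ≤ d.aj i := by exact_mod_cast h2
  rw [← h4, ← h5, ← mul_sub, Int.cast_mul, Int.cast_natCast, mul_div_assoc, ← h7]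
  linarith

theorem wg_gen {A : Type} [CommRing A] [IsNoetherianRing A] (Z : Set A) :
    ∃ (k : ℕ) (v : Fin k → A), (∀ i, v i ∈ Z) ∧ Ideal.span (Set.range v) = Ideal.span Z := by
  obtain ⟨σ, h1, h2⟩ := (Submodule.fg_span_iff_fg_span_finset_subset (R := A) Z).1
    (IsNoetherian.noetherian _)
  refine ⟨σ.card, fun i => σ.equivFin.symm i, fun i => h1 (σ.equivFin.symm i).2, ?_⟩
  rw [Ideal.span, Ideal.span, h2]
  congr 1
  ext a
  exact ⟨fun ⟨i, hi⟩ => hi ▸ (σ.equivFin.symm i).2, fun ha => ⟨σ.equivFin ⟨a, ha⟩, by simp⟩⟩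

theorem wg_sp {A L : Type} [CommRing A] [CommRing L] [Algebra F L] (ι : A →+* L)
    {T : Subalgebra F L} (hT : ∀ a, ι a ∈ T) {k : ℕ} (v : Fin k → A) (j : ℕ) {a : A}
    (ha : a ∈ Ideal.span (Set.range v) ^ j) :
    ι a ∈ Submodule.span T (Set.range fun i => ι (v i)) ^ j := by
  have h1 : ∀ a ∈ Ideal.span (Set.range v), ι a ∈ Submodule.span T (Set.range fun i => ι (v i)) := by
    intro a ha
    induction ha using Submodule.span_induction with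
    | mem a ha =>
      obtain ⟨i, rfl⟩ := ha
      exact Submodule.subset_span ⟨i, rfl⟩
    | zero => simp
    | add a b _ _ ha hb => simpa using add_mem ha hb
    | smul c a _ ha =>
      rw [smul_eq_mul, map_mul]
      exact Submodule.smul_mem _ (⟨ι c, hT c⟩ : T) ha
  induction j generalizing a with
  | zero =>
    rw [pow_zero, Submodule.mem_one]
    exact ⟨⟨ι a, hT a⟩, rfl⟩
  | succ j ih =>
    rw [pow_succ] at ha ⊢
    refine Submodule.mul_induction_on ha (fun b hb c hc => ?_) fun b c hb hc => ?_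
    · rw [map_mul]
      exact Submodule.mul_mem_mul (ih hb) (h1 c hc)
    · rw [map_add]
      exact add_mem hb hc

theorem wg_pad {L ι : Type} [Zero L] [Fintype ι] (σ : ι → Finset L) :
    ∃ (k : ℕ) (v : ι → Fin k → L), (∀ a i, v a i = 0 ∨ v a i ∈ σ a) ∧
      ∀ a, ∀ z ∈ σ a, z ∈ Set.range (v a) := by
  classical
  refine ⟨∑ a, (σ a).card, fun a i =>
    if h : (i : ℕ) < (σ a).card then (σ a).equivFin.symm ⟨i, h⟩ else 0, fun a i => ?_,
    fun a z hz => ⟨⟨(σ a).equivFin ⟨z, hz⟩, ((σ a).equivFin ⟨z, hz⟩).2.trans_le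
      (Finset.single_le_sum (f := fun a => (σ a).card) (fun _ _ => Nat.zero_le _)
        (Finset.mem_univ a))⟩, by simp⟩⟩
  beta_reduce
  split_ifs with h
  · exact Or.inr ((σ a).equivFin.symm ⟨i, h⟩).2
  · exact Or.inl rfl

theorem wg_hj {L : Type} [CommRing L] [Algebra F L] {S : Subalgebra F L} {μ : ℕ} {t : Fin μ → Lˣ}
    {J J₀ U₁ U₂ G f : Lˣ} {aj aF a₀ a₁ a₂ : Fin μ → ℕ} (hJ : As S J (∏ i, t i ^ ((aj i : ℤ) - 1)))
    (h₁ : As S U₁ (∏ i, t i ^ a₁ i)) (h₂ : As S U₂ (∏ i, t i ^ a₂ i))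
    (hG : As S G (∏ i, t i ^ aF i)) (hf : As S f (∏ i, t i ^ a₀ i)) (N M c : ℕ) :
    As S ((J * J₀⁻¹) ^ N) ((U₁ * U₂⁻¹) ^ M * J₀⁻¹ ^ N * (G * f ^ c) * ∏ i, t i ^
      ((N : ℤ) * ((aj i : ℤ) - 1) - M * ((a₁ i : ℤ) - a₂ i) - aF i - c * a₀ i)) := by
  have h1 := (hJ.mul (As.refl S J₀⁻¹)).zpow N
  have h2 := ((((h₁.mul (h₂.zpow (-1))).zpow M).mul (As.refl S (J₀⁻¹ ^ N))).mul
    (hG.mul (hf.zpow c))).mul (As.refl S (∏ i, t i ^
      ((N : ℤ) * ((aj i : ℤ) - 1) - M * ((a₁ i : ℤ) - a₂ i) - aF i - c * a₀ i)))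
  simp only [zpow_natCast, zpow_neg_one] at h1 h2
  refine h1.trans (As.symm ?_)
  convert h2 using 1
  rw [mul_pow, mul_comm _ (J₀⁻¹ ^ N), mul_comm _ (J₀⁻¹ ^ N), mul_assoc, mul_assoc]
  congr 1
  simp only [← Finset.prod_inv_distrib, ← Finset.prod_mul_distrib, ← Finset.prod_pow]
  refine Finset.prod_congr rfl fun i _ => ?_
  simp only [← zpow_natCast, ← zpow_neg, ← zpow_add, ← zpow_mul]
  congr 1
  ring

end Pool.Agent.Lib.MP_4287a9_ag
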