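import Pool.Agent.Lib.MP_4287a9_ag.WGb

/-! Graded resolution data of a klt triple in characteristic zero. -/

namespace Pool.Agent.Lib.MP_4287a9_ag

open Res
open scoped NNReal

variable {F R K : Type} [Field F] [CommRing R] [IsDomain R] [Algebra F R] [Field K] [Algebra F K]
  [Algebra R K] [IsScalarTower F R K] [IsFractionRing R K] {n : ℕ}

omit [IsDomain R] [IsFractionRing R K] in
theorem wg_tg [Algebra.FiniteType F R] (ρ : ℕ) : ∃ (k : ℕ) (v : Fin k → R),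
    (∀ w, w ∈ Algebra.adjoin F (Set.range fun i => inL R K ρ (v i)) ↔ ∃ a, inL R K ρ a = w) ∧
    ∀ Z, Algebra.adjoin F ((Set.range fun i => inL R K ρ (v i)) ∪ Z) =
      Algebra.adjoin F (Set.range (inL R K ρ) ∪ Z) := by
  obtain ⟨σ, hσ⟩ := Algebra.FiniteType.out (R := F) (A := R)
  let φ := (IsScalarTower.toAlgHom F K (LA K ρ)).comp (IsScalarTower.toAlgHom F R K)
  have h1 : (Set.range fun i => inL R K ρ (σ.equivFin.symm i)) = φ '' σ := by
    ext w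
    exact ⟨fun ⟨i, hi⟩ => ⟨_, (σ.equivFin.symm i).2, hi⟩,
      fun ⟨a, ha, h⟩ => ⟨σ.equivFin ⟨a, ha⟩, by simp only [Equiv.symm_apply_apply]; exact h⟩⟩
  have h2 := Algebra.adjoin_image F φ (σ : Set R)
  have h3 := Algebra.adjoin_image F φ Set.univ
  rw [hσ] at h2
  rw [Algebra.adjoin_univ, Set.image_univ, ← h2] at h3
  refine ⟨σ.card, fun i => σ.equivFin.symm i, fun w => ?_, fun Z => ?_⟩
  · rw [h1, h2]
    exact ⟨fun ⟨a, _, h⟩ => ⟨a, h⟩, fun ⟨a, h⟩ => ⟨a, trivial, h⟩⟩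
  · rw [h1, Algebra.adjoin_union, Algebra.adjoin_union]
    exact congrArg (· ⊔ _) h3.symm

theorem wg_span {L : Type} [CommRing L] [Algebra F L] {S S' : Subalgebra F L} (h : S = S')
    {X : Set L} {w : L} (hw : w ∈ Submodule.span S X) : w ∈ Submodule.span S' X := by
  subst h
  exact hw

theorem CD.Good.exists_out [CharZero F] [IsIntegrallyClosed R] [Algebra.FiniteType F R]
    {c : CD F R K n} {𝔡 𝔞 : Ideal R} {r : ℕ} (hc : c.Good 𝔡 r) (h𝔞 : 𝔞 ≠ ⊥) :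
    ∃ (u₁ u₂ : R) (d : ResOut F R K n 3), algebraMap R K u₁ ≠ 0 ∧ algebraMap R K u₂ ≠ 0 ∧
      algebraMap R K u₁ / algebraMap R K u₂ = c.u ∧
      d.Good c.D ![𝔞, Ideal.span {u₁}, Ideal.span {u₂}] := by
  obtain ⟨u₁, u₂, hu₂, hu⟩ := IsFractionRing.div_surjective (A := R) c.u
  have h₂ : algebraMap R K u₂ ≠ 0 := IsFractionRing.to_map_ne_zero_of_mem_nonZeroDivisors hu₂
  have h₁ : algebraMap R K u₁ ≠ 0 := fun h => hc.hu (by rw [← hu, h, zero_div])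
  obtain ⟨d, h⟩ := exists_res (K := K) c.x hc.hint c.D hc.dual
    ![𝔞, Ideal.span {u₁}, Ideal.span {u₂}] (fun i => by
      fin_cases i
      · exact h𝔞
      · exact fun h0 => h₁ (by rw [Ideal.span_singleton_eq_bot.1 h0, map_zero])
      · exact fun h0 => h₂ (by rw [Ideal.span_singleton_eq_bot.1 h0, map_zero]))
  exact ⟨u₁, u₂, d, h₁, h₂, hu, h⟩

theorem CD.Good.exists_gd [CharZero F] [Algebra.FiniteType F R]
    {c : CD F R K n} {Zd Za : Set R} {r : ℕ} (hc : c.Good (Ideal.span Zd) r) (hr : 0 < r)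
    {u₁ u₂ : R} (h₁ : algebraMap R K u₁ ≠ 0) (h₂ : algebraMap R K u₂ ≠ 0)
    (hu : algebraMap R K u₁ / algebraMap R K u₂ = c.u) {d : ResOut F R K n 3}
    (h : d.Good c.D ![Ideal.span Za, Ideal.span {u₁}, Ideal.span {u₂}]) {t : ℝ≥0}
    (hV : ∀ i, (t : ℝ) * d.af 0 i <
      d.aj i - (((d.af 1 i : ℤ) - d.af 2 i : ℤ) : ℝ) / ((r * c.M : ℕ) : ℝ)) :
    ∃ (N : ℕ) (s : GShp N) (d : GD s K) (D : Fin N → Derivation F (LA K s.ρ) (LA K s.ρ)),
      d.Amb F D ∧ s.r = r ∧ (t : ℝ) * s.N < s.a1 ∧ (∀ w, w ∈ d.T F ↔ ∃ a, inL R K s.ρ a = w) ∧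
      (∀ i, ∃ a ∈ Zd, inL R K s.ρ a = d.dg i) ∧ ∀ i, ∃ a ∈ Za, inL R K s.ρ a = d.ag i := by
  classical
  have hne : ∀ {a : R}, a ≠ 0 → algebraMap R K a ≠ 0 := fun ha =>
    (map_ne_zero_iff _ (IsFractionRing.injective R K)).2 ha
  obtain ⟨M₂, a₁, hM₂, ht, hal⟩ := wg_num t.2 (Nat.mul_pos hr hc.hM) d.aj (d.af 0) d.aF
    (fun i => (d.af 1 i : ℤ) - d.af 2 i) hV
  rw [mul_assoc] at ht hal
  have hN : IsNoetherianRing R := Algebra.FiniteType.isNoetherianRing F R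
  obtain ⟨nd, dg, hdg, hdg'⟩ := wg_gen Zd
  obtain ⟨na, ag, hag, hag'⟩ := wg_gen Za
  obtain ⟨nt, tg, hT, hT'⟩ := wg_tg (F := F) (R := R) (K := K) d.ρ
  choose σ hσ hσ' using h.fg
  obtain ⟨ns, sg, hsg, hsg'⟩ := wg_pad σ
  obtain ⟨no, om, hom, hfin⟩ := h.fin ![a₁, 0, 0]
  have hp : ∀ a, ∏ i, d.fu a i ^ (![a₁, 0, 0] : Fin 3 → ℕ) i = d.fu a 0 ^ a₁ := fun a => by
    simp [Fin.prod_univ_three]
  let a0 : Fin d.m := ⟨0, h.mpos⟩
  choose dx hdx using h.dy a0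
  obtain ⟨D, b, hDb, hdual, hDdet, hDdeg, hJdeg⟩ :=
    wg_dual (fun m _ _ hw => wg_amb_deg c.D m hw) hdx (h.hdet a0)
  have hx : ∀ i l, algebraMap R K (c.x l) ∈ ch F R {(algebraMap R K (c.e i))⁻¹} := fun i l =>
    Algebra.subset_adjoin (Or.inl ⟨_, rfl⟩)
  have hJ : ∀ i, jac c.D (c.z i) ≠ 0 := fun i => wg_jac (hc.het i) (hx i) hc.dual
  set N := r * (c.M * M₂) with hN'
  set ι := inL R K d.ρ with hι
  let G : Fin d.m → (LA K d.ρ)ˣ := fun a => d.Fu a * d.fu a 0 ^ a₁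
  let j : Fin d.m → (LA K d.ρ)ˣ := fun a => d.jac a * (d.jac a0)⁻¹
  let u : (LA K d.ρ)ˣ := (unL d.ρ h₁ * (unL d.ρ h₂)⁻¹) ^ M₂ * (d.jac a0)⁻¹ ^ N
  let eI : Fin c.ne → LA K d.ρ := fun i => algebraMap K (LA K d.ρ) (algebraMap R K (c.e i))⁻¹
  let jE : Fin c.ne → (LA K d.ρ)ˣ := fun i => (d.jac a0 * (unL d.ρ (hJ i) * ∏ e, Xu K e))⁻¹
  let wE : (LA K d.ρ)ˣ := (∏ e, Xu K e)⁻¹ ^ N
  let Z : Set (LA K d.ρ) := Set.range (fun a => (((G a)⁻¹ : (LA K d.ρ)ˣ) : LA K d.ρ)) ∪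
    Set.range (fun a => (j a : LA K d.ρ)) ∪
    Set.range (fun p : Fin d.m × Fin d.μ => (((d.t p.1 p.2)⁻¹ : (LA K d.ρ)ˣ) : LA K d.ρ)) ∪
    Set.range ![(u : LA K d.ρ), ((u⁻¹ : (LA K d.ρ)ˣ) : LA K d.ρ),
      (((unL d.ρ (hne hc.he0))⁻¹ : (LA K d.ρ)ˣ) : LA K d.ρ), (wE : LA K d.ρ)] ∪
    Set.range (fun p : Fin d.m × Fin ns => sg p.1 p.2) ∪ Set.range eI ∪
    Set.range (fun i => (jE i : LA K d.ρ)) ∪
    Set.range fun p : Fin (n + d.ρ) × Fin (n + d.ρ) => b p.1 p.2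
  obtain ⟨g₀, hg₀, hden⟩ := wg_den (F := F) (R := R) (Z := Z) (by
    simp only [Z, Set.finite_union, Set.finite_range, and_self])
  obtain ⟨c₀, hc₀, hc₀'⟩ := exists_denom (R := R) c.D
  have hF0 : ∀ a, d.F a ≠ 0 := fun a h0 => (d.Fu a).ne_zero (by rw [h.hFu, h0, map_zero])
  have hg : algebraMap R K (g₀ * c₀ * ∏ a, d.F a) ≠ 0 :=
    hne (mul_ne_zero (mul_ne_zero hg₀ hc₀) (Finset.prod_ne_zero_iff.2 fun a _ => hF0 a))
  set W := Algebra.adjoin F (Set.range ι ∪ {(((unL d.ρ hg)⁻¹ : (LA K d.ρ)ˣ) : LA K d.ρ)} ∪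
    GD.taus K d.ρ) with hW
  have hW1 : ∀ a, ι a ∈ W := fun a => Algebra.subset_adjoin (Or.inl (Or.inl ⟨a, rfl⟩))
  have hZ : ∀ w ∈ Z, w ∈ W := fun w hw => by
    have h1 := mul_mem (mul_mem (show (((unL d.ρ hg)⁻¹ : (LA K d.ρ)ˣ) : LA K d.ρ) ∈ W from
      Algebra.subset_adjoin (Or.inl (Or.inr rfl))) (hW1 (c₀ * ∏ a, d.F a)))
      (hden w hw W hW1 fun _ hz => Algebra.subset_adjoin (Or.inr hz))
    rwa [mul_assoc, ← mul_assoc (ι _), ← map_mul, mul_comm _ g₀, ← mul_assoc g₀, ← mul_assoc,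
      show ι (g₀ * c₀ * ∏ a, d.F a) = unL d.ρ hg from rfl, Units.inv_mul, one_mul] at h1
  have hE : ∀ m, Pres W (amb c.D (id : Fin d.ρ → Fin d.ρ) m) := wg_amb_pres c.D hg fun i a => by
    obtain ⟨a', ha'⟩ := hc₀' i a
    exact ⟨g₀ * (∏ a, d.F a) * a', by rw [map_mul, map_mul, map_mul, map_mul, ← ha']; ring⟩
  have hWg : Algebra.adjoin F ((Set.range fun i => ι (tg i)) ∪
      {(((unL d.ρ hg)⁻¹ : (LA K d.ρ)ˣ) : LA K d.ρ)} ∪ GD.taus K d.ρ) = W := by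
    rw [hW, Set.union_assoc, Set.union_assoc, hT']
  have hB : ∀ a, Algebra.adjoin F ((Set.range fun i => ι (tg i)) ∪ Set.range (sg a)) = d.B a := by
    intro a
    refine le_antisymm (Algebra.adjoin_le ?_) ((hσ' a).le.trans (Algebra.adjoin_mono
      fun z hz => Or.inr (hsg' a z hz)))
    rintro _ (⟨i, rfl⟩ | ⟨i, rfl⟩)
    · exact h.base a _
    · rcases hsg a i with h0 | h0
      · rw [h0]
        exact zero_mem _
      · exact (hσ' a).ge (Algebra.subset_adjoin h0)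
  have hG : ∀ a, (G a : LA K d.ρ) = ι (d.F a * d.f a 0 ^ a₁) := fun a => by
    rw [map_mul, map_pow, ← h.hFu, ← h.hfu, Units.val_mul, Units.val_pow_eq_pow_val]
  have hf : ∀ a a', ((d.fu a' 0 * (d.fu a 0)⁻¹ : (LA K d.ρ)ˣ) : LA K d.ρ) ∈ d.B a := fun a a' => by
    rw [Units.val_mul, h.hfu a']
    exact h.fgen a 0 _ (h.fmem a' 0)
  have hGG : ∀ a a', G a' * (G a)⁻¹ = d.Fu a' * (d.Fu a)⁻¹ * (d.fu a' 0 * (d.fu a 0)⁻¹) ^ a₁ :=
    fun a a' => by simp only [G, mul_inv, mul_pow, inv_pow]; ac_rfl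
  have hU : ∀ a i {v : R} (hv : algebraMap R K v ≠ 0),
      ![Ideal.span Za, Ideal.span {u₁}, Ideal.span {u₂}] i = Ideal.span {v} →
      As (d.B a) (unL d.ρ hv) (∏ e, d.t a e ^ d.af i e) := fun a i v hv hi => by
    refine As.trans ⟨h.fgen a i v (hi ▸ Ideal.mem_span_singleton_self v), ?_⟩ (h.hf a i)
    obtain ⟨w, hw⟩ := Ideal.mem_span_singleton'.1 (hi ▸ h.fmem a i)
    rw [Units.val_mul, h.hfu, ← hw, map_mul, mul_assoc,
      show inL R K d.ρ v = unL d.ρ hv from rfl, Units.mul_inv, mul_one]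
    exact h.base a w
  have hTm : ∀ a, ι a ∈ Algebra.adjoin F (Set.range fun i => ι (tg i)) := fun a => (hT _).2 ⟨a, rfl⟩
  have hinj : Function.Injective ι :=
    (algebraMap K (LA K d.ρ)).injective.comp (IsFractionRing.injective R K)
  refine ⟨n + d.ρ, ⟨⟨d.m, d.μ, nt, d.m, nd, na, c.ne, r, c.M * M₂, a₁, a0, d.lam, fun i =>
      (N : ℤ) * ((d.aj i : ℤ) - 1) - M₂ * ((d.af 1 i : ℤ) - d.af 2 i) - d.aF i - a₁ * d.af 0 i,
      fun _ => a0⟩, d.ρ, ns, no, d.mv, dx⟩,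
    ⟨⟨fun i => ι (tg i), fun a => G a, fun i => ι (dg i), fun i => ι (ag i), fun i => ι (c.e i),
      unL d.ρ hg, u, unL d.ρ (hne hc.he0), ι c.e2, G, j, d.y, d.t⟩, sg, om, d.v, eI,
      fun i => yL d.ρ (c.z i), jE, fun _ => wE⟩, D, ?_, rfl, ht, hT,
    fun i => ⟨_, hdg i, rfl⟩, fun i => ⟨_, hag i, rfl⟩⟩
  exact
    { hr := hr
      hM := Nat.mul_pos hc.hM hM₂
      hmv := h.hmv
      hal := fun i => by
        have := hal i
        change -(N : ℤ) < (N : ℤ) * ((d.aj i : ℤ) - 1) - M₂ * ((d.af 1 i : ℤ) - d.af 2 i) -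
          d.aF i - a₁ * d.af 0 i
        linarith
      hinj := h.hinj
      ht := h.ht
      dtg := fun i => isDeg_algebraMap (Λ := K) _
      dsg := fun a i => (hsg a i).elim
        (fun h0 => ⟨0, (show IsDeg 0 (sg a i) from h0.symm ▸ isDeg_zero 0)⟩) (hσ a _)
      dom := fun a i => (hom a i).1
      dy := h.dy
      dx := hdx
      dv := h.dv
      du := by
        have h1 : IsDeg 0 ((unL d.ρ h₁ * (unL d.ρ h₂)⁻¹ : (LA K d.ρ)ˣ) : LA K d.ρ) := by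
          have h0 := (isDeg_single (0 : Fin d.ρ → ℤ) (algebraMap R K u₁)).mul
            (isDeg_single 0 (algebraMap R K u₂)⁻¹)
          rw [add_zero] at h0
          exact h0
        have h2 := (h1.pow M₂).mul ((hJdeg.of_mul_eq_one (d.jac a0).inv_mul).pow N)
        rw [smul_zero, zero_add, neg_neg, ← Units.val_pow_eq_pow_val, ← Units.val_pow_eq_pow_val,
          ← Units.val_mul] at h2
        exact h2
      bT := fun a => (hT _).2 ⟨_, (hG a).symm⟩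
      dT := fun i => hTm _
      aT := fun i => hTm _
      eT := fun i => hTm _
      gT := hTm _
      hG := fun a => Submodule.subset_span ⟨a, rfl⟩
      hred := ⟨0, by
        rw [zero_add, pow_one, pow_zero, mul_one]⟩
      hSB := fun a => (Algebra.adjoin_le (by
        rintro _ (⟨i, rfl⟩ | ⟨a', rfl⟩)
        · exact h.base a _
        · change ((G a' * (G a)⁻¹ : (LA K d.ρ)ˣ) : LA K d.ρ) ∈ d.B a
          rw [hGG, Units.val_mul, Units.val_pow_eq_pow_val]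
          exact mul_mem (h.Fdiv a a') (pow_mem (hf a a') _))).trans (hB a).ge
      hBB := fun a a' i => by
        obtain ⟨k, hk⟩ := h.hBB a a' (sg a' i)
          ((hB a').le (Algebra.subset_adjoin (Or.inr ⟨i, rfl⟩)))
        refine ⟨k, (hB a).ge ?_⟩
        change (((G a' * (G a)⁻¹) ^ k : (LA K d.ρ)ˣ) : LA K d.ρ) * sg a' i ∈ d.B a
        rw [hGG, mul_pow, Units.val_mul, mul_right_comm, Units.val_pow_eq_pow_val _ k,
          Units.val_pow_eq_pow_val (_ ^ a₁), Units.val_pow_eq_pow_val _ a₁]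
        rw [Units.val_pow_eq_pow_val] at hk
        exact mul_mem hk (pow_mem (pow_mem (hf a a') _) _)
      hτ := fun a w hw => by
        obtain ⟨k, hk⟩ := h.hτ a w hw
        refine ⟨k, (hB a).ge ?_⟩
        change ι (g₀ * c₀ * ∏ a, d.F a) ^ k * w ∈ d.B a
        rw [← Finset.prod_erase_mul _ _ (Finset.mem_univ a), ← mul_assoc, map_mul, mul_pow,
          mul_assoc, ← h.hFu]
        exact mul_mem (pow_mem (h.base a _) _) hk
      hv := fun a e => ⟨(hB a).ge (h.hv a e).1, (hB a).ge (h.hv a e).2⟩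
      hom := fun a i => (hB a).ge (hom a i).2
      hfin := fun a w hw => wg_span (by
        simp only [hp]
        rw [Set.union_assoc, Algebra.adjoin_union, ← hT']
        rfl) (hfin a w ((hB a).le hw))
      het := fun a => by
        have h1 := h.het a
        rw [← hB a] at h1
        exact h1
      hglue := fun a a' i => (h.hglue a a' i).mono (sup_le_sup (hB a).ge (hB a').ge)
      hj := fun a => (wg_hj (h.hj a) (hU a 1 h₁ rfl) (hU a 2 h₂ rfl) (h.hF a) (h.hf a 0)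
        N M₂ a₁).mono (hB a).ge
      ha := Submodule.span_le.2 (by
        rintro _ ⟨a, rfl⟩
        have h1 := wg_sp ι hTm ag a₁ (a := d.F a * d.f a 0 ^ a₁) (by
          rw [hag']
          exact Ideal.mul_mem_left _ _ (Ideal.pow_mem_pow (h.fmem a 0) _))
        rw [← hG] at h1
        exact h1)
      heI := fun i => by
        change algebraMap K (LA K d.ρ) (algebraMap R K (c.e i)) * algebraMap K (LA K d.ρ) _ = 1
        rw [← map_mul, mul_inv_cancel₀ (hne (hc.he i)), map_one]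
      hetE := fun i => by
        have h1 := wg_etC (ρ := d.ρ) (hc.het i) (hJ i)
        rw [Set.union_assoc, ← hT', ← Set.union_assoc] at h1
        exact h1
      hwE := fun i => by
        have h1 : ∀ S : Subalgebra F (LA K d.ρ), GD.taus K d.ρ ⊆ S →
            ((wE⁻¹ : (LA K d.ρ)ˣ) : LA K d.ρ) ∈ S := fun S hS => by
          simp only [wE, inv_pow, inv_inv, Units.val_pow_eq_pow_val, Units.coe_prod]
          exact pow_mem (prod_mem fun e _ => hS (Or.inl ⟨e, rfl⟩)) _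
        exact h1 _ fun z hz => Algebra.subset_adjoin (Or.inr hz)
      hed := fun i => by
        obtain ⟨k, d₀, hd₀, hk⟩ := hc.hed i
        have h1 := wg_sp ι hTm dg (c.M * M₂) (a := d₀ ^ M₂) (by
          rw [hdg', pow_mul]
          exact Ideal.pow_mem_pow hd₀ _)
        have h2 : u * (jE i)⁻¹ ^ N * wE =
            (unL d.ρ h₁ * (unL d.ρ h₂)⁻¹ * unL d.ρ (hJ i) ^ (r * c.M)) ^ M₂ := by
          simp only [u, jE, wE, inv_inv, mul_pow, inv_pow]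
          rw [← pow_mul, mul_assoc r, ← hN']
          simp only [mul_assoc, inv_mul_cancel_left, mul_inv_cancel, mul_one]
        have h3 : ι (d₀ ^ M₂) = ι (c.e i) ^ (k * M₂) *
            ((u * (jE i)⁻¹ ^ N * wE : (LA K d.ρ)ˣ) : LA K d.ρ) := by
          rw [h2, map_pow, pow_mul, Units.val_pow_eq_pow_val, ← mul_pow]
          congr 1
          rw [hι, inL, RingHom.comp_apply, ← hk, ← hu, div_eq_mul_inv, map_mul, map_mul, map_mul,
            map_pow, map_pow, Units.val_mul, Units.val_mul, Units.val_pow_eq_pow_val]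
          rfl
        rw [h3] at h1
        exact ⟨_, h1⟩
      he1 := by
        have h1 := wg_sp ι hTm c.e 1 (by simpa using hc.he1)
        rw [pow_one] at h1
        exact h1
      he2 := by
        have h1 := wg_sp ι hTm c.e 1 (by simpa using hc.he2)
        rw [pow_one] at h1
        exact h1
      hreg := by
        rintro w hw ⟨v, hv, e⟩
        obtain ⟨w, rfl⟩ := (hT w).1 hw
        obtain ⟨v, rfl⟩ := (hT v).1 hv
        obtain ⟨v', rfl⟩ := hc.hreg w ⟨v, hinj (by rw [map_mul, map_mul]; exact e)⟩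
        exact ⟨1, one_ne_zero, ι v', hTm _, by rw [one_smul, map_mul]; rfl⟩
      wG := fun a => hWg.ge (hZ _ (by simp [Z]))
      wj := fun a => hWg.ge (hZ _ (by simp [Z]))
      wt := fun a i => hWg.ge (hZ _ (Or.inl (Or.inl (Or.inl (Or.inl (Or.inl (Or.inr
        ⟨(a, i), rfl⟩)))))))
      wu := hWg.ge (hZ _ (by simp [Z]))
      wu' := hWg.ge (hZ _ (by simp [Z]))
      we := hWg.ge (hZ _ (by simp [Z]))
      wsg := fun a i => hWg.ge (hZ _ (Or.inl (Or.inl (Or.inl (Or.inr ⟨(a, i), rfl⟩)))))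
      weI := fun i => hWg.ge (hZ _ (by simp [Z]))
      wjE := fun i => hWg.ge (hZ _ (by simp [Z]))
      wwE := fun i => hWg.ge (hZ _ (by simp [Z]))
      wD := fun i w hw => hWg.ge (by
        rw [hDb]
        exact sum_mem fun m _ => mul_mem (hZ _ (Or.inr ⟨(i, m), rfl⟩)) (hE m _ (hWg.le hw)))
      hdet := fun a => by
        change ((d.jac a * (d.jac a0)⁻¹ : (LA K d.ρ)ˣ) : LA K d.ρ) *
          (Matrix.of fun i l => D i (d.y a l)).det = 1
        rw [hDdet, Units.val_mul, mul_assoc, Units.inv_mul_cancel_left, h.hdet]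
      hdetE := fun i => by
        change (jE i : LA K d.ρ) * (Matrix.of fun a l => D a (yL d.ρ (c.z i) l)).det = 1
        rw [hDdet, wg_det]
        exact Units.inv_mul _
      hdual := hdual
      dD := hDdeg }

/-- A model whose log discrepancies are large enough has graded resolution data. -/
theorem Mdl.hasGD_of_out {F P : Type} [Field F] [CharZero F] [CommRing P] [Algebra F P] {n : ℕ}
    {𝔡 : Ideal P} {r : ℕ} (μ : Mdl F P n 𝔡 r) (hr : 0 < r) {𝔞 : Ideal P} {u₁ u₂ : μ.R}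
    (h₁ : algebraMap μ.R μ.K u₁ ≠ 0) (h₂ : algebraMap μ.R μ.K u₂ ≠ 0)
    (hu₀ : algebraMap μ.R μ.K u₁ / algebraMap μ.R μ.K u₂ = μ.c.u) {d₀ : ResOut F μ.R μ.K n 3}
    (h : d₀.Good μ.c.D ![𝔞.map μ.ρ, Ideal.span {u₁}, Ideal.span {u₂}]) {t : ℝ≥0}
    (hV : ∀ i, (t : ℝ) * d₀.af 0 i <
      d₀.aj i - (((d₀.af 1 i : ℤ) - d₀.af 2 i : ℤ) : ℝ) / ((r * μ.c.M : ℕ) : ℝ)) :
    HasGD F μ.f 𝔡 r 𝔞 t := by
  obtain ⟨N, s, d, D, h1, h2, h3, hT, hd, ha⟩ :=
    CD.Good.exists_gd (Zd := μ.ρ '' 𝔡) (Za := μ.ρ '' 𝔞) μ.good hr h₁ h₂ hu₀ h hV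
  let φ : μ.R →ₐ[F] LA μ.K s.ρ :=
    (IsScalarTower.toAlgHom F μ.K (LA μ.K s.ρ)).comp (IsScalarTower.toAlgHom F μ.R μ.K)
  have hinj : Function.Injective φ :=
    (algebraMap μ.K (LA μ.K s.ρ)).injective.comp (IsFractionRing.injective μ.R μ.K)
  obtain ⟨hu, hs, hk⟩ := μ.away
  refine ⟨N, s, μ.K, inferInstance, inferInstance, d, D, φ.comp μ.ρ, h1,
    ⟨fun x => (hT _).2 ⟨μ.ρ x, rfl⟩, ?_, fun w hw => ?_, fun x hx => ?_, fun i => ?_, fun i => ?_⟩,
    h2, h3⟩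
  · obtain ⟨w, hw⟩ := hu.exists_right_inv
    exact ⟨φ w, (hT _).2 ⟨w, rfl⟩, by rw [← map_one φ, ← hw, map_mul]; rfl⟩
  · obtain ⟨a, rfl⟩ := (hT w).1 hw
    obtain ⟨i, x, hx⟩ := hs a
    exact ⟨i, x, ((map_mul φ _ a).trans (by rw [map_pow]; rfl)).symm.trans (congrArg φ hx)⟩
  · obtain ⟨i, hi⟩ := hk x (hinj (hx.trans (map_zero φ).symm))
    exact ⟨1, one_ne_zero, i, by rw [hi, smul_zero]⟩
  · obtain ⟨_, ⟨x, hx, rfl⟩, e⟩ := hd i
    exact ⟨x, hx, e⟩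
  · obtain ⟨_, ⟨x, hx, rfl⟩, e⟩ := ha i
    exact ⟨x, hx, e⟩

end Pool.Agent.Lib.MP_4287a9_ag
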