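import Pool.Agent.Lib.MP_4287a9_ag.St2
import Pool.Agent.Lib.MP_4287a9_ag.ResDiv
import Pool.Agent.Lib.MP_4287a9_ag.ResPrim

/-! Orders of sets along a discrete valuation ring; the divisors of a resolution. -/

namespace Pool.Agent.Lib.MP_4287a9_ag

section Ord

variable {K : Type} [Field K] {O : ValuationSubring K} {π : O}

theorem wv1_ne (hπ : Irreducible π) : (π : K) ≠ 0 := fun h => hπ.ne_zero (Subtype.ext h)

theorem wv1_unit (u : Oˣ) (e : ℤ) : ((u : O) : K) ^ e ∈ O := by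
  have h : ((u : O) : K)⁻¹ = ((u⁻¹ : Oˣ) : O) :=
    inv_eq_of_mul_eq_one_right (congrArg Subtype.val u.mul_inv)
  obtain ⟨j, rfl | rfl⟩ := e.eq_nat_or_neg
  · rw [zpow_natCast]
    exact pow_mem (SetLike.coe_mem _) _
  · rw [zpow_neg, zpow_natCast, ← inv_pow, h]
    exact pow_mem (SetLike.coe_mem _) _

theorem wv1_zpow (hπ : Irreducible π) {e : ℤ} : (π : K) ^ e ∈ O ↔ 0 ≤ e := by
  have h0 := wv1_ne hπ
  refine ⟨fun h => ?_, fun h => ?_⟩
  · by_contra he
    refine hπ.not_isUnit (IsUnit.of_mul_eq_one ⟨(π : K)⁻¹, ?_⟩ (Subtype.ext (mul_inv_cancel₀ h0)))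
    have h1 : (π : K)⁻¹ = (π : K) ^ e * (π : K) ^ (-e - 1).toNat := by
      rw [← zpow_natCast, Int.toNat_of_nonneg (by omega), ← zpow_add₀ h0,
        show e + (-e - 1) = -1 by ring, zpow_neg_one]
    rw [h1]
    exact mul_mem h (pow_mem π.2 _)
  · lift e to ℕ using h
    rw [zpow_natCast]
    exact pow_mem π.2 _

theorem OrdO.mem_iff (hπ : Irreducible π) {y : K} {e : ℤ} (h : OrdO O π y e) {m : ℤ} :
    y * (π : K) ^ (-m) ∈ O ↔ m ≤ e := by
  have h0 := wv1_ne hπ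
  have h1 : y * (π : K) ^ (-m) = y * (π : K) ^ (-e) * (π : K) ^ (e - m) := by
    rw [mul_assoc, ← zpow_add₀ h0, show -e + (e - m) = -m by ring]
  refine ⟨fun h2 => ?_, fun h2 => ?_⟩
  · have h3 := mul_mem h.2.2 h2
    rw [h1, inv_mul_cancel_left₀ (mul_ne_zero h.1 (zpow_ne_zero _ h0)), wv1_zpow hπ] at h3
    omega
  · rw [h1]
    exact mul_mem h.2.1 ((wv1_zpow hπ).2 (by omega))

theorem exists_ordO (hO : IsDiscreteValuationRing O) (hπ : Irreducible π) {y : K} (hy : y ≠ 0) :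
    ∃ e, OrdO O π y e := by
  obtain ⟨e, u, rfl⟩ := IsDiscreteValuationRing.exists_units_eq_smul_zpow_of_irreducible hπ hy
  have h1 : (u • algebraMap O K π ^ e) * (π : K) ^ (-e) = ((u : O) : K) := by
    rw [Units.smul_def, Algebra.smul_def, mul_assoc]
    change ((u : O) : K) * ((π : K) ^ e * _) = _
    rw [← zpow_add₀ (wv1_ne hπ), add_neg_cancel, zpow_zero, mul_one]
  refine ⟨e, hy, ?_, ?_⟩
  · rw [h1]
    exact SetLike.coe_mem _
  · rw [h1, ← zpow_neg_one]
    exact wv1_unit u _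

theorem ordS_eq (hO : IsDiscreteValuationRing O) (hπ : Irreducible π) {Z : Set K} {e : ℤ}
    (h1 : ∀ y ∈ Z, y * (π : K) ^ (-e) ∈ O) (h2 : ∃ y ∈ Z, OrdO O π y e) : ordS O Z = e := by
  refine IsGreatest.csSup_eq ⟨fun π' hπ' y hy => ?_, fun m hm => ?_⟩
  · obtain ⟨u, rfl⟩ := IsDiscreteValuationRing.associated_of_irreducible O hπ hπ'
    have h3 := mul_mem (h1 y hy) (wv1_unit u (-e))
    rwa [mul_assoc, ← mul_zpow, zpow_neg, ← div_eq_mul_inv] at h3
  · obtain ⟨y, hy, h3⟩ := h2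
    refine (h3.mem_iff hπ).1 ?_
    rw [zpow_neg, ← div_eq_mul_inv]
    exact hm π hπ y hy

theorem ordS_single (hO : IsDiscreteValuationRing O) (hπ : Irreducible π) {y : K} {e : ℤ}
    (h : OrdO O π y e) : ordS O {y} = e :=
  ordS_eq hO hπ (fun _ hz => hz ▸ h.2.1) ⟨y, rfl, h⟩

/-- For a set with a nonzero element and a common denominator the order is attained. -/
theorem ordS_spec (hO : IsDiscreteValuationRing O) (hπ : Irreducible π) {Z : Set K}
    (hb : ∃ c : K, c ≠ 0 ∧ ∀ y ∈ Z, c * y ∈ O) (hn : ∃ y ∈ Z, y ≠ 0) :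
    (∀ y ∈ Z, y * (π : K) ^ (-ordS O Z) ∈ O) ∧ ∃ y ∈ Z, OrdO O π y (ordS O Z) := by
  obtain ⟨c, hc, hb⟩ := hb
  obtain ⟨y₀, hy₀, hy₀'⟩ := hn
  obtain ⟨e₀, he₀⟩ := exists_ordO hO hπ hy₀'
  obtain ⟨j, hj⟩ := exists_ordO hO hπ hc
  obtain ⟨e, he, hmax⟩ := Int.exists_greatest_of_bdd
    (P := fun m => ∀ y ∈ Z, y * (π : K) ^ (-m) ∈ O)
    ⟨e₀, fun m hm => (he₀.mem_iff hπ).1 (hm y₀ hy₀)⟩ ⟨-j, fun y hy => by
      have h1 := mul_mem hj.2.2 (hb y hy)
      have h2 : (c * (π : K) ^ (-j))⁻¹ * (c * y) = y * (π : K) ^ (- -j) := by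
        rw [neg_neg, zpow_neg]
        field_simp
      rwa [h2] at h1⟩
  have h1 : ∃ y ∈ Z, OrdO O π y e := by
    by_contra hcon
    have := hmax (e + 1) fun y hy => by
      by_cases h0 : y = 0
      · simp [h0]
      obtain ⟨e', he'⟩ := exists_ordO hO hπ h0
      have h2 := (he'.mem_iff hπ).1 (he y hy)
      have h3 : e ≠ e' := fun h => hcon ⟨y, hy, h ▸ he'⟩
      exact (he'.mem_iff hπ).2 (by omega)
    omega
  rw [ordS_eq hO hπ he h1]
  exact ⟨he, h1⟩

end Ord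

section Jac

variable {k R K : Type} [Field k] [CommRing R] [IsDomain R] [Algebra k R] [Field K] [Algebra k K]
  [Algebra R K] [IsScalarTower k R K] [IsFractionRing R K] {n : ℕ}

theorem IsDiv.exists_denom [Algebra.FiniteType k R] {S : Finset K} {O : ValuationSubring K}
    (h : IsDiv R S O) (D : Fin n → Derivation k K K) :
    ∃ c : K, c ≠ 0 ∧ ∀ i, ∀ z ∈ O, c * D i z ∈ O := by
  obtain ⟨c₀, hc₀, hc⟩ := Res.exists_denom (R := R) D
  obtain ⟨b, hb⟩ := IsLocalization.exist_integer_multiples_of_finite (nonZeroDivisors R)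
    (fun p : Fin n × S => D p.1 p.2)
  have hR : ∀ r : R, algebraMap R K r ∈ O := fun r => h.2.1 _ (algebraMap_mem _ r)
  have h1 : ∀ i, ∀ a ∈ Algebra.adjoin R (S : Set K), algebraMap R K (c₀ * b) * D i a ∈ O := by
    intro i a ha
    induction ha using Algebra.adjoin_induction with
    | mem a ha =>
      obtain ⟨r, hr⟩ := hb (i, ⟨a, ha⟩)
      rw [Algebra.smul_def] at hr
      rw [map_mul, mul_assoc, ← hr]
      exact mul_mem (hR _) (hR _)
    | algebraMap r =>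
      obtain ⟨r', hr⟩ := hc i r
      rw [map_mul, mul_right_comm, hr]
      exact mul_mem (hR _) (hR _)
    | add a a' _ _ ha ha' =>
      rw [map_add, mul_add]
      exact add_mem ha ha'
    | mul a a' h1 h2 ha ha' =>
      rw [Derivation.leibniz, smul_eq_mul, smul_eq_mul, mul_add, mul_left_comm, mul_left_comm _ a']
      exact add_mem (mul_mem (h.2.1 _ h1) ha') (mul_mem (h.2.1 _ h2) ha)
  refine ⟨algebraMap R K (c₀ * b), ?_, fun i z hz => ?_⟩
  · exact (map_ne_zero_iff _ (IsFractionRing.injective R K)).2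
      (mul_ne_zero hc₀ (nonZeroDivisors.ne_zero b.2))
  · obtain ⟨a, ha, ha0, ha1, ha2⟩ := h.2.2 z hz
    have h2 := mul_mem ha1 (sub_mem (h1 i _ ha2) (mul_mem hz (h1 i _ ha)))
    rw [Derivation.leibniz, smul_eq_mul, smul_eq_mul] at h2
    convert h2 using 1
    field_simp
    ring

theorem IsDiv.jacs_denom [Algebra.FiniteType k R] {S : Finset K} {O : ValuationSubring K}
    (h : IsDiv R S O) (D : Fin n → Derivation k K K) :
    ∃ c : K, c ≠ 0 ∧ ∀ y ∈ jacs D O, c * y ∈ O := by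
  obtain ⟨c, hc, h1⟩ := h.exists_denom D
  refine ⟨c ^ n, pow_ne_zero _ hc, ?_⟩
  rintro _ ⟨z, hz, rfl⟩
  have h2 := Matrix.det_smul (Matrix.of fun i l => D i (z l)) c
  rw [Fintype.card_fin] at h2
  rw [← h2, Matrix.det_apply']
  exact sum_mem fun σ _ => mul_mem (intCast_mem _ _) (prod_mem fun l _ => h1 _ _ (hz l))

theorem wv1_tr {x : Fin n → R} (hx : ∀ r : R, IsIntegral (Algebra.adjoin k (Set.range x)) r)
    (w : Fin (n + 1) → K) : ¬ AlgebraicIndependent k w := by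
  intro hw
  have h1 : Algebra.IsAlgebraic (Algebra.adjoin k (Set.range x)) R := ⟨fun r => (hx r).isAlgebraic⟩
  have h2 := Algebra.IsAlgebraic.trdeg_le_cardinalMk k (Set.range x)
  have h3 : Algebra.IsAlgebraic R K := IsLocalization.isAlgebraic K (nonZeroDivisors R)
  have h4 : FaithfulSMul R K := (faithfulSMul_iff_algebraMap_injective R K).2
    (IsFractionRing.injective R K)
  have h5 := trdeg_add_eq k R (A := K)
  rw [trdeg_eq_zero (R := R), add_zero] at h5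
  have h6 := hw.cardinalMk_le_trdeg.trans (h5.ge.trans (h2.trans Cardinal.mk_range_le))
  simp only [Cardinal.mk_fin, Nat.cast_le] at h6
  omega

/-- The divisor of a label: orders of the principalized ideals and of the Jacobian. -/
theorem ResOut.Good.exists_isDiv [CharZero k] [Algebra.FiniteType k R] {s : ℕ} {x : Fin n → R}
    (hx : ∀ r : R, IsIntegral (Algebra.adjoin k (Set.range x)) r)
    {D₀ : Fin n → Derivation k K K}
    (hD : ∀ a b, D₀ a (algebraMap R K (x b)) = if a = b then 1 else 0)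
    {d : ResOut k R K n s} {𝔞 : Fin s → Ideal R} (h : d.Good D₀ 𝔞) (i : Fin d.μ) :
    ∃ (S : Finset K) (O : ValuationSubring K) (m : ℕ), IsDiv R S O ∧ 0 < m ∧
      (∀ j, (m : ℤ) * ordS O (algebraMap R K '' 𝔞 j) = d.af j i) ∧
      (m : ℤ) * (1 - ordS O (jacs D₀ O)) ≤ d.aj i := by
  obtain ⟨O, π, m, b, hO, hπ, hm, hR, ⟨S, hS, hS'⟩, -, hb, hJ⟩ := h.exists_div (wv1_tr hx) i
  have hdiv : IsDiv R S O := ⟨hO, fun a ha => by
    induction ha using Algebra.adjoin_induction with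
    | mem a ha => exact hS a ha
    | algebraMap r => exact hR r
    | add a a' _ _ ha ha' => exact add_mem ha ha'
    | mul a a' _ _ ha ha' => exact mul_mem ha ha', hS'⟩
  refine ⟨S, O, m, hdiv, hm, fun j => ?_, ?_⟩
  · obtain ⟨h1, ⟨g, hg, h2⟩, h3⟩ := hb j
    rw [ordS_eq hO hπ (Z := algebraMap R K '' 𝔞 j) (e := b j)
      (by rintro _ ⟨r, hr, rfl⟩; exact h3 r hr) ⟨_, ⟨g, hg, rfl⟩, h2⟩]
    exact_mod_cast h1
  · obtain ⟨-, _, ⟨z, hz, rfl⟩, h1⟩ := ordS_spec hO hπ (hdiv.jacs_denom D₀)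
      ⟨_, ⟨fun l => algebraMap R K (x l), fun l => hR _, rfl⟩, by
        have : (Matrix.of fun a l => D₀ a (algebraMap R K (x l))) = 1 := by
          ext a l
          rw [Matrix.of_apply, hD, Matrix.one_apply]
        rw [this, Matrix.det_one]
        exact one_ne_zero⟩
    exact hJ z _ hz h1

end Jac

end Pool.Agent.Lib.MP_4287a9_ag
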