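import Pool.Agent.Lib.MP_4287a9_ag.D5
import Pool.Agent.Lib.MP_4287a9_ag.WV0

/-!
Orders along a discrete valuation ring.
-/

open scoped TensorProduct ENNReal NNReal nonZeroDivisors Polynomial
open Filter

namespace Pool.Agent.Lib.MP_4287a9_ag

noncomputable section

variable {K : Type} [Field K] {O : ValuationSubring K}

theorem ordS_congr {Z Z' : Set K}
    (h : ∀ c : K, (∀ y ∈ Z, y / c ∈ O) ↔ ∀ y ∈ Z', y / c ∈ O) : ordS O Z = ordS O Z' := by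
  unfold ordS
  simp only [h]

theorem ordS_eq_of_gen {Z : Set K} {y : K} (hy : y ∈ Z) (h : ∀ z ∈ Z, z / y ∈ O) (h0 : y ≠ 0) :
    ordS O Z = ordS O {y} := by
  refine ordS_congr fun c => ⟨fun h1 z hz => hz ▸ h1 y hy, fun h1 z hz => ?_⟩
  have h2 := mul_mem (h z hz) (h1 y rfl)
  rwa [div_mul_div_cancel₀ h0] at h2

/-- `y = π ^ e * unit`. -/
theorem ordS_eq_of_unit (hO : IsDiscreteValuationRing O) {π : O} (hπ : Irreducible π) {y : K}
    {e : ℤ} (h0 : y ≠ 0) (h1 : y / (π : K) ^ e ∈ O) (h2 : (π : K) ^ e / y ∈ O) :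
    ordS O {y} = e := by
  refine ordS_single hO hπ ⟨h0, ?_, ?_⟩
  · rwa [zpow_neg, ← div_eq_mul_inv]
  · rwa [zpow_neg, ← div_eq_mul_inv, inv_div]

theorem div_zpow_ordS_mem (hO : IsDiscreteValuationRing O) {π : O} (hπ : Irreducible π) {y : K}
    (h0 : y ≠ 0) : y / (π : K) ^ ordS O {y} ∈ O ∧ (π : K) ^ ordS O {y} / y ∈ O := by
  obtain ⟨e, he⟩ := exists_ordO hO hπ h0
  rw [ordS_single hO hπ he]
  obtain ⟨-, h1, h2⟩ := he
  rw [zpow_neg, ← div_eq_mul_inv] at h1 h2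
  rw [inv_div] at h2
  exact ⟨h1, h2⟩

theorem ordS_mul (hO : IsDiscreteValuationRing O) {y z : K} (hy : y ≠ 0) (hz : z ≠ 0) :
    ordS O {y * z} = ordS O {y} + ordS O {z} := by
  obtain ⟨π, hπ⟩ := IsDiscreteValuationRing.exists_irreducible O
  have h1 := div_zpow_ordS_mem hO hπ hy
  have h2 := div_zpow_ordS_mem hO hπ hz
  refine ordS_eq_of_unit hO hπ (mul_ne_zero hy hz) ?_ ?_
  · rw [zpow_add₀ (wv1_ne hπ), mul_div_mul_comm]
    exact mul_mem h1.1 h2.1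
  · rw [zpow_add₀ (wv1_ne hπ), mul_div_mul_comm]
    exact mul_mem h1.2 h2.2

theorem ordS_zpow (hO : IsDiscreteValuationRing O) {y : K} (hy : y ≠ 0) (e : ℤ) :
    ordS O {y ^ e} = e * ordS O {y} := by
  obtain ⟨π, hπ⟩ := IsDiscreteValuationRing.exists_irreducible O
  obtain ⟨h1, h2⟩ := div_zpow_ordS_mem hO hπ hy
  have key : ∀ {a b : K}, a / b ∈ O → b / a ∈ O → a ^ e / b ^ e ∈ O := fun {a b} h3 h4 => by
    rw [← div_zpow]
    obtain ⟨j, rfl | rfl⟩ := e.eq_nat_or_neg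
    · rw [zpow_natCast]
      exact pow_mem h3 j
    · rw [zpow_neg, zpow_natCast, ← inv_pow, inv_div]
      exact pow_mem h4 j
  refine ordS_eq_of_unit hO hπ (zpow_ne_zero _ hy) ?_ ?_
  · rw [mul_comm, zpow_mul]
    exact key h1 h2
  · rw [mul_comm, zpow_mul]
    exact key h2 h1

theorem ordS_le_iff (hO : IsDiscreteValuationRing O) {y z : K} (hy : y ≠ 0) (hz : z ≠ 0) :
    ordS O {y} ≤ ordS O {z} ↔ z / y ∈ O := by
  obtain ⟨π, hπ⟩ := IsDiscreteValuationRing.exists_irreducible O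
  obtain ⟨e, he⟩ := exists_ordO hO hπ hy
  obtain ⟨e', he'⟩ := exists_ordO hO hπ hz
  rw [ordS_single hO hπ he, ordS_single hO hπ he', ← he'.mem_iff hπ]
  refine ⟨fun h => ?_, fun h => ?_⟩
  · have h1 := mul_mem h he.2.2
    rwa [← div_eq_mul_inv, mul_div_mul_right _ _ (zpow_ne_zero _ (wv1_ne hπ))] at h1
  · have h1 := mul_mem h he.2.1
    rwa [← mul_assoc, div_mul_cancel₀ _ hy] at h1

theorem ordS_nonneg_iff (hO : IsDiscreteValuationRing O) {y : K} (hy : y ≠ 0) :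
    0 ≤ ordS O {y} ↔ y ∈ O := by
  obtain ⟨π, hπ⟩ := IsDiscreteValuationRing.exists_irreducible O
  obtain ⟨e, he⟩ := exists_ordO hO hπ hy
  rw [ordS_single hO hπ he, ← he.mem_iff hπ]
  simp

/-- An element of least order. -/
theorem exists_gen (hO : IsDiscreteValuationRing O) {Z : Set K} {c : K} (hc : c ≠ 0)
    (hb : ∀ z ∈ Z, z / c ∈ O) (h0 : ∃ z ∈ Z, z ≠ 0) :
    ∃ y ∈ Z, y ≠ 0 ∧ ∀ z ∈ Z, z / y ∈ O := by
  obtain ⟨π, hπ⟩ := IsDiscreteValuationRing.exists_irreducible O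
  obtain ⟨h1, y, hy, h2⟩ := ordS_spec hO hπ
    ⟨c⁻¹, inv_ne_zero hc, fun z hz => by rw [inv_mul_eq_div]; exact hb z hz⟩ h0
  refine ⟨y, hy, h2.1, fun z hz => ?_⟩
  have h3 := mul_mem (h1 z hz) h2.2.2
  rwa [← div_eq_mul_inv, mul_div_mul_right _ _ (zpow_ne_zero _ (wv1_ne hπ))] at h3

theorem ordS_zero (hO : IsDiscreteValuationRing O) {Z : Set K} (h : ∀ z ∈ Z, z = 0) :
    ordS O Z = 0 := by
  have h1 : {m : ℤ | ∀ π : O, Irreducible π → ∀ y ∈ Z, y / (π : K) ^ m ∈ O} = Set.univ :=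
    Set.eq_univ_of_forall fun m π _ y hy => by simp [h y hy]
  rw [ordS, h1]
  exact Int.csSup_of_not_bddAbove not_bddAbove_univ

theorem ordS_map {P R : Type} [CommRing P] [CommRing R] [Algebra R K]
    (hR : ∀ a : R, algebraMap R K a ∈ O) (ρ : P →+* R) (𝔞 : Ideal P) :
    ordS O (algebraMap R K '' (𝔞.map ρ)) = ordS O ((fun x => algebraMap R K (ρ x)) '' 𝔞) := by
  refine ordS_congr fun c => ⟨fun h => ?_, fun h => ?_⟩
  · rintro _ ⟨x, hx, rfl⟩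
    exact h _ ⟨_, Ideal.mem_map_of_mem ρ hx, rfl⟩
  · rintro _ ⟨a, ha, rfl⟩
    induction ha using Submodule.span_induction with
    | mem a ha =>
      obtain ⟨x, hx, rfl⟩ := ha
      exact h _ ⟨x, hx, rfl⟩
    | zero => simp
    | add a b _ _ ha hb =>
      rw [map_add, add_div]
      exact add_mem ha hb
    | smul r a _ ha =>
      rw [smul_eq_mul, map_mul, mul_div_assoc]
      exact mul_mem (hR r) ha

theorem IsDiv.base {R : Type} [CommRing R] [Algebra R K] {S : Finset K} (h : IsDiv R S O) (a : R) :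
    algebraMap R K a ∈ O := by
  exact h.2.1 _ (algebraMap_mem _ a)

theorem IsDiv.ordS_top {R : Type} [CommRing R] [Algebra R K] {S : Finset K} (h : IsDiv R S O) :
    ordS O (algebraMap R K '' (⊤ : Ideal R)) = 0 := by
  have := h.1
  obtain ⟨π, hπ⟩ := IsDiscreteValuationRing.exists_irreducible O
  refine ordS_eq h.1 hπ ?_ ⟨1, ⟨1, trivial, map_one _⟩, one_ne_zero, by simp, by simp⟩
  rintro _ ⟨a, -, rfl⟩
  simpa using h.base a

theorem KltV.mono {k A : Type} [Field k] [CommRing A] [IsDomain A] [Algebra k A] {n : ℕ}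
    {m 𝔡 𝔞 𝔞' : Ideal A} {r : ℕ} {t : ℝ≥0} (h0 : 𝔞 ≠ ⊥) (ha : 𝔞 ≤ 𝔞')
    (h : KltV k n m 𝔡 r 𝔞 t) : KltV k n m 𝔡 r 𝔞' t := by
  obtain ⟨s, M, u, D, h1, h2, h3, h4, h5, h6⟩ := h
  refine ⟨s, M, u, D, h1, h2, h3, h4, h5, fun S O hO hs => lt_of_le_of_lt ?_ (h6 S O hO hs)⟩
  refine mul_le_mul_of_nonneg_left (Int.cast_le.2 ?_) t.2
  obtain ⟨a, ha1, ha2⟩ := (Submodule.ne_bot_iff _).1 h0
  have h7 : algebraMap A (FractionRing A) a ≠ 0 :=
    (map_ne_zero_iff _ (IsFractionRing.injective A _)).2 ha2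
  have h8 : ∀ I : Ideal A, ∀ z ∈ algebraMap A (FractionRing A) '' I, z / 1 ∈ O := by
    rintro I _ ⟨b, -, rfl⟩
    simpa using hO.base b
  obtain ⟨y, hy, hy0, hy1⟩ := exists_gen hO.1 one_ne_zero (h8 𝔞) ⟨_, ⟨a, ha1, rfl⟩, h7⟩
  obtain ⟨y', hy', hy0', hy1'⟩ := exists_gen hO.1 one_ne_zero (h8 𝔞') ⟨_, ⟨a, ha ha1, rfl⟩, h7⟩
  rw [ordS_eq_of_gen hy hy1 hy0, ordS_eq_of_gen hy' hy1' hy0', ordS_le_iff hO.1 hy0' hy0]
  exact hy1' y (Set.image_mono ha hy)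

end

end Pool.Agent.Lib.MP_4287a9_ag
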