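import Pool.Agent.Lib.MP_4287a9_ag.WVa
import Pool.Agent.Lib.MP_4287a9_ag.WOrd
import Pool.Agent.Lib.MP_4287a9_ag.H0a
import Pool.Agent.Lib.MP_4287a9_ag.EtA
import Pool.Agent.Lib.MP_4287a9_ag.ResDv3

/-!
Etale charts at divisorial valuations and Jacobian determinants.
-/

open scoped TensorProduct ENNReal NNReal nonZeroDivisors Polynomial
open Filter

namespace Pool.Agent.Lib.MP_4287a9_ag

noncomputable section

variable {F R K : Type} [Field F] [CharZero F] [CommRing R] [IsDomain R] [Field K] [Algebra F R]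
  [Algebra F K] [Algebra R K] [IsScalarTower F R K] [IsFractionRing R K] [Algebra.FiniteType F R]
  {n : ℕ} {x : Fin n → R} {D : Fin n → Derivation F K K}

omit [CharZero F] [IsDomain R] [IsFractionRing R K] [Algebra.FiniteType F R] in
theorem wvb_ch (S : Set K) (a : K) : a ∈ ch F R S ↔ a ∈ Algebra.adjoin R S := by
  refine ⟨fun ha => ?_, fun ha => ?_⟩
  · refine (Algebra.adjoin_le ?_ : ch F R S ≤ (Algebra.adjoin R S).restrictScalars F) ha
    rintro _ (⟨r, rfl⟩ | h)
    · exact algebraMap_mem (Algebra.adjoin R S) r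
    · exact Algebra.subset_adjoin h
  · induction ha using Algebra.adjoin_induction with
    | mem a ha => exact Algebra.subset_adjoin (Or.inr ha)
    | algebraMap r => exact Algebra.subset_adjoin (Or.inl ⟨r, rfl⟩)
    | add a a' _ _ ha ha' => exact add_mem ha ha'
    | mul a a' _ _ ha ha' => exact mul_mem ha ha'

/-- `K` is algebraic over `F[x]`. -/
theorem not_indep_of_int (hx : ∀ a : R, IsIntegral (Algebra.adjoin F (Set.range x)) a)
    (w : Fin (n + 1) → K) : ¬ AlgebraicIndependent F w := by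
  exact wv1_tr hx w

/-- A derivation of `K` that kills `x` vanishes. -/
theorem deriv_eq_zero_of_int (hx : ∀ a : R, IsIntegral (Algebra.adjoin F (Set.range x)) a)
    (E : Derivation F K K) (h : ∀ l, E (algebraMap R K (x l)) = 0) : E = 0 := by
  have h0 : ∀ c : Algebra.adjoin F (Set.range x), E (algebraMap R K c) = 0 := by
    rintro ⟨c, hc⟩
    induction hc using Algebra.adjoin_induction with
    | mem c hc =>
      obtain ⟨l, rfl⟩ := hc
      exact h l
    | algebraMap c =>
      change E (algebraMap R K (algebraMap F R c)) = 0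
      rw [← IsScalarTower.algebraMap_apply, Derivation.map_algebraMap]
    | add a b _ _ ha hb =>
      change E (algebraMap R K (a + b)) = 0
      rw [map_add, map_add, ha, hb, add_zero]
    | mul a b _ _ ha hb =>
      change E (algebraMap R K (a * b)) = 0
      rw [map_mul, Derivation.leibniz, ha, hb, smul_zero, smul_zero, add_zero]
  have h1 : ∀ a : R, E (algebraMap R K a) = 0 := fun a => by
    obtain ⟨p, hp, hp'⟩ := hx a
    have : CharZero (Algebra.adjoin F (Set.range x)) :=
      charZero_of_injective_algebraMap (algebraMap F _).injective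
    let φ := (algebraMap R K).comp (algebraMap (Algebra.adjoin F (Set.range x)) R)
    obtain ⟨q, hq, hq'⟩ := wva_rel φ ⊥
      (fun b hb => Subtype.ext (IsFractionRing.injective R K (hb.trans (map_zero _).symm)))
      (algebraMap R K a) hp.ne_zero (by rw [← Polynomial.hom_eval₂, hp', map_zero]; rfl)
    have h2 := wva_eval E φ h0 (algebraMap R K a) q
    rw [Ideal.mem_bot.1 hq, map_zero, smul_eq_mul] at h2
    exact (mul_eq_zero.1 h2.symm).resolve_left hq'
  ext z
  obtain ⟨a, b, -, rfl⟩ := IsFractionRing.div_surjective (A := R) z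
  rw [Derivation.leibniz_div, h1, h1]
  simp

/-- `exists_unr_chart` for `S₀ = ch F R S`. `d + 1 ≤ n` by `not_indep_of_int`. A combination of
the `D i` that kills `y` vanishes on the chart, hence is trivial (`hD`); so `n ≤ d + 1` and the
matrix `D i (y l)` is invertible. `exists_dual`, `Res.etC_of_unr`. -/
theorem IsDiv.exists_chart (hx : ∀ a : R, IsIntegral (Algebra.adjoin F (Set.range x)) a)
    (hD : DualD D fun l => algebraMap R K (x l)) {S : Finset K} {O : ValuationSubring K}
    (h : IsDiv R S O) :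
    ∃ (e : K) (z : Fin n → K) (l0 : Fin n) (π : O), e ∈ Algebra.adjoin R (S : Set K) ∧ e ≠ 0 ∧
      e⁻¹ ∈ O ∧ EtC (ch F R ((S : Set K) ∪ {e⁻¹})) z ∧ Irreducible π ∧ z l0 = π := by
  have h1 : ∀ a, a ∈ ch F R (S : Set K) ↔ a ∈ Algebra.adjoin R (S : Set K) := wvb_ch _
  obtain ⟨l₀, z, e, π, h2, h3, -, h4, h5, h6, h7, -⟩ := wva_chart (wv1_tr hx) (D := D)
    (x := fun l => algebraMap R K (x l)) (by
      rw [show (Matrix.of fun i l => D i (algebraMap R K (x l))) = 1 from
        Matrix.ext fun i l => hD i l, Matrix.det_one]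
      exact one_ne_zero) (A := ch F R (S : Set K)) (by
      classical
      obtain ⟨σ, hσ⟩ := Algebra.FiniteType.out (R := F) (A := R)
      have h2 := Algebra.adjoin_image F (IsScalarTower.toAlgHom F R K) (σ : Set R)
      have h3 := Algebra.adjoin_image F (IsScalarTower.toAlgHom F R K) Set.univ
      rw [hσ] at h2
      rw [Algebra.adjoin_univ, Set.image_univ, ← h2] at h3
      refine ⟨σ.image (algebraMap R K) ∪ S, ?_⟩
      rw [ch, Finset.coe_union, Finset.coe_image, Algebra.adjoin_union, Algebra.adjoin_union]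
      exact congrArg (· ⊔ _) h3.symm) h.1 (fun a ha => h.2.1 a ((h1 a).1 ha)) fun z hz => by
      obtain ⟨b, hb, hb0, hb1, hb2⟩ := h.2.2 z hz
      exact ⟨b, (h1 _).2 hb, hb0, hb1, (h1 _).2 hb2⟩
  refine ⟨e, z, l₀, π, (h1 e).1 h4, h5, h6, ?_, h2, h3⟩
  rwa [ch, Algebra.adjoin_union, Algebra.adjoin_eq, ← Algebra.adjoin_union, Set.union_assoc] at h7

/-- `EtC.exists_chain` for the `x l`. -/
theorem jac_ne_zero (hD : DualD D fun l => algebraMap R K (x l)) {S : Set K} {z : Fin n → K}
    (h : EtC (ch F R S) z) : jac D z ≠ 0 := by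
  choose c _ hc using fun l => h.exists_chain
    (show algebraMap R K (x l) ∈ ch F R S from Algebra.subset_adjoin (Or.inl ⟨_, rfl⟩))
  have h1 : (Matrix.of fun i l => D i (z l)) * (Matrix.of fun j l => c l j) = 1 := by
    ext i l
    rw [Matrix.one_apply, ← hD i l, hc l, Matrix.mul_apply]
    exact Finset.sum_congr rfl fun j _ => mul_comm _ _
  exact (Matrix.isUnit_det_of_right_inverse h1).ne_zero

/-- `EtC.exists_chain` extends to fractions `a / b` with `b` a unit of `O`. -/
theorem jac_div_mem {S' : Subalgebra F K} {z : Fin n → K} (h : EtC S' z) (h0 : jac D z ≠ 0)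
    {O : ValuationSubring K} (hle : ∀ a ∈ S', a ∈ O)
    (hloc : ∀ w ∈ O, ∃ b ∈ S', b ≠ 0 ∧ b⁻¹ ∈ O ∧ b * w ∈ S') {w : Fin n → K}
    (hw : ∀ l, w l ∈ O) : jac D w / jac D z ∈ O := by
  choose c hc hc' using fun l => wva_chain h hle hloc (hw l)
  have h1 : (Matrix.of fun i l => D i (w l)) =
      (Matrix.of fun i l => D i (z l)) * Matrix.of fun j l => c l j := by
    ext i l
    simp [Matrix.mul_apply, hc' l]
  rw [jac, h1, Matrix.det_mul, ← jac, mul_div_cancel_left₀ _ h0, Matrix.det_apply']
  exact sum_mem fun σ _ => mul_mem (intCast_mem _ _) (prod_mem fun l _ => hc _ _)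

theorem IsDiv.ordS_jacs (hD : DualD D fun l => algebraMap R K (x l)) {S : Finset K}
    {O : ValuationSubring K} (h : IsDiv R S O) {S' : Set K} (hS : (S : Set K) ⊆ ch F R S')
    (hS' : ∀ a ∈ S', a ∈ O) {z : Fin n → K} (hz : EtC (ch F R S') z) :
    ordS O (jacs D O) = ordS O {jac D z} := by
  have h1 : ∀ a ∈ ch F R S', a ∈ O := fun a ha => by
    induction ha using Algebra.adjoin_induction with
    | mem a ha => exact ha.elim (fun ⟨r, hr⟩ => hr ▸ h.base r) (hS' a)
    | algebraMap c =>
      rw [IsScalarTower.algebraMap_apply F R K]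
      exact h.base _
    | add a a' _ _ ha ha' => exact add_mem ha ha'
    | mul a a' _ _ ha ha' => exact mul_mem ha ha'
  have h2 : ch F R (S : Set K) ≤ ch F R S' := Algebra.adjoin_le
    (Set.union_subset (fun a ha => Algebra.subset_adjoin (Or.inl ha)) hS)
  have h0 := jac_ne_zero hD hz
  refine ordS_eq_of_gen ⟨z, fun l => h1 _ (hz.mem l), rfl⟩ ?_ h0
  rintro _ ⟨w, hw, rfl⟩
  refine jac_div_mem hz h0 h1 (fun a ha => ?_) hw
  obtain ⟨b, hb, hb0, hb1, hb2⟩ := h.2.2 a ha
  exact ⟨b, h2 ((wvb_ch _ _).2 hb), hb0, hb1, h2 ((wvb_ch _ _).2 hb2)⟩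

end

end Pool.Agent.Lib.MP_4287a9_ag
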