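import Pool.Agent.Lib.MP_4287a9_ag.WGc
import Pool.Agent.Lib.MP_4287a9_ag.WVb

/-!
Graded data from the valuative condition.
-/

open scoped TensorProduct ENNReal NNReal nonZeroDivisors Polynomial
open Filter

namespace Pool.Agent.Lib.MP_4287a9_ag

noncomputable section

variable {F P : Type} [Field F] [CharZero F] [CommRing P] [Algebra F P] [Algebra.FiniteType F P]
  {n r : ℕ} {𝔡 : Ideal P}

/-- `exists_res` for `(un), (ud), 𝔞`; by `label`, `α i = N (aj i - 1) - af 0 i + af 1 i` satisfies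
`-1 < α i / N - t * af 2 i`; `twist_num`, `hasGD_of_res`. -/
theorem Mdl.VK.hasGD (hr : 0 < r) {μ : Mdl F P n 𝔡 r} {𝔞 : Ideal P} (h0 : 𝔞.map μ.ρ ≠ ⊥)
    {t : ℝ≥0} (h : μ.VK 𝔞 t) : HasGD F μ.f 𝔡 r 𝔞 t := by
  obtain ⟨u₁, u₂, d, h₁, h₂, hu, hd⟩ := μ.good.exists_out h0
  exact μ.hasGD_of_out hr h₁ h₂ hu hd (wg_ineq μ.good h h₁ h₂ hu hd)

/-- The same, with finitely many strict inequalities `-1 < α i / N`. -/
theorem Mdl.VK.exists_eps (hr : 0 < r) {μ : Mdl F P n 𝔡 r} (h : μ.VK ⊤ 0) {𝔞 : Ideal P}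
    (h0 : 𝔞.map μ.ρ ≠ ⊥) : ∃ ε : ℝ≥0, 0 < ε ∧ HasGD F μ.f 𝔡 r 𝔞 ε := by
  obtain ⟨u₁, u₂, d, h₁, h₂, hu, hd⟩ := μ.good.exists_out h0
  have h1 := wg_ineq (t := 0) μ.good (fun S O hO => by simpa using h S O hO) h₁ h₂ hu hd
  have h2 : ∀ i, ∀ᶠ ε : ℝ≥0 in nhds 0, (ε : ℝ) * d.af 0 i <
      d.aj i - (((d.af 1 i : ℤ) - d.af 2 i : ℤ) : ℝ) / ((r * μ.c.M : ℕ) : ℝ) := fun i =>
    (NNReal.continuous_coe.mul continuous_const).continuousAt.eventually_lt continuousAt_const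
      (h1 i)
  obtain ⟨ε, h3, h4⟩ := (((Filter.eventually_all.2 h2).filter_mono
    (nhdsWithin_le_nhds (s := Set.Ioi 0))).and self_mem_nhdsWithin).exists
  exact ⟨ε, h4, μ.hasGD_of_out hr h₁ h₂ hu hd h3⟩

/-- Otherwise `R` is algebraic over `F`, and `D i (x i) = 0`. -/
theorem Mdl.map_ne_bot (hn : 1 ≤ n) (μ : Mdl F P n 𝔡 r) {m 𝔞 : Ideal P} (hm : m.IsMaximal) {N : ℕ}
    (h : m ^ N ≤ 𝔞) : 𝔞.map μ.ρ ≠ ⊥ := by
  intro h0
  have h1 : m ≤ RingHom.ker μ.ρ := fun a ha => by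
    have h2 := Ideal.mem_map_of_mem μ.ρ (h (Ideal.pow_mem_pow ha N))
    rw [h0, Ideal.mem_bot, map_pow] at h2
    exact eq_zero_of_pow_eq_zero h2
  let ψ : (P ⧸ m) →ₐ[F] μ.R := Ideal.Quotient.liftₐ m μ.ρ fun a ha => h1 ha
  let _ := Ideal.Quotient.field m
  have h2 : Module.Finite F (P ⧸ m) := finite_of_finite_type_of_isJacobsonRing F _
  have h3 : ∀ x, IsIntegral F (μ.ρ x) := fun x =>
    (Algebra.IsIntegral.isIntegral (R := F) (Ideal.Quotient.mk m x)).map ψ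
  obtain ⟨hu, hs, -⟩ := μ.away
  have h4 : ∀ a : μ.R, IsAlgebraic F a := fun a => by
    obtain ⟨i, x, hx⟩ := hs a
    refine IsAlgebraic.of_mul (mem_nonZeroDivisors_of_ne_zero (hu.pow i).ne_zero)
      ((h3 μ.f).pow i).isAlgebraic ?_
    rw [hx]
    exact (h3 x).isAlgebraic
  have h5 := Res.aeval_injective_of_dual μ.good.dual
  exact (show AlgebraicIndependent F _ from h5).transcendental ⟨0, hn⟩ (h4 _).algebraMap

end

end Pool.Agent.Lib.MP_4287a9_ag
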