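import Pool.Agent.Lib.MP_4287a9_ag.D5
import Pool.Agent.Lib.MP_4287a9_ag.P1a

/-!
Cartier maps on a ring and on its localizations.
-/

open scoped TensorProduct ENNReal NNReal nonZeroDivisors Polynomial
open Filter

namespace Pool.Agent.Lib.MP_4287a9_ag

noncomputable section

/-- The monomials with exponents `< q` in generators of `S`; `κ` is perfect. -/
theorem ffin_of_finiteType {p : ℕ} [Fact p.Prime] (κ S : Type) [Field κ] [Finite κ] [CharP κ p]
    [CommRing S] [Algebra κ S] [Algebra.FiniteType κ S] (e : ℕ) : FFin (p ^ e) S := by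
  rcases subsingleton_or_nontrivial S with hS | hS
  · exact ⟨0, Fin.elim0, fun f => ⟨Fin.elim0, Subsingleton.elim _ _⟩⟩
  have : CharP S p := charP_of_injective_algebraMap (algebraMap κ S).injective p
  have h1 : (iterateFrobenius S p e).IsIntegral := by
    intro x
    refine ⟨Polynomial.X ^ (p ^ e) - Polynomial.C x,
      Polynomial.monic_X_pow_sub_C x (pow_pos (Fact.out : p.Prime).pos e).ne', ?_⟩
    simp [iterateFrobenius_def]
  have h2 : (iterateFrobenius S p e).FiniteType := by
    apply RingHom.FiniteType.of_comp_finiteType (f := algebraMap κ S)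
    have e1 : (iterateFrobenius S p e).comp (algebraMap κ S) =
        (algebraMap κ S).comp (iterateFrobenius κ p e) := by
      ext x
      simp [iterateFrobenius_def]
    rw [e1]
    refine RingHom.FiniteType.comp (RingHom.finiteType_algebraMap.2 inferInstance)
      (RingHom.FiniteType.of_surjective _ ?_)
    exact Finite.surjective_of_injective (iterateFrobenius κ p e).injective
  have h3 := h1.to_finite h2
  obtain ⟨n, ω, hω⟩ :=
    @Module.Finite.exists_fin S S _ _ (iterateFrobenius S p e).toAlgebra.toModule h3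
  refine ⟨n, ω, fun f => ?_⟩
  have hf := (@Submodule.mem_span_range_iff_exists_fun (Fin n) S S _ _ _
    (iterateFrobenius S p e).toAlgebra.toModule ω f).1 (by rw [hω]; trivial)
  obtain ⟨c, hc⟩ := hf
  exact ⟨c, hc.symm⟩

/-- If `y 𝔡 ^ Q ⊆ z ^ q S` write `y δ ^ q = z ^ q y'` (`δ ^ q ∈ 𝔡 ^ Q` as `Q ≤ q`); then
`y' 𝔡 ^ Q ⊆ δ ^ q S`, `φ y' = δ v` and `δ φ y = z δ v`. -/
theorem isCart_of_one {S : Type} [CommRing S] {𝔡 : Ideal S} {r q : ℕ} {δ : S} (hδ : δ ∈ 𝔡)
    (hδ0 : δ ∈ S⁰) {φ : S →+ S} (hl : ∀ w y, φ (w ^ q * y) = w * φ y)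
    (hd : ∀ y, (∀ d ∈ 𝔡 ^ ((q - 1) / r), δ ^ q ∣ y * d) → δ ∣ φ y) : IsCart 𝔡 r q φ := by
  refine ⟨hl, fun z hz y hy => ?_⟩
  have hQ : (q - 1) / r ≤ q := (Nat.div_le_self _ _).trans (Nat.sub_le _ _)
  obtain ⟨y', hy'⟩ := hy (δ ^ q) (Ideal.pow_le_pow_right hQ (Ideal.pow_mem_pow hδ q))
  obtain ⟨v, hv⟩ := hd y' (fun d hd' => by
    obtain ⟨c, hc⟩ := hy d hd'
    refine ⟨c, ?_⟩
    apply (mul_cancel_left_mem_nonZeroDivisors (pow_mem hz q)).1
    rw [← mul_assoc, ← hy', mul_right_comm, hc]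
    ring)
  refine ⟨v, ?_⟩
  apply (mul_cancel_left_mem_nonZeroDivisors hδ0).1
  rw [← hl, mul_comm (δ ^ q), hy', hl, hv]
  ring

private theorem WGlob_unif {S N : Type} [CommRing S] [AddCommGroup N] [Module S N]
    (M : Submonoid S) (J : Submodule S N) (hJ : J.FG) (h : N →ₗ[S] S) (a : S)
    (H : ∀ y ∈ J, ∃ t ∈ M, a ∣ t * h y) : ∃ t ∈ M, ∀ y ∈ J, a ∣ t * h y := by
  classical
  obtain ⟨s, rfl⟩ := hJ
  choose! t ht using H
  refine ⟨∏ y ∈ s, t y, prod_mem fun y hy => (ht y (Submodule.subset_span hy)).1, ?_⟩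
  intro y hy
  induction hy using Submodule.span_induction with
  | mem x hx =>
    exact (ht x (Submodule.subset_span hx)).2.trans
      (mul_dvd_mul_right (Finset.dvd_prod_of_mem t hx) _)
  | zero => simp
  | add x y _ _ hx hy =>
    rw [map_add, mul_add]
    exact dvd_add hx hy
  | smul c x _ hx =>
    rw [map_smul, smul_eq_mul, mul_left_comm]
    exact hx.mul_left c

private theorem WGlob_dvd {S S' : Type} [CommRing S] [CommRing S'] [Algebra S S']
    (M : Submonoid S) [IsLocalization M S'] {a b : S}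
    (h : algebraMap S S' a ∣ algebraMap S S' b) : ∃ t ∈ M, a ∣ t * b := by
  obtain ⟨c, hc⟩ := h
  obtain ⟨⟨y, s⟩, hs⟩ := IsLocalization.surj M c
  have e1 : algebraMap S S' (s * b) = algebraMap S S' (a * y) := by
    rw [map_mul, map_mul, hc, ← hs]
    ring
  obtain ⟨u, hu⟩ := (IsLocalization.eq_iff_exists M S').1 e1
  refine ⟨u * s, mul_mem u.2 s.2, u * y, ?_⟩
  rw [mul_assoc, hu]
  ring

/-- `exists_ext_loc` and `isCart_of_one`; `𝔡 ^ Q` is finitely generated. -/
theorem IsCart.loc {S S' : Type} [CommRing S] [IsNoetherianRing S] [CommRing S'] [Algebra S S']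
    (M : Submonoid S) [IsLocalization M S'] {𝔡 : Ideal S} {r q : ℕ} (hq : 0 < q) {δ : S}
    (hδ : δ ∈ 𝔡) (hδ0 : δ ∈ S⁰) {φ : S →+ S} (h : IsCart 𝔡 r q φ) :
    ∃ φ' : S' →+ S', IsCart (𝔡.map (algebraMap S S')) r q φ' ∧
      ∀ y, φ' (algebraMap S S' y) = algebraMap S S' (φ y) := by
  obtain ⟨φ', hl, hφ'⟩ := exists_ext_loc (R' := S') M hq φ h.lin
  refine ⟨φ', isCart_of_one (Ideal.mem_map_of_mem _ hδ)
    (IsLocalization.nonZeroDivisors_le_comap M S' hδ0) hl fun y' hy' => ?_, hφ'⟩
  obtain ⟨n, rfl⟩ : ∃ n, q = n + 1 := ⟨q - 1, by omega⟩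
  obtain ⟨⟨y, s⟩, hs⟩ := IsLocalization.surj M y'
  have e1 : algebraMap S S' s ^ (n + 1) * y' = algebraMap S S' (s ^ n * y) := by
    rw [map_mul, map_pow, ← hs]
    ring
  obtain ⟨t, htM, ht⟩ := WGlob_unif M (𝔡 ^ ((n + 1 - 1) / r)) (IsNoetherian.noetherian _)
    (LinearMap.mulLeft S (s ^ n * y)) (δ ^ (n + 1)) (fun d hd => by
      apply WGlob_dvd (S' := S') M
      rw [LinearMap.mulLeft_apply, map_mul, ← e1, map_pow, mul_assoc]
      refine Dvd.dvd.mul_left (hy' _ ?_) _
      rw [← Ideal.map_pow]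
      exact Ideal.mem_map_of_mem _ hd)
  have h2 := h.div δ hδ0 (t ^ (n + 1) * (s ^ n * y)) (fun d hd => by
    have := ht d hd
    rw [LinearMap.mulLeft_apply] at this
    have e2 : t ^ (n + 1) * (s ^ n * y) * d = t ^ n * (t * (s ^ n * y * d)) := by ring
    rw [e2]
    exact this.mul_left _)
  rw [h.lin] at h2
  have h3 := map_dvd (algebraMap S S') h2
  rw [map_mul, ← hφ', ← e1, hl, ← mul_assoc] at h3
  exact ((IsLocalization.map_units S' (⟨t, htM⟩ : M)).mul
    (IsLocalization.map_units S' s)).dvd_mul_left.1 h3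

/-- `S` as a module over itself through the iterated Frobenius map. -/
private def WGlobFr (_p _e : ℕ) (S : Type) : Type := S

private instance (p e : ℕ) (S : Type) [CommRing S] : AddCommGroup (WGlobFr p e S) :=
  inferInstanceAs (AddCommGroup S)

private instance (p e : ℕ) [Fact p.Prime] (S : Type) [CommRing S] [CharP S p] :
    Module S (WGlobFr p e S) :=
  Module.compHom S (iterateFrobenius S p e)

private def WGlobTo {p e : ℕ} {S : Type} [CommRing S] : WGlobFr p e S ≃+ S := AddEquiv.refl S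

private theorem WGlobTo_smul {p e : ℕ} [Fact p.Prime] {S : Type} [CommRing S] [CharP S p] (w : S)
    (y : WGlobFr p e S) : WGlobTo (w • y) = w ^ p ^ e * WGlobTo y := rfl

/-- Let `N` be `S` with the module structure through `iterateFrobenius S p e` (type synonym,
`Module.compHom`). It is finite, hence finitely presented, so
`Module.FinitePresentation.exists_lift_of_isLocalizedModule` lifts a multiple of `φ'`. The ideal
`(δ ^ q : 𝔡 ^ Q)` is a finitely generated submodule of `N`; a further multiple maps its generators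
into `δ S`; `isCart_of_one`. -/
theorem IsCart.glob {p : ℕ} [Fact p.Prime] {S S' : Type} [CommRing S] [IsNoetherianRing S]
    [CharP S p] [CommRing S'] [Algebra S S'] (M : Submonoid S) [IsLocalization M S'] {e : ℕ}
    (hF : FFin (p ^ e) S) {𝔡 : Ideal S} {r : ℕ} {δ : S} (hδ : δ ∈ 𝔡) (hδ0 : δ ∈ S⁰)
    {φ' : S' →+ S'} (h : IsCart (𝔡.map (algebraMap S S')) r (p ^ e) φ') :
    ∃ φ : S →+ S, ∃ s ∈ M, IsCart 𝔡 r (p ^ e) φ ∧
      ∀ y, algebraMap S S' (φ y) = algebraMap S S' s * φ' (algebraMap S S' y) := by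
  obtain ⟨k, ω, hω⟩ := hF
  have : Module.Finite S (WGlobFr p e S) := by
    refine ⟨Submodule.fg_iff_exists_fin_generating_family.2
      ⟨k, fun i => WGlobTo.symm (ω i), ?_⟩⟩
    rw [eq_top_iff]
    intro f _
    obtain ⟨g, hg⟩ := hω (WGlobTo f)
    refine (Submodule.mem_span_range_iff_exists_fun S).2 ⟨g, ?_⟩
    apply WGlobTo.injective
    rw [map_sum, hg]
    simp [WGlobTo_smul]
  have : Module.FinitePresentation S (WGlobFr p e S) :=
    Module.finitePresentation_of_finite S _
  let g : WGlobFr p e S →ₗ[S] S' :=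
    { toFun := fun y => φ' (algebraMap S S' (WGlobTo y))
      map_add' := fun x y => by rw [map_add, map_add, map_add]
      map_smul' := fun w y => by
        rw [WGlobTo_smul, map_mul, map_pow, h.lin, RingHom.id_apply, Algebra.smul_def] }
  obtain ⟨l, s, hs⟩ := Module.FinitePresentation.exists_lift_of_isLocalizedModule M
    (Algebra.linearMap S S') g
  have hs' : ∀ y, algebraMap S S' (l y) =
      algebraMap S S' s * φ' (algebraMap S S' (WGlobTo y)) := by
    intro y
    have := LinearMap.congr_fun hs y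
    rw [LinearMap.comp_apply, Algebra.linearMap_apply, LinearMap.smul_apply, Submonoid.smul_def,
      Algebra.smul_def] at this
    exact this
  let J : Submodule S (WGlobFr p e S) :=
    { carrier := {y | ∀ d ∈ 𝔡 ^ ((p ^ e - 1) / r), δ ^ p ^ e ∣ WGlobTo y * d}
      add_mem' := fun ha hb d hd => by
        rw [map_add, add_mul]
        exact dvd_add (ha d hd) (hb d hd)
      zero_mem' := fun d _ => by
        rw [map_zero, zero_mul]
        exact dvd_zero _
      smul_mem' := fun c x hx d hd => by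
        rw [WGlobTo_smul, mul_assoc]
        exact (hx d hd).mul_left _ }
  obtain ⟨t, htM, ht⟩ := WGlob_unif M J (IsNoetherian.noetherian _) l δ (fun y hy => by
    apply WGlob_dvd (S' := S') M
    rw [hs']
    refine Dvd.dvd.mul_left
      (h.div _ (IsLocalization.nonZeroDivisors_le_comap M S' hδ0) _ fun d hd => ?_) _
    rw [← Ideal.map_pow] at hd
    induction hd using Submodule.span_induction with
    | mem x hx =>
      obtain ⟨d, hd, rfl⟩ := hx
      rw [← map_mul, ← map_pow]
      exact map_dvd _ (hy d hd)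
    | zero => simp
    | add x y _ _ hx hy =>
      rw [mul_add]
      exact dvd_add hx hy
    | smul c x _ hx =>
      rw [smul_eq_mul, mul_left_comm]
      exact hx.mul_left c)
  let φ : S →+ S :=
    { toFun := fun y => t * l (WGlobTo.symm y)
      map_zero' := by rw [map_zero, map_zero, mul_zero]
      map_add' := fun x y => by rw [map_add, map_add, mul_add] }
  refine ⟨φ, t * s, mul_mem htM s.2, isCart_of_one hδ hδ0 (fun w y => ?_) (fun y hy => ?_),
    fun y => ?_⟩
  · have e1 : (WGlobTo.symm (w ^ p ^ e * y) : WGlobFr p e S) = w • WGlobTo.symm y := rfl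
    show t * l _ = w * (t * l _)
    rw [e1, map_smul, smul_eq_mul, mul_left_comm]
  · exact ht (WGlobTo.symm y) hy
  · show algebraMap S S' (t * l _) = _
    rw [map_mul, hs', map_mul, mul_assoc]
    rfl

end

end Pool.Agent.Lib.MP_4287a9_ag
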