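import Pool.Agent.Lib.MP_4287a9_ag.WLift
import Pool.Agent.Lib.MP_4287a9_ag.WAsc
import Pool.Agent.Lib.MP_4287a9_ag.WSemi

/-!
Generic properties do not depend on the model.
-/

open scoped TensorProduct ENNReal NNReal nonZeroDivisors Polynomial
open Filter

namespace Pool.Agent.Lib.MP_4287a9_ag

noncomputable section

variable {B T : Type} [CommRing B] [CommRing T] [Algebra B T] {ε : Prop} {𝔡 : Ideal T} {r : ℕ}
  {t : ℝ≥0}

theorem Gen.up {C C' : Type} [CommRing C] [Algebra B C] [CommRing C'] [Algebra B C']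
    {σ : T →ₐ[B] C} {𝒥 : Ideal (C ⊗[B] T)} (h : Gen ε σ 𝔡 r 𝒥 t) (ι : C →ₐ[B] C')
    (hι : Function.Injective ι) : Gen ε (ι.comp σ) 𝔡 r (spk ι 𝒥) t := by
  obtain ⟨b, hb, h⟩ := h
  refine ⟨ι b, fun h0 => hb (hι (h0.trans (map_zero ι).symm)), fun κ _ _ _ χ hχ => ?_⟩
  rw [spk_spk]
  exact h κ (χ.comp ι) hχ

/-- `lift_pt`, `sfat_iff`, `comap_pk`, `spk_ext`, `spk_spk`. -/
theorem Gen.down [Algebra.FiniteType ℤ B] [Algebra.FiniteType B T] (hz : NZ B 𝔡) {C C' : Type}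
    [CommRing C] [Algebra B C] [Algebra.FiniteType B C] [CommRing C'] [IsDomain C'] [Algebra B C']
    [Algebra.FiniteType B C'] (hC : Function.Injective (algebraMap B C)) {σ : T →ₐ[B] C}
    {𝒥 : Ideal (C ⊗[B] T)} (ι : C →ₐ[B] C') (hι : Function.Injective ι)
    (h : Gen ε (ι.comp σ) 𝔡 r (spk ι 𝒥) t) : Gen ε σ 𝔡 r 𝒥 t := by
  obtain ⟨b', hb', h⟩ := h
  obtain ⟨b₀, hb₀, hz⟩ := hz
  have : IsDomain C := hι.isDomain ι.toRingHom
  have : Algebra.FiniteType ℤ C := Algebra.FiniteType.trans (S := B) inferInstance inferInstance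
  have : IsNoetherianRing C := Algebra.FiniteType.isNoetherianRing ℤ C
  obtain ⟨b, hb, hl⟩ := lift_pt ι hι hb'
  refine ⟨b * algebraMap B C b₀, mul_ne_zero hb fun h0 => hb₀ (hC (h0.trans (map_zero _).symm)),
    fun κ _ _ _ χ hχ => ?_⟩
  rw [map_mul, AlgHom.commutes] at hχ
  obtain ⟨κ', _, _, _, e, χ', he, hχ'⟩ := hl κ χ (left_ne_zero_of_mul hχ)
  have h1 : χ'.comp (ι.comp σ) = e.comp (χ.comp σ) := by
    rw [← AlgHom.comp_assoc, he, AlgHom.comp_assoc]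
  have hm : (pk (χ'.comp (ι.comp σ))).comap (bm T e) = pk (χ.comp σ) := by
    rw [h1]
    exact comap_pk _ e e.toRingHom.injective
  have h2 := sfat_iff e (pk (χ.comp σ)) (pk (χ'.comp (ι.comp σ))) hm
    (hz κ (right_ne_zero_of_mul hχ)) (spk χ 𝒥) r t
  have h3 := h κ' χ' hχ'
  rw [spk_ext, spk_spk, ← he] at h2
  rw [spk_spk] at h3
  exact h2.symm.trans h3

theorem Gen.not_both [Algebra.FiniteType ℤ B] {C : Type} [CommRing C] [IsDomain C] [Algebra B C]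
    [Algebra.FiniteType B C] {σ : T →ₐ[B] C} {𝒥 : Ideal (C ⊗[B] T)} (h : Gen True σ 𝔡 r 𝒥 t)
    (h' : Gen False σ 𝔡 r 𝒥 t) : False := by
  obtain ⟨b, hb, h⟩ := h
  obtain ⟨b', hb', h'⟩ := h'
  obtain ⟨κ, _, _, _, χ, hχ⟩ := exists_pt (B := B) (mul_ne_zero hb hb')
  rw [map_mul] at hχ
  exact (h' κ χ (right_ne_zero_of_mul hχ)).1 ((h κ χ (left_ne_zero_of_mul hχ)).2 trivial)

/-- Go up to `C ⊔ e.range` and down to `C'`. -/
theorem GenO.gen [Algebra.FiniteType ℤ B] [Algebra.FiniteType B T] (hz : NZ B 𝔡) {Ω Λ : Type}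
    [Field Ω] [Algebra B Ω] (hΩ : Function.Injective (algebraMap B Ω)) [CommRing Λ] [Algebra B Λ]
    {τ : T →ₐ[B] Ω} {ψ : Λ →ₐ[B] Ω} {𝒥 : Ideal (Λ ⊗[B] T)} (h : GenO ε τ ψ 𝔡 r 𝒥 t) {C' : Type}
    [CommRing C'] [Algebra B C'] [Algebra.FiniteType B C'] (e : C' →ₐ[B] Ω)
    (he : Function.Injective e) (σ' : T →ₐ[B] C') (φ' : Λ →ₐ[B] C') (h1 : e.comp σ' = τ)
    (h2 : e.comp φ' = ψ) : Gen ε σ' 𝔡 r (spk φ' 𝒥) t := by
  obtain ⟨C, σ, φ, hC, hσ, hφ, h⟩ := h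
  have hr : e.range.FG := by
    rw [← Algebra.map_top]
    exact Subalgebra.FG.map e Algebra.FiniteType.out
  have : Algebra.FiniteType B (C ⊔ e.range : Subalgebra B Ω) :=
    (Subalgebra.fg_iff_finiteType _).1 (hC.sup hr)
  let i₁ : C →ₐ[B] (C ⊔ e.range : Subalgebra B Ω) := Subalgebra.inclusion le_sup_left
  let i₂ : C' →ₐ[B] (C ⊔ e.range : Subalgebra B Ω) :=
    e.codRestrict _ fun x => (le_sup_right : e.range ≤ C ⊔ e.range) ⟨x, rfl⟩
  have hi₂ : Function.Injective i₂ := fun x y hxy => he (congrArg Subtype.val hxy)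
  have e1 : i₁.comp σ = i₂.comp σ' := by
    ext x
    exact (DFunLike.congr_fun hσ x).trans (DFunLike.congr_fun h1 x).symm
  have e2 : i₁.comp φ = i₂.comp φ' := by
    ext x
    exact (DFunLike.congr_fun hφ x).trans (DFunLike.congr_fun h2 x).symm
  have h3 := h.up i₁ (Subalgebra.inclusion_injective _)
  rw [spk_spk, e1, e2, ← spk_spk] at h3
  refine Gen.down hz (fun x y hxy => hΩ ?_) i₂ hi₂ h3
  rw [← e.commutes, ← e.commutes, hxy]

end

end Pool.Agent.Lib.MP_4287a9_ag
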