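import Pool.Agent.Lib.MP_4287a9_ag.GHY
import Pool.Agent.Lib.MP_4287a9_ag.WGn

/-!
The theorem of Hara and Yoshida at a point with values in a large field.
-/

open scoped TensorProduct ENNReal NNReal nonZeroDivisors Polynomial
open Filter

namespace Pool.Agent.Lib.MP_4287a9_ag

noncomputable section

theorem range_fg {B Λ Ω : Type} [CommRing B] [CommRing Λ] [Algebra B Λ] [Algebra.FiniteType B Λ]
    [CommRing Ω] [Algebra B Ω] (ψ : Λ →ₐ[B] Ω) : ψ.range.FG := by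
  rw [← Algebra.map_top]
  exact Algebra.FiniteType.out.map ψ

theorem mem_pk {B T F : Type} [CommRing B] [CommRing T] [Algebra B T] [CommRing F] [Algebra B F]
    (τ : T →ₐ[B] F) (x : F ⊗[B] T) : x ∈ pk τ ↔ pa τ x = 0 :=
  Iff.rfl

/-- Passage from the residue field `κ₁` of `Λ'` to the residue field `κ` of `C`. -/
theorem sfat_range {B T Λ κ₁ κ : Type} [CommRing B] [CommRing T] [Algebra B T]
    [Algebra.FiniteType B T] [CommRing Λ] [Algebra B Λ] [Field κ₁] [Algebra B κ₁] [Field κ]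
    [Finite κ] [Algebra B κ] (e : κ₁ →ₐ[B] κ) (χ : Λ →ₐ[B] κ₁) (m : Ideal (κ₁ ⊗[B] T)) [m.IsPrime]
    (m' : Ideal (κ ⊗[B] T)) [m'.IsPrime] (hm : m'.comap (bm T e) = m) {𝔡 : Ideal T}
    (hδ : ∃ δ ∈ ext B κ₁ 𝔡, δ ∈ (κ₁ ⊗[B] T)⁰) (𝒥 : Ideal (Λ ⊗[B] T)) (r : ℕ) (t : ℝ≥0) :
    SFat (ringChar κ) m' (ext B κ 𝔡) r (spk (e.comp χ) 𝒥) t ↔
      SFat (ringChar κ₁) m (ext B κ₁ 𝔡) r (spk χ 𝒥) t := by
  rw [← sfat_iff e m m' hm hδ, spk_ext, spk_spk]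

theorem HasGD.genO {B T F : Type} [CommRing B] [Algebra.FiniteType ℤ B] [CommRing T] [Algebra B T]
    [Algebra.FiniteType B T] [Field F] [CharZero F] [Algebra B F]
    (hB : Function.Injective (algebraMap B F)) {𝔡 : Ideal T} (hz : NZ B 𝔡) {Λ : Type} [CommRing Λ]
    [Algebra B Λ] [Algebra.FiniteType B Λ] (φ : Λ →ₐ[B] F) (𝒥 : Ideal (Λ ⊗[B] T)) {f : F ⊗[B] T}
    {r : ℕ} {t : ℝ≥0} (h : HasGD F f (ext B F 𝔡) r (spk φ 𝒥) t) {Ω : Type} [Field Ω]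
    [Algebra B Ω] (j : F →ₐ[B] Ω) (τ : T →ₐ[B] Ω) (hf : bm T j f ∉ pk τ) :
    GenO True τ (j.comp φ) 𝔡 r 𝒥 t := by
  obtain ⟨n, s, W₀, _, _, d, D, ρ, hamb, hl, rfl, ht⟩ := h
  obtain ⟨Λ', φ', f', b', hfg, hφ', hf', hb', H⟩ := hyG φ 𝒥 hamb hl ht
  obtain ⟨bz, hbz, hZ⟩ := hz
  have hft : Algebra.FiniteType B Λ' := (Subalgebra.fg_iff_finiteType Λ').1 hfg
  let C : Subalgebra B Ω := (j.comp Λ'.val).range ⊔ τ.range
  let σ : T →ₐ[B] C := τ.codRestrict C fun x => (le_sup_right : τ.range ≤ C) ⟨x, rfl⟩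
  let ψ : Λ' →ₐ[B] C := (j.comp Λ'.val).codRestrict C fun x =>
    (le_sup_left : (j.comp Λ'.val).range ≤ C) ⟨x, rfl⟩
  have hσ : C.val.comp σ = τ := rfl
  have hψ : C.val.comp ψ = j.comp Λ'.val := rfl
  have h1 : ψ b' ≠ 0 := fun h0 => hb' (Subtype.ext (j.injective (by
    rw [Subalgebra.coe_zero, map_zero]
    exact congrArg Subtype.val h0)))
  have h2 : pa σ (bm T ψ f') ≠ 0 := fun h0 => hf (by
    rw [mem_pk, ← hf', bm_bm, ← hψ, ← bm_bm, ← hσ, pa_bm, h0, map_zero])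
  have h3 : algebraMap B C bz ≠ 0 := fun h0 => hbz (hB (j.injective (by
    rw [map_zero, map_zero]
    exact (j.commutes bz).trans (congrArg Subtype.val h0))))
  refine ⟨C, σ, ψ.comp φ', (range_fg _).sup (range_fg _), hσ, ?_,
    ψ b' * pa σ (bm T ψ f') * algebraMap B C bz, mul_ne_zero (mul_ne_zero h1 h2) h3, ?_⟩
  · rw [← AlgHom.comp_assoc, hψ, AlgHom.comp_assoc, hφ']
  intro κ _ _ _ χ hχ
  rw [map_mul, map_mul, χ.commutes] at hχ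
  obtain ⟨κ₁, _, _, _, χ₁, e, hs, he⟩ := exists_range_field (χ.comp ψ)
  have k1 : χ₁ b' ≠ 0 := fun h0 => left_ne_zero_of_mul (left_ne_zero_of_mul hχ) (by
    rw [← AlgHom.comp_apply, ← he, AlgHom.comp_apply, h0, map_zero])
  have k2 : bm T χ₁ f' ∉ (pk (χ.comp σ)).comap (bm T e) := fun h0 =>
    right_ne_zero_of_mul (left_ne_zero_of_mul hχ) (by
      rwa [Ideal.mem_comap, mem_pk, bm_bm, he, ← bm_bm, pa_bm] at h0)
  have k3 : algebraMap B κ₁ bz ≠ 0 := fun h0 => right_ne_zero_of_mul hχ (by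
    rw [← e.commutes, h0, map_zero])
  rw [spk_spk, ← AlgHom.comp_assoc, ← he, AlgHom.comp_assoc,
    sfat_range e (χ₁.comp φ') _ _ rfl (hZ κ₁ k3), iff_true]
  exact (H κ₁ χ₁ hs k1 _ k2).2.2

end

end Pool.Agent.Lib.MP_4287a9_ag
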