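import Pool.Agent.Lib.MP_4287a9_ag.WSemi
import Pool.Agent.Lib.MP_4287a9_ag.Param

/-!
Parametrization of the ideals between `m ^ k` and `m` (compare `Param`).
-/

open scoped TensorProduct ENNReal NNReal nonZeroDivisors Polynomial
open Filter

namespace Pool.Agent.Lib.MP_4287a9_ag

noncomputable section

variable {B T C : Type} [CommRing B] [CommRing T] [Algebra B T] [CommRing C] [Algebra B C]

private theorem wpar_alg {Λ F : Type} [CommRing Λ] [Algebra B Λ] [CommRing F] [Algebra B F]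
    (f : Λ →ₐ[B] F) (c : Λ) : bm T f (algebraMap Λ (Λ ⊗[B] T) c) = algebraMap F (F ⊗[B] T) (f c) := by
  rw [Algebra.TensorProduct.algebraMap_apply, Algebra.TensorProduct.algebraMap_apply,
    Algebra.TensorProduct.map_tmul, map_one]
  rfl

private theorem wpar_smul {Λ F : Type} [CommRing Λ] [Algebra B Λ] [CommRing F] [Algebra B F]
    (f : Λ →ₐ[B] F) (c : Λ) (x : Λ ⊗[B] T) : bm T f (c • x) = f c • bm T f x := by
  rw [Algebra.smul_def, Algebra.smul_def, map_mul, wpar_alg]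

private theorem wpar_fibre (σ : T →ₐ[B] C) {k s : ℕ} {ω : Fin s → C ⊗[B] T}
    (h : ∀ t : C ⊗[B] T, ∃ c : Fin s → C,
      t - algebraMap C (C ⊗[B] T) (pa σ t) - ∑ i, c i • ω i ∈ pk σ ^ k)
    {κ : Type} [CommRing κ] [Algebra B κ] (χ : C →ₐ[B] κ) (x : κ ⊗[B] T) : ∃ c : Fin s → κ,
      x - algebraMap κ (κ ⊗[B] T) (pa (χ.comp σ) x) - ∑ i, c i • bm T χ (ω i) ∈
        pk (χ.comp σ) ^ k := by
  induction x using TensorProduct.induction_on with
  | zero => exact ⟨0, by simp⟩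
  | add x y hx hy =>
    obtain ⟨c, hc⟩ := hx
    obtain ⟨d, hd⟩ := hy
    refine ⟨c + d, ?_⟩
    have := add_mem hc hd
    simp only [map_add, Pi.add_apply, add_smul, Finset.sum_add_distrib]
    rw [show ∀ a b u v y z : κ ⊗[B] T, a + b - (u + v) - (y + z) = a - u - y + (b - v - z) from
      fun _ _ _ _ _ _ => by ring]
    exact this
  | tmul a t =>
    obtain ⟨c, hc⟩ := h ((1 : C) ⊗ₜ[B] t)
    refine ⟨fun i => a * χ (c i), ?_⟩
    have h1 : bm T χ ((1 : C) ⊗ₜ[B] t - algebraMap C (C ⊗[B] T) (pa σ ((1 : C) ⊗ₜ[B] t)) -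
        ∑ i, c i • ω i) ∈ pk (χ.comp σ) ^ k := by
      rw [← spk_pk, spk, ← Ideal.map_pow]
      exact Ideal.mem_map_of_mem _ hc
    have h2 := Ideal.mul_mem_left _ (algebraMap κ (κ ⊗[B] T) a) h1
    have e0 : a ⊗ₜ[B] t = a • bm T χ ((1 : C) ⊗ₜ[B] t) := by
      rw [Algebra.TensorProduct.map_tmul, map_one, TensorProduct.smul_tmul', smul_eq_mul, mul_one]
      rfl
    rw [map_sub, map_sub, map_sum, wpar_alg, ← Algebra.smul_def, smul_sub, smul_sub,
      Finset.smul_sum] at h2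
    simp only [wpar_smul, smul_smul] at h2
    rw [e0, map_smul, pa_bm, smul_eq_mul, map_mul, ← Algebra.smul_def]
    exact h2

private theorem wpar_ideal (σ : T →ₐ[B] C) {k s : ℕ} {ω : Fin s → C ⊗[B] T}
    (h : ∀ t : C ⊗[B] T, ∃ c : Fin s → C,
      t - algebraMap C (C ⊗[B] T) (pa σ t) - ∑ i, c i • ω i ∈ pk σ ^ k)
    {κ : Type} [Field κ] [Algebra B κ] (χ : C →ₐ[B] κ) (J : Ideal (κ ⊗[B] T))
    (h1 : pk (χ.comp σ) ^ k ≤ J) (h2 : J ≤ pk (χ.comp σ)) :
    ∃ β : Fin s → Fin s → κ, J = JC σ k ω χ β := by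
  classical
  obtain ⟨L, hL⟩ : ∃ L : (Fin s → κ) →ₗ[κ] κ ⊗[B] T, ∀ c, L c = ∑ i, c i • bm T χ (ω i) :=
    ⟨Fintype.linearCombination κ fun i => bm T χ (ω i), fun c => by
      rw [Fintype.linearCombination_apply]⟩
  obtain ⟨U, hU⟩ : ∃ U : Submodule κ (Fin s → κ), ∀ c, c ∈ U ↔ L c ∈ J :=
    ⟨(J.restrictScalars κ).comap L, fun c => Iff.rfl⟩
  obtain ⟨g, hg⟩ := U.subtype.exists_leftInverse_of_injective U.ker_subtype
  refine ⟨fun j => (g (Pi.single j 1) : Fin s → κ), le_antisymm (fun x hx => ?_) ?_⟩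
  · obtain ⟨c, hc⟩ := wpar_fibre σ h χ x
    have hx0 : pa (χ.comp σ) x = 0 := h2 hx
    rw [hx0, map_zero, sub_zero, ← hL] at hc
    have hcU : c ∈ U := by
      rw [hU]
      have := sub_mem hx (h1 hc)
      rwa [sub_sub_cancel] at this
    have e1 : c = ∑ j, c j • (g (Pi.single j 1) : Fin s → κ) := by
      have e2 : (g c : Fin s → κ) = c :=
        congrArg Subtype.val (LinearMap.congr_fun hg ⟨c, hcU⟩)
      conv_lhs => rw [← e2, pi_eq_sum_univ' c]
      simp only [map_sum, map_smul, Submodule.coe_sum, Submodule.coe_smul]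
    rw [show x = (x - L c) + L c by ring]
    refine add_mem (Ideal.mem_sup_left hc) (Ideal.mem_sup_right ?_)
    rw [e1, map_sum]
    refine sum_mem fun j _ => ?_
    rw [map_smul, hL, Algebra.smul_def]
    exact Ideal.mul_mem_left _ _ (Ideal.subset_span ⟨j, rfl⟩)
  · refine sup_le h1 (Ideal.span_le.2 ?_)
    rintro _ ⟨j, rfl⟩
    have := (hU _).1 (g (Pi.single j 1)).2
    rwa [hL] at this

/-- `pk σ / pk σ ^ k` is a finite `C`-module (`finite_quot_pk`); `ω` are lifts of generators. -/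
theorem exists_paramC [Algebra.FiniteType B T] [IsNoetherianRing C] (σ : T →ₐ[B] C) (k : ℕ) :
    ∃ (s : ℕ) (ω : Fin s → C ⊗[B] T), (∀ i, ω i ∈ pk σ) ∧
      ∀ (κ : Type) [Field κ] [Algebra B κ] (χ : C →ₐ[B] κ)
        (J : Ideal (Localization.AtPrime (pk (χ.comp σ)))),
        IsLocalRing.maximalIdeal _ ^ k ≤ J → J ≤ IsLocalRing.maximalIdeal _ →
          ∃ β : Fin s → Fin s → κ, J = lo (pk (χ.comp σ)) (JC σ k ω χ β) := by
  have : IsNoetherianRing (C ⊗[B] T) := Algebra.FiniteType.isNoetherianRing C (C ⊗[B] T)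
  obtain ⟨s, ω, hω, h⟩ := param_gen' (pa σ) k
  refine ⟨s, ω, hω, fun κ _ _ χ J h1 h2 => ?_⟩
  obtain ⟨β, hβ⟩ := wpar_ideal σ h χ
    (J.comap (algebraMap (κ ⊗[B] T) (Localization.AtPrime (pk (χ.comp σ))))) (by
      rw [← Ideal.map_le_iff_le_comap, Ideal.map_pow, Localization.AtPrime.map_eq_maximalIdeal]
      exact h1) (by
      refine (Ideal.comap_mono h2).trans ?_
      exact (Localization.AtPrime.under_maximalIdeal (I := pk (χ.comp σ))).le)
  refine ⟨β, ?_⟩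
  rw [← hβ]
  exact (IsLocalization.map_under (pk (χ.comp σ)).primeCompl _ J).symm

theorem spk_JC {Λ F : Type} [CommRing Λ] [Algebra B Λ] [CommRing F] [Algebra B F] (σ : T →ₐ[B] C)
    (k : ℕ) {s : ℕ} (ω : Fin s → C ⊗[B] T) (χ : C →ₐ[B] Λ) (β : Fin s → Fin s → Λ)
    (f : Λ →ₐ[B] F) : spk f (JC σ k ω χ β) = JC σ k ω (f.comp χ) fun j i => f (β j i) := by
  have h1 := spk_pk (χ.comp σ) f
  rw [spk] at h1
  rw [spk, JC, JC, Ideal.map_sup, Ideal.map_pow, h1, Ideal.map_span, ← Set.range_comp,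
    AlgHom.comp_assoc]
  congr 3
  funext j
  change bm T f (∑ i, β j i • bm T χ (ω i)) = _
  rw [map_sum]
  exact Finset.sum_congr rfl fun i _ => by rw [wpar_smul, bm_bm]

theorem JC_le {Λ : Type} [CommRing Λ] [Algebra B Λ] (σ : T →ₐ[B] C) {k : ℕ} (hk : 1 ≤ k) {s : ℕ}
    {ω : Fin s → C ⊗[B] T} (hω : ∀ i, ω i ∈ pk σ) (χ : C →ₐ[B] Λ) (β : Fin s → Fin s → Λ) :
    JC σ k ω χ β ≤ pk (χ.comp σ) := by
  refine sup_le (Ideal.pow_le_self (by omega)) (Ideal.span_le.2 ?_)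
  rintro _ ⟨j, rfl⟩
  refine sum_mem fun i _ => ?_
  rw [Algebra.smul_def]
  refine Ideal.mul_mem_left _ _ ?_
  rw [← spk_pk]
  exact Ideal.mem_map_of_mem _ (hω i)

end

end Pool.Agent.Lib.MP_4287a9_ag
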