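import Pool.Agent.Lib.MP_4287a9_ag.D5
import Pool.Agent.Lib.MP_4287a9_ag.GFc
import Pool.Agent.Lib.MP_4287a9_ag.Main3
import Pool.Agent.Lib.MP_4287a9_ag.LinkA

/-!
Points with values in finite fields.
-/

open scoped TensorProduct ENNReal NNReal nonZeroDivisors Polynomial
open Filter

namespace Pool.Agent.Lib.MP_4287a9_ag

noncomputable section

theorem exists_range_field {B Λ κ : Type} [CommRing B] [CommRing Λ] [Algebra B Λ] [Field κ]
    [Finite κ] [Algebra B κ] (χ : Λ →ₐ[B] κ) :
    ∃ (κ₁ : Type) (_ : Field κ₁) (_ : Finite κ₁) (_ : Algebra B κ₁) (χ₁ : Λ →ₐ[B] κ₁)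
      (e : κ₁ →ₐ[B] κ), Function.Surjective χ₁ ∧ e.comp χ₁ = χ := by
  let _ : Field χ.range := (Finite.isField_of_domain χ.range).toField
  exact ⟨χ.range, inferInstance, inferInstance, inferInstance, χ.rangeRestrict, χ.range.val,
    χ.rangeRestrict_surjective, AlgHom.ext fun _ => rfl⟩

/-- Two extensions of a field lie in a common extension. -/
theorem wlift_push {K E F : Type} [Field K] [Field E] [Field F] (f : K →+* E) (g : K →+* F) :
    ∃ (M : Type) (_ : Field M) (j₁ : E →+* M) (j₂ : F →+* M), (∀ x, j₁ (f x) = j₂ (g x)) ∧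
      (Finite E → Finite F → Finite M) := by
  let _ : Algebra K E := f.toAlgebra
  let _ : Algebra K F := g.toAlgebra
  obtain ⟨m, hm⟩ := Ideal.exists_maximal (E ⊗[K] F)
  let _ : Field ((E ⊗[K] F) ⧸ m) := Ideal.Quotient.field m
  refine ⟨(E ⊗[K] F) ⧸ m, inferInstance,
    (Ideal.Quotient.mk m).comp Algebra.TensorProduct.includeLeftRingHom,
    (Ideal.Quotient.mk m).comp (Algebra.TensorProduct.includeRight (R := K) (A := E)).toRingHom,
    fun x => ?_, fun _ _ => ?_⟩
  · show Ideal.Quotient.mk m (algebraMap K E x ⊗ₜ 1) = Ideal.Quotient.mk m (1 ⊗ₜ algebraMap K F x)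
    rw [Algebra.algebraMap_eq_smul_one, Algebra.algebraMap_eq_smul_one, TensorProduct.smul_tmul]
  · have : Finite (E ⊗[K] F) := Module.finite_of_finite E
    exact Finite.of_surjective _ Ideal.Quotient.mk_surjective

/-- A field of finite type over `ℤ` is finite (see the proof of `main`). -/
theorem finite_of_finiteType_int (κ : Type) [Field κ] [Algebra.FiniteType ℤ κ] : Finite κ := by
  have := int_jacobson
  have : Module.Finite ℤ κ := finite_of_finite_type_of_isJacobsonRing ℤ κ
  have hp : ringChar κ ≠ 0 := by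
    intro h0
    have : CharZero κ := (CharP.ringChar_zero_iff_CharZero κ).1 h0
    have hint : Algebra.IsIntegral ℤ κ := inferInstance
    exact Int.not_isField
      ((Algebra.IsIntegral.isField_iff_isField (algebraMap ℤ κ).injective_int).2
        (Field.toIsField κ))
  refine Module.finite_of_fg_torsion κ fun x => ⟨⟨(ringChar κ : ℤ), ?_⟩, ?_⟩
  · exact mem_nonZeroDivisors_of_ne_zero (by exact_mod_cast hp)
  · simp [Submonoid.smul_def]

/-- `C` is a Jacobson ring. -/
theorem exists_pt {B C : Type} [CommRing B] [Algebra.FiniteType ℤ B] [CommRing C] [IsDomain C]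
    [Algebra B C] [Algebra.FiniteType B C] {b : C} (hb : b ≠ 0) :
    ∃ (κ : Type) (_ : Field κ) (_ : Finite κ) (_ : Algebra B κ) (χ : C →ₐ[B] κ), χ b ≠ 0 := by
  have h1 : Algebra.FiniteType ℤ C := Algebra.FiniteType.trans (S := B) inferInstance inferInstance
  have := int_jacobson
  have : IsJacobsonRing C := isJacobsonRing_of_finiteType (A := ℤ)
  have hj : (⊥ : Ideal C).jacobson = ⊥ := IsJacobsonRing.out inferInstance Ideal.isPrime_bot.isRadical
  have hb' : b ∉ (⊥ : Ideal C).jacobson := by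
    rw [hj]
    exact hb
  rw [Ideal.jacobson, Ideal.mem_sInf] at hb'
  push Not at hb'
  obtain ⟨m, ⟨-, hm⟩, hbm⟩ := hb'
  let _ : Field (C ⧸ m) := Ideal.Quotient.field m
  have h3 : Finite (C ⧸ m) := @finite_of_finiteType_int (C ⧸ m) _
    (Algebra.FiniteType.of_surjective (Ideal.Quotient.mk m).toIntAlgHom
      Ideal.Quotient.mk_surjective)
  exact ⟨C ⧸ m, inferInstance, h3, inferInstance, Ideal.Quotient.mkₐ B m,
    fun h => hbm (Ideal.Quotient.eq_zero_iff_mem.1 h)⟩

/-- `exists_range_field`, `gen_lift`, and a residue field of `κ ⊗[κ₁] κ'`. -/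
theorem lift_pt {B C C' : Type} [CommRing B] [CommRing C] [IsDomain C] [IsNoetherianRing C]
    [Algebra B C] [CommRing C'] [IsDomain C'] [Algebra B C'] [Algebra.FiniteType B C']
    (ι : C →ₐ[B] C') (hι : Function.Injective ι) {b' : C'} (hb' : b' ≠ 0) :
    ∃ b : C, b ≠ 0 ∧ ∀ (κ : Type) [Field κ] [Finite κ] [Algebra B κ] (χ : C →ₐ[B] κ), χ b ≠ 0 →
      ∃ (κ' : Type) (_ : Field κ') (_ : Finite κ') (_ : Algebra B κ') (e : κ →ₐ[B] κ')
        (χ' : C' →ₐ[B] κ'), χ'.comp ι = e.comp χ ∧ χ' b' ≠ 0 := by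
  let _ : Algebra C C' := ι.toRingHom.toAlgebra
  have : IsScalarTower B C C' := IsScalarTower.of_algebraMap_eq fun x => (ι.commutes x).symm
  have : Algebra.FiniteType C C' := Algebra.FiniteType.of_restrictScalars_finiteType B C C'
  obtain ⟨b, hb, H⟩ := gen_lift C C' hι hb'
  refine ⟨b, hb, fun κ _ _ _ χ hχ => ?_⟩
  obtain ⟨κ₁, _, _, _, χ₁, e₁, hs, he⟩ := exists_range_field χ
  have he' : ∀ x, e₁ (χ₁ x) = χ x := fun x => AlgHom.congr_fun he x
  have hb1 : χ₁ b ≠ 0 := fun h => hχ (by rw [← he', h, map_zero])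
  obtain ⟨κ₂, _, _, ι₂, χ₂, -, h2, hb2⟩ := H κ₁ χ₁.toRingHom hs hb1
  obtain ⟨M, _, j₁, j₂, hj, hfin⟩ := wlift_push e₁.toRingHom ι₂
  have key : ∀ x, j₂ (χ₂ (ι x)) = j₁ (χ x) := fun x => by
    have h3 : χ₂ (ι x) = ι₂ (χ₁ x) := h2 x
    rw [h3, ← hj, ← he']
    rfl
  let _ : Algebra B M := (j₁.comp (algebraMap B κ)).toAlgebra
  refine ⟨M, inferInstance, hfin inferInstance inferInstance, inferInstance,
    { j₁ with commutes' := fun _ => rfl },
    { j₂.comp χ₂ with commutes' := fun x => ?_ }, AlgHom.ext key, ?_⟩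
  · show j₂ (χ₂ (algebraMap B C' x)) = j₁ (algebraMap B κ x)
    rw [← ι.commutes, key, χ.commutes]
  · exact (map_ne_zero j₂).2 hb2

/-- A residue field of `k ⊗[Frac B] Frac Λ`, and the subfield generated over `k` by the images of
generators of `Λ`. -/
theorem exists_compositum {B k Λ : Type} [CommRing B] [Field k] [Algebra B k]
    (hB : Function.Injective (algebraMap B k)) [CommRing Λ] [IsDomain Λ] [Algebra B Λ]
    [Algebra.FiniteType B Λ] (hΛ : Function.Injective (algebraMap B Λ)) :
    ∃ (L : Type) (_ : Field L) (_ : Algebra B L) (_ : Algebra k L) (_ : IsScalarTower B k L)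
      (_ : Algebra.EssFiniteType k L) (e : Λ →ₐ[B] L), Function.Injective e := by
  have : IsDomain B := hB.isDomain (algebraMap B k)
  let F := FractionRing Λ
  have hF : Function.Injective (algebraMap B F) := by
    rw [IsScalarTower.algebraMap_eq B Λ F]
    exact (IsFractionRing.injective Λ F).comp hΛ
  obtain ⟨M, _, j₁, j₂, hj, -⟩ := wlift_push
    (IsFractionRing.lift hB : FractionRing B →+* k) (IsFractionRing.lift hF : FractionRing B →+* F)
  have hc : ∀ x : B, j₁ (algebraMap B k x) = j₂ (algebraMap B F x) := fun x => by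
    have h1 := hj (algebraMap B (FractionRing B) x)
    rwa [IsFractionRing.lift_algebraMap, IsFractionRing.lift_algebraMap] at h1
  let _ : Algebra k M := j₁.toAlgebra
  let _ : Algebra B M := (j₁.comp (algebraMap B k)).toAlgebra
  have : IsScalarTower B k M := IsScalarTower.of_algebraMap_eq fun _ => rfl
  let g : Λ →ₐ[B] M :=
    { j₂.comp (algebraMap Λ F) with
      commutes' := fun x => by
        show j₂ (algebraMap Λ F (algebraMap B Λ x)) = j₁ (algebraMap B k x)
        rw [hc, IsScalarTower.algebraMap_apply B Λ F] }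
  have hg : Function.Injective g := j₂.injective.comp (IsFractionRing.injective Λ F)
  obtain ⟨s, hs⟩ := (inferInstance : Algebra.FiniteType B Λ).out
  let L : IntermediateField k M := IntermediateField.adjoin k (g '' s)
  have hL : ∀ x, g x ∈ L := by
    intro x
    have hx : x ∈ Algebra.adjoin B (s : Set Λ) := hs ▸ Algebra.mem_top
    induction hx using Algebra.adjoin_induction with
    | mem x hx => exact IntermediateField.subset_adjoin _ _ ⟨x, hx, rfl⟩
    | algebraMap r =>
      rw [g.commutes, IsScalarTower.algebraMap_apply B k M]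
      exact L.algebraMap_mem _
    | add x y _ _ hx hy => rw [map_add]; exact L.add_mem hx hy
    | mul x y _ _ hx hy => rw [map_mul]; exact L.mul_mem hx hy
  have hfg : L.FG := IntermediateField.fg_adjoin_of_finite (s.finite_toSet.image g)
  let _ : Algebra B L := ((algebraMap k L).comp (algebraMap B k)).toAlgebra
  refine ⟨L, inferInstance, inferInstance, inferInstance,
    IsScalarTower.of_algebraMap_eq fun _ => rfl, IntermediateField.essFiniteType_iff.2 hfg,
    { (g : Λ →+* M).codRestrict L.toSubring hL with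
      commutes' := fun x => Subtype.ext (g.commutes x) }, ?_⟩
  intro x y h
  exact hg (congrArg Subtype.val h)

/-- Generators come from a finitely generated subalgebra (`ev_tensor`). -/
theorem exists_model {B k T : Type} [CommRing B] [Field k] [Algebra B k] [CommRing T] [Algebra B T]
    [Algebra.FiniteType B T] (𝔞 : Ideal (k ⊗[B] T)) :
    ∃ (Λ : Subalgebra B k) (𝒥 : Ideal (Λ ⊗[B] T)), Λ.FG ∧ spk Λ.val 𝒥 = 𝔞 := by
  have : IsNoetherianRing (k ⊗[B] T) := Algebra.FiniteType.isNoetherianRing k _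
  obtain ⟨s, hs⟩ := IsNoetherian.noetherian 𝔞
  obtain ⟨Λ, hΛ, H⟩ := (Ev.all fun x : s => ev_tensor (B := B) (x : k ⊗[B] T)).exists_fg
  choose y hy using H
  refine ⟨Λ, Ideal.span (Set.range y), hΛ, ?_⟩
  rw [spk, Ideal.map_span, ← Set.range_comp, ← hs]
  congr 1
  ext z
  constructor
  · rintro ⟨x, rfl⟩
    show Algebra.TensorProduct.map Λ.val (AlgHom.id B T) (y x) ∈ _
    rw [hy]
    exact x.2
  · intro hz
    exact ⟨⟨z, hz⟩, hy ⟨z, hz⟩⟩

end

end Pool.Agent.Lib.MP_4287a9_ag
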