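import Pool.Agent.Lib.MP_4287a9_ag.WSemi
import Pool.Agent.Lib.MP_4287a9_ag.WSpr
import Pool.Agent.Lib.MP_4287a9_ag.WLift
import Pool.Agent.Lib.MP_4287a9_ag.LinkA

/-!
The closure of a closed point of the fibre over `k`.
-/

open scoped TensorProduct ENNReal NNReal nonZeroDivisors Polynomial
open Filter

namespace Pool.Agent.Lib.MP_4287a9_ag

noncomputable section

variable {k B T C : Type} [Field k] [CommRing B] [Algebra B k] [CommRing T] [Algebra B T]
  [CommRing C] [Algebra B C] {σ : T →ₐ[B] C}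

theorem wset_mem_ext (F : Type) [CommRing F] [Algebra B F] {𝔡 : Ideal T} {x : T} (hx : x ∈ 𝔡) :
    (1 : F) ⊗ₜ[B] x ∈ ext B F 𝔡 :=
  Ideal.mem_map_of_mem (Algebra.TensorProduct.includeRight : T →ₐ[B] F ⊗[B] T) hx

theorem wset_ext_le {F : Type} [CommRing F] [Algebra B F] {𝔡 : Ideal T} {I : Ideal (F ⊗[B] T)}
    (h : ∀ x ∈ 𝔡, (1 : F) ⊗ₜ[B] x ∈ I) : ext B F 𝔡 ≤ I :=
  Ideal.map_le_iff_le_comap.2 h

theorem wset_flat (hB : Function.Injective (algebraMap B k)) : Module.Flat B k := by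
  have : IsDomain B := hB.isDomain _
  have : FaithfulSMul B k := (faithfulSMul_iff_algebraMap_injective B k).2 hB
  let _ : Algebra (FractionRing B) k := FractionRing.liftAlgebra B k
  have : Module.Flat B (FractionRing B) := IsLocalization.flat _ B⁰
  exact Module.Flat.trans B (FractionRing B) k

theorem wset_comap (h : Sett k σ) {Ω : Type} [Field Ω] [Algebra B Ω] (j : k →ₐ[B] Ω)
    (τ : T →ₐ[B] Ω) (hτ : ext B k (RingHom.ker σ) ≤ (pk τ).comap (bm T j)) :
    (pk τ).comap (bm T j) = ext B k (RingHom.ker σ) :=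
  (h.max.eq_of_le (Ideal.IsPrime.comap (bm T j) (K := pk τ)).ne_top hτ).symm

theorem wset_mem_comap {Ω : Type} [Field Ω] [Algebra B Ω] (j : k →ₐ[B] Ω) (τ : T →ₐ[B] Ω)
    (x : T) : (1 : k) ⊗ₜ[B] x ∈ (pk τ).comap (bm T j) ↔ τ x = 0 := by
  rw [Ideal.mem_comap, Algebra.TensorProduct.map_tmul, map_one, AlgHom.id_apply, pk,
    RingHom.mem_ker, pa_tmul, one_mul]

theorem Sett.isDomain (h : Sett k σ) : IsDomain C := by
  have h1 : (RingHom.ker σ).IsPrime := by
    have h2 : RingHom.ker σ = (ext B k (RingHom.ker σ)).comap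
        (Algebra.TensorProduct.includeRight : T →ₐ[B] k ⊗[B] T) :=
      le_antisymm Ideal.le_comap_map fun x hx => h.sat x hx
    have := h.max.isPrime
    rw [h2]
    infer_instance
  exact (Ideal.quotientKerAlgEquivOfSurjective h.surj).symm.injective.isDomain
    (Ideal.quotientKerAlgEquivOfSurjective h.surj).symm.toRingEquiv.toRingHom

theorem Sett.injC (h : Sett k σ) : Function.Injective (algebraMap B C) := by
  refine (injective_iff_map_eq_zero _).2 fun b hb => ?_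
  by_contra h0
  have h1 : algebraMap B k b ≠ 0 := fun e => h0 (h.inj (e.trans (map_zero _).symm))
  have h2 := wset_mem_ext (B := B) k (𝔡 := RingHom.ker σ) (x := algebraMap B T b)
    (by rw [RingHom.mem_ker, σ.commutes, hb])
  refine h.max.ne_top (Ideal.eq_top_of_isUnit_mem _ h2 ?_)
  rw [← Algebra.TensorProduct.algebraMap_apply', IsScalarTower.algebraMap_apply B k]
  exact (IsUnit.mk0 _ h1).map _

/-- `k ⊗[B] C = (k ⊗[B] T) / ext (ker σ)` is finite over `k`; a linear relation over `k` between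
the powers of an element of `C` gives one over `Frac B`. -/
theorem Sett.alg [Algebra.FiniteType B T] (h : Sett k σ) : Algebra.IsAlgebraic B C := by
  have := h.max
  have := wset_flat h.inj
  let _ := Ideal.Quotient.field (ext B k (RingHom.ker σ))
  have h1 : Module.Finite k ((k ⊗[B] T) ⧸ ext B k (RingHom.ker σ)) :=
    finite_of_finite_type_of_isJacobsonRing _ _
  let f : k ⊗[B] T →ₐ[k] k ⊗[B] C := Algebra.TensorProduct.map (AlgHom.id k k) σ
  have hf : Function.Surjective f := LinearMap.lTensor_surjective k (g := σ.toLinearMap) h.surj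
  have hk : ext B k (RingHom.ker σ) ≤ RingHom.ker f := wset_ext_le fun x hx => by
    rw [RingHom.mem_ker, Algebra.TensorProduct.map_tmul, RingHom.mem_ker.1 hx,
      TensorProduct.tmul_zero]
  have h2 : Module.Finite k (k ⊗[B] C) :=
    Module.Finite.of_surjective (Ideal.Quotient.liftₐ _ f hk).toLinearMap fun y => by
      obtain ⟨x, rfl⟩ := hf y
      exact ⟨Ideal.Quotient.mk _ x, rfl⟩
  refine ⟨fun c => ?_⟩
  by_contra hc
  have h3 : LinearIndependent B fun n : ℕ => c ^ n := by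
    have h4 := (Polynomial.basisMonomials B).linearIndependent.map'
      (Polynomial.aeval c).toLinearMap
      (LinearMap.ker_eq_bot.2 (transcendental_iff_injective.1 hc))
    have h5 : (Polynomial.aeval c : B[X] →ₐ[B] C).toLinearMap ∘ Polynomial.basisMonomials B =
        fun n : ℕ => c ^ n := by
      funext n
      simp [Polynomial.aeval_monomial]
    rwa [h5] at h4
  exact Module.Finite.not_linearIndependent_of_infinite _
    (Module.Flat.linearIndependent_one_tmul (S := k) h3)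

theorem Sett.comap_pk (h : Sett k σ) {Ω : Type} [Field Ω] [Algebra B Ω] (j : k →ₐ[B] Ω)
    (χ : C →ₐ[B] Ω) : (pk (χ.comp σ)).comap (bm T j) = ext B k (RingHom.ker σ) := by
  refine wset_comap h j _ (wset_ext_le fun x hx => (wset_mem_comap j _ x).2 ?_)
  rw [AlgHom.comp_apply, RingHom.mem_ker.1 hx, map_zero]

theorem Sett.exists_e (h : Sett k σ) {Ω : Type} [Field Ω] [Algebra B Ω] (j : k →ₐ[B] Ω)
    (τ : T →ₐ[B] Ω) (hτ : ext B k (RingHom.ker σ) ≤ (pk τ).comap (bm T j)) :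
    ∃ e : C →ₐ[B] Ω, Function.Injective e ∧ e.comp σ = τ := by
  have h1 : RingHom.ker σ.toRingHom ≤ RingHom.ker τ.toRingHom := fun x hx =>
    (wset_mem_comap j τ x).1 (hτ (wset_mem_ext k hx))
  refine ⟨AlgHom.liftOfSurjective σ h.surj τ h1, (injective_iff_map_eq_zero _).2 fun c hc => ?_,
    AlgHom.liftOfSurjective_comp _ _ _ _⟩
  obtain ⟨x, rfl⟩ := h.surj c
  rw [AlgHom.liftOfSurjective_apply] at hc
  exact h.sat x (wset_comap h j τ hτ ▸ (wset_mem_comap j τ x).2 hc)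

/-- `exists_compositum` for `Λ = C`, `Sett.comap_pk`, `lo_spk_max`, `spr`. -/
theorem Sett.unr [CharZero k] [IsNoetherianRing B] [Algebra.FiniteType B T] (h : Sett k σ) :
    ∃ g : C ⊗[B] T, pa σ g ≠ 0 ∧ Ideal.span {g} * pk σ ≤ ext B C (RingHom.ker σ) := by
  have := h.isDomain
  have : Algebra.FiniteType B C := Algebra.FiniteType.of_surjective σ h.surj
  have : IsNoetherianRing C := Algebra.FiniteType.isNoetherianRing B C
  have : IsNoetherianRing (C ⊗[B] T) := Algebra.FiniteType.isNoetherianRing C _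
  obtain ⟨L, _, _, _, _, _, e, he⟩ := exists_compositum h.inj h.injC
  refine spr σ e he (IsNoetherian.noetherian _) ?_
  have h1 := lo_spk_max (IsScalarTower.toAlgHom B k L) _ h.max (pk (e.comp σ))
    (h.comap_pk _ e)
  rw [spk_ext] at h1
  rw [spk_ext, spk_pk, h1]
  exact Localization.AtPrime.map_eq_maximalIdeal.le

/-- `C = T / 𝔨` with `𝔨` the contraction of `ext B k 𝔫`; `𝔨 / 𝔫` is a finitely generated
`T`-module of `B`-torsion elements (`linka_torsion'` for `T / 𝔫`). -/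
theorem exists_sett [IsNoetherianRing B] [Algebra.FiniteType B T]
    (hB : Function.Injective (algebraMap B k)) (𝔫 : Ideal T) (h : (ext B k 𝔫).IsMaximal) :
    ∃ (C : Type) (_ : CommRing C) (_ : Algebra B C) (σ : T →ₐ[B] C), Sett k σ ∧
      ext B k (RingHom.ker σ) = ext B k 𝔫 ∧ ∃ b : B, b ≠ 0 ∧
        ∀ (κ : Type) [Field κ] [Algebra B κ], algebraMap B κ b ≠ 0 →
          ext B κ (RingHom.ker σ) = ext B κ 𝔫 := by
  have : IsDomain B := hB.isDomain _
  have : FaithfulSMul B k := (faithfulSMul_iff_algebraMap_injective B k).2 hB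
  have : IsNoetherianRing T := Algebra.FiniteType.isNoetherianRing B T
  let 𝔨 : Ideal T := (ext B k 𝔫).comap (Algebra.TensorProduct.includeRight : T →ₐ[B] k ⊗[B] T)
  have hk : RingHom.ker (Ideal.Quotient.mkₐ B 𝔨) = 𝔨 := Ideal.Quotient.mkₐ_ker B 𝔨
  have h1 : 𝔫 ≤ 𝔨 := Ideal.le_comap_map
  have h2 : ext B k 𝔨 = ext B k 𝔫 := le_antisymm Ideal.map_comap_le (Ideal.map_mono h1)
  have h3 : ∀ x ∈ 𝔨, ∃ b : B, b ≠ 0 ∧ b • x ∈ 𝔫 := by
    intro x hx
    have h4 : ext B k 𝔫 ≤ RingHom.ker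
        (Algebra.TensorProduct.map (AlgHom.id B k) (Ideal.Quotient.mkₐ B 𝔫)) :=
      wset_ext_le fun y hy => by
        rw [RingHom.mem_ker, Algebra.TensorProduct.map_tmul, Ideal.Quotient.mkₐ_eq_mk,
          Ideal.Quotient.eq_zero_iff_mem.2 hy, TensorProduct.tmul_zero]
    obtain ⟨b, b1, b2⟩ := linka_torsion (k := k) (x := Ideal.Quotient.mkₐ B 𝔫 x) (h4 hx)
    rw [← map_smul] at b2
    exact ⟨b, b1, Ideal.Quotient.eq_zero_iff_mem.1 b2⟩
  have h5 : ∀ I : Ideal T, I.FG → I ≤ 𝔨 → ∃ b : B, b ≠ 0 ∧ ∀ x ∈ I, b • x ∈ 𝔫 := by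
    intro I hI
    induction I, hI using Submodule.fg_induction with
    | singleton x =>
      intro hx
      obtain ⟨b, b1, b2⟩ := h3 x (hx (Submodule.mem_span_singleton_self x))
      refine ⟨b, b1, fun y hy => ?_⟩
      obtain ⟨a, rfl⟩ := Submodule.mem_span_singleton.1 hy
      rw [smul_comm]
      exact 𝔫.smul_mem a b2
    | sup I J _ _ hI hJ =>
      intro hx
      obtain ⟨b, b1, b2⟩ := hI (le_sup_left.trans hx)
      obtain ⟨c, c1, c2⟩ := hJ (le_sup_right.trans hx)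
      refine ⟨b * c, mul_ne_zero b1 c1, fun y hy => ?_⟩
      obtain ⟨u, hu, w, hw, rfl⟩ := Submodule.mem_sup.1 hy
      rw [smul_add]
      refine add_mem ?_ ?_
      · rw [mul_comm, mul_smul]
        exact Submodule.smul_of_tower_mem 𝔫 c (b2 u hu)
      · rw [mul_smul]
        exact Submodule.smul_of_tower_mem 𝔫 b (c2 w hw)
  obtain ⟨b, b1, b2⟩ := h5 𝔨 (IsNoetherian.noetherian _) le_rfl
  refine ⟨T ⧸ 𝔨, inferInstance, inferInstance, Ideal.Quotient.mkₐ B 𝔨,
    ⟨hB, Ideal.Quotient.mkₐ_surjective B 𝔨, by rwa [hk, h2], fun x hx => ?_⟩, by rw [hk, h2],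
    b, b1, fun κ _ _ hκ => ?_⟩
  · rw [hk, h2] at hx
    exact Ideal.Quotient.eq_zero_iff_mem.2 hx
  · rw [hk]
    refine le_antisymm (wset_ext_le fun x hx => ?_) (Ideal.map_mono h1)
    have h6 := wset_mem_ext (B := B) κ (b2 x hx)
    rw [TensorProduct.tmul_smul, ← algebraMap_smul κ] at h6
    have h7 := Submodule.smul_of_tower_mem _ (algebraMap B κ b)⁻¹ h6
    rwa [inv_smul_smul₀ hκ] at h7

/-- With `b` the product of the leading coefficients of equations of generators of `C`,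
`κ₀ ⊗[B] C` is finite over `κ₀`; take `κ = (κ₀ ⊗[B] T) / m`. -/
theorem Sett.exists_chi [Algebra.FiniteType B T] (h : Sett k σ) :
    ∃ b : B, b ≠ 0 ∧ ∀ (κ₀ : Type) [Field κ₀] [Finite κ₀] [Algebra B κ₀], algebraMap B κ₀ b ≠ 0 →
      ∀ m : Ideal (κ₀ ⊗[B] T), m.IsPrime → ext B κ₀ (RingHom.ker σ) ≤ m → m.IsMaximal ∧
        ∃ (κ : Type) (_ : Field κ) (_ : Finite κ) (_ : Algebra B κ) (ι : κ₀ →ₐ[B] κ)
          (χ : C →ₐ[B] κ), (pk (χ.comp σ)).comap (bm T ι) = m := by
  classical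
  have : IsDomain B := h.inj.isDomain _
  have := h.alg
  obtain ⟨s, hs⟩ := Algebra.FiniteType.out (R := B) (A := T)
  obtain ⟨b, b1, b2⟩ := Algebra.IsAlgebraic.exists_integral_multiples B (s.image σ)
  refine ⟨b, b1, fun κ₀ _ _ _ hb m hm hle => ?_⟩
  let τ : T →ₐ[B] (κ₀ ⊗[B] T) ⧸ m :=
    (Ideal.Quotient.mkₐ B m).comp Algebra.TensorProduct.includeRight
  have h1 : RingHom.ker σ.toRingHom ≤ RingHom.ker τ.toRingHom := fun x hx =>
    Ideal.Quotient.eq_zero_iff_mem.2 (hle (wset_mem_ext κ₀ hx))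
  let χ := AlgHom.liftOfSurjective σ h.surj τ h1
  have hχ : χ.comp σ = τ := AlgHom.liftOfSurjective_comp _ _ _ _
  have h2 : ∀ x, IsIntegral κ₀ (τ x) := by
    have h3 : Algebra.adjoin B (s : Set T) ≤
        ((integralClosure κ₀ ((κ₀ ⊗[B] T) ⧸ m)).restrictScalars B).comap τ := by
      refine Algebra.adjoin_le fun x hx => ?_
      have h4 : IsIntegral κ₀ (χ (b • σ x)) :=
        ((b2 _ (Finset.mem_image_of_mem σ hx)).map χ).tower_top
      rw [map_smul, AlgHom.liftOfSurjective_apply, ← algebraMap_smul κ₀] at h4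
      have h5 := h4.smul (algebraMap B κ₀ b)⁻¹
      rwa [inv_smul_smul₀ hb] at h5
    exact fun x => h3 (hs ▸ Algebra.mem_top)
  have h6 : ∀ a x, Ideal.Quotient.mk m (a ⊗ₜ[B] x) = algebraMap κ₀ _ a * τ x := fun a x => by
    change _ = Ideal.Quotient.mk m (a ⊗ₜ[B] 1) * Ideal.Quotient.mk m (1 ⊗ₜ[B] x)
    rw [← map_mul, Algebra.TensorProduct.tmul_mul_tmul, mul_one, one_mul]
  have : Algebra.IsIntegral κ₀ ((κ₀ ⊗[B] T) ⧸ m) := ⟨fun y => by
    obtain ⟨z, rfl⟩ := Ideal.Quotient.mk_surjective y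
    induction z using TensorProduct.induction_on with
    | zero => rw [map_zero]; exact isIntegral_zero
    | tmul a x => rw [h6]; exact isIntegral_algebraMap.mul (h2 x)
    | add x y hx hy => rw [map_add]; exact hx.add hy⟩
  have : Module.Finite κ₀ ((κ₀ ⊗[B] T) ⧸ m) := Algebra.IsIntegral.finite
  have hfin : Finite ((κ₀ ⊗[B] T) ⧸ m) := Module.finite_of_finite κ₀
  have hmax : m.IsMaximal := Ideal.Quotient.maximal_of_isField m (Finite.isField_of_domain _)
  refine ⟨hmax, (κ₀ ⊗[B] T) ⧸ m, Ideal.Quotient.field m, hfin, Ideal.Quotient.algebra B,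
    IsScalarTower.toAlgHom B κ₀ ((κ₀ ⊗[B] T) ⧸ m), χ, ?_⟩
  have h7 : ∀ z, pa τ (bm T (IsScalarTower.toAlgHom B κ₀ ((κ₀ ⊗[B] T) ⧸ m)) z) =
      Ideal.Quotient.mk m z := fun z => by
    induction z using TensorProduct.induction_on with
    | zero => rw [map_zero, map_zero, map_zero]
    | tmul a x => rw [h6, Algebra.TensorProduct.map_tmul, pa_tmul]; rfl
    | add x y hx hy => rw [map_add, map_add, map_add, hx, hy]
  ext z
  change pa (χ.comp σ) _ = 0 ↔ _
  rw [hχ]
  exact (h7 z).symm ▸ Ideal.Quotient.eq_zero_iff_mem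

end

end Pool.Agent.Lib.MP_4287a9_ag
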