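import Pool.Agent.Lib.MP_4287a9_ag.WTa
import Pool.Agent.Lib.MP_4287a9_ag.TD0c
import Pool.Agent.Lib.MP_4287a9_ag.WSet

/-!
Noether normalization data on the fibres over finite fields (compare `TD0c`).
-/

open scoped TensorProduct ENNReal NNReal nonZeroDivisors Polynomial
open Filter

namespace Pool.Agent.Lib.MP_4287a9_ag

noncomputable section

private def WTbSp {I R R' : Type} [CommRing R] [CommRing R'] (ψ : R →+* R') (β : I → R')
    (w : R') : Prop :=
  ∃ g : I →₀ R, w = g.sum fun i p => ψ p * β i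

private theorem WTbSp.add {I R R' : Type} [CommRing R] [CommRing R'] {ψ : R →+* R'} {β : I → R'}
    {v w : R'} (h : WTbSp ψ β v) (h' : WTbSp ψ β w) : WTbSp ψ β (v + w) := by
  obtain ⟨g, rfl⟩ := h
  obtain ⟨g', rfl⟩ := h'
  exact ⟨g + g', (Finsupp.sum_add_index' (fun i => by simp) fun i a c => by
    rw [map_add, add_mul]).symm⟩

private theorem WTbSp.mul {I R R' : Type} [CommRing R] [CommRing R'] {ψ : R →+* R'} {β : I → R'}
    {w : R'} (h : WTbSp ψ β w) (r : R) : WTbSp ψ β (w * ψ r) := by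
  obtain ⟨g, rfl⟩ := h
  refine ⟨r • g, ?_⟩
  rw [Finsupp.sum_smul_index' (fun i => by simp), Finsupp.sum, Finsupp.sum, Finset.sum_mul]
  refine Finset.sum_congr rfl fun i _ => ?_
  rw [smul_eq_mul, map_mul]
  ring

private theorem WTbSp.map {I R R' S S' : Type} [CommRing R] [CommRing R'] [CommRing S]
    [CommRing S'] {ψ : R →+* R'} {β : I → R'} {w : R'} (h : WTbSp ψ β w) (ψ' : S →+* S')
    (f : R →+* S) (f' : R' →+* S') (e : ∀ r, f' (ψ r) = ψ' (f r)) :
    WTbSp ψ' (fun i => f' (β i)) (f' w) := by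
  obtain ⟨g, rfl⟩ := h
  refine ⟨g.mapRange f (map_zero f), ?_⟩
  rw [Finsupp.sum_mapRange_index (fun i => by simp), Finsupp.sum, Finsupp.sum, map_sum]
  refine Finset.sum_congr rfl fun i _ => ?_
  rw [map_mul, e]

private theorem WTb_ext_le {B T κ κ' : Type} [CommRing B] [CommRing T] [Algebra B T] [CommRing κ]
    [CommRing κ'] [Algebra B κ] [Algebra B κ'] (ι : κ →ₐ[B] κ') (I : Ideal T) {y : κ ⊗[B] T}
    (hy : y ∈ ext B κ I) : bm T ι y ∈ ext B κ' I := by
  have : ext B κ I ≤ (ext B κ' I).comap (bm T ι) := by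
    rw [ext, Ideal.map_le_iff_le_comap]
    intro t ht
    have e : bm T ι ((1 : κ) ⊗ₜ[B] t) = (1 : κ') ⊗ₜ[B] t := by simp
    change bm T ι ((1 : κ) ⊗ₜ[B] t) ∈ ext B κ' I
    rw [e]
    exact Ideal.mem_map_of_mem _ ht
  exact this hy

/-- All conditions are stable under an extension of the ground field (the extension is free). -/
theorem nd_baseChange {B T κ κ' : Type} [CommRing B] [CommRing T] [Algebra B T] [Field κ]
    [Field κ'] [Algebra B κ] [Algebra B κ'] (ι : κ →ₐ[B] κ') (m₀ 𝔡 : Ideal T) {n C : ℕ}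
    (d : ND B T n C) (h : (TD0c_fib d κ).Good (ext B κ m₀) (ext B κ 𝔡)) :
    (TD0c_fib d κ').Good (ext B κ' m₀) (ext B κ' 𝔡) := by
  classical
  let _ : Algebra κ κ' := ι.toRingHom.toAlgebra
  have : IsScalarTower B κ κ' := IsScalarTower.of_algebraMap_eq fun a => (ι.commutes a).symm
  let b := Module.Free.chooseBasis κ κ'
  let φ : MvPolynomial (Fin n) κ →+* MvPolynomial (Fin n) κ' := MvPolynomial.map ι.toRingHom
  let ψ : κ ⊗[B] T →+* κ' ⊗[B] T := (bm T ι).toRingHom
  have ψt : ∀ (a : κ) (t : T), ψ (a ⊗ₜ[B] t) = ι a ⊗ₜ[B] t := fun a t => by simp [ψ]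
  have ψ1 : ∀ t : T, ψ ((1 : κ) ⊗ₜ[B] t) = (1 : κ') ⊗ₜ[B] t := fun t => by rw [ψt, map_one]
  have φφ : ∀ p, φ (MvPolynomial.map (algebraMap B κ) p) = MvPolynomial.map (algebraMap B κ') p :=
    fun p => by
      simp only [φ, MvPolynomial.map_map]
      congr 2
      exact RingHom.ext fun a => ι.commutes a
  have hax : ∀ p, (TD0c_fib d κ').ax (φ p) = ψ ((TD0c_fib d κ).ax p) := by
    have : (TD0c_fib d κ').ax.comp φ = ψ.comp (TD0c_fib d κ).ax := by
      refine MvPolynomial.ringHom_ext (fun r => ?_) fun i => ?_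
      · rw [RingHom.comp_apply, RingHom.comp_apply, MvPolynomial.map_C, TD0c_axC, TD0c_axC,
          Algebra.TensorProduct.algebraMap_apply, Algebra.TensorProduct.algebraMap_apply, ψt]
        rfl
      · rw [RingHom.comp_apply, RingHom.comp_apply, MvPolynomial.map_X, TD0b.ax_X, TD0b.ax_X]
        exact (ψ1 _).symm
    exact RingHom.congr_fun this
  have hev : ∀ f, (TD0c_fib d κ').ev (f.map φ) = ψ ((TD0c_fib d κ).ev f) := by
    have : (TD0c_fib d κ').ev.comp (Polynomial.mapRingHom φ) = ψ.comp (TD0c_fib d κ).ev := by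
      refine Polynomial.ringHom_ext (fun r => ?_) ?_
      · rw [RingHom.comp_apply, RingHom.comp_apply, Polynomial.coe_mapRingHom, Polynomial.map_C,
          TD0c_evC, TD0c_evC, hax]
      · rw [RingHom.comp_apply, RingHom.comp_apply, Polynomial.coe_mapRingHom, Polynomial.map_X,
          TD0b.ev_X, TD0b.ev_X]
        exact (ψ1 _).symm
    exact RingHom.congr_fun this
  have hP : (TD0c_fib d κ').P = (TD0c_fib d κ).P.map φ := by
    change d.P.map _ = (d.P.map _).map φ
    rw [Polynomial.map_map]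
    congr 1
    exact RingHom.ext fun p => (φφ p).symm
  have hc0 : (TD0c_fib d κ').c0 = φ (TD0c_fib d κ).c0 := (φφ _).symm
  have hN : (TD0c_fib d κ').N = φ (TD0c_fib d κ).N := (φφ _).symm
  have hc1 : (TD0c_fib d κ').c1 = ψ (TD0c_fib d κ).c1 := by rw [TD0c_c1, TD0c_c1, ψ1]
  have hω : ∀ i, (TD0c_fib d κ').ω i = ψ ((TD0c_fib d κ).ω i) := fun i => (ψ1 _).symm
  have s0 : ∀ a : κ', WTbSp ι.toRingHom b a := fun a =>
    ⟨b.repr a, (b.linearCombination_repr a).symm.trans (by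
      rw [Finsupp.linearCombination_apply]
      rfl)⟩
  have s1 : ∀ p : MvPolynomial (Fin n) κ', WTbSp φ (fun i => MvPolynomial.C (b i)) p := fun p => by
    induction p using MvPolynomial.induction_on with
    | C a => exact (s0 a).map φ MvPolynomial.C MvPolynomial.C fun r => (MvPolynomial.map_C _ _).symm
    | add p q hp hq => exact hp.add hq
    | mul_X p i hp =>
      have := hp.mul (MvPolynomial.X i)
      rwa [MvPolynomial.map_X] at this
  have s2 : ∀ f : (MvPolynomial (Fin n) κ')[X], WTbSp (Polynomial.mapRingHom φ)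
      (fun i => Polynomial.C (MvPolynomial.C (b i))) f := fun f => by
    induction f using Polynomial.induction_on' with
    | add p q hp hq => exact hp.add hq
    | monomial k a =>
      have := ((s1 a).map (Polynomial.mapRingHom φ) Polynomial.C Polynomial.C
        fun r => (Polynomial.map_C _).symm).mul (Polynomial.X ^ k)
      rwa [Polynomial.coe_mapRingHom, Polynomial.map_pow, Polynomial.map_X,
        Polynomial.C_mul_X_pow_eq_monomial] at this
  have tm : ∀ (a : κ') (t : T), a ⊗ₜ[B] t = algebraMap κ' (κ' ⊗[B] T) a * ψ (1 ⊗ₜ[B] t) :=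
    fun a t => by
      rw [ψ1, Algebra.TensorProduct.algebraMap_apply, Algebra.TensorProduct.tmul_mul_tmul]
      simp
  have s3 : ∀ w : κ' ⊗[B] T, WTbSp ψ (fun i => algebraMap κ' (κ' ⊗[B] T) (b i)) w := fun w => by
    induction w using TensorProduct.induction_on with
    | zero => exact ⟨0, by simp⟩
    | add p q hp hq => exact hp.add hq
    | tmul a t =>
      rw [tm]
      refine ((s0 a).map ψ (algebraMap κ (κ ⊗[B] T)) (algebraMap κ' (κ' ⊗[B] T)) fun r => ?_).mul _
      rw [Algebra.TensorProduct.algebraMap_apply, Algebra.TensorProduct.algebraMap_apply, ψt]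
      rfl
  have ind : ∀ (s : Finset _) (y : _ → κ ⊗[B] T),
      ∑ i ∈ s, ψ (y i) * algebraMap κ' (κ' ⊗[B] T) (b i) = 0 → ∀ j ∈ s, y j = 0 := by
    intro s y hy j hj
    let co : κ' ⊗[B] T →ₗ[B] κ ⊗[B] T := LinearMap.rTensor T ((b.coord j).restrictScalars B)
    have h1 : ∀ (u : κ ⊗[B] T) i, co (ψ u * algebraMap κ' (κ' ⊗[B] T) (b i)) =
        if i = j then u else 0 := fun u i => by
      induction u using TensorProduct.induction_on with
      | zero => simp
      | add p q hp hq =>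
        rw [map_add, add_mul, map_add, hp, hq]
        split_ifs <;> simp
      | tmul a t =>
        rw [ψt, Algebra.TensorProduct.algebraMap_apply, Algebra.TensorProduct.tmul_mul_tmul,
          mul_one, show ι a * algebraMap κ' κ' (b i) = a • b i from rfl]
        simp only [co, LinearMap.rTensor_tmul, LinearMap.restrictScalars_apply, map_smul,
          Module.Basis.coord_apply, Module.Basis.repr_self, Finsupp.single_apply]
        split_ifs <;> simp
    have h2 := congrArg co hy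
    rw [map_sum, map_zero, Finset.sum_congr rfl fun i _ => h1 (y i) i, Finset.sum_ite_eq',
      if_pos hj] at h2
    exact h2
  refine ⟨fun i => ?_, ?_, hP ▸ h.monic.map _, by rw [hP, hev, h.root, map_zero], fun f hf => ?_,
    fun w => ?_, fun w => ?_, ?_, ?_, ?_, ?_⟩
  · have := WTb_ext_le ι m₀ (h.hx i)
    rwa [show bm T ι ((TD0c_fib d κ).x i) = (TD0c_fib d κ').x i from ψ1 _] at this
  · have := WTb_ext_le ι 𝔡 h.hγ
    rwa [show bm T ι (TD0c_fib d κ).γ = (TD0c_fib d κ').γ from ψ1 _] at this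
  · obtain ⟨g, rfl⟩ := s2 f
    have h1 := ind g.support (fun i => (TD0c_fib d κ).ev (g i)) (by
      rw [← hf, Finsupp.sum, map_sum]
      refine Finset.sum_congr rfl fun i _ => ?_
      rw [map_mul, TD0c_evC, TD0c_axC, Polynomial.coe_mapRingHom, hev])
    refine Finset.dvd_sum fun i hi => Dvd.dvd.mul_right ?_ _
    rw [hP]
    exact Polynomial.map_dvd _ (h.inj _ (h1 i hi))
  · induction w using TensorProduct.induction_on with
    | zero => exact ⟨0, by simp⟩
    | add p q hp hq =>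
      obtain ⟨f, hf⟩ := hp
      obtain ⟨g, hg⟩ := hq
      exact ⟨f + g, by rw [map_add, hf, hg, mul_add]⟩
    | tmul a t =>
      obtain ⟨f, hf⟩ := h.cond (1 ⊗ₜ[B] t)
      refine ⟨Polynomial.C (MvPolynomial.C a) * f.map φ, ?_⟩
      rw [map_mul, TD0c_evC, TD0c_axC, hev, hf, map_mul, hc0, hax, tm a t, mul_left_comm]
  · induction w using TensorProduct.induction_on with
    | zero => exact ⟨0, by simp⟩
    | add p q hp hq =>
      obtain ⟨f, hf⟩ := hp
      obtain ⟨g, hg⟩ := hq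
      refine ⟨f + g, ?_⟩
      rw [hf, hg, ← Finset.sum_add_distrib]
      exact Finset.sum_congr rfl fun i _ => by rw [Pi.add_apply, map_add, add_mul]
    | tmul a t =>
      obtain ⟨f, hf⟩ := h.span (1 ⊗ₜ[B] t)
      refine ⟨fun i => MvPolynomial.C a * φ (f i), ?_⟩
      rw [tm a t, hf, map_sum, Finset.mul_sum]
      exact Finset.sum_congr rfl fun i _ => by
        rw [map_mul, map_mul, TD0c_axC, hax, hω, mul_assoc]
  · refine mem_nonZeroDivisors_iff_left.2 fun w hw => ?_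
    obtain ⟨g, rfl⟩ := s3 w
    have h1 := ind g.support (fun i => (TD0c_fib d κ).c1 * g i) (by
      rw [← hw, Finsupp.sum, Finset.mul_sum]
      refine Finset.sum_congr rfl fun i _ => ?_
      rw [map_mul, hc1, mul_assoc])
    refine Finset.sum_eq_zero fun i hi => ?_
    beta_reduce
    rw [mem_nonZeroDivisors_iff_left.1 h.reg _ (h1 i hi), map_zero, zero_mul]
  · rw [hN]
    exact (map_ne_zero_iff _ (MvPolynomial.map_injective _ ι.toRingHom.injective)).2 h.hN
  · rw [hN]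
    exact (Finset.sup_mono (MvPolynomial.support_map_subset _ _)).trans h.deg
  · rw [hc1, hN, hax, ← map_pow]
    exact map_dvd ψ h.dvd

private theorem WTb_fibre {B T : Type} [CommRing B] [IsDomain B] [IsNoetherianRing B] [CommRing T]
    [Algebra B T] [Algebra.FiniteType B T] (m₀ 𝔡 : Ideal T) {n C : ℕ}
    (d : ND B T n C) {b : B} (hb : b ≠ 0) (hd : d.GoodB m₀ 𝔡 b) :
    ∃ b' : B, b' ≠ 0 ∧ ∀ (κ : Type) [Field κ] [Algebra B κ],
      Function.Surjective (algebraMap B κ) → algebraMap B κ b' ≠ 0 →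
        (TD0c_fib d κ).Good (ext B κ m₀) (ext B κ 𝔡) := by
  let : Algebra (MvPolynomial (Fin n) B)[X] T := d.ev.toAlgebra
  have : IsScalarTower B (MvPolynomial (Fin n) B)[X] T :=
    IsScalarTower.of_algebraMap_eq fun a => ((TD0c_evC d _).trans (TD0c_axC d a)).symm
  obtain ⟨b1, hb1, h1⟩ := TD0c_pure (R := (MvPolynomial (Fin n) B)[X]) d.ω b fun w => by
    obtain ⟨j, a, e⟩ := hd.span w
    refine ⟨j, e ▸ Submodule.sum_mem _ fun i _ => ?_⟩
    rw [← TD0c_evC]
    exact Submodule.smul_mem _ (Polynomial.C (a i)) (Submodule.subset_span ⟨i, rfl⟩)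
  obtain ⟨b2, hb2, h2⟩ := gen_reg B T T d.c1 hd.reg
  obtain ⟨s, hs⟩ := MvPolynomial.ne_zero_iff.1 hd.hN
  refine ⟨b * b1 * b2 * d.N.coeff s, mul_ne_zero (mul_ne_zero (mul_ne_zero hb hb1) hb2) hs,
    fun κ _ _ hκ h0 => ?_⟩
  simp only [map_mul, mul_ne_zero_iff] at h0
  obtain ⟨⟨⟨k0, k1⟩, k2⟩, k3⟩ := h0
  have hz := RingHom.ker_isMaximal_of_surjective _ hκ
  have hπ : ∀ w : κ ⊗[B] T, ∃ t, w = 1 ⊗ₜ t := fun w =>
    (Algebra.TensorProduct.includeRight_surjective T hκ w).imp fun _ e => e.symm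
  have hu : ∀ j : ℕ, IsUnit (algebraMap κ (κ ⊗[B] T) (algebraMap B κ (b ^ j))) := fun j =>
    (IsUnit.mk0 _ (by rw [map_pow]; exact pow_ne_zero _ k0)).map _
  have hu1 : IsUnit (algebraMap κ (κ ⊗[B] T) (algebraMap B κ b)) := (IsUnit.mk0 _ k0).map _
  have span : ∀ w, ∃ a : Fin C → MvPolynomial (Fin n) κ,
      w = ∑ i, (TD0c_fib d κ).ax (a i) * (TD0c_fib d κ).ω i := fun w => by
    obtain ⟨t, rfl⟩ := hπ w
    obtain ⟨j, a, e⟩ := hd.span t
    refine ⟨fun i => MvPolynomial.C (algebraMap B κ (b ^ j))⁻¹ *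
      MvPolynomial.map (algebraMap B κ) (a i), (hu j).mul_left_cancel ?_⟩
    rw [← TD0c_smul, e, TensorProduct.tmul_sum, Finset.mul_sum]
    refine Finset.sum_congr rfl fun i _ => ?_
    rw [map_mul, TD0c_axC, TD0c_ax, ← mul_assoc, ← mul_assoc, ← map_mul,
      mul_inv_cancel₀ (by rw [map_pow]; exact pow_ne_zero _ k0), map_one, one_mul]
    simp [TD0c_fib]
  refine ⟨fun i => ?_, Ideal.mem_map_of_mem _ hd.hγ, hd.monic.map _, ?_, fun f' hf => ?_,
    fun w => ?_, span, ?_, fun e => k3 ?_, ?_, ?_⟩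
  · exact Ideal.mem_map_of_mem _ (hd.hx i)
  · refine hu1.mul_right_eq_zero.1 ?_
    rw [show (TD0c_fib d κ).ev (TD0c_fib d κ).P = _ from TD0c_ev d κ d.P, ← TD0c_smul, hd.root,
      TensorProduct.tmul_zero]
  · obtain ⟨f, rfl⟩ := Polynomial.map_surjective _ (MvPolynomial.map_surjective _ hκ) f'
    rw [TD0c_ev, TD0c_ker hκ] at hf
    obtain ⟨j, g, hg, e⟩ := h1 _ hz k1 f hf
    have g0 : g.map (MvPolynomial.map (algebraMap B κ)) = 0 := by
      have : Ideal.map (algebraMap B (MvPolynomial (Fin n) B)[X]) (RingHom.ker (algebraMap B κ)) ≤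
          RingHom.ker (Polynomial.mapRingHom (MvPolynomial.map (algebraMap B κ))) :=
        Ideal.map_le_iff_le_comap.2 fun a ha => by
          simp [RingHom.mem_ker.1 ha]
      exact this hg
    have e' : d.ev g = b ^ j • d.ev f := e
    have h3 := Polynomial.map_dvd (MvPolynomial.map (algebraMap B κ))
      (hd.inj (Polynomial.C (MvPolynomial.C (b ^ j)) * f - g) (by
        rw [map_sub, map_mul, TD0c_evC, TD0c_axC, e', Algebra.smul_def, sub_self]))
    rw [Polynomial.map_sub, g0, sub_zero, Polynomial.map_mul, Polynomial.map_C,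
      MvPolynomial.map_C] at h3
    exact (IsUnit.dvd_mul_left (((IsUnit.mk0 _ (by rw [map_pow]; exact pow_ne_zero _ k0)).map
      MvPolynomial.C).map Polynomial.C)).1 h3
  · obtain ⟨a, rfl⟩ := span w
    choose f hf using hd.cond
    refine ⟨∑ i, Polynomial.C (a i * MvPolynomial.C (algebraMap B κ b)⁻¹) *
      (f i).map (MvPolynomial.map (algebraMap B κ)), ?_⟩
    rw [map_sum, Finset.mul_sum]
    refine Finset.sum_congr rfl fun i _ => ?_
    rw [map_mul, TD0c_evC, TD0c_ev, hf, TD0c_smul, map_mul, TD0c_axC, mul_assoc,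
      ← mul_assoc _ _ (_ ⊗ₜ _), ← map_mul, inv_mul_cancel₀ k0, map_one, one_mul,
      show (TD0c_fib d κ).ax (TD0c_fib d κ).c0 = _ from TD0c_ax d κ d.c0, mul_left_comm]
    simp [TD0c_fib]
  · refine mem_nonZeroDivisors_iff_left.2 fun w hw => ?_
    obtain ⟨t, rfl⟩ := hπ w
    rw [TD0c_c1, Algebra.TensorProduct.tmul_mul_tmul, one_mul, TD0c_ker hκ] at hw
    exact (TD0c_ker hκ t).2 (h2 _ hz k2 t hw)
  · rw [← MvPolynomial.coeff_map, show MvPolynomial.map (algebraMap B κ) d.N = 0 from e,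
      MvPolynomial.coeff_zero]
  · exact (Finset.sup_mono (MvPolynomial.support_map_subset _ _)).trans hd.deg
  · obtain ⟨u, e⟩ := hd.dvd
    refine (IsUnit.dvd_mul_left hu1).1 ⟨1 ⊗ₜ u, ?_⟩
    rw [show (TD0c_fib d κ).ax (TD0c_fib d κ).N = _ from TD0c_ax d κ d.N, ← TD0c_smul, e, TD0c_c1]
    simp

/-- As `nd_fibre` for the image of `B` in `κ` (`exists_range_field`), then `nd_baseChange`. -/
theorem nd_fibre' {B T : Type} [CommRing B] [IsDomain B] [IsNoetherianRing B] [CommRing T]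
    [Algebra B T] [Algebra.FiniteType B T] (m₀ 𝔡 : Ideal T) {n C : ℕ} (d : ND B T n C) {b : B}
    (hb : b ≠ 0) (hd : d.GoodB m₀ 𝔡 b) :
    ∃ b' : B, b' ≠ 0 ∧ ∀ (κ : Type) [Field κ] [Finite κ] [Algebra B κ], algebraMap B κ b' ≠ 0 →
      (TD0c_fib d κ).Good (ext B κ m₀) (ext B κ 𝔡) := by
  obtain ⟨b', hb', h⟩ := WTb_fibre m₀ 𝔡 d hb hd
  refine ⟨b', hb', fun κ _ _ _ h0 => ?_⟩
  obtain ⟨κ₁, _, _, _, χ₁, e, hs, -⟩ := exists_range_field (Algebra.ofId B κ)
  refine nd_baseChange e m₀ 𝔡 d (h κ₁ (fun a => ?_) fun h1 => h0 ?_)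
  · obtain ⟨c, rfl⟩ := hs a
    exact ⟨c, (χ₁.commutes c).symm⟩
  · rw [← e.commutes, h1, map_zero]

/-- As `exists_tdata` with `m₀ = ker σ`, `c = c1 ^ 2`, `δ = 1 ⊗ γ` (a divisor of the regular
element `c1`). `Sett.alg` gives the hypothesis of `exists_nd_field'`. If `1 ⊗ c = 0` then `c1`,
hence `1`, is `B`-torsion (`GoodB.reg`). -/
theorem Sett.exists_tg {k B T C : Type} [Field k] [CharZero k] [CommRing B] [IsNoetherianRing B]
    [Algebra B k] [CommRing T] [Algebra B T] [Algebra.FiniteType B T] [CommRing C] [Algebra B C]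
    {σ : T →ₐ[B] C} (h : Sett k σ) [IsDomain (k ⊗[B] T)] {n : ℕ} (hn1 : 1 ≤ n)
    (hn : Algebra.trdeg k (k ⊗[B] T) = n) {𝔡 : Ideal T} (h𝔡 : ext B k 𝔡 ≠ ⊥) :
    NZ B 𝔡 ∧ ∃ (E : ℕ) (c : T) (x : Fin n → T), (1 : k) ⊗ₜ[B] c ≠ 0 ∧ TG σ 𝔡 n E c x := by
  have hB := h.inj
  have : IsDomain B := hB.isDomain _
  have : CharZero B := (algebraMap B k).charZero
  have : CharZero (FractionRing B) := IsFractionRing.charZero B
  have : FaithfulSMul B k := (faithfulSMul_iff_algebraMap_injective B k).2 hB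
  have := h.isDomain
  have hC := h.injC
  have := h.alg
  obtain ⟨i1, h1, h2⟩ := descend_frac hB hn h𝔡
  obtain ⟨E, d, hd⟩ := exists_nd_field' (ext B (FractionRing B) (RingHom.ker σ)) (fun w => by
    obtain ⟨⟨t, s⟩, hw⟩ := IsLocalizedModule.surj B⁰ (TensorProduct.mk B (FractionRing B) T 1) w
    obtain ⟨p, hp, e⟩ := Algebra.IsAlgebraic.isAlgebraic (R := B) (σ t)
    have hs : algebraMap B (FractionRing B) s ≠ 0 :=
      (map_ne_zero_iff _ (IsFractionRing.injective B _)).2 (nonZeroDivisors.coe_ne_zero s)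
    refine ⟨(p.map (algebraMap B (FractionRing B))).comp
      (Polynomial.C (algebraMap B (FractionRing B) s) * Polynomial.X), ?_, ?_⟩
    · rw [Ne, Polynomial.comp_C_mul_X_eq_zero_iff (mem_nonZeroDivisors_of_ne_zero hs),
        Polynomial.map_eq_zero_iff (IsFractionRing.injective B _)]
      exact hp
    · have e1 : algebraMap (FractionRing B) (FractionRing B ⊗[B] T)
          (algebraMap B (FractionRing B) s) * w =
          (Algebra.TensorProduct.includeRight : T →ₐ[B] FractionRing B ⊗[B] T) t := by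
        rw [← IsScalarTower.algebraMap_apply, ← Algebra.smul_def]
        exact hw
      rw [Polynomial.aeval_comp, map_mul, Polynomial.aeval_C, Polynomial.aeval_X, e1,
        Polynomial.aeval_map_algebraMap, Polynomial.aeval_algHom_apply]
      refine Ideal.mem_map_of_mem _ ?_
      rw [RingHom.mem_ker, ← Polynomial.aeval_algHom_apply, e]) h1 h2
  obtain ⟨d1, b1, hb1, hd1⟩ := exists_nd_base' (RingHom.ker σ) (fun b hb x hx => by
    rw [RingHom.mem_ker, map_smul, Algebra.smul_def, mul_eq_zero] at hx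
    exact hx.resolve_left ((map_ne_zero_iff _ hC).2 hb)) 𝔡 d hd
  obtain ⟨b, hb, hf⟩ := nd_fibre' (RingHom.ker σ) 𝔡 d1 hb1 hd1
  refine ⟨⟨b, hb, fun κ _ _ _ h0 => ⟨_, (hf κ h0).hγ, (mul_mem_nonZeroDivisors.1 (hf κ h0).reg).2⟩⟩,
    E * E + E, d1.c1 ^ 2, d1.x, fun h0 => ?_, algebraMap B C b, (map_ne_zero_iff _ hC).2 hb,
    fun κ _ _ _ χ h0 => ?_⟩
  · have h3 : (1 : k) ⊗ₜ[B] d1.c1 = 0 := by
      refine pow_eq_zero_iff two_ne_zero |>.1 ?_
      rw [Algebra.TensorProduct.tmul_pow, one_pow, h0]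
    obtain ⟨a, ha, e⟩ := linka_torsion h3
    obtain ⟨a', ha', e'⟩ := hd1.reg (a • 1) (by rw [mul_smul_comm, mul_one, e])
    have h4 : algebraMap k (k ⊗[B] T) (algebraMap B k (a' * a)) = 0 := by
      have := TD0c_smul k (a' * a) (1 : T)
      rw [mul_smul, e', TensorProduct.tmul_zero, ← Algebra.TensorProduct.one_def, mul_one] at this
      exact this.symm
    rw [map_eq_zero, map_eq_zero_iff _ hB] at h4
    exact mul_ne_zero ha' ha h4
  · rw [χ.commutes] at h0
    have g0 := hf κ h0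
    have g : (TD0c_fib d1 κ).Good (pk (χ.comp σ)) (ext B κ 𝔡) :=
      ⟨fun i => ext_ker_le_pk σ χ (g0.hx i), g0.hγ, g0.monic, g0.root, g0.inj, g0.cond, g0.span,
        g0.reg, g0.hN, g0.deg, g0.dvd⟩
    have : Fact (ringChar κ).Prime := ⟨CharP.char_is_prime κ _⟩
    have e : (1 : κ) ⊗ₜ[B] (d1.c1 ^ 2) = (TD0c_fib d1 κ).c1 ^ 2 := by
      rw [TD0c_c1, Algebra.TensorProduct.tmul_pow, one_pow]
    rw [e]
    exact ⟨fun e => g.t1 e, fun e i => g.t2 _ i, g.t3 hn1 (pk_isMaximal _)⟩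

end

end Pool.Agent.Lib.MP_4287a9_ag
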