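import Pool.Agent.Lib.MP_4287a9_ag.WM1
import Pool.Agent.Lib.MP_4287a9_ag.WCb
import Pool.Agent.Lib.MP_4287a9_ag.WDt
import Pool.Agent.Lib.MP_4287a9_ag.WPar
import Pool.Agent.Lib.MP_4287a9_ag.WTb

/-!
The limit argument for the lower bound.
-/

open scoped TensorProduct ENNReal NNReal nonZeroDivisors Polynomial
open Filter

namespace Pool.Agent.Lib.MP_4287a9_ag

noncomputable section

/-- The standing hypotheses. -/
structure Ctx (k : Type) {B T C : Type} [Field k] [CommRing B] [Algebra B k] [CommRing T]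
    [Algebra B T] [CommRing C] [Algebra B C] [IsDomain (k ⊗[B] T)] (σ : T →ₐ[B] C) (n : ℕ)
    (𝔡 : Ideal T) (r E : ℕ) (c : T) (x : Fin n → T) : Prop where
  st : Sett k σ
  hn1 : 1 ≤ n
  hn : Algebra.trdeg k (k ⊗[B] T) = n
  hr : 0 < r
  hd : ext B k 𝔡 ≠ ⊥
  hz : NZ B 𝔡
  hc : (1 : k) ⊗ₜ[B] c ≠ 0
  hT : TG σ 𝔡 n E c x
  hk : KltV k n (ext B k (RingHom.ker σ)) (ext B k 𝔡) r ⊤ 0

theorem ext_pow_le {B T : Type} [CommRing B] [CommRing T] [Algebra B T] (F : Type) [CommRing F]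
    [Algebra B F] {I J : Ideal T} {N : ℕ} (h : I ^ N ≤ J) : ext B F I ^ N ≤ ext B F J := by
  rw [ext, ← Ideal.map_pow]
  exact Ideal.map_mono h

theorem radical_eq_of_max {R : Type} [CommRing R] {m J : Ideal R} (hm : m.IsMaximal) {N : ℕ}
    (h1 : m ^ N ≤ J) (h2 : J ≤ m) : J.radical = m :=
  le_antisymm (hm.isPrime.radical_le_iff.2 h2) fun _ hy => ⟨N, h1 (Ideal.pow_mem_pow hy N)⟩

theorem inst_lo {B T κ : Type} [CommRing B] [CommRing T] [Algebra B T] [Algebra.FiniteType B T]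
    [Field κ] [Finite κ] [Algebra B κ] (m : Ideal (κ ⊗[B] T)) [m.IsPrime] :
    (ringChar κ).Prime ∧ IsNoetherianRing (Localization.AtPrime m) ∧
      CharP (Localization.AtPrime m) (ringChar κ) := by
  have : IsNoetherianRing (κ ⊗[B] T) := Algebra.FiniteType.isNoetherianRing κ _
  exact ⟨CharP.char_is_prime κ _, IsLocalization.isNoetherianRing m.primeCompl _ inferInstance,
    charP_of_injective_algebraMap (algebraMap κ (Localization.AtPrime m)).injective _⟩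

variable {k B T C : Type} [Field k] [CharZero k] [CommRing B] [Algebra.FiniteType ℤ B] [Algebra B k]
  [CommRing T] [Algebra B T] [Algebra.FiniteType B T] [CommRing C] [Algebra B C]
  [IsDomain (k ⊗[B] T)] [IsIntegrallyClosed (k ⊗[B] T)] {σ : T →ₐ[B] C} {n : ℕ} {𝔡 : Ideal T}
  {r E : ℕ} {c : T} {x : Fin n → T}

theorem Ctx.gen (h : Ctx k σ n 𝔡 r E c x) {𝔠 : Ideal T} (h𝔠 : ext B k 𝔠 ≠ ⊥) {t : ℝ≥0}
    (hk : KltV k n (ext B k (RingHom.ker σ)) (ext B k 𝔡) r (ext B k 𝔠) t) :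
    Gen True σ 𝔡 r (ext B C 𝔠) t := by
  obtain ⟨μ, h1, h2, h3, -⟩ := hk.exists_mdl h.hn1 h.hn h.hd h.hr
  exact h.st.gen_of_hasGD h.hz h1
    (h3.hasGD h.hr fun h0 => h𝔠 ((Ideal.map_eq_bot_iff_of_injective h2).1 h0))

theorem Ctx.gen_top (h : Ctx k σ n 𝔡 r E c x) : Gen True σ 𝔡 r ⊤ 0 := by
  have h1 := h.gen (𝔠 := ⊤) (t := 0) (by rw [ext_top]; exact top_ne_bot) (by rw [ext_top]; exact h.hk)
  rwa [ext_top] at h1

omit [Algebra.FiniteType ℤ B] in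
theorem Ctx.ne_bot (h : Ctx k σ n 𝔡 r E c x) {𝔞 : Ideal (k ⊗[B] T)} {N : ℕ}
    (hN : ext B k (RingHom.ker σ) ^ N ≤ 𝔞) : 𝔞 ≠ ⊥ := by
  obtain ⟨μ, -⟩ := h.hk.exists_mdl h.hn1 h.hn h.hd h.hr
  intro h0
  refine μ.map_ne_bot h.hn1 h.st.max hN ?_
  rw [h0, Ideal.map_bot]

omit [Algebra.FiniteType ℤ B] [Algebra.FiniteType B T] [IsDomain (k ⊗[B] T)]
  [IsIntegrallyClosed (k ⊗[B] T)] in
theorem Sett.charZero (h : Sett k σ) : CharZero C := by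
  have : CharZero B := ⟨fun a b hab => by
    have := congrArg (algebraMap B k) hab
    simpa using this⟩
  exact charZero_of_injective_algebraMap h.injC

theorem Ctx.lctV_le (h : Ctx k σ n 𝔡 r E c x) {𝔠 : Ideal T} (h𝔠 : ext B k 𝔠 ≠ ⊥) {τ : ℝ≥0}
    (hb : ∀ t : ℝ≥0, τ < t → Gen False σ 𝔡 r (ext B C 𝔠) t) :
    lctV k n (ext B k (RingHom.ker σ)) (ext B k 𝔡) r (ext B k 𝔠) ≤ τ := by
  have := h.st.isDomain
  have := h.st.finiteType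
  refine iSup₂_le fun t ht => ENNReal.coe_le_coe.2 (not_lt.1 fun hlt => ?_)
  exact (h.gen h𝔠 ht).not_both (hb t hlt)

theorem Ctx.nvolV_le (h : Ctx k σ n 𝔡 r E c x) {k0 : ℕ} (hk0 : 1 ≤ k0) {e : ℝ≥0∞} {τ : ℝ≥0}
    (hbad : ∀ b : C, b ≠ 0 → ∃ (κ : Type) (_ : Field κ) (_ : Finite κ) (_ : Algebra B κ)
      (χ : C →ₐ[B] κ), χ b ≠ 0 ∧ ∃ J : Ideal (Localization.AtPrime (pk (χ.comp σ))),
        IsLocalRing.maximalIdeal _ ^ k0 ≤ J ∧ J ≤ IsLocalRing.maximalIdeal _ ∧ mult n J ≤ e ∧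
        ¬ SFRi (ringChar κ) (lo (pk (χ.comp σ)) (ext B κ 𝔡)) r J τ) :
    nvolV k n (ext B k (RingHom.ker σ)) (ext B k 𝔡) r ≤ e * ((n * τ : ℝ≥0) : ℝ≥0∞) ^ n := by
  have := h.st.isDomain
  have := h.st.finiteType
  have := h.st.charZero
  have hNB : IsNoetherianRing B := Algebra.FiniteType.isNoetherianRing ℤ B
  have hNC : IsNoetherianRing C := Algebra.FiniteType.isNoetherianRing B C
  obtain ⟨s, ω, hω, hpar⟩ := exists_paramC σ k0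
  let P := MvPolynomial (Fin s × Fin s) C
  let ιP : C →ₐ[B] P := IsScalarTower.toAlgHom B C P
  let 𝒥P : Ideal (P ⊗[B] T) := JC σ k0 ω ιP fun j i => MvPolynomial.X (j, i)
  let Z : Set (Ideal P) := {z | ∃ (κ : Type) (_ : Field κ) (_ : Finite κ) (_ : Algebra B κ)
    (g : P →ₐ[B] κ), z = RingHom.ker g ∧
      mult n (lo (pk (g.comp (ιP.comp σ))) (spk g 𝒥P)) ≤ e ∧
      ¬ SFat (ringChar κ) (pk (g.comp (ιP.comp σ))) (ext B κ 𝔡) r (spk g 𝒥P) τ}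
  have hZ : ∀ z ∈ Z, z.IsPrime := by
    rintro z ⟨κ, _, _, _, g, rfl, -⟩
    exact RingHom.ker_isPrime _
  have hZb : ∀ b : C, b ≠ 0 → ∃ z ∈ Z, algebraMap C P b ∉ z := by
    intro b hb
    obtain ⟨κ, _, _, _, χ, hb', J, hJ1, hJ2, hJ3, hJ4⟩ := hbad b hb
    obtain ⟨β, rfl⟩ := hpar κ χ J hJ1 hJ2
    obtain ⟨g, hg1, hg2⟩ : ∃ g : P →ₐ[B] κ, g.comp ιP = χ ∧
        ∀ j i, g (MvPolynomial.X (j, i)) = β j i :=
      ⟨MvPolynomial.aevalTower χ fun y : Fin s × Fin s => β y.1 y.2,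
        MvPolynomial.aevalTower_comp_toAlgHom _ _, fun j i => MvPolynomial.aevalTower_X _ _ _⟩
    subst hg1
    have hJ : spk g 𝒥P = JC σ k0 ω (g.comp ιP) β := by
      rw [spk_JC]
      simp only [hg2]
    refine ⟨_, ⟨κ, inferInstance, inferInstance, inferInstance, g, rfl, ?_, ?_⟩, hb'⟩
    · rw [hJ]
      exact hJ3
    · rw [hJ]
      exact hJ4
  obtain ⟨𝔭, h𝔭, h0, hdense⟩ := exists_dense_prime Z hZ hZb
  let π : P →ₐ[B] P ⧸ 𝔭 := Ideal.Quotient.mkₐ B 𝔭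
  have hftP : Algebra.FiniteType B P := Algebra.FiniteType.trans (S := C) inferInstance inferInstance
  have hι : Function.Injective (π.comp ιP) := by
    rw [injective_iff_map_eq_zero]
    exact fun a ha => h0 a (Ideal.Quotient.eq_zero_iff_mem.1 ha)
  have key : ∀ g : P ⧸ 𝔭, g ≠ 0 → ∃ (κ : Type) (_ : Field κ) (_ : Finite κ) (_ : Algebra B κ)
      (χ : (P ⧸ 𝔭) →ₐ[B] κ), χ g ≠ 0 ∧
        mult n (lo (pk (χ.comp ((π.comp ιP).comp σ))) (spk χ (spk π 𝒥P))) ≤ e ∧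
        ¬ SFat (ringChar κ) (pk (χ.comp ((π.comp ιP).comp σ))) (ext B κ 𝔡) r
          (spk χ (spk π 𝒥P)) τ := by
    intro g hg
    obtain ⟨g, rfl⟩ := Ideal.Quotient.mk_surjective g
    have hg' : g ∉ 𝔭 := fun h => hg (Ideal.Quotient.eq_zero_iff_mem.2 h)
    obtain ⟨z, ⟨κ, _, _, _, f, rfl, hE, hS⟩, hle, hgz⟩ := hdense g hg'
    obtain ⟨χ, hχ⟩ : ∃ χ : (P ⧸ 𝔭) →ₐ[B] κ, χ.comp π = f :=
      ⟨Ideal.Quotient.liftₐ 𝔭 f fun a ha => hle ha, Ideal.Quotient.liftₐ_comp _ _ _⟩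
    subst hχ
    refine ⟨κ, inferInstance, inferInstance, inferInstance, χ, hgz, ?_, ?_⟩
    · rw [spk_spk]
      exact hE
    · rw [spk_spk]
      exact hS
  have h1 : pk ((π.comp ιP).comp σ) ^ k0 ≤ spk π 𝒥P := by
    rw [spk_JC]
    exact le_sup_left
  have h2 : spk π 𝒥P ≤ pk ((π.comp ιP).comp σ) := by
    rw [spk_JC]
    exact JC_le σ hk0 hω _ _
  obtain ⟨μ, hf, -, hv, -⟩ := h.hk.exists_mdl h.hn1 h.hn h.hd h.hr
  have hb : Gen False ((π.comp ιP).comp σ) 𝔡 r (spk π 𝒥P) τ := by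
    refine (h.st.dichotomy h.hn1 h.hz h.hr hf hv _ hι h1 τ).resolve_left ?_
    rintro ⟨b, hb, H⟩
    obtain ⟨κ, _, _, _, χ, hχ, -, hS⟩ := key b hb
    exact hS ((H κ χ hχ).2 trivial)
  obtain ⟨𝔠, c1, c2, c3, g, hg, c4⟩ :=
    dt h.st.injC h.st.surj h.st.unr h.hz h.hT h.gen_top _ hι h1 h2 hb
  have hN := ext_pow_le (B := B) k c1
  have hmult : mult n (ext B k 𝔠) ≤ e := by
    obtain ⟨b, hb, H⟩ := h.st.mult_eq c1 n
    obtain ⟨κ, _, _, _, χ, hχ, hE, -⟩ :=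
      key (g * (π.comp ιP) b) (mul_ne_zero hg ((map_ne_zero_iff _ hι).2 hb))
    rw [map_mul] at hχ
    rw [← H κ (χ.comp (π.comp ιP)) (right_ne_zero_of_mul hχ)]
    exact (mult_anti n (c4 κ χ (left_ne_zero_of_mul hχ))).trans hE
  have hlct := h.lctV_le (h.ne_bot hN) (τ := n * τ) fun t ht => c3 t (by exact_mod_cast ht)
  calc nvolV k n (ext B k (RingHom.ker σ)) (ext B k 𝔡) r
      ≤ mult n (ext B k 𝔠) * lctV k n (ext B k (RingHom.ker σ)) (ext B k 𝔡) r (ext B k 𝔠) ^ n :=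
        iInf₂_le (f := fun (𝔞 : Ideal (k ⊗[B] T)) (_ : 𝔞.radical = ext B k (RingHom.ker σ)) =>
          mult n 𝔞 * lctV k n (ext B k (RingHom.ker σ)) (ext B k 𝔡) r 𝔞 ^ n) (ext B k 𝔠)
          (radical_eq_of_max h.st.max hN (Ideal.map_mono c2))
    _ ≤ _ := by gcongr

/-- At the general point, a bad ideal has large multiplicity. -/
theorem Ctx.lb (h : Ctx k σ n 𝔡 r E c x) {v : ℝ≥0}
    (hv : (n : ℝ≥0∞) ^ (2 * n) * v < nvolV k n (ext B k (RingHom.ker σ)) (ext B k 𝔡) r) :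
    ∃ b : C, b ≠ 0 ∧ ∀ (κ : Type) [Field κ] [Finite κ] [Algebra B κ] (χ : C →ₐ[B] κ), χ b ≠ 0 →
      ∀ (𝔞 : Ideal (Localization.AtPrime (pk (χ.comp σ)))) (t t' : ℝ≥0), t < t' →
        ¬ SFRi (ringChar κ) (lo (pk (χ.comp σ)) (ext B κ 𝔡)) r 𝔞 t →
          (v : ℝ≥0∞) < (t' : ℝ≥0∞) ^ n * mult n 𝔞 := by
  have := h.st.isDomain
  have hn0 : (n : ℝ≥0∞) ^ n ≠ 0 := pow_ne_zero _ (by exact_mod_cast (by have := h.hn1; omega))
  have hnt : (n : ℝ≥0∞) ^ n ≠ ⊤ := ENNReal.pow_ne_top (ENNReal.natCast_ne_top n)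
  obtain ⟨V, hV⟩ : ∃ V, V = nvolV k n (ext B k (RingHom.ker σ)) (ext B k 𝔡) r := ⟨_, rfl⟩
  rw [← hV] at hv
  have hv' : (n : ℝ≥0∞) ^ n * v < V / (n : ℝ≥0∞) ^ n := by
    rw [ENNReal.lt_div_iff_mul_lt (Or.inl hn0) (Or.inl hnt)]
    refine lt_of_eq_of_lt ?_ hv
    ring
  obtain ⟨k0, hk0, hlt⟩ := exists_level h.hn1 (n.factorial * (n + 1) * E) hv'
  obtain ⟨e, he⟩ : ∃ e : ℝ≥0∞, e = ((n.factorial * (n + 1) * E * k0 ^ (n - 1) : ℕ) : ℝ≥0∞) +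
      (k0 : ℝ≥0∞) ^ n * v := ⟨_, rfl⟩
  rw [← he, ENNReal.lt_div_iff_mul_lt (Or.inl hn0) (Or.inl hnt), mul_right_comm] at hlt
  have het : e ≠ ⊤ := he ▸ ENNReal.add_ne_top.2 ⟨ENNReal.natCast_ne_top _,
    ENNReal.mul_ne_top (ENNReal.pow_ne_top (ENNReal.natCast_ne_top _)) ENNReal.coe_ne_top⟩
  have hk : (k0 : ℝ≥0∞) ≠ 0 := by exact_mod_cast (by omega : k0 ≠ 0)
  obtain ⟨V', k1, k2⟩ := exists_between hlt
  obtain ⟨τ, τ', k3, k4, k5⟩ := exists_t_lt (ENNReal.mul_ne_top het hnt)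
    (ENNReal.div_ne_top (ENNReal.natCast_ne_top n) hk) k1
  have k6 : (n : ℝ) < k0 * τ' := by
    have k7 := k3.trans (ENNReal.coe_lt_coe.2 k4)
    rw [ENNReal.div_lt_iff (Or.inl hk) (Or.inl (ENNReal.natCast_ne_top k0)), mul_comm] at k7
    exact_mod_cast k7
  obtain ⟨b1, hb1, H1⟩ := h.gen_top
  obtain ⟨b2, hb2, H2⟩ := h.hT
  by_contra hcon
  push Not at hcon
  refine absurd (h.nvolV_le hk0 (e := e) (τ := τ') fun b hb => ?_) (not_le.2 ?_)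
  · obtain ⟨κ, _, _, _, χ, hχ, 𝔞, t, t', htt, hS, hm⟩ :=
      hcon (b * (b1 * b2)) (mul_ne_zero hb (mul_ne_zero hb1 hb2))
    rw [map_mul, map_mul] at hχ
    obtain ⟨hp, hN, hC⟩ := inst_lo (pk (χ.comp σ))
    have : Fact (ringChar κ).Prime := ⟨hp⟩
    have h1 : SFRi (ringChar κ) _ r _ 0 :=
      (H1 κ χ (left_ne_zero_of_mul (right_ne_zero_of_mul hχ))).2 trivial
    obtain ⟨J, j1, j2, j3, j4⟩ := partI h.hn1
      ⟨_, _, H2 κ χ (right_ne_zero_of_mul (right_ne_zero_of_mul hχ))⟩ h1.top hS htt hk0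
    refine ⟨κ, inferInstance, inferInstance, inferInstance, χ, left_ne_zero_of_mul hχ, J, j1, j2,
      j3.trans ?_, j4 τ' k6⟩
    rw [he, mul_pow, mul_assoc ((k0 : ℝ≥0∞) ^ n)]
    exact add_le_add le_rfl (mul_le_mul' le_rfl hm)
  · rw [← hV]
    refine lt_of_le_of_lt (le_of_eq_of_le ?_ k5) k2
    push_cast
    ring

end

end Pool.Agent.Lib.MP_4287a9_ag
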