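import Pool.Agent.Lib.MP_4287a9_ag.WSemi
import Pool.Agent.Lib.MP_4287a9_ag.GF

/-!
Generic constancy of multiplicities.
-/

open scoped TensorProduct ENNReal NNReal nonZeroDivisors Polynomial
open Filter

namespace Pool.Agent.Lib.MP_4287a9_ag

noncomputable section

private theorem usc_ext {B A M0 M N : Type} [CommRing B] [AddCommGroup A] [Module B A]
    [AddCommGroup M0] [Module B M0] [AddCommGroup M] [Module B M] [AddCommGroup N] [Module B N]
    {b : B} (q : A →ₗ[B] M0) (hq : Function.Surjective q) (c : A →ₗ[B] M) (e : A →ₗ[B] A)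
    (h1 : ∀ a, c a = 0 → q (e a) = 0) (h2 : ∀ a, c (e a) = c a) (h3 : ∀ a, q a = 0 → c a = 0)
    (p : M →ₗ[B] N) (hp : Function.Surjective p) (hex : ∀ m, p m = 0 → ∃ a, c a = m)
    (g1 : gfP b M0) (g2 : gfP b N) : gfP b M := by
  let j : M0 →ₗ[B] M := ((LinearMap.ker q).liftQ c fun a ha => h3 a ha).comp
    (q.quotKerEquivOfSurjective hq).symm.toLinearMap
  have hj : ∀ a, j (q a) = c a := by
    intro a
    have : (q.quotKerEquivOfSurjective hq).symm (q a) = Submodule.Quotient.mk a := by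
      rw [LinearEquiv.symm_apply_eq]
      rfl
    simp only [j, LinearMap.comp_apply, LinearEquiv.coe_coe, this]
    rfl
  intro l f x hx
  obtain ⟨n, hn⟩ := g2 l f (fun i => p (x i)) (by
    simp only [← map_smul, ← map_sum, hx, map_zero])
  obtain ⟨w, hw, hw'⟩ := gfZ_lift p hp hn
  choose x' hx' using fun i => hex (b ^ n • x i - w i) (by simp [hw'])
  have h0 : c (∑ i, f i • x' i) = 0 := by
    simp only [map_sum, map_smul, hx', smul_sub, Finset.sum_sub_distrib, gfZ_sum hw,
      smul_comm _ (b ^ n), ← Finset.smul_sum, hx, smul_zero, sub_zero]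
  obtain ⟨k, hk⟩ := g1 l f (fun i => q (e (x' i))) (by
    have := h1 _ h0
    simpa only [map_sum, map_smul] using this)
  refine ⟨k + n, ?_⟩
  have h4 := Submodule.add_mem _ (gfZ_map j hk) (Submodule.smul_mem _ (b ^ k) hw)
  convert h4 using 1
  funext i
  simp [hj, h2, hx', pow_add, mul_smul, smul_sub]

/-- The elements of the Rees algebra whose `i`-th coefficient lies in `𝒥 ^ (i + 1)`. -/
private def uscK {P : Type} [CommRing P] (𝒥 : Ideal P) : Ideal (reesAlgebra 𝒥) where
  carrier := {f | ∀ i, (f : P[X]).coeff i ∈ 𝒥 ^ (i + 1)}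
  add_mem' := fun {f g} hf hg i => by
    rw [Subalgebra.coe_add, Polynomial.coeff_add]
    exact add_mem (hf i) (hg i)
  zero_mem' := fun i => by simp
  smul_mem' := fun g f hf i => by
    rw [smul_eq_mul, Subalgebra.coe_mul, Polynomial.coeff_mul]
    refine Ideal.sum_mem _ fun x hx => ?_
    have hx' : x.1 + x.2 = i := by simpa using hx
    rw [← hx', add_assoc, pow_add]
    exact Ideal.mul_mem_mul (g.2 x.1) (hf x.2)

/-- Apply `gen_flat` to the associated graded ring `reesAlgebra 𝒥 / 𝒥 reesAlgebra 𝒥`, a finite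
module over the finite type `C`-algebra `reesAlgebra 𝒥`. Each `𝒥 ^ i / 𝒥 ^ (i + 1)` is a retract
of it as a `C`-module, and extensions of flat modules are flat (see `GF`). -/
theorem gen_flat_pow (C P : Type) [CommRing C] [IsDomain C] [IsNoetherianRing C] [CommRing P]
    [Algebra C P] [Algebra.FiniteType C P] (𝒥 : Ideal P) :
    ∃ b : C, b ≠ 0 ∧ ∀ i : ℕ,
      Module.Flat C (LocalizedModule (Submonoid.powers b) (P ⧸ 𝒥 ^ i)) := by
  have : IsNoetherianRing P := Algebra.FiniteType.isNoetherianRing C P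
  have : Algebra.FiniteType C (reesAlgebra 𝒥) := Algebra.FiniteType.trans
    (inferInstance : Algebra.FiniteType C P) inferInstance
  obtain ⟨n, π, hπ⟩ := Algebra.FiniteType.iff_quotient_mvPolynomial''.1
    (inferInstance : Algebra.FiniteType C (reesAlgebra 𝒥))
  obtain ⟨k, v, hv⟩ := Module.Finite.exists_fin (R := reesAlgebra 𝒥)
    (M := reesAlgebra 𝒥 ⧸ uscK 𝒥)
  obtain ⟨b, hb, h⟩ := gfP_fin π hπ k (reesAlgebra 𝒥 ⧸ uscK 𝒥) v hv
  refine ⟨b, hb, fun i => gfP_flat b ?_⟩
  induction i with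
  | zero =>
    intro l f x _
    have : Subsingleton (P ⧸ 𝒥 ^ 0) := by
      rw [pow_zero, Ideal.one_eq_top]
      infer_instance
    refine ⟨0, ?_⟩
    rw [Subsingleton.elim ((b ^ 0 : C) • x) 0]
    exact Submodule.zero_mem _
  | succ i ih =>
    let co : reesAlgebra 𝒥 →ₗ[P] P := (Polynomial.lcoeff P i).comp (reesAlgebra 𝒥).val.toLinearMap
    let e : reesAlgebra 𝒥 →ₗ[P] reesAlgebra 𝒥 :=
      ((Polynomial.monomial i).comp co).codRestrict (Subalgebra.toSubmodule (reesAlgebra 𝒥))
        fun a => reesAlgebra.monomial_mem.2 (a.2 i)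
    have he : ∀ a, (e a : P[X]) = Polynomial.monomial i ((a : P[X]).coeff i) := fun a => rfl
    refine usc_ext (Ideal.Quotient.mkₐ C (uscK 𝒥)).toLinearMap Ideal.Quotient.mk_surjective
      ((Ideal.Quotient.mkₐ C (𝒥 ^ (i + 1))).toLinearMap.comp (co.restrictScalars C))
      (e.restrictScalars C) (fun a ha => ?_) (fun a => ?_) (fun a ha => ?_)
      (Ideal.Quotient.factorₐ C (Ideal.pow_le_pow_right (Nat.le_succ i))).toLinearMap
      (Ideal.Quotient.factor_surjective (Ideal.pow_le_pow_right (Nat.le_succ i)))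
      (fun m hm => ?_) h ih
    · have ha' : (a : P[X]).coeff i ∈ 𝒥 ^ (i + 1) := Ideal.Quotient.eq_zero_iff_mem.1 ha
      refine Ideal.Quotient.eq_zero_iff_mem.2 fun j => ?_
      change (e a : P[X]).coeff j ∈ _
      rw [he, Polynomial.coeff_monomial]
      split_ifs with hij
      · exact hij ▸ ha'
      · exact zero_mem _
    · change Ideal.Quotient.mk _ ((e a : P[X]).coeff i) = Ideal.Quotient.mk _ ((a : P[X]).coeff i)
      rw [he, Polynomial.coeff_monomial, if_pos rfl]
    · exact Ideal.Quotient.eq_zero_iff_mem.2 (Ideal.Quotient.eq_zero_iff_mem.1 ha i)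
    · obtain ⟨y, rfl⟩ := Ideal.Quotient.mk_surjective m
      have hy : y ∈ 𝒥 ^ i := Ideal.Quotient.eq_zero_iff_mem.1 hm
      refine ⟨⟨Polynomial.monomial i y, reesAlgebra.monomial_mem.2 hy⟩, ?_⟩
      change Ideal.Quotient.mk _ ((Polynomial.monomial i y).coeff i) = _
      rw [Polynomial.coeff_monomial, if_pos rfl]

/-- The localization of `M` at the prime `ker (C → κ)` is finite and flat, hence free. -/
theorem finrank_eq_of_flat {C Ω κ M : Type} [CommRing C] [Field Ω] [Field κ] [Algebra C Ω]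
    [Algebra C κ] (h : Function.Injective (algebraMap C Ω)) [AddCommGroup M] [Module C M]
    [Module.Finite C M] {b : C} (hb : algebraMap C κ b ≠ 0)
    (hf : Module.Flat C (LocalizedModule (Submonoid.powers b) M)) :
    Module.finrank κ (κ ⊗[C] M) = Module.finrank Ω (Ω ⊗[C] M) := by
  let p : Ideal C := RingHom.ker (algebraMap C κ)
  have : p.IsPrime := RingHom.ker_isPrime _
  let O := Localization.AtPrime p
  have hu : ∀ s : p.primeCompl, IsUnit (algebraMap C Ω s) := fun s =>
    IsUnit.mk0 _ fun h0 => s.2 (by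
      rw [(map_eq_zero_iff _ h).1 h0]
      exact p.zero_mem)
  have hκ : ∀ s : p.primeCompl, IsUnit (algebraMap C κ s) := fun s => IsUnit.mk0 _ s.2
  let _ : Algebra O Ω := (IsLocalization.lift hu).toAlgebra
  have : IsScalarTower C O Ω := .of_algebraMap_eq fun a => (IsLocalization.lift_eq hu a).symm
  let _ : Algebra O κ := (IsLocalization.lift hκ).toAlgebra
  have : IsScalarTower C O κ := .of_algebraMap_eq fun a => (IsLocalization.lift_eq hκ a).symm
  let A := Localization (Submonoid.powers b)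
  have hO : ∀ s : Submonoid.powers b, IsUnit (algebraMap C O s) := by
    rintro ⟨_, k, rfl⟩
    rw [map_pow]
    exact (IsLocalization.map_units O (⟨b, hb⟩ : p.primeCompl)).pow k
  let _ : Algebra A O := (IsLocalization.lift hO).toAlgebra
  have : IsScalarTower C A O := .of_algebraMap_eq fun a => (IsLocalization.lift_eq hO a).symm
  have : Module.Flat A (LocalizedModule (Submonoid.powers b) M) :=
    (Module.flat_iff_of_isLocalization A (Submonoid.powers b) _).2 hf
  have : Module.Flat A (A ⊗[C] M) :=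
    Module.Flat.of_linearEquiv (LocalizedModule.equivTensorProduct (Submonoid.powers b) M).symm
  have : Module.Flat O (O ⊗[C] M) :=
    Module.Flat.of_linearEquiv (TensorProduct.AlgebraTensorModule.cancelBaseChange C A O O M).symm
  have : Module.Free O (O ⊗[C] M) := Module.free_of_flat_of_isLocalRing
  have e1 : Module.finrank κ (κ ⊗[O] (O ⊗[C] M)) = Module.finrank O (O ⊗[C] M) :=
    Module.finrank_baseChange
  have e2 : Module.finrank Ω (Ω ⊗[O] (O ⊗[C] M)) = Module.finrank O (O ⊗[C] M) :=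
    Module.finrank_baseChange
  rw [← (TensorProduct.AlgebraTensorModule.cancelBaseChange C O κ κ M).finrank_eq,
    ← (TensorProduct.AlgebraTensorModule.cancelBaseChange C O Ω Ω M).finrank_eq, e1, e2]

/-- `gen_flat_pow`, `finrank_eq_of_flat`, `length_lo_spk`, `finite_quot_pk`. -/
theorem mult_usc {B T C Ω : Type} [CommRing B] [CommRing T] [Algebra B T] [Algebra.FiniteType B T]
    [CommRing C] [IsNoetherianRing C] [Algebra B C] [Field Ω] [Algebra B Ω] (σ : T →ₐ[B] C)
    (j : C →ₐ[B] Ω) (hj : Function.Injective j) (𝒥 : Ideal (C ⊗[B] T)) {k0 : ℕ}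
    (h𝒥 : pk σ ^ k0 ≤ 𝒥) (n : ℕ) :
    ∃ b : C, b ≠ 0 ∧ ∀ (κ : Type) [Field κ] [Algebra B κ] (χ : C →ₐ[B] κ), χ b ≠ 0 →
      mult n (lo (pk (χ.comp σ)) (spk χ 𝒥)) = mult n (lo (pk (j.comp σ)) (spk j 𝒥)) := by
  have : IsDomain C := Function.Injective.isDomain j.toRingHom hj
  obtain ⟨b, hb, h⟩ := gen_flat_pow C (C ⊗[B] T) 𝒥
  refine ⟨b, hb, fun κ _ _ χ hχ => ?_⟩
  let _ : Algebra C Ω := j.toRingHom.toAlgebra
  let _ : Algebra C κ := χ.toRingHom.toAlgebra
  have : IsScalarTower B C Ω := .of_algebraMap_eq fun a => (j.commutes a).symm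
  have : IsScalarTower B C κ := .of_algebraMap_eq fun a => (χ.commutes a).symm
  unfold mult
  congr 1
  funext i
  have h1 : pk σ ^ (k0 * i) ≤ 𝒥 ^ i := by
    rw [pow_mul]
    exact Ideal.pow_right_mono h𝒥 i
  have := finite_quot_pk σ (𝒥 ^ i) h1
  have l1 := length_lo_spk (F := κ) σ 𝒥 h𝒥 i
  have l2 := length_lo_spk (F := Ω) σ 𝒥 h𝒥 i
  rw [finrank_eq_of_flat (Ω := Ω) (κ := κ) hj hχ (h i)] at l1
  exact congrArg (fun z : ℕ∞ => (n.factorial : ℝ≥0∞) * (z : ℝ≥0∞) / (i : ℝ≥0∞) ^ n)
    (l1.trans l2.symm)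

end

end Pool.Agent.Lib.MP_4287a9_ag
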