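import Pool.Agent.Lib.MP_4287a9_ag.WEzF
import Pool.Agent.Lib.MP_4287a9_ag.WEd
import Pool.Agent.Lib.MP_4287a9_ag.WGd
import Pool.Agent.Lib.MP_4287a9_ag.WBd
import Pool.Agent.Lib.MP_4287a9_ag.WSet
import Pool.Agent.Lib.MP_4287a9_ag.WUsc

/-!
Generic strong F-regularity and the valuative condition.
-/

open scoped TensorProduct ENNReal NNReal nonZeroDivisors Polynomial
open Filter

namespace Pool.Agent.Lib.MP_4287a9_ag

noncomputable section

theorem inj_trans {B Λ L : Type} [CommRing B] [CommRing Λ] [Algebra B Λ] [CommRing L]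
    [Algebra B L] (h : Function.Injective (algebraMap B Λ)) (e : Λ →ₐ[B] L)
    (he : Function.Injective e) : Function.Injective (algebraMap B L) :=
  fun a b hab => h (he (by rw [e.commutes, e.commutes, hab]))

variable {B T : Type} [CommRing B] [Algebra.FiniteType ℤ B] [CommRing T] [Algebra B T]
  [Algebra.FiniteType B T] {𝔡 : Ideal T} {n r : ℕ} {t : ℝ≥0}

theorem GenO.not_both (hz : NZ B 𝔡) {Ω Λ : Type} [Field Ω] [Algebra B Ω]
    (hΩ : Function.Injective (algebraMap B Ω)) [CommRing Λ] [Algebra B Λ] [Algebra.FiniteType B Λ]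
    {τ : T →ₐ[B] Ω} {ψ : Λ →ₐ[B] Ω} {𝒥 : Ideal (Λ ⊗[B] T)} (h : GenO True τ ψ 𝔡 r 𝒥 t)
    (h' : GenO False τ ψ 𝔡 r 𝒥 t) : False := by
  let C : Subalgebra B Ω := ψ.range ⊔ τ.range
  have : Algebra.FiniteType B C :=
    (Subalgebra.fg_iff_finiteType C).1 ((range_fg _).sup (range_fg _))
  let σ : T →ₐ[B] C := τ.codRestrict C fun x => (le_sup_right : τ.range ≤ C) ⟨x, rfl⟩
  let φ : Λ →ₐ[B] C := ψ.codRestrict C fun x => (le_sup_left : ψ.range ≤ C) ⟨x, rfl⟩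
  exact (h.gen hz hΩ C.val Subtype.val_injective σ φ rfl rfl).not_both
    (h'.gen hz hΩ C.val Subtype.val_injective σ φ rfl rfl)

theorem Mdl.easy {F : Type} [Field F] [CharZero F] [Algebra B F]
    (hB : Function.Injective (algebraMap B F)) (hz : NZ B 𝔡) (hr : 0 < r)
    (μ : Mdl F (F ⊗[B] T) n (ext B F 𝔡) r) {Λ : Type} [CommRing Λ] [Algebra B Λ]
    [Algebra.FiniteType B Λ] (φ : Λ →ₐ[B] F) (𝒥 : Ideal (Λ ⊗[B] T)) (h : ¬ μ.VK (spk φ 𝒥) t) :
    ∃ (Ω : Type) (_ : Field Ω) (_ : Algebra B Ω) (j : F →ₐ[B] Ω) (τ : T →ₐ[B] Ω),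
      bm T j μ.f ∉ pk τ ∧ (μ.VK ⊤ 0 → spk φ 𝒥 ≤ (pk τ).comap (bm T j)) ∧
      GenO False τ (j.comp φ) 𝔡 r 𝒥 t := by
  obtain ⟨Ω, _, _, ζ, h1, h2, h3⟩ := μ.hasED hr h
  let _ : Algebra B Ω := ((algebraMap F Ω).comp (algebraMap B F)).toAlgebra
  have : IsScalarTower B F Ω := IsScalarTower.of_algebraMap_eq fun _ => rfl
  let τ : T →ₐ[B] Ω := (ζ.restrictScalars B).comp Algebra.TensorProduct.includeRight
  have hτ : ∀ x, ζ x = pa τ (bm T (IsScalarTower.toAlgHom B F Ω) x) := by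
    intro x
    induction x using TensorProduct.induction_on with
    | zero => simp
    | add x y hx hy => rw [map_add, map_add, map_add, hx, hy]
    | tmul a y =>
      rw [Algebra.TensorProduct.map_tmul, pa_tmul]
      change _ = algebraMap F Ω a * ζ ((1 : F) ⊗ₜ[B] y)
      rw [← Algebra.smul_def, ← map_smul, TensorProduct.smul_tmul', smul_eq_mul, mul_one]
  refine ⟨Ω, inferInstance, inferInstance, IsScalarTower.toAlgHom B F Ω, τ, fun h0 => h1 ?_,
    fun h0 a ha => ?_, h3.genO hB hz φ 𝒥 τ hτ⟩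
  · rw [hτ]
    exact h0
  · rw [Ideal.mem_comap, mem_pk, ← hτ]
    exact h2 h0 a ha

theorem spk_top {B T Λ F : Type} [CommRing B] [CommRing T] [Algebra B T] [CommRing Λ]
    [Algebra B Λ] [CommRing F] [Algebra B F] (φ : Λ →ₐ[B] F) :
    spk φ (⊤ : Ideal (Λ ⊗[B] T)) = ⊤ :=
  Ideal.map_top _

theorem ext_top {B T F : Type} [CommRing B] [CommRing T] [Algebra B T] [CommRing F]
    [Algebra B F] : ext B F (⊤ : Ideal T) = ⊤ :=
  Ideal.map_top _

theorem Mdl.top_ne_bot {F P : Type} [Field F] [CommRing P] [Algebra F P] {n r : ℕ} {𝔡 : Ideal P}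
    (μ : Mdl F P n 𝔡 r) : (⊤ : Ideal P).map μ.ρ ≠ ⊥ := by
  rw [Ideal.map_top]
  exact _root_.top_ne_bot

theorem vk_baseChange {k L : Type} [Field k] [CharZero k] [Algebra B k] [Field L] [CharZero L]
    [Algebra B L] (hB : Function.Injective (algebraMap B k)) (hz : NZ B 𝔡) (hr : 0 < r)
    (i : k →ₐ[B] L) {μ : Mdl k (k ⊗[B] T) n (ext B k 𝔡) r} (h : μ.VK ⊤ 0)
    {μ' : Mdl L (L ⊗[B] T) n (ext B L 𝔡) r} (hf : bm T i μ.f ∣ μ'.f) : μ'.VK ⊤ 0 := by
  by_contra h'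
  have hL : Function.Injective (algebraMap B L) := inj_trans hB i i.injective
  rw [← spk_top (Algebra.ofId B L)] at h'
  obtain ⟨Ω, _, _, j, τ, h1, -, h3⟩ := μ'.easy hL hz hr _ _ h'
  have hΩ : Function.Injective (algebraMap B Ω) := inj_trans hL j j.injective
  have h4 := h.hasGD hr μ.top_ne_bot
  rw [← spk_top (Algebra.ofId B k)] at h4
  have h5 := h4.genO hB hz _ _ (j.comp i) τ fun h0 => h1 (by
    obtain ⟨c, hc⟩ := hf
    rw [hc, map_mul, bm_bm]
    exact Ideal.mul_mem_right _ _ h0)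
  rw [Subsingleton.elim ((j.comp i).comp (Algebra.ofId B k)) (j.comp (Algebra.ofId B L))] at h5
  exact h5.not_both hz hΩ h3

variable {k C : Type} [Field k] [CharZero k] [Algebra B k] [CommRing C] [Algebra B C]
  {σ : T →ₐ[B] C}

omit [Algebra.FiniteType ℤ B] [CharZero k] in
theorem Sett.finiteType (h : Sett k σ) : Algebra.FiniteType B C :=
  Algebra.FiniteType.of_surjective σ h.surj

theorem Sett.gen_of_hasGD (h : Sett k σ) (hz : NZ B 𝔡) {f : k ⊗[B] T}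
    (hf : f ∉ ext B k (RingHom.ker σ)) {𝔠 : Ideal T} (hg : HasGD k f (ext B k 𝔡) r (ext B k 𝔠) t) :
    Gen True σ 𝔡 r (ext B C 𝔠) t := by
  have := h.isDomain
  have := h.finiteType
  obtain ⟨L, _, _, _, _, _, e, he⟩ := exists_compositum h.inj h.injC
  rw [← spk_ext (Algebra.ofId B k) 𝔠] at hg
  have h1 := hg.genO h.inj hz _ _ (IsScalarTower.toAlgHom B k L) (e.comp σ) fun h0 => hf (by
    rw [← h.comap_pk (IsScalarTower.toAlgHom B k L) e]
    exact h0)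
  have hL : Function.Injective (algebraMap B L) := inj_trans h.injC e he
  have h2 := h1.gen hz hL e he σ (Algebra.ofId B C) rfl (Subsingleton.elim _ _)
  rwa [spk_ext] at h2

/-- A family of ideals supported at the point is generically good or generically bad. -/
theorem Sett.dichotomy (h : Sett k σ) (hn : 1 ≤ n) (hz : NZ B 𝔡) (hr : 0 < r)
    {μ : Mdl k (k ⊗[B] T) n (ext B k 𝔡) r} (hf : μ.f ∉ ext B k (RingHom.ker σ)) (hv : μ.VK ⊤ 0)
    {Λ : Type} [CommRing Λ] [IsDomain Λ] [Algebra B Λ] [Algebra.FiniteType B Λ] (ι : C →ₐ[B] Λ)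
    (hι : Function.Injective ι) {𝒥 : Ideal (Λ ⊗[B] T)} {N : ℕ} (h𝒥 : pk (ι.comp σ) ^ N ≤ 𝒥)
    (t : ℝ≥0) : Gen True (ι.comp σ) 𝔡 r 𝒥 t ∨ Gen False (ι.comp σ) 𝔡 r 𝒥 t := by
  have hΛ : Function.Injective (algebraMap B Λ) := inj_trans h.injC ι hι
  obtain ⟨L, _, _, _, _, _, e, he⟩ := exists_compositum h.inj hΛ
  have hL : Function.Injective (algebraMap B L) := inj_trans hΛ e he
  have : CharZero L := charZero_of_injective_algebraMap (algebraMap k L).injective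
  obtain ⟨μ', h1, h2⟩ := μ.baseChange (pk (e.comp (ι.comp σ))) fun h0 => hf (by
    rw [← h.comap_pk (IsScalarTower.toAlgHom B k L) (e.comp ι)]
    exact h0)
  have hv' := vk_baseChange h.inj hz hr _ hv h2
  have h3 : pk (e.comp (ι.comp σ)) ^ N ≤ spk e 𝒥 := by
    rw [← spk_pk, spk, ← Ideal.map_pow]
    exact Ideal.map_mono h𝒥
  by_cases hc : μ'.VK (spk e 𝒥) t
  · left
    have h4 := (hc.hasGD hr (μ'.map_ne_bot hn (pk_isMaximal _) h3)).genO hL hz e 𝒥 (AlgHom.id B L)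
      (e.comp (ι.comp σ)) (by rwa [bm, Algebra.TensorProduct.map_id])
    have h5 := h4.gen hz hL e he (ι.comp σ) (AlgHom.id B Λ) rfl rfl
    rwa [spk_id] at h5
  · right
    obtain ⟨Ω, _, _, j, τ, -, h4, h5⟩ := μ'.easy hL hz hr e 𝒥 hc
    have hΩ : Function.Injective (algebraMap B Ω) := inj_trans hL j j.injective
    have h6 : pk (e.comp (ι.comp σ)) ≤ (pk τ).comap (bm T j) :=
      Ideal.IsPrime.le_of_pow_le (h3.trans (h4 hv'))
    have h7 := h5.gen hz hΩ (j.comp e) (j.injective.comp he) (ι.comp σ) (AlgHom.id B Λ)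
      (eq_of_pk_le _ j τ h6).symm rfl
    rwa [spk_id] at h7

theorem Sett.mult_eq (h : Sett k σ) {𝔠 : Ideal T} {N : ℕ} (hN : RingHom.ker σ ^ N ≤ 𝔠) (n : ℕ) :
    ∃ b : C, b ≠ 0 ∧ ∀ (κ : Type) [Field κ] [Algebra B κ] (χ : C →ₐ[B] κ), χ b ≠ 0 →
      mult n (lo (pk (χ.comp σ)) (ext B κ 𝔠)) = mult n (ext B k 𝔠) := by
  have := h.isDomain
  have := h.finiteType
  have hNB : IsNoetherianRing B := Algebra.FiniteType.isNoetherianRing ℤ B
  have hNC : IsNoetherianRing C := Algebra.FiniteType.isNoetherianRing B C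
  obtain ⟨L, _, _, _, _, _, e, he⟩ := exists_compositum h.inj h.injC
  obtain ⟨g, hg, hg'⟩ := h.unr
  obtain ⟨b, hb, H⟩ := mult_usc σ e he (ext B C 𝔠 ⊔ pk σ ^ N) le_sup_right n
  have hext : ∀ (F : Type) [CommRing F] [Algebra B F],
      ext B F (RingHom.ker σ) ^ N ≤ ext B F 𝔠 := fun F _ _ => by
    rw [ext, ← Ideal.map_pow]
    exact Ideal.map_mono hN
  have key : ∀ (κ : Type) [Field κ] [Algebra B κ] (χ : C →ₐ[B] κ), χ (pa σ g) ≠ 0 →
      lo (pk (χ.comp σ)) (spk χ (ext B C 𝔠 ⊔ pk σ ^ N)) = lo (pk (χ.comp σ)) (ext B κ 𝔠) := by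
    intro κ _ _ χ hχ
    have h1 := spr_lo σ χ hχ hg'
    rw [spk_ext] at h1
    rw [spk, Ideal.map_sup, Ideal.map_pow, lo, Ideal.map_sup, Ideal.map_pow]
    change lo _ (spk χ _) ⊔ lo _ (spk χ _) ^ N = _
    rw [spk_ext, sup_eq_left]
    refine (Ideal.pow_right_mono h1 N).trans ?_
    rw [lo, ← Ideal.map_pow]
    exact Ideal.map_mono (hext κ)
  refine ⟨b * pa σ g, mul_ne_zero hb hg, fun κ _ _ χ hχ => ?_⟩
  rw [map_mul] at hχ
  have hm := h.max
  rw [← key κ χ (right_ne_zero_of_mul hχ), H κ χ (left_ne_zero_of_mul hχ),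
    key L e ((map_ne_zero_iff e he).2 hg), ← spk_ext (IsScalarTower.toAlgHom B k L),
    mult_lo_spk _ _ hm _ (h.comap_pk _ e), mult_lo _ hm (hext k)]

end

end Pool.Agent.Lib.MP_4287a9_ag
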