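import Pool.Agent.Lib.MP_4287a9_ag.WLoc

/-!
From standard to internal strong F-regularity.
-/

open scoped TensorProduct ENNReal NNReal nonZeroDivisors Polynomial
open Filter

namespace Pool.Agent.Lib.MP_4287a9_ag

noncomputable section

private theorem wstd_eq {R : Type} [CommRing R] [IsDomain R] [IsNoetherianRing R] {Q P : Ideal R}
    (hQ : Q.IsPrime) (_hP : P.IsPrime) (hQ0 : Q ≠ ⊥) (h1 : P.height = 1) (h : Q ≤ P) : Q = P := by
  by_contra hne
  have hlt := Ideal.height_strict_mono_of_isPrime (lt_of_le_of_ne h hne)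
  rw [h1] at hlt
  exact hQ0 (Ideal.height_eq_zero_iff_eq_bot.1 (Order.lt_one_iff.1 hlt))

/-- The localization at a height one prime of a normal Noetherian domain is a discrete valuation
ring. -/
theorem exists_unif {R : Type} [CommRing R] [IsDomain R] [IsNoetherianRing R]
    [IsIntegrallyClosed R] {P : Ideal R} (hP : P.IsPrime) (h1 : P.height = 1) :
    ∃ π ∈ P, π ≠ 0 ∧ ∀ w ∈ P, ∃ s ∉ P, π ∣ s * w := by
  have hP0 : P ≠ ⊥ := fun h0 => by
    rw [Ideal.height_eq_zero_iff_eq_bot.2 h0] at h1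
    exact zero_ne_one h1
  obtain ⟨x, hxP, hx⟩ := Submodule.exists_mem_ne_zero_of_ne_bot hP0
  have hcol : (⊥ : Submodule R (R ⧸ Ideal.span {x})).colon
      {Ideal.Quotient.mk (Ideal.span {x}) 1} = Ideal.span {x} := by
    ext a
    rw [hart_mem_colon, mul_one, Ideal.mem_span_singleton]
  have hmin : P ∈ ((⊥ : Submodule R (R ⧸ Ideal.span {x})).colon
      {Ideal.Quotient.mk (Ideal.span {x}) 1}).minimalPrimes := by
    rw [hcol]
    refine ⟨⟨hP, (Ideal.span_singleton_le_iff_mem P).2 hxP⟩, ?_⟩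
    rintro Q ⟨hQ, hxQ⟩ hQP
    have hQ0 : Q ≠ ⊥ := fun h0 => hx (by
      have := (Ideal.span_singleton_le_iff_mem Q).1 hxQ
      rwa [h0, Ideal.mem_bot] at this)
    exact (wstd_eq hQ hP hQ0 h1 hQP).ge
  obtain ⟨m, hm⟩ := Submodule.exists_eq_colon_of_mem_minimalPrimes hmin
  obtain ⟨y, rfl⟩ := Ideal.Quotient.mk_surjective m
  have hPx : ∀ a, a ∈ P ↔ x ∣ a * y := fun a => by rw [hm, hart_mem_colon]
  have hinj : Function.Injective (algebraMap R (FractionRing R)) :=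
    IsFractionRing.injective R (FractionRing R)
  have hxK : algebraMap R (FractionRing R) x ≠ 0 := fun h0 =>
    hx (hinj (by rw [h0, map_zero]))
  by_cases hall : ∀ a ∈ P, ∀ s, a * y = x * s → s ∈ P
  · exfalso
    have hN : IsLocalization.coeSubmodule (FractionRing R) P ≠ ⊥ := by
      intro h0
      have hm : algebraMap R (FractionRing R) x ∈
          IsLocalization.coeSubmodule (FractionRing R) P :=
        (IsLocalization.mem_coeSubmodule _ _).2 ⟨x, hxP, rfl⟩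
      rw [h0] at hm
      exact hxK ((Submodule.mem_bot R).1 hm)
    have hN' : (IsLocalization.coeSubmodule (FractionRing R) P).FG :=
      (IsLocalization.coeSubmodule_fg (FractionRing R) hinj P).2 (IsNoetherian.noetherian P)
    have hint : IsIntegral R
        (algebraMap R (FractionRing R) y / algebraMap R (FractionRing R) x) := by
      refine isIntegral_of_smul_mem_submodule _ hN hN' _ ?_
      intro n hn
      obtain ⟨a, ha, rfl⟩ := (IsLocalization.mem_coeSubmodule _ _).1 hn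
      obtain ⟨s, hs⟩ := (hPx a).1 ha
      refine (IsLocalization.mem_coeSubmodule _ _).2 ⟨s, hall a ha s hs, ?_⟩
      have h2 := congrArg (algebraMap R (FractionRing R)) hs
      rw [map_mul, map_mul] at h2
      rw [smul_eq_mul, div_mul_eq_mul_div, eq_div_iff hxK]
      linear_combination -h2
    obtain ⟨t, ht⟩ := IsIntegrallyClosed.isIntegral_iff.1 hint
    rw [eq_div_iff hxK, ← map_mul] at ht
    have ht' := hinj ht
    have h1 : (1 : R) ∈ P := (hPx 1).2 ⟨t, by rw [← ht']; ring⟩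
    exact hP.ne_top ((Ideal.eq_top_iff_one P).2 h1)
  · push Not at hall
    obtain ⟨a, ha, s, hs, hsP⟩ := hall
    refine ⟨a, ha, fun h0 => hsP ?_, fun b hb => ⟨s, hsP, ?_⟩⟩
    · rw [h0, zero_mul] at hs
      rw [(mul_eq_zero.1 hs.symm).resolve_left hx]
      exact zero_mem _
    · obtain ⟨r, hr⟩ := (hPx b).1 hb
      refine ⟨r, mul_left_cancel₀ hx ?_⟩
      linear_combination a * hr - b * hs

private theorem wstd_pow {R : Type} [CommRing R] {P : Ideal R} (hP : P.IsPrime) {π : R}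
    (hg : ∀ w ∈ P, ∃ s ∉ P, π ∣ s * w) (j : ℕ) : ∀ w ∈ P ^ j, ∃ s ∉ P, π ^ j ∣ s * w := by
  induction j with
  | zero => exact fun w _ => ⟨1, hP.one_notMem, by simp⟩
  | succ j ih =>
    intro w hw
    rw [pow_succ] at hw
    refine Submodule.mul_induction_on hw (fun a ha b hb => ?_) (fun a b ha hb => ?_)
    · obtain ⟨s, hs, h1⟩ := ih a ha
      obtain ⟨s', hs', h2⟩ := hg b hb
      refine ⟨s * s', fun h => (hP.mem_or_mem h).elim hs hs', ?_⟩
      rw [pow_succ, mul_mul_mul_comm]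
      exact mul_dvd_mul h1 h2
    · obtain ⟨s, hs, h1⟩ := ha
      obtain ⟨s', hs', h2⟩ := hb
      refine ⟨s * s', fun h => (hP.mem_or_mem h).elim hs hs', ?_⟩
      have e : s * s' * (a + b) = s' * (s * a) + s * (s' * b) := by ring
      rw [e]
      exact dvd_add (h1.mul_left _) (h2.mul_left _)

/-- The set in the definition of `ordAt` is bounded (Krull), so some `d ∈ 𝔡` is not in
`π ^ (ordAt + 1) R_P`, while `d ∈ π ^ ordAt R_P`. -/
theorem exists_ord_gen {R : Type} [CommRing R] [IsDomain R] [IsNoetherianRing R] {P : Ideal R}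
    (hP : P.IsPrime) {π : R} (hπ : π ∈ P) (hg : ∀ w ∈ P, ∃ s ∉ P, π ∣ s * w) {𝔡 : Ideal R}
    (h𝔡 : 𝔡 ≠ ⊥) : ∃ d ∈ 𝔡, ∃ s ∉ P, d ∣ s * π ^ ordAt P 𝔡 := by
  have hb : BddAbove {j : ℕ | ∀ d ∈ 𝔡, ∃ s ∉ P, s * d ∈ P ^ j} := by
    by_contra hb
    obtain ⟨d, hd, hd0⟩ := Submodule.exists_mem_ne_zero_of_ne_bot h𝔡
    have hle : P.primeCompl ≤ R⁰ := P.primeCompl_le_nonZeroDivisors
    have hmem : algebraMap R (Localization.AtPrime P) d ∈
        ⨅ j : ℕ, IsLocalRing.maximalIdeal (Localization.AtPrime P) ^ j := by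
      refine Ideal.mem_iInf.2 fun j => ?_
      obtain ⟨i, hi, hji⟩ := not_bddAbove_iff.1 hb j
      obtain ⟨s, hs, hsd⟩ := hi d hd
      have h1 := Ideal.mem_map_of_mem (algebraMap R (Localization.AtPrime P))
        (Ideal.pow_le_pow_right hji.le hsd)
      rw [Ideal.map_pow, Localization.AtPrime.map_eq_maximalIdeal, map_mul] at h1
      exact (Ideal.unit_mul_mem_iff_mem _
        (IsLocalization.map_units (Localization.AtPrime P) (⟨s, hs⟩ : P.primeCompl))).1 h1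
    rw [Ideal.iInf_pow_eq_bot_of_isLocalRing _ (IsLocalRing.maximalIdeal.isMaximal _).ne_top,
      Ideal.mem_bot] at hmem
    exact hd0 (IsLocalization.injective (Localization.AtPrime P) hle (hmem.trans (map_zero _).symm))
  have hn : ordAt P 𝔡 + 1 ∉ {j : ℕ | ∀ d ∈ 𝔡, ∃ s ∉ P, s * d ∈ P ^ j} := fun h =>
    absurd (le_csSup hb h) (by unfold ordAt; omega)
  have hn' : ∃ d ∈ 𝔡, ∀ s ∉ P, s * d ∉ P ^ (ordAt P 𝔡 + 1) := by
    by_contra hc
    push Not at hc
    exact hn hc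
  obtain ⟨d, hd, h1⟩ := hn'
  obtain ⟨s, hs, h2⟩ := std_ord hP 𝔡 d hd
  obtain ⟨s', hs', u, hu⟩ := wstd_pow hP hg _ _ h2
  refine ⟨d, hd, u, fun huP => h1 (s' * s) (fun h => (hP.mem_or_mem h).elim hs' hs) ?_,
    s' * s, by linear_combination -hu⟩
  rw [mul_assoc, hu, pow_succ]
  exact Ideal.mul_mem_mul (Ideal.pow_mem_pow hπ _) huP

private theorem wstd_mul {R : Type} [CommRing R] {P : Ideal R} (c : R) {z : FractionRing R}
    (h : InLoc P z) : InLoc P (algebraMap R (FractionRing R) c * z) := by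
  obtain ⟨s, hs, a, ha⟩ := h
  exact ⟨s, hs, c * a, by rw [map_mul, ← ha]; ring⟩

/-- One application of the map. -/
private theorem wstd_one {R : Type} [CommRing R] [IsDomain R] [IsNoetherianRing R]
    {𝔡 : Ideal R} {r q : ℕ} (hq : 0 < q) {φ : FractionRing R →+ FractionRing R}
    (k1 : ∀ w z : FractionRing R, φ (w ^ q * z) = w * φ z)
    (k2 : ∀ z ∈ secs 𝔡 r q, φ z ∈ (algebraMap R (FractionRing R)).range) {P : Ideal R}
    (hP : P.IsPrime) (h1 : P.height = 1) {π : R} (hg : ∀ w ∈ P, ∃ s ∉ P, π ∣ s * w)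
    {z : FractionRing R} (hz : InLoc P (algebraMap R (FractionRing R) π ^
      ⌈(((q - 1) * ordAt P 𝔡 : ℕ) : ℚ) / (r : ℚ)⌉₊ * z)) : InLoc P (φ z) := by
  generalize hA : ⌈(((q - 1) * ordAt P 𝔡 : ℕ) : ℚ) / (r : ℚ)⌉₊ = A at hz
  have key : ∃ s ∉ P, ∀ w ∈ P ^ A, algebraMap R (FractionRing R) (s * w) * z ∈
      (algebraMap R (FractionRing R)).range := by
    obtain ⟨n, g, hgs⟩ := Submodule.fg_iff_exists_fin_generating_family.1
      (IsNoetherian.noetherian (P ^ A))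
    have h2 : ∀ i, ∃ s ∉ P, algebraMap R (FractionRing R) (s * g i) * z ∈
        (algebraMap R (FractionRing R)).range := by
      intro i
      obtain ⟨s, hs, u, hu⟩ := wstd_pow hP hg A (g i) (hgs ▸ Submodule.subset_span ⟨i, rfl⟩)
      obtain ⟨s', hs', b, hb⟩ := hz
      refine ⟨s' * s, fun h => (hP.mem_or_mem h).elim hs' hs, u * b, ?_⟩
      rw [mul_assoc s', hu, map_mul, map_mul, map_mul, map_pow, ← hb]
      ring
    choose s hs h2 using h2
    refine ⟨∏ i, s i, fun h => ?_, fun w hw => ?_⟩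
    · obtain ⟨i, -, hi⟩ := (Ideal.IsPrime.prod_mem_iff (hp := hP)).1 h
      exact hs i hi
    · rw [← hgs] at hw
      obtain ⟨c, rfl⟩ := (Submodule.mem_span_range_iff_exists_fun R).1 hw
      rw [Finset.mul_sum, map_sum, Finset.sum_mul]
      refine sum_mem fun i _ => ?_
      obtain ⟨v, hv⟩ := Finset.dvd_prod_of_mem s (Finset.mem_univ i)
      have e : (∏ i, s i) * c i • g i = v * c i * (s i * g i) := by
        rw [hv, smul_eq_mul]
        ring
      rw [e, map_mul (algebraMap R (FractionRing R)) (v * c i), mul_assoc]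
      exact mul_mem ⟨_, rfl⟩ (h2 i)
  obtain ⟨s, hs, key⟩ := key
  have hP0 : P ≠ ⊥ := fun h0 => by
    rw [Ideal.height_eq_zero_iff_eq_bot.2 h0] at h1
    exact zero_ne_one h1
  obtain ⟨q', rfl⟩ : ∃ q', q = q' + 1 := ⟨q - 1, by omega⟩
  have hsec : algebraMap R (FractionRing R) s ^ (q' + 1) * z ∈ secs 𝔡 r (q' + 1) := by
    intro P' hP' h1' w hw
    by_cases hPP : P = P'
    · subst hPP
      rw [hA] at hw
      obtain ⟨b, hb⟩ := key w hw
      refine ⟨1, hP.one_notMem, s ^ q' * b, ?_⟩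
      rw [map_one, map_mul, map_pow, hb, map_mul]
      ring
    · have hnle : ¬ P ≤ P' := fun hle => hPP (wstd_eq hP hP' hP0 h1' hle)
      obtain ⟨v, hv, hv'⟩ := SetLike.not_le_iff_exists.1 hnle
      obtain ⟨b, hb⟩ := key (v ^ A) (Ideal.pow_mem_pow hv A)
      refine ⟨v ^ A, fun h => hv' (hP'.mem_of_pow_mem A h), w * s ^ q' * b, ?_⟩
      rw [map_mul, map_mul, map_pow _ s, hb, map_mul]
      ring
  obtain ⟨b, hb⟩ := k2 _ hsec
  exact ⟨s, hs, b, by rw [hb, k1]⟩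

/-- Let `A = ⌈(q - 1) ordAt / r⌉`. If `π ^ A z ∈ R_P` there is `s ∉ P` with `s z P ^ A ⊆ R`, and
`s ^ q z ∈ secs` (at another height one prime `P'` divide by an element of `P ^ A` not in `P'`). So
`φ z ∈ R_P`. By induction `φ ^ m z ∈ R_P` if `π ^ (A (1 + q + ... + q ^ (m - 1))) z ∈ R_P`. Take
`m = totient r`, use `hartogs`, and iterate `y ↦ φ (c a y)`. -/
theorem SFR.toSFRi {p : ℕ} [Fact p.Prime] {R : Type} [CommRing R] [IsDomain R]
    [IsNoetherianRing R] [IsIntegrallyClosed R] [CharP R p] {𝔡 𝔞 : Ideal R} {r : ℕ} (hr : 0 < r)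
    (hp : Nat.Coprime p r) (h𝔡 : 𝔡 ≠ ⊥) {t : ℝ≥0} (h : SFR 𝔡 r 𝔞 t) : SFRi p 𝔡 r 𝔞 t := by
  intro c hc
  obtain ⟨e, he, a, ha, φ, k1, k2, k3⟩ := h c (nonZeroDivisors.ne_zero hc)
  rw [ringChar.eq R p] at ha k1 k2
  have hp0 : 0 < p := (Fact.out : p.Prime).pos
  have hq : 0 < p ^ e := pow_pos hp0 e
  have hA : ∀ o : ℕ, (p ^ e - 1) * o ≤ r * ⌈(((p ^ e - 1) * o : ℕ) : ℚ) / (r : ℚ)⌉₊ := by
    intro o
    have h1 := Nat.le_ceil ((((p ^ e - 1) * o : ℕ) : ℚ) / (r : ℚ))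
    rw [div_le_iff₀ (by exact_mod_cast hr)] at h1
    rw [mul_comm r]
    exact_mod_cast h1
  have key : ∀ m : ℕ, ∃ a ∈ 𝔞 ^ ⌈(t : ℝ) * ((p : ℝ) ^ (e * (m + 1)) - 1)⌉₊,
      ∃ Φ : FractionRing R →+ FractionRing R,
        (∀ w z : FractionRing R, Φ (w ^ p ^ (e * (m + 1)) * z) = w * Φ z) ∧
        (∀ P : Ideal R, P.IsPrime → P.height = 1 → ∀ π : R, (∀ w ∈ P, ∃ s ∉ P, π ∣ s * w) →
          ∃ B : ℕ, (p ^ (e * (m + 1)) - 1) * ordAt P 𝔡 ≤ r * B ∧ ∀ z,
            InLoc P (algebraMap R (FractionRing R) π ^ B * z) → InLoc P (Φ z)) ∧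
        Φ (algebraMap R (FractionRing R) (c * a)) = 1 := by
    intro m
    induction m with
    | zero =>
      rw [zero_add, mul_one]
      exact ⟨a, ha, φ, k1, fun P hP h1 π hg => ⟨_, hA _, fun z hz =>
        wstd_one hq k1 k2 hP h1 hg hz⟩, k3⟩
    | succ m ih =>
      obtain ⟨a', ha', Φ, l1, l2, l3⟩ := ih
      have e1 : e * (m + 1 + 1) = e * (m + 1) + e := by ring
      rw [e1]
      generalize e * (m + 1) = f at *
      refine ⟨a' ^ p ^ e * a, ?_,
        Φ.comp ((AddMonoidHom.mulLeft (algebraMap R (FractionRing R) c)).comp φ), ?_, ?_, ?_⟩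
      · refine Ideal.pow_le_pow_right (m := ⌈(t : ℝ) * ((p : ℝ) ^ (f + e) - 1)⌉₊)
          (n := ⌈(t : ℝ) * ((p : ℝ) ^ f - 1)⌉₊ * p ^ e + ⌈(t : ℝ) * ((p : ℝ) ^ e - 1)⌉₊) ?_ ?_
        · refine Nat.ceil_le.2 ?_
          have a1 := Nat.le_ceil ((t : ℝ) * ((p : ℝ) ^ f - 1))
          have a2 : (0 : ℝ) ≤ (p : ℝ) ^ e := by positivity
          have a3 := mul_le_mul_of_nonneg_right a1 a2
          have a4 := Nat.le_ceil ((t : ℝ) * ((p : ℝ) ^ e - 1))
          push_cast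
          rw [pow_add]
          nlinarith
        · rw [pow_add, pow_mul]
          exact Ideal.mul_mem_mul (Ideal.pow_mem_pow ha' _) ha
      · intro w z
        simp only [AddMonoidHom.coe_comp, Function.comp_apply, AddMonoidHom.coe_mulLeft]
        rw [pow_add, pow_mul, k1, mul_left_comm, l1]
      · intro P hP h1 π hg
        obtain ⟨B, hB, hB'⟩ := l2 P hP h1 π hg
        refine ⟨⌈(((p ^ e - 1) * ordAt P 𝔡 : ℕ) : ℚ) / (r : ℚ)⌉₊ + B * p ^ e, ?_, fun z hz => ?_⟩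
        · have b1 := hA (ordAt P 𝔡)
          have b2 : 0 < p ^ f := pow_pos hp0 f
          rw [pow_add]
          generalize ⌈(((p ^ e - 1) * ordAt P 𝔡 : ℕ) : ℚ) / (r : ℚ)⌉₊ = A at *
          obtain ⟨q, hq'⟩ : ∃ q, p ^ e = q + 1 := ⟨p ^ e - 1, by omega⟩
          obtain ⟨Q, hQ'⟩ : ∃ Q, p ^ f = Q + 1 := ⟨p ^ f - 1, by omega⟩
          rw [hq'] at b1 ⊢
          rw [hQ'] at hB ⊢
          have b3 : (Q + 1) * (q + 1) - 1 = Q * (q + 1) + q := by
            rw [add_mul, one_mul, ← add_assoc, Nat.add_sub_cancel]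
          rw [b3]
          rw [Nat.add_sub_cancel] at b1 hB
          nlinarith [Nat.mul_le_mul_right (q + 1) hB]
        · simp only [AddMonoidHom.coe_comp, Function.comp_apply, AddMonoidHom.coe_mulLeft]
          refine hB' _ ?_
          rw [mul_left_comm, ← k1]
          refine wstd_mul c (wstd_one hq k1 k2 hP h1 hg ?_)
          rwa [← mul_assoc, ← pow_mul, ← pow_add]
      · simp only [AddMonoidHom.coe_comp, Function.comp_apply, AddMonoidHom.coe_mulLeft]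
        rw [mul_left_comm, map_mul _ (a' ^ p ^ e), map_pow, k1, k3, mul_one, ← map_mul, l3]
  obtain ⟨m, hm⟩ : ∃ m, r.totient = m + 1 := ⟨r.totient - 1, by
    have := Nat.totient_pos.2 hr
    omega⟩
  have hdv : r ∣ p ^ (e * (m + 1)) - 1 := by
    have h1 := Nat.ModEq.pow_totient (Nat.Coprime.pow_left e hp)
    rw [hm, ← pow_mul] at h1
    exact (Nat.modEq_iff_dvd' (pow_pos hp0 _)).1 h1.symm
  obtain ⟨a', ha', Φ, l1, l2, l3⟩ := key m
  have he' : 0 < e * (m + 1) := Nat.mul_pos he m.succ_pos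
  generalize e * (m + 1) = f at *
  obtain ⟨M, hM⟩ := id hdv
  have hinj := IsFractionRing.injective R (FractionRing R)
  have hgood : ∀ z : FractionRing R, (∀ d ∈ 𝔡 ^ M, algebraMap R (FractionRing R) d * z ∈
      (algebraMap R (FractionRing R)).range) → Φ z ∈ (algebraMap R (FractionRing R)).range := by
    intro z hz
    refine hartogs _ fun P hP h1 => ?_
    obtain ⟨π, hπ, -, hg⟩ := exists_unif hP h1
    obtain ⟨B, hB, hB'⟩ := l2 P hP h1 π hg
    obtain ⟨d, hd, s, hs, u, hu⟩ := exists_ord_gen hP hπ hg h𝔡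
    obtain ⟨b, hb⟩ := hz (d ^ M) (Ideal.pow_mem_pow hd M)
    rw [hM, mul_assoc] at hB
    obtain ⟨B', rfl⟩ := Nat.exists_eq_add_of_le (Nat.le_of_mul_le_mul_left hB hr)
    refine hB' z ⟨s ^ M, fun h => hs (hP.mem_of_pow_mem M h), π ^ B' * u ^ M * b, ?_⟩
    have hu' := congrArg (fun x => algebraMap R (FractionRing R) (x ^ M)) hu
    simp only [mul_pow, map_mul, map_pow] at hu' hb ⊢
    rw [hb, pow_add, mul_comm M, pow_mul]
    linear_combination (algebraMap R (FractionRing R) π ^ B' * z) * hu'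
  have hR : ∀ y : R, ∃ u : R, algebraMap R (FractionRing R) u =
      Φ (algebraMap R (FractionRing R) y) := fun y =>
    hgood _ fun d _ => ⟨d * y, map_mul _ _ _⟩
  choose ψ hψ using hR
  refine ⟨f, he', hdv, a', ha', AddMonoidHom.mk' ψ fun x y => hinj ?_, ⟨fun w y => hinj ?_, ?_⟩,
    hinj ?_⟩
  · rw [map_add, hψ, hψ, hψ, map_add, map_add]
  · simp only [AddMonoidHom.mk'_apply]
    rw [hψ, map_mul, map_pow, l1, map_mul, hψ]
  · intro z hz y hy
    simp only [AddMonoidHom.mk'_apply]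
    rw [hM, Nat.mul_div_cancel_left _ hr] at hy
    have hz0 : algebraMap R (FractionRing R) z ≠ 0 := fun h0 =>
      nonZeroDivisors.ne_zero hz (hinj (h0.trans (map_zero _).symm))
    obtain ⟨u, hu⟩ := hgood (algebraMap R (FractionRing R) y /
        algebraMap R (FractionRing R) z ^ p ^ f) fun d hd => by
      obtain ⟨b, hb⟩ := hy d hd
      refine ⟨b, ?_⟩
      rw [← mul_div_assoc, eq_div_iff (pow_ne_zero _ hz0), ← map_pow, ← map_mul, ← map_mul,
        mul_comm d, hb, mul_comm]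
    refine ⟨u, hinj ?_⟩
    rw [hψ, map_mul, hu, ← l1, mul_div_cancel₀ _ (pow_ne_zero _ hz0)]
  · simp only [AddMonoidHom.mk'_apply]
    rw [hψ, l3, map_one]

theorem fpt_le_of_not {p : ℕ} [Fact p.Prime] {R : Type} [CommRing R] [IsDomain R]
    [IsNoetherianRing R] [IsIntegrallyClosed R] [CharP R p] {𝔡 𝔞 : Ideal R} {r : ℕ} (hr : 0 < r)
    (hp : Nat.Coprime p r) (h𝔡 : 𝔡 ≠ ⊥) {t : ℝ≥0} (h : ¬ SFRi p 𝔡 r 𝔞 t) :
    fpt 𝔡 r 𝔞 ≤ t := by
  refine iSup₂_le fun t' ht' => ENNReal.coe_le_coe.2 (le_of_not_gt fun hlt => h ?_)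
  exact SFRi.mono_t (Fact.out : p.Prime).pos hlt.le (ht'.toSFRi hr hp h𝔡)

end

end Pool.Agent.Lib.MP_4287a9_ag
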