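import Pool.Agent.Lib.MP_4287a9_ag.WUb
import Pool.Agent.Lib.MP_4287a9_ag.WStd

/-!
Transfer to the closed points of the fibres, and the main theorem.
-/

open scoped TensorProduct ENNReal NNReal nonZeroDivisors Polynomial
open Filter

namespace Pool.Agent.Lib.MP_4287a9_ag

noncomputable section

variable {k B T C : Type} [Field k] [CharZero k] [CommRing B] [Algebra.FiniteType ℤ B] [Algebra B k]
  [CommRing T] [Algebra B T] [Algebra.FiniteType B T] [CommRing C] [Algebra B C]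
  {σ : T →ₐ[B] C}

omit [CharZero k] [Algebra.FiniteType ℤ B] in
/-- The points over the general closed point of `Spec B` are general points of `Spec C`. -/
theorem Sett.exists_chi' (h : Sett k σ) {b' : C} (hb' : b' ≠ 0) :
    ∃ b : B, b ≠ 0 ∧ ∀ (κ₀ : Type) [Field κ₀] [Finite κ₀] [Algebra B κ₀], algebraMap B κ₀ b ≠ 0 →
      ∀ m : Ideal (κ₀ ⊗[B] T), m.IsPrime → ext B κ₀ (RingHom.ker σ) ≤ m → m.IsMaximal ∧
        ∃ (κ : Type) (_ : Field κ) (_ : Finite κ) (_ : Algebra B κ) (ι : κ₀ →ₐ[B] κ)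
          (χ : C →ₐ[B] κ), χ b' ≠ 0 ∧ (pk (χ.comp σ)).comap (bm T ι) = m := by
  have := h.isDomain
  have : IsDomain B := h.inj.isDomain (algebraMap B k)
  obtain ⟨b1, hb1, H⟩ := h.exists_chi
  obtain ⟨b2, hb2, y, hy⟩ :=
    (h.alg.isAlgebraic b').exists_nonzero_dvd (mem_nonZeroDivisors_of_ne_zero hb')
  refine ⟨b1 * b2, mul_ne_zero hb1 hb2, fun κ₀ _ _ _ hb m hm hle => ?_⟩
  rw [map_mul] at hb
  obtain ⟨h1, κ, _, _, _, ι, χ, h2⟩ := H κ₀ (left_ne_zero_of_mul hb) m hm hle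
  refine ⟨h1, κ, inferInstance, inferInstance, inferInstance, ι, χ, fun h0 => ?_, h2⟩
  refine right_ne_zero_of_mul hb (ι.injective ?_)
  have h3 := congrArg χ hy
  rw [map_mul, h0, zero_mul, χ.commutes, ← ι.commutes] at h3
  exact h3.trans (map_zero ι).symm

variable [IsDomain (k ⊗[B] T)] [IsIntegrallyClosed (k ⊗[B] T)] {n : ℕ} {𝔡 : Ideal T}
  {r E : ℕ} {c : T} {x : Fin n → T}

theorem Ctx.fib_sfr (h : Ctx k σ n 𝔡 r E c x) :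
    ∃ b : B, b ≠ 0 ∧ ∀ (κ₀ : Type) [Field κ₀] [Finite κ₀] [Algebra B κ₀], algebraMap B κ₀ b ≠ 0 →
      ∀ (m : Ideal (κ₀ ⊗[B] T)) [m.IsPrime], ext B κ₀ (RingHom.ker σ) ≤ m →
        SFat (ringChar κ₀) m (ext B κ₀ 𝔡) r ⊤ 0 := by
  have : IsDomain B := h.st.inj.isDomain (algebraMap B k)
  obtain ⟨b1, hb1, H1⟩ := h.gen_top
  obtain ⟨b2, hb2, H2⟩ := h.st.exists_chi' hb1
  obtain ⟨b3, hb3, H3⟩ := h.hz
  refine ⟨b2 * b3, mul_ne_zero hb2 hb3, fun κ₀ _ _ _ hb m hm hle => ?_⟩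
  rw [map_mul] at hb
  obtain ⟨-, κ, _, _, _, ι, χ, h1, h2⟩ := H2 κ₀ (left_ne_zero_of_mul hb) m hm hle
  rw [← sfat_iff ι m _ h2 (H3 κ₀ (right_ne_zero_of_mul hb)), spk_ext, spk_top, ← spk_top χ]
  exact (H1 κ χ h1).2 trivial

theorem Ctx.fib_lb (h : Ctx k σ n 𝔡 r E c x) {v : ℝ≥0}
    (hv : (n : ℝ≥0∞) ^ (2 * n) * v < nvolV k n (ext B k (RingHom.ker σ)) (ext B k 𝔡) r) :
    ∃ b : B, b ≠ 0 ∧ ∀ (κ₀ : Type) [Field κ₀] [Finite κ₀] [Algebra B κ₀], algebraMap B κ₀ b ≠ 0 →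
      ∀ (m : Ideal (κ₀ ⊗[B] T)) [m.IsPrime], ext B κ₀ (RingHom.ker σ) ≤ m →
        (v : ℝ≥0∞) ≤ Fvol n (lo m (ext B κ₀ 𝔡)) r := by
  have := h.st.isDomain
  have : IsDomain B := h.st.inj.isDomain (algebraMap B k)
  obtain ⟨b1, hb1, H1⟩ := h.lb hv
  obtain ⟨b4, hb4, H4⟩ := h.hT
  obtain ⟨b2, hb2, H2⟩ := h.st.exists_chi' (mul_ne_zero hb1 hb4)
  obtain ⟨b3, hb3, H3⟩ := h.hz
  obtain ⟨b5, hb5, H5⟩ := h.fib_sfr
  refine ⟨b2 * b3 * b5, mul_ne_zero (mul_ne_zero hb2 hb3) hb5, fun κ₀ _ _ _ hb m hm hle => ?_⟩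
  rw [map_mul, map_mul, mul_ne_zero_iff, mul_ne_zero_iff] at hb
  obtain ⟨hmax, κ, _, _, _, ι, χ, h1, h2⟩ := H2 κ₀ hb.1.1 m hm hle
  rw [map_mul, mul_ne_zero_iff] at h1
  obtain ⟨hp, hN, hC⟩ := inst_lo m
  have : Fact (ringChar κ₀).Prime := ⟨hp⟩
  obtain ⟨_, _⟩ := SFRi.domain_normal hp.two_le (H5 κ₀ hb.2 m hle)
  refine le_iInf₂ fun 𝔞 h𝔞 => not_lt.1 fun hlt => ?_
  obtain ⟨𝔞, rfl⟩ : ∃ 𝔞₁ : Ideal (κ₀ ⊗[B] T), lo m 𝔞₁ = 𝔞 :=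
    ⟨_, IsLocalization.map_under m.primeCompl _ 𝔞⟩
  obtain ⟨L, hL⟩ := Ideal.exists_radical_pow_le_of_fg (lo m 𝔞) (IsNoetherian.noetherian _)
  have hL' : IsLocalRing.maximalIdeal (Localization.AtPrime (pk (χ.comp σ))) ^ L ≤
      lo (pk (χ.comp σ)) (spk ι 𝔞) := by
    rw [h𝔞, ← Localization.AtPrime.map_eq_maximalIdeal] at hL
    have h3 := Ideal.map_mono (f := Localization.localRingHom m (pk (χ.comp σ))
      (bm T ι).toRingHom h2.symm) hL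
    have h4 : ∀ I : Ideal (κ₀ ⊗[B] T), (lo m I).map (Localization.localRingHom m (pk (χ.comp σ))
        (bm T ι).toRingHom h2.symm) = lo (pk (χ.comp σ)) (spk ι I) := fun I => by
      rw [lo, lo, spk, Ideal.map_map]
      refine Eq.trans ?_ (Ideal.map_map (bm T ι).toRingHom _).symm
      congr 1
      exact RingHom.ext fun y => Localization.localRingHom_to_map _ _ _ h2.symm y
    rwa [Ideal.map_pow, h4, h4, lo_spk_max ι m hmax _ h2] at h3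
  have hmu := mult_lo_spk ι m hmax _ h2 𝔞 n
  obtain ⟨t, t', k1, k2, k3⟩ := exists_t_lt (hmu ▸ mult_ne_top hL' (H4 κ χ h1.2).2.2.2)
    (fpt_ne_top (p := ringChar κ₀) _ r (h𝔞 ▸ Ideal.le_radical)) hlt
  have ht : ¬ SFat (ringChar κ₀) m (ext B κ₀ 𝔡) r 𝔞 t := fun hs => k1.not_ge
    (le_iSup₂ (f := fun (t : ℝ≥0) (_ : SFR (lo m (ext B κ₀ 𝔡)) r (lo m 𝔞) t) => (t : ℝ≥0∞)) t
      (SFRi.toSFR h.hr hs))
  rw [← sfat_iff ι m _ h2 (H3 κ₀ hb.1.2), spk_ext] at ht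
  have h5 := H1 κ χ h1.1 _ t t' k2 ht
  rw [hmu] at h5
  exact h5.not_ge k3

theorem Ctx.fib_ub (h : Ctx k σ n 𝔡 r E c x) {v : ℝ≥0∞}
    (hv : nvolV k n (ext B k (RingHom.ker σ)) (ext B k 𝔡) r < v) :
    ∃ b : B, b ≠ 0 ∧ ∀ (κ₀ : Type) [Field κ₀] [Finite κ₀] [Algebra B κ₀], algebraMap B κ₀ b ≠ 0 →
      ∀ (m : Ideal (κ₀ ⊗[B] T)) [m.IsPrime], ext B κ₀ (RingHom.ker σ) ≤ m →
        Fvol n (lo m (ext B κ₀ 𝔡)) r ≤ (n : ℝ≥0∞) ^ n * v := by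
  have := h.st.isDomain
  have : IsDomain B := h.st.inj.isDomain (algebraMap B k)
  obtain ⟨𝔠, N, t, c1, c2, ⟨b1, hb1, H1⟩, c4⟩ := h.ub hv
  obtain ⟨b4, hb4, H4⟩ := h.st.mult_eq c1 n
  obtain ⟨b2, hb2, H2⟩ := h.st.exists_chi' (mul_ne_zero hb1 hb4)
  obtain ⟨b3, hb3, H3⟩ := h.hz
  obtain ⟨b5, hb5, H5⟩ := h.fib_sfr
  have hr : (r : B) ≠ 0 := fun h0 => by
    have h1 := congrArg (algebraMap B k) h0
    rw [map_natCast, map_zero, Nat.cast_eq_zero] at h1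
    exact h.hr.ne' h1
  refine ⟨b2 * b3 * b5 * r, mul_ne_zero (mul_ne_zero (mul_ne_zero hb2 hb3) hb5) hr,
    fun κ₀ _ _ _ hb m hm hle => ?_⟩
  rw [map_mul, map_mul, map_mul, mul_ne_zero_iff, mul_ne_zero_iff, mul_ne_zero_iff,
    map_natCast] at hb
  obtain ⟨hmax, κ, _, _, _, ι, χ, h1, h2⟩ := H2 κ₀ hb.1.1.1 m hm hle
  rw [map_mul, mul_ne_zero_iff] at h1
  obtain ⟨hp, hN, hC⟩ := inst_lo m
  have : Fact (ringChar κ₀).Prime := ⟨hp⟩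
  obtain ⟨_, _⟩ := SFRi.domain_normal hp.two_le (H5 κ₀ hb.1.2 m hle)
  have hco : Nat.Coprime (ringChar κ₀) r :=
    (Nat.Prime.coprime_iff_not_dvd hp).2 fun hd => hb.2 ((ringChar.spec κ₀ r).2 hd)
  have hd : lo m (ext B κ₀ 𝔡) ≠ ⊥ := fun h0 => by
    obtain ⟨δ, hδ, hδ0⟩ := H3 κ₀ hb.1.1.2
    have h3 : algebraMap _ (Localization.AtPrime m) δ = 0 :=
      Ideal.mem_bot.1 (h0 ▸ Ideal.mem_map_of_mem _ hδ)
    obtain ⟨y, hy⟩ := (IsLocalization.map_eq_zero_iff m.primeCompl _ δ).1 h3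
    exact y.2 (hδ0.2 y hy ▸ m.zero_mem)
  have ht : ¬ SFat (ringChar κ) (pk (χ.comp σ)) (ext B κ 𝔡) r (spk χ (ext B C 𝔠)) t :=
    (H1 κ χ h1.1).1
  rw [spk_ext, ← spk_ext ι, ← spk_ext ι, sfat_iff ι m _ h2 (H3 κ₀ hb.1.1.2)] at ht
  have hf := fpt_le_of_not h.hr hco hd ht
  have hmu := mult_lo_spk ι m hmax _ h2 (ext B κ₀ 𝔠) n
  rw [spk_ext, H4 κ χ h1.2] at hmu
  have hrad := radical_lo m (fun q hq hq' => (H2 κ₀ hb.1.1.1 q hq hq').1) (ext_pow_le κ₀ c1)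
    ((Ideal.map_mono c2).trans hle)
  calc Fvol n (lo m (ext B κ₀ 𝔡)) r
      ≤ mult n (lo m (ext B κ₀ 𝔠)) * fpt (lo m (ext B κ₀ 𝔡)) r (lo m (ext B κ₀ 𝔠)) ^ n :=
        iInf₂_le (f := fun (𝔞 : Ideal (Localization.AtPrime m))
          (_ : 𝔞.radical = IsLocalRing.maximalIdeal _) =>
            mult n 𝔞 * fpt (lo m (ext B κ₀ 𝔡)) r 𝔞 ^ n) _ hrad
    _ ≤ mult n (ext B k 𝔠) * (t : ℝ≥0∞) ^ n := by
        rw [hmu]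
        gcongr
    _ ≤ _ := c4

omit [CharZero k] [IsDomain (k ⊗[B] T)] [IsIntegrallyClosed (k ⊗[B] T)] in
theorem Sett.fib_ne (h : Sett k σ) :
    ∃ b : B, b ≠ 0 ∧ ∀ (κ₀ : Type) [Field κ₀] [Finite κ₀] [Algebra B κ₀], algebraMap B κ₀ b ≠ 0 →
      ∃ m : Ideal (κ₀ ⊗[B] T), m.IsPrime ∧ ext B κ₀ (RingHom.ker σ) ≤ m := by
  have := h.isDomain
  have := h.finiteType
  have : IsDomain B := h.inj.isDomain (algebraMap B k)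
  have hNB : IsNoetherianRing B := Algebra.FiniteType.isNoetherianRing ℤ B
  obtain ⟨b, hb, H⟩ := lift_pt (Algebra.ofId B C) h.injC one_ne_zero
  refine ⟨b, hb, fun κ₀ _ _ _ hb' => ?_⟩
  obtain ⟨κ, _, _, _, e, χ, -⟩ := H κ₀ (Algebra.ofId B κ₀) hb'
  refine ⟨(pk (χ.comp σ)).comap (bm T e), inferInstance, ?_⟩
  rw [← Ideal.map_le_iff_le_comap]
  exact (spk_ext e _).le.trans (ext_ker_le_pk σ χ)

omit C in
theorem mainW (hB : Function.Injective (algebraMap B k)) (hn : 1 ≤ n)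
    (hdim : Algebra.trdeg k (k ⊗[B] T) = n) (𝔫 : Ideal T) (h𝔫 : (ext B k 𝔫).IsMaximal) (hr : 0 < r)
    (h𝔡 : ext B k 𝔡 ≠ ⊥) (hklt : KltV k n (ext B k 𝔫) (ext B k 𝔡) r ⊤ 0) :
    0 < nvolV k n (ext B k 𝔫) (ext B k 𝔡) r ∧ nvolV k n (ext B k 𝔫) (ext B k 𝔡) r < ⊤ ∧
    ∀ (v : ℝ≥0) (w : ℝ≥0∞), (n : ℝ≥0∞) ^ (2 * n) * v < nvolV k n (ext B k 𝔫) (ext B k 𝔡) r →
      nvolV k n (ext B k 𝔫) (ext B k 𝔡) r < w → ∃ b : B, b ≠ 0 ∧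
        ∀ (κ : Type) [Field κ] [Finite κ] [Algebra B κ], algebraMap B κ b ≠ 0 →
          (∃ m : Ideal (κ ⊗[B] T), m.IsPrime ∧ ext B κ 𝔫 ≤ m) ∧
          ∀ (m : Ideal (κ ⊗[B] T)) [m.IsPrime], ext B κ 𝔫 ≤ m → m.IsMaximal ∧
            IsDomain (Localization.AtPrime m) ∧ IsIntegrallyClosed (Localization.AtPrime m) ∧
            SFR (lo m (ext B κ 𝔡)) r ⊤ 0 ∧ (v : ℝ≥0∞) ≤ Fvol n (lo m (ext B κ 𝔡)) r ∧
            Fvol n (lo m (ext B κ 𝔡)) r ≤ (n : ℝ≥0∞) ^ n * w := by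
  have : IsDomain B := hB.isDomain (algebraMap B k)
  have hNB : IsNoetherianRing B := Algebra.FiniteType.isNoetherianRing ℤ B
  obtain ⟨C, _, _, σ, hst, he, b0, hb0, H0⟩ := exists_sett hB 𝔫 h𝔫
  obtain ⟨hz, E, c, x, hc, hT⟩ := hst.exists_tg hn hdim h𝔡
  rw [← he] at hklt ⊢
  have h : Ctx k σ n 𝔡 r E c x := ⟨hst, hn, hdim, hr, h𝔡, hz, hc, hT, hklt⟩
  refine ⟨h.nvolV_pos, h.nvolV_lt_top, fun v w hv hw => ?_⟩
  obtain ⟨b1, hb1, H1⟩ := h.fib_sfr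
  obtain ⟨b2, hb2, H2⟩ := h.fib_lb hv
  obtain ⟨b3, hb3, H3⟩ := h.fib_ub hw
  obtain ⟨b4, hb4, H4⟩ := hst.fib_ne
  obtain ⟨b5, hb5, H5⟩ := hst.exists_chi
  refine ⟨b0 * b1 * (b2 * b3) * (b4 * b5), mul_ne_zero (mul_ne_zero (mul_ne_zero hb0 hb1)
    (mul_ne_zero hb2 hb3)) (mul_ne_zero hb4 hb5), fun κ _ _ _ hb => ?_⟩
  simp only [map_mul, mul_ne_zero_iff] at hb
  rw [← H0 κ hb.1.1.1]
  refine ⟨H4 κ hb.2.1, fun m hm hle => ?_⟩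
  obtain ⟨hp, hN, hC⟩ := inst_lo m
  have : Fact (ringChar κ).Prime := ⟨hp⟩
  have h1 := H1 κ hb.1.1.2 m hle
  obtain ⟨h2, h3⟩ := SFRi.domain_normal hp.two_le h1
  exact ⟨(H5 κ hb.2.2 m hm hle).1, h2, h3, (SFRi.top h1).toSFR hr, H2 κ hb.1.2.1 m hle,
    H3 κ hb.1.2.2 m hle⟩

end

end Pool.Agent.Lib.MP_4287a9_ag
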