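import Pool.Agent.Lib.MP_4287a9_ag.P1b

/-!
Taylor coefficients with a degree bound.
-/

open scoped TensorProduct ENNReal NNReal nonZeroDivisors Polynomial
open Filter

namespace Pool.Agent.Lib.MP_4287a9_ag

noncomputable section

/-- With `T l` as in `taylor_one` (zero for `l ≥ a`), show `c ^ (m + 2 l) T l ∈ 𝔦` by strong
induction: the coefficient of `s ^ l` in `ψ c ^ m * ψ h` is `∑ i ≤ l, γ i * c ^ (l - i) T (l - i)`
with `γ 0 = c ^ m` and `c ^ (m - i) ∣ γ i`. -/
theorem taylor_one' {R : Type} [CommRing R] {q : ℕ} (𝔦 : Ideal R)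
    (ψ : R →+* AdjoinRoot ((Polynomial.X : R[X]) ^ q))
    (hst : ∀ h ∈ 𝔦, ψ h ∈ 𝔦.map (AdjoinRoot.of ((Polynomial.X : R[X]) ^ q))) (c x : R)
    (hc : ψ c - AdjoinRoot.of _ c ∈
      Ideal.span {AdjoinRoot.root ((Polynomial.X : R[X]) ^ q)})
    (hx : ψ x = AdjoinRoot.of _ x + AdjoinRoot.of _ c * AdjoinRoot.root _) {a : ℕ} (ha : a ≤ q)
    (F : Fin a → R) (hF : ∀ j, ψ (F j) = AdjoinRoot.of _ (F j)) {m : ℕ}
    (hmem : c ^ m * ∑ j, F j * x ^ (j : ℕ) ∈ 𝔦) (j : Fin a) : c ^ (m + 2 * a) * F j ∈ 𝔦 := by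
  set P : R[X] := ∑ j : Fin a, Polynomial.C (F j) * Polynomial.X ^ (j : ℕ) with hP
  have hdeg : P.degree < a := Polynomial.degree_sum_fin_lt F
  have h1 : ψ (∑ j, F j * x ^ (j : ℕ)) = AdjoinRoot.mk _
      ((Polynomial.taylor x P).comp (Polynomial.C c * Polynomial.X)) := by
    rw [Polynomial.taylor_apply, Polynomial.comp_assoc, hP, Polynomial.sum_comp, map_sum, map_sum]
    refine Finset.sum_congr rfl fun l _ => ?_
    rw [map_mul, map_pow, hF, hx, Polynomial.mul_comp, Polynomial.C_comp, Polynomial.pow_comp,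
      Polynomial.X_comp, Polynomial.add_comp, Polynomial.X_comp, Polynomial.C_comp, map_mul,
      map_pow, map_add, map_mul, AdjoinRoot.mk_C, AdjoinRoot.mk_C, AdjoinRoot.mk_C,
      AdjoinRoot.mk_X, add_comm]
  obtain ⟨v, hv⟩ := Ideal.mem_span_singleton'.1 hc
  obtain ⟨u, rfl⟩ := AdjoinRoot.mk_surjective v
  have hc' : ψ c = AdjoinRoot.mk _ (Polynomial.C c + u * Polynomial.X) := by
    rw [map_add, map_mul, AdjoinRoot.mk_C, AdjoinRoot.mk_X, hv, add_sub_cancel]
  set W : R[X] := (1 + u.comp (Polynomial.C c * Polynomial.X) * Polynomial.X) ^ m with hW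
  have hW0 : W.coeff 0 = 1 := by
    rw [hW, Polynomial.coeff_zero_eq_eval_zero, Polynomial.eval_pow, Polynomial.eval_add,
      Polynomial.eval_mul, Polynomial.eval_X, mul_zero, add_zero, Polynomial.eval_one, one_pow]
  have hB : ∀ i, ((Polynomial.C c + u * Polynomial.X) ^ m).coeff i * c ^ i =
      c ^ m * W.coeff i := by
    intro i
    rw [← Polynomial.comp_C_mul_X_coeff, ← Polynomial.coeff_C_mul, hW, Polynomial.pow_comp,
      Polynomial.add_comp, Polynomial.C_comp, Polynomial.mul_comp, Polynomial.X_comp, map_pow,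
      ← mul_pow]
    congr 2
    ring
  have h2 := (P1b_mem_iff 𝔦 _).1 (hst _ hmem)
  rw [map_mul, map_pow, h1, hc', ← map_pow, ← map_mul] at h2
  have h9 : ∀ l, l < q → c ^ (m + 2 * l) * (Polynomial.taylor x P).coeff l ∈ 𝔦 := by
    intro l
    induction l using Nat.strong_induction_on with
    | _ l ih =>
      intro hl
      have h4 := 𝔦.mul_mem_left (c ^ l) (h2 l hl)
      have e : c ^ l * ((Polynomial.C c + u * Polynomial.X) ^ m *
          (Polynomial.taylor x P).comp (Polynomial.C c * Polynomial.X)).coeff l =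
          ∑ z ∈ Finset.HasAntidiagonal.antidiagonal l,
            W.coeff z.1 * (c ^ (m + 2 * z.2) * (Polynomial.taylor x P).coeff z.2) := by
        rw [Polynomial.coeff_mul, Finset.mul_sum]
        refine Finset.sum_congr rfl fun z hz => ?_
        rw [Polynomial.comp_C_mul_X_coeff, ← Finset.HasAntidiagonal.mem_antidiagonal.1 hz]
        linear_combination (c ^ (2 * z.2) * (Polynomial.taylor x P).coeff z.2) * hB z.1
      have hm : ((0, l) : ℕ × ℕ) ∈ Finset.HasAntidiagonal.antidiagonal l :=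
        Finset.HasAntidiagonal.mem_antidiagonal.2 (zero_add l)
      rw [P1b_co_mk hl, e, ← Finset.add_sum_erase _ _ hm, hW0, one_mul] at h4
      refine (Ideal.add_mem_iff_left _ (Ideal.sum_mem _ fun z hz => ?_)).1 h4
      obtain ⟨hz1, hz2⟩ := Finset.mem_erase.1 hz
      have hz3 := Finset.HasAntidiagonal.mem_antidiagonal.1 hz2
      have hz4 : z.2 < l := by
        rcases Nat.eq_zero_or_pos z.1 with h0 | h0
        · exact absurd (Prod.ext h0 (by omega)) hz1
        · omega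
      exact 𝔦.mul_mem_left _ (ih _ hz4 (hz4.trans hl))
  have h3 : Polynomial.C (c ^ (m + 2 * a)) * Polynomial.taylor x P ∈
      𝔦.map (Polynomial.C : R →+* R[X]) := by
    refine Ideal.mem_map_C_iff.2 fun l => ?_
    rw [Polynomial.coeff_C_mul]
    by_cases hl : l < a
    · obtain ⟨k, hk⟩ := Nat.exists_eq_add_of_le hl.le
      have e : c ^ (m + 2 * a) = c ^ (2 * k) * c ^ (m + 2 * l) := by
        rw [← pow_add, hk]
        congr 1
        ring
      rw [e, mul_assoc]
      exact 𝔦.mul_mem_left _ (h9 l (hl.trans_le ha))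
    · rw [Polynomial.coeff_eq_zero_of_degree_lt (p := Polynomial.taylor x P), mul_zero]
      · exact zero_mem _
      · rw [Polynomial.degree_taylor]
        exact hdeg.trans_le (by exact_mod_cast not_lt.1 hl)
  have h5 := Ideal.mem_map_of_mem (Polynomial.compRingHom (Polynomial.X + Polynomial.C (-x))) h3
  have h6 : (Polynomial.compRingHom (Polynomial.X + Polynomial.C (-x))).comp
      (Polynomial.C : R →+* R[X]) = Polynomial.C := by
    refine RingHom.ext fun a => ?_
    rw [RingHom.comp_apply, Polynomial.coe_compRingHom_apply, Polynomial.C_comp]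
  rw [Ideal.map_map, h6, Polynomial.coe_compRingHom_apply, Polynomial.mul_comp, Polynomial.C_comp,
    ← Polynomial.taylor_apply, Polynomial.taylor_taylor, neg_add_cancel,
    Polynomial.taylor_zero] at h5
  have h7 := Ideal.mem_map_C_iff.1 h5 j
  have h8 : P.coeff j = F j := by
    rw [hP, Polynomial.finsetSum_coeff, Finset.sum_eq_single j]
    · rw [Polynomial.coeff_C_mul_X_pow, if_pos rfl]
    · intro l _ hl
      rw [Polynomial.coeff_C_mul_X_pow, if_neg fun h => hl (Fin.ext h).symm]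
    · intro h
      exact absurd (Finset.mem_univ j) h
  rwa [Polynomial.coeff_C_mul, h8] at h7

theorem WPa_taylor {R : Type} [CommRing R] {q : ℕ} (𝔦 : Ideal R) (c : R) {a : ℕ} (ha : a ≤ q)
    (n : ℕ) :
    ∀ (m : ℕ) (x : Fin n → R) (ψ : Fin n → R →+* AdjoinRoot ((Polynomial.X : R[X]) ^ q))
      (G : (Fin n → Fin a) → R),
      (∀ i, ∀ h ∈ 𝔦, ψ i h ∈ 𝔦.map (AdjoinRoot.of ((Polynomial.X : R[X]) ^ q))) →
      (∀ i, ψ i (x i) = AdjoinRoot.of _ (x i) + AdjoinRoot.of _ c * AdjoinRoot.root _) →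
      (∀ i j, j ≠ i → ψ i (x j) = AdjoinRoot.of _ (x j)) →
      (∀ i, ψ i c - AdjoinRoot.of _ c ∈
        Ideal.span {AdjoinRoot.root ((Polynomial.X : R[X]) ^ q)}) →
      (∀ i β, ψ i (G β) = AdjoinRoot.of _ (G β)) →
      c ^ m * ∑ β, G β * ∏ i, x i ^ (β i : ℕ) ∈ 𝔦 → ∀ β, c ^ (m + 2 * n * a) * G β ∈ 𝔦 := by
  induction n with
  | zero =>
    intro m x ψ G _ _ _ _ _ h β
    rw [Fintype.sum_subsingleton _ β, Fin.prod_univ_zero, mul_one] at h
    rwa [mul_zero, zero_mul, add_zero]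
  | succ n ih =>
    intro m x ψ G h1 h2 h3 h4 h5 h β
    have e : ∑ β, G β * ∏ i, x i ^ (β i : ℕ) = ∑ j : Fin a, (∑ β' : Fin n → Fin a,
        G (Fin.cons j β') * ∏ i : Fin n, x i.succ ^ (β' i : ℕ)) * x 0 ^ (j : ℕ) := by
      rw [← (Fin.consEquiv fun _ : Fin (n + 1) => Fin a).sum_comp, Fintype.sum_prod_type]
      refine Finset.sum_congr rfl fun j _ => ?_
      rw [Finset.sum_mul]
      refine Finset.sum_congr rfl fun β' _ => ?_
      rw [Fin.prod_univ_succ, mul_assoc, mul_comm (x 0 ^ _)]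
      rfl
    rw [e] at h
    have h6 := taylor_one' 𝔦 (ψ 0) (h1 0) c (x 0) (h4 0) (h2 0) ha _ (fun j => by
      rw [map_sum, map_sum]
      refine Finset.sum_congr rfl fun β' _ => ?_
      rw [map_mul, map_mul, h5, map_prod, map_prod]
      refine congrArg _ (Finset.prod_congr rfl fun i _ => ?_)
      rw [map_pow, map_pow, h3 0 _ (Fin.succ_ne_zero i)]) h (β 0)
    have h7 := ih (m + 2 * a) (fun i => x i.succ) (fun i => ψ i.succ)
      (fun β' => G (Fin.cons (β 0) β')) (fun i => h1 i.succ) (fun i => h2 i.succ)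
      (fun i j hj => h3 i.succ j.succ fun h => hj (Fin.succ_injective _ h)) (fun i => h4 i.succ)
      (fun i β' => h5 _ _) h6 (Fin.tail β)
    have e2 : m + 2 * (n + 1) * a = m + 2 * a + 2 * n * a := by ring
    rwa [Fin.cons_self_tail, ← e2] at h7

/-- `taylor_one'` one variable at a time (compare `stepC`; `psi_stable` with `k = 1`). -/
theorem taylor_all {p : ℕ} [Fact p.Prime] {R : Type} [CommRing R] [IsLocalRing R] [CharP R p]
    (𝔡 : Ideal R) (r e : ℕ) {n : ℕ} (c : R) (x : Fin n → R) (h2 : ∀ i, T2 𝔡 (p ^ e) c x i)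
    {a : ℕ} (ha : a ≤ p ^ e) (g : (Fin n → Fin a) → R)
    (h : ∑ β, g β ^ p ^ e * ∏ i, x i ^ (β i : ℕ) ∈ Isp 𝔡 r (p ^ e)) (β : Fin n → Fin a) :
    c ^ (2 * n * a) * g β ^ p ^ e ∈ Isp 𝔡 r (p ^ e) := by
  choose ψ γ hγ hψ hx hx' using h2
  have h3 := WPa_taylor (Isp 𝔡 r (p ^ e)) c ha n 0 x ψ (fun β => g β ^ p ^ e)
    (fun i y hy => by
      have h4 := psi_stable 𝔡 r e 1 (ψ i) (hγ i) (hψ i) (h := y) (by rwa [pow_one])
      rwa [pow_one] at h4) hx hx'
    (fun i => (Ideal.span_singleton_le_iff_mem _).2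
      (Ideal.mul_mem_left _ _ (Ideal.mem_span_singleton_self _)) (hψ i c))
    (fun i β => P1b_psi_pow e (ψ i) (hψ i) (g β)) (by rwa [pow_zero, one_mul]) β
  rwa [zero_add] at h3

end

end Pool.Agent.Lib.MP_4287a9_ag
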