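import Pool.Agent.Lib.MP_4287a9_ag.P1a
import Pool.Agent.Lib.MP_4287a9_ag.WPa

/-!
A uniform positive lower bound.
-/

open scoped TensorProduct ENNReal NNReal nonZeroDivisors Polynomial
open Filter

namespace Pool.Agent.Lib.MP_4287a9_ag

noncomputable section

private theorem WPb_len {κ R : Type} [Field κ] [CommRing R] [IsLocalRing R] [Algebra κ R]
    (hres : ∀ y : R, ∃ l : κ, y - algebraMap κ R l ∈ IsLocalRing.maximalIdeal R) (M : Type)
    [AddCommGroup M] [Module R M] [Module κ M] [IsScalarTower κ R M] :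
    Module.length κ M ≤ Module.length R M := by
  rw [IsLocalRing.length_restrictScalars κ R M]
  have hs : Function.Surjective
      (Algebra.linearMap (IsLocalRing.ResidueField κ) (IsLocalRing.ResidueField R)) := by
    intro z
    obtain ⟨y, rfl⟩ := IsLocalRing.residue_surjective z
    obtain ⟨l, hl⟩ := hres y
    refine ⟨IsLocalRing.residue κ l, ?_⟩
    rw [Algebra.linearMap_apply, IsLocalRing.ResidueField.algebraMap_residue, eq_comm,
      ← sub_eq_zero, ← map_sub, IsLocalRing.residue_eq_zero_iff]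
    exact hl
  have h1 := Module.length_le_of_surjective _ hs
  rw [Module.length_eq_one (IsLocalRing.ResidueField κ) (IsLocalRing.ResidueField κ)] at h1
  calc _ ≤ Module.length R M * 1 := by gcongr
    _ = _ := mul_one _

/-- The monomials `x ^ β`, `β i < a`, are linearly independent over `κ` in `R / I`
(`taylor_all`; every element of `κ` is a `q`-th power), and the length over `R` is the dimension
over `κ` (`IsLocalRing.length_restrictScalars`). -/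
theorem length_Isp_ge {p : ℕ} [Fact p.Prime] {κ R : Type} [Field κ] [Finite κ] [CharP κ p]
    [CommRing R] [IsLocalRing R] [Algebra κ R] [CharP R p]
    (hres : ∀ y : R, ∃ l : κ, y - algebraMap κ R l ∈ IsLocalRing.maximalIdeal R) (𝔡 : Ideal R)
    (r e : ℕ) {n : ℕ} (c : R) (x : Fin n → R) (h2 : ∀ i, T2 𝔡 (p ^ e) c x i) {a : ℕ}
    (ha : a ≤ p ^ e) (hc : c ^ (2 * n * a) ∉ Isp 𝔡 r (p ^ e)) :
    ((a ^ n : ℕ) : ℕ∞) ≤ Module.length R (R ⧸ Isp 𝔡 r (p ^ e)) := by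
  classical
  refine le_trans ?_ (WPb_len hres _)
  have hroot : ∀ l : κ, ∃ m : κ, m ^ p ^ e = l := fun l =>
    Finite.surjective_of_injective (iterateFrobenius κ p e).injective l
  choose rt hrt using hroot
  let L : ((Fin n → Fin a) → κ) →ₗ[κ] R ⧸ Isp 𝔡 r (p ^ e) :=
    Fintype.linearCombination κ fun β : Fin n → Fin a =>
      Ideal.Quotient.mk (Isp 𝔡 r (p ^ e)) (∏ i, x i ^ (β i : ℕ))
  have hL : Function.Injective L := by
    rw [injective_iff_map_eq_zero]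
    intro l hl
    have h1 : ∑ β : Fin n → Fin a, algebraMap κ R (rt (l β)) ^ p ^ e * ∏ i, x i ^ (β i : ℕ) ∈
        Isp 𝔡 r (p ^ e) := by
      rw [← Ideal.Quotient.eq_zero_iff_mem, ← hl, map_sum, Fintype.linearCombination_apply]
      refine Finset.sum_congr rfl fun β _ => ?_
      rw [← map_pow, hrt, ← Algebra.smul_def]
      rfl
    funext β
    by_contra hβ
    have h3 := taylor_all 𝔡 r e c x h2 ha (fun β => algebraMap κ R (rt (l β))) h1 β
    rw [← map_pow, hrt] at h3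
    have h4 := (Isp 𝔡 r (p ^ e)).mul_mem_right (algebraMap κ R (l β)⁻¹) h3
    rw [mul_assoc, ← map_mul, mul_inv_cancel₀ hβ, map_one, mul_one] at h4
    exact hc h4
  have h5 := Module.length_le_of_injective L hL
  rw [Module.length_pi, Module.length_eq_one, mul_one, ENat.card_eq_coe_fintype_card] at h5
  simpa using h5

/-- `c₀ = η ^ n` with `η = min 1 (ε / (2 n)) / 2` works. `t > 0` since `SFRi ⊤ 0` holds. At the
levels `q` of `pure_iter`, `c ^ ⌈ε (q - 1)⌉ ∉ Isp`, `𝔞 ^ ⌈t q⌉ ≤ Isp` (`stepA`), so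
`length (R / 𝔞 ^ ⌈t q⌉) ≥ a ^ n` with `a = min q ⌊ε (q - 1) / (2 n)⌋`; hence frequently
`n! * length (R / 𝔞 ^ j) / j ^ n ≥ (η / t) ^ n`. -/
theorem pos_bound {n : ℕ} (hn : 1 ≤ n) {ε : ℝ≥0} (hε : 0 < ε) :
    ∃ c0 : ℝ≥0, 0 < c0 ∧ ∀ (p : ℕ) [Fact p.Prime] (κ R : Type) [Field κ] [Finite κ] [CharP κ p]
      [CommRing R] [IsLocalRing R] [Algebra κ R] [CharP R p] (𝔡 𝔞 : Ideal R) (r : ℕ) (c : R)
      (x : Fin n → R) (t : ℝ≥0),
      (∀ y : R, ∃ l : κ, y - algebraMap κ R l ∈ IsLocalRing.maximalIdeal R) →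
      (∀ e i, T2 𝔡 (p ^ e) c x i) → SFRi p 𝔡 r (Ideal.span {c}) ε → ¬ SFRi p 𝔡 r 𝔞 t →
        (c0 : ℝ≥0∞) ≤ mult n 𝔞 * (t : ℝ≥0∞) ^ n := by
  have hn0 : (0 : ℝ) < n := by exact_mod_cast hn
  have hε0 : (0 : ℝ) < ε := hε
  obtain ⟨η, hη0, hη1, hη2⟩ : ∃ η : ℝ≥0, (0 : ℝ) < η ∧ 2 * (η : ℝ) ≤ 1 ∧
      2 * n * (2 * (η : ℝ)) ≤ ε := by
    have h1 : 0 < min 1 ((ε : ℝ) / (2 * n)) := lt_min one_pos (by positivity)
    refine ⟨⟨min 1 ((ε : ℝ) / (2 * n)) / 2, by positivity⟩, ?_, ?_, ?_⟩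
    · change 0 < min 1 ((ε : ℝ) / (2 * n)) / 2
      positivity
    · change 2 * (min 1 ((ε : ℝ) / (2 * n)) / 2) ≤ 1
      have := min_le_left 1 ((ε : ℝ) / (2 * n))
      linarith
    · change 2 * n * (2 * (min 1 ((ε : ℝ) / (2 * n)) / 2)) ≤ ε
      have := min_le_right 1 ((ε : ℝ) / (2 * n))
      rw [le_div_iff₀ (by positivity)] at this
      linarith
  refine ⟨η ^ n, pow_pos hη0 n, ?_⟩
  intro p hp κ R _ _ _ _ _ _ _ 𝔡 𝔞 r c x t hres h2 hc ht
  have hp0 : 0 < p := hp.out.pos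
  have h0 := hc.top
  have ht0 : (0 : ℝ) < t := by
    rcases eq_or_lt_of_le t.2 with h | h
    · exfalso
      apply ht
      intro y hy
      obtain ⟨e, he, hr, a, -, φ, hφ, h1⟩ := h0 y hy
      refine ⟨e, he, hr, a, ?_, φ, hφ, h1⟩
      have h' : (t : ℝ) = 0 := h.symm
      rw [h', zero_mul, Nat.ceil_zero, pow_zero, Ideal.one_eq_top]
      trivial
    · exact h
  have ht0' : t ≠ 0 := fun h => by simp [h] at ht0
  have key : ∃ᶠ j : ℕ in atTop, ((η / t : ℝ≥0) : ℝ≥0∞) ^ n ≤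
      (n.factorial : ℝ≥0∞) * (Module.length R (R ⧸ 𝔞 ^ j) : ℝ≥0∞) / (j : ℝ≥0∞) ^ n := by
    rw [frequently_atTop]
    intro J
    obtain ⟨E, hE⟩ := exists_nat_ge (max ((J : ℝ) / t) ((η + t + 2 * η * t) / (η * t)))
    obtain ⟨e, hEe, hr, a₀, ha₀, φ, hφ, h1⟩ := pure_iter hp0 hc E
    have hq : (E : ℝ) ≤ (p : ℝ) ^ e := by
      have := Nat.lt_pow_self (n := e) hp.out.one_lt
      exact_mod_cast hEe.trans this.le
    have hq1 : (1 : ℝ) ≤ (p : ℝ) ^ e := one_le_pow₀ (by exact_mod_cast hp0)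
    have hq2 : (J : ℝ) ≤ t * (p : ℝ) ^ e := by
      have := (le_max_left _ _).trans (hE.trans hq)
      rw [div_le_iff₀ ht0] at this
      linarith
    have hq3 : (η : ℝ) + t + 2 * η * t ≤ (p : ℝ) ^ e * (η * t) := by
      have := (le_max_right _ _).trans (hE.trans hq)
      rwa [div_le_iff₀ (by positivity)] at this
    have hA := stepA hp0 h0 ht hr
    have hd : (0 : ℝ) ≤ 2 * η * ((p : ℝ) ^ e - 1) := by
      have : (0 : ℝ) ≤ (p : ℝ) ^ e - 1 := by linarith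
      positivity
    have ha1 := Nat.floor_le hd
    have ha2 := Nat.lt_floor_add_one (2 * (η : ℝ) * ((p : ℝ) ^ e - 1))
    have hj1 := Nat.le_ceil ((t : ℝ) * (p : ℝ) ^ e)
    have hj2 := Nat.ceil_lt_add_one (a := (t : ℝ) * (p : ℝ) ^ e) (by positivity)
    generalize ⌊2 * (η : ℝ) * ((p : ℝ) ^ e - 1)⌋₊ = a at ha1 ha2
    generalize ⌈(t : ℝ) * (p : ℝ) ^ e⌉₊ = j at hj1 hj2 hA
    have ha : a ≤ p ^ e := by
      have : (a : ℝ) ≤ (p : ℝ) ^ e := by nlinarith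
      exact_mod_cast this
    have hN : 2 * n * a ≤ ⌈(ε : ℝ) * ((p : ℝ) ^ e - 1)⌉₊ := by
      have h3 := Nat.le_ceil ((ε : ℝ) * ((p : ℝ) ^ e - 1))
      have h4 := mul_le_mul_of_nonneg_left ha1 (show (0 : ℝ) ≤ 2 * n by positivity)
      have h5 := mul_le_mul_of_nonneg_right hη2 (show (0 : ℝ) ≤ (p : ℝ) ^ e - 1 by linarith)
      have : ((2 * n * a : ℕ) : ℝ) ≤ (⌈(ε : ℝ) * ((p : ℝ) ^ e - 1)⌉₊ : ℝ) := by
        push_cast
        nlinarith
      exact_mod_cast this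
    have hcI : c ^ (2 * n * a) ∉ Isp 𝔡 r (p ^ e) := by
      intro hcon
      have h3 : Ideal.span {c} ^ (2 * n * a) ≤ Isp 𝔡 r (p ^ e) := by
        rw [Ideal.span_singleton_pow, Ideal.span_singleton_le_iff_mem]
        exact hcon
      have h4 := h3 (Ideal.pow_le_pow_right hN ha₀) φ hφ
      rw [h1] at h4
      exact (IsLocalRing.maximalIdeal.isMaximal R).ne_top ((Ideal.eq_top_iff_one _).2 h4)
    have hlen := (length_Isp_ge hres 𝔡 r e c x (h2 e) ha hcI).trans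
      (Module.length_le_of_surjective (Submodule.factor hA) (Submodule.factor_surjective hA))
    have hj0 : j ≠ 0 := by
      rintro rfl
      have : (0 : ℝ) < t * (p : ℝ) ^ e := by positivity
      simp only [Nat.cast_zero] at hj1
      linarith
    refine ⟨j, by exact_mod_cast hq2.trans hj1, ?_⟩
    rw [ENNReal.le_div_iff_mul_le (Or.inl (pow_ne_zero _ (by exact_mod_cast hj0)))
      (Or.inl (ENNReal.pow_ne_top (ENNReal.natCast_ne_top j))), ← mul_pow]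
    have h6 : ((η / t : ℝ≥0) : ℝ≥0∞) * (j : ℝ≥0∞) ≤ (a : ℝ≥0∞) := by
      have h7 : (η / t : ℝ≥0) * (j : ℝ≥0) ≤ (a : ℝ≥0) := by
        rw [← NNReal.coe_le_coe]
        push_cast
        rw [div_mul_eq_mul_div, div_le_iff₀ ht0]
        have h8 := mul_le_mul_of_nonneg_left hj2.le hη0.le
        have h9 := mul_le_mul_of_nonneg_right ha2.le ht0.le
        nlinarith
      exact_mod_cast h7
    have h8 : ((a : ℝ≥0∞)) ^ n ≤ (Module.length R (R ⧸ 𝔞 ^ j) : ℝ≥0∞) := by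
      have := ENat.toENNReal_le.2 hlen
      simpa using this
    have h9 : (1 : ℝ≥0∞) ≤ (n.factorial : ℝ≥0∞) := by
      exact_mod_cast Nat.factorial_pos n
    calc _ ≤ (a : ℝ≥0∞) ^ n := by gcongr
      _ ≤ 1 * (Module.length R (R ⧸ 𝔞 ^ j) : ℝ≥0∞) := by rwa [one_mul]
      _ ≤ _ := by gcongr
  have h1 : ((η / t : ℝ≥0) : ℝ≥0∞) ^ n ≤ mult n 𝔞 := le_limsup_of_frequently_le key
  calc ((η ^ n : ℝ≥0) : ℝ≥0∞) = ((η / t : ℝ≥0) : ℝ≥0∞) ^ n * (t : ℝ≥0∞) ^ n := by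
        rw [← mul_pow, ← ENNReal.coe_mul, div_mul_cancel₀ _ ht0', ENNReal.coe_pow]
    _ ≤ _ := by gcongr

end

end Pool.Agent.Lib.MP_4287a9_ag
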