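import Pool.Agent.Lib.MP_4287a9_ag.WLift
import Pool.Agent.Lib.MP_4287a9_ag.WSemi

/-!
Reductions of the point exist in all large characteristics.
-/

open scoped TensorProduct ENNReal NNReal nonZeroDivisors Polynomial
open Filter

namespace Pool.Agent.Lib.MP_4287a9_ag

noncomputable section

theorem exists_red {k B T : Type} [Field k] [CharZero k] [CommRing B] [Algebra.FiniteType ℤ B]
    [Algebra B k] (hB : Function.Injective (algebraMap B k)) [CommRing T] [Algebra B T]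
    [Algebra.FiniteType B T] {𝔫 : Ideal T} (h : ext B k 𝔫 ≠ ⊤) {b : B} (hb : b ≠ 0) :
    ∃ p₀ : ℕ, ∀ p : ℕ, p₀ ≤ p → p.Prime → ∃ (κ : Type) (_ : Field κ) (_ : Algebra B κ),
      Function.Surjective (algebraMap B κ) ∧ algebraMap B κ b ≠ 0 ∧ ringChar κ = p ∧
        ∃ m : Ideal (κ ⊗[B] T), m.IsPrime ∧ ext B κ 𝔫 ≤ m := by
  obtain ⟨𝔮, h𝔮, hle⟩ := Ideal.exists_le_maximal _ h
  let 𝔮₀ : Ideal T := 𝔮.comap (Algebra.TensorProduct.includeRight : T →ₐ[B] k ⊗[B] T)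
  have hp₀ : 𝔮₀.IsPrime := Ideal.comap_isPrime _ _
  have h𝔫 : 𝔫 ≤ 𝔮₀ := Ideal.map_le_iff_le_comap.1 hle
  have hinj : ∀ a : B, algebraMap B (T ⧸ 𝔮₀) a = 0 → a = 0 := fun a ha => by
    by_contra h0
    have h1 : algebraMap B T a ∈ 𝔮₀ := Ideal.Quotient.eq_zero_iff_mem.1 ha
    have h2 : algebraMap k (k ⊗[B] T) (algebraMap B k a) ∈ 𝔮 := by
      rw [← IsScalarTower.algebraMap_apply]
      have h3 := Ideal.mem_comap.1 h1
      rwa [AlgHom.commutes] at h3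
    exact h𝔮.ne_top (Ideal.eq_top_of_isUnit_mem _ h2
      ((IsUnit.mk0 _ ((map_ne_zero_iff _ hB).2 h0)).map _))
  have hcz : CharZero B := ⟨fun x y e => by
    have h1 := congrArg (algebraMap B k) e
    rw [map_natCast, map_natCast] at h1
    exact_mod_cast h1⟩
  have hft : Algebra.FiniteType ℤ (T ⧸ 𝔮₀) :=
    Algebra.FiniteType.trans (S := B) inferInstance inferInstance
  have hZ : Function.Injective (Algebra.ofId ℤ (T ⧸ 𝔮₀)) := by
    refine (injective_iff_map_eq_zero _).2 fun z hz => ?_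
    have h1 : algebraMap B (T ⧸ 𝔮₀) (z : B) = 0 := by
      rw [map_intCast]
      simpa using hz
    exact_mod_cast hinj _ h1
  obtain ⟨c, hc, H⟩ := lift_pt (B := ℤ) (Algebra.ofId ℤ (T ⧸ 𝔮₀)) hZ
    (b' := algebraMap B (T ⧸ 𝔮₀) b) fun h0 => hb (hinj b h0)
  refine ⟨c.natAbs + 1, fun p hp hpp => ?_⟩
  have : Fact p.Prime := ⟨hpp⟩
  obtain ⟨κ', _, _, _, e, χ', -, hχ⟩ := H (ZMod p) (Algebra.ofId ℤ (ZMod p)) (by
    change algebraMap ℤ (ZMod p) c ≠ 0
    rw [eq_intCast, Ne, ZMod.intCast_zmod_eq_zero_iff_dvd, Int.natCast_dvd]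
    exact Nat.not_dvd_of_pos_of_lt (Int.natAbs_pos.2 hc) hp)
  let _ : Algebra B κ' := (χ'.toRingHom.comp (algebraMap B (T ⧸ 𝔮₀))).toAlgebra
  let τ : T →ₐ[B] κ' :=
    { χ'.toRingHom.comp (Ideal.Quotient.mk 𝔮₀) with commutes' := fun _ => rfl }
  obtain ⟨κ, _, _, _, χ₁, j, hs, hj⟩ := exists_range_field (Algebra.ofId B κ')
  have hχ₁ : ∀ a, χ₁ a = algebraMap B κ a := fun a => χ₁.commutes a
  have hch : CharP κ' p := charP_of_injective_ringHom e.toRingHom.injective p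
  refine ⟨κ, inferInstance, inferInstance, fun y => ?_, fun h0 => hχ ?_, ?_,
    (pk τ).comap (bm T j), Ideal.comap_isPrime _ _, ?_⟩
  · obtain ⟨a, ha⟩ := hs y
    exact ⟨a, (hχ₁ a).symm.trans ha⟩
  · have h1 := congrArg j h0
    rw [j.commutes, map_zero] at h1
    exact h1
  · have : CharP κ p := j.toRingHom.charP j.toRingHom.injective p
    exact ringChar.eq κ p
  · refine Ideal.map_le_iff_le_comap.2 fun x hx => ?_
    change pa τ (bm T j ((1 : κ) ⊗ₜ[B] x)) = 0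
    rw [Algebra.TensorProduct.map_tmul, pa_tmul]
    have h1 : τ x = 0 := by
      change χ' (Ideal.Quotient.mk 𝔮₀ x) = 0
      rw [Ideal.Quotient.eq_zero_iff_mem.2 (h𝔫 hx), map_zero]
    rw [AlgHom.id_apply, h1, mul_zero]

end

end Pool.Agent.Lib.MP_4287a9_ag
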