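import Pool.Agent.Lib.MP_4287a9_ag.TD0a
import Pool.Agent.Lib.MP_4287a9_ag.TD0b
import Pool.Agent.Lib.MP_4287a9_ag.TDc
import Pool.Agent.Lib.MP_4287a9_ag.WLen
import Pool.Agent.Lib.MP_4287a9_ag.P1c

/-!
Noether normalization data at a closed point that need not be rational (compare `TD0a`, `TD0b`).
-/

open scoped TensorProduct ENNReal NNReal nonZeroDivisors Polynomial
open Filter

namespace Pool.Agent.Lib.MP_4287a9_ag

noncomputable section

theorem wta_fin {F : Type} [Field F] {n : ℕ} (h : Fin n → F[X]) (hm : ∀ i, (h i).Monic)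
    (hd : ∀ i, 0 < (h i).natDegree) :
    (MvPolynomial.aeval fun i => Polynomial.aeval (MvPolynomial.X i) (h i) :
      MvPolynomial (Fin n) F →ₐ[F] MvPolynomial (Fin n) F).Finite := by
  set τ : MvPolynomial (Fin n) F →ₐ[F] MvPolynomial (Fin n) F :=
    MvPolynomial.aeval fun i => Polynomial.aeval (MvPolynomial.X i) (h i) with hτ
  have hX : ∀ i, τ.toRingHom.IsIntegralElem (MvPolynomial.X i) := fun i => by
    refine ⟨(h i).map MvPolynomial.C - Polynomial.C (MvPolynomial.X i), ?_, ?_⟩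
    · refine ((hm i).map _).sub_of_left (Polynomial.degree_C_le.trans_lt ?_)
      rw [(hm i).degree_map]
      exact Polynomial.natDegree_pos_iff_degree_pos.1 (hd i)
    · have e : τ.toRingHom.comp MvPolynomial.C = algebraMap F _ :=
        RingHom.ext fun a => τ.commutes a
      rw [Polynomial.eval₂_sub, Polynomial.eval₂_map, e, Polynomial.eval₂_C, sub_eq_zero]
      change _ = τ (MvPolynomial.X i)
      rw [hτ, MvPolynomial.aeval_X, Polynomial.aeval_def]
  refine RingHom.IsIntegral.to_finite (fun p => ?_) ?_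
  · induction p using MvPolynomial.induction_on with
    | C a =>
      have e : (MvPolynomial.C a : MvPolynomial (Fin n) F) = τ.toRingHom (MvPolynomial.C a) :=
        (τ.commutes a).symm
      rw [e]
      exact RingHom.isIntegralElem_map _
    | add p q hp hq => exact hp.add _ hq
    | mul_X p i hp => exact hp.mul _ (hX i)
  · refine RingHom.FiniteType.of_comp_finiteType (f := algebraMap F _) ?_
    have e : τ.toRingHom.comp (algebraMap F _) = algebraMap F _ :=
      RingHom.ext fun a => τ.commutes a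
    change (τ.toRingHom.comp (algebraMap F _)).FiniteType
    rw [e]
    exact RingHom.finiteType_algebraMap.2 inferInstance

theorem wta_inj {F T' : Type} [Field F] [CommRing T'] [IsDomain T'] [Algebra F T'] {n : ℕ}
    (hn : Algebra.trdeg F T' = n) (x : Fin n → T')
    (hfin : (MvPolynomial.aeval x : MvPolynomial (Fin n) F →ₐ[F] T').Finite) :
    Function.Injective (MvPolynomial.aeval x : MvPolynomial (Fin n) F →ₐ[F] T') := by
  have hmem : ∀ p : MvPolynomial (Fin n) F,
      MvPolynomial.aeval x p ∈ Algebra.adjoin F (Set.range x) := fun p => by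
    rw [Algebra.adjoin_range_eq_range_aeval]
    exact ⟨p, rfl⟩
  have : Algebra.IsAlgebraic (Algebra.adjoin F (Set.range x)) T' := ⟨fun w => by
    obtain ⟨p, hp, h0⟩ := RingHom.Finite.to_isIntegral hfin w
    refine IsIntegral.isAlgebraic ⟨p.map ((MvPolynomial.aeval x).codRestrict _ hmem).toRingHom,
      hp.map _, ?_⟩
    rw [Polynomial.eval₂_map]
    exact h0⟩
  exact (Algebra.IsAlgebraic.isTranscendenceBasis_of_le_trdeg_of_finite F x
    (by rw [hn, Cardinal.mk_fin])).1

theorem wta_noether {F T' : Type} [Field F] [CommRing T'] [IsDomain T'] [Algebra F T']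
    [Algebra.FiniteType F T'] (m : Ideal T')
    (hm : ∀ w : T', ∃ h : F[X], h ≠ 0 ∧ Polynomial.aeval w h ∈ m) {n : ℕ}
    (hn : Algebra.trdeg F T' = n) :
    ∃ x : Fin n → T', (∀ i, x i ∈ m) ∧
      Function.Injective (MvPolynomial.aeval x : MvPolynomial (Fin n) F →ₐ[F] T') ∧
      (MvPolynomial.aeval x : MvPolynomial (Fin n) F →ₐ[F] T').Finite := by
  obtain ⟨s, g, hinj, hfin⟩ := exists_finite_inj_algHom_of_fg F T'
  obtain rfl : s = n := by
    have h := (td0a_trdeg g hinj hfin).symm.trans hn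
    exact_mod_cast h
  choose h h0 hh using fun i : Fin s => hm (g (MvPolynomial.X i))
  have hmon : ∀ i, (h i * Polynomial.C (h i).leadingCoeff⁻¹).Monic := fun i =>
    Polynomial.monic_mul_leadingCoeff_inv (h0 i)
  let k : Fin s → F[X] := fun i => h i * Polynomial.C (h i).leadingCoeff⁻¹ * Polynomial.X
  have hk : ∀ i, (k i).Monic := fun i => (hmon i).mul Polynomial.monic_X
  have hd : ∀ i, 0 < (k i).natDegree := fun i => by
    rw [Polynomial.natDegree_mul_X (hmon i).ne_zero]
    exact Nat.succ_pos _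
  have e : (MvPolynomial.aeval fun i => Polynomial.aeval (g (MvPolynomial.X i)) (k i) :
      MvPolynomial (Fin s) F →ₐ[F] T') =
      g.comp (MvPolynomial.aeval fun i => Polynomial.aeval (MvPolynomial.X i) (k i)) :=
    MvPolynomial.algHom_ext fun i => by
      rw [AlgHom.comp_apply, MvPolynomial.aeval_X, MvPolynomial.aeval_X,
        Polynomial.aeval_algHom_apply]
  have hf : (MvPolynomial.aeval fun i => Polynomial.aeval (g (MvPolynomial.X i)) (k i) :
      MvPolynomial (Fin s) F →ₐ[F] T').Finite := e ▸ hfin.comp (wta_fin k hk hd)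
  refine ⟨_, fun i => ?_, wta_inj hn _ hf, hf⟩
  rw [map_mul, map_mul]
  exact m.mul_mem_right _ (m.mul_mem_right _ (hh i))

/-- As `exists_nd_field`. Replace `td0a_noether`: if `x'` is a Noether normalization and `h i` is
monic of positive degree with `h i (x' i) ∈ m`, then `x i = h i (x' i)` is again one (`T'` is finite
over `F[x]`; injectivity follows from the transcendence degree or from degrees). -/
theorem exists_nd_field' {F T' : Type} [Field F] [CharZero F] [CommRing T'] [IsDomain T']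
    [Algebra F T'] [Algebra.FiniteType F T'] (m : Ideal T')
    (hm : ∀ w : T', ∃ h : F[X], h ≠ 0 ∧ Polynomial.aeval w h ∈ m) {n : ℕ}
    (hn : Algebra.trdeg F T' = n) {𝔡 : Ideal T'} (h𝔡 : 𝔡 ≠ ⊥) :
    ∃ (C : ℕ) (d : ND F T' n C), d.Good m 𝔡 := by
  obtain ⟨x, hx, hinj, hfin⟩ := wta_noether m hm hn
  let _ : Algebra (MvPolynomial (Fin n) F) T' :=
    (MvPolynomial.aeval x : MvPolynomial (Fin n) F →ₐ[F] T').toRingHom.toAlgebra
  have : Module.Finite (MvPolynomial (Fin n) F) T' := hfin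
  have : FaithfulSMul (MvPolynomial (Fin n) F) T' :=
    (faithfulSMul_iff_algebraMap_injective _ _).2 hinj
  obtain ⟨θ, c, hc, hcond⟩ := td0a_cond (MvPolynomial (Fin n) F) T'
  obtain ⟨γ, hγ, hγ0⟩ := Submodule.exists_mem_ne_zero_of_ne_bot h𝔡
  have hθ : IsIntegral (MvPolynomial (Fin n) F) θ := Algebra.IsIntegral.isIntegral θ
  have h1 : algebraMap (MvPolynomial (Fin n) F) T' c *
      Polynomial.aeval θ (Polynomial.derivative (minpoly (MvPolynomial (Fin n) F) θ)) * γ ≠ 0 :=
    mul_ne_zero (mul_ne_zero ((map_ne_zero_iff _ hinj).2 hc) (td0a_deriv hθ)) hγ0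
  obtain ⟨N, hN, hdvd⟩ := (Algebra.IsAlgebraic.isAlgebraic (R := MvPolynomial (Fin n) F) _
    ).exists_nonzero_dvd (mem_nonZeroDivisors_of_ne_zero (pow_ne_zero 2 h1))
  obtain ⟨C, ω, hC, hω⟩ := td0a_gens (MvPolynomial (Fin n) F) T' N.totalDegree
  exact ⟨C, ⟨x, θ, γ, minpoly (MvPolynomial (Fin n) F) θ, c, N, ω⟩, hx, hγ, minpoly.monic hθ,
    minpoly.aeval _ θ, fun f hf => minpoly.isIntegrallyClosed_dvd hθ hf, hcond, hω,
    mem_nonZeroDivisors_of_ne_zero h1, hN, hC, hdvd⟩

/-- As `exists_nd_base`. -/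
theorem exists_nd_base' {B T : Type} [CommRing B] [IsDomain B] [CommRing T] [Algebra B T]
    [Algebra.FiniteType B T] (m₀ : Ideal T) (hs : ∀ b : B, b ≠ 0 → ∀ x, b • x ∈ m₀ → x ∈ m₀)
    (𝔡 : Ideal T) {n C : ℕ} (d : ND (FractionRing B) (FractionRing B ⊗[B] T) n C)
    (hd : d.Good (ext B (FractionRing B) m₀) (ext B (FractionRing B) 𝔡)) :
    ∃ (d' : ND B T n C) (b : B), b ≠ 0 ∧ d'.GoodB m₀ 𝔡 b := by
  have hsur : ∀ w : FractionRing B ⊗[B] T, ∃ (b : B) (t : T), b ≠ 0 ∧
      (Algebra.TensorProduct.includeRight : T →ₐ[B] FractionRing B ⊗[B] T) t = b • w := fun w => by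
    obtain ⟨⟨t, s⟩, h⟩ := IsLocalizedModule.surj B⁰ (TensorProduct.mk B (FractionRing B) T 1) w
    exact ⟨s, t, nonZeroDivisors.coe_ne_zero s, h.symm⟩
  have hker : ∀ t : T, (Algebra.TensorProduct.includeRight : T →ₐ[B] FractionRing B ⊗[B] T) t = 0 →
      ∃ b : B, b ≠ 0 ∧ b • t = 0 := fun t ht => by
    obtain ⟨s, h⟩ := (IsLocalizedModule.eq_zero_iff B⁰
      (TensorProduct.mk B (FractionRing B) T 1)).1 ht
    exact ⟨s, nonZeroDivisors.coe_ne_zero s, h⟩
  have e2 : ∀ w ∈ m₀.map (Algebra.TensorProduct.includeRight : T →ₐ[B] FractionRing B ⊗[B] T),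
      ∃ b : B, b ≠ 0 ∧ ∃ t ∈ m₀,
        (Algebra.TensorProduct.includeRight : T →ₐ[B] FractionRing B ⊗[B] T) t = b • w := by
    intro w hw
    induction hw using Submodule.span_induction with
    | mem y hy =>
      obtain ⟨t, ht, rfl⟩ := hy
      exact ⟨1, one_ne_zero, t, ht, (one_smul _ _).symm⟩
    | zero => exact ⟨1, one_ne_zero, 0, m₀.zero_mem, by rw [map_zero, smul_zero]⟩
    | add x y _ _ hx hy =>
      obtain ⟨b, hb, t, ht, h⟩ := hx
      obtain ⟨b', hb', t', ht', h'⟩ := hy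
      refine ⟨b * b', mul_ne_zero hb hb', b' • t + b • t',
        m₀.add_mem (m₀.smul_of_tower_mem _ ht) (m₀.smul_of_tower_mem _ ht'), ?_⟩
      rw [map_add, map_smul, map_smul, h, h', smul_smul, smul_smul, smul_add, mul_comm b' b]
    | smul a y _ hy =>
      obtain ⟨b, hb, t, ht, h⟩ := hy
      obtain ⟨b', t', hb', h'⟩ := hsur a
      refine ⟨b' * b, mul_ne_zero hb' hb, t' * t, m₀.mul_mem_left _ ht, ?_⟩
      rw [map_mul, h, h', smul_eq_mul, smul_mul_smul_comm]
  refine TD0b.general (Algebra.TensorProduct.includeRight : T →ₐ[B] FractionRing B ⊗[B] T)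
    hsur hker (fun t ht => ?_) d hd
  obtain ⟨b, hb, t', ht', h⟩ := e2 _ ht
  obtain ⟨b', hb', h'⟩ := hker (b • t - t') (by rw [map_sub, map_smul, h, sub_self])
  rw [smul_sub, sub_eq_zero] at h'
  exact hs b hb t (hs b' hb' _ (h' ▸ m₀.smul_of_tower_mem _ ht'))

/-- `exists_nd_field'` (the residue field is finite over `F`), `ND.Good.t3`, `mult_ne_top`,
`mult_lo`. -/
theorem mult_ne_top_of_max {F A : Type} [Field F] [CharZero F] [CommRing A] [IsDomain A]
    [Algebra F A] [Algebra.FiniteType F A] {n : ℕ} (hn1 : 1 ≤ n) (hn : Algebra.trdeg F A = n)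
    {m 𝔞 : Ideal A} (hm : m.IsMaximal) {N : ℕ} (h : m ^ N ≤ 𝔞) : mult n 𝔞 ≠ ⊤ := by
  have := hm.isPrime
  obtain ⟨C, d, hd⟩ := exists_nd_field' (F := F) m (fun w => by
    let _ := Ideal.Quotient.field m
    have := finite_of_finite_type_of_isJacobsonRing F (A ⧸ m)
    obtain ⟨p, hp, h0⟩ := Algebra.IsAlgebraic.isAlgebraic (R := F) (Ideal.Quotient.mkₐ F m w)
    refine ⟨p, hp, Ideal.Quotient.eq_zero_iff_mem.1 ?_⟩
    rw [Polynomial.aeval_algHom_apply] at h0
    exact h0) hn (𝔡 := ⊤) top_ne_bot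
  rw [← mult_lo m hm h]
  refine mult_ne_top (L := N) ?_ (hd.t3 hn1 hm).2
  rw [← Localization.AtPrime.map_eq_maximalIdeal, ← Ideal.map_pow]
  exact Ideal.map_mono h

end

end Pool.Agent.Lib.MP_4287a9_ag
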