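import Pool.Agent.Lib.MP_4287a9_ag.WLb
import Pool.Agent.Lib.MP_4287a9_ag.WPb

/-!
The upper bound; finiteness and positivity of the normalized volume.
-/

open scoped TensorProduct ENNReal NNReal nonZeroDivisors Polynomial
open Filter

namespace Pool.Agent.Lib.MP_4287a9_ag

noncomputable section

variable {k B T C : Type} [Field k] [CharZero k] [CommRing B] [Algebra.FiniteType ℤ B] [Algebra B k]
  [CommRing T] [Algebra B T] [Algebra.FiniteType B T] [CommRing C] [Algebra B C]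
  [IsDomain (k ⊗[B] T)] [IsIntegrallyClosed (k ⊗[B] T)] {σ : T →ₐ[B] C} {n : ℕ} {𝔡 : Ideal T}
  {r E : ℕ} {c : T} {x : Fin n → T}

theorem Ctx.lctV_le_dim (h : Ctx k σ n 𝔡 r E c x) {𝔞 : Ideal (k ⊗[B] T)} (h0 : 𝔞 ≠ ⊥)
    (ha : 𝔞 ≤ ext B k (RingHom.ker σ)) :
    lctV k n (ext B k (RingHom.ker σ)) (ext B k 𝔡) r 𝔞 ≤ n := by
  have := h.st.isDomain
  have := h.st.finiteType
  refine iSup₂_le fun t ht => ?_
  obtain ⟨b1, hb1, H1⟩ := h.gen (fun h1 => h0 (le_bot_iff.1 (h1 ▸ ha))) (ht.mono h0 ha)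
  obtain ⟨b2, hb2, H2⟩ := h.hT
  obtain ⟨κ, _, _, _, χ, hχ⟩ := exists_pt (B := B) (mul_ne_zero hb1 hb2)
  rw [map_mul] at hχ
  obtain ⟨hp, hN, hC⟩ := inst_lo (pk (χ.comp σ))
  have : Fact (ringChar κ).Prime := ⟨hp⟩
  have h1 : SFRi (ringChar κ) _ r _ t := (H1 κ χ (left_ne_zero_of_mul hχ)).2 trivial
  have h2 := h1.le_dim (by
    rw [spk_ext, ← Localization.AtPrime.map_eq_maximalIdeal]
    exact Ideal.map_mono (ext_ker_le_pk σ χ)) (H2 κ χ (right_ne_zero_of_mul hχ)).2.2.2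
  exact_mod_cast h2

theorem Ctx.nvolV_lt_top (h : Ctx k σ n 𝔡 r E c x) :
    nvolV k n (ext B k (RingHom.ker σ)) (ext B k 𝔡) r < ⊤ := by
  have hm := h.st.max
  have h1 : ext B k (RingHom.ker σ) ^ 1 ≤ ext B k (RingHom.ker σ) := (pow_one _).le
  refine lt_of_le_of_lt (iInf₂_le (f := fun (𝔞 : Ideal (k ⊗[B] T))
    (_ : 𝔞.radical = ext B k (RingHom.ker σ)) =>
      mult n 𝔞 * lctV k n (ext B k (RingHom.ker σ)) (ext B k 𝔡) r 𝔞 ^ n) _ hm.isPrime.radical) ?_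
  exact ENNReal.mul_lt_top (mult_ne_top_of_max h.hn1 h.hn hm h1).lt_top
    (ENNReal.pow_lt_top ((h.lctV_le_dim (h.ne_bot h1) le_rfl).trans_lt (ENNReal.natCast_lt_top n)))

theorem Ctx.ub (h : Ctx k σ n 𝔡 r E c x) {v : ℝ≥0∞}
    (hv : nvolV k n (ext B k (RingHom.ker σ)) (ext B k 𝔡) r < v) :
    ∃ (𝔠 : Ideal T) (N : ℕ) (t : ℝ≥0), RingHom.ker σ ^ N ≤ 𝔠 ∧ 𝔠 ≤ RingHom.ker σ ∧
      Gen False σ 𝔡 r (ext B C 𝔠) t ∧
      mult n (ext B k 𝔠) * (t : ℝ≥0∞) ^ n ≤ (n : ℝ≥0∞) ^ n * v := by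
  have := h.st.isDomain
  have := h.st.finiteType
  have := h.st.charZero
  have hNB : IsNoetherianRing B := Algebra.FiniteType.isNoetherianRing ℤ B
  have hNA : IsNoetherianRing (k ⊗[B] T) := Algebra.FiniteType.isNoetherianRing k _
  have hm := h.st.max
  have hmp := hm.isPrime
  obtain ⟨𝔞, h1⟩ := iInf_lt_iff.1 hv
  obtain ⟨h𝔞, h2⟩ := iInf_lt_iff.1 h1
  obtain ⟨N, hN⟩ := Ideal.exists_radical_pow_le_of_fg 𝔞 (IsNoetherian.noetherian _)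
  rw [h𝔞] at hN
  replace hN : ext B k (RingHom.ker σ) ^ (N + 1) ≤ 𝔞 :=
    (Ideal.pow_le_pow_right (Nat.le_succ N)).trans hN
  obtain ⟨τ, τ', k1, k2, k3⟩ := exists_t_lt (mult_ne_top_of_max h.hn1 h.hn hm hN)
    ((h.lctV_le_dim (h.ne_bot hN) (h𝔞 ▸ Ideal.le_radical)).trans_lt
      (ENNReal.natCast_lt_top n)).ne h2
  obtain ⟨μ, -, -, hv0, hμ⟩ := h.hk.exists_mdl h.hn1 h.hn h.hd h.hr
  have hnv : ¬ μ.VK 𝔞 τ := fun h0 => k1.not_ge (le_iSup₂ (f := fun (t : ℝ≥0)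
    (_ : KltV k n (ext B k (RingHom.ker σ)) (ext B k 𝔡) r 𝔞 t) => (t : ℝ≥0∞)) τ (hμ 𝔞 τ h0))
  obtain ⟨Λ, 𝒥, hfg, rfl⟩ := exists_model 𝔞
  have : Algebra.FiniteType B Λ := (Subalgebra.fg_iff_finiteType Λ).1 hfg
  obtain ⟨Ω, _, _, j, ζ, -, h3, h4⟩ := μ.easy h.st.inj h.hz h.hr Λ.val 𝒥 hnv
  obtain ⟨e, he, rfl⟩ := h.st.exists_e j ζ (Ideal.IsPrime.le_of_pow_le (hN.trans (h3 hv0)))
  let Λ' : Subalgebra B Ω := (j.comp Λ.val).range ⊔ e.range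
  have : Algebra.FiniteType B Λ' :=
    (Subalgebra.fg_iff_finiteType Λ').1 ((range_fg _).sup (range_fg _))
  have hNΛ : IsNoetherianRing Λ' := Algebra.FiniteType.isNoetherianRing B Λ'
  have hNP : IsNoetherianRing (Λ' ⊗[B] T) := Algebra.FiniteType.isNoetherianRing Λ' _
  let ι : C →ₐ[B] Λ' := e.codRestrict Λ' fun y => (le_sup_right : e.range ≤ Λ') ⟨y, rfl⟩
  let φ : Λ →ₐ[B] Λ' := (j.comp Λ.val).codRestrict Λ' fun y =>
    (le_sup_left : (j.comp Λ.val).range ≤ Λ') ⟨y, rfl⟩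
  have hι : Function.Injective ι := fun a b hab => he (congrArg Subtype.val hab)
  have hφ : spk Λ'.val (spk φ 𝒥) = spk j (spk Λ.val 𝒥) := by
    rw [spk_spk, spk_spk]
    rfl
  have hc := h.st.comap_pk j e
  obtain ⟨b1, hb1, H1⟩ := h4.gen h.hz (inj_trans h.st.inj j j.injective) Λ'.val
    Subtype.val_injective (ι.comp σ) φ rfl rfl
  obtain ⟨g, hg, hg'⟩ := spr (ι.comp σ) Λ'.val Subtype.val_injective
    (I₁ := spk φ 𝒥 ⊔ pk (ι.comp σ) ^ (N + 1)) (I₂ := spk φ 𝒥) (IsNoetherian.noetherian _) (by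
      rw [spk, Ideal.map_sup, Ideal.map_pow, lo, Ideal.map_sup, Ideal.map_pow]
      refine sup_le le_rfl ?_
      change lo (pk (e.comp σ)) (spk Λ'.val _) ^ (N + 1) ≤ lo (pk (e.comp σ)) _
      rw [spk_pk, hφ]
      change lo (pk (e.comp σ)) (pk (e.comp σ)) ^ (N + 1) ≤ _
      rw [lo, Localization.AtPrime.map_eq_maximalIdeal, ← lo_spk_max j _ hm _ hc, lo, spk,
        ← Ideal.map_pow, ← Ideal.map_pow]
      exact Ideal.map_mono (Ideal.map_mono hN))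
  have h5 : spk φ 𝒥 ⊔ pk (ι.comp σ) ^ (N + 1) ≤ pk (ι.comp σ) := by
    refine sup_le ?_ (Ideal.pow_le_self (Nat.succ_ne_zero N))
    rw [← comap_pk (ι.comp σ) Λ'.val Subtype.val_injective, ← Ideal.map_le_iff_le_comap]
    change spk Λ'.val _ ≤ pk (e.comp σ)
    rw [hφ]
    exact Ideal.map_le_iff_le_comap.2 (h3 hv0)
  have h6 : Gen False (ι.comp σ) 𝔡 r (spk φ 𝒥 ⊔ pk (ι.comp σ) ^ (N + 1)) τ := by
    refine ⟨b1 * pa (ι.comp σ) g, mul_ne_zero hb1 hg, fun κ _ _ _ χ hχ => ?_⟩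
    rw [map_mul] at hχ
    exact ⟨fun hs => (H1 κ χ (left_ne_zero_of_mul hχ)).1
      (SFRi.mono le_rfl (spr_lo _ χ (right_ne_zero_of_mul hχ) hg') hs), False.elim⟩
  obtain ⟨𝔠, c1, c2, c3, g', hg0, c4⟩ :=
    dt h.st.injC h.st.surj h.st.unr h.hz h.hT h.gen_top ι hι le_sup_right h5 h6
  have hn0 : (0 : ℝ) < n := by exact_mod_cast h.hn1
  refine ⟨𝔠, N + 1, n * τ', c1, c2, c3 _ ?_, ?_⟩
  · push_cast
    exact mul_lt_mul_of_pos_left (by exact_mod_cast k2) hn0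
  have h7 : lo (pk (e.comp σ)) (spk j (spk Λ.val 𝒥)) ≤ lo (pk (e.comp σ)) (spk j (ext B k 𝔠)) := by
    rw [← hφ, spk_ext]
    exact le_trans (Ideal.map_mono (Ideal.map_mono le_sup_left))
      (c4 Ω Λ'.val fun h0 => hg0 (Subtype.ext h0))
  have h8 := mult_anti n h7
  rw [mult_lo_spk j _ hm _ hc, mult_lo_spk j _ hm _ hc, mult_lo _ hm hN,
    mult_lo _ hm (ext_pow_le k c1)] at h8
  calc mult n (ext B k 𝔠) * ((n * τ' : ℝ≥0) : ℝ≥0∞) ^ n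
      ≤ mult n (spk Λ.val 𝒥) * ((n * τ' : ℝ≥0) : ℝ≥0∞) ^ n := mul_le_mul' h8 le_rfl
    _ = (n : ℝ≥0∞) ^ n * ((τ' : ℝ≥0∞) ^ n * mult n (spk Λ.val 𝒥)) := by
        push_cast
        ring
    _ ≤ _ := mul_le_mul' le_rfl k3

theorem Ctx.nvolV_pos (h : Ctx k σ n 𝔡 r E c x) :
    0 < nvolV k n (ext B k (RingHom.ker σ)) (ext B k 𝔡) r := by
  have := h.st.isDomain
  have := h.st.finiteType
  have hext : ∀ (F : Type) [CommRing F] [Algebra B F],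
      ext B F (Ideal.span {c}) = Ideal.span {(1 : F) ⊗ₜ[B] c} := fun F _ _ => by
    rw [ext, Ideal.map_span, Set.image_singleton]
    rfl
  obtain ⟨μ, hf, hρ, hv0, -⟩ := h.hk.exists_mdl h.hn1 h.hn h.hd h.hr
  obtain ⟨ε, hε, hg⟩ := hv0.exists_eps h.hr (𝔞 := ext B k (Ideal.span {c})) fun h0 => h.hc (by
    rwa [Ideal.map_eq_bot_iff_of_injective hρ, hext, Ideal.span_singleton_eq_bot] at h0)
  obtain ⟨b1, hb1, H1⟩ := h.st.gen_of_hasGD h.hz hf hg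
  obtain ⟨c0, hc0, H0⟩ := pos_bound h.hn1 hε
  have hn0 : (n : ℝ≥0∞) ^ n ≠ 0 := pow_ne_zero _ (by exact_mod_cast (by have := h.hn1; omega))
  have hnt : (n : ℝ≥0∞) ^ n ≠ ⊤ := ENNReal.pow_ne_top (ENNReal.natCast_ne_top n)
  rw [pos_iff_ne_zero]
  intro hV
  obtain ⟨v, v1, v2⟩ := exists_between (ENNReal.div_pos (ENNReal.coe_pos.2 hc0).ne' hnt)
  obtain ⟨𝔠, N, t, c1, -, ⟨b2, hb2, H2⟩, c4⟩ := h.ub (v := v) (hV ▸ v1)
  obtain ⟨b3, hb3, H3⟩ := h.st.mult_eq c1 n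
  obtain ⟨b4, hb4, H4⟩ := h.hT
  obtain ⟨κ, _, _, _, χ, hχ⟩ :=
    exists_pt (B := B) (mul_ne_zero (mul_ne_zero hb1 hb2) (mul_ne_zero hb3 hb4))
  rw [map_mul, map_mul, map_mul, mul_ne_zero_iff, mul_ne_zero_iff, mul_ne_zero_iff] at hχ
  obtain ⟨hp, hN, hC⟩ := inst_lo (pk (χ.comp σ))
  have : Fact (ringChar κ).Prime := ⟨hp⟩
  have h1 : SFRi (ringChar κ) _ r _ ε := (H1 κ χ hχ.1.1).2 trivial
  have h2 : ¬ SFRi (ringChar κ) _ r _ t := (H2 κ χ hχ.1.2).1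
  rw [spk_ext, hext, lo.eq_1 _ (Ideal.span _), Ideal.map_span, Set.image_singleton] at h1
  have h3 := H0 (ringChar κ) κ _ _ _ r _ _ t (res_pk _) (H4 κ χ hχ.2.2).2.1 h1 h2
  rw [spk_ext, H3 κ χ hχ.2.1] at h3
  rw [ENNReal.lt_div_iff_mul_lt (Or.inl hn0) (Or.inl hnt), mul_comm] at v2
  exact (h3.trans c4).not_gt v2

end

end Pool.Agent.Lib.MP_4287a9_ag
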